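import Pool.Agent.BPN.E.Tot
import Pool.Agent.BPN.T.Sign

/-!
# Part (E), module ActH: operations on the cohomology ring (project BPN, architect helper30)

`actH a : HR p X →+ HR p X` : the action of an operation on cohomology.

PROOFS.
* well defined and additive (`actH_tot`, `map_add'`): if `tot c = tot c'` then `c m - c' m` is a coboundary for
  every `m`; `act_add_rel` and `act_cobd_rel` of `T/Sign` with `A = fun _ _ => False`: with
  `y = c m - c' m`: `act (c' m + y) - act y - act (c' m)` and `act y` are coboundaries.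
* `actH_null`: `a = dP ∘ b`, `b : EM 0 → (EM k).P`.  `e τ = (b.f (k-1) (pull c τ)).1 id` (for
  `τ` of dimension one less; if that is impossible everything is `0`).  For `σ` put `w = pull c σ`:
  `act a c σ = (b w) (dl 0)`, and the cocycle condition in `(EM k)_{k+1}` for `g = id` gives
  `(b w)(dl 0) = ∑_{i ≥ 0} (-1)^i (b w)(dl (i+1)) = ∑_i (-1)^i (b (d_i w)) id`, `d_i w = pull c (fc i σ)`
  (`pull_fc`, `pull_fc_big`).  `e` is normalised: `b (s_i w) = s_(i+1) (b w)` and `b w ∈ (EM k)_{k-1} = 0`.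
* `actH_mul`: strict equality of cochains: for a cocycle `c` of degree `m` and a simplex `σ` of
  dimension `j` with `j - m = q` one has `((b.f q (pull c σ)).1 : (ℕ → ℕ) → _) = (pull (act b c) σ).1` (as functions,
  `pull (act b c) σ` taken in `EM 0` in degree `q - l`): both vanish at `f` unless `f` is strictly monotone
  and `f i = i + (q - l)` for `i > m + l` (if `f` is strictly monotone and a shift by `q - l` but not
  for all `i > m + l`, then `f` misses a value `i > j`, `f = dl i ∘ f'`, and `d_i (pull c σ) = 0` by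
  `pull_fc_big`); otherwise `f` is a composition of maps `dl i` with `i ≤ dimension`, and `b` commutes
  with the faces (`pull_fc`); in degree `q = l` both have the value `act b c σ` at `id`
  (`EM.ext_bot`, induction on `q - l` with `EM.sep`).
* `actH_pull`: `pull (pullback of c) σ = pull c (f σ)` by definition and naturality of `opr`.
-/

namespace BPN.E

open CategoryTheory SSet Simplicial Opposite

variable {p k l t : ℕ} {X Y : SSet.{0}}

/-! ### Relative and absolute coboundaries -/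

private theorem ah_of_rel {l : ℕ} {z : X.obj (op ⦋l⦌) → ZMod p}
    (h : RelBd X (fun _ _ => False) z) : IsBd z := by
  rcases h.bd with h | ⟨m, h1, e, h2, -, h3⟩
  · exact Or.inl h
  · exact Or.inr ⟨m, h1, e, h2, h3⟩

private theorem ah_to_rel {l : ℕ} {z : X.obj (op ⦋l⦌) → ZMod p} (h : IsBd z) :
    RelBd X (fun _ _ => False) z := by
  refine ⟨?_⟩
  rcases h with h | ⟨m, h1, e, h2, h3⟩
  · exact Or.inl h
  · exact Or.inr ⟨m, h1, e, h2, fun _ h => h.elim, h3⟩

private theorem ah_act_bd (a : Op p k) {m l : ℕ} (h : m + k = l) (c : CoZ X (ZMod p) m)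
    (hc : IsBd c.1) : IsBd (Op.act a h c).1 :=
  ah_of_rel (act_cobd_rel (fun _ _ => False) (fun _ _ _ _ _ _ h => h) a h c (ah_to_rel hc))

private theorem ah_act_add (a : Op p k) {m l : ℕ} (h : m + k = l) (c c' : CoZ X (ZMod p) m) :
    IsBd ((Op.act a h (c + c')).1 - ((Op.act a h c).1 + (Op.act a h c').1)) := by
  have h1 := ah_of_rel (act_add_rel (fun _ _ => False) (fun _ _ _ _ _ _ h => h) a h c c'
    (fun _ h => h.elim))
  have h2 : (Op.act a h (c + c')).1 - ((Op.act a h c).1 + (Op.act a h c').1) =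
      act a h (c + c') - act a h c' - act a h c := by
    change act a h (c + c') - (act a h c + act a h c') = _
    abel
  rw [h2]
  exact h1

private theorem ah_act_sub (a : Op p k) {m l : ℕ} (h : m + k = l) (c c' : CoZ X (ZMod p) m)
    (hc : IsBd (c.1 - c'.1)) : IsBd ((Op.act a h c).1 - (Op.act a h c').1) := by
  have h1 := ah_act_add a h c' (c - c')
  have h2 : IsBd (Op.act a h (c - c')).1 := ah_act_bd a h (c - c') hc
  have h3 : c' + (c - c') = c := by abel
  rw [h3] at h1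
  have h4 : (Op.act a h c).1 - (Op.act a h c').1 =
      ((Op.act a h c).1 - ((Op.act a h c').1 + (Op.act a h (c - c')).1)) +
        (Op.act a h (c - c')).1 := by abel
  rw [h4]
  exact isBd_add h1 h2

private theorem ah_pull_zero {m j : ℕ} (σ : X.obj (op ⦋j⦌)) {n q : ℤ} (hq : q - n = j - m) :
    pull (0 : CoZ X (ZMod p) m) σ hq = 0 := by
  refine Subtype.ext (funext fun f => ?_)
  change pullFun (0 : CoZ X (ZMod p) m).1 σ hq f = 0
  unfold pullFun
  split_ifs
  · rfl
  · rfl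

private theorem ah_act_zero (a : Op p k) {m l : ℕ} (h : m + k = l) :
    Op.act a h (0 : CoZ X (ZMod p) m) = 0 := by
  refine Subtype.ext (funext fun σ => ?_)
  change (a.f k (pull (0 : CoZ X (ZMod p) m) σ (n := 0) (q := k) (by omega))).1 id = 0
  rw [ah_pull_zero]
  have h1 := a.map_pt k
  exact congrArg (fun z : (EM (ZMod p) k).G k => z.1 id) h1

/-- The action on total cocycles. -/
noncomputable def actC (a : Op p k) (c : ∀ m : ℕ, CoZ X (ZMod p) m) :
    ∀ m : ℕ, CoZ X (ZMod p) m := fun n =>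
  if h : k ≤ n then Op.act a (show (n - k) + k = n by omega) (c (n - k)) else 0

private theorem ah_actC (a : Op p k) (c : ∀ m : ℕ, CoZ X (ZMod p) m) {m n : ℕ} (h : m + k = n) :
    actC a c n = Op.act a h (c m) := by
  have key : ∀ m' (h' : m' + k = n), Op.act a h' (c m') = Op.act a h (c m) := by
    intro m' h'
    have h1 : m' = m := by omega
    subst h1
    rfl
  unfold actC
  rw [dif_pos (by omega : k ≤ n)]
  exact key _ _

private theorem ah_actC_lt (a : Op p k) (c : ∀ m : ℕ, CoZ X (ZMod p) m) {n : ℕ} (h : n < k) :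
    actC a c n = 0 := by
  unfold actC
  rw [dif_neg (by omega)]

private theorem ah_wd (a : Op p k) (c c' : ∀ m : ℕ, CoZ X (ZMod p) m)
    (h : HR.tot c = HR.tot c') : HR.tot (actC a c) = HR.tot (actC a c') := by
  rw [HR.tot_eq] at h ⊢
  intro n
  by_cases hn : k ≤ n
  · obtain ⟨m, rfl⟩ : ∃ m, n = m + k := ⟨n - k, by omega⟩
    rw [ah_actC a c rfl, ah_actC a c' rfl]
    exact ah_act_sub a rfl _ _ (h m)
  · rw [ah_actC_lt a c (by omega), ah_actC_lt a c' (by omega), sub_self]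
    exact isBd_zero

private theorem ah_add (a : Op p k) (c c' : ∀ m : ℕ, CoZ X (ZMod p) m) :
    HR.tot (actC a (c + c')) = HR.tot (actC a c) + HR.tot (actC a c') := by
  rw [← map_add, HR.tot_eq]
  intro n
  by_cases hn : k ≤ n
  · obtain ⟨m, rfl⟩ : ∃ m, n = m + k := ⟨n - k, by omega⟩
    rw [Pi.add_apply, ah_actC a c rfl, ah_actC a c' rfl, ah_actC a (c + c') rfl]
    exact ah_act_add a rfl (c m) (c' m)
  · rw [Pi.add_apply, ah_actC_lt a c (by omega), ah_actC_lt a c' (by omega),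
      ah_actC_lt a (c + c') (by omega), add_zero, sub_self]
    exact isBd_zero

private theorem ah_zero (a : Op p k) : HR.tot (actC a (0 : ∀ m : ℕ, CoZ X (ZMod p) m)) = 0 := by
  rw [HR.tot_eq_zero]
  intro n
  by_cases hn : k ≤ n
  · obtain ⟨m, rfl⟩ : ∃ m, n = m + k := ⟨n - k, by omega⟩
    rw [ah_actC a _ rfl]
    exact ah_act_bd a rfl _ isBd_zero
  · rw [ah_actC_lt a _ (by omega)]
    exact isBd_zero

/-- The action on the cohomology ring. -/
noncomputable def actH (a : Op p k) : HR p X →+ HR p X where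
  toFun := fun x => HR.tot (actC a (Classical.choose (HR.tot_surj x)))
  map_zero' := by
    have h1 := Classical.choose_spec (HR.tot_surj (0 : HR p X))
    exact (ah_wd a _ 0 (h1.trans (map_zero HR.tot).symm)).trans (ah_zero a)
  map_add' := by
    intro x y
    rw [← ah_add]
    refine ah_wd a _ _ ?_
    rw [map_add, Classical.choose_spec (HR.tot_surj (x + y)),
      Classical.choose_spec (HR.tot_surj x), Classical.choose_spec (HR.tot_surj y)]

theorem actH_tot (a : Op p k) (c : ∀ m : ℕ, CoZ X (ZMod p) m) :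
    actH a (HR.tot c) = HR.tot (actC a c) := by
  change HR.tot (actC a (Classical.choose (HR.tot_surj (HR.tot c)))) = HR.tot (actC a c)
  exact ah_wd a _ _ (Classical.choose_spec (HR.tot_surj (HR.tot c)))

theorem actH_cl (a : Op p k) {m l : ℕ} (h : m + k = l) (c : CoZ X (ZMod p) m) :
    actH a (HR.cl m c) = HR.cl l (Op.act a h c) := by
  change actH a (HR.tot (Pi.single m c)) = HR.tot (Pi.single l (Op.act a h c))
  rw [actH_tot]
  congr 1
  funext n
  by_cases hn : k ≤ n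
  · obtain ⟨m', rfl⟩ : ∃ m', n = m' + k := ⟨n - k, by omega⟩
    rw [ah_actC a _ rfl]
    by_cases hm : m' = m
    · subst hm
      subst h
      rw [Pi.single_eq_same, Pi.single_eq_same]
    · rw [Pi.single_eq_of_ne hm, Pi.single_eq_of_ne (by omega), ah_act_zero]
  · rw [ah_actC_lt a _ (by omega), Pi.single_eq_of_ne (by omega)]

private theorem ah_nat (f : X ⟶ Y) {g : ℕ → ℕ} (hg : Monotone g) {a b : ℕ}
    (hb : ∀ i, i ≤ a → g i ≤ b) (σ : X.obj (op ⦋b⦌)) :
    f.app (op ⦋a⦌) (opr X g hg hb σ) = opr Y g hg hb (f.app (op ⦋b⦌) σ) := by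
  unfold opr
  exact NatTrans.naturality_apply f (opm g hg hb).op σ

private theorem ah_pbZ (f : X ⟶ Y) {m j : ℕ} (c : CoZ Y (ZMod p) m) (σ : X.obj (op ⦋j⦌)) {n q : ℤ}
    (hq : q - n = j - m) : pull (pbZ f m c) σ hq = pull c (f.app (op ⦋j⦌) σ) hq := by
  refine Subtype.ext (funext fun g => ?_)
  change pullFun (pbZ f m c).1 σ hq g = pullFun c.1 (f.app (op ⦋j⦌) σ) hq g
  unfold pullFun
  split_ifs with h
  · change c.1 (f.app (op ⦋m⦌) (opr X g _ _ σ)) = _
    rw [ah_nat]
  · rfl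

theorem actH_pull (f : X ⟶ Y) (a : Op p k) (x : HR p Y) :
    actH a (HR.pull f x) = HR.pull f (actH a x) := by
  obtain ⟨c, rfl⟩ := HR.tot_surj x
  rw [HR.pull_tot, actH_tot, actH_tot, HR.pull_tot]
  congr 1
  funext n
  by_cases hn : k ≤ n
  · obtain ⟨m, rfl⟩ : ∃ m, n = m + k := ⟨n - k, by omega⟩
    rw [ah_actC a _ rfl, ah_actC a c rfl]
    refine Subtype.ext (funext fun σ => ?_)
    change (a.f k (pull (pbZ f m (c m)) σ (n := 0) (q := k) (by omega))).1 id =
      (a.f k (pull (c m) (f.app (op ⦋m + k⦌) σ) (n := 0) (q := k) (by omega))).1 id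
    rw [ah_pbZ]
  · rw [ah_actC_lt a _ (by omega), ah_actC_lt a c (by omega), map_zero]

theorem actH_add (a b : Op p k) (x : HR p X) : actH (a + b) x = actH a x + actH b x := by
  obtain ⟨c, rfl⟩ := HR.tot_surj x
  rw [actH_tot, actH_tot, actH_tot, ← map_add]
  congr 1
  funext n
  rw [Pi.add_apply]
  by_cases hn : k ≤ n
  · obtain ⟨m, rfl⟩ : ∃ m, n = m + k := ⟨n - k, by omega⟩
    rw [ah_actC a _ rfl, ah_actC b _ rfl, ah_actC (a + b) _ rfl]
    refine Subtype.ext (funext fun σ => ?_)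
    rfl
  · rw [ah_actC_lt a _ (by omega), ah_actC_lt b _ (by omega), ah_actC_lt (a + b) _ (by omega),
      add_zero]

private theorem ah_pf {m j : ℕ} (c : X.obj (op ⦋m⦌) → ZMod p) (σ : X.obj (op ⦋j⦌)) {n q n' q' : ℤ}
    (hq : q - n = j - m) (hq' : q' - n' = j - m) : pullFun c σ hq = pullFun c σ hq' := by
  funext f
  unfold pullFun
  have h : (StrictMono f ∧ ∀ i : ℕ, m < i → (f i : ℤ) = i + (q - n)) ↔
      (StrictMono f ∧ ∀ i : ℕ, m < i → (f i : ℤ) = i + (q' - n')) := by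
    rw [hq, hq']
  by_cases h1 : StrictMono f ∧ ∀ i : ℕ, m < i → (f i : ℤ) = i + (q - n)
  · rw [dif_pos h1, dif_pos (h.1 h1)]
  · rw [dif_neg h1, dif_neg (fun h2 => h1 (h.2 h2))]

private theorem ah_key {m n : ℕ} (b : Op p l) (h : m + l = n) (c : CoZ X (ZMod p) m) :
    ∀ (t j : ℕ) (σ : X.obj (op ⦋j⦌)) (q : ℤ) (_ : q = l + t) (hq : q - 0 = j - m)
      (hq' : q - l = j - n), b.f q (pull c σ hq) = pull (Op.act b h c) σ hq' := by
  intro t
  induction t with
  | zero =>
    intro j σ q hql hq hq'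
    have hj : j = n := by
      push_cast at hql
      omega
    subst hj
    have hql' : q = l := by
      push_cast at hql
      omega
    subst hql'
    refine EM.ext_bot ?_
    change (b.f l (pull c σ hq)).1 id = pullFun (Op.act b h c).1 σ hq' id
    unfold pullFun
    rw [dif_pos ⟨strictMono_id, fun i _ => by rw [id]; omega⟩, opr_id]
    rfl
  | succ t ih =>
    intro j σ q hql hq hq'
    obtain ⟨j', rfl⟩ : ∃ j', j = j' + 1 := ⟨j - 1, by push_cast at hql; omega⟩
    have hr : (q - 1) + 1 = q := by omega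
    have hq1 : (q - 1) - 0 = (j' : ℤ) - m := by push_cast at hq; omega
    have hq2 : (q - 1) - l = (j' : ℤ) - n := by push_cast at hq'; omega
    refine EM.sep hr (by push_cast at hql; omega) fun i => ?_
    have e1 := b.map_d i hr (pull c σ hq)
    refine e1.symm.trans ?_
    by_cases hi : i ≤ j' + 1
    · have e2 := congrArg (b.f (q - 1)) (pull_fc c σ hr rfl hq hq1 hi)
      refine Eq.trans e2 ?_
      rw [pull_fc (Op.act b h c) σ hr rfl hq' hq2 hi]
      exact ih j' (fc X i rfl σ) (q - 1) (by push_cast at hql; omega) hq1 hq2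
    · have e2 := congrArg (b.f (q - 1)) (pull_fc_big c σ hr hq (show j' + 1 < i by omega))
      refine Eq.trans e2 ?_
      rw [pull_fc_big (Op.act b h c) σ hr hq' (show j' + 1 < i by omega)]
      exact b.map_pt (q - 1)

theorem pull_act {m j n : ℕ} (b : Op p l) (h : m + l = n) (c : CoZ X (ZMod p) m)
    (σ : X.obj (op ⦋j⦌)) {q q' : ℤ} (hq : q - 0 = j - m) (hq' : q' - 0 = j - n) :
    ((b.f q (pull c σ hq)).1 : (ℕ → ℕ) → ZMod p) = (pull (Op.act b h c) σ hq').1 := by
  have hq2 : q - l = (j : ℤ) - n := by omega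
  have h2 : (pull (Op.act b h c) σ hq').1 = (pull (Op.act b h c) σ hq2).1 :=
    ah_pf (Op.act b h c).1 σ hq' hq2
  rw [h2]
  by_cases hl : q < l
  · have e1 : b.f q (pull c σ hq) = 0 := EMG.eq_zero_of_lt hl _
    have e2 : pull (Op.act b h c) σ hq2 = 0 := EMG.eq_zero_of_lt hl _
    rw [e1, e2]
  · push Not at hl
    have e1 := ah_key b h c (q - l).toNat j σ q (by omega) hq hq2
    rw [e1]

private theorem ah_cong (a : Op p k) {q q' : ℤ} (h : q = q') (x : (EM (ZMod p) 0).G q)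
    (y : (EM (ZMod p) 0).G q') (hxy : (x.1 : (ℕ → ℕ) → ZMod p) = y.1) :
    ((a.f q x).1 : (ℕ → ℕ) → ZMod p) = (a.f q' y).1 := by
  subst h
  have h1 : x = y := Subtype.ext hxy
  rw [h1]

theorem actH_mul (h : k + l = t) (a : Op p k) (b : Op p l) (x : HR p X) :
    actH (Op.mul h a b) x = actH a (actH b x) := by
  obtain ⟨c, rfl⟩ := HR.tot_surj x
  rw [actH_tot, actH_tot, actH_tot]
  congr 1
  funext n
  by_cases hn : t ≤ n
  · obtain ⟨m, hm⟩ : ∃ m, m + t = n := ⟨n - t, by omega⟩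
    rw [ah_actC (Op.mul h a b) c hm, ah_actC a _ (show (m + l) + k = n by omega),
      ah_actC b c (rfl : m + l = m + l)]
    refine Subtype.ext (funext fun σ => ?_)
    have e1 := pull_act b (rfl : m + l = m + l) (c m) σ
      (show (t : ℤ) - 0 = (n : ℤ) - m by omega)
      (show (k : ℤ) - 0 = (n : ℤ) - ((m + l : ℕ) : ℤ) by push_cast; omega)
    have e2 := ah_cong a (show (t : ℤ) - ((l : ℤ) - 0) = k by omega)
      ⟨(b.f t (pull (c m) σ (show (t : ℤ) - 0 = (n : ℤ) - m by omega))).1,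
        EMG.cast_mem (by omega) (b.f t (pull (c m) σ (show (t : ℤ) - 0 = (n : ℤ) - m by omega))).2⟩
      (pull (Op.act b (rfl : m + l = m + l) (c m)) σ
        (show (k : ℤ) - 0 = (n : ℤ) - ((m + l : ℕ) : ℤ) by push_cast; omega)) e1
    exact congrFun e2 id
  · rw [ah_actC_lt (Op.mul h a b) c (by omega)]
    by_cases hk : k ≤ n
    · obtain ⟨m, rfl⟩ : ∃ m, n = m + k := ⟨n - k, by omega⟩
      rw [ah_actC a _ rfl, ah_actC_lt b c (show m < l by omega), ah_act_zero]
    · rw [ah_actC_lt a _ (by omega)]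

theorem actH_null (a : Op p k) (ha : a.Null) (x : HR p X) : actH a x = 0 := by
  obtain ⟨b, hb⟩ := ha
  obtain ⟨c, rfl⟩ := HR.tot_surj x
  rw [actH_tot, HR.tot_eq_zero]
  intro n
  by_cases hn : k ≤ n
  swap
  · rw [ah_actC_lt a _ (by omega)]
    exact isBd_zero
  obtain ⟨m, rfl⟩ : ∃ m, n = m + k := ⟨n - k, by omega⟩
  rw [ah_actC a _ rfl]
  -- the values of the action
  have hval : ∀ σ : X.obj (op ⦋m + k⦌), ∃ K₀ : ℕ, ∀ K, K₀ ≤ K →
      (Op.act a rfl (c m)).1 σ = ∑ i ∈ Finset.range K, (-1 : ℤ) ^ i •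
        ((b.f k (pull (c m) σ (n := 0) (q := k) (by omega)) : (EM (ZMod p) k).G (k + 1)).1 :
          (ℕ → ℕ) → ZMod p) (dl (i + 1)) := by
    intro σ
    have hq : (k : ℤ) - 0 = ((m + k : ℕ) : ℤ) - m := by omega
    obtain ⟨K₀, hK⟩ := (b.f k (pull (c m) σ (n := 0) (q := k) hq) :
      (EM (ZMod p) k).G (k + 1)).2.2.2 id monotone_id ⟨0, fun i _ => by rw [id]; omega⟩
    refine ⟨K₀, fun K hKK => ?_⟩
    have h1 := hK (K + 1) (by omega)
    rw [Finset.sum_range_succ'] at h1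
    have h2 : (Op.act a rfl (c m)).1 σ = ((b.f k (pull (c m) σ (n := 0) (q := k) hq) :
        (EM (ZMod p) k).G (k + 1)).1 : (ℕ → ℕ) → ZMod p) (id ∘ dl 0) := by
      rw [← hb]
      rfl
    rw [pow_zero, one_smul, ← h2] at h1
    refine (eq_neg_of_add_eq_zero_right h1).trans ?_
    rw [← Finset.sum_neg_distrib]
    refine Finset.sum_congr rfl fun i _ => ?_
    rw [pow_succ, mul_neg_one, neg_smul, neg_neg]
    rfl
  have hface : ∀ (σ : X.obj (op ⦋m + k⦌)) (i : ℕ),
      ((b.f k (pull (c m) σ (n := 0) (q := k) (by omega)) : (EM (ZMod p) k).G (k + 1)).1 :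
          (ℕ → ℕ) → ZMod p) (dl (i + 1)) =
      ((b.f ((k : ℤ) - 1) ((EM (ZMod p) 0).d i (by omega)
        (pull (c m) σ (n := 0) (q := k) (by omega))) : (EM (ZMod p) k).G ((k : ℤ) - 1 + 1)).1 :
          (ℕ → ℕ) → ZMod p) id := by
    intro σ i
    have h1 := b.map_d i (show (k : ℤ) - 1 + 1 = k by omega)
      (pull (c m) σ (n := 0) (q := k) (by omega))
    exact (congrArg (fun z : (EM (ZMod p) k).G ((k : ℤ) - 1 + 1) =>
      (z.1 : (ℕ → ℕ) → ZMod p) id) h1).symm
  rcases Nat.eq_zero_or_pos k with hk | hk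
  · left
    funext σ
    obtain ⟨K₀, hK⟩ := hval σ
    rw [hK K₀ le_rfl]
    refine Finset.sum_eq_zero fun i _ => ?_
    rw [hface, EMG.eq_zero_of_lt (by omega : (k : ℤ) - 1 < 0) ((EM (ZMod p) 0).d i _ _)]
    have h1 := b.map_pt ((k : ℤ) - 1)
    have h2 := congrArg (fun z : (EM (ZMod p) k).G ((k : ℤ) - 1 + 1) =>
      (z.1 : (ℕ → ℕ) → ZMod p) id) h1
    refine (congrArg (fun z => (-1 : ℤ) ^ i • z) h2).trans ?_
    exact smul_zero _
  · right
    obtain ⟨k', rfl⟩ : ∃ k', k = k' + 1 := ⟨k - 1, by omega⟩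
    have hq0 : ((k' + 1 : ℕ) : ℤ) - 1 - 0 = ((m + k' : ℕ) : ℤ) - m := by push_cast; omega
    refine ⟨m + k', rfl, fun τ =>
      ((b.f (((k' + 1 : ℕ) : ℤ) - 1) (pull (c m) τ hq0) :
        (EM (ZMod p) ((k' + 1 : ℕ) : ℤ)).G (((k' + 1 : ℕ) : ℤ) - 1 + 1)).1 :
          (ℕ → ℕ) → ZMod p) id, ?_, ?_⟩
    · intro i t ht hi τ
      have hq1 : ((k' + 1 : ℕ) : ℤ) - 1 - 1 - 0 = (t : ℤ) - m := by push_cast; omega
      have e1 := pull_dg (c m) τ (show ((k' + 1 : ℕ) : ℤ) - 1 - 1 + 1 = ((k' + 1 : ℕ) : ℤ) - 1 by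
        omega) ht hq0 hq1 hi
      have e2 := b.map_s i (show ((k' + 1 : ℕ) : ℤ) - 1 - 1 + 1 = ((k' + 1 : ℕ) : ℤ) - 1 by
        omega) (pull (c m) τ hq1)
      have e3 : b.f (((k' + 1 : ℕ) : ℤ) - 1 - 1) (pull (c m) τ hq1) = 0 :=
        EMG.eq_zero_of_lt (M := ZMod p) (n := ((k' + 1 : ℕ) : ℤ))
          (q := ((k' + 1 : ℕ) : ℤ) - 1 - 1 + 1) (by omega) _
      rw [e3] at e2
      have e4 := e2.trans (map_zero ((EM (ZMod p) ((k' + 1 : ℕ) : ℤ)).P.s i _))
      have e5 := (congrArg (b.f (((k' + 1 : ℕ) : ℤ) - 1)) e1).symm.trans e4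
      exact congrArg (fun z : (EM (ZMod p) ((k' + 1 : ℕ) : ℤ)).G (((k' + 1 : ℕ) : ℤ) - 1 + 1) =>
        (z.1 : (ℕ → ℕ) → ZMod p) id) e5
    · funext σ
      obtain ⟨K₀, hK⟩ := hval σ
      obtain ⟨K', hK'⟩ : ∃ K', K₀ + (m + (k' + 1) + 1) = m + (k' + 1) + 1 + K' := ⟨K₀, by omega⟩
      rw [hK (K₀ + (m + (k' + 1) + 1)) (by omega), hK', Finset.sum_range_add]
      have hz : ∑ x ∈ Finset.range K', (-1 : ℤ) ^ (m + (k' + 1) + 1 + x) •
          ((b.f ((k' + 1 : ℕ) : ℤ) (pull (c m) σ (n := 0) (q := ((k' + 1 : ℕ) : ℤ)) (by omega)) :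
            (EM (ZMod p) ((k' + 1 : ℕ) : ℤ)).G (((k' + 1 : ℕ) : ℤ) + 1)).1 :
            (ℕ → ℕ) → ZMod p) (dl (m + (k' + 1) + 1 + x + 1)) = 0 := by
        refine Finset.sum_eq_zero fun x _ => ?_
        rw [hface, pull_fc_big (c m) σ _ _ (by omega)]
        have h1 := b.map_pt (((k' + 1 : ℕ) : ℤ) - 1)
        have h2 := congrArg (fun z : (EM (ZMod p) ((k' + 1 : ℕ) : ℤ)).G
          (((k' + 1 : ℕ) : ℤ) - 1 + 1) => (z.1 : (ℕ → ℕ) → ZMod p) id) h1
        refine (congrArg (fun z => (-1 : ℤ) ^ (m + (k' + 1) + 1 + x) • z) h2).trans ?_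
        exact smul_zero _
      rw [hz, add_zero]
      unfold cobd
      refine Finset.sum_congr rfl fun i hi => ?_
      congr 1
      rw [hface, pull_fc (c m) σ _ (show (m + k') + 1 = m + (k' + 1) from rfl) _ hq0
        (by have := Finset.mem_range.mp hi; omega)]

/-- The identity operation. -/
def idOp (p : ℕ) : Op p 0 := Map.id (EM (ZMod p) 0)

theorem actH_idOp (x : HR p X) : actH (idOp p) x = x := by
  obtain ⟨c, rfl⟩ := HR.tot_surj x
  rw [actH_tot]
  congr 1
  funext n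
  rw [ah_actC (idOp p) c (add_zero n)]
  refine Subtype.ext (funext fun σ => ?_)
  change pullFun (c n).1 σ (show ((0 : ℕ) : ℤ) - 0 = (n : ℤ) - n by omega) id = (c n).1 σ
  unfold pullFun
  rw [dif_pos ⟨strictMono_id, fun i _ => by rw [id]; simp⟩, opr_id]

/-- `Q` acts as a derivation if `IsDeriv Q`. -/
theorem actH_deriv {Q : Op p k} (hQ : IsDeriv Q) {a b : ℕ} (x : CoZ X (ZMod p) a)
    (y : CoZ X (ZMod p) b) : actH Q (HR.cl a x * HR.cl b y) =
      actH Q (HR.cl a x) * HR.cl b y + (-1 : ℤ) ^ (a * k) • (HR.cl a x * actH Q (HR.cl b y)) := by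
  rw [← cl_mul rfl x y, actH_cl Q rfl x, actH_cl Q rfl y, actH_cl Q rfl (cupZ rfl x y),
    ← cl_mul (show (a + k) + b = a + b + k by omega) (Op.act Q rfl x) y,
    ← cl_mul (show a + (b + k) = a + b + k by omega) x (Op.act Q rfl y), ← map_zsmul, ← map_add,
    HR.cl_eq]
  exact hQ X a b (a + b) (a + k) (b + k) (a + b + k) rfl rfl rfl rfl x y (cupZ rfl x y) rfl

end BPN.E
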