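import Pool.Agent.BPN.E.BV
import Pool.Agent.BPN.S.EMb

/-!
# Part (E), module Beta: the Bockstein operation (project BPN, architect helper30)

PROOF.  `EM.exists_map` for `X = (EM (ZMod p) 0).U`, `n = 1` and the cochain
`c(w) = ((∑_{i<K} (-1)^i (w (dl i)).val) / p : ℤ)` reduced modulo `p` (`K` large; `w (dl i) = 0` for large `i`; the sum is
divisible by `p` by the cocycle condition of `w ∈ (EM 0)_1` at `g = id`).
`c 0 = 0`; `c (s_i w) = 0` for `w ∈ (EM 0)_0`: `(s_i w)(dl j) = w (sg i ∘ dl j)` is `w id` for `j = i, i + 1` and `0`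
otherwise.  Cocycle: `∑_i (-1)^i c(d_i w)`, `p` times the integral lift is `∑_{i,j} (-1)^(i+j) (w (dl i ∘ dl j)).val = 0`.
Then for `x = xc p i` of `BV p I` and `σ` with vertices `0, a, a + b`: `(act β x) σ = c (pull x σ)` is the reduction of
`([b] - [a + b] + [a]) / p = carry a b`.
-/

namespace BPN.E

open CategoryTheory SSet Simplicial Opposite

/-- The integral lift of `p` times the Bockstein cochain. -/
private noncomputable def beT {p : ℕ} (w : (ℕ → ℕ) → ZMod p) : ℤ :=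
  ∑ᶠ i : ℕ, (-1 : ℤ) ^ i * ((w (dl i)).val : ℤ)

private theorem beT_eq {p : ℕ} {w : (ℕ → ℕ) → ZMod p} {K : ℕ}
    (h : ∀ i, K ≤ i → w (dl i) = 0) :
    beT w = ∑ i ∈ Finset.range K, (-1 : ℤ) ^ i * ((w (dl i)).val : ℤ) := by
  refine finsum_eq_sum_of_support_subset _ ?_
  intro i hi
  rw [Finset.coe_range, Set.mem_Iio]
  by_contra hn
  refine hi ?_
  change (-1 : ℤ) ^ i * ((w (dl i)).val : ℤ) = 0
  rw [h i (not_lt.1 hn), ZMod.val_zero, Nat.cast_zero, mul_zero]

private theorem be_miss {M : Type} [AddCommGroup M] {n q : ℤ} {w : (ℕ → ℕ) → M}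
    (hw : w ∈ EMG M n q) : ∃ D : ℕ, ∀ f : ℕ → ℕ, (∃ v, D ≤ v ∧ ∀ i, f i ≠ v) → w f = 0 := by
  obtain ⟨-, ⟨D, h2⟩, -⟩ := hw
  refine ⟨D, fun f hf => ?_⟩
  obtain ⟨v, hv, hfv⟩ := hf
  by_contra hne
  obtain ⟨i, hi⟩ := h2 f hne v hv
  exact hfv i hi

private theorem dl_ne (i j : ℕ) : dl i j ≠ i := by
  unfold dl; split_ifs <;> omega

private theorem le_dl (i j : ℕ) : j ≤ dl i j := by
  unfold dl; split_ifs <;> omega

private theorem beT_dvd {p : ℕ} [Fact p.Prime] {w : (ℕ → ℕ) → ZMod p} {n q : ℤ}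
    (hw : w ∈ EMG (ZMod p) n q) (hq : q = n + 1) : (p : ℤ) ∣ beT w := by
  obtain ⟨D, hD⟩ := be_miss hw
  obtain ⟨-, -, h3⟩ := hw
  obtain ⟨K₀, hK⟩ := h3 id monotone_id ⟨0, fun i _ => by rw [id_eq]; omega⟩
  have e1 := beT_eq (w := w) (K := max D K₀)
    (fun i hi => hD _ ⟨i, le_trans (le_max_left _ _) hi, dl_ne i⟩)
  rw [e1, ← ZMod.intCast_zmod_eq_zero_iff_dvd, Int.cast_sum,
    ← hK (max D K₀) (le_max_right _ _)]
  refine Finset.sum_congr rfl fun i _ => ?_
  rw [zsmul_eq_mul, Int.cast_mul, Int.cast_natCast, ZMod.natCast_zmod_val]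
  rfl

/-- The Bockstein cochain. -/
private noncomputable def beC {p : ℕ} (w : (ℕ → ℕ) → ZMod p) : ZMod p :=
  ((beT w / (p : ℤ) : ℤ) : ZMod p)

private theorem be_em {f : ℕ → ℕ} (hf : StrictMono f) (hs : Shift f 0) : f = id := by
  have hge : ∀ x y, f x + y ≤ f (x + y) := by
    intro x y
    induction y with
    | zero => simp
    | succ y ih =>
      have := hf (show x + y < x + (y + 1) by omega)
      omega
  obtain ⟨N, hN⟩ := hs
  funext x
  have h1 := hge x N
  have h2 := hN (x + N) (by omega)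
  have h3 := hf.le_apply (x := x)
  rw [id_eq]
  omega

private theorem beT_deg {p : ℕ} {w : (ℕ → ℕ) → ZMod p} {n q : ℤ}
    (hw : w ∈ EMG (ZMod p) n q) (hq : q = n) (i : ℕ) :
    beT (fun f => w (sg i ∘ f)) = 0 := by
  have h0 : ∀ f, f ≠ id → w f = 0 := by
    intro f hf
    by_contra hne
    obtain ⟨ha, hb⟩ := hw.1 f hne
    exact hf (be_em ha (by rw [hq, sub_self] at hb; exact hb))
  have h1 : ∀ j, j ≠ i → j ≠ i + 1 → w (sg i ∘ dl j) = 0 := by
    intro j hj hj'
    refine h0 _ fun h => ?_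
    rcases sg_comp_dl_eq_id.1 h with h | h
    · exact hj h
    · exact hj' h
  rw [beT_eq (K := i + 2) (fun j hj => h1 j (by omega) (by omega)), Finset.sum_range_succ,
    Finset.sum_range_succ, Finset.sum_eq_zero (fun j hj => ?_)]
  · have e1 : sg i ∘ dl i = id := sg_comp_dl_eq_id.2 (Or.inl rfl)
    have e2 : sg i ∘ dl (i + 1) = id := sg_comp_dl_eq_id.2 (Or.inr rfl)
    rw [e1, e2, pow_succ]
    ring
  · have hj' := Finset.mem_range.1 hj
    change (-1 : ℤ) ^ j * ((w (sg i ∘ dl j)).val : ℤ) = 0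
    rw [h1 j (by omega) (by omega), ZMod.val_zero, Nat.cast_zero, mul_zero]

/-- The alternating double sum over the double faces vanishes. -/
private theorem be_dd (a : (ℕ → ℕ) → ℤ) (K : ℕ) :
    ∑ x ∈ Finset.range (K + 1) ×ˢ Finset.range K,
      (-1 : ℤ) ^ (x.1 + x.2) * a (dl x.1 ∘ dl x.2) = 0 := by
  refine Finset.sum_involution
    (fun x _ => if x.1 ≤ x.2 then (x.2 + 1, x.1) else (x.2, x.1 - 1)) ?_ ?_ ?_ ?_
  · rintro ⟨i, j⟩ -
    by_cases h : i ≤ j
    · dsimp only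
      rw [if_pos h]
      dsimp only
      have e1 : dl (j + 1) ∘ dl i = dl i ∘ dl j := funext fun x => dl_dl h x
      rw [e1, show j + 1 + i = i + j + 1 by ring, pow_succ]
      ring
    · dsimp only
      rw [if_neg h]
      dsimp only
      have e1 : dl (i - 1 + 1) ∘ dl j = dl j ∘ dl (i - 1) :=
        funext fun x => dl_dl (show j ≤ i - 1 by omega) x
      rw [show i - 1 + 1 = i by omega] at e1
      rw [e1, show i + j = j + (i - 1) + 1 by omega, pow_succ]
      ring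
  · rintro ⟨i, j⟩ - -
    dsimp only
    by_cases h : i ≤ j
    · rw [if_pos h]
      intro he
      have := (Prod.mk.inj he).1
      omega
    · rw [if_neg h]
      intro he
      have := (Prod.mk.inj he).1
      omega
  · rintro ⟨i, j⟩ hx
    dsimp only
    rw [Finset.mem_product, Finset.mem_range, Finset.mem_range] at hx
    dsimp only at hx
    by_cases h : i ≤ j
    · rw [if_pos h, Finset.mem_product, Finset.mem_range, Finset.mem_range]
      dsimp only
      omega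
    · rw [if_neg h, Finset.mem_product, Finset.mem_range, Finset.mem_range]
      dsimp only
      omega
  · rintro ⟨i, j⟩ -
    by_cases h : i ≤ j
    · simp only [if_pos h]
      rw [if_neg (by omega)]
      rfl
    · simp only [if_neg h]
      rw [if_pos (by omega), show i - 1 + 1 = i by omega]

private theorem beC_coc {p : ℕ} [Fact p.Prime] {x : (ℕ → ℕ) → ZMod p} {n r : ℤ}
    (hx : x ∈ EMG (ZMod p) n r) (hr : r = n + 2) : ∃ K₀ : ℕ, ∀ K, K₀ ≤ K →
      ∑ i ∈ Finset.range K, (-1 : ℤ) ^ i • beC (fun f => x (dl i ∘ f)) = 0 := by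
  obtain ⟨D, hD⟩ := be_miss hx
  have hp : (p : ℤ) ≠ 0 := by exact_mod_cast (Fact.out : p.Prime).ne_zero
  refine ⟨D + 1, fun K hK => ?_⟩
  obtain ⟨K, rfl⟩ : ∃ K', K = K' + 1 := ⟨K - 1, by omega⟩
  have h1 : ∀ i, beT (fun f => x (dl i ∘ f)) =
      ∑ j ∈ Finset.range K, (-1 : ℤ) ^ j * ((x (dl i ∘ dl j)).val : ℤ) := by
    intro i
    refine beT_eq fun j hj => hD _ ⟨dl i j, ?_, fun t ht => ?_⟩
    · have := le_dl i j
      omega
    · exact dl_ne j t ((dl_strictMono i).injective ht)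
  have h2 : ∀ i, (p : ℤ) * (beT (fun f => x (dl i ∘ f)) / (p : ℤ)) =
      beT (fun f => x (dl i ∘ f)) := fun i =>
    Int.mul_ediv_cancel' (beT_dvd (n := n) (q := n + 1) (EMG.d_mem i (by omega) hx) rfl)
  have h3 : (p : ℤ) * ∑ i ∈ Finset.range (K + 1),
      (-1 : ℤ) ^ i * (beT (fun f => x (dl i ∘ f)) / (p : ℤ)) = 0 := by
    rw [Finset.mul_sum, ← be_dd (fun f => ((x f).val : ℤ)) K, Finset.sum_product]
    refine Finset.sum_congr rfl fun i _ => ?_
    rw [mul_left_comm, h2 i, h1 i, Finset.mul_sum]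
    refine Finset.sum_congr rfl fun j _ => ?_
    rw [pow_add]
    ring
  have h4 := (mul_eq_zero.1 h3).resolve_left hp
  have h5 := congrArg (fun z : ℤ => (z : ZMod p)) h4
  rw [Int.cast_sum, Int.cast_zero] at h5
  rw [← h5]
  refine Finset.sum_congr rfl fun i _ => ?_
  rw [zsmul_eq_mul, Int.cast_mul]
  rfl

private theorem be_carry {p : ℕ} [Fact p.Prime] (a b : ZMod p) :
    (((b.val : ℤ) - ((a + b).val : ℤ) + (a.val : ℤ)) / (p : ℤ) : ℤ) = carry p a b := by
  have hp : (p : ℤ) ≠ 0 := by exact_mod_cast (Fact.out : p.Prime).ne_zero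
  unfold carry
  by_cases h : p ≤ a.val + b.val
  · rw [if_pos h]
    have h1 : (a.val : ℤ) + b.val = (a + b).val + p := by
      exact_mod_cast ZMod.val_add_val_of_le h
    rw [show (b.val : ℤ) - ((a + b).val : ℤ) + (a.val : ℤ) = p by linarith, Int.ediv_self hp,
      Int.cast_one]
  · rw [if_neg h]
    have h1 : ((a + b).val : ℤ) = (a.val : ℤ) + b.val := by
      exact_mod_cast ZMod.val_add_of_lt (not_le.1 h)
    rw [show (b.val : ℤ) - ((a + b).val : ℤ) + (a.val : ℤ) = 0 by linarith, Int.zero_ediv,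
      Int.cast_zero]

theorem exists_beta (p : ℕ) [Fact p.Prime] : ∃ b : Op p 1, ∀ (I : Type) (i : I),
    Op.act b (show 1 + 1 = 2 from rfl) (xc p i) = yc p i := by
  obtain ⟨b, hb⟩ := EM.exists_map (M := ZMod p) (X := (EM (ZMod p) 0).U) (n := ((1 : ℕ) : ℤ))
    (fun w => beC (show EMG (ZMod p) 0 ((1 : ℕ) : ℤ) from w).1) (by
      have h0 : beT (fun _ : ℕ → ℕ => (0 : ZMod p)) = 0 := by
        rw [beT_eq (K := 0) (fun _ _ => rfl), Finset.sum_range_zero]
      change beC (fun _ : ℕ → ℕ => (0 : ZMod p)) = 0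
      unfold beC
      rw [h0, Int.zero_ediv, Int.cast_zero]) (by
      intro i q h x
      have h0 := beT_deg (show EMG (ZMod p) 0 q from x).2 (by push_cast at h; omega) i
      change beC (fun f => (show EMG (ZMod p) 0 q from x).1 (sg i ∘ f)) = 0
      unfold beC
      rw [h0, Int.zero_ediv, Int.cast_zero]) (by
      intro r h x
      exact beC_coc (show EMG (ZMod p) 0 r from x).2 (by push_cast at h; omega))
  refine ⟨b, fun I i => Subtype.ext (funext fun σ => ?_)⟩
  have hq : ((1 : ℕ) : ℤ) - 0 = ((2 : ℕ) : ℤ) - ((1 : ℕ) : ℤ) := by norm_num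
  have e1 := hb (pull (xc p i) σ (n := 0) (q := ((1 : ℕ) : ℤ)) hq)
  refine e1.trans ?_
  change beC (pullFun (xc p i).1 σ hq) = carry p (vx σ 1 i) (vx σ 2 i - vx σ 1 i)
  have hz : ∀ j, 3 ≤ j → pullFun (xc p i).1 σ hq (dl j) = 0 := by
    intro j hj
    refine dif_neg fun h => ?_
    have h1 := h.2 2 (by omega)
    unfold dl at h1
    rw [if_pos (by omega)] at h1
    omega
  have hv : ∀ j, j ≤ 2 → pullFun (xc p i).1 σ hq (dl j) = vx σ (dl j 1) i - vx σ (dl j 0) i := by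
    intro j hj
    have hc : StrictMono (dl j) ∧ ∀ t : ℕ, 1 < t → (dl j t : ℤ) = t + (((1 : ℕ) : ℤ) - 0) := by
      refine ⟨dl_strictMono j, fun t ht => ?_⟩
      unfold dl
      rw [if_neg (by omega)]
      push_cast
      ring
    refine (dif_pos hc).trans ?_
    exact congrFun (vx_opr hc.1.monotone (pull_bd hq hc.1 hc.2) σ (by omega : 1 ≤ 1)) i
  have v0 : vx σ 0 i = 0 := congrFun (vx_zero σ) i
  unfold beC
  rw [beT_eq hz, Finset.sum_range_succ, Finset.sum_range_succ, Finset.sum_range_succ,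
    Finset.sum_range_zero, hv 0 (by omega), hv 1 (by omega), hv 2 (by omega)]
  have e1 : dl 0 0 = 1 := rfl
  have e2 : dl 0 1 = 2 := rfl
  have e3 : dl 1 0 = 0 := rfl
  have e4 : dl 1 1 = 2 := rfl
  have e5 : dl 2 0 = 0 := rfl
  have e6 : dl 2 1 = 1 := rfl
  rw [e1, e2, e3, e4, e5, e6, v0, sub_zero, sub_zero]
  have h7 := be_carry (vx σ 1 i) (vx σ 2 i - vx σ 1 i)
  rw [add_sub_cancel] at h7
  rw [← h7]
  congr 2
  ring

end BPN.E
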