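import Pool.Agent.BPN.E.VEM
import Pool.Agent.BPN.L.LEM

/-!
# Part (E), module Flat: operations as cocycles of the group ring (project BPN, architect helper30)

`ph w` : the finitely supported function `v` on surjections with `phi v = w` (`w` a simplex of `EM (ZMod p) 0`).
`flat a` : the functional on `ZV p →₀ ZMod p` with `flat a (δ_v) = (a (phi v)) id` if `v` has excess `k`, `0` otherwise.

PROOFS.
* `ph_*`: `phi_inj`, `phi_add`, `phi_d`.
* `flat_bd`: for `v` of excess `k + 1`, `w = phi v ∈ (EM 0)_{k+1}`: `bd δ_v = ∑ (-1)^i δ_(d_i v)` (only `d_i v ≠ 0`; `a 0 = 0`),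
  so `flat a (bd δ_v) = ∑ (-1)^i (a (d_i w)) id = ∑ (-1)^i (d_i (a w)) id = ∑ (-1)^i (a w)(dl i) = 0` (cocycle condition
  of `a w ∈ (EM k)_{k+1}` at `g = id`).
* `moore`: `T` a linear spectrum, `x ∈ T_r` with `∑_{i<K} (-1)^i d_i x = 0` for large `K`; then there is `y` with
  `x - ∑_{i<K} (-1)^i d_i y ∈ Zs` for large `K`.  Downward induction: suppose all faces `d_i x`, `i > J`, vanish (`J ≥ 1`).
  `∂(s_J x) = s_{J-1} ∑_{i<J} (-1)^i d_i x = - (-1)^J s_{J-1} d_J x` (faces `J`, `J+1` of `s_J x` cancel, `d_i s_J x = s_J d_{i-1} x = 0` for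
  `i > J + 1`).  Hence `x' = x - s_{J-1} d_J x` is homologous to `x`, and `d_i x' = 0` for `i ≥ J`.  At the end all faces
  `d_i x`, `i ≥ 1`, vanish and `∂ x = d_0 x = 0`.
* `flat_null`: `LSp.null_iff` for `X = (EM (ZMod p) 0).U`: for a cycle `x ∈ (lin X)_k` (all faces `0`) let `x'` be the
  corresponding element of `GV p k` (rename the simplices by `ph`): `bd x' = 0` and `(a.lin x) id = flat a x' = b (bd x') = 0`.
* `flat_exists`: `ℓ` restricted to the cycles of `lin X` in degree `k` vanishes on `d_0 N_{k+1}` (for `y ∈ N_{k+1}`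
  `d_0 y` is the full boundary), so `LSp.uc_exists` gives `A : lin X → EML`, and `a = A ∘ eta`; `ℓ - flat a`
  vanishes on `Zs` and on boundaries, hence by `moore` on all `x ∈ GV p k` with `bd x = 0`, so it is
  `b ∘ bd` on `GV p k` (`LinearMap.exists_extend` etc.).
-/

namespace BPN.E

open Module

variable {p : ℕ} [Fact p.Prime]

/-- The function on surjections belonging to a simplex. -/
noncomputable def ph {q : ℤ} (w : (EM (ZMod p) 0).G q) : Sj →₀ ZMod p :=
  Classical.choose (phi_sur (p := p) (q := q) w.2)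

theorem ph_exc {q : ℤ} (w : (EM (ZMod p) 0).G q) : ∀ s ∈ (ph w).support, exc s = q :=
  (Classical.choose_spec (phi_sur (p := p) (q := q) w.2)).1

theorem phi_ph {q : ℤ} (w : (EM (ZMod p) 0).G q) : phi p (ph w) = w.1 :=
  (Classical.choose_spec (phi_sur (p := p) (q := q) w.2)).2

private theorem phi_inj' {v w : Sj →₀ ZMod p} (h : phi p v = phi p w) : v = w := by
  have h1 : phi p (v - w) = 0 := by
    have h2 := phi_add (v - w) w
    rw [sub_add_cancel, h] at h2
    funext f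
    have h3 := congrFun h2 f
    rw [Pi.add_apply] at h3
    exact (add_eq_right.1 h3.symm)
  exact sub_eq_zero.1 (phi_inj h1)

theorem ph_phi {q : ℤ} (v : Sj →₀ ZMod p) (hv : ∀ s ∈ v.support, exc s = q) :
    ph (⟨phi p v, phi_mem hv⟩ : (EM (ZMod p) 0).G q) = v :=
  phi_inj' (phi_ph _)

theorem ph_zero {q : ℤ} : ph (0 : (EM (ZMod p) 0).G q) = 0 :=
  phi_inj ((phi_ph _).trans rfl)

theorem ph_eq_zero {q : ℤ} {w : (EM (ZMod p) 0).G q} (h : ph w = 0) : w = 0 := by
  have h1 := phi_ph w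
  rw [h, phi_zero] at h1
  exact Subtype.ext h1.symm

theorem ph_d (i : ℕ) {q r : ℤ} (h : q + 1 = r) (w : (EM (ZMod p) 0).G r) :
    ph ((EM (ZMod p) 0).d i h w) = pv p (fa 0 i) (ph w) := by
  apply phi_inj'
  rw [phi_ph, ← phi_d, phi_ph]
  rfl

open Classical in
/-- The functional of an operation. -/
noncomputable def flat {k : ℕ} (a : Op p k) : (ZV p →₀ ZMod p) →ₗ[ZMod p] ZMod p :=
  Finsupp.lsum ℕ fun v : ZV p =>
    (if h : ∀ s ∈ v.1.support, exc s = (k : ℤ) then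
      ((a.f k ⟨phi p v.1, phi_mem h⟩).1 : (ℕ → ℕ) → ZMod p) id else 0) • (LinearMap.id)

theorem flat_single {k : ℕ} (a : Op p k) (v : ZV p) (h : ∀ s ∈ v.1.support, exc s = (k : ℤ)) :
    flat a (Finsupp.single v 1) = ((a.f k ⟨phi p v.1, phi_mem h⟩).1 : (ℕ → ℕ) → ZMod p) id := by
  unfold flat
  rw [Finsupp.lsum_single, dif_pos h, LinearMap.smul_apply, LinearMap.id_apply, smul_eq_mul,
    mul_one]

private theorem flat_single' {k : ℕ} (a : Op p k) (v : ZV p)
    (h : ¬ ∀ s ∈ v.1.support, exc s = (k : ℤ)) : flat a (Finsupp.single v 1) = 0 := by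
  unfold flat
  rw [Finsupp.lsum_single, dif_neg h, zero_smul, LinearMap.zero_apply]

theorem flat_ph {k : ℕ} (a : Op p k) (w : (EM (ZMod p) 0).G (k : ℤ)) (h : ph w ≠ 0) :
    flat a (Finsupp.single ⟨ph w, h⟩ 1) = ((a.f k w).1 : (ℕ → ℕ) → ZMod p) id := by
  rw [flat_single a ⟨ph w, h⟩ (ph_exc w)]
  have h1 : (⟨phi p (ph w), phi_mem (ph_exc w)⟩ : (EM (ZMod p) 0).G (k : ℤ)) = w :=
    Subtype.ext (phi_ph w)
  exact congrArg (fun z : (EM (ZMod p) 0).G (k : ℤ) =>
    ((a.f k z).1 : (ℕ → ℕ) → ZMod p) id) h1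

private theorem fl_hom_ext {Z W : Type} [AddCommGroup W] [Module (ZMod p) W]
    {f g : (Z →₀ ZMod p) →ₗ[ZMod p] W}
    (h : ∀ z, f (Finsupp.single z 1) = g (Finsupp.single z 1)) : f = g := by
  refine Finsupp.lhom_ext fun z b => ?_
  have h2 : (Finsupp.single z b : Z →₀ ZMod p) = b • Finsupp.single z 1 := by
    rw [Finsupp.smul_single, smul_eq_mul, mul_one]
  rw [h2, map_smul, map_smul, h]

theorem flat_add {k : ℕ} (a b : Op p k) : flat (a + b) = flat a + flat b := by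
  refine fl_hom_ext fun v => ?_
  rw [LinearMap.add_apply]
  by_cases h : ∀ s ∈ v.1.support, exc s = (k : ℤ)
  · rw [flat_single _ v h, flat_single _ v h, flat_single _ v h]
    rfl
  · rw [flat_single' _ v h, flat_single' _ v h, flat_single' _ v h, add_zero]

/-! ### the linear spectrum of the simplices -/

/-- The generator of a simplex. -/
private noncomputable def gen {q : ℤ} (w : (EM (ZMod p) 0).G q) :
    (lin (ZMod p) (EM (ZMod p) 0).U).V q :=
  Fr.of (ZMod p) ((EM (ZMod p) 0).U.pt q) w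

private theorem gen_zero {q : ℤ} : gen (0 : (EM (ZMod p) 0).G q) = 0 := Fr.of_pt

private theorem gen_ext {q : ℤ} {W : Type} [AddCommGroup W] [Module (ZMod p) W]
    {f g : (lin (ZMod p) (EM (ZMod p) 0).U).V q →ₗ[ZMod p] W}
    (h : ∀ w : (EM (ZMod p) 0).G q, f (gen w) = g (gen w)) : f = g :=
  Fr.hom_ext h

private theorem gen_lin {M : LSp (ZMod p)} (f : Map (EM (ZMod p) 0).U M.toG) (q : ℤ)
    (w : (EM (ZMod p) 0).G q) : (Map.lin f).f q (gen w) = f.f q w := Map.lin_of f q w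

private theorem gen_d (i : ℕ) {q r : ℤ} (h : q + 1 = r) (w : (EM (ZMod p) 0).G r) :
    (lin (ZMod p) (EM (ZMod p) 0).U).d i h (gen w) = gen ((EM (ZMod p) 0).d i h w) :=
  ((lin.eta (ZMod p) (EM (ZMod p) 0).U).map_d i h w).symm

/-- The index map. -/
private noncomputable def ixw (p : ℕ) [Fact p.Prime] (q : ℤ)
    (w : {x : (EM (ZMod p) 0).U.X q // x ≠ (EM (ZMod p) 0).U.pt q}) : ZV p :=
  ⟨ph (q := q) w.1, fun h => w.2 (ph_eq_zero h)⟩

/-- Renaming of the simplices. -/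
private noncomputable def RR (p : ℕ) [Fact p.Prime] (q : ℤ) :
    (lin (ZMod p) (EM (ZMod p) 0).U).V q →ₗ[ZMod p] (ZV p →₀ ZMod p) :=
  Finsupp.lmapDomain (ZMod p) (ZMod p) (ixw p q)

private theorem ixw_inj (q : ℤ) : Function.Injective (ixw p q) := by
  intro w w' h
  have h1 : ph (q := q) w.1 = ph (q := q) w'.1 := congrArg Subtype.val h
  apply Subtype.ext
  have h2 := phi_ph (q := q) w.1
  rw [h1, phi_ph] at h2
  exact Subtype.ext h2.symm

private theorem RR_inj (q : ℤ) : Function.Injective (RR p q) :=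
  Finsupp.mapDomain_injective (ixw_inj q)

open Classical in
/-- The image of a generator. -/
private noncomputable def ew {q : ℤ} (w : (EM (ZMod p) 0).G q) : ZV p →₀ ZMod p :=
  if h : ph w ≠ 0 then Finsupp.single ⟨ph w, h⟩ 1 else 0

private theorem ew_zero {q : ℤ} : ew (0 : (EM (ZMod p) 0).G q) = 0 :=
  dif_neg (fun h => h ph_zero)

private theorem ew_ne {q : ℤ} {w : (EM (ZMod p) 0).G q} (h : ph w ≠ 0) :
    ew w = Finsupp.single ⟨ph w, h⟩ 1 := dif_pos h

private theorem RR_gen {q : ℤ} (w : (EM (ZMod p) 0).G q) : RR p q (gen w) = ew w := by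
  by_cases h : w = 0
  · rw [h, gen_zero, map_zero, ew_zero]
  · have h1 : ph w ≠ 0 := fun h2 => h (ph_eq_zero h2)
    rw [ew_ne h1]
    have h2 : (gen w : (lin (ZMod p) (EM (ZMod p) 0).U).V q) =
        Finsupp.single ⟨w, h⟩ (1 : ZMod p) := Fr.of_ne h
    refine (congrArg (RR p q) h2).trans ?_
    exact Finsupp.mapDomain_single

private theorem push_ew (i : ℕ) {q r : ℤ} (h : q + 1 = r) (w : (EM (ZMod p) 0).G r) :
    push (ZMod p) (fV p i) (ew w) = ew ((EM (ZMod p) 0).d i h w) := by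
  by_cases hw : ph w = 0
  · have h1 := ph_eq_zero hw
    rw [h1, map_zero, ew_zero, ew_zero, map_zero]
  · rw [ew_ne hw, push_single]
    by_cases hd : ph ((EM (ZMod p) 0).d i h w) = 0
    · have h2 : fV p i ⟨ph w, hw⟩ = none := by
        unfold fV
        rw [dif_neg]
        intro h3
        exact h3 ((ph_d i h w).symm.trans hd)
      rw [h2, ph_eq_zero hd, ew_zero]
      rfl
    · have h2 : fV p i ⟨ph w, hw⟩ = some ⟨ph ((EM (ZMod p) 0).d i h w), hd⟩ := by
        unfold fV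
        have h3 : pv p (fa 0 i) (ph w) ≠ 0 := fun h4 => hd ((ph_d i h w).trans h4)
        rw [dif_pos h3]
        congr 1
        exact Subtype.ext (ph_d i h w).symm
      rw [h2, ew_ne hd]
      rfl

private theorem push_RR (i : ℕ) {q r : ℤ} (h : q + 1 = r)
    (x : (lin (ZMod p) (EM (ZMod p) 0).U).V r) :
    push (ZMod p) (fV p i) (RR p r x) =
      RR p q ((lin (ZMod p) (EM (ZMod p) 0).U).d i h x) := by
  refine DFunLike.congr_fun (f := (push (ZMod p) (fV p i)).comp (RR p r))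
    (g := (RR p q).comp ((lin (ZMod p) (EM (ZMod p) 0).U).d i h)) (gen_ext fun w => ?_) x
  change push (ZMod p) (fV p i) (RR p r (gen w)) =
    RR p q ((lin (ZMod p) (EM (ZMod p) 0).U).d i h (gen w))
  rw [RR_gen, push_ew i h, gen_d i h, RR_gen]

/-- The boundary of a renamed chain. -/
private theorem bd_RR {q r : ℤ} (h : q + 1 = r) (x : (lin (ZMod p) (EM (ZMod p) 0).U).V r) :
    ∃ K₀ : ℕ, ∀ N, K₀ ≤ N → bd (ZMod p) (fV p) (RR p r x) =
      RR p q (∑ i ∈ Finset.range N, (-1 : ℤ) ^ i •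
        (lin (ZMod p) (EM (ZMod p) 0).U).d i h x) := by
  choose M hM using LFz_fV p
  refine ⟨(RR p r x).support.sup M, fun N hN => ?_⟩
  rw [bd_eq_sum (N := N) (fun z hz i hi => hM z i (((Finset.le_sup hz).trans hN).trans hi)),
    map_sum]
  refine Finset.sum_congr rfl fun i _ => ?_
  rw [map_zsmul, push_RR i h]

private theorem RR_mem {q : ℤ} (x : (lin (ZMod p) (EM (ZMod p) 0).U).V q) :
    RR p q x ∈ GV p q := by
  classical
  refine (Finsupp.mem_supported (ZMod p) _).2 fun v hv => ?_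
  have h1 := Finsupp.mapDomain_support (f := ixw p q) (s := x) hv
  obtain ⟨w, _, rfl⟩ := Finset.mem_image.1 h1
  exact ph_exc (q := q) w.1

private theorem RR_sur {q : ℤ} {x : ZV p →₀ ZMod p} (hx : x ∈ GV p q) :
    ∃ y : (lin (ZMod p) (EM (ZMod p) 0).U).V q, RR p q y = x := by
  have h1 : x = ∑ v ∈ x.support, x v • Finsupp.single v (1 : ZMod p) := by
    conv_lhs => rw [← Finsupp.sum_single x]
    refine Finset.sum_congr rfl fun v _ => ?_
    rw [Finsupp.smul_single, smul_eq_mul, mul_one]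
  rw [h1]
  have h2 : ∀ v ∈ x.support, ∃ y : (lin (ZMod p) (EM (ZMod p) 0).U).V q,
      RR p q y = x v • Finsupp.single v (1 : ZMod p) := by
    intro v hv
    have h3 : ∀ s ∈ v.1.support, exc s = q := (Finsupp.mem_supported (ZMod p) x).1 hx hv
    have h4 : ph (⟨phi p v.1, phi_mem h3⟩ : (EM (ZMod p) 0).G q) = v.1 := ph_phi v.1 h3
    refine ⟨x v • gen (⟨phi p v.1, phi_mem h3⟩ : (EM (ZMod p) 0).G q), ?_⟩
    have h5 : ph (⟨phi p v.1, phi_mem h3⟩ : (EM (ZMod p) 0).G q) ≠ 0 := by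
      rw [h4]
      exact v.2
    rw [map_smul, RR_gen, ew_ne h5]
    congr 1
    have h6 : (⟨ph (⟨phi p v.1, phi_mem h3⟩ : (EM (ZMod p) 0).G q), h5⟩ : ZV p) = v :=
      Subtype.ext h4
    rw [h6]
  choose! y hy using h2
  refine ⟨∑ v ∈ x.support, y v, ?_⟩
  rw [map_sum]
  exact Finset.sum_congr rfl hy

/-- `flat` on renamed chains. -/
private theorem flat_RR {k : ℕ} (a : Op p k) (x : (lin (ZMod p) (EM (ZMod p) 0).U).V (k : ℤ)) :
    flat a (RR p k x) = ((Map.lin (L := EML (ZMod p) (ZMod p) k) a).f k x).1 id := by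
  let ev : (EML (ZMod p) (ZMod p) k).V k →ₗ[ZMod p] ZMod p :=
    { toFun := fun c => (c.1 : (ℕ → ℕ) → ZMod p) id
      map_add' := fun _ _ => rfl
      map_smul' := fun _ _ => rfl }
  refine DFunLike.congr_fun (f := (flat a).comp (RR p k))
    (g := ev.comp ((Map.lin (L := EML (ZMod p) (ZMod p) k) a).f k)) (gen_ext fun w => ?_) x
  change flat a (RR p k (gen w)) = ev ((Map.lin (L := EML (ZMod p) (ZMod p) k) a).f k (gen w))
  rw [RR_gen, gen_lin (M := EML (ZMod p) (ZMod p) k) a]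
  change flat a (ew w) = ((a.f k w).1 : (ℕ → ℕ) → ZMod p) id
  by_cases hw : ph (q := (k : ℤ)) w = 0
  · have h1 := ph_eq_zero hw
    rw [h1, ew_zero, map_zero]
    have h2 : a.f k (0 : (EM (ZMod p) 0).G (k : ℤ)) = 0 := a.map_pt k
    rw [h2]
    rfl
  · rw [ew_ne hw, flat_ph]

theorem flat_bd {k : ℕ} (a : Op p k) (x : ZV p →₀ ZMod p) (hx : x ∈ GV p ((k : ℤ) + 1)) :
    flat a (bd (ZMod p) (fV p) x) = 0 := by
  obtain ⟨y, rfl⟩ := RR_sur hx
  obtain ⟨K₀, hK⟩ := bd_RR (p := p) (rfl : (k : ℤ) + 1 = (k : ℤ) + 1) y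
  have h0 : ∀ z : (lin (ZMod p) (EM (ZMod p) 0).U).V ((k : ℤ) + 1),
      flat a (bd (ZMod p) (fV p) (RR p _ z)) = 0 := by
    intro z
    let F : (lin (ZMod p) (EM (ZMod p) 0).U).V ((k : ℤ) + 1) →ₗ[ZMod p] ZMod p :=
      ((flat a).comp (bd (ZMod p) (fV p))).comp (RR p ((k : ℤ) + 1))
    have hF : F = 0 := by
      refine gen_ext fun w => ?_
      change flat a (bd (ZMod p) (fV p) (RR p _ (gen w))) = 0
      obtain ⟨K₁, hK₁⟩ := bd_RR (p := p) (rfl : (k : ℤ) + 1 = (k : ℤ) + 1) (gen w)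
      obtain ⟨K₂, hK₂⟩ := EM.map_coc a (rfl : (k : ℤ) + 1 = (k : ℤ) + 1) w
      rw [hK₁ (max K₁ K₂) (le_max_left _ _), flat_RR, map_sum]
      rw [← hK₂ (max K₁ K₂) (le_max_right _ _)]
      have h3 : ∀ (s : Finset ℕ) (g : ℕ → (EML (ZMod p) (ZMod p) k).V (k : ℤ)),
          ((∑ i ∈ s, g i : (EML (ZMod p) (ZMod p) k).V (k : ℤ)).1 : (ℕ → ℕ) → ZMod p) id =
            ∑ i ∈ s, ((g i).1 : (ℕ → ℕ) → ZMod p) id := by
        intro s g
        let ev : (EML (ZMod p) (ZMod p) k).V k →+ ZMod p :=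
          { toFun := fun c => (c.1 : (ℕ → ℕ) → ZMod p) id
            map_zero' := rfl
            map_add' := fun _ _ => rfl }
        exact map_sum ev g s
      rw [h3]
      refine Finset.sum_congr rfl fun i _ => ?_
      rw [map_zsmul, gen_d i rfl, gen_lin (M := EML (ZMod p) (ZMod p) k) a]
      rfl
    exact DFunLike.congr_fun hF z
  exact h0 y

section moore_aux

variable {K : Type} [Field K]

private theorem mo_aux (T : LSp K) {q r t : ℤ} (hq : q + 1 = r) (ht : r + 1 = t) (m : ℕ) :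
    ∀ x : T.V r, (∀ i, m ≤ i → T.d i hq x = 0) →
      ∑ i ∈ Finset.range m, (-1 : ℤ) ^ i • T.d i hq x = 0 →
      ∃ y : T.V t, ∃ K₀ : ℕ, ∀ N, K₀ ≤ N →
        x - ∑ i ∈ Finset.range N, (-1 : ℤ) ^ i • T.d i ht y ∈ T.Zs r := by
  have hbase : ∀ x : T.V r, (∀ i, T.d i hq x = 0) →
      ∃ y : T.V t, ∃ K₀ : ℕ, ∀ N, K₀ ≤ N →
        x - ∑ i ∈ Finset.range N, (-1 : ℤ) ^ i • T.d i ht y ∈ T.Zs r := by
    intro x hx
    refine ⟨0, 0, fun N _ => ?_⟩
    have h1 : ∑ i ∈ Finset.range N, (-1 : ℤ) ^ i • T.d i ht (0 : T.V t) = 0 :=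
      Finset.sum_eq_zero fun i _ => by rw [map_zero, smul_zero]
    rw [h1, sub_zero]
    intro i q' h
    obtain rfl : q' = q := by omega
    exact hx i
  induction m with
  | zero =>
    intro x hx _
    exact hbase x fun i => hx i (Nat.zero_le i)
  | succ m ih =>
    intro x hx hs
    rcases m with _ | n
    · refine hbase x fun i => ?_
      rcases Nat.eq_zero_or_pos i with rfl | hi
      · rw [zero_add, Finset.sum_range_one, pow_zero, one_smul] at hs
        exact hs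
      · exact hx i hi
    · have hl : q - 1 + 1 = q := by omega
      obtain ⟨w, hw⟩ : ∃ w, w = T.d (n + 1) hq x := ⟨_, rfl⟩
      -- faces of `s_n w`
      have hz_lt : ∀ i, i < n → T.d i hq (T.s n hq w) = T.s (n - 1) hl (T.d i hl w) := by
        intro i hi
        obtain ⟨n', rfl⟩ : ∃ n', n = n' + 1 := ⟨n - 1, by omega⟩
        exact T.ds_lt (by omega) hl hq w
      have hz_n : T.d n hq (T.s n hq w) = w := T.ds_eq n hq w
      have hz_n1 : T.d (n + 1) hq (T.s n hq w) = w := T.ds_succ n hq w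
      have hz_gt : ∀ i, n + 2 ≤ i → T.d i hq (T.s n hq w) = 0 := by
        intro i hi
        obtain ⟨j, rfl⟩ : ∃ j, i = j + 1 := ⟨i - 1, by omega⟩
        rw [T.ds_gt (by omega) hl hq w, hw, ← T.dd (by omega : n + 1 ≤ j) hl hq x,
          hx (j + 1) (by omega), map_zero, map_zero]
      -- the sum of the lower faces of `x`
      have hs1 : ∑ i ∈ Finset.range (n + 1), (-1 : ℤ) ^ i • T.d i hq x = (-1 : ℤ) ^ n • w := by
        rw [Finset.sum_range_succ, ← hw, pow_succ, mul_neg_one, neg_smul] at hs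
        exact add_neg_eq_zero.1 hs
      -- the lower faces of `w`
      have hsw : T.s (n - 1) hl (∑ i ∈ Finset.range n, (-1 : ℤ) ^ i • T.d i hl w) = 0 := by
        rcases n with _ | n'
        · rw [Finset.sum_range_zero, map_zero]
        · have h1 : ∑ i ∈ Finset.range (n' + 1), (-1 : ℤ) ^ i • T.d i hl w =
              T.d (n' + 1) hl (∑ i ∈ Finset.range (n' + 1), (-1 : ℤ) ^ i • T.d i hq x) := by
            rw [map_sum]
            refine Finset.sum_congr rfl fun i hi => ?_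
            rw [map_zsmul, hw, T.dd (by have := Finset.mem_range.1 hi; omega : i ≤ n' + 1) hl hq x]
          have h2 : ∑ i ∈ Finset.range (n' + 1), (-1 : ℤ) ^ i • T.d i hq x =
              (-1 : ℤ) ^ (n' + 1) • w - (-1 : ℤ) ^ (n' + 1) • T.d (n' + 1) hq x := by
            rw [← hs1, Finset.sum_range_succ _ (n' + 1), add_sub_cancel_right]
          have h3 : T.d (n' + 1) hl w = T.d (n' + 1) hl (T.d (n' + 1) hq x) := by
            rw [hw, T.dd (le_refl (n' + 1)) hl hq x]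
          rw [h1, h2, map_sub, map_zsmul, map_zsmul, h3, sub_self, map_zero]
      obtain ⟨y', K₀, hy'⟩ := ih (x - T.s n hq w) (fun i hi => by
          rcases eq_or_lt_of_le hi with h1 | h1
          · rw [← h1, map_sub, hz_n1, ← hw, sub_self]
          · rw [map_sub, hx i (by omega), hz_gt i (by omega), sub_zero]) (by
          have h1 : ∀ i ∈ Finset.range (n + 1), (-1 : ℤ) ^ i • T.d i hq (x - T.s n hq w) =
              (-1 : ℤ) ^ i • T.d i hq x - (-1 : ℤ) ^ i • T.d i hq (T.s n hq w) := by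
            intro i _
            rw [map_sub, smul_sub]
          rw [Finset.sum_congr rfl h1, Finset.sum_sub_distrib, hs1, Finset.sum_range_succ, hz_n]
          have h2 : ∑ i ∈ Finset.range n, (-1 : ℤ) ^ i • T.d i hq (T.s n hq w) =
              T.s (n - 1) hl (∑ i ∈ Finset.range n, (-1 : ℤ) ^ i • T.d i hl w) := by
            rw [map_sum]
            refine Finset.sum_congr rfl fun i hi => ?_
            rw [map_zsmul, hz_lt i (Finset.mem_range.1 hi)]
          rw [h2, hsw, zero_add, sub_self])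
      -- the boundary of `s_(n+1) x`
      have hu : ∀ N, n + 3 ≤ N → ∑ i ∈ Finset.range N, (-1 : ℤ) ^ i •
          T.d i ht (T.s (n + 1) ht x) = (-1 : ℤ) ^ n • T.s n hq w := by
        intro N hN
        have h1 : ∑ i ∈ Finset.range N, (-1 : ℤ) ^ i • T.d i ht (T.s (n + 1) ht x) =
            ∑ i ∈ Finset.range (n + 3), (-1 : ℤ) ^ i • T.d i ht (T.s (n + 1) ht x) := by
          symm
          refine Finset.sum_subset (Finset.range_mono hN) fun i _ hi => ?_
          have hi' : n + 3 ≤ i := by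
            by_contra h2
            exact hi (Finset.mem_range.2 (by omega))
          obtain ⟨j, rfl⟩ : ∃ j, i = j + 1 := ⟨i - 1, by omega⟩
          rw [T.ds_gt (by omega) hq ht x, hx j (by omega), map_zero, smul_zero]
        have h2 : T.d (n + 1) ht (T.s (n + 1) ht x) = x := T.ds_eq (n + 1) ht x
        have h3 : T.d (n + 2) ht (T.s (n + 1) ht x) = x := T.ds_succ (n + 1) ht x
        have h4 : ∑ i ∈ Finset.range (n + 1), (-1 : ℤ) ^ i • T.d i ht (T.s (n + 1) ht x) =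
            T.s n hq (∑ i ∈ Finset.range (n + 1), (-1 : ℤ) ^ i • T.d i hq x) := by
          rw [map_sum]
          refine Finset.sum_congr rfl fun i hi => ?_
          rw [map_zsmul, T.ds_lt (by have := Finset.mem_range.1 hi; omega : i ≤ n) hq ht x]
        rw [h1, Finset.sum_range_succ, Finset.sum_range_succ, h2, h3, h4, hs1, map_zsmul,
          pow_succ (-1 : ℤ) (n + 1), mul_neg_one, neg_smul, add_assoc, add_neg_cancel, add_zero]
      refine ⟨y' + (-1 : ℤ) ^ n • T.s (n + 1) ht x, max K₀ (n + 3), fun N hN => ?_⟩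
      have h1 : ∑ i ∈ Finset.range N, (-1 : ℤ) ^ i •
          T.d i ht (y' + (-1 : ℤ) ^ n • T.s (n + 1) ht x) =
          ∑ i ∈ Finset.range N, (-1 : ℤ) ^ i • T.d i ht y' + T.s n hq w := by
        have h2 : ∀ i ∈ Finset.range N, (-1 : ℤ) ^ i •
            T.d i ht (y' + (-1 : ℤ) ^ n • T.s (n + 1) ht x) =
            (-1 : ℤ) ^ i • T.d i ht y' +
              (-1 : ℤ) ^ n • ((-1 : ℤ) ^ i • T.d i ht (T.s (n + 1) ht x)) := by
          intro i _
          rw [map_add, map_zsmul, smul_add, smul_comm ((-1 : ℤ) ^ i) ((-1 : ℤ) ^ n)]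
        rw [Finset.sum_congr rfl h2, Finset.sum_add_distrib, ← Finset.smul_sum,
          hu N ((le_max_right _ _).trans hN), smul_smul, ← mul_pow, neg_mul_neg, one_mul,
          one_pow, one_smul]
      rw [h1, add_comm, ← sub_sub]
      exact hy' N ((le_max_left _ _).trans hN)

end moore_aux

theorem moore {K : Type} [Field K] (T : LSp K) {q r t : ℤ} (hq : q + 1 = r) (ht : r + 1 = t)
    (x : T.V r)
    (hx : ∃ K₀ : ℕ, ∀ N, K₀ ≤ N → ∑ i ∈ Finset.range N, (-1 : ℤ) ^ i • T.d i hq x = 0) :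
    ∃ y : T.V t, ∃ K₀ : ℕ, ∀ N, K₀ ≤ N →
      x - ∑ i ∈ Finset.range N, (-1 : ℤ) ^ i • T.d i ht y ∈ T.Zs r := by
  obtain ⟨n, hn⟩ := T.fin hq x
  obtain ⟨K₀, hK⟩ := hx
  exact mo_aux T hq ht (max n K₀) x (fun i hi => hn i ((le_max_left _ _).trans hi))
    (hK _ (le_max_right _ _))

theorem flat_null {k : ℕ} (a : Op p k) (b : (ZV p →₀ ZMod p) →ₗ[ZMod p] ZMod p)
    (h : ∀ x ∈ GV p (k : ℤ), flat a x = b (bd (ZMod p) (fV p) x)) : a.Null := by
  refine (LSp.null_iff (k := ZMod p) (V := ZMod p) (EM (ZMod p) 0).U (k : ℤ) a).2 fun x hx => ?_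
  rw [← flat_RR, h _ (RR_mem x)]
  have hl : (k : ℤ) - 1 + 1 = k := by omega
  obtain ⟨K₀, hK⟩ := bd_RR (p := p) hl x
  rw [hK K₀ le_rfl]
  have h1 : ∑ i ∈ Finset.range K₀, (-1 : ℤ) ^ i •
      (lin (ZMod p) (EM (ZMod p) 0).U).d i hl x = 0 :=
    Finset.sum_eq_zero fun i _ => by rw [hx i hl, smul_zero]
  rw [h1, map_zero, map_zero]

theorem flat_exists {k : ℕ} (l : (ZV p →₀ ZMod p) →ₗ[ZMod p] ZMod p)
    (hl : ∀ x ∈ GV p ((k : ℤ) + 1), l (bd (ZMod p) (fV p) x) = 0) :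
    ∃ (a : Op p k) (b : (ZV p →₀ ZMod p) →ₗ[ZMod p] ZMod p),
      ∀ x ∈ GV p (k : ℤ), l x = flat a x + b (bd (ZMod p) (fV p) x) := by
  let T := lin (ZMod p) (EM (ZMod p) 0).U
  let φ : T.Zs (k : ℤ) →ₗ[ZMod p] ZMod p := (l.comp (RR p k)).comp (T.Zs (k : ℤ)).subtype
  have hφ : ∀ (x : T.V ((k : ℤ) + 1)), x ∈ T.N ((k : ℤ) + 1) →
      ∀ h : T.d 0 rfl x ∈ T.Zs (k : ℤ), φ ⟨T.d 0 rfl x, h⟩ = 0 := by
    intro x hx h
    change l (RR p k (T.d 0 rfl x)) = 0
    obtain ⟨K₀, hK⟩ := bd_RR (p := p) (rfl : (k : ℤ) + 1 = (k : ℤ) + 1) x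
    have h1 := hK (K₀ + 1) (Nat.le_succ _)
    have h2 : ∑ i ∈ Finset.range (K₀ + 1), (-1 : ℤ) ^ i •
        (lin (ZMod p) (EM (ZMod p) 0).U).d i (rfl : (k : ℤ) + 1 = (k : ℤ) + 1) x =
        T.d 0 rfl x := by
      rw [Finset.sum_range_succ', pow_zero, one_smul, Finset.sum_eq_zero, zero_add]
      intro i _
      have h3 : T.d (i + 1) (rfl : (k : ℤ) + 1 = (k : ℤ) + 1) x = 0 := hx i rfl
      change (-1 : ℤ) ^ (i + 1) • T.d (i + 1) (rfl : (k : ℤ) + 1 = (k : ℤ) + 1) x = 0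
      rw [h3, smul_zero]
    rw [h2] at h1
    rw [← h1]
    exact hl _ (RR_mem x)
  obtain ⟨A, hA⟩ := LSp.uc_exists (V := ZMod p) T (k : ℤ) φ hφ
  let a : Op p k := Map.post A.toG (lin.eta (ZMod p) (EM (ZMod p) 0).U)
  have hlin : ∀ x : T.V (k : ℤ), (Map.lin (L := EML (ZMod p) (ZMod p) k) a).f k x = A.f k x := by
    intro x
    refine DFunLike.congr_fun (f := (Map.lin (L := EML (ZMod p) (ZMod p) k) a).f k)
      (g := A.f k) (gen_ext fun w => ?_) x
    exact gen_lin (M := EML (ZMod p) (ZMod p) k) a k w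
  have hfl : ∀ x : T.V (k : ℤ), flat a (RR p k x) = ((A.f k x).1 : (ℕ → ℕ) → ZMod p) id := by
    intro x
    rw [flat_RR, hlin]
  obtain ⟨b, hb⟩ := cobd_of_vanish (d := bd (ZMod p) (fV p)) (G := GV p) (n := (k : ℤ))
    (l - flat a) (by
    intro z hz hdz
    obtain ⟨x, rfl⟩ := RR_sur hz
    have hq : (k : ℤ) - 1 + 1 = k := by omega
    obtain ⟨K₀, hK⟩ := bd_RR (p := p) hq x
    obtain ⟨y, K₁, hy⟩ := moore T hq (rfl : (k : ℤ) + 1 = (k : ℤ) + 1) x
      ⟨K₀, fun N hN => by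
        apply RR_inj (p := p)
        rw [map_zero, ← hdz]
        exact (hK N hN).symm⟩
    obtain ⟨K₂, hK₂⟩ := bd_RR (p := p) (rfl : (k : ℤ) + 1 = (k : ℤ) + 1) y
    have h1 := hy (max K₁ K₂) (le_max_left _ _)
    have h2 := hK₂ (max K₁ K₂) (le_max_right _ _)
    obtain ⟨u, hu⟩ : ∃ u, u = ∑ i ∈ Finset.range (max K₁ K₂), (-1 : ℤ) ^ i •
      T.d i (rfl : (k : ℤ) + 1 = (k : ℤ) + 1) y := ⟨_, rfl⟩
    rw [← hu] at h1
    have h2' : bd (ZMod p) (fV p) (RR p _ y) = RR p k u := by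
      rw [hu]
      exact h2
    have h3 : RR p k x = RR p k (x - u) + RR p k u := by
      rw [← map_add, sub_add_cancel]
    rw [h3, map_add]
    have h4 : (l - flat a) (RR p k (x - u)) = 0 := by
      rw [LinearMap.sub_apply, hfl, sub_eq_zero]
      exact (hA ⟨x - u, h1⟩).symm
    have h5 : (l - flat a) (RR p k u) = 0 := by
      rw [LinearMap.sub_apply, ← h2', hl _ (RR_mem y), flat_bd a _ (RR_mem y), sub_zero]
    rw [h4, h5, add_zero])
  refine ⟨a, b, fun x hx => ?_⟩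
  have h1 := hb x hx
  rw [LinearMap.sub_apply, sub_eq_iff_eq_add] at h1
  rw [h1, add_comm]

end BPN.E
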