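import Pool.Agent.BPN.E.UB
import Pool.Agent.BPN.E.Flat

/-!
# Part (E), module FlatB: the upper bound for operations (project BPN, architect helper30)

PROOF.  `HB_dual` for `d = bd (fV p)`, `G = GV p`, `n = k`, `ζ w = flat (A w)` (additive, hence `ZMod p`-linear),
`S = ⊥`: `flat_bd`, `flat_null`, and `HB_upper p k`.
-/

namespace BPN.E

open Module

theorem Op_bound {p : ℕ} [Fact p.Prime] (k : ℕ) (W : Type) [AddCommGroup W] [Module (ZMod p) W]
    [FiniteDimensional (ZMod p) W] (A : W →+ Op p k) (hA : ∀ w, (A w).Null → w = 0) :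
    finrank (ZMod p) W ≤ {q : (ℕ →₀ ℕ) × Finset ℕ | Mil.deg p q.1 q.2 = k}.ncard := by
  obtain ⟨ζ, hζ⟩ : ∃ ζ : W →ₗ[ZMod p] ((ZV p →₀ ZMod p) →ₗ[ZMod p] ZMod p),
      ∀ w, ζ w = flat (A w) :=
    ⟨AddMonoidHom.toZModLinearMap p (AddMonoidHom.mk' (fun w => flat (A w)) (fun w w' => by
      rw [map_add, flat_add])), fun w => rfl⟩
  have h := HB_dual (HB_upper p k) W ζ
    (fun w x hx => by
      rw [hζ]
      exact flat_bd (A w) x hx) ⊥
    (fun w hw => by
      obtain ⟨b, hb⟩ := hw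
      rw [Submodule.mem_bot]
      refine hA w (flat_null (A w) b fun x hx => ?_)
      rw [← hζ]
      exact hb x hx)
  rwa [finrank_bot, zero_add] at h

end BPN.E
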