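import Pool.Agent.BPN.E.K2H

/-!
# Part (E), module Base: the homology of the sphere spectrum (project BPN, architect helper30)

`V1 k m e`: finitely supported functions on the surjections of excess `e` and level `m`.

PROOFS.
* `V1_zero`: excess `0` means the identity (`exc_eq_zero_iff`).
* `V1_bd0`: a surjection of excess `1` has exactly one block with two elements `i, i+1`; its faces `i` and
  `i + 1` are the identity, all others are undefined; the signs cancel.
* Transport between `V1 k m`, `Ga k 1 m`, `La k 1 m`, `C3 k 0 1 m`: isomorphisms of complexes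
  (functions on `(Fin 1 → Sj) × (Fin 0 → Sj)` etc., all symmetric and alternating for `d = 1`;
  `Finsupp.domLCongr` or `push` along the bijections; `HB_iso`).
* `V1_acy` for `m = 0`: there is one surjection `s_e = (i ↦ i - e)` of every excess `e ≥ 0`;
  `fa 0 i s_e = some s_(e-1)` for `i ≤ e`, `e ≥ 1`, `none` for `i > e` and for `e = 0`.  So
  `bd δ_(s_e) = δ_(s_(e-1))` for `e ≥ 2` even, `= 0` for `e` odd: acyclic in positive degrees.
  Induction `m → m + 1` (`m : ℕ`): `K2_HB` with `d = 1`, `N = 0` (`HB_of_acy`, `acy_of_HB0`).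
  `m = ⊤`: a cycle has finite support, so it lies in `V1 k m e` for some finite `m` (`exists_Lv`, `Lv_mono`).
  For `e < 0` everything is zero (`exc_nonneg`).
* `Ga_one`: `n ≠ 0`: acyclic; `n = 0`: the space `Ga k 1 m 0` has dimension `≤ 1`, so `finrank W - finrank (ker)`
  is at most `1` (`ζ w = 0` is a boundary).
-/

namespace BPN.E

variable (k : Type) [Field k]

/-- Functions on the surjections of excess `e` and level `m`. -/
noncomputable def V1 (m : ℕ∞) (e : ℤ) : Submodule k (Sj →₀ k) :=
  Finsupp.supported k k {s | exc s = e ∧ Lv m s}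

/-- The identity. -/
def idS : Sj := ⟨id, monotone_id, Function.surjective_id, 0, 0, fun i _ => by simp⟩

private theorem eq_idS {s : Sj} (h : exc s = 0) : s = idS :=
  Subtype.ext ((exc_eq_zero_iff s).1 h)

private theorem exc_idS : exc idS = 0 := (exc_eq_zero_iff idS).2 rfl

private theorem single_of_supp {Z : Type} {z : Z →₀ k} {a : Z} (h : ∀ s ∈ z.support, s = a) :
    z = Finsupp.single a (z a) := by
  ext s
  by_cases hs : s = a
  · subst hs
    rw [Finsupp.single_eq_same]
  · rw [Finsupp.single_eq_of_ne hs]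
    by_contra h1
    exact hs (h s (Finsupp.mem_support_iff.2 h1))

theorem V1_zero {m : ℕ∞} {z : Sj →₀ k} (hz : z ∈ V1 k m 0) : ∃ c, z = Finsupp.single idS c := by
  refine ⟨z idS, single_of_supp k fun s hs => ?_⟩
  exact eq_idS ((Finsupp.mem_supported k z).1 hz hs).1

private theorem fa_none {i : ℕ} {s : Sj} (h : ∀ j, s.1 j = s.1 i → j = i) : fa 0 i s = none := by
  by_contra hc
  obtain ⟨t, ht⟩ := Option.ne_none_iff_exists'.1 hc
  have h1 : t.1 = s.1 ∘ dl (i + 0) := act_eq_some.1 ht
  obtain ⟨j, hj⟩ := t.2.2.1 (s.1 i)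
  rw [h1] at hj
  have h2 := h _ hj
  unfold dl at h2
  split_ifs at h2 <;> omega

private theorem exc_one {s : Sj} (h : exc s = 1) : ∃ i, s.1 = sg i := by
  classical
  have hex : ∃ n, s.1 n ≠ n := by
    by_contra hc
    push Not at hc
    have h1 : exc s = 0 := (exc_eq_zero_iff s).2 (funext hc)
    omega
  have h1 := Nat.find_spec hex
  have h2 : ∀ a, a < Nat.find hex → s.1 a = a := fun a ha => by
    by_contra hc
    exact Nat.find_min hex ha hc
  obtain ⟨n, hn⟩ : ∃ n, n = Nat.find hex := ⟨_, rfl⟩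
  rw [← hn] at h1 h2
  have hn0 : n ≠ 0 := by
    rintro rfl
    exact h1 s.zero
  refine ⟨n - 1, funext fun a => ?_⟩
  unfold sg
  split_ifs with ha
  · exact h2 a (by omega)
  · have h3 := s.ge a
    have h4 : ∀ d, s.1 (n + d) ≤ n + d - 1 := by
      intro d
      induction d with
      | zero =>
        have := s.le n
        simp only [add_zero]
        omega
      | succ d ih =>
        have := s.succ_le (n + d)
        have e : n + (d + 1) = n + d + 1 := by omega
        rw [e]
        omega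
    have h5 := h4 (a - n)
    have e : n + (a - n) = a := by omega
    rw [e] at h5
    rw [h] at h3
    omega

private theorem fa_sg {i : ℕ} {s : Sj} (h : s.1 = sg i) (j : ℕ) :
    fa 0 j s = if j = i ∨ j = i + 1 then some idS else none := by
  split_ifs with hj
  · show act (dl (j + 0)) s = some idS
    rw [act_eq_some, h]
    funext a
    show a = sg i (dl (j + 0) a)
    unfold sg dl
    rcases hj with rfl | rfl <;> split_ifs <;> omega
  · apply fa_none
    intro a ha
    rw [h] at ha
    unfold sg at ha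
    split_ifs at ha <;> omega

private theorem lin_supp {Z M : Type} [AddCommGroup M] [Module k M] (D D' : (Z →₀ k) →ₗ[k] M)
    {P : Set Z} (h : ∀ z ∈ P, D (Finsupp.single z 1) = D' (Finsupp.single z 1)) {φ : Z →₀ k}
    (hφ : φ ∈ Finsupp.supported k k P) : D φ = D' φ := by
  have h1 : φ = ∑ z ∈ φ.support, φ z • Finsupp.single z 1 := by
    conv_lhs => rw [← φ.sum_single]
    refine Finset.sum_congr rfl fun z _ => ?_
    rw [Finsupp.smul_single, smul_eq_mul, mul_one]
  rw [h1, map_sum, map_sum]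
  refine Finset.sum_congr rfl fun z hz => ?_
  rw [map_smul, map_smul, h z ((Finsupp.mem_supported k φ).1 hφ hz)]

theorem V1_bd0 {m : ℕ∞} {w : Sj →₀ k} (hw : w ∈ V1 k m 1) : bd k (fa 0) w = 0 := by
  have h : bd k (fa 0) w = (0 : (Sj →₀ k) →ₗ[k] (Sj →₀ k)) w := by
    refine lin_supp k _ _ (fun s hs => ?_) hw
    obtain ⟨i, hi⟩ := exc_one hs.1
    rw [bd_eq_sum (N := i + 2)]
    · rw [Finset.sum_range_succ, Finset.sum_range_succ, Finset.sum_eq_zero, push_single,
        push_single, fa_sg hi, fa_sg hi, if_pos (Or.inl rfl), if_pos (Or.inr rfl), zero_add,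
        pow_succ, LinearMap.zero_apply]
      · show (-1 : ℤ) ^ i • Finsupp.single idS (1 : k) +
          ((-1 : ℤ) ^ i * -1) • Finsupp.single idS (1 : k) = 0
        rw [mul_neg, mul_one, neg_smul, add_neg_cancel]
      · intro j hj
        rw [Finset.mem_range] at hj
        rw [push_single, fa_sg hi, if_neg (by omega)]
        exact smul_zero _
    · intro z hz j hj
      have h1 : z = s := by
        have := Finsupp.support_single_subset hz
        simpa using this
      rw [h1, fa_sg hi, if_neg (by omega)]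
  rw [h]
  rfl

/-! ### Level zero -/

private def sE (e : ℕ) : Sj := ⟨fun i => i - e, fun a b hab => Nat.sub_le_sub_right hab e,
  fun v => ⟨v + e, by simp⟩, (e : ℤ), e, fun i hi => by
    show ((i - e : ℕ) : ℤ) = _
    omega⟩

private theorem exc_sE (e : ℕ) : exc (sE e) = e := by
  refine exc_unique ⟨e, fun i hi => ?_⟩
  show ((i - e : ℕ) : ℤ) = _
  omega

private theorem eq_sE {s : Sj} (h : Lv 0 s) : ∃ e : ℕ, s = sE e := by
  obtain ⟨e, he⟩ : ∃ e : ℕ, (e : ℤ) = exc s := ⟨(exc s).toNat, by
    have := exc_nonneg s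
    omega⟩
  refine ⟨e, Subtype.ext (funext fun i => ?_)⟩
  have h0 : ∀ d i, s.1 i ≠ 0 → s.1 (i + d) = s.1 i + d := by
    intro d
    induction d with
    | zero => intro i _; rfl
    | succ d ih =>
      intro i hi
      have h1 := ih i hi
      have h2 := s.succ_le (i + d)
      have h3 : s.1 (i + d) ≤ s.1 (i + d + 1) := s.2.1 (Nat.le_succ _)
      have h4 : s.1 (i + d) ≠ s.1 (i + d + 1) := by
        intro h5
        have h6 := h (i + d) (i + d + 1) (by
          rw [h1]
          have : 0 < s.1 i + d := by omega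
          exact_mod_cast this) h5
        omega
      have e1 : i + (d + 1) = i + d + 1 := by omega
      rw [e1]
      omega
  obtain ⟨N, hN⟩ := exc_spec s
  show s.1 i = i - e
  have h5 := s.ge i
  rcases Nat.eq_zero_or_pos (s.1 i) with h1 | h1
  · omega
  · have h2 := h0 (N + i) i (by omega)
    have h3 := hN (i + (N + i)) (by omega)
    omega

private theorem fa_sE (e i : ℕ) :
    fa 0 i (sE e) = if e ≠ 0 ∧ i ≤ e then some (sE (e - 1)) else none := by
  split_ifs with h
  · show act (dl (i + 0)) (sE e) = _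
    rw [act_eq_some]
    funext a
    show a - (e - 1) = dl (i + 0) a - e
    unfold dl
    split_ifs <;> omega
  · apply fa_none
    intro j hj
    have h1 : j - e = i - e := hj
    omega

private theorem bd_sE (e : ℕ) (c : k) : bd k (fa 0) (Finsupp.single (sE e) c) =
    if e ≠ 0 ∧ Even e then Finsupp.single (sE (e - 1)) c else 0 := by
  rw [bd_eq_sum (N := e + 1)]
  · by_cases h0 : e = 0
    · subst h0
      rw [if_neg (by simp)]
      refine Finset.sum_eq_zero fun i _ => ?_
      rw [push_single, fa_sE, if_neg (by simp)]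
      exact smul_zero _
    · have h1 : ∀ i ∈ Finset.range (e + 1), (-1 : ℤ) ^ i •
          push k (fa 0 i) (Finsupp.single (sE e) c) =
          (-1 : ℤ) ^ i • Finsupp.single (sE (e - 1)) c := by
        intro i hi
        rw [Finset.mem_range] at hi
        rw [push_single, fa_sE, if_pos ⟨h0, by omega⟩]
        rfl
      rw [Finset.sum_congr rfl h1, ← Finset.sum_smul, neg_one_geom_sum]
      by_cases he : Even e
      · rw [if_neg (by rw [Nat.even_add_one]; exact not_not.2 he), if_pos ⟨h0, he⟩, one_smul]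
      · rw [if_pos (by rw [Nat.even_add_one]; exact he), if_neg (fun h => he h.2), zero_smul]
  · intro z hz i hi
    have h1 : z = sE e := by
      have := Finsupp.support_single_subset hz
      simpa using this
    rw [h1, fa_sE, if_neg (by omega)]

private theorem V1_acy0 {e : ℤ} (he : e ≠ 0) {z : Sj →₀ k} (hz : z ∈ V1 k 0 e)
    (h : bd k (fa 0) z = 0) : ∃ w ∈ V1 k 0 (e + 1), bd k (fa 0) w = z := by
  by_cases h0 : z = 0
  · exact ⟨0, zero_mem _, by rw [map_zero, h0]⟩
  obtain ⟨s, hs⟩ := Finsupp.support_nonempty_iff.2 h0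
  have h1 := (Finsupp.mem_supported k z).1 hz
  obtain ⟨n, rfl⟩ := eq_sE (h1 hs).2
  have hn : (n : ℤ) = e := by
    have := (h1 hs).1
    rw [exc_sE] at this
    exact this
  have h2 : z = Finsupp.single (sE n) (z (sE n)) := by
    refine single_of_supp k fun s hs' => ?_
    obtain ⟨n', rfl⟩ := eq_sE (h1 hs').2
    have := (h1 hs').1
    rw [exc_sE] at this
    have h3 : n' = n := by omega
    rw [h3]
  have hz0 : z (sE n) ≠ 0 := Finsupp.mem_support_iff.1 hs
  have hn0 : n ≠ 0 := by
    rintro rfl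
    exact he (by rw [← hn]; rfl)
  by_cases hev : Even n
  · exfalso
    rw [h2, bd_sE, if_pos ⟨hn0, hev⟩, Finsupp.single_eq_zero] at h
    exact hz0 h
  · refine ⟨Finsupp.single (sE (n + 1)) (z (sE n)), ?_, ?_⟩
    · refine Finsupp.single_mem_supported k _ ⟨?_, ?_⟩
      · rw [exc_sE, ← hn]
        push_cast
        rfl
      · intro i j hi hij
        have hi' : i - (n + 1) ≠ 0 := by
          intro h4
          have h5 : (sE (n + 1)).1 i = 0 := h4
          rw [h5] at hi
          simp at hi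
        have hij' : i - (n + 1) = j - (n + 1) := hij
        omega
    · rw [bd_sE, if_pos ⟨by omega, by rw [Nat.even_add_one]; exact hev⟩]
      exact h2.symm

/-! ### Transport -/

section transport

variable {Z' : Type} (E : Sj → Z') (F : ℕ → Z' → Option Z') (G' : ℤ → Submodule k (Z' →₀ k))
  (m : ℕ∞)

private structure Tr1 : Prop where
  inj : Function.Injective E
  hF : ∀ i s, F i (E s) = (fa 0 i s).map E
  hG : ∀ e, G' e = Finsupp.supported k k (E '' {s | exc s = e ∧ Lv m s})

variable {k E F G' m}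

private theorem Tr1.fG (T : Tr1 k E F G' m) (e : ℤ) (x : Sj →₀ k) (hx : x ∈ V1 k m e) :
    push k (fun s => some (E s)) x ∈ G' e := by
  rw [T.hG]
  refine push_supported (P := {s | exc s = e ∧ Lv m s}) (fun z hz z' hz' => ?_) hx
  exact ⟨z, hz, Option.some.inj hz'⟩

private theorem Tr1.fd (T : Tr1 k E F G' m) (x : Sj →₀ k) :
    bd k F (push k (fun s => some (E s)) x) = push k (fun s => some (E s)) (bd k (fa 0) x) := by
  refine (push_bd (P := Set.univ) (P' := Set.range E) ⟨fun z _ => LFz_fa 0 z,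
    fun _ _ _ _ _ => trivial⟩ ⟨?_, ?_⟩ ?_ ?_ ?_).symm
  · rintro _ ⟨s, rfl⟩
    obtain ⟨N, hN⟩ := LFz_fa 0 s
    exact ⟨N, fun i hi => by rw [T.hF, hN i hi]; rfl⟩
  · rintro _ ⟨s, rfl⟩ i z' h
    rw [T.hF] at h
    obtain ⟨t, -, rfl⟩ := Option.map_eq_some_iff.1 h
    exact ⟨t, rfl⟩
  · intro z _ z' h
    exact ⟨z, Option.some.inj h⟩
  · intro i z _
    rw [Option.bind_some, T.hF]
    cases fa 0 i z <;> rfl
  · rw [Finsupp.mem_supported]
    exact Set.subset_univ _

private theorem Tr1.finj (T : Tr1 k E F G' m) (x : Sj →₀ k)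
    (h : push k (fun s => some (E s)) x = 0) : x = 0 := by
  rw [push_total] at h
  exact Finsupp.mapDomain_injective T.inj (by rw [h, Finsupp.mapDomain_zero])

private theorem Tr1.fsur (T : Tr1 k E F G' m) (e : ℤ) (y : Z' →₀ k) (hy : y ∈ G' e) :
    ∃ x ∈ V1 k m e, push k (fun s => some (E s)) x = y := by
  rw [T.hG, Finsupp.mem_supported] at hy
  refine ⟨Finsupp.comapDomain E y T.inj.injOn, ?_, ?_⟩
  · refine (Finsupp.mem_supported k _).2 fun s hs => ?_
    rw [Finset.mem_coe, Finsupp.mem_support_iff, Finsupp.comapDomain_apply] at hs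
    obtain ⟨t, ht, hts⟩ := hy (Finset.mem_coe.2 (Finsupp.mem_support_iff.2 hs))
    rw [← T.inj hts]
    exact ht
  · rw [push_total]
    refine Finsupp.mapDomain_comapDomain E T.inj y fun z hz => ?_
    obtain ⟨t, -, hts⟩ := hy hz
    exact ⟨t, hts⟩

private theorem V1_dG (e : ℤ) (x : Sj →₀ k) (hx : x ∈ V1 k m e) :
    bd k (fa 0) x ∈ V1 k m (e - 1) := by
  refine bd_supported (P := {s | exc s = e ∧ Lv m s}) ⟨fun z _ => LFz_fa 0 z, ?_⟩ hx
  intro z hz i z' h
  exact ⟨by rw [exc_fa h, hz.1], Lv_fa hz.2 h⟩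

private theorem Tr1.iso (T : Tr1 k E F G' m) (e : ℤ) (N : ℕ) :
    HB (bd k (fa 0)) (V1 k m) e N ↔ HB (bd k F) G' e N :=
  HB_iso (f := push k (fun s => some (E s))) T.fG (fun _ x _ => T.fd x)
    (fun _ x _ h => T.finj x h) T.fsur V1_dG

end transport

private def E1 (s : Sj) : TT 1 0 := (fun _ => s, Fin.elim0)

private def E2 (s : Sj) : TT 0 1 := (Fin.elim0, fun _ => s)

private def E3 (s : Sj) : MT 1 := (0, fun _ => s)

private theorem tup_one {A A' : Type} (g : A → Option A') (a : A) :
    tup 1 g (fun _ => a) = (g a).map fun b _ => b := by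
  refine Option.ext fun y => ?_
  rw [tup_eq_some, Option.map_eq_some_iff]
  constructor
  · intro h
    refine ⟨y 0, h 0, funext fun i => ?_⟩
    rw [Subsingleton.elim i 0]
  · rintro ⟨b, hb, rfl⟩ i
    exact hb

private theorem tup_zero {A A' : Type} (g : A → Option A') (x : Fin 0 → A) :
    tup 0 g x = some Fin.elim0 :=
  tup_eq_some.2 fun i => i.elim0

private theorem T1 (m : ℕ∞) : Tr1 k E1 (FT 0 1 0) (Ga k 1 m) m := by
  refine ⟨fun s t h => congrFun (congrArg Prod.fst h) 0, fun i s => ?_, fun e => ?_⟩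
  · unfold FT pr E1
    rw [tup_one, tup_zero]
    cases fa 0 i s <;> rfl
  · ext φ
    constructor
    · intro h
      refine (Finsupp.mem_supported k _).2 fun z hz => ?_
      have h1 := (Finsupp.mem_supported k φ).1 h.2 hz
      refine ⟨z.1 0, h1.1 0, ?_⟩
      refine Prod.ext (funext fun i => ?_) (Subsingleton.elim _ _)
      rw [Subsingleton.elim i 0]
      rfl
    · intro h
      refine ⟨⟨fun σ x y => ?_, fun σ x y => ?_, fun x y i => i.elim0⟩, ?_⟩
      · rw [Subsingleton.elim σ 1]
        rfl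
      · rw [Subsingleton.elim σ 1, Equiv.Perm.sign_one]
        simp
      · refine Finsupp.supported_mono ?_ h
        rintro _ ⟨s, hs, rfl⟩
        exact ⟨fun _ => hs, fun j => j.elim0⟩

private theorem T2 (m : ℕ∞) : Tr1 k E2 (FT 0 0 1) (La k 1 m) m := by
  refine ⟨fun s t h => congrFun (congrArg Prod.snd h) 0, fun i s => ?_, fun e => ?_⟩
  · unfold FT pr E2
    rw [tup_one, tup_zero]
    cases fa 0 i s <;> rfl
  · ext φ
    constructor
    · intro h
      refine (Finsupp.mem_supported k _).2 fun z hz => ?_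
      have h1 := (Finsupp.mem_supported k φ).1 h.2 hz
      refine ⟨z.2 0, h1.2 0, ?_⟩
      refine Prod.ext (Subsingleton.elim _ _) (funext fun i => ?_)
      rw [Subsingleton.elim i 0]
      rfl
    · intro h
      refine ⟨⟨fun σ x y => ?_, fun σ x y => ?_, fun x y i j hij => ?_⟩, ?_⟩
      · rw [Subsingleton.elim σ 1]
        rfl
      · rw [Subsingleton.elim σ 1, Equiv.Perm.sign_one]
        simp
      · exact absurd (Subsingleton.elim i j) hij
      · refine Finsupp.supported_mono ?_ h
        rintro _ ⟨s, hs, rfl⟩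
        exact ⟨fun j => j.elim0, fun _ => hs⟩

private theorem T3 (m : ℕ∞) : Tr1 k E3 (FM 0 1) (C3 k 0 1 m) m := by
  refine ⟨fun s t h => congrFun (congrArg Prod.snd h) 0, fun i s => ?_, fun e => ?_⟩
  · unfold FM pr E3
    rw [tup_one, ms_zero]
    cases fa 0 i s <;> rfl
  · ext φ
    constructor
    · intro h
      refine (Finsupp.mem_supported k _).2 fun z hz => ?_
      have h1 := (Finsupp.mem_supported k φ).1 h.2 hz
      refine ⟨z.2 0, h1.2.2 0, ?_⟩
      refine Prod.ext (Multiset.card_eq_zero.1 h1.1).symm (funext fun i => ?_)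
      rw [Subsingleton.elim i 0]
      rfl
    · intro h
      refine ⟨⟨fun σ x y => ?_, fun x y i j hij => ?_⟩, ?_⟩
      · rw [Subsingleton.elim σ 1, Equiv.Perm.sign_one]
        simp
      · exact absurd (Subsingleton.elim i j) hij
      · refine Finsupp.supported_mono ?_ h
        rintro _ ⟨s, hs, rfl⟩
        exact ⟨rfl, fun s hs => absurd hs (Multiset.notMem_zero s), fun _ => hs⟩

private theorem V1_HB_nat (m : ℕ) {e : ℤ} (he : e ≠ 0) : HB (bd k (fa 0)) (V1 k m) e 0 := by
  induction m with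
  | zero => exact HB_of_acy fun z hz h => V1_acy0 k he hz h
  | succ m ih =>
    have h1 := K2_HB k one_pos (m : ℕ∞) e 0 (by
      have h2 := (T1 k m).iso e 0
      simpa using h2.1 ih)
    have h3 := ((T2 k ((m : ℕ∞) + 1)).iso e 0).2 h1
    exact_mod_cast h3

theorem V1_acy (m : ℕ∞) {e : ℤ} (he : e ≠ 0) {z : Sj →₀ k} (hz : z ∈ V1 k m e)
    (h : bd k (fa 0) z = 0) : ∃ w ∈ V1 k m (e + 1), bd k (fa 0) w = z := by
  classical
  induction m using ENat.recTopCoe with
  | coe m => exact acy_of_HB0 (V1_HB_nat k m he) z hz h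
  | top =>
    have h1 : ∀ s : Sj, ∃ m : ℕ, Lv m s := exists_Lv
    choose L hL using h1
    obtain ⟨w, hw, hwz⟩ := acy_of_HB0 (V1_HB_nat k (z.support.sup L) he) z (by
      refine (Finsupp.mem_supported k z).2 fun s hs => ⟨?_, ?_⟩
      · exact ((Finsupp.mem_supported k z).1 hz hs).1
      · exact Lv_mono (by exact_mod_cast Finset.le_sup (f := L) (Finset.mem_coe.1 hs)) (hL s)) h
    refine ⟨w, ?_, hwz⟩
    refine Finsupp.supported_mono ?_ hw
    intro s hs
    exact ⟨hs.1, Lv_top s⟩

theorem Ga_one (m : ℕ∞) (n : ℤ) :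
    HB (bd k (FT 0 1 0)) (Ga k 1 m) n (if n = 0 then 1 else 0) := by
  rw [← (T1 k m).iso]
  split_ifs with hn
  · subst hn
    intro W _ _ _ ζ hζ hdζ
    have h1 : LinearMap.range ζ ≤ Submodule.span k {Finsupp.single idS (1 : k)} := by
      rintro _ ⟨w, rfl⟩
      obtain ⟨c, hc⟩ := V1_zero k (hζ w)
      rw [hc]
      refine Submodule.mem_span_singleton.2 ⟨c, ?_⟩
      rw [Finsupp.smul_single, smul_eq_mul, mul_one]
    have h2 : Module.finrank k (LinearMap.range ζ) ≤ 1 :=
      (Submodule.finrank_mono h1).trans ((finrank_span_le_card _).trans (by simp))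
    have h3 := LinearMap.finrank_range_add_finrank_ker ζ
    have h4 : Module.finrank k (LinearMap.ker ζ) ≤
        Module.finrank k ((Bdr (bd k (fa 0)) (V1 k m) 0).comap ζ) := by
      refine Submodule.finrank_mono fun w hw => ?_
      have h5 : ζ w = 0 := hw
      rw [Submodule.mem_comap, h5]
      exact zero_mem _
    omega
  · exact HB_of_acy fun z hz h => V1_acy k m hn hz h

theorem La_one_acy (m : ℕ∞) {e : ℤ} (he : e ≠ 0) :
    ∀ z ∈ La k 1 m e, bd k (FT 0 0 1) z = 0 → ∃ w ∈ La k 1 m (e + 1), bd k (FT 0 0 1) w = z :=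
  acy_of_HB0 (((T2 k m).iso e 0).1 (HB_of_acy fun _ hz h => V1_acy k m he hz h))

theorem C3_one_acy (m : ℕ∞) {e : ℤ} (he : e ≠ 0) :
    ∀ z ∈ C3 k 0 1 m e, bd k (FM 0 1) z = 0 → ∃ w ∈ C3 k 0 1 m (e + 1), bd k (FM 0 1) w = z :=
  acy_of_HB0 (((T3 k m).iso e 0).1 (HB_of_acy fun _ hz h => V1_acy k m he hz h))

theorem La_one_bd0 {m : ℕ∞} {w : TT 0 1 →₀ k} (hw : w ∈ La k 1 m 1) :
    bd k (FT 0 0 1) w = 0 := by
  obtain ⟨x, hx, rfl⟩ := (T2 k m).fsur 1 w hw
  rw [(T2 k m).fd, V1_bd0 k hx, map_zero]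

end BPN.E
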