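import Pool.Agent.BPN.E.KDefs

/-!
# Part (E), module Ctr: contractibility of the path complexes (project BPN, architect helper30)

PROOF of `C2_acy` (`0 < a`, `1 ≤ M`).  Apply `bd_homotopy` with `f = FT 1 b a`,
`h j = pr (tup b (act (sg (j+1)))) (tup a (act (th j)))` and the set
`P = {z : for some e all entries have excess e, all have level M, the first b are InB}`.
`P` is closed under `f` (`Lv_fa`, `InB_fa`, `exc_fa`) and under `h`: if `h j z` is defined then (as `a > 0`)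
`act (th j) s` is defined for an entry `s` of the second group, so by `key_le` all entries `x` of the
first group have `x (j+1) ≤ M`, hence `Lv_sg`, `InB_sg`, `exc_sg`, and `Lv_th`, `exc_th` for the second group.
Local finiteness of `h`: `LFz_th` for an entry of the second group.  The identities `h0 .. h3`:
`pr_bind`, `tup_bind` and (for the first group) `sg_eq 1 0`, `sg_lt 1`, `sg_eq 1 (j+1)`/`sg_succ 1 j`,
`sg_gt 1`; (second group) `th_h0 .. th_h3`.  (They hold for all `z`.)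
For a cycle `φ ∈ C2 e` this gives `φ = bd f (bd h φ)`, and `bd h φ ∈ C2 (e+1)`: `bd_SA` and `bd_supported`
(excess `e+1`, levels and `InB` as above).
`C1_acy` (`0 < a`): the same with `f = FM 1 b`, `h j = pr (ms (act (th j))) (tup b (act (sg (j+1))))`, `P` the
set of the `z` with `card z.1 = a` etc.
-/

namespace BPN.E

variable (k : Type) [Field k]

/-- one step of the first contraction -/
private def Pc2 (b a : ℕ) (M : ℕ∞) (e : ℤ) : Set (TT b a) :=
  {z | (∀ i, exc (z.1 i) = e ∧ (Lv M (z.1 i) ∧ InB (z.1 i))) ∧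
    ∀ j, exc (z.2 j) = e ∧ Lv M (z.2 j)}

private theorem Pc2_f {b a : ℕ} {M : ℕ∞} {e : ℤ} {z z' : TT b a} {i : ℕ}
    (hz : z ∈ Pc2 b a M e) (h : FT 1 b a i z = some z') : z' ∈ Pc2 b a M (e - 1) := by
  obtain ⟨h1, h2⟩ := pr_eq_some.1 h
  rw [tup_eq_some] at h1 h2
  refine ⟨fun t => ?_, fun t => ?_⟩
  · obtain ⟨g1, g2, g3⟩ := hz.1 t
    exact ⟨by rw [exc_fa (h1 t), g1], Lv_fa g2 (h1 t), InB_fa g3 (h1 t)⟩
  · obtain ⟨g1, g2⟩ := hz.2 t
    exact ⟨by rw [exc_fa (h2 t), g1], Lv_fa g2 (h2 t)⟩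

private noncomputable def hc2 (b a j : ℕ) : TT b a → Option (TT b a) :=
  pr (tup b (act (sg (j + 1)))) (tup a (act (th j)))

private theorem Pc2_h {b a : ℕ} (ha : 0 < a) {M : ℕ∞} (hM : 1 ≤ M) {e : ℤ} {z z' : TT b a} {j : ℕ}
    (hz : z ∈ Pc2 b a M e) (h : hc2 b a j z = some z') : z' ∈ Pc2 b a M (e + 1) := by
  obtain ⟨h1, h2⟩ := pr_eq_some.1 h
  rw [tup_eq_some] at h1 h2
  refine ⟨fun t => ?_, fun t => ?_⟩
  · obtain ⟨g1, g2, g3⟩ := hz.1 t
    obtain ⟨g4, -⟩ := hz.2 ⟨0, ha⟩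
    have key := key_le hM g2 (g1.trans g4.symm) (h2 ⟨0, ha⟩)
    exact ⟨by rw [exc_sg (h1 t), g1], Lv_sg g2 key (h1 t), InB_sg g3 (h1 t)⟩
  · obtain ⟨g1, g2⟩ := hz.2 t
    exact ⟨by rw [exc_th (h2 t), g1], Lv_th g2 (h2 t)⟩

private theorem tup_id' {A : Type} {n : ℕ} {g : A → Option A} (hg : ∀ a, g a = some a)
    (x : Fin n → A) : tup n g x = some x := by
  rw [tup_eq_some]
  exact fun i => hg _

private theorem ms_id' {A : Type} {g : A → Option A} (hg : ∀ a, g a = some a)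
    (x : Multiset A) : ms g x = some x := by
  have h1 : g = fun a => some ((fun a : A => a) a) := funext hg
  rw [h1, ms_some, Multiset.map_id']

theorem C2_acy {b a : ℕ} (ha : 0 < a) {M : ℕ∞} (hM : 1 ≤ M) :
    Acy (bd k (FT 1 b a)) (C2 k b a M) := by
  intro e φ hφ hd
  have hLF : ∀ z : TT b a, ∃ N, ∀ i, N ≤ i → hc2 b a i z = none :=
    LFz_pr_right _ (LFz_tup ha LFz_th)
  have hfP : LFP (FT 1 b a) (⋃ e, Pc2 b a M e) (⋃ e, Pc2 b a M e) := by
    refine ⟨fun z _ => LFz_FT (by omega) z, fun z hz i z' h => ?_⟩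
    obtain ⟨e', he'⟩ := Set.mem_iUnion.1 hz
    exact Set.mem_iUnion.2 ⟨_, Pc2_f he' h⟩
  have hhP : LFP (hc2 b a) (⋃ e, Pc2 b a M e) (⋃ e, Pc2 b a M e) := by
    refine ⟨fun z _ => hLF z, fun z hz i z' h => ?_⟩
    obtain ⟨e', he'⟩ := Set.mem_iUnion.1 hz
    exact Set.mem_iUnion.2 ⟨_, Pc2_h ha hM he' h⟩
  have hφe : φ ∈ Finsupp.supported k k (Pc2 b a M e) := hφ.2
  have hφP : φ ∈ Finsupp.supported k k (⋃ e, Pc2 b a M e) :=
    Finsupp.supported_mono (Set.subset_iUnion (Pc2 b a M) e) hφe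
  have key := bd_homotopy (k := k) hfP hhP ?_ ?_ ?_ ?_ hφP
  · rw [hd, map_zero, add_zero] at key
    refine ⟨bd k (hc2 b a) φ, ⟨?_, ?_⟩, key⟩
    · exact bd_SA (k := k) hφ.1 fun z _ => hLF z
    · exact bd_supported (k := k) ⟨fun z _ => hLF z, fun z hz i z' h => Pc2_h ha hM hz h⟩ hφe
  · intro z _
    unfold hc2 FT
    rw [pr_bind, pr_eq_some]
    refine ⟨?_, ?_⟩
    · rw [tup_bind]
      exact tup_id' (fun s => sg_eq 1 0 s) _
    · rw [tup_bind]
      exact tup_id' th_h0 _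
  · intro i j hij z _
    unfold hc2 FT
    rw [pr_bind, pr_bind]
    congr 1
    · funext x
      rw [tup_bind, tup_bind]
      congr 1
      funext s
      exact sg_lt 1 hij s
    · funext x
      rw [tup_bind, tup_bind]
      congr 1
      funext s
      exact th_h1 hij s
  · intro j z _
    unfold hc2 FT
    rw [pr_bind, pr_bind]
    congr 1
    · funext x
      rw [tup_bind, tup_bind]
      congr 1
      funext s
      rw [sg_eq 1 (j + 1) s, sg_succ 1 j s]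
    · funext x
      rw [tup_bind, tup_bind]
      congr 1
      funext s
      exact th_h2 j s
  · intro i j hij z _
    unfold hc2 FT
    rw [pr_bind, pr_bind]
    congr 1
    · funext x
      rw [tup_bind, tup_bind]
      congr 1
      funext s
      exact sg_gt 1 hij s
    · funext x
      rw [tup_bind, tup_bind]
      congr 1
      funext s
      exact th_h3 hij s

private def Pc1 (a b : ℕ) (M : ℕ∞) (e : ℤ) : Set (MT b) :=
  {z | Multiset.card z.1 = a ∧ (∀ s ∈ z.1, exc s = e ∧ Lv M s) ∧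
    ∀ j, exc (z.2 j) = e ∧ (Lv M (z.2 j) ∧ InB (z.2 j))}

private theorem Pc1_f {a b : ℕ} {M : ℕ∞} {e : ℤ} {z z' : MT b} {i : ℕ}
    (hz : z ∈ Pc1 a b M e) (h : FM 1 b i z = some z') : z' ∈ Pc1 a b M (e - 1) := by
  obtain ⟨h1, h2⟩ := pr_eq_some.1 h
  rw [tup_eq_some] at h2
  refine ⟨(ms_card h1).trans hz.1, fun t ht => ?_, fun t => ?_⟩
  · obtain ⟨s, hs, hst⟩ := (mem_ms h1 t).1 ht
    obtain ⟨g1, g2⟩ := hz.2.1 s hs
    exact ⟨by rw [exc_fa hst, g1], Lv_fa g2 hst⟩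
  · obtain ⟨g1, g2, g3⟩ := hz.2.2 t
    exact ⟨by rw [exc_fa (h2 t), g1], Lv_fa g2 (h2 t), InB_fa g3 (h2 t)⟩

private noncomputable def hc1 (b j : ℕ) : MT b → Option (MT b) :=
  pr (ms (act (th j))) (tup b (act (sg (j + 1))))

private theorem Pc1_h {a b : ℕ} (ha : 0 < a) {M : ℕ∞} (hM : 1 ≤ M) {e : ℤ} {z z' : MT b} {j : ℕ}
    (hz : z ∈ Pc1 a b M e) (h : hc1 b j z = some z') : z' ∈ Pc1 a b M (e + 1) := by
  obtain ⟨h1, h2⟩ := pr_eq_some.1 h
  rw [tup_eq_some] at h2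
  obtain ⟨s₀, hs₀⟩ : ∃ s, s ∈ z.1 := Multiset.card_pos_iff_exists_mem.1 (by rw [hz.1]; exact ha)
  refine ⟨(ms_card h1).trans hz.1, fun t ht => ?_, fun t => ?_⟩
  · obtain ⟨s, hs, hst⟩ := (mem_ms h1 t).1 ht
    obtain ⟨g1, g2⟩ := hz.2.1 s hs
    exact ⟨by rw [exc_th hst, g1], Lv_th g2 hst⟩
  · obtain ⟨g1, g2, g3⟩ := hz.2.2 t
    obtain ⟨g4, -⟩ := hz.2.1 s₀ hs₀
    obtain ⟨t₀, ht₀⟩ := Option.isSome_iff_exists.1 ((ms_eq_some.1 h1).1 s₀ hs₀)
    have key := key_le hM g2 (g1.trans g4.symm) ht₀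
    exact ⟨by rw [exc_sg (h2 t), g1], Lv_sg g2 key (h2 t), InB_sg g3 (h2 t)⟩

theorem C1_acy {a b : ℕ} (ha : 0 < a) {M : ℕ∞} (hM : 1 ≤ M) :
    Acy (bd k (FM 1 b)) (C1 k a b M) := by
  intro e φ hφ hd
  have hLF : ∀ z : MT b, Multiset.card z.1 = a → ∃ N, ∀ i, N ≤ i → hc1 b i z = none := by
    intro z hz
    obtain ⟨s₀, hs₀⟩ : ∃ s, s ∈ z.1 := Multiset.card_pos_iff_exists_mem.1 (by rw [hz]; exact ha)
    obtain ⟨N, hN⟩ := LFz_th s₀
    refine ⟨N, fun i hi => ?_⟩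
    unfold hc1
    rw [pr_eq_none]
    left
    rw [ms_eq_none]
    exact ⟨s₀, hs₀, hN i hi⟩
  have hfP : LFP (FM 1 b) (⋃ e, Pc1 a b M e) (⋃ e, Pc1 a b M e) := by
    refine ⟨fun z hz => ?_, fun z hz i z' h => ?_⟩
    · obtain ⟨e', he'⟩ := Set.mem_iUnion.1 hz
      exact (LFP_FM (c := 1) (a := a) (b := b) (by omega)).1 z he'.1
    · obtain ⟨e', he'⟩ := Set.mem_iUnion.1 hz
      exact Set.mem_iUnion.2 ⟨_, Pc1_f he' h⟩
  have hhP : LFP (hc1 b) (⋃ e, Pc1 a b M e) (⋃ e, Pc1 a b M e) := by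
    refine ⟨fun z hz => ?_, fun z hz i z' h => ?_⟩
    · obtain ⟨e', he'⟩ := Set.mem_iUnion.1 hz
      exact hLF z he'.1
    · obtain ⟨e', he'⟩ := Set.mem_iUnion.1 hz
      exact Set.mem_iUnion.2 ⟨_, Pc1_h ha hM he' h⟩
  have hφe : φ ∈ Finsupp.supported k k (Pc1 a b M e) := hφ.2
  have hφP : φ ∈ Finsupp.supported k k (⋃ e, Pc1 a b M e) :=
    Finsupp.supported_mono (Set.subset_iUnion (Pc1 a b M) e) hφe
  have key := bd_homotopy (k := k) hfP hhP ?_ ?_ ?_ ?_ hφP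
  · rw [hd, map_zero, add_zero] at key
    refine ⟨bd k (hc1 b) φ, ⟨?_, ?_⟩, key⟩
    · exact bd_AL (k := k) hφ.1 fun z hz => hLF z ((Finsupp.mem_supported k φ).1 hφe hz).1
    · exact bd_supported (k := k) ⟨fun z hz => hLF z hz.1, fun z hz i z' h => Pc1_h ha hM hz h⟩ hφe
  · intro z _
    unfold hc1 FM
    rw [pr_bind, pr_eq_some]
    refine ⟨?_, ?_⟩
    · rw [ms_bind]
      exact ms_id' th_h0 _
    · rw [tup_bind]
      exact tup_id' (fun s => sg_eq 1 0 s) _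
  · intro i j hij z _
    unfold hc1 FM
    rw [pr_bind, pr_bind]
    congr 1
    · funext x
      rw [ms_bind, ms_bind]
      congr 1
      funext s
      exact th_h1 hij s
    · funext x
      rw [tup_bind, tup_bind]
      congr 1
      funext s
      exact sg_lt 1 hij s
  · intro j z _
    unfold hc1 FM
    rw [pr_bind, pr_bind]
    congr 1
    · funext x
      rw [ms_bind, ms_bind]
      congr 1
      funext s
      exact th_h2 j s
    · funext x
      rw [tup_bind, tup_bind]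
      congr 1
      funext s
      rw [sg_eq 1 (j + 1) s, sg_succ 1 j s]
  · intro i j hij z _
    unfold hc1 FM
    rw [pr_bind, pr_bind]
    congr 1
    · funext x
      rw [ms_bind, ms_bind]
      congr 1
      funext s
      exact th_h3 hij s
    · funext x
      rw [tup_bind, tup_bind]
      congr 1
      funext s
      exact sg_gt 1 hij s

end BPN.E
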