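import Pool.Agent.BPN.E.HB

/-!
# Part (E), module Inj: injectivity of the homology of a subcomplex (project BPN, helper30)

`InjP d G' G e` : a cycle of `G' e` which is a boundary in `G` is a boundary in `G'`.

PROOFS.
* `Inj_quot` (lower middle complex acyclic): let `z ∈ G₃' e`, `d₃ z = 0`, `z = d₃ w`, `w ∈ G₃ (e+1)`.
  Choose `b' ∈ G₂' e` with `g b' = z`; `g (d₂ b') = 0`, so `d₂ b' = f u` with `u ∈ G₁' (e-1)`, `d₁ u = 0`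
  (`f` injective).  Choose `b ∈ G₂ (e+1)` with `g b = w`; `g (b' - d₂ b) = 0`, so `b' - d₂ b = f x`,
  `x ∈ G₁ e`; `f u = d₂ b' = d₂ (f x) = f (d₁ x)`, so `u = d₁ x` is a boundary in `G₁`, hence `u = d₁ a'`
  with `a' ∈ G₁' e` by `InjP d₁ G₁' G₁ (e-1)` (note `(e-1)+1 = e`).  Then `b' - f a' ∈ G₂' e` is a cycle,
  `= d₂ c`, `c ∈ G₂' (e+1)`, and `z = g (b' - f a') = d₃ (g c)`.
* `Inj_iso`: transport along an isomorphism of pairs.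
* `Inj_mid_sub`: the step for `0 → G₁ → G₂ → G₃ → 0` where `G₁'` is acyclic in degree `e - 1` and `G₁` is
  acyclic in degree `e`: `InjP d₂ G₂' G₂ e → InjP d₃ G₃' G₃ e`.  Let `z, w` be as above, `b', u` as above;
  `u` is a cycle of `G₁' (e-1)`, `u = d₁ a'`, `a' ∈ G₁' e`; replace `b'` by `b' - f a'`, a cycle of
  `G₂' e` over `z`.  `b` over `w` as above, `b' - d₂ b = f x` with `x ∈ G₁ e` a cycle, so `x = d₁ v`,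
  `v ∈ G₁ (e+1)`, `b' = d₂ (b + f v)`, so `b' = d₂ c` with `c ∈ G₂' (e+1)` and `z = d₃ (g c)`.
* `Inj_mid_quot`: the step where `G₃'` is acyclic in degree `e` and `G₃` is acyclic in degree `e+1`:
  `InjP d₁ G₁' G₁ e → InjP d₂ G₂' G₂ e`.  Let `z ∈ G₂' e` be a cycle, `z = d₂ w`, `w ∈ G₂ (e+1)`.  `g z` is a
  cycle of `G₃' e`, `g z = d₃ v'`, `v' = g y'`, `y' ∈ G₂' (e+1)`; `z - d₂ y' = f u`, `u ∈ G₁' e` a cycle.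
  `g (w - y') ∈ G₃ (e+1)` is a cycle (`d₃ g w = g z = d₃ g y'`), `= d₃ (g t)`, `t ∈ G₂ (e+2)`, so
  `w - y' - d₂ t = f x`, `x ∈ G₁ (e+1)`, `f (d₁ x) = d₂ (w - y') = z - d₂ y' = f u`, so `u = d₁ x` is a
  boundary in `G₁`, hence `u = d₁ a'`, `a' ∈ G₁' (e+1)`, `z = d₂ (y' + f a')`.
-/

namespace BPN.E

variable {k : Type} [Field k] {M : Type} [AddCommGroup M] [Module k M]
  {M₁ : Type} [AddCommGroup M₁] [Module k M₁] {M₂ : Type} [AddCommGroup M₂] [Module k M₂]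
  {M₃ : Type} [AddCommGroup M₃] [Module k M₃]

/-- A cycle of `G' e` which is a boundary in `G` is a boundary in `G'`. -/
def InjP (d : M →ₗ[k] M) (G' G : ℤ → Submodule k M) (e : ℤ) : Prop :=
  ∀ z ∈ G' e, d z = 0 → (∃ w ∈ G (e + 1), d w = z) → ∃ w ∈ G' (e + 1), d w = z

variable {d₁ : M₁ →ₗ[k] M₁} {G₁ G₁' : ℤ → Submodule k M₁} {d₂ : M₂ →ₗ[k] M₂}
  {G₂ G₂' : ℤ → Submodule k M₂} {d₃ : M₃ →ₗ[k] M₃} {G₃ G₃' : ℤ → Submodule k M₃}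
  {f : M₁ →ₗ[k] M₂} {g : M₂ →ₗ[k] M₃}

theorem Inj_quot (h' : SES d₁ G₁' d₂ G₂' d₃ G₃' f g) (h : SES d₁ G₁ d₂ G₂ d₃ G₃ f g)
    (h1 : ∀ e, G₁' e ≤ G₁ e) (h2 : ∀ e, G₂' e ≤ G₂ e) {e : ℤ}
    (hac : ∀ z ∈ G₂' e, d₂ z = 0 → ∃ w ∈ G₂' (e + 1), d₂ w = z)
    (hi : InjP d₁ G₁' G₁ (e - 1)) : InjP d₃ G₃' G₃ e := by
  rintro z hz hdz ⟨w, hw, hdw⟩
  obtain ⟨b', hb', rfl⟩ := h'.gsur e z hz
  obtain ⟨u, hu, hfu⟩ := h'.ex (e - 1) (d₂ b') (h'.c₂.dG e b' hb') (by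
    rw [← h'.gd e b' hb', hdz])
  have hdu : d₁ u = 0 := by
    refine h'.finj (e - 1 - 1) _ (h'.c₁.dG _ u hu) ?_
    rw [← h'.fd _ u hu, hfu, h'.c₂.dd e b' hb']
  obtain ⟨b, hb, rfl⟩ := h.gsur _ w hw
  have hdb : d₂ b ∈ G₂ e := by
    have := h.c₂.dG _ b hb
    rwa [add_sub_cancel_right] at this
  obtain ⟨x, hx, hfx⟩ := h.ex e (b' - d₂ b) (sub_mem (h2 e hb') hdb) (by
    rw [map_sub, ← h.gd _ b hb, hdw, sub_self])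
  have hux : d₁ x = u := by
    have h3 := h.finj (e - 1) (d₁ x - u) (sub_mem (h.c₁.dG e x hx) (h1 _ hu)) (by
      rw [map_sub, ← h.fd e x hx, hfx, map_sub, h.c₂.dd _ b hb, hfu, sub_zero, sub_self])
    exact sub_eq_zero.1 h3
  obtain ⟨a', ha', hda'⟩ := hi u hu hdu ⟨x, by rwa [sub_add_cancel], hux⟩
  rw [sub_add_cancel] at ha'
  obtain ⟨c, hc, hdc⟩ := hac (b' - f a') (sub_mem hb' (h'.fG e a' ha')) (by
    rw [map_sub, h'.fd e a' ha', hda', hfu, sub_self])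
  refine ⟨g c, h'.gG _ c hc, ?_⟩
  rw [h'.gd _ c hc, hdc, map_sub, h'.gf e a' ha', sub_zero]

theorem Inj_mid_sub (h' : SES d₁ G₁' d₂ G₂' d₃ G₃' f g) (h : SES d₁ G₁ d₂ G₂ d₃ G₃ f g)
    (h2 : ∀ e, G₂' e ≤ G₂ e) {e : ℤ}
    (hac' : ∀ z ∈ G₁' (e - 1), d₁ z = 0 → ∃ w ∈ G₁' e, d₁ w = z)
    (hac : ∀ z ∈ G₁ e, d₁ z = 0 → ∃ w ∈ G₁ (e + 1), d₁ w = z)
    (hi : InjP d₂ G₂' G₂ e) : InjP d₃ G₃' G₃ e := by
  rintro z hz hdz ⟨w, hw, hdw⟩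
  obtain ⟨b₀, hb₀, rfl⟩ := h'.gsur e z hz
  obtain ⟨u, hu, hfu⟩ := h'.ex (e - 1) (d₂ b₀) (h'.c₂.dG e b₀ hb₀) (by
    rw [← h'.gd e b₀ hb₀, hdz])
  have hdu : d₁ u = 0 := by
    refine h'.finj (e - 1 - 1) _ (h'.c₁.dG _ u hu) ?_
    rw [← h'.fd _ u hu, hfu, h'.c₂.dd e b₀ hb₀]
  obtain ⟨a', ha', hda'⟩ := hac' u hu hdu
  obtain ⟨b', hb'd⟩ : ∃ b', b' = b₀ - f a' := ⟨_, rfl⟩
  have hb' : b' ∈ G₂' e := by
    rw [hb'd]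
    exact sub_mem hb₀ (h'.fG e a' ha')
  have hgb' : g b' = g b₀ := by
    rw [hb'd, map_sub, h'.gf e a' ha', sub_zero]
  have hdb' : d₂ b' = 0 := by
    rw [hb'd, map_sub, h'.fd e a' ha', hda', hfu, sub_self]
  obtain ⟨b, hb, rfl⟩ := h.gsur _ w hw
  have hdb : d₂ b ∈ G₂ e := by
    have := h.c₂.dG _ b hb
    rwa [add_sub_cancel_right] at this
  obtain ⟨x, hx, hfx⟩ := h.ex e (b' - d₂ b) (sub_mem (h2 e hb') hdb) (by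
    rw [map_sub, ← h.gd _ b hb, hdw, hgb', sub_self])
  have hdx : d₁ x = 0 := by
    refine h.finj (e - 1) _ (h.c₁.dG e x hx) ?_
    rw [← h.fd e x hx, hfx, map_sub, hdb', h.c₂.dd _ b hb, sub_zero]
  obtain ⟨v, hv, hdv⟩ := hac x hx hdx
  obtain ⟨c, hc, hdc⟩ := hi b' hb' hdb' ⟨b + f v, add_mem hb (h.fG _ v hv), by
    rw [map_add, h.fd _ v hv, hdv, hfx]
    abel⟩
  refine ⟨g c, h'.gG _ c hc, ?_⟩
  rw [h'.gd _ c hc, hdc, hgb']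

theorem Inj_mid_quot (h' : SES d₁ G₁' d₂ G₂' d₃ G₃' f g) (h : SES d₁ G₁ d₂ G₂ d₃ G₃ f g)
    (h1 : ∀ e, G₁' e ≤ G₁ e) (h2 : ∀ e, G₂' e ≤ G₂ e) {e : ℤ}
    (hac' : ∀ z ∈ G₃' e, d₃ z = 0 → ∃ w ∈ G₃' (e + 1), d₃ w = z)
    (hac : ∀ z ∈ G₃ (e + 1), d₃ z = 0 → ∃ w ∈ G₃ (e + 1 + 1), d₃ w = z)
    (hi : InjP d₁ G₁' G₁ e) : InjP d₂ G₂' G₂ e := by
  rintro z hz hdz ⟨w, hw, hdw⟩
  obtain ⟨v', hv', hdv'⟩ := hac' (g z) (h'.gG e z hz) (by rw [h'.gd e z hz, hdz, map_zero])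
  obtain ⟨y', hy', rfl⟩ := h'.gsur _ v' hv'
  have hdy' : d₂ y' ∈ G₂' e := by
    have := h'.c₂.dG _ y' hy'
    rwa [add_sub_cancel_right] at this
  obtain ⟨u, hu, hfu⟩ := h'.ex e (z - d₂ y') (sub_mem hz hdy') (by
    rw [map_sub, ← h'.gd _ y' hy', hdv', sub_self])
  have hdu : d₁ u = 0 := by
    refine h'.finj (e - 1) _ (h'.c₁.dG _ u hu) ?_
    rw [← h'.fd _ u hu, hfu, map_sub, hdz, h'.c₂.dd _ y' hy', sub_zero]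
  have hwy : w - y' ∈ G₂ (e + 1) := sub_mem hw (h2 _ hy')
  obtain ⟨s, hs, hds⟩ := hac (g (w - y')) (h.gG _ _ hwy) (by
    rw [h.gd _ _ hwy, map_sub, hdw, map_sub, ← h'.gd _ y' hy', hdv', sub_self])
  obtain ⟨t, ht, rfl⟩ := h.gsur _ s hs
  have hdt : d₂ t ∈ G₂ (e + 1) := by
    have := h.c₂.dG _ t ht
    rwa [add_sub_cancel_right] at this
  obtain ⟨x, hx, hfx⟩ := h.ex (e + 1) (w - y' - d₂ t) (sub_mem hwy hdt) (by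
    rw [map_sub, ← h.gd _ t ht, hds, sub_self])
  have hdx1 : d₁ x ∈ G₁ e := by
    have := h.c₁.dG _ x hx
    rwa [add_sub_cancel_right] at this
  have hfdx : f (d₁ x) = f u := by
    rw [← h.fd _ x hx, hfx, map_sub, h.c₂.dd _ t ht, sub_zero, map_sub, hdw, hfu]
  have hux : d₁ x = u := by
    have h3 := h.finj e (d₁ x - u) (sub_mem hdx1 (h1 _ hu)) (by rw [map_sub, hfdx, sub_self])
    exact sub_eq_zero.1 h3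
  obtain ⟨a', ha', hda'⟩ := hi u hu hdu ⟨x, hx, hux⟩
  refine ⟨y' + f a', add_mem hy' (h'.fG _ a' ha'), ?_⟩
  rw [map_add, h'.fd _ a' ha', hda', hfu]
  abel

theorem Inj_iso (fG' : ∀ e x, x ∈ G₁' e → f x ∈ G₂' e) (fG : ∀ e x, x ∈ G₁ e → f x ∈ G₂ e)
    (fd : ∀ e x, x ∈ G₁ e → d₂ (f x) = f (d₁ x)) (h1 : ∀ e, G₁' e ≤ G₁ e)
    (dG : ∀ e x, x ∈ G₁ e → d₁ x ∈ G₁ (e - 1))
    (finj : ∀ e x, x ∈ G₁ e → f x = 0 → x = 0)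
    (fsur' : ∀ e y, y ∈ G₂' e → ∃ x ∈ G₁' e, f x = y)
    (fsur : ∀ e y, y ∈ G₂ e → ∃ x ∈ G₁ e, f x = y) {e : ℤ} (hi : InjP d₁ G₁' G₁ e) :
    InjP d₂ G₂' G₂ e := by
  rintro z hz hdz ⟨w, hw, hdw⟩
  obtain ⟨x, hx, rfl⟩ := fsur' e z hz
  obtain ⟨v, hv, rfl⟩ := fsur _ w hw
  have hdv : d₁ v ∈ G₁ e := by
    have := dG _ v hv
    rwa [add_sub_cancel_right] at this
  have h3 : d₁ v = x := by
    have h4 := finj e (d₁ v - x) (sub_mem hdv (h1 e hx)) (by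
      rw [map_sub, ← fd _ v hv, hdw, sub_self])
    exact sub_eq_zero.1 h4
  have h5 : d₁ x = 0 := by
    refine finj (e - 1) _ (dG e x (h1 e hx)) ?_
    rw [← fd e x (h1 e hx), hdz]
  obtain ⟨c, hc, hdc⟩ := hi x hx h5 ⟨v, hv, h3⟩
  refine ⟨f c, fG' _ c hc, ?_⟩
  rw [fd _ c (h1 _ hc), hdc]

end BPN.E
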