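import Pool.Agent.BPN.E.Mult

/-!
# Part (E), module MultL: exactness of the Koszul type complexes, dual half (project BPN, helper30)

Definitions `AltF`, `Uf`, `Lf` in `Pool/Agent/BPN/E/Mult.lean`.  Fix a well order on `A`.  For a point
`P = (x; y)` let `nc P = {o ∈ O : count o x ≥ q or o = y_i for some i}` and `m = m(P)` its least element
if it is non empty.

PROOF of `ExL_..`.  `(H' φ)(x; y_0..y_b) = ∑_{i : y_i = m(P)} (-1)^i φ (x + q y_i; y without y_i)`
 (`0` if `nc P = ∅`).  CLAIM `H' (Lf φ) + Lf (H' φ) = φ` at all points with `nc ≠ ∅` (for `b = 0`, i.e. `φ` on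
 `Multiset A × A^0`: `Lf (H' φ) = φ`).  `P = (x; y)`, `y` distinct.
 Case 1, `m = y_j`: `H' (Lf φ) P = (-1)^j (Lf φ)(x + q m; y^) = (-1)^j ∑_z φ (x + q m - q z; z, y^)`,
   (`y^` = `y` without `y_j`); `z = m` gives `(-1)^j φ (x; m, y^) = φ P`.
   `Lf (H' φ) P = ∑_z (H' φ)(x - q z; z, y)` over `z` with `count z x ≥ q`: for `z ∈ {y_i}` the term is `0`
   (two equal entries), for `z ∉ {y_i}` the point `(x - q z; z, y)` has the same `nc` if `z ∈ O` (if
   `z ∉ O` the value `H' φ` is `0` because `y ⊆ O` on the support of `φ` and `z` stays in the tuple), so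
   the term is `(-1)^(j+1) φ (x - q z + q m; z, y^)`.  These cancel the terms `z ≠ m` above (for
   `z ≠ m` with `z ∈ {y_i}` the term above is `0`; the conditions `count z (x + q m) ≥ q` and
   `count z x ≥ q` agree for `z ≠ m`).
 Case 2, `m ∉ {y_i}`, `count m x ≥ q`: `H' (Lf φ) P = 0`; in `Lf (H' φ) P` the term `z = m` is
   `(H' φ)(x - q m; m, y) = φ (x; y)`, the terms `z ≠ m` vanish (`m` is still the minimum of `nc` and does
   not occur in the tuple `(z, y)`).
 For `ExL_succ` every point of the support of `φ` has `nc ≠ ∅` (the tuple is non empty and in `O`), and at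
 points with `nc P = ∅` (so `y_i ∉ O` for all `i`) one checks `Lf (H' φ) P = 0 = φ P`: the terms are
 `(H' φ)(x - q z; z, y)`, which is a multiple of a value of `φ` at a tuple containing some `y_i ∉ O` or
 `z = y_i`.
-/

namespace BPN.E

variable {k A : Type} [Field k]

open Classical in
/-- the homotopy for `Lf` -/
noncomputable def Kf (q : ℕ) (O : A → Prop) {b : ℕ} (φ : Multiset A → (Fin b → A) → k) :
    Multiset A → (Fin (b + 1) → A) → k := fun x y =>
  ∑ i : Fin (b + 1), if mm (nc q O x y) = some (y i) then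
    (-1 : ℤ) ^ (i : ℕ) • φ (x + Multiset.replicate q (y i)) (y ∘ i.succAbove) else 0

open Classical in
theorem Kf_eq {q : ℕ} {O : A → Prop} {b : ℕ} {φ : Multiset A → (Fin b → A) → k}
    {x : Multiset A} {y : Fin (b + 1) → A} {s : Set A} (h : nc q O x y = s) :
    Kf q O φ x y = altS (fun z u => if mm s = some z then
      φ (x + Multiset.replicate q z) u else 0) y := by
  unfold Kf altS
  rw [h]
  refine Finset.sum_congr rfl fun i _ => ?_
  by_cases h1 : mm s = some (y i)
  · simp only [if_pos h1]
  · simp only [if_neg h1, smul_zero]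

theorem Kf_alt {q : ℕ} {O : A → Prop} {b : ℕ} {φ : Multiset A → (Fin b → A) → k}
    (hA : AltF φ) : AltF (Kf q O φ) := by
  classical
  have hF : ∀ (x : Multiset A) (s : Set A) (z : A), AltG (fun u : Fin b → A =>
      if mm s = some z then φ (x + Multiset.replicate q z) u else 0) := by
    intro x s z
    by_cases h : mm s = some z
    · simp only [if_pos h]
      exact hA.alt _
    · simp only [if_neg h]
      exact ⟨fun _ _ => (smul_zero _).symm, fun _ _ _ _ _ => rfl⟩
  refine ⟨fun x y σ => ?_, fun x y i j hij hy => ?_⟩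
  · rw [Kf_eq (nc_perm q O x y σ), Kf_eq rfl]
    exact altS_perm _ (hF x _) y σ
  · rw [Kf_eq rfl]
    exact altS_eq_zero _ (hF x _) y i j hij hy

theorem Kf_none {q : ℕ} {O : A → Prop} {b : ℕ} {φ : Multiset A → (Fin b → A) → k}
    {x : Multiset A} {y : Fin (b + 1) → A} (h : mm (nc q O x y) = none) : Kf q O φ x y = 0 := by
  unfold Kf
  simp [h]

/-- the support of the homotopy -/
theorem Kf_supp {q : ℕ} (hq : 0 < q) {O : A → Prop} {b : ℕ} {φ : Multiset A → (Fin b → A) → k}
    (hO : ∀ x y, φ x y ≠ 0 → ∀ i, O (y i))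
    {x : Multiset A} {y : Fin (b + 1) → A} (h : Kf q O φ x y ≠ 0) :
    (∀ i, O (y i)) ∧ ∃ x' y', φ x' y' ≠ 0 ∧
        Multiset.card x' = Multiset.card x + q ∧
        ∀ z, (z ∈ x ∨ ∃ i, y i = z) ↔ (z ∈ x' ∨ ∃ i, y' i = z) := by
  classical
  unfold Kf at h
  obtain ⟨i, -, hi⟩ := Finset.exists_ne_zero_of_sum_ne_zero h
  split_ifs at hi with h1
  · have h2 : φ (x + Multiset.replicate q (y i)) (y ∘ i.succAbove) ≠ 0 := fun h3 =>
      hi (by rw [h3, smul_zero])
    refine ⟨fun j => ?_, _, _, h2, ?_, fun z => ?_⟩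
    · by_cases hj : j = i
      · rw [hj]
        exact (mm_mem h1).1
      · obtain ⟨l, rfl⟩ := Fin.exists_succAbove_eq hj
        exact hO _ _ h2 l
    · rw [Multiset.card_add, Multiset.card_replicate]
    · simp only [Multiset.mem_add, Multiset.mem_replicate, Function.comp_apply]
      constructor
      · rintro (h3 | ⟨j, hj⟩)
        · exact Or.inl (Or.inl h3)
        · by_cases hji : j = i
          · exact Or.inl (Or.inr ⟨hq.ne', by rw [← hj, hji]⟩)
          · obtain ⟨l, rfl⟩ := Fin.exists_succAbove_eq hji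
            exact Or.inr ⟨l, hj⟩
      · rintro ((h3 | h3) | ⟨j, hj⟩)
        · exact Or.inl h3
        · exact Or.inr ⟨i, h3.2.symm⟩
        · exact Or.inr ⟨_, hj⟩
  · exact absurd rfl hi

open Classical in
/-- the value of the homotopy after one element has been moved to the tuple -/
theorem Kf_cons {q : ℕ} {O : A → Prop} {b : ℕ} {φ : Multiset A → (Fin (b + 1) → A) → k}
    {x : Multiset A} {y : Fin (b + 1) → A} {z m : A} (hz : Multiset.replicate q z ≤ x)
    (h : mm (nc q O x y) = some m) :
    Kf q O φ (x - Multiset.replicate q z) (Fin.cons z y) = (if z = m then φ x y else 0) +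
      ∑ i : Fin (b + 1), if y i = m then -((-1 : ℤ) ^ (i : ℕ) •
        φ (x - Multiset.replicate q z + Multiset.replicate q m)
          (Fin.cons z (y ∘ i.succAbove))) else 0 := by
  unfold Kf
  rw [nc_down q O x y z hz, h, Fin.sum_univ_succ]
  congr 1
  · simp only [Fin.cons_zero, Fin.val_zero, pow_zero, one_smul]
    have h1 : (Fin.cons z y : Fin (b + 2) → A) ∘ Fin.succAbove 0 = y := by
      funext t; simp
    rw [h1, tsub_add_cancel_of_le hz]
    by_cases hzm : z = m
    · simp [hzm]
    · rw [if_neg hzm, if_neg (fun h2 => hzm (Option.some.inj h2).symm)]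
  · refine Finset.sum_congr rfl fun i _ => ?_
    simp only [Fin.cons_succ, Fin.val_succ]
    have h2 : (Fin.cons z y : Fin (b + 2) → A) ∘ i.succ.succAbove =
        Fin.cons z (y ∘ i.succAbove) := by
      funext t
      refine Fin.cases ?_ (fun t => ?_) t
      · simp
      · simp
    rw [h2]
    by_cases hi : y i = m
    · rw [if_pos (by rw [hi]), if_pos hi, hi, pow_succ, mul_neg_one, neg_smul]
    · rw [if_neg (fun h3 => hi (Option.some.inj h3).symm), if_neg hi]

open Classical in
theorem ExL_zero {q : ℕ} (hq : 0 < q) (O : A → Prop) (φ : Multiset A → (Fin 0 → A) → k)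
    (hc : ∀ x y, (∀ z, O z → x.count z < q) → φ x y = 0) :
    ∃ ψ : Multiset A → (Fin 1 → A) → k, AltF ψ ∧ Lf q ψ = φ ∧
      ∀ x y, ψ x y ≠ 0 → (∀ i, O (y i)) ∧ ∃ x' y', φ x' y' ≠ 0 ∧
        Multiset.card x' = Multiset.card x + q ∧
        ∀ z, (z ∈ x ∨ ∃ i, y i = z) ↔ (z ∈ x' ∨ ∃ i, y' i = z) := by
  have hA : AltF φ := ⟨fun x y σ => by
    have h1 : σ = 1 := Subsingleton.elim _ _
    subst h1
    simp, fun x y i => i.elim0⟩
  refine ⟨Kf q O φ, Kf_alt hA, ?_, fun x y h => Kf_supp hq (fun _ _ _ i => i.elim0) h⟩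
  funext x y
  unfold Lf
  have hle : ∀ z ∈ x.toFinset.filter (fun z => q ≤ x.count z), Multiset.replicate q z ≤ x := by
    intro z hz
    rw [← Multiset.le_count_iff_replicate_le]
    exact (Finset.mem_filter.1 hz).2
  cases h : mm (nc q O x y) with
  | none =>
    rw [hc x y fun z hz => by
      by_contra h1
      exact mm_none h z ⟨hz, Or.inl (by omega)⟩]
    refine Finset.sum_eq_zero fun z hz => Kf_none ?_
    rw [nc_down q O x y z (hle z hz)]
    exact h
  | some m =>
    have hm := mm_mem h
    have hmc : q ≤ x.count m := by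
      rcases hm.2 with h1 | ⟨i, -⟩
      · exact h1
      · exact i.elim0
    have hmx : m ∈ x.toFinset.filter (fun z => q ≤ x.count z) := by
      rw [Finset.mem_filter, Multiset.mem_toFinset]
      exact ⟨Multiset.count_pos.1 (by omega), hmc⟩
    have hK : ∀ z ∈ x.toFinset.filter (fun z => q ≤ x.count z),
        Kf q O φ (x - Multiset.replicate q z) (Fin.cons z y) = if z = m then φ x y else 0 := by
      intro z hz
      unfold Kf
      rw [nc_down q O x y z (hle z hz), h, Fin.sum_univ_succ]
      simp only [Finset.univ_eq_empty, Finset.sum_empty, add_zero, Fin.val_zero, pow_zero,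
        one_smul, Fin.cons_zero]
      rw [tsub_add_cancel_of_le (hle z hz)]
      have h1 : (Fin.cons z y : Fin 1 → A) ∘ Fin.succAbove 0 = y := Subsingleton.elim _ _
      rw [h1]
      by_cases hzm : z = m
      · simp [hzm]
      · rw [if_neg hzm, if_neg (fun h2 => hzm (Option.some.inj h2).symm)]
    rw [Finset.sum_congr rfl hK, Finset.sum_ite_eq' _ m, if_pos hmx]

open Classical in
theorem ExL_succ {q : ℕ} (hq : 0 < q) (O : A → Prop) {b : ℕ}
    (φ : Multiset A → (Fin (b + 1) → A) → k) (hA : AltF φ)
    (hO : ∀ x y, φ x y ≠ 0 → ∀ i, O (y i)) (hL : Lf q φ = 0) :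
    ∃ ψ : Multiset A → (Fin (b + 2) → A) → k, AltF ψ ∧ Lf q ψ = φ ∧
      ∀ x y, ψ x y ≠ 0 → (∀ i, O (y i)) ∧ ∃ x' y', φ x' y' ≠ 0 ∧
        Multiset.card x' = Multiset.card x + q ∧
        ∀ z, (z ∈ x ∨ ∃ i, y i = z) ↔ (z ∈ x' ∨ ∃ i, y' i = z) := by
  have hAK := Kf_alt (q := q) (O := O) hA
  refine ⟨Kf q O φ, hAK, ?_, fun x y h => Kf_supp hq hO h⟩
  funext x y
  unfold Lf
  have hle : ∀ z ∈ x.toFinset.filter (fun z => q ≤ x.count z), Multiset.replicate q z ≤ x := by
    intro z hz
    rw [← Multiset.le_count_iff_replicate_le]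
    exact (Finset.mem_filter.1 hz).2
  by_cases hinj : Function.Injective y
  swap
  · simp only [Function.Injective, not_forall] at hinj
    obtain ⟨i, j, h1, h2⟩ := hinj
    rw [hA.2 x y i j h2 h1]
    refine Finset.sum_eq_zero fun z _ => hAK.2 _ _ i.succ j.succ
      (fun h => h2 (Fin.succ_injective _ h)) (by simpa using h1)
  cases h : mm (nc q O x y) with
  | none =>
    have h0 : φ x y = 0 := by
      by_contra h1
      exact mm_none h (y 0) ⟨hO x y h1 0, Or.inr ⟨0, rfl⟩⟩
    rw [h0]
    refine Finset.sum_eq_zero fun z hz => Kf_none ?_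
    rw [nc_down q O x y z (hle z hz)]
    exact h
  | some m =>
    have hm := mm_mem h
    rw [Finset.sum_congr rfl fun z hz => Kf_cons (hle z hz) h, Finset.sum_add_distrib,
      Finset.sum_ite_eq' _ m]
    by_cases hy : ∃ j, y j = m
    · obtain ⟨j, hj⟩ := hy
      have hun : ∀ i, y i = m ↔ i = j := fun i =>
        ⟨fun hi => hinj (hi.trans hj.symm), fun hi => hi ▸ hj⟩
      simp only [hun, Finset.sum_ite_eq', Finset.mem_univ, if_true]
      rw [Finset.sum_neg_distrib, ← Finset.smul_sum]
      -- the relation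
      have h0 : Lf q φ (x + Multiset.replicate q m) (y ∘ j.succAbove) = 0 := by
        rw [hL]; rfl
      unfold Lf at h0
      have hset : (x + Multiset.replicate q m).toFinset.filter
          (fun z => q ≤ (x + Multiset.replicate q m).count z) =
          insert m (x.toFinset.filter (fun z => q ≤ x.count z)) := by
        ext z
        simp only [Finset.mem_filter, Multiset.mem_toFinset, Finset.mem_insert, Multiset.mem_add,
          Multiset.count_add, Multiset.count_replicate, Multiset.mem_replicate]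
        by_cases hzm : m = z
        · subst hzm
          simp only [if_true, true_or, iff_true]
          exact ⟨Or.inr ⟨hq.ne', trivial⟩, Nat.le_add_left _ _⟩
        · simp only [if_neg hzm, add_zero]
          constructor
          · rintro ⟨h1 | h1, h2⟩
            · exact Or.inr ⟨h1, h2⟩
            · exact absurd h1.2.symm hzm
          · rintro (h1 | h1)
            · exact absurd h1.symm hzm
            · exact ⟨Or.inl h1.1, h1.2⟩
      rw [hset] at h0
      have hswap : ∀ z ∈ x.toFinset.filter (fun z => q ≤ x.count z),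
          φ (x + Multiset.replicate q m - Multiset.replicate q z)
            (Fin.cons z (y ∘ j.succAbove)) =
          φ (x - Multiset.replicate q z + Multiset.replicate q m)
            (Fin.cons z (y ∘ j.succAbove)) := by
        intro z hz
        rw [tsub_add_eq_add_tsub (hle z hz)]
      have hfr : φ x (Fin.cons m (y ∘ j.succAbove)) = (-1 : ℤ) ^ (j : ℕ) • φ x y := by
        rw [← hj]
        exact (hA.alt x).front y j
      by_cases hmz : m ∈ x.toFinset.filter (fun z => q ≤ x.count z)
      · rw [Finset.insert_eq_of_mem hmz, Finset.sum_congr rfl hswap] at h0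
        rw [if_pos hmz, h0, smul_zero, neg_zero, add_zero]
      · rw [Finset.sum_insert hmz, Finset.sum_congr rfl hswap, Multiset.add_sub_cancel_right,
          hfr] at h0
        rw [if_neg hmz, zero_add, ← smul_neg, ← eq_neg_of_add_eq_zero_left h0, pow_smul_self]
    · push Not at hy
      have hr := nc_replicate hm hy
      have hmx : m ∈ x.toFinset.filter (fun z => q ≤ x.count z) := by
        rw [← Multiset.le_count_iff_replicate_le] at hr
        rw [Finset.mem_filter, Multiset.mem_toFinset]
        exact ⟨Multiset.count_pos.1 (by omega), hr⟩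
      rw [if_pos hmx]
      simp [hy]

end BPN.E
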