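import Pool.Agent.BPN.E.Tup
import Pool.Agent.BPN.E.MultL

/-!
# Part (E), module LqLem: the operators `Lq` (project BPN, architect helper30)

`Lq δ_{(x; z, y)} = δ_{(x + q z; y)}` on finitely supported functions on `Multiset A × A^(b+1)`
(definition in `Pool/Agent/BPN/E/Defs.lean`), `AL` : alternating in the tuple.

PROOFS.
* `Lq_apply`: `Lq φ (x, y)` is the sum of the `φ (x', z, y)` over `x' + q z = x`, i.e. over the distinct
  elements `z` of `x` with `count z x ≥ q` and `x' = x - q z` (`Finsupp.mapDomain`, sum over the fibre).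
* `Lq_mem`: permutations and coincidences of `y` come from `(z, y)`.
* `Lq_comp`: `L L φ (x, y) = ∑ φ (x', z, z', y)` over `x' + q z + q z' = x`; involution `z ↔ z'`
  (`Finset.sum_involution`), fixed points `z = z'` give `0`.
* `Lq_push`: on basis elements; both sides are the push forward along the partial map
  `(x; z, y) ↦ (g x + q g z; g y)` (`ms_add`, `ms_replicate`, `0 < q`).
* `Lq_exact_zero`, `Lq_exact_succ`: from `ExL_zero`, `ExL_succ` for the underlying functions
  (`Lf q φ = Lq φ` by `Lq_apply`), finite support of `ψ`: the entries belong to the finite set of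
  entries of the support of `φ`, the cardinality of the multiset is bounded.
-/

namespace BPN.E

variable {k : Type} [Field k] {A A' : Type}

/-- the underlying map of `Lq` -/
private def lqf (q b : ℕ) (z : Multiset A × (Fin (b + 1) → A)) : Multiset A × (Fin b → A) :=
  (z.1 + Multiset.replicate q (z.2 0), Fin.tail z.2)

private theorem lq_eq (q b : ℕ) (φ : (Multiset A × (Fin (b + 1) → A)) →₀ k) :
    Lq k q b φ = Finsupp.mapDomain (lqf q b) φ := rfl

private theorem md_eval {Z Z' : Type} (f : Z → Z') (φ : Z →₀ k) (p : Z')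
    [DecidablePred fun a => f a = p] :
    Finsupp.mapDomain f φ p = ∑ a ∈ φ.support.filter (fun a => f a = p), φ a := by
  classical
  rw [Finsupp.mapDomain, Finsupp.sum_apply, Finsupp.sum, Finset.sum_filter]
  refine Finset.sum_congr rfl fun a _ => ?_
  rw [Finsupp.single_apply]

open Classical in
private theorem md_eval' {Z Z' : Type} (f : Z → Z') (φ : Z →₀ k) (p : Z') (S : Finset Z)
    (h1 : ∀ a ∈ S, f a = p) (h2 : ∀ a, φ a ≠ 0 → f a = p → a ∈ S) :
    Finsupp.mapDomain f φ p = ∑ a ∈ S, φ a := by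
  rw [md_eval]
  refine Finset.sum_subset ?_ ?_
  · intro a ha
    rw [Finset.mem_filter, Finsupp.mem_support_iff] at ha
    exact h2 a ha.1 ha.2
  · intro a ha ha'
    rw [Finset.mem_filter, Finsupp.mem_support_iff, not_and'] at ha'
    exact not_not.1 (ha' (h1 a ha))

open Classical in
theorem Lq_apply {q : ℕ} (hq : 0 < q) (b : ℕ) (φ : (Multiset A × (Fin (b + 1) → A)) →₀ k)
    (x : Multiset A) (y : Fin b → A) :
    Lq k q b φ (x, y) = ∑ z ∈ x.toFinset.filter (fun z => q ≤ x.count z),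
      φ (x - Multiset.replicate q z, Fin.cons z y) := by
  set T := x.toFinset.filter (fun z => q ≤ x.count z) with hT
  have hinj : Set.InjOn (fun z : A => (x - Multiset.replicate q z, (Fin.cons z y : Fin (b + 1) → A)))
      T := by
    intro z _ z' _ h
    have h1 := congrFun (Prod.ext_iff.1 h).2 0
    simpa using h1
  rw [lq_eq, md_eval' (lqf q b) φ (x, y)
    (T.image fun z : A => (x - Multiset.replicate q z, (Fin.cons z y : Fin (b + 1) → A)))]
  · rw [Finset.sum_image hinj]
  · intro a ha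
    rw [Finset.mem_image] at ha
    obtain ⟨z, hz, rfl⟩ := ha
    rw [hT, Finset.mem_filter] at hz
    have h1 : Multiset.replicate q z ≤ x := Multiset.le_count_iff_replicate_le.1 hz.2
    refine Prod.ext ?_ ?_
    · change x - Multiset.replicate q z + Multiset.replicate q ((Fin.cons z y : Fin (b + 1) → A) 0) = x
      rw [Fin.cons_zero]
      exact tsub_add_cancel_of_le h1
    · exact Fin.tail_cons (α := fun _ => A) z y
  · rintro ⟨x', t⟩ _ h
    rw [Finset.mem_image]
    have h1 : x' + Multiset.replicate q (t 0) = x := (Prod.ext_iff.1 h).1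
    have h2 : Fin.tail t = y := (Prod.ext_iff.1 h).2
    refine ⟨t 0, ?_, ?_⟩
    · rw [hT, Finset.mem_filter, Multiset.mem_toFinset]
      have h3 : q ≤ x.count (t 0) := by
        rw [← h1, Multiset.count_add, Multiset.count_replicate_self]
        exact Nat.le_add_left _ _
      exact ⟨Multiset.count_pos.1 (lt_of_lt_of_le hq h3), h3⟩
    · refine Prod.ext ?_ ?_
      · change x - Multiset.replicate q (t 0) = x'
        rw [← h1, add_tsub_cancel_right]
      · change (Fin.cons (t 0) y : Fin (b + 1) → A) = t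
        rw [← h2, Fin.cons_self_tail]

/-- Points of the support of `Lq φ` come from points of the support of `φ`. -/
theorem Lq_support {q : ℕ} {b : ℕ} {φ : (Multiset A × (Fin (b + 1) → A)) →₀ k}
    {x : Multiset A} {y : Fin b → A} (h : Lq k q b φ (x, y) ≠ 0) :
    ∃ x' z, φ (x', Fin.cons z y) ≠ 0 ∧ x = x' + Multiset.replicate q z := by
  classical
  rw [lq_eq, md_eval] at h
  obtain ⟨⟨x', t⟩, hm, hne⟩ := Finset.exists_ne_zero_of_sum_ne_zero h
  rw [Finset.mem_filter] at hm
  have h1 : x' + Multiset.replicate q (t 0) = x := (Prod.ext_iff.1 hm.2).1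
  have h2 : Fin.tail t = y := (Prod.ext_iff.1 hm.2).2
  refine ⟨x', t 0, ?_, h1.symm⟩
  rw [← h2, Fin.cons_self_tail]
  exact hne

theorem Lq_mem {q : ℕ} {b : ℕ} {φ : (Multiset A × (Fin (b + 1) → A)) →₀ k}
    (hφ : φ ∈ AL k A (b + 1)) : Lq k q b φ ∈ AL k A b := by
  classical
  obtain ⟨hs, hc⟩ := hφ
  refine ⟨fun σ x y => ?_, fun x y i j hij hy => ?_⟩
  · set σ' : Equiv.Perm (Fin (b + 1)) := Equiv.Perm.decomposeFin.symm (0, σ) with hσ'
    have hσ0 : σ' 0 = 0 := Equiv.Perm.decomposeFin_symm_apply_zero 0 σ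
    have hσs : ∀ i, σ' (Fin.succ i) = Fin.succ (σ i) := by
      intro i
      rw [hσ', Equiv.Perm.decomposeFin_symm_apply_succ, Equiv.swap_self]
      rfl
    have hsg : Equiv.Perm.sign σ' = Equiv.Perm.sign σ := by
      rw [hσ', Equiv.Perm.decomposeFin.symm_sign]
      simp
    let T : (Multiset A × (Fin (b + 1) → A)) ≃ (Multiset A × (Fin (b + 1) → A)) :=
      Equiv.prodCongr (Equiv.refl _) (Equiv.arrowCongr σ'.symm (Equiv.refl _))
    let T' : (Multiset A × (Fin b → A)) ≃ (Multiset A × (Fin b → A)) :=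
      Equiv.prodCongr (Equiv.refl _) (Equiv.arrowCongr σ.symm (Equiv.refl _))
    have hT : ∀ w : Multiset A × (Fin (b + 1) → A), T w = (w.1, w.2 ∘ σ') := fun w => rfl
    have hT' : ∀ w : Multiset A × (Fin b → A), T' w = (w.1, w.2 ∘ σ) := fun w => rfl
    have hcomm : ∀ w, lqf q b (T w) = T' (lqf q b w) := by
      intro w
      rw [hT, hT']
      refine Prod.ext ?_ ?_
      · change w.1 + Multiset.replicate q (w.2 (σ' 0)) = w.1 + Multiset.replicate q (w.2 0)
        rw [hσ0]
      · funext i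
        change w.2 (σ' (Fin.succ i)) = w.2 (Fin.succ (σ i))
        rw [hσs]
    have h1 : Finsupp.mapDomain T.symm φ = ((Equiv.Perm.sign σ : ℤ)) • φ := by
      ext w
      rw [Finsupp.smul_apply]
      have h2 : Finsupp.mapDomain T.symm φ w = φ (T w) := by
        conv_lhs => rw [← T.symm_apply_apply w]
        exact Finsupp.mapDomain_apply T.symm.injective φ (T w)
      rw [h2, hT, hs σ' w.1 w.2, hsg]
    have h3 : Lq k q b φ (T' (x, y)) = (Equiv.Perm.sign σ : ℤ) • Lq k q b φ (x, y) := by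
      have h4 : Finsupp.mapDomain T'.symm (Lq k q b φ) (x, y) = Lq k q b φ (T' (x, y)) := by
        conv_lhs => rw [← T'.symm_apply_apply (x, y)]
        exact Finsupp.mapDomain_apply T'.symm.injective _ (T' (x, y))
      have h5 : (T'.symm : _ → _) ∘ lqf (A := A) q b = lqf q b ∘ T.symm := by
        funext w
        change T'.symm (lqf q b w) = lqf q b (T.symm w)
        rw [Equiv.symm_apply_eq, ← hcomm, Equiv.apply_symm_apply]
      rw [← h4, lq_eq, ← Finsupp.mapDomain_comp, h5, Finsupp.mapDomain_comp, h1,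
        Finsupp.mapDomain_smul, Finsupp.smul_apply]
    exact h3
  · rw [lq_eq, md_eval]
    refine Finset.sum_eq_zero fun w hw => ?_
    rw [Finset.mem_filter] at hw
    have h2 : Fin.tail w.2 = y := (Prod.ext_iff.1 hw.2).2
    refine hc w.1 w.2 (Fin.succ i) (Fin.succ j) (fun h => hij (Fin.succ_injective _ h)) ?_
    have h3 := congrFun h2 i
    have h4 := congrFun h2 j
    exact h3.trans (hy.trans h4.symm)

theorem Lq_comp {q : ℕ} {b : ℕ} {φ : (Multiset A × (Fin (b + 2) → A)) →₀ k}
    (hφ : φ ∈ AL k A (b + 2)) : Lq k q b (Lq k q (b + 1) φ) = 0 := by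
  classical
  obtain ⟨hs, hc⟩ := hφ
  rw [lq_eq, lq_eq, ← Finsupp.mapDomain_comp]
  ext p
  rw [md_eval, Finsupp.zero_apply]
  set σ : Equiv.Perm (Fin (b + 2)) := Equiv.swap 0 1 with hσ
  have h01 : (0 : Fin (b + 2)) ≠ 1 := by simp
  have hneg : ∀ w : Multiset A × (Fin (b + 2) → A), φ (w.1, w.2 ∘ σ) = -φ w := by
    intro w
    rw [hs σ w.1 w.2, hσ, Equiv.Perm.sign_swap h01]
    simp
  refine Finset.sum_involution (fun w _ => (w.1, w.2 ∘ σ)) ?_ ?_ ?_ ?_
  · intro w _
    rw [hneg, add_neg_cancel]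
  · intro w _ hw heq
    apply hw
    have h1 := congrFun (Prod.ext_iff.1 heq).2 0
    have h2 : w.2 1 = w.2 0 := by
      have h3 : (w.2 ∘ σ) 0 = w.2 1 := by
        rw [Function.comp_apply, hσ, Equiv.swap_apply_left]
      rw [← h3]
      exact h1
    exact hc w.1 w.2 1 0 (Ne.symm h01) h2
  · intro w hw
    rw [Finset.mem_filter, Finsupp.mem_support_iff] at hw ⊢
    refine ⟨?_, ?_⟩
    · rw [hneg]
      exact neg_ne_zero.2 hw.1
    · rw [← hw.2]
      refine Prod.ext ?_ ?_
      · change w.1 + Multiset.replicate q (w.2 (σ 0)) + Multiset.replicate q (w.2 (σ 1)) =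
          w.1 + Multiset.replicate q (w.2 0) + Multiset.replicate q (w.2 1)
        rw [hσ, Equiv.swap_apply_left, Equiv.swap_apply_right, add_right_comm]
      · funext i
        change w.2 (σ (Fin.succ (Fin.succ i))) = w.2 (Fin.succ (Fin.succ i))
        rw [hσ, Equiv.swap_apply_of_ne_of_ne]
        · exact Fin.succ_ne_zero _
        · intro h
          rw [← Fin.succ_zero_eq_one] at h
          exact Fin.succ_ne_zero _ (Fin.succ_injective _ h)
  · intro w _
    refine Prod.ext rfl ?_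
    funext i
    change w.2 (σ (σ i)) = w.2 i
    rw [hσ, Equiv.swap_apply_self]

private theorem lq_single (q b : ℕ) (w : Multiset A × (Fin (b + 1) → A)) (c : k) :
    Lq k q b (Finsupp.single w c) = Finsupp.single (lqf q b w) c := Finsupp.mapDomain_single

private theorem lq_map {q : ℕ} (hq : 0 < q) (b : ℕ) (g : A → Option A')
    (w : Multiset A × (Fin (b + 1) → A)) :
    pr (ms g) (tup b g) (lqf q b w) = (pr (ms g) (tup (b + 1) g) w).map (lqf q b) := by
  apply Option.ext
  rintro ⟨x', y'⟩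
  rw [Option.map_eq_some_iff, pr_eq_some]
  change (ms g (w.1 + Multiset.replicate q (w.2 0)) = some x' ∧
    tup b g (Fin.tail w.2) = some y') ↔ _
  rw [ms_add, ms_replicate g hq, tup_eq_some]
  constructor
  · rintro ⟨h1, h2⟩
    rw [Option.bind_eq_some_iff] at h1
    obtain ⟨x1, hx1, h1⟩ := h1
    rw [Option.map_eq_some_iff] at h1
    obtain ⟨x2, hx2, h1⟩ := h1
    rw [Option.map_eq_some_iff] at hx2
    obtain ⟨z', hz', hx2⟩ := hx2
    refine ⟨(x1, Fin.cons z' y'), ?_, ?_⟩
    · rw [pr_eq_some, tup_eq_some]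
      refine ⟨hx1, fun i => ?_⟩
      refine Fin.cases ?_ (fun i => ?_) i
      · exact hz'
      · exact h2 i
    · refine Prod.ext ?_ ?_
      · change x1 + Multiset.replicate q ((Fin.cons z' y' : Fin (b + 1) → A') 0) = x'
        rw [Fin.cons_zero, hx2, h1]
      · exact Fin.tail_cons (α := fun _ => A') z' y'
  · rintro ⟨⟨x1, t⟩, h1, h2⟩
    rw [pr_eq_some, tup_eq_some] at h1
    have h3 : x1 + Multiset.replicate q (t 0) = x' := (Prod.ext_iff.1 h2).1
    have h4 : Fin.tail t = y' := (Prod.ext_iff.1 h2).2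
    refine ⟨?_, fun i => ?_⟩
    · have h5 : ms g w.1 = some x1 := h1.1
      have h6 : g (w.2 0) = some (t 0) := h1.2 0
      rw [h5, h6]
      change some (x1 + Multiset.replicate q (t 0)) = some x'
      rw [h3]
    · rw [← h4]
      exact h1.2 (Fin.succ i)

theorem Lq_push {q : ℕ} (hq : 0 < q) (b : ℕ) (g : A → Option A')
    (φ : (Multiset A × (Fin (b + 1) → A)) →₀ k) :
    Lq k q b (push k (pr (ms g) (tup (b + 1) g)) φ) =
      push k (pr (ms g) (tup b g)) (Lq k q b φ) := by
  induction φ using Finsupp.induction_linear with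
  | zero => simp
  | add φ ψ h1 h2 => simp only [map_add, h1, h2]
  | single w c =>
    rw [push_single, lq_single, push_single, lq_map hq]
    cases pr (ms g) (tup (b + 1) g) w with
    | none => simp
    | some w' =>
      change Lq k q b (Finsupp.single w' c) = Finsupp.single (lqf q b w') c
      exact lq_single q b w' c

/-- Finiteness of the support. -/
private theorem lq_fin {a b q : ℕ} (φ : (Multiset A × (Fin a → A)) →₀ k)
    (ψ : Multiset A → (Fin b → A) → k)
    (h : ∀ x y, ψ x y ≠ 0 → ∃ x' y', φ (x', y') ≠ 0 ∧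
      Multiset.card x' = Multiset.card x + q ∧
      ∀ z, (z ∈ x ∨ ∃ i, y i = z) ↔ (z ∈ x' ∨ ∃ i, y' i = z)) :
    (Function.support fun p : Multiset A × (Fin b → A) => ψ p.1 p.2).Finite := by
  classical
  set E : Finset A := φ.support.biUnion
    (fun p => p.1.toFinset ∪ Finset.univ.image p.2) with hE
  set N : ℕ := φ.support.sup (fun p => Multiset.card p.1) with hN
  have h1 : ({x : Multiset A | x ≤ N • E.val} ×ˢ {y : Fin b → A | ∀ i, y i ∈ (E : Set A)}).Finite := by
    refine Set.Finite.prod ?_ ?_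
    · exact Set.finite_Iic (N • E.val)
    · exact Set.Finite.pi' fun _ => E.finite_toSet
  refine h1.subset ?_
  rintro ⟨x, y⟩ hxy
  obtain ⟨x', y', hne, hcard, hmem⟩ := h x y hxy
  have hsupp : (x', y') ∈ φ.support := Finsupp.mem_support_iff.2 hne
  have hz : ∀ z, (z ∈ x ∨ ∃ i, y i = z) → z ∈ E := by
    intro z hz
    rw [hE, Finset.mem_biUnion]
    refine ⟨(x', y'), hsupp, ?_⟩
    rw [Finset.mem_union, Multiset.mem_toFinset, Finset.mem_image]
    rcases (hmem z).1 hz with h2 | ⟨i, hi⟩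
    · exact Or.inl h2
    · exact Or.inr ⟨i, Finset.mem_univ _, hi⟩
  have hle : Multiset.card x ≤ N := by
    have h2 : Multiset.card x' ≤ N :=
      Finset.le_sup (f := fun p : Multiset A × (Fin a → A) => Multiset.card p.1) hsupp
    omega
  refine ⟨?_, ?_⟩
  · change x ≤ N • E.val
    rw [Multiset.le_iff_count]
    intro z
    rw [Multiset.count_nsmul]
    by_cases hzx : z ∈ x
    · have h3 : Multiset.count z E.val = 1 :=
        Multiset.count_eq_one_of_mem E.nodup (hz z (Or.inl hzx))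
      rw [h3, mul_one]
      exact (Multiset.count_le_card z x).trans hle
    · rw [Multiset.count_eq_zero_of_notMem hzx]
      exact Nat.zero_le _
  · intro i
    exact hz (y i) (Or.inr ⟨i, rfl⟩)

open Classical in
theorem Lq_exact_zero {q : ℕ} (hq : 0 < q) (O : A → Prop) {φ : (Multiset A × (Fin 0 → A)) →₀ k}
    (hc : ∀ x y, (∀ z, O z → x.count z < q) → φ (x, y) = 0) :
    ∃ ψ ∈ AL k A 1, Lq k q 0 ψ = φ ∧
      ∀ x y, ψ (x, y) ≠ 0 → (∀ i, O (y i)) ∧ ∃ x' y', φ (x', y') ≠ 0 ∧
        Multiset.card x' = Multiset.card x + q ∧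
        ∀ z, (z ∈ x ∨ ∃ i, y i = z) ↔ (z ∈ x' ∨ ∃ i, y' i = z) := by
  obtain ⟨ψ, hψ1, hψ2, hψ3⟩ := ExL_zero hq O (fun x y => φ (x, y)) hc
  have hfin := lq_fin φ ψ (fun x y h => (hψ3 x y h).2)
  refine ⟨Finsupp.ofSupportFinite (fun p => ψ p.1 p.2) hfin, ?_, ?_, ?_⟩
  · exact ⟨fun σ x y => hψ1.1 x y σ, fun x y i j hij hy => hψ1.2 x y i j hij hy⟩
  · ext ⟨x, y⟩
    rw [Lq_apply hq]
    exact congrFun (congrFun hψ2 x) y
  · exact fun x y h => hψ3 x y h

open Classical in
theorem Lq_exact_succ {q : ℕ} (hq : 0 < q) (O : A → Prop) {b : ℕ}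
    {φ : (Multiset A × (Fin (b + 1) → A)) →₀ k} (hφ : φ ∈ AL k A (b + 1))
    (hO : ∀ x y, φ (x, y) ≠ 0 → ∀ i, O (y i)) (hL : Lq k q b φ = 0) :
    ∃ ψ ∈ AL k A (b + 2), Lq k q (b + 1) ψ = φ ∧
      ∀ x y, ψ (x, y) ≠ 0 → (∀ i, O (y i)) ∧ ∃ x' y', φ (x', y') ≠ 0 ∧
        Multiset.card x' = Multiset.card x + q ∧
        ∀ z, (z ∈ x ∨ ∃ i, y i = z) ↔ (z ∈ x' ∨ ∃ i, y' i = z) := by
  have hL' : Lf q (fun (x : Multiset A) (y : Fin (b + 1) → A) => φ (x, y)) = 0 := by
    funext x y
    have h1 := Lq_apply hq b φ x y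
    rw [hL] at h1
    exact h1.symm
  obtain ⟨ψ, hψ1, hψ2, hψ3⟩ := ExL_succ hq O (fun x y => φ (x, y))
    ⟨fun x y σ => hφ.1 σ x y, fun x y i j hij hy => hφ.2 x y i j hij hy⟩ hO hL'
  have hfin := lq_fin φ ψ (fun x y h => (hψ3 x y h).2)
  refine ⟨Finsupp.ofSupportFinite (fun p => ψ p.1 p.2) hfin, ?_, ?_, ?_⟩
  · exact ⟨fun σ x y => hψ1.1 x y σ, fun x y i j hij hy => hψ1.2 x y i j hij hy⟩
  · ext ⟨x, y⟩
    rw [Lq_apply hq]
    exact congrFun (congrFun hψ2 x) y
  · exact fun x y h => hψ3 x y h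

end BPN.E
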