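import Pool.Agent.BPN.E.KDefs
import Pool.Agent.BPN.E.LqLem

/-!
# Part (E), module K3: the Koszul sequence `S_p^d ← S^d ← S^(d-p) ⊗ Λ^1 ← S^(d-2p) ⊗ Λ^2 ← ..` (helper30)

`C3 a b M = S^a ⊗ Λ^b` of the sphere at level `M`, differential `bd (FM 0 b)`; `Lq p : C3 a (b+1) → C3 (a+p) b`;
`trp p : S^d → S_p^d = Tr` (restriction to multisets with all multiplicities `< p`).  `0 < p` (no other
condition on `p` or the characteristic).

PROOFS.
* `K3_ses`: as `K1_ses`, with `O` = everything.  `gG` for `b = 0`: every multiset in the support of `Lq p φ` has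
  an element of multiplicity `≥ p`, so `trp` kills it.  `gsur` for `b = 0`: `Lq_exact_zero`: `hc`: `φ (x, y) = 0` if
  all multiplicities are `< p` since `trp p φ = 0` (`push_apply`: only `(x, y)` maps to `x`, as
  `Fin 0 → Sj` has one element).
* `K3_bot`: `b + 1`: as `K1_bot` (`card x' = card x + p ≥ p > a`).  `K3_bot0`: a multiset of cardinality
  `< p` has all multiplicities `< p`, so `trp p` is injective on `C3 a 0`.
* `K3_last`: `trp` commutes with the differentials: `push_bd` (sets of multisets of cardinality `d`;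
  `(FM 0 0 i z).bind trp' = (trp' z).bind (FR p i)`: if `x` has multiplicity `≥ p` then so has
  `ms (fa 0 i) x`).  Surjective: extend by zero, `ψ = push (fun x => some (x, Fin.elim0)) φ`.
-/

namespace BPN.E

variable (k : Type) [Field k]

private theorem k3_count {A A' : Type} [DecidableEq A] [DecidableEq A'] {g : A → Option A'}
    {x : Multiset A} {y : Multiset A'} (h : ms g x = some y) {s : A} {t : A'}
    (hst : g s = some t) : x.count s ≤ y.count t := by
  induction x using Multiset.induction_on generalizing y with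
  | empty => simp
  | cons a x ih =>
    rw [ms_cons] at h
    obtain ⟨b, hb, h1⟩ := Option.bind_eq_some_iff.1 h
    obtain ⟨y', hy', rfl⟩ := Option.map_eq_some_iff.1 h1
    have h2 := ih hy'
    rw [Multiset.count_cons, Multiset.count_cons]
    by_cases hsa : s = a
    · subst hsa
      rw [hst] at hb
      rw [Option.some.inj hb, if_pos rfl, if_pos rfl]
      rw [← Option.some.inj hb]
      omega
    · rw [if_neg hsa]
      omega

open Classical in
private theorem k3_FR {p i : ℕ} {x y : Multiset Sj} :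
    FR p i x = some y ↔ ms (fa 0 i) x = some y ∧ ∀ s, y.count s < p := by
  unfold FR
  rw [Option.bind_eq_some_iff]
  constructor
  · rintro ⟨z, hz, h1⟩
    split_ifs at h1 with h2
    rw [← Option.some.inj h1]
    exact ⟨hz, h2⟩
  · rintro ⟨h1, h2⟩
    exact ⟨y, h1, if_pos h2⟩

open Classical in
/-- the partial map of `trp` -/
private noncomputable def k3r (p : ℕ) : MT 0 → Option (Multiset Sj) :=
  fun z => if ∀ s, z.1.count s < p then some z.1 else none

open Classical in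
private theorem k3r_some {p : ℕ} {z : MT 0} {x : Multiset Sj} :
    k3r p z = some x ↔ z.1 = x ∧ ∀ s, x.count s < p := by
  unfold k3r
  constructor
  · intro h
    split_ifs at h with h2
    have h3 := Option.some.inj h
    exact ⟨h3, h3 ▸ h2⟩
  · rintro ⟨rfl, h2⟩
    exact if_pos h2

private theorem trp_eq (p : ℕ) (φ : MT 0 →₀ k) : trp k p φ = push k (k3r p) φ := rfl

private theorem k3_sup {a b : ℕ} {M : ℕ∞} {e : ℤ} {x : MT b →₀ k} (hx : x ∈ C3 k a b M e) :
    x ∈ Finsupp.supported k k {z : MT b | Multiset.card z.1 = a} :=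
  Finsupp.supported_mono (fun z hz => hz.1) hx.2

private theorem k3_Lsup {p : ℕ} {a b : ℕ} {M : ℕ∞} {e : ℤ} {x : MT (b + 1) →₀ k}
    (hx : x ∈ C3 k a (b + 1) M e) : Lq k p b x ∈ C3 k (a + p) b M e := by
  refine ⟨Lq_mem hx.1, (Finsupp.mem_supported k _).2 ?_⟩
  rintro ⟨y, t⟩ hy
  obtain ⟨y', z, hne, rfl⟩ := Lq_support (Finsupp.mem_support_iff.1 hy)
  have h1 := (Finsupp.mem_supported k x).1 hx.2 (Finsupp.mem_support_iff.2 hne)
  obtain ⟨h2, h3, h4⟩ := h1
  refine ⟨?_, fun s hs => ?_, fun j => ?_⟩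
  · change Multiset.card (y' + Multiset.replicate p z) = a + p
    rw [Multiset.card_add, Multiset.card_replicate]
    have : Multiset.card y' = a := h2
    rw [this]
  · rcases Multiset.mem_add.1 hs with h5 | h5
    · exact h3 s h5
    · rw [Multiset.eq_of_mem_replicate h5]
      have h6 := h4 0
      have h7 : (Fin.cons z t : Fin (b + 1) → Sj) 0 = z := Fin.cons_zero _ _
      change exc ((Fin.cons z t : Fin (b + 1) → Sj) 0) = e ∧
        Lv M ((Fin.cons z t : Fin (b + 1) → Sj) 0) at h6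
      rw [h7] at h6
      exact h6
  · have h6 := h4 (Fin.succ j)
    have h7 : (Fin.cons z t : Fin (b + 1) → Sj) (Fin.succ j) = t j := Fin.cons_succ _ _ _
    change exc ((Fin.cons z t : Fin (b + 1) → Sj) (Fin.succ j)) = e ∧
      Lv M ((Fin.cons z t : Fin (b + 1) → Sj) (Fin.succ j)) at h6
    rw [h7] at h6
    exact h6

private theorem k3_Lbd {p : ℕ} (hp : 0 < p) {a b : ℕ} {M : ℕ∞} {e : ℤ} {x : MT (b + 1) →₀ k}
    (hx : x ∈ C3 k a (b + 1) M e) :
    Lq k p b (bd k (FM 0 (b + 1)) x) = bd k (FM 0 b) (Lq k p b x) :=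
  lin_bd (LFP_FM (c := 0) (a := a) (b := b + 1) (by omega))
    (LFP_FM (c := 0) (a := a + p) (b := b) (by omega)) (Lq k p b) (k3_sup k hx)
    (k3_sup k (k3_Lsup k hx)) fun i => Lq_push hp b (fa 0 i) x

private theorem k3_Tbd {p : ℕ} {d : ℕ} (hd : 0 < d) {M : ℕ∞} {e : ℤ} {x : MT 0 →₀ k}
    (hx : x ∈ C3 k d 0 M e) : trp k p (bd k (FM 0 0) x) = bd k (FR p) (trp k p x) := by
  classical
  rw [trp_eq, trp_eq]
  refine push_bd (LFP_FM (c := 0) (a := d) (b := 0) (by omega)) (LFP_FR hd) ?_ ?_ (k3_sup k hx)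
  · intro z hz z' h
    obtain ⟨h1, -⟩ := k3r_some.1 h
    rw [← h1]
    exact hz
  · intro i z _
    refine Option.ext fun w => ?_
    rw [Option.bind_eq_some_iff, Option.bind_eq_some_iff]
    constructor
    · rintro ⟨z', hz', h1⟩
      obtain ⟨h2, h3⟩ := k3r_some.1 h1
      obtain ⟨h4, -⟩ := pr_eq_some.1 hz'
      rw [h2] at h4
      refine ⟨z.1, k3r_some.2 ⟨rfl, fun s => ?_⟩, k3_FR.2 ⟨h4, h3⟩⟩
      by_cases hs : s ∈ z.1
      · obtain ⟨h5, -⟩ := ms_eq_some.1 h4
        obtain ⟨t, ht⟩ := Option.isSome_iff_exists.1 (h5 s hs)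
        exact (k3_count h4 ht).trans_lt (h3 t)
      · rw [Multiset.count_eq_zero_of_notMem hs]
        exact (Nat.zero_le _).trans_lt (h3 s)
    · rintro ⟨x', h1, h2⟩
      obtain ⟨rfl, -⟩ := k3r_some.1 h1
      obtain ⟨h3, h4⟩ := k3_FR.1 h2
      refine ⟨(w, z.2), pr_eq_some.2 ⟨h3, tup_eq_some.2 fun i => i.elim0⟩, k3r_some.2 ⟨rfl, h4⟩⟩

open Classical in
private theorem k3_trpL {p : ℕ} (x : MT 1 →₀ k) : trp k p (Lq k p 0 x) = 0 := by
  rw [trp_eq]
  refine push_eq_zero fun z hz => ?_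
  obtain ⟨y, t⟩ := z
  obtain ⟨y', z, -, rfl⟩ := Lq_support (Finsupp.mem_support_iff.1 hz)
  cases h : k3r p (y' + Multiset.replicate p z, t) with
  | none => rfl
  | some w =>
    obtain ⟨h1, h2⟩ := k3r_some.1 h
    have h3 := h2 z
    rw [← h1] at h3
    change Multiset.count z (y' + Multiset.replicate p z) < p at h3
    rw [Multiset.count_add, Multiset.count_replicate_self] at h3
    omega

/-- the support condition -/
private theorem k3_mem {p a b' b'' : ℕ} {M : ℕ∞} {e : ℤ} {φ : MT b' →₀ k} {ψ : MT b'' →₀ k}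
    (hφ : φ ∈ C3 k (a + p) b' M e) (hψ : ψ ∈ AL k Sj b'')
    (h : ∀ x y, ψ (x, y) ≠ 0 → ∃ x' y', φ (x', y') ≠ 0 ∧
        Multiset.card x' = Multiset.card x + p ∧
        ∀ z, (z ∈ x ∨ ∃ i, y i = z) ↔ (z ∈ x' ∨ ∃ i, y' i = z)) :
    ψ ∈ C3 k a b'' M e := by
  refine ⟨hψ, (Finsupp.mem_supported k _).2 ?_⟩
  rintro ⟨x, y⟩ hxy
  obtain ⟨x', y', hne, hcard, hmem⟩ := h x y (Finsupp.mem_support_iff.1 hxy)
  obtain ⟨h2, h3, h4⟩ := (Finsupp.mem_supported k φ).1 hφ.2 (Finsupp.mem_support_iff.2 hne)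
  have key : ∀ s, (s ∈ x ∨ ∃ i, y i = s) → exc s = e ∧ Lv M s := by
    intro s hs
    rcases (hmem s).1 hs with h5 | ⟨i, rfl⟩
    · exact h3 s h5
    · exact h4 i
  refine ⟨?_, fun s hs => key s (Or.inl hs), fun j => key _ (Or.inr ⟨j, rfl⟩)⟩
  have h5 : Multiset.card x' = a + p := h2
  change Multiset.card x = a
  omega

open Classical in
private theorem k3_hc {p : ℕ} {φ : MT 0 →₀ k} (h : trp k p φ = 0) (x : Multiset Sj)
    (y : Fin 0 → Sj) (hx : ∀ s, x.count s < p) : φ (x, y) = 0 := by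
  by_contra hne
  rw [trp_eq] at h
  have h1 : push k (k3r p) φ x = ∑ z ∈ φ.support.filter (fun z => k3r p z = some x), φ z := by
    convert push_apply (k3r p) φ x
  rw [h, Finsupp.zero_apply, Finset.sum_eq_single_of_mem ((x, y) : MT 0)] at h1
  · exact hne h1.symm
  · exact Finset.mem_filter.2 ⟨Finsupp.mem_support_iff.2 hne, k3r_some.2 ⟨rfl, hx⟩⟩
  · intro z hz hzne
    exact absurd (Prod.ext (k3r_some.1 (Finset.mem_filter.1 hz).2).1
      (Subsingleton.elim _ _)) hzne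

private theorem k3_cx (k : Type) [Field k] {p : ℕ} (hp : 0 < p) {a : ℕ} (b : ℕ) (M : ℕ∞)
    (h : 0 < a + b) : IsCx (bd k (FM 0 b)) (Z3 k p a b M) := by
  have h1 : IsCx (bd k (FM 0 b)) (C3 k a b M) :=
    isCx_GM k h (fun i s t hs ht => Lv_fa hs ht) (fun i s t hs ht => Lv_fa hs ht)
  cases b with
  | zero => exact isCx_ker (d' := bd k (FR p)) h1 (trp k p) fun e x hx => k3_Tbd k (by omega) hx
  | succ b => exact isCx_ker (d' := bd k (FM 0 b)) h1 (Lq k p b) fun e x hx => k3_Lbd k hp hx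

theorem K3_ses {p : ℕ} (hp : 0 < p) (a b : ℕ) (M : ℕ∞) :
    SES (bd k (FM 0 (b + 1))) (Z3 k p a (b + 1) M)
    (bd k (FM 0 (b + 1))) (C3 k a (b + 1) M) (bd k (FM 0 b)) (Z3 k p (a + p) b M)
    LinearMap.id (Lq k p b) := by
  refine ⟨k3_cx k hp _ _ (by omega), isCx_GM k (by omega) (fun i s t hs ht => Lv_fa hs ht)
    (fun i s t hs ht => Lv_fa hs ht), k3_cx k hp _ _ (by omega), fun e x hx => hx.1,
    fun e y hy => ?_, fun e x _ => rfl, fun e y hy => (k3_Lbd k hp hy).symm, fun e x _ h => h,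
    fun e x hx => hx.2, fun e y hy h => ⟨y, ⟨hy, h⟩, rfl⟩, fun e z hz => ?_⟩
  · cases b with
    | zero => exact ⟨k3_Lsup k hy, k3_trpL k y⟩
    | succ b => exact ⟨k3_Lsup k hy, Lq_comp hy.1⟩
  · cases b with
    | zero =>
      obtain ⟨hz1, hz2⟩ := hz
      obtain ⟨ψ, hψ, hL, hs⟩ := Lq_exact_zero hp (fun _ => True) (φ := z)
        (fun x y hxy => k3_hc k hz2 x y fun s => hxy s trivial)
      exact ⟨ψ, k3_mem k hz1 hψ fun x y hxy => (hs x y hxy).2, hL⟩
    | succ b =>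
      obtain ⟨hz1, hz2⟩ := hz
      obtain ⟨ψ, hψ, hL, hs⟩ := Lq_exact_succ hp (fun _ => True) (φ := z) hz1.1
        (fun _ _ _ _ => trivial) hz2
      exact ⟨ψ, k3_mem k hz1 hψ fun x y hxy => (hs x y hxy).2, hL⟩

theorem K3_bot {p : ℕ} {a : ℕ} (ha : a < p) (b : ℕ) (M : ℕ∞) (e : ℤ) :
    Z3 k p a (b + 1) M e = ⊥ := by
  rw [eq_bot_iff]
  rintro z ⟨hz1, hz2⟩
  rw [Submodule.mem_bot]
  obtain ⟨ψ, -, hL, hs⟩ := Lq_exact_succ (by omega : 0 < p) (fun _ => True) (φ := z) hz1.1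
    (fun _ _ _ _ => trivial) hz2
  have h0 : ψ = 0 := by
    ext ⟨x, y⟩
    rw [Finsupp.zero_apply]
    by_contra hne
    obtain ⟨-, x', y', hne', hcard, -⟩ := hs x y hne
    have h1 := ((Finsupp.mem_supported k z).1 hz1.2 (Finsupp.mem_support_iff.2 hne')).1
    have h2 : Multiset.card x' = a := h1
    omega
  rw [← hL, h0, map_zero]

theorem K3_bot0 {p : ℕ} {a : ℕ} (ha : a < p) (M : ℕ∞) (e : ℤ) : Z3 k p a 0 M e = ⊥ := by
  classical
  rw [eq_bot_iff]
  rintro z ⟨hz1, hz2⟩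
  rw [Submodule.mem_bot]
  ext ⟨x, y⟩
  rw [Finsupp.zero_apply]
  by_contra hne
  refine hne (k3_hc k hz2 x y fun s => ?_)
  have h1 := ((Finsupp.mem_supported k z).1 hz1.2 (Finsupp.mem_support_iff.2 hne)).1
  have h2 : Multiset.card x = a := h1
  exact (Multiset.count_le_card s x).trans_lt (by omega)

theorem K3_last {p : ℕ} (hp : 0 < p) {d : ℕ} (hd : 0 < d) (M : ℕ∞) :
    SES (bd k (FM 0 0)) (Z3 k p d 0 M)
    (bd k (FM 0 0)) (Sy k d M) (bd k (FR p)) (Tr k p d M) LinearMap.id (trp k p) := by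
  classical
  refine ⟨k3_cx k hp _ _ (by omega), isCx_GM k (by omega) (fun i s t hs ht => Lv_fa hs ht)
    (fun i s t hs ht => Lv_fa hs ht), isCx_Tr k hd M, fun e x hx => hx.1,
    fun e y hy => ?_, fun e x _ => rfl, fun e y hy => (k3_Tbd k hd hy).symm, fun e x _ h => h,
    fun e x hx => hx.2, fun e y hy h => ⟨y, ⟨hy, h⟩, rfl⟩, fun e z hz => ?_⟩
  · rw [trp_eq]
    refine push_supported (fun z hz x h => ?_) hy.2
    obtain ⟨h1, h2⟩ := k3r_some.1 h
    subst h1
    refine ⟨hz.1, fun s => ?_, hz.2.1⟩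
    convert h2 s
  · refine ⟨push k (fun x => some ((x, Fin.elim0) : MT 0)) z, ⟨⟨?_, ?_⟩, ?_⟩, ?_⟩
    · intro σ x y
      rw [Subsingleton.elim σ 1]
      simp
    · intro x y i
      exact i.elim0
    · refine push_supported (fun x hx z' h => ?_) hz
      rw [← Option.some.inj h]
      exact ⟨hx.1, hx.2.2, fun j => j.elim0⟩
    · rw [trp_eq, push_push]
      have h1 : push k (fun x : Multiset Sj => (some ((x, Fin.elim0) : MT 0)).bind (k3r p)) z =
          push k (fun x => some x) z := by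
        refine push_congr fun x hx => ?_
        have h2 := ((Finsupp.mem_supported k z).1 hz hx).2.1
        exact k3r_some.2 ⟨rfl, fun s => by convert h2 s⟩
      rw [h1, push_some]

end BPN.E
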