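import Pool.Agent.BPN.E.MultAux

/-!
# Part (E), module Mult: definitions and exactness (first half) of the Koszul type complexes (project BPN, helper30)

Functions `φ : Multiset A → (Fin a → A) → k`, alternating in the tuple (`AltF`).

`Uf q φ (x; y_0..y_a) = ∑ i, (-1)^i φ (x + q y_i; y without y_i)`,
`Lf q φ (x; y_1..y_b) = ∑_{z, count z x ≥ q} φ (x - q z; z, y_1..y_b)`  (sum over distinct elements `z`).

THEOREMS.  Let `O` be a predicate on `A`, `q ≥ 1`.
* `ExU`: `φ` on `Multiset A × A^(a+1)` with `x ⊆ O` on the support, `Uf q φ = 0` and `φ = 0` at the critical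
  points (no `y_i` in `O`, all multiplicities in `x` `< q`).  Then `φ = Uf q ψ` with `ψ` alternating,
  `x ⊆ O` on the support of `ψ`, and the support of `ψ` consists of points with the same set of
  elements as points of the support of `φ` and with `q` more elements in the multiset.
* `ExU_zero`: the same with an empty tuple: then `φ = 0`.
* `ExL_zero`, `ExL_succ` (file MultL.lean, not to be proved here): the dual statements for `Lf`.

PROOF of `ExU`, `ExU_zero`.  Fix a well order on `A` (`WellOrderingRel`, or `exists_wellOrder`).  For a point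
`P = (x; y)` let `nc P = {o ∈ O : count o x ≥ q or o = y_i for some i}` (finite), and `m = m(P)` its least
element if it is non empty.  Define `(H φ)(x; y_1..y_a) = φ (x - q m; m, y_1..y_a)` if `nc P ≠ ∅` and
`m ∉ {y_i}` (then `count m x ≥ q`), and `0` otherwise.  CLAIM `Uf (H φ) + H (Uf φ) = φ`:
 let `P = (x; y_0..y_a)`.  We may assume the `y_i` distinct (both sides alternate; if `y_i = y_j` all is `0`).
 For `i` put `P_i = (x + q y_i; y without y_i)`.  If `y_i ∈ O` then `nc P_i = nc P`, so `m(P_i) = m(P)`.
 Case 1, `m = y_j`: `H (Uf φ) P = 0`; in `Uf (H φ) P = ∑ (-1)^i (H φ) P_i` the terms `i ≠ j` vanish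
   because `m` is among the remaining `y`'s (if `y_i ∉ O` also `nc P_i ⊇ nc P`; in `P_i` the multiset
   contains `y_i ∉ O`, not in `nc`), the term `i = j` is `(-1)^j φ (x; m, y without y_j) = φ P`
   (moving `m` from the front to place `j` gives the sign `(-1)^j`).
 Case 2, `m ∉ {y_i}`, `count m x ≥ q`: `H (Uf φ) P = (Uf φ)(x - q m; m, y_0..y_a) = φ (x; y) +
   ∑ i (-1)^(i+1) φ (x - q m + q y_i; m, y without y_i)` and `Uf (H φ) P = ∑ i (-1)^i (H φ) P_i`,
   `m(P_i) = m` and `m` is not among the remaining `y`'s, so `(H φ) P_i = φ (x + q y_i - q m; m, y without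
   y_i)`; the sum is `φ P`.
 Case 3, `nc P = ∅`: no `y_i` in `O`; `H (Uf φ) P = 0`, `φ P = 0` by hypothesis, and `(H φ) P_i` is `0` or
   `φ (x + q y_i - q m; m, ..)`, whose multiset contains `y_i ∉ O` (`m ∈ O`, so `m ≠ y_i`), so it is `0`
   because `x ⊆ O` on the support of `φ`.
 In all cases `nc P_i ⊆ nc P ∪ {y_i}` etc. are elementary.  With `Uf φ = 0` put `ψ = H φ`; `ψ` is
 alternating because `m(P)` does not depend on the order of the `y`'s and `ψ` vanishes if two `y`'s agree.
 Support: `ψ (x; y) ≠ 0` gives the point `(x - q m; m, y)` with the same set of elements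
 (`m ∈ x`), multiset smaller by `q`, and `x ⊆ O`.
 For an empty tuple the same computation gives `H (Uf φ) = φ` (Case 2, or Case 3), so `φ = 0`.

PROOF of `ExL_..`.  `(H' φ)(x; y_0..y_b) = ∑_{i : y_i = m(P)} (-1)^i φ (x + q y_i; y without y_i)`
 (`0` if `nc P = ∅`).  CLAIM `H' (Lf φ) + Lf (H' φ) = φ` at all points with `nc ≠ ∅` (for `b = 0`, i.e. `φ` on
 `Multiset A × A^0`: `Lf (H' φ) = φ`).  `P = (x; y)`, `y` distinct.
 Case 1, `m = y_j`: `H' (Lf φ) P = (-1)^j (Lf φ)(x + q m; y^) = (-1)^j ∑_z φ (x + q m - q z; z, y^)`,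
   (`y^` = `y` without `y_j`); `z = m` gives `(-1)^j φ (x; m, y^) = φ P`.
   `Lf (H' φ) P = ∑_z (H' φ)(x - q z; z, y)` over `z` with `count z x ≥ q`: for `z ∈ {y_i}` the term is `0`
   (two equal entries), for `z ∉ {y_i}` the point `(x - q z; z, y)` has the same `nc` if `z ∈ O` (if
   `z ∉ O` the value `H' φ` is `0` because `y ⊆ O` on the support of `φ` and `z` stays in the tuple), so
   the term is `(-1)^(j+1) φ (x - q z + q m; z, y^)`.  These cancel the terms `z ≠ m` above (for
   `z ≠ m` with `z ∈ {y_i}` the term above is `0`; the conditions `count z (x + q m) ≥ q` and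
   `count z x ≥ q` agree for `z ≠ m`).
 Case 2, `m ∉ {y_i}`, `count m x ≥ q`: `H' (Lf φ) P = 0`; in `Lf (H' φ) P` the term `z = m` is
   `(H' φ)(x - q m; m, y) = φ (x; y)`, the terms `z ≠ m` vanish (`m` is still the minimum of `nc` and does
   not occur in the tuple `(z, y)`).
 For `ExL_succ` every point of the support of `φ` has `nc ≠ ∅` (the tuple is non empty and in `O`), and at
 points with `nc P = ∅` (so `y_i ∉ O` for all `i`) one checks `Lf (H' φ) P = 0 = φ P`: the terms are
 `(H' φ)(x - q z; z, y)`, which is a multiple of a value of `φ` at a tuple containing some `y_i ∉ O` or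
 `z = y_i`.
-/

namespace BPN.E

open Classical in
/-- Alternating in the tuple. -/
def AltF {k A : Type} [Field k] {a : ℕ} (φ : Multiset A → (Fin a → A) → k) : Prop :=
  (∀ x y (σ : Equiv.Perm (Fin a)), φ x (y ∘ σ) = (Equiv.Perm.sign σ : ℤ) • φ x y) ∧
    ∀ x y i j, i ≠ j → y i = y j → φ x y = 0

/-- `∑ i, (-1)^i φ (x + q y_i; y without y_i)`. -/
def Uf {k A : Type} [Field k] (q : ℕ) {a : ℕ} (φ : Multiset A → (Fin a → A) → k) :
    Multiset A → (Fin (a + 1) → A) → k := fun x y =>
  ∑ i : Fin (a + 1), (-1 : ℤ) ^ (i : ℕ) • φ (x + Multiset.replicate q (y i)) (y ∘ i.succAbove)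

open Classical in
/-- `∑_z φ (x - q z; z, y)`. -/
noncomputable def Lf {k A : Type} [Field k] (q : ℕ) {b : ℕ}
    (φ : Multiset A → (Fin (b + 1) → A) → k) : Multiset A → (Fin b → A) → k := fun x y =>
  ∑ z ∈ x.toFinset.filter (fun z => q ≤ x.count z),
    φ (x - Multiset.replicate q z) (Fin.cons z y)

variable {k A : Type} [Field k]

theorem AltF.alt {a : ℕ} {φ : Multiset A → (Fin a → A) → k} (h : AltF φ) (x : Multiset A) :
    AltG (φ x) := ⟨fun y σ => h.1 x y σ, fun y i j => h.2 x y i j⟩

theorem altF_of {a : ℕ} {φ : Multiset A → (Fin a → A) → k} (h : ∀ x, AltG (φ x)) : AltF φ :=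
  ⟨fun x y σ => (h x).1 y σ, fun x y i j => (h x).2 y i j⟩

theorem Uf_eq (q : ℕ) {a : ℕ} (φ : Multiset A → (Fin a → A) → k) (x : Multiset A)
    (y : Fin (a + 1) → A) :
    Uf q φ x y = altS (fun z => φ (x + Multiset.replicate q z)) y := rfl

open Classical in
/-- the homotopy for `Uf` -/
noncomputable def Hf (q : ℕ) (O : A → Prop) {a : ℕ} (φ : Multiset A → (Fin (a + 1) → A) → k) :
    Multiset A → (Fin a → A) → k := fun x y =>
  (mm (nc q O x y)).elim 0 fun m =>
    if ∀ i, y i ≠ m then φ (x - Multiset.replicate q m) (Fin.cons m y) else 0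

open Classical in
theorem Hf_some {q : ℕ} {O : A → Prop} {a : ℕ} {φ : Multiset A → (Fin (a + 1) → A) → k}
    {x : Multiset A} {y : Fin a → A} {m : A} (h : mm (nc q O x y) = some m) :
    Hf q O φ x y = if ∀ i, y i ≠ m then φ (x - Multiset.replicate q m) (Fin.cons m y) else 0 := by
  simp [Hf, h]

theorem Hf_none {q : ℕ} {O : A → Prop} {a : ℕ} {φ : Multiset A → (Fin (a + 1) → A) → k}
    {x : Multiset A} {y : Fin a → A} (h : mm (nc q O x y) = none) : Hf q O φ x y = 0 := by
  simp [Hf, h]

theorem Hf_alt {q : ℕ} {O : A → Prop} {a : ℕ} {φ : Multiset A → (Fin (a + 1) → A) → k}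
    (hA : AltF φ) : AltF (Hf q O φ) := by
  classical
  refine ⟨fun x y σ => ?_, fun x y i j hij hy => ?_⟩
  · cases h : mm (nc q O x y) with
    | none => rw [Hf_none h, Hf_none (by rw [nc_perm]; exact h), smul_zero]
    | some m =>
      rw [Hf_some h, Hf_some (by rw [nc_perm]; exact h)]
      have h1 : (∀ i, (y ∘ σ) i ≠ m) ↔ ∀ i, y i ≠ m := by
        constructor
        · intro h i
          have := h (σ.symm i)
          simpa using this
        · intro h i
          exact h _
      simp only [h1]
      split_ifs with h2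
      · exact ((hA.alt _).cons m).1 y σ
      · rw [smul_zero]
  · cases h : mm (nc q O x y) with
    | none => rw [Hf_none h]
    | some m =>
      rw [Hf_some h]
      split_ifs with h2
      · exact ((hA.alt _).cons m).2 y i j hij hy
      · rfl

open Classical in
theorem nc_replicate {q : ℕ} {O : A → Prop} {a : ℕ} {x : Multiset A} {y : Fin a → A} {m : A}
    (h : m ∈ nc q O x y) (hy : ∀ i, y i ≠ m) : Multiset.replicate q m ≤ x := by
  rcases h.2 with h1 | ⟨i, hi⟩
  · rwa [← Multiset.le_count_iff_replicate_le]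
  · exact absurd hi (hy i)

open Classical in
theorem ExU {q : ℕ} (hq : 0 < q) (O : A → Prop) {a : ℕ}
    (φ : Multiset A → (Fin (a + 1) → A) → k) (hA : AltF φ)
    (hO : ∀ x y, φ x y ≠ 0 → ∀ z ∈ x, O z)
    (hc : ∀ x y, (∀ i, ¬ O (y i)) → (∀ z, x.count z < q) → φ x y = 0) (hU : Uf q φ = 0) :
    ∃ ψ : Multiset A → (Fin a → A) → k, AltF ψ ∧ Uf q ψ = φ ∧
      ∀ x y, ψ x y ≠ 0 → (∀ z ∈ x, O z) ∧ ∃ x' y', φ x' y' ≠ 0 ∧
        Multiset.card x = Multiset.card x' + q ∧
        ∀ z, (z ∈ x ∨ ∃ i, y i = z) ↔ (z ∈ x' ∨ ∃ i, y' i = z) := by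
  have hAH := Hf_alt (q := q) (O := O) hA
  refine ⟨Hf q O φ, hAH, ?_, ?_⟩
  · funext x y
    by_cases hinj : Function.Injective y
    swap
    · simp only [Function.Injective, not_forall] at hinj
      obtain ⟨i, j, h1, h2⟩ := hinj
      rw [hA.2 x y i j h2 h1, Uf_eq]
      exact altS_eq_zero _ (fun z => hAH.alt _) y i j h2 h1
    cases h : mm (nc q O x y) with
    | none =>
      have h1 : φ x y = 0 := by
        by_contra h2
        refine h2 (hc x y (fun i hi => mm_none h (y i) ⟨hi, Or.inr ⟨i, rfl⟩⟩) fun z => ?_)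
        by_contra h3
        have h4 : z ∈ x := Multiset.count_pos.1 (by omega)
        exact mm_none h z ⟨hO x y h2 z h4, Or.inl (by omega)⟩
      rw [h1]
      refine Finset.sum_eq_zero fun i _ => ?_
      rw [Hf_none (by rw [nc_up]; exact h), smul_zero]
    | some m =>
      have hm := mm_mem h
      have hH : ∀ i : Fin (a + 1), Hf q O φ (x + Multiset.replicate q (y i)) (y ∘ i.succAbove) =
          if ∀ j, y (i.succAbove j) ≠ m then
            φ (x + Multiset.replicate q (y i) - Multiset.replicate q m)
              (Fin.cons m (y ∘ i.succAbove)) else 0 := fun i =>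
        Hf_some (by rw [nc_up]; exact h)
      unfold Uf
      simp only [hH]
      by_cases hy : ∃ j, y j = m
      · obtain ⟨j, hj⟩ := hy
        rw [Finset.sum_eq_single j]
        · rw [if_pos, hj, Multiset.add_sub_cancel_right, ← hj, (hA.alt x).front, pow_smul_self]
          intro l hl
          rw [← hj] at hl
          exact Fin.succAbove_ne _ _ (hinj hl)
        · intro i _ hi
          rw [if_neg, smul_zero]
          intro h1
          obtain ⟨l, hl⟩ := Fin.exists_succAbove_eq (Ne.symm hi)
          exact h1 l (by rw [hl]; exact hj)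
        · exact fun h => absurd (Finset.mem_univ _) h
      · push Not at hy
        have hr := nc_replicate hm hy
        have h0 : Uf q φ (x - Multiset.replicate q m) (Fin.cons m y) = 0 := by
          rw [hU]; rfl
        unfold Uf at h0
        rw [Fin.sum_univ_succ] at h0
        simp only [Fin.val_zero, pow_zero, one_smul, Fin.cons_zero, Fin.cons_succ,
          Fin.val_succ] at h0
        rw [tsub_add_cancel_of_le hr] at h0
        have h1 : (Fin.cons m y : Fin (a + 2) → A) ∘ Fin.succAbove 0 = y := by
          funext t; simp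
        rw [h1] at h0
        have h2 : ∀ i : Fin (a + 1), (Fin.cons m y : Fin (a + 2) → A) ∘ i.succ.succAbove =
            Fin.cons m (y ∘ i.succAbove) := by
          intro i
          funext t
          refine Fin.cases ?_ (fun t => ?_) t
          · simp
          · simp
        rw [← sub_eq_zero, ← neg_eq_zero, ← h0]
        rw [neg_sub, sub_eq_add_neg, ← Finset.sum_neg_distrib]
        congr 1
        refine Finset.sum_congr rfl fun i _ => ?_
        rw [if_pos (fun j => hy _), h2, pow_succ, mul_neg_one, neg_smul,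
          tsub_add_eq_add_tsub hr]
  · intro x y hxy
    cases h : mm (nc q O x y) with
    | none => exact absurd (Hf_none h) hxy
    | some m =>
      rw [Hf_some h] at hxy
      split_ifs at hxy with hy
      · have hm := mm_mem h
        have hr := nc_replicate hm hy
        have hmx : m ∈ x := Multiset.mem_of_le hr (Multiset.mem_replicate.2 ⟨hq.ne', rfl⟩)
        have hx : ∀ z ∈ x, z ∈ x - Multiset.replicate q m ∨ z = m := by
          intro z hz
          rw [← tsub_add_cancel_of_le hr, Multiset.mem_add] at hz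
          exact hz.imp_right Multiset.eq_of_mem_replicate
        refine ⟨fun z hz => ?_, _, _, hxy, ?_, fun z => ?_⟩
        · rcases hx z hz with h1 | h1
          · exact hO _ _ hxy z h1
          · exact h1 ▸ hm.1
        · conv_lhs => rw [← tsub_add_cancel_of_le hr]
          rw [Multiset.card_add, Multiset.card_replicate]
        · constructor
          · rintro (h1 | ⟨i, hi⟩)
            · rcases hx z h1 with h2 | h2
              · exact Or.inl h2
              · exact Or.inr ⟨0, by simp [h2]⟩
            · exact Or.inr ⟨i.succ, by simpa using hi⟩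
          · rintro (h1 | ⟨i, hi⟩)
            · exact Or.inl (Multiset.mem_of_le (Multiset.sub_le_self _ _) h1)
            · revert hi
              refine Fin.cases ?_ (fun i => ?_) i
              · intro hi
                left
                rw [← hi]
                simpa using hmx
              · intro hi
                exact Or.inr ⟨i, by simpa using hi⟩
      · exact absurd rfl hxy

open Classical in
theorem ExU_zero {q : ℕ} (hq : 0 < q) (O : A → Prop) (φ : Multiset A → (Fin 0 → A) → k)
    (hO : ∀ x y, φ x y ≠ 0 → ∀ z ∈ x, O z)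
    (hc : ∀ x y, (∀ z, x.count z < q) → φ x y = 0) (hU : Uf q φ = 0) : φ = 0 := by
  funext x y
  by_cases h : ∀ z, x.count z < q
  · exact hc x y h
  · push Not at h
    obtain ⟨m, hm⟩ := h
    have hr : Multiset.replicate q m ≤ x := by rwa [← Multiset.le_count_iff_replicate_le]
    have h0 : Uf q φ (x - Multiset.replicate q m) (fun _ => m) = 0 := by
      rw [hU]; rfl
    unfold Uf at h0
    rw [Fin.sum_univ_succ] at h0
    simp only [Fin.val_zero, pow_zero, one_smul, Finset.univ_eq_empty, Finset.sum_empty,
      add_zero] at h0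
    rw [tsub_add_cancel_of_le hr] at h0
    have h1 : y = (fun _ : Fin 1 => m) ∘ Fin.succAbove 0 := Subsingleton.elim _ _
    rw [h1, h0]
    rfl

end BPN.E
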