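import Pool.Agent.BPN.E.Tup
import Pool.Agent.BPN.E.Mult

/-!
# Part (E), module DqLem: the operators `Dq` (project BPN, architect helper30)

`(Dq φ)(x; y_0, .., y_a) = ∑ i, (-1)^i φ(x ⊔ (y_i)^q; y without y_i)` on finitely supported functions
on `A^(b+q) × A^a` (definition in `Pool/Agent/BPN/E/Defs.lean`), `SA` : symmetric in `x`, alternating in
`y`.

PROOFS.
* `Dq_apply`: unfold (`Finsupp.comapDomain_apply`).
* `Dq_mem`: symmetry in `x`: a permutation of `Fin b` extends to `Fin (b+q)`.  If `y j = y l`, `j < l`: the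
  terms `i ≠ j, l` vanish, the terms `j` and `l` cancel because `y ∘ l.succAbove` is obtained from
  `y ∘ j.succAbove` by a cyclic permutation of sign `(-1)^(l-j-1)`.  Sign rule: enough for adjacent
  transpositions `σ = swap j (j+1)` (they generate: `Equiv.Perm.mclosure_swap_castSucc_succ`; the set of
  `σ` for which the sign rule holds for all `(x, y)` is closed under products); for these the terms
  `j` and `j+1` are exchanged and the other terms change the sign.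
* `Dq_comp`: `(D D φ)(x; y) = ∑_{i ≠ l} ± φ (x ⊔ y_i^q ⊔ y_l^q; y without both)`; the two terms for
  `{i, l}` have opposite signs and the same value because `φ` is symmetric (exchange of two blocks of
  length `q`).
* `Dq_exact`, `Dq_exact_small`, `Dq_inj0` from `ExU`, `ExU_zero` (`Mult.lean`): for `φ ∈ SA k A n a` define
  `φ' (X : Multiset A) (y)` as `φ (x, y)` if `X = Multiset.ofFn x` (`= Multiset.map x univ.val`) for some
  `x : Fin n → A`, and `0` if `card X ≠ n`; well defined by the symmetry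
  (`Multiset.map_univ_eq_iff` or `List.Perm`: two tuples with the same multiset differ by a
  permutation).  Then `AltF φ'`, and `Uf q φ' = (Dq φ)'` if `n = b + q`, and `Uf q φ' = 0` if `n < q` (no multiset
  of cardinality `n` is of the form `x + q y_i`).  From the function `ψ'` given by `ExU` define
  `ψ (x, y) = ψ' (ofFn x) y` for `x : Fin (n+q) → A`; finite support: the entries of a point of the
  support of `ψ` belong to the finite set of entries of the points of the support of `φ`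
  (`Set.Finite.pi`, `Finsupp.ofSupportFinite` or `Finsupp.onFinset`).
-/

namespace BPN.E

variable {k : Type} [Field k] {A : Type}

theorem Dq_apply {q : ℕ} (hq : 0 < q) (b a : ℕ) (φ : ((Fin (b + q) → A) × (Fin a → A)) →₀ k)
    (z : (Fin b → A) × (Fin (a + 1) → A)) :
    Dq k q b a φ z = ∑ i : Fin (a + 1), (-1 : ℤ) ^ (i : ℕ) • φ (iot q b a i z) := by
  simp only [Dq, dif_pos hq, LinearMap.sum_apply, LinearMap.smul_apply, Finsupp.finsetSum_apply,
    Finsupp.smul_apply, Finsupp.lcomapDomain_apply, Finsupp.comapDomain_apply]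

/-- The permutation induced by `σ` on the complements of `i` and `σ i`. -/
private theorem exists_tau {a : ℕ} (σ : Equiv.Perm (Fin (a + 1))) (i : Fin (a + 1)) :
    ∃ τ : Equiv.Perm (Fin a), (∀ m, σ (i.succAbove m) = (σ i).succAbove (τ m)) ∧
      (Equiv.Perm.sign τ : ℤ) = (-1) ^ ((σ i : Fin (a + 1)) : ℕ) * (Equiv.Perm.sign σ : ℤ) *
        (-1) ^ (i : ℕ) := by
  set ρ : Equiv.Perm (Fin (a + 1)) := (σ i).cycleRange * σ * (i.cycleRange)⁻¹ with hρ
  have h0 : ρ 0 = 0 := by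
    simp only [hρ, Equiv.Perm.mul_apply]
    have : (i.cycleRange)⁻¹ 0 = i := Fin.cycleRange_symm_zero i
    rw [this, Fin.cycleRange_self]
  obtain ⟨⟨p, τ⟩, hp⟩ : ∃ z, Equiv.Perm.decomposeFin.symm z = ρ :=
    ⟨_, Equiv.symm_apply_apply _ _⟩
  have hp0 : p = 0 := by
    have := Equiv.Perm.decomposeFin_symm_apply_zero p τ
    rw [hp, h0] at this
    exact this.symm
  subst hp0
  refine ⟨τ, fun m => ?_, ?_⟩
  · have h1 : ρ m.succ = (τ m).succ := by
      rw [← hp, Equiv.Perm.decomposeFin_symm_apply_succ]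
      simp
    have h2 : (i.cycleRange)⁻¹ m.succ = i.succAbove m := Fin.cycleRange_symm_succ i m
    simp only [hρ, Equiv.Perm.mul_apply, h2] at h1
    apply (σ i).cycleRange.injective
    rw [h1, Fin.cycleRange_succAbove]
  · have h1 : Equiv.Perm.sign ρ = Equiv.Perm.sign τ := by
      rw [← hp, Equiv.Perm.decomposeFin.symm_sign]
      simp
    rw [← h1, hρ]
    simp [Fin.sign_cycleRange]

private theorem altTerm {a : ℕ} {G : A → (Fin a → A) → k}
    (hG : ∀ c y (σ : Equiv.Perm (Fin a)), G c (y ∘ σ) = (Equiv.Perm.sign σ : ℤ) • G c y)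
    (y : Fin (a + 1) → A) (σ : Equiv.Perm (Fin (a + 1))) (i : Fin (a + 1)) :
    (-1 : ℤ) ^ (i : ℕ) • G ((y ∘ σ) i) ((y ∘ σ) ∘ i.succAbove) =
      (Equiv.Perm.sign σ : ℤ) •
        ((-1 : ℤ) ^ ((σ i : Fin (a + 1)) : ℕ) • G (y (σ i)) (y ∘ (σ i).succAbove)) := by
  obtain ⟨τ, h1, h2⟩ := exists_tau σ i
  have h3 : (y ∘ σ) ∘ i.succAbove = (y ∘ (σ i).succAbove) ∘ τ := by
    funext m
    simp only [Function.comp_apply, h1]
  rw [h3, hG, h2, smul_smul, smul_smul]
  congr 1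
  have h4 : ((-1 : ℤ) ^ (i : ℕ)) * (-1) ^ (i : ℕ) = 1 := by
    rw [← mul_pow]; simp
  calc (-1 : ℤ) ^ (i : ℕ) * ((-1) ^ ((σ i : Fin (a + 1)) : ℕ) * (Equiv.Perm.sign σ : ℤ) *
        (-1) ^ (i : ℕ)) = ((-1 : ℤ) ^ (i : ℕ) * (-1) ^ (i : ℕ)) *
          ((Equiv.Perm.sign σ : ℤ) * (-1) ^ ((σ i : Fin (a + 1)) : ℕ)) := by ring
    _ = _ := by rw [h4, one_mul]

private theorem altSum {a : ℕ} {G : A → (Fin a → A) → k}
    (hG : ∀ c y (σ : Equiv.Perm (Fin a)), G c (y ∘ σ) = (Equiv.Perm.sign σ : ℤ) • G c y)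
    (y : Fin (a + 1) → A) (σ : Equiv.Perm (Fin (a + 1))) :
    (∑ i : Fin (a + 1), (-1 : ℤ) ^ (i : ℕ) • G ((y ∘ σ) i) ((y ∘ σ) ∘ i.succAbove)) =
      (Equiv.Perm.sign σ : ℤ) •
        ∑ i : Fin (a + 1), (-1 : ℤ) ^ (i : ℕ) • G (y i) (y ∘ i.succAbove) := by
  rw [Finset.smul_sum]
  refine (Finset.sum_congr rfl fun i _ => altTerm hG y σ i).trans ?_
  exact Equiv.sum_comp σ fun i => (Equiv.Perm.sign σ : ℤ) •
    ((-1 : ℤ) ^ (i : ℕ) • G (y i) (y ∘ i.succAbove))

private theorem altSum_zero {a : ℕ} {G : A → (Fin a → A) → k}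
    (hG : ∀ c y (σ : Equiv.Perm (Fin a)), G c (y ∘ σ) = (Equiv.Perm.sign σ : ℤ) • G c y)
    (hG0 : ∀ c y i j, i ≠ j → y i = y j → G c y = 0)
    (y : Fin (a + 1) → A) {i j : Fin (a + 1)} (hij : i ≠ j) (hy : y i = y j) :
    (∑ i : Fin (a + 1), (-1 : ℤ) ^ (i : ℕ) • G (y i) (y ∘ i.succAbove)) = 0 := by
  have h1 : (∑ i : Fin (a + 1), (-1 : ℤ) ^ (i : ℕ) • G (y i) (y ∘ i.succAbove)) =
      (-1 : ℤ) ^ (i : ℕ) • G (y i) (y ∘ i.succAbove) +
        (-1 : ℤ) ^ (j : ℕ) • G (y j) (y ∘ j.succAbove) := by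
    refine Fintype.sum_eq_add _ _ hij fun l hl => ?_
    obtain ⟨i', hi'⟩ := Fin.exists_succAbove_eq hl.1.symm
    obtain ⟨j', hj'⟩ := Fin.exists_succAbove_eq hl.2.symm
    rw [hG0 (y l) (y ∘ l.succAbove) i' j' (by
      rintro rfl
      exact hij (hi'.symm.trans hj')) (by
      simp only [Function.comp_apply, hi', hj', hy]), smul_zero]
  rw [h1]
  have h2 := altTerm hG y (Equiv.swap i j) i
  have h3 : y ∘ (Equiv.swap i j) = y := by
    funext m
    simp only [Function.comp_apply]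
    by_cases h : m = i
    · rw [h, Equiv.swap_apply_left, hy]
    · by_cases h' : m = j
      · rw [h', Equiv.swap_apply_right, hy]
      · rw [Equiv.swap_apply_of_ne_of_ne h h']
  rw [h3, Equiv.Perm.sign_swap hij, Equiv.swap_apply_left] at h2
  rw [h2]
  simp

/-- Permutation of the first block. -/
private theorem append_comp_perm {b q : ℕ} (x : Fin b → A) (c : Fin q → A) (σ : Equiv.Perm (Fin b)) :
    ∃ σ' : Equiv.Perm (Fin (b + q)), Fin.append (x ∘ σ) c = Fin.append x c ∘ σ' := by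
  refine ⟨finSumFinEquiv.permCongr (Equiv.sumCongr σ (Equiv.refl _)), ?_⟩
  funext m
  refine Fin.addCases (fun m => ?_) (fun m => ?_) m
  · simp [Equiv.permCongr_apply]
  · simp [Equiv.permCongr_apply]

theorem Dq_mem {q : ℕ} (hq : 0 < q) {b a : ℕ} {φ : ((Fin (b + q) → A) × (Fin a → A)) →₀ k}
    (hφ : φ ∈ SA k A (b + q) a) : Dq k q b a φ ∈ SA k A b (a + 1) := by
  obtain ⟨h1, h2, h3⟩ := hφ
  refine ⟨fun σ x y => ?_, fun σ x y => ?_, fun x y i j hij hy => ?_⟩
  · rw [Dq_apply hq, Dq_apply hq]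
    refine Finset.sum_congr rfl fun i _ => ?_
    simp only [iot]
    obtain ⟨σ', hσ'⟩ := append_comp_perm x (fun _ : Fin q => y i) σ
    rw [hσ', h1]
  · rw [Dq_apply hq, Dq_apply hq]
    exact altSum (G := fun c y => φ (Fin.append x fun _ : Fin q => c, y)) (fun c y σ => h2 σ _ y) y σ
  · rw [Dq_apply hq]
    exact altSum_zero (G := fun c y => φ (Fin.append x fun _ : Fin q => c, y))
      (fun c y σ => h2 σ _ y) (fun c y i j hij hy => h3 _ y i j hij hy) y hij hy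

/-- Exchange of the last two blocks. -/
private theorem append_append_perm {b q : ℕ} (x : Fin b → A) (c d : Fin q → A) :
    ∃ σ : Equiv.Perm (Fin (b + q + q)), Fin.append (Fin.append x c) d =
      Fin.append (Fin.append x d) c ∘ σ := by
  let e : (Fin b ⊕ Fin q) ⊕ Fin q ≃ Fin (b + q + q) :=
    (Equiv.sumCongr finSumFinEquiv (Equiv.refl _)).trans finSumFinEquiv
  let s : Equiv.Perm ((Fin b ⊕ Fin q) ⊕ Fin q) :=
    (Equiv.sumAssoc _ _ _).trans ((Equiv.sumCongr (Equiv.refl _) (Equiv.sumComm _ _)).trans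
      (Equiv.sumAssoc _ _ _).symm)
  refine ⟨e.permCongr s, ?_⟩
  funext m
  refine Fin.addCases (fun m => ?_) (fun m => ?_) m
  · refine Fin.addCases (fun m => ?_) (fun m => ?_) m
    · simp [e, s, Equiv.permCongr_apply]
    · simp [e, s, Equiv.permCongr_apply]
  · simp [e, s, Equiv.permCongr_apply]

theorem Dq_comp {q : ℕ} (hq : 0 < q) {b a : ℕ} {φ : ((Fin (b + q + q) → A) × (Fin a → A)) →₀ k}
    (hφ : φ ∈ SA k A (b + q + q) a) : Dq k q b (a + 1) (Dq k q (b + q) a φ) = 0 := by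
  obtain ⟨h1, -, -⟩ := hφ
  ext z
  obtain ⟨x, y⟩ := z
  rw [Dq_apply hq]
  simp only [Dq_apply hq, Finset.smul_sum, Finsupp.zero_apply]
  rw [← Finset.sum_product']
  refine Finset.sum_involution (fun z _ => (z.1.succAbove z.2, z.2.predAbove z.1)) ?_ ?_ ?_ ?_
  · rintro ⟨i, l⟩ -
    simp only [iot]
    rw [smul_smul, smul_smul, ← pow_add, ← pow_add, Fin.neg_one_pow_succAbove_add_predAbove,
      neg_smul]
    have e1 : (y ∘ (i.succAbove l).succAbove) ∘ (l.predAbove i).succAbove =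
        (y ∘ i.succAbove) ∘ l.succAbove := by
      funext m
      simp only [Function.comp_apply, Fin.succAbove_succAbove_succAbove_predAbove]
    have e2 : (y ∘ (i.succAbove l).succAbove) (l.predAbove i) = y i := by
      simp only [Function.comp_apply, Fin.succAbove_succAbove_predAbove]
    rw [e1, e2]
    simp only [Function.comp_apply]
    obtain ⟨σ, hσ⟩ := append_append_perm x (fun _ : Fin q => y (i.succAbove l))
      (fun _ : Fin q => y i)
    rw [hσ, h1, add_neg_cancel]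
  · rintro ⟨i, l⟩ - - h
    simp only [Prod.mk.injEq] at h
    exact Fin.succAbove_ne _ _ h.1
  · intro z _
    exact Finset.mem_product.2 ⟨Finset.mem_univ _, Finset.mem_univ _⟩
  · rintro ⟨i, l⟩ -
    simp only [Prod.mk.injEq]
    exact ⟨Fin.succAbove_succAbove_predAbove _ _, Fin.predAbove_predAbove_succAbove _ _⟩

theorem Dq_support {q : ℕ} (hq : 0 < q) {b a : ℕ} {φ : ((Fin (b + q) → A) × (Fin a → A)) →₀ k}
    {z : (Fin b → A) × (Fin (a + 1) → A)} (hz : Dq k q b a φ z ≠ 0) :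
    ∃ i : Fin (a + 1), φ (iot q b a i z) ≠ 0 := by
  rw [Dq_apply hq] at hz
  obtain ⟨i, -, hi⟩ := Finset.exists_ne_zero_of_sum_ne_zero hz
  exact ⟨i, fun h => hi (by rw [h, smul_zero])⟩

/-! ### Tuples and multisets -/

/-- The multiset of the entries of a tuple. -/
private def mu {n : ℕ} (x : Fin n → A) : Multiset A := (Finset.univ : Finset (Fin n)).val.map x

private theorem mem_mu {n : ℕ} {x : Fin n → A} {s : A} : s ∈ mu x ↔ ∃ i, x i = s := by
  simp [mu]

private theorem card_mu {n : ℕ} (x : Fin n → A) : Multiset.card (mu x) = n := by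
  simp [mu]

private theorem mu_append {n q : ℕ} (x : Fin n → A) (s : A) :
    mu (Fin.append x fun _ : Fin q => s) = mu x + Multiset.replicate q s := by
  rw [mu, mu, Fin.univ_val_map, Fin.univ_val_map, List.ofFn_fin_append, List.ofFn_const]
  rfl

private theorem mu_comp {n : ℕ} (x : Fin n → A) (σ : Equiv.Perm (Fin n)) : mu (x ∘ σ) = mu x := by
  rw [mu, ← Multiset.map_map, Multiset.map_univ_val_equiv]
  rfl

private theorem exists_mu {n : ℕ} {X : Multiset A} (h : Multiset.card X = n) : ∃ x : Fin n → A, mu x = X := by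
  subst h
  induction X using Quot.inductionOn with
  | h l =>
    refine ⟨fun i => l.get i, ?_⟩
    rw [mu, Fin.univ_val_map]
    exact congrArg _ (List.ofFn_get l)

open Classical in
private theorem count_mu {n : ℕ} (x : Fin n → A) (s : A) :
    (mu x).count s = (Finset.univ.filter fun i => x i = s).card := by
  rw [mu, Multiset.count_map, Finset.card_def, Finset.filter_val]
  congr 1
  exact Multiset.filter_congr fun i _ => eq_comm

private theorem mu_eq {n : ℕ} {x x' : Fin n → A} (h : mu x = mu x') :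
    ∃ σ : Equiv.Perm (Fin n), x = x' ∘ σ := by
  classical
  have hc : ∀ s, Nonempty ({i // x i = s} ≃ {i // x' i = s}) := by
    intro s
    refine Fintype.card_eq.1 ?_
    rw [Fintype.card_subtype, Fintype.card_subtype, ← count_mu, ← count_mu, h]
  exact ⟨Equiv.ofFiberEquiv (f := x) (g := x') fun s => (hc s).some,
    funext fun i => (Equiv.ofFiberEquiv_map _ i).symm⟩

open Classical in
/-- The function on multisets defined by a symmetric function. -/
private noncomputable def toM {n a : ℕ} (φ : ((Fin n → A) × (Fin a → A)) →₀ k) :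
    Multiset A → (Fin a → A) → k := fun X y =>
  if h : ∃ x : Fin n → A, mu x = X then φ (h.choose, y) else 0

private theorem toM_mu {n a : ℕ} {φ : ((Fin n → A) × (Fin a → A)) →₀ k}
    (h1 : ∀ (σ : Equiv.Perm (Fin n)) x y, φ (x ∘ σ, y) = φ (x, y)) (x : Fin n → A)
    (y : Fin a → A) : toM φ (mu x) y = φ (x, y) := by
  have h : ∃ x' : Fin n → A, mu x' = mu x := ⟨x, rfl⟩
  rw [toM, dif_pos h]
  obtain ⟨σ, hσ⟩ := mu_eq h.choose_spec
  rw [hσ, h1]

private theorem toM_card {n a : ℕ} {φ : ((Fin n → A) × (Fin a → A)) →₀ k} {X : Multiset A}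
    (y : Fin a → A) (h : Multiset.card X ≠ n) : toM φ X y = 0 := by
  rw [toM, dif_neg]
  rintro ⟨x, rfl⟩
  exact h (card_mu x)

private theorem toM_ne {n a : ℕ} {φ : ((Fin n → A) × (Fin a → A)) →₀ k}
    (h1 : ∀ (σ : Equiv.Perm (Fin n)) x y, φ (x ∘ σ, y) = φ (x, y)) {X : Multiset A}
    {y : Fin a → A} (h : toM φ X y ≠ 0) : ∃ x : Fin n → A, mu x = X ∧ φ (x, y) ≠ 0 := by
  by_cases hX : Multiset.card X = n
  · obtain ⟨x, rfl⟩ := exists_mu hX
    exact ⟨x, rfl, by rwa [toM_mu h1] at h⟩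
  · exact absurd (toM_card y hX) h

private theorem toM_alt {n a : ℕ} {φ : ((Fin n → A) × (Fin a → A)) →₀ k} (hφ : φ ∈ SA k A n a) :
    AltF (toM φ) := by
  obtain ⟨h1, h2, h3⟩ := hφ
  constructor
  · intro X y σ
    by_cases hX : Multiset.card X = n
    · obtain ⟨x, rfl⟩ := exists_mu hX
      rw [toM_mu h1, toM_mu h1, h2]
    · rw [toM_card _ hX, toM_card _ hX, smul_zero]
  · intro X y i j hij hy
    by_cases hX : Multiset.card X = n
    · obtain ⟨x, rfl⟩ := exists_mu hX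
      rw [toM_mu h1, h3 x y i j hij hy]
    · rw [toM_card _ hX]

private theorem Uf_toM {q : ℕ} (hq : 0 < q) {b a : ℕ} {φ : ((Fin (b + q) → A) × (Fin a → A)) →₀ k}
    (hφ : φ ∈ SA k A (b + q) a) (hD : Dq k q b a φ = 0) : Uf q (toM φ) = 0 := by
  funext X y
  simp only [Uf, Pi.zero_apply]
  by_cases hX : Multiset.card X = b
  · obtain ⟨x, rfl⟩ := exists_mu hX
    have h := DFunLike.congr_fun hD (x, y)
    rw [Dq_apply hq, Finsupp.zero_apply] at h
    rw [← h]
    refine Finset.sum_congr rfl fun i _ => ?_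
    rw [← mu_append, toM_mu hφ.1]
    rfl
  · refine Finset.sum_eq_zero fun i _ => ?_
    rw [toM_card, smul_zero]
    rw [Multiset.card_add, Multiset.card_replicate]
    omega

private theorem Uf_toM_small {q b a : ℕ} (hb : b < q) (φ : ((Fin b → A) × (Fin a → A)) →₀ k) :
    Uf q (toM φ) = 0 := by
  funext X y
  simp only [Uf, Pi.zero_apply]
  refine Finset.sum_eq_zero fun i _ => ?_
  rw [toM_card, smul_zero]
  rw [Multiset.card_add, Multiset.card_replicate]
  omega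

/-- The finitely supported function defined by a function on multisets. -/
private theorem exists_fromM {n a : ℕ} (ψ' : Multiset A → (Fin a → A) → k) (E : Set A) (hE : E.Finite)
    (h : ∀ (x : Fin n → A) y, ψ' (mu x) y ≠ 0 → (∀ i, x i ∈ E) ∧ ∀ j, y j ∈ E) :
    ∃ ψ : ((Fin n → A) × (Fin a → A)) →₀ k, ∀ x y, ψ (x, y) = ψ' (mu x) y := by
  have hf : (Function.support fun z : (Fin n → A) × (Fin a → A) => ψ' (mu z.1) z.2).Finite := by
    refine Set.Finite.subset (Set.Finite.prod (Set.Finite.pi' fun _ : Fin n => hE)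
      (Set.Finite.pi' fun _ : Fin a => hE)) ?_
    rintro ⟨x, y⟩ hz
    exact h x y hz
  exact ⟨Finsupp.ofSupportFinite _ hf, fun x y => rfl⟩

/-- The entries of the points of the support. -/
private theorem exists_entries {n a : ℕ} (φ : ((Fin n → A) × (Fin a → A)) →₀ k) :
    ∃ E : Set A, E.Finite ∧ ∀ x y, φ (x, y) ≠ 0 → (∀ i, x i ∈ E) ∧ ∀ j, y j ∈ E := by
  refine ⟨⋃ z ∈ φ.support, (Set.range z.1 ∪ Set.range z.2), ?_, fun x y h => ⟨fun i => ?_, fun j => ?_⟩⟩
  · exact Set.Finite.biUnion (Finset.finite_toSet _) fun z _ =>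
      (Set.finite_range _).union (Set.finite_range _)
  · exact Set.mem_biUnion (Finset.mem_coe.2 (Finsupp.mem_support_iff.2 h)) (Or.inl ⟨i, rfl⟩)
  · exact Set.mem_biUnion (Finset.mem_coe.2 (Finsupp.mem_support_iff.2 h)) (Or.inr ⟨j, rfl⟩)

open Classical in
private theorem Dq_exact_aux {q : ℕ} (hq : 0 < q) (O : A → Prop) {n a : ℕ}
    {φ : ((Fin n → A) × (Fin (a + 1) → A)) →₀ k} (hφ : φ ∈ SA k A n (a + 1))
    (hO : ∀ x y, φ (x, y) ≠ 0 → ∀ i, O (x i))
    (hc : ∀ x y, (∀ j, ¬ O (y j)) → (∀ s, (Finset.univ.filter fun i => x i = s).card < q) →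
      φ (x, y) = 0)
    (hU : Uf q (toM φ) = 0) :
    ∃ ψ ∈ SA k A (n + q) a, Dq k q n a ψ = φ ∧
      ∀ x y, ψ (x, y) ≠ 0 → (∀ i, O (x i)) ∧ ∃ x' y', φ (x', y') ≠ 0 ∧
        ∀ s, ((∃ i, x i = s) ∨ ∃ j, y j = s) ↔ ((∃ i, x' i = s) ∨ ∃ j, y' j = s) := by
  have h1 := hφ.1
  obtain ⟨ψ', hA, hUψ, hs⟩ := ExU hq O (toM φ) (toM_alt hφ) (by
    intro X y h z hz
    obtain ⟨x, rfl, hx⟩ := toM_ne h1 h
    obtain ⟨i, rfl⟩ := mem_mu.1 hz
    exact hO x y hx i) (by
    intro X y hy hX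
    by_contra h
    obtain ⟨x, rfl, hx⟩ := toM_ne h1 h
    refine hx (hc x y hy fun s => ?_)
    rw [← count_mu]
    exact hX s) hU
  obtain ⟨E, hE, hE'⟩ := exists_entries φ
  have key : ∀ (x : Fin (n + q) → A) y, ψ' (mu x) y ≠ 0 → (∀ i, O (x i)) ∧ ∃ x' y',
      φ (x', y') ≠ 0 ∧
        ∀ s, ((∃ i, x i = s) ∨ ∃ j, y j = s) ↔ ((∃ i, x' i = s) ∨ ∃ j, y' j = s) := by
    intro x y h
    obtain ⟨hO', X', y', hX', -, hh⟩ := hs _ _ h
    obtain ⟨x', rfl, hx'⟩ := toM_ne h1 hX'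
    refine ⟨fun i => hO' _ (mem_mu.2 ⟨i, rfl⟩), x', y', hx', fun s => ?_⟩
    have := hh s
    rwa [mem_mu, mem_mu] at this
  obtain ⟨ψ, hψ⟩ := exists_fromM (n := n + q) ψ' E hE (by
    intro x y h
    obtain ⟨-, x', y', hx', hh⟩ := key x y h
    have h2 := hE' x' y' hx'
    have h3 : ∀ s, ((∃ i, x' i = s) ∨ ∃ j, y' j = s) → s ∈ E := by
      rintro s (⟨i, rfl⟩ | ⟨j, rfl⟩)
      · exact h2.1 i
      · exact h2.2 j
    exact ⟨fun i => h3 _ ((hh _).1 (Or.inl ⟨i, rfl⟩)), fun j => h3 _ ((hh _).1 (Or.inr ⟨j, rfl⟩))⟩)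
  refine ⟨ψ, ⟨fun σ x y => ?_, fun σ x y => ?_, fun x y i j hij hy => ?_⟩, ?_, fun x y h => ?_⟩
  · rw [hψ, hψ, mu_comp]
  · rw [hψ, hψ, hA.1]
  · rw [hψ, hA.2 _ y i j hij hy]
  · ext z
    obtain ⟨x, y⟩ := z
    rw [Dq_apply hq, ← toM_mu h1, ← hUψ]
    simp only [Uf]
    refine Finset.sum_congr rfl fun i _ => ?_
    rw [← mu_append]
    exact congrArg _ (hψ _ _)
  · rw [hψ] at h
    exact key x y h

open Classical in
theorem Dq_exact {q : ℕ} (hq : 0 < q) (O : A → Prop) {b a : ℕ}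
    {φ : ((Fin (b + q) → A) × (Fin (a + 1) → A)) →₀ k} (hφ : φ ∈ SA k A (b + q) (a + 1))
    (hO : ∀ x y, φ (x, y) ≠ 0 → ∀ i, O (x i))
    (hc : ∀ x y, (∀ j, ¬ O (y j)) → (∀ s, (Finset.univ.filter fun i => x i = s).card < q) →
      φ (x, y) = 0)
    (hD : Dq k q b (a + 1) φ = 0) :
    ∃ ψ ∈ SA k A (b + q + q) a, Dq k q (b + q) a ψ = φ ∧
      ∀ x y, ψ (x, y) ≠ 0 → (∀ i, O (x i)) ∧ ∃ x' y', φ (x', y') ≠ 0 ∧
        ∀ s, ((∃ i, x i = s) ∨ ∃ j, y j = s) ↔ ((∃ i, x' i = s) ∨ ∃ j, y' j = s) :=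
  Dq_exact_aux hq O hφ hO hc (Uf_toM hq hφ hD)

open Classical in
theorem Dq_exact_small {q : ℕ} (O : A → Prop) {b a : ℕ} (hb : b < q)
    {φ : ((Fin b → A) × (Fin (a + 1) → A)) →₀ k} (hφ : φ ∈ SA k A b (a + 1))
    (hO : ∀ x y, φ (x, y) ≠ 0 → ∀ i, O (x i))
    (hc : ∀ x y, (∀ j, ¬ O (y j)) → φ (x, y) = 0) :
    ∃ ψ ∈ SA k A (b + q) a, Dq k q b a ψ = φ ∧
      ∀ x y, ψ (x, y) ≠ 0 → (∀ i, O (x i)) ∧ ∃ x' y', φ (x', y') ≠ 0 ∧
        ∀ s, ((∃ i, x i = s) ∨ ∃ j, y j = s) ↔ ((∃ i, x' i = s) ∨ ∃ j, y' j = s) :=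
  Dq_exact_aux (Nat.pos_of_ne_zero (by omega)) O hφ hO (fun x y h _ => hc x y h)
    (Uf_toM_small hb φ)

open Classical in
theorem Dq_inj0 {q : ℕ} (hq : 0 < q) {b : ℕ} {φ : ((Fin (b + q) → A) × (Fin 0 → A)) →₀ k}
    (hφ : φ ∈ SA k A (b + q) 0)
    (hc : ∀ x y, (∀ s, (Finset.univ.filter fun i => x i = s).card < q) → φ (x, y) = 0)
    (hD : Dq k q b 0 φ = 0) : φ = 0 := by
  have h1 := hφ.1
  have h := ExU_zero hq (fun _ => True) (toM φ) (fun _ _ _ _ _ => trivial) (by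
    intro X y hX
    by_contra h
    obtain ⟨x, rfl, hx⟩ := toM_ne h1 h
    refine hx (hc x y fun s => ?_)
    rw [← count_mu]
    exact hX s) (Uf_toM hq hφ hD)
  ext z
  obtain ⟨x, y⟩ := z
  rw [← toM_mu h1, h]
  rfl

end BPN.E
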