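import Pool.Agent.BPN.E.Tup

/-!
# Part (E), module DqNat: naturality of `Dq` (project BPN, architect helper30)

For a partial map `g : A → Option A'` the operator `Dq` commutes with push forward along
`pr (tup _ g) (tup _ g)` if `q = 1` (always), or if `q = p` is the characteristic and `φ` is symmetric in
the first group of variables.

PROOF.  Evaluate at `(x', y')`, `x' : Fin b → A'`, `y' : Fin (a+1) → A'` with `push_apply` (it is convenient
to first show the value formula
`push k g φ z' = ∑ᶠ` or `∑ z ∈ S with g z = some z', φ z` for every finite set `S` containing the support).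
`Dq (push φ) (x', y') = ∑ i (-1)^i ∑ φ (x ⊔ w; v)` over all `x`, `w : Fin q → A`, `v : Fin a → A` with
`g x = x'`, `g (w t) = y'_i` for all `t`, `g v = y' without y'_i`, and
`push (Dq φ) (x', y') = ∑_{g x = x', g y = y'} ∑ i (-1)^i φ (x ⊔ (y_i)^q; y without y_i)`, which is the
part of the first sum with constant `w` (put `y_i = w`).  For `q = 1` there is no difference.  For
`q = p` the sum over the non constant `w : Fin p → A` with `g (w t) = y'_i` is zero:
LEMMA (`sum_rot`): `p` prime, `k` of characteristic `p`, `S` a finite set, `F : (Fin p → A) → k` with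
`F (w ∘ finRotate p) = F w`.  Then `∑_{w : Fin p → A with values in S} F w = ∑_{s ∈ S} F (fun _ => s)`.
Proof: the cyclic group of order `p` acts on `{w : non constant, values in S}` by rotation without fixed
points, `F` is invariant, so the sum is `p` times a sum over orbits.  In Lean: partition by the value
`c` of `F`: the set `{w : F w = c}` is stable under the action of `Multiplicative (ZMod p)` (a
`p`-group), `MulAction.card_modEq_card_fixedPoints`; fixed points of the rotation are the constant
functions.  Hence `∑ F w = ∑_c c * card {F = c} = ∑_c c * card {s : F (const s) = c}`.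
-/

namespace BPN.E

variable {A A' : Type}

open Classical in
private theorem rot_card (p : ℕ) [hp : Fact p.Prime] (S : Finset A) (Q : (Fin p → A) → Prop)
    (hQ : ∀ w, Q w → Q (w ∘ finRotate p)) :
    ((Fintype.piFinset (fun _ : Fin p => S)).filter Q).card ≡
      (S.filter fun s => Q (fun _ => s)).card [MOD p] := by
  obtain ⟨n, hn⟩ : ∃ n, p = n + 1 := ⟨p - 1, by have := hp.out.pos; omega⟩
  subst hn
  let α := {w : Fin (n + 1) → A // w ∈ (Fintype.piFinset (fun _ : Fin (n + 1) => S)).filter Q}
  let f : Function.End α := fun w => ⟨w.1 ∘ finRotate (n + 1), by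
    obtain ⟨w, hw⟩ := w
    rw [Finset.mem_filter, Fintype.mem_piFinset] at hw ⊢
    exact ⟨fun i => hw.1 _, hQ w hw.2⟩⟩
  have hf0 : ∀ w : α, (f w).1 = w.1 ∘ finRotate (n + 1) := fun w => rfl
  have hf : ∀ (m : ℕ) (w : α), ((f ^ m) w).1 = w.1 ∘ ⇑(finRotate (n + 1) ^ m) := by
    intro m
    induction m with
    | zero => intro w; rfl
    | succ m ih =>
      intro w
      rw [pow_succ']
      change (f ((f ^ m) w)).1 = _
      rw [hf0, ih, pow_succ]
      rfl
  have hrot : ∀ (m : ℕ) (i : Fin (n + 1)),
      ((finRotate (n + 1) ^ m) i : Fin (n + 1)).val = (i.val + m) % (n + 1) := by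
    intro m
    induction m with
    | zero =>
      intro i
      rw [pow_zero, add_zero, Nat.mod_eq_of_lt i.2]
      rfl
    | succ m ih =>
      intro i
      rw [pow_succ', Equiv.Perm.mul_apply, finRotate_apply, Fin.val_add, ih, Fin.val_one',
        ← Nat.add_mod, add_assoc]
  have hf1 : f ^ (n + 1) ^ 1 = 1 := by
    rw [pow_one]
    funext w
    apply Subtype.ext
    rw [hf]
    have h0 : (finRotate (n + 1) ^ (n + 1) : Equiv.Perm (Fin (n + 1))) = 1 := by
      ext i
      rw [hrot, Nat.add_mod_right, Nat.mod_eq_of_lt i.2]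
      rfl
    rw [h0]
    rfl
  have h1 := Equiv.Perm.card_fixedPoints_modEq hf1
  have h2 : Fintype.card α = ((Fintype.piFinset (fun _ : Fin (n + 1) => S)).filter Q).card :=
    Fintype.card_coe _
  have hcm : ∀ s ∈ S.filter (fun s => Q (fun _ => s)),
      (fun _ => s) ∈ (Fintype.piFinset (fun _ : Fin (n + 1) => S)).filter Q := by
    intro s hs
    rw [Finset.mem_filter] at hs
    rw [Finset.mem_filter, Fintype.mem_piFinset]
    exact ⟨fun _ => hs.1, hs.2⟩
  have h3 : Fintype.card (Function.fixedPoints f) = (S.filter fun s => Q (fun _ => s)).card := by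
    rw [← Fintype.card_coe]
    refine (Fintype.card_congr (Equiv.ofBijective
      (fun s : {s // s ∈ S.filter fun s => Q (fun _ => s)} =>
      (⟨⟨fun _ => s.1, hcm s.1 s.2⟩, by
        rw [Function.mem_fixedPoints]
        apply Subtype.ext
        rfl⟩ : Function.fixedPoints f)) ⟨?_, ?_⟩)).symm
    · intro s t hst
      apply Subtype.ext
      have h := congrArg (fun z : Function.fixedPoints f => z.1.1 0) hst
      exact h
    · rintro ⟨w, hw⟩
      have hw1 : ∀ i, w.1 (i + 1) = w.1 i := by
        intro i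
        have h := congrFun (congrArg Subtype.val hw) i
        rw [hf0, Function.comp_apply, finRotate_apply] at h
        exact h
      have hc : ∀ i, w.1 i = w.1 0 := by
        intro i
        induction i using Fin.induction with
        | zero => rfl
        | succ i ih =>
          rw [← ih, ← hw1 i.castSucc, Fin.coeSucc_eq_succ]
      have hmem := w.2
      rw [Finset.mem_filter, Fintype.mem_piFinset] at hmem
      have he : w.1 = fun _ => w.1 0 := funext hc
      refine ⟨⟨w.1 0, ?_⟩, ?_⟩
      · rw [Finset.mem_filter]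
        refine ⟨hmem.1 0, ?_⟩
        rw [← he]
        exact hmem.2
      · apply Subtype.ext
        apply Subtype.ext
        exact he.symm
  rw [← h2, ← h3]
  exact h1

open Classical in
theorem sum_rot (p : ℕ) [Fact p.Prime] {k : Type} [Field k] [CharP k p] (S : Finset A)
    (F : (Fin p → A) → k) (hF : ∀ w, F (w ∘ finRotate p) = F w) :
    ∑ w ∈ Fintype.piFinset (fun _ : Fin p => S), F w = ∑ s ∈ S, F (fun _ => s) := by
  have hp : p.Prime := Fact.out
  have hmaps : ∀ s ∈ S, F (fun _ => s) ∈ (Fintype.piFinset (fun _ : Fin p => S)).image F := by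
    intro s hs
    refine Finset.mem_image_of_mem F ?_
    rw [Fintype.mem_piFinset]
    exact fun _ => hs
  rw [← Finset.sum_fiberwise_of_maps_to
    (fun w hw => Finset.mem_image_of_mem F hw : ∀ w ∈ Fintype.piFinset (fun _ : Fin p => S),
      F w ∈ (Fintype.piFinset (fun _ : Fin p => S)).image F),
    ← Finset.sum_fiberwise_of_maps_to hmaps]
  refine Finset.sum_congr rfl fun c _ => ?_
  have h1 : ∑ w ∈ (Fintype.piFinset (fun _ : Fin p => S)).filter (fun w => F w = c), F w =
      (((Fintype.piFinset (fun _ : Fin p => S)).filter (fun w => F w = c)).card : k) * c := by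
    rw [Finset.sum_congr rfl (fun w hw => (Finset.mem_filter.1 hw).2), Finset.sum_const,
      nsmul_eq_mul]
  have h2 : ∑ s ∈ S.filter (fun s => F (fun _ => s) = c), F (fun _ => s) =
      ((S.filter (fun s => F (fun _ => s) = c)).card : k) * c := by
    rw [Finset.sum_congr rfl (fun w hw => (Finset.mem_filter.1 hw).2), Finset.sum_const,
      nsmul_eq_mul]
  rw [h1, h2]
  congr 1
  exact (CharP.natCast_eq_natCast k p).2
    (rot_card p S (fun w => F w = c) (fun w hw => by rw [hF w]; exact hw))

variable {k : Type} [Field k]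

open Classical in
private theorem push_val {Z Z' : Type} (g : Z → Option Z') (φ : Z →₀ k) (T : Finset Z)
    (hT : φ.support ⊆ T) (z' : Z') :
    push k g φ z' = ∑ z ∈ T.filter (fun z => g z = some z'), φ z := by
  rw [push_apply]
  refine Finset.sum_subset ?_ ?_
  · exact Finset.filter_subset_filter _ hT
  · intro z hz hz'
    rw [Finset.mem_filter] at hz hz'
    by_contra h
    exact hz' ⟨Finsupp.mem_support_iff.2 h, hz.2⟩

private theorem Dq_val {q : ℕ} (hq : 0 < q) (b a : ℕ)
    (φ : ((Fin (b + q) → A) × (Fin a → A)) →₀ k) (z : (Fin b → A) × (Fin (a + 1) → A)) :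
    Dq k q b a φ z = ∑ i : Fin (a + 1), (-1 : ℤ) ^ (i : ℕ) • φ (iot q b a i z) := by
  rw [Dq, dif_pos hq, LinearMap.sum_apply, Finsupp.finsetSum_apply]
  rfl

open Classical in
private theorem Dq_push_gen {q : ℕ} (hq : 0 < q) {b a : ℕ} (g : A → Option A')
    (φ : ((Fin (b + q) → A) × (Fin a → A)) →₀ k)
    (hF : ∀ (S : Finset A) (x : Fin b → A) (v : Fin a → A),
      ∑ w ∈ Fintype.piFinset (fun _ : Fin q => S), φ (Fin.append x w, v) =
        ∑ s ∈ S, φ (Fin.append x (fun _ => s), v)) :
    Dq k q b a (push k (pr (tup (b + q) g) (tup a g)) φ) =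
      push k (pr (tup b g) (tup (a + 1) g)) (Dq k q b a φ) := by
  obtain ⟨S, hS⟩ : ∃ S : Finset A, ∀ z, φ z ≠ 0 → (∀ i, z.1 i ∈ S) ∧ ∀ j, z.2 j ∈ S := by
    refine ⟨φ.support.biUnion fun z => Finset.univ.image z.1 ∪ Finset.univ.image z.2,
      fun z h => ?_⟩
    refine ⟨fun i => ?_, fun j => ?_⟩
    · rw [Finset.mem_biUnion]
      exact ⟨z, Finsupp.mem_support_iff.2 h,
        Finset.mem_union_left _ (Finset.mem_image_of_mem _ (Finset.mem_univ i))⟩
    · rw [Finset.mem_biUnion]
      exact ⟨z, Finsupp.mem_support_iff.2 h,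
        Finset.mem_union_right _ (Finset.mem_image_of_mem _ (Finset.mem_univ j))⟩
  have hT : φ.support ⊆
      Fintype.piFinset (fun _ : Fin (b + q) => S) ×ˢ Fintype.piFinset (fun _ : Fin a => S) := by
    intro z hz
    rw [Finset.mem_product, Fintype.mem_piFinset, Fintype.mem_piFinset]
    exact hS z (Finsupp.mem_support_iff.1 hz)
  have hT' : (Dq k q b a φ).support ⊆
      Fintype.piFinset (fun _ : Fin b => S) ×ˢ Fintype.piFinset (fun _ : Fin (a + 1) => S) := by
    intro z hz
    rw [Finsupp.mem_support_iff, Dq_val hq] at hz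
    obtain ⟨i, -, hi⟩ := Finset.exists_ne_zero_of_sum_ne_zero hz
    have h1 : φ (iot q b a i z) ≠ 0 := fun h => hi (by rw [h, smul_zero])
    obtain ⟨h2, h3⟩ := hS _ h1
    rw [Finset.mem_product, Fintype.mem_piFinset, Fintype.mem_piFinset]
    refine ⟨fun t => ?_, fun t => ?_⟩
    · have h4 := h2 (Fin.castAdd q t)
      simp only [iot, Fin.append_left] at h4
      exact h4
    · rcases Fin.eq_self_or_eq_succAbove i t with rfl | ⟨t', rfl⟩
      · have h4 := h2 (Fin.natAdd b ⟨0, hq⟩)
        simp only [iot, Fin.append_right] at h4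
        exact h4
      · exact h3 t'
  ext ⟨x', y'⟩
  rw [Dq_val hq, push_val _ _ _ hT']
  simp only [push_val _ _ _ hT, Dq_val hq]
  rw [Finset.sum_comm]
  refine Finset.sum_congr rfl fun i _ => ?_
  rw [← Finset.smul_sum]
  congr 1
  -- the index sets
  set X := Fintype.piFinset (fun t : Fin b => S.filter fun s => g s = some (x' t)) with hX
  set V := Fintype.piFinset (fun t : Fin a => S.filter fun s => g s = some (y' (i.succAbove t)))
    with hV
  set Si := S.filter (fun s => g s = some (y' i)) with hSi
  have hL : ∑ z ∈ (Fintype.piFinset (fun _ : Fin (b + q) => S) ×ˢ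
      Fintype.piFinset (fun _ : Fin a => S)).filter
        (fun z => pr (tup (b + q) g) (tup a g) z = some (iot q b a i (x', y'))), φ z =
      ∑ u ∈ (X ×ˢ V) ×ˢ Fintype.piFinset (fun _ : Fin q => Si),
        φ (Fin.append u.1.1 u.2, u.1.2) := by
    refine (Finset.sum_nbij' (fun u => (Fin.append u.1.1 u.2, u.1.2))
      (fun z => ((fun t => z.1 (Fin.castAdd q t), z.2), fun t => z.1 (Fin.natAdd b t)))
      ?_ ?_ ?_ ?_ ?_).symm
    · rintro ⟨⟨x, v⟩, w⟩ hu
      simp only [Finset.mem_product, hX, hV, hSi, Fintype.mem_piFinset, Finset.mem_filter] at hu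
      simp only [Finset.mem_filter, Finset.mem_product, Fintype.mem_piFinset, pr_eq_some,
        tup_eq_some, iot]
      refine ⟨⟨fun t => ?_, fun t => (hu.1.2 t).1⟩, fun t => ?_, fun t => (hu.1.2 t).2⟩
      · induction t using Fin.addCases with
        | left t => rw [Fin.append_left]; exact (hu.1.1 t).1
        | right t => rw [Fin.append_right]; exact (hu.2 t).1
      · induction t using Fin.addCases with
        | left t => rw [Fin.append_left, Fin.append_left]; exact (hu.1.1 t).2
        | right t => rw [Fin.append_right, Fin.append_right]; exact (hu.2 t).2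
    · rintro ⟨x, v⟩ hz
      simp only [Finset.mem_filter, Finset.mem_product, Fintype.mem_piFinset, pr_eq_some,
        tup_eq_some, iot] at hz
      simp only [Finset.mem_product, hX, hV, hSi, Fintype.mem_piFinset, Finset.mem_filter]
      refine ⟨⟨fun t => ⟨hz.1.1 _, ?_⟩, fun t => ⟨hz.1.2 _, hz.2.2 t⟩⟩, fun t => ⟨hz.1.1 _, ?_⟩⟩
      · have h := hz.2.1 (Fin.castAdd q t)
        rw [Fin.append_left] at h
        exact h
      · have h := hz.2.1 (Fin.natAdd b t)
        rw [Fin.append_right] at h
        exact h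
    · rintro ⟨⟨x, v⟩, w⟩ _
      simp only [Fin.append_left, Fin.append_right]
    · rintro ⟨x, v⟩ _
      refine Prod.ext (funext fun t => ?_) rfl
      induction t using Fin.addCases with
      | left t => exact Fin.append_left _ _ _
      | right t => exact Fin.append_right _ _ _
    · rintro ⟨⟨x, v⟩, w⟩ _
      rfl
  have hR : ∑ z ∈ (Fintype.piFinset (fun _ : Fin b => S) ×ˢ
      Fintype.piFinset (fun _ : Fin (a + 1) => S)).filter
        (fun z => pr (tup b g) (tup (a + 1) g) z = some (x', y')), φ (iot q b a i z) =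
      ∑ u ∈ (X ×ˢ V) ×ˢ Si, φ (Fin.append u.1.1 (fun _ => u.2), u.1.2) := by
    refine (Finset.sum_nbij' (fun u => (u.1.1, i.insertNth u.2 u.1.2))
      (fun z => ((z.1, fun t => z.2 (i.succAbove t)), z.2 i)) ?_ ?_ ?_ ?_ ?_).symm
    · rintro ⟨⟨x, v⟩, w⟩ hu
      simp only [Finset.mem_product, hX, hV, hSi, Fintype.mem_piFinset, Finset.mem_filter] at hu
      simp only [Finset.mem_filter, Finset.mem_product, Fintype.mem_piFinset, pr_eq_some,
        tup_eq_some]
      refine ⟨⟨fun t => (hu.1.1 t).1, fun t => ?_⟩, fun t => (hu.1.1 t).2, fun t => ?_⟩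
      · rcases Fin.eq_self_or_eq_succAbove i t with rfl | ⟨t', rfl⟩
        · rw [Fin.insertNth_apply_same]; exact hu.2.1
        · rw [Fin.insertNth_apply_succAbove]; exact (hu.1.2 t').1
      · rcases Fin.eq_self_or_eq_succAbove i t with rfl | ⟨t', rfl⟩
        · rw [Fin.insertNth_apply_same]; exact hu.2.2
        · rw [Fin.insertNth_apply_succAbove]; exact (hu.1.2 t').2
    · rintro ⟨x, v⟩ hz
      simp only [Finset.mem_filter, Finset.mem_product, Fintype.mem_piFinset, pr_eq_some,
        tup_eq_some] at hz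
      simp only [Finset.mem_product, hX, hV, hSi, Fintype.mem_piFinset, Finset.mem_filter]
      exact ⟨⟨fun t => ⟨hz.1.1 _, hz.2.1 _⟩, fun t => ⟨hz.1.2 _, hz.2.2 _⟩⟩, hz.1.2 _, hz.2.2 _⟩
    · rintro ⟨⟨x, v⟩, w⟩ _
      simp only [Fin.insertNth_apply_same, Fin.insertNth_apply_succAbove]
    · rintro ⟨x, v⟩ _
      refine Prod.ext rfl (funext fun t => ?_)
      change (i.insertNth (v i) (fun t => v (i.succAbove t)) : Fin (a + 1) → A) t = v t
      rcases Fin.eq_self_or_eq_succAbove i t with rfl | ⟨t', rfl⟩
      · rw [Fin.insertNth_apply_same]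
      · rw [Fin.insertNth_apply_succAbove]
    · rintro ⟨⟨x, v⟩, w⟩ _
      have h1 : ∀ (c : A) (v : Fin a → A), (i.insertNth c v : Fin (a + 1) → A) i = c :=
        fun c v => Fin.insertNth_apply_same _ _ _
      have h2 : ∀ (c : A) (v : Fin a → A),
          (i.insertNth c v : Fin (a + 1) → A) ∘ i.succAbove = v :=
        fun c v => funext fun t => Fin.insertNth_apply_succAbove _ _ _ _
      simp only [iot, h1, h2]
  have e1 : ∑ u ∈ (X ×ˢ V) ×ˢ Fintype.piFinset (fun _ : Fin q => Si),
      φ (Fin.append u.1.1 u.2, u.1.2) =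
      ∑ u ∈ (X ×ˢ V) ×ˢ Si, φ (Fin.append u.1.1 (fun _ => u.2), u.1.2) := by
    rw [Finset.sum_product (s := X ×ˢ V) (t := Fintype.piFinset fun _ => Si),
      Finset.sum_product (s := X ×ˢ V) (t := Si)]
    refine Finset.sum_congr rfl ?_
    rintro ⟨x, v⟩ _
    exact hF Si x v
  rw [← hL, ← hR] at e1
  convert e1

theorem Dq_push_one {b a : ℕ} (g : A → Option A') (φ : ((Fin (b + 1) → A) × (Fin a → A)) →₀ k) :
    Dq k 1 b a (push k (pr (tup (b + 1) g) (tup a g)) φ) =
      push k (pr (tup b g) (tup (a + 1) g)) (Dq k 1 b a φ) := by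
  classical
  refine Dq_push_gen one_pos g φ fun S x v => ?_
  refine Finset.sum_nbij' (fun w => w 0) (fun s _ => s) ?_ ?_ ?_ ?_ ?_
  · intro w hw
    exact (Fintype.mem_piFinset.1 hw) 0
  · intro s hs
    exact Fintype.mem_piFinset.2 fun _ => hs
  · intro w _
    funext t
    rw [Subsingleton.elim t 0]
  · intro s _
    rfl
  · intro w _
    congr 3
    funext t
    rw [Subsingleton.elim t 0]

theorem Dq_push_p (p : ℕ) [Fact p.Prime] [CharP k p] {b a : ℕ} (g : A → Option A')
    {φ : ((Fin (b + p) → A) × (Fin a → A)) →₀ k} (hφ : φ ∈ SA k A (b + p) a) :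
    Dq k p b a (push k (pr (tup (b + p) g) (tup a g)) φ) =
      push k (pr (tup b g) (tup (a + 1) g)) (Dq k p b a φ) := by
  classical
  refine Dq_push_gen (Fact.out : p.Prime).pos g φ fun S x v => ?_
  refine sum_rot p S (fun w => φ (Fin.append x w, v)) fun w => ?_
  have h1 : Fin.append x (w ∘ finRotate p) = Fin.append x w ∘
      (finSumFinEquiv.permCongr (Equiv.sumCongr (Equiv.refl (Fin b)) (finRotate p))) := by
    funext t
    induction t using Fin.addCases with
    | left t =>
      rw [Fin.append_left]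
      change x t = Fin.append x w (finSumFinEquiv.permCongr _ (Fin.castAdd p t))
      rw [Equiv.permCongr_apply, finSumFinEquiv_symm_apply_castAdd]
      simp
    | right t =>
      rw [Fin.append_right]
      change w (finRotate p t) = Fin.append x w (finSumFinEquiv.permCongr _ (Fin.natAdd b t))
      rw [Equiv.permCongr_apply, finSumFinEquiv_symm_apply_natAdd]
      simp
  rw [h1]
  exact hφ.1 _ _ _

end BPN.E
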