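import Pool.Agent.BPN.E.KDefs
import Pool.Agent.BPN.E.DqLem
import Pool.Agent.BPN.E.DqNat

/-!
# Part (E), module K4: the sequence `Γ^(d) → Γ^(d-p) ⊗ Λ^1 → Γ^(d-2p) ⊗ Λ^2 → ..` (project BPN, helper30)

`C4 b a M = Γ^b ⊗ Λ^a` of the sphere at level `M`, differential `bd (FT 0 b a)`; characteristic `p`;
`Dq p : C4 (b+p) a → C4 b (a+1)`, kernel `Z4 p b a`, image `R4 p b a`.

PROOFS.
* `K4_ses`: `isCx_GT`, `isCx_ker`; `Dq p` commutes with `bd`: `lin_bd` and `Dq_push_p`.  The image of a complex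
  under a map commuting with the differentials is a complex; surjectivity by definition of `R4`.
* `K4_R`: `≤`: `Dq_mem`, `Dq_support`, `Dq_comp`.  `≥`: `Dq_exact` with `O` = everything; `hc` is void (the tuple
  `y` has positive length, so its entries satisfy `O`).
* `K4_R0`: `Dq_mem`, `Dq_support`; `Dq_exact_small` with `O` = everything.
-/

namespace BPN.E

variable (k : Type) [Field k] (p : ℕ) [Fact p.Prime] [CharP k p]

omit [Fact p.Prime] [CharP k p] in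
/-- The operator maps `C4` to `C4`. -/
private theorem k4_mem (hp : 0 < p) {b a : ℕ} {M : ℕ∞} {e : ℤ} {φ : TT (b + p) a →₀ k}
    (hφ : φ ∈ C4 k (b + p) a M e) : Dq k p b a φ ∈ C4 k b (a + 1) M e := by
  refine ⟨Dq_mem hp hφ.1, (Finsupp.mem_supported k _).2 ?_⟩
  intro z hz
  obtain ⟨i, hi⟩ := Dq_support hp (Finsupp.mem_support_iff.1 (Finset.mem_coe.1 hz))
  have h1 := (Finsupp.mem_supported k φ).1 hφ.2
    (Finset.mem_coe.2 (Finsupp.mem_support_iff.2 hi))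
  obtain ⟨h2, h3⟩ := h1
  refine ⟨fun t => ?_, fun t => ?_⟩
  · have h4 := h2 (Fin.castAdd p t)
    simp only [iot, Fin.append_left] at h4
    exact h4
  · rcases Fin.eq_self_or_eq_succAbove i t with rfl | ⟨t', rfl⟩
    · have h4 := h2 (Fin.natAdd b ⟨0, hp⟩)
      simp only [iot, Fin.append_right] at h4
      exact h4
    · exact h3 t'

omit [Fact p.Prime] [CharP k p] in
/-- A function whose entries occur in a function of `C4` is in `C4`. -/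
private theorem k4_sub {b a b' a' : ℕ} {M : ℕ∞} {e : ℤ} {φ : TT b a →₀ k}
    (hφ : φ ∈ C4 k b a M e) {ψ : TT b' a' →₀ k} (hψ : ψ ∈ SA k Sj b' a')
    (h : ∀ x y, ψ (x, y) ≠ 0 → ∃ x' y', φ (x', y') ≠ 0 ∧
      ∀ s, ((∃ i, x i = s) ∨ ∃ j, y j = s) ↔ ((∃ i, x' i = s) ∨ ∃ j, y' j = s)) :
    ψ ∈ C4 k b' a' M e := by
  refine ⟨hψ, (Finsupp.mem_supported k _).2 ?_⟩
  rintro ⟨x, y⟩ hz
  obtain ⟨x', y', h1, h2⟩ := h x y (Finsupp.mem_support_iff.1 (Finset.mem_coe.1 hz))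
  obtain ⟨h3, h4⟩ := (Finsupp.mem_supported k φ).1 hφ.2
    (Finset.mem_coe.2 (Finsupp.mem_support_iff.2 h1))
  have h5 : ∀ s, ((∃ i, x i = s) ∨ ∃ j, y j = s) → exc s = e ∧ Lv M s := by
    intro s hs
    rcases (h2 s).1 hs with ⟨i, rfl⟩ | ⟨j, rfl⟩
    · exact h3 i
    · exact h4 j
  exact ⟨fun i => h5 _ (Or.inl ⟨i, rfl⟩), fun j => h5 _ (Or.inr ⟨j, rfl⟩)⟩

omit [Fact p.Prime] [CharP k p] in
private theorem k4_cx {b a : ℕ} (h : 0 < b + a) (M : ℕ∞) :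
    IsCx (bd k (FT 0 b a)) (C4 k b a M) :=
  isCx_GT k h (fun _ _ _ h1 h2 => Lv_fa h1 h2) (fun _ _ _ h1 h2 => Lv_fa h1 h2)

private theorem k4_comm (b a : ℕ) (M : ℕ∞) (e : ℤ) (φ : TT (b + p) a →₀ k)
    (hφ : φ ∈ C4 k (b + p) a M e) :
    Dq k p b a (bd k (FT 0 (b + p) a) φ) = bd k (FT 0 b (a + 1)) (Dq k p b a φ) := by
  have hp : 0 < p := (Fact.out : p.Prime).pos
  refine lin_bd (P := Set.univ) (P' := Set.univ)
    ⟨fun z _ => LFz_FT (by omega) z, fun _ _ _ _ _ => trivial⟩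
    ⟨fun z _ => LFz_FT (by omega) z, fun _ _ _ _ _ => trivial⟩ (Dq k p b a) ?_ ?_ ?_
  · rw [Finsupp.mem_supported]
    exact Set.subset_univ _
  · rw [Finsupp.mem_supported]
    exact Set.subset_univ _
  · intro i
    exact Dq_push_p p (fa 0 i) hφ.1

theorem K4_ses (b a : ℕ) (M : ℕ∞) : SES (bd k (FT 0 (b + p) a)) (Z4 k p b a M)
    (bd k (FT 0 (b + p) a)) (C4 k (b + p) a M) (bd k (FT 0 b (a + 1))) (R4 k p b a M)
    LinearMap.id (Dq k p b a) := by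
  have hp : 0 < p := (Fact.out : p.Prime).pos
  have hc2 : IsCx (bd k (FT 0 (b + p) a)) (C4 k (b + p) a M) := k4_cx k (by omega) M
  refine ⟨?_, hc2, ⟨?_, ?_⟩, fun e x hx => hx.1, fun e y hy => ⟨y, hy, rfl⟩, fun e x _ => rfl,
    fun e y hy => (k4_comm k p b a M e y hy).symm, fun e x _ h => h, fun e x hx => hx.2,
    fun e y hy h => ⟨y, ⟨hy, h⟩, rfl⟩, fun e z hz => hz⟩
  · exact isCx_ker hc2 (Dq k p b a) (d' := bd k (FT 0 b (a + 1)))
      (fun e x hx => k4_comm k p b a M e x hx)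
  · rintro e _ ⟨x, hx, rfl⟩
    refine ⟨bd k (FT 0 (b + p) a) x, hc2.dG e x hx, ?_⟩
    exact k4_comm k p b a M e x hx
  · rintro e _ ⟨x, hx, rfl⟩
    rw [← k4_comm k p b a M e x hx, ← k4_comm k p b a M (e - 1) _ (hc2.dG e x hx), hc2.dd e x hx,
      map_zero]

theorem K4_R (b a : ℕ) (M : ℕ∞) (e : ℤ) : R4 k p (b + p) a M e = Z4 k p b (a + 1) M e := by
  have hp : 0 < p := (Fact.out : p.Prime).pos
  apply le_antisymm
  · rintro _ ⟨φ, hφ, rfl⟩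
    exact ⟨k4_mem k p hp hφ, Dq_comp hp hφ.1⟩
  · rintro φ ⟨hφ, hD⟩
    obtain ⟨ψ, h1, h2, h3⟩ := Dq_exact hp (fun _ => True) hφ.1 (fun _ _ _ _ => trivial)
      (fun x y h _ => absurd trivial (h 0)) hD
    exact ⟨ψ, k4_sub k hφ h1 (fun x y h => (h3 x y h).2), h2⟩

theorem K4_R0 {b : ℕ} (hb : b < p) (a : ℕ) (M : ℕ∞) (e : ℤ) :
    R4 k p b a M e = C4 k b (a + 1) M e := by
  have hp : 0 < p := (Fact.out : p.Prime).pos
  apply le_antisymm
  · rintro _ ⟨φ, hφ, rfl⟩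
    exact k4_mem k p hp hφ
  · intro φ hφ
    obtain ⟨ψ, h1, h2, h3⟩ := Dq_exact_small (fun _ => True) hb hφ.1 (fun _ _ _ _ => trivial)
      (fun x y h => absurd trivial (h 0))
    exact ⟨ψ, k4_sub k hφ h1 (fun x y h => (h3 x y h).2), h2⟩

end BPN.E
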