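import Pool.Agent.BPN.E.KDefs
import Pool.Agent.BPN.E.DqLem

/-!
# Part (E), module Nu: the norm map from `S_p^d` to `Γ^d` (project BPN, architect helper30)

`nu d : δ_X ↦ fac X • ∑_{x : tuple with multiset X} δ_x`, `fac X` the product of the factorials of the
multiplicities (definitions in `Pool/Agent/BPN/E/KDefs.lean`).  `fac X • ∑ = ∑_{σ ∈ Perm (Fin d)} δ_(x ∘ σ)`
for any tuple `x` with multiset `X`: each tuple with multiset `X` is `x ∘ σ` for exactly `fac X`
permutations `σ` (orbit-stabiliser, the stabiliser of `x` is the product of the symmetric groups of the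
fibres).

PROOFS.
* `nu_apply`: `nu d φ (x, y) = fac (multiset of x) * φ (multiset of x)`.
* `nu_mem`: the value is symmetric in `x`; excess and level of the entries.
* `nu_bd`: it is enough that `nu d (push (FR p i) φ) = push (FT 0 d 0 i) (nu d φ)` (`lin_bd`), for
  `φ = δ_X`, `card X = d`, all multiplicities `< p`.  Let `x` be a tuple with multiset `X`; by the formula
  with permutations the right side is `∑_σ δ_(g x ∘ σ)` with `g = fa 0 i` if all `g (x j)` are defined,
  and `0` otherwise; and this is `fac (g X) • ∑_{tuples with multiset g X}`, which is `nu (δ_(g X))` if all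
  multiplicities of `g X` are `< p`, and `0` in characteristic `p` if some multiplicity is `≥ p`.
  The formula with permutations: `nu_perm`.
* `nu_inj`: `fac X` is invertible in `k` if all multiplicities are `< p` (`Nat.Prime.dvd_factorial`).
* `nu_sur` (`d < p`): given `φ ∈ Ga`, put `ψ X = (fac X)⁻¹ φ (x)` for a tuple `x` with multiset `X` (all
  multiplicities are `≤ d < p`).
* `nu_ker`: `φ ∈ Ga k (b+p) m e` is in the image of `nu` iff `φ (x) = 0` for all tuples `x` with an entry of
  multiplicity `≥ p`; by symmetry this is `φ (x' ⊔ y^p) = 0` for all `x'`, `y`, i.e. `Dq k p b 0 φ = 0`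
  (`Dq_apply`).
-/

namespace BPN.E

/-! ### Tuples and multisets -/

/-- The multiset of the entries of a tuple. -/
private abbrev mv {A : Type} {n : ℕ} (x : Fin n → A) : Multiset A :=
  Multiset.map x (Finset.univ : Finset (Fin n)).val

private theorem mem_mv {A : Type} {n : ℕ} {x : Fin n → A} {s : A} :
    s ∈ mv x ↔ ∃ i, x i = s := by
  simp [mv]

private theorem card_mv {A : Type} {n : ℕ} (x : Fin n → A) : Multiset.card (mv x) = n := by
  simp [mv]

private theorem mv_append {A : Type} {n q : ℕ} (x : Fin n → A) (s : A) :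
    mv (Fin.append x fun _ : Fin q => s) = mv x + Multiset.replicate q s := by
  rw [mv, mv, Fin.univ_val_map, Fin.univ_val_map, List.ofFn_fin_append, List.ofFn_const]
  rfl

private theorem mv_comp {A : Type} {n : ℕ} (x : Fin n → A) (σ : Equiv.Perm (Fin n)) :
    mv (x ∘ σ) = mv x := by
  rw [mv, ← Multiset.map_map, Multiset.map_univ_val_equiv]

private theorem exists_mv {A : Type} {n : ℕ} {X : Multiset A} (h : Multiset.card X = n) :
    ∃ x : Fin n → A, mv x = X := by
  subst h
  induction X using Quot.inductionOn with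
  | h l =>
    refine ⟨fun i => l.get i, ?_⟩
    rw [mv, Fin.univ_val_map]
    exact congrArg _ (List.ofFn_get l)

open Classical in
private theorem count_mv {A : Type} {n : ℕ} (x : Fin n → A) (s : A) :
    (mv x).count s = (Finset.univ.filter fun i => x i = s).card := by
  rw [mv, Multiset.count_map, Finset.card_def, Finset.filter_val]
  congr 1
  exact Multiset.filter_congr fun i _ => eq_comm

private theorem mv_eq {A : Type} {n : ℕ} {x x' : Fin n → A} (h : mv x = mv x') :
    ∃ σ : Equiv.Perm (Fin n), x = x' ∘ σ := by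
  classical
  have hc : ∀ s, Nonempty ({i // x i = s} ≃ {i // x' i = s}) := by
    intro s
    refine Fintype.card_eq.1 ?_
    rw [Fintype.card_subtype, Fintype.card_subtype, ← count_mv, ← count_mv, h]
  exact ⟨Equiv.ofFiberEquiv (f := x) (g := x') fun s => (hc s).some,
    funext fun i => (Equiv.ofFiberEquiv_map _ i).symm⟩

open Classical in
private theorem card_stab {A : Type} {n : ℕ} (x : Fin n → A) :
    (Finset.univ.filter fun σ : Equiv.Perm (Fin n) => x ∘ σ = x).card = fac (mv x) := by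
  rw [← Fintype.card_subtype]
  refine (DomMulAct.stabilizer_card' x).trans ?_
  have h1 : (Finset.univ.image x : Finset A) = (mv x).toFinset := by
    ext s
    rw [Multiset.mem_toFinset, mem_mv, Finset.mem_image]
    simp
  rw [h1]
  refine Finset.prod_congr rfl fun s _ => ?_
  rw [count_mv, Fintype.card_subtype]

open Classical in
private theorem card_perm {A : Type} {n : ℕ} {x x' : Fin n → A} (h : mv x' = mv x) :
    (Finset.univ.filter fun σ : Equiv.Perm (Fin n) => x ∘ σ = x').card = fac (mv x) := by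
  obtain ⟨τ, rfl⟩ := mv_eq h
  rw [← card_stab]
  refine Finset.card_bij (fun σ _ => σ * τ⁻¹) ?_ ?_ ?_
  · intro σ hσ
    rw [Finset.mem_filter] at hσ ⊢
    refine ⟨Finset.mem_univ _, ?_⟩
    funext i
    have h1 := congrFun hσ.2 (τ⁻¹ i)
    simpa using h1
  · intro σ _ σ' _ h1
    exact mul_right_cancel h1
  · intro σ hσ
    rw [Finset.mem_filter] at hσ
    refine ⟨σ * τ, ?_, ?_⟩
    · rw [Finset.mem_filter]
      refine ⟨Finset.mem_univ _, ?_⟩
      funext i
      exact congrFun hσ.2 (τ i)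
    · rw [mul_assoc, mul_inv_cancel, mul_one]

theorem tuplesOf_finite {A : Type} (d : ℕ) (X : Multiset A) : (tuplesOf d X).Finite := by
  classical
  refine Set.Finite.subset
    (Set.Finite.pi' fun _ : Fin d => (X.toFinset : Finset A).finite_toSet) ?_
  intro x hx i
  have h : Multiset.map x Finset.univ.val = X := hx
  rw [Finset.mem_coe, Multiset.mem_toFinset, ← h]
  exact Multiset.mem_map_of_mem x (Finset.mem_univ i)

private theorem nu_single (k : Type) [Field k] {d : ℕ} (X : Multiset Sj) (c : k) :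
    nu k d (Finsupp.single X c) = ∑ x ∈ (tuplesOf_finite d X).toFinset,
      (fac X : k) • Finsupp.single (x, Fin.elim0) c := by
  unfold nu
  rw [Finsupp.lsum_single, dif_pos (tuplesOf_finite d X), LinearMap.sum_apply]
  rfl

private theorem nu_app (k : Type) [Field k] {d : ℕ} (φ : Multiset Sj →₀ k) (x : Fin d → Sj)
    (y : Fin 0 → Sj) : nu k d φ (x, y) = (fac (mv x) : k) * φ (mv x) := by
  classical
  have hy : y = Fin.elim0 := Subsingleton.elim _ _
  subst hy
  induction φ using Finsupp.induction_linear with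
  | zero => rw [map_zero, Finsupp.zero_apply, Finsupp.zero_apply, mul_zero]
  | add φ ψ h1 h2 => rw [map_add, Finsupp.add_apply, h1, h2, Finsupp.add_apply, mul_add]
  | single X c =>
    rw [nu_single, Finsupp.finsetSum_apply]
    by_cases hX : mv x = X
    · subst hX
      rw [Finset.sum_eq_single x]
      · rw [Finsupp.smul_apply, Finsupp.single_eq_same, Finsupp.single_eq_same, smul_eq_mul]
      · intro x' _ hne
        rw [Finsupp.smul_apply, Finsupp.single_eq_of_ne, smul_zero]
        intro h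
        exact hne (Prod.mk.inj h).1.symm
      · intro h
        refine absurd ?_ h
        rw [Set.Finite.mem_toFinset]
        rfl
    · rw [Finsupp.single_eq_of_ne hX, mul_zero]
      refine Finset.sum_eq_zero fun x' hx' => ?_
      rw [Set.Finite.mem_toFinset] at hx'
      have h1 : mv x' = X := hx'
      rw [Finsupp.smul_apply, Finsupp.single_eq_of_ne, smul_zero]
      intro h
      have h2 : x = x' := (Prod.mk.inj h).1
      exact hX (by rw [h2, h1])

open Classical in
theorem nu_perm (k : Type) [Field k] {d : ℕ} (x : Fin d → Sj) :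
    nu k d (Finsupp.single (Multiset.map x Finset.univ.val) 1) =
      ∑ σ : Equiv.Perm (Fin d), Finsupp.single (x ∘ σ, Fin.elim0) 1 := by
  refine Finsupp.ext fun z => ?_
  obtain ⟨x', y⟩ := z
  have hy : y = Fin.elim0 := Subsingleton.elim _ _
  subst hy
  rw [nu_app, Finsupp.finsetSum_apply]
  have h0 : ∀ σ : Equiv.Perm (Fin d),
      (Finsupp.single (x ∘ σ, (Fin.elim0 : Fin 0 → Sj)) (1 : k)) (x', Fin.elim0) =
        if x ∘ σ = x' then 1 else 0 := by
    intro σ
    by_cases h : x ∘ σ = x'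
    · rw [if_pos h, h, Finsupp.single_eq_same]
    · rw [if_neg h, Finsupp.single_eq_of_ne]
      intro h1
      exact h (Prod.mk.inj h1).1.symm
  rw [Finset.sum_congr rfl fun σ _ => h0 σ, ← Finset.sum_filter, Finset.sum_const, nsmul_one]
  by_cases h : mv x' = mv x
  · rw [card_perm h, h, Finsupp.single_eq_same, mul_one]
  · rw [Finsupp.single_eq_of_ne h, mul_zero, Finset.filter_eq_empty_iff.2, Finset.card_empty,
      Nat.cast_zero]
    intro σ _ h1
    exact h (by rw [← h1, mv_comp])

variable (k : Type) [Field k]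

theorem nu_apply {d : ℕ} (φ : Multiset Sj →₀ k) (x : Fin d → Sj) (y : Fin 0 → Sj) :
    nu k d φ (x, y) = (fac (Multiset.map x Finset.univ.val) : k) *
      φ (Multiset.map x Finset.univ.val) := by
  exact nu_app k φ x y

variable (p : ℕ) [Fact p.Prime] [CharP k p]

open Classical in
private theorem mem_Tr {k : Type} [Field k] {p : ℕ} {d : ℕ} {m : ℕ∞} {e : ℤ}
    {φ : Multiset Sj →₀ k} : φ ∈ Tr k p d m e ↔ ∀ X, φ X ≠ 0 → Multiset.card X = d ∧
      (∀ s, X.count s < p) ∧ ∀ s ∈ X, exc s = e ∧ Lv m s := by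
  unfold Tr
  rw [Finsupp.mem_supported]
  constructor
  · intro h X hX
    exact h (Finset.mem_coe.2 (Finsupp.mem_support_iff.2 hX))
  · intro h X hX
    exact h X (Finsupp.mem_support_iff.1 (Finset.mem_coe.1 hX))

private theorem mem_Ga {k : Type} [Field k] {d : ℕ} {m : ℕ∞} {e : ℤ} {φ : TT d 0 →₀ k} :
    φ ∈ Ga k d m e ↔ (∀ (σ : Equiv.Perm (Fin d)) x y, φ (x ∘ σ, y) = φ (x, y)) ∧
      ∀ x y, φ (x, y) ≠ 0 → ∀ i, exc (x i) = e ∧ Lv m (x i) := by
  constructor
  · rintro ⟨⟨h1, -, -⟩, h2⟩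
    refine ⟨h1, fun x y hx i => ?_⟩
    have h3 := (Finsupp.mem_supported k φ).1 h2 (Finset.mem_coe.2 (Finsupp.mem_support_iff.2 hx))
    exact h3.1 i
  · rintro ⟨h1, h2⟩
    refine ⟨⟨h1, fun σ x y => ?_, fun x y i => i.elim0⟩, ?_⟩
    · have h3 : σ = 1 := Subsingleton.elim _ _
      have h4 : y ∘ σ = y := Subsingleton.elim _ _
      rw [h4, h3]
      simp
    · refine (Finsupp.mem_supported k φ).2 ?_
      rintro ⟨x, y⟩ hz
      exact ⟨h2 x y (Finsupp.mem_support_iff.1 (Finset.mem_coe.1 hz)), fun j => j.elim0⟩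

theorem nu_mem {d : ℕ} {m : ℕ∞} {e : ℤ} {φ : Multiset Sj →₀ k} (hφ : φ ∈ Tr k p d m e) :
    nu k d φ ∈ Ga k d m e := by
  rw [mem_Ga]
  refine ⟨fun σ x y => ?_, fun x y h i => ?_⟩
  · rw [nu_app, nu_app, mv_comp]
  · rw [nu_app] at h
    exact ((mem_Tr.1 hφ) _ (right_ne_zero_of_mul h)).2.2 _ (mem_mv.2 ⟨i, rfl⟩)

open Classical in
private theorem fac_zero {X : Multiset Sj} (h : ∃ s, p ≤ X.count s) : (fac X : k) = 0 := by
  obtain ⟨s, hs⟩ := h
  have hp : p.Prime := Fact.out
  rw [CharP.cast_eq_zero_iff k p]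
  unfold fac
  have h1 : s ∈ X.toFinset := by
    rw [Multiset.mem_toFinset, ← Multiset.count_pos]
    exact lt_of_lt_of_le hp.pos hs
  exact ((hp.dvd_factorial).2 hs).trans (Finset.dvd_prod_of_mem _ h1)

open Classical in
private theorem fac_ne {X : Multiset Sj} (h : ∀ s, X.count s < p) : (fac X : k) ≠ 0 := by
  have hp : p.Prime := Fact.out
  rw [Ne, CharP.cast_eq_zero_iff k p]
  unfold fac
  intro h1
  obtain ⟨s, -, hs⟩ := (hp.prime.dvd_finsetProd_iff _).1 h1
  exact absurd ((hp.dvd_factorial).1 hs) (not_le.2 (h s))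

private theorem filterMap_some {A A' : Type} {g : A → Option A'} {h : A → A'} (X : Multiset A)
    (hX : ∀ a ∈ X, g a = some (h a)) : X.filterMap g = X.map h := by
  induction X using Multiset.induction_on with
  | empty => simp
  | cons a X ih =>
    rw [Multiset.filterMap_cons_some g a X (hX a (Multiset.mem_cons_self a X)), Multiset.map_cons,
      ih fun b hb => hX b (Multiset.mem_cons_of_mem hb)]

private theorem ms_mv {A A' : Type} {n : ℕ} {g : A → Option A'} {x : Fin n → A} {y : Fin n → A'}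
    (h : tup n g x = some y) : ms g (mv x) = some (mv y) := by
  rw [tup_eq_some] at h
  rw [ms_eq_some]
  refine ⟨?_, ?_⟩
  · intro a ha
    obtain ⟨i, rfl⟩ := mem_mv.1 ha
    rw [h i]
    rfl
  · rw [mv, mv, Multiset.filterMap_map]
    exact (filterMap_some _ fun i _ => h i).symm

private theorem tup_comp {A A' : Type} {n : ℕ} {g : A → Option A'} {x : Fin n → A}
    {y : Fin n → A'} (h : tup n g x = some y) (σ : Equiv.Perm (Fin n)) :
    tup n g (x ∘ σ) = some (y ∘ σ) := by
  rw [tup_eq_some] at h ⊢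
  exact fun i => h (σ i)

open Classical in
private theorem nu_push {d : ℕ} (x : Fin d → Sj) (i : ℕ) :
    nu k d (push k (FR p i) (Finsupp.single (mv x) 1)) =
      push k (FT 0 d 0 i) (nu k d (Finsupp.single (mv x) 1)) := by
  rw [nu_perm, map_sum, push_single]
  simp only [push_single]
  have he : tup 0 (fa 0 i) (Fin.elim0 : Fin 0 → Sj) = some Fin.elim0 :=
    tup_eq_some.2 fun j => j.elim0
  cases h : tup d (fa 0 i) x with
  | none =>
    obtain ⟨j, hj⟩ := tup_eq_none.1 h
    have h1 : FR p i (mv x) = none := by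
      unfold FR
      rw [ms_eq_none.2 ⟨x j, mem_mv.2 ⟨j, rfl⟩, hj⟩]
      rfl
    rw [h1]
    refine (map_zero (nu k d)).trans (Finset.sum_eq_zero fun σ _ => ?_).symm
    have h2 : FT 0 d 0 i (x ∘ σ, Fin.elim0) = none := by
      refine pr_eq_none.2 (Or.inl (tup_eq_none.2 ⟨σ.symm j, ?_⟩))
      show fa 0 i (x (σ (σ.symm j))) = none
      rw [Equiv.apply_symm_apply]
      exact hj
    rw [h2]
    rfl
  | some y =>
    have h2 : ∀ σ : Equiv.Perm (Fin d), FT 0 d 0 i (x ∘ σ, Fin.elim0) =
        some (y ∘ σ, Fin.elim0) := fun σ => pr_eq_some.2 ⟨tup_comp h σ, he⟩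
    have h3 : (∑ σ : Equiv.Perm (Fin d), (FT 0 d 0 i (x ∘ σ, Fin.elim0)).elim 0
        fun z' => Finsupp.single z' (1 : k)) = nu k d (Finsupp.single (mv y) 1) := by
      rw [nu_perm]
      exact Finset.sum_congr rfl fun σ _ => by rw [h2 σ]; rfl
    rw [h3]
    by_cases hc : ∀ s, (mv y).count s < p
    · have h1 : FR p i (mv x) = some (mv y) := by
        unfold FR
        rw [ms_mv h]
        exact if_pos hc
      rw [h1]
      rfl
    · have h1 : FR p i (mv x) = none := by
        unfold FR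
        rw [ms_mv h]
        exact if_neg hc
      rw [h1]
      refine (map_zero (nu k d)).trans ?_
      refine Finsupp.ext fun z => ?_
      obtain ⟨x', y'⟩ := z
      rw [nu_app, Finsupp.zero_apply]
      by_cases h4 : mv x' = mv y
      · push Not at hc
        rw [h4, fac_zero k p hc, zero_mul]
      · rw [Finsupp.single_eq_of_ne h4, mul_zero]

theorem nu_bd {d : ℕ} (hd : 0 < d) {m : ℕ∞} {e : ℤ} {φ : Multiset Sj →₀ k}
    (hφ : φ ∈ Tr k p d m e) : bd k (FT 0 d 0) (nu k d φ) = nu k d (bd k (FR p) φ) := by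
  have hφ' := mem_Tr.1 hφ
  refine (lin_bd (P := {x : Multiset Sj | Multiset.card x = d}) (P' := Set.univ) (LFP_FR hd)
    ⟨fun z _ => LFz_FT (c := 0) (b := d) (a := 0) (by omega) z, fun _ _ _ _ _ => trivial⟩
    (nu k d) ?_ ?_ fun i => ?_).symm
  · rw [Finsupp.mem_supported]
    intro X hX
    exact (hφ' X (Finsupp.mem_support_iff.1 (Finset.mem_coe.1 hX))).1
  · rw [Finsupp.mem_supported]
    exact Set.subset_univ _
  · have h1 : φ = ∑ X ∈ φ.support, φ X • Finsupp.single X (1 : k) := by
      conv_lhs => rw [← φ.sum_single]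
      refine Finset.sum_congr rfl fun X _ => ?_
      rw [Finsupp.smul_single, smul_eq_mul, mul_one]
    rw [h1, map_sum, map_sum, map_sum, map_sum]
    refine Finset.sum_congr rfl fun X hX => ?_
    rw [map_smul, map_smul, map_smul, map_smul]
    obtain ⟨x, rfl⟩ := exists_mv (hφ' X (Finsupp.mem_support_iff.1 hX)).1
    rw [nu_push]

theorem nu_inj {d : ℕ} {m : ℕ∞} {e : ℤ} {φ : Multiset Sj →₀ k} (hφ : φ ∈ Tr k p d m e)
    (h : nu k d φ = 0) : φ = 0 := by
  refine Finsupp.ext fun X => ?_
  by_contra h1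
  rw [Finsupp.zero_apply] at h1
  obtain ⟨h2, h3, -⟩ := mem_Tr.1 hφ X h1
  obtain ⟨x, rfl⟩ := exists_mv h2
  have h4 := DFunLike.congr_fun h (x, Fin.elim0)
  rw [nu_app, Finsupp.zero_apply] at h4
  exact (mul_ne_zero (fac_ne k p h3) h1) h4

open Classical in
private theorem nu_lift {d : ℕ} {m : ℕ∞} {e : ℤ} {φ : TT d 0 →₀ k} (hφ : φ ∈ Ga k d m e)
    (hc : ∀ x y, φ (x, y) ≠ 0 → ∀ s, (mv x).count s < p) :
    ∃ ψ ∈ Tr k p d m e, nu k d ψ = φ := by
  obtain ⟨h1, h2⟩ := mem_Ga.1 hφ
  obtain ⟨F, hF⟩ : ∃ F : Multiset Sj → k, ∀ x : Fin d → Sj,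
      F (mv x) = (fac (mv x) : k)⁻¹ * φ (x, Fin.elim0) ∧ ∀ X, Multiset.card X ≠ d → F X = 0 := by
    refine ⟨fun X => if h : ∃ x : Fin d → Sj, mv x = X then
      (fac X : k)⁻¹ * φ (h.choose, Fin.elim0) else 0, fun x => ⟨?_, fun X hX => ?_⟩⟩
    · have h : ∃ x' : Fin d → Sj, mv x' = mv x := ⟨x, rfl⟩
      show (if h : ∃ x' : Fin d → Sj, mv x' = mv x then
        (fac (mv x) : k)⁻¹ * φ (h.choose, Fin.elim0) else 0) = _
      rw [dif_pos h]
      obtain ⟨σ, hσ⟩ := mv_eq h.choose_spec
      rw [hσ, h1]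
    · show (if h : ∃ x' : Fin d → Sj, mv x' = X then
        (fac X : k)⁻¹ * φ (h.choose, Fin.elim0) else 0) = _
      rw [dif_neg]
      rintro ⟨x, rfl⟩
      exact hX (card_mv x)
  have hF0 : ∀ X, F X ≠ 0 → ∃ x : Fin d → Sj, mv x = X ∧ φ (x, Fin.elim0) ≠ 0 := by
    intro X hX
    by_cases hX' : Multiset.card X = d
    · obtain ⟨x, rfl⟩ := exists_mv hX'
      rw [(hF x).1] at hX
      exact ⟨x, rfl, right_ne_zero_of_mul hX⟩
    · by_cases hd : Nonempty (Fin d → Sj)
      · obtain ⟨x⟩ := hd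
        exact absurd ((hF x).2 X hX') hX
      · exfalso
        obtain ⟨x, -⟩ := exists_mv (A := Sj) (n := d)
          (X := Multiset.replicate d ⟨id, by
            refine ⟨monotone_id, Function.surjective_id, 0, 0, fun i _ => by simp⟩⟩) (by simp)
        exact hd ⟨x⟩
  refine ⟨Finsupp.onFinset (φ.support.image fun z => mv z.1) F fun X hX => ?_, ?_, ?_⟩
  · obtain ⟨x, rfl, hx⟩ := hF0 X hX
    exact Finset.mem_image.2 ⟨(x, Fin.elim0), Finsupp.mem_support_iff.2 hx, rfl⟩
  · rw [mem_Tr]
    intro X hX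
    rw [Finsupp.onFinset_apply] at hX
    obtain ⟨x, rfl, hx⟩ := hF0 X hX
    refine ⟨card_mv x, hc x _ hx, fun s hs => ?_⟩
    obtain ⟨i, rfl⟩ := mem_mv.1 hs
    exact h2 x _ hx i
  · refine Finsupp.ext fun z => ?_
    obtain ⟨x, y⟩ := z
    have hy : y = Fin.elim0 := Subsingleton.elim _ _
    subst hy
    rw [nu_app, Finsupp.onFinset_apply, (hF x).1]
    by_cases hx : φ (x, Fin.elim0) = 0
    · rw [hx, mul_zero, mul_zero]
    · rw [mul_inv_cancel_left₀ (fac_ne k p (hc x _ hx))]

theorem nu_sur {d : ℕ} (hd : d < p) {m : ℕ∞} {e : ℤ} {φ : TT d 0 →₀ k} (hφ : φ ∈ Ga k d m e) :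
    ∃ ψ ∈ Tr k p d m e, nu k d ψ = φ := by
  classical
  refine nu_lift k p hφ fun x y _ s => ?_
  have h1 := Multiset.count_le_card s (mv x)
  rw [card_mv] at h1
  have h2 : Multiset.count s (mv x) < p := h1.trans_lt hd
  convert h2

theorem nu_ker {b : ℕ} {m : ℕ∞} {e : ℤ} {φ : TT (b + p) 0 →₀ k} (hφ : φ ∈ Ga k (b + p) m e) :
    (∃ ψ ∈ Tr k p (b + p) m e, nu k (b + p) ψ = φ) ↔ Dq k p b 0 φ = 0 := by
  classical
  have hp : p.Prime := Fact.out
  have hD : ∀ (x : Fin b → Sj) (y : Fin 1 → Sj), Dq k p b 0 φ (x, y) =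
      φ (Fin.append x fun _ => y 0, Fin.elim0) := by
    intro x y
    rw [Dq_apply hp.pos]
    rw [Fin.sum_univ_one]
    have h1 : (-1 : ℤ) ^ ((0 : Fin (0 + 1)) : ℕ) = 1 := by simp
    rw [h1, one_smul]
    refine congrArg φ (Prod.ext rfl (Subsingleton.elim _ _))
  constructor
  · rintro ⟨ψ, hψ, rfl⟩
    refine Finsupp.ext fun z => ?_
    obtain ⟨x, y⟩ := z
    rw [hD, nu_app, Finsupp.zero_apply]
    by_contra h
    have h1 := (mem_Tr.1 hψ _ (right_ne_zero_of_mul h)).2.1 (y 0)
    have h2 : mv (Fin.append x fun _ : Fin p => y 0) = mv x + Multiset.replicate p (y 0) :=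
      mv_append x (y 0)
    rw [h2, Multiset.count_add, Multiset.count_replicate_self] at h1
    omega
  · intro h
    refine nu_lift k p hφ fun x y hx s => ?_
    by_contra hs
    rw [not_lt] at hs
    have h1 : Multiset.replicate p s ≤ mv x := Multiset.le_count_iff_replicate_le.1 hs
    obtain ⟨X', hX'⟩ := Multiset.le_iff_exists_add.1 h1
    have h2 : Multiset.card X' = b := by
      have h3 := card_mv x
      rw [hX', Multiset.card_add, Multiset.card_replicate] at h3
      omega
    obtain ⟨x', rfl⟩ := exists_mv h2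
    have h4 : mv x = mv (Fin.append x' fun _ : Fin p => s) := by
      rw [hX', mv_append, add_comm]
    obtain ⟨σ, hσ⟩ := mv_eq h4
    have h5 := DFunLike.congr_fun h (x', fun _ => s)
    rw [hD, Finsupp.zero_apply] at h5
    have hy : y = Fin.elim0 := Subsingleton.elim _ _
    rw [hσ, hy, (mem_Ga.1 hφ).1] at hx
    exact hx h5

end BPN.E
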