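import Pool.Agent.BPN.E.K1H
import Pool.Agent.BPN.E.K2H
import Pool.Agent.BPN.E.K3
import Pool.Agent.BPN.E.K4
import Pool.Agent.BPN.E.Nu
import Pool.Agent.BPN.E.Base

/-!
# Part (E), module PInj: stable injectivity for `Γ^p` at level `2 c` (project BPN, architect helper30)

THEOREM `Ga_inj`: a cycle of `Γ^p` of the sphere at level `2c` in excess `2c(p-1)` which is a boundary
stably (level `⊤`) is a boundary at level `2c`.

PROOF.  Induction on `c`.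
`c = 0`: `z ∈ Ga k p 0 0`, excess `0`, so `z = γ δ_(id,..,id)`; suppose `z = bd w`, `w ∈ Ga k p ⊤ 1`.  Apply
`Dq k p 0 0` (`b = 0`, note `0 + p` versus `p`: use `Nat.zero_add`/a cast, or state the lemmas for
`FT 0 (0 + p) 0`): `Dq z = γ δ_(;id)` and `Dq z = bd (Dq w)` (`lin_bd`, `Dq_push_p`), `Dq w ∈ La k 1 ⊤ 1`, and
`bd = 0` on `La k 1 ⊤ 1` (`La_one_bd0`), so `γ = 0`, `z = 0 = bd 0`.
`c → c + 1`: `e = 2c(p-1)`.  `InjP (Ga k p (2c)) (Ga k p ⊤) e` gives `InjP (La k p (2c+1)) (La k p ⊤) (e + (p-1))`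
(`K2_Inj`, `⊤ + 1 = ⊤`), then `InjP (Sy k p (2c+2)) (Sy k p ⊤) (e + 2(p-1))` (`K1_Inj`).  Put
`e' = e + 2(p-1) ≥ 2`.  `K3_last` for `d = p` at the levels `2c+2` and `⊤`: `0 → Z3 k p p 0 → Sy k p → Tr k p p → 0`,
and `Lq p : C3 k 0 1 → Z3 k p p 0` is an isomorphism of complexes (`K3_ses` with `a = b = 0` and `K3_bot`,
`0 + p = p`), so `Z3 k p p 0` is acyclic in degrees `≠ 0` (`C3_one_acy`); `Inj_mid_sub` (degrees `e' - 1 ≥ 1`
and `e' ≥ 1`) gives `InjP (Tr k p p (2c+2)) (Tr k p p ⊤) e'`.  `nu` identifies `Tr k p p` with `Z4 k p 0 0`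
(`nu_ker`, ...; `Inj_iso`), and `K4_ses k p 0 0` : `0 → Z4 k p 0 0 → Ga k (0+p) → R4 k p 0 0 = La k 1 → 0` (`K4_R0`),
with `La k 1` acyclic in degrees `e'` and `e' + 1` (`La_one_acy`); `Inj_mid_quot` gives
`InjP (Ga k p (2c+2)) (Ga k p ⊤) e'`.
-/

namespace BPN.E

variable (k : Type) [Field k] (p : ℕ) [Fact p.Prime] [CharP k p]

omit [CharP k p] in
private theorem pinj_Z3 (M : ℕ∞) {e : ℤ} (he : e ≠ 0) :
    ∀ z ∈ Z3 k p (0 + p) 0 M e, bd k (FM 0 0) z = 0 →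
      ∃ w ∈ Z3 k p (0 + p) 0 M (e + 1), bd k (FM 0 0) w = z := by
  have hp : p.Prime := Fact.out
  have h := K3_ses k hp.pos 0 0 M
  intro z hz hdz
  obtain ⟨y, hy, rfl⟩ := h.gsur e z hz
  have hdy : bd k (FM 0 1) y = 0 := by
    obtain ⟨x, hx, hxy⟩ := h.ex (e - 1) _ (h.c₂.dG e y hy) (by rw [← h.gd e y hy, hdz])
    have hx0 : x = 0 := by
      have hx' := hx
      rw [K3_bot k hp.pos 0 M (e - 1)] at hx'
      exact (Submodule.mem_bot k).1 hx'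
    rw [hx0, map_zero] at hxy
    exact hxy.symm
  obtain ⟨w, hw, hwy⟩ := C3_one_acy k M he y hy hdy
  refine ⟨Lq k p 0 w, h.gG _ w hw, ?_⟩
  rw [h.gd _ w hw]
  exact congrArg _ hwy

private theorem pinj_R4 (M : ℕ∞) {e : ℤ} (he : e ≠ 0) :
    ∀ z ∈ R4 k p 0 0 M e, bd k (FT 0 0 (0 + 1)) z = 0 →
      ∃ w ∈ R4 k p 0 0 M (e + 1), bd k (FT 0 0 (0 + 1)) w = z := by
  have hp : p.Prime := Fact.out
  rw [K4_R0 k p hp.pos 0 M e, K4_R0 k p hp.pos 0 M (e + 1)]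
  exact La_one_acy k M he

private theorem pinj_step (m : ℕ∞) {n : ℤ} (hn : 2 ≤ n)
    (h : InjP (bd k (FT 0 (0 + p) 0)) (Ga k (0 + p) m) (Ga k (0 + p) ⊤) (n - 2 * (p - 1))) :
    InjP (bd k (FT 0 (0 + p) 0)) (Ga k (0 + p) (m + 1 + 1)) (Ga k (0 + p) ⊤) n := by
  have hp : p.Prime := Fact.out
  have hd : 0 < 0 + p := by
    have := hp.pos
    omega
  have h1 := K2_Inj k hd (le_top : m ≤ ⊤) (n - (p - 1)) (by
    have he : n - ((p : ℤ) - 1) - (((0 + p : ℕ) : ℤ) - 1) = n - 2 * (p - 1) := by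
      push_cast
      ring
    rw [he]
    exact h)
  have h2 := K1_Inj k hd (add_le_add_left (le_top : m ≤ ⊤) 1) n (by
    have he : n - (((0 + p : ℕ) : ℤ) - 1) = n - ((p : ℤ) - 1) := by
      push_cast
      ring
    rw [he]
    exact h1)
  rw [top_add, top_add] at h2
  have h3 : InjP (bd k (FR p)) (Tr k p (0 + p) (m + 1 + 1)) (Tr k p (0 + p) ⊤) n := by
    refine Inj_mid_sub (K3_last k hp.pos hd (m + 1 + 1)) (K3_last k hp.pos hd ⊤) ?_ ?_ ?_ h2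
    · exact fun e => GM_mono (fun s hs => Lv_mono le_top hs) (fun s hs => Lv_mono le_top hs) e
    · have h4 := pinj_Z3 k p (m + 1 + 1) (e := n - 1) (by omega)
      rw [sub_add_cancel] at h4
      exact h4
    · exact pinj_Z3 k p ⊤ (e := n) (by omega)
  have hT : ∀ e, Tr k p (0 + p) (m + 1 + 1) e ≤ Tr k p (0 + p) ⊤ e := by
    intro e
    refine Finsupp.supported_mono ?_
    rintro x ⟨hx1, hx2, hx3⟩
    exact ⟨hx1, hx2, fun s hs => ⟨(hx3 s hs).1, Lv_mono le_top (hx3 s hs).2⟩⟩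
  have h4 : InjP (bd k (FT 0 (0 + p) 0)) (Z4 k p 0 0 (m + 1 + 1)) (Z4 k p 0 0 ⊤) n := by
    refine Inj_iso (f := nu k (0 + p)) ?_ ?_ ?_ hT (isCx_Tr k hd ⊤).dG ?_ ?_ ?_ h3
    · exact fun e x hx => ⟨nu_mem k p hx, (nu_ker k p (nu_mem k p hx)).1 ⟨x, hx, rfl⟩⟩
    · exact fun e x hx => ⟨nu_mem k p hx, (nu_ker k p (nu_mem k p hx)).1 ⟨x, hx, rfl⟩⟩
    · exact fun e x hx => nu_bd k p hd hx
    · exact fun e x hx h0 => nu_inj k p hx h0
    · exact fun e y hy => (nu_ker k p hy.1).2 hy.2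
    · exact fun e y hy => (nu_ker k p hy.1).2 hy.2
  refine Inj_mid_quot (K4_ses k p 0 0 (m + 1 + 1)) (K4_ses k p 0 0 ⊤) ?_ ?_ ?_ ?_ h4
  · exact fun e => inf_le_inf_right _
      (GT_mono (fun s hs => Lv_mono le_top hs) (fun s hs => Lv_mono le_top hs) e)
  · exact fun e => GT_mono (fun s hs => Lv_mono le_top hs) (fun s hs => Lv_mono le_top hs) e
  · exact pinj_R4 k p (m + 1 + 1) (e := n) (by omega)
  · exact pinj_R4 k p ⊤ (e := n + 1) (by omega)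

private theorem pinj_base :
    InjP (bd k (FT 0 (0 + p) 0)) (Ga k (0 + p) 0) (Ga k (0 + p) ⊤) 0 := by
  have hp : p.Prime := Fact.out
  rintro z hz hdz ⟨w, hw, hwz⟩
  have h := K4_ses k p 0 0 ⊤
  have h1 : Dq k p 0 0 z = 0 := by
    rw [← hwz, ← h.gd _ w hw]
    have h2 := h.gG _ w hw
    rw [K4_R0 k p hp.pos 0 ⊤] at h2
    exact La_one_bd0 k h2
  have h3 : z = 0 := by
    ext ⟨x, y⟩
    by_contra hne
    have h4 := (Finsupp.mem_supported k z).1 hz.2 (Finsupp.mem_support_iff.2 hne)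
    have h5 : ∀ i, x i = idS := fun i =>
      Subtype.ext ((exc_eq_zero_iff (x i)).1 (h4.1 i).1)
    have h6 := congrArg (fun φ => φ (Fin.elim0, fun _ => idS)) h1
    simp only [Finsupp.zero_apply] at h6
    rw [Dq_apply hp.pos, Fin.sum_univ_one] at h6
    simp only [Fin.val_zero, pow_zero, one_smul] at h6
    refine hne ?_
    rw [Finsupp.zero_apply, ← h6]
    congr 1
    refine Prod.ext (funext fun i => ?_) (Subsingleton.elim _ _)
    show x i = Fin.append Fin.elim0 (fun _ : Fin p => idS) i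
    rw [h5 i]
    refine Fin.addCases (fun j => j.elim0) (fun j => ?_) i
    rw [Fin.append_right]
  exact ⟨0, zero_mem _, by rw [map_zero, h3]⟩

private theorem pinj_aux (c : ℕ) :
    InjP (bd k (FT 0 (0 + p) 0)) (Ga k (0 + p) ((2 * c : ℕ) : ℕ∞)) (Ga k (0 + p) ⊤)
      (2 * c * (p - 1)) := by
  have hp : p.Prime := Fact.out
  induction c with
  | zero =>
    have h := pinj_base k p
    simpa using h
  | succ c ih =>
    have h2 : (2 : ℤ) ≤ p := by exact_mod_cast hp.two_le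
    have h3 : (2 : ℤ) ≤ 2 * ((c + 1 : ℕ) : ℤ) * (p - 1) := by
      push_cast
      nlinarith [mul_nonneg (Int.natCast_nonneg c) (show (0 : ℤ) ≤ (p : ℤ) - 1 by omega)]
    have h4 := pinj_step k p ((2 * c : ℕ) : ℕ∞) h3 (by
      have he : 2 * ((c + 1 : ℕ) : ℤ) * ((p : ℤ) - 1) - 2 * (p - 1) = 2 * c * (p - 1) := by
        push_cast
        ring
      rw [he]
      exact ih)
    have h5 : ((2 * (c + 1) : ℕ) : ℕ∞) = ((2 * c : ℕ) : ℕ∞) + 1 + 1 := by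
      push_cast
      ring
    rw [h5]
    exact h4

theorem Ga_inj (c : ℕ) :
    InjP (bd k (FT 0 p 0)) (Ga k p ((2 * c : ℕ) : ℕ∞)) (Ga k p ⊤) (2 * c * (p - 1)) := by
  have h := pinj_aux k p c
  rw [Nat.zero_add] at h
  exact h

end BPN.E
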