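import Pool.Agent.BPN.E.PKE
import Pool.Agent.BPN.E.PInj

/-!
# Part (E), module PKP: the operations with `P(c) = c^p` (project BPN, architect helper30)

THEOREM `exists_P`: for `m ≥ 1` there is an operation `a` of degree `2 m (p - 1)` such that `a(c)` is cohomologous to
`c^p` for all cocycles `c` of degree `2 m` of all simplicial sets.

PROOF.  `ν = 2 m`, `q = ν (p - 1)`, `k = ZMod p`, `D = bd (FT 0 p 0)`, `E = Efun p ν q`.
(1) Let `S` be the sum of `S₁ = Ga k p ν q ⊓ ker D` and `S₂ = D (Ga k p ⊤ (q+1))`.  `E` on `S₁` and `0` on `S₂` agree on the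
    intersection: `z = D w` with `z ∈ S₁` implies `z = D w'` with `w' ∈ Ga k p ν (q+1)` (`Ga_inj`, `c = m`), and
    `E (D w') = 0` (`Efun_bd`).  So there is a linear functional `φ` on `TT p 0 →₀ k` with `φ = E` on `S₁`, `φ = 0` on `S₂`.
    `φ - E` vanishes on `S₁`, so there is `h` with `φ z - E z = h (D z)` for `z ∈ Ga k p ν q`.
(2) `l (δ_v) = φ (tens v)` if `v` has excess `q`, `0` otherwise.  For `v` of excess `q + 1`:
    `l (bd δ_v) = ∑ (-1)^i φ (tens (d_i v)) = φ (D (tens v)) = 0` (`tens_bd`, `tens_zero`, `tens_mem` with `M = ⊤`).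
    `flat_exists`: `l x = flat a x + b (bd x)` on `GV p q`.
(3) `c` a cocycle of degree `ν` of `X`, `σ ∈ X_{ν p}`, `w = pull c σ ∈ (EM 0)_q`, `v = ph w`.  If `v ≠ 0`
    `act a c σ = (a w) id = flat a δ_v = φ (tens v) - b (bd δ_v)`, `φ (tens v) = E (tens v) + h (D (tens v))` (`ph_level`,
    `tens_mem`), `E (tens v) = ∏_j w (fj j) = ∏_j c(σ restricted to [ν j, ν (j+1)])` (`Efun_tens`, `phi_ph`) `= (c^p)(σ)`.
    So `act a c - c^p = δ e` with `e τ = h (tens (ph (pull c τ))) - b (δ_(ph (pull c τ)))` (second term `0` if `ph = 0`),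
    `τ` of dimension `ν p - 1` (`ph_d`, `pull_fc`, `pull_fc_big`, `tens_bd`; if `v = 0` all terms vanish).
    `e` need not be normalised, but `isBd_of_unnorm`.
(4) `(HR.cl ν c)^p` is the class of the cochain `σ ↦ ∏_j c(σ restricted to [ν j, ν (j+1)])` (induction on the number
    of factors, `cl_mul`).
-/

namespace BPN.E

open CategoryTheory SSet Simplicial Opposite Module

variable {p : ℕ} [Fact p.Prime]

/-! ### powers of cocycles -/

/-- The cup power of a cocycle. -/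
private def powZ {X : SSet.{0}} {ν : ℕ} (c : CoZ X (ZMod p) ν) (r : ℕ) : CoZ X (ZMod p) (ν * r) :=
  match r with
  | 0 => oneZ p X
  | r + 1 => cupZ (show ν * r + ν = ν * (r + 1) by ring) (powZ c r) c

private theorem powZ_apply {X : SSet.{0}} {ν : ℕ} (c : CoZ X (ZMod p) ν) (r : ℕ)
    (σ : X.obj (op ⦋ν * r⦌)) : (powZ c r).1 σ =
      ∏ j : Fin r, c.1 (bk X (ν * j) (show ν * (j : ℕ) + ν ≤ ν * r by
        have := j.2; nlinarith) σ) := by
  induction r with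
  | zero =>
    rw [Finset.univ_eq_empty, Finset.prod_empty]
    rfl
  | succ r ih =>
    rw [Fin.prod_univ_castSucc]
    change (powZ c r).1 (opr X id monotone_id _ σ) * c.1 (opr X _ _ _ σ) = _
    rw [ih]
    congr 1
    refine Finset.prod_congr rfl fun j _ => ?_
    unfold bk
    rw [opr_opr]
    rfl

private theorem cl_powZ {X : SSet.{0}} {ν : ℕ} (c : CoZ X (ZMod p) ν) (r : ℕ) :
    HR.cl (ν * r) (powZ c r) = HR.cl ν c ^ r := by
  induction r with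
  | zero =>
    rw [pow_zero]
    exact cl_one
  | succ r ih =>
    rw [pow_succ, ← ih, ← cl_mul (show ν * r + ν = ν * (r + 1) by ring)]
    rfl

theorem cl_pow_blocks {X : SSet.{0}} {ν : ℕ} (c : CoZ X (ZMod p) ν) (r : ℕ)
    (d : CoZ X (ZMod p) (ν * r))
    (hd : ∀ σ, d.1 σ = ∏ j : Fin r, c.1 (bk X (ν * j) (show ν * (j : ℕ) + ν ≤ ν * r by
      have := j.2; nlinarith) σ)) :
    HR.cl (ν * r) d = HR.cl ν c ^ r := by
  have h1 : d = powZ c r := Subtype.ext (funext fun σ => by rw [hd, powZ_apply])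
  rw [h1, cl_powZ]

/-! ### linear algebra -/

private theorem facL {V W : Type} [AddCommGroup V] [Module (ZMod p) V] [AddCommGroup W]
    [Module (ZMod p) W] (d : V →ₗ[ZMod p] W) (f : V →ₗ[ZMod p] ZMod p)
    (h : ∀ v, d v = 0 → f v = 0) : ∃ g : W →ₗ[ZMod p] ZMod p, ∀ v, g (d v) = f v := by
  obtain ⟨s, hs⟩ := LinearMap.exists_rightInverse_of_surjective d.rangeRestrict
    (LinearMap.range_rangeRestrict d)
  obtain ⟨g, hg⟩ := LinearMap.exists_extend (f ∘ₗ s)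
  refine ⟨g, fun v => ?_⟩
  have h1 : g (d v) = f (s (d.rangeRestrict v)) := LinearMap.congr_fun hg (d.rangeRestrict v)
  rw [h1]
  have h2 : d (s (d.rangeRestrict v)) = d v :=
    congrArg Subtype.val (LinearMap.congr_fun hs (d.rangeRestrict v))
  have h3 := h (s (d.rangeRestrict v) - v) (by rw [map_sub, h2, sub_self])
  rw [map_sub, sub_eq_zero] at h3
  exact h3

private theorem exists_phi (m : ℕ) : ∃ (φ h : (TT p 0 →₀ ZMod p) →ₗ[ZMod p] ZMod p),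
    (∀ w ∈ Ga (ZMod p) p ⊤ (((2 * m * (p - 1) : ℕ) : ℤ) + 1),
      φ (bd (ZMod p) (FT 0 p 0) w) = 0) ∧
    ∀ z ∈ Ga (ZMod p) p ((2 * m : ℕ) : ℕ∞) ((2 * m * (p - 1) : ℕ) : ℤ),
      φ z = Efun p (2 * m) (2 * m * (p - 1)) z + h (bd (ZMod p) (FT 0 p 0) z) := by
  have hp : 1 ≤ p := (Fact.out : p.Prime).one_lt.le
  obtain ⟨D, hD⟩ : ∃ D, D = bd (ZMod p) (FT 0 p 0) := ⟨_, rfl⟩
  obtain ⟨E, hE⟩ : ∃ E, E = Efun p (2 * m) (2 * m * (p - 1)) := ⟨_, rfl⟩
  obtain ⟨q, hq⟩ : ∃ q : ℤ, q = ((2 * m * (p - 1) : ℕ) : ℤ) := ⟨_, rfl⟩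
  have hinj := Ga_inj (ZMod p) p m
  have hq' : (2 * (m : ℤ) * ((p : ℤ) - 1)) = q := by
    rw [hq]
    push_cast [Nat.cast_sub hp]
    ring
  rw [hq', ← hD] at hinj
  rw [← hD, ← hE, ← hq]
  obtain ⟨S₁, hS₁⟩ : ∃ S₁ : Submodule (ZMod p) (TT p 0 →₀ ZMod p),
      S₁ = Ga (ZMod p) p ((2 * m : ℕ) : ℕ∞) q ⊓ LinearMap.ker D := ⟨_, rfl⟩
  obtain ⟨S₂, hS₂⟩ : ∃ S₂ : Submodule (ZMod p) (TT p 0 →₀ ZMod p),
      S₂ = (Ga (ZMod p) p ⊤ (q + 1)).map D := ⟨_, rfl⟩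
  have hker : ∀ v : S₁, (S₂.mkQ ∘ₗ S₁.subtype) v = 0 → (E ∘ₗ S₁.subtype) v = 0 := by
    rintro ⟨z, hz⟩ h0
    have hz2 : z ∈ S₂ := (Submodule.Quotient.mk_eq_zero _).1 h0
    rw [hS₁] at hz
    rw [hS₂] at hz2
    obtain ⟨w, hw, hwz⟩ := hz2
    obtain ⟨w', hw', hw'z⟩ := hinj z hz.1 hz.2 ⟨w, hw, hwz⟩
    change E z = 0
    rw [← hw'z, hE, hD]
    refine Efun_bd (2 * m) w' fun y hy j => ?_
    have h1 := (Finsupp.mem_supported _ _).1 hw'.2 (Finset.mem_coe.2 hy)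
    obtain ⟨h2, h3⟩ := h1.1 j
    exact ⟨by rw [h2, hq], h3⟩
  obtain ⟨g, hg⟩ := facL (V := S₁) (S₂.mkQ ∘ₗ S₁.subtype) (E ∘ₗ S₁.subtype) hker
  have hφ1 : ∀ w ∈ Ga (ZMod p) p ⊤ (q + 1),
      (g ∘ₗ S₂.mkQ) (D w) = 0 := by
    intro w hw
    have h1 : S₂.mkQ (D w) = 0 :=
      (Submodule.Quotient.mk_eq_zero _).2 (by rw [hS₂]; exact ⟨w, hw, rfl⟩)
    rw [LinearMap.comp_apply, h1, map_zero]
  obtain ⟨φ, hφ⟩ : ∃ φ, φ = g ∘ₗ S₂.mkQ := ⟨_, rfl⟩
  rw [← hφ] at hφ1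
  have hφ2 : ∀ z ∈ Ga (ZMod p) p ((2 * m : ℕ) : ℕ∞) q, D z = 0 → φ z = E z := by
    intro z hz h0
    rw [hφ]
    exact hg ⟨z, by rw [hS₁]; exact ⟨hz, h0⟩⟩
  obtain ⟨S₃, hS₃⟩ : ∃ S₃ : Submodule (ZMod p) (TT p 0 →₀ ZMod p),
      S₃ = Ga (ZMod p) p ((2 * m : ℕ) : ℕ∞) q := ⟨_, rfl⟩
  have hker2 : ∀ v : S₃, (D ∘ₗ S₃.subtype) v = 0 → ((φ - E) ∘ₗ S₃.subtype) v = 0 := by
    rintro ⟨z, hz⟩ h0
    rw [hS₃] at hz
    change φ z - E z = 0
    rw [hφ2 z hz h0, sub_self]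
  obtain ⟨h, hh⟩ := facL (V := S₃) (D ∘ₗ S₃.subtype) ((φ - E) ∘ₗ S₃.subtype) hker2
  refine ⟨φ, h, hφ1, fun z hz => ?_⟩
  have h1 : h (D z) = φ z - E z := hh ⟨z, by rw [hS₃]; exact hz⟩
  rw [h1]
  ring

/-! ### functionals on the group ring -/

open Classical in
private noncomputable def Lt (L : (ZV p →₀ ZMod p) →ₗ[ZMod p] ZMod p) (u : Sj →₀ ZMod p) :
    ZMod p := if h : u ≠ 0 then L (Finsupp.single ⟨u, h⟩ 1) else 0

private theorem Lt_zero (L : (ZV p →₀ ZMod p) →ₗ[ZMod p] ZMod p) : Lt L 0 = 0 :=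
  dif_neg (fun h => h rfl)

private theorem bdV (L : (ZV p →₀ ZMod p) →ₗ[ZMod p] ZMod p) (v : ZV p) :
    ∃ N₀, ∀ N, N₀ ≤ N → L (bd (ZMod p) (fV p) (Finsupp.single v 1)) =
      ∑ i ∈ Finset.range N, (-1 : ℤ) ^ i • Lt L (pv p (fa 0 i) v.1) := by
  obtain ⟨N₀, hN₀⟩ := LFz_fV p v
  refine ⟨N₀, fun N hN => ?_⟩
  rw [bd_eq_sum (N := N) (by
    intro z hz i hi
    rw [Finsupp.support_single_ne_zero _ one_ne_zero, Finset.mem_singleton] at hz
    subst hz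
    exact hN₀ i (hN.trans hi)), map_sum]
  refine Finset.sum_congr rfl fun i _ => ?_
  rw [map_zsmul, push_single]
  congr 1
  unfold Lt fV
  split_ifs with h
  · rfl
  · exact map_zero L

private theorem pv_push (g : Sj → Option Sj) (v : Sj →₀ ZMod p) :
    pv p g v = push (ZMod p) g v := by
  unfold pv push
  rw [Finsupp.lsum_apply]
  refine Finsupp.sum_congr fun s _ => ?_
  cases g s <;> rfl

private theorem pv_zero (g : Sj → Option Sj) : pv p g 0 = 0 := by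
  rw [pv_push, map_zero]

private theorem pv_exc {v : Sj →₀ ZMod p} {e : ℤ} (hv : ∀ s ∈ v.support, exc s = e + 1) (i : ℕ) :
    ∀ s ∈ (pv p (fa 0 i) v).support, exc s = e := by
  rw [pv_push]
  have h1 : push (ZMod p) (fa 0 i) v ∈ Finsupp.supported (ZMod p) (ZMod p) {s | exc s = e} := by
    refine push_supported (P := {s | exc s = e + 1}) (fun z hz z' h => ?_)
      ((Finsupp.mem_supported _ _).2 fun s hs => hv s hs)
    have h2 := exc_fa h
    have h3 : exc z = e + 1 := hz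
    change exc z' = e
    omega
  intro s hs
  exact (Finsupp.mem_supported _ _).1 h1 hs

omit [Fact p.Prime] in
private theorem fj_strict (ν j : ℕ) (hj : j < p) : StrictMono (fj ν (ν * (p - 1)) j) := by
  refine strictMono_nat_of_lt_succ fun i => ?_
  have h1 : ν * j ≤ ν * (p - 1) := Nat.mul_le_mul_left _ (by omega)
  unfold fj
  split_ifs <;> omega

private theorem pull_fj {X : SSet.{0}} {ν : ℕ} (c : CoZ X (ZMod p) ν) (σ : X.obj (op ⦋ν * p⦌))
    (hq : ((ν * (p - 1) : ℕ) : ℤ) - 0 = ((ν * p : ℕ) : ℤ) - (ν : ℕ)) (j : Fin p) :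
    (pull c σ (n := 0) hq).1 (fj ν (ν * (p - 1)) j) =
      c.1 (bk X (ν * j) (show ν * (j : ℕ) + ν ≤ ν * p by have := j.2; nlinarith) σ) := by
  change pullFun c.1 σ hq _ = _
  unfold pullFun
  rw [dif_pos ⟨fj_strict ν j j.2, fun i hi => by unfold fj; rw [if_neg (by omega)]; push_cast; ring⟩]
  unfold bk
  refine congrArg c.1 (opr_congr X _ _ _ _ (fun i hi => ?_) σ)
  unfold fj
  rw [if_pos hi]
  ring

theorem exists_P (m : ℕ) (hm : 0 < m) : ∃ a : Op p (2 * m * (p - 1)),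
    ∀ (X : SSet.{0}) (l : ℕ) (hl : 2 * m + 2 * m * (p - 1) = l) (c : CoZ X (ZMod p) (2 * m)),
      HR.cl l (Op.act a hl c) = HR.cl (2 * m) c ^ p := by
  classical
  have hp : 1 ≤ p := (Fact.out : p.Prime).one_lt.le
  obtain ⟨φ, h, hφ, hh⟩ := exists_phi (p := p) m
  obtain ⟨l, hl⟩ : ∃ l : (ZV p →₀ ZMod p) →ₗ[ZMod p] ZMod p, ∀ v : ZV p,
      l (Finsupp.single v 1) = if ∀ s ∈ v.1.support, exc s = ((2 * m * (p - 1) : ℕ) : ℤ) then
        φ (tens v.1) else 0 := by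
    refine ⟨Finsupp.lsum ℕ fun v : ZV p =>
      (if ∀ s ∈ v.1.support, exc s = ((2 * m * (p - 1) : ℕ) : ℤ) then φ (tens v.1) else 0) •
        LinearMap.id, fun v => ?_⟩
    rw [Finsupp.lsum_single, LinearMap.smul_apply, LinearMap.id_apply, smul_eq_mul, mul_one]
  have hLt : ∀ u : Sj →₀ ZMod p, (∀ s ∈ u.support, exc s = ((2 * m * (p - 1) : ℕ) : ℤ)) →
      Lt l u = φ (tens u) := by
    intro u hu
    unfold Lt
    split_ifs with h0
    · rw [hl, if_pos hu]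
    · push Not at h0
      rw [h0, tens_zero, map_zero]
  have hl0 : ∀ x ∈ GV p (((2 * m * (p - 1) : ℕ) : ℤ) + 1), l (bd (ZMod p) (fV p) x) = 0 := by
    intro x hx
    have h1 : x = ∑ v ∈ x.support, x v • Finsupp.single v (1 : ZMod p) := by
      conv_lhs => rw [← Finsupp.sum_single x]
      refine Finset.sum_congr rfl fun v _ => ?_
      rw [Finsupp.smul_single, smul_eq_mul, mul_one]
    rw [h1, map_sum, map_sum]
    refine Finset.sum_eq_zero fun v hv => ?_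
    have hv1 : ∀ s ∈ v.1.support, exc s = ((2 * m * (p - 1) : ℕ) : ℤ) + 1 :=
      (Finsupp.mem_supported _ _).1 hx (Finset.mem_coe.2 hv)
    rw [map_smul, map_smul]
    obtain ⟨N₁, h2⟩ := bdV l v
    obtain ⟨N₂, h3⟩ := tens_bd v.1
    have h4 : l (bd (ZMod p) (fV p) (Finsupp.single v 1)) = 0 := by
      rw [h2 (max N₁ N₂) (le_max_left _ _)]
      have h5 := hφ (tens v.1) (tens_mem v.1 fun s hs => ⟨hv1 s hs, Lv_top s⟩)
      rw [h3 (max N₁ N₂) (le_max_right _ _), map_sum] at h5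
      rw [← h5]
      refine Finset.sum_congr rfl fun i _ => ?_
      rw [map_zsmul, hLt _ (pv_exc hv1 i)]
    rw [h4, smul_zero]
  obtain ⟨a, b, hab⟩ := flat_exists l hl0
  refine ⟨a, fun X l' hl' c => ?_⟩
  have e1 : l' = 2 * m * p := by
    rw [← hl']
    obtain ⟨r, rfl⟩ : ∃ r, p = r + 1 := ⟨p - 1, by omega⟩
    rw [Nat.add_sub_cancel]
    ring
  subst e1
  rw [← cl_powZ, HR.cl_eq]
  have hpos : 0 < 2 * m * p := by positivity
  obtain ⟨L', hL'⟩ : ∃ L', L' + 1 = 2 * m * p := ⟨2 * m * p - 1, by omega⟩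
  have hq : ((2 * m * (p - 1) : ℕ) : ℤ) - 0 = ((2 * m * p : ℕ) : ℤ) - (2 * m : ℕ) := by omega
  have hq' : ((2 * m * (p - 1) : ℕ) : ℤ) - 1 - 0 = ((L' : ℕ) : ℤ) - (2 * m : ℕ) := by omega
  have hr : ((2 * m * (p - 1) : ℕ) : ℤ) - 1 + 1 = ((2 * m * (p - 1) : ℕ) : ℤ) := by ring
  obtain ⟨F, hF⟩ : ∃ F : (Sj →₀ ZMod p) → ZMod p, ∀ u, F u = h (tens u) - Lt b u :=
    ⟨_, fun _ => rfl⟩
  have hF0 : F 0 = 0 := by rw [hF, tens_zero, map_zero, Lt_zero, sub_zero]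
  obtain ⟨e, he⟩ : ∃ e : X.obj (op ⦋L'⦌) → ZMod p, ∀ τ, e τ =
      F (ph (pull c τ (n := 0) (q := ((2 * m * (p - 1) : ℕ) : ℤ) - 1) hq')) := ⟨_, fun _ => rfl⟩
  have key : (Op.act a hl' c).1 - (powZ c p).1 = cobd hL' e := by
    funext σ
    obtain ⟨w, hw⟩ : ∃ w, w = pull c σ (n := 0) (q := ((2 * m * (p - 1) : ℕ) : ℤ)) hq := ⟨_, rfl⟩
    have hact : (Op.act a hl' c).1 σ = (a.f ((2 * m * (p - 1) : ℕ) : ℤ) w).1 id := by
      rw [hw]
      rfl
    have hpow : (powZ c p).1 σ = Efun p (2 * m) (2 * m * (p - 1)) (tens (ph w)) := by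
      rw [powZ_apply, Efun_tens]
      refine Finset.prod_congr rfl fun j _ => ?_
      rw [phi_ph, hw, pull_fj]
    have hfc : ∀ i, (i ≤ 2 * m * p → ∃ hi : i ≤ 2 * m * p, F (pv p (fa 0 i) (ph w)) =
        e (fc X i hL' σ)) := by
      intro i hi
      refine ⟨hi, ?_⟩
      rw [he, ← ph_d i hr w, hw, pull_fc c σ hr hL' hq hq' hi]
    have hfc' : ∀ i, 2 * m * p < i → F (pv p (fa 0 i) (ph w)) = 0 := by
      intro i hi
      rw [← ph_d i hr w, hw, pull_fc_big c σ hr hq hi, ph_zero, hF0]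
    have hmain : ∃ N₀, ∀ N, N₀ ≤ N → (a.f ((2 * m * (p - 1) : ℕ) : ℤ) w).1 id -
        Efun p (2 * m) (2 * m * (p - 1)) (tens (ph w)) =
        ∑ i ∈ Finset.range N, (-1 : ℤ) ^ i • F (pv p (fa 0 i) (ph w)) := by
      by_cases hv : ph w = 0
      · refine ⟨0, fun N _ => ?_⟩
        rw [hv, tens_zero, map_zero, sub_zero, Finset.sum_eq_zero]
        · rw [ph_eq_zero hv]
          have h1 : a.f ((2 * m * (p - 1) : ℕ) : ℤ)
              (0 : (EM (ZMod p) 0).G ((2 * m * (p - 1) : ℕ) : ℤ)) = 0 := a.map_pt _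
          rw [h1]
          rfl
        · intro i _
          rw [pv_zero, hF0, smul_zero]
      · obtain ⟨N₁, h2⟩ := bdV b ⟨ph w, hv⟩
        obtain ⟨N₂, h3⟩ := tens_bd (ph w)
        refine ⟨max N₁ N₂, fun N hN => ?_⟩
        have hx : Finsupp.single (⟨ph w, hv⟩ : ZV p) (1 : ZMod p) ∈
            GV p ((2 * m * (p - 1) : ℕ) : ℤ) := by
          refine (Finsupp.mem_supported _ _).2 fun v hv' => ?_
          rw [Finsupp.support_single_ne_zero _ one_ne_zero, Finset.coe_singleton,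
            Set.mem_singleton_iff] at hv'
          subst hv'
          exact ph_exc w
        have h4 := hab _ hx
        rw [hl, if_pos (ph_exc w), flat_ph, h2 N ((le_max_left _ _).trans hN)] at h4
        have hz : tens (ph w) ∈ Ga (ZMod p) p ((2 * m : ℕ) : ℕ∞) ((2 * m * (p - 1) : ℕ) : ℤ) := by
          refine tens_mem (ph w) fun s hs => ⟨ph_exc w s hs, ?_⟩
          rw [hw] at hs
          exact ph_level c σ hq s hs
        have h5 := hh _ hz
        rw [h3 N ((le_max_right _ _).trans hN), map_sum] at h5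
        have h6 : ∑ i ∈ Finset.range N, (-1 : ℤ) ^ i • F (pv p (fa 0 i) (ph w)) =
            ∑ i ∈ Finset.range N, h ((-1 : ℤ) ^ i • tens (pv p (fa 0 i) (ph w))) -
            ∑ i ∈ Finset.range N, (-1 : ℤ) ^ i • Lt b (pv p (fa 0 i) (ph w)) := by
          rw [← Finset.sum_sub_distrib]
          refine Finset.sum_congr rfl fun i _ => ?_
          rw [hF, smul_sub, map_zsmul]
        rw [h6]
        linear_combination h5 - h4
    obtain ⟨N₀, hN₀⟩ := hmain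
    rw [Pi.sub_apply, hact, hpow, hN₀ (2 * m * p + 1 + N₀) (by omega), Finset.sum_range_add]
    unfold cobd
    rw [Finset.sum_eq_zero (s := Finset.range N₀), add_zero]
    · refine Finset.sum_congr rfl fun i hi => ?_
      obtain ⟨_, h1⟩ := hfc i (by have := Finset.mem_range.1 hi; omega)
      rw [h1]
    · intro i _
      rw [hfc' _ (by omega), smul_zero]
  rw [key]
  apply isBd_of_unnorm
  rw [← key]
  exact (CoC X (ZMod p) (2 * m * p)).sub_mem (Op.act a hl' c).2.1 (powZ c p).2.1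

end BPN.E
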