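import Mathlib

/-!
# Part (E), module PolyP: primitive elements of `F_p[ξ_1, ξ_2, ..]` (project BPN, architect helper30)

Variable `j` is `ξ_{j+1}`, `ξ_0 = 1`; `psiP : ξ_n ↦ ∑_{k ≤ n} ξ_k ⊗ ξ_{n-k}^(p^k)` (left factor `inl`, right factor `inr`).

THEOREM `poly_prim`: if `g` is homogeneous of degree `n ≥ 1` (`deg ξ_{j+1} = 2 (p^(j+1) - 1)`) and
`psiP g = g ⊗ 1 + 1 ⊗ g`, then `g = c ξ_1^(p^m)` for some `c`, `m` (and `g = 0` or `n = 2 (p-1) p^m`).

PROOF.  Strong induction on `n`.
(1) Let `θ_j : MvPolynomial (ℕ ⊕ ℕ) → MvPolynomial ℕ`, `w ↦ (∂ w / ∂ X_(inr j))` with `inr` variables set to `0` and `inl`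
    variables renamed to themselves.  `θ_j ∘ psiP` is a derivation of `MvPolynomial ℕ` (`(inr = 0) ∘ psiP = id`), with
    value `δ_{ij}` on `X i` (the only linear term in the `inr` variables of `psiP(X i)` is `X_(inr i)`, because
    `p^k ≥ 2` for `k ≥ 1`), so it is `pderiv j`.  Hence `pderiv j g = θ_j (g ⊗ 1 + 1 ⊗ g) = C (c_j)`, `c_j` the linear
    coefficient of `X j` in `g`.
(2) So in every monomial of `g` other than the `X j` all exponents are divisible by `p`:
    `g = ∑ c_j X j + expand p h' = ∑ c_j X j + h^p` (`MvPolynomial.expand_zmod`).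
(3) `c_j = 0` for `j ≥ 1`: the coefficient of `X_(inl 0) X_(inr (j-1))^p` in `g ⊗ 1 + 1 ⊗ g` is `0`; in `psiP (X j)` it is `1`,
    in `psiP (X i)`, `i ≠ j`, it is `0`, and in `psiP (h^p) = (psiP h)^p` (exponents divisible by `p`) it is `0`.
(4) If `c_0 ≠ 0` then `n = 2 (p-1)`, and the monomials of `h^p` have all exponents divisible by `p` and degree
    `2 (p-1)`, impossible unless `h^p = 0` (degree of a nonconstant monomial with exponents divisible by `p` is at least
    `2 p (p - 1)`; constants are excluded as `n ≥ 1`).  So `g = c_0 ξ_1`.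
(5) If all `c_j = 0`: `g = h^p`, `h` homogeneous of degree `n / p` (take `h` with `expand p h = g`), and
    `(psiP h)^p = (h ⊗ 1 + 1 ⊗ h)^p`, so `psiP h = h ⊗ 1 + 1 ⊗ h` (Frobenius is injective); if `h = 0` done, otherwise
    `n / p ≥ 1` and induction: `h = c ξ_1^(p^m)`, `g = c^p ξ_1^(p^(m+1)) = c ξ_1^(p^(m+1))`.
-/

namespace BPN.E

open MvPolynomial

/-- `ξ_j` in the left factor. -/
noncomputable def xL (p j : ℕ) : MvPolynomial (ℕ ⊕ ℕ) (ZMod p) :=
  if j = 0 then 1 else X (Sum.inl (j - 1))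

/-- `ξ_j` in the right factor. -/
noncomputable def xR (p j : ℕ) : MvPolynomial (ℕ ⊕ ℕ) (ZMod p) :=
  if j = 0 then 1 else X (Sum.inr (j - 1))

/-- The coproduct of `F_p[ξ]`. -/
noncomputable def psiP (p : ℕ) : MvPolynomial ℕ (ZMod p) →ₐ[ZMod p] MvPolynomial (ℕ ⊕ ℕ) (ZMod p) :=
  aeval fun n => ∑ k ∈ Finset.range (n + 2), xL p k * xR p (n + 1 - k) ^ p ^ k

/-! ### Auxiliary lemmas -/

section aux

variable {p : ℕ} [Fact p.Prime]

private theorem xL_zero : xL p 0 = 1 := by
  unfold xL
  rw [if_pos rfl]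

private theorem xL_succ (j : ℕ) : xL p (j + 1) = X (Sum.inl j) := by
  unfold xL
  rw [if_neg (by omega), Nat.add_sub_cancel]

private theorem xR_zero : xR p 0 = 1 := by
  unfold xR
  rw [if_pos rfl]

private theorem xR_succ (j : ℕ) : xR p (j + 1) = X (Sum.inr j) := by
  unfold xR
  rw [if_neg (by omega), Nat.add_sub_cancel]

private theorem pd_xL (j k : ℕ) : pderiv (Sum.inr j) (xL p k) = 0 := by
  rcases k with _ | k
  · rw [xL_zero]
    exact pderiv_one
  · rw [xL_succ]
    exact pderiv_X_of_ne (by simp)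

private theorem psiP_X (n : ℕ) :
    psiP p (X n) = ∑ k ∈ Finset.range (n + 2), xL p k * xR p (n + 1 - k) ^ p ^ k := by
  unfold psiP
  rw [aeval_X]

private theorem pd_psiP_X (j n : ℕ) :
    pderiv (Sum.inr j) (psiP p (X n)) = psiP p (pderiv j (X n)) := by
  rw [psiP_X, map_sum, Finset.sum_range_succ']
  have h1 : ∀ k ∈ Finset.range (n + 1),
      pderiv (Sum.inr j) (xL p (k + 1) * xR p (n + 1 - (k + 1)) ^ p ^ (k + 1)) = 0 := by
    intro k _
    rw [pderiv_mul, pd_xL, zero_mul, zero_add, pderiv_pow, Nat.cast_pow,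
      CharP.cast_eq_zero, zero_pow (by omega), zero_mul, zero_mul, mul_zero]
  rw [Finset.sum_eq_zero h1, zero_add, xL_zero, one_mul, pow_zero, pow_one, Nat.sub_zero, xR_succ]
  by_cases h : n = j
  · subst h
    rw [pderiv_X_self, pderiv_X_self, map_one]
  · rw [pderiv_X_of_ne (by simpa using h), pderiv_X_of_ne h, map_zero]

private theorem pd_psiP (j : ℕ) (g : MvPolynomial ℕ (ZMod p)) :
    pderiv (Sum.inr j) (psiP p g) = psiP p (pderiv j g) := by
  induction g using MvPolynomial.induction_on with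
  | C a =>
    rw [MvPolynomial.algHom_C, pderiv_C, map_zero]
    exact pderiv_C
  | add f g hf hg => rw [map_add, map_add, map_add, map_add, hf, hg]
  | mul_X f i hf =>
    rw [map_mul, pderiv_mul, pderiv_mul, hf, pd_psiP_X, map_add, map_mul, map_mul]

private theorem pd_inl (j : ℕ) (g : MvPolynomial ℕ (ZMod p)) :
    pderiv (Sum.inr j) (rename (Sum.inl : ℕ → ℕ ⊕ ℕ) g) = 0 := by
  induction g using MvPolynomial.induction_on with
  | C a =>
    rw [rename_C]
    exact pderiv_C
  | add f g hf hg => rw [map_add, map_add, hf, hg, add_zero]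
  | mul_X f i hf =>
    rw [map_mul, pderiv_mul, hf, rename_X, pderiv_X_of_ne (by simp), zero_mul, mul_zero,
      add_zero]

/-- The right counit. -/
private noncomputable def rho (p : ℕ) : MvPolynomial (ℕ ⊕ ℕ) (ZMod p) →ₐ[ZMod p]
    MvPolynomial ℕ (ZMod p) := aeval (Sum.elim X fun _ => 0)

private theorem rho_psiP_X (n : ℕ) : rho p (psiP p (X n)) = X n := by
  have hp : p.Prime := Fact.out
  rw [psiP_X, map_sum, Finset.sum_range_succ, Finset.sum_eq_zero, zero_add, Nat.sub_self, xR_zero,
    one_pow, mul_one, xL_succ]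
  · unfold rho
    rw [aeval_X]
    rfl
  · intro k hk
    have hk' := Finset.mem_range.1 hk
    obtain ⟨m, hm⟩ : ∃ m, n + 1 - k = m + 1 := ⟨n - k, by omega⟩
    rw [hm, xR_succ, map_mul, map_pow]
    have h1 : rho p (X (Sum.inr m)) = 0 := by
      unfold rho
      rw [aeval_X]
      rfl
    rw [h1, zero_pow (pow_ne_zero _ hp.ne_zero), mul_zero]

private theorem rho_psiP (g : MvPolynomial ℕ (ZMod p)) : rho p (psiP p g) = g := by
  have h : (rho p).comp (psiP p) = AlgHom.id (ZMod p) (MvPolynomial ℕ (ZMod p)) := by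
    refine MvPolynomial.algHom_ext fun i => ?_
    exact rho_psiP_X i
  exact DFunLike.congr_fun h g

private theorem rho_inr (g : MvPolynomial ℕ (ZMod p)) :
    rho p (rename Sum.inr g) = C (constantCoeff g) := by
  unfold rho
  rw [aeval_rename]
  exact aeval_zero' g

/-- The partial derivatives are constant. -/
private theorem pd_const {g : MvPolynomial ℕ (ZMod p)}
    (hp : psiP p g = rename Sum.inl g + rename Sum.inr g) (j : ℕ) :
    ∃ c : ZMod p, pderiv j g = C c := by
  refine ⟨constantCoeff (pderiv j g), ?_⟩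
  have h1 := congrArg (pderiv (Sum.inr j)) hp
  rw [pd_psiP, map_add, pd_inl, zero_add, pderiv_rename Sum.inr_injective] at h1
  have h2 := congrArg (rho p) h1
  rwa [rho_psiP, rho_inr] at h2

private theorem coeff_single {g : MvPolynomial ℕ (ZMod p)}
    (hp : psiP p g = rename Sum.inl g + rename Sum.inr g) {R : ℕ →₀ ℕ} (hR : g.coeff R ≠ 0)
    {j : ℕ} (hj : ¬ p ∣ R j) : R = Finsupp.single j 1 := by
  obtain ⟨c, hc⟩ := pd_const hp j
  have hj0 : R j ≠ 0 := by
    intro h
    rw [h] at hj
    exact hj (dvd_zero p)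
  have h0 : R - Finsupp.single j 1 + Finsupp.single j 1 = R :=
    tsub_add_cancel_of_le (Finsupp.single_le_iff.2 (by omega))
  have h1 := coeff_pderiv (i := j) g (R - Finsupp.single j 1)
  rw [h0, hc, coeff_C] at h1
  have h2 : ((((R - Finsupp.single j 1 : ℕ →₀ ℕ) j : ℕ)) : ZMod p) + 1 =
      ((R j : ℕ) : ZMod p) := by
    have h3 : (R - Finsupp.single j 1 : ℕ →₀ ℕ) j + 1 = R j := by
      rw [Finsupp.tsub_apply, Finsupp.single_eq_same]
      omega
    rw [← h3]
    push_cast
    rfl
  rw [h2] at h1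
  have h4 : g.coeff R * ((R j : ℕ) : ZMod p) ≠ 0 :=
    mul_ne_zero hR (fun h => hj ((ZMod.natCast_eq_zero_iff _ _).1 h))
  by_cases h5 : 0 = R - Finsupp.single j 1
  · rw [← h5, zero_add] at h0
    exact h0.symm
  · rw [if_neg h5] at h1
    exact absurd h1.symm h4

private theorem dvd_weight {R : ℕ →₀ ℕ} (h : ∀ j, p ∣ R j) :
    2 * p ∣ R.sum fun j r => r * (2 * (p ^ (j + 1) - 1)) := by
  refine Finset.dvd_sum fun j _ => ?_
  obtain ⟨r, hr⟩ := h j
  refine ⟨r * (p ^ (j + 1) - 1), ?_⟩
  show R j * (2 * (p ^ (j + 1) - 1)) = _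
  rw [hr]
  ring

private theorem weight_single (j : ℕ) :
    ((Finsupp.single j 1 : ℕ →₀ ℕ).sum fun j r => r * (2 * (p ^ (j + 1) - 1))) =
      2 * (p ^ (j + 1) - 1) := by
  rw [Finsupp.sum_single_index (by rw [zero_mul]), one_mul]

/-- Evaluation at a point which detects the cross term. -/
private noncomputable def ept (p j : ℕ) : MvPolynomial (ℕ ⊕ ℕ) (ZMod p) →ₐ[ZMod p] ZMod p :=
  aeval (Sum.elim (fun i => if i = 0 then 1 else 0) fun i => if i = j then 1 else 0)

private theorem ept_psiP (j : ℕ) : ept p j (psiP p (X (j + 1))) = 1 := by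
  have hp : p.Prime := Fact.out
  have hl : ∀ i, ept p j (X (Sum.inl i)) = if i = 0 then 1 else 0 := by
    intro i
    unfold ept
    rw [aeval_X]
    rfl
  have hr : ∀ i, ept p j (X (Sum.inr i)) = if i = j then 1 else 0 := by
    intro i
    unfold ept
    rw [aeval_X]
    rfl
  rw [psiP_X, map_sum, Finset.sum_eq_single 1]
  · rw [xL_succ, Nat.add_sub_cancel, xR_succ, map_mul, map_pow, hl, hr, if_pos rfl, if_pos rfl,
      one_pow, one_mul]
  · intro k _ hk
    rcases k with _ | _ | k
    · rw [Nat.sub_zero, xR_succ, map_mul, map_pow, hr, if_neg (by omega),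
        zero_pow (pow_ne_zero _ hp.ne_zero), mul_zero]
    · exact absurd rfl hk
    · rw [xL_succ, map_mul, hl, if_neg (by omega), zero_mul]
  · intro h
    exact absurd (Finset.mem_range.2 (by omega)) h

private theorem ept_sum (j : ℕ) :
    ept p j (rename Sum.inl (X (j + 1)) + rename Sum.inr (X (j + 1))) = 0 := by
  rw [rename_X, rename_X, map_add]
  unfold ept
  rw [aeval_X, aeval_X]
  show (if j + 1 = 0 then (1 : ZMod p) else 0) + (if j + 1 = j then 1 else 0) = 0
  rw [if_neg (by omega), if_neg (by omega), add_zero]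

/-- A polynomial all of whose exponents are divisible by `p` is a `p`-th power. -/
private theorem exists_pow {g : MvPolynomial ℕ (ZMod p)}
    (h : ∀ R, g.coeff R ≠ 0 → ∀ j, p ∣ R j) : ∃ f, expand p f = g := by
  refine ⟨∑ R ∈ g.support, monomial (R.mapRange (fun r => r / p) (Nat.zero_div p)) (g.coeff R), ?_⟩
  rw [map_sum]
  conv_rhs => rw [g.as_sum]
  refine Finset.sum_congr rfl fun R hR => ?_
  rw [expand_monomial]
  have h1 : p • R.mapRange (fun r => r / p) (Nat.zero_div p) = R := by
    refine Finsupp.ext fun j => ?_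
    rw [Finsupp.smul_apply, Finsupp.mapRange_apply, smul_eq_mul]
    exact Nat.mul_div_cancel' (h R (mem_support_iff.1 hR) j)
  rw [h1]

end aux

theorem poly_prim (p : ℕ) [Fact p.Prime] (n : ℕ) (hn : 1 ≤ n) (g : MvPolynomial ℕ (ZMod p))
    (hg : ∀ R : ℕ →₀ ℕ, g.coeff R ≠ 0 → (R.sum fun j r => r * (2 * (p ^ (j + 1) - 1))) = n)
    (hp : psiP p g = rename Sum.inl g + rename Sum.inr g) :
    g = 0 ∨ ∃ (c : ZMod p) (m : ℕ), g = C c * X 0 ^ p ^ m ∧ n = 2 * (p - 1) * p ^ m := by
  have hpp : p.Prime := Fact.out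
  induction n using Nat.strong_induction_on generalizing g with
  | _ n ih =>
  by_cases hA : ∃ R, g.coeff R ≠ 0 ∧ ∃ j, ¬ p ∣ R j
  · obtain ⟨R, hR, j, hj⟩ := hA
    have hRj := coeff_single hp hR hj
    subst hRj
    have hn1 := hg _ hR
    rw [weight_single] at hn1
    have hsupp : ∀ R', g.coeff R' ≠ 0 → R' = Finsupp.single j 1 := by
      intro R' hR'
      by_cases hi : ∃ i, ¬ p ∣ R' i
      · obtain ⟨i, hi⟩ := hi
        have h1 := coeff_single hp hR' hi
        have h2 := hg _ hR'
        rw [h1, weight_single, ← hn1] at h2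
        have h3 : p ^ (i + 1) = p ^ (j + 1) := by
          have e1 : 1 ≤ p ^ (i + 1) := Nat.one_le_pow _ _ hpp.pos
          have e2 : 1 ≤ p ^ (j + 1) := Nat.one_le_pow _ _ hpp.pos
          omega
        have h4 := Nat.pow_right_injective hpp.two_le h3
        rw [h1]
        congr 1
        omega
      · push Not at hi
        exfalso
        have h1 := dvd_weight hi
        rw [hg _ hR', ← hn1] at h1
        have h2 : p ∣ p ^ (j + 1) - 1 := Nat.dvd_of_mul_dvd_mul_left (by norm_num) h1
        have h3 : p ∣ p ^ (j + 1) := dvd_pow_self p (by omega)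
        have h4 : p ∣ 1 := by
          have h5 := (Nat.dvd_sub_iff_right (Nat.one_le_pow (j + 1) p hpp.pos) h3).1 h2
          exact h5
        exact hpp.one_lt.ne' (Nat.dvd_one.1 h4)
    have hgX : g = C (g.coeff (Finsupp.single j 1)) * X j := by
      ext R'
      rw [coeff_C_mul, coeff_X]
      by_cases h1 : Finsupp.single j 1 = R'
      · rw [if_pos h1, mul_one, h1]
      · rw [if_neg h1, mul_zero]
        by_contra h2
        exact h1 (hsupp R' h2).symm
    rcases j with _ | j
    · right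
      refine ⟨g.coeff (Finsupp.single 0 1), 0, ?_, ?_⟩
      · rw [pow_zero, pow_one]
        exact hgX
      · rw [← hn1, zero_add, pow_one, pow_zero, mul_one]
    · exfalso
      apply hR
      have h1 := congrArg (ept p j) hp
      rw [hgX, map_mul, map_mul, map_mul, map_mul, MvPolynomial.algHom_C, rename_C, rename_C,
        ← mul_add, map_mul, ept_psiP, ept_sum, mul_zero, mul_one] at h1
      have h2 : ept p j (C (g.coeff (Finsupp.single (j + 1) 1))) =
          g.coeff (Finsupp.single (j + 1) 1) := by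
        rw [MvPolynomial.algHom_C]
        rfl
      exact h2.symm.trans h1
  · push Not at hA
    by_cases hg0 : g = 0
    · exact Or.inl hg0
    right
    obtain ⟨f, hf⟩ := exists_pow hA
    have hfp : g = f ^ p := by rw [← hf, expand_zmod]
    have hcf : ∀ R, f.coeff R = g.coeff (p • R) := by
      intro R
      rw [← hf, coeff_expand_smul p hpp.ne_zero]
    have hf0 : f ≠ 0 := by
      rintro rfl
      rw [map_zero] at hf
      exact hg0 hf.symm
    have hw : ∀ R : ℕ →₀ ℕ, ((p • R).sum fun j r => r * (2 * (p ^ (j + 1) - 1))) =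
        p * R.sum fun j r => r * (2 * (p ^ (j + 1) - 1)) := by
      intro R
      rw [Finsupp.sum_smul_index (fun i => by rw [zero_mul]), Finsupp.sum, Finsupp.sum,
        Finset.mul_sum]
      refine Finset.sum_congr rfl fun i _ => ?_
      ring
    obtain ⟨R₀, hR₀⟩ : ∃ R₀, f.coeff R₀ ≠ 0 := by
      by_contra h
      push Not at h
      exact hf0 (MvPolynomial.ext _ _ fun R => by rw [h R, coeff_zero])
    obtain ⟨n', hn'⟩ : ∃ n', n' = R₀.sum fun j r => r * (2 * (p ^ (j + 1) - 1)) := ⟨_, rfl⟩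
    have hnn : n = p * n' := by
      rw [hn', ← hw, hg _ (by rw [← hcf]; exact hR₀)]
    have hn'1 : 1 ≤ n' := by
      rcases Nat.eq_zero_or_pos n' with h | h
      · rw [h, mul_zero] at hnn
        omega
      · exact h
    have hlt : n' < n := by
      rw [hnn]
      have := hpp.two_le
      nlinarith
    have hfg : ∀ R : ℕ →₀ ℕ, f.coeff R ≠ 0 →
        (R.sum fun j r => r * (2 * (p ^ (j + 1) - 1))) = n' := by
      intro R hR
      have h1 := hg (p • R) (by rw [← hcf]; exact hR)
      rw [hw, hnn] at h1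
      exact Nat.eq_of_mul_eq_mul_left hpp.pos h1
    have hfpsi : psiP p f = rename Sum.inl f + rename Sum.inr f := by
      apply frobenius_inj (MvPolynomial (ℕ ⊕ ℕ) (ZMod p)) p
      rw [map_add, frobenius_def, frobenius_def, frobenius_def, ← map_pow, ← map_pow, ← map_pow,
        ← hfp]
      exact hp
    rcases ih n' hlt hn'1 f hfg hfpsi with h | ⟨c, m, hc, hm⟩
    · exact absurd h hf0
    · refine ⟨c ^ p, m + 1, ?_, ?_⟩
      · rw [hfp, hc, mul_pow, ← map_pow, ← pow_mul, ← pow_succ]
      · rw [hnn, hm, pow_succ]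
        ring

end BPN.E
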