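import Pool.Agent.BPN.E.DerM
import Pool.Agent.BPN.E.PolyP

/-!
# Part (E), module Prim: families of functionals closed under convolution separate points (helper30)

`DualSys p N` : `N k` is a set of homogeneous functionals of degree `k`, closed under the convolution
`f ∘ JH g ∘ ψ`, containing a functional with `f 1 ≠ 0` in degree `0`, one with `f τ_0 ≠ 0` in degree `1` and, for all `m`,
one with `f (ξ_1^(p^m)) ≠ 0` in degree `2 (p-1) p^m`.

THEOREM `dual_sep`: a homogeneous `z` of degree `n` killed by all `f ∈ N n` is zero.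

PROOF.  Strong induction on `n`.  `n = 0`: `z = c • 1` (only the monomial `mon ∅ 0` has degree `0`).  Let `n ≥ 1`.
(A) Let `w = ψ z`.  Every monomial of `w` (split into a left part of degree `i` and a right part of degree `j`) has
    `i + j = n` (`psiM` preserves degrees).  Claim: the coefficients with `i, j ≥ 1` vanish.  For `g ∈ N i`, `f ∈ N j`:
    `f (JH g w) = 0`, and `JH g w` only sees the part with left degree `i`, it is homogeneous of degree `j < n`; by
    induction `JH g w = 0`.  So for every right monomial `F` of degree `j` the element `∑ (coefficient of E ⊗ F) mon E` of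
    degree `i < n` is killed by all `g ∈ N i`, hence `0`.
(B) The part with `j = 0` is `ιl z` and the part with `i = 0` is `ιr z`: the homomorphism killing all right
    generators maps `ψ z` to `ιl z` (compare on generators), similarly for the left ones.  So `ψ z = ιl z + ιr z`.
(C) For every `k`: `LD k z = JR (tst k) (ιl z + ιr z) = tst k z • 1` (`JR_mul`, `tst k 1 = 0`).  By `LD_mon` every monomial
    `mon E R` of `z` with `k ∈ E` is `mon {k} 0`.  So `z = ∑ c_k τ_k + sg ∅ g`, `g` a polynomial.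
(D) `c_k = 0` for `k ≥ 1`: the coefficient of `τ_0 ⊗ ξ_k` in `ψ z = ιl z + ιr z` is `0`, in `ψ(τ_k)` it is `1`, in
    `ψ(τ_j)`, `j ≠ k`, `0`, and `ψ(sg ∅ g)` contains no odd generators.
(E) `n` odd: `z = c τ_0` (`deg ξ_j` even), `n = 1`, functional in `N 1`.  `n` even: `z = sg ∅ g`, and
    `sg ∅ ∘ .. : MvPolynomial → Tw` is an injective ring homomorphism with `psiM (sg ∅ g)` = image of `psiP g`; `poly_prim`:
    `z = c ξ_1^(p^m)`, `n = 2 (p-1) p^m`; functional in `N n`.
-/

namespace BPN.E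

namespace Tw

/-- Systems of functionals. -/
structure DualSys (p : ℕ) [Fact p.Prime] (N : ℕ → Set (Tw p ℕ →+ ZMod p)) : Prop where
  hg : ∀ k f, f ∈ N k → Hg k f
  conv : ∀ k l f g, f ∈ N k → g ∈ N l → f.comp ((JH g).comp (psiM p).toAddMonoidHom) ∈ N (k + l)
  one : ∃ f ∈ N 0, f 1 ≠ 0
  beta : ∃ f ∈ N 1, f (t p 0) ≠ 0
  pow : ∀ m : ℕ, ∃ f ∈ N (2 * (p - 1) * p ^ m), f (v p 0 ^ p ^ m) ≠ 0

/-- Homogeneous elements of the Milnor algebra. -/
def HgM (p n : ℕ) (z : Tw p ℕ) : Prop := ∀ E R, co z E R ≠ 0 → Mil.deg p R E = n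

section gen

variable {p : ℕ} {I : Type} [LinearOrder I]

/-- The coefficient homomorphism. -/
private noncomputable def cf (p : ℕ) {I : Type} [LinearOrder I] (E : Finset I) (S : I →₀ ℕ) :
    Tw p I →+ ZMod p where
  toFun := fun x => co x E S
  map_zero' := co_zero E S
  map_add' := fun x y => co_add x y E S

private theorem cf_apply (E : Finset I) (S : I →₀ ℕ) (x : Tw p I) : cf p E S x = co x E S := rfl

private theorem repr_co (x : Tw p I) :
    x = ∑ z ∈ (co_finite x).toFinset, co x z.1 z.2 • mon p z.1 z.2 := by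
  refine ext_co fun E S => ?_
  rw [co_sum, Finset.sum_eq_single (E, S)]
  · rw [co_smul, co_mon, if_pos ⟨rfl, rfl⟩, mul_one]
  · intro z _ hz
    rw [co_smul, co_mon, if_neg, mul_zero]
    rintro ⟨h1, h2⟩
    exact hz (Prod.ext h1 h2)
  · intro hz
    have h1 : co x E S = 0 := by
      by_contra hne
      exact hz ((co_finite x).mem_toFinset.2 hne)
    rw [co_smul, h1, zero_mul]

omit [LinearOrder I] in
private theorem v_ind {P : (I →₀ ℕ) → Prop} (h0 : P 0)
    (hv : ∀ i S, P S → P (S + Finsupp.single i 1)) (S : I →₀ ℕ) : P S := by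
  induction S using Finsupp.induction with
  | zero => exact h0
  | single_add a b f _ _ ih =>
    have h3 : ∀ b : ℕ, P (Finsupp.single a b + f) := by
      intro b
      induction b with
      | zero => simpa using ih
      | succ b ihb =>
        have h1 := hv a _ ihb
        have h2 : Finsupp.single a b + f + Finsupp.single a 1 = Finsupp.single a (b + 1) + f := by
          rw [Finsupp.single_add]
          abel
        rwa [h2] at h1
    exact h3 b

private theorem mon_ind {P : Finset I → (I →₀ ℕ) → Prop} (h0 : P ∅ 0)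
    (hv : ∀ i S, P ∅ S → P ∅ (S + Finsupp.single i 1))
    (ht : ∀ i E S, (∀ e ∈ E, e < i) → P E S → P (insert i E) S) (E : Finset I) (S : I →₀ ℕ) :
    P E S := by
  have hS : P ∅ S := v_ind (P := P ∅) h0 hv S
  induction E using Finset.induction_on_max with
  | empty => exact hS
  | insert a s hs ih => exact ht a s S hs ih

private theorem mon_succ (S : I →₀ ℕ) (i : I) :
    mon p ∅ (S + Finsupp.single i 1) = mon p ∅ S * v p i :=
  (mon_mul_mon_empty ∅ S (Finsupp.single i 1)).symm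

private theorem mon_ins (E : Finset I) (S : I →₀ ℕ) (i : I) (h : ∀ e ∈ E, e < i) :
    mon p (insert i E) S = mon p E S * t p i := (mon_mul_t E S i h).symm

private theorem mon_mul_mon (E F : Finset I) (S T : I →₀ ℕ) :
    mon p E S * mon p F T = ((-1) ^ inv E F * qq p ^ (E ∩ F).card) •
      mon p (symmDiff E F) (S + T + ∑ i ∈ E ∩ F, Finsupp.single i 1) := by
  unfold mon
  rw [sg_mul_sg, ← sg_smul]
  congr 1
  have h1 : (∏ i ∈ E ∩ F, (MvPolynomial.X i : MvPolynomial I (ZMod p))) =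
      MvPolynomial.monomial (∑ i ∈ E ∩ F, Finsupp.single i 1) 1 := by
    rw [MvPolynomial.monomial_sum_one]
    rfl
  have h2 : (MvPolynomial.monomial (S + T + ∑ i ∈ E ∩ F, Finsupp.single i 1) (1 : ZMod p)) =
      MvPolynomial.monomial S 1 * MvPolynomial.monomial T 1 *
        MvPolynomial.monomial (∑ i ∈ E ∩ F, Finsupp.single i 1) 1 := by
    rw [MvPolynomial.monomial_mul, MvPolynomial.monomial_mul, mul_one, mul_one]
  unfold sf
  rw [Finset.prod_mul_distrib, Finset.prod_const, h1, h2, MvPolynomial.smul_eq_C_mul,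
    MvPolynomial.C_mul, MvPolynomial.C_pow, MvPolynomial.C_pow, MvPolynomial.C_neg,
    MvPolynomial.C_1]
  ring

/-- The weight of a monomial. -/
private def wt {I : Type} (a b : I → ℕ) (S : I →₀ ℕ) (E : Finset I) : ℕ :=
  (S.sum fun j r => r * b j) + ∑ e ∈ E, a e

omit [LinearOrder I] in
private theorem ws_add (b : I → ℕ) (S T : I →₀ ℕ) : ((S + T).sum fun j r => r * b j) =
    (S.sum fun j r => r * b j) + T.sum fun j r => r * b j :=
  Finsupp.sum_add_index' (fun _ => zero_mul _) fun _ _ _ => add_mul _ _ _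

private theorem ws_sum (b : I → ℕ) (D : Finset I) :
    ((∑ i ∈ D, Finsupp.single i 1 : I →₀ ℕ).sum fun j r => r * b j) = ∑ i ∈ D, b i := by
  classical
  induction D using Finset.induction_on with
  | empty => simp
  | insert i s hi ih =>
    rw [Finset.sum_insert hi, Finset.sum_insert hi, ws_add, ih,
      Finsupp.sum_single_index (zero_mul _), one_mul]

/-- The graded pieces. -/
private def gr (p : ℕ) {I : Type} [LinearOrder I] (a b : I → ℕ) (n : ℕ) :
    AddSubgroup (Tw p I) where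
  carrier := {w | ∀ E S, co w E S ≠ 0 → wt a b S E = n}
  add_mem' := by
    intro x y hx hy E S h
    by_cases h1 : co x E S = 0
    · refine hy E S fun h2 => h ?_
      rw [co_add, h1, h2, add_zero]
    · exact hx E S h1
  zero_mem' := fun E S h => absurd (co_zero E S) h
  neg_mem' := by
    intro x hx E S h
    refine hx E S fun h1 => h ?_
    rw [co_neg, h1, neg_zero]

private theorem gr_smul {a b : I → ℕ} {n : ℕ} (c : ZMod p) {x : Tw p I} (hx : x ∈ gr p a b n) :
    c • x ∈ gr p a b n := fun E S h => hx E S fun h1 => h (by rw [co_smul, h1, mul_zero])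

private theorem gr_mon (a b : I → ℕ) (E : Finset I) (S : I →₀ ℕ) :
    mon p E S ∈ gr p a b (wt a b S E) := by
  intro F T h
  rw [co_mon] at h
  split_ifs at h with h1
  · rw [h1.1, h1.2]
  · exact absurd rfl h

private theorem gr_mul {a b : I → ℕ} (hq : qq p ≠ 0 → ∀ i, 2 * a i = b i) {m n : ℕ}
    {x y : Tw p I} (hx : x ∈ gr p a b m) (hy : y ∈ gr p a b n) : x * y ∈ gr p a b (m + n) := by
  rw [repr_co x, repr_co y, Finset.sum_mul_sum]
  refine sum_mem fun z hz => sum_mem fun z' hz' => ?_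
  have h1 := hx z.1 z.2 ((co_finite x).mem_toFinset.1 hz)
  have h2 := hy z'.1 z'.2 ((co_finite y).mem_toFinset.1 hz')
  rw [smul_mul, mul_smul']
  refine gr_smul _ (gr_smul _ ?_)
  rw [mon_mul_mon]
  by_cases h3 : qq p ^ (z.1 ∩ z'.1).card = 0
  · rw [h3, mul_zero, zero_smul]
    exact zero_mem _
  refine gr_smul _ ?_
  have h4 : ∑ i ∈ z.1 ∩ z'.1, b i = 2 * ∑ i ∈ z.1 ∩ z'.1, a i := by
    rw [Finset.mul_sum]
    refine Finset.sum_congr rfl fun i hi => ?_
    refine (hq (fun h5 => h3 ?_) i).symm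
    rw [h5, zero_pow]
    exact (Finset.card_pos.2 ⟨i, hi⟩).ne'
  have h5 : wt a b (z.2 + z'.2 + ∑ i ∈ z.1 ∩ z'.1, Finsupp.single i 1)
      (symmDiff z.1 z'.1) = m + n := by
    rw [← h1, ← h2]
    unfold wt
    rw [ws_add, ws_add, ws_sum, h4]
    have h6 : ∑ i ∈ symmDiff z.1 z'.1, a i + 2 * ∑ i ∈ z.1 ∩ z'.1, a i =
        ∑ i ∈ z.1, a i + ∑ i ∈ z'.1, a i := by
      have e1 := Finset.sum_inter_add_sum_sdiff z.1 z'.1 a
      have e2 := Finset.sum_inter_add_sum_sdiff z'.1 z.1 a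
      rw [Finset.inter_comm] at e2
      have e3 : ∑ i ∈ symmDiff z.1 z'.1, a i = ∑ i ∈ z.1 \ z'.1, a i + ∑ i ∈ z'.1 \ z.1, a i := by
        rw [← Finset.sum_union disjoint_sdiff_sdiff]
        rfl
      omega
    omega
  rw [← h5]
  exact gr_mon a b _ _

private theorem gr_one (a b : I → ℕ) : (1 : Tw p I) ∈ gr p a b 0 := by
  have h := gr_mon (p := p) a b (∅ : Finset I) 0
  rw [mon_zero] at h
  unfold wt at h
  rwa [Finsupp.sum_zero_index, Finset.sum_empty] at h

private theorem gr_pow {a b : I → ℕ} (hq : qq p ≠ 0 → ∀ i, 2 * a i = b i) {m : ℕ}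
    {x : Tw p I} (hx : x ∈ gr p a b m) (k : ℕ) : x ^ k ∈ gr p a b (k * m) := by
  induction k with
  | zero =>
    rw [pow_zero, zero_mul]
    exact gr_one a b
  | succ k ih =>
    rw [pow_succ, add_mul, one_mul]
    exact gr_mul hq ih hx

private theorem gr_t (a b : I → ℕ) (i : I) : t p i ∈ gr p a b (a i) := by
  have h := gr_mon (p := p) a b {i} 0
  unfold wt at h
  rwa [Finsupp.sum_zero_index, Finset.sum_singleton, zero_add] at h

private theorem gr_v (a b : I → ℕ) (i : I) : v p i ∈ gr p a b (b i) := by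
  have h := gr_mon (p := p) a b ∅ (Finsupp.single i 1)
  unfold wt at h
  rwa [Finsupp.sum_single_index (zero_mul _), Finset.sum_empty, one_mul, add_zero] at h

end gen

/-! ### the degree of the coproduct -/

section deg

variable (p : ℕ)

private def ta (e : ℕ) : ℕ := 2 * p ^ e - 1

private def tv (j : ℕ) : ℕ := 2 * (p ^ (j + 1) - 1)

private def ta2 (z : ℕ ⊕ₗ ℕ) : ℕ := Sum.elim (ta p) (ta p) (ofLex z)

private def tv2 (z : ℕ ⊕ₗ ℕ) : ℕ := Sum.elim (tv p) (tv p) (ofLex z)

private theorem hq1 : qq p ≠ 0 → ∀ i, 2 * ta p i = tv p i := by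
  intro h i
  have hp : p = 2 := by
    by_contra h1
    exact h (if_neg h1)
  subst hp
  unfold ta tv
  have h1 := Nat.one_le_two_pow (n := i)
  rw [pow_succ]
  omega

private theorem hq2 : qq p ≠ 0 → ∀ i, 2 * ta2 p i = tv2 p i := by
  rintro h (i | i)
  · exact hq1 p h i
  · exact hq1 p h i

variable [Fact p.Prime]

omit [Fact p.Prime] in
private theorem gr_xl (j : ℕ) : xl p j ∈ gr p (ta2 p) (tv2 p) (2 * (p ^ j - 1)) := by
  unfold xl
  split_ifs with h
  · rw [h, pow_zero]
    exact gr_one _ _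
  · have h1 := gr_v (p := p) (ta2 p) (tv2 p) (toLex (Sum.inl (j - 1)))
    have h2 : tv2 p (toLex (Sum.inl (j - 1))) = 2 * (p ^ j - 1) := by
      change 2 * (p ^ (j - 1 + 1) - 1) = _
      rw [Nat.sub_add_cancel (Nat.pos_of_ne_zero h)]
    rwa [h2] at h1

omit [Fact p.Prime] in
private theorem gr_xr (j : ℕ) : xr p j ∈ gr p (ta2 p) (tv2 p) (2 * (p ^ j - 1)) := by
  unfold xr
  split_ifs with h
  · rw [h, pow_zero]
    exact gr_one _ _
  · have h1 := gr_v (p := p) (ta2 p) (tv2 p) (toLex (Sum.inr (j - 1)))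
    have h2 : tv2 p (toLex (Sum.inr (j - 1))) = 2 * (p ^ j - 1) := by
      change 2 * (p ^ (j - 1 + 1) - 1) = _
      rw [Nat.sub_add_cancel (Nat.pos_of_ne_zero h)]
    rwa [h2] at h1

private theorem pw (k m : ℕ) : p ^ k * (p ^ m - 1) + p ^ k = p ^ (k + m) := by
  have h1 : 1 ≤ p ^ m := pow_pos (Fact.out : p.Prime).pos _
  have h2 : p ^ k * (p ^ m - 1) + p ^ k * 1 = p ^ k * p ^ m := by
    rw [← mul_add, Nat.sub_add_cancel h1]
  rw [pow_add]
  omega

private theorem gr_psi_t (n : ℕ) : psiM p (t p n) ∈ gr p (ta2 p) (tv2 p) (ta p n) := by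
  rw [psiM_t]
  refine add_mem (gr_t (p := p) (ta2 p) (tv2 p) (toLex (Sum.inr n))) (sum_mem fun k hk => ?_)
  have hk' : k < n + 1 := Finset.mem_range.1 hk
  have h1 := gr_mul (hq2 p) (gr_t (p := p) (ta2 p) (tv2 p) (toLex (Sum.inl k)))
    (gr_pow (hq2 p) (gr_xr p (n - k)) (p ^ k))
  have h2 : ta2 p (toLex (Sum.inl k)) + p ^ k * (2 * (p ^ (n - k) - 1)) = ta p n := by
    change 2 * p ^ k - 1 + p ^ k * (2 * (p ^ (n - k) - 1)) = 2 * p ^ n - 1
    have h3 := pw p k (n - k)
    rw [Nat.add_sub_cancel' (by omega)] at h3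
    have h4 : 1 ≤ p ^ k := pow_pos (Fact.out : p.Prime).pos _
    have h5 : p ^ k * (2 * (p ^ (n - k) - 1)) = 2 * (p ^ k * (p ^ (n - k) - 1)) := by ring
    omega
  rwa [h2] at h1

private theorem gr_psi_v (n : ℕ) : psiM p (v p n) ∈ gr p (ta2 p) (tv2 p) (tv p n) := by
  rw [psiM_v]
  refine sum_mem fun k hk => ?_
  have hk' : k < n + 2 := Finset.mem_range.1 hk
  have h1 := gr_mul (hq2 p) (gr_xl p k) (gr_pow (hq2 p) (gr_xr p (n + 1 - k)) (p ^ k))
  have h2 : 2 * (p ^ k - 1) + p ^ k * (2 * (p ^ (n + 1 - k) - 1)) = tv p n := by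
    change _ = 2 * (p ^ (n + 1) - 1)
    have h3 := pw p k (n + 1 - k)
    rw [Nat.add_sub_cancel' (by omega)] at h3
    have h4 : 1 ≤ p ^ k := pow_pos (Fact.out : p.Prime).pos _
    have h5 : p ^ k * (2 * (p ^ (n + 1 - k) - 1)) = 2 * (p ^ k * (p ^ (n + 1 - k) - 1)) := by ring
    omega
  rwa [h2] at h1

private theorem gr_psi_mon (E : Finset ℕ) (S : ℕ →₀ ℕ) :
    psiM p (mon p E S) ∈ gr p (ta2 p) (tv2 p) (Mil.deg p S E) := by
  refine mon_ind (P := fun E S => psiM p (mon p E S) ∈ gr p (ta2 p) (tv2 p) (Mil.deg p S E))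
    ?_ ?_ ?_ E S
  · rw [mon_zero, map_one]
    have h : Mil.deg p 0 ∅ = 0 := by
      unfold Mil.deg
      rw [Finsupp.sum_zero_index, Finset.sum_empty, add_zero]
    rw [h]
    exact gr_one _ _
  · intro i S h
    rw [mon_succ, map_mul]
    have h1 : Mil.deg p (S + Finsupp.single i 1) ∅ = Mil.deg p S ∅ + tv p i := by
      unfold Mil.deg
      rw [ws_add (fun j => 2 * (p ^ (j + 1) - 1)), Finsupp.sum_single_index (zero_mul _), one_mul,
        Finset.sum_empty]
      rfl
    rw [h1]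
    exact gr_mul (hq2 p) h (gr_psi_v p i)
  · intro i E S hi h
    rw [mon_ins E S i hi, map_mul]
    have h1 : Mil.deg p S (insert i E) = Mil.deg p S E + ta p i := by
      unfold Mil.deg
      rw [Finset.sum_insert (fun h2 => lt_irrefl i (hi i h2))]
      unfold ta
      omega
    rw [h1]
    exact gr_mul (hq2 p) h (gr_psi_t p i)

end deg

/-! ### coefficients of the tensor product -/

section pair

variable {p : ℕ}

private noncomputable def pE (E F : Finset ℕ) : Finset (ℕ ⊕ₗ ℕ) :=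
  (E.image fun i => toLex (Sum.inl i)) ∪ F.image fun i => toLex (Sum.inr i)

private noncomputable def pS (S T : ℕ →₀ ℕ) : (ℕ ⊕ₗ ℕ) →₀ ℕ :=
  (S.mapDomain fun i => toLex (Sum.inl i)) + T.mapDomain fun i => toLex (Sum.inr i)

private theorem inl_sm : StrictMono (fun i : ℕ => (toLex (Sum.inl i) : ℕ ⊕ₗ ℕ)) :=
  Sum.Lex.inl_strictMono

private theorem inr_sm : StrictMono (fun j : ℕ => (toLex (Sum.inr j) : ℕ ⊕ₗ ℕ)) :=
  Sum.Lex.inr_strictMono

private noncomputable def lE (E : Finset (ℕ ⊕ₗ ℕ)) : Finset ℕ :=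
  E.preimage (fun i => toLex (Sum.inl i)) (inl_sm.injective.injOn)

private noncomputable def rE (E : Finset (ℕ ⊕ₗ ℕ)) : Finset ℕ :=
  E.preimage (fun j => toLex (Sum.inr j)) (inr_sm.injective.injOn)

private noncomputable def lS (S : (ℕ ⊕ₗ ℕ) →₀ ℕ) : ℕ →₀ ℕ :=
  S.comapDomain (fun i => toLex (Sum.inl i)) (inl_sm.injective.injOn)

private noncomputable def rS (S : (ℕ ⊕ₗ ℕ) →₀ ℕ) : ℕ →₀ ℕ :=
  S.comapDomain (fun j => toLex (Sum.inr j)) (inr_sm.injective.injOn)

private theorem mem_lE {E : Finset (ℕ ⊕ₗ ℕ)} {i : ℕ} : i ∈ lE E ↔ toLex (Sum.inl i) ∈ E :=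
  Finset.mem_preimage

private theorem mem_rE {E : Finset (ℕ ⊕ₗ ℕ)} {j : ℕ} : j ∈ rE E ↔ toLex (Sum.inr j) ∈ E :=
  Finset.mem_preimage

private theorem lS_apply (S : (ℕ ⊕ₗ ℕ) →₀ ℕ) (i : ℕ) : lS S i = S (toLex (Sum.inl i)) := rfl

private theorem rS_apply (S : (ℕ ⊕ₗ ℕ) →₀ ℕ) (j : ℕ) : rS S j = S (toLex (Sum.inr j)) := rfl

private theorem inl_ne_inr (i j : ℕ) :
    (toLex (Sum.inl i) : ℕ ⊕ₗ ℕ) ≠ toLex (Sum.inr j) := fun h => by
  have := toLex.injective h
  cases this

private theorem mem_pE_l {E F : Finset ℕ} {i : ℕ} :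
    (toLex (Sum.inl i) : ℕ ⊕ₗ ℕ) ∈ pE E F ↔ i ∈ E := by
  unfold pE
  rw [Finset.mem_union, Finset.mem_image, Finset.mem_image]
  constructor
  · rintro (⟨a, ha, h⟩ | ⟨a, ha, h⟩)
    · have : a = i := inl_sm.injective h
      rwa [← this]
    · exact absurd h.symm (inl_ne_inr _ _)
  · intro h
    exact Or.inl ⟨i, h, rfl⟩

private theorem mem_pE_r {E F : Finset ℕ} {i : ℕ} :
    (toLex (Sum.inr i) : ℕ ⊕ₗ ℕ) ∈ pE E F ↔ i ∈ F := by
  unfold pE
  rw [Finset.mem_union, Finset.mem_image, Finset.mem_image]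
  constructor
  · rintro (⟨a, ha, h⟩ | ⟨a, ha, h⟩)
    · exact absurd h (inl_ne_inr _ _)
    · have : a = i := inr_sm.injective h
      rwa [← this]
  · intro h
    exact Or.inr ⟨i, h, rfl⟩

private theorem inl_nr (i : ℕ) :
    (toLex (Sum.inl i) : ℕ ⊕ₗ ℕ) ∉ Set.range fun j : ℕ => (toLex (Sum.inr j) : ℕ ⊕ₗ ℕ) := by
  rintro ⟨j, h⟩
  exact inl_ne_inr _ _ h.symm

private theorem inr_nr (j : ℕ) :
    (toLex (Sum.inr j) : ℕ ⊕ₗ ℕ) ∉ Set.range fun i : ℕ => (toLex (Sum.inl i) : ℕ ⊕ₗ ℕ) := by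
  rintro ⟨i, h⟩
  exact inl_ne_inr _ _ h

private theorem pS_l (S T : ℕ →₀ ℕ) (i : ℕ) : pS S T (toLex (Sum.inl i)) = S i := by
  unfold pS
  rw [Finsupp.add_apply, Finsupp.mapDomain_of_notMem_range _ _ (inl_nr i), add_zero]
  exact Finsupp.mapDomain_apply inl_sm.injective S i

private theorem pS_r (S T : ℕ →₀ ℕ) (j : ℕ) : pS S T (toLex (Sum.inr j)) = T j := by
  unfold pS
  rw [Finsupp.add_apply, Finsupp.mapDomain_of_notMem_range _ _ (inr_nr j), zero_add]
  exact Finsupp.mapDomain_apply inr_sm.injective T j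

private theorem E_iff {G : Finset (ℕ ⊕ₗ ℕ)} {E F : Finset ℕ} :
    G = pE E F ↔ lE G = E ∧ rE G = F := by
  constructor
  · rintro rfl
    refine ⟨?_, ?_⟩
    · ext i
      rw [mem_lE, mem_pE_l]
    · ext i
      rw [mem_rE, mem_pE_r]
  · rintro ⟨rfl, rfl⟩
    ext z
    obtain ⟨z, rfl⟩ := toLex.surjective z
    rcases z with i | j
    · rw [mem_pE_l, mem_lE]
    · rw [mem_pE_r, mem_rE]

private theorem S_iff {U : (ℕ ⊕ₗ ℕ) →₀ ℕ} {S T : ℕ →₀ ℕ} :
    U = pS S T ↔ lS U = S ∧ rS U = T := by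
  constructor
  · rintro rfl
    refine ⟨?_, ?_⟩
    · ext i
      rw [lS_apply, pS_l]
    · ext i
      rw [rS_apply, pS_r]
  · rintro ⟨rfl, rfl⟩
    ext z
    obtain ⟨z, rfl⟩ := toLex.surjective z
    rcases z with i | j
    · rw [pS_l, lS_apply]
    · rw [pS_r, rS_apply]

private theorem mon_dec (E : Finset (ℕ ⊕ₗ ℕ)) (S : (ℕ ⊕ₗ ℕ) →₀ ℕ) :
    mon p E S = ιl p ℕ ℕ (mon p (lE E) (lS S)) * ιr p ℕ ℕ (mon p (rE E) (rS S)) := by
  have h1 : E = pE (lE E) (rE E) := E_iff.2 ⟨rfl, rfl⟩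
  have h2 : S = pS (lS S) (rS S) := S_iff.2 ⟨rfl, rfl⟩
  conv_lhs => rw [h1, h2]
  rw [ιl_mul_ιr]
  rfl

/-- The coefficients of the contraction. -/
private theorem JH_pair (E : Finset ℕ) (S : ℕ →₀ ℕ) (F : Finset ℕ) (T : ℕ →₀ ℕ)
    (w : Tw p (ℕ ⊕ₗ ℕ)) : co (JH (cf p E S) w) F T = co w (pE E F) (pS S T) := by
  have h : (cf p F T).comp (JH (cf p E S)) = cf p (pE E F) (pS S T) := by
    refine addHom_ext fun c G U => ?_
    change co (JH (cf p E S) (c • mon p G U)) F T = co (c • mon p G U) (pE E F) (pS S T)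
    have h1 : c • mon p G U = ιl p ℕ ℕ (c • mon p (lE G) (lS U)) *
        ιr p ℕ ℕ (mon p (rE G) (rS U)) := by
      rw [hom_smul, smul_mul, ← mon_dec]
    rw [h1, JH_mul, ← h1, cf_apply, co_smul, co_smul, co_smul, co_mon, co_mon, co_mon]
    by_cases h2 : G = pE E F
    · by_cases h3 : U = pS S T
      · rw [if_pos (c := G = pE E F ∧ U = pS S T) ⟨h2, h3⟩,
          if_pos (c := lE G = E ∧ lS U = S) ⟨(E_iff.1 h2).1, (S_iff.1 h3).1⟩,
          if_pos (c := rE G = F ∧ rS U = T) ⟨(E_iff.1 h2).2, (S_iff.1 h3).2⟩, mul_one, mul_one]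
      · rw [if_neg (c := G = pE E F ∧ U = pS S T) (fun h4 => h3 h4.2)]
        by_cases h4 : lS U = S
        · rw [if_neg (c := rE G = F ∧ rS U = T) (fun h5 => h3 (S_iff.2 ⟨h4, h5.2⟩)), mul_zero,
            mul_zero]
        · rw [if_neg (c := lE G = E ∧ lS U = S) (fun h5 => h4 h5.2), mul_zero, zero_mul]
    · rw [if_neg (c := G = pE E F ∧ U = pS S T) (fun h4 => h2 h4.1)]
      by_cases h4 : lE G = E
      · rw [if_neg (c := rE G = F ∧ rS U = T) (fun h5 => h2 (E_iff.2 ⟨h4, h5.1⟩)), mul_zero,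
          mul_zero]
      · rw [if_neg (c := lE G = E ∧ lS U = S) (fun h5 => h4 h5.1), mul_zero, zero_mul]
  exact DFunLike.congr_fun h w

private theorem JR_pair [Fact p.Prime] (E : Finset ℕ) (S : ℕ →₀ ℕ) (F : Finset ℕ) (T : ℕ →₀ ℕ)
    (w : Tw p (ℕ ⊕ₗ ℕ)) : co (JR (cf p F T) w) E S = co w (pE E F) (pS S T) := by
  have h := JH_JR (cf p E S) (cf p F T) w
  rw [cf_apply, cf_apply, JH_pair] at h
  exact h.symm

private theorem ext_pair {w w' : Tw p (ℕ ⊕ₗ ℕ)}
    (h : ∀ E S F T, co w (pE E F) (pS S T) = co w' (pE E F) (pS S T)) : w = w' := by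
  refine ext_co fun G U => ?_
  have h1 : G = pE (lE G) (rE G) := E_iff.2 ⟨rfl, rfl⟩
  have h2 : U = pS (lS U) (rS U) := S_iff.2 ⟨rfl, rfl⟩
  rw [h1, h2]
  exact h _ _ _ _

private theorem wt_pair (E : Finset ℕ) (S : ℕ →₀ ℕ) (F : Finset ℕ) (T : ℕ →₀ ℕ) :
    wt (ta2 p) (tv2 p) (pS S T) (pE E F) = Mil.deg p S E + Mil.deg p T F := by
  have h1 : ((pS S T).sum fun j r => r * tv2 p j) =
      (S.sum fun j r => r * (2 * (p ^ (j + 1) - 1))) +
        T.sum fun j r => r * (2 * (p ^ (j + 1) - 1)) := by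
    unfold pS
    rw [ws_add (tv2 p), Finsupp.sum_mapDomain_index (fun _ => zero_mul _)
      (fun _ _ _ => add_mul _ _ _), Finsupp.sum_mapDomain_index (fun _ => zero_mul _)
      (fun _ _ _ => add_mul _ _ _)]
    rfl
  have h2 : ∑ e ∈ pE E F, ta2 p e = ∑ e ∈ E, (2 * p ^ e - 1) + ∑ e ∈ F, (2 * p ^ e - 1) := by
    unfold pE
    rw [Finset.sum_union, Finset.sum_image (fun _ _ _ _ h => inl_sm.injective h),
      Finset.sum_image (fun _ _ _ _ h => inr_sm.injective h)]
    · rfl
    · rw [Finset.disjoint_left]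
      intro z hz hz'
      obtain ⟨i, -, rfl⟩ := Finset.mem_image.1 hz
      obtain ⟨j, -, h⟩ := Finset.mem_image.1 hz'
      exact inl_ne_inr _ _ h.symm
  unfold wt Mil.deg
  rw [h1, h2]
  omega

/-- The degrees in the coproduct. -/
private theorem psi_deg [Fact p.Prime] {n : ℕ} {z : Tw p ℕ} (hz : HgM p n z) (E : Finset ℕ)
    (S : ℕ →₀ ℕ) (F : Finset ℕ) (T : ℕ →₀ ℕ)
    (h : co (psiM p z) (pE E F) (pS S T) ≠ 0) : Mil.deg p S E + Mil.deg p T F = n := by
  have h1 : psiM p z ∈ gr p (ta2 p) (tv2 p) n := by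
    rw [repr_co z, map_sum]
    refine sum_mem fun q hq => ?_
    rw [hom_smul]
    refine gr_smul _ ?_
    have h2 := hz q.1 q.2 ((co_finite z).mem_toFinset.1 hq)
    rw [← h2]
    exact gr_psi_mon p q.1 q.2
  rw [← wt_pair]
  exact h1 _ _ h

end pair

/-! ### the counits -/

section counit

variable (p : ℕ)

private theorem zero_par {I : Type} [LinearOrder I] (n : ℕ) : (0 : Tw p I) ∈ Par p I n :=
  zero_mem _

/-- The projections of the tensor product. -/
private noncomputable def kL : Tw p (ℕ ⊕ₗ ℕ) →+* Tw p ℕ :=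
  lft (fun z => Sum.elim (fun i => t p i) (fun _ => 0) (ofLex z))
    (fun z => Sum.elim (fun i => v p i) (fun _ => 0) (ofLex z))
    (fun z => by
      obtain i | j := z
      · exact t_mem_Par i
      · exact zero_par p 1)
    (fun z => by
      obtain i | j := z
      · exact v_mem_Par i
      · exact zero_par p 0)
    (fun z => by
      obtain i | j := z
      · exact t_sq i
      · exact (zero_mul _).trans (smul_zero _).symm)

private noncomputable def kR : Tw p (ℕ ⊕ₗ ℕ) →+* Tw p ℕ :=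
  lft (fun z => Sum.elim (fun _ => 0) (fun i => t p i) (ofLex z))
    (fun z => Sum.elim (fun _ => 0) (fun i => v p i) (ofLex z))
    (fun z => by
      obtain i | j := z
      · exact zero_par p 1
      · exact t_mem_Par j)
    (fun z => by
      obtain i | j := z
      · exact zero_par p 0
      · exact v_mem_Par j)
    (fun z => by
      obtain i | j := z
      · exact (zero_mul _).trans (smul_zero _).symm
      · exact t_sq j)

private theorem kL_tl (i : ℕ) : kL p (t p (toLex (Sum.inl i))) = t p i := lft_t (toLex (Sum.inl i))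

private theorem kL_tr (i : ℕ) : kL p (t p (toLex (Sum.inr i))) = 0 := lft_t (toLex (Sum.inr i))

private theorem kL_vl (i : ℕ) : kL p (v p (toLex (Sum.inl i))) = v p i := lft_v (toLex (Sum.inl i))

private theorem kL_vr (i : ℕ) : kL p (v p (toLex (Sum.inr i))) = 0 := lft_v (toLex (Sum.inr i))

private theorem kR_tl (i : ℕ) : kR p (t p (toLex (Sum.inl i))) = 0 := lft_t (toLex (Sum.inl i))

private theorem kR_tr (i : ℕ) : kR p (t p (toLex (Sum.inr i))) = t p i := lft_t (toLex (Sum.inr i))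

private theorem kR_vl (i : ℕ) : kR p (v p (toLex (Sum.inl i))) = 0 := lft_v (toLex (Sum.inl i))

private theorem kR_vr (i : ℕ) : kR p (v p (toLex (Sum.inr i))) = v p i := lft_v (toLex (Sum.inr i))

/-- Killing everything. -/
private theorem kil_univ (x : Tw p ℕ) : kil p (Set.univ : Set ℕ) x = co x ∅ 0 • 1 := by
  refine induct (P := fun x => kil p (Set.univ : Set ℕ) x = co x ∅ 0 • 1) ?_ ?_ ?_ x
  · rw [map_zero, co_zero, zero_smul]
  · intro x y hx hy
    rw [map_add, hx, hy, co_add, add_smul]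
  · intro c E S
    rw [hom_smul, kil_mon, co_smul, co_mon, mul_smul]
    congr 1
    by_cases h : E = ∅ ∧ S = 0
    · rw [if_pos h, if_neg, one_smul, h.1, h.2, mon_zero]
      rw [h.1, h.2]
      rintro (⟨i, hi, -⟩ | ⟨i, hi, -⟩)
      · exact Finset.notMem_empty i hi
      · exact Finset.notMem_empty i (by rwa [Finsupp.support_zero] at hi)
    · rw [if_neg h, if_pos, zero_smul]
      by_contra h1
      rw [not_or] at h1
      refine h ⟨?_, ?_⟩
      · by_contra h2
        obtain ⟨i, hi⟩ := Finset.nonempty_iff_ne_empty.2 h2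
        exact h1.1 ⟨i, hi, Set.mem_univ i⟩
      · by_contra h2
        obtain ⟨i, hi⟩ := Finset.nonempty_iff_ne_empty.2 (fun h3 => h2 (Finsupp.support_eq_empty.1 h3))
        exact h1.2 ⟨i, hi, Set.mem_univ i⟩

private theorem ιl_t (i : ℕ) : ιl p ℕ ℕ (t p i) = t p (toLex (Sum.inl i)) := map_t _ i

private theorem ιl_v (i : ℕ) : ιl p ℕ ℕ (v p i) = v p (toLex (Sum.inl i)) := map_v _ i

private theorem ιr_t (i : ℕ) : ιr p ℕ ℕ (t p i) = t p (toLex (Sum.inr i)) := map_t _ i

private theorem ιr_v (i : ℕ) : ιr p ℕ ℕ (v p i) = v p (toLex (Sum.inr i)) := map_v _ i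

private theorem kL_l (x : Tw p ℕ) : kL p (ιl p ℕ ℕ x) = x := by
  have h : (kL p).comp (ιl p ℕ ℕ) = RingHom.id _ := by
    refine hom_ext (fun i => ?_) fun i => ?_
    · rw [RingHom.comp_apply, ιl_t, kL_tl, RingHom.id_apply]
    · rw [RingHom.comp_apply, ιl_v, kL_vl, RingHom.id_apply]
  exact DFunLike.congr_fun h x

private theorem kR_r (x : Tw p ℕ) : kR p (ιr p ℕ ℕ x) = x := by
  have h : (kR p).comp (ιr p ℕ ℕ) = RingHom.id _ := by
    refine hom_ext (fun i => ?_) fun i => ?_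
    · rw [RingHom.comp_apply, ιr_t, kR_tr, RingHom.id_apply]
    · rw [RingHom.comp_apply, ιr_v, kR_vr, RingHom.id_apply]
  exact DFunLike.congr_fun h x

private theorem kL_r (x : Tw p ℕ) : kL p (ιr p ℕ ℕ x) = co x ∅ 0 • 1 := by
  have h : (kL p).comp (ιr p ℕ ℕ) = kil p (Set.univ : Set ℕ) := by
    refine hom_ext (fun i => ?_) fun i => ?_
    · rw [RingHom.comp_apply, ιr_t, kL_tr, kil_t, if_pos (Set.mem_univ i)]
    · rw [RingHom.comp_apply, ιr_v, kL_vr, kil_v, if_pos (Set.mem_univ i)]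
  rw [← kil_univ]
  exact DFunLike.congr_fun h x

private theorem kR_l (x : Tw p ℕ) : kR p (ιl p ℕ ℕ x) = co x ∅ 0 • 1 := by
  have h : (kR p).comp (ιl p ℕ ℕ) = kil p (Set.univ : Set ℕ) := by
    refine hom_ext (fun i => ?_) fun i => ?_
    · rw [RingHom.comp_apply, ιl_t, kR_tl, kil_t, if_pos (Set.mem_univ i)]
    · rw [RingHom.comp_apply, ιl_v, kR_vl, kil_v, if_pos (Set.mem_univ i)]
  rw [← kil_univ]
  exact DFunLike.congr_fun h x

private theorem JH_kR (w : Tw p (ℕ ⊕ₗ ℕ)) : JH (cf p ∅ 0) w = kR p w := by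
  have h : JH (cf p ∅ 0) = (kR p).toAddMonoidHom := by
    refine lex_ext fun x y => ?_
    change _ = kR p (ιl p ℕ ℕ x * ιr p ℕ ℕ y)
    rw [JH_mul, map_mul, kR_l, kR_r, smul_mul, one_mul, cf_apply]
  exact DFunLike.congr_fun h w

variable [Fact p.Prime]

private theorem JR_kL (w : Tw p (ℕ ⊕ₗ ℕ)) : JR (cf p ∅ 0) w = kL p w := by
  have h : JR (cf p ∅ 0) = (kL p).toAddMonoidHom := by
    refine lex_ext fun x y => ?_
    change _ = kL p (ιl p ℕ ℕ x * ιr p ℕ ℕ y)
    rw [JR_mul, map_mul, kL_l, kL_r, mul_smul', mul_one, cf_apply]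
  exact DFunLike.congr_fun h w

private theorem kR_psi (z : Tw p ℕ) : kR p (psiM p z) = z := by
  have hxl : ∀ k, kR p (xl p (k + 1)) = 0 := fun k => by
    unfold xl
    rw [if_neg (Nat.succ_ne_zero k), kR_vl]
  have hxr : ∀ k, kR p (xr p (k + 1)) = v p k := fun k => by
    unfold xr
    rw [if_neg (Nat.succ_ne_zero k), kR_vr, Nat.add_sub_cancel]
  have h : (kR p).comp (psiM p) = RingHom.id _ := by
    refine hom_ext (fun n => ?_) fun n => ?_
    · rw [RingHom.comp_apply, psiM_t, map_add, kR_tr, map_sum, Finset.sum_eq_zero, add_zero,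
        RingHom.id_apply]
      intro k _
      rw [map_mul, kR_tl, zero_mul]
    · rw [RingHom.comp_apply, psiM_v, map_sum, Finset.sum_range_succ', Finset.sum_eq_zero,
        zero_add, map_mul, pow_zero, pow_one, Nat.sub_zero, hxr, RingHom.id_apply]
      · have h1 : kR p (xl p 0) = 1 := by
          unfold xl
          rw [if_pos rfl, map_one]
        rw [h1, one_mul]
      · intro k _
        rw [map_mul, hxl, zero_mul]
  exact DFunLike.congr_fun h z

private theorem kL_psi (z : Tw p ℕ) : kL p (psiM p z) = z := by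
  have hxl : ∀ k, kL p (xl p (k + 1)) = v p k := fun k => by
    unfold xl
    rw [if_neg (Nat.succ_ne_zero k), kL_vl, Nat.add_sub_cancel]
  have hx0 : kL p (xr p 0) = 1 := by
    unfold xr
    rw [if_pos rfl, map_one]
  have hxr : ∀ k, 0 < k → kL p (xr p k) = 0 := fun k hk => by
    unfold xr
    rw [if_neg hk.ne', kL_vr]
  have hp0 : ∀ k : ℕ, p ^ k ≠ 0 := fun k => pow_ne_zero k (Fact.out : p.Prime).ne_zero
  have h : (kL p).comp (psiM p) = RingHom.id _ := by
    refine hom_ext (fun n => ?_) fun n => ?_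
    · rw [RingHom.comp_apply, psiM_t, map_add, kL_tr, map_sum, Finset.sum_range_succ,
        Finset.sum_eq_zero, zero_add, zero_add, map_mul, kL_tl, map_pow, Nat.sub_self, hx0,
        one_pow, mul_one, RingHom.id_apply]
      intro k hk
      rw [map_mul, map_pow, hxr _ (by have := Finset.mem_range.1 hk; omega), zero_pow (hp0 k),
        mul_zero]
    · rw [RingHom.comp_apply, psiM_v, map_sum, Finset.sum_range_succ, Finset.sum_eq_zero,
        zero_add, map_mul, map_pow, hxl, Nat.sub_self, hx0, one_pow, mul_one, RingHom.id_apply]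
      intro k hk
      rw [map_mul, map_pow, hxr _ (by have := Finset.mem_range.1 hk; omega), zero_pow (hp0 k),
        mul_zero]
  exact DFunLike.congr_fun h z

end counit

/-! ### polynomials -/

section poly

variable (p : ℕ)

/-- Polynomials in `Tw p I`. -/
private noncomputable def sgH (I : Type) [LinearOrder I] : MvPolynomial I (ZMod p) →+* Tw p I where
  toFun := fun a => sg ∅ a
  map_one' := rfl
  map_mul' := fun a b => by
    rw [sg_mul_sg]
    have h1 : symmDiff (∅ : Finset I) ∅ = ∅ := symmDiff_self _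
    have h2 : sf p (∅ : Finset I) ∅ = 1 := by
      unfold sf inv
      simp
    rw [h1, h2, one_mul]
  map_zero' := Finsupp.single_zero _
  map_add' := fun a b => sg_add _ a b

private theorem sgH_inj (I : Type) [LinearOrder I] : Function.Injective (sgH p I) :=
  Finsupp.single_injective (M := MvPolynomial I (ZMod p)) (∅ : Finset I)

private theorem sgH_X {I : Type} [LinearOrder I] (i : I) : sgH p I (MvPolynomial.X i) = v p i := rfl

/-- Polynomials in two sets of variables. -/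
private noncomputable def Ph : MvPolynomial (ℕ ⊕ ℕ) (ZMod p) →+* Tw p (ℕ ⊕ₗ ℕ) :=
  (sgH p (ℕ ⊕ₗ ℕ)).comp
    (MvPolynomial.rename (R := ZMod p) (toLex : ℕ ⊕ ℕ → ℕ ⊕ₗ ℕ)).toRingHom

private theorem Ph_inj : Function.Injective (Ph p) :=
  (sgH_inj p (ℕ ⊕ₗ ℕ)).comp (MvPolynomial.rename_injective _ toLex.injective)

private theorem Ph_X (z : ℕ ⊕ ℕ) : Ph p (MvPolynomial.X z) = v p (toLex z) := by
  change sgH p (ℕ ⊕ₗ ℕ) (MvPolynomial.rename (toLex : ℕ ⊕ ℕ → ℕ ⊕ₗ ℕ) (MvPolynomial.X z)) = _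
  rw [MvPolynomial.rename_X, sgH_X]

private theorem ph_l (a : MvPolynomial ℕ (ZMod p)) :
    ιl p ℕ ℕ (sgH p ℕ a) = Ph p (MvPolynomial.rename Sum.inl a) := by
  have h : (ιl p ℕ ℕ).comp (sgH p ℕ) =
      (Ph p).comp (MvPolynomial.rename (R := ZMod p) (Sum.inl : ℕ → ℕ ⊕ ℕ)).toRingHom := by
    refine MvPolynomial.ringHom_ext' (Subsingleton.elim _ _) fun i => ?_
    change ιl p ℕ ℕ (sgH p ℕ (MvPolynomial.X i)) =
      Ph p (MvPolynomial.rename Sum.inl (MvPolynomial.X i))
    rw [MvPolynomial.rename_X, Ph_X, sgH_X, ιl_v]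
  exact DFunLike.congr_fun h a

private theorem ph_r (a : MvPolynomial ℕ (ZMod p)) :
    ιr p ℕ ℕ (sgH p ℕ a) = Ph p (MvPolynomial.rename Sum.inr a) := by
  have h : (ιr p ℕ ℕ).comp (sgH p ℕ) =
      (Ph p).comp (MvPolynomial.rename (R := ZMod p) (Sum.inr : ℕ → ℕ ⊕ ℕ)).toRingHom := by
    refine MvPolynomial.ringHom_ext' (Subsingleton.elim _ _) fun i => ?_
    change ιr p ℕ ℕ (sgH p ℕ (MvPolynomial.X i)) =
      Ph p (MvPolynomial.rename Sum.inr (MvPolynomial.X i))
    rw [MvPolynomial.rename_X, Ph_X, sgH_X, ιr_v]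
  exact DFunLike.congr_fun h a

private theorem ph_psi [Fact p.Prime] (a : MvPolynomial ℕ (ZMod p)) :
    psiM p (sgH p ℕ a) = Ph p (psiP p a) := by
  have hl : ∀ k, Ph p (xL p k) = xl p k := fun k => by
    unfold xL xl
    split_ifs
    · exact map_one _
    · exact Ph_X p _
  have hr : ∀ k, Ph p (xR p k) = xr p k := fun k => by
    unfold xR xr
    split_ifs
    · exact map_one _
    · exact Ph_X p _
  have h : (psiM p).comp (sgH p ℕ) = (Ph p).comp (psiP p).toRingHom := by
    refine MvPolynomial.ringHom_ext' (Subsingleton.elim _ _) fun i => ?_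
    change psiM p (sgH p ℕ (MvPolynomial.X i)) = Ph p (psiP p (MvPolynomial.X i))
    rw [sgH_X, psiM_v]
    unfold psiP
    rw [MvPolynomial.aeval_X, map_sum]
    refine Finset.sum_congr rfl fun k _ => ?_
    rw [map_mul, map_pow, hl, hr]
  exact DFunLike.congr_fun h a

end poly

/-! ### derivations -/

section der

variable {p : ℕ} [Fact p.Prime]

private theorem RD_one (k : ℕ) : RD p k 1 = 0 := by
  have h1 : (1 : Tw p ℕ) ∈ Par p ℕ 0 := by
    intro E S h
    rw [← mon_zero, co_mon] at h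
    by_cases h1 : ∅ = E ∧ 0 = S
    · rw [← h1.1]
      rfl
    · exact absurd (if_neg h1) h
  have h := RD_mul (p := p) k 0 1 1 h1
  rw [mul_one, mul_one, one_mul, pow_zero, one_smul] at h
  exact left_eq_add.1 h

omit [Fact p.Prime] in
private theorem mon_par0 (S : ℕ →₀ ℕ) : mon p ∅ S ∈ Par p ℕ 0 := by
  intro F T h
  rw [co_mon] at h
  split_ifs at h with h1
  · rw [← h1.1]
    rfl
  · exact absurd rfl h

private theorem RD_mon0 (k : ℕ) (S : ℕ →₀ ℕ) : RD p k (mon p ∅ S) = 0 := by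
  refine v_ind (P := fun S => RD p k (mon p ∅ S) = 0) ?_ ?_ S
  · rw [mon_zero]
    exact RD_one k
  · intro i S h
    rw [mon_succ, RD_mul k 0 _ _ (mon_par0 S), h, RD_v, zero_mul, mul_zero, smul_zero, add_zero]

/-- The coefficients of `LD k z`. -/
private theorem LD_co (k : ℕ) (E : Finset ℕ) (S : ℕ →₀ ℕ) (hk : k ∉ E) (z : Tw p ℕ) :
    co (LD p k z) E S = (-1 : ZMod p) ^ (E.filter (fun e => k < e)).card *
      co z (insert k E) S := by
  refine induct (P := fun z => co (LD p k z) E S =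
    (-1 : ZMod p) ^ (E.filter (fun e => k < e)).card * co z (insert k E) S) ?_ ?_ ?_ z
  · rw [map_zero, co_zero, co_zero, mul_zero]
  · intro x y hx hy
    rw [map_add, co_add, hx, hy, co_add, mul_add]
  · intro c G U
    rw [addHom_smul (LD p k), co_smul, co_smul, LD_mon, co_mon]
    by_cases h1 : k ∈ G
    · rw [if_pos h1]
      have h2 : co ((-1 : ℤ) ^ (G.filter (fun e => k < e)).card • mon p (G.erase k) U) E S =
          (-1 : ZMod p) ^ (G.filter (fun e => k < e)).card * co (mon p (G.erase k) U) E S := by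
        have h3 : cf p E S ((-1 : ℤ) ^ (G.filter (fun e => k < e)).card • mon p (G.erase k) U) =
            (-1 : ℤ) ^ (G.filter (fun e => k < e)).card • cf p E S (mon p (G.erase k) U) :=
          map_zsmul _ _ _
        rw [cf_apply, cf_apply] at h3
        rw [h3, zsmul_eq_mul]
        push_cast
        rfl
      rw [h2, co_mon]
      by_cases h4 : G = insert k E
      · have h5 : G.erase k = E := by rw [h4, Finset.erase_insert hk]
        have h6 : G.filter (fun e => k < e) = E.filter (fun e => k < e) := by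
          rw [h4, Finset.filter_insert, if_neg (lt_irrefl k)]
        rw [h5, h6, h4]
        by_cases h7 : U = S
        · rw [if_pos ⟨rfl, h7⟩, if_pos ⟨rfl, h7⟩]
          ring
        · rw [if_neg (fun h8 => h7 h8.2), if_neg (fun h8 => h7 h8.2)]
          ring
      · have h5 : G.erase k ≠ E := by
          intro h6
          rw [← h6, Finset.insert_erase h1] at h4
          exact h4 rfl
        rw [if_neg (fun h8 => h5 h8.1), if_neg (fun h8 => h4 h8.1)]
        ring
    · rw [if_neg h1, co_zero, if_neg]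
      · ring
      · rintro ⟨h2, -⟩
        rw [h2] at h1
        exact h1 (Finset.mem_insert_self k E)

private theorem co_xi (j k : ℕ) (hk : 0 < k) (hj : j ≠ k) :
    co (xi p j) ∅ (Finsupp.single (k - 1) 1) = 0 := by
  unfold xi
  split_ifs with h
  · rw [← mon_zero, co_mon, if_neg]
    rintro ⟨-, h1⟩
    have h2 := DFunLike.congr_fun h1 (k - 1)
    rw [Finsupp.single_eq_same] at h2
    exact absurd h2 (by simp)
  · unfold v
    rw [co_mon, if_neg]
    rintro ⟨-, h1⟩
    have h2 := (Finsupp.single_left_injective one_ne_zero) h1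
    omega

private theorem co_xi_self (k : ℕ) (hk : 0 < k) :
    co (xi p k) ∅ (Finsupp.single (k - 1) 1) = 1 := by
  unfold xi
  rw [if_neg hk.ne']
  unfold v
  rw [co_mon, if_pos ⟨rfl, rfl⟩]

end der

/-! ### homogeneous functionals -/

section hom

variable {p : ℕ} [Fact p.Prime]

private theorem hg_ne {i : ℕ} {g : Tw p ℕ →+ ZMod p} (hg : Hg i g) {u : Tw p ℕ} (h : g u ≠ 0) :
    ∃ E S, co u E S ≠ 0 ∧ Mil.deg p S E = i := by
  by_contra h1
  apply h
  rw [repr_co u, map_sum]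
  refine Finset.sum_eq_zero fun q hq => ?_
  by_contra h2
  refine h1 ⟨q.1, q.2, (co_finite u).mem_toFinset.1 hq, ?_⟩
  by_contra h3
  exact h2 (hg _ _ _ h3)

private theorem deg_zero_iff {E : Finset ℕ} {S : ℕ →₀ ℕ} (h : Mil.deg p S E = 0) :
    E = ∅ ∧ S = 0 := by
  unfold Mil.deg at h
  have hp : 1 < p := (Fact.out : p.Prime).one_lt
  have h1 := Nat.eq_zero_of_add_eq_zero_left h
  have h2 := Nat.eq_zero_of_add_eq_zero_right h
  constructor
  · by_contra h3
    obtain ⟨i, hi⟩ := Finset.nonempty_iff_ne_empty.2 h3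
    have h4 := (Finset.sum_eq_zero_iff.1 h1) i hi
    have h5 : 1 ≤ p ^ i := pow_pos (Fact.out : p.Prime).pos _
    omega
  · by_contra h3
    obtain ⟨i, hi⟩ := Finset.nonempty_iff_ne_empty.2 (fun h4 => h3 (Finsupp.support_eq_empty.1 h4))
    have h4 := (Finset.sum_eq_zero_iff.1 h2) i hi
    have h5 : 2 ≤ p ^ (i + 1) := by
      calc 2 ≤ p := hp
        _ = p ^ 1 := (pow_one p).symm
        _ ≤ p ^ (i + 1) := Nat.pow_le_pow_right (by omega) (by omega)
    have h6 : S i ≠ 0 := Finsupp.mem_support_iff.1 hi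
    rcases mul_eq_zero.1 h4 with h7 | h7
    · exact h6 h7
    · omega

omit [Fact p.Prime] in
private theorem deg_nil : Mil.deg p 0 ∅ = 0 := by
  unfold Mil.deg
  rw [Finsupp.sum_zero_index, Finset.sum_empty, add_zero]

/-- An element with only one coefficient. -/
private theorem eq_smul_mon {z : Tw p ℕ} {E₀ : Finset ℕ} {S₀ : ℕ →₀ ℕ}
    (h : ∀ E S, co z E S ≠ 0 → E = E₀ ∧ S = S₀) : z = co z E₀ S₀ • mon p E₀ S₀ := by
  refine ext_co fun E S => ?_
  rw [co_smul, co_mon]
  by_cases h1 : E₀ = E ∧ S₀ = S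
  · rw [if_pos h1, h1.1, h1.2, mul_one]
  · rw [if_neg h1, mul_zero]
    by_contra h2
    exact h1 ⟨(h E S h2).1.symm, (h E S h2).2.symm⟩

private theorem two_le (i : ℕ) : 2 ≤ p ^ (i + 1) := by
  calc 2 ≤ p := (Fact.out : p.Prime).two_le
    _ = p ^ 1 := (pow_one p).symm
    _ ≤ p ^ (i + 1) := Nat.pow_le_pow_right (Fact.out : p.Prime).pos (by omega)

private theorem deg_one_iff {E : Finset ℕ} {S : ℕ →₀ ℕ} (h : Mil.deg p S E = 1) :
    E = {0} ∧ S = 0 := by
  have h3 : S = 0 := by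
    by_contra h4
    obtain ⟨i, hi⟩ := Finset.nonempty_iff_ne_empty.2 (fun h5 => h4 (Finsupp.support_eq_empty.1 h5))
    have h6 : S i * (2 * (p ^ (i + 1) - 1)) ≤ S.sum fun j r => r * (2 * (p ^ (j + 1) - 1)) :=
      Finset.single_le_sum (f := fun j => S j * (2 * (p ^ (j + 1) - 1)))
        (fun _ _ => Nat.zero_le _) hi
    have h7 : S i ≠ 0 := Finsupp.mem_support_iff.1 hi
    have h8 := two_le (p := p) i
    have h9 : 1 * 2 ≤ S i * (2 * (p ^ (i + 1) - 1)) := Nat.mul_le_mul (by omega) (by omega)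
    unfold Mil.deg at h
    omega
  refine ⟨?_, h3⟩
  have h4 : ∀ e ∈ E, e = 0 := by
    intro e he
    by_contra h5
    have h6 : 2 * p ^ e - 1 ≤ ∑ e ∈ E, (2 * p ^ e - 1) :=
      Finset.single_le_sum (f := fun e => 2 * p ^ e - 1) (fun _ _ => Nat.zero_le _) he
    have h7 := two_le (p := p) (e - 1)
    rw [Nat.sub_add_cancel (Nat.pos_of_ne_zero h5)] at h7
    unfold Mil.deg at h
    omega
  rcases Finset.subset_singleton_iff.1 (show E ⊆ {0} by
    intro i hi
    rw [Finset.mem_singleton]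
    exact h4 i hi) with h5 | h5
  · rw [h3, h5, deg_nil] at h
    exact absurd h (by norm_num)
  · exact h5

end hom

/-- The primitivity of `z`. -/
private theorem prim_of {p : ℕ} [Fact p.Prime] {N : ℕ → Set (Tw p ℕ →+ ZMod p)}
    (hN : DualSys p N) (n : ℕ)
    (ih : ∀ m < n, ∀ z : Tw p ℕ, HgM p m z → (∀ f ∈ N m, f z = 0) → z = 0)
    (z : Tw p ℕ) (hz : HgM p n z) (h : ∀ f ∈ N n, f z = 0) (E : Finset ℕ) (S : ℕ →₀ ℕ)
    (F : Finset ℕ) (T : ℕ →₀ ℕ) (hE : ¬ (E = ∅ ∧ S = 0)) (hF : ¬ (F = ∅ ∧ T = 0)) :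
    co (psiM p z) (pE E F) (pS S T) = 0 := by
  by_contra hne
  have hd := psi_deg hz E S F T hne
  have hi : 0 < Mil.deg p S E := Nat.pos_of_ne_zero fun h1 => hE (deg_zero_iff h1)
  have hj : 0 < Mil.deg p T F := Nat.pos_of_ne_zero fun h1 => hF (deg_zero_iff h1)
  obtain ⟨i, hi'⟩ : ∃ i, i = Mil.deg p S E := ⟨_, rfl⟩
  obtain ⟨j, hj'⟩ : ∃ j, j = Mil.deg p T F := ⟨_, rfl⟩
  rw [← hi', ← hj'] at hd
  rw [← hi'] at hi
  rw [← hj'] at hj
  -- the contractions with functionals of degree `i` vanish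
  have h1 : ∀ g ∈ N i, JH g (psiM p z) = 0 := by
    intro g hg
    refine ih j (by omega) _ ?_ ?_
    · intro F' T' h2
      have h3 : g (JR (cf p F' T') (psiM p z)) ≠ 0 := by
        rw [← JH_JR]
        exact h2
      obtain ⟨E', S', h4, h5⟩ := hg_ne (hN.hg i g hg) h3
      rw [JR_pair] at h4
      have h6 := psi_deg hz E' S' F' T' h4
      omega
    · intro f hf
      have h2 := hN.conv j i f g hf hg
      rw [show j + i = n by omega] at h2
      exact h _ h2
  have h2 : JR (cf p F T) (psiM p z) = 0 := by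
    refine ih i (by omega) _ ?_ ?_
    · intro E' S' h3
      rw [JR_pair] at h3
      have h4 := psi_deg hz E' S' F T h3
      omega
    · intro g hg
      rw [← JH_JR, h1 g hg, map_zero]
  rw [← JR_pair, h2, co_zero] at hne
  exact hne rfl

theorem dual_sep {p : ℕ} [Fact p.Prime] {N : ℕ → Set (Tw p ℕ →+ ZMod p)} (hN : DualSys p N) (n : ℕ)
    (z : Tw p ℕ) (hz : HgM p n z) (h : ∀ f ∈ N n, f z = 0) : z = 0 := by
  induction n using Nat.strong_induction_on generalizing z with
  | _ n ih =>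
  rcases Nat.eq_zero_or_pos n with hn0 | hn0
  · subst hn0
    have h1 := eq_smul_mon (E₀ := ∅) (S₀ := 0) fun E S h2 => deg_zero_iff (hz E S h2)
    obtain ⟨f, hf, hf1⟩ := hN.one
    have h2 := h f hf
    rw [h1, ZMod.map_smul, mon_zero, smul_eq_mul] at h2
    rw [h1, (mul_eq_zero.1 h2).resolve_right hf1, zero_smul]
  rcases Nat.eq_or_lt_of_le hn0 with hn1 | hn1
  · have hn2 : n = 1 := hn1.symm
    subst hn2
    have h1 := eq_smul_mon (E₀ := {0}) (S₀ := 0) fun E S h2 => deg_one_iff (hz E S h2)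
    obtain ⟨f, hf, hf1⟩ := hN.beta
    have h2 := h f hf
    rw [h1, ZMod.map_smul, smul_eq_mul] at h2
    rw [h1, (mul_eq_zero.1 h2).resolve_right hf1, zero_smul]
  have hn2 : 2 ≤ n := hn1
  have hpr := prim_of hN n ih z hz h
  -- (C)
  have hC : ∀ F S k, k ∈ F → co z F S ≠ 0 → F = {k} ∧ S = 0 := by
    intro F S k hk hne
    have h1 := LD_co k (F.erase k) S (Finset.notMem_erase k F) z
    rw [Finset.insert_erase hk] at h1
    have h2 : co (LD p k z) (F.erase k) S = co (psiM p z) (pE (F.erase k) {k}) (pS S 0) := by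
      have h3 : tst p k = cf p {k} 0 := AddMonoidHom.ext fun x => tst_apply k x
      rw [← JR_pair, ← h3]
      rfl
    by_contra h3
    have h4 : ¬ (F.erase k = ∅ ∧ S = 0) := by
      rintro ⟨h5, h6⟩
      refine h3 ⟨?_, h6⟩
      rw [← Finset.insert_erase hk, h5]
      rfl
    have h5 := hpr (F.erase k) S {k} 0 h4 (fun h6 => Finset.singleton_ne_empty k h6.1)
    rw [← h2, h1] at h5
    rcases mul_eq_zero.1 h5 with h6 | h6
    · exact absurd h6 (pow_ne_zero _ (neg_ne_zero.2 one_ne_zero))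
    · exact hne h6
  -- (D)
  have hD : ∀ k, co z {k} 0 = 0 := by
    intro k
    rcases Nat.eq_zero_or_pos k with hk | hk
    · subst hk
      by_contra h1
      have h2 := hz _ _ h1
      unfold Mil.deg at h2
      rw [Finsupp.sum_zero_index, Finset.sum_singleton, pow_zero] at h2
      omega
    have h1 : co (RD p 0 z) ∅ (Finsupp.single (k - 1) 1) = 0 := by
      have h2 : co (RD p 0 z) ∅ (Finsupp.single (k - 1) 1) =
          co (psiM p z) (pE {0} ∅) (pS 0 (Finsupp.single (k - 1) 1)) := by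
        have h3 : tst p 0 = cf p {0} 0 := AddMonoidHom.ext fun x => tst_apply 0 x
        rw [← JH_pair, ← h3]
        rfl
      rw [h2]
      refine hpr _ _ _ _ (fun h6 => Finset.singleton_ne_empty 0 h6.1) fun h6 => ?_
      have h7 := DFunLike.congr_fun h6.2 (k - 1)
      rw [Finsupp.single_eq_same] at h7
      exact absurd h7 (by simp)
    rw [repr_co z, map_sum, co_sum, Finset.sum_eq_single ({k}, 0)] at h1
    · rw [addHom_smul (RD p 0), co_smul] at h1
      have h2 : RD p 0 (mon p {k} 0) = xi p k := by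
        have h3 := RD_t (p := p) 0 k
        rw [if_pos (Nat.zero_le k), Nat.sub_zero, pow_zero, pow_one] at h3
        exact h3
      rw [h2, co_xi_self k hk, mul_one] at h1
      exact h1
    · intro q hq hqk
      rw [addHom_smul (RD p 0), co_smul]
      have hq1 := (co_finite z).mem_toFinset.1 hq
      rcases Finset.eq_empty_or_nonempty q.1 with h2 | ⟨j, hj⟩
      · rw [h2, RD_mon0, co_zero, mul_zero]
      · obtain ⟨h3, h4⟩ := hC q.1 q.2 j hj hq1
        have h5 : RD p 0 (mon p q.1 q.2) = xi p j := by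
          have h6 := RD_t (p := p) 0 j
          rw [if_pos (Nat.zero_le j), Nat.sub_zero, pow_zero, pow_one] at h6
          rw [h3, h4]
          exact h6
        rw [h5, co_xi j k hk, mul_zero]
        rintro rfl
        exact hqk (Prod.ext h3 h4)
    · intro hq
      have h2 : co z {k} 0 = 0 := by
        by_contra hne
        exact hq ((co_finite z).mem_toFinset.2 hne)
      rw [addHom_smul (RD p 0), co_smul]
      change co z {k} 0 * _ = 0
      rw [h2, zero_mul]
  -- `z` is a polynomial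
  have hE : ∀ E S, co z E S ≠ 0 → E = ∅ := by
    intro E S hne
    by_contra h1
    obtain ⟨k, hk⟩ := Finset.nonempty_iff_ne_empty.2 h1
    obtain ⟨h2, h3⟩ := hC E S k hk hne
    rw [h2, h3] at hne
    exact hne (hD k)
  obtain ⟨g, hg⟩ : ∃ g : MvPolynomial ℕ (ZMod p), z = sgH p ℕ g := by
    refine ⟨(show Finset ℕ →₀ MvPolynomial ℕ (ZMod p) from z) ∅, ext_co fun E S => ?_⟩
    by_cases h1 : E = ∅
    · subst h1
      change co z ∅ S = MvPolynomial.coeff S ((Finsupp.single (∅ : Finset ℕ)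
        ((show Finset ℕ →₀ MvPolynomial ℕ (ZMod p) from z) ∅) :
          Finset ℕ →₀ MvPolynomial ℕ (ZMod p)) ∅)
      rw [Finsupp.single_eq_same]
      rfl
    · have h2 : co z E S = 0 := by
        by_contra h3
        exact h1 (hE E S h3)
      rw [h2]
      change _ = MvPolynomial.coeff S ((Finsupp.single (∅ : Finset ℕ)
        ((show Finset ℕ →₀ MvPolynomial ℕ (ZMod p) from z) ∅) :
          Finset ℕ →₀ MvPolynomial ℕ (ZMod p)) E)
      rw [Finsupp.single_eq_of_ne h1, MvPolynomial.coeff_zero]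
  have hco : ∀ S, g.coeff S = co z ∅ S := by
    intro S
    rw [hg]
    change _ = MvPolynomial.coeff S ((Finsupp.single (∅ : Finset ℕ) g :
      Finset ℕ →₀ MvPolynomial ℕ (ZMod p)) ∅)
    rw [Finsupp.single_eq_same]
  -- the coproduct
  have hw : psiM p z = ιl p ℕ ℕ z + ιr p ℕ ℕ z := by
    refine ext_pair fun E S F T => ?_
    have hz0 : co z ∅ 0 = 0 := by
      by_contra h1
      have h2 := hz _ _ h1
      rw [deg_nil] at h2
      omega
    by_cases h1 : F = ∅ ∧ T = 0
    · rw [h1.1, h1.2, ← JR_pair, ← JR_pair, JR_kL, JR_kL, kL_psi, map_add, kL_l, kL_r, hz0,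
        zero_smul, add_zero]
    · by_cases h2 : E = ∅ ∧ S = 0
      · rw [h2.1, h2.2, ← JH_pair, ← JH_pair, JH_kR, JH_kR, kR_psi, map_add, kR_l, kR_r, hz0,
          zero_smul, zero_add]
      · rw [hpr E S F T h2 h1, co_add]
        have h3 : co (ιl p ℕ ℕ z) (pE E F) (pS S T) = 0 := by
          have h4 : JR (cf p F T) (ιl p ℕ ℕ z) = 0 := by
            have h5 := JR_mul (cf p F T) z (1 : Tw p ℕ)
            rw [map_one, mul_one] at h5
            rw [h5, cf_apply, ← mon_zero, co_mon, if_neg, zero_smul]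
            exact fun h6 => h1 ⟨h6.1.symm, h6.2.symm⟩
          rw [← JR_pair, h4, co_zero]
        have h4 : co (ιr p ℕ ℕ z) (pE E F) (pS S T) = 0 := by
          have h4 : JH (cf p E S) (ιr p ℕ ℕ z) = 0 := by
            have h5 := JH_mul (cf p E S) (1 : Tw p ℕ) z
            rw [map_one, one_mul] at h5
            rw [h5, cf_apply, ← mon_zero, co_mon, if_neg, zero_smul]
            exact fun h6 => h2 ⟨h6.1.symm, h6.2.symm⟩
          rw [← JH_pair, h4, co_zero]
        rw [h3, h4, add_zero]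
  have hp : psiP p g = MvPolynomial.rename Sum.inl g + MvPolynomial.rename Sum.inr g := by
    apply Ph_inj p
    rw [map_add, ← ph_psi, ← ph_l, ← ph_r, ← hg]
    exact hw
  rcases poly_prim p n (by omega) g (fun R hR => by
      rw [hco] at hR
      have h1 := hz _ _ hR
      unfold Mil.deg at h1
      rw [Finset.sum_empty, add_zero] at h1
      exact h1) hp with h1 | ⟨c, m, h1, h2⟩
  · rw [hg, h1, map_zero]
  · have h3 : z = c • v p 0 ^ p ^ m := by
      rw [hg, h1, ← MvPolynomial.smul_eq_C_mul]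
      change sg ∅ (c • MvPolynomial.X 0 ^ p ^ m) = _
      rw [sg_smul]
      congr 1
      exact (map_pow (sgH p ℕ) (MvPolynomial.X 0) (p ^ m)).trans (congrArg (· ^ p ^ m) (sgH_X p 0))
    obtain ⟨f, hf, hf1⟩ := hN.pow m
    rw [← h2] at hf
    have h4 := h f hf
    rw [h3, ZMod.map_smul, smul_eq_mul] at h4
    rw [h3, (mul_eq_zero.1 h4).resolve_right hf1, zero_smul]

end Tw

end BPN.E
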