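import Pool.Agent.BPN.E.NatA
import Pool.Agent.BPN.E.Prim
import Pool.Agent.BPN.E.PKP
import Pool.Agent.BPN.E.Beta
import Pool.Agent.BPN.E.FlatB

/-!
# Part (E), module Asm1: the perfect pairing (project BPN, architect helper30)

`Ja a = Jf (alp a)` : the functional on the Milnor algebra of an operation.

PROOFS.
* `dualSys_Ja`: `hg`: `Jf_Hg`, `alp_hgOp`.  `conv`: `Jf_comp`, `alp_mul`.  `one`: `idOp`, `alp_id`.
  `beta`: `exists_beta`; `actH b (xh 0) = yh 0`, so `alp b (t 0) = v 0` (`ev_inj_nat`) and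
  `Jf (alp b) (t 0) = Jc {0} 0 = co (v 0) ∅ (single 0 1) = 1` (`uA {0} = {0}`, `uB 0 = 0`, `uT {0} 0 = single 0 1`).
  `pow`: `exists_P` for `p^m`; `u = mon ∅ (uB (single 0 (p^m)))` has `ev u = cl (2 p^m) c` (`ev_mon`), so
  `ev (alp a u) = ev u ^ p`, `alp a u = u^p = mon ∅ (p • uB ..)`, and `p • uB (single 0 n) = uT ∅ (single 0 n)`:
  `Jf (alp a) (v 0 ^ n) = 1`.
* finiteness of the set of monomials of degree `k`: `deg_finite` (module Rec).
* `null_of_Ja`: let `S` be the finite set of all `(R, E)` of degree `k` and `M_k` the span of the `mon E R` (dimension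
  `|S|`).  The image of `Op p k → Dual M_k`, `a ↦ Ja a`, is an additive subgroup, hence a subspace (over
  `ZMod p`), with annihilator `0` by `dual_sep`; so it is everything.  Choose `a_q`, `q ∈ S`, with
  `Ja a_q (mon q') = δ`.  `Op p k` is a commutative group killed by `p`.  If `Ja a = 0` and `a` is not null let
  `W = (S → ZMod p) × ZMod p`, `A (c, d) = ∑ (c q).val • a_q + d.val • a`; `A w` null implies `c = 0` (apply `Ja`,
  `alp_null`) and then `d.val • a` null, so `d = 0` (otherwise `a` is a multiple of `d.val • a`).  `Op_bound` gives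
  `|S| + 1 ≤ |S|`.
* `exists_rep`: `φ` factors through `Dual M_k` (`null_of_Ja`), and functionals on `Dual M_k` are given by elements.
-/

namespace BPN.E

open Tw

variable {p : ℕ} [Fact p.Prime] {k : ℕ}

/-- The functional of an operation. -/
noncomputable def Ja (a : Op p k) : Tw p ℕ →+ ZMod p := Jf (alp a)

theorem Ja_add (a b : Op p k) : Ja (a + b) = Ja a + Ja b := by
  rw [Ja, alp_add, Jf_add]
  rfl

/-- The system of all functionals of operations. -/
def NN (p : ℕ) [Fact p.Prime] (k : ℕ) : Set (Tw p ℕ →+ ZMod p) := {f | ∃ a : Op p k, f = Ja a}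

/-! ### linear algebra -/

private theorem asm_surj {G : Type} [AddGroup G] {S : Type} [Fintype S] (T : G →+ (S → ZMod p))
    (hT : ∀ c : S → ZMod p, (∀ a, ∑ q, c q * T a q = 0) → c = 0) : Function.Surjective T := by
  classical
  obtain ⟨R, hR⟩ : ∃ R : Submodule (ZMod p) (S → ZMod p), ∀ x, x ∈ R ↔ ∃ a, T a = x :=
    ⟨AddSubgroup.toZModSubmodule p T.range, fun x => by
      rw [AddSubgroup.mem_toZModSubmodule, AddMonoidHom.mem_range]⟩
  by_contra hs
  have hlt : R < ⊤ := by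
    rw [lt_top_iff_ne_top]
    intro h
    apply hs
    intro x
    exact (hR x).1 (h ▸ Submodule.mem_top)
  obtain ⟨f, hf0, hf⟩ := Submodule.exists_le_ker_of_lt_top R hlt
  have hfx : ∀ x : S → ZMod p, f x = ∑ q, f (Pi.single q 1) * x q := by
    intro x
    conv_lhs => rw [pi_eq_sum_univ' x]
    rw [map_sum]
    refine Finset.sum_congr rfl fun q _ => ?_
    rw [map_smul, smul_eq_mul, mul_comm]
  have h0 := hT (fun q => f (Pi.single q 1)) (fun a => by
    rw [← hfx]
    exact LinearMap.mem_ker.1 (hf ((hR _).2 ⟨a, rfl⟩)))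
  apply hf0
  refine LinearMap.ext fun x => ?_
  rw [hfx, LinearMap.zero_apply]
  have h1 : ∀ q, f (Pi.single q 1) = 0 := fun q => congrFun h0 q
  exact Finset.sum_eq_zero fun q _ => by rw [h1, zero_mul]

private theorem asm_fac' {G : Type} [AddCommGroup G] [Module (ZMod p) G]
    {S : Type} [Fintype S] (T : G →+ (S → ZMod p)) (φ : G →+ ZMod p)
    (hφ : ∀ a, T a = 0 → φ a = 0) : ∃ c : S → ZMod p, ∀ a, φ a = ∑ q, c q * T a q := by
  classical
  obtain ⟨d, hd⟩ : ∃ d : G →ₗ[ZMod p] (S → ZMod p), ∀ a, d a = T a :=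
    ⟨AddMonoidHom.toZModLinearMap p T, fun a => rfl⟩
  obtain ⟨f, hf⟩ : ∃ f : G →ₗ[ZMod p] ZMod p, ∀ a, f a = φ a :=
    ⟨AddMonoidHom.toZModLinearMap p φ, fun a => rfl⟩
  obtain ⟨s, hs⟩ := LinearMap.exists_rightInverse_of_surjective d.rangeRestrict
    (LinearMap.range_rangeRestrict d)
  obtain ⟨g, hg⟩ := LinearMap.exists_extend (f ∘ₗ s)
  have hgd : ∀ a, g (d a) = f a := by
    intro v
    have h1 : g (d v) = f (s (d.rangeRestrict v)) := LinearMap.congr_fun hg (d.rangeRestrict v)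
    rw [h1]
    have h2 : d (s (d.rangeRestrict v)) = d v :=
      congrArg Subtype.val (LinearMap.congr_fun hs (d.rangeRestrict v))
    have h3 : f (s (d.rangeRestrict v) - v) = 0 := by
      rw [hf]
      apply hφ
      rw [← hd, map_sub, h2, sub_self]
    rw [map_sub, sub_eq_zero] at h3
    exact h3
  refine ⟨fun q => g (Pi.single q 1), fun a => ?_⟩
  rw [← hf, ← hgd, hd]
  conv_lhs => rw [pi_eq_sum_univ' (T a)]
  rw [map_sum]
  refine Finset.sum_congr rfl fun q _ => ?_
  rw [map_smul, smul_eq_mul, mul_comm]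

private theorem asm_fac {G : Type} [i : AddGroup G] (hc : ∀ a b : G, a + b = b + a)
    (hp : ∀ a : G, p • a = 0) {S : Type} [Fintype S] (T : G →+ (S → ZMod p)) (φ : G →+ ZMod p)
    (hφ : ∀ a, T a = 0 → φ a = 0) : ∃ c : S → ZMod p, ∀ a, φ a = ∑ q, c q * T a q :=
  @asm_fac' p _ G { i with add_comm := hc }
    (@AddCommGroup.zmodModule p G { i with add_comm := hc } hp) S _ T φ hφ

private theorem asm_null' {G : Type} [AddCommGroup G] [Module (ZMod p) G]
    {S : Type} [Fintype S] (T : G →+ (S → ZMod p))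
    (hT : Function.Surjective T) (N : G → Prop) (hN0 : N 0) (hNa : ∀ a b, N a → N b → N (a + b))
    (hNT : ∀ a, N a → T a = 0)
    (hb : ∀ (W : Type) [AddCommGroup W] [Module (ZMod p) W] [FiniteDimensional (ZMod p) W]
      (A : W →+ G), (∀ w, N (A w) → w = 0) → Module.finrank (ZMod p) W ≤ Fintype.card S)
    (a : G) (ha : T a = 0) : N a := by
  classical
  by_contra hna
  obtain ⟨d, hd⟩ : ∃ d : G →ₗ[ZMod p] (S → ZMod p), ∀ a, d a = T a :=
    ⟨AddMonoidHom.toZModLinearMap p T, fun a => rfl⟩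
  have hds : Function.Surjective d := fun x => by
    obtain ⟨b, hb⟩ := hT x
    exact ⟨b, by rw [hd, hb]⟩
  obtain ⟨s, hs⟩ := LinearMap.exists_rightInverse_of_surjective d (LinearMap.range_eq_top.2 hds)
  have hNn : ∀ (n : ℕ) (b : G), N b → N (n • b) := by
    intro n b hb
    induction n with
    | zero =>
      rw [zero_nsmul]
      exact hN0
    | succ n ih =>
      rw [succ_nsmul]
      exact hNa _ _ ih hb
  have hNs : ∀ (c : ZMod p) (b : G), N b → N (c • b) := by
    intro c b hb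
    have h1 : c • b = c.val • b := by
      conv_lhs => rw [← ZMod.natCast_zmod_val c]
      exact Nat.cast_smul_eq_nsmul (ZMod p) c.val b
    rw [h1]
    exact hNn _ _ hb
  let A : ((S → ZMod p) × ZMod p) →ₗ[ZMod p] G :=
    s ∘ₗ LinearMap.fst (ZMod p) (S → ZMod p) (ZMod p) +
      (LinearMap.toSpanSingleton (ZMod p) G a) ∘ₗ LinearMap.snd (ZMod p) (S → ZMod p) (ZMod p)
  have hA : ∀ c e, A (c, e) = s c + e • a := fun c e => rfl
  have hAN : ∀ w, N (A w) → w = 0 := by
    rintro ⟨c, e⟩ hw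
    rw [hA] at hw
    have h1 : d (s c + e • a) = 0 := by
      rw [hd]
      exact hNT _ hw
    rw [map_add, map_smul, hd a, ha, smul_zero, add_zero] at h1
    have h2 : d (s c) = c := LinearMap.congr_fun hs c
    rw [h2] at h1
    subst h1
    rw [map_zero, zero_add] at hw
    by_cases he : e = 0
    · rw [he]
      rfl
    · exfalso
      apply hna
      have h3 := hNs e⁻¹ _ hw
      rwa [smul_smul, inv_mul_cancel₀ he, one_smul] at h3
  have h := hb ((S → ZMod p) × ZMod p) (AddMonoidHom.mk' (fun w => A w) (fun w w' => map_add A w w'))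
    hAN
  rw [Module.finrank_prod, Module.finrank_fintype_fun_eq_card, Module.finrank_self] at h
  omega

private theorem asm_null {G : Type} [i : AddGroup G] (hc : ∀ a b : G, a + b = b + a)
    (hp : ∀ a : G, p • a = 0) {S : Type} [Fintype S] (T : G →+ (S → ZMod p))
    (hT : Function.Surjective T) (N : G → Prop) (hN0 : N 0) (hNa : ∀ a b, N a → N b → N (a + b))
    (hNT : ∀ a, N a → T a = 0)
    (hb : ∀ (W : Type) [AddCommGroup W] [Module (ZMod p) W] [FiniteDimensional (ZMod p) W]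
      (A : W →+ G), (∀ w, N (A w) → w = 0) → Module.finrank (ZMod p) W ≤ Fintype.card S)
    (a : G) (ha : T a = 0) : N a :=
  @asm_null' p _ G { i with add_comm := hc }
    (@AddCommGroup.zmodModule p G { i with add_comm := hc } hp) S _ T hT N hN0 hNa hNT hb a ha

/-! ### the group of operations -/

private theorem asm_comm (a b : Op p k) : a + b = b + a :=
  Map.ext2 fun q x => Subtype.ext (funext fun f => add_comm ((a.f q x).1 f) ((b.f q x).1 f))

private theorem asm_nsmul (n : ℕ) (a : Op p k) (q : ℤ) (x : (EM (ZMod p) 0).U.X q) (f : ℕ → ℕ) :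
    ((n • a).f q x).1 f = (n : ZMod p) * ((a.f q x).1 f : ZMod p) := by
  induction n with
  | zero =>
    rw [zero_nsmul, Nat.cast_zero, zero_mul]
    rfl
  | succ n ih =>
    rw [succ_nsmul, Nat.cast_succ, add_mul, one_mul, ← ih]
    rfl

private theorem asm_p (a : Op p k) : p • a = 0 := by
  refine Map.ext2 fun q x => Subtype.ext (funext fun f => ?_)
  rw [asm_nsmul, ZMod.natCast_self, zero_mul]
  rfl

/-! ### monomials -/

private theorem asm_uA : uA ∅ = ∅ := rfl

private theorem asm_uB (n : ℕ) : p • uB (Finsupp.single 0 n) = uT p ∅ (Finsupp.single 0 n) := by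
  unfold uB uT
  rw [Finset.sum_empty, zero_add, Finset.smul_sum]
  refine Finset.sum_congr rfl fun j hj => ?_
  rw [Finset.smul_sum]
  refine Finset.sum_congr rfl fun c _ => ?_
  have hj0 : j = 0 := by
    by_contra h
    rw [Finsupp.mem_support_iff] at hj
    exact hj (Finsupp.single_eq_of_ne h)
  subst hj0
  rw [Finsupp.smul_single, smul_eq_mul, mul_one, zero_add, pow_one]

private theorem asm_mon_pow (S : ℕ →₀ ℕ) (n : ℕ) : mon p (∅ : Finset ℕ) S ^ n = mon p ∅ (n • S) := by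
  induction n with
  | zero => rw [pow_zero, zero_nsmul, mon_zero]
  | succ n ih => rw [pow_succ, ih, mon_mul_mon_empty, succ_nsmul]

private theorem asm_uB_sum (n : ℕ) : ((uB (Finsupp.single 0 n)).sum fun _ n => n) = n := by
  have h1 : ∀ S : ℕ →₀ ℕ, (S.sum fun _ n => n) = Finsupp.liftAddHom (fun _ => AddMonoidHom.id ℕ) S :=
    fun S => rfl
  rw [h1]
  unfold uB
  rw [map_sum]
  simp only [map_sum, Finsupp.liftAddHom_apply_single, AddMonoidHom.id_apply]
  by_cases hn : n = 0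
  · subst hn
    simp
  · rw [Finsupp.support_single_ne_zero _ hn]
    simp

private theorem Ja_mon (a : Op p k) (c : ZMod p) (E : Finset ℕ) (R : ℕ →₀ ℕ) :
    Ja a (c • mon p E R) = c * Ja a (mon p E R) := by
  rw [ZMod.map_smul, smul_eq_mul]

private theorem Ja_mon' (a : Op p k) (E : Finset ℕ) (R : ℕ →₀ ℕ) :
    Ja a (mon p E R) = co (alp a (mon p (uA E) (uB R))) ∅ (uT p E R) := by
  have h := Jf_mon (alp a) 1 E R
  rw [one_smul, one_mul] at h
  exact h

private theorem asm_uT_zero : uT p ∅ 0 = 0 := by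
  unfold uT
  simp

private theorem asm_uB_zero : uB 0 = 0 := by
  unfold uB
  simp

theorem dualSys_Ja : DualSys p (NN p) := by
  refine ⟨?_, ?_, ?_, ?_, ?_⟩
  · rintro k f ⟨a, rfl⟩
    exact Jf_Hg (alp_hgOp a)
  · rintro k l f g ⟨a, rfl⟩ ⟨b, rfl⟩
    refine ⟨Op.mul rfl a b, ?_⟩
    unfold Ja
    rw [alp_mul rfl a b, Jf_comp (alp_natOp a) (alp_natOp b) (alp_hgOp a) (alp_hgOp b)]
  · refine ⟨Ja (idOp p), ⟨idOp p, rfl⟩, ?_⟩
    rw [← mon_zero, Ja_mon', asm_uA, asm_uB_zero, asm_uT_zero, alp_id, co_mon, if_pos ⟨rfl, rfl⟩]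
    exact one_ne_zero
  · obtain ⟨b, hb⟩ := exists_beta p
    refine ⟨Ja b, ⟨b, rfl⟩, ?_⟩
    have h1 : alp b (t p 0) = v p 0 := by
      have h2 : ev p ℕ (alp b (t p 0) - v p 0) = 0 := by
        rw [map_sub, ev_alp, ev_t, ev_v]
        unfold xh yh
        rw [actH_cl b (show 1 + 1 = 2 from rfl), hb, sub_self]
      exact sub_eq_zero.1 (ev_inj_nat _ h2)
    have h3 : t p 0 = mon p {0} (0 : ℕ →₀ ℕ) := rfl
    rw [h3, Ja_mon']
    have h4 : uA {0} = {0} := rfl
    have h5 : uT p {0} 0 = Finsupp.single 0 1 := by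
      unfold uT
      simp
    rw [h4, asm_uB_zero, ← h3, h1, h5]
    unfold v
    rw [co_mon, if_pos ⟨rfl, rfl⟩]
    exact one_ne_zero
  · intro m
    have hm : 0 < p ^ m := Nat.pow_pos (Fact.out : p.Prime).pos
    obtain ⟨a, ha⟩ := exists_P (p := p) (p ^ m) hm
    have hk : 2 * (p - 1) * p ^ m = 2 * p ^ m * (p - 1) := by ring
    rw [hk]
    refine ⟨Ja a, ⟨a, rfl⟩, ?_⟩
    rw [v_pow, Ja_mon', asm_uA]
    obtain ⟨u, hu⟩ : ∃ u, u = mon p (∅ : Finset ℕ) (uB (Finsupp.single 0 (p ^ m))) := ⟨_, rfl⟩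
    rw [← hu]
    have h1 : alp a u = u ^ p := by
      have hg : HgE (2 * p ^ m) u := by
        intro E S hES
        rw [hu, co_mon] at hES
        split_ifs at hES with h
        · obtain ⟨rfl, rfl⟩ := h
          unfold hdI
          rw [asm_uB_sum, Finset.card_empty, zero_add]
        · exact absurd rfl hES
      obtain ⟨c, hc⟩ := ev_hg hg
      have h2 : ev p ℕ (alp a u - u ^ p) = 0 := by
        rw [map_sub, ev_alp, map_pow, hc, actH_cl a rfl, ha _ _ rfl c, sub_self]
      exact sub_eq_zero.1 (ev_inj_nat _ h2)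
    rw [h1, hu, asm_mon_pow, asm_uB, co_mon, if_pos ⟨rfl, rfl⟩]
    exact one_ne_zero

/-! ### elements of degree `k` -/

private noncomputable instance asm_fintype : Fintype {q : (ℕ →₀ ℕ) × Finset ℕ // Mil.deg p q.1 q.2 = k} :=
  (deg_finite p k).fintype

private noncomputable def asm_z (c : {q : (ℕ →₀ ℕ) × Finset ℕ // Mil.deg p q.1 q.2 = k} → ZMod p) :
    Tw p ℕ := ∑ q, c q • mon p q.1.2 q.1.1

private theorem asm_hg (c : {q : (ℕ →₀ ℕ) × Finset ℕ // Mil.deg p q.1 q.2 = k} → ZMod p) :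
    HgM p k (asm_z c) := by
  intro E R h
  by_contra hne
  apply h
  unfold asm_z
  rw [co_sum]
  refine Finset.sum_eq_zero fun q _ => ?_
  rw [co_smul, co_mon, if_neg, mul_zero]
  rintro ⟨h1, h2⟩
  apply hne
  rw [← h1, ← h2]
  exact q.2

private theorem asm_co (c : {q : (ℕ →₀ ℕ) × Finset ℕ // Mil.deg p q.1 q.2 = k} → ZMod p)
    (q : {q : (ℕ →₀ ℕ) × Finset ℕ // Mil.deg p q.1 q.2 = k}) :
    co (asm_z c) q.1.2 q.1.1 = c q := by
  unfold asm_z
  rw [co_sum, Finset.sum_eq_single q]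
  · rw [co_smul, co_mon, if_pos ⟨rfl, rfl⟩, mul_one]
  · intro r _ hr
    rw [co_smul, co_mon, if_neg, mul_zero]
    rintro ⟨h1, h2⟩
    exact hr (Subtype.ext (Prod.ext h2 h1))
  · intro h
    exact absurd (Finset.mem_univ q) h

private theorem asm_Ja_z (a : Op p k)
    (c : {q : (ℕ →₀ ℕ) × Finset ℕ // Mil.deg p q.1 q.2 = k} → ZMod p) :
    Ja a (asm_z c) = ∑ q, c q * Ja a (mon p q.1.2 q.1.1) := by
  unfold asm_z
  rw [map_sum]
  exact Finset.sum_congr rfl fun q _ => Ja_mon a _ _ _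

theorem null_of_Ja (a : Op p k) (h : ∀ z, Ja a z = 0) : a.Null := by
  obtain ⟨T, hT⟩ : ∃ T : Op p k →+ ({q : (ℕ →₀ ℕ) × Finset ℕ // Mil.deg p q.1 q.2 = k} → ZMod p),
      ∀ a q, T a q = Ja a (mon p q.1.2 q.1.1) :=
    ⟨AddMonoidHom.mk' (fun a q => Ja a (mon p q.1.2 q.1.1)) (fun a b => by
      funext q
      rw [Ja_add]
      rfl), fun _ _ => rfl⟩
  have hcard : Fintype.card {q : (ℕ →₀ ℕ) × Finset ℕ // Mil.deg p q.1 q.2 = k} =
      {q : (ℕ →₀ ℕ) × Finset ℕ | Mil.deg p q.1 q.2 = k}.ncard := by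
    rw [← Nat.card_eq_fintype_card]
    rfl
  refine asm_null asm_comm asm_p T (asm_surj T ?_) Map.Null Map.null_zero
    (fun a b => Map.Null.add) ?_ ?_ a ?_
  · intro c hc
    have h1 := dual_sep dualSys_Ja k (asm_z c) (asm_hg c) (by
      rintro f ⟨a, rfl⟩
      rw [asm_Ja_z, ← hc a]
      refine Finset.sum_congr rfl fun q _ => ?_
      rw [hT])
    funext q
    have h2 := asm_co c q
    rw [h1, co_zero] at h2
    exact h2.symm
  · intro a ha
    funext q
    rw [hT, Ja_mon', alp_null a ha, AddMonoidHom.zero_apply, co_zero]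
    rfl
  · intro W _ _ _ A hA
    rw [hcard]
    exact Op_bound k W A hA
  · funext q
    rw [hT, h]
    rfl

theorem exists_rep (φ : Op p k →+ ZMod p) (hφ : ∀ a, a.Null → φ a = 0) :
    ∃ z : Tw p ℕ, HgM p k z ∧ ∀ a : Op p k, Ja a z = φ a := by
  obtain ⟨T, hT⟩ : ∃ T : Op p k →+ ({q : (ℕ →₀ ℕ) × Finset ℕ // Mil.deg p q.1 q.2 = k} → ZMod p),
      ∀ a q, T a q = Ja a (mon p q.1.2 q.1.1) :=
    ⟨AddMonoidHom.mk' (fun a q => Ja a (mon p q.1.2 q.1.1)) (fun a b => by
      funext q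
      rw [Ja_add]
      rfl), fun _ _ => rfl⟩
  obtain ⟨c, hc⟩ := asm_fac asm_comm asm_p T φ (fun a ha => by
    apply hφ
    apply null_of_Ja
    have h0 : Ja a = 0 := by
      refine addHom_ext fun c E R => ?_
      by_cases hd : Mil.deg p R E = k
      · have h1 := congrFun ha ⟨(R, E), hd⟩
        rw [hT] at h1
        rw [Ja_mon]
        change c * Ja a (mon p E R) = 0
        rw [h1]
        exact mul_zero c
      · exact Jf_Hg (alp_hgOp a) c E R hd
    intro z
    rw [h0]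
    rfl)
  refine ⟨asm_z c, asm_hg c, fun a => ?_⟩
  rw [asm_Ja_z, hc]
  refine Finset.sum_congr rfl fun q _ => ?_
  rw [hT]

end BPN.E
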