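import Pool.Agent.BPN.E.Tot

/-!
# Part (E), module NormS: normalisation of cochains (project BPN, architect helper30)

THEOREM `norm_cochain`: if `c` is a cochain of degree `m` (not necessarily normalised) whose coboundary is
normalised then `c - δ e` is normalised for some cochain `e` (`c` itself is normalised if `m = 0`).

PROOF.  Write `(S_j c)(τ) = c (s_j τ)`.  Claim: if `S_i c = 0` for all `i < j` (where `j + 1 ≤ m`) and `δ c` is
normalised, let `u = S_j c` (a cochain of degree `m - 1`); then `c' = c - (-1)^j δ u` satisfies `S_i c' = 0` for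
all `i ≤ j` and `δ c' = δ c`.  Induction on `j` gives the theorem.  Proof of the claim, for `τ ∈ X_{m-1}`:
`(δ u)(s_j τ) = ∑_i (-1)^i c (s_j d_i s_j τ)`.  Terms `i < j`: `d_i s_j = s_{j-1} d_i`, `s_j s_{j-1} = s_{j-1} s_{j-1}`, so the
term is `0` (`S_{j-1} c = 0`).  Terms `i = j, j + 1` cancel.  Terms `i > j + 1`: `d_i s_j = s_j d_{i-1}`.  So
`(δ u)(s_j τ) = - ∑_{i > j} (-1)^i c (s_j s_j d_i τ)`.  On the other hand
`0 = (δ c)(s_j s_j τ) = ∑_i (-1)^i c (d_i s_j s_j τ)`, where the terms `i < j` vanish (`d_i s_j s_j = s_{j-1} d_i s_j`), the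
terms `i = j, j+1, j+2` are `s_j τ` with signs `+ - +` times `(-1)^j`, and for `i > j + 2` one gets
`s_j s_j d_{i-2} τ`; hence `∑_{i > j} (-1)^i c (s_j s_j d_i τ) = - (-1)^j u(τ)`, so `S_j δ u = (-1)^j u` and
`S_j c' = u - u = 0`.  For `i < j`: `(δ u)(s_i τ) = ∑_l (-1)^l c (s_j d_l s_i τ)`: `l < i`: `d_l s_i = s_{i-1} d_l`,
`s_j s_{i-1} = s_{i-1} s_{j-1}` gives `0`; `l = i, i+1` cancel; `l > i + 1`: `s_j s_i d_{l-1} = s_i s_{j-1} d_{l-1}` gives `0`.
(Here degenerate simplices of every index `≤` dimension are meant.)  All identities between operators follow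
from `opr_opr` and `opr_congr`.
-/

namespace BPN.E

open CategoryTheory SSet Simplicial Opposite

section aux

variable {M : Type} [AddCommGroup M] {X : SSet.{0}}

open Classical in
/-- The value of a cochain on `f^* τ`. -/
private noncomputable def ev {m b : ℕ} (c : X.obj (op ⦋m⦌) → M) (τ : X.obj (op ⦋b⦌))
    (f : ℕ → ℕ) : M :=
  if h : Monotone f ∧ ∀ i, i ≤ m → f i ≤ b then c (opr X f h.1 h.2 τ) else 0

private theorem ev_eq {m b : ℕ} (c : X.obj (op ⦋m⦌) → M) (τ : X.obj (op ⦋b⦌)) {f : ℕ → ℕ}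
    (hf : Monotone f) (hb : ∀ i, i ≤ m → f i ≤ b) : c (opr X f hf hb τ) = ev c τ f := by
  unfold ev
  rw [dif_pos ⟨hf, hb⟩]

private theorem ev_cobd {m l b : ℕ} (hl : m + 1 = l) (c : X.obj (op ⦋m⦌) → M)
    (τ : X.obj (op ⦋b⦌)) {f : ℕ → ℕ} (hf : Monotone f) (hb : ∀ i, i ≤ l → f i ≤ b) :
    ev (cobd hl c) τ f = ∑ i ∈ Finset.range (l + 1), (-1 : ℤ) ^ i • ev c τ (f ∘ dl i) := by
  rw [← ev_eq _ _ hf hb]
  unfold cobd
  refine Finset.sum_congr rfl fun i _ => ?_
  unfold fc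
  rw [opr_opr, ev_eq c τ]

private theorem ev_dg {n m b : ℕ} (h : n + 1 = m) {j : ℕ} (hj : j ≤ n) (c : X.obj (op ⦋m⦌) → M)
    (τ : X.obj (op ⦋b⦌)) {f : ℕ → ℕ} (hf : Monotone f) (hb : ∀ i, i ≤ n → f i ≤ b) :
    ev (fun ρ : X.obj (op ⦋n⦌) => c (dg X j h hj ρ)) τ f = ev c τ (f ∘ sg j) := by
  rw [← ev_eq _ _ hf hb]
  unfold dg
  rw [opr_opr, ev_eq c τ]

private theorem cobd_eq {m l b : ℕ} (hl : m + 1 = l) (c : X.obj (op ⦋m⦌) → M)
    (τ : X.obj (op ⦋b⦌)) {f : ℕ → ℕ} (hf : Monotone f) (hb : ∀ i, i ≤ l → f i ≤ b) :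
    cobd hl c (opr X f hf hb τ) =
      ∑ i ∈ Finset.range (l + 1), (-1 : ℤ) ^ i • ev c τ (f ∘ dl i) := by
  rw [ev_eq (cobd hl c) τ, ev_cobd hl c τ hf hb]

/-- `S_i c = 0`. -/
private def Zr {m : ℕ} (c : X.obj (op ⦋m⦌) → M) (i : ℕ) : Prop :=
  ∀ (b : ℕ) (τ : X.obj (op ⦋b⦌)) (f : ℕ → ℕ), Monotone f → ev c τ (f ∘ sg i) = 0

private theorem zr_of {n m : ℕ} (h : n + 1 = m) {j : ℕ} (hj : j ≤ n) {c : X.obj (op ⦋m⦌) → M}
    (hc : ∀ ρ : X.obj (op ⦋n⦌), c (dg X j h hj ρ) = 0) : Zr c j := by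
  intro b τ f hf
  by_cases hb : ∀ i, i ≤ n → f i ≤ b
  · rw [← ev_dg h hj c τ hf hb, ← ev_eq _ _ hf hb]
    exact hc _
  · unfold ev
    rw [dif_neg]
    rintro ⟨-, h2⟩
    apply hb
    intro i hi
    by_cases hij : i ≤ j
    · have := h2 i (by omega)
      simpa only [Function.comp_apply, sg, if_pos hij] using this
    · have := h2 (i + 1) (by omega)
      simp only [Function.comp_apply, sg] at this
      rw [if_neg (by omega)] at this
      exact this

private theorem zr_mem {m : ℕ} {c : X.obj (op ⦋m⦌) → M} (hc : c ∈ CoC X M m) {i : ℕ}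
    (hi : i < m) : Zr c i := by
  obtain ⟨n, rfl⟩ : ∃ n, m = n + 1 := ⟨m - 1, by omega⟩
  exact zr_of rfl (by omega) fun ρ => hc i n rfl (by omega) ρ

private theorem mem_of_zr {m : ℕ} {c : X.obj (op ⦋m⦌) → M} (hc : ∀ i, i < m → Zr c i) :
    c ∈ CoC X M m := by
  intro i a h hi τ
  have h1 := hc i (by omega) a τ id monotone_id
  unfold dg
  rw [ev_eq c τ]
  exact h1

private theorem alt_zero {N : ℕ} {a : ℕ → M} {j : ℕ} (hj : j + 1 < N)
    (h0 : ∀ i, i < N → i ≠ j → i ≠ j + 1 → a i = 0) (h1 : a j = a (j + 1)) :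
    ∑ i ∈ Finset.range N, (-1 : ℤ) ^ i • a i = 0 := by
  have h3 : ∀ i ∈ Finset.range N, ((-1 : ℤ) ^ i • a i) =
      (if i = j then (-1 : ℤ) ^ i • a j else 0) +
      (if i = j + 1 then (-1 : ℤ) ^ i • a j else 0) := by
    intro i hi
    by_cases hi1 : i = j
    · subst hi1; simp
    · by_cases hi' : i = j + 1
      · subst hi'; simp [h1]
      · simp [hi1, hi', h0 i (Finset.mem_range.1 hi) hi1 hi']
  rw [Finset.sum_congr rfl h3, Finset.sum_add_distrib, Finset.sum_ite_eq', Finset.sum_ite_eq',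
    if_pos (Finset.mem_range.mpr (by omega)), if_pos (Finset.mem_range.mpr (by omega)), pow_succ]
  simp

private theorem sgdl_lt {i j : ℕ} (h : i < j) : sg j ∘ dl i = dl i ∘ sg (j - 1) := by
  funext x
  simp only [Function.comp_apply]
  unfold sg dl
  split_ifs <;> omega

private theorem sgdl_eq (j : ℕ) : sg j ∘ dl j = id := by
  funext x
  simp only [Function.comp_apply, id]
  unfold sg dl
  split_ifs <;> omega

private theorem sgdl_succ (j : ℕ) : sg j ∘ dl (j + 1) = id := by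
  funext x
  simp only [Function.comp_apply, id]
  unfold sg dl
  split_ifs <;> omega

private theorem sgdl_gt {i j : ℕ} (h : j + 1 < i) : sg j ∘ dl i = dl (i - 1) ∘ sg j := by
  funext x
  simp only [Function.comp_apply]
  unfold sg dl
  split_ifs <;> omega

private theorem sgsg {i j : ℕ} (h : i < j) : sg i ∘ sg j = sg (j - 1) ∘ sg i := by
  funext x
  simp only [Function.comp_apply]
  unfold sg
  split_ifs <;> omega

private theorem dl_mono' (i : ℕ) : Monotone (dl i) := (dl_strictMono i).monotone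

end aux

theorem cobd_cobd {M : Type} [AddCommGroup M] {X : SSet.{0}} {m l n : ℕ} (hl : m + 1 = l)
    (hn : l + 1 = n) (c : X.obj (op ⦋m⦌) → M) : cobd hn (cobd hl c) = 0 := by
  funext σ
  have hid : opr X id monotone_id (fun i hi => hi) σ = σ := opr_id X _ σ
  rw [← hid, cobd_eq]
  have h1 : ∀ i ∈ Finset.range (n + 1), (-1 : ℤ) ^ i • ev (cobd hl c) σ (id ∘ dl i) =
      ∑ k ∈ Finset.range (l + 1), (-1 : ℤ) ^ (i + k) • ev c σ (dl i ∘ dl k) := by
    intro i _
    have e : id ∘ dl i = dl i := rfl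
    rw [e, ev_cobd hl c σ (dl_mono' i) (dl_bd i hn), Finset.smul_sum]
    refine Finset.sum_congr rfl fun k _ => ?_
    rw [smul_smul, ← pow_add]
  rw [Finset.sum_congr rfl h1, ← Finset.sum_product']
  refine Finset.sum_involution (fun q _ => if q.2 < q.1 then (q.2, q.1 - 1) else (q.2 + 1, q.1))
    ?_ ?_ ?_ ?_
  · rintro ⟨i, k⟩ hq
    simp only
    by_cases hk : k < i
    · rw [if_pos hk]
      simp only
      have e1 : dl i ∘ dl k = dl k ∘ dl (i - 1) := by
        funext x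
        simp only [Function.comp_apply]
        unfold dl
        split_ifs <;> omega
      rw [e1, ← add_smul]
      have e2 : i + k = k + (i - 1) + 1 := by omega
      rw [e2, pow_succ]
      simp
    · rw [if_neg hk]
      simp only
      have e1 : dl (k + 1) ∘ dl i = dl i ∘ dl k := by
        funext x
        simp only [Function.comp_apply]
        unfold dl
        split_ifs <;> omega
      rw [e1, ← add_smul]
      have e2 : k + 1 + i = i + k + 1 := by omega
      rw [e2, pow_succ]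
      simp
  · rintro ⟨i, k⟩ hq hne heq
    simp only at heq
    by_cases hk : k < i
    · rw [if_pos hk, Prod.mk.injEq] at heq
      omega
    · rw [if_neg hk, Prod.mk.injEq] at heq
      omega
  · rintro ⟨i, k⟩ hq
    rw [Finset.mem_product, Finset.mem_range, Finset.mem_range] at hq
    simp only at hq ⊢
    by_cases hk : k < i
    · rw [if_pos hk, Finset.mem_product, Finset.mem_range, Finset.mem_range]
      simp only
      omega
    · rw [if_neg hk, Finset.mem_product, Finset.mem_range, Finset.mem_range]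
      simp only
      omega
  · rintro ⟨i, k⟩ hq
    simp only
    by_cases hk : k < i
    · rw [if_pos hk]
      simp only
      rw [if_neg (by omega), Prod.mk.injEq]
      omega
    · rw [if_neg hk]
      simp only
      rw [if_pos (by omega), Prod.mk.injEq]
      omega

private theorem cobd_add' {M : Type} [AddCommGroup M] {X : SSet.{0}} {m l : ℕ} (hl : m + 1 = l)
    (x y : X.obj (op ⦋m⦌) → M) : cobd hl (x + y) = cobd hl x + cobd hl y := by
  funext σ
  simp only [cobd, Pi.add_apply, smul_add, Finset.sum_add_distrib]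

private theorem cobd_neg' {M : Type} [AddCommGroup M] {X : SSet.{0}} {m l : ℕ} (hl : m + 1 = l)
    (x : X.obj (op ⦋m⦌) → M) : cobd hl (-x) = -cobd hl x := by
  funext σ
  simp only [cobd, Pi.neg_apply, smul_neg, Finset.sum_neg_distrib]

private theorem cobd_sub' {M : Type} [AddCommGroup M] {X : SSet.{0}} {m l : ℕ} (hl : m + 1 = l)
    (x y : X.obj (op ⦋m⦌) → M) : cobd hl (x - y) = cobd hl x - cobd hl y := by
  rw [sub_eq_add_neg, cobd_add', cobd_neg', ← sub_eq_add_neg]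

private theorem cobd_zsmul' {M : Type} [AddCommGroup M] {X : SSet.{0}} {m l : ℕ} (hl : m + 1 = l)
    (k : ℤ) (x : X.obj (op ⦋m⦌) → M) : cobd hl (k • x) = k • cobd hl x := by
  funext σ
  simp only [cobd, Pi.smul_apply, Finset.smul_sum]
  refine Finset.sum_congr rfl fun i _ => ?_
  rw [smul_comm]

private theorem ev_sub' {M : Type} [AddCommGroup M] {X : SSet.{0}} {m b : ℕ}
    (c c' : X.obj (op ⦋m⦌) → M) (τ : X.obj (op ⦋b⦌)) (f : ℕ → ℕ) :
    ev (c - c') τ f = ev c τ f - ev c' τ f := by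
  unfold ev
  split_ifs
  · rfl
  · rw [sub_zero]

private theorem ev_zsmul' {M : Type} [AddCommGroup M] {X : SSet.{0}} {m b : ℕ}
    (k : ℤ) (c : X.obj (op ⦋m⦌) → M) (τ : X.obj (op ⦋b⦌)) (f : ℕ → ℕ) :
    ev (k • c) τ f = k • ev c τ f := by
  unfold ev
  split_ifs
  · rfl
  · rw [smul_zero]

/-- `S_j δ u = (-1)^j u` for `u = S_j c`. -/
private theorem step_eq {M : Type} [AddCommGroup M] {X : SSet.{0}} {n m l : ℕ} (h : n + 1 = m)
    (hl : m + 1 = l) {j : ℕ} (hj : j ≤ n) (c : X.obj (op ⦋m⦌) → M) (hc : cobd hl c ∈ CoC X M l)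
    (hz : ∀ i, i < j → Zr c i) (τ : X.obj (op ⦋n⦌)) :
    ev (cobd h (fun ρ : X.obj (op ⦋n⦌) => c (dg X j h hj ρ))) τ (sg j) =
      (-1 : ℤ) ^ j • ev c τ (sg j) := by
  subst h
  subst hl
  have hb1 : ∀ i, i ≤ n + 1 → sg j i ≤ n := sg_bd j rfl hj
  rw [ev_cobd rfl _ τ (sg_mono j) hb1]
  have ha : ∀ i ∈ Finset.range (n + 1 + 1), (-1 : ℤ) ^ i •
      ev (fun ρ : X.obj (op ⦋n⦌) => c (dg X j rfl hj ρ)) τ (sg j ∘ dl i) =
      (-1 : ℤ) ^ i • ev c τ (sg j ∘ dl i ∘ sg j) := by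
    intro i _
    rw [ev_dg rfl hj c τ ((sg_mono j).comp (dl_mono' i))
      (fun t ht => hb1 _ (dl_bd i rfl t ht))]
    rfl
  rw [Finset.sum_congr rfl ha]
  have hb : ∑ i ∈ Finset.range (n + 1 + 1 + 1), (-1 : ℤ) ^ i • ev c τ (sg j ∘ sg j ∘ dl i) = 0 := by
    have h1 := zr_mem hc (show j < n + 1 + 1 by omega) n τ (sg j) (sg_mono j)
    rw [ev_cobd rfl c τ ((sg_mono j).comp (sg_mono j))
      (fun t ht => hb1 _ (sg_bd j rfl (by omega) t ht))] at h1
    exact h1
  obtain ⟨K, hK⟩ : ∃ K, n = j + K := ⟨n - j, by omega⟩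
  have e1 : n + 1 + 1 = j + 2 + K := by omega
  have e2 : n + 1 + 1 + 1 = j + 3 + K := by omega
  rw [e1, Finset.sum_range_add]
  rw [e2, Finset.sum_range_add] at hb
  have hA0 : ∀ i, i < j → ev c τ (sg j ∘ dl i ∘ sg j) = 0 := by
    intro i hi
    have e3 : sg j ∘ dl i ∘ sg j = (dl i ∘ sg (j - 1)) ∘ sg (j - 1) := by
      funext x
      simp only [Function.comp_apply]
      unfold sg dl
      split_ifs <;> omega
    rw [e3]
    exact hz (j - 1) (by omega) n τ _ ((dl_mono' i).comp (sg_mono _))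
  have hA1 : ev c τ (sg j ∘ dl j ∘ sg j) = ev c τ (sg j) := by
    have e3 : sg j ∘ dl j ∘ sg j = sg j := by
      rw [← Function.comp_assoc, sgdl_eq]
      rfl
    rw [e3]
  have hA2 : ev c τ (sg j ∘ dl (j + 1) ∘ sg j) = ev c τ (sg j) := by
    have e3 : sg j ∘ dl (j + 1) ∘ sg j = sg j := by
      rw [← Function.comp_assoc, sgdl_succ]
      rfl
    rw [e3]
  have hB0 : ∀ i, i < j → ev c τ (sg j ∘ sg j ∘ dl i) = 0 := by
    intro i hi
    have e3 : sg j ∘ sg j ∘ dl i = (sg j ∘ dl i) ∘ sg (j - 1) := by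
      funext x
      simp only [Function.comp_apply]
      unfold sg dl
      split_ifs <;> omega
    rw [e3]
    exact hz (j - 1) (by omega) n τ _ ((sg_mono j).comp (dl_mono' i))
  have hB1 : ev c τ (sg j ∘ sg j ∘ dl j) = ev c τ (sg j) := by
    rw [sgdl_eq]
    rfl
  have hB2 : ev c τ (sg j ∘ sg j ∘ dl (j + 1)) = ev c τ (sg j) := by
    rw [sgdl_succ]
    rfl
  have hB3 : ev c τ (sg j ∘ sg j ∘ dl (j + 2)) = ev c τ (sg j) := by
    have e3 : sg j ∘ sg j ∘ dl (j + 2) = sg j := by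
      funext x
      simp only [Function.comp_apply]
      unfold sg dl
      split_ifs <;> omega
    rw [e3]
  have hBA : ∀ x, ev c τ (sg j ∘ sg j ∘ dl (j + 3 + x)) =
      ev c τ (sg j ∘ dl (j + 2 + x) ∘ sg j) := by
    intro x
    have e3 : sg j ∘ sg j ∘ dl (j + 3 + x) = sg j ∘ dl (j + 2 + x) ∘ sg j := by
      funext y
      simp only [Function.comp_apply]
      unfold sg dl
      split_ifs <;> omega
    rw [e3]
  have hS1 : ∑ i ∈ Finset.range (j + 2), (-1 : ℤ) ^ i • ev c τ (sg j ∘ dl i ∘ sg j) = 0 := by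
    refine alt_zero (j := j) (by omega) ?_ ?_
    · intro i hi h1 h2
      exact hA0 i (by omega)
    · rw [hA1, hA2]
  have hS2 : ∑ i ∈ Finset.range (j + 3), (-1 : ℤ) ^ i • ev c τ (sg j ∘ sg j ∘ dl i) =
      (-1 : ℤ) ^ j • ev c τ (sg j) := by
    rw [Finset.sum_range_succ, hB3]
    have h1 : ∑ i ∈ Finset.range (j + 2), (-1 : ℤ) ^ i • ev c τ (sg j ∘ sg j ∘ dl i) = 0 := by
      refine alt_zero (j := j) (by omega) ?_ ?_
      · intro i hi h1 h2
        exact hB0 i (by omega)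
      · rw [hB1, hB2]
    rw [h1, zero_add, pow_add]
    simp
  rw [hS1, zero_add]
  rw [hS2] at hb
  have h3 : ∑ x ∈ Finset.range K, (-1 : ℤ) ^ (j + 3 + x) • ev c τ (sg j ∘ sg j ∘ dl (j + 3 + x)) =
      -∑ x ∈ Finset.range K, (-1 : ℤ) ^ (j + 2 + x) • ev c τ (sg j ∘ dl (j + 2 + x) ∘ sg j) := by
    rw [← Finset.sum_neg_distrib]
    refine Finset.sum_congr rfl fun x _ => ?_
    rw [hBA, ← neg_smul]
    congr 1
    have e3 : j + 3 + x = j + 2 + x + 1 := by omega
    rw [e3, pow_succ]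
    ring
  rw [h3, add_neg_eq_zero] at hb
  exact hb.symm

/-- `S_i δ u = 0` for `u = S_j c`, `i < j`. -/
private theorem step_zero {M : Type} [AddCommGroup M] {X : SSet.{0}} {n m : ℕ} (h : n + 1 = m)
    {j : ℕ} (hj : j ≤ n) (c : X.obj (op ⦋m⦌) → M)
    (hz : ∀ i, i < j → Zr c i) {i : ℕ} (hi : i < j) (τ : X.obj (op ⦋n⦌)) :
    ev (cobd h (fun ρ : X.obj (op ⦋n⦌) => c (dg X j h hj ρ))) τ (sg i) = 0 := by
  subst h
  have hb1 : ∀ t, t ≤ n + 1 → sg i t ≤ n := sg_bd i rfl (by omega)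
  rw [ev_cobd rfl _ τ (sg_mono i) hb1]
  have ha : ∀ t ∈ Finset.range (n + 1 + 1), (-1 : ℤ) ^ t •
      ev (fun ρ : X.obj (op ⦋n⦌) => c (dg X j rfl hj ρ)) τ (sg i ∘ dl t) =
      (-1 : ℤ) ^ t • ev c τ (sg i ∘ dl t ∘ sg j) := by
    intro t _
    rw [ev_dg rfl hj c τ ((sg_mono i).comp (dl_mono' t))
      (fun s hs => hb1 _ (dl_bd t rfl s hs))]
    rfl
  rw [Finset.sum_congr rfl ha]
  refine alt_zero (j := i) (by omega) ?_ ?_
  · intro t ht h1 h2
    rcases Nat.lt_or_ge t i with h3 | h3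
    · have e3 : sg i ∘ dl t ∘ sg j = (dl t ∘ sg (j - 1)) ∘ sg (i - 1) := by
        funext x
        simp only [Function.comp_apply]
        unfold sg dl
        split_ifs <;> omega
      rw [e3]
      exact hz (i - 1) (by omega) n τ _ ((dl_mono' t).comp (sg_mono _))
    · have e3 : sg i ∘ dl t ∘ sg j = (dl (t - 1) ∘ sg (j - 1)) ∘ sg i := by
        rw [← Function.comp_assoc, sgdl_gt (show i + 1 < t by omega), Function.comp_assoc,
          sgsg hi, Function.comp_assoc]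
      rw [e3]
      exact hz i hi n τ _ ((dl_mono' _).comp (sg_mono _))
  · have e3 : sg i ∘ dl i ∘ sg j = sg j := by
      rw [← Function.comp_assoc, sgdl_eq]
      rfl
    have e4 : sg i ∘ dl (i + 1) ∘ sg j = sg j := by
      rw [← Function.comp_assoc, sgdl_succ]
      rfl
    rw [e3, e4]

theorem norm_cochain {M : Type} [AddCommGroup M] {X : SSet.{0}} {m l : ℕ} (hl : m + 1 = l)
    (c : X.obj (op ⦋m⦌) → M) (hc : cobd hl c ∈ CoC X M l) :
    c ∈ CoC X M m ∨ ∃ (n : ℕ) (h : n + 1 = m) (e : X.obj (op ⦋n⦌) → M), c - cobd h e ∈ CoC X M m := by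
  rcases Nat.eq_zero_or_pos m with h0 | h0
  · left
    intro i a h hi τ
    omega
  · right
    obtain ⟨n, hn⟩ : ∃ n, n + 1 = m := ⟨m - 1, by omega⟩
    refine ⟨n, hn, ?_⟩
    have key : ∀ k, k ≤ m → ∃ e : X.obj (op ⦋n⦌) → M, ∀ i, i < k → Zr (c - cobd hn e) i := by
      intro k
      induction k with
      | zero =>
        intro _
        exact ⟨0, fun i hi => absurd hi (Nat.not_lt_zero i)⟩
      | succ j ih =>
        intro hk
        obtain ⟨e, he⟩ := ih (by omega)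
        have hj : j ≤ n := by omega
        obtain ⟨c1, hc1⟩ : ∃ c1, c1 = c - cobd hn e := ⟨_, rfl⟩
        rw [← hc1] at he
        have hc2 : cobd hl c1 ∈ CoC X M l := by
          rw [hc1, cobd_sub', cobd_cobd, sub_zero]
          exact hc
        obtain ⟨u, hu⟩ : ∃ u : X.obj (op ⦋n⦌) → M, u = fun ρ => c1 (dg X j hn hj ρ) := ⟨_, rfl⟩
        refine ⟨e + (-1 : ℤ) ^ j • u, ?_⟩
        have e1 : c - cobd hn (e + (-1 : ℤ) ^ j • u) = c1 - (-1 : ℤ) ^ j • cobd hn u := by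
          rw [cobd_add', cobd_zsmul', hc1]
          abel
        rw [e1]
        intro i hi
        refine zr_of hn (by omega) fun ρ => ?_
        have e2 : (c1 - (-1 : ℤ) ^ j • cobd hn u) (dg X i hn (by omega) ρ) =
            ev (c1 - (-1 : ℤ) ^ j • cobd hn u) ρ (sg i) := by
          unfold dg
          rw [ev_eq (c1 - (-1 : ℤ) ^ j • cobd hn u) ρ]
        rw [e2, ev_sub', ev_zsmul']
        rcases Nat.lt_or_ge i j with h1 | h1
        · have h2 := he i h1 n ρ id monotone_id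
          have h3 : ev c1 ρ (sg i) = 0 := h2
          rw [h3, hu, step_zero hn hj c1 he h1 ρ, smul_zero, sub_zero]
        · have h2 : i = j := by omega
          subst h2
          rw [hu, step_eq hn hl hj c1 hc2 he ρ, smul_smul, ← mul_pow]
          simp
    obtain ⟨e, he⟩ := key m le_rfl
    exact ⟨e, mem_of_zr he⟩

theorem cobd_mem_CoC {M : Type} [AddCommGroup M] {X : SSet.{0}} {m l : ℕ} (hl : m + 1 = l)
    {c : X.obj (op ⦋m⦌) → M} (hc : c ∈ CoC X M m) : cobd hl c ∈ CoC X M l := by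
  intro i a h hi τ
  obtain rfl : a = m := by omega
  unfold dg
  rw [cobd_eq]
  refine alt_zero (j := i) (by omega) ?_ ?_
  · intro t ht h1 h2
    rcases Nat.lt_or_ge t i with h3 | h3
    · rw [sgdl_lt h3]
      exact zr_mem hc (by omega) _ τ _ (dl_mono' t)
    · rw [sgdl_gt (show i + 1 < t by omega)]
      exact zr_mem hc (by omega) _ τ _ (dl_mono' _)
  · rw [sgdl_eq, sgdl_succ]

/-- Every (unnormalised) cocycle is cohomologous to a normalised one. -/
theorem exists_norm {M : Type} [AddCommGroup M] {X : SSet.{0}} {m : ℕ}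
    (c : X.obj (op ⦋m⦌) → M) (hc : ∀ σ, cobd (rfl : m + 1 = m + 1) c σ = 0) :
    ∃ c' : CoZ X M m, c = c'.1 ∨ ∃ (n : ℕ) (h : n + 1 = m) (e : X.obj (op ⦋n⦌) → M),
      c = c'.1 + cobd h e := by
  have hc0 : cobd (rfl : m + 1 = m + 1) c = 0 := funext hc
  have h1 : cobd (rfl : m + 1 = m + 1) c ∈ CoC X M (m + 1) := by
    rw [hc0]
    exact (CoC X M (m + 1)).zero_mem
  rcases norm_cochain rfl c h1 with h2 | ⟨n, h, e, h2⟩
  · exact ⟨⟨c, h2, hc⟩, Or.inl rfl⟩
  · refine ⟨⟨c - cobd h e, h2, fun σ => ?_⟩, Or.inr ⟨n, h, e, ?_⟩⟩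
    · rw [cobd_sub', hc0, cobd_cobd, sub_zero]
      rfl
    · change c = c - cobd h e + cobd h e
      rw [sub_add_cancel]

/-- A normalised cochain which is the coboundary of an unnormalised cochain is the coboundary of a
normalised one. -/
theorem isBd_of_unnorm {M : Type} [AddCommGroup M] {X : SSet.{0}} {m l : ℕ} (hl : m + 1 = l)
    (e : X.obj (op ⦋m⦌) → M) (he : cobd hl e ∈ CoC X M l) : IsBd (cobd hl e) := by
  rcases norm_cochain hl e he with h1 | ⟨n, h, e', h1⟩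
  · exact Or.inr ⟨m, hl, e, h1, rfl⟩
  · refine Or.inr ⟨m, hl, e - cobd h e', h1, ?_⟩
    rw [cobd_sub', cobd_cobd, sub_zero]

end BPN.E
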