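import Pool.Agent.BPN.E.BV
import Pool.Agent.BPN.E.NormS

/-!
# Part (E), module BCoh: cohomology of the classifying space of the cyclic group (project BPN, helper30)

THEOREM: `H^m (B C_p) = k · psi m` (`psi_span`, `psi_ne`), `C = ZMod p`, `BV p Unit`.

PROOF.  Write a cochain `f` of `BV p Unit` in inhomogeneous form `f(h_1, .., h_m)` (increments) or in
homogeneous form `F(x_0, .., x_m) = f` of the simplex with vertices `x_i - x_0` (so `F` is invariant under
simultaneous translation).  For `f` of degree `m ≥ 2` put `(D f)(h_3, .., h_m) = ∑_{c ∈ C} f(1, c, h_3, .., h_m)`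
(degree `m - 2`).
(1) `D (δ e) = δ (D e)` for `e` of degree `m ≥ 2` (the terms `e(c, h) - e(1+c, h)` cancel in the sum, and
    `∑_c e(1, c + h_3, ..) = ∑_c e(1, c, ..)`); `D (δ e) = 0` for `e` of degree `1`; `D (y ∪ f) = f`, because
    `∑_c carry 1 c = 1`.  `D` preserves normalised cochains.
(2) `psi_ne`: `psi 0 = 1` is not `0`; `psi 1 = x ≠ 0` and coboundaries in degree `1` are `0` (there is only one
    vertex); `psi (m+2) = y ∪ psi m = δ e` implies `psi m = D (δ e) = δ (D e)` or `= 0`.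
(3) If `f` is a cocycle of degree `m ≥ 2` with `D f = 0` then `f` is a coboundary (of an unnormalised
    cochain, then use `isBd_of_unnorm`).  In homogeneous form: let `E(x_1, .., x_m) = F(0, x_1, .., x_m)` and
    `E'(x_2, .., x_m) = F(0, 1, x_2, .., x_m)`, cochains on `EC` (functions of arbitrary points).  `δ E = F` and
    `E(x_1 - 1, .., x_m - 1) - E(x_1, .., x_m) = - (δ E')(x_1, .., x_m)` (the cocycle condition of `F` on
    `(0, x_0, .., x_m)` and on `(0, 1, x_1, .., x_m)`).  `D f = 0` says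
    `∑_{c ∈ C} E'(x_2 - c, .., x_m - c) = 0`.  Define `G(x_2, .., x_m) = - ∑_{s=1}^{t} E'(s, x_3 - t + s, .., x_m - t + s)`,
    where `t ∈ {0, .., p-1}` is the representative of `x_2`; then
    `G(x_2 - 1, ..) - G(x_2, ..) = E'(x_2, .., x_m)`.  Hence `E + δ G` is translation invariant and
    `δ (E + δ G) = F`; so `f = δ e` with `e` the inhomogeneous form of `E + δ G`.
(4) `psi_span`: degree `0`: cochains are constants; degree `1`: cocycles are additive functions `C → k`, so
    multiples of `x`.  Degree `m + 2`: `f - y ∪ D f` is a cocycle (`D f` is one by (1)) killed by `D`, so a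
    coboundary by (3); `D f ~ c psi m` by induction, and `y ∪ δ e = δ (y ∪ e)`.
-/

namespace BPN.E

open CategoryTheory SSet Simplicial Opposite

variable {p : ℕ} [Fact p.Prime]

/-! ### Homogeneous form -/

/-- The simplex with vertices `x_i - x_0`. -/
private def mkX (m : ℕ) (x : ℕ → ZMod p) : (BV p Unit).obj (op ⦋m⦌) :=
  mkv m (fun i _ => x i - x 0) (by funext _; exact sub_self _)

private theorem vx_mkX {m i : ℕ} (x : ℕ → ZMod p) (hi : i ≤ m) (u : Unit) :
    vx (mkX m x) i u = x i - x 0 := by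
  unfold mkX
  rw [vx_mkv hi]

private theorem mkX_congr {m : ℕ} {x y : ℕ → ZMod p}
    (h : ∀ i, i ≤ m → x i - x 0 = y i - y 0) : mkX m x = mkX m y := by
  refine vx_ext fun i hi => ?_
  funext u
  rw [vx_mkX x hi, vx_mkX y hi, h i hi]

private theorem mkX_vx {m : ℕ} (σ : (BV p Unit).obj (op ⦋m⦌)) :
    mkX m (fun i => vx σ i ()) = σ := by
  refine vx_ext fun i hi => ?_
  funext u
  rw [vx_mkX _ hi, vx_zero σ]
  show vx σ i () - 0 = vx σ i u
  rw [sub_zero]

private theorem opr_mkX {f : ℕ → ℕ} (hf : Monotone f) {a b : ℕ} (hb : ∀ i, i ≤ a → f i ≤ b)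
    (x : ℕ → ZMod p) : opr (BV p Unit) f hf hb (mkX b x) = mkX a (x ∘ f) := by
  refine vx_ext fun i hi => ?_
  funext u
  rw [vx_opr hf hb _ hi, vx_mkX _ hi, Pi.sub_apply, vx_mkX _ (hb i hi),
    vx_mkX _ (hb 0 (Nat.zero_le _))]
  show x (f i) - x 0 - (x (f 0) - x 0) = x (f i) - x (f 0)
  ring

/-- The homogeneous form of a cochain. -/
private def hm {m : ℕ} (c : (BV p Unit).obj (op ⦋m⦌) → ZMod p) (x : ℕ → ZMod p) : ZMod p :=
  c (mkX m x)

private theorem eq_hm {m : ℕ} (c : (BV p Unit).obj (op ⦋m⦌) → ZMod p)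
    (σ : (BV p Unit).obj (op ⦋m⦌)) : c σ = hm c (fun i => vx σ i ()) := by
  unfold hm
  rw [mkX_vx]

private theorem ext_hm {m : ℕ} {c c' : (BV p Unit).obj (op ⦋m⦌) → ZMod p}
    (h : ∀ x, hm c x = hm c' x) : c = c' := by
  funext σ
  rw [eq_hm c, eq_hm c', h]

private theorem hm_shift {m : ℕ} (c : (BV p Unit).obj (op ⦋m⦌) → ZMod p) (x : ℕ → ZMod p)
    (t : ZMod p) : hm c (fun i => x i + t) = hm c x := by
  unfold hm
  rw [mkX_congr (y := x) fun i _ => by ring]

private theorem hm_congr {m : ℕ} (c : (BV p Unit).obj (op ⦋m⦌) → ZMod p) {x y : ℕ → ZMod p}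
    (h : ∀ i, i ≤ m → x i = y i) : hm c x = hm c y := by
  unfold hm
  rw [mkX_congr (y := y) fun i hi => by rw [h i hi, h 0 (Nat.zero_le _)]]

/-- The coboundary with target degree `l` of functions on sequences. -/
private def dlt (l : ℕ) (F : (ℕ → ZMod p) → ZMod p) (x : ℕ → ZMod p) : ZMod p :=
  ∑ i ∈ Finset.range (l + 1), (-1 : ℤ) ^ i • F (x ∘ dl i)

private theorem hm_cobd {m l : ℕ} (h : m + 1 = l) (c : (BV p Unit).obj (op ⦋m⦌) → ZMod p)
    (x : ℕ → ZMod p) : hm (cobd h c) x = dlt l (hm c) x := by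
  unfold hm cobd dlt fc
  refine Finset.sum_congr rfl fun i _ => ?_
  rw [opr_mkX]

private theorem dlt_dlt (l : ℕ) (F : (ℕ → ZMod p) → ZMod p) (x : ℕ → ZMod p) :
    dlt (l + 1) (dlt l F) x = 0 := by
  unfold dlt
  have h1 : ∀ i ∈ Finset.range (l + 1 + 1), (-1 : ℤ) ^ i •
      ∑ k ∈ Finset.range (l + 1), (-1 : ℤ) ^ k • F ((x ∘ dl i) ∘ dl k) =
      ∑ k ∈ Finset.range (l + 1), (-1 : ℤ) ^ (i + k) • F (x ∘ (dl i ∘ dl k)) := by
    intro i _
    rw [Finset.smul_sum]
    refine Finset.sum_congr rfl fun k _ => ?_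
    rw [smul_smul, ← pow_add]
    rfl
  rw [Finset.sum_congr rfl h1, ← Finset.sum_product']
  refine Finset.sum_involution (fun q _ => if q.2 < q.1 then (q.2, q.1 - 1) else (q.2 + 1, q.1))
    ?_ ?_ ?_ ?_
  · rintro ⟨i, k⟩ hq
    simp only
    by_cases hk : k < i
    · rw [if_pos hk]
      simp only
      have e1 : dl i ∘ dl k = dl k ∘ dl (i - 1) := by
        funext x
        simp only [Function.comp_apply]
        unfold dl
        split_ifs <;> omega
      rw [e1, ← add_smul]
      have e2 : i + k = k + (i - 1) + 1 := by omega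
      rw [e2, pow_succ]
      simp
    · rw [if_neg hk]
      simp only
      have e1 : dl (k + 1) ∘ dl i = dl i ∘ dl k := by
        funext x
        simp only [Function.comp_apply]
        unfold dl
        split_ifs <;> omega
      rw [e1, ← add_smul]
      have e2 : k + 1 + i = i + k + 1 := by omega
      rw [e2, pow_succ]
      simp
  · rintro ⟨i, k⟩ hq hne heq
    simp only at heq
    by_cases hk : k < i
    · rw [if_pos hk, Prod.mk.injEq] at heq
      omega
    · rw [if_neg hk, Prod.mk.injEq] at heq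
      omega
  · rintro ⟨i, k⟩ hq
    rw [Finset.mem_product, Finset.mem_range, Finset.mem_range] at hq
    simp only at hq ⊢
    by_cases hk : k < i
    · rw [if_pos hk, Finset.mem_product, Finset.mem_range, Finset.mem_range]
      simp only
      omega
    · rw [if_neg hk, Finset.mem_product, Finset.mem_range, Finset.mem_range]
      simp only
      omega
  · rintro ⟨i, k⟩ hq
    simp only
    by_cases hk : k < i
    · rw [if_pos hk]
      simp only
      rw [if_neg (by omega), Prod.mk.injEq]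
      omega
    · rw [if_neg hk]
      simp only
      rw [if_pos (by omega), Prod.mk.injEq]
      omega

private theorem dlt_add (l : ℕ) (F G : (ℕ → ZMod p) → ZMod p) (x : ℕ → ZMod p) :
    dlt l (fun y => F y + G y) x = dlt l F x + dlt l G x := by
  unfold dlt
  rw [← Finset.sum_add_distrib]
  refine Finset.sum_congr rfl fun i _ => ?_
  rw [smul_add]

private theorem dlt_sub (l : ℕ) (F G : (ℕ → ZMod p) → ZMod p) (x : ℕ → ZMod p) :
    dlt l (fun y => F y - G y) x = dlt l F x - dlt l G x := by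
  unfold dlt
  rw [← Finset.sum_sub_distrib]
  refine Finset.sum_congr rfl fun i _ => ?_
  rw [smul_sub]

private theorem dlt_sum {κ : Type} (s : Finset κ) (l : ℕ) (F : κ → (ℕ → ZMod p) → ZMod p)
    (x : ℕ → ZMod p) : ∑ c ∈ s, dlt l (F c) x = dlt l (fun y => ∑ c ∈ s, F c y) x := by
  unfold dlt
  rw [Finset.sum_comm]
  refine Finset.sum_congr rfl fun i _ => ?_
  rw [Finset.smul_sum]

/-- A sequence with a new first point. -/
private def cn (a : ZMod p) (x : ℕ → ZMod p) (i : ℕ) : ZMod p :=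
  Nat.casesOn i a x

private theorem cn_zero (a : ZMod p) (x : ℕ → ZMod p) : cn a x 0 = a := rfl

private theorem cn_succ (a : ZMod p) (x : ℕ → ZMod p) (i : ℕ) : cn a x (i + 1) = x i := rfl

private theorem cn_dl_zero (a : ZMod p) (x : ℕ → ZMod p) : cn a x ∘ dl 0 = x := by
  funext i
  simp only [Function.comp_apply]
  have h : dl 0 i = i + 1 := by unfold dl; simp
  rw [h, cn_succ]

private theorem cn_dl_succ (a : ZMod p) (x : ℕ → ZMod p) (j : ℕ) :
    cn a x ∘ dl (j + 1) = cn a (x ∘ dl j) := by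
  funext i
  simp only [Function.comp_apply]
  cases i with
  | zero =>
    have h : dl (j + 1) 0 = 0 := by unfold dl; simp
    rw [h, cn_zero, cn_zero]
  | succ i =>
    have h : dl (j + 1) (i + 1) = dl j i + 1 := by unfold dl; split_ifs <;> omega
    rw [h, cn_succ, cn_succ]
    rfl

private theorem cn_sg_succ (a : ZMod p) (x : ℕ → ZMod p) (j : ℕ) :
    cn a x ∘ sg (j + 1) = cn a (x ∘ sg j) := by
  funext i
  simp only [Function.comp_apply]
  cases i with
  | zero =>
    have h : sg (j + 1) 0 = 0 := by unfold sg; simp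
    rw [h, cn_zero, cn_zero]
  | succ i =>
    have h : sg (j + 1) (i + 1) = sg j i + 1 := by unfold sg; split_ifs <;> omega
    rw [h, cn_succ, cn_succ]
    rfl

private theorem cn_shift (a t : ZMod p) (x : ℕ → ZMod p) :
    cn (a + t) (fun i => x i + t) = fun i => cn a x i + t := by
  funext i
  cases i with
  | zero => rfl
  | succ i => rfl

private theorem dlt_cn (l : ℕ) (F : (ℕ → ZMod p) → ZMod p) (a : ZMod p) (x : ℕ → ZMod p) :
    dlt (l + 1) F (cn a x) = F x - dlt l (fun y => F (cn a y)) x := by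
  unfold dlt
  rw [Finset.sum_range_succ', cn_dl_zero, pow_zero, one_smul]
  have h1 : ∀ i ∈ Finset.range (l + 1), (-1 : ℤ) ^ (i + 1) • F (cn a x ∘ dl (i + 1)) =
      -((-1 : ℤ) ^ i • F (cn a (x ∘ dl i))) := by
    intro i _
    rw [cn_dl_succ, pow_succ, mul_neg_one, neg_smul]
  rw [Finset.sum_congr rfl h1, Finset.sum_neg_distrib]
  ring

/-- `F (1, x) = F (0, x - 1)`. -/
private theorem hm_cn_one {m : ℕ} (c : (BV p Unit).obj (op ⦋m⦌) → ZMod p) (x : ℕ → ZMod p) :
    hm c (cn 1 x) = hm c (cn 0 (fun i => x i - 1)) := by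
  rw [← hm_shift c (cn 0 (fun i => x i - 1)) 1, ← cn_shift]
  congr 1
  have h1 : (0 : ZMod p) + 1 = 1 := zero_add 1
  rw [h1]
  congr 1
  funext i
  ring

/-! ### The operator `D` -/

/-- The operator `D`. -/
private def Dc {n : ℕ} (f : (BV p Unit).obj (op ⦋n + 2⦌) → ZMod p) :
    (BV p Unit).obj (op ⦋n⦌) → ZMod p :=
  fun g => ∑ c : ZMod p, hm f (cn 0 (cn 1 (fun i => vx g i () + c)))

private theorem hm_Dc {n : ℕ} (f : (BV p Unit).obj (op ⦋n + 2⦌) → ZMod p) (x : ℕ → ZMod p) :
    hm (Dc f) x = ∑ c : ZMod p, hm f (cn 0 (cn 1 (fun i => x i + c))) := by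
  rw [← Equiv.sum_comp (Equiv.addRight (-x 0))]
  unfold hm Dc
  refine Finset.sum_congr rfl fun c _ => ?_
  refine hm_congr f fun i hi => ?_
  rcases i with _ | _ | i
  · rfl
  · rfl
  · rw [cn_succ, cn_succ, cn_succ, cn_succ, vx_mkX _ (by omega)]
    show x i - x 0 + c = x i + (c + -x 0)
    ring

private theorem Dc_sub {n : ℕ} (f g : (BV p Unit).obj (op ⦋n + 2⦌) → ZMod p) :
    Dc (f - g) = Dc f - Dc g := by
  funext σ
  unfold Dc hm
  rw [Pi.sub_apply, ← Finset.sum_sub_distrib]
  rfl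

private theorem Dc_CoC {n : ℕ} {f : (BV p Unit).obj (op ⦋n + 2⦌) → ZMod p}
    (hf : f ∈ CoC (BV p Unit) (ZMod p) (n + 2)) : Dc f ∈ CoC (BV p Unit) (ZMod p) n := by
  intro i a h hi τ
  unfold Dc
  refine Finset.sum_eq_zero fun c _ => ?_
  have h1 : hm f (cn 0 (cn 1 (fun j => vx (dg (BV p Unit) i h hi τ) j () + c))) =
      hm f (cn 0 (cn 1 (fun j => vx τ j () + c)) ∘ sg (i + 2)) := by
    refine hm_congr f fun j hj => ?_
    have e2 : cn 0 (cn 1 (fun j => vx τ j () + c)) ∘ sg (i + 2) =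
        cn 0 (cn 1 ((fun j => vx τ j () + c) ∘ sg i)) := by
      rw [show i + 2 = i + 1 + 1 from rfl, cn_sg_succ, cn_sg_succ]
    rw [e2]
    rcases j with _ | _ | j
    · rfl
    · rfl
    · rw [cn_succ, cn_succ, cn_succ, cn_succ]
      unfold dg
      rw [vx_opr (sg_mono i) (sg_bd i h hi) τ (by omega)]
      have e3 : sg i 0 = 0 := by unfold sg; simp
      rw [e3, vx_zero, sub_zero]
      rfl
  rw [h1]
  have h2 := hf (i + 2) (n + 1) rfl (by omega) (mkX (n + 1) (cn 0 (cn 1 (fun j => vx τ j () + c))))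
  unfold dg at h2
  rw [opr_mkX] at h2
  exact h2

private theorem dlt_two (l : ℕ) (F : (ℕ → ZMod p) → ZMod p) (x : ℕ → ZMod p) :
    dlt (l + 2) F (cn 0 (cn 1 x)) =
      F (cn 1 x) - (F (cn 0 x) - dlt l (fun y => F (cn 0 (cn 1 y))) x) := by
  rw [show l + 2 = l + 1 + 1 from rfl, dlt_cn, dlt_cn]

private theorem sum_one_zero {m : ℕ} (e : (BV p Unit).obj (op ⦋m⦌) → ZMod p) (x : ℕ → ZMod p) :
    ∑ c : ZMod p, hm e (cn 1 (fun i => x i + c)) =
      ∑ c : ZMod p, hm e (cn 0 (fun i => x i + c)) := by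
  rw [← Equiv.sum_comp (Equiv.addRight (1 : ZMod p))]
  refine Finset.sum_congr rfl fun c _ => ?_
  rw [hm_cn_one]
  congr 2
  funext i
  show x i + (c + 1) - 1 = x i + c
  ring

private theorem Dc_cobd {n : ℕ} (e : (BV p Unit).obj (op ⦋n + 2⦌) → ZMod p) :
    Dc (n := n + 1) (cobd (rfl : n + 2 + 1 = n + 3) e) = cobd (rfl : n + 1 = n + 1) (Dc e) := by
  refine ext_hm fun x => ?_
  rw [hm_Dc, hm_cobd]
  have h1 : ∀ c : ZMod p, hm (cobd (rfl : n + 2 + 1 = n + 3) e)
      (cn 0 (cn 1 (fun i => x i + c))) = hm e (cn 1 (fun i => x i + c)) -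
        hm e (cn 0 (fun i => x i + c)) +
        dlt (n + 1) (fun y => hm e (cn 0 (cn 1 (fun i => y i + c)))) x := by
    intro c
    rw [hm_cobd, show n + 3 = n + 1 + 2 from rfl, dlt_two]
    have e1 : dlt (n + 1) (fun y => hm e (cn 0 (cn 1 y))) (fun i => x i + c) =
        dlt (n + 1) (fun y => hm e (cn 0 (cn 1 (fun i => y i + c)))) x := rfl
    rw [e1]
    ring
  simp only [h1]
  rw [Finset.sum_add_distrib, Finset.sum_sub_distrib, sum_one_zero, sub_self, zero_add, dlt_sum]
  congr 1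
  funext y
  exact (hm_Dc e y).symm

private theorem Dc_cobd_one (e : (BV p Unit).obj (op ⦋1⦌) → ZMod p) :
    Dc (n := 0) (cobd (rfl : 1 + 1 = 2) e) = 0 := by
  refine ext_hm fun x => ?_
  rw [hm_Dc]
  have h1 : ∀ c : ZMod p, hm (cobd (rfl : 1 + 1 = 2) e)
      (cn 0 (cn 1 (fun i => x i + c))) = hm e (cn 1 (fun i => x i + c)) -
        hm e (cn 0 (fun i => x i + c)) + hm e (cn 0 (cn 1 x)) := by
    intro c
    rw [hm_cobd]
    show dlt (0 + 2) (hm e) (cn 0 (cn 1 fun i => x i + c)) = _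
    rw [dlt_two]
    have e1 : dlt 0 (fun y => hm e (cn 0 (cn 1 y))) (fun i => x i + c) =
        hm e (cn 0 (cn 1 x)) := by
      unfold dlt
      rw [Finset.sum_range_one, pow_zero, one_smul]
      refine hm_congr e fun i hi => ?_
      rcases i with _ | _ | i
      · rfl
      · rfl
      · omega
    rw [e1]
    ring
  simp only [h1]
  rw [Finset.sum_add_distrib, Finset.sum_sub_distrib, sum_one_zero, sub_self, zero_add,
    Finset.sum_const, Finset.card_univ, ZMod.card, nsmul_eq_mul, CharP.cast_eq_zero, zero_mul]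
  rfl

private theorem hm_cup {a b c : ℕ} (h : a + b = c) (f : (BV p Unit).obj (op ⦋a⦌) → ZMod p)
    (g : (BV p Unit).obj (op ⦋b⦌) → ZMod p) (x : ℕ → ZMod p) :
    hm (cup h f g) x = hm f x * hm g (fun i => x (i + a)) := by
  unfold hm cup
  rw [opr_mkX, opr_mkX]
  rfl

private theorem sum_carry (t : ZMod p) : ∑ c : ZMod p, carry p 1 (t + c - 1) = 1 := by
  have hp := (Fact.out : p.Prime)
  have hp1 : 1 < p := hp.one_lt
  have : Fact (1 < p) := ⟨hp1⟩
  have h1 : ∀ c : ZMod p, carry p 1 c = if c = -1 then 1 else 0 := by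
    intro c
    unfold carry
    rw [ZMod.val_one]
    have hc := ZMod.val_lt c
    by_cases h : p ≤ 1 + c.val
    · rw [if_pos h, if_pos]
      have h2 : c.val = p - 1 := by omega
      rw [← ZMod.natCast_zmod_val c, h2, Nat.cast_sub hp1.le, CharP.cast_eq_zero, Nat.cast_one,
        zero_sub]
    · rw [if_neg h, if_neg]
      rintro rfl
      apply h
      have h2 : ((-1 : ZMod p) : ZMod p) = ((p - 1 : ℕ) : ZMod p) := by
        rw [Nat.cast_sub hp1.le, CharP.cast_eq_zero, Nat.cast_one, zero_sub]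
      rw [h2, ZMod.val_natCast_of_lt (by omega)]
      omega
  rw [← Equiv.sum_comp (Equiv.addRight (1 - t))]
  have h2 : ∀ c : ZMod p, carry p 1 (t + (Equiv.addRight (1 - t)) c - 1) = carry p 1 c := by
    intro c
    congr 1
    show t + (c + (1 - t)) - 1 = c
    ring
  simp only [h2, h1]
  rw [Finset.sum_ite_eq' Finset.univ, if_pos (Finset.mem_univ _)]

private theorem Dc_cup {n : ℕ} (h : 2 + n = n + 2) (f : (BV p Unit).obj (op ⦋n⦌) → ZMod p) :
    Dc (cup h (yc p ()).1 f) = f := by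
  refine ext_hm fun x => ?_
  rw [hm_Dc]
  have h1 : ∀ c : ZMod p, hm (cup h (yc p ()).1 f) (cn 0 (cn 1 (fun i => x i + c))) =
      carry p 1 (x 0 + c - 1) * hm f x := by
    intro c
    rw [hm_cup]
    congr 1
    · show carry p (vx (mkX 2 (cn 0 (cn 1 (fun i => x i + c)))) 1 ())
        (vx (mkX 2 (cn 0 (cn 1 (fun i => x i + c)))) 2 () -
          vx (mkX 2 (cn 0 (cn 1 (fun i => x i + c)))) 1 ()) = _
      rw [vx_mkX _ (by norm_num), vx_mkX _ le_rfl]
      have e1 : cn 0 (cn 1 (fun i => x i + c)) 1 = 1 := rfl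
      have e2 : cn 0 (cn 1 (fun i => x i + c)) 2 = x 0 + c := rfl
      rw [e1, e2, cn_zero, sub_zero, sub_zero]
    · exact hm_shift f x c
  simp only [h1]
  rw [← Finset.sum_mul, sum_carry, one_mul]

/-! ### Exactness -/

private theorem sum_zmod (g : ZMod p → ZMod p) :
    ∑ c : ZMod p, g c = ∑ j ∈ Finset.range p, g (-(j : ZMod p)) := by
  have hp := (Fact.out : p.Prime)
  have : NeZero p := ⟨hp.ne_zero⟩
  symm
  refine Finset.sum_nbij' (fun j : ℕ => -(j : ZMod p)) (fun c : ZMod p => (-c).val) ?_ ?_ ?_ ?_ ?_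
  · intro j _
    exact Finset.mem_univ _
  · intro c _
    exact Finset.mem_range.2 (ZMod.val_lt _)
  · intro j hj
    show (- -(j : ZMod p)).val = j
    rw [neg_neg, ZMod.val_natCast_of_lt (Finset.mem_range.1 hj)]
  · intro c _
    show -(((-c).val : ℕ) : ZMod p) = c
    rw [ZMod.natCast_zmod_val, neg_neg]
  · intro j _
    rfl

private theorem inv_all {W : (ℕ → ZMod p) → ZMod p}
    (hW : ∀ x, W (fun i => x i - 1) = W x) (x : ℕ → ZMod p) (t : ZMod p) :
    W (fun i => x i - t) = W x := by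
  have hp := (Fact.out : p.Prime)
  have : NeZero p := ⟨hp.ne_zero⟩
  have h1 : ∀ j : ℕ, W (fun i => x i - (j : ZMod p)) = W x := by
    intro j
    induction j with
    | zero =>
      congr 1
      funext i
      simp
    | succ j ih =>
      rw [← ih, ← hW (fun i => x i - (j : ZMod p))]
      congr 1
      funext i
      push_cast
      ring
  rw [← ZMod.natCast_zmod_val t]
  exact h1 _

private theorem exact_D {n : ℕ} (f : CoZ (BV p Unit) (ZMod p) (n + 2)) (hD : Dc f.1 = 0) :
    IsBd f.1 := by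
  have hp := (Fact.out : p.Prime)
  have : NeZero p := ⟨hp.ne_zero⟩
  obtain ⟨F, hFdef⟩ : ∃ F, F = hm f.1 := ⟨_, rfl⟩
  have hF : ∀ x, dlt (n + 3) F x = 0 := by
    intro x
    rw [hFdef, ← hm_cobd (rfl : n + 2 + 1 = n + 3)]
    exact f.2.2 _
  have hFloc : ∀ {x y : ℕ → ZMod p}, (∀ i, i ≤ n + 2 → x i = y i) → F x = F y := by
    intro x y h
    rw [hFdef]
    exact hm_congr f.1 h
  have hF1 : ∀ x : ℕ → ZMod p, F (cn 1 x) = F (cn 0 (fun i => x i - 1)) := by
    intro x
    rw [hFdef]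
    exact hm_cn_one f.1 x
  obtain ⟨E, hE⟩ : ∃ E : (ℕ → ZMod p) → ZMod p, E = fun x => F (cn 0 x) := ⟨_, rfl⟩
  obtain ⟨E', hE'⟩ : ∃ E' : (ℕ → ZMod p) → ZMod p, E' = fun x => F (cn 0 (cn 1 x)) := ⟨_, rfl⟩
  have hsum : ∀ x : ℕ → ZMod p, ∑ c : ZMod p, E' (fun i => x i + c) = 0 := by
    intro x
    have h1 := hm_Dc f.1 x
    rw [hD] at h1
    rw [hE', hFdef]
    exact h1.symm
  have hdE : ∀ x, dlt (n + 2) E x = F x := by
    intro x
    have h1 := hF (cn 0 x)
    rw [show n + 3 = n + 2 + 1 from rfl, dlt_cn] at h1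
    rw [hE]
    exact (sub_eq_zero.1 h1).symm
  have hdE' : ∀ x : ℕ → ZMod p, E (fun i => x i - 1) - E x = -dlt (n + 1) E' x := by
    intro x
    have h1 := hF (cn 0 (cn 1 x))
    rw [show n + 3 = n + 1 + 2 from rfl, dlt_two, hF1] at h1
    rw [hE, hE']
    linear_combination h1
  obtain ⟨G, hG⟩ : ∃ G : (ℕ → ZMod p) → ZMod p, G = fun x =>
    -∑ j ∈ Finset.range (x 0).val, E' (fun i => x i - (j : ZMod p)) := ⟨_, rfl⟩
  have hGE : ∀ x : ℕ → ZMod p, G (fun i => x i - 1) - G x = E' x := by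
    intro x
    rw [hG]
    simp only
    have e0 : ∀ N : ℕ, ∑ j ∈ Finset.range N, E' (fun i => x i - 1 - (j : ZMod p)) + E' x =
        ∑ j ∈ Finset.range (N + 1), E' (fun i => x i - (j : ZMod p)) := by
      intro N
      rw [Finset.sum_range_succ']
      congr 1
      · refine Finset.sum_congr rfl fun j _ => ?_
        congr 1
        funext i
        push_cast
        ring
      · congr 1
        funext i
        simp
    by_cases ht : (x 0).val = 0
    · have h1 : (x 0 - 1).val = p - 1 := by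
        have h2 : x 0 = 0 := (ZMod.val_eq_zero _).1 ht
        have h3 : x 0 - 1 = ((p - 1 : ℕ) : ZMod p) := by
          rw [h2, Nat.cast_sub hp.one_lt.le, CharP.cast_eq_zero, Nat.cast_one]
        rw [h3, ZMod.val_natCast_of_lt (by have := hp.one_lt; omega)]
      rw [ht, h1, Finset.sum_range_zero]
      have h4 := e0 (p - 1)
      have h5 : p - 1 + 1 = p := by have := hp.one_lt; omega
      rw [h5] at h4
      have h6 := hsum x
      rw [sum_zmod (fun c => E' (fun i => x i + c))] at h6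
      simp only [← sub_eq_add_neg] at h6
      rw [h6] at h4
      linear_combination -h4
    · have h1 : (x 0 - 1).val = (x 0).val - 1 := by
        have h3 : x 0 - 1 = (((x 0).val - 1 : ℕ) : ZMod p) := by
          rw [Nat.cast_sub (by omega), ZMod.natCast_zmod_val, Nat.cast_one]
        have h4 := ZMod.val_lt (x 0)
        rw [h3, ZMod.val_natCast_of_lt (by omega)]
      rw [h1]
      have h4 := e0 ((x 0).val - 1)
      have h5 : (x 0).val - 1 + 1 = (x 0).val := by omega
      rw [h5] at h4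
      linear_combination -h4
  obtain ⟨W, hW⟩ : ∃ W : (ℕ → ZMod p) → ZMod p, W = fun x => E x + dlt (n + 1) G x := ⟨_, rfl⟩
  have hW1 : ∀ x : ℕ → ZMod p, W (fun i => x i - 1) = W x := by
    intro x
    have h1 : dlt (n + 1) G (fun i => x i - 1) - dlt (n + 1) G x = dlt (n + 1) E' x := by
      have e1 : dlt (n + 1) G (fun i => x i - 1) =
          dlt (n + 1) (fun y => G (fun i => y i - 1)) x := rfl
      rw [e1, ← dlt_sub]
      congr 1
      funext y
      exact hGE y
    rw [hW]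
    simp only
    linear_combination hdE' x + h1
  have hWloc : ∀ {x y : ℕ → ZMod p}, (∀ i, i ≤ n + 1 → x i = y i) → W x = W y := by
    intro x y h
    rw [hW]
    simp only
    congr 1
    · rw [hE]
      refine hFloc fun i hi => ?_
      rcases i with _ | i
      · rfl
      · exact h i (by omega)
    · unfold dlt
      refine Finset.sum_congr rfl fun i hi => ?_
      congr 1
      have h1 : ∀ k, k ≤ n → (x ∘ dl i) k = (y ∘ dl i) k := by
        intro k hk
        refine h _ ?_
        unfold dl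
        split_ifs <;> omega
      rw [hG]
      simp only
      rw [h1 0 (Nat.zero_le _)]
      congr 1
      refine Finset.sum_congr rfl fun j _ => ?_
      rw [hE']
      refine hFloc fun k hk => ?_
      rcases k with _ | _ | k
      · rfl
      · rfl
      · rw [cn_succ, cn_succ, cn_succ, cn_succ]
        have h2 := h1 k (by omega)
        simp only [Function.comp_apply] at h2 ⊢
        rw [h2]
  obtain ⟨e, he⟩ : ∃ e : (BV p Unit).obj (op ⦋n + 1⦌) → ZMod p,
    e = fun σ => W (fun i => vx σ i ()) := ⟨_, rfl⟩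
  have hme : ∀ x, hm e x = W x := by
    intro x
    rw [he]
    show W (fun i => vx (mkX (n + 1) x) i ()) = W x
    rw [← inv_all hW1 x (x 0)]
    refine hWloc fun i hi => ?_
    exact vx_mkX x hi ()
  have hfe : cobd (rfl : n + 1 + 1 = n + 2) e = f.1 := by
    refine ext_hm fun x => ?_
    have hdd : dlt (n + 2) (dlt (n + 1) G) x = 0 := dlt_dlt (n + 1) G x
    rw [hm_cobd, show hm e = W from funext hme, hW, dlt_add, hdE, hdd, add_zero, hFdef]
  rw [← hfe]
  refine isBd_of_unnorm rfl e ?_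
  rw [hfe]
  exact f.2.1

private theorem isBd_cup {n : ℕ} (h : 2 + n = n + 2) (z : CoZ (BV p Unit) (ZMod p) n)
    (hz : IsBd z.1) : IsBd (cupZ h (yc p ()) z).1 := by
  rw [← HR.cl_eq_zero] at hz ⊢
  rw [cl_mul, hz, mul_zero]

private theorem pt_zero (g : (BV p Unit).obj (op ⦋0⦌)) : g = mkX 0 (fun _ => 0) := by
  refine vx_ext fun i hi => ?_
  obtain rfl : i = 0 := by omega
  rw [vx_zero, vx_zero]

theorem psi_ne (m : ℕ) : ¬ IsBd (psi p () m).1 := by
  induction m using Nat.twoStepInduction with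
  | zero =>
    rintro (h | ⟨m, h, -⟩)
    · have h1 := congrFun h (mkX 0 (fun _ => 0))
      exact one_ne_zero (α := ZMod p) h1
    · omega
  | one =>
    rintro (h | ⟨m, h, e, -, he⟩)
    · have h1 := congrFun h (mkX 1 (fun i => (i : ZMod p)))
      have h2 : (psi p () 1).1 (mkX 1 (fun i => (i : ZMod p))) =
          vx (mkX 1 (fun i => (i : ZMod p))) 1 () := rfl
      rw [h2, vx_mkX _ le_rfl] at h1
      simp at h1
    · obtain rfl : m = 0 := by omega
      have h1 := congrFun he (mkX 1 (fun i => (i : ZMod p)))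
      have h2 : (psi p () 1).1 (mkX 1 (fun i => (i : ZMod p))) =
          vx (mkX 1 (fun i => (i : ZMod p))) 1 () := rfl
      rw [h2, vx_mkX _ le_rfl] at h1
      unfold cobd at h1
      rw [Finset.sum_range_succ, Finset.sum_range_one, pt_zero (fc _ 0 _ _),
        pt_zero (fc _ 1 _ _)] at h1
      simp at h1
  | more m ih1 ih2 =>
    intro h
    apply ih1
    have hpsi : (psi p () (m + 2)).1 =
        cup (show 2 + m = m + 2 by omega) (yc p ()).1 (psi p () m).1 := rfl
    have hDp : Dc (psi p () (m + 2)).1 = (psi p () m).1 := by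
      rw [hpsi, Dc_cup]
    rcases h with h | ⟨a, ha, e, hen, he⟩
    · left
      rw [← hDp, h]
      refine ext_hm fun x => ?_
      rw [hm_Dc]
      exact Finset.sum_eq_zero fun c _ => rfl
    · obtain rfl : a = m + 1 := by omega
      cases m with
      | zero =>
        left
        rw [← hDp, he]
        exact Dc_cobd_one e
      | succ n =>
        right
        refine ⟨n, rfl, Dc e, Dc_CoC hen, ?_⟩
        rw [← hDp, he]
        exact Dc_cobd e

theorem psi_span (m : ℕ) (f : CoZ (BV p Unit) (ZMod p) m) :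
    ∃ c : ZMod p, IsBd (f.1 - c • (psi p () m).1) := by
  induction m using Nat.twoStepInduction with
  | zero =>
    refine ⟨f.1 (mkX 0 (fun _ => 0)), Or.inl ?_⟩
    funext σ
    have h1 : (psi p () 0).1 σ = 1 := rfl
    rw [Pi.sub_apply, Pi.smul_apply, h1, pt_zero σ, smul_eq_mul, mul_one, sub_self]
    rfl
  | one =>
    have hp := (Fact.out : p.Prime)
    have : NeZero p := ⟨hp.ne_zero⟩
    obtain ⟨φ, hφ⟩ : ∃ φ : ZMod p → ZMod p, φ = fun a => hm f.1 (cn 0 (fun _ => a)) := ⟨_, rfl⟩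
    have hfφ : ∀ x : ℕ → ZMod p, hm f.1 x = φ (x 1 - x 0) := by
      intro x
      rw [hφ]
      show hm f.1 x = hm f.1 (cn 0 (fun _ => x 1 - x 0))
      rw [← hm_shift f.1 (cn 0 (fun _ => x 1 - x 0)) (x 0)]
      refine hm_congr f.1 fun i hi => ?_
      rcases i with _ | _ | i
      · rw [cn_zero, zero_add]
      · rw [cn_succ, sub_add_cancel]
      · omega
    have hadd : ∀ a b, φ (a + b) = φ a + φ b := by
      intro a b
      have h1 : hm (cobd (rfl : 1 + 1 = 2) f.1) (cn 0 (cn a (fun _ => a + b))) = 0 := f.2.2 _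
      rw [hm_cobd] at h1
      unfold dlt at h1
      rw [Finset.sum_range_succ, Finset.sum_range_succ, Finset.sum_range_one, hfφ, hfφ, hfφ] at h1
      have e0 : (cn 0 (cn a (fun _ => a + b)) ∘ dl 0) 0 = a := rfl
      have e1 : (cn 0 (cn a (fun _ => a + b)) ∘ dl 0) 1 = a + b := rfl
      have e2 : (cn 0 (cn a (fun _ => a + b)) ∘ dl 1) 0 = 0 := rfl
      have e3 : (cn 0 (cn a (fun _ => a + b)) ∘ dl 1) 1 = a + b := rfl
      have e4 : (cn 0 (cn a (fun _ => a + b)) ∘ dl 2) 0 = 0 := rfl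
      have e5 : (cn 0 (cn a (fun _ => a + b)) ∘ dl 2) 1 = a := rfl
      rw [e0, e1, e2, e3, e4, e5, add_sub_cancel_left, sub_zero, sub_zero] at h1
      simp only [pow_zero, one_smul, pow_one, neg_smul, even_two, Even.neg_pow, one_pow] at h1
      linear_combination -h1
    have hmul : ∀ a, φ a = φ 1 * a := by
      intro a
      have h0 : φ 0 = 0 := by
        have h1 := hadd 0 0
        rw [add_zero] at h1
        linear_combination -h1
      have h1 : ∀ j : ℕ, φ (j : ZMod p) = φ 1 * j := by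
        intro j
        induction j with
        | zero => rw [Nat.cast_zero, mul_zero, h0]
        | succ j ih =>
          push_cast
          rw [hadd, ih]
          ring
      rw [← ZMod.natCast_zmod_val a]
      exact h1 _
    refine ⟨φ 1, Or.inl ?_⟩
    refine ext_hm fun x => ?_
    have e1 : hm (f.1 - φ 1 • (psi p () 1).1) x = hm f.1 x - φ 1 * vx (mkX 1 x) 1 () := rfl
    rw [e1, hfφ, hmul, vx_mkX _ le_rfl, sub_self]
    rfl
  | more m ih1 ih2 =>
    have hDc : ∀ σ : (BV p Unit).obj (op ⦋m + 1⦌), cobd rfl (Dc f.1) σ = 0 := by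
      intro σ
      rw [← Dc_cobd]
      have h1 : cobd (rfl : m + 2 + 1 = m + 3) f.1 = 0 := funext f.2.2
      rw [h1, eq_hm (Dc _), hm_Dc]
      exact Finset.sum_eq_zero fun c _ => rfl
    obtain ⟨w, hw⟩ : ∃ w : CoZ (BV p Unit) (ZMod p) m, w.1 = Dc f.1 :=
      ⟨⟨Dc f.1, Dc_CoC f.2.1, hDc⟩, rfl⟩
    obtain ⟨c, hc⟩ := ih1 w
    have h2m : 2 + m = m + 2 := by omega
    obtain ⟨f', hf'⟩ : ∃ f' : CoZ (BV p Unit) (ZMod p) (m + 2),
      f' = f - cupZ h2m (yc p ()) w := ⟨_, rfl⟩
    have hf1 : f'.1 = f.1 - cup h2m (yc p ()).1 w.1 := by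
      rw [hf']
      rfl
    have hb1 : IsBd f'.1 := by
      refine exact_D f' ?_
      rw [hf1, Dc_sub, Dc_cup, hw, sub_self]
    obtain ⟨w', hw'⟩ : ∃ w' : CoZ (BV p Unit) (ZMod p) m, w'.1 = w.1 - c • (psi p () m).1 := by
      refine ⟨w - c.val • psi p () m, ?_⟩
      have e1 : (w - c.val • psi p () m).1 = w.1 - c.val • (psi p () m).1 := rfl
      rw [e1]
      congr 1
      funext σ
      show c.val • (psi p () m).1 σ = c * (psi p () m).1 σ
      have hp := (Fact.out : p.Prime)
      have : NeZero p := ⟨hp.ne_zero⟩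
      rw [nsmul_eq_mul, ZMod.natCast_zmod_val]
    rw [← hw'] at hc
    have hb2 := isBd_cup h2m w' hc
    refine ⟨c, ?_⟩
    have e2 : f.1 - c • (psi p () (m + 2)).1 = f'.1 + (cupZ h2m (yc p ()) w').1 := by
      refine ext_hm fun x => ?_
      have e3 : (psi p () (m + 2)).1 = cup h2m (yc p ()).1 (psi p () m).1 := rfl
      have e4 : (cupZ h2m (yc p ()) w').1 = cup h2m (yc p ()).1 w'.1 := rfl
      rw [e3, e4, hf1]
      have e5 : hm (f.1 - c • cup h2m (yc p ()).1 (psi p () m).1) x =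
          hm f.1 x - c * hm (cup h2m (yc p ()).1 (psi p () m).1) x := rfl
      have e6 : hm (f.1 - cup h2m (yc p ()).1 w.1 + cup h2m (yc p ()).1 w'.1) x =
          hm f.1 x - hm (cup h2m (yc p ()).1 w.1) x + hm (cup h2m (yc p ()).1 w'.1) x := rfl
      rw [e5, e6, hm_cup, hm_cup, hm_cup, hw']
      have e7 : hm (w.1 - c • (psi p () m).1) (fun i => x (i + 2)) =
          hm w.1 (fun i => x (i + 2)) - c * hm (psi p () m).1 (fun i => x (i + 2)) := rfl
      rw [e7]
      ring
    rw [e2]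
    exact isBd_add hb1 hb2

end BPN.E
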