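import Pool.Agent.BPN.E.Tot

/-!
# Part (E), module BV: products, classifying spaces, the classes `x` and `y` (project BPN, helper30)

`prodS X Z` : the product of simplicial sets, `pr1`, `pr2`, `pairS` ; `crs` : cross products of cochains.
`BV p I` : the classifying space of the group `I → ZMod p`: `n`-simplices are the sequences
`g_0 = 0, g_1, .., g_n` (vertices), operators `(f^* g)_i = g_(f i) - g_(f 0)`.
`BVm L` : the simplicial map of an additive map `L`.
`xc i`, `yc i` : the fundamental cocycles of degree 1 and 2, `psi i m` : `y^j` resp. `x y^j` (`y` on the left).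

PROOFS.
* `xc`: a degenerate 1-simplex has `g_1 = 0`; cocycle: `g_1 + (g_2 - g_1) - g_2 = 0`.
* `yc`: `carry a b = 1` if `p ≤ a.val + b.val`, else `0`; over the integers
  `a.val + b.val = (a + b).val + p * carry a b`, so the coboundary of the integral lift of `carry` is
  zero (`p` times it is the coboundary of a coboundary).  `carry a 0 = carry 0 b = 0`.
-/

namespace BPN.E

open CategoryTheory SSet Simplicial Opposite

/-- Product of simplicial sets. -/
def prodS (X Z : SSet.{0}) : SSet.{0} where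
  obj := fun n => X.obj n × Z.obj n
  map := fun f => TypeCat.ofHom fun x => (X.map f x.1, Z.map f x.2)
  map_id := by
    intro n
    refine ConcreteCategory.hom_ext _ _ fun x => ?_
    change (X.map (𝟙 n) x.1, Z.map (𝟙 n) x.2) = x
    rw [X.map_id, Z.map_id]
    rfl
  map_comp := by
    intro l m n f g
    refine ConcreteCategory.hom_ext _ _ fun x => ?_
    change (X.map (f ≫ g) x.1, Z.map (f ≫ g) x.2) = (X.map g (X.map f x.1), Z.map g (Z.map f x.2))
    rw [X.map_comp, Z.map_comp]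
    rfl

/-- First projection. -/
def pr1 (X Z : SSet.{0}) : prodS X Z ⟶ X where
  app := fun _ => TypeCat.ofHom fun x => x.1
  naturality := by
    intro m n f
    rfl

/-- Second projection. -/
def pr2 (X Z : SSet.{0}) : prodS X Z ⟶ Z where
  app := fun _ => TypeCat.ofHom fun x => x.2
  naturality := by
    intro m n f
    rfl

/-- The map into the product. -/
def pairS {W X Z : SSet.{0}} (f : W ⟶ X) (g : W ⟶ Z) : W ⟶ prodS X Z where
  app := fun n => TypeCat.ofHom fun x => (f.app n x, g.app n x)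
  naturality := by
    intro m n h
    ext x
    change (f.app n (W.map h x), g.app n (W.map h x)) =
      (X.map h (f.app m x), Z.map h (g.app m x))
    rw [← types_comp_apply (W.map h) (f.app n), ← types_comp_apply (W.map h) (g.app n),
      f.naturality, g.naturality]
    rfl

theorem pairS_pr1 {W X Z : SSet.{0}} (f : W ⟶ X) (g : W ⟶ Z) : pairS f g ≫ pr1 X Z = f := by
  rfl

theorem pairS_pr2 {W X Z : SSet.{0}} (f : W ⟶ X) (g : W ⟶ Z) : pairS f g ≫ pr2 X Z = g := by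
  rfl

theorem pairS_ext {W X Z : SSet.{0}} {f g : W ⟶ prodS X Z} (h1 : f ≫ pr1 X Z = g ≫ pr1 X Z)
    (h2 : f ≫ pr2 X Z = g ≫ pr2 X Z) : f = g := by
  have e1 : ∀ n (x : W.obj n), (show X.obj n × Z.obj n from f.app n x).1 =
      (show X.obj n × Z.obj n from g.app n x).1 := fun n x =>
    congrArg (fun k : W ⟶ X => k.app n x) h1
  have e2 : ∀ n (x : W.obj n), (show X.obj n × Z.obj n from f.app n x).2 =
      (show X.obj n × Z.obj n from g.app n x).2 := fun n x =>
    congrArg (fun k : W ⟶ Z => k.app n x) h2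
  refine NatTrans.ext (funext fun n => ?_)
  ext x
  exact Prod.ext (e1 n x) (e2 n x)

/-- Cross product of cochains. -/
def crs {X Z : SSet.{0}} {R : Type} [CommRing R] {a b c : ℕ} (h : a + b = c)
    (x : X.obj (op ⦋a⦌) → R) (z : Z.obj (op ⦋b⦌) → R) : (prodS X Z).obj (op ⦋c⦌) → R :=
  fun σ => x (fr X (show a ≤ c by omega) (show X.obj (op ⦋c⦌) × Z.obj (op ⦋c⦌) from σ).1) *
    z (bk Z a (show a + b ≤ c by omega) (show X.obj (op ⦋c⦌) × Z.obj (op ⦋c⦌) from σ).2)

/-- Cross product of cocycles. -/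
def crsZ {p : ℕ} {X Z : SSet.{0}} {a b c : ℕ} (h : a + b = c) (x : CoZ X (ZMod p) a)
    (z : CoZ Z (ZMod p) b) : CoZ (prodS X Z) (ZMod p) c :=
  ⟨crs h x.1 z.1, (cupZ h (pbZ (pr1 X Z) a x) (pbZ (pr2 X Z) b z)).2⟩

theorem cl_crs {p : ℕ} {X Z : SSet.{0}} {a b c : ℕ} (h : a + b = c) (x : CoZ X (ZMod p) a)
    (z : CoZ Z (ZMod p) b) : HR.cl c (crsZ h x z) =
      HR.pull (pr1 X Z) (HR.cl a x) * HR.pull (pr2 X Z) (HR.cl b z) := by
  rw [HR.pull_cl, HR.pull_cl, ← cl_mul h]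
  rfl

/-- The classifying space of `I → ZMod p`. -/
def BV (p : ℕ) (I : Type) : SSet.{0} where
  obj := fun n => {g : Fin (n.unop.len + 1) → I → ZMod p // g 0 = 0}
  map := fun f => TypeCat.ofHom fun g =>
    ⟨fun i => g.1 (f.unop.toOrderHom i) - g.1 (f.unop.toOrderHom 0), sub_self _⟩
  map_id := by
    intro n
    refine ConcreteCategory.hom_ext _ _ fun g => ?_
    refine Subtype.ext (funext fun i => ?_)
    change g.1 i - g.1 0 = g.1 i
    rw [g.2, sub_zero]
  map_comp := by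
    intro l m n f h
    refine ConcreteCategory.hom_ext _ _ fun g => ?_
    refine Subtype.ext (funext fun i => ?_)
    change g.1 (f.unop.toOrderHom (h.unop.toOrderHom i)) -
      g.1 (f.unop.toOrderHom (h.unop.toOrderHom 0)) =
      (g.1 (f.unop.toOrderHom (h.unop.toOrderHom i)) - g.1 (f.unop.toOrderHom 0)) -
      (g.1 (f.unop.toOrderHom (h.unop.toOrderHom 0)) - g.1 (f.unop.toOrderHom 0))
    rw [sub_sub_sub_cancel_right]

/-- The simplicial map of an additive map. -/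
def BVm {p : ℕ} {I J : Type} (L : (I → ZMod p) →+ (J → ZMod p)) : BV p I ⟶ BV p J where
  app := fun _ => TypeCat.ofHom fun g => ⟨fun i => L (g.1 i), (congrArg L g.2).trans (map_zero L)⟩
  naturality := by
    intro m n f
    refine ConcreteCategory.hom_ext _ _ fun g => ?_
    refine Subtype.ext (funext fun i => ?_)
    change L (g.1 (f.unop.toOrderHom i) - g.1 (f.unop.toOrderHom 0)) =
      L (g.1 (f.unop.toOrderHom i)) - L (g.1 (f.unop.toOrderHom 0))
    rw [map_sub]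

theorem BVm_id {p : ℕ} {I : Type} : BVm (AddMonoidHom.id (I → ZMod p)) = 𝟙 _ := by
  rfl

theorem BVm_comp {p : ℕ} {I J K : Type} (L : (I → ZMod p) →+ (J → ZMod p))
    (M : (J → ZMod p) →+ (K → ZMod p)) : BVm (M.comp L) = BVm L ≫ BVm M := by
  rfl

/-- The vertices of a simplex (`0` outside). -/
def vx {p : ℕ} {I : Type} {n : ℕ} (g : (BV p I).obj (op ⦋n⦌)) (i : ℕ) : I → ZMod p :=
  if h : i < n + 1 then g.1 ⟨i, h⟩ else 0

theorem vx_zero {p : ℕ} {I : Type} {n : ℕ} (g : (BV p I).obj (op ⦋n⦌)) : vx g 0 = 0 := by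
  unfold vx
  rw [dif_pos (Nat.succ_pos n)]
  exact g.2

private theorem vx_pos {p : ℕ} {I : Type} {n : ℕ} (g : (BV p I).obj (op ⦋n⦌)) {i : ℕ}
    (h : i < n + 1) : vx g i = g.1 ⟨i, h⟩ := dif_pos h

theorem vx_opr {p : ℕ} {I : Type} {f : ℕ → ℕ} (hf : Monotone f) {a b : ℕ}
    (hb : ∀ i, i ≤ a → f i ≤ b) (g : (BV p I).obj (op ⦋b⦌)) {i : ℕ} (hi : i ≤ a) :
    vx (opr (BV p I) f hf hb g) i = vx g (f i) - vx g (f 0) := by
  rw [vx_pos _ (Nat.lt_succ_of_le hi), vx_pos g (Nat.lt_succ_of_le (hb i hi)),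
    vx_pos g (Nat.lt_succ_of_le (hb 0 (Nat.zero_le a)))]
  rfl

theorem vx_ext {p : ℕ} {I : Type} {n : ℕ} {g h : (BV p I).obj (op ⦋n⦌)}
    (H : ∀ i, i ≤ n → vx g i = vx h i) : g = h := by
  refine Subtype.ext (funext fun i => ?_)
  have h1 := H i.1 (Nat.le_of_lt_succ i.2)
  rw [vx_pos g i.2, vx_pos h i.2] at h1
  exact h1

theorem vx_BVm {p : ℕ} {I J : Type} (L : (I → ZMod p) →+ (J → ZMod p)) {n : ℕ}
    (g : (BV p I).obj (op ⦋n⦌)) (i : ℕ) : vx ((BVm L).app (op ⦋n⦌) g) i = L (vx g i) := by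
  by_cases h : i < n + 1
  · rw [vx_pos _ h, vx_pos g h]
    rfl
  · have e1 : vx g i = 0 := dif_neg h
    have e2 : vx ((BVm L).app (op ⦋n⦌) g) i = 0 := dif_neg h
    rw [e1, e2, map_zero]

/-- The simplex with given vertices. -/
def mkv {p : ℕ} {I : Type} (n : ℕ) (v : ℕ → I → ZMod p) (h : v 0 = 0) :
    (BV p I).obj (op ⦋n⦌) := ⟨fun i => v i, h⟩

theorem vx_mkv {p : ℕ} {I : Type} {n : ℕ} {v : ℕ → I → ZMod p} {h : v 0 = 0} {i : ℕ}
    (hi : i ≤ n) : vx (mkv n v h) i = v i := by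
  rw [vx_pos _ (Nat.lt_succ_of_le hi)]
  rfl

/-- The carry. -/
def carry (p : ℕ) (a b : ZMod p) : ZMod p := if p ≤ a.val + b.val then 1 else 0

private theorem carry_zero_left {p : ℕ} [Fact p.Prime] (b : ZMod p) : carry p 0 b = 0 := by
  unfold carry
  rw [ZMod.val_zero, zero_add, if_neg (not_le.2 (ZMod.val_lt b))]

private theorem carry_zero_right {p : ℕ} [Fact p.Prime] (a : ZMod p) : carry p a 0 = 0 := by
  unfold carry
  rw [ZMod.val_zero, add_zero, if_neg (not_le.2 (ZMod.val_lt a))]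

private theorem carry_int {p : ℕ} [Fact p.Prime] (a b : ZMod p) :
    ∃ c : ℤ, carry p a b = (c : ZMod p) ∧ (a.val : ℤ) + b.val = (a + b).val + p * c := by
  unfold carry
  by_cases h : p ≤ a.val + b.val
  · refine ⟨1, ?_, ?_⟩
    · rw [if_pos h, Int.cast_one]
    · have h1 := ZMod.val_add_val_of_le h
      rw [mul_one]
      exact_mod_cast h1
  · refine ⟨0, ?_, ?_⟩
    · rw [if_neg h, Int.cast_zero]
    · have h1 := ZMod.val_add_of_lt (not_le.1 h)
      rw [mul_zero, add_zero]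
      exact_mod_cast h1.symm

private theorem carry_coc {p : ℕ} [Fact p.Prime] (a b c : ZMod p) :
    carry p b c - carry p (a + b) c + carry p a (b + c) - carry p a b = 0 := by
  obtain ⟨n1, h1, e1⟩ := carry_int b c
  obtain ⟨n2, h2, e2⟩ := carry_int (a + b) c
  obtain ⟨n3, h3, e3⟩ := carry_int a (b + c)
  obtain ⟨n4, h4, e4⟩ := carry_int a b
  rw [add_assoc] at e2
  have hp : (p : ℤ) ≠ 0 := by exact_mod_cast (Fact.out : p.Prime).ne_zero
  have h5 : (p : ℤ) * (n1 - n2 + n3 - n4) = 0 := by linear_combination e2 + e4 - e1 - e3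
  have h6 := (mul_eq_zero.1 h5).resolve_left hp
  rw [h1, h2, h3, h4]
  have h7 : ((n1 - n2 + n3 - n4 : ℤ) : ZMod p) = 0 := by rw [h6, Int.cast_zero]
  push_cast at h7
  exact h7

/-- The fundamental class in degree 1. -/
def xc (p : ℕ) {I : Type} (i : I) : CoZ (BV p I) (ZMod p) 1 := ⟨fun g => vx g 1 i, by
  refine ⟨?_, ?_⟩
  · intro j a h hj τ
    obtain rfl : a = 0 := by omega
    obtain rfl : j = 0 := by omega
    change vx (opr (BV p I) (sg 0) (sg_mono 0) (sg_bd 0 h hj) τ) 1 i = 0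
    rw [vx_opr _ _ _ (by omega : 1 ≤ 1)]
    have e1 : sg 0 1 = 0 := rfl
    have e2 : sg 0 0 = 0 := rfl
    rw [e1, e2, sub_self]
    rfl
  · intro σ
    have key : ∀ j, j ≤ 2 → vx (fc (BV p I) j (rfl : 1 + 1 = 1 + 1) σ) 1 i =
        vx σ (dl j 1) i - vx σ (dl j 0) i := by
      intro j _
      have h1 := vx_opr (dl_strictMono j).monotone (dl_bd j (rfl : 1 + 1 = 1 + 1)) σ
        (by omega : 1 ≤ 1)
      exact congrFun h1 i
    change ∑ j ∈ Finset.range 3, (-1 : ℤ) ^ j •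
      vx (fc (BV p I) j (rfl : 1 + 1 = 1 + 1) σ) 1 i = 0
    rw [Finset.sum_range_succ, Finset.sum_range_succ, Finset.sum_range_succ,
      Finset.sum_range_zero, key 0 (by omega), key 1 (by omega), key 2 (by omega)]
    have e1 : dl 0 1 = 2 := rfl
    have e2 : dl 0 0 = 1 := rfl
    have e3 : dl 1 1 = 2 := rfl
    have e4 : dl 1 0 = 0 := rfl
    have e5 : dl 2 1 = 1 := rfl
    have e6 : dl 2 0 = 0 := rfl
    rw [e1, e2, e3, e4, e5, e6]
    simp only [pow_zero, pow_one, even_two, Even.neg_pow, one_pow, one_smul, neg_smul]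
    ring⟩

/-- The fundamental class in degree 2. -/
def yc (p : ℕ) [Fact p.Prime] {I : Type} (i : I) : CoZ (BV p I) (ZMod p) 2 :=
  ⟨fun g => carry p (vx g 1 i) (vx g 2 i - vx g 1 i), by
  refine ⟨?_, ?_⟩
  · intro j a h hj τ
    obtain rfl : a = 1 := by omega
    have k1 := congrFun (vx_opr (sg_mono j) (sg_bd j h hj) τ (by omega : 1 ≤ 2)) i
    have k2 := congrFun (vx_opr (sg_mono j) (sg_bd j h hj) τ (by omega : 2 ≤ 2)) i
    change carry p (vx (opr (BV p I) (sg j) (sg_mono j) (sg_bd j h hj) τ) 1 i)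
      (vx (opr (BV p I) (sg j) (sg_mono j) (sg_bd j h hj) τ) 2 i -
        vx (opr (BV p I) (sg j) (sg_mono j) (sg_bd j h hj) τ) 1 i) = 0
    rw [k1, k2]
    have h2 : j = 0 ∨ j = 1 := by omega
    rcases h2 with rfl | rfl
    · have e1 : sg 0 1 = 0 := rfl
      have e2 : sg 0 0 = 0 := rfl
      rw [e1, e2, sub_self]
      exact carry_zero_left _
    · have e1 : sg 1 1 = 1 := rfl
      have e2 : sg 1 2 = 1 := rfl
      rw [e1, e2, sub_self]
      exact carry_zero_right _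
  · intro σ
    have key : ∀ j, j ≤ 3 → carry p (vx (fc (BV p I) j (rfl : 2 + 1 = 2 + 1) σ) 1 i)
        (vx (fc (BV p I) j (rfl : 2 + 1 = 2 + 1) σ) 2 i -
          vx (fc (BV p I) j (rfl : 2 + 1 = 2 + 1) σ) 1 i) =
        carry p (vx σ (dl j 1) i - vx σ (dl j 0) i) (vx σ (dl j 2) i - vx σ (dl j 1) i) := by
      intro j _
      have h1 := congrFun (vx_opr (dl_strictMono j).monotone (dl_bd j (rfl : 2 + 1 = 2 + 1)) σ
        (by omega : 1 ≤ 2)) i
      have h2 := congrFun (vx_opr (dl_strictMono j).monotone (dl_bd j (rfl : 2 + 1 = 2 + 1)) σ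
        (by omega : 2 ≤ 2)) i
      have h1' : vx (fc (BV p I) j (rfl : 2 + 1 = 2 + 1) σ) 1 i =
        vx σ (dl j 1) i - vx σ (dl j 0) i := h1
      have h2' : vx (fc (BV p I) j (rfl : 2 + 1 = 2 + 1) σ) 2 i =
        vx σ (dl j 2) i - vx σ (dl j 0) i := h2
      rw [h1', h2', sub_sub_sub_cancel_right]
    change ∑ j ∈ Finset.range 4, (-1 : ℤ) ^ j •
      carry p (vx (fc (BV p I) j (rfl : 2 + 1 = 2 + 1) σ) 1 i)
        (vx (fc (BV p I) j (rfl : 2 + 1 = 2 + 1) σ) 2 i -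
          vx (fc (BV p I) j (rfl : 2 + 1 = 2 + 1) σ) 1 i) = 0
    rw [Finset.sum_range_succ, Finset.sum_range_succ, Finset.sum_range_succ,
      Finset.sum_range_succ, Finset.sum_range_zero, key 0 (by omega), key 1 (by omega),
      key 2 (by omega), key 3 (by omega)]
    have v0 : vx σ 0 i = 0 := congrFun (vx_zero σ) i
    have e1 : dl 0 0 = 1 := rfl
    have e2 : dl 0 1 = 2 := rfl
    have e3 : dl 0 2 = 3 := rfl
    have e4 : dl 1 0 = 0 := rfl
    have e5 : dl 1 1 = 2 := rfl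
    have e6 : dl 1 2 = 3 := rfl
    have e7 : dl 2 0 = 0 := rfl
    have e8 : dl 2 1 = 1 := rfl
    have e9 : dl 2 2 = 3 := rfl
    have e10 : dl 3 0 = 0 := rfl
    have e11 : dl 3 1 = 1 := rfl
    have e12 : dl 3 2 = 2 := rfl
    rw [e1, e2, e3, e4, e5, e6, e7, e8, e9, e10, e11, e12, v0]
    have h := carry_coc (vx σ 1 i) (vx σ 2 i - vx σ 1 i) (vx σ 3 i - vx σ 2 i)
    have f1 : vx σ 1 i + (vx σ 2 i - vx σ 1 i) = vx σ 2 i := by ring
    have f2 : vx σ 2 i - vx σ 1 i + (vx σ 3 i - vx σ 2 i) = vx σ 3 i - vx σ 1 i := by ring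
    rw [f1, f2] at h
    have s3 : (-1 : ℤ) ^ 3 = -1 := by norm_num
    rw [s3]
    simp only [pow_zero, pow_one, even_two, Even.neg_pow, one_pow, one_smul, neg_smul, sub_zero]
    rw [zero_add, ← sub_eq_add_neg, ← sub_eq_add_neg]
    exact h⟩

/-- `psi i (2j) = y^j`, `psi i (2j+1) = y^j x`. -/
noncomputable def psi (p : ℕ) [Fact p.Prime] {I : Type} (i : I) (m : ℕ) : CoZ (BV p I) (ZMod p) m :=
  match m with
  | 0 => oneZ p _
  | 1 => xc p i
  | m + 2 => cupZ (show 2 + m = m + 2 by omega) (yc p i) (psi p i m)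

/-- Coordinate maps `v ↦ v ∘ κ`. -/
def Lk (p : ℕ) {I J : Type} (κ : J → I) : (I → ZMod p) →+ (J → ZMod p) where
  toFun := fun v => v ∘ κ
  map_zero' := rfl
  map_add' := fun _ _ => rfl

theorem pb_xc {p : ℕ} {I J : Type} (κ : J → I) (j : J) :
    pbZ (BVm (Lk p κ)) 1 (xc p j) = xc p (κ j) := by
  refine Subtype.ext (funext fun g => ?_)
  exact congrFun (vx_BVm (Lk p κ) g 1) j

theorem pb_yc {p : ℕ} [Fact p.Prime] {I J : Type} (κ : J → I) (j : J) :
    pbZ (BVm (Lk p κ)) 2 (yc p j) = yc p (κ j) := by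
  refine Subtype.ext (funext fun g => ?_)
  have h1 : vx ((BVm (Lk p κ)).app (op ⦋2⦌) g) 1 j = vx g 1 (κ j) :=
    congrFun (vx_BVm (Lk p κ) g 1) j
  have h2 : vx ((BVm (Lk p κ)).app (op ⦋2⦌) g) 2 j = vx g 2 (κ j) :=
    congrFun (vx_BVm (Lk p κ) g 2) j
  change carry p (vx ((BVm (Lk p κ)).app (op ⦋2⦌) g) 1 j)
    (vx ((BVm (Lk p κ)).app (op ⦋2⦌) g) 2 j - vx ((BVm (Lk p κ)).app (op ⦋2⦌) g) 1 j) =
    carry p (vx g 1 (κ j)) (vx g 2 (κ j) - vx g 1 (κ j))
  rw [h1, h2]

private theorem app_opr {X Y : SSet.{0}} (F : X ⟶ Y) {f : ℕ → ℕ} (hf : Monotone f) {a b : ℕ}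
    (hb : ∀ i, i ≤ a → f i ≤ b) (σ : X.obj (op ⦋b⦌)) :
    F.app (op ⦋a⦌) (opr X f hf hb σ) = opr Y f hf hb (F.app (op ⦋b⦌) σ) := by
  unfold opr
  rw [← types_comp_apply (X.map _) (F.app _), F.naturality]
  rfl

private theorem pb_cupZ {p : ℕ} {X Y : SSet.{0}} (F : X ⟶ Y) {a b c : ℕ} (h : a + b = c)
    (x : CoZ Y (ZMod p) a) (y : CoZ Y (ZMod p) b) :
    pbZ F c (cupZ h x y) = cupZ h (pbZ F a x) (pbZ F b y) := by
  refine Subtype.ext (funext fun σ => ?_)
  have e1 := app_opr F monotone_id (a := a) (b := c) (fun i hi => by simp only [id]; omega) σ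
  have e2 := app_opr F (f := fun i => i + a) (fun _ _ hij => Nat.add_le_add_right hij a)
    (a := b) (b := c) (fun i hi => by omega) σ
  exact congrArg₂ (fun u v => x.1 u * y.1 v) e1.symm e2.symm

theorem pb_psi {p : ℕ} [Fact p.Prime] {I J : Type} (κ : J → I) (j : J) (m : ℕ) :
    pbZ (BVm (Lk p κ)) m (psi p j m) = psi p (κ j) m := by
  induction m using Nat.strong_induction_on with
  | _ m ih =>
    match m, ih with
    | 0, _ => rfl
    | 1, _ => exact pb_xc κ j
    | m + 2, ih =>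
      have h1 : psi p j (m + 2) = cupZ (show 2 + m = m + 2 by omega) (yc p j) (psi p j m) := by
        rw [psi]
      have h2 : psi p (κ j) (m + 2) =
          cupZ (show 2 + m = m + 2 by omega) (yc p (κ j)) (psi p (κ j) m) := by
        rw [psi]
      rw [h1, h2, pb_cupZ, pb_yc, ih m (by omega)]

end BPN.E
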