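import Pool.Agent.BPN.E.Defs

/-!
# Part (E), module Bd: push forward and boundary operators (project BPN, architect helper30)

Definitions `push`, `bd`, `LFz`, `bnd` in `Pool/Agent/BPN/E/Defs.lean`.  All statements are elementary.

PROOFS.
* `push_single`, `push_push`, `push_some`, `push_total`: on basis elements (`Finsupp.lhom_ext'` or
  `Finsupp.induction_linear`).
* `push_apply`: linear in `φ` is inconvenient because of the support; write
  `push k g φ = φ.sum fun z c => (g z).elim 0 (fun z' => single z' c)` and evaluate at `z'`.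
* `push_supported`, `push_eq_zero`: from the same sum formula.  The sets `P` (closed under the
  partial maps, contain the support of `φ`) are there because the families need not be locally finite
  everywhere; for `z ∈ P` all points occurring below are in `P`.
* `bd_eq_sum`: by the sum formula it is enough to treat `φ = single z c` with `z` in the support;
  there `bnd f z ≤ N` (`Nat.sInf_le`), `f i z = none` for `i ≥ bnd f z` (`Nat.sInf_mem`, the set
  contains `N`), so the additional terms vanish.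
* `bd_bd`: choose `N` with `f i z = none` for all `i ≥ N`, `z` in the support of `φ` and also for all
  `z` in the supports of `push k (f j) φ`, `j < N` (finitely many points).  Then
  `bd (bd φ) = ∑_{i<N} ∑_{j<N} (-1)^(i+j) push (f i) (push (f j) φ)` and (with `N + 1` in place
  of `N` where convenient) the terms with `i < j` cancel against the terms with `i ≥ j` by
  `f_i f_{j+1} = f_j f_i` (`i ≤ j`), the usual simplicial argument.  Terms with an index `≥ N` vanish:
  if `j ≥ N` then `push (f j) φ = 0`.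
* `bd_homotopy`: as in the classical case: with all sums up to a large `N`
  `bd f (bd h φ) = ∑_{i,k} (-1)^(i+k) f_i h_k φ`.  The term `i = k = 0` is `φ`; the terms `(k+1,k+1)` and
  `(k+1,k)` cancel for every `k` by `h2`; the terms `i ≤ k`, index `(i, k+1)`, give
  `- ∑_{i ≤ k} (-1)^(i+k) h_k f_i φ` by `h1`, the terms `(i+1, k)` with `k < i` give
  `- ∑_{k < i} (-1)^(i+k) h_k f_i φ` by `h3`; the sum of the last two is `- bd h (bd f φ)`.
  (By linearity of both sides one may assume `φ = single z c`, `z ∈ P`.)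
* `bd_stable`: by `bd_eq_sum` with `N + 2`:
  `bd f (push (h N) φ) = ∑_{i<N} (-1)^i push (h (N-1)) (push (f i) φ) + 0 + (-1)^(N+1) φ` and the
  first sum is `push (h (N-1)) (bd f φ) = 0` (`bd_eq_sum` for `φ` with bound `N`).
* `push_bd`: choose a common bound, use `push_push`.  `lin_bd`: the same with a linear map.
-/

namespace BPN.E

variable {k : Type} [Field k] {Z Z' Z'' : Type}

theorem push_single (g : Z → Option Z') (z : Z) (c : k) :
    push k g (Finsupp.single z c) = (g z).elim 0 fun z' => Finsupp.single z' c := by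
  unfold push
  rw [Finsupp.lsum_single]
  cases g z <;> rfl

private theorem push_sum_single (g : Z → Option Z') (φ : Z →₀ k) :
    push k g φ = ∑ z ∈ φ.support, push k g (Finsupp.single z (φ z)) := by
  have h2 : φ = ∑ z ∈ φ.support, Finsupp.single z (φ z) := φ.sum_single.symm
  conv_lhs => rw [h2]
  rw [map_sum]

theorem push_push (g : Z → Option Z') (h : Z' → Option Z'') (φ : Z →₀ k) :
    push k h (push k g φ) = push k (fun z => (g z).bind h) φ := by
  induction φ using Finsupp.induction_linear with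
  | zero => rw [map_zero, map_zero, map_zero]
  | add φ ψ h1 h2 => rw [map_add, map_add, map_add, h1, h2]
  | single z c =>
    rw [push_single, push_single]
    cases g z with
    | none => exact map_zero _
    | some z' => exact push_single h z' c

theorem push_some (φ : Z →₀ k) : push k (fun z : Z => some z) φ = φ := by
  induction φ using Finsupp.induction_linear with
  | zero => exact map_zero _
  | add φ ψ h1 h2 => rw [map_add, h1, h2]
  | single z c => exact push_single _ z c

theorem push_total (u : Z → Z') (φ : Z →₀ k) :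
    push k (fun z => some (u z)) φ = Finsupp.mapDomain u φ := by
  induction φ using Finsupp.induction_linear with
  | zero => rw [map_zero, Finsupp.mapDomain_zero]
  | add φ ψ h1 h2 => rw [map_add, h1, h2, Finsupp.mapDomain_add]
  | single z c =>
    rw [Finsupp.mapDomain_single]
    exact push_single _ z c

open Classical in
theorem push_apply (g : Z → Option Z') (φ : Z →₀ k) (z' : Z') :
    push k g φ z' = ∑ z ∈ φ.support.filter (fun z => g z = some z'), φ z := by
  rw [push_sum_single, Finsupp.finsetSum_apply, Finset.sum_filter]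
  refine Finset.sum_congr rfl fun z _ => ?_
  rw [push_single]
  cases h : g z with
  | none =>
    rw [if_neg (by simp)]
    rfl
  | some w =>
    change Finsupp.single w (φ z) z' = _
    by_cases h1 : w = z'
    · subst h1
      rw [if_pos rfl, Finsupp.single_eq_same]
    · rw [if_neg (fun h2 => h1 (Option.some.inj h2)), Finsupp.single_eq_of_ne (Ne.symm h1)]

theorem push_supported {g : Z → Option Z'} {P : Set Z} {P' : Set Z'}
    (h : ∀ z ∈ P, ∀ z', g z = some z' → z' ∈ P') {φ : Z →₀ k}
    (hφ : φ ∈ Finsupp.supported k k P) : push k g φ ∈ Finsupp.supported k k P' := by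
  rw [push_sum_single]
  refine Submodule.sum_mem _ fun z hz => ?_
  rw [push_single]
  have hzP : z ∈ P := (Finsupp.mem_supported k φ).1 hφ hz
  cases h1 : g z with
  | none => exact Submodule.zero_mem _
  | some z' => exact Finsupp.single_mem_supported k _ (h z hzP z' h1)

theorem push_eq_zero {g : Z → Option Z'} {φ : Z →₀ k} (h : ∀ z ∈ φ.support, g z = none) :
    push k g φ = 0 := by
  rw [push_sum_single]
  refine Finset.sum_eq_zero fun z hz => ?_
  rw [push_single, h z hz]
  rfl

/-- The push forward depends only on the values on the support. -/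
theorem push_congr {g g' : Z → Option Z'} {φ : Z →₀ k} (h : ∀ z ∈ φ.support, g z = g' z) :
    push k g φ = push k g' φ := by
  rw [push_sum_single, push_sum_single g']
  refine Finset.sum_congr rfl fun z hz => ?_
  rw [push_single, push_single, h z hz]

private theorem bd_single (f : ℕ → Z → Option Z') (z : Z) (c : k) :
    bd k f (Finsupp.single z c) = ∑ i ∈ Finset.range (bnd f z),
      (-1 : ℤ) ^ i • push k (f i) (Finsupp.single z c) := by
  unfold bd
  rw [Finsupp.lsum_single, LinearMap.sum_apply]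
  refine Finset.sum_congr rfl fun i _ => ?_
  rw [LinearMap.smul_apply, push_single]
  cases f i z <;> rfl

theorem bd_eq_sum {f : ℕ → Z → Option Z'} {φ : Z →₀ k} {N : ℕ}
    (h : ∀ z ∈ φ.support, ∀ i, N ≤ i → f i z = none) :
    bd k f φ = ∑ i ∈ Finset.range N, (-1 : ℤ) ^ i • push k (f i) φ := by
  have h1 : ∀ z ∈ φ.support, bd k f (Finsupp.single z (φ z)) =
      ∑ i ∈ Finset.range N, (-1 : ℤ) ^ i • push k (f i) (Finsupp.single z (φ z)) := by
    intro z hz
    rw [bd_single]
    have h2 : bnd f z ≤ N := Nat.sInf_le (h z hz)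
    have hne : {N | ∀ i, N ≤ i → f i z = none}.Nonempty := ⟨N, h z hz⟩
    have h3 : ∀ i, bnd f z ≤ i → f i z = none := Nat.sInf_mem hne
    refine Finset.sum_subset (Finset.range_mono h2) fun i _ hi => ?_
    rw [push_single, h3 i (by simpa using hi), Option.elim_none, smul_zero]
  have h2 : φ = ∑ z ∈ φ.support, Finsupp.single z (φ z) := φ.sum_single.symm
  have h4 : bd k f φ = ∑ z ∈ φ.support, bd k f (Finsupp.single z (φ z)) := by
    conv_lhs => rw [h2]
    rw [map_sum]
  rw [h4, Finset.sum_congr rfl h1, Finset.sum_comm]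
  refine Finset.sum_congr rfl fun i _ => ?_
  rw [push_sum_single (f i) φ, Finset.smul_sum]

private theorem bd_common (f : ℕ → Z → Option Z') (s : Finset Z)
    (h : ∀ z ∈ s, ∃ N, ∀ i, N ≤ i → f i z = none) : ∃ N, ∀ z ∈ s, ∀ i, N ≤ i → f i z = none := by
  choose! N hN using h
  exact ⟨s.sup N, fun z hz i hi => hN z hz i ((Finset.le_sup hz).trans hi)⟩

/-- The family is locally finite on the set `P` and maps `P` to `P'`. -/
def LFP (f : ℕ → Z → Option Z') (P : Set Z) (P' : Set Z') : Prop :=
  (∀ z ∈ P, ∃ N, ∀ i, N ≤ i → f i z = none) ∧ ∀ z ∈ P, ∀ i z', f i z = some z' → z' ∈ P'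

theorem bd_supported {f : ℕ → Z → Option Z'} {P : Set Z} {P' : Set Z'} (hf : LFP f P P')
    {φ : Z →₀ k} (hφ : φ ∈ Finsupp.supported k k P) : bd k f φ ∈ Finsupp.supported k k P' := by
  obtain ⟨N, hN⟩ := bd_common f φ.support fun z hz =>
    hf.1 z ((Finsupp.mem_supported k φ).1 hφ hz)
  rw [bd_eq_sum hN]
  exact Submodule.sum_mem _ fun i _ =>
    zsmul_mem (push_supported (fun z hz z' hz' => hf.2 z hz i z' hz') hφ) _

private theorem bd_twice {f h : ℕ → Z → Option Z} {P : Set Z} (hf : LFP f P P) (hh : LFP h P P)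
    {φ : Z →₀ k} (hφ : φ ∈ Finsupp.supported k k P) : ∃ K₀, ∀ J K, K₀ ≤ J → K₀ ≤ K →
      bd k f (bd k h φ) = ∑ j ∈ Finset.range J, ∑ i ∈ Finset.range K,
        (-1 : ℤ) ^ (i + j) • push k (fun z => (h j z).bind (f i)) φ := by
  have hs : ∀ z ∈ φ.support, z ∈ P := fun z hz => (Finsupp.mem_supported k φ).1 hφ hz
  obtain ⟨N, hN⟩ := bd_common h φ.support fun z hz => hh.1 z (hs z hz)
  have hj : ∀ j, ∃ M, ∀ z ∈ (push k (h j) φ).support, ∀ i, M ≤ i → f i z = none := by
    intro j
    refine bd_common f _ fun z hz => hf.1 z ?_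
    exact (Finsupp.mem_supported k _).1
      (push_supported (fun z hz z' hz' => hh.2 z hz j z' hz') hφ) hz
  choose M hM using hj
  have hM' : ∀ j K, (Finset.range N).sup M ≤ K → ∀ z ∈ (push k (h j) φ).support, ∀ i, K ≤ i →
      f i z = none := by
    intro j K hK z hz i hi
    by_cases hjN : j < N
    · exact hM j z hz i ((Finset.le_sup (Finset.mem_range.2 hjN)).trans (hK.trans hi))
    · rw [push_eq_zero (fun z hz => hN z hz j (not_lt.1 hjN))] at hz
      simp at hz
  refine ⟨max N ((Finset.range N).sup M), fun J K hJ hK => ?_⟩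
  rw [bd_eq_sum (N := J) (fun z hz i hi => hN z hz i
    (((le_max_left _ _).trans hJ).trans hi)), map_sum]
  refine Finset.sum_congr rfl fun j _ => ?_
  rw [map_zsmul, bd_eq_sum (N := K) (hM' j K ((le_max_right _ _).trans hK)), Finset.smul_sum]
  refine Finset.sum_congr rfl fun i _ => ?_
  rw [push_push, smul_smul, ← pow_add, add_comm j i]

private theorem cancel_one {A : Type} [AddCommGroup A] (T : ℕ → ℕ → A)
    (h : ∀ i j, i ≤ j → T i (j + 1) = T j i) (K : ℕ) :
    ∑ j ∈ Finset.range (K + 1), ∑ i ∈ Finset.range K, (-1 : ℤ) ^ (i + j) • T i j = 0 := by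
  induction K with
  | zero => simp
  | succ K ih =>
    have e0 : ∀ j, ∑ i ∈ Finset.range (K + 1), (-1 : ℤ) ^ (i + j) • T i j =
        ∑ i ∈ Finset.range K, (-1 : ℤ) ^ (i + j) • T i j + (-1 : ℤ) ^ (K + j) • T K j :=
      fun j => Finset.sum_range_succ _ _
    rw [Finset.sum_range_succ, e0 (K + 1), Finset.sum_congr rfl (fun j _ => e0 j),
      Finset.sum_add_distrib]
    have e1 : ∑ j ∈ Finset.range (K + 1), ∑ i ∈ Finset.range K, (-1 : ℤ) ^ (i + j) • T i j = 0 := ih
    have e2 : ∑ i ∈ Finset.range K, (-1 : ℤ) ^ (i + (K + 1)) • T i (K + 1) +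
        (-1 : ℤ) ^ (K + (K + 1)) • T K (K + 1) =
        -∑ j ∈ Finset.range (K + 1), (-1 : ℤ) ^ (K + j) • T K j := by
      rw [← Finset.sum_range_succ (fun i => (-1 : ℤ) ^ (i + (K + 1)) • T i (K + 1)),
        ← Finset.sum_neg_distrib]
      refine Finset.sum_congr rfl fun i hi => ?_
      have hi' : i ≤ K := Nat.lt_succ_iff.1 (Finset.mem_range.1 hi)
      rw [h i K hi', ← add_assoc, pow_succ, mul_neg_one, neg_smul, add_comm i K]
    rw [e2, e1, zero_add, add_neg_cancel]

private theorem cancel_two {V : Type} [AddCommGroup V] (A B : ℕ → ℕ → V) (v : V)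
    (h0 : A 0 0 = v) (h1 : ∀ i j, i ≤ j → A i (j + 1) = B j i)
    (h2 : ∀ j, A (j + 1) (j + 1) = A (j + 1) j) (h3 : ∀ i j, j < i → A (i + 1) j = B j i)
    (K : ℕ) : ∑ j ∈ Finset.range (K + 1), ∑ i ∈ Finset.range (K + 1), (-1 : ℤ) ^ (i + j) • A i j +
      ∑ j ∈ Finset.range K, ∑ i ∈ Finset.range K, (-1 : ℤ) ^ (i + j) • B i j = v := by
  obtain ⟨F, hF⟩ : ∃ F : ℕ → ℕ → V, ∀ i j, F i j = (-1 : ℤ) ^ (i + j) • A i j :=
    ⟨_, fun _ _ => rfl⟩
  obtain ⟨G, hG⟩ : ∃ G : ℕ → ℕ → V, ∀ i j, G i j = (-1 : ℤ) ^ (i + j) • B i j :=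
    ⟨_, fun _ _ => rfl⟩
  simp_rw [← hF, ← hG]
  have g1 : ∀ i j, i ≤ j → F i (j + 1) = -G j i := by
    intro i j hij
    rw [hF, hG, h1 i j hij, ← add_assoc, pow_succ, mul_neg_one, neg_smul, add_comm i j]
  have g2 : ∀ j, F (j + 1) (j + 1) = -F (j + 1) j := by
    intro j
    rw [hF, hF, h2, ← add_assoc, pow_succ, mul_neg_one, neg_smul]
  have g3 : ∀ i j, j < i → F (i + 1) j = -G j i := by
    intro i j hij
    rw [hF, hG, h3 i j hij, add_right_comm, pow_succ, mul_neg_one, neg_smul, add_comm i j]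
  induction K with
  | zero => simp [hF, h0]
  | succ K ih =>
    have e1 : ∑ j ∈ Finset.range (K + 1 + 1), ∑ i ∈ Finset.range (K + 1 + 1), F i j =
        ∑ j ∈ Finset.range (K + 1), ∑ i ∈ Finset.range (K + 1), F i j +
        ∑ j ∈ Finset.range (K + 1), F (K + 1) j +
        (∑ i ∈ Finset.range (K + 1), F i (K + 1) + F (K + 1) (K + 1)) := by
      rw [Finset.sum_range_succ]
      simp_rw [Finset.sum_range_succ _ (K + 1)]
      rw [Finset.sum_add_distrib]
    have e2 : ∑ j ∈ Finset.range (K + 1), ∑ i ∈ Finset.range (K + 1), G i j =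
        ∑ j ∈ Finset.range K, ∑ i ∈ Finset.range K, G i j +
        ∑ j ∈ Finset.range K, G K j + (∑ i ∈ Finset.range K, G i K + G K K) := by
      rw [Finset.sum_range_succ]
      simp_rw [Finset.sum_range_succ _ K]
      rw [Finset.sum_add_distrib]
    have e3 : ∑ j ∈ Finset.range (K + 1), F (K + 1) j =
        -∑ i ∈ Finset.range K, G i K + F (K + 1) K := by
      rw [Finset.sum_range_succ, ← Finset.sum_neg_distrib]
      congr 1
      exact Finset.sum_congr rfl fun j hj => g3 K j (Finset.mem_range.1 hj)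
    have e4 : ∑ i ∈ Finset.range (K + 1), F i (K + 1) =
        -∑ j ∈ Finset.range K, G K j - G K K := by
      rw [Finset.sum_range_succ, g1 K K le_rfl, ← Finset.sum_neg_distrib, sub_eq_add_neg]
      congr 1
      exact Finset.sum_congr rfl fun j hj => g1 j K (Finset.mem_range.1 hj).le
    rw [e1, e2, e3, e4, g2 K]
    rw [← ih]
    abel

theorem bd_bd {f : ℕ → Z → Option Z} {P : Set Z} (hf : LFP f P P)
    (comm : ∀ i j, i ≤ j → ∀ z ∈ P, (f (j + 1) z).bind (f i) = (f i z).bind (f j))
    {φ : Z →₀ k} (hφ : φ ∈ Finsupp.supported k k P) : bd k f (bd k f φ) = 0 := by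
  have hs : ∀ z ∈ φ.support, z ∈ P := fun z hz => (Finsupp.mem_supported k φ).1 hφ hz
  obtain ⟨K₀, hK⟩ := bd_twice hf hf hφ
  rw [hK (K₀ + 1) K₀ (Nat.le_succ _) le_rfl]
  exact cancel_one (fun i j => push k (fun z => (f j z).bind (f i)) φ)
    (fun i j hij => push_congr fun z hz => comm i j hij z (hs z hz)) K₀

theorem bd_homotopy {f h : ℕ → Z → Option Z} {P : Set Z} (hf : LFP f P P) (hh : LFP h P P)
    (h0 : ∀ z ∈ P, (h 0 z).bind (f 0) = some z)
    (h1 : ∀ i j, i ≤ j → ∀ z ∈ P, (h (j + 1) z).bind (f i) = (f i z).bind (h j))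
    (h2 : ∀ j, ∀ z ∈ P, (h (j + 1) z).bind (f (j + 1)) = (h j z).bind (f (j + 1)))
    (h3 : ∀ i j, j < i → ∀ z ∈ P, (h j z).bind (f (i + 1)) = (f i z).bind (h j))
    {φ : Z →₀ k} (hφ : φ ∈ Finsupp.supported k k P) :
    bd k f (bd k h φ) + bd k h (bd k f φ) = φ := by
  have hs : ∀ z ∈ φ.support, z ∈ P := fun z hz => (Finsupp.mem_supported k φ).1 hφ hz
  obtain ⟨K₀, hK⟩ := bd_twice hf hh hφ
  obtain ⟨K₁, hK'⟩ := bd_twice hh hf hφ
  rw [hK (max K₀ K₁ + 1) (max K₀ K₁ + 1) ((le_max_left _ _).trans (Nat.le_succ _))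
    ((le_max_left _ _).trans (Nat.le_succ _)),
    hK' (max K₀ K₁) (max K₀ K₁) (le_max_right _ _) (le_max_right _ _)]
  refine cancel_two (fun i j => push k (fun z => (h j z).bind (f i)) φ)
    (fun i j => push k (fun z => (f j z).bind (h i)) φ) φ ?_ ?_ ?_ ?_ _
  · rw [push_congr (g' := fun z => some z) fun z hz => h0 z (hs z hz), push_some]
  · exact fun i j hij => push_congr fun z hz => h1 i j hij z (hs z hz)
  · exact fun j => push_congr fun z hz => h2 j z (hs z hz)
  · exact fun i j hij => push_congr fun z hz => h3 i j hij z (hs z hz)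

theorem bd_stable {f h : ℕ → Z → Option Z} {φ : Z →₀ k} {N : ℕ} (hN : 1 ≤ N)
    (hf : ∀ z ∈ φ.support, ∀ i, N ≤ i → f i z = none)
    (h1 : ∀ z ∈ φ.support, ∀ i, i < N → (h N z).bind (f i) = (f i z).bind (h (N - 1)))
    (h2 : ∀ z ∈ φ.support, (h N z).bind (f N) = none)
    (h3 : ∀ z ∈ φ.support, (h N z).bind (f (N + 1)) = some z)
    (h4 : ∀ z ∈ φ.support, ∀ i, N + 2 ≤ i → (h N z).bind (f i) = none)
    (hφ : bd k f φ = 0) : bd k f ((-1 : ℤ) ^ (N + 1) • push k (h N) φ) = φ := by
  classical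
  have hb : ∀ z' ∈ (push k (h N) φ).support, ∀ i, N + 2 ≤ i → f i z' = none := by
    intro z' hz' i hi
    rw [Finsupp.mem_support_iff, push_apply] at hz'
    obtain ⟨z, hz, -⟩ := Finset.exists_ne_zero_of_sum_ne_zero hz'
    rw [Finset.mem_filter] at hz
    have h5 := h4 z hz.1 i hi
    rw [hz.2] at h5
    exact h5
  rw [map_zsmul, bd_eq_sum hb, Finset.sum_range_succ, Finset.sum_range_succ]
  have e1 : ∑ i ∈ Finset.range N, (-1 : ℤ) ^ i • push k (f i) (push k (h N) φ) = 0 := by
    have e2 : ∀ i ∈ Finset.range N, (-1 : ℤ) ^ i • push k (f i) (push k (h N) φ) =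
        push k (h (N - 1)) ((-1 : ℤ) ^ i • push k (f i) φ) := by
      intro i hi
      rw [map_zsmul, push_push, push_push,
        push_congr fun z hz => h1 z hz i (Finset.mem_range.1 hi)]
    rw [Finset.sum_congr rfl e2, ← map_sum, ← bd_eq_sum hf, hφ, map_zero]
  have e3 : push k (f N) (push k (h N) φ) = 0 := by
    rw [push_push]
    exact push_eq_zero fun z hz => h2 z hz
  have e4 : push k (f (N + 1)) (push k (h N) φ) = φ := by
    rw [push_push, push_congr (g' := fun z => some z) fun z hz => h3 z hz, push_some]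
  rw [e1, e3, e4, smul_zero, zero_add, zero_add, smul_smul, ← pow_add]
  have e5 : (-1 : ℤ) ^ (N + 1 + (N + 1)) = 1 := Even.neg_one_pow ⟨N + 1, rfl⟩
  rw [e5, one_smul]

theorem push_bd {f : ℕ → Z → Option Z} {f' : ℕ → Z' → Option Z'} {r : Z → Option Z'} {P : Set Z}
    {P' : Set Z'} (hf : LFP f P P) (hf' : LFP f' P' P')
    (hr : ∀ z ∈ P, ∀ z', r z = some z' → z' ∈ P')
    (h : ∀ i, ∀ z ∈ P, (f i z).bind r = (r z).bind (f' i)) {φ : Z →₀ k}
    (hφ : φ ∈ Finsupp.supported k k P) : push k r (bd k f φ) = bd k f' (push k r φ) := by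
  have hs : ∀ z ∈ φ.support, z ∈ P := fun z hz => (Finsupp.mem_supported k φ).1 hφ hz
  obtain ⟨N, hN⟩ := bd_common f φ.support fun z hz => hf.1 z (hs z hz)
  obtain ⟨N', hN'⟩ := bd_common f' (push k r φ).support fun z hz =>
    hf'.1 z ((Finsupp.mem_supported k _).1 (push_supported hr hφ) hz)
  rw [bd_eq_sum (N := max N N') (fun z hz i hi => hN z hz i ((le_max_left _ _).trans hi)),
    bd_eq_sum (N := max N N') (fun z hz i hi => hN' z hz i ((le_max_right _ _).trans hi)),
    map_sum]
  refine Finset.sum_congr rfl fun i _ => ?_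
  rw [map_zsmul, push_push, push_push, push_congr fun z hz => h i z (hs z hz)]

theorem lin_bd {f : ℕ → Z → Option Z} {f' : ℕ → Z' → Option Z'} {P : Set Z} {P' : Set Z'}
    (hf : LFP f P P) (hf' : LFP f' P' P') (D : (Z →₀ k) →ₗ[k] (Z' →₀ k)) {φ : Z →₀ k}
    (hφ : φ ∈ Finsupp.supported k k P) (hD : D φ ∈ Finsupp.supported k k P')
    (h : ∀ i, D (push k (f i) φ) = push k (f' i) (D φ)) : D (bd k f φ) = bd k f' (D φ) := by
  have hs : ∀ z ∈ φ.support, z ∈ P := fun z hz => (Finsupp.mem_supported k φ).1 hφ hz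
  obtain ⟨N, hN⟩ := bd_common f φ.support fun z hz => hf.1 z (hs z hz)
  obtain ⟨N', hN'⟩ := bd_common f' (D φ).support fun z hz =>
    hf'.1 z ((Finsupp.mem_supported k _).1 hD hz)
  rw [bd_eq_sum (N := max N N') (fun z hz i hi => hN z hz i ((le_max_left _ _).trans hi)),
    bd_eq_sum (N := max N N') (fun z hz i hi => hN' z hz i ((le_max_right _ _).trans hi)),
    map_sum]
  refine Finset.sum_congr rfl fun i _ => ?_
  rw [map_zsmul, h i]

end BPN.E
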