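import Pool.Agent.BPN.E.BV

/-!
# Part (E), module Cell: operations on cross products with cell cocycles (project BPN, helper30)

`CellHyp Z b z` : on every simplex `τ` of `Z` the cocycle `z` of degree `b` either vanishes on all faces of `τ` or
is `f ↦ [t ∘ f = id]` for a monotone map `t : [N] → [b]`.

THEOREM `act_cell`: then `a (u × z) = a(u) × z` STRICTLY, for every cocycle `u` of every simplicial set.

PROOF.  Let `u` have degree `m`, `N = m + b + k`, `(σ, τ)` a simplex of dimension `N`, `w = pull (u × z) (σ, τ)`,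
an element of `(EM 0)_k`: `w f ≠ 0` only if `f` is strictly monotone and `f i = i + k` for `i > m + b`, and then
`w f = u (σ (f 0), .., σ (f m)) z (τ (f m), .., τ (f (m+b)))`.
1. If `z` vanishes on all faces of `τ`: `w = 0`, so `a w = 0`, and the right side is zero.
2. Otherwise let `t` be as in the hypothesis.
 2a. If `t (N - b + j) = j` for `0 ≤ j ≤ b`: `t f(m+j) = j` for all `0 ≤ j ≤ b` means `f (m+j) = N - b + j`
     (`t` is `0` on `[0, N-b]`), so `w = pull u (fr σ)` (front face of dimension `m + k = N - b`), and both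
     sides are `act a u (fr σ)` (the factor `z (bk τ)` is `1`).
 2b. Otherwise the right side is `0`.  If `w ≠ 0` then `t` takes all values `0, .., b` on `[0, N]`; since 2a fails
     there is `v < N` with `t v = t (v+1) ≥ 1` (if `t` were injective on `{t ≥ 1}` this set would be the
     final segment of length `b`).  Then `w = s_v (d_(v+1) w)`, i.e. `w f = w (dl (v+1) ∘ sg v ∘ f)`: the
     function `f' = dl (v+1) ∘ sg v ∘ f` is `f` with the value `v+1` replaced by `v`.  If `f` does not take
     the value `v + 1`, `f' = f`.  If `f i = v + 1` and `f (i-1) = v`: `f'` is not injective, `w f' = 0`, and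
     `w f = 0`: otherwise `t (f m) = 0` gives `i - 1 > m`, and `t (f (i-1)) = t (f i)` contradicts
     `t (f (m+j)) = j` (note `v + 1 ≤ N`, so `i ≤ m + b`).  If `f i = v + 1` and `v` is not a value: if `i ≤ m`
     both are `0` because `t (f m) ≥ t (v+1) ≥ 1`; if `i > m` the values `t ∘ f`, `t ∘ f'` agree and `f`, `f'`
     agree on `[0, m]`.  So `a w = s_v (a (d_(v+1) w))` with `a (..) ∈ (EM k)_{k-1} = 0`
     (`EMG.eq_zero_of_lt`), and `act a (u × z) (σ, τ) = 0`.
-/

namespace BPN.E

open CategoryTheory SSet Simplicial Opposite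

/-- Cell cocycles. -/
def CellHyp {p : ℕ} (Z : SSet.{0}) (b : ℕ) (z : CoZ Z (ZMod p) b) : Prop :=
  ∀ (N : ℕ) (τ : Z.obj (op ⦋N⦌)),
    (∀ (f : ℕ → ℕ) (hf : Monotone f) (hb : ∀ i, i ≤ b → f i ≤ N), z.1 (opr Z f hf hb τ) = 0) ∨
    ∃ t : ℕ → ℕ, Monotone t ∧ (∀ i, i ≤ N → t i ≤ b) ∧
      ∀ (f : ℕ → ℕ) (hf : Monotone f) (hb : ∀ i, i ≤ b → f i ≤ N),
        ((∀ i, i ≤ b → t (f i) = i) → z.1 (opr Z f hf hb τ) = 1) ∧
        ((¬ ∀ i, i ≤ b → t (f i) = i) → z.1 (opr Z f hf hb τ) = 0)

section aux

variable {p k m b c' : ℕ} {X Z : SSet.{0}}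

private theorem opr_prod {a n : ℕ} (f : ℕ → ℕ) (hf : Monotone f) (hb : ∀ i, i ≤ a → f i ≤ n)
    (s : (prodS X Z).obj (op ⦋n⦌)) :
    (show X.obj (op ⦋a⦌) × Z.obj (op ⦋a⦌) from opr (prodS X Z) f hf hb s) =
      (opr X f hf hb (show X.obj (op ⦋n⦌) × Z.obj (op ⦋n⦌) from s).1,
        opr Z f hf hb (show X.obj (op ⦋n⦌) × Z.obj (op ⦋n⦌) from s).2) := rfl

private theorem bdX {m b k : ℕ} {f : ℕ → ℕ} (hs : StrictMono f)
    (hk : ∀ i : ℕ, m + b < i → (f i : ℤ) = i + ((k : ℤ) - 0)) : ∀ i, i ≤ m + b → f i ≤ m + b + k := by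
  intro i hi
  have h1 : f i < f (m + b + 1) := hs (by omega)
  have h2 := hk (m + b + 1) (by omega)
  push_cast at h2
  omega

private theorem pull_crs_pos {c c' : ℕ} (hc : m + b = c) (u : X.obj (op ⦋m⦌) → ZMod p)
    (z : Z.obj (op ⦋b⦌) → ZMod p) (s : (prodS X Z).obj (op ⦋c'⦌)) (hq : (k : ℤ) - 0 = c' - c)
    {f : ℕ → ℕ} (hs : StrictMono f) (hk : ∀ i : ℕ, c < i → (f i : ℤ) = i + ((k : ℤ) - 0))
    (hX : ∀ i, i ≤ m → f i ≤ c') (hZ : ∀ i, i ≤ b → f (i + m) ≤ c') :
    pullFun (crs hc u z) s hq f =
      u (opr X f hs.monotone hX (show X.obj (op ⦋c'⦌) × Z.obj (op ⦋c'⦌) from s).1) *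
      z (opr Z (fun i => f (i + m)) (fun _ _ hij => hs.monotone (Nat.add_le_add_right hij m)) hZ
        (show X.obj (op ⦋c'⦌) × Z.obj (op ⦋c'⦌) from s).2) := by
  unfold pullFun
  rw [dif_pos ⟨hs, hk⟩]
  unfold crs fr bk
  congr 2
  · exact opr_opr X hs.monotone monotone_id _ _ _
  · exact opr_opr Z hs.monotone _ _ _ _

private theorem pull_crs_neg {c c' : ℕ} (hc : m + b = c) (u : X.obj (op ⦋m⦌) → ZMod p)
    (z : Z.obj (op ⦋b⦌) → ZMod p) (s : (prodS X Z).obj (op ⦋c'⦌)) (hq : (k : ℤ) - 0 = c' - c)
    {f : ℕ → ℕ} (hs : ¬ (StrictMono f ∧ ∀ i : ℕ, c < i → (f i : ℤ) = i + ((k : ℤ) - 0))) :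
    pullFun (crs hc u z) s hq f = 0 := by
  unfold pullFun
  rw [dif_neg hs]

end aux

/-- the combinatorial part of case 2b: the repeated value -/
private theorem exists_rep {t : ℕ → ℕ} (ht : Monotone t) {N b m' : ℕ} (hN : m' + b = N)
    (htb : ∀ i, i ≤ N → t i ≤ b) (hsur : ∀ j, j ≤ b → ∃ x, x ≤ N ∧ t x = j)
    (hQ : ¬ ∀ j, j ≤ b → t (j + m') = j) : ∃ v, v < N ∧ t v = t (v + 1) ∧ 1 ≤ t (v + 1) := by
  by_contra hcon
  push Not at hcon
  apply hQ
  have key : ∀ i, i ≤ b → t (N - i) = b - i := by
    intro i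
    induction i with
    | zero =>
      intro _
      obtain ⟨x, hx, hxt⟩ := hsur b le_rfl
      have h1 := ht hx
      have h2 := htb N le_rfl
      simp only [Nat.sub_zero]
      omega
    | succ i ih =>
      intro hi
      have h1 := ih (by omega)
      obtain ⟨x, hx, hxt⟩ := hsur (b - (i + 1)) (by omega)
      have h2 : x ≤ N - (i + 1) := by
        by_contra hn
        have h3 : N - i ≤ x := by omega
        have h4 := ht h3
        omega
      have h3 := ht h2
      have h4 := ht (show N - (i + 1) ≤ N - i by omega)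
      have h5 : N - (i + 1) + 1 = N - i := by omega
      by_contra hne
      have h6 : t (N - (i + 1)) = t (N - (i + 1) + 1) := by rw [h5]; omega
      have h7 := hcon (N - (i + 1)) (by omega) h6
      rw [h5] at h7
      omega
  intro j hj
  have h1 := key (b - j) (by omega)
  have h2 : N - (b - j) = j + m' := by omega
  rw [h2] at h1
  omega

private theorem dlsg (v x : ℕ) : dl (v + 1) (sg v x) = if x = v + 1 then v else x := by
  unfold dl sg
  split_ifs <;> omega

theorem act_cell {p k : ℕ} (a : Op p k) {X Z : SSet.{0}} {m b c m' c' : ℕ} (hc : m + b = c)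
    (hm' : m + k = m') (hc' : c + k = c') (u : CoZ X (ZMod p) m) (z : CoZ Z (ZMod p) b)
    (hz : CellHyp Z b z) :
    Op.act a hc' (crsZ hc u z) = crsZ (show m' + b = c' by omega) (Op.act a hm' u) z := by
  apply Subtype.ext
  funext s
  obtain ⟨σ, hσ⟩ : ∃ σ : X.obj (op ⦋c'⦌), σ = (show X.obj (op ⦋c'⦌) × Z.obj (op ⦋c'⦌) from s).1 :=
    ⟨_, rfl⟩
  obtain ⟨τ, hτ⟩ : ∃ τ : Z.obj (op ⦋c'⦌), τ = (show X.obj (op ⦋c'⦌) × Z.obj (op ⦋c'⦌) from s).2 :=
    ⟨_, rfl⟩
  have hq : (k : ℤ) - 0 = c' - c := by omega
  have hq2 : (k : ℤ) - 0 = m' - m := by omega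
  change (a.f k (pull (crsZ hc u z) s (n := 0) (q := k) hq)).1 id =
    (a.f k (pull u (fr X (show m' ≤ c' by omega)
      (show X.obj (op ⦋c'⦌) × Z.obj (op ⦋c'⦌) from s).1) (n := 0) (q := k) hq2)).1 id *
    z.1 (bk Z m' (show m' + b ≤ c' by omega)
      (show X.obj (op ⦋c'⦌) × Z.obj (op ⦋c'⦌) from s).2)
  rw [← hσ, ← hτ]
  obtain ⟨w, hw⟩ : ∃ w, w = pull (crsZ hc u z) s (n := 0) (q := k) hq := ⟨_, rfl⟩
  rw [← hw]
  have hwf : ∀ f, w.1 f = pullFun (crs hc u.1 z.1) s hq f := by
    intro f
    rw [hw]
    rfl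
  have hzero : w = 0 → (a.f k w).1 id = 0 := by
    intro h
    rw [h]
    have := a.map_pt k
    have h2 : a.f k (0 : (EM (ZMod p) 0).G k) = 0 := this
    rw [h2]
    rfl
  have hX : ∀ {f : ℕ → ℕ}, StrictMono f → (∀ i : ℕ, c < i → (f i : ℤ) = i + ((k : ℤ) - 0)) →
      ∀ i, i ≤ c → f i ≤ c' := by
    intro f hs hk i hi
    have h1 : f i < f (c + 1) := hs (by omega)
    have h2 := hk (c + 1) (by omega)
    push_cast at h2
    omega
  rcases hz c' τ with h1 | ⟨t, ht, htb, hzt⟩
  · -- case 1
    have hw0 : w = 0 := by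
      apply Subtype.ext
      funext f
      rw [hwf]
      by_cases hC : StrictMono f ∧ ∀ i : ℕ, c < i → (f i : ℤ) = i + ((k : ℤ) - 0)
      · rw [pull_crs_pos hc u.1 z.1 s hq hC.1 hC.2 (fun i hi => hX hC.1 hC.2 i (by omega))
          (fun i hi => hX hC.1 hC.2 _ (by omega)), ← hτ, h1, mul_zero]
        rfl
      · rw [pull_crs_neg hc u.1 z.1 s hq hC]
        rfl
    rw [hzero hw0]
    unfold bk
    rw [h1, mul_zero]
  · -- the value of `w`
    have hmon : ∀ {f : ℕ → ℕ}, StrictMono f → Monotone (fun i => f (i + m)) :=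
      fun hs _ _ hij => hs.monotone (Nat.add_le_add_right hij m)
    have hwC : ∀ (f : ℕ → ℕ) (hC : StrictMono f ∧ ∀ i : ℕ, c < i → (f i : ℤ) = i + ((k : ℤ) - 0)),
        (∀ j, j ≤ b → t (f (j + m)) = j) →
        w.1 f = u.1 (opr X f hC.1.monotone (fun i hi => hX hC.1 hC.2 i (by omega)) σ) := by
      intro f hC hD
      rw [hwf, pull_crs_pos hc u.1 z.1 s hq hC.1 hC.2 (fun i hi => hX hC.1 hC.2 i (by omega))
          (fun i hi => hX hC.1 hC.2 _ (by omega)), ← hτ, ← hσ,
          (hzt _ (hmon hC.1) (fun i hi => hX hC.1 hC.2 _ (by omega))).1 hD, mul_one]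
    have hwn : ∀ (f : ℕ → ℕ), ¬ ((StrictMono f ∧ ∀ i : ℕ, c < i → (f i : ℤ) = i + ((k : ℤ) - 0)) ∧
        (∀ j, j ≤ b → t (f (j + m)) = j)) → w.1 f = 0 := by
      intro f hf
      rw [hwf]
      by_cases hC : StrictMono f ∧ ∀ i : ℕ, c < i → (f i : ℤ) = i + ((k : ℤ) - 0)
      · have hD : ¬ ∀ j, j ≤ b → t (f (j + m)) = j := fun hD => hf ⟨hC, hD⟩
        rw [pull_crs_pos hc u.1 z.1 s hq hC.1 hC.2 (fun i hi => hX hC.1 hC.2 i (by omega))
          (fun i hi => hX hC.1 hC.2 _ (by omega)), ← hτ, ← hσ,
          (hzt _ (hmon hC.1) (fun i hi => hX hC.1 hC.2 _ (by omega))).2 hD, mul_zero]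
      · exact pull_crs_neg hc u.1 z.1 s hq hC
    by_cases hQ : ∀ j, j ≤ b → t (j + m') = j
    · -- case 2a
      have hzb : z.1 (bk Z m' (show m' + b ≤ c' by omega) τ) = 1 := (hzt _ _ _).1 hQ
      rw [hzb, mul_one]
      refine congrArg (fun v => (a.f k v).1 id) (Subtype.ext (funext fun f => ?_))
      change w.1 f = pullFun u.1 _ hq2 f
      unfold pullFun
      by_cases hR : StrictMono f ∧ ∀ i : ℕ, m < i → (f i : ℤ) = i + ((k : ℤ) - 0)
      · rw [dif_pos hR]
        have hC : StrictMono f ∧ ∀ i : ℕ, c < i → (f i : ℤ) = i + ((k : ℤ) - 0) :=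
          ⟨hR.1, fun i hi => hR.2 i (by omega)⟩
        have hD : ∀ j, j ≤ b → t (f (j + m)) = j := by
          intro j hj
          rcases Nat.eq_zero_or_pos j with rfl | hj0
          · have h1 : f m < f (m + 1) := hR.1 (by omega)
            have h2 := hR.2 (m + 1) (by omega)
            push_cast at h2
            have h3 : f (0 + m) ≤ 0 + m' := by rw [zero_add]; omega
            have h4 := ht h3
            rw [hQ 0 (by omega)] at h4
            omega
          · have h2 := hR.2 (j + m) (by omega)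
            push_cast at h2
            have h3 : f (j + m) = j + m' := by omega
            rw [h3, hQ j hj]
        rw [hwC f hC hD]
        unfold fr
        rw [opr_opr]
        rfl
      · rw [dif_neg hR]
        apply hwn
        rintro ⟨hC, hD⟩
        apply hR
        refine ⟨hC.1, fun i hi => ?_⟩
        by_cases hic : c < i
        · exact hC.2 i hic
        · have h1 := hD (i - m) (by omega)
          rw [Nat.sub_add_cancel hi.le] at h1
          have h2 := hX hC.1 hC.2 i (by omega)
          have h3 : m' < f i := by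
            by_contra hn
            have h4 := ht (show f i ≤ 0 + m' by omega)
            rw [hQ 0 (by omega)] at h4
            omega
          have h5 := hQ (f i - m') (by omega)
          rw [Nat.sub_add_cancel h3.le] at h5
          omega
    · -- case 2b
      have hzb : z.1 (bk Z m' (show m' + b ≤ c' by omega) τ) = 0 := (hzt _ _ _).2 hQ
      rw [hzb, mul_zero]
      by_cases hw0 : w = 0
      · exact hzero hw0
      obtain ⟨f₀, hf₀⟩ : ∃ f₀, w.1 f₀ ≠ 0 := by
        by_contra hn
        push Not at hn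
        exact hw0 (Subtype.ext (funext hn))
      obtain ⟨hC₀, hD₀⟩ : (StrictMono f₀ ∧ ∀ i : ℕ, c < i → (f₀ i : ℤ) = i + ((k : ℤ) - 0)) ∧
        (∀ j, j ≤ b → t (f₀ (j + m)) = j) := by
        by_contra hn
        exact hf₀ (hwn f₀ hn)
      obtain ⟨v, hvN, hv, hv1⟩ := exists_rep ht (show m' + b = c' by omega) htb
        (fun j hj => ⟨f₀ (j + m), hX hC₀.1 hC₀.2 _ (by omega), hD₀ j hj⟩) hQ
      have htt : ∀ x, t (dl (v + 1) (sg v x)) = t x := by
        intro x
        rw [dlsg]
        split_ifs with h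
        · rw [h, hv]
        · rfl
      have hws : w = (EM (ZMod p) 0).s v (show (k : ℤ) - 1 + 1 = k by ring)
          ((EM (ZMod p) 0).d (v + 1) (show (k : ℤ) - 1 + 1 = k by ring) w) := by
        apply Subtype.ext
        funext f
        change w.1 f = w.1 (dl (v + 1) ∘ (sg v ∘ f))
        have hf' : ∀ x, (dl (v + 1) ∘ (sg v ∘ f)) x = if f x = v + 1 then v else f x :=
          fun x => dlsg v (f x)
        by_cases hall : (StrictMono f ∧ ∀ i : ℕ, c < i → (f i : ℤ) = i + ((k : ℤ) - 0)) ∧
            (∀ j, j ≤ b → t (f (j + m)) = j)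
        · obtain ⟨hC, hD⟩ := hall
          by_cases hi : ∃ i, f i = v + 1
          · obtain ⟨i, hi⟩ := hi
            have him : m < i := by
              by_contra hn
              have h2 := ht (hC.1.monotone (show i ≤ 0 + m by omega))
              rw [hi, hD 0 (by omega)] at h2
              omega
            have hic : i ≤ c := by
              by_contra hn
              have h2 := hC.2 i (by omega)
              omega
            have hprev : f (i - 1) < v := by
              have h2 : f (i - 1) < f i := hC.1 (by omega)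
              have h3 : f (i - 1) ≠ v := by
                intro h4
                have h5 := hD (i - 1 - m) (by omega)
                rw [Nat.sub_add_cancel (by omega), h4] at h5
                have h6 := hD (i - m) (by omega)
                rw [Nat.sub_add_cancel (by omega), hi] at h6
                omega
              omega
            have hne : ∀ x, x ≠ i → f x ≠ v + 1 := by
              intro x hx h2
              exact hx (hC.1.injective (by rw [h2, hi]))
            have hC' : StrictMono (dl (v + 1) ∘ (sg v ∘ f)) ∧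
                ∀ x : ℕ, c < x → ((dl (v + 1) ∘ (sg v ∘ f)) x : ℤ) = x + ((k : ℤ) - 0) := by
              constructor
              · refine strictMono_nat_of_lt_succ fun x => ?_
                rw [hf', hf']
                have h2 : f x < f (x + 1) := hC.1 (Nat.lt_succ_self x)
                by_cases hx1 : x = i
                · subst hx1
                  rw [if_pos hi, if_neg (hne _ (by omega))]
                  omega
                · rw [if_neg (hne x hx1)]
                  by_cases hx2 : x + 1 = i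
                  · rw [if_pos (by rw [hx2]; exact hi)]
                    have h3 : x = i - 1 := by omega
                    rw [h3]
                    exact hprev
                  · rw [if_neg (hne _ hx2)]
                    exact h2
              · intro x hx
                rw [hf', if_neg (hne x (by omega))]
                exact hC.2 x hx
            have hD' : ∀ j, j ≤ b → t ((dl (v + 1) ∘ (sg v ∘ f)) (j + m)) = j := by
              intro j hj
              have h2 : t ((dl (v + 1) ∘ (sg v ∘ f)) (j + m)) = t (f (j + m)) := htt _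
              rw [h2]
              exact hD j hj
            rw [hwC f hC hD, hwC _ hC' hD']
            refine congrArg u.1 (opr_congr X _ _ _ _ (fun x hx => ?_) σ)
            rw [hf', if_neg (hne x (by omega))]
          · push Not at hi
            refine congrArg w.1 (funext fun x => ?_)
            rw [hf', if_neg (hi x)]
        · rw [hwn f hall]
          symm
          apply hwn
          rintro ⟨hC', hD'⟩
          apply hall
          refine ⟨⟨fun x y hxy => ?_, fun x hx => ?_⟩, fun j hj => ?_⟩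
          · by_contra hn
            have h2 := hC'.1 hxy
            have h3 : (dl (v + 1) ∘ (sg v ∘ f)) y ≤ (dl (v + 1) ∘ (sg v ∘ f)) x :=
              (dl_strictMono _).monotone (sg_mono v (not_lt.1 hn))
            omega
          · have h2 := hC'.2 x hx
            rw [hf'] at h2
            split_ifs at h2 with h3
            · omega
            · exact h2
          · have h2 : t ((dl (v + 1) ∘ (sg v ∘ f)) (j + m)) = t (f (j + m)) := htt _
            rw [← h2]
            exact hD' j hj
      rw [hws]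
      have h5 := a.map_s v (show (k : ℤ) - 1 + 1 = k by ring)
        ((EM (ZMod p) 0).d (v + 1) (show (k : ℤ) - 1 + 1 = k by ring) w)
      have h6 : a.f k ((EM (ZMod p) 0).s v (show (k : ℤ) - 1 + 1 = k by ring)
          ((EM (ZMod p) 0).d (v + 1) (show (k : ℤ) - 1 + 1 = k by ring) w)) =
          (EM (ZMod p) k).s v (show (k : ℤ) - 1 + 1 = k by ring) (a.f ((k : ℤ) - 1)
            ((EM (ZMod p) 0).d (v + 1) (show (k : ℤ) - 1 + 1 = k by ring) w)) := h5
      rw [h6, EMG.eq_zero_of_lt (by omega) (a.f _ _), map_zero]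
      rfl

end BPN.E
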