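import Pool.Agent.BPN.E.BV

/-!
# Part (E), module Comm: relations in low degrees (project BPN, architect helper30)

Graded commutativity for classes of degree 1 and 2 of an arbitrary simplicial set, and the relations
between the classes `x_i`, `y_i` of `BV p I`.

PROOFS (write `a(01)` for the value of a cochain on the face with vertices `0, 1`).
* `comm11`: `δ (a(01) b(01)) = -(a(01) b(12) + a(12) b(01))` for 1-cocycles (`a(02) = a(01) + a(12)`).
* `comm12`: `a` of degree 1, `b` of degree 2, `η(012) = a(02) b(012)`: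
  `δ η (0123) = a(13)b(123) - a(03)b(023) + a(03)b(013) - a(02)b(012) = a(13)b(123) + a(03)(b(012) - b(123)) - a(02)b(012)
  = -a(01)b(123) + a(23)b(012)`.
* `comm22`: `η(0123) = a(023)b(012) - a(013)b(123)`, `δ η = b ∪ a - a ∪ b`: in the sum
  `η(1234) - η(0234) + η(0134) - η(0124) + η(0123)` use the cocycle conditions
  `a(134) - a(034) + a(014) - a(013) = 0`, `a(124) - a(024) + a(014) - a(012) = 0`,
  `a(234) - a(034) + a(024) - a(023) = 0`, and then those of `b` on `(0123)` and `(1234)`.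
  In all cases `η` is normalised (every term has a degenerate factor on a degenerate simplex).
* `xx_two`: for `p = 2` one has `x ∪ x = y` strictly (`carry a b = a b` in `ZMod 2`).
* `xx_odd`: `comm11` with `a = b = x` gives `2 x² = 0`.
* `pb_add_x`, `pb_add_y`: for the map `L` adding the coordinate `j` to the coordinate `i` (`v_i ↦ v_i + v_j`):
  `x_i` pulls back to `x_i + x_j` strictly; `y_i` pulls back to `y_i + y_j - δ(c)`, `c(g) = carry (g_1 i) (g_1 j)`,
  because over the integers `[a + b] = [a] + [b] - p carry(a, b)` and `p y = δ [x]`.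
* `p = 0` in the ring: constants.
-/

namespace BPN.E

open CategoryTheory SSet Simplicial Opposite

variable {p : ℕ} {X : SSet.{0}}

/-! ### values of cochains on faces given by their vertices -/

section faces

variable {n : ℕ}

private def w2 (a b i : ℕ) : ℕ := if i = 0 then a else b

private def w3 (a b c i : ℕ) : ℕ := if i = 0 then a else if i = 1 then b else c

open Classical in
/-- The value of a cochain on the face with vertices `f 0, f 1, ..`. -/
private noncomputable def ev {m : ℕ} (c : X.obj (op ⦋m⦌) → ZMod p) (σ : X.obj (op ⦋n⦌))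
    (f : ℕ → ℕ) : ZMod p :=
  if h : Monotone f ∧ ∀ i, i ≤ m → f i ≤ n then c (opr X f h.1 h.2 σ) else 0

private theorem ev_eq {m : ℕ} (c : X.obj (op ⦋m⦌) → ZMod p) (σ : X.obj (op ⦋n⦌)) {f : ℕ → ℕ}
    (hf : Monotone f) (hb : ∀ i, i ≤ m → f i ≤ n) : ev c σ f = c (opr X f hf hb σ) := by
  unfold ev
  rw [dif_pos ⟨hf, hb⟩]

private theorem ev_congr {m : ℕ} (c : X.obj (op ⦋m⦌) → ZMod p) (σ : X.obj (op ⦋n⦌))
    {f g : ℕ → ℕ} (hf : Monotone f) (hg : Monotone g) (h : ∀ i, i ≤ m → f i = g i) :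
    ev c σ f = ev c σ g := by
  by_cases hb : ∀ i, i ≤ m → f i ≤ n
  · have hb' : ∀ i, i ≤ m → g i ≤ n := fun i hi => by rw [← h i hi]; exact hb i hi
    rw [ev_eq c σ hf hb, ev_eq c σ hg hb', opr_congr X hf hg hb hb' h]
  · unfold ev
    rw [dif_neg fun h1 => hb h1.2, dif_neg]
    intro h1
    exact hb fun i hi => by rw [h i hi]; exact h1.2 i hi

private theorem w2_mono {a b : ℕ} (h : a ≤ b) : Monotone (w2 a b) := by
  intro i j hij
  unfold w2
  split_ifs <;> omega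

private theorem w3_mono {a b c : ℕ} (h : a ≤ b) (h' : b ≤ c) : Monotone (w3 a b c) := by
  intro i j hij
  unfold w3
  split_ifs <;> omega

/-- Value on an edge. -/
private noncomputable def E1 (c : X.obj (op ⦋1⦌) → ZMod p) (σ : X.obj (op ⦋n⦌)) (a b : ℕ) :
    ZMod p := ev c σ (w2 a b)

/-- Value on a triangle. -/
private noncomputable def E2 (c : X.obj (op ⦋2⦌) → ZMod p) (σ : X.obj (op ⦋n⦌)) (a b d : ℕ) :
    ZMod p := ev c σ (w3 a b d)

private theorem E1_opr (c : X.obj (op ⦋1⦌) → ZMod p) (σ : X.obj (op ⦋n⦌)) {f : ℕ → ℕ}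
    (hf : Monotone f) (hb : ∀ i, i ≤ 1 → f i ≤ n) :
    c (opr X f hf hb σ) = E1 c σ (f 0) (f 1) := by
  rw [← ev_eq c σ hf hb]
  refine ev_congr c σ hf (w2_mono (hf (Nat.zero_le 1))) fun i hi => ?_
  have h : i = 0 ∨ i = 1 := by omega
  rcases h with rfl | rfl <;> rfl

private theorem E2_opr (c : X.obj (op ⦋2⦌) → ZMod p) (σ : X.obj (op ⦋n⦌)) {f : ℕ → ℕ}
    (hf : Monotone f) (hb : ∀ i, i ≤ 2 → f i ≤ n) :
    c (opr X f hf hb σ) = E2 c σ (f 0) (f 1) (f 2) := by
  rw [← ev_eq c σ hf hb]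
  refine ev_congr c σ hf (w3_mono (hf (Nat.zero_le 1)) (hf (Nat.le_succ 1))) fun i hi => ?_
  have h : i = 0 ∨ i = 1 ∨ i = 2 := by omega
  rcases h with rfl | rfl | rfl <;> rfl

private theorem E1_of_opr {m : ℕ} (c : X.obj (op ⦋1⦌) → ZMod p) (σ : X.obj (op ⦋n⦌)) {g : ℕ → ℕ}
    (hg : Monotone g) (hb : ∀ i, i ≤ m → g i ≤ n) {a b : ℕ} (hab : a ≤ b) (hbm : b ≤ m) :
    E1 c (opr X g hg hb σ) a b = E1 c σ (g a) (g b) := by
  have hb1 : ∀ i, i ≤ 1 → w2 a b i ≤ m := by
    intro i _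
    unfold w2
    split_ifs <;> omega
  have h1 : E1 c (opr X g hg hb σ) a b = c (opr X (w2 a b) (w2_mono hab) hb1
      (opr X g hg hb σ)) := ev_eq _ _ _ _
  rw [h1, opr_opr]
  exact E1_opr c σ _ _

private theorem E2_of_opr {m : ℕ} (c : X.obj (op ⦋2⦌) → ZMod p) (σ : X.obj (op ⦋n⦌)) {g : ℕ → ℕ}
    (hg : Monotone g) (hb : ∀ i, i ≤ m → g i ≤ n) {a b d : ℕ} (hab : a ≤ b) (hbd : b ≤ d)
    (hdm : d ≤ m) : E2 c (opr X g hg hb σ) a b d = E2 c σ (g a) (g b) (g d) := by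
  have hb1 : ∀ i, i ≤ 2 → w3 a b d i ≤ m := by
    intro i _
    unfold w3
    split_ifs <;> omega
  have h1 : E2 c (opr X g hg hb σ) a b d = c (opr X (w3 a b d) (w3_mono hab hbd) hb1
      (opr X g hg hb σ)) := ev_eq _ _ _ _
  rw [h1, opr_opr]
  exact E2_opr c σ _ _

private theorem E1_self (c : X.obj (op ⦋1⦌) → ZMod p) (σ : X.obj (op ⦋1⦌)) :
    c σ = E1 c σ 0 1 := by
  have h := E1_opr c σ (f := id) monotone_id (fun i hi => hi)
  rw [opr_id] at h
  exact h

private theorem E2_self (c : X.obj (op ⦋2⦌) → ZMod p) (σ : X.obj (op ⦋2⦌)) :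
    c σ = E2 c σ 0 1 2 := by
  have h := E2_opr c σ (f := id) monotone_id (fun i hi => hi)
  rw [opr_id] at h
  exact h

private theorem E1_same {c : X.obj (op ⦋1⦌) → ZMod p} (hc : c ∈ CoC X (ZMod p) 1)
    (σ : X.obj (op ⦋n⦌)) (a : ℕ) : E1 c σ a a = 0 := by
  unfold E1 ev
  split_ifs with h
  · exact CoC.opr_eq_zero hc h.1 h.2 σ (a := 0) (by omega) rfl
  · rfl

private theorem E2_same1 {c : X.obj (op ⦋2⦌) → ZMod p} (hc : c ∈ CoC X (ZMod p) 2)
    (σ : X.obj (op ⦋n⦌)) (a b : ℕ) : E2 c σ a a b = 0 := by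
  unfold E2 ev
  split_ifs with h
  · exact CoC.opr_eq_zero hc h.1 h.2 σ (a := 0) (by omega) rfl
  · rfl

private theorem E2_same2 {c : X.obj (op ⦋2⦌) → ZMod p} (hc : c ∈ CoC X (ZMod p) 2)
    (σ : X.obj (op ⦋n⦌)) (a b : ℕ) : E2 c σ a b b = 0 := by
  unfold E2 ev
  split_ifs with h
  · exact CoC.opr_eq_zero hc h.1 h.2 σ (a := 1) (by omega) rfl
  · rfl

private theorem w3_bd {n i j k : ℕ} (hij : i ≤ j) (hjk : j ≤ k) (hk : k ≤ n) :
    ∀ l, l ≤ 2 → w3 i j k l ≤ n := by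
  intro l _
  unfold w3
  split_ifs <;> omega

private theorem coc1 (a : CoZ X (ZMod p) 1) (σ : X.obj (op ⦋n⦌)) {i j k : ℕ} (hij : i ≤ j)
    (hjk : j ≤ k) (hk : k ≤ n) : E1 a.1 σ j k - E1 a.1 σ i k + E1 a.1 σ i j = 0 := by
  have h := a.2.2 (opr X (w3 i j k) (w3_mono hij hjk) (w3_bd hij hjk hk) σ)
  unfold cobd at h
  simp only [Finset.sum_range_succ, Finset.sum_range_zero] at h
  have hf : ∀ l : ℕ, a.1 (fc X l rfl (opr X (w3 i j k) (w3_mono hij hjk)
      (w3_bd hij hjk hk) σ)) = E1 a.1 σ (w3 i j k (dl l 0)) (w3 i j k (dl l 1)) := by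
    intro l
    unfold fc
    rw [opr_opr]
    exact E1_opr a.1 σ _ _
  rw [hf, hf, hf] at h
  have e : E1 a.1 σ j k - E1 a.1 σ i k + E1 a.1 σ i j =
      0 + (-1 : ℤ) ^ 0 • E1 a.1 σ (w3 i j k (dl 0 0)) (w3 i j k (dl 0 1)) +
        (-1 : ℤ) ^ 1 • E1 a.1 σ (w3 i j k (dl 1 0)) (w3 i j k (dl 1 1)) +
        (-1 : ℤ) ^ 2 • E1 a.1 σ (w3 i j k (dl 2 0)) (w3 i j k (dl 2 1)) := by
    simp [w3, dl]
    ring
  rw [e]
  exact h

private def w4 (a b c d i : ℕ) : ℕ := if i = 0 then a else if i = 1 then b else if i = 2 then c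
  else d

private theorem w4_mono {a b c d : ℕ} (h : a ≤ b) (h' : b ≤ c) (h'' : c ≤ d) :
    Monotone (w4 a b c d) := by
  intro i j hij
  unfold w4
  split_ifs <;> omega

private theorem w4_bd {n i j k l : ℕ} (hij : i ≤ j) (hjk : j ≤ k) (hkl : k ≤ l) (hl : l ≤ n) :
    ∀ t, t ≤ 3 → w4 i j k l t ≤ n := by
  intro t _
  unfold w4
  split_ifs <;> omega

private theorem coc2 (b : CoZ X (ZMod p) 2) (σ : X.obj (op ⦋n⦌)) {i j k l : ℕ} (hij : i ≤ j)
    (hjk : j ≤ k) (hkl : k ≤ l) (hl : l ≤ n) :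
    E2 b.1 σ j k l - E2 b.1 σ i k l + E2 b.1 σ i j l - E2 b.1 σ i j k = 0 := by
  have h := b.2.2 (opr X (w4 i j k l) (w4_mono hij hjk hkl) (w4_bd hij hjk hkl hl) σ)
  unfold cobd at h
  simp only [Finset.sum_range_succ, Finset.sum_range_zero] at h
  have hf : ∀ t : ℕ, b.1 (fc X t rfl (opr X (w4 i j k l) (w4_mono hij hjk hkl)
      (w4_bd hij hjk hkl hl) σ)) =
      E2 b.1 σ (w4 i j k l (dl t 0)) (w4 i j k l (dl t 1)) (w4 i j k l (dl t 2)) := by
    intro t
    unfold fc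
    rw [opr_opr]
    exact E2_opr b.1 σ _ _
  rw [hf, hf, hf, hf] at h
  have e : E2 b.1 σ j k l - E2 b.1 σ i k l + E2 b.1 σ i j l - E2 b.1 σ i j k =
      0 + (-1 : ℤ) ^ 0 • E2 b.1 σ (w4 i j k l (dl 0 0)) (w4 i j k l (dl 0 1))
          (w4 i j k l (dl 0 2)) +
        (-1 : ℤ) ^ 1 • E2 b.1 σ (w4 i j k l (dl 1 0)) (w4 i j k l (dl 1 1))
          (w4 i j k l (dl 1 2)) +
        (-1 : ℤ) ^ 2 • E2 b.1 σ (w4 i j k l (dl 2 0)) (w4 i j k l (dl 2 1))
          (w4 i j k l (dl 2 2)) +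
        (-1 : ℤ) ^ 3 • E2 b.1 σ (w4 i j k l (dl 3 0)) (w4 i j k l (dl 3 1))
          (w4 i j k l (dl 3 2)) := by
    simp [w4, dl]
    ring
  rw [e]
  exact h

end faces

/-! ### graded commutativity -/

theorem comm11 (a b : CoZ X (ZMod p) 1) : HR.cl 1 a * HR.cl 1 b = -(HR.cl 1 b * HR.cl 1 a) := by
  have h11 : 1 + 1 = 2 := rfl
  rw [← cl_mul h11, ← cl_mul h11, ← map_neg, HR.cl_eq]
  refine Or.inr ⟨1, rfl, -fun σ => E1 a.1 σ 0 1 * E1 b.1 σ 0 1, ?_, ?_⟩
  · refine (CoC X (ZMod p) 1).neg_mem ?_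
    intro i m h hi τ
    have hm : m = 0 := by omega
    subst hm
    have hi0 : i = 0 := by omega
    subst hi0
    have h1 := a.2.1 0 0 h hi τ
    change E1 a.1 (dg X 0 h hi τ) 0 1 * _ = 0
    rw [← E1_self, h1, zero_mul]
  · funext σ
    have hfc : ∀ t : ℕ, (-fun σ => E1 a.1 σ 0 1 * E1 b.1 σ 0 1) (fc X t (rfl : 1 + 1 = 2) σ) =
        -(E1 a.1 σ (dl t 0) (dl t 1) * E1 b.1 σ (dl t 0) (dl t 1)) := by
      intro t
      change -(E1 a.1 (fc X t (rfl : 1 + 1 = 2) σ) 0 1 *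
        E1 b.1 (fc X t (rfl : 1 + 1 = 2) σ) 0 1) = _
      unfold fc
      rw [E1_of_opr _ _ _ _ (by omega) (by omega), E1_of_opr _ _ _ _ (by omega) (by omega)]
    have hcup : ∀ x y : CoZ X (ZMod p) 1, (cupZ h11 x y).1 σ = E1 x.1 σ 0 1 * E1 y.1 σ 1 2 := by
      intro x y
      exact congrArg₂ (· * ·) (E1_opr x.1 σ _ _) (E1_opr y.1 σ _ _)
    change (cupZ h11 a b).1 σ - -(cupZ h11 b a).1 σ = _
    unfold cobd
    simp only [Finset.sum_range_succ, Finset.sum_range_zero, hfc]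
    rw [hcup, hcup]
    have c1 := coc1 a σ (i := 0) (j := 1) (k := 2) (by omega) (by omega) (by omega)
    have c2 := coc1 b σ (i := 0) (j := 1) (k := 2) (by omega) (by omega) (by omega)
    simp [dl]
    linear_combination E1 b.1 σ 0 2 * c1 + (E1 a.1 σ 0 1 + E1 a.1 σ 1 2) * c2

theorem comm12 (a : CoZ X (ZMod p) 1) (b : CoZ X (ZMod p) 2) :
    HR.cl 1 a * HR.cl 2 b = HR.cl 2 b * HR.cl 1 a := by
  have h12 : 1 + 2 = 3 := rfl
  have h21 : 2 + 1 = 3 := rfl
  rw [← cl_mul h12, ← cl_mul h21, HR.cl_eq]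
  refine Or.inr ⟨2, rfl, -fun σ => E1 a.1 σ 0 2 * E2 b.1 σ 0 1 2, ?_, ?_⟩
  · refine (CoC X (ZMod p) 2).neg_mem ?_
    intro i m h hi τ
    have h1 := b.2.1 i m h hi τ
    change _ * E2 b.1 (dg X i h hi τ) 0 1 2 = 0
    rw [← E2_self, h1, mul_zero]
  · funext σ
    have hfc : ∀ t : ℕ, (-fun σ => E1 a.1 σ 0 2 * E2 b.1 σ 0 1 2) (fc X t (rfl : 2 + 1 = 3) σ) =
        -(E1 a.1 σ (dl t 0) (dl t 2) * E2 b.1 σ (dl t 0) (dl t 1) (dl t 2)) := by
      intro t
      change -(E1 a.1 (fc X t (rfl : 2 + 1 = 3) σ) 0 2 *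
        E2 b.1 (fc X t (rfl : 2 + 1 = 3) σ) 0 1 2) = _
      unfold fc
      rw [E1_of_opr _ _ _ _ (by omega) (by omega),
        E2_of_opr _ _ _ _ (by omega) (by omega) (by omega)]
    have hcup1 : (cupZ h12 a b).1 σ = E1 a.1 σ 0 1 * E2 b.1 σ 1 2 3 := by
      exact congrArg₂ (· * ·) (E1_opr a.1 σ _ _) (E2_opr b.1 σ _ _)
    have hcup2 : (cupZ h21 b a).1 σ = E2 b.1 σ 0 1 2 * E1 a.1 σ 2 3 := by
      exact congrArg₂ (· * ·) (E2_opr b.1 σ _ _) (E1_opr a.1 σ _ _)
    change (cupZ h12 a b).1 σ - (cupZ h21 b a).1 σ = _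
    unfold cobd
    simp only [Finset.sum_range_succ, Finset.sum_range_zero, hfc]
    rw [hcup1, hcup2]
    have c1 := coc2 b σ (i := 0) (j := 1) (k := 2) (l := 3) (by omega) (by omega) (by omega)
      (by omega)
    have c2 := coc1 a σ (i := 0) (j := 1) (k := 3) (by omega) (by omega) (by omega)
    have c3 := coc1 a σ (i := 0) (j := 2) (k := 3) (by omega) (by omega) (by omega)
    simp [dl]
    linear_combination E1 a.1 σ 0 3 * c1 + E2 b.1 σ 1 2 3 * c2 - E2 b.1 σ 0 1 2 * c3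

theorem comm22 (a b : CoZ X (ZMod p) 2) : HR.cl 2 a * HR.cl 2 b = HR.cl 2 b * HR.cl 2 a := by
  have h22 : 2 + 2 = 4 := rfl
  rw [← cl_mul h22, ← cl_mul h22, HR.cl_eq]
  refine Or.inr ⟨3, rfl, -fun σ => E2 a.1 σ 0 2 3 * E2 b.1 σ 0 1 2 -
    E2 a.1 σ 0 1 3 * E2 b.1 σ 1 2 3, ?_, ?_⟩
  · refine (CoC X (ZMod p) 3).neg_mem ?_
    intro i m h hi τ
    have hm : m = 2 := by omega
    subst hm
    change E2 a.1 (dg X i h hi τ) 0 2 3 * E2 b.1 (dg X i h hi τ) 0 1 2 -
      E2 a.1 (dg X i h hi τ) 0 1 3 * E2 b.1 (dg X i h hi τ) 1 2 3 = 0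
    unfold dg
    rw [E2_of_opr _ _ _ _ (by omega) (by omega) (by omega),
      E2_of_opr _ _ _ _ (by omega) (by omega) (by omega),
      E2_of_opr _ _ _ _ (by omega) (by omega) (by omega),
      E2_of_opr _ _ _ _ (by omega) (by omega) (by omega)]
    have hi' : i = 0 ∨ i = 1 ∨ i = 2 := by omega
    rcases hi' with rfl | rfl | rfl
    · simp [sg, E2_same1 a.2.1, E2_same1 b.2.1]
    · simp [sg, E2_same1 b.2.1, E2_same2 b.2.1]
    · simp [sg, E2_same2 a.2.1, E2_same2 b.2.1]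
  · funext σ
    have hfc : ∀ t : ℕ, (-fun σ => E2 a.1 σ 0 2 3 * E2 b.1 σ 0 1 2 -
        E2 a.1 σ 0 1 3 * E2 b.1 σ 1 2 3) (fc X t (rfl : 3 + 1 = 4) σ) =
        -(E2 a.1 σ (dl t 0) (dl t 2) (dl t 3) * E2 b.1 σ (dl t 0) (dl t 1) (dl t 2) -
          E2 a.1 σ (dl t 0) (dl t 1) (dl t 3) * E2 b.1 σ (dl t 1) (dl t 2) (dl t 3)) := by
      intro t
      change -(E2 a.1 (fc X t (rfl : 3 + 1 = 4) σ) 0 2 3 *
        E2 b.1 (fc X t (rfl : 3 + 1 = 4) σ) 0 1 2 -
        E2 a.1 (fc X t (rfl : 3 + 1 = 4) σ) 0 1 3 *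
        E2 b.1 (fc X t (rfl : 3 + 1 = 4) σ) 1 2 3) = _
      unfold fc
      rw [E2_of_opr _ _ _ _ (by omega) (by omega) (by omega),
        E2_of_opr _ _ _ _ (by omega) (by omega) (by omega),
        E2_of_opr _ _ _ _ (by omega) (by omega) (by omega),
        E2_of_opr _ _ _ _ (by omega) (by omega) (by omega)]
    have hcup : ∀ x y : CoZ X (ZMod p) 2, (cupZ h22 x y).1 σ =
        E2 x.1 σ 0 1 2 * E2 y.1 σ 2 3 4 := by
      intro x y
      exact congrArg₂ (· * ·) (E2_opr x.1 σ _ _) (E2_opr y.1 σ _ _)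
    change (cupZ h22 a b).1 σ - (cupZ h22 b a).1 σ = _
    unfold cobd
    simp only [Finset.sum_range_succ, Finset.sum_range_zero, hfc]
    rw [hcup, hcup]
    have a1 := coc2 a σ (i := 0) (j := 1) (k := 2) (l := 4) (by omega) (by omega) (by omega)
      (by omega)
    have a2 := coc2 a σ (i := 0) (j := 1) (k := 3) (l := 4) (by omega) (by omega) (by omega)
      (by omega)
    have a3 := coc2 a σ (i := 0) (j := 2) (k := 3) (l := 4) (by omega) (by omega) (by omega)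
      (by omega)
    have b1 := coc2 b σ (i := 1) (j := 2) (k := 3) (l := 4) (by omega) (by omega) (by omega)
      (by omega)
    have b2 := coc2 b σ (i := 0) (j := 1) (k := 2) (l := 3) (by omega) (by omega) (by omega)
      (by omega)
    simp [dl]
    linear_combination (-E2 b.1 σ 2 3 4) * a1 + E2 b.1 σ 1 2 3 * a2 - E2 b.1 σ 0 1 2 * a3 +
      E2 a.1 σ 0 1 4 * b1 + E2 a.1 σ 0 3 4 * b2

theorem HR_p : ((p : ℕ) : HR p X) = 0 := by
  have h : (p : ℕ) • oneZ p X = 0 := by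
    refine Subtype.ext (funext fun σ => ?_)
    change ((p : ℕ) • (oneZ p X).1) σ = 0
    rw [Pi.smul_apply, nsmul_eq_mul, CharP.cast_eq_zero, zero_mul]
  rw [← nsmul_one, ← cl_one, ← map_nsmul, h, map_zero]

variable [Fact p.Prime] {I : Type}

/-- The class `x_i`. -/
noncomputable def xh (p : ℕ) [Fact p.Prime] {I : Type} (i : I) : HR p (BV p I) := HR.cl 1 (xc p i)

/-- The class `y_i`. -/
noncomputable def yh (p : ℕ) [Fact p.Prime] {I : Type} (i : I) : HR p (BV p I) := HR.cl 2 (yc p i)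

private theorem carry_two (a b : ZMod 2) : a * b = carry 2 a b := by
  unfold carry
  revert a b
  decide

theorem xx_two (i : I) (hp : p = 2) : xh p i * xh p i = yh p i := by
  subst hp
  unfold xh yh
  rw [← cl_mul (show 1 + 1 = 2 from rfl)]
  congr 1
  refine Subtype.ext (funext fun g => ?_)
  have e1 : ∀ (f : ℕ → ℕ) (hf : Monotone f) (hb : ∀ i, i ≤ 1 → f i ≤ 2),
      (xc 2 i).1 (opr (BV 2 I) f hf hb g) = vx g (f 1) i - vx g (f 0) i := by
    intro f hf hb
    change vx (opr (BV 2 I) f hf hb g) 1 i = _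
    rw [vx_opr _ _ _ le_rfl]
    rfl
  have e2 : (yc 2 i).1 g = carry 2 (vx g 1 i) (vx g 2 i - vx g 1 i) := rfl
  rw [e2, ← carry_two]
  refine (congrArg₂ (· * ·) (e1 _ _ _) (e1 _ _ _)).trans ?_
  simp only [id_eq, vx_zero, Pi.zero_apply, sub_zero, zero_add]

theorem xx_odd (i : I) (hp : p ≠ 2) : xh p i * xh p i = 0 := by
  have h1 : xh p i * xh p i = -(xh p i * xh p i) := comm11 (xc p i) (xc p i)
  obtain ⟨k, hk⟩ := (Fact.out : p.Prime).odd_of_ne_two hp
  have h2 : (p : HR p (BV p I)) * (xh p i * xh p i) = 0 := by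
    rw [HR_p, zero_mul]
  have h3 : (2 : HR p (BV p I)) * (xh p i * xh p i) = 0 := by
    rw [two_mul]
    nth_rewrite 1 [h1]
    exact neg_add_cancel _
  have h4 : (p : HR p (BV p I)) = (k : HR p (BV p I)) * 2 + 1 := by
    have h5 := congrArg (fun m : ℕ => (m : HR p (BV p I))) hk
    simp only [Nat.cast_add, Nat.cast_mul, Nat.cast_one, Nat.cast_ofNat] at h5
    rw [h5, Nat.cast_comm k (2 : HR p (BV p I))]
  rw [h4, add_mul, one_mul, mul_assoc, h3, mul_zero, zero_add] at h2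
  exact h2

theorem cl_psi_even (i : I) (j : ℕ) : HR.cl (2 * j) (psi p i (2 * j)) = yh p i ^ j := by
  induction j with
  | zero =>
    rw [pow_zero]
    exact cl_one
  | succ j ih =>
    have h : HR.cl (2 * j + 2) (psi p i (2 * j + 2)) = yh p i * HR.cl (2 * j) (psi p i (2 * j)) :=
      cl_mul (show 2 + 2 * j = 2 * j + 2 by omega) (yc p i) (psi p i (2 * j))
    rw [pow_succ', ← ih]
    exact h

theorem cl_psi_odd (i : I) (j : ℕ) : HR.cl (2 * j + 1) (psi p i (2 * j + 1)) =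
    yh p i ^ j * xh p i := by
  induction j with
  | zero =>
    rw [pow_zero, one_mul]
    rfl
  | succ j ih =>
    have h : HR.cl (2 * j + 1 + 2) (psi p i (2 * j + 1 + 2)) =
        yh p i * HR.cl (2 * j + 1) (psi p i (2 * j + 1)) :=
      cl_mul (show 2 + (2 * j + 1) = 2 * j + 1 + 2 by omega) (yc p i) (psi p i (2 * j + 1))
    rw [pow_succ', mul_assoc, ← ih]
    exact h

open Classical in
/-- `v_i ↦ v_i + v_j`, the other coordinates fixed. -/
noncomputable def La2 (p : ℕ) {I : Type} (i j : I) : (I → ZMod p) →+ (I → ZMod p) where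
  toFun := fun v => Function.update v i (v i + v j)
  map_zero' := by
    rw [Pi.zero_apply, Pi.zero_apply, add_zero]
    exact Function.update_eq_self i 0
  map_add' := by
    intro v w
    funext l
    by_cases hl : l = i
    · subst hl
      simp only [Pi.add_apply, Function.update_self]
      ring
    · simp only [Pi.add_apply, Function.update_of_ne hl]

open Classical in
private theorem La2_self (i j : I) (v : I → ZMod p) : La2 p i j v i = v i + v j := by
  change Function.update v i (v i + v j) i = _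
  exact Function.update_self _ _ _

open Classical in
private theorem La2_ne (i j : I) {l : I} (h : l ≠ i) (v : I → ZMod p) : La2 p i j v l = v l := by
  change Function.update v i (v i + v j) l = _
  exact Function.update_of_ne h _ _

theorem pull_add_x (i j : I) (h : i ≠ j) : HR.pull (BVm (La2 p i j)) (xh p i) = xh p i + xh p j := by
  have _ := h
  unfold xh
  rw [HR.pull_cl, ← map_add]
  congr 1
  refine Subtype.ext (funext fun g => ?_)
  change vx ((BVm (La2 p i j)).app (op ⦋1⦌) g) 1 i = vx g 1 i + vx g 1 j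
  rw [vx_BVm, La2_self]

/-- The carry as an integer. -/
private def icarry (p : ℕ) (a b : ZMod p) : ℤ := if p ≤ a.val + b.val then 1 else 0

private theorem icarry_spec (a b : ZMod p) :
    (a.val : ℤ) + b.val = (a + b).val + p * icarry p a b := by
  have : NeZero p := ⟨(Fact.out : p.Prime).ne_zero⟩
  unfold icarry
  split_ifs with h
  · rw [ZMod.val_add_of_le h]
    omega
  · rw [ZMod.val_add_of_lt (not_le.1 h)]
    push_cast
    ring

private theorem carry_cast (a b : ZMod p) : carry p a b = (icarry p a b : ZMod p) := by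
  unfold carry icarry
  split_ifs
  · exact Int.cast_one.symm
  · exact Int.cast_zero.symm

private theorem carry_rel (a b a' b' : ZMod p) :
    carry p (a + a') (b + b') - (carry p a b + carry p a' b') =
      -(carry p b b' - carry p (a + b) (a' + b') + carry p a a') := by
  have hp : (p : ℤ) ≠ 0 := by exact_mod_cast (Fact.out : p.Prime).ne_zero
  have h : icarry p (a + a') (b + b') - (icarry p a b + icarry p a' b') =
      -(icarry p b b' - icarry p (a + b) (a' + b') + icarry p a a') := by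
    apply mul_left_cancel₀ hp
    have h1 := icarry_spec (a + a') (b + b')
    have h2 := icarry_spec a b
    have h3 := icarry_spec a' b'
    have h4 := icarry_spec b b'
    have h5 := icarry_spec (a + b) (a' + b')
    have h6 := icarry_spec a a'
    have e : a + b + (a' + b') = a + a' + (b + b') := by ring
    rw [e] at h5
    linarith
  simp only [carry_cast]
  exact_mod_cast congrArg (Int.cast : ℤ → ZMod p) h

theorem pull_add_y (i j : I) (h : i ≠ j) : HR.pull (BVm (La2 p i j)) (yh p i) = yh p i + yh p j := by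
  have _ := h
  unfold yh
  rw [HR.pull_cl, ← map_add, HR.cl_eq]
  refine Or.inr ⟨1, rfl, -fun g => carry p (vx g 1 i) (vx g 1 j), ?_, ?_⟩
  · refine (CoC _ (ZMod p) 1).neg_mem ?_
    intro t m hm hi τ
    have hm0 : m = 0 := by omega
    subst hm0
    have ht0 : t = 0 := by omega
    subst ht0
    have h1 : vx (dg (BV p I) 0 hm hi τ) 1 = 0 := by
      unfold dg
      rw [vx_opr _ _ _ le_rfl]
      exact sub_self _
    change carry p (vx (dg (BV p I) 0 hm hi τ) 1 i) (vx (dg (BV p I) 0 hm hi τ) 1 j) = 0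
    rw [h1]
    unfold carry
    rw [if_neg]
    rw [Pi.zero_apply, Pi.zero_apply, ZMod.val_zero]
    exact not_le.2 (Fact.out : p.Prime).pos
  · funext g
    have hfc : ∀ t : ℕ, (-fun g => carry p (vx g 1 i) (vx g 1 j))
        (fc (BV p I) t (rfl : 1 + 1 = 2) g) =
        -carry p (vx g (dl t 1) i - vx g (dl t 0) i) (vx g (dl t 1) j - vx g (dl t 0) j) := by
      intro t
      change -carry p (vx (fc (BV p I) t (rfl : 1 + 1 = 2) g) 1 i)
        (vx (fc (BV p I) t (rfl : 1 + 1 = 2) g) 1 j) = _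
      unfold fc
      rw [vx_opr _ _ _ le_rfl]
      rfl
    change carry p (vx ((BVm (La2 p i j)).app (op ⦋2⦌) g) 1 i)
      (vx ((BVm (La2 p i j)).app (op ⦋2⦌) g) 2 i - vx ((BVm (La2 p i j)).app (op ⦋2⦌) g) 1 i) -
      (carry p (vx g 1 i) (vx g 2 i - vx g 1 i) + carry p (vx g 1 j) (vx g 2 j - vx g 1 j)) = _
    unfold cobd
    simp only [Finset.sum_range_succ, Finset.sum_range_zero, hfc]
    rw [vx_BVm, vx_BVm, La2_self, La2_self]
    have e : vx g 2 i + vx g 2 j - (vx g 1 i + vx g 1 j) =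
        (vx g 2 i - vx g 1 i) + (vx g 2 j - vx g 1 j) := by ring
    rw [e, carry_rel]
    simp [dl, vx_zero]
    ring

theorem pull_add_x' (i j l : I) (h : l ≠ i) : HR.pull (BVm (La2 p i j)) (xh p l) = xh p l := by
  unfold xh
  rw [HR.pull_cl]
  congr 1
  refine Subtype.ext (funext fun g => ?_)
  change vx ((BVm (La2 p i j)).app (op ⦋1⦌) g) 1 l = vx g 1 l
  rw [vx_BVm, La2_ne i j h]

theorem pull_add_y' (i j l : I) (h : l ≠ i) : HR.pull (BVm (La2 p i j)) (yh p l) = yh p l := by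
  unfold yh
  rw [HR.pull_cl]
  congr 1
  refine Subtype.ext (funext fun g => ?_)
  change carry p (vx ((BVm (La2 p i j)).app (op ⦋2⦌) g) 1 l)
    (vx ((BVm (La2 p i j)).app (op ⦋2⦌) g) 2 l - vx ((BVm (La2 p i j)).app (op ⦋2⦌) g) 1 l) =
    carry p (vx g 1 l) (vx g 2 l - vx g 1 l)
  rw [vx_BVm, vx_BVm, La2_ne i j h, La2_ne i j h]

theorem pull_k_x {J : Type} (κ : J → I) (j : J) :
    HR.pull (BVm (Lk p κ)) (xh p j) = xh p (κ j) := by
  unfold xh
  rw [HR.pull_cl, pb_xc]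

theorem pull_k_y {J : Type} (κ : J → I) (j : J) :
    HR.pull (BVm (Lk p κ)) (yh p j) = yh p (κ j) := by
  unfold yh
  rw [HR.pull_cl, pb_yc]

end BPN.E
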