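import Pool.Agent.BPN.E.DerM

/-!
# Part (E), module Conj: the conjugation of the Milnor algebra (project BPN, architect helper30)

`xb n` : the conjugate `ξ̄_n` (`xb 0 = 1`, `∑_{i ≤ n} ξ_{n-i}^(p^i) ξ̄_i = 0` for `n ≥ 1`); `tb n = - ∑_{i ≤ n} ξ̄_{n-i}^(p^i) τ_i`;
`cj : t n ↦ tb n, v n ↦ xb (n+1)` : the conjugation.

PROOFS.  Lower triangular matrices `Ξ_{n,i} = ξ_{n-i}^(p^i)`, `Ξ̄_{n,i} = ξ̄_{n-i}^(p^i)` (`i ≤ n`) over the commutative ring of
polynomials in the `v j`; `Ξ Ξ̄ = 1` (the definition of `ξ̄`, raised to the power `p^j`, in characteristic `p`), hence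
`Ξ̄ Ξ = 1` (`inv_left`).
* `cj` well defined: `tb n` is odd, `tb n ^ 2 = q xb (n+1)`: for `p ≠ 2` odd elements have square `0`; for `p = 2`
  `tb n ^ 2 = ∑_i ξ̄_{n-i}^(2^(i+1)) ξ_{i+1} = ∑_i Ξ̄_{n+1,i+1} Ξ_{i+1,0} = (Ξ̄ Ξ)_{n+1,0} - Ξ̄_{n+1,0} = - ξ̄_{n+1} = ξ̄_{n+1}`.
* `cj_cj`: on generators: `cj(Ξ) = Ξ̄`, so `cj(Ξ̄) = Ξ̄^(-1) = Ξ`, and `cj(tb) = - cj(Ξ̄) tb = - Ξ (- Ξ̄ τ) = τ`.
* `cj_hg`: `deg ξ̄_n = 2 (p^n - 1)`, `deg τ̄_n = 2 p^n - 1`.
* `RD_cj`: `RD i` is a left derivation (`RD_mul`) killing all `v`, with `RD i (tb n) = - ∑_j ξ̄_{n-j}^(p^j) ξ_{j-i}^(p^i) = - δ_{ni}`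
  (`RD_t`, `inv_left`), so `RD i (cj (mon E R)) = - ∑_{n = i ∈ E} (-1)^#{e < i} cj (mon (E \ i) R)`; `cj (mon E R)` is the product of
  the `tb e` (increasing) and of powers of `xb`.
* `LD_cj`: `LD i` is a right derivation (`LD_mul`) killing all `v`, `LD i (tb n) = - ξ̄_{n-i}^(p^i)` for `i ≤ n`, `0` otherwise; so
  `LD i (cj (mon E R)) = - ∑_{n ∈ E, i ≤ n} (-1)^#{e ∈ E, e > n} ξ̄_{n-i}^(p^i) cj (mon (E \ n) R)` and
  `#{e > n} = |E| - 1 - #{e < n}`.
-/

namespace BPN.E

namespace Tw

/-- The conjugate of `ξ_n`. -/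
noncomputable def xb (p : ℕ) (n : ℕ) : Tw p ℕ :=
  if _h : n = 0 then 1 else -∑ i : Fin n, xi p (n - i) ^ p ^ (i : ℕ) * xb p i
termination_by n
decreasing_by exact i.2

/-- The conjugate of `τ_n`. -/
noncomputable def tb (p n : ℕ) : Tw p ℕ :=
  -∑ i ∈ Finset.range (n + 1), xb p (n - i) ^ p ^ i * t p i

variable {p : ℕ} [Fact p.Prime]

/-! ### commutative algebra -/

private theorem abs_frob {A ι : Type*} [CommRing A] (hp : p.Prime) (h0 : ((p : ℕ) : A) = 0)
    (s : Finset ι) (f : ι → A) (k : ℕ) : (∑ i ∈ s, f i) ^ p ^ k = ∑ i ∈ s, f i ^ p ^ k := by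
  classical
  induction s using Finset.induction_on with
  | empty =>
    rw [Finset.sum_empty, Finset.sum_empty, zero_pow (pow_ne_zero k hp.ne_zero)]
  | insert i s hi ih =>
    rw [Finset.sum_insert hi, Finset.sum_insert hi, ← ih]
    obtain ⟨r, hr⟩ := (Commute.all (f i) (∑ i ∈ s, f i)).exists_add_pow_prime_pow_eq hp k
    rw [hr, h0]
    simp

private theorem Icc_Ico (i n : ℕ) : Finset.Icc i n = Finset.Ico i (n + 1) := by
  ext j
  simp only [Finset.mem_Icc, Finset.mem_Ico]
  omega

private theorem abs_right {A : Type*} [CommRing A] (hp : p.Prime) (h0 : ((p : ℕ) : A) = 0)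
    (x b : ℕ → A)
    (hrel : ∀ n, ∑ i ∈ Finset.range (n + 1), x (n - i) ^ p ^ i * b i = if n = 0 then 1 else 0)
    (n i : ℕ) (h : i ≤ n) :
    ∑ j ∈ Finset.Icc i n, x (n - j) ^ p ^ j * b (j - i) ^ p ^ i = if n = i then 1 else 0 := by
  rw [Icc_Ico, Finset.sum_Ico_eq_sum_range]
  have h1 : ∀ e ∈ Finset.range (n + 1 - i), x (n - (i + e)) ^ p ^ (i + e) * b (i + e - i) ^ p ^ i =
      (x (n - i - e) ^ p ^ e * b e) ^ p ^ i := by
    intro e _
    rw [mul_pow, ← pow_mul, ← pow_add, Nat.add_sub_cancel_left, Nat.sub_sub, Nat.add_comm e i]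
  rw [Finset.sum_congr rfl h1, ← abs_frob hp h0, show n + 1 - i = n - i + 1 by omega, hrel]
  by_cases h2 : n = i
  · rw [if_pos (by omega), if_pos h2, one_pow]
  · rw [if_neg (by omega), if_neg h2, zero_pow (pow_ne_zero i hp.ne_zero)]

private theorem mat_sum {A : Type*} [CommRing A] (N : ℕ) (f g : ℕ → ℕ → A) (a c : Fin (N + 1)) :
    ((Matrix.of fun a c : Fin (N + 1) => if (c : ℕ) ≤ a then f a c else 0) *
      (Matrix.of fun a c : Fin (N + 1) => if (c : ℕ) ≤ a then g a c else 0)) a c =
      ∑ d ∈ Finset.Icc (c : ℕ) a, f a d * g d c := by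
  rw [Matrix.mul_apply]
  simp only [Matrix.of_apply]
  have h1 := Finset.sum_range (fun d => (if d ≤ (a : ℕ) then f a d else 0) *
    (if (c : ℕ) ≤ d then g d c else 0)) (n := N + 1)
  rw [← h1]
  symm
  have h2 : ∀ d ∈ Finset.Icc (c : ℕ) a, f a d * g d c = (if d ≤ (a : ℕ) then f a d else 0) *
    (if (c : ℕ) ≤ d then g d c else 0) := by
    intro d hd
    rw [Finset.mem_Icc] at hd
    rw [if_pos hd.2, if_pos hd.1]
  rw [Finset.sum_congr rfl h2]
  apply Finset.sum_subset
  · intro d hd
    rw [Finset.mem_Icc] at hd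
    rw [Finset.mem_range]
    have := a.2
    omega
  · intro d _ hd
    rw [Finset.mem_Icc] at hd
    by_cases h3 : d ≤ (a : ℕ)
    · rw [if_neg (fun h4 : (c : ℕ) ≤ d => hd ⟨h4, h3⟩), mul_zero]
    · rw [if_neg h3, zero_mul]

private theorem abs_swap {A : Type*} [CommRing A] (f g : ℕ → ℕ → A)
    (h : ∀ a c, c ≤ a → ∑ d ∈ Finset.Icc c a, f a d * g d c = if a = c then 1 else 0)
    (n i : ℕ) (hin : i ≤ n) : ∑ d ∈ Finset.Icc i n, g n d * f d i = if n = i then 1 else 0 := by
  have h1 : (Matrix.of fun a c : Fin (n + 1) => if (c : ℕ) ≤ a then f a c else 0) *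
      (Matrix.of fun a c : Fin (n + 1) => if (c : ℕ) ≤ a then g a c else 0) = 1 := by
    ext a c
    rw [mat_sum]
    by_cases h2 : (c : ℕ) ≤ a
    · rw [h a c h2, Matrix.one_apply]
      simp only [Fin.ext_iff]
    · rw [Finset.Icc_eq_empty h2, Finset.sum_empty, Matrix.one_apply_ne]
      rintro rfl
      exact h2 le_rfl
  rw [mul_eq_one_comm] at h1
  have h3 := congrFun (congrFun h1 ⟨n, by omega⟩) ⟨i, by omega⟩
  rw [mat_sum, Matrix.one_apply] at h3
  simpa [Fin.ext_iff] using h3

/-! ### the elements `xi`, `xb` -/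

private theorem v_cen (i : ℕ) : v p i ∈ Subring.center (Tw p ℕ) :=
  Subring.mem_center_iff.2 fun g => (v_comm i g).symm

private theorem xi_cen (i : ℕ) : xi p i ∈ Subring.center (Tw p ℕ) := by
  unfold xi
  split_ifs
  · exact one_mem _
  · exact v_cen _

private theorem xi_zero : xi p 0 = 1 := if_pos rfl

private theorem xi_succ (n : ℕ) : xi p (n + 1) = v p n := if_neg (Nat.succ_ne_zero n)

theorem xb_zero : xb p 0 = 1 := by
  rw [xb]
  simp

private theorem xb_pos (n : ℕ) (hn : 0 < n) :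
    xb p n = -∑ i ∈ Finset.range n, xi p (n - i) ^ p ^ i * xb p i := by
  rw [Finset.sum_range, xb, dif_neg (by omega)]

private theorem xb_cen (n : ℕ) : xb p n ∈ Subring.center (Tw p ℕ) := by
  induction n using Nat.strong_induction_on with
  | _ n ih =>
    rcases Nat.eq_zero_or_pos n with h | h
    · rw [h, xb_zero]
      exact one_mem _
    · rw [xb_pos n h]
      refine neg_mem (sum_mem fun i hi => mul_mem (pow_mem (xi_cen _) _) (ih i ?_))
      exact Finset.mem_range.1 hi

theorem xb_rel (n : ℕ) (hn : 0 < n) :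
    ∑ i ∈ Finset.range (n + 1), xi p (n - i) ^ p ^ i * xb p i = 0 := by
  rw [Finset.sum_range_succ, Nat.sub_self, xi_zero, one_pow, one_mul, xb_pos n hn, add_neg_cancel]

private theorem xb_rel' (n : ℕ) :
    ∑ i ∈ Finset.range (n + 1), xi p (n - i) ^ p ^ i * xb p i = if n = 0 then 1 else 0 := by
  by_cases h : n = 0
  · subst h
    rw [Finset.sum_range_one, Nat.sub_self, xi_zero, one_pow, one_mul, xb_zero, if_pos rfl]
  · rw [if_neg h]
    exact xb_rel n (by omega)

/-- the elements in the center -/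
private noncomputable def zx (p : ℕ) [Fact p.Prime] (n : ℕ) : Subring.center (Tw p ℕ) := ⟨xi p n, xi_cen n⟩

private noncomputable def zb (p : ℕ) [Fact p.Prime] (n : ℕ) : Subring.center (Tw p ℕ) := ⟨xb p n, xb_cen n⟩

private theorem z_rel (n : ℕ) :
    ∑ i ∈ Finset.range (n + 1), zx p (n - i) ^ p ^ i * zb p i = if n = 0 then 1 else 0 := by
  apply Subtype.ext
  have h1 : ((∑ i ∈ Finset.range (n + 1), zx p (n - i) ^ p ^ i * zb p i :
      Subring.center (Tw p ℕ)) : Tw p ℕ) =
      ∑ i ∈ Finset.range (n + 1), xi p (n - i) ^ p ^ i * xb p i := by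
    rw [← Subring.coe_subtype, map_sum]
    rfl
  rw [h1, xb_rel']
  split_ifs <;> rfl

private theorem z_p : ((p : ℕ) : Subring.center (Tw p ℕ)) = 0 := by
  apply Subtype.ext
  have h1 : (((p : ℕ) : Subring.center (Tw p ℕ)) : Tw p ℕ) = ((p : ℕ) : Tw p ℕ) := by
    rw [← Subring.coe_subtype, map_natCast]
  rw [h1, natCast_p]
  rfl

private theorem z_right (n i : ℕ) (h : i ≤ n) :
    ∑ j ∈ Finset.Icc i n, zx p (n - j) ^ p ^ j * zb p (j - i) ^ p ^ i = if n = i then 1 else 0 :=
  abs_right (Fact.out : p.Prime) z_p (zx p) (zb p) z_rel n i h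

private theorem inv_right (n i : ℕ) (h : i ≤ n) :
    ∑ j ∈ Finset.Icc i n, xi p (n - j) ^ p ^ j * xb p (j - i) ^ p ^ i = if n = i then 1 else 0 := by
  have h1 := congrArg (Subring.subtype (Subring.center (Tw p ℕ))) (z_right (p := p) n i h)
  rw [map_sum] at h1
  refine Eq.trans ?_ (h1.trans ?_)
  · rfl
  · split_ifs <;> rfl

theorem inv_left (n i : ℕ) (h : i ≤ n) :
    ∑ j ∈ Finset.Icc i n, xb p (n - j) ^ p ^ j * xi p (j - i) ^ p ^ i = if n = i then 1 else 0 := by
  have h0 := abs_swap (fun a d => zx p (a - d) ^ p ^ d) (fun d c => zb p (d - c) ^ p ^ c)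
    (fun a c hac => z_right (p := p) a c hac) n i h
  have h1 := congrArg (Subring.subtype (Subring.center (Tw p ℕ))) h0
  rw [map_sum] at h1
  refine Eq.trans ?_ (h1.trans ?_)
  · rfl
  · split_ifs <;> rfl

/-! ### parity -/

private theorem one_par : (1 : Tw p ℕ) ∈ Par p ℕ 0 := by
  intro E S h
  rw [← mon_zero, co_mon] at h
  by_cases h1 : ∅ = E ∧ 0 = S
  · rw [← h1.1]
    rfl
  · exact absurd (if_neg h1) h

private theorem pow_par {x : Tw p ℕ} (hx : x ∈ Par p ℕ 0) (n : ℕ) : x ^ n ∈ Par p ℕ 0 := by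
  induction n with
  | zero =>
    rw [pow_zero]
    exact one_par
  | succ n ih =>
    rw [pow_succ]
    exact Par_mul ih hx

private theorem xi_par (i : ℕ) : xi p i ∈ Par p ℕ 0 := by
  unfold xi
  split_ifs
  · exact one_par
  · exact v_mem_Par _

private theorem xb_par (n : ℕ) : xb p n ∈ Par p ℕ 0 := by
  induction n using Nat.strong_induction_on with
  | _ n ih =>
    rcases Nat.eq_zero_or_pos n with h | h
    · rw [h, xb_zero]
      exact one_par
    · rw [xb_pos n h]
      refine neg_mem (sum_mem fun i hi => Par_mul (pow_par (xi_par _) _) (ih i ?_))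
      exact Finset.mem_range.1 hi

private theorem tb_par (n : ℕ) : tb p n ∈ Par p ℕ 1 := by
  unfold tb
  refine neg_mem (sum_mem fun i _ => ?_)
  exact Par_mul (pow_par (xb_par _) _) (t_mem_Par i)

private theorem cen_comm {x : Tw p ℕ} (hx : x ∈ Subring.center (Tw p ℕ)) (y : Tw p ℕ) :
    x * y = y * x := (Subring.mem_center_iff.1 hx y).symm

private theorem sum_sq_anti {ι R : Type} [Ring R] (s : Finset ι) (a : ι → R)
    (h : ∀ i ∈ s, ∀ j ∈ s, i ≠ j → a i * a j = -(a j * a i)) :
    (∑ i ∈ s, a i) * ∑ i ∈ s, a i = ∑ i ∈ s, a i * a i := by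
  classical
  induction s using Finset.induction_on with
  | empty => simp
  | insert i s hi ih =>
    have h1 : a i * ∑ j ∈ s, a j = -((∑ j ∈ s, a j) * a i) := by
      rw [Finset.mul_sum, Finset.sum_mul, ← Finset.sum_neg_distrib]
      refine Finset.sum_congr rfl fun j hj => ?_
      refine h i (Finset.mem_insert_self i s) j (Finset.mem_insert_of_mem hj) ?_
      rintro rfl
      exact hi hj
    have h2 := ih fun i hi j hj hij =>
      h i (Finset.mem_insert_of_mem hi) j (Finset.mem_insert_of_mem hj) hij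
    rw [Finset.sum_insert hi, Finset.sum_insert hi, add_mul, mul_add, mul_add, h2, h1]
    abel

private theorem cen_mul4 {x y : Tw p ℕ} (_hx : x ∈ Subring.center (Tw p ℕ))
    (hy : y ∈ Subring.center (Tw p ℕ)) (a b : Tw p ℕ) :
    (x * a) * (y * b) = (x * y) * (a * b) := by
  rw [mul_assoc, ← mul_assoc a, ← cen_comm hy a, mul_assoc, mul_assoc]

private theorem tb_sq (n : ℕ) : tb p n * tb p n = qq p • xb p (n + 1) := by
  have hcen : ∀ i, xb p (n - i) ^ p ^ i ∈ Subring.center (Tw p ℕ) := fun i => pow_mem (xb_cen _) _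
  unfold tb
  rw [neg_mul_neg, sum_sq_anti]
  · have h1 : ∀ i ∈ Finset.range (n + 1), xb p (n - i) ^ p ^ i * t p i * (xb p (n - i) ^ p ^ i * t p i) =
        qq p • (xb p (n - i) ^ (2 * p ^ i) * v p i) := by
      intro i _
      rw [cen_mul4 (hcen i) (hcen i), t_sq, mul_smul', ← pow_two, ← pow_mul, mul_comm (p ^ i) 2]
    rw [Finset.sum_congr rfl h1, ← Finset.smul_sum]
    by_cases hp : p = 2
    · subst hp
      have h2 := inv_left (p := 2) (n + 1) 0 (by omega)
      rw [if_neg (by omega), Icc_Ico, ← Finset.range_eq_Ico, Finset.sum_range_succ'] at h2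
      have h3 : ∀ i ∈ Finset.range (n + 1), xb 2 (n - i) ^ (2 * 2 ^ i) * v 2 i =
          xb 2 (n + 1 - (i + 1)) ^ 2 ^ (i + 1) * xi 2 (i + 1 - 0) ^ 2 ^ 0 := by
        intro i _
        rw [Nat.add_sub_add_right, Nat.sub_zero, pow_zero, pow_one, xi_succ, pow_succ' 2 i]
      rw [Finset.sum_congr rfl h3]
      have h4 : xb 2 (n + 1 - 0) ^ 2 ^ 0 * xi 2 (0 - 0) ^ 2 ^ 0 = xb 2 (n + 1) := by
        rw [Nat.sub_zero, Nat.sub_zero, pow_zero, pow_one, xi_zero, one_pow, mul_one]
      rw [h4] at h2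
      have h5 : xb 2 (n + 1) + xb 2 (n + 1) = (0 : Tw 2 ℕ) := by
        rw [← two_mul]
        have := natCast_p (p := 2) (I := ℕ)
        push_cast at this
        rw [this, zero_mul]
      congr 1
      have h6 := eq_neg_of_add_eq_zero_left h2
      rw [h6]
      exact (eq_neg_of_add_eq_zero_left h5).symm
    · have hq : qq p = 0 := if_neg hp
      rw [hq, zero_smul, zero_smul]
  · intro i _ j _ _
    rw [cen_mul4 (hcen i) (hcen j), cen_mul4 (hcen j) (hcen i), t_anti i j, mul_neg,
      cen_comm (hcen i)]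

/-- Conjugation. -/
noncomputable def cj (p : ℕ) [Fact p.Prime] : Tw p ℕ →+* Tw p ℕ :=
  lft (fun n => tb p n) (fun n => xb p (n + 1)) (fun n => tb_par n) (fun n => xb_par (n + 1))
    (fun n => tb_sq n)

theorem cj_t (n : ℕ) : cj p (t p n) = tb p n := lft_t n

theorem cj_v (n : ℕ) : cj p (v p n) = xb p (n + 1) := lft_v n

private theorem cj_par {n : ℕ} {x : Tw p ℕ} (hx : x ∈ Par p ℕ n) : cj p x ∈ Par p ℕ n := lft_par hx

private theorem cj_xi (n : ℕ) : cj p (xi p n) = xb p n := by
  rcases n with _ | n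
  · rw [xi_zero, map_one, xb_zero]
  · rw [xi_succ, cj_v]

private theorem cj_xb (n : ℕ) : cj p (xb p n) = xi p n := by
  induction n using Nat.strong_induction_on with
  | _ n ih =>
    rcases Nat.eq_zero_or_pos n with h | h
    · rw [h, xb_zero, map_one, xi_zero]
    · have h1 := congrArg (cj p) (xb_rel (p := p) n h)
      rw [map_sum, map_zero, Finset.sum_range_succ] at h1
      have h2 := inv_left (p := p) n 0 (by omega)
      rw [if_neg (by omega), Icc_Ico, ← Finset.range_eq_Ico, Finset.sum_range_succ] at h2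
      have h3 : ∀ i ∈ Finset.range n, cj p (xi p (n - i) ^ p ^ i * xb p i) =
          xb p (n - i) ^ p ^ i * xi p (i - 0) ^ p ^ 0 := by
        intro i hi
        rw [map_mul, map_pow, cj_xi, ih i (Finset.mem_range.1 hi), Nat.sub_zero, pow_zero, pow_one]
      rw [Finset.sum_congr rfl h3, map_mul, map_pow, cj_xi, Nat.sub_self, xb_zero, one_pow,
        one_mul] at h1
      rw [Nat.sub_self, xb_zero, one_pow, one_mul, Nat.sub_zero, pow_zero, pow_one] at h2
      exact add_left_cancel (h1.trans h2.symm)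

theorem cj_cj (z : Tw p ℕ) : cj p (cj p z) = z := by
  have h : (cj p).comp (cj p) = RingHom.id (Tw p ℕ) := by
    apply hom_ext
    · intro n
      rw [RingHom.comp_apply, RingHom.id_apply, cj_t]
      have h0 : cj p (tb p n) = -∑ i ∈ Finset.range (n + 1), xi p (n - i) ^ p ^ i * tb p i := by
        conv_lhs => rw [tb]
        rw [map_neg, map_sum]
        congr 1
        refine Finset.sum_congr rfl fun i _ => ?_
        rw [map_mul, map_pow, cj_xb, cj_t]
      rw [h0]
      have h1 : ∀ i ∈ Finset.range (n + 1), xi p (n - i) ^ p ^ i * tb p i =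
          -∑ k ∈ Finset.range (n + 1), if k ≤ i then
            (xi p (n - i) ^ p ^ i * xb p (i - k) ^ p ^ k) * t p k else 0 := by
        intro i hi
        unfold tb
        rw [mul_neg, Finset.mul_sum]
        congr 1
        rw [← Finset.sum_filter]
        have h2 : (Finset.range (n + 1)).filter (fun k => k ≤ i) = Finset.range (i + 1) := by
          ext k
          have := Finset.mem_range.1 hi
          simp only [Finset.mem_filter, Finset.mem_range]
          omega
        rw [h2]
        refine Finset.sum_congr rfl fun k _ => ?_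
        rw [mul_assoc]
      rw [Finset.sum_congr rfl h1, Finset.sum_neg_distrib, neg_neg, Finset.sum_comm]
      have h3 : ∀ k ∈ Finset.range (n + 1), (∑ i ∈ Finset.range (n + 1), if k ≤ i then
            (xi p (n - i) ^ p ^ i * xb p (i - k) ^ p ^ k) * t p k else 0) =
          if n = k then t p k else 0 := by
        intro k hk
        rw [← Finset.sum_filter]
        have h2 : (Finset.range (n + 1)).filter (fun i => k ≤ i) = Finset.Icc k n := by
          ext i
          simp only [Finset.mem_filter, Finset.mem_range, Finset.mem_Icc]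
          omega
        rw [h2, ← Finset.sum_mul, inv_right n k (by have := Finset.mem_range.1 hk; omega)]
        split_ifs
        · rw [one_mul]
        · rw [zero_mul]
      rw [Finset.sum_congr rfl h3, Finset.sum_ite_eq (Finset.range (n + 1)) n,
        if_pos (Finset.mem_range.2 (by omega))]
    · intro n
      rw [RingHom.comp_apply, RingHom.id_apply, cj_v, cj_xb, xi_succ]
  exact DFunLike.congr_fun h z

/-! ### degrees -/

private def G (p : ℕ) (n : ℕ) : AddSubgroup (Tw p ℕ) where
  carrier := {z | ∀ E R, co z E R ≠ 0 → Mil.deg p R E = n}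
  zero_mem' := by
    intro E S h
    exact absurd (co_zero E S) h
  add_mem' := by
    intro x y hx hy E S h
    by_cases h1 : co x E S = 0
    · refine hy E S fun h2 => h ?_
      rw [co_add, h1, h2, add_zero]
    · exact hx E S h1
  neg_mem' := by
    intro x hx E S h
    refine hx E S fun h2 => h ?_
    rw [co_neg, h2, neg_zero]

private theorem G_smul (c : ZMod p) {n : ℕ} {x : Tw p ℕ} (hx : x ∈ G p n) : c • x ∈ G p n := by
  intro E S hne
  exact hx E S fun h => hne (by rw [co_smul, h, mul_zero])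

private theorem G_mon (E : Finset ℕ) (S : ℕ →₀ ℕ) : mon p E S ∈ G p (Mil.deg p S E) := by
  intro F T h
  rw [co_mon] at h
  by_cases h1 : E = F ∧ S = T
  · rw [h1.1, h1.2]
  · exact absurd (if_neg h1) h

private theorem repr (x : Tw p ℕ) : x = ∑ z ∈ (co_finite x).toFinset,
    co x z.1 z.2 • mon p z.1 z.2 := by
  classical
  apply ext_co
  intro E S
  have h1 : co (∑ z ∈ (co_finite x).toFinset, co x z.1 z.2 • mon p z.1 z.2) E S =
      ∑ z ∈ (co_finite x).toFinset, co (co x z.1 z.2 • mon p z.1 z.2) E S := co_sum _ _ _ _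
  rw [h1]
  have h2 : ∀ z ∈ (co_finite x).toFinset, co (co x z.1 z.2 • mon p z.1 z.2) E S =
      if z = (E, S) then co x E S else 0 := by
    rintro ⟨F, T⟩ _
    rw [co_smul, co_mon]
    by_cases h3 : (F, T) = (E, S)
    · rw [if_pos h3, Prod.mk.injEq] at *
      rw [if_pos h3, h3.1, h3.2, mul_one]
    · rw [if_neg h3, if_neg (fun h4 => h3 (Prod.ext h4.1 h4.2)), mul_zero]
  rw [Finset.sum_congr rfl h2, Finset.sum_ite_eq']
  split_ifs with h3
  · rfl
  · rw [Set.Finite.mem_toFinset] at h3
    by_contra h4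
    exact h3 h4

private theorem deg_add (R S : ℕ →₀ ℕ) : ((R + S).sum fun j r => r * (2 * (p ^ (j + 1) - 1))) =
    (R.sum fun j r => r * (2 * (p ^ (j + 1) - 1))) + S.sum fun j r => r * (2 * (p ^ (j + 1) - 1)) :=
  Finsupp.sum_add_index' (fun _ => zero_mul _) (fun _ _ _ => add_mul _ _ _)

private theorem mon_mon (E F : Finset ℕ) (S T : ℕ →₀ ℕ) :
    mon p E S * mon p F T ∈ G p (Mil.deg p S E + Mil.deg p T F) := by
  classical
  have h1 : mon p E S * mon p F T = (((-1) ^ inv E F * qq p ^ (E ∩ F).card : ZMod p)) •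
      mon p (symmDiff E F) (S + T + ∑ i ∈ E ∩ F, Finsupp.single i 1) := by
    unfold mon
    rw [sg_mul_sg, ← sg_smul]
    congr 1
    have h1 : (∏ i ∈ E ∩ F, (MvPolynomial.X i : MvPolynomial ℕ (ZMod p))) =
        MvPolynomial.monomial (∑ i ∈ E ∩ F, Finsupp.single i 1) 1 := by
      rw [MvPolynomial.monomial_sum_one]
      rfl
    have h2 : (MvPolynomial.monomial (S + T + ∑ i ∈ E ∩ F, Finsupp.single i 1) (1 : ZMod p)) =
        MvPolynomial.monomial S 1 * MvPolynomial.monomial T 1 *
          MvPolynomial.monomial (∑ i ∈ E ∩ F, Finsupp.single i 1) 1 := by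
      rw [MvPolynomial.monomial_mul, MvPolynomial.monomial_mul, mul_one, mul_one]
    unfold sf
    rw [Finset.prod_mul_distrib, Finset.prod_const, h1, h2, MvPolynomial.smul_eq_C_mul,
      MvPolynomial.C_mul, MvPolynomial.C_pow, MvPolynomial.C_pow, MvPolynomial.C_neg,
      MvPolynomial.C_1]
    ring
  rw [h1]
  by_cases h2 : p ≠ 2 ∧ (E ∩ F).card ≠ 0
  · have hq : qq p = 0 := if_neg h2.1
    rw [hq, zero_pow h2.2, mul_zero, zero_smul]
    exact zero_mem _
  · apply G_smul
    have h3 : Mil.deg p (S + T + ∑ i ∈ E ∩ F, Finsupp.single i 1) (symmDiff E F) =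
        Mil.deg p S E + Mil.deg p T F := by
      unfold Mil.deg
      rw [deg_add, deg_add]
      have h4 : ((∑ i ∈ E ∩ F, Finsupp.single i 1 : ℕ →₀ ℕ).sum
          fun j r => r * (2 * (p ^ (j + 1) - 1))) = ∑ i ∈ E ∩ F, 2 * (p ^ (i + 1) - 1) := by
        induction (E ∩ F) using Finset.induction_on with
        | empty => simp
        | insert a s ha ih =>
          rw [Finset.sum_insert ha, Finset.sum_insert ha, deg_add, ih]
          congr 1
          rw [Finsupp.sum_single_index (zero_mul _), one_mul]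
      have h5 : ∑ i ∈ E ∩ F, 2 * (p ^ (i + 1) - 1) =
          ∑ i ∈ E ∩ F, (2 * p ^ i - 1) + ∑ i ∈ E ∩ F, (2 * p ^ i - 1) := by
        by_cases h6 : p = 2
        · subst h6
          rw [← Finset.sum_add_distrib]
          refine Finset.sum_congr rfl fun i _ => ?_
          rw [pow_succ']
          have : 0 < 2 ^ i := by positivity
          omega
        · have h7 : (E ∩ F).card = 0 := by
            by_contra h8
            exact h2 ⟨h6, h8⟩
          rw [Finset.card_eq_zero] at h7
          rw [h7]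
          simp
      have h6 : ∑ e ∈ E, (2 * p ^ e - 1) = ∑ e ∈ E \ F, (2 * p ^ e - 1) +
          ∑ e ∈ E ∩ F, (2 * p ^ e - 1) := by
        have h8 := Finset.sum_inter_add_sum_sdiff E F (fun e => 2 * p ^ e - 1)
        omega
      have h7 : ∑ e ∈ F, (2 * p ^ e - 1) = ∑ e ∈ F \ E, (2 * p ^ e - 1) +
          ∑ e ∈ E ∩ F, (2 * p ^ e - 1) := by
        have h8 := Finset.sum_inter_add_sum_sdiff F E (fun e => 2 * p ^ e - 1)
        rw [Finset.inter_comm F E] at h8
        omega
      have h8 : ∑ e ∈ symmDiff E F, (2 * p ^ e - 1) = ∑ e ∈ E \ F, (2 * p ^ e - 1) +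
          ∑ e ∈ F \ E, (2 * p ^ e - 1) := by
        rw [← Finset.sum_union disjoint_sdiff_sdiff]
        rfl
      rw [h4, h5, h6, h7, h8]
      ring
    rw [← h3]
    exact G_mon _ _

private theorem G_mul {m n : ℕ} {x y : Tw p ℕ} (hx : x ∈ G p m) (hy : y ∈ G p n) :
    x * y ∈ G p (m + n) := by
  rw [repr x, repr y, Finset.sum_mul]
  refine sum_mem fun z hz => ?_
  rw [Finset.mul_sum]
  refine sum_mem fun w hw => ?_
  rw [smul_mul, mul_smul']
  apply G_smul
  apply G_smul
  have h1 := hx z.1 z.2 ((co_finite x).mem_toFinset.1 hz)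
  have h2 := hy w.1 w.2 ((co_finite y).mem_toFinset.1 hw)
  rw [← h1, ← h2]
  exact mon_mon _ _ _ _

private theorem G_one : (1 : Tw p ℕ) ∈ G p 0 := by
  have := G_mon (p := p) ∅ 0
  rw [mon_zero] at this
  simpa [Mil.deg] using this

private theorem G_pow {n : ℕ} {x : Tw p ℕ} (hx : x ∈ G p n) (k : ℕ) : x ^ k ∈ G p (k * n) := by
  induction k with
  | zero =>
    rw [pow_zero, zero_mul]
    exact G_one
  | succ k ih =>
    rw [pow_succ, Nat.succ_mul]
    exact G_mul ih hx

private theorem G_xi (n : ℕ) : xi p n ∈ G p (2 * (p ^ n - 1)) := by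
  rcases n with _ | n
  · rw [xi_zero]
    simpa using G_one (p := p)
  · rw [xi_succ]
    have := G_mon (p := p) ∅ (Finsupp.single n 1)
    unfold Mil.deg at this
    rw [Finsupp.sum_single_index (zero_mul _), one_mul, Finset.sum_empty, add_zero] at this
    exact this

private theorem pow_ge (k : ℕ) : 1 ≤ p ^ k := Nat.one_le_iff_ne_zero.2
  (pow_ne_zero k (Fact.out : p.Prime).ne_zero)

private theorem dg1 {n i : ℕ} (h : i ≤ n) :
    p ^ i * (2 * (p ^ (n - i) - 1)) + 2 * (p ^ i - 1) = 2 * (p ^ n - 1) := by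
  have h1 : p ^ i * p ^ (n - i) = p ^ n := by rw [← pow_add]; congr 1; omega
  have a1 := pow_ge (p := p) i
  have a2 := pow_ge (p := p) (n - i)
  have a3 := pow_ge (p := p) n
  zify [a1, a2, a3] at h1 ⊢
  linear_combination 2 * h1

private theorem dg2 {n i : ℕ} (h : i ≤ n) :
    p ^ i * (2 * (p ^ (n - i) - 1)) + (2 * p ^ i - 1) = 2 * p ^ n - 1 := by
  have h1 : p ^ i * p ^ (n - i) = p ^ n := by rw [← pow_add]; congr 1; omega
  have a1 := pow_ge (p := p) i
  have a2 := pow_ge (p := p) (n - i)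
  have a3 := pow_ge (p := p) n
  have a4 : 1 ≤ 2 * p ^ i := by omega
  have a5 : 1 ≤ 2 * p ^ n := by omega
  zify [a1, a2, a3, a4, a5] at h1 ⊢
  linear_combination 2 * h1

private theorem G_xb (n : ℕ) : xb p n ∈ G p (2 * (p ^ n - 1)) := by
  induction n using Nat.strong_induction_on with
  | _ n ih =>
    rcases Nat.eq_zero_or_pos n with h | h
    · rw [h, xb_zero]
      simpa using G_one (p := p)
    · rw [xb_pos n h]
      refine neg_mem (sum_mem fun i hi => ?_)
      have hi' := Finset.mem_range.1 hi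
      have := G_mul (G_pow (G_xi (p := p) (n - i)) (p ^ i)) (ih i hi')
      rw [dg1 hi'.le] at this
      exact this

private theorem G_t (i : ℕ) : t p i ∈ G p (2 * p ^ i - 1) := by
  have := G_mon (p := p) {i} 0
  unfold Mil.deg at this
  rw [Finsupp.sum_zero_index, Finset.sum_singleton, zero_add] at this
  exact this

private theorem G_tb (n : ℕ) : tb p n ∈ G p (2 * p ^ n - 1) := by
  unfold tb
  refine neg_mem (sum_mem fun i hi => ?_)
  have hi' := Finset.mem_range.1 hi
  have := G_mul (G_pow (G_xb (p := p) (n - i)) (p ^ i)) (G_t (p := p) i)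
  rw [dg2 (by omega)] at this
  exact this

/-- induction on `S` -/
private theorem v_ind {P : (ℕ →₀ ℕ) → Prop} (h0 : P 0)
    (hv : ∀ i S, P S → P (S + Finsupp.single i 1)) (S : ℕ →₀ ℕ) : P S := by
  induction S using Finsupp.induction with
  | zero => exact h0
  | single_add a b f _ _ ih =>
    have h3 : ∀ b : ℕ, P (Finsupp.single a b + f) := by
      intro b
      induction b with
      | zero => simpa using ih
      | succ b ihb =>
        have h1 := hv a _ ihb
        have h2 : Finsupp.single a b + f + Finsupp.single a 1 = Finsupp.single a (b + 1) + f := by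
          rw [Finsupp.single_add]
          abel
        rwa [h2] at h1
    exact h3 b

private theorem mon_succ (S : ℕ →₀ ℕ) (i : ℕ) :
    mon p ∅ (S + Finsupp.single i 1) = mon p ∅ S * v p i :=
  (mon_mul_mon_empty ∅ S (Finsupp.single i 1)).symm

private theorem G_cj_mon (E : Finset ℕ) (S : ℕ →₀ ℕ) : cj p (mon p E S) ∈ G p (Mil.deg p S E) := by
  have hS : cj p (mon p ∅ S) ∈ G p (Mil.deg p S ∅) := by
    refine v_ind (P := fun S => cj p (mon p ∅ S) ∈ G p (Mil.deg p S ∅)) ?_ ?_ S
    · rw [mon_zero, map_one]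
      simpa [Mil.deg] using G_one (p := p)
    · intro i S ih
      rw [mon_succ, map_mul, cj_v]
      have := G_mul ih (G_xb (p := p) (i + 1))
      unfold Mil.deg at this ⊢
      rw [deg_add, Finsupp.sum_single_index (zero_mul _), one_mul]
      simpa using this
  induction E using Finset.induction_on_max with
  | empty => exact hS
  | insert i E hi ih =>
    have hi' : i ∉ E := fun h => lt_irrefl _ (hi i h)
    rw [← mon_mul_t E S i hi, map_mul, cj_t]
    have := G_mul ih (G_tb (p := p) i)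
    unfold Mil.deg at this ⊢
    rw [Finset.sum_insert hi']
    rw [add_assoc] at this
    rw [add_comm (2 * p ^ i - 1)]
    exact this

theorem cj_hg {n : ℕ} {z : Tw p ℕ} (hz : ∀ E R, co z E R ≠ 0 → Mil.deg p R E = n) :
    ∀ E R, co (cj p z) E R ≠ 0 → Mil.deg p R E = n := by
  have h1 : cj p z ∈ G p n := by
    rw [repr z, map_sum]
    refine sum_mem fun w hw => ?_
    rw [hom_smul]
    apply G_smul
    rw [← hz w.1 w.2 ((co_finite z).mem_toFinset.1 hw)]
    exact G_cj_mon _ _
  exact h1

/-- The identification of `Mil p` and `Tw p ℕ` (the same underlying group). -/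
noncomputable def toTw (p : ℕ) : Mil p ≃+ Tw p ℕ := AddEquiv.refl _

theorem toTw_mon (R : ℕ →₀ ℕ) (E : Finset ℕ) : toTw p (Mil.mon p R E) = mon p E R := rfl

private theorem toTw_single (E : Finset ℕ) (a : MvPolynomial ℕ (ZMod p)) :
    toTw p (Finsupp.single E a) = sg E a := rfl

/-! ### the derivations -/

private theorem ze (n m : ℕ) (x : Tw p ℕ) : (-1 : ℤ) ^ n • ((-1 : ℤ) ^ m • x) = (-1 : ℤ) ^ (n + m) • x := by
  rw [smul_smul, ← pow_add]

/-- even elements killed by a map `D` with `D (x y) = D x y + x D y` for even `x`, `y` -/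
private theorem kill_xb (D : Tw p ℕ →+ Tw p ℕ) (hD : ∀ x y, x ∈ Par p ℕ 0 → y ∈ Par p ℕ 0 →
    D x = 0 → D y = 0 → D (x * y) = 0) (h1 : D 1 = 0) (hv : ∀ n, D (v p n) = 0) :
    (∀ n, D (xb p n) = 0) ∧ (∀ n k, D (xb p n ^ k) = 0) ∧ ∀ S, D (cj p (mon p ∅ S)) = 0 := by
  have hpow : ∀ x : Tw p ℕ, x ∈ Par p ℕ 0 → D x = 0 → ∀ k, D (x ^ k) = 0 := by
    intro x hx h k
    induction k with
    | zero => rw [pow_zero, h1]
    | succ k ih =>
      rw [pow_succ]
      exact hD _ _ (pow_par hx k) hx ih h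
  have hxi : ∀ n, D (xi p n) = 0 := by
    intro n
    rcases n with _ | n
    · rw [xi_zero, h1]
    · rw [xi_succ, hv]
  have hxb : ∀ n, D (xb p n) = 0 := by
    intro n
    induction n using Nat.strong_induction_on with
    | _ n ih =>
      rcases Nat.eq_zero_or_pos n with h | h
      · rw [h, xb_zero, h1]
      · rw [xb_pos n h, map_neg, map_sum]
        rw [Finset.sum_eq_zero, neg_zero]
        intro i hi
        exact hD _ _ (pow_par (xi_par _) _) (xb_par i) (hpow _ (xi_par _) (hxi _) _)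
          (ih i (Finset.mem_range.1 hi))
  refine ⟨hxb, fun n k => hpow _ (xb_par n) (hxb n) k, fun S => ?_⟩
  have : D (cj p (mon p ∅ S)) = 0 ∧ cj p (mon p ∅ S) ∈ Par p ℕ 0 := by
    refine v_ind (P := fun S => D (cj p (mon p ∅ S)) = 0 ∧ cj p (mon p ∅ S) ∈ Par p ℕ 0) ?_ ?_ S
    · rw [mon_zero, map_one]
      exact ⟨h1, one_par⟩
    · intro i S ih
      rw [mon_succ, map_mul, cj_v]
      exact ⟨hD _ _ ih.2 (xb_par _) ih.1 (hxb _), Par_mul ih.2 (xb_par _)⟩
  exact this.1

private theorem mon_par (E : Finset ℕ) (S : ℕ →₀ ℕ) : mon p E S ∈ Par p ℕ E.card := by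
  intro F T h
  rw [co_mon] at h
  by_cases h1 : E = F ∧ S = T
  · rw [h1.1]
  · exact absurd (if_neg h1) h

private theorem RD_one (i : ℕ) : RD p i (1 : Tw p ℕ) = 0 := by
  have h1 := RD_mul (p := p) i 0 1 1 one_par
  rw [mul_one, mul_one, pow_zero, one_smul, one_mul] at h1
  have h2 : RD p i (1 : Tw p ℕ) + 0 = RD p i 1 + RD p i 1 := by rw [add_zero]; exact h1
  exact (add_left_cancel h2).symm

private theorem LD_one (i : ℕ) : LD p i (1 : Tw p ℕ) = 0 := by
  have h1 := LD_mul (p := p) i 0 1 1 one_par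
  rw [mul_one, mul_one, pow_zero, one_smul, one_mul] at h1
  have h2 : LD p i (1 : Tw p ℕ) + 0 = LD p i 1 + LD p i 1 := by rw [add_zero]; exact h1
  exact (add_left_cancel h2).symm

private theorem RD_kill (i : ℕ) : (∀ n, RD p i (xb p n) = 0) ∧
    (∀ n k, RD p i (xb p n ^ k) = 0) ∧ ∀ S, RD p i (cj p (mon p ∅ S)) = 0 := kill_xb (p := p) (RD p i) (fun x y hx _ h1 h2 => by
    rw [RD_mul i 0 x y hx, h1, h2, zero_mul, mul_zero, smul_zero, add_zero]) (RD_one i) (RD_v i)

private theorem LD_kill (i : ℕ) : (∀ n, LD p i (xb p n) = 0) ∧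
    (∀ n k, LD p i (xb p n ^ k) = 0) ∧ ∀ S, LD p i (cj p (mon p ∅ S)) = 0 := kill_xb (p := p) (LD p i) (fun x y _ hy h1 h2 => by
    rw [LD_mul i 0 x y hy, h1, h2, zero_mul, mul_zero, smul_zero, add_zero]) (LD_one i) (LD_v i)

private theorem RD_tb (i n : ℕ) : RD p i (tb p n) = if n = i then -1 else 0 := by
  unfold tb
  rw [map_neg, map_sum]
  have h1 : ∀ j ∈ Finset.range (n + 1), RD p i (xb p (n - j) ^ p ^ j * t p j) =
      if i ≤ j then xb p (n - j) ^ p ^ j * xi p (j - i) ^ p ^ i else 0 := by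
    intro j _
    rw [RD_mul i 0 _ _ (pow_par (xb_par _) _), (RD_kill i).2.1, zero_mul, zero_add, pow_zero,
      one_smul, RD_t]
    split_ifs
    · rfl
    · rw [mul_zero]
  rw [Finset.sum_congr rfl h1, ← Finset.sum_filter]
  by_cases hin : i ≤ n
  · have h2 : (Finset.range (n + 1)).filter (fun j => i ≤ j) = Finset.Icc i n := by
      ext j
      simp only [Finset.mem_filter, Finset.mem_range, Finset.mem_Icc]
      omega
    rw [h2, inv_left n i hin]
    split_ifs
    · rfl
    · rw [neg_zero]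
  · have h2 : (Finset.range (n + 1)).filter (fun j => i ≤ j) = ∅ := by
      ext j
      simp only [Finset.mem_filter, Finset.mem_range, Finset.notMem_empty, iff_false]
      omega
    rw [h2, Finset.sum_empty, neg_zero, if_neg (by omega)]

private theorem LD_tb (i n : ℕ) : LD p i (tb p n) = if i ≤ n then -(xb p (n - i) ^ p ^ i) else 0 := by
  unfold tb
  rw [map_neg, map_sum]
  have h1 : ∀ j ∈ Finset.range (n + 1), LD p i (xb p (n - j) ^ p ^ j * t p j) =
      if j = i then xb p (n - i) ^ p ^ i else 0 := by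
    intro j _
    rw [LD_mul i 1 _ _ (t_mem_Par _), (LD_kill i).2.1, zero_mul, smul_zero, add_zero, LD_t]
    split_ifs with h
    · rw [mul_one, h]
    · rw [mul_zero]
  rw [Finset.sum_congr rfl h1, Finset.sum_ite_eq']
  by_cases hin : i ≤ n
  · rw [if_pos (Finset.mem_range.2 (by omega)), if_pos hin]
  · rw [if_neg (by rw [Finset.mem_range]; omega), if_neg hin, neg_zero]

private theorem cj_insert (E : Finset ℕ) (S : ℕ →₀ ℕ) (a : ℕ) (h : ∀ e ∈ E, e < a) :
    cj p (mon p (insert a E) S) = cj p (mon p E S) * tb p a := by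
  rw [← mon_mul_t E S a h, map_mul, cj_t]

private theorem RD_e (i : ℕ) (E : Finset ℕ) : RD p i (cj p (mon p E 0)) =
    if i ∈ E then -((-1 : ℤ) ^ (E.filter (· < i)).card • cj p (mon p (E.erase i) 0)) else 0 := by
  induction E using Finset.induction_on_max with
  | empty =>
    rw [mon_zero, map_one, RD_one, if_neg (Finset.notMem_empty i)]
  | insert a E ha ih =>
    have haE : a ∉ E := fun h => lt_irrefl _ (ha a h)
    rw [cj_insert E 0 a ha, RD_mul i E.card _ _ (cj_par (mon_par E 0)), ih, RD_tb]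
    by_cases hia : a = i
    · subst hia
      rw [if_neg haE, zero_mul, zero_add, if_pos rfl, if_pos (Finset.mem_insert_self a E),
        Finset.erase_insert haE, mul_neg, mul_one, smul_neg]
      have h1 : (insert a E).filter (· < a) = E := by
        ext e
        simp only [Finset.mem_filter, Finset.mem_insert]
        constructor
        · rintro ⟨h1 | h1, h2⟩
          · omega
          · exact h1
        · intro h1
          exact ⟨Or.inr h1, ha e h1⟩
      rw [h1]
    · rw [if_neg hia, mul_zero, smul_zero, add_zero]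
      by_cases hiE : i ∈ E
      · rw [if_pos hiE, if_pos (Finset.mem_insert_of_mem hiE), neg_mul, smul_mul_assoc,
          Finset.erase_insert_of_ne hia, cj_insert (E.erase i) 0 a
            (fun e he => ha e (Finset.mem_of_mem_erase he))]
        have h1 : (insert a E).filter (· < i) = E.filter (· < i) := by
          rw [Finset.filter_insert, if_neg (not_lt.2 (ha i hiE).le)]
        rw [h1]
      · rw [if_neg hiE, zero_mul, if_neg]
        rw [Finset.mem_insert]
        rintro (h | h)
        · exact hia h.symm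
        · exact hiE h

private theorem LD_e (i : ℕ) (E : Finset ℕ) : LD p i (cj p (mon p E 0)) =
    -∑ k ∈ E.filter (fun k => i ≤ k), (-1 : ℤ) ^ (E.filter (fun e => k < e)).card •
      (xb p (k - i) ^ p ^ i * cj p (mon p (E.erase k) 0)) := by
  induction E using Finset.induction_on_max with
  | empty =>
    rw [mon_zero, map_one, LD_one, Finset.filter_empty, Finset.sum_empty, neg_zero]
  | insert a E ha ih =>
    have haE : a ∉ E := fun h => lt_irrefl _ (ha a h)
    rw [cj_insert E 0 a ha, LD_mul i 1 _ _ (tb_par a), ih, LD_tb]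
    have h1 : ∀ k ∈ E.filter (fun k => i ≤ k),
        (-1 : ℤ) ^ ((insert a E).filter (fun e => k < e)).card •
          (xb p (k - i) ^ p ^ i * cj p (mon p ((insert a E).erase k) 0)) =
        -((-1 : ℤ) ^ (E.filter (fun e => k < e)).card •
          (xb p (k - i) ^ p ^ i * cj p (mon p (E.erase k) 0)) * tb p a) := by
      intro k hk
      have hkE := (Finset.mem_filter.1 hk).1
      have hka := ha k hkE
      rw [Finset.erase_insert_of_ne (by omega), cj_insert (E.erase k) 0 a
        (fun e he => ha e (Finset.mem_of_mem_erase he)), Finset.filter_insert, if_pos hka,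
        Finset.card_insert_of_notMem (fun h => haE (Finset.mem_filter.1 h).1), pow_succ, mul_neg,
        mul_one, neg_smul, smul_mul_assoc, mul_assoc]
    by_cases hia : i ≤ a
    · rw [if_pos hia, Finset.filter_insert (fun k => i ≤ k), if_pos hia,
        Finset.sum_insert (fun h => haE (Finset.mem_filter.1 h).1), Finset.sum_congr rfl h1,
        Finset.erase_insert haE]
      have h2 : (insert a E).filter (fun e => a < e) = ∅ := by
        ext e
        simp only [Finset.mem_filter, Finset.mem_insert, Finset.notMem_empty, iff_false]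
        rintro ⟨h3 | h3, h4⟩
        · omega
        · have := ha e h3
          omega
      rw [h2, Finset.card_empty, pow_zero, one_smul, Finset.sum_neg_distrib, ← Finset.sum_mul,
        pow_one, neg_one_smul, mul_neg, neg_mul, neg_neg,
        cen_comm (pow_mem (xb_cen (p := p) (a - i)) (p ^ i)), neg_add, neg_neg]
    · rw [if_neg hia, Finset.filter_insert (fun k => i ≤ k), if_neg hia, Finset.sum_congr rfl h1,
        mul_zero, zero_add, Finset.sum_neg_distrib, ← Finset.sum_mul, pow_one, neg_one_smul,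
        neg_mul]

private theorem cj_split (E : Finset ℕ) (S : ℕ →₀ ℕ) :
    cj p (mon p E S) = cj p (mon p ∅ S) * cj p (mon p E 0) := by
  rw [← map_mul, mon_empty_mul_mon, zero_add]

private theorem cjS_cen (S : ℕ →₀ ℕ) : cj p (mon p ∅ S) ∈ Subring.center (Tw p ℕ) := by
  refine v_ind (P := fun S => cj p (mon p ∅ S) ∈ Subring.center (Tw p ℕ)) ?_ ?_ S
  · rw [mon_zero, map_one]
    exact one_mem _
  · intro i S ih
    rw [mon_succ, map_mul, cj_v]
    exact mul_mem ih (xb_cen _)

private theorem RD_cj_mon (i : ℕ) (E : Finset ℕ) (R : ℕ →₀ ℕ) : RD p i (cj p (mon p E R)) =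
    if i ∈ E then -((-1 : ℤ) ^ (E.filter (· < i)).card • cj p (mon p (E.erase i) R)) else 0 := by
  rw [cj_split, RD_mul i 0 _ _ (cj_par (mon_par ∅ R)), (RD_kill i).2.2, zero_mul, zero_add,
    pow_zero, one_smul, RD_e]
  split_ifs
  · rw [mul_neg, mul_smul_comm, ← cj_split]
  · rw [mul_zero]

theorem RD_cj (i : ℕ) (z : Mil p) : RD p i (cj p (toTw p z)) = cj p (toTw p (Mil.Rop p i z)) := by
  have h : (RD p i).comp ((cj p).toAddMonoidHom) =
      (cj p).toAddMonoidHom.comp ((toTw p).toAddMonoidHom.comp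
        ((Mil.Rop p i).toAddMonoidHom.comp (toTw p).symm.toAddMonoidHom)) := by
    apply addHom_ext
    intro c E S
    show RD p i (cj p (c • mon p E S)) = cj p (toTw p (Mil.Rop p i ((toTw p).symm (c • mon p E S))))
    rw [hom_smul, addHom_smul, RD_cj_mon]
    have h1 : (toTw p).symm (c • mon p E S) = c • Mil.mon p S E := rfl
    have h2 : Mil.Rop p i (Mil.mon p S E) =
        if i ∈ E then -((-1 : ℤ) ^ (E.filter (· < i)).card • Mil.mon p S (E.erase i)) else 0 := by
      unfold Mil.Rop Mil.contr Mil.mon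
      rw [LinearMap.neg_apply, Finsupp.lsum_single]
      split_ifs
      · rfl
      · rw [LinearMap.zero_apply, neg_zero]
    have h3 : Mil.Rop p i (c • Mil.mon p S E) = c • Mil.Rop p i (Mil.mon p S E) := by
      have e1 : ∀ y : Mil p, c • y = (MvPolynomial.C c : MvPolynomial ℕ (ZMod p)) • y := by
        intro y
        ext1 F
        rw [Finsupp.smul_apply, Finsupp.smul_apply, smul_eq_mul, MvPolynomial.smul_eq_C_mul]
      rw [e1, e1, map_smul]
    rw [h1, h3, h2]
    have h4 : ∀ y : Mil p, toTw p (c • y) = c • toTw p y := fun _ => rfl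
    rw [h4, hom_smul]
    congr 1
    split_ifs
    · rw [map_neg, map_neg, map_zsmul, map_zsmul, toTw_mon]
    · rw [map_zero, map_zero]
  have h5 := DFunLike.congr_fun h (toTw p z)
  have h6 : (toTw p).symm (toTw p z) = z := AddEquiv.symm_apply_apply _ _
  calc RD p i (cj p (toTw p z)) = cj p (toTw p (Mil.Rop p i ((toTw p).symm (toTw p z)))) := h5
    _ = _ := by rw [h6]

private theorem toTw_xi (k m : ℕ) (y : Mil p) :
    toTw p ((Mil.xi p k ^ m) • y) = xi p k ^ m * toTw p y := by
  have h0 : ∀ (q : MvPolynomial ℕ (ZMod p)) (y : Mil p), toTw p (q • y) = sg ∅ q * toTw p y := by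
    intro q y
    induction y using Finsupp.induction_linear with
    | zero => rw [smul_zero, map_zero, mul_zero]
    | add a b ha hb => rw [smul_add, map_add, map_add, mul_add, ha, hb]
    | single E a =>
      rw [Finsupp.smul_single, toTw_single, toTw_single, sg_mul_sg, smul_eq_mul]
      have h1 : sf p (∅ : Finset ℕ) E = 1 := by
        unfold sf inv
        simp
      rw [h1, one_mul]
      congr 1
      exact (bot_symmDiff E).symm
  have h1 : ∀ q : MvPolynomial ℕ (ZMod p), ∀ m : ℕ, (sg ∅ (q ^ m) : Tw p ℕ) = sg ∅ q ^ m := by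
    intro q m
    induction m with
    | zero => rw [pow_zero, pow_zero]; rfl
    | succ m ih =>
      rw [pow_succ, pow_succ, ← ih, sg_mul_sg]
      have h1 : sf p (∅ : Finset ℕ) ∅ = 1 := by
        unfold sf inv
        simp
      rw [h1, one_mul]
      congr 1
  rw [h0, h1]
  congr 2
  unfold Mil.xi xi
  split_ifs
  · rfl
  · rfl

theorem LD_cj (i : ℕ) (c : ZMod p) (R : ℕ →₀ ℕ) (E : Finset ℕ) :
    LD p i (cj p (toTw p (c • Mil.mon p R E))) =
      (-1 : ℤ) ^ (E.card + 1) • cj p (toTw p (Mil.Lop p i (c • Mil.mon p R E))) := by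
  have h4 : ∀ y : Mil p, toTw p (c • y) = c • toTw p y := fun _ => rfl
  have h3 : Mil.Lop p i (c • Mil.mon p R E) = c • Mil.Lop p i (Mil.mon p R E) := by
    have e1 : ∀ y : Mil p, c • y = (MvPolynomial.C c : MvPolynomial ℕ (ZMod p)) • y := by
      intro y
      ext1 F
      rw [Finsupp.smul_apply, Finsupp.smul_apply, smul_eq_mul, MvPolynomial.smul_eq_C_mul]
    rw [e1, e1, map_smul]
  have h2 : Mil.Lop p i (Mil.mon p R E) =
      -∑ k ∈ E.filter (fun k => i ≤ k), (Mil.xi p (k - i) ^ p ^ i) •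
        ((-1 : ℤ) ^ (E.filter (· < k)).card • Mil.mon p R (E.erase k)) := by
    unfold Mil.Lop Mil.mon
    rw [Finsupp.lsum_single, LinearMap.neg_apply, LinearMap.sum_apply]
    rfl
  rw [h3, h4, h4, hom_smul, hom_smul, addHom_smul, toTw_mon, h2, cj_split,
    LD_mul i E.card _ _ (cj_par (mon_par E 0)), (LD_kill i).2.2, zero_mul, smul_zero, add_zero,
    LD_e, smul_comm ((-1 : ℤ) ^ (E.card + 1)) c]
  congr 1
  rw [map_neg, map_neg, smul_neg, mul_neg, map_sum, map_sum, Finset.mul_sum, Finset.smul_sum]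
  congr 1
  refine Finset.sum_congr rfl fun k hk => ?_
  have hkE := (Finset.mem_filter.1 hk).1
  rw [toTw_xi, map_mul, map_pow, cj_xi, map_zsmul, map_zsmul, toTw_mon, mul_smul_comm, mul_smul_comm,
    ze, cj_split (E.erase k) R, ← mul_assoc, ← mul_assoc,
    cen_comm (cjS_cen (p := p) R) (xb p (k - i) ^ p ^ i)]
  congr 1
  have h5 : E.card = (E.filter (· < k)).card + (E.filter (fun e => k < e)).card + 1 := by
    have h6 : E = insert k ((E.filter (· < k)) ∪ (E.filter (fun e => k < e))) := by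
      ext e
      simp only [Finset.mem_insert, Finset.mem_union, Finset.mem_filter]
      constructor
      · intro he
        rcases lt_trichotomy e k with h | h | h
        · exact Or.inr (Or.inl ⟨he, h⟩)
        · exact Or.inl h
        · exact Or.inr (Or.inr ⟨he, h⟩)
      · rintro (h | ⟨h, _⟩ | ⟨h, _⟩)
        · rw [h]; exact hkE
        · exact h
        · exact h
    conv_lhs => rw [h6]
    rw [Finset.card_insert_of_notMem, Finset.card_union_of_disjoint]
    · rw [Finset.disjoint_left]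
      intro e h7 h8
      have := (Finset.mem_filter.1 h7).2
      have := (Finset.mem_filter.1 h8).2
      omega
    · rw [Finset.mem_union, Finset.mem_filter, Finset.mem_filter]
      rintro (⟨_, h⟩ | ⟨_, h⟩) <;> exact lt_irrefl _ h
  rw [h5, show (E.filter (· < k)).card + (E.filter (fun e => k < e)).card + 1 + 1 +
    (E.filter (· < k)).card = 2 * ((E.filter (· < k)).card + 1) +
      (E.filter (fun e => k < e)).card by ring, pow_add, pow_mul]
  norm_num

end Tw

end BPN.E
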