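import Pool.Agent.BPN.E.TTh

/-!
# Part (E), module Copr: the coproduct of the Milnor algebra and composition (project BPN, helper30)

`psiM : M → M_b ⊗ M_a = Tw p (ℕ ⊕ₗ ℕ)` (`inl` = `b`, `inr` = `a`), `ξ_0 = 1`:
`ψ(τ_n) = τ_n^a + ∑_{k ≤ n} τ_k^b (ξ_{n-k}^a)^(p^k)`, `ψ(ξ_n) = ∑_{k ≤ n} ξ_k^b (ξ_{n-k}^a)^(p^k)`.

THEOREM `Jf_comp`: `Jf (α ∘ β) = Jf α ∘ JH (Jf β) ∘ ψ`.

PROOF.  `psiM` is well defined: `ψ(τ_n)^2 = q ψ(ξ_{n+1})` (for `p = 2`: `(τ_k^b)^2 = ξ_{k+1}^b`, `2 * 2^k = 2^(k+1)`; the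
cross terms cancel by parity).
`comp_JH`: triple ring `T3 = Tw p (ℕ ⊕ₗ (ℕ ⊕ₗ ℕ))` (`b`, `a`, `x`).  Let `lam2 : Tw p (ℕ ⊕ₗ ℕ) → T3` be the
homomorphism which is the inclusion on the generators `inl k` and `ιr ∘ lam K` on the generators `inr i`, and
`psi2 : Tw p (ℕ ⊕ₗ ℕ) → T3` the one which is `ψ` (included by `inl ↦ inl`, `inr ↦ inr (inl _)`) on the generators `inl k`
and the inclusion of `x_i`, `y_i` on the generators `inr i`.  On products `ιl x * ιr y` one checks (`lex_ext`)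
`lam K (JH J w) = JH J (lam2 w)` and `JH (Ja ∘ JH Jb ∘ ψ) w = JH Ja (JH Jb (psi2 w))`.
Let `κ : T3 → T3` kill all generators `inl k`, `inr (inl k)` with `k ≥ K`.  `JH Ja ∘ JH Jb ∘ κ = JH Ja ∘ JH Jb` because
`Ja`, `Jb` are `Sml K`.  `κ ∘ lam2 ∘ lam K = κ ∘ psi2 ∘ lam (2K)`: ring homomorphisms, compare on the generators:
`x_i ↦ x_i + ∑_{n<K} τ^a_n y^(p^n) + ∑_{k<K, j≤K} τ^b_k (ξ^a_j)^(p^k) y^(p^(k+j))`,
`y_i ↦ ∑_{k,j≤K} ξ^b_k (ξ^a_j)^(p^k) y^(p^(k+j))` on both sides (`(∑_j ξ_j y^(p^j))^(p^k) = ∑_j ξ_j^(p^k) y^(p^(j+k))`; on the right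
`k + j ≤ 2K - 1` resp. `≤ 2K`).
`Jf_comp`: for a monomial `mon E R` choose `K` larger than `k`, `l` and all indices; `T_thm` for `α`, `β`; then
`α (β u) = JH (Jf α) (lam K (JH (Jf β) (lam K u))) = JH (..) (lam (2K) u)`, and `Jc_JH'`.
-/

namespace BPN.E

namespace Tw

/-- `ξ_j` in the left factor. -/
noncomputable def xl (p j : ℕ) : Tw p (ℕ ⊕ₗ ℕ) :=
  if j = 0 then 1 else v p (toLex (Sum.inl (j - 1)))

/-- `ξ_j` in the right factor. -/
noncomputable def xr (p j : ℕ) : Tw p (ℕ ⊕ₗ ℕ) :=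
  if j = 0 then 1 else v p (toLex (Sum.inr (j - 1)))

/-! ### auxiliary facts -/

section gen

variable {p : ℕ} {I J L : Type} [LinearOrder I] [LinearOrder J] [LinearOrder L]

private theorem v_cen (i : I) : v p i ∈ Subring.center (Tw p I) :=
  Subring.mem_center_iff.2 fun g => (v_comm i g).symm

private theorem one_par : (1 : Tw p I) ∈ Par p I 0 := by
  intro E S h
  rw [← mon_zero, co_mon] at h
  by_cases h1 : ∅ = E ∧ 0 = S
  · rw [← h1.1]
    rfl
  · exact absurd (if_neg h1) h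

private theorem pow_par {x : Tw p I} (hx : x ∈ Par p I 0) (n : ℕ) : x ^ n ∈ Par p I 0 := by
  induction n with
  | zero =>
    rw [pow_zero]
    exact one_par
  | succ n ih =>
    rw [pow_succ]
    exact Par_mul ih hx

private theorem cen_pow_add {x y : Tw p I} (hp : p.Prime) (hx : x ∈ Subring.center (Tw p I))
    (k : ℕ) : (x + y) ^ p ^ k = x ^ p ^ k + y ^ p ^ k := by
  have hc : Commute x y := (Subring.mem_center_iff.1 hx y).symm
  obtain ⟨r, hr⟩ := hc.exists_add_pow_prime_pow_eq hp k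
  rw [hr, natCast_p]
  simp

private theorem cen_pow_sum {ι : Type} (hp : p.Prime) (s : Finset ι) (a : ι → Tw p I)
    (ha : ∀ i, a i ∈ Subring.center (Tw p I)) (k : ℕ) :
    (∑ i ∈ s, a i) ^ p ^ k = ∑ i ∈ s, a i ^ p ^ k := by
  classical
  induction s using Finset.induction_on with
  | empty =>
    rw [Finset.sum_empty, Finset.sum_empty, zero_pow (pow_ne_zero k hp.ne_zero)]
  | insert i s hi ih =>
    rw [Finset.sum_insert hi, Finset.sum_insert hi, cen_pow_add hp (ha i), ih]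

private theorem sum_sq_anti {ι R : Type} [Ring R] (s : Finset ι) (a : ι → R)
    (h : ∀ i ∈ s, ∀ j ∈ s, i ≠ j → a i * a j = -(a j * a i)) :
    (∑ i ∈ s, a i) * ∑ i ∈ s, a i = ∑ i ∈ s, a i * a i := by
  classical
  induction s using Finset.induction_on with
  | empty => simp
  | insert i s hi ih =>
    have h1 : a i * ∑ j ∈ s, a j = -((∑ j ∈ s, a j) * a i) := by
      rw [Finset.mul_sum, Finset.sum_mul, ← Finset.sum_neg_distrib]
      refine Finset.sum_congr rfl fun j hj => ?_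
      refine h i (Finset.mem_insert_self i s) j (Finset.mem_insert_of_mem hj) ?_
      rintro rfl
      exact hi hj
    have h2 := ih fun i hi j hj hij =>
      h i (Finset.mem_insert_of_mem hi) j (Finset.mem_insert_of_mem hj) hij
    rw [Finset.sum_insert hi, Finset.sum_insert hi, add_mul, mul_add, mul_add, h2, h1]
    abel

end gen

section psi

variable (p : ℕ)

private theorem xl_par (j : ℕ) : xl p j ∈ Par p (ℕ ⊕ₗ ℕ) 0 := by
  unfold xl
  split_ifs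
  · exact one_par
  · exact v_mem_Par _

private theorem xr_par (j : ℕ) : xr p j ∈ Par p (ℕ ⊕ₗ ℕ) 0 := by
  unfold xr
  split_ifs
  · exact one_par
  · exact v_mem_Par _

private theorem xr_cen (j : ℕ) : xr p j ∈ Subring.center (Tw p (ℕ ⊕ₗ ℕ)) := by
  unfold xr
  split_ifs
  · exact one_mem _
  · exact v_cen _

private theorem psi_par1 (n : ℕ) : t p (toLex (Sum.inr n)) + ∑ k ∈ Finset.range (n + 1),
    t p (toLex (Sum.inl k)) * xr p (n - k) ^ p ^ k ∈ Par p (ℕ ⊕ₗ ℕ) 1 :=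
  add_mem (t_mem_Par _) (sum_mem fun _ _ => Par_mul (t_mem_Par _) (pow_par (xr_par p _) _))

private theorem psi_par0 (n : ℕ) : ∑ k ∈ Finset.range (n + 2), xl p k * xr p (n + 1 - k) ^ p ^ k ∈
    Par p (ℕ ⊕ₗ ℕ) 0 :=
  sum_mem fun _ _ => Par_mul (xl_par p _) (pow_par (xr_par p _) _)

private theorem t_anti_cen {I : Type} [LinearOrder I] (i j : I) {x y : Tw p I}
    (hx : x ∈ Subring.center (Tw p I)) (hy : y ∈ Subring.center (Tw p I)) :
    (t p i * x) * (t p j * y) = -((t p j * y) * (t p i * x)) := by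
  have h1 : x * (t p j * y) = (t p j * y) * x := (Subring.mem_center_iff.1 hx _).symm
  have h2 : y * (t p i * x) = (t p i * x) * y := (Subring.mem_center_iff.1 hy _).symm
  have h3 : x * y = y * x := (Subring.mem_center_iff.1 hx _).symm
  rw [mul_assoc, h1, mul_assoc (t p j) y (t p i * x), h2, ← mul_assoc, ← mul_assoc, t_anti i j,
    mul_assoc (t p i) x y, ← mul_assoc (t p j) (t p i) (x * y), h3, neg_mul, neg_mul,
    mul_assoc (t p j * t p i) y x]

private theorem psi_sq (n : ℕ) : (t p (toLex (Sum.inr n)) + ∑ k ∈ Finset.range (n + 1),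
    t p (toLex (Sum.inl k)) * xr p (n - k) ^ p ^ k) * (t p (toLex (Sum.inr n)) +
    ∑ k ∈ Finset.range (n + 1), t p (toLex (Sum.inl k)) * xr p (n - k) ^ p ^ k) =
    qq p • ∑ k ∈ Finset.range (n + 2), xl p k * xr p (n + 1 - k) ^ p ^ k := by
  have hc : ∀ k, xr p (n - k) ^ p ^ k ∈ Subring.center (Tw p (ℕ ⊕ₗ ℕ)) := fun k =>
    pow_mem (xr_cen p _) _
  have h1 : t p (toLex (Sum.inr n)) * ∑ k ∈ Finset.range (n + 1),
      t p (toLex (Sum.inl k)) * xr p (n - k) ^ p ^ k = -((∑ k ∈ Finset.range (n + 1),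
      t p (toLex (Sum.inl k)) * xr p (n - k) ^ p ^ k) * t p (toLex (Sum.inr n))) := by
    rw [Finset.mul_sum, Finset.sum_mul, ← Finset.sum_neg_distrib]
    refine Finset.sum_congr rfl fun k _ => ?_
    have h2 := t_anti_cen p (toLex (Sum.inr n) : ℕ ⊕ₗ ℕ) (toLex (Sum.inl k)) (one_mem _) (hc k)
    rw [mul_one] at h2
    exact h2
  have h3 := sum_sq_anti (Finset.range (n + 1)) (fun k => t p (toLex (Sum.inl k) : ℕ ⊕ₗ ℕ) *
    xr p (n - k) ^ p ^ k) (fun i _ j _ _ => t_anti_cen p _ _ (hc i) (hc j))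
  have h4 : ∀ k ∈ Finset.range (n + 1), (t p (toLex (Sum.inl k) : ℕ ⊕ₗ ℕ) *
      xr p (n - k) ^ p ^ k) * (t p (toLex (Sum.inl k)) * xr p (n - k) ^ p ^ k) =
      qq p • (xl p (k + 1) * xr p (n + 1 - (k + 1)) ^ p ^ (k + 1)) := by
    intro k _
    have h5 : xr p (n - k) ^ p ^ k * (t p (toLex (Sum.inl k)) * xr p (n - k) ^ p ^ k) =
        (t p (toLex (Sum.inl k)) * xr p (n - k) ^ p ^ k) * xr p (n - k) ^ p ^ k :=
      (Subring.mem_center_iff.1 (hc k) _).symm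
    have h6 : xl p (k + 1) = v p (toLex (Sum.inl k)) := by
      unfold xl
      rw [if_neg (Nat.succ_ne_zero k), Nat.add_sub_cancel]
    have h7 : n + 1 - (k + 1) = n - k := by omega
    rw [mul_assoc, h5, mul_assoc (t p (toLex (Sum.inl k))), ← mul_assoc, t_sq, ← pow_add, h6, h7,
      smul_mul]
    by_cases hp : p = 2
    · subst hp
      rw [pow_succ, mul_two]
    · unfold qq
      rw [if_neg hp, zero_smul, zero_smul]
  have h8 : xl p 0 * xr p (n + 1 - 0) ^ p ^ 0 = v p (toLex (Sum.inr n)) := by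
    unfold xl xr
    rw [if_pos rfl, Nat.sub_zero, if_neg (Nat.succ_ne_zero n), Nat.add_sub_cancel, pow_zero,
      pow_one, one_mul]
  rw [add_mul, mul_add, mul_add, h1, h3, t_sq, Finset.sum_congr rfl h4,
    Finset.sum_range_succ' (fun k => xl p k * xr p (n + 1 - k) ^ p ^ k) (n + 1), h8, smul_add,
    Finset.smul_sum]
  abel

end psi

/-! ### sums of homomorphisms -/

section sm

variable {p : ℕ} {I J L : Type} [LinearOrder I] [LinearOrder J] [LinearOrder L]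

private theorem sm_sq (f : Tw p I →+* Tw p L) (i : I) :
    f (t p i) * f (t p i) = qq p • f (v p i) := by
  rw [← map_mul, t_sq, hom_smul]

/-- Parity preserving homomorphisms. -/
private def EvH (f : Tw p I →+* Tw p L) : Prop := ∀ n x, x ∈ Par p I n → f x ∈ Par p L n

/-- The homomorphism on `Tw p (I ⊕ₗ J)` with given restrictions. -/
private noncomputable def sm (f : Tw p I →+* Tw p L) (g : Tw p J →+* Tw p L) (hf : EvH f)
    (hg : EvH g) : Tw p (I ⊕ₗ J) →+* Tw p L :=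
  lft (fun z => Sum.elim (fun i => f (t p i)) (fun j => g (t p j)) (ofLex z))
    (fun z => Sum.elim (fun i => f (v p i)) (fun j => g (v p j)) (ofLex z))
    (fun z => by
      obtain i | j := z
      · exact hf 1 _ (t_mem_Par i)
      · exact hg 1 _ (t_mem_Par j))
    (fun z => by
      obtain i | j := z
      · exact hf 0 _ (v_mem_Par i)
      · exact hg 0 _ (v_mem_Par j))
    (fun z => by
      obtain i | j := z
      · exact sm_sq f i
      · exact sm_sq g j)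

variable {f : Tw p I →+* Tw p L} {g : Tw p J →+* Tw p L} {hf : EvH f} {hg : EvH g}

private theorem sm_tl (i : I) : sm f g hf hg (t p (toLex (Sum.inl i))) = f (t p i) :=
  lft_t (toLex (Sum.inl i))

private theorem sm_tr (j : J) : sm f g hf hg (t p (toLex (Sum.inr j))) = g (t p j) :=
  lft_t (toLex (Sum.inr j))

private theorem sm_vl (i : I) : sm f g hf hg (v p (toLex (Sum.inl i))) = f (v p i) :=
  lft_v (toLex (Sum.inl i))

private theorem sm_vr (j : J) : sm f g hf hg (v p (toLex (Sum.inr j))) = g (v p j) :=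
  lft_v (toLex (Sum.inr j))

private theorem sm_l (x : Tw p I) : sm f g hf hg (ιl p I J x) = f x := by
  have h : (sm f g hf hg).comp (ιl p I J) = f := by
    refine hom_ext (fun i => ?_) fun i => ?_
    · change sm f g hf hg (map p _ (t p i)) = _
      rw [map_t, sm_tl]
    · change sm f g hf hg (map p _ (v p i)) = _
      rw [map_v, sm_vl]
  exact DFunLike.congr_fun h x

private theorem sm_r (x : Tw p J) : sm f g hf hg (ιr p I J x) = g x := by
  have h : (sm f g hf hg).comp (ιr p I J) = g := by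
    refine hom_ext (fun i => ?_) fun i => ?_
    · change sm f g hf hg (map p _ (t p i)) = _
      rw [map_t, sm_tr]
    · change sm f g hf hg (map p _ (v p i)) = _
      rw [map_v, sm_vr]
  exact DFunLike.congr_fun h x

private theorem ev_of (f : Tw p I →+* Tw p L) (h1 : ∀ i, f (t p i) ∈ Par p L 1)
    (h2 : ∀ i, f (v p i) ∈ Par p L 0) : EvH f := by
  have h : f = lft (fun i => f (t p i)) (fun i => f (v p i)) h1 h2 (sm_sq f) :=
    hom_ext (fun i => (lft_t (hs := h1) (hw := h2) (hq := sm_sq f) i).symm)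
      fun i => (lft_v (hs := h1) (hw := h2) (hq := sm_sq f) i).symm
  intro n x hx
  have h3 := lft_par (hs := h1) (hw := h2) (hq := sm_sq f) hx
  rwa [← h] at h3

private theorem ev_ιl : EvH (ιl p I J) := by
  refine ev_of _ (fun i => ?_) fun i => ?_
  · have h : ιl p I J (t p i) = t p (toLex (Sum.inl i)) := map_t _ i
    rw [h]
    exact t_mem_Par _
  · have h : ιl p I J (v p i) = v p (toLex (Sum.inl i)) := map_v _ i
    rw [h]
    exact v_mem_Par _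

private theorem ev_ιr : EvH (ιr p I J) := by
  refine ev_of _ (fun i => ?_) fun i => ?_
  · have h : ιr p I J (t p i) = t p (toLex (Sum.inr i)) := map_t _ i
    rw [h]
    exact t_mem_Par _
  · have h : ιr p I J (v p i) = v p (toLex (Sum.inr i)) := map_v _ i
    rw [h]
    exact v_mem_Par _

private theorem EvH.comp {f : Tw p I →+* Tw p J} {g : Tw p J →+* Tw p L} (hg : EvH g)
    (hf : EvH f) : EvH (g.comp f) := fun n x hx => hg n _ (hf n x hx)

private theorem ev_sm {f : Tw p I →+* Tw p L} {g : Tw p J →+* Tw p L} (hf : EvH f) (hg : EvH g) :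
    EvH (sm f g hf hg) := by
  refine ev_of _ (fun z => ?_) fun z => ?_
  · obtain i | j := z
    · exact (sm_tl (f := f) (g := g) (hf := hf) (hg := hg) i).symm ▸ hf 1 _ (t_mem_Par i)
    · exact (sm_tr (f := f) (g := g) (hf := hf) (hg := hg) j).symm ▸ hg 1 _ (t_mem_Par j)
  · obtain i | j := z
    · exact (sm_vl (f := f) (g := g) (hf := hf) (hg := hg) i).symm ▸ hf 0 _ (v_mem_Par i)
    · exact (sm_vr (f := f) (g := g) (hf := hf) (hg := hg) j).symm ▸ hg 0 _ (v_mem_Par j)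

private theorem ev_kil (D : Set I) : EvH (kil p D) := by
  classical
  refine ev_of _ (fun i => ?_) fun i => ?_
  · rw [kil_t]
    split_ifs
    · exact zero_mem _
    · exact t_mem_Par _
  · rw [kil_v]
    split_ifs
    · exact zero_mem _
    · exact v_mem_Par _

end sm

section triple

variable {p : ℕ}

/-- The first and the second factor in the triple ring. -/
private noncomputable def inc3 (p : ℕ) : Tw p (ℕ ⊕ₗ ℕ) →+* Tw p (ℕ ⊕ₗ (ℕ ⊕ₗ ℕ)) :=
  sm (ιl p ℕ (ℕ ⊕ₗ ℕ)) ((ιr p ℕ (ℕ ⊕ₗ ℕ)).comp (ιl p ℕ ℕ)) ev_ιl (ev_ιr.comp ev_ιl)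

private theorem ev_inc3 : EvH (inc3 p) := ev_sm _ _

private noncomputable def kp1 (p K : ℕ) : Tw p ℕ →+* Tw p ℕ := kil p {k | K ≤ k}

private noncomputable def kp2 (p K : ℕ) : Tw p (ℕ ⊕ₗ ℕ) →+* Tw p (ℕ ⊕ₗ ℕ) :=
  sm ((ιl p ℕ ℕ).comp (kp1 p K)) (ιr p ℕ ℕ) (ev_ιl.comp (ev_kil _)) ev_ιr

private noncomputable def kp3 (p K : ℕ) :
    Tw p (ℕ ⊕ₗ (ℕ ⊕ₗ ℕ)) →+* Tw p (ℕ ⊕ₗ (ℕ ⊕ₗ ℕ)) :=
  sm ((ιl p ℕ (ℕ ⊕ₗ ℕ)).comp (kp1 p K)) ((ιr p ℕ (ℕ ⊕ₗ ℕ)).comp (kp2 p K))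
    (ev_ιl.comp (ev_kil _)) (ev_ιr.comp (ev_sm _ _))

private theorem JH_inc3 (Jb : Tw p ℕ →+ ZMod p) (w : Tw p (ℕ ⊕ₗ ℕ)) :
    JH Jb (inc3 p w) = ιl p ℕ ℕ (JH Jb w) := by
  have h1 : (JH Jb).comp (inc3 p).toAddMonoidHom = (ιl p ℕ ℕ).toAddMonoidHom.comp (JH Jb) := by
    refine lex_ext fun x y => ?_
    change JH Jb (inc3 p (ιl p ℕ ℕ x * ιr p ℕ ℕ y)) = ιl p ℕ ℕ (JH Jb (ιl p ℕ ℕ x * ιr p ℕ ℕ y))
    have e1 : inc3 p (ιl p ℕ ℕ x) = ιl p ℕ (ℕ ⊕ₗ ℕ) x := sm_l x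
    have e2 : inc3 p (ιr p ℕ ℕ y) = ιr p ℕ (ℕ ⊕ₗ ℕ) (ιl p ℕ ℕ y) := sm_r y
    rw [map_mul, e1, e2, JH_mul, JH_mul, hom_smul]
  exact DFunLike.congr_fun h1 w

end triple


variable (p : ℕ) [Fact p.Prime]

/-- The coproduct. -/
noncomputable def psiM : Tw p ℕ →+* Tw p (ℕ ⊕ₗ ℕ) :=
  lft (fun n => t p (toLex (Sum.inr n)) + ∑ k ∈ Finset.range (n + 1),
      t p (toLex (Sum.inl k)) * xr p (n - k) ^ p ^ k)
    (fun n => ∑ k ∈ Finset.range (n + 2), xl p k * xr p (n + 1 - k) ^ p ^ k)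
    (psi_par1 p) (psi_par0 p) (psi_sq p)

theorem psiM_t (n : ℕ) : psiM p (t p n) = t p (toLex (Sum.inr n)) + ∑ k ∈ Finset.range (n + 1),
      t p (toLex (Sum.inl k)) * xr p (n - k) ^ p ^ k := lft_t n

theorem psiM_v (n : ℕ) : psiM p (v p n) =
    ∑ k ∈ Finset.range (n + 2), xl p k * xr p (n + 1 - k) ^ p ^ k := lft_v n

variable {p}

private theorem ev_lam {I : Type} [LinearOrder I] (K : ℕ) : EvH (lam p I K) := by
  refine ev_of _ (fun i => ?_) fun i => ?_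
  · rw [lam_t]
    exact add_mem (t_mem_Par _) (sum_mem fun _ _ =>
      Par_mul (t_mem_Par _) (pow_par (v_mem_Par _) _))
  · rw [lam_v]
    exact add_mem (v_mem_Par _) (sum_mem fun _ _ =>
      Par_mul (v_mem_Par _) (pow_par (v_mem_Par _) _))

private theorem ev_psi : EvH (psiM p) := by
  refine ev_of _ (fun i => ?_) fun i => ?_
  · rw [psiM_t]
    exact psi_par1 p i
  · rw [psiM_v]
    exact psi_par0 p i

private theorem sml_kp1 {K : ℕ} {J₀ : Tw p ℕ →+ ZMod p} (h : Sml K J₀) (x : Tw p ℕ) :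
    J₀ (kp1 p K x) = J₀ x := by
  classical
  have h1 : J₀.comp (kp1 p K).toAddMonoidHom = J₀ := by
    refine addHom_ext fun c E S => ?_
    change J₀ (kil p {k | K ≤ k} (c • mon p E S)) = J₀ (c • mon p E S)
    rw [hom_smul, kil_mon]
    split_ifs with h2
    · rw [smul_zero, map_zero]
      exact (h c E S h2).symm
    · rfl
  exact DFunLike.congr_fun h1 x

private theorem JH_kp2 {K : ℕ} {Ja : Tw p ℕ →+ ZMod p} (ha : Sml K Ja) (z : Tw p (ℕ ⊕ₗ ℕ)) :
    JH Ja (kp2 p K z) = JH Ja z := by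
  have h1 : (JH Ja).comp (kp2 p K).toAddMonoidHom = JH Ja := by
    refine lex_ext fun x y => ?_
    change JH Ja (kp2 p K (ιl p ℕ ℕ x * ιr p ℕ ℕ y)) = _
    have e1 : kp2 p K (ιl p ℕ ℕ x) = ιl p ℕ ℕ (kp1 p K x) := sm_l x
    have e2 : kp2 p K (ιr p ℕ ℕ y) = ιr p ℕ ℕ y := sm_r y
    rw [map_mul, e1, e2, JH_mul, JH_mul, sml_kp1 ha]
  exact DFunLike.congr_fun h1 z

private theorem JHsmul {I J : Type} [LinearOrder I] [LinearOrder J] (J₀ : Tw p I →+ ZMod p)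
    (c : ZMod p) (w : Tw p (I ⊕ₗ J)) : JH (J := J) J₀ (c • w) = c • JH J₀ w := by
  exact ZMod.map_smul (JH (J := J) J₀) c w

private theorem JH_kp3 {K : ℕ} {Ja Jb : Tw p ℕ →+ ZMod p} (ha : Sml K Ja) (hb : Sml K Jb)
    (z : Tw p (ℕ ⊕ₗ (ℕ ⊕ₗ ℕ))) : JH Ja (JH Jb (kp3 p K z)) = JH Ja (JH Jb z) := by
  have h1 : ((JH Ja).comp (JH Jb)).comp (kp3 p K).toAddMonoidHom =
      (JH (J := ℕ) Ja).comp (JH Jb) := by
    refine lex_ext fun x y => ?_
    change JH Ja (JH Jb (kp3 p K (ιl p ℕ (ℕ ⊕ₗ ℕ) x * ιr p ℕ (ℕ ⊕ₗ ℕ) y))) =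
      JH Ja (JH Jb (ιl p ℕ (ℕ ⊕ₗ ℕ) x * ιr p ℕ (ℕ ⊕ₗ ℕ) y))
    have e1 : kp3 p K (ιl p ℕ (ℕ ⊕ₗ ℕ) x) = ιl p ℕ (ℕ ⊕ₗ ℕ) (kp1 p K x) := sm_l x
    have e2 : kp3 p K (ιr p ℕ (ℕ ⊕ₗ ℕ) y) = ιr p ℕ (ℕ ⊕ₗ ℕ) (kp2 p K y) := sm_r y
    rw [map_mul, e1, e2, JH_mul, JH_mul, sml_kp1 hb, JHsmul, JHsmul, JH_kp2 ha]
  exact DFunLike.congr_fun h1 z

private noncomputable def lam3 (p : ℕ) [Fact p.Prime] (K : ℕ) :
    Tw p (ℕ ⊕ₗ ℕ) →+* Tw p (ℕ ⊕ₗ (ℕ ⊕ₗ ℕ)) :=
  sm (ιl p ℕ (ℕ ⊕ₗ ℕ)) ((ιr p ℕ (ℕ ⊕ₗ ℕ)).comp (lam p ℕ K)) ev_ιl (ev_ιr.comp (ev_lam K))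

private noncomputable def psi3 (p : ℕ) [Fact p.Prime] :
    Tw p (ℕ ⊕ₗ ℕ) →+* Tw p (ℕ ⊕ₗ (ℕ ⊕ₗ ℕ)) :=
  sm ((inc3 p).comp (psiM p)) ((ιr p ℕ (ℕ ⊕ₗ ℕ)).comp (ιr p ℕ ℕ)) (ev_inc3.comp ev_psi)
    (ev_ιr.comp ev_ιr)

private theorem lam_JH (K : ℕ) (Jb : Tw p ℕ →+ ZMod p) (w : Tw p (ℕ ⊕ₗ ℕ)) :
    lam p ℕ K (JH Jb w) = JH Jb (lam3 p K w) := by
  have h1 : (lam p ℕ K).toAddMonoidHom.comp (JH Jb) =
      (JH Jb).comp (lam3 p K).toAddMonoidHom := by
    refine lex_ext fun x y => ?_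
    change lam p ℕ K (JH Jb (ιl p ℕ ℕ x * ιr p ℕ ℕ y)) =
      JH Jb (lam3 p K (ιl p ℕ ℕ x * ιr p ℕ ℕ y))
    have e1 : lam3 p K (ιl p ℕ ℕ x) = ιl p ℕ (ℕ ⊕ₗ ℕ) x := sm_l x
    have e2 : lam3 p K (ιr p ℕ ℕ y) = ιr p ℕ (ℕ ⊕ₗ ℕ) (lam p ℕ K y) := sm_r y
    rw [map_mul (lam3 p K), e1, e2, JH_mul, JH_mul, hom_smul]
  exact DFunLike.congr_fun h1 w

private theorem JH_psi3 (Ja Jb : Tw p ℕ →+ ZMod p) (w : Tw p (ℕ ⊕ₗ ℕ)) :
    JH (Ja.comp ((JH Jb).comp (psiM p).toAddMonoidHom)) w = JH Ja (JH Jb (psi3 p w)) := by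
  have h1 : JH (Ja.comp ((JH Jb).comp (psiM p).toAddMonoidHom)) =
      ((JH (J := ℕ) Ja).comp (JH Jb)).comp (psi3 p).toAddMonoidHom := by
    refine lex_ext fun x y => ?_
    change _ = JH Ja (JH Jb (psi3 p (ιl p ℕ ℕ x * ιr p ℕ ℕ y)))
    have e1 : psi3 p (ιl p ℕ ℕ x) = inc3 p (psiM p x) := sm_l x
    have e2 : psi3 p (ιr p ℕ ℕ y) = ιr p ℕ (ℕ ⊕ₗ ℕ) (ιr p ℕ ℕ y) := sm_r y
    rw [map_mul (psi3 p), e1, e2, JH_mul, JH_mul_r, JH_inc3, JH_mul]
    rfl
  exact DFunLike.congr_fun h1 w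

/-! ### values on the generators -/

omit [Fact p.Prime] in
private theorem cil_t {I J : Type} [LinearOrder I] [LinearOrder J] (i : I) :
    ιl p I J (t p i) = t p (toLex (Sum.inl i)) := map_t _ i

omit [Fact p.Prime] in
private theorem cil_v {I J : Type} [LinearOrder I] [LinearOrder J] (i : I) :
    ιl p I J (v p i) = v p (toLex (Sum.inl i)) := map_v _ i

omit [Fact p.Prime] in
private theorem cir_t {I J : Type} [LinearOrder I] [LinearOrder J] (j : J) :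
    ιr p I J (t p j) = t p (toLex (Sum.inr j)) := map_t _ j

omit [Fact p.Prime] in
private theorem cir_v {I J : Type} [LinearOrder I] [LinearOrder J] (j : J) :
    ιr p I J (v p j) = v p (toLex (Sum.inr j)) := map_v _ j

private noncomputable def tb (p k : ℕ) : Tw p (ℕ ⊕ₗ (ℕ ⊕ₗ ℕ)) := t p (toLex (Sum.inl k))

private noncomputable def ta (p k : ℕ) : Tw p (ℕ ⊕ₗ (ℕ ⊕ₗ ℕ)) :=
  t p (toLex (Sum.inr (toLex (Sum.inl k))))

private noncomputable def tx (p k : ℕ) : Tw p (ℕ ⊕ₗ (ℕ ⊕ₗ ℕ)) :=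
  t p (toLex (Sum.inr (toLex (Sum.inr k))))

private noncomputable def vx (p k : ℕ) : Tw p (ℕ ⊕ₗ (ℕ ⊕ₗ ℕ)) :=
  v p (toLex (Sum.inr (toLex (Sum.inr k))))

private noncomputable def Xb (p j : ℕ) : Tw p (ℕ ⊕ₗ (ℕ ⊕ₗ ℕ)) :=
  if j = 0 then 1 else v p (toLex (Sum.inl (j - 1)))

private noncomputable def Xa (p j : ℕ) : Tw p (ℕ ⊕ₗ (ℕ ⊕ₗ ℕ)) :=
  if j = 0 then 1 else v p (toLex (Sum.inr (toLex (Sum.inl (j - 1)))))

omit [Fact p.Prime] in
private theorem Xb_succ (j : ℕ) : Xb p (j + 1) = v p (toLex (Sum.inl j)) := by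
  unfold Xb
  rw [if_neg (Nat.succ_ne_zero j), Nat.add_sub_cancel]

omit [Fact p.Prime] in
private theorem Xa_succ (j : ℕ) : Xa p (j + 1) = v p (toLex (Sum.inr (toLex (Sum.inl j)))) := by
  unfold Xa
  rw [if_neg (Nat.succ_ne_zero j), Nat.add_sub_cancel]

omit [Fact p.Prime] in
private theorem Xb_zero : Xb p 0 = 1 := if_pos rfl

omit [Fact p.Prime] in
private theorem Xa_zero : Xa p 0 = 1 := if_pos rfl

omit [Fact p.Prime] in
private theorem Xa_cen (j : ℕ) : Xa p j ∈ Subring.center (Tw p (ℕ ⊕ₗ (ℕ ⊕ₗ ℕ))) := by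
  unfold Xa
  split_ifs
  · exact one_mem _
  · exact v_cen _

omit [Fact p.Prime] in
private theorem inc3_tl (k : ℕ) : inc3 p (t p (toLex (Sum.inl k))) = tb p k :=
  (sm_tl k).trans (cil_t k)

omit [Fact p.Prime] in
private theorem inc3_tr (k : ℕ) : inc3 p (t p (toLex (Sum.inr k))) = ta p k := by
  refine (sm_tr k).trans ?_
  rw [RingHom.comp_apply, cil_t, cir_t]
  rfl

omit [Fact p.Prime] in
private theorem inc3_xl (j : ℕ) : inc3 p (xl p j) = Xb p j := by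
  unfold xl Xb
  split_ifs
  · exact map_one _
  · exact (sm_vl _).trans (cil_v _)

omit [Fact p.Prime] in
private theorem inc3_xr (j : ℕ) : inc3 p (xr p j) = Xa p j := by
  unfold xr Xa
  split_ifs
  · exact map_one _
  · refine (sm_vr _).trans ?_
    rw [RingHom.comp_apply, cil_v, cir_v]

omit [Fact p.Prime] in
private theorem kp1_t {K k : ℕ} (h : K ≤ k) : kp1 p K (t p k) = 0 := by
  classical
  exact (kil_t _ k).trans (if_pos h)

omit [Fact p.Prime] in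
private theorem kp1_v {K k : ℕ} (h : K ≤ k) : kp1 p K (v p k) = 0 := by
  classical
  exact (kil_v _ k).trans (if_pos h)

omit [Fact p.Prime] in
private theorem kp3_tb {K k : ℕ} (h : K ≤ k) : kp3 p K (tb p k) = 0 := by
  refine (sm_tl k).trans ?_
  rw [RingHom.comp_apply, kp1_t h, map_zero]

omit [Fact p.Prime] in
private theorem kp3_Xb {K k : ℕ} (h : K < k) : kp3 p K (Xb p k) = 0 := by
  obtain ⟨j, rfl⟩ : ∃ j, k = j + 1 := ⟨k - 1, by omega⟩
  rw [Xb_succ]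
  refine (sm_vl j).trans ?_
  rw [RingHom.comp_apply, kp1_v (by omega), map_zero]

omit [Fact p.Prime] in
private theorem kp3_ta {K k : ℕ} (h : K ≤ k) : kp3 p K (ta p k) = 0 := by
  refine (sm_tr (toLex (Sum.inl k))).trans ?_
  have h1 : kp2 p K (t p (toLex (Sum.inl k))) = 0 := by
    refine (sm_tl k).trans ?_
    rw [RingHom.comp_apply, kp1_t h, map_zero]
  rw [RingHom.comp_apply, h1, map_zero]

omit [Fact p.Prime] in
private theorem kp3_Xa {K k : ℕ} (h : K < k) : kp3 p K (Xa p k) = 0 := by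
  obtain ⟨j, rfl⟩ : ∃ j, k = j + 1 := ⟨k - 1, by omega⟩
  rw [Xa_succ]
  refine (sm_vr (toLex (Sum.inl j))).trans ?_
  have h1 : kp2 p K (v p (toLex (Sum.inl j))) = 0 := by
    refine (sm_vl j).trans ?_
    rw [RingHom.comp_apply, kp1_v (by omega), map_zero]
  rw [RingHom.comp_apply, h1, map_zero]

private theorem ιr_lam_t (K i : ℕ) : ιr p ℕ (ℕ ⊕ₗ ℕ) (lam p ℕ K (t p i)) =
    tx p i + ∑ n ∈ Finset.range K, ta p n * vx p i ^ p ^ n := by
  rw [lam_t, map_add, map_sum, cir_t]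
  congr 1
  refine Finset.sum_congr rfl fun k _ => ?_
  rw [map_mul, map_pow, cir_t, cir_v]
  rfl

private theorem ιr_lam_v (K i : ℕ) : ιr p ℕ (ℕ ⊕ₗ ℕ) (lam p ℕ K (v p i)) =
    ∑ j ∈ Finset.range (K + 1), Xa p j * vx p i ^ p ^ j := by
  rw [lam_v, map_add, map_sum, cir_v, Finset.sum_range_succ', Xa_zero, one_mul, pow_zero, pow_one,
    add_comm]
  congr 1
  refine Finset.sum_congr rfl fun k _ => ?_
  rw [map_mul, map_pow, cir_v, cir_v, Xa_succ]
  rfl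

private theorem frob (K i k : ℕ) : (ιr p ℕ (ℕ ⊕ₗ ℕ) (lam p ℕ K (v p i))) ^ p ^ k =
    ∑ j ∈ Finset.range (K + 1), Xa p j ^ p ^ k * vx p i ^ p ^ (k + j) := by
  rw [ιr_lam_v, cen_pow_sum (Fact.out : p.Prime) (Finset.range (K + 1))
    (fun j => Xa p j * vx p i ^ p ^ j) (fun j => mul_mem (Xa_cen j) (pow_mem (v_cen _) _))]
  refine Finset.sum_congr rfl fun j _ => ?_
  have hc : Commute (Xa p j) (vx p i ^ p ^ j) := (Subring.mem_center_iff.1 (Xa_cen j) _).symm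
  rw [hc.mul_pow, ← pow_mul, ← pow_add, add_comm j k]

private theorem L_t (K i : ℕ) : lam3 p K (lam p ℕ K (t p i)) =
    tx p i + ∑ n ∈ Finset.range K, ta p n * vx p i ^ p ^ n +
      ∑ k ∈ Finset.range K, tb p k *
        ∑ j ∈ Finset.range (K + 1), Xa p j ^ p ^ k * vx p i ^ p ^ (k + j) := by
  have e1 : lam3 p K (t p (toLex (Sum.inr i))) = ιr p ℕ (ℕ ⊕ₗ ℕ) (lam p ℕ K (t p i)) := sm_tr i
  have e2 : lam3 p K (v p (toLex (Sum.inr i))) = ιr p ℕ (ℕ ⊕ₗ ℕ) (lam p ℕ K (v p i)) := sm_vr i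
  have e3 : ∀ k : ℕ, lam3 p K (t p (toLex (Sum.inl k))) = tb p k := fun k =>
    (sm_tl k).trans (cil_t k)
  rw [lam_t, map_add, map_sum, e1, ιr_lam_t]
  congr 1
  refine Finset.sum_congr rfl fun k _ => ?_
  rw [map_mul, map_pow, e2, e3, frob]

private theorem L_v (K i : ℕ) : lam3 p K (lam p ℕ K (v p i)) =
    ∑ k ∈ Finset.range (K + 1), Xb p k *
      ∑ j ∈ Finset.range (K + 1), Xa p j ^ p ^ k * vx p i ^ p ^ (k + j) := by
  have e2 : lam3 p K (v p (toLex (Sum.inr i))) = ιr p ℕ (ℕ ⊕ₗ ℕ) (lam p ℕ K (v p i)) := sm_vr i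
  have e3 : ∀ k : ℕ, lam3 p K (v p (toLex (Sum.inl k))) = Xb p (k + 1) := fun k =>
    ((sm_vl k).trans (cil_v k)).trans (Xb_succ k).symm
  have e4 : ∀ k, ∑ j ∈ Finset.range (K + 1), Xa p j ^ p ^ k * vx p i ^ p ^ (k + j) =
      (ιr p ℕ (ℕ ⊕ₗ ℕ) (lam p ℕ K (v p i))) ^ p ^ k := fun k => (frob K i k).symm
  simp only [e4]
  rw [Finset.sum_range_succ', Xb_zero, one_mul, pow_zero, pow_one]
  conv_lhs => rw [lam_v]
  rw [map_add, map_sum, e2, add_comm]
  congr 1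
  refine Finset.sum_congr rfl fun k _ => ?_
  rw [map_mul, map_pow, e2, e3]

private theorem P_t (N i : ℕ) : psi3 p (lam p ℕ N (t p i)) = tx p i +
    ∑ n ∈ Finset.range N, (ta p n + ∑ k ∈ Finset.range (n + 1), tb p k * Xa p (n - k) ^ p ^ k) *
      vx p i ^ p ^ n := by
  have e1 : psi3 p (t p (toLex (Sum.inr i))) = tx p i := by
    refine (sm_tr i).trans ?_
    rw [RingHom.comp_apply, cir_t, cir_t]
    rfl
  have e2 : psi3 p (v p (toLex (Sum.inr i))) = vx p i := by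
    refine (sm_vr i).trans ?_
    rw [RingHom.comp_apply, cir_v, cir_v]
    rfl
  have e3 : ∀ n : ℕ, psi3 p (t p (toLex (Sum.inl n))) =
      ta p n + ∑ k ∈ Finset.range (n + 1), tb p k * Xa p (n - k) ^ p ^ k := by
    intro n
    refine (sm_tl n).trans ?_
    rw [RingHom.comp_apply, psiM_t, map_add, map_sum, inc3_tr]
    congr 1
    refine Finset.sum_congr rfl fun k _ => ?_
    rw [map_mul, map_pow, inc3_tl, inc3_xr]
  rw [lam_t, map_add, map_sum, e1]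
  congr 1
  refine Finset.sum_congr rfl fun k _ => ?_
  rw [map_mul, map_pow, e2, e3]

private theorem P_v (N i : ℕ) : psi3 p (lam p ℕ N (v p i)) =
    ∑ n ∈ Finset.range (N + 1), (∑ k ∈ Finset.range (n + 1), Xb p k * Xa p (n - k) ^ p ^ k) *
      vx p i ^ p ^ n := by
  have e2 : psi3 p (v p (toLex (Sum.inr i))) = vx p i := by
    refine (sm_vr i).trans ?_
    rw [RingHom.comp_apply, cir_v, cir_v]
    rfl
  have e3 : ∀ n : ℕ, psi3 p (v p (toLex (Sum.inl n))) =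
      ∑ k ∈ Finset.range (n + 1 + 1), Xb p k * Xa p (n + 1 - k) ^ p ^ k := by
    intro n
    refine (sm_vl n).trans ?_
    rw [RingHom.comp_apply, psiM_v, map_sum]
    refine Finset.sum_congr rfl fun k _ => ?_
    rw [map_mul, map_pow, inc3_xl, inc3_xr]
  rw [lam_v, map_add, map_sum, e2, Finset.sum_range_succ', add_comm]
  refine congrArg₂ (· + ·) (Finset.sum_congr rfl fun k _ => ?_) ?_
  · rw [map_mul, map_pow, e2, e3]
  · simp [Xb_zero, Xa_zero]

private theorem diag_sum {A : Type} [AddCommMonoid A] (F : ℕ → ℕ → A) (K1 K2 N : ℕ)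
    (h1 : ∀ k j, K1 ≤ k → F k j = 0) (h2 : ∀ k j, K2 ≤ j → F k j = 0) (hN : K1 + K2 ≤ N + 1)
    (hK : K1 ≤ N) : ∑ n ∈ Finset.range N, ∑ k ∈ Finset.range (n + 1), F k (n - k) =
      ∑ k ∈ Finset.range K1, ∑ j ∈ Finset.range K2, F k j := by
  rw [Finset.sum_range_diag_flip]
  have e1 : ∑ m ∈ Finset.range N, ∑ j ∈ Finset.range (N - m), F m j =
      ∑ m ∈ Finset.range K1, ∑ j ∈ Finset.range (N - m), F m j :=
    (Finset.sum_subset (fun m hm => by
      rw [Finset.mem_range] at hm ⊢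
      omega) fun m _ hm => Finset.sum_eq_zero fun j _ => h1 m j (by
        rw [Finset.mem_range] at hm
        omega)).symm
  rw [e1]
  refine Finset.sum_congr rfl fun m hm => ?_
  rw [Finset.mem_range] at hm
  exact (Finset.sum_subset (fun j hj => by
    rw [Finset.mem_range] at hj ⊢
    omega) fun j _ hj => h2 m j (by
      rw [Finset.mem_range] at hj
      omega)).symm

private theorem kap_eq (K : ℕ) (u : Tw p ℕ) : kp3 p K (lam3 p K (lam p ℕ K u)) =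
    kp3 p K (psi3 p (lam p ℕ (2 * K) u)) := by
  have hp0 : ∀ k : ℕ, p ^ k ≠ 0 := fun k => pow_ne_zero k (Fact.out : p.Prime).ne_zero
  have h : (kp3 p K).comp ((lam3 p K).comp (lam p ℕ K)) =
      (kp3 p K).comp ((psi3 p).comp (lam p ℕ (2 * K))) := by
    refine hom_ext (fun i => ?_) fun i => ?_
    · change kp3 p K (lam3 p K (lam p ℕ K (t p i))) =
        kp3 p K (psi3 p (lam p ℕ (2 * K) (t p i)))
      rw [L_t, P_t]
      simp only [map_add, map_sum, map_mul, map_pow]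
      rw [add_assoc]
      refine congrArg (fun z => kp3 p K (tx p i) + z) ?_
      have h1 := diag_sum (fun k j => kp3 p K (tb p k) *
        (kp3 p K (Xa p j) ^ p ^ k * kp3 p K (vx p i) ^ p ^ (k + j))) K (K + 1) (2 * K)
        (fun k j hk => by rw [kp3_tb hk, zero_mul])
        (fun k j hj => by rw [kp3_Xa hj, zero_pow (hp0 k), zero_mul, mul_zero]) (by omega)
        (by omega)
      have h2 : ∑ n ∈ Finset.range (2 * K), kp3 p K (ta p n) * kp3 p K (vx p i) ^ p ^ n =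
          ∑ n ∈ Finset.range K, kp3 p K (ta p n) * kp3 p K (vx p i) ^ p ^ n :=
        (Finset.sum_subset (fun m hm => by
          rw [Finset.mem_range] at hm ⊢
          omega) fun m _ hm => by
            rw [Finset.mem_range] at hm
            rw [kp3_ta (by omega), zero_mul]).symm
      rw [← h2]
      simp only [Finset.mul_sum]
      rw [← h1, ← Finset.sum_add_distrib]
      refine Finset.sum_congr rfl fun n _ => ?_
      rw [add_mul, Finset.sum_mul]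
      refine congrArg (fun z => kp3 p K (ta p n) * kp3 p K (vx p i) ^ p ^ n + z) ?_
      refine Finset.sum_congr rfl fun k hk => ?_
      rw [Finset.mem_range] at hk
      have h3 : k + (n - k) = n := by omega
      rw [h3, mul_assoc]
    · change kp3 p K (lam3 p K (lam p ℕ K (v p i))) =
        kp3 p K (psi3 p (lam p ℕ (2 * K) (v p i)))
      rw [L_v, P_v]
      simp only [map_sum, map_mul, map_pow]
      have h1 := diag_sum (fun k j => kp3 p K (Xb p k) *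
        (kp3 p K (Xa p j) ^ p ^ k * kp3 p K (vx p i) ^ p ^ (k + j))) (K + 1) (K + 1) (2 * K + 1)
        (fun k j hk => by rw [kp3_Xb hk, zero_mul])
        (fun k j hj => by rw [kp3_Xa hj, zero_pow (hp0 k), zero_mul, mul_zero]) (by omega)
        (by omega)
      simp only [Finset.mul_sum]
      rw [← h1]
      refine Finset.sum_congr rfl fun n _ => ?_
      rw [Finset.sum_mul]
      refine Finset.sum_congr rfl fun k hk => ?_
      rw [Finset.mem_range] at hk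
      have h3 : k + (n - k) = n := by omega
      rw [h3, mul_assoc]
  exact DFunLike.congr_fun h u

theorem comp_JH {K : ℕ} {Ja Jb : Tw p ℕ →+ ZMod p} (ha : Sml K Ja) (hb : Sml K Jb) (u : Tw p ℕ) :
    JH Ja (lam p ℕ K (JH Jb (lam p ℕ K u))) =
      JH (Ja.comp ((JH Jb).comp (psiM p).toAddMonoidHom)) (lam p ℕ (2 * K) u) := by
  rw [lam_JH, JH_psi3, ← JH_kp3 ha hb (lam3 p K (lam p ℕ K u)),
    ← JH_kp3 ha hb (psi3 p (lam p ℕ (2 * K) u)), kap_eq]

theorem Jf_comp {k l : ℕ} {α β : Tw p ℕ →+ Tw p ℕ} (hα : NatOp p α) (hβ : NatOp p β)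
    (hk : HgOp k α) (hl : HgOp l β) :
    Jf (α.comp β) = (Jf α).comp ((JH (Jf β)).comp (psiM p).toAddMonoidHom) := by
  refine addHom_ext fun c E S => ?_
  obtain ⟨K, hkK, hlK, hE, hS⟩ : ∃ K, k < K ∧ l < K ∧ (∀ e ∈ E, e < K) ∧
      ∀ j ∈ S.support, j < K := by
    refine ⟨k + l + E.sup id + S.support.sup id + 1, by omega, by omega, fun e he => ?_,
      fun e he => ?_⟩
    · have h1 := Finset.le_sup (f := id) he
      simp only [id_eq] at h1
      omega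
    · have h1 := Finset.le_sup (f := id) he
      simp only [id_eq] at h1
      omega
  have ha := Sml_of_Hg hkK (Jf_Hg hk)
  have hb := Sml_of_Hg hlK (Jf_Hg hl)
  have h1 : α.comp β = (JH ((Jf α).comp ((JH (Jf β)).comp (psiM p).toAddMonoidHom))).comp
      (lam p ℕ (2 * K)).toAddMonoidHom := by
    refine AddMonoidHom.ext fun u => ?_
    change α (β u) = JH _ (lam p ℕ (2 * K) u)
    rw [T_thm hkK hα hk, T_thm hlK hβ hl, comp_JH ha hb]
  have h2 : Jc p (α.comp β) E S =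
      ((Jf α).comp ((JH (Jf β)).comp (psiM p).toAddMonoidHom)) (mon p E S) := by
    rw [h1]
    refine Jc_JH' E S (fun e he => ?_) fun j hj => ?_
    · have := hE e he
      omega
    · have := hS j hj
      omega
  rw [Jf_mon, h2, ZMod.map_smul ((Jf α).comp ((JH (Jf β)).comp (psiM p).toAddMonoidHom)) c
    (mon p E S), smul_eq_mul]

end Tw

end BPN.E
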