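import Pool.Agent.BPN.E.Lev

/-!
# Part (E), module Cx: the complexes `GT`, `GM`, `Tr` (project BPN, architect helper30)

PROOFS.
* `LFz_FT`, `LFP_FM`: local finiteness (`LFz_fa`, `LFz_tup`, `LFz_pr_left/right`; for multisets of positive
  cardinality take an element).
* `FT_comm`, `FM_comm`, `FR_comm`: `pr_bind`, `tup_bind`, `ms_bind`, `fa_fa` (`funext`).  For `FR`: if `ms g x = some y`
  and `y` has an element of multiplicity `≥ p` then so has `ms h y` (if defined): so
  `(FR p i x).bind (FR p j)` is `ms (g then h) x` if the result has all multiplicities `< p`, and `none`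
  otherwise.
* `isCx_GT`: `dd` is `bd_bd` with `P = univ`; `dG`: `bd_SA` and `bd_supported` with the sets
  `{all entries of excess e, in P, P'}` and `{.. excess e - 1 ..}` (`tup_eq_some`, `exc_fa`).
* `isCx_GM`, `isCx_Tr`: the same (`ms_card`, `mem_ms`), `P = {z : card z.1 = a}`.
* `isCx_ker`: if `D (d x) = d' (D x)` then the kernel of `D` is a subcomplex.
-/

namespace BPN.E

variable (k : Type) [Field k]

theorem LFz_FT {c b a : ℕ} (h : 0 < b + a) : LFz (FT c b a) := by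
  rcases Nat.eq_zero_or_pos b with hb | hb
  · exact LFz_pr_right _ (LFz_tup (by omega) (LFz_fa c))
  · exact LFz_pr_left (LFz_tup hb (LFz_fa c)) _

theorem FT_comm (c b a : ℕ) {i j : ℕ} (h : i ≤ j) (z : TT b a) :
    (FT c b a (j + 1) z).bind (FT c b a i) = (FT c b a i z).bind (FT c b a j) := by
  unfold FT
  rw [pr_bind, pr_bind]
  simp only [tup_bind, fa_fa c h]

theorem LFP_FM {c a b : ℕ} (h : 0 < a + b) :
    LFP (FM c b) {z | Multiset.card z.1 = a} {z | Multiset.card z.1 = a} := by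
  constructor
  · intro z hz
    rcases Nat.eq_zero_or_pos b with hb | hb
    · have ha : 0 < Multiset.card z.1 := by
        have : Multiset.card z.1 = a := hz
        omega
      obtain ⟨s, hs⟩ := Multiset.card_pos_iff_exists_mem.1 ha
      obtain ⟨N, hN⟩ := LFz_fa c s
      exact ⟨N, fun i hi => pr_eq_none.2 (Or.inl (ms_eq_none.2 ⟨s, hs, hN i hi⟩))⟩
    · have h1 : LFz (FM c b) := LFz_pr_right (fun i => ms (fa c i)) (LFz_tup hb (LFz_fa c))
      exact h1 z
  · intro z hz i z' h1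
    have h2 := ms_card (pr_eq_some.1 h1).1
    exact h2.trans hz

theorem FM_comm (c b : ℕ) {i j : ℕ} (h : i ≤ j) (z : MT b) :
    (FM c b (j + 1) z).bind (FM c b i) = (FM c b i z).bind (FM c b j) := by
  unfold FM
  rw [pr_bind, pr_bind]
  simp only [tup_bind, ms_bind, fa_fa c h]

private theorem cx_count {A A' : Type} [DecidableEq A] [DecidableEq A'] {g : A → Option A'}
    {x : Multiset A} {y : Multiset A'} (h : ms g x = some y) {s : A} {t : A'}
    (hst : g s = some t) : x.count s ≤ y.count t := by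
  induction x using Multiset.induction_on generalizing y with
  | empty => simp
  | cons a x ih =>
    rw [ms_cons] at h
    obtain ⟨b, hb, h1⟩ := Option.bind_eq_some_iff.1 h
    obtain ⟨y', hy', rfl⟩ := Option.map_eq_some_iff.1 h1
    have h2 := ih hy'
    rw [Multiset.count_cons, Multiset.count_cons]
    by_cases hsa : s = a
    · subst hsa
      rw [hst] at hb
      rw [Option.some.inj hb, if_pos rfl, if_pos rfl]
      rw [← Option.some.inj hb]
      omega
    · rw [if_neg hsa]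
      omega

open Classical in
private theorem cx_FR {p i : ℕ} {x y : Multiset Sj} :
    FR p i x = some y ↔ ms (fa 0 i) x = some y ∧ ∀ s, y.count s < p := by
  unfold FR
  rw [Option.bind_eq_some_iff]
  constructor
  · rintro ⟨z, hz, h1⟩
    split_ifs at h1 with h2
    rw [← Option.some.inj h1]
    exact ⟨hz, h2⟩
  · rintro ⟨h1, h2⟩
    exact ⟨y, h1, if_pos h2⟩

open Classical in
private theorem cx_FR2 {p i j : ℕ} {x w : Multiset Sj} :
    (FR p j x).bind (FR p i) = some w ↔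
      ms (fun a => (fa 0 j a).bind (fa 0 i)) x = some w ∧ ∀ s, w.count s < p := by
  rw [Option.bind_eq_some_iff, ← ms_bind]
  constructor
  · rintro ⟨y, hy, hw⟩
    rw [cx_FR] at hy hw
    rw [hy.1]
    exact hw
  · rintro ⟨h1, h2⟩
    obtain ⟨y, hy, hw⟩ := Option.bind_eq_some_iff.1 h1
    refine ⟨y, cx_FR.2 ⟨hy, fun s => ?_⟩, cx_FR.2 ⟨hw, h2⟩⟩
    by_cases hs : s ∈ y
    · obtain ⟨h3, -⟩ := ms_eq_some.1 hw
      obtain ⟨t, ht⟩ := Option.isSome_iff_exists.1 (h3 s hs)
      exact (cx_count hw ht).trans_lt (h2 t)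
    · rw [Multiset.count_eq_zero_of_notMem hs]
      exact (Nat.zero_le _).trans_lt (h2 s)

theorem LFP_FR {p d : ℕ} (h : 0 < d) :
    LFP (FR p) {x | Multiset.card x = d} {x | Multiset.card x = d} := by
  constructor
  · intro x hx
    have ha : 0 < Multiset.card x := by
      have : Multiset.card x = d := hx
      omega
    obtain ⟨s, hs⟩ := Multiset.card_pos_iff_exists_mem.1 ha
    obtain ⟨N, hN⟩ := LFz_fa 0 s
    refine ⟨N, fun i hi => ?_⟩
    unfold FR
    rw [ms_eq_none.2 ⟨s, hs, hN i hi⟩]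
    rfl
  · intro x hx i y hy
    exact (ms_card (cx_FR.1 hy).1).trans hx

theorem FR_comm (p : ℕ) {i j : ℕ} (h : i ≤ j) (x : Multiset Sj) :
    (FR p (j + 1) x).bind (FR p i) = (FR p i x).bind (FR p j) := by
  refine Option.ext fun w => ?_
  rw [cx_FR2, cx_FR2]
  simp only [fa_fa 0 h]

theorem isCx_GT {c b a : ℕ} (h : 0 < b + a) {P P' : Sj → Prop}
    (hP : ∀ i s t, P s → fa c i s = some t → P t) (hP' : ∀ i s t, P' s → fa c i s = some t → P' t) :
    IsCx (bd k (FT c b a)) (GT k b a P P') := by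
  constructor
  · intro e x hx
    refine ⟨bd_SA (g := fa c) (h := fa c) hx.1 (fun z _ => LFz_FT h z), ?_⟩
    refine bd_supported (P := {z | (∀ i, exc (z.1 i) = e ∧ P (z.1 i)) ∧
      ∀ j, exc (z.2 j) = e ∧ P' (z.2 j)}) ⟨fun z _ => LFz_FT h z, ?_⟩ hx.2
    intro z hz i z' h1
    obtain ⟨h2, h3⟩ := pr_eq_some.1 h1
    rw [tup_eq_some] at h2 h3
    refine ⟨fun t => ⟨?_, hP _ _ _ (hz.1 t).2 (h2 t)⟩, fun t => ⟨?_, hP' _ _ _ (hz.2 t).2 (h3 t)⟩⟩
    · rw [exc_fa (h2 t), (hz.1 t).1]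
    · rw [exc_fa (h3 t), (hz.2 t).1]
  · intro e x hx
    refine bd_bd (P := Set.univ) ⟨fun z _ => LFz_FT h z, fun _ _ _ _ _ => trivial⟩
      (fun i j hij z _ => FT_comm c b a hij z) ?_
    rw [Finsupp.mem_supported]
    exact Set.subset_univ _

theorem isCx_GM {c a b : ℕ} (h : 0 < a + b) {P P' : Sj → Prop}
    (hP : ∀ i s t, P s → fa c i s = some t → P t) (hP' : ∀ i s t, P' s → fa c i s = some t → P' t) :
    IsCx (bd k (FM c b)) (GM k a b P P') := by
  have hL := LFP_FM (c := c) h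
  have hsup : ∀ (e : ℤ) (x : MT b →₀ k), x ∈ GM k a b P P' e →
      x ∈ Finsupp.supported k k {z : MT b | Multiset.card z.1 = a} := fun e x hx =>
    Finsupp.supported_mono (fun z hz => hz.1) hx.2
  constructor
  · intro e x hx
    refine ⟨bd_AL (g := fa c) (h := fa c) hx.1 (fun z hz => hL.1 z ?_), ?_⟩
    · exact (Finsupp.mem_supported k x).1 (hsup e x hx) hz
    · refine bd_supported (P := {z | Multiset.card z.1 = a ∧ (∀ s ∈ z.1, exc s = e ∧ P s) ∧
        ∀ j, exc (z.2 j) = e ∧ P' (z.2 j)})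
        ⟨fun (z : MT b) hz => hL.1 z (show Multiset.card z.1 = a from hz.1), ?_⟩ hx.2
      intro z hz i z' h1
      obtain ⟨h2, h3⟩ := pr_eq_some.1 h1
      rw [tup_eq_some] at h3
      refine ⟨(ms_card h2).trans hz.1, fun t ht => ?_,
        fun t => ⟨?_, hP' _ _ _ (hz.2.2 t).2 (h3 t)⟩⟩
      · obtain ⟨s, hs, hst⟩ := (mem_ms h2 t).1 ht
        exact ⟨by rw [exc_fa hst, (hz.2.1 s hs).1], hP _ _ _ (hz.2.1 s hs).2 hst⟩
      · rw [exc_fa (h3 t), (hz.2.2 t).1]
  · intro e x hx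
    exact bd_bd hL (fun i j hij z _ => FM_comm c b hij z) (hsup e x hx)

theorem isCx_Tr {p d : ℕ} (h : 0 < d) (m : ℕ∞) : IsCx (bd k (FR p)) (Tr k p d m) := by
  classical
  have hL := LFP_FR (p := p) h
  constructor
  · intro e x hx
    refine bd_supported (P := {x | Multiset.card x = d ∧ (∀ s, x.count s < p) ∧
      ∀ s ∈ x, exc s = e ∧ Lv m s}) ⟨fun z hz => hL.1 z hz.1, ?_⟩ ?_
    · intro z hz i z' h1
      obtain ⟨h2, h3⟩ := cx_FR.1 h1
      refine ⟨(ms_card h2).trans hz.1, fun s => ?_, fun t ht => ?_⟩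
      · convert h3 s
      · obtain ⟨s, hs, hst⟩ := (mem_ms h2 t).1 ht
        exact ⟨by rw [exc_fa hst, (hz.2.2 s hs).1], Lv_fa (hz.2.2 s hs).2 hst⟩
    · have h1 : x ∈ Tr k p d m e := hx
      unfold Tr at h1
      convert h1
  · intro e x hx
    refine bd_bd hL (fun i j hij z _ => FR_comm p hij z) ?_
    exact Finsupp.supported_mono (fun z hz => hz.1) hx

variable {k} {M M' : Type} [AddCommGroup M] [Module k M] [AddCommGroup M'] [Module k M']

theorem isCx_ker {d : M →ₗ[k] M} {d' : M' →ₗ[k] M'} {G : ℤ → Submodule k M} (h : IsCx d G)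
    (D : M →ₗ[k] M') (hD : ∀ e x, x ∈ G e → D (d x) = d' (D x)) :
    IsCx d (fun e => G e ⊓ LinearMap.ker D) := by
  constructor
  · rintro e x ⟨h1, h2⟩
    refine ⟨h.dG e x h1, ?_⟩
    have h3 : D x = 0 := h2
    show D (d x) = 0
    rw [hD e x h1, h3, map_zero]
  · rintro e x ⟨h1, -⟩
    exact h.dd e x h1

/-- Monotonicity in the level. -/
theorem GT_mono {b a : ℕ} {P P' Q Q' : Sj → Prop} (h : ∀ s, P s → Q s) (h' : ∀ s, P' s → Q' s)
    (e : ℤ) : GT k b a P P' e ≤ GT k b a Q Q' e := by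
  refine inf_le_inf_left _ (Finsupp.supported_mono ?_)
  intro z hz
  exact ⟨fun i => ⟨(hz.1 i).1, h _ (hz.1 i).2⟩, fun i => ⟨(hz.2 i).1, h' _ (hz.2 i).2⟩⟩

theorem GM_mono {a b : ℕ} {P P' Q Q' : Sj → Prop} (h : ∀ s, P s → Q s) (h' : ∀ s, P' s → Q' s)
    (e : ℤ) : GM k a b P P' e ≤ GM k a b Q Q' e := by
  refine inf_le_inf_left _ (Finsupp.supported_mono ?_)
  intro z hz
  exact ⟨hz.1, fun s hs => ⟨(hz.2.1 s hs).1, h _ (hz.2.1 s hs).2⟩,
    fun i => ⟨(hz.2.2 i).1, h' _ (hz.2.2 i).2⟩⟩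

end BPN.E
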