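import Mathlib

/-!
# Part (E), module HB: dimension bounds for graded complexes (project BPN, architect helper30)

Everything over a field `k`.  A complex is given by an ambient module `M`, a linear map `d` and a
family of submodules `G : ℤ → Submodule k M`; the differential lowers the degree by one.

`IsCx d G`   : `d (G e) ≤ G (e-1)` and `d (d x) = 0` on `G e`.
`Acy d G`    : every cycle of `G e` is `d w` with `w ∈ G (e+1)`.
`HB d G e N` : the homology in degree `e` has dimension at most `N`, in the form: for every finite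
  dimensional space `W` and every linear map `ζ` from `W` to the cycles of degree `e` the subspace of
  the `w` with `ζ w` a boundary has dimension at least `dim W - N`.
`SES`        : short exact sequence of complexes `0 → G₁ → G₂ → G₃ → 0` (only conditions on the
  graded parts).

PROOFS (complete).
* `HB_mono`, `HB_of_acy`: trivial (if all cycles are boundaries the comap is everything).
* `acy_of_HB0`: take `W = k`, `ζ c = c • z`; `1 ≤ finrank (comap) + 0`, so the comap is `⊤`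
  (`Submodule.eq_top_of_finrank_eq`), so `z = ζ 1` is a boundary.
* `HB_mid`: given `ζ : W → Z(G₂)`.  `g ∘ ζ : W → Z(G₃)`; `W₁ = comap (g ∘ ζ) (Bdr d₃ G₃ e)` has
  `finrank W ≤ finrank W₁ + b`.  For `w ∈ W₁` : `g (ζ w) = d₃ v`, `v ∈ G₃ (e+1)`, `v = g y`,
  `y ∈ G₂ (e+1)`, so `ζ w - d₂ y ∈ G₂ e` is killed by `g`, hence `= f u` with `u ∈ G₁ e`, and
  `f (d₁ u) = d₂ (f u) = d₂ ζ w - d₂ d₂ y = 0`, so `d₁ u = 0`.  The set
  `S = {(w, y, u) : w ∈ W₁, y ∈ G₂ (e+1), u ∈ G₁ e, ζ w - d₂ y = f u, d₁ u = 0}` is a submodule of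
  `W × M₂ × M₁` and the projection to `W₁` is surjective; choose a linear section of it
  (`LinearMap.exists_rightInverse_of_surjective` for `S → W₁`), this gives a linear map
  `υ : W₁ → M₁` with values in the cycles of `G₁ e` and `ζ w - f (υ w) ∈ Bdr d₂ G₂ e`.
  Apply `HB d₁ G₁ e a` to `υ`: `finrank W₁ ≤ finrank (comap υ (Bdr d₁ G₁ e)) + a`, and for `w` in
  this subspace `f (υ w) = f (d₁ x) = d₂ (f x)` is a boundary, hence so is `ζ w`.
  The subspace of `W₁` maps injectively into `comap ζ (Bdr d₂ G₂ e)`.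
* `HB_quot`: given `ζ : W → Z(G₃)`.  Choose linearly `y : W → M₂` with values in `G₂ e` and
  `g (y w) = ζ w` (section of the surjection `{(w,y) : y ∈ G₂ e, g y = ζ w} → W`).  Then
  `g (d₂ y w) = d₃ (ζ w) = 0`, so `d₂ (y w) = f (u w)` with `u w ∈ G₁ (e-1)` unique, hence linear
  in `w` (or again by a section), `d₁ (u w) = 0`.  `W₁ = comap u (Bdr d₁ G₁ (e-1))`,
  `finrank W ≤ finrank W₁ + b`.  On `W₁`: `u w = d₁ x`, `x ∈ G₁ e` (note `(e-1)+1 = e`), choose `x`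
  linearly, `y w - f (x w)` is a cycle of `G₂ e` with image `ζ w`.  Apply `HB d₂ G₂ e a` to
  `w ↦ y w - f (x w)` on `W₁`: if `y w - f (x w) = d₂ v` then `ζ w = g (y w) = d₃ (g v)`
  (`g ∘ f = 0`).
* `HB_sub`: given `ζ : W → Z(G₁)`, `f ∘ ζ : W → Z(G₂)`, `W₁ = comap (f ∘ ζ) (Bdr d₂ G₂ e)`,
  `finrank W ≤ finrank W₁ + a`.  On `W₁` : `f (ζ w) = d₂ y`, `y ∈ G₂ (e+1)` chosen linearly,
  `g y ∈ G₃ (e+1)` is a cycle (`d₃ g y = g d₂ y = g f ζ w = 0`); apply `HB d₃ G₃ (e+1) b` to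
  `w ↦ g (y w)`: on the subspace where `g (y w) = d₃ v`, `v ∈ G₃ (e+2)`, `v = g z`, `z ∈ G₂ (e+2)`:
  `y w - d₂ z` is killed by `g`, `= f x` with `x ∈ G₁ (e+1)`, `f (d₁ x) = d₂ (y w) = f (ζ w)`, so
  `ζ w = d₁ x`.
* `HB_iso`, `HB_dual`: `HB_dual`: let `W` be finite dimensional and `ζ : W → (M →ₗ k)` with
  `ζ w (d x) = 0` for `x ∈ G (n+1)`.  Let `W₀` be the subspace of the `w` such that `ζ w` vanishes on
  all cycles of `G n`.  (1) For `w ∈ W₀` there is `b : M →ₗ k` with `ζ w x = b (d x)` for `x ∈ G n`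
  (`ζ w` restricted to `G n` vanishes on the kernel of `d` restricted to `G n`, hence factors through
  the image, extend to `M`: `LinearMap.exists_extend`).  (2) `finrank W ≤ finrank W₀ + N`: let
  `m = finrank W - finrank W₀ = finrank (W ⧸ W₀)`; the pairing of `W ⧸ W₀` with the space `Z` of
  cycles of `G n` is non degenerate on the left, so there are `z_1, .., z_m ∈ Z` such that
  `w ↦ (ζ w z_i)_i` is an isomorphism `W ⧸ W₀ → k^m` (choose a basis of the span of the functionals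
  `w ↦ ζ w z` in the dual of `W ⧸ W₀`; this span is everything because its annihilator is `0`).
  Apply `HB` to `ζ' : k^m → M`, `ζ' c = ∑ c_i z_i`: if `m > N` some `c ≠ 0` has `∑ c_i z_i = d x`
  with `x ∈ G (n+1)`, so `∑ c_i ζ w z_i = 0` for all `w`, contradiction to surjectivity.
-/

namespace BPN.E

open Module

section defs

variable {k : Type} [Field k] {M : Type} [AddCommGroup M] [Module k M]

/-- `(M, d, G)` is a complex, `d` lowers degrees by one. -/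
structure IsCx (d : M →ₗ[k] M) (G : ℤ → Submodule k M) : Prop where
  dG : ∀ e x, x ∈ G e → d x ∈ G (e - 1)
  dd : ∀ e x, x ∈ G e → d (d x) = 0

/-- The boundaries of degree `e`. -/
def Bdr (d : M →ₗ[k] M) (G : ℤ → Submodule k M) (e : ℤ) : Submodule k M := (G (e + 1)).map d

/-- Acyclicity in all degrees. -/
def Acy (d : M →ₗ[k] M) (G : ℤ → Submodule k M) : Prop :=
  ∀ e, ∀ z ∈ G e, d z = 0 → ∃ w ∈ G (e + 1), d w = z

/-- The homology in degree `e` has dimension at most `N`. -/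
def HB (d : M →ₗ[k] M) (G : ℤ → Submodule k M) (e : ℤ) (N : ℕ) : Prop :=
  ∀ (W : Type) [AddCommGroup W] [Module k W] [FiniteDimensional k W] (ζ : W →ₗ[k] M),
    (∀ w, ζ w ∈ G e) → (∀ w, d (ζ w) = 0) →
    finrank k W ≤ finrank k ((Bdr d G e).comap ζ) + N

variable {M₁ : Type} [AddCommGroup M₁] [Module k M₁] {M₂ : Type} [AddCommGroup M₂] [Module k M₂]
  {M₃ : Type} [AddCommGroup M₃] [Module k M₃]

/-- Short exact sequence of complexes (conditions only on the graded parts). -/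
structure SES (d₁ : M₁ →ₗ[k] M₁) (G₁ : ℤ → Submodule k M₁) (d₂ : M₂ →ₗ[k] M₂)
    (G₂ : ℤ → Submodule k M₂) (d₃ : M₃ →ₗ[k] M₃) (G₃ : ℤ → Submodule k M₃)
    (f : M₁ →ₗ[k] M₂) (g : M₂ →ₗ[k] M₃) : Prop where
  c₁ : IsCx d₁ G₁
  c₂ : IsCx d₂ G₂
  c₃ : IsCx d₃ G₃
  fG : ∀ e x, x ∈ G₁ e → f x ∈ G₂ e
  gG : ∀ e y, y ∈ G₂ e → g y ∈ G₃ e
  fd : ∀ e x, x ∈ G₁ e → d₂ (f x) = f (d₁ x)
  gd : ∀ e y, y ∈ G₂ e → d₃ (g y) = g (d₂ y)
  finj : ∀ e x, x ∈ G₁ e → f x = 0 → x = 0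
  gf : ∀ e x, x ∈ G₁ e → g (f x) = 0
  ex : ∀ e y, y ∈ G₂ e → g y = 0 → ∃ x ∈ G₁ e, f x = y
  gsur : ∀ e z, z ∈ G₃ e → ∃ y ∈ G₂ e, g y = z

end defs

section lemmas

variable {k : Type} [Field k] {M : Type} [AddCommGroup M] [Module k M]
  {M₁ : Type} [AddCommGroup M₁] [Module k M₁] {M₂ : Type} [AddCommGroup M₂] [Module k M₂]
  {M₃ : Type} [AddCommGroup M₃] [Module k M₃]

/-- Linear choice. -/
private theorem lin_choice {W N : Type} [AddCommGroup W] [Module k W] [AddCommGroup N] [Module k N]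
    (P : W → N → Prop) (h0 : P 0 0)
    (hadd : ∀ w w' n n', P w n → P w' n' → P (w + w') (n + n'))
    (hsmul : ∀ (c : k) w n, P w n → P (c • w) (c • n)) (hex : ∀ w, ∃ n, P w n) :
    ∃ φ : W →ₗ[k] N, ∀ w, P w (φ w) := by
  let S : Submodule k (W × N) :=
    { carrier := {p | P p.1 p.2}
      zero_mem' := h0
      add_mem' := fun ha hb => hadd _ _ _ _ ha hb
      smul_mem' := fun c _ ha => hsmul c _ _ ha }
  obtain ⟨ψ, hψ⟩ := LinearMap.exists_rightInverse_of_surjective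
    ((LinearMap.fst k W N).comp S.subtype) (by
      rw [LinearMap.range_eq_top]
      intro w
      obtain ⟨n, hn⟩ := hex w
      exact ⟨⟨(w, n), hn⟩, rfl⟩)
  refine ⟨((LinearMap.snd k W N).comp S.subtype).comp ψ, fun w => ?_⟩
  have h1 : ((ψ w : W × N)).1 = w := LinearMap.congr_fun hψ w
  have h2 : P (ψ w : W × N).1 (ψ w : W × N).2 := (ψ w).2
  rw [h1] at h2
  exact h2

private theorem finrank_sub {W : Type} [AddCommGroup W] [Module k W] [FiniteDimensional k W]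
    {W₁ : Submodule k W} {S₁ : Submodule k W₁} {S : Submodule k W}
    (h : ∀ w : W₁, w ∈ S₁ → (w : W) ∈ S) : finrank k S₁ ≤ finrank k S := by
  have h1 : S₁.map W₁.subtype ≤ S := by
    rintro _ ⟨w, hw, rfl⟩
    exact h w hw
  rw [← Submodule.finrank_map_subtype_eq W₁ S₁]
  exact Submodule.finrank_mono h1

theorem HB_mono {d : M →ₗ[k] M} {G : ℤ → Submodule k M} {e : ℤ} {N N' : ℕ} (h : HB d G e N)
    (hN : N ≤ N') : HB d G e N' := by
  intro W _ _ _ ζ h1 h2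
  exact (h W ζ h1 h2).trans (by omega)

theorem HB_of_acy {d : M →ₗ[k] M} {G : ℤ → Submodule k M} {e : ℤ}
    (h : ∀ z ∈ G e, d z = 0 → ∃ w ∈ G (e + 1), d w = z) : HB d G e 0 := by
  intro W _ _ _ ζ h1 h2
  have h3 : (Bdr d G e).comap ζ = ⊤ := by
    rw [eq_top_iff]
    intro w _
    exact h _ (h1 w) (h2 w)
  rw [h3, finrank_top, add_zero]

theorem acy_of_HB0 {d : M →ₗ[k] M} {G : ℤ → Submodule k M} {e : ℤ} (h : HB d G e 0) :
    ∀ z ∈ G e, d z = 0 → ∃ w ∈ G (e + 1), d w = z := by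
  intro z hz hd
  have h1 := h k (LinearMap.toSpanSingleton k M z)
    (fun c => by
      rw [LinearMap.toSpanSingleton_apply]
      exact (G e).smul_mem c hz)
    (fun c => by
      rw [LinearMap.toSpanSingleton_apply, map_smul, hd, smul_zero])
  rw [add_zero] at h1
  have h2 : (Bdr d G e).comap (LinearMap.toSpanSingleton k M z) = ⊤ :=
    Submodule.eq_top_of_finrank_eq (le_antisymm (Submodule.finrank_le _) h1)
  have h3 : (1 : k) ∈ (Bdr d G e).comap (LinearMap.toSpanSingleton k M z) := by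
    rw [h2]
    trivial
  rw [Submodule.mem_comap, LinearMap.toSpanSingleton_apply, one_smul] at h3
  exact h3

variable {d₁ : M₁ →ₗ[k] M₁} {G₁ : ℤ → Submodule k M₁} {d₂ : M₂ →ₗ[k] M₂}
  {G₂ : ℤ → Submodule k M₂} {d₃ : M₃ →ₗ[k] M₃} {G₃ : ℤ → Submodule k M₃}
  {f : M₁ →ₗ[k] M₂} {g : M₂ →ₗ[k] M₃}

theorem HB_mid (h : SES d₁ G₁ d₂ G₂ d₃ G₃ f g) {e : ℤ} {a b : ℕ} (h₁ : HB d₁ G₁ e a)
    (h₃ : HB d₃ G₃ e b) : HB d₂ G₂ e (a + b) := by
  intro W _ _ _ ζ hζ hdζ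
  have hW₁ := h₃ W (g ∘ₗ ζ) (fun w => h.gG e _ (hζ w)) (fun w => by
    rw [LinearMap.comp_apply, h.gd e _ (hζ w), hdζ, map_zero])
  obtain ⟨W₁, hW₁d⟩ : ∃ W₁, W₁ = (Bdr d₃ G₃ e).comap (g ∘ₗ ζ) := ⟨_, rfl⟩
  rw [← hW₁d] at hW₁
  obtain ⟨φ, hφ⟩ := lin_choice (k := k) (W := W₁) (N := M₂ × M₁)
    (fun w n => n.1 ∈ G₂ (e + 1) ∧ n.2 ∈ G₁ e ∧ ζ w = d₂ n.1 + f n.2 ∧ d₁ n.2 = 0)
    (by simp)
    (by
      rintro w w' n n' ⟨h1, h2, h3, h4⟩ ⟨h1', h2', h3', h4'⟩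
      refine ⟨add_mem h1 h1', add_mem h2 h2', ?_, ?_⟩
      · rw [Submodule.coe_add, map_add, h3, h3', Prod.fst_add, Prod.snd_add, map_add, map_add]
        abel
      · rw [Prod.snd_add, map_add, h4, h4', add_zero])
    (by
      rintro c w n ⟨h1, h2, h3, h4⟩
      refine ⟨Submodule.smul_mem _ c h1, Submodule.smul_mem _ c h2, ?_, ?_⟩
      · rw [Submodule.coe_smul, map_smul, h3, Prod.smul_fst, Prod.smul_snd, map_smul, map_smul,
          smul_add]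
      · rw [Prod.smul_snd, map_smul, h4, smul_zero])
    (by
      intro w
      have h1 : (w : W) ∈ (Bdr d₃ G₃ e).comap (g ∘ₗ ζ) := by
        rw [← hW₁d]
        exact w.2
      obtain ⟨v, hv, hgv⟩ := h1
      obtain ⟨y, hy, rfl⟩ := h.gsur _ v hv
      have hyd : d₂ y ∈ G₂ e := by
        have := h.c₂.dG _ y hy
        rwa [add_sub_cancel_right] at this
      obtain ⟨u, hu, hfu⟩ := h.ex e (ζ w - d₂ y) (sub_mem (hζ w) hyd) (by
        rw [map_sub, ← h.gd _ y hy, hgv, LinearMap.comp_apply, sub_self])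
      refine ⟨(y, u), hy, hu, ?_, ?_⟩
      · rw [hfu]
        abel
      · refine h.finj (e - 1) _ (h.c₁.dG e u hu) ?_
        rw [← h.fd e u hu, hfu, map_sub, hdζ, h.c₂.dd _ y hy, sub_zero])
  have h4 := h₁ W₁ ((LinearMap.snd k M₂ M₁) ∘ₗ φ) (fun w => (hφ w).2.1) (fun w => (hφ w).2.2.2)
  have h5 : finrank k ((Bdr d₁ G₁ e).comap ((LinearMap.snd k M₂ M₁) ∘ₗ φ)) ≤
      finrank k ((Bdr d₂ G₂ e).comap ζ) := by
    refine finrank_sub fun w hw => ?_
    obtain ⟨x, hx, hdx⟩ := hw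
    refine ⟨(φ w).1 + f x, add_mem (hφ w).1 (h.fG _ x hx), ?_⟩
    rw [map_add, h.fd _ x hx, hdx, (hφ w).2.2.1]
    rfl
  omega

theorem HB_quot (h : SES d₁ G₁ d₂ G₂ d₃ G₃ f g) {e : ℤ} {a b : ℕ} (h₂ : HB d₂ G₂ e a)
    (h₁ : HB d₁ G₁ (e - 1) b) : HB d₃ G₃ e (a + b) := by
  intro W _ _ _ ζ hζ hdζ
  obtain ⟨y, hy⟩ := lin_choice (k := k) (W := W) (N := M₂) (fun w n => n ∈ G₂ e ∧ g n = ζ w)
    (by simp)
    (by
      rintro w w' n n' ⟨h1, h2⟩ ⟨h1', h2'⟩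
      exact ⟨add_mem h1 h1', by rw [map_add, map_add, h2, h2']⟩)
    (by
      rintro c w n ⟨h1, h2⟩
      exact ⟨Submodule.smul_mem _ c h1, by rw [map_smul, map_smul, h2]⟩)
    (fun w => h.gsur e _ (hζ w))
  obtain ⟨u, hu⟩ := lin_choice (k := k) (W := W) (N := M₁)
    (fun w n => n ∈ G₁ (e - 1) ∧ f n = d₂ (y w))
    (by simp)
    (by
      rintro w w' n n' ⟨h1, h2⟩ ⟨h1', h2'⟩
      exact ⟨add_mem h1 h1', by rw [map_add, map_add, map_add, h2, h2']⟩)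
    (by
      rintro c w n ⟨h1, h2⟩
      exact ⟨Submodule.smul_mem _ c h1, by rw [map_smul, map_smul, map_smul, h2]⟩)
    (fun w => h.ex (e - 1) _ (h.c₂.dG e _ (hy w).1) (by
      rw [← h.gd e _ (hy w).1, (hy w).2, hdζ]))
  have hW₁ := h₁ W u (fun w => (hu w).1) (fun w => by
    refine h.finj (e - 1 - 1) _ (h.c₁.dG _ _ (hu w).1) ?_
    rw [← h.fd _ _ (hu w).1, (hu w).2, h.c₂.dd e _ (hy w).1])
  obtain ⟨W₁, hW₁d⟩ : ∃ W₁, W₁ = (Bdr d₁ G₁ (e - 1)).comap u := ⟨_, rfl⟩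
  rw [← hW₁d] at hW₁
  obtain ⟨x, hx⟩ := lin_choice (k := k) (W := W₁) (N := M₁)
    (fun w n => n ∈ G₁ e ∧ d₁ n = u w)
    (by simp)
    (by
      rintro w w' n n' ⟨h1, h2⟩ ⟨h1', h2'⟩
      exact ⟨add_mem h1 h1', by rw [map_add, Submodule.coe_add, map_add, h2, h2']⟩)
    (by
      rintro c w n ⟨h1, h2⟩
      exact ⟨Submodule.smul_mem _ c h1, by rw [map_smul, Submodule.coe_smul, map_smul, h2]⟩)
    (by
      intro w
      have h1 : (w : W) ∈ (Bdr d₁ G₁ (e - 1)).comap u := by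
        rw [← hW₁d]
        exact w.2
      obtain ⟨v, hv, hdv⟩ := h1
      rw [sub_add_cancel] at hv
      exact ⟨v, hv, hdv⟩)
  have h4 := h₂ W₁ (y ∘ₗ W₁.subtype - f ∘ₗ x)
    (fun w => sub_mem (hy w).1 (h.fG e _ (hx w).1)) (fun w => by
      change d₂ (y w - f (x w)) = 0
      rw [map_sub, h.fd e _ (hx w).1, (hx w).2, (hu w).2, sub_self])
  have h5 : finrank k ((Bdr d₂ G₂ e).comap (y ∘ₗ W₁.subtype - f ∘ₗ x)) ≤
      finrank k ((Bdr d₃ G₃ e).comap ζ) := by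
    refine finrank_sub fun w hw => ?_
    obtain ⟨v, hv, hdv⟩ := hw
    refine ⟨g v, h.gG _ v hv, ?_⟩
    have h6 : d₂ v = y w - f (x w) := hdv
    rw [h.gd _ v hv, h6, map_sub, h.gf e _ (hx w).1, (hy w).2, sub_zero]
  omega

theorem HB_sub (h : SES d₁ G₁ d₂ G₂ d₃ G₃ f g) {e : ℤ} {a b : ℕ} (h₂ : HB d₂ G₂ e a)
    (h₃ : HB d₃ G₃ (e + 1) b) : HB d₁ G₁ e (a + b) := by
  intro W _ _ _ ζ hζ hdζ
  have hW₁ := h₂ W (f ∘ₗ ζ) (fun w => h.fG e _ (hζ w)) (fun w => by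
    rw [LinearMap.comp_apply, h.fd e _ (hζ w), hdζ, map_zero])
  obtain ⟨W₁, hW₁d⟩ : ∃ W₁, W₁ = (Bdr d₂ G₂ e).comap (f ∘ₗ ζ) := ⟨_, rfl⟩
  rw [← hW₁d] at hW₁
  obtain ⟨y, hy⟩ := lin_choice (k := k) (W := W₁) (N := M₂)
    (fun w n => n ∈ G₂ (e + 1) ∧ d₂ n = f (ζ w))
    (by simp)
    (by
      rintro w w' n n' ⟨h1, h2⟩ ⟨h1', h2'⟩
      exact ⟨add_mem h1 h1', by rw [map_add, Submodule.coe_add, map_add, map_add, h2, h2']⟩)
    (by
      rintro c w n ⟨h1, h2⟩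
      exact ⟨Submodule.smul_mem _ c h1, by
        rw [map_smul, Submodule.coe_smul, map_smul, map_smul, h2]⟩)
    (by
      intro w
      have h1 : (w : W) ∈ (Bdr d₂ G₂ e).comap (f ∘ₗ ζ) := by
        rw [← hW₁d]
        exact w.2
      exact h1)
  have h4 := h₃ W₁ (g ∘ₗ y) (fun w => h.gG _ _ (hy w).1) (fun w => by
    rw [LinearMap.comp_apply, h.gd _ _ (hy w).1, (hy w).2, h.gf e _ (hζ w)])
  have h5 : finrank k ((Bdr d₃ G₃ (e + 1)).comap (g ∘ₗ y)) ≤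
      finrank k ((Bdr d₁ G₁ e).comap ζ) := by
    refine finrank_sub fun w hw => ?_
    obtain ⟨v, hv, hdv⟩ := hw
    obtain ⟨z, hz, rfl⟩ := h.gsur _ v hv
    have hdz : d₂ z ∈ G₂ (e + 1) := by
      have := h.c₂.dG _ z hz
      rwa [add_sub_cancel_right] at this
    have h6 : d₃ (g z) = g (y w) := hdv
    obtain ⟨x, hx, hfx⟩ := h.ex (e + 1) (y w - d₂ z) (sub_mem (hy w).1 hdz) (by
      rw [map_sub, ← h.gd _ z hz, h6, sub_self])
    refine ⟨x, hx, ?_⟩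
    have hd1 : d₁ x ∈ G₁ e := by
      have := h.c₁.dG _ x hx
      rwa [add_sub_cancel_right] at this
    have h7 := h.finj e (d₁ x - ζ w) (sub_mem hd1 (hζ w)) (by
      rw [map_sub, ← h.fd _ x hx, hfx, map_sub, (hy w).2, h.c₂.dd _ z hz, sub_zero, sub_self])
    exact sub_eq_zero.1 h7
  omega

/-- Isomorphic complexes have the same homology. -/
theorem HB_iso (fG : ∀ e x, x ∈ G₁ e → f x ∈ G₂ e) (fd : ∀ e x, x ∈ G₁ e → d₂ (f x) = f (d₁ x))
    (finj : ∀ e x, x ∈ G₁ e → f x = 0 → x = 0) (fsur : ∀ e y, y ∈ G₂ e → ∃ x ∈ G₁ e, f x = y)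
    (dG : ∀ e x, x ∈ G₁ e → d₁ x ∈ G₁ (e - 1)) {e : ℤ} {N : ℕ} :
    HB d₁ G₁ e N ↔ HB d₂ G₂ e N := by
  constructor
  · intro h W _ _ _ ζ hζ hdζ
    obtain ⟨x, hx⟩ := lin_choice (k := k) (W := W) (N := M₁)
      (fun w n => n ∈ G₁ e ∧ f n = ζ w)
      (by simp)
      (by
        rintro w w' n n' ⟨h1, h2⟩ ⟨h1', h2'⟩
        exact ⟨add_mem h1 h1', by rw [map_add, map_add, h2, h2']⟩)
      (by
        rintro c w n ⟨h1, h2⟩
        exact ⟨Submodule.smul_mem _ c h1, by rw [map_smul, map_smul, h2]⟩)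
      (fun w => fsur e _ (hζ w))
    have h1 := h W x (fun w => (hx w).1) (fun w => by
      refine finj (e - 1) _ (dG e _ (hx w).1) ?_
      rw [← fd e _ (hx w).1, (hx w).2, hdζ])
    have h2 : finrank k ((Bdr d₁ G₁ e).comap x) ≤ finrank k ((Bdr d₂ G₂ e).comap ζ) := by
      refine Submodule.finrank_mono fun w hw => ?_
      obtain ⟨v, hv, hdv⟩ := hw
      refine ⟨f v, fG _ v hv, ?_⟩
      rw [fd _ v hv, hdv, (hx w).2]
    omega
  · intro h W _ _ _ ζ hζ hdζ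
    have h1 := h W (f ∘ₗ ζ) (fun w => fG e _ (hζ w)) (fun w => by
      rw [LinearMap.comp_apply, fd e _ (hζ w), hdζ, map_zero])
    have h2 : finrank k ((Bdr d₂ G₂ e).comap (f ∘ₗ ζ)) ≤ finrank k ((Bdr d₁ G₁ e).comap ζ) := by
      refine Submodule.finrank_mono fun w hw => ?_
      obtain ⟨v, hv, hdv⟩ := hw
      obtain ⟨x, hx, rfl⟩ := fsur _ v hv
      refine ⟨x, hx, ?_⟩
      have hd1 : d₁ x ∈ G₁ e := by
        have := dG _ x hx
        rwa [add_sub_cancel_right] at this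
      have h3 := finj e (d₁ x - ζ w) (sub_mem hd1 (hζ w)) (by
        rw [map_sub, ← fd _ x hx, hdv, LinearMap.comp_apply, sub_self])
      exact sub_eq_zero.1 h3
    omega

/-- A functional vanishing on all cycles of degree `n` is a coboundary on `G n`. -/
theorem cobd_of_vanish {d : M →ₗ[k] M} {G : ℤ → Submodule k M} {n : ℤ} (a : M →ₗ[k] k)
    (h : ∀ z ∈ G n, d z = 0 → a z = 0) : ∃ b : M →ₗ[k] k, ∀ x ∈ G n, a x = b (d x) := by
  obtain ⟨b₀, hb₀⟩ := lin_choice (k := k) (W := (G n).map d) (N := k)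
    (fun w c => ∃ x ∈ G n, d x = w ∧ a x = c)
    ⟨0, zero_mem _, by simp, by simp⟩
    (by
      rintro w w' c c' ⟨x, hx, h1, h2⟩ ⟨x', hx', h1', h2'⟩
      exact ⟨x + x', add_mem hx hx', by rw [map_add, h1, h1', Submodule.coe_add],
        by rw [map_add, h2, h2']⟩)
    (by
      rintro c w e ⟨x, hx, h1, h2⟩
      exact ⟨c • x, Submodule.smul_mem _ c hx, by rw [map_smul, h1, Submodule.coe_smul],
        by rw [map_smul, h2]⟩)
    (by
      rintro ⟨_, x, hx, rfl⟩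
      exact ⟨a x, x, hx, rfl, rfl⟩)
  obtain ⟨b, hb⟩ := LinearMap.exists_extend b₀
  refine ⟨b, fun x hx => ?_⟩
  obtain ⟨x', hx', h1, h2⟩ := hb₀ ⟨d x, x, hx, rfl⟩
  have h3 : b (d x) = b₀ ⟨d x, x, hx, rfl⟩ := LinearMap.congr_fun hb ⟨d x, x, hx, rfl⟩
  rw [h3, ← h2]
  have h4 := h (x - x') (sub_mem hx hx') (by rw [map_sub, h1, sub_self])
  rw [map_sub] at h4
  exact sub_eq_zero.1 h4

/-- The bound for the dual complex. -/
theorem HB_dual {d : M →ₗ[k] M} {G : ℤ → Submodule k M} {n : ℤ} {N : ℕ} (h : HB d G n N)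
    (W : Type) [AddCommGroup W] [Module k W] [FiniteDimensional k W]
    (ζ : W →ₗ[k] (M →ₗ[k] k)) (hζ : ∀ w, ∀ x ∈ G (n + 1), ζ w (d x) = 0)
    (S : Submodule k W) (hS : ∀ w, (∃ b : M →ₗ[k] k, ∀ x ∈ G n, ζ w x = b (d x)) → w ∈ S) :
    finrank k W ≤ finrank k S + N := by
  -- the pairing of the cycles with `W`
  obtain ⟨Z, hZ⟩ : ∃ Z : Submodule k M, Z = G n ⊓ LinearMap.ker d := ⟨_, rfl⟩
  let P : Z →ₗ[k] Dual k W := ζ.flip ∘ₗ Z.subtype
  have hP : ∀ z w, P z w = ζ w z := fun z w => rfl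
  obtain ⟨σ, hσ'⟩ := lin_choice (k := k) (W := LinearMap.range P) (N := Z)
    (fun r z => P z = r)
    (map_zero P)
    (fun w w' z z' h1 h2 => by rw [map_add, h1, h2, Submodule.coe_add])
    (fun c w z h1 => by rw [map_smul, h1, Submodule.coe_smul])
    (by
      rintro ⟨_, z, rfl⟩
      exact ⟨z, rfl⟩)
  have hmem : ∀ z : Z, (z : M) ∈ G n ∧ d z = 0 := by
    intro z
    have h1 : (z : M) ∈ G n ⊓ LinearMap.ker d := by
      rw [← hZ]
      exact z.2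
    exact ⟨h1.1, h1.2⟩
  have h1 := h (LinearMap.range P) (Z.subtype ∘ₗ σ) (fun r => (hmem (σ r)).1)
    (fun r => (hmem (σ r)).2)
  have h2 : (Bdr d G n).comap (Z.subtype ∘ₗ σ) = ⊥ := by
    rw [eq_bot_iff]
    rintro r ⟨x, hx, hdx⟩
    rw [Submodule.mem_bot]
    apply Subtype.ext
    rw [← hσ' r]
    ext w
    rw [hP]
    have h3 : d x = (σ r : M) := hdx
    rw [← h3, hζ w x hx]
    rfl
  rw [h2, finrank_bot, zero_add] at h1
  have h3 := Subspace.finrank_add_finrank_dualCoannihilator_eq (LinearMap.range P)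
  have h4 : finrank k (Submodule.dualCoannihilator (LinearMap.range P)) ≤ finrank k S := by
    refine Submodule.finrank_mono fun w hw => hS w ?_
    refine cobd_of_vanish (ζ w) fun z hz hdz => ?_
    rw [Submodule.mem_dualCoannihilator] at hw
    have hzZ : z ∈ Z := by
      rw [hZ]
      exact ⟨hz, hdz⟩
    exact hw (P ⟨z, hzZ⟩) ⟨⟨z, hzZ⟩, rfl⟩
  omega

end lemmas

end BPN.E
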