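import Pool.Agent.BPN.EM
import Pool.Agent.BPN.E.HB

/-!
# Part (E): definitions for the functor calculus (project BPN, architect helper30)

Partial maps `g : Z → Option Z'`, push forward of finitely supported functions, the boundary operator
of a locally finite family of partial maps, the surjections `Sj` (simplices of the sphere spectrum),
tuples and multisets of them, symmetric and alternating functions, the operators `Dq` and `Lq`, and
the complexes used in the decalage and Koszul sequences.
-/

namespace BPN.E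

open Module

/-! ### Partial maps and push forward -/

section push

variable (k : Type) [Field k] {Z Z' : Type}

/-- Push forward of finitely supported functions along a partial map. -/
noncomputable def push (g : Z → Option Z') : (Z →₀ k) →ₗ[k] (Z' →₀ k) :=
  Finsupp.lsum ℕ fun z => (g z).elim 0 fun z' => Finsupp.lsingle z'

/-- Locally finite family of partial maps. -/
def LFz (f : ℕ → Z → Option Z') : Prop := ∀ z, ∃ N, ∀ i, N ≤ i → f i z = none

/-- The smallest bound for the indices `i` with `f i z` defined. -/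
noncomputable def bnd (f : ℕ → Z → Option Z') (z : Z) : ℕ := sInf {N | ∀ i, N ≤ i → f i z = none}

/-- The alternating sum of the push forwards (boundary operator) of a family of partial maps. -/
noncomputable def bd (f : ℕ → Z → Option Z') : (Z →₀ k) →ₗ[k] (Z' →₀ k) :=
  Finsupp.lsum ℕ fun z => ∑ i ∈ Finset.range (bnd f z),
    (-1 : ℤ) ^ i • (f i z).elim 0 fun z' => Finsupp.lsingle z'

end push

section combine

variable {A A' B B' : Type}

/-- Product of two partial maps. -/
def pr (g : A → Option A') (h : B → Option B') : A × B → Option (A' × B') := fun z =>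
  (g z.1).bind fun a => (h z.2).map fun b => (a, b)

open Classical in
/-- A partial map applied to all entries of a tuple; undefined if it is undefined somewhere. -/
noncomputable def tup (n : ℕ) (g : A → Option A') : (Fin n → A) → Option (Fin n → A') := fun x =>
  if h : ∃ y : Fin n → A', ∀ i, g (x i) = some (y i) then some h.choose else none

open Classical in
/-- A partial map applied to all elements of a multiset; undefined if it is undefined somewhere. -/
noncomputable def ms (g : A → Option A') : Multiset A → Option (Multiset A') := fun x =>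
  if ∀ a ∈ x, (g a).isSome then some (x.filterMap g) else none

end combine

/-! ### Surjections -/

/-- Monotone surjections `ℕ → ℕ` which are eventually a shift. -/
def Good (s : ℕ → ℕ) : Prop := Monotone s ∧ Function.Surjective s ∧ ∃ e : ℤ, Shift s (-e)

/-- The nondegenerate-or-degenerate simplices of the sphere spectrum. -/
def Sj : Type := {s : ℕ → ℕ // Good s}

/-- The excess: `s i = i - exc s` for large `i`. -/
noncomputable def exc (s : Sj) : ℤ := s.2.2.2.choose

open Classical in
/-- Precomposition with an operator, undefined if the result is not surjective. -/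
noncomputable def act (α : ℕ → ℕ) (s : Sj) : Option Sj :=
  if h : Good (s.1 ∘ α) then some ⟨s.1 ∘ α, h⟩ else none

/-- The operators of the contraction of the path object. -/
def th (k j : ℕ) : ℕ := if j ≤ k + 1 then 0 else j - 1

/-- Level `m`: only the blocks of the values `0, .., m` may have more than one element. -/
def Lv (m : ℕ∞) (s : Sj) : Prop := ∀ i j, m < (s.1 i : ℕ∞) → s.1 i = s.1 j → i = j

/-- The block of `0` is `{0}`. -/
def InB (s : Sj) : Prop := s.1 1 ≠ 0

/-- `(jm s) 0 = 0`, `(jm s) (i+1) = s i + 1`. -/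
def jmf (s : ℕ → ℕ) : ℕ → ℕ
  | 0 => 0
  | i + 1 => s i + 1

theorem Good.jm {s : ℕ → ℕ} (h : Good s) : Good (jmf s) := by
  obtain ⟨h1, h2, e, N, h3⟩ := h
  refine ⟨?_, ?_, e, N + 1, ?_⟩
  · intro a b hab
    cases a with
    | zero => exact Nat.zero_le _
    | succ a =>
      cases b with
      | zero => omega
      | succ b => exact Nat.succ_le_succ (h1 (by omega))
  · intro v
    cases v with
    | zero => exact ⟨0, rfl⟩
    | succ v =>
      obtain ⟨i, hi⟩ := h2 v
      exact ⟨i + 1, by simp [jmf, hi]⟩
  · intro i hi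
    cases i with
    | zero => omega
    | succ i =>
      have := h3 i (by omega)
      simp only [jmf]
      push_cast
      omega

/-- The inclusion of the sphere in the path object of the next sphere. -/
def jm (s : Sj) : Sj := ⟨jmf s.1, s.2.jm⟩

/-- The faces `d_{i+c}`: `c = 0` for spheres, `c = 1` for path objects. -/
noncomputable def fa (c i : ℕ) : Sj → Option Sj := act (dl (i + c))

/-! ### Symmetric and alternating functions -/

section sym

variable (k : Type) [Field k] (A : Type)

/-- Finitely supported functions on `A^b × A^a`, symmetric in the first and alternating in the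
second group of variables. -/
def SA (b a : ℕ) : Submodule k (((Fin b → A) × (Fin a → A)) →₀ k) where
  carrier := {φ | (∀ (σ : Equiv.Perm (Fin b)) x y, φ (x ∘ σ, y) = φ (x, y)) ∧
    (∀ (σ : Equiv.Perm (Fin a)) x y, φ (x, y ∘ σ) = (Equiv.Perm.sign σ : ℤ) • φ (x, y)) ∧
    ∀ x y i j, i ≠ j → y i = y j → φ (x, y) = 0}
  zero_mem' := by simp
  add_mem' := by
    rintro φ ψ ⟨h1, h2, h3⟩ ⟨h1', h2', h3'⟩
    refine ⟨fun σ x y => ?_, fun σ x y => ?_, fun x y i j hij hy => ?_⟩
    · simp only [Finsupp.add_apply, h1, h1']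
    · simp only [Finsupp.add_apply, h2, h2', smul_add]
    · simp only [Finsupp.add_apply, h3 x y i j hij hy, h3' x y i j hij hy, add_zero]
  smul_mem' := by
    rintro c φ ⟨h1, h2, h3⟩
    refine ⟨fun σ x y => ?_, fun σ x y => ?_, fun x y i j hij hy => ?_⟩
    · simp only [Finsupp.smul_apply, h1]
    · simp only [Finsupp.smul_apply, h2, smul_comm c]
    · simp only [Finsupp.smul_apply, h3 x y i j hij hy, smul_zero]

/-- Finitely supported functions on multisets times tuples, alternating in the tuple. -/
def AL (b : ℕ) : Submodule k ((Multiset A × (Fin b → A)) →₀ k) where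
  carrier := {φ | (∀ (σ : Equiv.Perm (Fin b)) x y,
      φ (x, y ∘ σ) = (Equiv.Perm.sign σ : ℤ) • φ (x, y)) ∧
    ∀ x y i j, i ≠ j → y i = y j → φ (x, y) = 0}
  zero_mem' := by simp
  add_mem' := by
    rintro φ ψ ⟨h2, h3⟩ ⟨h2', h3'⟩
    refine ⟨fun σ x y => ?_, fun x y i j hij hy => ?_⟩
    · simp only [Finsupp.add_apply, h2, h2', smul_add]
    · simp only [Finsupp.add_apply, h3 x y i j hij hy, h3' x y i j hij hy, add_zero]
  smul_mem' := by
    rintro c φ ⟨h2, h3⟩
    refine ⟨fun σ x y => ?_, fun x y i j hij hy => ?_⟩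
    · simp only [Finsupp.smul_apply, h2, smul_comm c]
    · simp only [Finsupp.smul_apply, h3 x y i j hij hy, smul_zero]

variable {A}

/-- The map `(x, y) ↦ (x ⊔ (y_i)^q, y without y_i)`. -/
def iot (q b a : ℕ) (i : Fin (a + 1)) (z : (Fin b → A) × (Fin (a + 1) → A)) :
    (Fin (b + q) → A) × (Fin a → A) :=
  (Fin.append z.1 fun _ => z.2 i, z.2 ∘ i.succAbove)

theorem iot_inj {q : ℕ} (hq : 0 < q) (b a : ℕ) (i : Fin (a + 1)) :
    Function.Injective (iot (A := A) q b a i) := by
  rintro ⟨x, y⟩ ⟨x', y'⟩ h
  simp only [iot, Prod.mk.injEq] at h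
  obtain ⟨h1, h2⟩ := h
  have hx : x = x' := by
    funext t
    have := congrFun h1 (Fin.castAdd q t)
    simpa using this
  have hi : y i = y' i := by
    have := congrFun h1 (Fin.natAdd b ⟨0, hq⟩)
    rwa [Fin.append_right, Fin.append_right] at this
  refine Prod.ext hx (funext fun t => ?_)
  rcases Fin.eq_self_or_eq_succAbove i t with rfl | ⟨t', rfl⟩
  · exact hi
  · exact congrFun h2 t'

/-- `(Dq φ)(x; y_0, .., y_a) = ∑ i, (-1)^i φ(x ⊔ (y_i)^q; y_0, .. without y_i .., y_a)`
(zero if `q = 0`). -/
noncomputable def Dq (q b a : ℕ) : (((Fin (b + q) → A) × (Fin a → A)) →₀ k) →ₗ[k]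
    (((Fin b → A) × (Fin (a + 1) → A)) →₀ k) :=
  if hq : 0 < q then
    ∑ i : Fin (a + 1), (-1 : ℤ) ^ (i : ℕ) • Finsupp.lcomapDomain (iot q b a i) (iot_inj hq b a i)
  else 0

/-- `L δ_{(x; z, y)} = δ_{(x + q z; y)}`. -/
noncomputable def Lq (q b : ℕ) : ((Multiset A × (Fin (b + 1) → A)) →₀ k) →ₗ[k]
    ((Multiset A × (Fin b → A)) →₀ k) :=
  Finsupp.lmapDomain k k fun z => (z.1 + Multiset.replicate q (z.2 0), Fin.tail z.2)

end sym

/-! ### The complexes -/

/-- The type carrying `Γ^b ⊗ Λ^a`. -/
abbrev TT (b a : ℕ) : Type := (Fin b → Sj) × (Fin a → Sj)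

/-- The type carrying `S^* ⊗ Λ^b`. -/
abbrev MT (b : ℕ) : Type := Multiset Sj × (Fin b → Sj)

/-- Faces on `TT b a` (`c = 0` sphere, `c = 1` path object). -/
noncomputable def FT (c b a i : ℕ) : TT b a → Option (TT b a) := pr (tup b (fa c i)) (tup a (fa c i))

/-- Faces on `MT b`. -/
noncomputable def FM (c b i : ℕ) : MT b → Option (MT b) := pr (ms (fa c i)) (tup b (fa c i))

variable (k : Type) [Field k]

/-- `Γ^b ⊗ Λ^a` in excess `e` with entries in `P` resp. `P'`. -/
noncomputable def GT (b a : ℕ) (P P' : Sj → Prop) (e : ℤ) : Submodule k (TT b a →₀ k) :=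
  SA k Sj b a ⊓ Finsupp.supported k k
    {z | (∀ i, exc (z.1 i) = e ∧ P (z.1 i)) ∧ ∀ j, exc (z.2 j) = e ∧ P' (z.2 j)}

/-- `S^a ⊗ Λ^b` in excess `e` with entries in `P` resp. `P'`. -/
noncomputable def GM (a b : ℕ) (P P' : Sj → Prop) (e : ℤ) : Submodule k (MT b →₀ k) :=
  AL k Sj b ⊓ Finsupp.supported k k
    {z | Multiset.card z.1 = a ∧ (∀ s ∈ z.1, exc s = e ∧ P s) ∧ ∀ j, exc (z.2 j) = e ∧ P' (z.2 j)}

/-- `Γ^d` of the sphere at level `m`. -/
noncomputable abbrev Ga (d : ℕ) (m : ℕ∞) : ℤ → Submodule k (TT d 0 →₀ k) := GT k d 0 (Lv m) (Lv m)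

/-- `Λ^d` of the sphere at level `m`. -/
noncomputable abbrev La (d : ℕ) (m : ℕ∞) : ℤ → Submodule k (TT 0 d →₀ k) := GT k 0 d (Lv m) (Lv m)

/-- `S^d` of the sphere at level `m`. -/
noncomputable abbrev Sy (d : ℕ) (m : ℕ∞) : ℤ → Submodule k (MT 0 →₀ k) := GM k d 0 (Lv m) (Lv m)

open Classical in
/-- Faces on truncated multisets (all multiplicities `< p`). -/
noncomputable def FR (p : ℕ) (i : ℕ) : Multiset Sj → Option (Multiset Sj) := fun x =>
  (ms (fa 0 i) x).bind fun y => if ∀ s, y.count s < p then some y else none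

open Classical in
/-- The truncated symmetric power `S^d / (v^p)` at level `m`, excess `e`. -/
noncomputable def Tr (p d : ℕ) (m : ℕ∞) (e : ℤ) : Submodule k (Multiset Sj →₀ k) :=
  Finsupp.supported k k {x | Multiset.card x = d ∧ (∀ s, x.count s < p) ∧
    ∀ s ∈ x, exc s = e ∧ Lv m s}

end BPN.E
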