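import Pool.Agent.BPN.E.Kun
import Pool.Agent.BPN.E.ActH
import Pool.Agent.BPN.E.Cell
import Pool.Agent.BPN.E.Comm

/-!
# Part (E), module Del: the deletion property of operations (project BPN, architect helper30)

THEOREM `del`: for `s = 1, 2`, an operation `a` of degree `k` and a cocycle `u` of degree `m` of `X`, in `H^*(X × BC)`:
`a(u × psi s) = a(u) × psi s + ∑_{s < b ≤ m+s+k} φ_b × psi b`.

PROOF.  `n = m + s + k`.  `KSurj`: `a(u × psi s) = ∑_{b ≤ n} φ_b × psi b`.
Test spaces `Z_s ⊆ BC = BV p Unit` (`subS`): `Z_1`: simplices whose vertex sequence is `0, .., 0, 1, .., 1`; `Z_2`: simplices whose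
vertex sequence is `0, .., 0, α, .., α, β, .., β` (at most two jumps); both are closed under all operators (the new
vertices are `g_(f i) - g_(f 0)`), have finitely many simplices in every dimension, and for `b > s` the restriction of
`psi b` vanishes (normalised, every simplex of dimension `b > s` is degenerate: two neighbouring vertices agree).
`CellHyp Z_1 1 (psi 1)`: for `τ` with jump at `c` (`g_i = 0` for `i < c`, `1` for `i ≥ c`), `1 ≤ c ≤ N`: `t i = 0` for `i < c`, `1`
otherwise; constant `τ`: `psi 1` vanishes on all faces.  `CellHyp Z_2 2 (psi 2)`: `psi 2 = y ∪ 1 = y`; `y` of a face is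
`carry(g_(f 1) - g_(f 0), g_(f 2) - g_(f 1))`, and `carry a 0 = carry 0 b = 0`; so if `carry(α, β - α) = 0` it vanishes on all
faces, otherwise (both jumps proper) `t i = 0, 1, 2` on the three blocks.
`act_cell` for `j : Z_s → BC` (restriction): `act a (u × psi s|) = act a u × psi s|`.  Pull back along `id × j`:
`∑_{b ≤ s} φ_b × psi b| = a(u) × psi s|`.  `KInj` for `Z_s`, `t = s`: the classes `psi b|`, `b ≤ s`, are not coboundaries:
`b = 0`: `1 ≠ 0`; `b = 1`: coboundaries in degree 1 vanish (one vertex) and `x` is `1` on the simplex `(0, 1)`; `b = 2`, `s = 2`: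
if `y = δ e` then `1 = ∑_{c ∈ C} y(1, c) = ∑_c (e(c) - e(1 + c) + e(1)) = 0` (simplices with vertices `0, 1, 1 + c`).
Hence `φ_b ~ 0` for `b < s` and `φ_s ~ a(u)`.
-/

namespace BPN.E

open CategoryTheory SSet Simplicial Opposite

/-- A simplicial subset. -/
def subS (X : SSet.{0}) (P : ∀ n : SimplexCategoryᵒᵖ, X.obj n → Prop)
    (h : ∀ {m n : SimplexCategoryᵒᵖ} (f : m ⟶ n) x, P m x → P n (X.map f x)) : SSet.{0} where
  obj := fun n => {x : X.obj n // P n x}
  map := fun f => TypeCat.ofHom fun x => ⟨X.map f x.1, h f x.1 x.2⟩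
  map_id := by
    intro n
    refine ConcreteCategory.hom_ext _ _ fun x => ?_
    refine Subtype.ext ?_
    change X.map (𝟙 n) x.1 = x.1
    rw [X.map_id]
    rfl
  map_comp := by
    intro l m n f g
    refine ConcreteCategory.hom_ext _ _ fun x => ?_
    refine Subtype.ext ?_
    change X.map (f ≫ g) x.1 = X.map g (X.map f x.1)
    rw [X.map_comp]
    rfl

/-- The inclusion of a simplicial subset. -/
def subI (X : SSet.{0}) (P : ∀ n : SimplexCategoryᵒᵖ, X.obj n → Prop)
    (h : ∀ {m n : SimplexCategoryᵒᵖ} (f : m ⟶ n) x, P m x → P n (X.map f x)) :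
    subS X P h ⟶ X where
  app := fun _ => TypeCat.ofHom fun x => x.1
  naturality := by
    intro m n f
    rfl

variable {p : ℕ} [Fact p.Prime]

/-- at most `s` jumps -/
private def Ps (p s : ℕ) (n : SimplexCategoryᵒᵖ) (g : (BV p Unit).obj n) : Prop :=
  ∃ (t : ℕ → ℕ) (c : ℕ → ZMod p), Monotone t ∧ t 0 = 0 ∧ (∀ i, t i ≤ s) ∧
    (s = 1 → ∀ j : ℕ, c j = j) ∧ ∀ i : Fin (n.unop.len + 1), g.1 i () = c (t i)

private theorem Ps_map (s : ℕ) {m n : SimplexCategoryᵒᵖ} (f : m ⟶ n) (g : (BV p Unit).obj m)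
    (hg : Ps p s m g) : Ps p s n ((BV p Unit).map f g) := by
  obtain ⟨t, c, h1, h2, h3, h4, h5⟩ := hg
  obtain ⟨F, hF⟩ : ∃ F : ℕ → ℕ, F = fun i =>
    (f.unop.toOrderHom ⟨min i n.unop.len, by omega⟩ : ℕ) := ⟨_, rfl⟩
  have hFm : Monotone F := by
    intro i j hij
    rw [hF]
    exact f.unop.toOrderHom.monotone (show (⟨min i n.unop.len, _⟩ : Fin (n.unop.len + 1)) ≤
      ⟨min j n.unop.len, _⟩ from min_le_min_right _ hij)
  have hFi : ∀ i : Fin (n.unop.len + 1), F i = (f.unop.toOrderHom i : ℕ) := by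
    intro i
    rw [hF]
    have h6 : (⟨min (i : ℕ) n.unop.len, by omega⟩ : Fin (n.unop.len + 1)) = i := by
      apply Fin.ext
      have := i.2
      simp only
      omega
    simp only
    rw [h6]
  refine ⟨fun i => t (F i) - t (F 0), fun j => c (j + t (F 0)) - c (t (F 0)), ?_, ?_, ?_, ?_, ?_⟩
  · intro i j hij
    have := h1 (hFm hij)
    simp only
    omega
  · simp
  · intro i
    have := h3 (F i)
    simp only
    omega
  · intro hs j
    change c (j + t (F 0)) - c (t (F 0)) = j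
    rw [h4 hs, h4 hs]
    push_cast
    ring
  · intro i
    have e1 : ((BV p Unit).map f g).1 i () =
        g.1 (f.unop.toOrderHom i) () - g.1 (f.unop.toOrderHom 0) () := rfl
    have h7 : t (F 0) ≤ t (F i) := h1 (hFm (Nat.zero_le _))
    have h8 := hFi 0
    rw [e1, h5, h5, ← hFi i]
    simp only
    rw [Nat.sub_add_cancel h7]
    congr 3
    exact h8.symm

/-- the test space -/
private def Zs (p : ℕ) (s : ℕ) [Fact p.Prime] : SSet.{0} := subS (BV p Unit) (Ps p s) (Ps_map s)

private def jZ (p : ℕ) (s : ℕ) [Fact p.Prime] : Zs p s ⟶ BV p Unit :=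
  subI (BV p Unit) (Ps p s) (Ps_map s)

private theorem app_jZ {s n : ℕ} (τ : (Zs p s).obj (op ⦋n⦌)) :
    (jZ p s).app (op ⦋n⦌) τ = τ.1 := rfl

private theorem opr_Z {s a b : ℕ} {f : ℕ → ℕ} (hf : Monotone f) (hb : ∀ i, i ≤ a → f i ≤ b)
    (τ : (Zs p s).obj (op ⦋b⦌)) : (opr (Zs p s) f hf hb τ).1 = opr (BV p Unit) f hf hb τ.1 := rfl

private theorem vx_fin {n : ℕ} (g : (BV p Unit).obj (op ⦋n⦌)) {i : ℕ} (h : i ≤ n) :
    vx g i = g.1 ⟨i, Nat.lt_succ_of_le h⟩ := dif_pos (Nat.lt_succ_of_le h)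

private theorem Ps_vx {s n : ℕ} {g : (BV p Unit).obj (op ⦋n⦌)} (h : Ps p s (op ⦋n⦌) g) :
    ∃ (t : ℕ → ℕ) (c : ℕ → ZMod p), Monotone t ∧ t 0 = 0 ∧ (∀ i, t i ≤ s) ∧
      (s = 1 → ∀ j : ℕ, c j = j) ∧ ∀ i, i ≤ n → vx g i () = c (t i) := by
  obtain ⟨t, c, h1, h2, h3, h4, h5⟩ := h
  refine ⟨t, c, h1, h2, h3, h4, fun i hi => ?_⟩
  rw [vx_fin g hi]
  exact h5 ⟨i, Nat.lt_succ_of_le hi⟩

private theorem Ps_mk {s n : ℕ} {g : (BV p Unit).obj (op ⦋n⦌)} (t : ℕ → ℕ) (c : ℕ → ZMod p)
    (h1 : Monotone t) (h2 : t 0 = 0) (h3 : ∀ i, t i ≤ s) (h4 : s = 1 → ∀ j : ℕ, c j = j)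
    (h5 : ∀ i, i ≤ n → vx g i () = c (t i)) : Ps p s (op ⦋n⦌) g := by
  refine ⟨t, c, h1, h2, h3, h4, fun i => ?_⟩
  have h6 := h5 i.1 (Nat.le_of_lt_succ i.2)
  rw [vx_fin g (Nat.le_of_lt_succ i.2)] at h6
  exact h6

private theorem finZ (s n : ℕ) : Finite ((Zs p s).obj (op ⦋n⦌)) := by
  have h1 : Finite ((BV p Unit).obj (op ⦋n⦌)) := by
    change Finite {g : Fin (n + 1) → Unit → ZMod p // g 0 = 0}
    infer_instance
  exact Subtype.finite

/-- `psi b` vanishes on the simplices with fewer jumps -/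
private theorem psi_van {s b : ℕ} (hb : s < b) : pbZ (jZ p s) b (psi p () b) = 0 := by
  refine Subtype.ext (funext fun τ => ?_)
  change (psi p () b).1 τ.1 = 0
  obtain ⟨t, c, h1, h2, h3, -, h5⟩ := Ps_vx τ.2
  obtain ⟨i, hi, hi2⟩ : ∃ i, i < b ∧ t i = t (i + 1) := by
    by_contra hcon
    push Not at hcon
    have key : ∀ i, i ≤ b → i ≤ t i := by
      intro i
      induction i with
      | zero => intro _; omega
      | succ i ih =>
        intro hi
        have h6 := ih (by omega)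
        have h7 := hcon i (by omega)
        have h8 := h1 (Nat.le_succ i)
        have h9 : t i < t (i + 1) := lt_of_le_of_ne h8 h7
        omega
    have h6 := key b le_rfl
    have h7 := h3 b
    omega
  have hm : Monotone (dl (i + 1) ∘ sg i) := (dl_strictMono _).monotone.comp (sg_mono i)
  have hval : ∀ j, (dl (i + 1) ∘ sg i) j = if j = i + 1 then i else j := by
    intro j
    simp only [Function.comp_apply, dl, sg]
    split_ifs <;> omega
  have hbd : ∀ j, j ≤ b → (dl (i + 1) ∘ sg i) j ≤ b := by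
    intro j hj
    rw [hval]
    split_ifs <;> omega
  have h6 : opr (BV p Unit) (dl (i + 1) ∘ sg i) hm hbd τ.1 = τ.1 := by
    refine vx_ext fun j hj => ?_
    rw [vx_opr hm hbd τ.1 hj, hval, hval, if_neg (by omega : ¬ 0 = i + 1), vx_zero, sub_zero]
    split_ifs with h7
    · subst h7
      funext u
      have e1 := h5 i (by omega)
      have e2 := h5 (i + 1) hj
      change vx τ.1 i () = vx τ.1 (i + 1) ()
      rw [e1, e2, hi2]
    · rfl
  rw [← h6]
  refine CoC.opr_eq_zero (psi p () b).2.1 hm hbd τ.1 (a := i) (by omega) ?_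
  rw [hval, hval, if_neg (by omega), if_pos rfl]

private theorem carry_0l (b : ZMod p) : carry p 0 b = 0 := by
  unfold carry
  rw [ZMod.val_zero, zero_add, if_neg (not_le.2 (ZMod.val_lt b))]

private theorem carry_0r (a : ZMod p) : carry p a 0 = 0 := by
  unfold carry
  rw [ZMod.val_zero, add_zero, if_neg (not_le.2 (ZMod.val_lt a))]

private theorem carry_01 (a b : ZMod p) : carry p a b = 0 ∨ carry p a b = 1 := by
  unfold carry
  split_ifs
  · exact Or.inr rfl
  · exact Or.inl rfl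

/-- the value of `psi 2` -/
private theorem psi2 (g : (BV p Unit).obj (op ⦋2⦌)) : (psi p () 2).1 g =
    carry p (vx g 1 ()) (vx g 2 () - vx g 1 ()) := by
  have h1 : psi p () 2 = cupZ (show 2 + 0 = 0 + 2 by omega) (yc p ()) (oneZ p _) := by
    simp only [psi]
  rw [h1]
  change carry p (vx (opr (BV p Unit) id monotone_id _ g) 1 ())
    (vx (opr (BV p Unit) id monotone_id _ g) 2 () - vx (opr (BV p Unit) id monotone_id _ g) 1 ()) *
      1 = _
  rw [opr_id, mul_one]

private theorem psi1 (g : (BV p Unit).obj (op ⦋1⦌)) : (psi p () 1).1 g = vx g 1 () := rfl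

private theorem cell {s : ℕ} (hs : s = 1 ∨ s = 2) :
    CellHyp (Zs p s) s (pbZ (jZ p s) s (psi p () s)) := by
  intro N τ
  obtain ⟨t, c, h1, h2, h3, h4, h5⟩ := Ps_vx τ.2
  rcases hs with rfl | rfl
  · refine Or.inr ⟨t, h1, fun i _ => h3 i, fun f hf hb => ?_⟩
    have e1 : (pbZ (jZ p 1) 1 (psi p () 1)).1 (opr (Zs p 1) f hf hb τ) =
        c (t (f 1)) - c (t (f 0)) := by
      change (psi p () 1).1 (opr (BV p Unit) f hf hb τ.1) = _
      rw [psi1, vx_opr hf hb τ.1 le_rfl, Pi.sub_apply, h5 _ (hb 1 le_rfl),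
        h5 _ (hb 0 (by omega))]
    rw [e1, h4 rfl, h4 rfl]
    have h6 := h1 (hf (Nat.zero_le 1))
    have h7 := h3 (f 1)
    constructor
    · intro h8
      rw [h8 0 (by omega), h8 1 le_rfl]
      simp
    · intro h8
      have h9 : t (f 0) = t (f 1) := by
        by_contra h10
        apply h8
        intro i hi
        have h11 : i = 0 ∨ i = 1 := by omega
        rcases h11 with rfl | rfl <;> omega
      rw [h9, sub_self]
  · have e1 : ∀ (f : ℕ → ℕ) (hf : Monotone f) (hb : ∀ i, i ≤ 2 → f i ≤ N),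
        (pbZ (jZ p 2) 2 (psi p () 2)).1 (opr (Zs p 2) f hf hb τ) =
        carry p (c (t (f 1)) - c (t (f 0))) (c (t (f 2)) - c (t (f 1))) := by
      intro f hf hb
      change (psi p () 2).1 (opr (BV p Unit) f hf hb τ.1) = _
      rw [psi2, vx_opr hf hb τ.1 (by omega : 1 ≤ 2), vx_opr hf hb τ.1 (le_refl 2), Pi.sub_apply,
        Pi.sub_apply, h5 _ (hb 1 (by omega)), h5 _ (hb 0 (by omega)), h5 _ (hb 2 le_rfl),
        sub_sub_sub_cancel_right]
    have e2 : ∀ (f : ℕ → ℕ) (_ : Monotone f), (¬ ∀ i, i ≤ 2 → t (f i) = i) →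
        carry p (c (t (f 1)) - c (t (f 0))) (c (t (f 2)) - c (t (f 1))) = 0 := by
      intro f hf h8
      have h6 := h1 (hf (show 0 ≤ 1 by omega))
      have h7 := h1 (hf (show 1 ≤ 2 by omega))
      have h9 := h3 (f 2)
      by_cases h10 : t (f 0) = t (f 1)
      · rw [h10, sub_self]
        exact carry_0l _
      · by_cases h11 : t (f 1) = t (f 2)
        · rw [h11, sub_self]
          exact carry_0r _
        · exfalso
          apply h8
          intro i hi
          have h12 : i = 0 ∨ i = 1 ∨ i = 2 := by omega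
          rcases h12 with rfl | rfl | rfl <;> omega
    rcases carry_01 (c 1 - c 0) (c 2 - c 1) with h6 | h6
    · refine Or.inl fun f hf hb => ?_
      rw [e1]
      by_cases h8 : ∀ i, i ≤ 2 → t (f i) = i
      · rw [h8 0 (by omega), h8 1 (by omega), h8 2 le_rfl]
        exact h6
      · exact e2 f hf h8
    · refine Or.inr ⟨t, h1, fun i _ => h3 i, fun f hf hb => ?_⟩
      rw [e1]
      refine ⟨fun h8 => ?_, fun h8 => e2 f hf h8⟩
      rw [h8 0 (by omega), h8 1 (by omega), h8 2 le_rfl]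
      exact h6

/-- a simplex of the test space -/
private def mkZ (s n : ℕ) (t : ℕ → ℕ) (c : ℕ → ZMod p) (h1 : Monotone t) (h2 : t 0 = 0)
    (h3 : ∀ i, t i ≤ s) (h4 : s = 1 → ∀ j : ℕ, c j = j) (hc : c 0 = 0) : (Zs p s).obj (op ⦋n⦌) :=
  ⟨mkv n (fun i _ => c (t i)) (by funext u; rw [h2, hc]; rfl),
    Ps_mk t c h1 h2 h3 h4 fun i hi => by rw [vx_mkv hi]⟩

private theorem vx_mkZ {s n : ℕ} {t : ℕ → ℕ} {c : ℕ → ZMod p} {h1 : Monotone t} {h2 : t 0 = 0}
    {h3 : ∀ i, t i ≤ s} {h4 : s = 1 → ∀ j : ℕ, c j = j} {hc : c 0 = 0} {i : ℕ} (hi : i ≤ n) :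
    vx (mkZ s n t c h1 h2 h3 h4 hc).1 i () = c (t i) := by
  unfold mkZ
  rw [vx_mkv hi]

private theorem min_mono (s : ℕ) : Monotone (fun i => min i s) := fun _ _ h =>
  min_le_min_right s h

private theorem Z_ext {s n : ℕ} {τ τ' : (Zs p s).obj (op ⦋n⦌)}
    (h : ∀ i, i ≤ n → vx τ.1 i () = vx τ'.1 i ()) : τ = τ' :=
  Subtype.ext (vx_ext fun i hi => funext fun _ => h i hi)

private theorem val_m1 : (-1 : ZMod p).val = p - 1 := by
  have hp := (Fact.out : p.Prime).two_le
  have h1 : ((p - 1 : ℕ) : ZMod p) = -1 := by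
    rw [Nat.cast_sub (by omega), ZMod.natCast_self]
    simp
  rw [← h1, ZMod.val_natCast_of_lt (by omega)]

private theorem sum_carry1 : ∑ c : ZMod p, carry p 1 c = 1 := by
  have hp := (Fact.out : p.Prime).two_le
  rw [Finset.sum_eq_single (-1 : ZMod p)]
  · unfold carry
    rw [if_pos]
    rw [val_m1, ZMod.val_one'' (by omega)]
    omega
  · intro c _ hc
    unfold carry
    rw [if_neg]
    rw [ZMod.val_one'' (by omega)]
    intro h1
    apply hc
    have h2 := ZMod.val_lt c
    have h3 : c.val = p - 1 := by omega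
    have h4 : ((c.val : ℕ) : ZMod p) = c := ZMod.natCast_zmod_val c
    rw [← h4, h3, Nat.cast_sub (by omega), ZMod.natCast_self]
    simp
  · intro h
    exact absurd (Finset.mem_univ _) h

private theorem not_bd {s : ℕ} (hs : s = 1 ∨ s = 2) (b : ℕ) (hb : b ≤ s) :
    ¬ IsBd (pbZ (jZ p s) b (psi p () b)).1 := by
  have hs1 : 1 ≤ s := by omega
  have hp := (Fact.out : p.Prime).two_le
  intro h
  have hb' : b = 0 ∨ b = 1 ∨ b = 2 := by omega
  rcases hb' with rfl | rfl | rfl
  · rcases h with h | ⟨m, hm, -⟩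
    · have h1 := congrFun h (mkZ s 0 (fun i => min i s) (fun j => (j : ZMod p)) (min_mono s)
        (by simp) (fun i => min_le_right _ _) (fun _ _ => rfl) (by simp))
      have h2 : (1 : ZMod p) = 0 := h1
      exact one_ne_zero h2
    · omega
  · obtain ⟨τ, hτ⟩ : ∃ τ : (Zs p s).obj (op ⦋1⦌), τ = mkZ s 1 (fun i => min i s)
      (fun j => (j : ZMod p)) (min_mono s)
        (by simp) (fun i => min_le_right _ _) (fun _ _ => rfl) (by simp) := ⟨_, rfl⟩
    have h1 : (pbZ (jZ p s) 1 (psi p () 1)).1 τ = 1 := by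
      change (psi p () 1).1 τ.1 = 1
      rw [psi1, hτ, vx_mkZ le_rfl, min_eq_left hs1]
      simp
    rcases h with h | ⟨m, hm, e, -, he⟩
    · rw [h] at h1
      exact zero_ne_one h1
    · obtain rfl : m = 0 := by omega
      rw [he] at h1
      have h2 : ∀ σ σ' : (Zs p s).obj (op ⦋0⦌), σ = σ' := fun σ σ' => Z_ext fun i hi => by
        obtain rfl : i = 0 := by omega
        rw [vx_zero, vx_zero]
      unfold cobd at h1
      rw [Finset.sum_range_succ, Finset.sum_range_succ, Finset.sum_range_zero,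
        h2 (fc (Zs p s) 1 hm τ) (fc (Zs p s) 0 hm τ)] at h1
      simp at h1
  · obtain rfl : s = 2 := by omega
    obtain ⟨T, hT⟩ : ∃ T : ZMod p → (Zs p 2).obj (op ⦋2⦌), T = fun c => mkZ 2 2 (fun i => min i 2)
      (fun j => if j = 0 then 0 else if j = 1 then 1 else 1 + c) (min_mono 2)
        (by simp) (fun i => min_le_right _ _) (fun h => absurd h (by omega)) (by simp) := ⟨_, rfl⟩
    have h1 : ∀ c, (pbZ (jZ p 2) 2 (psi p () 2)).1 (T c) = carry p 1 c := by
      intro c
      change (psi p () 2).1 (T c).1 = _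
      rw [psi2, hT, vx_mkZ (by omega), vx_mkZ (by omega)]
      simp
    rcases h with h | ⟨m, hm, e, -, he⟩
    · have h2 := h1 (-1)
      rw [h] at h2
      have h3 : carry p 1 (-1) = 1 := by
        unfold carry
        rw [if_pos]
        rw [val_m1, ZMod.val_one'' (by omega)]
        omega
      rw [h3] at h2
      exact zero_ne_one h2
    · obtain rfl : m = 1 := by omega
      obtain ⟨S, hS⟩ : ∃ S : ZMod p → (Zs p 2).obj (op ⦋1⦌), S = fun c => mkZ 2 1 (fun i => min i 2)
        (fun j => if j = 0 then 0 else c) (min_mono 2)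
        (by simp) (fun i => min_le_right _ _) (fun h => absurd h (by omega)) (by simp) := ⟨_, rfl⟩
      have hvS : ∀ c, vx (S c).1 1 () = c := by
        intro c
        rw [hS, vx_mkZ le_rfl]
        simp
      have hvT1 : ∀ c, vx (T c).1 1 () = 1 := by
        intro c
        rw [hT, vx_mkZ (by omega)]
        simp
      have hvT2 : ∀ c, vx (T c).1 2 () = 1 + c := by
        intro c
        rw [hT, vx_mkZ (by omega)]
        simp
      have hfc : ∀ (i : ℕ) (c v : ZMod p), vx (T c).1 (dl i 1) () - vx (T c).1 (dl i 0) () = v →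
          fc (Zs p 2) i hm (T c) = S v := by
        intro i c v hv
        refine Z_ext fun j hj => ?_
        have h2 : j = 0 ∨ j = 1 := by omega
        rcases h2 with rfl | rfl
        · rw [vx_zero, vx_zero]
        · rw [hvS]
          change vx (opr (BV p Unit) (dl i) _ _ (T c).1) 1 () = v
          rw [vx_opr _ _ _ le_rfl, Pi.sub_apply]
          exact hv
      have h2 : ∀ c, carry p 1 c = e (S c) - e (S (1 + c)) + e (S 1) := by
        intro c
        rw [← h1 c, he]
        unfold cobd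
        rw [Finset.sum_range_succ, Finset.sum_range_succ, Finset.sum_range_succ,
          Finset.sum_range_zero, hfc 0 c c, hfc 1 c (1 + c), hfc 2 c 1]
        · simp only [pow_zero, pow_one, even_two, Even.neg_pow, one_pow, one_smul, neg_smul]
          ring
        · have e1 : dl 2 1 = 1 := rfl
          have e2 : dl 2 0 = 0 := rfl
          rw [e1, e2, hvT1, vx_zero]
          simp
        · have e1 : dl 1 1 = 2 := rfl
          have e2 : dl 1 0 = 0 := rfl
          rw [e1, e2, hvT2, vx_zero]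
          simp
        · have e1 : dl 0 1 = 2 := rfl
          have e2 : dl 0 0 = 1 := rfl
          rw [e1, e2, hvT2, hvT1]
          ring
      have h3 := sum_carry1 (p := p)
      simp only [h2, Finset.sum_add_distrib, Finset.sum_sub_distrib] at h3
      have h4 : ∑ c : ZMod p, e (S (1 + c)) = ∑ c : ZMod p, e (S c) :=
        Fintype.sum_equiv (Equiv.addLeft (1 : ZMod p)) _ _ fun c => rfl
      rw [h4, sub_self, zero_add, Finset.sum_const, Finset.card_univ, ZMod.card] at h3
      simp at h3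

theorem del {k : ℕ} (a : Op p k) (s : ℕ) (hs : s = 1 ∨ s = 2) {X : SSet.{0}} {m : ℕ}
    (u : CoZ X (ZMod p) m) : ∃ φ : ∀ b : ℕ, CoZ X (ZMod p) (m + s + k - b),
    actH a (HR.pull (pr1 X (BV p Unit)) (HR.cl m u) *
        HR.pull (pr2 X (BV p Unit)) (HR.cl s (psi p () s))) =
      HR.pull (pr1 X (BV p Unit)) (actH a (HR.cl m u)) *
          HR.pull (pr2 X (BV p Unit)) (HR.cl s (psi p () s)) +
        ∑ b ∈ (Finset.range (m + s + k + 1)).filter (fun b => s < b),
          HR.pull (pr1 X (BV p Unit)) (HR.cl (m + s + k - b) (φ b)) *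
            HR.pull (pr2 X (BV p Unit)) (HR.cl b (psi p () b)) := by
  have e1 : actH a (HR.pull (pr1 X (BV p Unit)) (HR.cl m u) *
      HR.pull (pr2 X (BV p Unit)) (HR.cl s (psi p () s))) =
      HR.cl (m + s + k) (Op.act a rfl (crsZ (rfl : m + s = m + s) u (psi p () s))) := by
    rw [← cl_crs rfl, actH_cl a rfl]
  obtain ⟨φ, hφ⟩ := KSurj (m + s + k) (Op.act a rfl (crsZ (rfl : m + s = m + s) u (psi p () s)))
  -- pull back to the test space
  obtain ⟨J, hJ⟩ : ∃ J : prodS X (Zs p s) ⟶ prodS X (BV p Unit),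
    J = pairS (pr1 X (Zs p s)) (pr2 X (Zs p s) ≫ jZ p s) := ⟨_, rfl⟩
  have hJ1 : ∀ x, HR.pull (p := p) J (HR.pull (pr1 X (BV p Unit)) x) =
      HR.pull (pr1 X (Zs p s)) x := by
    intro x
    rw [← HR.pull_comp, hJ, pairS_pr1]
  have hJ2 : ∀ x, HR.pull (p := p) J (HR.pull (pr2 X (BV p Unit)) x) =
      HR.pull (pr2 X (Zs p s)) (HR.pull (jZ p s) x) := by
    intro x
    rw [← HR.pull_comp, hJ, pairS_pr2, HR.pull_comp]
  have e2 : HR.pull J (actH a (HR.pull (pr1 X (BV p Unit)) (HR.cl m u) *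
      HR.pull (pr2 X (BV p Unit)) (HR.cl s (psi p () s)))) =
      HR.pull (pr1 X (Zs p s)) (actH a (HR.cl m u)) *
        HR.pull (pr2 X (Zs p s)) (HR.cl s (pbZ (jZ p s) s (psi p () s))) := by
    rw [← actH_pull, map_mul, hJ1, hJ2, HR.pull_cl (jZ p s), ← cl_crs (rfl : m + s = m + s),
      actH_cl a (rfl : m + s + k = m + s + k), act_cell a rfl (rfl : m + k = m + k) rfl u _ (cell hs),
      cl_crs, actH_cl a rfl]
  obtain ⟨φ', hφ'⟩ : ∃ φ' : ∀ b : ℕ, CoZ X (ZMod p) (m + s + k - b), φ' = fun b =>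
    if h : b = s then φ b - Op.act a (show m + k = m + s + k - b by omega) u else φ b := ⟨_, rfl⟩
  have h1 : HR.cl (m + s + k - s) (φ' s) = HR.cl (m + s + k - s) (φ s) - actH a (HR.cl m u) := by
    rw [hφ']
    simp only [dif_pos]
    rw [map_sub, actH_cl a (show m + k = m + s + k - s by omega)]
  have h2 : ∀ b, b ≠ s → φ' b = φ b := by
    intro b hb
    rw [hφ']
    exact dif_neg hb
  -- the pulled back relation
  have e4 : HR.pull (pr1 X (Zs p s)) (actH a (HR.cl m u)) *
        HR.pull (pr2 X (Zs p s)) (HR.cl s (pbZ (jZ p s) s (psi p () s))) =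
      ∑ b ∈ Finset.range (s + 1), HR.pull (pr1 X (Zs p s)) (HR.cl (m + s + k - b) (φ b)) *
        HR.pull (pr2 X (Zs p s)) (HR.cl b (pbZ (jZ p s) b (psi p () b))) := by
    rw [← e2, e1, hφ, map_sum]
    symm
    refine (Finset.sum_subset (fun b hb => ?_) fun b _ hb => ?_).trans
      (Finset.sum_congr rfl fun b _ => ?_)
    · rw [Finset.mem_range] at hb ⊢
      omega
    · rw [Finset.mem_range] at hb
      rw [psi_van (by omega), map_zero, map_zero, mul_zero]
    · rw [map_mul, hJ1, hJ2, HR.pull_cl (jZ p s)]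
  have e3 : ∑ b ∈ Finset.range (s + 1), HR.pull (pr1 X (Zs p s))
      (HR.cl (m + s + k - b) (φ' b)) *
      HR.pull (pr2 X (Zs p s)) (HR.cl b (pbZ (jZ p s) b (psi p () b))) = 0 := by
    rw [Finset.sum_range_succ] at e4 ⊢
    rw [h1, map_sub, sub_mul, e4]
    have h3 : ∑ b ∈ Finset.range s, HR.pull (pr1 X (Zs p s)) (HR.cl (m + s + k - b) (φ' b)) *
        HR.pull (pr2 X (Zs p s)) (HR.cl b (pbZ (jZ p s) b (psi p () b))) =
        ∑ b ∈ Finset.range s, HR.pull (pr1 X (Zs p s)) (HR.cl (m + s + k - b) (φ b)) *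
        HR.pull (pr2 X (Zs p s)) (HR.cl b (pbZ (jZ p s) b (psi p () b))) :=
      Finset.sum_congr rfl fun b hb => by
        rw [h2 b (by have := Finset.mem_range.1 hb; omega)]
    rw [h3]
    abel
  have h4 := KInj (finZ (p := p) s) (show s ≤ m + s + k by omega)
    (fun b => pbZ (jZ p s) b (psi p () b)) (not_bd hs) φ' e3
  have h5 : HR.cl (m + s + k - s) (φ s) = actH a (HR.cl m u) := by
    have := h4 s le_rfl
    rw [h1] at this
    exact sub_eq_zero.1 this
  have h6 : ∀ b, b < s → HR.cl (m + s + k - b) (φ b) = 0 := by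
    intro b hb
    rw [← h2 b (by omega)]
    exact h4 b hb.le
  refine ⟨φ, ?_⟩
  rw [e1, hφ, ← Finset.sum_filter_not_add_sum_filter _ (fun b => s < b)]
  congr 1
  rw [Finset.sum_eq_single s]
  · rw [h5]
  · intro b hb hbs
    rw [Finset.mem_filter] at hb
    rw [h6 b (by omega), map_zero, zero_mul]
  · intro h7
    exfalso
    apply h7
    rw [Finset.mem_filter, Finset.mem_range]
    omega

end BPN.E
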