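import Pool.Agent.BPN.E.Copr

/-!
# Part (E), module DerM: the derivations `RD`, `LD` of the Milnor algebra (project BPN, architect helper30)

`tst k` : the functional dual to `τ_k` in the basis `mon E R`.
`JR J₀ (ιl x * ιr y) = J₀ y • x` : contraction of the right factor.
`RD k = (tst k ⊗ 1) ∘ ψ`, `LD k = (1 ⊗ tst k) ∘ ψ`.

PROOFS.
* `tst k (x * y)`: products of two monomials different from `1` never contain the monomial `τ_k` (for `p = 2` note
  `τ_j^2 = ξ_{j+1}`), so `tst k (x y) = ε(x) tst k y + tst k x ε(y)` with `ε x = co x ∅ 0`.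
* `JH (tst k) (w * w')` for `w`, `w'` in `M ⊗ M`: on products `w = ιl x * ιr y`, `w' = ιl x' * ιr y'` with parities:
  `w w' = ± ιl (x x') ιr (y y')`; so `JH (tst k) (w w') = JH (tst k) w * (ε ⊗ 1) w' + (-1)^(parity of w) (ε ⊗ 1) w * JH (tst k) w'`
  (`tst k` is odd), where `(ε ⊗ 1)` is the ring homomorphism killing the left generators; `(ε ⊗ 1) ∘ ψ = id`.
  This gives `RD_mul`; similarly `LD_mul`: `(1 ⊗ tst k)(w w') = (1 ⊗ ε) w * (1 ⊗ tst k) w' + (-1)^(parity of w') (1 ⊗ tst k) w * (1 ⊗ ε) w'`.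
* `RD_t`: the `τ_k^b` component of `ψ(τ_n)` is `(ξ^a_{n-k})^(p^k)`; `LD_t`: the `τ_k^a` component is `1` if `n = k`.
* `LD_mon`: from `LD_mul`, `LD_t`, `LD_v`, induction on `E`.
-/

namespace BPN.E

namespace Tw

/-! ### auxiliary facts, general -/

section aux

open MvPolynomial

variable {p : ℕ} {I J : Type} [LinearOrder I] [LinearOrder J]

private noncomputable def coHom (E : Finset I) (S : I →₀ ℕ) : Tw p I →+ ZMod p where
  toFun := fun x => co x E S
  map_zero' := co_zero E S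
  map_add' := fun x y => co_add x y E S

private theorem repr_co (x : Tw p I) :
    x = ∑ z ∈ (co_finite x).toFinset, co x z.1 z.2 • mon p z.1 z.2 := by
  refine ext_co fun E S => ?_
  rw [co_sum, Finset.sum_eq_single (E, S)]
  · rw [co_smul, co_mon, if_pos ⟨rfl, rfl⟩, mul_one]
  · intro z _ hz
    rw [co_smul, co_mon, if_neg, mul_zero]
    rintro ⟨h1, h2⟩
    exact hz (Prod.ext h1 h2)
  · intro hz
    have h1 : co x E S = 0 := by
      by_contra hne
      exact hz ((co_finite x).mem_toFinset.2 hne)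
    rw [co_smul, h1, zero_mul]

private theorem v_ind {P : (I →₀ ℕ) → Prop} (h0 : P 0)
    (hv : ∀ i S, P S → P (S + Finsupp.single i 1)) (S : I →₀ ℕ) : P S := by
  induction S using Finsupp.induction with
  | zero => exact h0
  | single_add a b f _ _ ih =>
    have h3 : ∀ b : ℕ, P (Finsupp.single a b + f) := by
      intro b
      induction b with
      | zero => simpa using ih
      | succ b ihb =>
        have h1 := hv a _ ihb
        have h2 : Finsupp.single a b + f + Finsupp.single a 1 = Finsupp.single a (b + 1) + f := by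
          rw [Finsupp.single_add]
          abel
        rwa [h2] at h1
    exact h3 b

private theorem mon_succ (S : I →₀ ℕ) (i : I) :
    mon p ∅ (S + Finsupp.single i 1) = mon p ∅ S * v p i :=
  (mon_mul_mon_empty ∅ S (Finsupp.single i 1)).symm

private theorem mon_ins (E : Finset I) (S : I →₀ ℕ) (i : I) (h : ∀ e ∈ E, e < i) :
    mon p (insert i E) S = mon p E S * t p i := (mon_mul_t E S i h).symm

private theorem mon_par (E : Finset I) (S : I →₀ ℕ) : mon p E S ∈ Par p I E.card := by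
  intro F T h
  rw [co_mon] at h
  split_ifs at h with h1
  · rw [h1.1]
  · exact absurd rfl h

private theorem par_congr {m n : ℕ} (h : m % 2 = n % 2) {x : Tw p I} (hx : x ∈ Par p I m) :
    x ∈ Par p I n := fun E S hne => (hx E S hne).trans h

private theorem par_smul (c : ZMod p) {n : ℕ} {x : Tw p I} (hx : x ∈ Par p I n) :
    c • x ∈ Par p I n := fun E S hne => hx E S fun h => hne (by rw [co_smul, h, mul_zero])

private theorem one_par : (1 : Tw p I) ∈ Par p I 0 := by
  have := mon_par (p := p) (∅ : Finset I) 0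
  rwa [mon_zero] at this

private theorem mon_mul_mon (E F : Finset I) (S T : I →₀ ℕ) : ∃ c : ZMod p,
    mon p E S * mon p F T =
      c • mon p (symmDiff E F) (S + T + ∑ i ∈ E ∩ F, Finsupp.single i 1) := by
  refine ⟨(-1) ^ inv E F * qq p ^ (E ∩ F).card, ?_⟩
  unfold mon
  rw [sg_mul_sg, ← sg_smul]
  congr 1
  have h1 : (∏ i ∈ E ∩ F, (X i : MvPolynomial I (ZMod p))) =
      monomial (∑ i ∈ E ∩ F, Finsupp.single i 1) 1 := by
    rw [monomial_sum_one]
    rfl
  have h2 : (monomial (S + T + ∑ i ∈ E ∩ F, Finsupp.single i 1) (1 : ZMod p)) =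
      monomial S 1 * monomial T 1 * monomial (∑ i ∈ E ∩ F, Finsupp.single i 1) 1 := by
    rw [monomial_mul, monomial_mul, mul_one, mul_one]
  unfold sf
  rw [Finset.prod_mul_distrib, Finset.prod_const, h1, h2, smul_eq_C_mul, C_mul, C_pow, C_pow,
    C_neg, C_1]
  ring

private theorem inl_sm : StrictMono (fun i : I => (toLex (Sum.inl i) : I ⊕ₗ J)) :=
  Sum.Lex.inl_strictMono

private theorem inr_sm : StrictMono (fun j : J => (toLex (Sum.inr j) : I ⊕ₗ J)) :=
  Sum.Lex.inr_strictMono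

private noncomputable def lE (E : Finset (I ⊕ₗ J)) : Finset I :=
  E.preimage (fun i => toLex (Sum.inl i)) (inl_sm.injective.injOn)

private noncomputable def rE (E : Finset (I ⊕ₗ J)) : Finset J :=
  E.preimage (fun j => toLex (Sum.inr j)) (inr_sm.injective.injOn)

private noncomputable def lS (S : (I ⊕ₗ J) →₀ ℕ) : I →₀ ℕ :=
  S.comapDomain (fun i => toLex (Sum.inl i)) (inl_sm.injective.injOn)

private noncomputable def rS (S : (I ⊕ₗ J) →₀ ℕ) : J →₀ ℕ :=
  S.comapDomain (fun j => toLex (Sum.inr j)) (inr_sm.injective.injOn)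

private theorem mem_lE {E : Finset (I ⊕ₗ J)} {i : I} : i ∈ lE E ↔ toLex (Sum.inl i) ∈ E :=
  Finset.mem_preimage

private theorem mem_rE {E : Finset (I ⊕ₗ J)} {j : J} : j ∈ rE E ↔ toLex (Sum.inr j) ∈ E :=
  Finset.mem_preimage

private theorem lS_apply (S : (I ⊕ₗ J) →₀ ℕ) (i : I) : lS S i = S (toLex (Sum.inl i)) := rfl

private theorem rS_apply (S : (I ⊕ₗ J) →₀ ℕ) (j : J) : rS S j = S (toLex (Sum.inr j)) := rfl

private theorem dm_inl_ne_inr (i : I) (j : J) :
    (toLex (Sum.inl i) : I ⊕ₗ J) ≠ toLex (Sum.inr j) := fun h => by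
  have := toLex.injective h
  cases this

private theorem E_dec (E : Finset (I ⊕ₗ J)) :
    ((lE E).image fun i => toLex (Sum.inl i)) ∪ ((rE E).image fun j => toLex (Sum.inr j)) = E := by
  ext z
  obtain ⟨z, rfl⟩ := toLex.surjective z
  rw [Finset.mem_union, Finset.mem_image, Finset.mem_image]
  rcases z with i | j
  · constructor
    · rintro (⟨a, ha, h⟩ | ⟨a, ha, h⟩)
      · rw [← h]
        exact mem_lE.1 ha
      · exact absurd h.symm (dm_inl_ne_inr _ _)
    · intro h
      exact Or.inl ⟨i, mem_lE.2 h, rfl⟩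
  · constructor
    · rintro (⟨a, ha, h⟩ | ⟨a, ha, h⟩)
      · exact absurd h (dm_inl_ne_inr _ _)
      · rw [← h]
        exact mem_rE.1 ha
    · intro h
      exact Or.inr ⟨j, mem_rE.2 h, rfl⟩

private theorem inl_nr (i : I) :
    (toLex (Sum.inl i) : I ⊕ₗ J) ∉ Set.range fun j : J => (toLex (Sum.inr j) : I ⊕ₗ J) := by
  rintro ⟨j, h⟩
  exact dm_inl_ne_inr _ _ h.symm

private theorem inr_nr (j : J) :
    (toLex (Sum.inr j) : I ⊕ₗ J) ∉ Set.range fun i : I => (toLex (Sum.inl i) : I ⊕ₗ J) := by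
  rintro ⟨i, h⟩
  exact dm_inl_ne_inr _ _ h

private theorem md_l (S : I →₀ ℕ) (T : J →₀ ℕ) (i : I) :
    ((S.mapDomain fun i => toLex (Sum.inl i)) +
      T.mapDomain fun j => toLex (Sum.inr j) : (I ⊕ₗ J) →₀ ℕ) (toLex (Sum.inl i)) = S i := by
  rw [Finsupp.add_apply, Finsupp.mapDomain_of_notMem_range _ _ (inl_nr i), add_zero]
  exact Finsupp.mapDomain_apply inl_sm.injective S i

private theorem md_r (S : I →₀ ℕ) (T : J →₀ ℕ) (j : J) :
    ((S.mapDomain fun i => toLex (Sum.inl i)) +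
      T.mapDomain fun j => toLex (Sum.inr j) : (I ⊕ₗ J) →₀ ℕ) (toLex (Sum.inr j)) = T j := by
  rw [Finsupp.add_apply, Finsupp.mapDomain_of_notMem_range _ _ (inr_nr j), zero_add]
  exact Finsupp.mapDomain_apply inr_sm.injective T j

private theorem S_dec (S : (I ⊕ₗ J) →₀ ℕ) :
    ((lS S).mapDomain fun i => toLex (Sum.inl i)) +
      ((rS S).mapDomain fun j => toLex (Sum.inr j)) = S := by
  ext z
  obtain ⟨z, rfl⟩ := toLex.surjective z
  rcases z with i | j
  · rw [md_l, lS_apply]
  · rw [md_r, rS_apply]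

private theorem mon_dec (E : Finset (I ⊕ₗ J)) (S : (I ⊕ₗ J) →₀ ℕ) :
    mon p E S = ιl p I J (mon p (lE E) (lS S)) * ιr p I J (mon p (rE E) (rS S)) := by
  rw [ιl_mul_ιr, E_dec, S_dec]

private theorem par_ind {m : ℕ} {P : Tw p I → Prop} (h0 : P 0)
    (ha : ∀ x y, P x → P y → P (x + y))
    (hm : ∀ (c : ZMod p) (E : Finset I) (S : I →₀ ℕ), E.card % 2 = m % 2 → P (c • mon p E S))
    {x : Tw p I} (hx : x ∈ Par p I m) : P x := by
  rw [repr_co x]
  exact Finset.sum_induction _ P ha h0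
    fun z hz => hm _ _ _ (hx z.1 z.2 ((co_finite x).mem_toFinset.1 hz))

private theorem card_dec (E : Finset (I ⊕ₗ J)) : (lE E).card + (rE E).card = E.card := by
  have h1 := E_dec E
  have h2 : Disjoint ((lE E).image fun i => (toLex (Sum.inl i) : I ⊕ₗ J))
      ((rE E).image fun j => (toLex (Sum.inr j) : I ⊕ₗ J)) := by
    rw [Finset.disjoint_left]
    intro z hz hz'
    obtain ⟨a, _, ha⟩ := Finset.mem_image.1 hz
    obtain ⟨b, _, hb⟩ := Finset.mem_image.1 hz'
    exact dm_inl_ne_inr a b (ha.trans hb.symm)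
  have h3 : (((lE E).image fun i => toLex (Sum.inl i)) ∪
      ((rE E).image fun j => toLex (Sum.inr j))).card = E.card := by rw [h1]
  have h4 := Finset.card_union_of_disjoint h2
  have h5 : ((lE E).image fun i => (toLex (Sum.inl i) : I ⊕ₗ J)).card = (lE E).card :=
    Finset.card_image_of_injective _ inl_sm.injective
  have h6 : ((rE E).image fun j => (toLex (Sum.inr j) : I ⊕ₗ J)).card = (rE E).card :=
    Finset.card_image_of_injective _ inr_sm.injective
  rw [← h5, ← h6, ← h4, ← h3]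

private theorem co_mm (E F : Finset I) (S T : I →₀ ℕ) (h1 : ¬ (E = ∅ ∧ S = 0))
    (h2 : ¬ (F = ∅ ∧ T = 0)) (G : Finset I) (hG : G.card ≤ 1) :
    co (mon p E S * mon p F T) G 0 = 0 := by
  obtain ⟨c, hc⟩ := mon_mul_mon (p := p) E F S T
  rw [hc, co_smul, co_mon]
  split_ifs with h
  · exfalso
    obtain ⟨h3, h4⟩ := h
    have h5 : S = 0 ∧ T = 0 ∧ E ∩ F = ∅ := by
      have h6 : ∀ i, S i = 0 ∧ T i = 0 ∧
          (∑ j ∈ E ∩ F, (Finsupp.single j 1 : I →₀ ℕ)) i = 0 := by
        intro i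
        have h7 := DFunLike.congr_fun h4 i
        rw [Finsupp.add_apply, Finsupp.add_apply, Finsupp.zero_apply] at h7
        omega
      refine ⟨Finsupp.ext fun i => (h6 i).1, Finsupp.ext fun i => (h6 i).2.1, ?_⟩
      rw [Finset.eq_empty_iff_forall_notMem]
      intro i hi
      have h8 := (h6 i).2.2
      rw [Finsupp.finsetSum_apply, Finset.sum_eq_zero_iff] at h8
      have h9 := h8 i hi
      rw [Finsupp.single_eq_same] at h9
      exact one_ne_zero h9
    obtain ⟨hS, hT, hEF⟩ := h5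
    have h10 : symmDiff E F = E ∪ F := by
      exact (Finset.symmDiff_eq_union_iff _ _).2 (Finset.disjoint_iff_inter_eq_empty.2 hEF)
    rw [h10] at h3
    have h11 : E.card + F.card = G.card := by
      rw [← h3, Finset.card_union_of_disjoint (Finset.disjoint_iff_inter_eq_empty.2 hEF)]
    have h12 : E.card = 0 ∨ F.card = 0 := by omega
    rcases h12 with h12 | h12
    · exact h1 ⟨Finset.card_eq_zero.1 h12, hS⟩
    · exact h2 ⟨Finset.card_eq_zero.1 h12, hT⟩
  · rw [mul_zero]

/-- The counit as a functional. -/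
private noncomputable def e0 (p : ℕ) (I : Type) [LinearOrder I] : Tw p I →+ ZMod p := coHom ∅ 0

private theorem e0_app (x : Tw p I) : e0 p I x = co x ∅ 0 := rfl

private theorem co_one (G : Finset I) : co (1 : Tw p I) G 0 = if G = ∅ then 1 else 0 := by
  classical
  rw [← mon_zero, co_mon]
  by_cases h : G = ∅
  · rw [if_pos ⟨h.symm, rfl⟩, if_pos h]
  · rw [if_neg (fun h2 => h h2.1.symm), if_neg h]

private theorem kil_univ (x : Tw p I) : kil p Set.univ x = e0 p I x • (1 : Tw p I) := by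
  classical
  refine induct (P := fun x => kil p Set.univ x = e0 p I x • (1 : Tw p I)) ?_ ?_ ?_ x
  · rw [map_zero, map_zero, zero_smul]
  · intro x y hx hy
    rw [map_add, map_add, hx, hy, add_smul]
  · intro c E S
    rw [hom_smul, kil_mon, e0_app, co_smul, co_mon]
    by_cases h : E = ∅ ∧ S = 0
    · obtain ⟨rfl, rfl⟩ := h
      have hk : ¬((∃ i ∈ (∅ : Finset I), i ∈ (Set.univ : Set I)) ∨
          ∃ i ∈ (0 : I →₀ ℕ).support, i ∈ (Set.univ : Set I)) := by
        rintro (⟨i, hi, _⟩ | ⟨i, hi, _⟩)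
        · exact Finset.notMem_empty i hi
        · simp at hi
      rw [if_neg hk, if_pos ⟨rfl, rfl⟩, mon_zero, mul_one]
    · rw [if_neg h, if_pos, smul_zero, mul_zero, zero_smul]
      by_cases hE : E = ∅
      · right
        have hS : S ≠ 0 := fun h2 => h ⟨hE, h2⟩
        obtain ⟨i, hi⟩ := Finsupp.support_nonempty_iff.2 hS
        exact ⟨i, hi, Set.mem_univ i⟩
      · left
        obtain ⟨i, hi⟩ := Finset.nonempty_iff_ne_empty.2 hE
        exact ⟨i, hi, Set.mem_univ i⟩

private theorem e0_par {n : ℕ} {x : Tw p I} (hx : x ∈ Par p I n) (h : e0 p I x ≠ 0) :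
    n % 2 = 0 := by
  have := hx ∅ 0 h
  rw [Finset.card_empty] at this
  omega

private theorem sgn_even {n : ℕ} (h : n % 2 = 0) : (-1 : ℤ) ^ n = 1 := by
  rw [neg_one_pow_eq_pow_mod_two, h, pow_zero]

private theorem sgn_congr {m n : ℕ} (h : m % 2 = n % 2) : (-1 : ℤ) ^ m = (-1) ^ n := by
  rw [neg_one_pow_eq_pow_mod_two, h, ← neg_one_pow_eq_pow_mod_two]

private theorem ιl_par {n : ℕ} {x : Tw p I} (hx : x ∈ Par p I n) :
    ιl p I J x ∈ Par p (I ⊕ₗ J) n :=
  lft_par (hs := fun _ => t_mem_Par _) (hw := fun _ => v_mem_Par _) (hq := fun _ => t_sq _) hx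

private theorem ιr_par {n : ℕ} {x : Tw p J} (hx : x ∈ Par p J n) :
    ιr p I J x ∈ Par p (I ⊕ₗ J) n :=
  lft_par (hs := fun _ => t_mem_Par _) (hw := fun _ => v_mem_Par _) (hq := fun _ => t_sq _) hx

private theorem pw_par {x : Tw p I} (hx : x ∈ Par p I 0) (n : ℕ) : x ^ n ∈ Par p I 0 := by
  induction n with
  | zero =>
    rw [pow_zero]
    exact one_par
  | succ n ih =>
    rw [pow_succ]
    exact Par_mul ih hx

private theorem swap_mul {β α' : ℕ} (a : Tw p I) {b : Tw p J} {a' : Tw p I} (b' : Tw p J)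
    (hb : b ∈ Par p J β) (ha' : a' ∈ Par p I α') :
    (ιl p I J a * ιr p I J b) * (ιl p I J a' * ιr p I J b') =
      (-1 : ℤ) ^ (β * α') • (ιl p I J (a * a') * ιr p I J (b * b')) := by
  have h1 := Par_comm (ιr_par (I := I) hb) (ιl_par (J := J) ha')
  calc (ιl p I J a * ιr p I J b) * (ιl p I J a' * ιr p I J b')
      = ιl p I J a * (ιr p I J b * ιl p I J a') * ιr p I J b' := by simp only [mul_assoc]
    _ = ιl p I J a * ((-1 : ℤ) ^ (β * α') • (ιl p I J a' * ιr p I J b)) * ιr p I J b' := by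
        rw [h1]
    _ = (-1 : ℤ) ^ (β * α') • (ιl p I J (a * a') * ιr p I J (b * b')) := by
        rw [mul_smul_comm, smul_mul_assoc, map_mul, map_mul]
        simp only [mul_assoc]

end aux

/-! ### the counit maps -/

section cou

variable {p : ℕ} {I J : Type} [LinearOrder I] [LinearOrder J]

private noncomputable def EL (p : ℕ) (I J : Type) [LinearOrder I] [LinearOrder J] :
    Tw p (I ⊕ₗ J) →+* Tw p J :=
  lft (fun z => Sum.elim (fun _ => 0) (fun j => t p j) (ofLex z))
    (fun z => Sum.elim (fun _ => 0) (fun j => v p j) (ofLex z))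
    (fun z => by
      obtain i | j := z
      · exact zero_mem _
      · exact t_mem_Par j)
    (fun z => by
      obtain i | j := z
      · exact zero_mem _
      · exact v_mem_Par j)
    (fun z => by
      obtain i | j := z
      · change (0 : Tw p J) * 0 = qq p • (0 : Tw p J)
        rw [mul_zero, smul_zero]
      · exact t_sq j)

private noncomputable def ER (p : ℕ) (I J : Type) [LinearOrder I] [LinearOrder J] :
    Tw p (I ⊕ₗ J) →+* Tw p I :=
  lft (fun z => Sum.elim (fun i => t p i) (fun _ => 0) (ofLex z))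
    (fun z => Sum.elim (fun i => v p i) (fun _ => 0) (ofLex z))
    (fun z => by
      obtain i | j := z
      · exact t_mem_Par i
      · exact zero_mem _)
    (fun z => by
      obtain i | j := z
      · exact v_mem_Par i
      · exact zero_mem _)
    (fun z => by
      obtain i | j := z
      · exact t_sq i
      · change (0 : Tw p I) * 0 = qq p • (0 : Tw p I)
        rw [mul_zero, smul_zero])

private theorem EL_tl (i : I) : EL p I J (t p (toLex (Sum.inl i))) = 0 := lft_t _
private theorem EL_vl (i : I) : EL p I J (v p (toLex (Sum.inl i))) = 0 := lft_v _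
private theorem EL_tr (j : J) : EL p I J (t p (toLex (Sum.inr j))) = t p j := lft_t _
private theorem EL_vr (j : J) : EL p I J (v p (toLex (Sum.inr j))) = v p j := lft_v _
private theorem ER_tl (i : I) : ER p I J (t p (toLex (Sum.inl i))) = t p i := lft_t _
private theorem ER_vl (i : I) : ER p I J (v p (toLex (Sum.inl i))) = v p i := lft_v _
private theorem ER_tr (j : J) : ER p I J (t p (toLex (Sum.inr j))) = 0 := lft_t _
private theorem ER_vr (j : J) : ER p I J (v p (toLex (Sum.inr j))) = 0 := lft_v _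

private theorem EL_l (x : Tw p I) : EL p I J (ιl p I J x) = e0 p I x • (1 : Tw p J) := by
  classical
  have h : (EL p I J).comp (ιl p I J) = ((EL p I J).comp (ιl p I J)).comp (kil p Set.univ) := by
    refine hom_ext (fun i => ?_) fun i => ?_
    · rw [RingHom.comp_apply (_) (kil p Set.univ), kil_t, if_pos (Set.mem_univ i), map_zero]
      change EL p I J (map p _ (t p i)) = 0
      rw [map_t, EL_tl]
    · rw [RingHom.comp_apply (_) (kil p Set.univ), kil_v, if_pos (Set.mem_univ i), map_zero]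
      change EL p I J (map p _ (v p i)) = 0
      rw [map_v, EL_vl]
  have h2 := DFunLike.congr_fun h x
  rw [RingHom.comp_apply (_) (kil p Set.univ), kil_univ, hom_smul, map_one] at h2
  exact h2

private theorem EL_r (y : Tw p J) : EL p I J (ιr p I J y) = y := by
  have h : (EL p I J).comp (ιr p I J) = RingHom.id _ := by
    refine hom_ext (fun i => ?_) fun i => ?_
    · change EL p I J (map p _ (t p i)) = _
      rw [map_t, EL_tr]
      rfl
    · change EL p I J (map p _ (v p i)) = _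
      rw [map_v, EL_vr]
      rfl
  exact DFunLike.congr_fun h y

private theorem ER_l (x : Tw p I) : ER p I J (ιl p I J x) = x := by
  have h : (ER p I J).comp (ιl p I J) = RingHom.id _ := by
    refine hom_ext (fun i => ?_) fun i => ?_
    · change ER p I J (map p _ (t p i)) = _
      rw [map_t, ER_tl]
      rfl
    · change ER p I J (map p _ (v p i)) = _
      rw [map_v, ER_vl]
      rfl
  exact DFunLike.congr_fun h x

private theorem ER_r (y : Tw p J) : ER p I J (ιr p I J y) = e0 p J y • (1 : Tw p I) := by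
  classical
  have h : (ER p I J).comp (ιr p I J) = ((ER p I J).comp (ιr p I J)).comp (kil p Set.univ) := by
    refine hom_ext (fun i => ?_) fun i => ?_
    · rw [RingHom.comp_apply (_) (kil p Set.univ), kil_t, if_pos (Set.mem_univ i), map_zero]
      change ER p I J (map p _ (t p i)) = 0
      rw [map_t, ER_tr]
    · rw [RingHom.comp_apply (_) (kil p Set.univ), kil_v, if_pos (Set.mem_univ i), map_zero]
      change ER p I J (map p _ (v p i)) = 0
      rw [map_v, ER_vr]
  have h2 := DFunLike.congr_fun h y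
  rw [RingHom.comp_apply (_) (kil p Set.univ), kil_univ, hom_smul, map_one] at h2
  exact h2

end cou


variable {p : ℕ} [Fact p.Prime] {I J : Type} [LinearOrder I] [LinearOrder J]

theorem JR_exists (J₀ : Tw p J →+ ZMod p) : ∃ φ : Tw p (I ⊕ₗ J) →+ Tw p I,
    ∀ x y, φ (ιl p I J x * ιr p I J y) = J₀ y • x := by

  let L : Finset (I ⊕ₗ J) → (MvPolynomial (I ⊕ₗ J) (ZMod p) →ₗ[ZMod p] Tw p I) := fun E =>
    (MvPolynomial.basisMonomials (I ⊕ₗ J) (ZMod p)).constr (ZMod p)
      fun S => J₀ (mon p (rE E) (rS S)) • mon p (lE E) (lS S)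
  have hL : ∀ E S, L E (MvPolynomial.monomial S 1) = J₀ (mon p (rE E) (rS S)) • mon p (lE E) (lS S) := by
    intro E S
    have h := (MvPolynomial.basisMonomials (I ⊕ₗ J) (ZMod p)).constr_basis (ZMod p)
      (fun S => J₀ (mon p (rE E) (rS S)) • mon p (lE E) (lS S)) S
    rw [MvPolynomial.coe_basisMonomials] at h
    exact h
  let φ : Tw p (I ⊕ₗ J) →+ Tw p I :=
    Finsupp.liftAddHom (N := Tw p I) fun E => (L E).toAddMonoidHom
  have hφ : ∀ (c : ZMod p) E S, φ (c • mon p E S) =
      c • (J₀ (mon p (rE E) (rS S)) • mon p (lE E) (lS S)) := by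
    intro c E S
    have h1 : c • mon p E S = sg E (c • MvPolynomial.monomial S 1) := (sg_smul c E _).symm
    rw [h1]
    have h2 : φ (sg E (c • MvPolynomial.monomial S 1)) = L E (c • MvPolynomial.monomial S 1) :=
      Finsupp.liftAddHom_apply_single _ _ _
    rw [h2, map_smul, hL]
  have hmul : ∀ (c d : ZMod p) (E : Finset I) (S : I →₀ ℕ) (F : Finset J) (T : J →₀ ℕ),
      φ (ιl p I J (c • mon p E S) * ιr p I J (d • mon p F T)) =
        J₀ (d • mon p F T) • (c • mon p E S) := by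
    intro c d E S F T
    rw [hom_smul, hom_smul, smul_mul, mul_smul', ιl_mul_ιr, smul_smul, hφ]
    have e1 : lE ((E.image fun i => toLex (Sum.inl i)) ∪ F.image fun i => toLex (Sum.inr i)) = E := by
      ext i
      rw [mem_lE, Finset.mem_union, Finset.mem_image, Finset.mem_image]
      constructor
      · rintro (⟨a, ha, h⟩ | ⟨a, ha, h⟩)
        · have : a = i := inl_sm.injective h
          rwa [← this]
        · exact absurd h.symm (dm_inl_ne_inr _ _)
      · intro h
        exact Or.inl ⟨i, h, rfl⟩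
    have e2 : rE ((E.image fun i => toLex (Sum.inl i)) ∪ F.image fun i => toLex (Sum.inr i)) = F := by
      ext i
      rw [mem_rE, Finset.mem_union, Finset.mem_image, Finset.mem_image]
      constructor
      · rintro (⟨a, ha, h⟩ | ⟨a, ha, h⟩)
        · exact absurd h (dm_inl_ne_inr _ _)
        · have : a = i := inr_sm.injective h
          rwa [← this]
      · intro h
        exact Or.inr ⟨i, h, rfl⟩
    have e3 : lS ((S.mapDomain fun i => toLex (Sum.inl i)) +
        T.mapDomain fun i => toLex (Sum.inr i)) = S := by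
      ext i
      rw [lS_apply, md_l]
    have e4 : rS ((S.mapDomain fun i => toLex (Sum.inl i)) +
        T.mapDomain fun i => toLex (Sum.inr i)) = T := by
      ext i
      rw [rS_apply, md_r]
    rw [e1, e2, e3, e4, ZMod.map_smul J₀ d, smul_smul, smul_smul, smul_eq_mul]
    congr 1
    ring
  refine ⟨φ, fun x y => ?_⟩
  refine induct (P := fun x => φ (ιl p I J x * ιr p I J y) = J₀ y • x) ?_ ?_ ?_ x
  · rw [map_zero, zero_mul, map_zero, smul_zero]
  · intro a b ha hb
    rw [map_add, add_mul, map_add, ha, hb, smul_add]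
  · intro c E S
    refine induct (P := fun y => φ (ιl p I J (c • mon p E S) * ιr p I J y) =
      J₀ y • (c • mon p E S)) ?_ ?_ ?_ y
    · rw [map_zero, mul_zero, map_zero, map_zero, zero_smul]
    · intro a b ha hb
      rw [map_add, mul_add, map_add, ha, hb, map_add, add_smul]
    · intro d F T
      exact hmul c d E S F T

/-- Contraction of the right factor with a functional. -/
noncomputable def JR (J₀ : Tw p J →+ ZMod p) : Tw p (I ⊕ₗ J) →+ Tw p I :=
  Classical.choose (JR_exists J₀)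

theorem JR_mul (J₀ : Tw p J →+ ZMod p) (x : Tw p I) (y : Tw p J) :
    JR J₀ (ιl p I J x * ιr p I J y) = J₀ y • x := Classical.choose_spec (JR_exists J₀) x y

/-- Contracting both factors. -/
theorem JH_JR (J₀ : Tw p I →+ ZMod p) (J₁ : Tw p J →+ ZMod p) (w : Tw p (I ⊕ₗ J)) :
    J₁ (JH J₀ w) = J₀ (JR J₁ w) := by
  have h : J₁.comp (JH (J := J) J₀) = J₀.comp (JR (I := I) J₁) := by
    refine lex_ext fun x y => ?_
    change J₁ (JH J₀ (ιl p I J x * ιr p I J y)) = J₀ (JR J₁ (ιl p I J x * ιr p I J y))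
    rw [JH_mul, JR_mul, ZMod.map_smul, ZMod.map_smul, smul_eq_mul, smul_eq_mul, mul_comm]
  exact DFunLike.congr_fun h w

theorem tst_exists (k : ℕ) : ∃ f : Tw p ℕ →+ ZMod p, ∀ z, f z = co z {k} 0 := by
  exact ⟨coHom {k} 0, fun _ => rfl⟩

/-- The functional dual to `τ_k`. -/
noncomputable def tst (p : ℕ) [Fact p.Prime] (k : ℕ) : Tw p ℕ →+ ZMod p :=
  Classical.choose (tst_exists (p := p) k)

theorem tst_apply (k : ℕ) (z : Tw p ℕ) : tst p k z = co z {k} 0 :=
  Classical.choose_spec (tst_exists (p := p) k) z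

section aux2

private theorem JHe_eq (w : Tw p (I ⊕ₗ J)) : JH (e0 p I) w = EL p I J w := by
  have h : JH (J := J) (e0 p I) = (EL p I J).toAddMonoidHom := by
    refine lex_ext fun x y => ?_
    change _ = EL p I J (ιl p I J x * ιr p I J y)
    rw [JH_mul, map_mul, EL_l, EL_r, smul_mul, one_mul]
  exact DFunLike.congr_fun h w

private theorem JRe_eq (w : Tw p (I ⊕ₗ J)) : JR (e0 p J) w = ER p I J w := by
  have h : JR (I := I) (e0 p J) = (ER p I J).toAddMonoidHom := by
    refine lex_ext fun x y => ?_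
    change _ = ER p I J (ιl p I J x * ιr p I J y)
    rw [JR_mul, map_mul, ER_l, ER_r, mul_smul', mul_one]
  exact DFunLike.congr_fun h w

private theorem tst_mul (k : ℕ) (x y : Tw p ℕ) :
    tst p k (x * y) = e0 p ℕ x * tst p k y + tst p k x * e0 p ℕ y := by
  classical
  have hk1 : ({k} : Finset ℕ) ≠ ∅ := Finset.singleton_ne_empty k
  have hk : ({k} : Finset ℕ).card ≤ 1 := by rw [Finset.card_singleton]
  have t1 : tst p k 1 = 0 := by rw [tst_apply, co_one, if_neg hk1]
  have e1 : e0 p ℕ 1 = 1 := by rw [e0_app, co_one, if_pos rfl]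
  have ts : ∀ (c : ZMod p) (x : Tw p ℕ), tst p k (c • x) = c * tst p k x := fun c x => by
    rw [tst_apply, co_smul, tst_apply]
  have es : ∀ (c : ZMod p) (x : Tw p ℕ), e0 p ℕ (c • x) = c * e0 p ℕ x := fun c x => by
    rw [e0_app, co_smul, e0_app]
  refine induct (P := fun x => tst p k (x * y) = e0 p ℕ x * tst p k y + tst p k x * e0 p ℕ y)
    ?_ ?_ ?_ x
  · rw [zero_mul, map_zero, map_zero, zero_mul, zero_mul, add_zero]
  · intro a b ha hb
    rw [add_mul, map_add, ha, hb, map_add, map_add]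
    ring
  intro c E S
  refine induct (P := fun y => tst p k (c • mon p E S * y) =
    e0 p ℕ (c • mon p E S) * tst p k y + tst p k (c • mon p E S) * e0 p ℕ y) ?_ ?_ ?_ y
  · rw [mul_zero, map_zero, map_zero, mul_zero, mul_zero, add_zero]
  · intro a b ha hb
    rw [mul_add, map_add, ha, hb, map_add, map_add]
    ring
  intro d F T
  rw [smul_mul, mul_smul', ts, ts, es, ts, es, ts]
  by_cases h1 : E = ∅ ∧ S = 0
  · obtain ⟨rfl, rfl⟩ := h1
    rw [mon_zero, one_mul, t1, e1]
    ring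
  · by_cases h2 : F = ∅ ∧ T = 0
    · obtain ⟨rfl, rfl⟩ := h2
      rw [mon_zero, mul_one, t1, e1]
      ring
    · rw [tst_apply, co_mm E F S T h1 h2 _ hk, e0_app, e0_app, co_mon, co_mon, if_neg h1,
        if_neg h2]
      ring

private theorem tst_par {k n : ℕ} {x : Tw p ℕ} (hx : x ∈ Par p ℕ n) (h : tst p k x ≠ 0) :
    n % 2 = 1 := by
  rw [tst_apply] at h
  have := hx _ 0 h
  rw [Finset.card_singleton] at this
  omega

private theorem JHsm (J₀ : Tw p I →+ ZMod p) (n : ℤ) (w : Tw p (I ⊕ₗ J)) :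
    JH (J := J) J₀ (n • w) = n • JH J₀ w := map_zsmul _ _ _

private theorem JRsm (J₀ : Tw p J →+ ZMod p) (n : ℤ) (w : Tw p (I ⊕ₗ J)) :
    JR (I := I) J₀ (n • w) = n • JR J₀ w := map_zsmul _ _ _

private theorem KL (k : ℕ) {α β α' : ℕ} {a : Tw p ℕ} {b : Tw p J} {a' : Tw p ℕ} (b' : Tw p J)
    (ha : a ∈ Par p ℕ α) (hb : b ∈ Par p J β) (ha' : a' ∈ Par p ℕ α') :
    JH (tst p k) ((ιl p ℕ J a * ιr p ℕ J b) * (ιl p ℕ J a' * ιr p ℕ J b')) =
      JH (tst p k) (ιl p ℕ J a * ιr p ℕ J b) * JH (e0 p ℕ) (ιl p ℕ J a' * ιr p ℕ J b') +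
      (-1 : ℤ) ^ (α + β) • (JH (e0 p ℕ) (ιl p ℕ J a * ιr p ℕ J b) *
        JH (tst p k) (ιl p ℕ J a' * ιr p ℕ J b')) := by
  rw [swap_mul a b' hb ha', JHsm, JH_mul, JH_mul, JH_mul, JH_mul, JH_mul, tst_mul]
  have h1 : (-1 : ℤ) ^ (β * α') • ((tst p k a * e0 p ℕ a') • (b * b')) =
      (tst p k a • b) * (e0 p ℕ a' • b') := by
    rw [smul_mul, mul_smul', smul_smul]
    by_cases h : e0 p ℕ a' = 0
    · rw [h, mul_zero, zero_smul, smul_zero]
    · have h2 := e0_par ha' h
      rw [sgn_even (by rw [Nat.mul_mod, h2, mul_zero, Nat.zero_mod]), one_smul]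
  have h2 : (-1 : ℤ) ^ (β * α') • ((e0 p ℕ a * tst p k a') • (b * b')) =
      (-1 : ℤ) ^ (α + β) • ((e0 p ℕ a • b) * (tst p k a' • b')) := by
    rw [smul_mul, mul_smul', smul_smul (e0 p ℕ a)]
    by_cases h : e0 p ℕ a = 0
    · rw [h, zero_mul, zero_smul, smul_zero, smul_zero]
    by_cases h' : tst p k a' = 0
    · rw [h', mul_zero, zero_smul, smul_zero, smul_zero]
    · have h3 := e0_par ha h
      have h4 := tst_par ha' h'
      rw [sgn_congr (m := β * α') (n := α + β) (by
        rw [Nat.mul_mod, h4, mul_one, Nat.mod_mod, Nat.add_mod, h3, zero_add, Nat.mod_mod])]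
  rw [add_smul, smul_add, h1, h2, add_comm]

private theorem KR (k : ℕ) {β α' β' : ℕ} (a : Tw p I) {b : Tw p ℕ} {a' : Tw p I} {b' : Tw p ℕ}
    (hb : b ∈ Par p ℕ β) (ha' : a' ∈ Par p I α') (hb' : b' ∈ Par p ℕ β') :
    JR (tst p k) ((ιl p I ℕ a * ιr p I ℕ b) * (ιl p I ℕ a' * ιr p I ℕ b')) =
      JR (e0 p ℕ) (ιl p I ℕ a * ιr p I ℕ b) * JR (tst p k) (ιl p I ℕ a' * ιr p I ℕ b') +
      (-1 : ℤ) ^ (α' + β') • (JR (tst p k) (ιl p I ℕ a * ιr p I ℕ b) *
        JR (e0 p ℕ) (ιl p I ℕ a' * ιr p I ℕ b')) := by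
  rw [swap_mul a b' hb ha', JRsm, JR_mul, JR_mul, JR_mul, JR_mul, JR_mul, tst_mul]
  have h1 : (-1 : ℤ) ^ (β * α') • ((e0 p ℕ b * tst p k b') • (a * a')) =
      (e0 p ℕ b • a) * (tst p k b' • a') := by
    rw [smul_mul, mul_smul', smul_smul]
    by_cases h : e0 p ℕ b = 0
    · rw [h, zero_mul, zero_smul, smul_zero]
    · have h2 := e0_par hb h
      rw [sgn_even (by rw [Nat.mul_mod, h2, zero_mul, Nat.zero_mod]), one_smul]
  have h2 : (-1 : ℤ) ^ (β * α') • ((tst p k b * e0 p ℕ b') • (a * a')) =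
      (-1 : ℤ) ^ (α' + β') • ((tst p k b • a) * (e0 p ℕ b' • a')) := by
    rw [smul_mul, mul_smul', smul_smul (tst p k b)]
    by_cases h : e0 p ℕ b' = 0
    · rw [h, mul_zero, zero_smul, smul_zero, smul_zero]
    by_cases h' : tst p k b = 0
    · rw [h', zero_mul, zero_smul, smul_zero, smul_zero]
    · have h3 := e0_par hb' h
      have h4 := tst_par hb h'
      rw [sgn_congr (m := β * α') (n := α' + β') (by
        rw [Nat.mul_mod, h4, one_mul, Nat.mod_mod, Nat.add_mod, h3, add_zero, Nat.mod_mod])]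
  rw [add_smul, smul_add, h1, h2]

/-- The twisted Leibniz rule for the left contraction. -/
private theorem JHtst_mul (k : ℕ) {m : ℕ} {w : Tw p (ℕ ⊕ₗ J)} (w' : Tw p (ℕ ⊕ₗ J))
    (hw : w ∈ Par p (ℕ ⊕ₗ J) m) :
    JH (tst p k) (w * w') = JH (tst p k) w * JH (e0 p ℕ) w' +
      (-1 : ℤ) ^ m • (JH (e0 p ℕ) w * JH (tst p k) w') := by
  refine par_ind (P := fun w => JH (tst p k) (w * w') = JH (tst p k) w * JH (e0 p ℕ) w' +
      (-1 : ℤ) ^ m • (JH (e0 p ℕ) w * JH (tst p k) w')) ?_ ?_ ?_ hw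
  · rw [zero_mul, map_zero, map_zero, zero_mul, zero_mul, smul_zero, add_zero]
  · intro x y hx hy
    rw [add_mul, map_add, hx, hy, map_add, map_add, add_mul, add_mul, smul_add]
    abel
  intro c E S hE
  have hdec : c • mon p E S = ιl p ℕ J (c • mon p (lE E) (lS S)) *
      ιr p ℕ J (mon p (rE E) (rS S)) := by
    rw [hom_smul, smul_mul, ← mon_dec]
  have hs : (-1 : ℤ) ^ m = (-1) ^ ((lE E).card + (rE E).card) := by
    rw [card_dec]
    exact sgn_congr hE.symm
  rw [hdec, hs]
  have h1 : (JH (tst p k)).comp (AddMonoidHom.mulLeft (ιl p ℕ J (c • mon p (lE E) (lS S)) *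
      ιr p ℕ J (mon p (rE E) (rS S)))) =
      (AddMonoidHom.mulLeft (JH (tst p k) (ιl p ℕ J (c • mon p (lE E) (lS S)) *
        ιr p ℕ J (mon p (rE E) (rS S))))).comp (JH (e0 p ℕ)) +
      (-1 : ℤ) ^ ((lE E).card + (rE E).card) • (AddMonoidHom.mulLeft
        (JH (e0 p ℕ) (ιl p ℕ J (c • mon p (lE E) (lS S)) *
        ιr p ℕ J (mon p (rE E) (rS S))))).comp (JH (tst p k)) := by
    refine lex_ext fun a' b' => ?_
    change JH (tst p k) (ιl p ℕ J (c • mon p (lE E) (lS S)) * ιr p ℕ J (mon p (rE E) (rS S)) *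
      (ιl p ℕ J a' * ιr p ℕ J b')) =
      JH (tst p k) (ιl p ℕ J (c • mon p (lE E) (lS S)) * ιr p ℕ J (mon p (rE E) (rS S))) *
        JH (e0 p ℕ) (ιl p ℕ J a' * ιr p ℕ J b') + (-1 : ℤ) ^ ((lE E).card + (rE E).card) •
        (JH (e0 p ℕ) (ιl p ℕ J (c • mon p (lE E) (lS S)) * ιr p ℕ J (mon p (rE E) (rS S))) *
          JH (tst p k) (ιl p ℕ J a' * ιr p ℕ J b'))
    refine induct (P := fun a' => JH (tst p k) (ιl p ℕ J (c • mon p (lE E) (lS S)) *
      ιr p ℕ J (mon p (rE E) (rS S)) *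
      (ιl p ℕ J a' * ιr p ℕ J b')) =
      JH (tst p k) (ιl p ℕ J (c • mon p (lE E) (lS S)) * ιr p ℕ J (mon p (rE E) (rS S))) *
        JH (e0 p ℕ) (ιl p ℕ J a' * ιr p ℕ J b') + (-1 : ℤ) ^ ((lE E).card + (rE E).card) •
        (JH (e0 p ℕ) (ιl p ℕ J (c • mon p (lE E) (lS S)) * ιr p ℕ J (mon p (rE E) (rS S))) *
          JH (tst p k) (ιl p ℕ J a' * ιr p ℕ J b'))) ?_ ?_ ?_ a'
    · simp only [map_zero, zero_mul, mul_zero, smul_zero, add_zero]
    · intro x y hx hy
      simp only [map_add, add_mul, mul_add, smul_add] at hx hy ⊢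
      rw [hx, hy]
      abel
    · intro d F T
      exact KL k b' (par_smul _ (mon_par _ _)) (mon_par _ _) (par_smul _ (mon_par _ _))
  exact DFunLike.congr_fun h1 w'

/-- The twisted Leibniz rule for the right contraction. -/
private theorem JRtst_mul (k : ℕ) {m : ℕ} (w : Tw p (I ⊕ₗ ℕ)) {w' : Tw p (I ⊕ₗ ℕ)}
    (hw : w' ∈ Par p (I ⊕ₗ ℕ) m) :
    JR (tst p k) (w * w') = JR (e0 p ℕ) w * JR (tst p k) w' +
      (-1 : ℤ) ^ m • (JR (tst p k) w * JR (e0 p ℕ) w') := by
  refine par_ind (P := fun w' => JR (tst p k) (w * w') = JR (e0 p ℕ) w * JR (tst p k) w' +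
      (-1 : ℤ) ^ m • (JR (tst p k) w * JR (e0 p ℕ) w')) ?_ ?_ ?_ hw
  · rw [mul_zero, map_zero, map_zero, mul_zero, mul_zero, smul_zero, add_zero]
  · intro x y hx hy
    rw [mul_add, map_add, hx, hy, map_add, map_add, mul_add, mul_add, smul_add]
    abel
  intro c E S hE
  have hdec : c • mon p E S = ιl p I ℕ (c • mon p (lE E) (lS S)) *
      ιr p I ℕ (mon p (rE E) (rS S)) := by
    rw [hom_smul, smul_mul, ← mon_dec]
  have hs : (-1 : ℤ) ^ m = (-1) ^ ((lE E).card + (rE E).card) := by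
    rw [card_dec]
    exact sgn_congr hE.symm
  rw [hdec, hs]
  have h1 : (JR (tst p k)).comp (AddMonoidHom.mulRight (ιl p I ℕ (c • mon p (lE E) (lS S)) *
      ιr p I ℕ (mon p (rE E) (rS S)))) =
      (AddMonoidHom.mulRight (JR (tst p k) (ιl p I ℕ (c • mon p (lE E) (lS S)) *
        ιr p I ℕ (mon p (rE E) (rS S))))).comp (JR (e0 p ℕ)) +
      (-1 : ℤ) ^ ((lE E).card + (rE E).card) • (AddMonoidHom.mulRight
        (JR (e0 p ℕ) (ιl p I ℕ (c • mon p (lE E) (lS S)) *
        ιr p I ℕ (mon p (rE E) (rS S))))).comp (JR (tst p k)) := by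
    refine lex_ext fun a b => ?_
    change JR (tst p k) (ιl p I ℕ a * ιr p I ℕ b * (ιl p I ℕ (c • mon p (lE E) (lS S)) *
      ιr p I ℕ (mon p (rE E) (rS S)))) =
      JR (e0 p ℕ) (ιl p I ℕ a * ιr p I ℕ b) * JR (tst p k) (ιl p I ℕ (c • mon p (lE E) (lS S)) *
        ιr p I ℕ (mon p (rE E) (rS S))) + (-1 : ℤ) ^ ((lE E).card + (rE E).card) •
        (JR (tst p k) (ιl p I ℕ a * ιr p I ℕ b) *
          JR (e0 p ℕ) (ιl p I ℕ (c • mon p (lE E) (lS S)) * ιr p I ℕ (mon p (rE E) (rS S))))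
    refine induct (P := fun b => JR (tst p k) (ιl p I ℕ a * ιr p I ℕ b *
      (ιl p I ℕ (c • mon p (lE E) (lS S)) * ιr p I ℕ (mon p (rE E) (rS S)))) =
      JR (e0 p ℕ) (ιl p I ℕ a * ιr p I ℕ b) * JR (tst p k) (ιl p I ℕ (c • mon p (lE E) (lS S)) *
        ιr p I ℕ (mon p (rE E) (rS S))) + (-1 : ℤ) ^ ((lE E).card + (rE E).card) •
        (JR (tst p k) (ιl p I ℕ a * ιr p I ℕ b) *
          JR (e0 p ℕ) (ιl p I ℕ (c • mon p (lE E) (lS S)) * ιr p I ℕ (mon p (rE E) (rS S)))))
        ?_ ?_ ?_ b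
    · simp only [map_zero, zero_mul, mul_zero, smul_zero, add_zero]
    · intro x y hx hy
      simp only [map_add, add_mul, mul_add, smul_add] at hx hy ⊢
      rw [hx, hy]
      abel
    · intro d F T
      exact KR k a (par_smul _ (mon_par _ _)) (par_smul _ (mon_par _ _)) (mon_par _ _)
  exact DFunLike.congr_fun h1 w

private theorem psi_par {m : ℕ} {x : Tw p ℕ} (hx : x ∈ Par p ℕ m) :
    psiM p x ∈ Par p (ℕ ⊕ₗ ℕ) m := by
  have hr : ∀ j, xr p j ∈ Par p (ℕ ⊕ₗ ℕ) 0 := fun j => by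
    unfold xr
    split_ifs
    · exact one_par
    · exact v_mem_Par _
  have hl : ∀ j, xl p j ∈ Par p (ℕ ⊕ₗ ℕ) 0 := fun j => by
    unfold xl
    split_ifs
    · exact one_par
    · exact v_mem_Par _
  have h1 : ∀ n, psiM p (t p n) ∈ Par p (ℕ ⊕ₗ ℕ) 1 := fun n => by
    rw [psiM_t]
    exact add_mem (t_mem_Par _) (sum_mem fun _ _ => Par_mul (t_mem_Par _) (pw_par (hr _) _))
  have h2 : ∀ n, psiM p (v p n) ∈ Par p (ℕ ⊕ₗ ℕ) 0 := fun n => by
    rw [psiM_v]
    exact sum_mem fun _ _ => Par_mul (hl _) (pw_par (hr _) _)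
  have hq : ∀ n, psiM p (t p n) * psiM p (t p n) = qq p • psiM p (v p n) := fun n => by
    rw [← map_mul, t_sq, hom_smul]
  have h : psiM p = lft (fun i => psiM p (t p i)) (fun i => psiM p (v p i)) h1 h2 hq :=
    hom_ext (fun i => (lft_t (hs := h1) (hw := h2) (hq := hq) i).symm)
      fun i => (lft_v (hs := h1) (hw := h2) (hq := hq) i).symm
  have h3 := lft_par (hs := h1) (hw := h2) (hq := hq) hx
  rwa [← h] at h3

end aux2

/-- The dual of right multiplication by (the dual of) `τ_k`. -/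
noncomputable def RD (p : ℕ) [Fact p.Prime] (k : ℕ) : Tw p ℕ →+ Tw p ℕ :=
  (JH (tst p k)).comp (psiM p).toAddMonoidHom

/-- The dual of left multiplication by (the dual of) `τ_k`. -/
noncomputable def LD (p : ℕ) [Fact p.Prime] (k : ℕ) : Tw p ℕ →+ Tw p ℕ :=
  (JR (tst p k)).comp (psiM p).toAddMonoidHom

/-- `ξ_j` in `Tw p ℕ`. -/
noncomputable def xi (p j : ℕ) : Tw p ℕ := if j = 0 then 1 else v p (j - 1)

section aux3

private theorem xr_eq (j : ℕ) : xr p j = ιr p ℕ ℕ (xi p j) := by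
  unfold xr xi
  split_ifs
  · rw [map_one]
  · exact (map_v (p := p) (fun i : ℕ => (toLex (Sum.inr i) : ℕ ⊕ₗ ℕ)) (j - 1)).symm

private theorem xl_eq (j : ℕ) : xl p j = ιl p ℕ ℕ (xi p j) := by
  unfold xl xi
  split_ifs
  · rw [map_one]
  · exact (map_v (p := p) (fun i : ℕ => (toLex (Sum.inl i) : ℕ ⊕ₗ ℕ)) (j - 1)).symm

private theorem tl_eq (j : ℕ) : t p (toLex (Sum.inl j) : ℕ ⊕ₗ ℕ) = ιl p ℕ ℕ (t p j) :=
  (map_t (p := p) (fun i : ℕ => (toLex (Sum.inl i) : ℕ ⊕ₗ ℕ)) j).symm

private theorem tr_eq (j : ℕ) : t p (toLex (Sum.inr j) : ℕ ⊕ₗ ℕ) = ιr p ℕ ℕ (t p j) :=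
  (map_t (p := p) (fun i : ℕ => (toLex (Sum.inr i) : ℕ ⊕ₗ ℕ)) j).symm

private theorem xi_par (j : ℕ) : xi p j ∈ Par p ℕ 0 := by
  unfold xi
  split_ifs
  · exact one_par
  · exact v_mem_Par _

private theorem tst_even {k : ℕ} {x : Tw p ℕ} (hx : x ∈ Par p ℕ 0) : tst p k x = 0 := by
  by_contra h
  have := tst_par hx h
  omega

private theorem tst_t (k j : ℕ) : tst p k (t p j) = if j = k then 1 else 0 := by
  classical
  rw [tst_apply]
  unfold t
  rw [co_mon]
  by_cases h : j = k
  · rw [if_pos h, if_pos ⟨by rw [h], rfl⟩]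
  · rw [if_neg h, if_neg]
    rintro ⟨h1, _⟩
    exact h (Finset.singleton_injective h1)

private theorem EL_psi (x : Tw p ℕ) : EL p ℕ ℕ (psiM p x) = x := by
  have hp : p.Prime := Fact.out
  have h : (EL p ℕ ℕ).comp (psiM p) = RingHom.id _ := by
    refine hom_ext (fun n => ?_) fun n => ?_
    · rw [RingHom.comp_apply, psiM_t, map_add, EL_tr, map_sum, Finset.sum_eq_zero, add_zero]
      · rfl
      · intro k _
        rw [map_mul, EL_tl, zero_mul]
    · rw [RingHom.comp_apply, psiM_v, map_sum, Finset.sum_eq_single 0]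
      · rw [map_mul, pow_zero, pow_one, Nat.sub_zero]
        have h1 : xl p 0 = 1 := if_pos rfl
        have h2 : xr p (n + 1) = v p (toLex (Sum.inr n)) := by
          unfold xr
          rw [if_neg (Nat.succ_ne_zero n), Nat.add_sub_cancel]
        rw [h1, h2, map_one, one_mul, EL_vr]
        rfl
      · intro k _ hk
        have h1 : xl p k = v p (toLex (Sum.inl (k - 1))) := if_neg hk
        rw [map_mul, h1, EL_vl, zero_mul]
      · intro h1
        exact absurd (Finset.mem_range.2 (by omega)) h1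
  exact DFunLike.congr_fun h x

private theorem ER_psi (x : Tw p ℕ) : ER p ℕ ℕ (psiM p x) = x := by
  have hp : p.Prime := Fact.out
  have h0 : ∀ j k, j ≠ 0 → ER p ℕ ℕ (xr p j ^ p ^ k) = 0 := by
    intro j k hj
    have h1 : xr p j = v p (toLex (Sum.inr (j - 1))) := if_neg hj
    rw [map_pow, h1, ER_vr, zero_pow (pow_ne_zero k hp.ne_zero)]
  have h00 : xr p 0 = 1 := if_pos rfl
  have h : (ER p ℕ ℕ).comp (psiM p) = RingHom.id _ := by
    refine hom_ext (fun n => ?_) fun n => ?_
    · rw [RingHom.comp_apply, psiM_t, map_add, ER_tr, zero_add, map_sum,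
        Finset.sum_eq_single n]
      · rw [map_mul, ER_tl, Nat.sub_self, h00, one_pow, map_one, mul_one]
        rfl
      · intro k hk hkn
        rw [Finset.mem_range] at hk
        rw [map_mul, h0 _ _ (by omega), mul_zero]
      · intro h1
        exact absurd (Finset.mem_range.2 (by omega)) h1
    · rw [RingHom.comp_apply, psiM_v, map_sum, Finset.sum_eq_single (n + 1)]
      · rw [map_mul, Nat.sub_self, h00, one_pow, map_one, mul_one]
        have h1 : xl p (n + 1) = v p (toLex (Sum.inl n)) := by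
          unfold xl
          rw [if_neg (Nat.succ_ne_zero n), Nat.add_sub_cancel]
        rw [h1, ER_vl]
        rfl
      · intro k hk hkn
        rw [Finset.mem_range] at hk
        rw [map_mul, h0 _ _ (by omega), mul_zero]
      · intro h1
        exact absurd (Finset.mem_range.2 (by omega)) h1
  exact DFunLike.congr_fun h x

private theorem RD_app (k : ℕ) (x : Tw p ℕ) : RD p k x = JH (tst p k) (psiM p x) := rfl

private theorem LD_app (k : ℕ) (x : Tw p ℕ) : LD p k x = JR (tst p k) (psiM p x) := rfl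

private theorem JH_r (J₀ : Tw p ℕ →+ ZMod p) (y : Tw p ℕ) :
    JH J₀ (ιr p ℕ ℕ y) = J₀ 1 • y := by
  have h := JH_mul J₀ 1 y
  rwa [map_one, one_mul] at h

private theorem JR_r (J₀ : Tw p ℕ →+ ZMod p) (y : Tw p ℕ) :
    JR J₀ (ιr p ℕ ℕ y) = J₀ y • (1 : Tw p ℕ) := by
  have h := JR_mul (I := ℕ) J₀ 1 y
  rwa [map_one, one_mul] at h

end aux3

theorem RD_mul (k m : ℕ) (x y : Tw p ℕ) (hx : x ∈ Par p ℕ m) :
    RD p k (x * y) = RD p k x * y + (-1 : ℤ) ^ m • (x * RD p k y) := by
  rw [RD_app, RD_app, RD_app, map_mul, JHtst_mul k (psiM p y) (psi_par hx), JHe_eq, JHe_eq,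
    EL_psi, EL_psi]

theorem RD_t (k n : ℕ) : RD p k (t p n) = if k ≤ n then xi p (n - k) ^ p ^ k else 0 := by
  rw [RD_app, psiM_t, map_add, tr_eq, JH_r, map_sum, tst_even one_par, zero_smul, zero_add]
  have h1 : ∀ j ∈ Finset.range (n + 1), JH (tst p k) (t p (toLex (Sum.inl j)) *
      xr p (n - j) ^ p ^ j) = (if j = k then 1 else 0 : ZMod p) • xi p (n - j) ^ p ^ j := by
    intro j _
    rw [tl_eq, xr_eq, ← map_pow, JH_mul, tst_t]
  rw [Finset.sum_congr rfl h1]
  split_ifs with h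
  · rw [Finset.sum_eq_single k]
    · rw [if_pos rfl, one_smul]
    · intro j _ hj
      rw [if_neg hj, zero_smul]
    · intro h2
      exact absurd (Finset.mem_range.2 (by omega)) h2
  · refine Finset.sum_eq_zero fun j hj => ?_
    rw [Finset.mem_range] at hj
    rw [if_neg (by omega), zero_smul]

theorem RD_v (k n : ℕ) : RD p k (v p n) = 0 := by
  rw [RD_app, psiM_v, map_sum]
  refine Finset.sum_eq_zero fun j _ => ?_
  rw [xl_eq, xr_eq, ← map_pow, JH_mul, tst_even (xi_par j), zero_smul]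

theorem LD_mul (k m : ℕ) (x y : Tw p ℕ) (hy : y ∈ Par p ℕ m) :
    LD p k (x * y) = x * LD p k y + (-1 : ℤ) ^ m • (LD p k x * y) := by
  rw [LD_app, LD_app, LD_app, map_mul, JRtst_mul k (psiM p x) (psi_par hy), JRe_eq, JRe_eq,
    ER_psi, ER_psi]

theorem LD_t (k n : ℕ) : LD p k (t p n) = if n = k then 1 else 0 := by
  rw [LD_app, psiM_t, map_add, tr_eq, JR_r, tst_t, map_sum, Finset.sum_eq_zero, add_zero]
  · split_ifs
    · rw [one_smul]
    · rw [zero_smul]
  · intro j _
    rw [tl_eq, xr_eq, ← map_pow, JR_mul, tst_even (pw_par (xi_par _) _), zero_smul]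

theorem LD_v (k n : ℕ) : LD p k (v p n) = 0 := by
  rw [LD_app, psiM_v, map_sum]
  refine Finset.sum_eq_zero fun j _ => ?_
  rw [xl_eq, xr_eq, ← map_pow, JR_mul, tst_even (pw_par (xi_par _) _), zero_smul]

theorem LD_mon (k : ℕ) (E : Finset ℕ) (R : ℕ →₀ ℕ) : LD p k (mon p E R) =
    if k ∈ E then (-1 : ℤ) ^ (E.filter (fun e => k < e)).card • mon p (E.erase k) R else 0 := by
  have hS : LD p k (mon p ∅ R) = 0 := by
    refine v_ind (P := fun R => LD p k (mon p ∅ R) = 0) ?_ ?_ R
    · rw [mon_zero, LD_app, map_one]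
      have h := JR_mul (I := ℕ) (tst p k) 1 1
      rw [map_one, map_one, one_mul] at h
      rw [h, tst_even one_par, zero_smul]
    · intro i S ih
      rw [mon_succ, LD_mul k 0 _ _ (v_mem_Par i), LD_v, ih, mul_zero, zero_mul, smul_zero,
        add_zero]
  induction E using Finset.induction_on_max with
  | empty =>
    rw [hS, if_neg (Finset.notMem_empty k)]
  | insert i E hi ih =>
    rw [← mon_mul_t E R i hi, LD_mul k 1 _ _ (t_mem_Par i), LD_t, ih]
    by_cases hik : i = k
    · subst hik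
      have hE : i ∉ E := fun h => lt_irrefl i (hi i h)
      rw [if_pos rfl, if_neg hE, zero_mul, smul_zero, add_zero, mul_one,
        if_pos (Finset.mem_insert_self i E), Finset.erase_insert hE]
      have h1 : (insert i E).filter (fun e => i < e) = ∅ := by
        ext e
        simp only [Finset.mem_filter, Finset.mem_insert, Finset.notMem_empty, iff_false, not_and,
          not_lt]
        rintro (h | h)
        · exact h.le
        · exact (hi e h).le
      rw [h1, Finset.card_empty, pow_zero, one_smul]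
    · rw [if_neg hik, mul_zero, zero_add]
      by_cases hk : k ∈ E
      · have h2 : (insert i E).filter (fun e => k < e) = insert i (E.filter fun e => k < e) := by
          rw [Finset.filter_insert, if_pos (hi k hk)]
        have h3 : i ∉ E.filter fun e => k < e := fun h =>
          lt_irrefl i (hi i (Finset.mem_filter.1 h).1)
        have h4 : (insert i E).erase k = insert i (E.erase k) :=
          Finset.erase_insert_of_ne hik
        have h5 : ∀ e ∈ E.erase k, e < i := fun e he => hi e (Finset.mem_of_mem_erase he)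
        rw [if_pos hk, if_pos (Finset.mem_insert_of_mem hk), h2, Finset.card_insert_of_notMem h3,
          h4, ← mon_mul_t _ R i h5, smul_mul_assoc, smul_smul, pow_one, pow_succ']
      · rw [if_neg hk, if_neg, zero_mul, smul_zero]
        intro h
        rcases Finset.mem_insert.1 h with h | h
        · exact hik h.symm
        · exact hk h

end Tw

end BPN.E
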