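import Pool.Agent.BPN.E.DerM

/-!
# Part (E), module DerQ: derivations have functionals `c τ_i^*` (project BPN, architect helper30)

THEOREM `Jf_deriv`: `β` a natural operation of degree `k = 2 p^i - 1` which is a graded derivation; then
`Jf β = c • tst i` for some `c`.

PROOF.  By `Jf_mon`, `Jc`: let `(E, R)` be given, `u = mon (uA E) (uB R)`, target `uT`.  `Jc` can only be nonzero if
`Mil.deg E R = k` (`Jf_Hg`), in particular `(E, R) ≠ (∅, 0)`.
(1) If `|E| + ∑ R_j ≥ 2` write `u = ± g u'` with `g` one of the generators (a variable `x` or `y`) and `u'` the product of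
    the others (not `1`).  `β(g u') = β(g) u' ± g β(u')`.  By naturality (`nat_sup`) `β(g)` involves only the variable of
    `g`.  The target monomial has `F = ∅` and exponent `p^e` at the variables of `x`-type and `p^(j+1) ≥ 2` at the
    variables of `y`-type.  In `g β(u')` the variable of `g` occurs exactly as `g` (`β(u')` does not involve it by
    `nat_sup`): if `g = x_i` all monomials contain the odd generator, if `g = y_i` its exponent is `1`: not the target.
    In `β(g) u'` a variable of `u'` occurs only as in `u'`: the same.  So `Jc β E R = 0`.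
(2) `|E| + ∑ R_j = 1`: `E = {e}`, `R = 0`, degree `2 p^e - 1`, so `e = i`; or `E = ∅`, `R = single j 1`, degree `2 (p^(j+1) - 1)`
    even, while `k` is odd.
So `Jf β (mon E R) = 0` except for `E = {i}`, `R = 0`.
-/

namespace BPN.E

namespace Tw

variable {p : ℕ} [Fact p.Prime]

private theorem dq_mon_mem_Par {J : Type} [LinearOrder J] (E : Finset J) (S : J →₀ ℕ) : mon p E S ∈ Par p J E.card := by
  intro F T h
  rw [co_mon] at h
  by_cases h2 : E = F ∧ S = T
  · rw [h2.1]
  · rw [if_neg h2] at h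
    exact absurd rfl h

private theorem dq_co_mul_vpow (x : Tw p ℕ) (r n : ℕ) (F : Finset ℕ) (T : ℕ →₀ ℕ) :
    co (x * v p r ^ n) F T = if n ≤ T r then co x F (T - Finsupp.single r n) else 0 := by
  let f : Tw p ℕ →+ ZMod p :=
    { toFun := fun w => co (w * v p r ^ n) F T
      map_zero' := by rw [zero_mul, co_zero]
      map_add' := fun x y => by rw [add_mul, co_add] }
  let g : Tw p ℕ →+ ZMod p :=
    { toFun := fun w => if n ≤ T r then co w F (T - Finsupp.single r n) else 0
      map_zero' := by rw [co_zero, ite_self]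
      map_add' := fun x y => by
        split_ifs
        · rw [co_add]
        · rw [add_zero] }
  have h1 : f = g := addHom_ext fun c E S => by
    change co (c • mon p E S * v p r ^ n) F T =
      if n ≤ T r then co (c • mon p E S) F (T - Finsupp.single r n) else 0
    rw [smul_mul, v_pow, mon_mul_mon_empty, co_smul, co_smul, co_mon, co_mon]
    by_cases h2 : n ≤ T r
    · rw [if_pos h2]
      congr 2
      rw [eq_iff_iff]
      have h3 : Finsupp.single r n ≤ T := by
        rw [Finsupp.single_le_iff]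
        exact h2
      constructor
      · rintro ⟨h4, h5⟩
        exact ⟨h4, by rw [← h5, add_tsub_cancel_right]⟩
      · rintro ⟨h4, h5⟩
        exact ⟨h4, by rw [h5, tsub_add_cancel_of_le h3]⟩
    · rw [if_neg h2, if_neg, mul_zero]
      rintro ⟨-, h4⟩
      apply h2
      rw [← h4, Finsupp.add_apply, Finsupp.single_eq_same]
      exact Nat.le_add_left _ _
  exact DFunLike.congr_fun h1 x

private theorem dq_ind_empty : ind ∅ = 0 := Finset.sum_empty

private theorem dq_co_mul_t_empty {D : Set ℕ} {x : Tw p ℕ} (hx : SupIn x D) (r : ℕ) (hr : r ∉ D)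
    (T : ℕ →₀ ℕ) : co (x * t p r) ∅ T = 0 := by
  let f : Tw p ℕ →+ ZMod p :=
    { toFun := fun w => co (w * t p r) ∅ T
      map_zero' := by rw [zero_mul, co_zero]
      map_add' := fun x y => by rw [add_mul, co_add] }
  refine ext_sup D hx f 0 fun c E S hE hS => ?_
  change co (c • mon p E S * t p r) ∅ T = 0
  have hrE : r ∉ E := fun h => hr (hE r h)
  have h1 := Par_comm (dq_mon_mem_Par (p := p) E S) (t_mem_Par (p := p) r)
  obtain ⟨ε, hε, h2⟩ := t_mul_mon' (p := p) E S r hrE
  rw [smul_mul, co_smul, h1, h2, co_zsmul, co_zsmul, co_mon, if_neg, mul_zero, mul_zero, mul_zero]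
  rintro ⟨h3, -⟩
  exact Finset.notMem_empty r (h3 ▸ Finset.mem_insert_self r E)

private theorem dq_sup_mul {D : Set ℕ} {x y : Tw p ℕ} (hx : SupIn x D) (hy : SupIn y D) :
    SupIn (x * y) D := by
  have h : kil p Dᶜ (x * y) = x * y := by
    rw [map_mul, kil_of_sup D x hx, kil_of_sup D y hy]
  intro E S hne
  by_contra h2
  apply hne
  rw [← h]
  apply co_kil'
  by_contra h3
  rw [not_or] at h3
  apply h2
  refine ⟨fun i hi => ?_, fun i hi => ?_⟩
  · by_contra h4
    exact h3.1 ⟨i, hi, h4⟩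
  · by_contra h4
    exact h3.2 ⟨i, hi, h4⟩

private theorem dq_sup_mon {E : Finset ℕ} {S : ℕ →₀ ℕ} {D : Set ℕ} (hE : ∀ i ∈ E, i ∈ D)
    (hS : ∀ i ∈ S.support, i ∈ D) : SupIn (mon p E S) D := by
  intro F T h
  rw [co_mon] at h
  split_ifs at h with h1
  · rw [← h1.1, ← h1.2]
    exact ⟨hE, hS⟩
  · exact absurd rfl h

private theorem dq_sup_mono {D D' : Set ℕ} (hD : D ⊆ D') {x : Tw p ℕ} (hx : SupIn x D) :
    SupIn x D' := fun E S h => ⟨fun i hi => hD ((hx E S h).1 i hi),
      fun i hi => hD ((hx E S h).2 i hi)⟩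

/-- `g` is a generator belonging to the variable `r` which does not fit to `T`. -/
private def Bad (g : Tw p ℕ) (r : ℕ) (T : ℕ →₀ ℕ) : Prop :=
  ∀ (D : Set ℕ), r ∉ D → ∀ w y : Tw p ℕ, SupIn w D → SupIn y D → co (w * (g * y)) ∅ T = 0

private theorem bad_t (r : ℕ) (T : ℕ →₀ ℕ) : Bad (t p r) r T := by
  intro D hr w y hw hy
  let f : Tw p ℕ →+ ZMod p :=
    { toFun := fun y => co (w * (t p r * y)) ∅ T
      map_zero' := by rw [mul_zero, mul_zero, co_zero]
      map_add' := fun x y => by rw [mul_add, mul_add, co_add] }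
  refine ext_sup D hy f 0 fun c E S hE hS => ?_
  change co (w * (t p r * (c • mon p E S))) ∅ T = 0
  have h1 := Par_comm (t_mem_Par (p := p) r) (dq_mon_mem_Par (p := p) E S)
  have h2 := dq_co_mul_t_empty (dq_sup_mul hw (dq_sup_mon (p := p) hE hS)) r hr T
  rw [mul_assoc] at h2
  rw [mul_smul', mul_smul', co_smul, h1, mul_smul_comm, co_zsmul, h2, mul_zero, mul_zero]

private theorem bad_v (r : ℕ) (T : ℕ →₀ ℕ) (hT : T r ≠ 1) : Bad (v p r) r T := by
  intro D hr w y hw hy
  have h3 := dq_co_mul_vpow (w * y) r 1 ∅ T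
  rw [pow_one] at h3
  rw [v_comm, ← mul_assoc, h3]
  split_ifs with h4
  · by_contra h5
    refine hr (((dq_sup_mul hw hy) ∅ _ h5).2 r ?_)
    rw [Finsupp.mem_support_iff, Finsupp.tsub_apply, Finsupp.single_eq_same]
    omega
  · rfl

private theorem dq_eps {ε : ℤ} (h : ε = 1 ∨ ε = -1) {x y : Tw p ℕ} (h2 : x = ε • y) :
    y = ε • x := by
  rcases h with rfl | rfl
  · rw [h2, one_smul, one_smul]
  · rw [h2, neg_smul, neg_smul, one_smul, one_smul, neg_neg]

private theorem dq_fac {β : Tw p ℕ →+ Tw p ℕ} (hβ : NatOp p β) (A B : Finset ℕ)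
    (h : Disjoint A B) (T : ℕ →₀ ℕ) (hT : ∀ b ∈ B, T b ≠ 1) (r : ℕ) (hr : r ∈ A ∪ B) :
    ∃ (ε : ℤ) (g : Tw p ℕ) (m : ℕ) (A' B' : Finset ℕ), g ∈ Par p ℕ m ∧ SupIn (β g) {r} ∧
      Bad g r T ∧ Disjoint A' B' ∧ A' ∪ B' = (A ∪ B).erase r ∧ (∀ b ∈ B', T b ≠ 1) ∧
      mon p A (ind B) = ε • (g * mon p A' (ind B')) := by
  by_cases hA : r ∈ A
  · have hB : r ∉ B := Finset.disjoint_left.1 h hA
    obtain ⟨ε, hε, h1⟩ := t_mul_uni (p := p) (A.erase r) r (Finset.notMem_erase r A)
    refine ⟨ε, t p r, 1, A.erase r, B, t_mem_Par r, ?_, bad_t r T,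
      h.mono_left (Finset.erase_subset _ _), ?_, hT, ?_⟩
    · have h2 := nat_sup hβ {r} ∅ (Finset.disjoint_empty_right _)
      rw [dq_ind_empty] at h2
      refine dq_sup_mono ?_ h2
      intro i hi
      rw [Finset.union_empty, Finset.mem_coe, Finset.mem_singleton] at hi
      exact hi
    · rw [Finset.erase_union_distrib, Finset.erase_eq_of_notMem hB]
    · have h2 := h1 (ind B)
      rw [Finset.insert_erase hA] at h2
      exact dq_eps hε h2
  · have hB : r ∈ B := (Finset.mem_union.1 hr).resolve_left hA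
    refine ⟨1, v p r, 0, A, B.erase r, v_mem_Par r, ?_, bad_v r T (hT r hB),
      h.mono_right (Finset.erase_subset _ _), ?_, fun b hb => hT b (Finset.mem_of_mem_erase hb), ?_⟩
    · have h2 := nat_sup hβ ∅ {r} (Finset.disjoint_empty_left _)
      have h3 : ind {r} = Finsupp.single r 1 := Finset.sum_singleton _ _
      rw [h3] at h2
      refine dq_sup_mono ?_ h2
      intro i hi
      rw [Finset.empty_union, Finset.mem_coe, Finset.mem_singleton] at hi
      exact hi
    · rw [Finset.erase_union_distrib, Finset.erase_eq_of_notMem hA]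
    · rw [one_smul, v, mon_empty_mul_mon]
      congr 1
      rw [← ind_erase hB, add_comm]

private theorem dq_main {β : Tw p ℕ →+ Tw p ℕ} (hβ : NatOp p β) (k : ℕ)
    (hd : ∀ (m : ℕ) (x y : Tw p ℕ), x ∈ Par p ℕ m →
      β (x * y) = β x * y + (-1 : ℤ) ^ (m * k) • (x * β y)) (A B : Finset ℕ)
    (h : Disjoint A B) (T : ℕ →₀ ℕ) (hT : ∀ b ∈ B, T b ≠ 1) (r s : ℕ) (hr : r ∈ A ∪ B)
    (hs : s ∈ A ∪ B) (hrs : r ≠ s) : co (β (mon p A (ind B))) ∅ T = 0 := by
  obtain ⟨ε, g, m, A', B', hg, hsup, hbad, hdis, hun, hT', hfac⟩ := dq_fac hβ A B h T hT r hr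
  obtain ⟨ε', g', m', A'', B'', hg', hsup', hbad', hdis', hun', hT'', hfac'⟩ :=
    dq_fac hβ A' B' hdis T hT' s (by rw [hun]; exact Finset.mem_erase.2 ⟨hrs.symm, hs⟩)
  have e1 : co (g * β (mon p A' (ind B'))) ∅ T = 0 := by
    have h1 := hbad (↑(A' ∪ B') : Set ℕ) (by rw [hun]; simp) 1 (β (mon p A' (ind B')))
      (dq_sup_mon (E := ∅) (S := 0) (fun i hi => absurd hi (Finset.notMem_empty i))
        (fun i hi => by simp at hi)) (nat_sup hβ A' B' hdis)
    rwa [one_mul] at h1
  have e2 : co (β g * mon p A' (ind B')) ∅ T = 0 := by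
    rw [hfac', mul_smul_comm, co_zsmul, hbad' {s}ᶜ (by simp) (β g) _ (dq_sup_mono ?_ hsup)
      (dq_sup_mon ?_ ?_), mul_zero]
    · intro i hi
      rw [Set.mem_singleton_iff] at hi
      rw [hi]
      exact hrs
    · intro i hi
      have h1 : i ∈ A'' ∪ B'' := Finset.mem_union_left _ hi
      rw [hun'] at h1
      exact (Finset.mem_erase.1 h1).1
    · intro i hi
      rw [ind_support] at hi
      have h1 : i ∈ A'' ∪ B'' := Finset.mem_union_right _ hi
      rw [hun'] at h1
      exact (Finset.mem_erase.1 h1).1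
  rw [hfac, map_zsmul, hd m g _ hg, co_zsmul, co_add, co_zsmul, e1, e2, mul_zero, add_zero, mul_zero]

theorem Jf_deriv (i : ℕ) {β : Tw p ℕ →+ Tw p ℕ} (hβ : NatOp p β) (hk : HgOp (2 * p ^ i - 1) β)
    (hd : ∀ (m : ℕ) (x y : Tw p ℕ), x ∈ Par p ℕ m →
      β (x * y) = β x * y + (-1 : ℤ) ^ (m * (2 * p ^ i - 1)) • (x * β y)) :
    ∃ c : ZMod p, ∀ z, Jf β z = c * tst p i z := by
  have hp : p.Prime := Fact.out
  have key : ∀ (E : Finset ℕ) (R : ℕ →₀ ℕ), ¬ (E = {i} ∧ R = 0) → Jc p β E R = 0 := by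
    intro E R hER
    by_cases hdeg : Mil.deg p R E = 2 * p ^ i - 1
    swap
    · have h1 := Jf_Hg hk 1 E R hdeg
      rwa [Jf_mon, one_mul] at h1
    let B : Finset ℕ := (R.support.sigma fun i => Finset.range (R i)).image
      fun z => 2 * Nat.pair z.1 z.2 + 1
    have hmemB : ∀ j, R j ≠ 0 → 2 * Nat.pair j 0 + 1 ∈ B := by
      intro j hj
      refine Finset.mem_image.2 ⟨⟨j, 0⟩, ?_, rfl⟩
      rw [Finset.mem_sigma]
      exact ⟨Finsupp.mem_support_iff.2 hj, Finset.mem_range.2 (Nat.pos_of_ne_zero hj)⟩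
    have hpi : 0 < p ^ i := pow_pos hp.pos i
    obtain ⟨e, he⟩ : E.Nonempty := by
      rw [Finset.nonempty_iff_ne_empty]
      rintro rfl
      rw [Mil.deg, Finset.sum_empty, add_zero, Finsupp.sum] at hdeg
      have h1 : 2 ∣ ∑ j ∈ R.support, R j * (2 * (p ^ (j + 1) - 1)) :=
        Finset.dvd_sum fun j _ => ⟨R j * (p ^ (j + 1) - 1), by ring⟩
      rw [hdeg] at h1
      omega
    have h2e : 2 * e ∈ uA E ∪ B :=
      Finset.mem_union_left _ (Finset.mem_image.2 ⟨e, he, rfl⟩)
    obtain ⟨s, hs, hes⟩ : ∃ s ∈ uA E ∪ B, 2 * e ≠ s := by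
      by_cases hR : R = 0
      · by_cases hE : ∃ e' ∈ E, e' ≠ e
        · obtain ⟨e', he', hne⟩ := hE
          exact ⟨2 * e', Finset.mem_union_left _ (Finset.mem_image.2 ⟨e', he', rfl⟩), by omega⟩
        · exfalso
          have hEe : E = {e} := by
            ext x
            rw [Finset.mem_singleton]
            constructor
            · intro hx
              by_contra h3
              exact hE ⟨x, hx, h3⟩
            · rintro rfl
              exact he
          subst hR
          rw [hEe, Mil.deg, Finsupp.sum_zero_index, zero_add, Finset.sum_singleton] at hdeg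
          have h4 : p ^ e = p ^ i := by
            have : 0 < p ^ e := pow_pos hp.pos e
            omega
          exact hER ⟨by rw [hEe, Nat.pow_right_injective hp.two_le h4], rfl⟩
      · obtain ⟨j, hj⟩ : ∃ j, R j ≠ 0 := by
          by_contra h3
          push Not at h3
          exact hR (Finsupp.ext h3)
        exact ⟨2 * Nat.pair j 0 + 1, Finset.mem_union_right _ (hmemB j hj), by omega⟩
    let κ : ℕ → ℕ := fun n => (Nat.unpair (n / 2)).1
    have hκ1 : ∀ i c, κ (2 * Nat.pair i c + 1) = i := fun i c => by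
      change (Nat.unpair ((2 * Nat.pair i c + 1) / 2)).1 = i
      rw [show (2 * Nat.pair i c + 1) / 2 = Nat.pair i c by omega, Nat.unpair_pair]
    have hBsum : ∀ g : ℕ → (ℕ →₀ ℕ), ∑ b ∈ B, g b =
        ∑ i ∈ R.support, ∑ c ∈ Finset.range (R i), g (2 * Nat.pair i c + 1) := by
      intro g
      rw [Finset.sum_image, Finset.sum_sigma]
      rintro ⟨i, c⟩ - ⟨i', c'⟩ - h1
      have h2 : Nat.pair i c = Nat.pair i' c' := by
        change 2 * Nat.pair i c + 1 = 2 * Nat.pair i' c' + 1 at h1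
        omega
      rw [Nat.pair_eq_pair] at h2
      obtain ⟨rfl, rfl⟩ := h2
      rfl
    have hdis : Disjoint (uA E) B := by
      rw [Finset.disjoint_left]
      intro x hx hx'
      obtain ⟨e, -, rfl⟩ := Finset.mem_image.1 hx
      obtain ⟨z, -, hz⟩ := Finset.mem_image.1 hx'
      omega
    have h1 : uB R = ind B := by
      rw [ind, hBsum fun b => Finsupp.single b 1, uB]
    have h2 : uT p E R = ∑ e ∈ E, Finsupp.single (2 * e) (p ^ e) +
        ∑ b ∈ B, Finsupp.single b (p ^ (κ b + 1)) := by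
      rw [hBsum fun b => Finsupp.single b (p ^ (κ b + 1)), uT]
      congr 1
      refine Finset.sum_congr rfl fun i _ => Finset.sum_congr rfl fun c _ => ?_
      rw [hκ1]
    have hT : ∀ b ∈ B, uT p E R b ≠ 1 := by
      intro b hb
      rw [h2, Finsupp.add_apply, Finsupp.finsetSum_apply, Finsupp.finsetSum_apply,
        Finset.sum_eq_single_of_mem b hb (fun c _ hc => Finsupp.single_eq_of_ne hc.symm),
        Finsupp.single_eq_same]
      have : 2 ≤ p ^ (κ b + 1) := le_trans hp.two_le (Nat.le_self_pow (Nat.succ_ne_zero _) p)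
      omega
    rw [Jc, h1]
    exact dq_main hβ _ hd (uA E) B hdis _ hT (2 * e) s h2e hs hes
  refine ⟨Jc p β {i} 0, fun z => ?_⟩
  have h1 : Jf β = (AddMonoidHom.mulLeft (Jc p β {i} 0)).comp (tst p i) :=
    addHom_ext fun c E R => by
      rw [Jf_mon, AddMonoidHom.comp_apply, AddMonoidHom.coe_mulLeft, tst_apply, co_smul, co_mon]
      by_cases h : E = {i} ∧ R = 0
      · rw [if_pos h, h.1, h.2, mul_one, mul_comm]
      · rw [if_neg h, key E R h, mul_zero, mul_zero]
  rw [h1]
  rfl

end Tw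

end BPN.E
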