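import Pool.Agent.BPN.E.TwM
import Pool.Agent.BPN.E.Comm

/-!
# Part (E), module Ev: evaluation `Tw p I → H^*(BV p I)` (project BPN, architect helper30)

PROOFS.
* `ev_exists`: `Tw.lift_exists` with `HR_p`, `comm11`, `comm12`, `comm22`, `xx_two`, `xx_odd`.
* `ev_map`, `ev_addm`: both sides are ring homomorphisms, equal on generators (`Tw.hom_ext`).
* `ev_mon`: `mon E S` is a product of generators; products of classes of cocycles are classes of cocycles.
* `ev_psi`: `cl_psi_even`, `cl_psi_odd`.
-/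

namespace BPN.E

open Tw

variable {p : ℕ} [Fact p.Prime] {I J : Type} [LinearOrder I] [LinearOrder J]

theorem ev_exists : ∃ φ : Tw p I →+* HR p (BV p I), (∀ i, φ (t p i) = xh p i) ∧
    ∀ i, φ (v p i) = yh p i := by
  refine lift_exists HR_p (xh p) (yh p) (fun i j => comm22 _ _) (fun i j => comm12 _ _)
    (fun i j _ => comm11 _ _) fun i => ?_
  split_ifs with h
  · exact xx_two i h
  · exact xx_odd i h

/-- Evaluation. -/
noncomputable def ev (p : ℕ) [Fact p.Prime] (I : Type) [LinearOrder I] :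
    Tw p I →+* HR p (BV p I) := Classical.choose (ev_exists (p := p) (I := I))

theorem ev_t (i : I) : ev p I (t p i) = xh p i :=
  (Classical.choose_spec (ev_exists (p := p) (I := I))).1 i

theorem ev_v (i : I) : ev p I (v p i) = yh p i :=
  (Classical.choose_spec (ev_exists (p := p) (I := I))).2 i

theorem ev_map (κ : J → I) (u : Tw p J) :
    HR.pull (BVm (Lk p κ)) (ev p J u) = ev p I (map p κ u) := by
  have h : (HR.pull (BVm (Lk p κ))).comp (ev p J) = (ev p I).comp (map p κ) := by
    refine hom_ext (fun i => ?_) fun i => ?_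
    · rw [RingHom.comp_apply, RingHom.comp_apply, ev_t, map_t, ev_t, pull_k_x]
    · rw [RingHom.comp_apply, RingHom.comp_apply, ev_v, map_v, ev_v, pull_k_y]
  exact RingHom.congr_fun h u

theorem ev_addm (i j : I) (h : i ≠ j) (u : Tw p I) :
    HR.pull (BVm (La2 p i j)) (ev p I u) = ev p I (addm p i j u) := by
  have h1 : (HR.pull (BVm (La2 p i j))).comp (ev p I) = (ev p I).comp (addm p i j) := by
    refine hom_ext (fun l => ?_) fun l => ?_
    · rw [RingHom.comp_apply, RingHom.comp_apply, ev_t, addm_t]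
      by_cases hl : l = i
      · rw [if_pos hl, hl, map_add, ev_t, ev_t, pull_add_x i j h]
      · rw [if_neg hl, ev_t, pull_add_x' i j l hl]
    · rw [RingHom.comp_apply, RingHom.comp_apply, ev_v, addm_v]
      by_cases hl : l = i
      · rw [if_pos hl, hl, map_add, ev_v, ev_v, pull_add_y i j h]
      · rw [if_neg hl, ev_v, pull_add_y' i j l hl]
  exact RingHom.congr_fun h1 u

/-- The degree of a monomial. -/
def hdI (E : Finset I) (S : I →₀ ℕ) : ℕ := E.card + 2 * S.sum fun _ n => n

/-! ### Auxiliary lemmas -/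

private theorem v_ind {P : (I →₀ ℕ) → Prop} (h0 : P 0)
    (hv : ∀ i S, P S → P (S + Finsupp.single i 1)) (S : I →₀ ℕ) : P S := by
  induction S using Finsupp.induction with
  | zero => exact h0
  | single_add a b f _ _ ih =>
    have h3 : ∀ b : ℕ, P (Finsupp.single a b + f) := by
      intro b
      induction b with
      | zero => simpa using ih
      | succ b ihb =>
        have h1 := hv a _ ihb
        have h2 : Finsupp.single a b + f + Finsupp.single a 1 = Finsupp.single a (b + 1) + f := by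
          rw [Finsupp.single_add]
          abel
        rwa [h2] at h1
    exact h3 b

private theorem mon_ind {P : Finset I → (I →₀ ℕ) → Prop} (h0 : P ∅ 0)
    (hv : ∀ i S, P ∅ S → P ∅ (S + Finsupp.single i 1))
    (ht : ∀ i E S, (∀ e ∈ E, e < i) → P E S → P (insert i E) S) (E : Finset I) (S : I →₀ ℕ) :
    P E S := by
  have hS : P ∅ S := v_ind (P := P ∅) h0 hv S
  induction E using Finset.induction_on_max with
  | empty => exact hS
  | insert a s hs ih => exact ht a s S hs ih

private theorem repr_co (x : Tw p I) :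
    x = ∑ z ∈ (co_finite x).toFinset, co x z.1 z.2 • mon p z.1 z.2 := by
  refine ext_co fun E S => ?_
  rw [co_sum, Finset.sum_eq_single (E, S)]
  · rw [co_smul, co_mon, if_pos ⟨rfl, rfl⟩, mul_one]
  · intro z _ hz
    rw [co_smul, co_mon, if_neg, mul_zero]
    rintro ⟨h1, h2⟩
    exact hz (Prod.ext h1 h2)
  · intro hz
    have h1 : co x E S = 0 := by
      by_contra hne
      exact hz ((co_finite x).mem_toFinset.2 hne)
    rw [co_smul, h1, zero_mul]

private theorem smul_nat (c : ZMod p) (x : Tw p I) : c • x = c.val • x := by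
  have h : NeZero p := ⟨(Fact.out : p.Prime).ne_zero⟩
  conv_lhs => rw [← ZMod.natCast_zmod_val c]
  exact Nat.cast_smul_eq_nsmul (ZMod p) _ x

private theorem sum_add_single (S : I →₀ ℕ) (i : I) :
    ((S + Finsupp.single i 1).sum fun _ n => n) = (S.sum fun _ n => n) + 1 := by
  rw [Finsupp.sum_add_index' (fun _ => rfl) (fun _ _ _ => rfl),
    Finsupp.sum_single_index rfl]

/-- The value is a class of degree `n`. -/
private def Hm (n : ℕ) (u : Tw p I) : Prop :=
  ∃ c : CoZ (BV p I) (ZMod p) n, ev p I u = HR.cl n c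

private theorem hm_zero (n : ℕ) : Hm n (0 : Tw p I) := ⟨0, by rw [map_zero, map_zero]⟩

private theorem hm_add {n : ℕ} {x y : Tw p I} (hx : Hm n x) (hy : Hm n y) : Hm n (x + y) := by
  obtain ⟨c, hc⟩ := hx
  obtain ⟨c', hc'⟩ := hy
  exact ⟨c + c', by rw [map_add, map_add, hc, hc']⟩

private theorem hm_smul {n : ℕ} {x : Tw p I} (a : ZMod p) (hx : Hm n x) : Hm n (a • x) := by
  obtain ⟨c, hc⟩ := hx
  exact ⟨a.val • c, by rw [smul_nat, map_nsmul, map_nsmul, hc]⟩

private theorem hm_mul {m n : ℕ} {x y : Tw p I} (hx : Hm m x) (hy : Hm n y) :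
    Hm (m + n) (x * y) := by
  obtain ⟨c, hc⟩ := hx
  obtain ⟨c', hc'⟩ := hy
  exact ⟨cupZ rfl c c', by rw [map_mul, cl_mul, hc, hc']⟩

private theorem hm_sum {ι : Type} {n : ℕ} (s : Finset ι) (f : ι → Tw p I)
    (h : ∀ i ∈ s, Hm n (f i)) : Hm n (∑ i ∈ s, f i) := by
  classical
  induction s using Finset.induction_on with
  | empty =>
    rw [Finset.sum_empty]
    exact hm_zero n
  | insert i s hi ih =>
    rw [Finset.sum_insert hi]
    exact hm_add (h i (Finset.mem_insert_self i s))
      (ih fun j hj => h j (Finset.mem_insert_of_mem hj))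

private theorem hm_mon (E : Finset I) (S : I →₀ ℕ) : Hm (hdI E S) (mon p E S) := by
  refine mon_ind (P := fun E S => Hm (hdI E S) (mon p E S)) ?_ ?_ ?_ E S
  · exact ⟨oneZ p _, by rw [mon_zero, map_one]; exact cl_one.symm⟩
  · intro i S h
    have h1 : Hm 2 (v p i) := ⟨yc p i, ev_v i⟩
    have h2 := hm_mul h h1
    have h3 : mon p ∅ S * v p i = mon p ∅ (S + Finsupp.single i 1) := mon_mul_mon_empty _ _ _
    have h4 : hdI ∅ S + 2 = hdI ∅ (S + Finsupp.single i 1) := by
      unfold hdI
      rw [sum_add_single]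
      ring
    rw [h3, h4] at h2
    exact h2
  · intro i E S hi h
    have h1 : Hm 1 (t p i) := ⟨xc p i, ev_t i⟩
    have h2 := hm_mul h h1
    have h4 : hdI E S + 1 = hdI (insert i E) S := by
      unfold hdI
      rw [Finset.card_insert_of_notMem fun h1 => lt_irrefl i (hi i h1)]
      ring
    rw [mon_mul_t E S i hi, h4] at h2
    exact h2

theorem ev_mon (E : Finset I) (S : I →₀ ℕ) :
    ∃ c : CoZ (BV p I) (ZMod p) (hdI E S), ev p I (mon p E S) = HR.cl (hdI E S) c := by
  exact hm_mon E S

/-- Homogeneous elements. -/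
def HgE (n : ℕ) (u : Tw p I) : Prop := ∀ E S, co u E S ≠ 0 → hdI E S = n

theorem ev_hg {n : ℕ} {u : Tw p I} (hu : HgE n u) :
    ∃ c : CoZ (BV p I) (ZMod p) n, ev p I u = HR.cl n c := by
  have h : Hm n u := by
    rw [repr_co u]
    refine hm_sum _ _ fun z hz => hm_smul _ ?_
    have h1 := hm_mon (p := p) z.1 z.2
    rwa [hu z.1 z.2 ((co_finite u).mem_toFinset.1 hz)] at h1
  exact h

/-- `psi` as an element of the twisted polynomial ring. -/
noncomputable def ps (p : ℕ) (i : I) (m : ℕ) : Tw p I := v p i ^ (m / 2) * t p i ^ (m % 2)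

theorem ev_ps (i : I) (m : ℕ) : ev p I (ps p i m) = HR.cl m (psi p i m) := by
  unfold ps
  rw [map_mul, map_pow, map_pow, ev_t, ev_v]
  rcases Nat.even_or_odd' m with ⟨j, hj | hj⟩
  · subst hj
    rw [cl_psi_even, Nat.mul_div_cancel_left j (by norm_num), Nat.mul_mod_right, pow_zero, mul_one]
  · subst hj
    rw [cl_psi_odd, show (2 * j + 1) / 2 = j by omega, show (2 * j + 1) % 2 = 1 by omega, pow_one]

/-- Homogeneous components. -/
noncomputable def cmp (n : ℕ) (u : Tw p I) : Tw p I :=
  ∑ z ∈ (co_finite u).toFinset.filter (fun z => hdI z.1 z.2 = n), co u z.1 z.2 • mon p z.1 z.2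

private theorem cmp_co' (n : ℕ) (u : Tw p I) (E : Finset I) (S : I →₀ ℕ) :
    co (cmp n u) E S = if hdI E S = n then co u E S else 0 := by
  unfold cmp
  rw [co_sum]
  by_cases h : ((E, S) : Finset I × (I →₀ ℕ)) ∈
      (co_finite u).toFinset.filter (fun z => hdI z.1 z.2 = n)
  · have h' := (Finset.mem_filter.1 h).2
    rw [if_pos h', Finset.sum_eq_single (E, S)]
    · rw [co_smul, co_mon, if_pos ⟨rfl, rfl⟩, mul_one]
    · intro z _ hz
      rw [co_smul, co_mon, if_neg, mul_zero]
      rintro ⟨h1, h2⟩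
      exact hz (Prod.ext h1 h2)
    · intro h1
      exact absurd h h1
  · rw [Finset.sum_eq_zero]
    · split_ifs with h1
      · by_contra hne
        exact h (Finset.mem_filter.2 ⟨(co_finite u).mem_toFinset.2 fun h2 => hne h2.symm, h1⟩)
      · rfl
    · intro z hz
      rw [co_smul, co_mon, if_neg, mul_zero]
      rintro ⟨h1, h2⟩
      apply h
      have h3 : ((E, S) : Finset I × (I →₀ ℕ)) = z := Prod.ext h1.symm h2.symm
      rw [h3]
      exact hz

theorem cmp_hg (n : ℕ) (u : Tw p I) : HgE n (cmp n u) := by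
  intro E S h
  rw [cmp_co'] at h
  by_contra hne
  rw [if_neg hne] at h
  exact h rfl

theorem cmp_sum (u : Tw p I) : ∃ N : ℕ, (∀ n, N ≤ n → cmp n u = 0) ∧
    u = ∑ n ∈ Finset.range N, cmp n u := by
  obtain ⟨N, hN⟩ : ∃ N : ℕ, ∀ E S, co u E S ≠ 0 → hdI E S < N := by
    refine ⟨(∑ z ∈ (co_finite u).toFinset, hdI z.1 z.2) + 1, fun E S h => ?_⟩
    have h1 : ((E, S) : Finset I × (I →₀ ℕ)) ∈ (co_finite u).toFinset :=
      (co_finite u).mem_toFinset.2 h
    have h2 := Finset.single_le_sum (f := fun z : Finset I × (I →₀ ℕ) => hdI z.1 z.2)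
      (fun _ _ => Nat.zero_le _) h1
    exact Nat.lt_succ_of_le h2
  refine ⟨N, fun n hn => ext_co fun E S => ?_, ext_co fun E S => ?_⟩
  · rw [cmp_co', co_zero]
    split_ifs with h
    · by_contra hne
      have := hN E S hne
      omega
    · rfl
  · rw [co_sum]
    simp only [cmp_co']
    rw [Finset.sum_ite_eq]
    split_ifs with h
    · rfl
    · by_contra hne
      exact h (Finset.mem_range.2 (hN E S hne))

theorem cmp_co (n : ℕ) (u : Tw p I) (E : Finset I) (S : I →₀ ℕ) :
    co (cmp n u) E S = if hdI E S = n then co u E S else 0 := by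
  exact cmp_co' n u E S

end BPN.E
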