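import Pool.Agent.BPN.E.KSVc
import Pool.Agent.BPN.E.BCoh

/-!
# Part (E), module Kun: Kuenneth theorems for simplicial sets (project BPN, helper30)

PROOFS.
* `exists_KB`: for every `b` let `H = cocycles / coboundaries` of `Z.X b → k` (finite dimensional, `Z.X b` is finite);
  take a basis of `H` containing the class of `f b` if `b ≤ t` (this class is not `0`), and lift it.
* Translation: `CC (toSV k X) (toSS Z) n` is the space of functions on `X_n × Z_n` (a linear functional on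
  `X_n →₀ k` is a function on `X_n`), `dC` is `cobd`, `crv` is `crs` (for `a + b = n`), `dV`, `dS` are `cobd`.
* `KSurj`: `KB (toSS (BV p Unit)) (fun b (_ : Unit) => psi b)` by `psi_span`, `psi_ne`, `exists_norm`,
  `isBd_of_unnorm`.  `kun_surj` gives `θ = ∑ φ_b × psi_b + δ η` with unnormalised cocycles `φ_b`; by
  `exists_norm` `φ_b = φ'_b + δ e_b`, `φ'_b` normalised, and `(δ e_b) × psi_b = δ (e_b × psi_b)`; so
  `θ - ∑ φ'_b × psi_b` is a normalised cochain which is an unnormalised coboundary, hence `IsBd`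
  (`isBd_of_unnorm`).  Then `cl_crs`.
* `KInj`: complete `ψ b`, `b ≤ t`, to a `KB` family (`exists_KB`; not a coboundary in the unnormalised sense
  by `isBd_of_unnorm`), put the other coefficients `φ` equal to `0`, apply `kun_inj` for `toSV X`: `φ_b` is an
  unnormalised coboundary, so `IsBd` (`isBd_of_unnorm`; in degree `0` it is `0`).
-/

namespace BPN.E

open CategoryTheory SSet Simplicial Opposite Module

open Classical in
/-- Total operators of a simplicial set. -/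
noncomputable def opT (X : SSet.{0}) (a b : ℕ) (f : ℕ → ℕ) (σ : X.obj (op ⦋b⦌)) :
    X.obj (op ⦋a⦌) :=
  if h : Ok a b f then opr X f h.1 h.2 σ else
    opr X (fun _ => 0) monotone_const (fun _ _ => Nat.zero_le _) σ

theorem opT_ok (X : SSet.{0}) {a b : ℕ} {f : ℕ → ℕ} (h : Ok a b f) (σ : X.obj (op ⦋b⦌)) :
    opT X a b f σ = opr X f h.1 h.2 σ := by
  unfold opT
  rw [dif_pos h]

private theorem opT_comp (X : SSet.{0}) {a b c : ℕ} {f g : ℕ → ℕ} (hg : Ok a b g)
    (hf : Ok b c f) (σ : X.obj (op ⦋c⦌)) :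
    opT X a b g (opT X b c f σ) = opT X a c (f ∘ g) σ := by
  rw [opT_ok X hf, opT_ok X hg, opT_ok X (hg.comp hf), opr_opr]

private theorem opT_congr (X : SSet.{0}) {a b : ℕ} {f g : ℕ → ℕ} (hf : Ok a b f)
    (hg : Ok a b g) (h : ∀ i, i ≤ a → f i = g i) (σ : X.obj (op ⦋b⦌)) :
    opT X a b f σ = opT X a b g σ := by
  rw [opT_ok X hf, opT_ok X hg]
  exact opr_congr X hf.1 hg.1 hf.2 hg.2 h σ

private theorem opT_id (X : SSet.{0}) (a : ℕ) (σ : X.obj (op ⦋a⦌)) : opT X a a id σ = σ := by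
  rw [opT_ok X (ok_id a)]
  exact opr_id X _ σ

/-- The underlying simplicial set with total operators. -/
noncomputable def toSS (Z : SSet.{0}) : SS where
  X := fun n => Z.obj (op ⦋n⦌)
  op := opT Z
  op_op := fun hg hf x => opT_comp Z hg hf x
  op_congr := fun hf hg h x => opT_congr Z hf hg h x
  op_id := fun a x => opT_id Z a x

/-- The free simplicial vector space. -/
noncomputable def toSV (k : Type) [Field k] (X : SSet.{0}) : SV k where
  V := fun n => X.obj (op ⦋n⦌) →₀ k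
  op := fun a b f => Finsupp.lmapDomain k k (opT X a b f)
  op_op := fun {a b c f g} hg hf x => by
    change Finsupp.mapDomain (opT X a b g) (Finsupp.mapDomain (opT X b c f) x) =
      Finsupp.mapDomain (opT X a c (f ∘ g)) x
    have e : opT X a b g ∘ opT X b c f = opT X a c (f ∘ g) :=
      funext fun σ => opT_comp X hg hf σ
    rw [← Finsupp.mapDomain_comp, e]
  op_congr := fun {a b f g} hf hg h x => by
    change Finsupp.mapDomain (opT X a b f) x = Finsupp.mapDomain (opT X a b g) x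
    have e : opT X a b f = opT X a b g := funext fun σ => opT_congr X hf hg h σ
    rw [e]
  op_id := fun a x => by
    change Finsupp.mapDomain (opT X a a id) x = x
    have e : opT X a a id = id := funext fun σ => opT_id X a σ
    rw [e, Finsupp.mapDomain_id]

/-! ### Linear algebra -/

private theorem basis_lift {k M : Type} [Field k] [AddCommGroup M] [Module k M]
    [FiniteDimensional k M] (Zs Bs : Submodule k M) (v : M) :
    ∃ (I : Type) (_ : Fintype I) (ψ : I → M), (∀ i, ψ i ∈ Zs) ∧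
      (∀ f ∈ Zs, ∃ c : I → k, f - ∑ i, c i • ψ i ∈ Bs) ∧
      (∀ c : I → k, ∑ i, c i • ψ i ∈ Bs → c = 0) ∧ (v ∈ Zs → v ∉ Bs → ∃ i, ψ i = v) := by
  classical
  obtain ⟨W, hW⟩ : ∃ W, W = Zs.map Bs.mkQ := ⟨_, rfl⟩
  have key : ∀ (s : Set W) (hs : LinearIndepOn k id s) (L : W → M)
      (_ : ∀ w, L w ∈ Zs ∧ Bs.mkQ (L w) = (w : M ⧸ Bs)),
      ∃ (I : Type) (_ : Fintype I) (ψ : I → M), (∀ i, ψ i ∈ Zs) ∧
        (∀ f ∈ Zs, ∃ c : I → k, f - ∑ i, c i • ψ i ∈ Bs) ∧
        (∀ c : I → k, ∑ i, c i • ψ i ∈ Bs → c = 0) ∧ ∀ w ∈ s, ∃ i, ψ i = L w := by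
    intro s hs L hL
    obtain ⟨bs, hbs⟩ : ∃ bs : Basis (hs.extend (Set.subset_univ s)) k W, bs = Basis.extend hs :=
      ⟨_, rfl⟩
    have hbs' : ∀ i, bs i = (i : W) := fun i => by
      rw [hbs]
      exact Basis.extend_apply_self hs i
    haveI : Fintype (hs.extend (Set.subset_univ s)) := FiniteDimensional.fintypeBasisIndex bs
    have hsum : ∀ c : hs.extend (Set.subset_univ s) → k,
        Bs.mkQ (∑ i, c i • L (i : W)) = ((∑ i, c i • bs i : W) : M ⧸ Bs) := by
      intro c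
      rw [map_sum, Submodule.coe_sum]
      refine Finset.sum_congr rfl fun i _ => ?_
      rw [map_smul, (hL (i : W)).2, Submodule.coe_smul, hbs']
    refine ⟨hs.extend (Set.subset_univ s), inferInstance, fun i => L (i : W),
      fun i => (hL _).1, ?_, ?_, ?_⟩
    · intro f hf
      have hw : Bs.mkQ f ∈ W := by
        rw [hW]
        exact Submodule.mem_map_of_mem hf
      refine ⟨fun i => bs.repr ⟨Bs.mkQ f, hw⟩ i, ?_⟩
      have h0 : Bs.mkQ (f - ∑ i, bs.repr ⟨Bs.mkQ f, hw⟩ i • L (i : W)) = 0 := by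
        rw [map_sub, hsum, bs.sum_repr, sub_self]
      exact (Submodule.Quotient.mk_eq_zero Bs).1 h0
    · intro c hc
      have h1 : Bs.mkQ (∑ i, c i • L (i : W)) = 0 := (Submodule.Quotient.mk_eq_zero Bs).2 hc
      rw [hsum] at h1
      have h2 : ∑ i, c i • bs i = 0 := Subtype.ext h1
      exact funext (Fintype.linearIndependent_iff.1 bs.linearIndependent c h2)
    · intro w hw
      exact ⟨⟨w, Basis.subset_extend hs hw⟩, rfl⟩
  have hlift : ∀ w : W, ∃ z ∈ Zs, Bs.mkQ z = (w : M ⧸ Bs) := fun w =>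
    (le_of_eq hW) w.2
  choose l hl1 hl2 using hlift
  by_cases hv : v ∈ Zs ∧ v ∉ Bs
  · have hvW : Bs.mkQ v ∈ W := by
      rw [hW]
      exact Submodule.mem_map_of_mem hv.1
    have hv0 : (⟨Bs.mkQ v, hvW⟩ : W) ≠ 0 := by
      intro h1
      exact hv.2 ((Submodule.Quotient.mk_eq_zero Bs).1 (congrArg Subtype.val h1))
    obtain ⟨I, hI, ψ, h1, h2, h3, h4⟩ := key {⟨Bs.mkQ v, hvW⟩}
      (LinearIndepOn.singleton (i := ⟨Bs.mkQ v, hvW⟩) (v := (id : W → W)) hv0)
      (fun w => if w = ⟨Bs.mkQ v, hvW⟩ then v else l w) (fun w => by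
        by_cases hw : w = ⟨Bs.mkQ v, hvW⟩
        · rw [if_pos hw, hw]
          exact ⟨hv.1, rfl⟩
        · rw [if_neg hw]
          exact ⟨hl1 w, hl2 w⟩)
    refine ⟨I, hI, ψ, h1, h2, h3, fun _ _ => ?_⟩
    obtain ⟨i, hi⟩ := h4 _ rfl
    exact ⟨i, by rw [hi, if_pos rfl]⟩
  · obtain ⟨I, hI, ψ, h1, h2, h3, -⟩ := key ∅ (linearIndepOn_empty k id) l
      (fun w => ⟨hl1 w, hl2 w⟩)
    exact ⟨I, hI, ψ, h1, h2, h3, fun h4 h5 => absurd ⟨h4, h5⟩ hv⟩

/-- The coboundary of functions as a linear map. -/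
private def dSL (k : Type) [Field k] (Z : SS) (n : ℕ) : (Z.X n → k) →ₗ[k] (Z.X (n + 1) → k) where
  toFun := dS k Z n
  map_add' := fun f g => by
    funext z
    simp only [dS, Pi.add_apply, smul_add, Finset.sum_add_distrib]
  map_smul' := fun c f => by
    funext z
    simp only [dS, Pi.smul_apply, RingHom.id_apply, smul_eq_mul, Finset.mul_sum]
    refine Finset.sum_congr rfl fun i _ => ?_
    rw [mul_smul_comm]

private def BsS (k : Type) [Field k] (Z : SS) (n : ℕ) : Submodule k (Z.X n → k) :=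
  match n with
  | 0 => ⊥
  | n + 1 => LinearMap.range (dSL k Z n)

private theorem mem_BsS {k : Type} [Field k] {Z : SS} {n : ℕ} {f : Z.X n → k} :
    f ∈ BsS k Z n ↔ BdS Z n f := by
  cases n with
  | zero => exact Submodule.mem_bot k
  | succ n =>
    change f ∈ LinearMap.range (dSL k Z n) ↔ ∃ e, f = dS k Z n e
    rw [LinearMap.mem_range]
    exact ⟨fun ⟨e, he⟩ => ⟨e, he.symm⟩, fun ⟨e, he⟩ => ⟨e, he.symm⟩⟩

theorem exists_KB {k : Type} [Field k] (Z : SS) (hZ : ∀ n, Finite (Z.X n)) (t : ℕ)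
    (f : ∀ b, Z.X b → k) (hf : ∀ b, dS k Z b (f b) = 0) (hf' : ∀ b, b ≤ t → ¬ BdS Z b (f b)) :
    ∃ (I : ℕ → Type) (_ : ∀ b, Fintype (I b)) (ψ : ∀ b, I b → Z.X b → k), KB Z ψ ∧
      ∀ b, b ≤ t → ∃ i : I b, ψ b i = f b := by
  have h0 : ∀ b, ∃ (I : Type) (_ : Fintype I) (ψ : I → Z.X b → k),
      (∀ i, ψ i ∈ LinearMap.ker (dSL k Z b)) ∧
      (∀ g ∈ LinearMap.ker (dSL k Z b), ∃ c : I → k, g - ∑ i, c i • ψ i ∈ BsS k Z b) ∧
      (∀ c : I → k, ∑ i, c i • ψ i ∈ BsS k Z b → c = 0) ∧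
      (f b ∈ LinearMap.ker (dSL k Z b) → f b ∉ BsS k Z b → ∃ i, ψ i = f b) := fun b => by
    have := hZ b
    exact basis_lift (LinearMap.ker (dSL k Z b)) (BsS k Z b) (f b)
  choose I hI ψ h1 h2 h3 h4 using h0
  refine ⟨I, hI, ψ, ⟨fun b i => ?_, fun b g hg => ?_, fun b c hc => ?_⟩, fun b hb => ?_⟩
  · exact LinearMap.mem_ker.1 (h1 b i)
  · obtain ⟨c, hc⟩ := h2 b g (LinearMap.mem_ker.2 hg)
    exact ⟨c, mem_BsS.1 hc⟩
  · exact h3 b c (mem_BsS.2 hc)
  · exact h4 b (LinearMap.mem_ker.2 (hf b)) fun h => hf' b hb (mem_BsS.1 h)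

/-! ### Translation -/

section tr

variable {k : Type} [Field k] {X Z W : SSet.{0}}

/-- Unnormalised coboundaries. -/
private def UB {n : ℕ} (f : W.obj (op ⦋n⦌) → k) : Prop :=
  f = 0 ∨ ∃ (m : ℕ) (h : m + 1 = n) (e : W.obj (op ⦋m⦌) → k), f = cobd h e

private theorem cb_add {m l : ℕ} (hl : m + 1 = l) (x y : W.obj (op ⦋m⦌) → k) :
    cobd hl (x + y) = cobd hl x + cobd hl y := by
  funext σ
  simp only [cobd, Pi.add_apply, smul_add, Finset.sum_add_distrib]

private theorem cb_smul {m l : ℕ} (hl : m + 1 = l) (c : k) (x : W.obj (op ⦋m⦌) → k) :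
    cobd hl (c • x) = c • cobd hl x := by
  funext σ
  simp only [cobd, Pi.smul_apply, smul_eq_mul, Finset.mul_sum]
  refine Finset.sum_congr rfl fun i _ => ?_
  rw [mul_smul_comm]

private theorem UB.add {n : ℕ} {f g : W.obj (op ⦋n⦌) → k} (hf : UB f) (hg : UB g) :
    UB (f + g) := by
  rcases hf with rfl | ⟨m, h, e, rfl⟩
  · rwa [zero_add]
  · rcases hg with rfl | ⟨m', h', e', rfl⟩
    · rw [add_zero]
      exact Or.inr ⟨m, h, e, rfl⟩
    · obtain rfl : m = m' := by omega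
      exact Or.inr ⟨m, h, e + e', (cb_add h e e').symm⟩

private theorem UB.smul {n : ℕ} {f : W.obj (op ⦋n⦌) → k} (hf : UB f) (c : k) : UB (c • f) := by
  rcases hf with rfl | ⟨m, h, e, rfl⟩
  · rw [smul_zero]
    exact Or.inl rfl
  · exact Or.inr ⟨m, h, c • e, (cb_smul h c e).symm⟩

private theorem UB.sum {n : ℕ} {ι : Type} {s : Finset ι} {f : ι → W.obj (op ⦋n⦌) → k}
    (hf : ∀ i ∈ s, UB (f i)) : UB (∑ i ∈ s, f i) := by
  classical
  induction s using Finset.induction_on with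
  | empty => exact Or.inl rfl
  | insert a s ha ih =>
    rw [Finset.sum_insert ha]
    exact (hf a (Finset.mem_insert_self a s)).add
      (ih fun i hi => hf i (Finset.mem_insert_of_mem hi))

private theorem UB.of {n : ℕ} {f : W.obj (op ⦋n⦌) → k} (hf : IsBd f) : UB f := by
  rcases hf with h | ⟨m, h, e, -, he⟩
  · exact Or.inl h
  · exact Or.inr ⟨m, h, e, he⟩

private theorem UB.isBd {n : ℕ} {f : W.obj (op ⦋n⦌) → k} (hf : UB f) (hc : f ∈ CoC W k n) :
    IsBd f := by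
  rcases hf with rfl | ⟨m, h, e, rfl⟩
  · exact Or.inl rfl
  · exact isBd_of_unnorm h e hc

private theorem dS_eq {n : ℕ} (f : Z.obj (op ⦋n⦌) → k) :
    dS k (toSS Z) n f = cobd (rfl : n + 1 = n + 1) f := by
  funext z
  unfold dS cobd
  refine Finset.sum_congr rfl fun i _ => ?_
  have e : (toSS Z).op n (n + 1) (dl i) z = fc Z i rfl z := opT_ok Z (ok_dl i n) z
  rw [e]

private theorem bdS_iff {n : ℕ} {f : Z.obj (op ⦋n⦌) → k} : BdS (toSS Z) n f ↔ UB f := by
  cases n with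
  | zero =>
    refine ⟨fun h => Or.inl h, fun h => ?_⟩
    rcases h with h | ⟨m, h, -⟩
    · exact h
    · omega
  | succ n =>
    refine ⟨fun h => ?_, fun h => ?_⟩
    · obtain ⟨e, he⟩ := h
      exact Or.inr ⟨n, rfl, e, by rw [he]; exact dS_eq e⟩
    · rcases h with h | ⟨m, h, e, he⟩
      · refine ⟨0, ?_⟩
        rw [h]
        funext z
        simp [dS]
      · obtain rfl : m = n := by omega
        exact ⟨e, by rw [he]; exact (dS_eq e).symm⟩

/-- A function as functional. -/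
private noncomputable def TR {n : ℕ} (f : X.obj (op ⦋n⦌) → k) : Dual k ((toSV k X).V n) :=
  (Finsupp.linearCombination k f : (X.obj (op ⦋n⦌) →₀ k) →ₗ[k] k)

/-- A functional as function. -/
private noncomputable def uV {n : ℕ} (φ : Dual k ((toSV k X).V n)) : X.obj (op ⦋n⦌) → k :=
  fun x => φ (Finsupp.single x 1 : X.obj (op ⦋n⦌) →₀ k)

private theorem uV_TR {n : ℕ} (f : X.obj (op ⦋n⦌) → k) : uV (TR f) = f := by
  funext x
  change Finsupp.linearCombination k f (Finsupp.single x 1) = f x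
  rw [Finsupp.linearCombination_single, one_smul]

private theorem uV_inj {n : ℕ} {φ φ' : Dual k ((toSV k X).V n)} (h : uV φ = uV φ') : φ = φ' := by
  have h1 : (φ : (X.obj (op ⦋n⦌) →₀ k) →ₗ[k] k) = (φ' : (X.obj (op ⦋n⦌) →₀ k) →ₗ[k] k) :=
    Finsupp.lhom_ext' fun x => LinearMap.ext_ring (congrFun h x)
  exact h1

private theorem op_single {a b : ℕ} (f : ℕ → ℕ) (x : X.obj (op ⦋b⦌)) :
    (toSV k X).op a b f (Finsupp.single x 1 : X.obj (op ⦋b⦌) →₀ k) =
      (Finsupp.single (opT X a b f x) 1 : X.obj (op ⦋a⦌) →₀ k) :=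
  Finsupp.mapDomain_single

private theorem uV_dV {n : ℕ} (φ : Dual k ((toSV k X).V n)) :
    uV (dV (toSV k X) n φ) = cobd (rfl : n + 1 = n + 1) (uV φ) := by
  funext x
  unfold uV dV cobd
  rw [LinearMap.sum_apply]
  refine Finset.sum_congr rfl fun i _ => ?_
  rw [LinearMap.smul_apply, LinearMap.comp_apply, op_single, opT_ok X (ok_dl i n)]
  rfl

private theorem bdV_iff {n : ℕ} {φ : Dual k ((toSV k X).V n)} :
    BdV (toSV k X) n φ ↔ UB (uV φ) := by
  cases n with
  | zero =>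
    refine ⟨fun h => Or.inl ?_, fun h => ?_⟩
    · have h1 : φ = 0 := h
      rw [h1]
      rfl
    · rcases h with h | ⟨m, h, -⟩
      · exact uV_inj h
      · omega
  | succ n =>
    refine ⟨fun h => ?_, fun h => ?_⟩
    · obtain ⟨e, he⟩ := h
      exact Or.inr ⟨n, rfl, uV e, by rw [he, uV_dV]⟩
    · rcases h with h | ⟨m, h, e, he⟩
      · refine ⟨0, ?_⟩
        rw [dV_zero]
        exact uV_inj h
      · obtain rfl : m = n := by omega
        refine ⟨TR e, uV_inj ?_⟩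
        rw [he, uV_dV, uV_TR]

/-- A cochain of the pair as a function on the product. -/
private noncomputable def uC {n : ℕ} :
    CC (toSV k X) (toSS Z) n →+ ((prodS X Z).obj (op ⦋n⦌) → k) where
  toFun := fun Θ σ => uV (Θ (show X.obj (op ⦋n⦌) × Z.obj (op ⦋n⦌) from σ).2)
    (show X.obj (op ⦋n⦌) × Z.obj (op ⦋n⦌) from σ).1
  map_zero' := rfl
  map_add' := fun _ _ => rfl

/-- The inverse of `uC`. -/
private noncomputable def TP {n : ℕ} (f : (prodS X Z).obj (op ⦋n⦌) → k) :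
    CC (toSV k X) (toSS Z) n :=
  fun z => TR fun x => f (show (prodS X Z).obj (op ⦋n⦌) from
    ((x, z) : X.obj (op ⦋n⦌) × Z.obj (op ⦋n⦌)))

private theorem uC_TP {n : ℕ} (f : (prodS X Z).obj (op ⦋n⦌) → k) : uC (TP f) = f := by
  funext σ
  exact congrFun (uV_TR _) _

private theorem uC_inj {n : ℕ} {Θ Θ' : CC (toSV k X) (toSS Z) n} (h : uC Θ = uC Θ') :
    Θ = Θ' := by
  funext z
  refine uV_inj (funext fun x => ?_)
  exact congrFun h (show (prodS X Z).obj (op ⦋n⦌) from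
    ((x, z) : X.obj (op ⦋n⦌) × Z.obj (op ⦋n⦌)))

private theorem uC_dC {n : ℕ} (Θ : CC (toSV k X) (toSS Z) n) :
    uC (dC (toSV k X) (toSS Z) n Θ) = cobd (rfl : n + 1 = n + 1) (uC Θ) := by
  funext σ
  obtain ⟨x, z⟩ : X.obj (op ⦋n + 1⦌) × Z.obj (op ⦋n + 1⦌) := σ
  change (dC (toSV k X) (toSS Z) n Θ z) (Finsupp.single x 1 : X.obj (op ⦋n + 1⦌) →₀ k) = _
  unfold dC cobd
  rw [LinearMap.sum_apply]
  refine Finset.sum_congr rfl fun i _ => ?_
  have e : (toSS Z).op n (n + 1) (dl i) z = fc Z i rfl z := opT_ok Z (ok_dl i n) z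
  rw [LinearMap.smul_apply, LinearMap.comp_apply, op_single, opT_ok X (ok_dl i n), e]
  rfl

private theorem bdC_iff {n : ℕ} {Θ : CC (toSV k X) (toSS Z) n} :
    BdC (toSV k X) (toSS Z) n Θ ↔ UB (uC Θ) := by
  cases n with
  | zero =>
    refine ⟨fun h => Or.inl ?_, fun h => ?_⟩
    · have h1 : Θ = 0 := h
      rw [h1, map_zero]
    · rcases h with h | ⟨m, h, -⟩
      · refine uC_inj ?_
        rw [h, map_zero]
      · omega
  | succ n =>
    refine ⟨fun h => ?_, fun h => ?_⟩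
    · obtain ⟨e, he⟩ := h
      exact Or.inr ⟨n, rfl, uC e, by rw [he, uC_dC]⟩
    · rcases h with h | ⟨m, h, e, he⟩
      · refine ⟨0, ?_⟩
        rw [dC_zero]
        refine uC_inj ?_
        rw [h, map_zero]
      · obtain rfl : m = n := by omega
        refine ⟨TP e, uC_inj ?_⟩
        rw [he, uC_dC, uC_TP]

private theorem uC_crv {n a b : ℕ} (h : a + b = n) (φ : Dual k ((toSV k X).V a))
    (ψ : Z.obj (op ⦋b⦌) → k) :
    uC (crv (toSV k X) (toSS Z) n a b φ ψ) = crs h (uV φ) ψ := by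
  funext σ
  obtain ⟨x, z⟩ : X.obj (op ⦋n⦌) × Z.obj (op ⦋n⦌) := σ
  change (crv (toSV k X) (toSS Z) n a b φ ψ z) (Finsupp.single x 1 : X.obj (op ⦋n⦌) →₀ k) = _
  unfold crv
  have e : (toSS Z).op b n (fun i => i + a) z = bk Z a (show a + b ≤ n by omega) z :=
    opT_ok Z (f := fun i => i + a)
      ⟨fun _ _ hij => Nat.add_le_add_right hij a, fun i hi => by
        change i + a ≤ n
        omega⟩ z
  rw [LinearMap.smul_apply, LinearMap.comp_apply, op_single,
    opT_ok X (f := id) ⟨monotone_id, fun i hi => by simp only [id]; omega⟩, e, smul_eq_mul,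
    mul_comm]
  rfl

end tr

private theorem ksum_range {k : Type} [Field k] (V : SV k) (Z : SS) {I : ℕ → Type}
    [∀ b, Fintype (I b)] (ψ : ∀ b, I b → Z.X b → k) (n : ℕ)
    (φ : ∀ a b : ℕ, I b → Dual k (V.V a)) :
    KSum V Z ψ n φ = ∑ b ∈ Finset.range (n + 1), ∑ i : I b,
      crv V Z n (n - b) b (φ (n - b) b i) (ψ b i) := by
  unfold KSum
  have h1 := Finset.Nat.sum_antidiagonal_swap (n := n)
    (f := fun ab : ℕ × ℕ => ∑ i : I ab.2, crv V Z n ab.1 ab.2 (φ ab.1 ab.2 i) (ψ ab.2 i))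
  rw [← h1, Finset.Nat.sum_antidiagonal_eq_sum_range_succ_mk]
  rfl

variable {p : ℕ} [Fact p.Prime]

/-- The cross product of cocycles in degree `n`, zero if `b > n`. -/
private noncomputable def GG {X Z : SSet.{0}} (n b : ℕ) (x : CoZ X (ZMod p) (n - b))
    (z : CoZ Z (ZMod p) b) : CoZ (prodS X Z) (ZMod p) n :=
  if h : b ≤ n then crsZ (Nat.sub_add_cancel h) x z else 0

private theorem GG_pos {X Z : SSet.{0}} {n b : ℕ} (h : b ≤ n) (x : CoZ X (ZMod p) (n - b))
    (z : CoZ Z (ZMod p) b) : (GG n b x z).1 = crs (Nat.sub_add_cancel h) x.1 z.1 := by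
  unfold GG
  rw [dif_pos h]
  rfl

private theorem cl_GG {X Z : SSet.{0}} {n b : ℕ} (h : b ≤ n) (x : CoZ X (ZMod p) (n - b))
    (z : CoZ Z (ZMod p) b) : HR.cl n (GG n b x z) =
      HR.pull (pr1 X Z) (HR.cl (n - b) x) * HR.pull (pr2 X Z) (HR.cl b z) := by
  unfold GG
  rw [dif_pos h]
  exact cl_crs _ x z

private theorem dS_coz {Z : SSet.{0}} {b : ℕ} (z : CoZ Z (ZMod p) b) :
    dS (ZMod p) (toSS Z) b z.1 = 0 := by
  have h1 := dS_eq (k := ZMod p) (Z := Z) z.1
  rw [h1]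
  exact funext z.2.2

private theorem kb_span (b : ℕ) (f : (BV p Unit).obj (op ⦋b⦌) → ZMod p)
    (hf : dS (ZMod p) (toSS (BV p Unit)) b f = 0) :
    ∃ c : Unit → ZMod p, BdS (k := ZMod p) (toSS (BV p Unit)) b
      (f - ∑ i, c i • (psi p () b).1) := by
  have h1 : ∀ σ, cobd (rfl : b + 1 = b + 1) f σ = 0 := fun σ => by
    have h2 := dS_eq (k := ZMod p) (Z := BV p Unit) f
    have h3 := congrFun (h2.symm.trans hf) σ
    exact h3
  obtain ⟨c', hc'⟩ := exists_norm f h1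
  obtain ⟨c, hc⟩ := psi_span b c'
  refine ⟨fun _ => c, ?_⟩
  refine bdS_iff.2 ?_
  have h3 : UB (f - c'.1) := by
    rcases hc' with h4 | ⟨m, h, e, h4⟩
    · rw [h4, sub_self]
      exact Or.inl rfl
    · refine Or.inr ⟨m, h, e, ?_⟩
      rw [h4, add_sub_cancel_left]
  have h5 := h3.add (UB.of hc)
  rw [sub_add_sub_cancel] at h5
  have h6 : ∑ _i : Unit, c • (psi p () b).1 = c • (psi p () b).1 := by simp
  rw [h6]
  exact h5

private theorem kb_indep (b : ℕ) (c : Unit → ZMod p)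
    (hc : BdS (k := ZMod p) (toSS (BV p Unit)) b
      (∑ i, c i • (psi p () b).1 : (BV p Unit).obj (op ⦋b⦌) → ZMod p)) : c = 0 := by
  have h1 : UB (∑ i, c i • (psi p () b).1) := bdS_iff.1 hc
  have h6 : ∑ i : Unit, c i • (psi p () b).1 = c () • (psi p () b).1 := by simp
  rw [h6] at h1
  funext u
  by_contra h2
  have h3 : c () ≠ 0 := h2
  have h4 := h1.smul (c ())⁻¹
  rw [smul_smul, inv_mul_cancel₀ h3, one_smul] at h4
  exact psi_ne b (h4.isBd (psi p () b).2.1)

private theorem kb_psi : KB (k := ZMod p) (toSS (BV p Unit)) (I := fun _ => Unit)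
    (fun b (_ : Unit) => (psi p () b).1) where
  coc := fun b _ => dS_coz (psi p () b)
  span := fun b f hf => kb_span b f hf
  indep := fun b c hc => kb_indep b c hc

theorem KSurj {X : SSet.{0}} (n : ℕ) (θ : CoZ (prodS X (BV p Unit)) (ZMod p) n) :
    ∃ φ : ∀ b : ℕ, CoZ X (ZMod p) (n - b), HR.cl n θ = ∑ b ∈ Finset.range (n + 1),
      HR.pull (pr1 X (BV p Unit)) (HR.cl (n - b) (φ b)) *
        HR.pull (pr2 X (BV p Unit)) (HR.cl b (psi p () b)) := by
  obtain ⟨Θ, hΘ⟩ : ∃ Θ : CC (toSV (ZMod p) X) (toSS (BV p Unit)) n, uC Θ = θ.1 :=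
    ⟨TP θ.1, uC_TP θ.1⟩
  have hd : dC (toSV (ZMod p) X) (toSS (BV p Unit)) n Θ = 0 := by
    refine uC_inj ?_
    rw [uC_dC, hΘ, map_zero]
    exact funext θ.2.2
  obtain ⟨φ, hφ, hB⟩ := kun_surj kb_psi n (toSV (ZMod p) X) Θ hd
  have hc : ∀ b : ℕ, ∀ σ, cobd (rfl : n - b + 1 = n - b + 1) (uV (φ (n - b) b ())) σ = 0 :=
    fun b σ => by
      rw [← uV_dV, hφ]
      rfl
  choose f hf using fun b => exists_norm (uV (φ (n - b) b ())) (hc b)
  refine ⟨f, ?_⟩
  have h1 : HR.cl n θ = HR.cl n (∑ b ∈ Finset.range (n + 1), GG n b (f b) (psi p () b)) := by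
    rw [HR.cl_eq]
    refine UB.isBd ?_ (θ - ∑ b ∈ Finset.range (n + 1), GG n b (f b) (psi p () b)).2.1
    have h2 : UB (uC (Θ - KSum (toSV (ZMod p) X) (toSS (BV p Unit))
        (fun b (_ : Unit) => (psi p () b).1) n φ)) := bdC_iff.1 hB
    rw [ksum_range, map_sub, map_sum, hΘ] at h2
    have h3 : UB (∑ b ∈ Finset.range (n + 1), (uC (∑ i : Unit, crv (toSV (ZMod p) X)
        (toSS (BV p Unit)) n (n - b) b (φ (n - b) b i) (psi p () b).1) -
          (GG n b (f b) (psi p () b)).1)) := by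
      refine UB.sum fun b hb => ?_
      have hbn : b ≤ n := Nat.lt_succ_iff.1 (Finset.mem_range.1 hb)
      have e1 : ∑ i : Unit, crv (toSV (ZMod p) X) (toSS (BV p Unit)) n (n - b) b
          (φ (n - b) b i) (psi p () b).1 = crv (toSV (ZMod p) X) (toSS (BV p Unit)) n (n - b) b
          (φ (n - b) b ()) (psi p () b).1 := by simp
      rw [e1, GG_pos hbn]
      rcases hf b with h4 | ⟨m, h, e, h4⟩
      · rw [uC_crv (Nat.sub_add_cancel hbn), h4, sub_self]
        exact Or.inl rfl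
      · have e2 : φ (n - b) b () = TR (f b).1 + TR (cobd h e) := by
          refine uV_inj ?_
          rw [h4]
          have e3 : uV (TR (X := X) (k := ZMod p) (f b).1 + TR (cobd h e)) =
            uV (TR (f b).1) + uV (TR (cobd h e)) := rfl
          rw [e3, uV_TR, uV_TR]
        rw [e2, crv_add, map_add, uC_crv (Nat.sub_add_cancel hbn) (TR (f b).1), uV_TR,
          add_sub_cancel_left]
        obtain ⟨n', hn'⟩ : ∃ n', n' + 1 = n := ⟨n - 1, by omega⟩
        have e4 : crv (toSV (ZMod p) X) (toSS (BV p Unit)) n (n - b) b (TR (cobd h e))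
            (psi p () b).1 = crv (toSV (ZMod p) X) (toSS (BV p Unit)) n (n - b) b
              (TR (cobd h e)) (psi p () b).1 := rfl
        rw [uC_crv (Nat.sub_add_cancel hbn), uV_TR]
        subst hn'
        have e5 := dC_crv_coc (toSV (ZMod p) X) (toSS (BV p Unit)) (n := n') (a := m) (b := b)
          (by omega) (TR e) (psi p () b).1 (dS_coz (psi p () b))
        have e6 := congrArg uC e5
        rw [uC_dC, uC_crv (show m + 1 + b = n' + 1 by omega), uV_dV, uV_TR] at e6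
        refine Or.inr ⟨n', rfl,
          uC (crv (toSV (ZMod p) X) (toSS (BV p Unit)) n' m b (TR e) (psi p () b).1), ?_⟩
        · rw [e6]
          have key : ∀ (q : ℕ) (hq : m + 1 = q) (hq' : q + b = n' + 1),
              crs hq' (cobd hq e) (psi p () b).1 =
                crs (show m + 1 + b = n' + 1 by omega) (cobd (rfl : m + 1 = m + 1) e)
                  (psi p () b).1 := by
            intro q hq hq'
            subst hq
            rfl
          exact key _ h _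
    have h5 := h2.add h3
    rw [Finset.sum_sub_distrib, sub_add_sub_cancel] at h5
    have e7 : (θ.1 - (∑ b ∈ Finset.range (n + 1), GG n b (f b) (psi p () b)).1) =
        θ.1 - ∑ b ∈ Finset.range (n + 1), (GG n b (f b) (psi p () b)).1 := by
      rw [AddSubgroup.val_finsetSum]
    rw [e7]
    exact h5
  rw [h1, map_sum]
  refine Finset.sum_congr rfl fun b hb => ?_
  exact cl_GG (Nat.lt_succ_iff.1 (Finset.mem_range.1 hb)) _ _

theorem KInj {X Z : SSet.{0}} (hZ : ∀ n, Finite (Z.obj (op ⦋n⦌))) {n t : ℕ} (ht : t ≤ n)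
    (ψ : ∀ b, CoZ Z (ZMod p) b) (hψ : ∀ b, b ≤ t → ¬ IsBd (ψ b).1)
    (φ : ∀ b : ℕ, CoZ X (ZMod p) (n - b))
    (h : ∑ b ∈ Finset.range (t + 1), HR.pull (pr1 X Z) (HR.cl (n - b) (φ b)) *
        HR.pull (pr2 X Z) (HR.cl b (ψ b)) = 0) :
    ∀ b, b ≤ t → HR.cl (n - b) (φ b) = 0 := by
  classical
  have h1 : HR.cl n (∑ b ∈ Finset.range (t + 1), GG n b (φ b) (ψ b)) = 0 := by
    rw [map_sum, ← h]
    refine Finset.sum_congr rfl fun b hb => ?_
    have := Finset.mem_range.1 hb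
    exact cl_GG (by omega) _ _
  rw [HR.cl_eq_zero] at h1
  obtain ⟨I, hI, Ψ, hK, hi⟩ := exists_KB (k := ZMod p) (toSS Z) hZ t (fun b => (ψ b).1)
    (fun b => dS_coz (ψ b)) (fun b hb h2 => hψ b hb ((bdS_iff.1 h2).isBd (ψ b).2.1))
  choose j hj using hi
  obtain ⟨Φ, hΦ⟩ : ∃ Φ : ∀ a b : ℕ, I b → Dual (ZMod p) ((toSV (ZMod p) X).V a),
      Φ = fun a b i => if h2 : n - b = a ∧ ∃ hb : b ≤ t, i = j b hb then
        TR (h2.1 ▸ (φ b).1) else 0 := ⟨_, rfl⟩
  have F1 : ∀ b (hb : b ≤ t), Φ (n - b) b (j b hb) = TR (φ b).1 := fun b hb => by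
    rw [hΦ]
    exact dif_pos (c := n - b = n - b ∧ ∃ hb' : b ≤ t, j b hb = j b hb') ⟨rfl, hb, rfl⟩
  have F2 : ∀ a b i, (∀ hb : b ≤ t, i ≠ j b hb) → Φ a b i = 0 := fun a b i hi => by
    rw [hΦ]
    simp only
    rw [dif_neg]
    rintro ⟨-, hb, h2⟩
    exact hi hb h2
  have F3 : ∀ a b i, a ≠ n - b → Φ a b i = 0 := fun a b i ha => by
    rw [hΦ]
    simp only
    rw [dif_neg]
    rintro ⟨h2, -⟩
    exact ha h2.symm
  have hdV : ∀ a b i, a + b = n → dV (toSV (ZMod p) X) a (Φ a b i) = 0 := by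
    intro a b i hab
    obtain rfl : a = n - b := by omega
    by_cases hi : ∃ hb : b ≤ t, i = j b hb
    · obtain ⟨hb, rfl⟩ := hi
      rw [F1]
      refine uV_inj ?_
      rw [uV_dV, uV_TR]
      exact funext (φ b).2.2
    · rw [F2 _ _ _ fun hb h2 => hi ⟨hb, h2⟩, dV_zero]
  have hB : BdC (toSV (ZMod p) X) (toSS Z) n (KSum (toSV (ZMod p) X) (toSS Z) Ψ n Φ) := by
    refine bdC_iff.2 ?_
    have e1 : uC (KSum (toSV (ZMod p) X) (toSS Z) Ψ n Φ) =
        (∑ b ∈ Finset.range (t + 1), GG n b (φ b) (ψ b)).1 := by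
      rw [ksum_range, map_sum, AddSubgroup.val_finsetSum]
      symm
      have hsub : Finset.range (t + 1) ⊆ Finset.range (n + 1) := by
        intro x hx
        rw [Finset.mem_range] at hx ⊢
        omega
      have e2 : ∀ b ∈ Finset.range (t + 1), (GG n b (φ b) (ψ b)).1 =
          uC (∑ i : I b, crv (toSV (ZMod p) X) (toSS Z) n (n - b) b (Φ (n - b) b i) (Ψ b i)) := by
        intro b hb
        have hb' : b ≤ t := Nat.lt_succ_iff.1 (Finset.mem_range.1 hb)
        have e3 : ∑ i : I b, crv (toSV (ZMod p) X) (toSS Z) n (n - b) b (Φ (n - b) b i) (Ψ b i) =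
            crv (toSV (ZMod p) X) (toSS Z) n (n - b) b (Φ (n - b) b (j b hb')) (Ψ b (j b hb')) := by
          refine Finset.sum_eq_single _ (fun i _ hi => ?_) (fun h2 => absurd (Finset.mem_univ _) h2)
          rw [F2 _ _ _ fun _ => hi, crv_zero]
        rw [e3, F1, hj, GG_pos (by omega), uC_crv (Nat.sub_add_cancel (by omega)), uV_TR]
      rw [Finset.sum_congr rfl e2]
      refine Finset.sum_subset hsub fun b _ hb => ?_
      have hb' : ¬ b ≤ t := fun h2 => hb (Finset.mem_range.2 (Nat.lt_succ_of_le h2))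
      have e3 : ∑ i : I b, crv (toSV (ZMod p) X) (toSS Z) n (n - b) b (Φ (n - b) b i) (Ψ b i) =
          0 := by
        refine Finset.sum_eq_zero fun i _ => ?_
        rw [F2 _ _ _ fun h2 => absurd h2 hb', crv_zero]
      rw [e3, map_zero]
    rw [e1]
    exact UB.of h1
  intro b hb
  have h2 := kun_inj hK n (toSV (ZMod p) X) Φ hdV hB (n - b) b (j b hb) (by omega)
  rw [F1] at h2
  have h3 := bdV_iff.1 h2
  rw [uV_TR] at h3
  exact HR.cl_eq_zero.2 (h3.isBd (φ b).2.1)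

end BPN.E
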