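import Pool.Agent.BPN.E.Ev
import Pool.Agent.BPN.E.Kun

/-!
# Part (E), module EvB: `ev` is bijective onto the homogeneous classes for finitely many variables (helper30)

`piS r : BV (Fin (r+1)) ⟶ BV (Fin r)` (first coordinates), `laS r : BV (Fin (r+1)) ⟶ BV Unit` (last coordinate),
`roS r : prodS (BV (Fin r)) (BV Unit) ⟶ BV (Fin (r+1))` the inverse of `pairS (piS r) (laS r)`.

PROOFS.
* `tw_last`: every `u : Tw p (Fin (r+1))`, homogeneous of degree `n`, is uniquely
  `∑_{b ≤ n} map castSucc (u_b) * ps (last r) b` with `u_b` homogeneous of degree `n - b`: a monomial `mon E S` corresponds to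
  `b = 2 S(last) + [last ∈ E]` (`t_last` is the largest odd generator, `v_last` is central).
* `ev_surj_fin`, `ev_inj_fin` by induction on `r`.
  `r = 0`: `BV p (Fin 0)` has one simplex in every dimension; normalised cochains of positive degree vanish, degree
  `0`: constants.  `Tw p (Fin 0)` is `ZMod p` (only `mon ∅ 0`); injective because `1 ≠ 0` in degree `0`
  (`HR.cl_eq_zero`, `IsBd` in degree `0` means `= 0`).
  `r + 1`, surjectivity: let `c` be a cocycle of degree `n`; `KSurj` for the pullback of `c` along `roS`: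
  `pull roS (cl c) = ∑_b pull pr1 (cl φ_b) * pull pr2 (cl (psi b))`; apply `pull (pairS piS laS)`
  (`pairS piS laS ≫ roS = 𝟙`): `cl c = ∑_b pull piS (cl φ_b) * pull laS (cl (psi b))`, `cl φ_b = ev u_b` by induction,
  `pull piS (ev u_b) = ev (map castSucc u_b)` (`ev_map`), `pull laS (cl (psi () b)) = cl (psi last b) = ev (ps last b)`
  (`pb_psi`, `ev_ps`).
  Injectivity: `ev u = 0` implies `ev (cmp n u) = 0` for all `n` (components of the total class: `ev (cmp n u)` is
  `cl n c_n`, `HR.sum_cl`, `HR.tot_eq_zero`); write `cmp n u = ∑_b map castSucc (u_b) * ps last b`, `ev u_b = cl (n-b) φ_b`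
  (`ev_hg`), apply `pull roS` (`roS ≫ piS = pr1`, `roS ≫ laS = pr2`) and `KInj` for `Z = BV p Unit`, `t = n`, `ψ = psi`
  (`psi_ne`; `BV p Unit` is finite in every dimension): `ev u_b = 0`, so `u_b = 0`.
* `ev_inj_nat`: `u ∈ Tw p ℕ` involves only variables `≤ r`; with `κ : Fin (r+1) → ℕ` the inclusion and
  `κ' : ℕ → Fin (r+1)`, `κ' i = min i r`: `u = map κ (map κ' u)` (`map κ ∘ map κ'` is the identity on the subring generated by
  variables `≤ r`), `ev (map κ' u) = pull (BVm (Lk κ')) (ev u) = 0`, so `map κ' u = 0`.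
-/

namespace BPN.E

open Tw CategoryTheory SSet Simplicial Opposite

variable {p : ℕ} [Fact p.Prime]

/-- First coordinates. -/
noncomputable def piS (p r : ℕ) : BV p (Fin (r + 1)) ⟶ BV p (Fin r) := BVm (Lk p Fin.castSucc)

/-- Last coordinate. -/
noncomputable def laS (p r : ℕ) : BV p (Fin (r + 1)) ⟶ BV p Unit := BVm (Lk p fun _ => Fin.last r)

private def snA (p r : ℕ) : (Fin r → ZMod p) × (Unit → ZMod p) →+ (Fin (r + 1) → ZMod p) where
  toFun := fun z => Fin.snoc (α := fun _ => ZMod p) z.1 (z.2 ())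
  map_zero' := by
    funext j
    refine Fin.lastCases ?_ (fun j => ?_) j
    · simp
    · simp
  map_add' := by
    intro z z'
    funext j
    refine Fin.lastCases ?_ (fun j => ?_) j
    · simp
    · simp

private theorem snA_last (p r : ℕ) (a : Fin r → ZMod p) (b : Unit → ZMod p) :
    snA p r (a, b) (Fin.last r) = b () := by
  show Fin.snoc (α := fun _ => ZMod p) a (b ()) (Fin.last r) = _
  simp

private theorem snA_cast (p r : ℕ) (a : Fin r → ZMod p) (b : Unit → ZMod p) (j : Fin r) :
    snA p r (a, b) j.castSucc = a j := by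
  show Fin.snoc (α := fun _ => ZMod p) a (b ()) j.castSucc = _
  simp

private def roS (p r : ℕ) : prodS (BV p (Fin r)) (BV p Unit) ⟶ BV p (Fin (r + 1)) where
  app := fun _ => TypeCat.ofHom fun x => ⟨fun i => snA p r (x.1.1 i, x.2.1 i),
    (congrArg (snA p r) (Prod.ext x.1.2 x.2.2)).trans (map_zero (snA p r))⟩
  naturality := by
    intro a b f
    refine ConcreteCategory.hom_ext _ _ fun x => ?_
    refine Subtype.ext (funext fun i => ?_)
    exact (map_sub (snA p r) (_, _) (_, _))

theorem exists_roS (p r : ℕ) : ∃ ρ : prodS (BV p (Fin r)) (BV p Unit) ⟶ BV p (Fin (r + 1)),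
    ρ ≫ piS p r = pr1 _ _ ∧ ρ ≫ laS p r = pr2 _ _ ∧ pairS (piS p r) (laS p r) ≫ ρ = 𝟙 _ := by
  refine ⟨roS p r, ?_, ?_, ?_⟩
  · refine NatTrans.ext (funext fun n => ConcreteCategory.hom_ext _ _ fun x => ?_)
    refine Subtype.ext (funext fun i => funext fun j => ?_)
    exact snA_cast p r _ _ j
  · refine NatTrans.ext (funext fun n => ConcreteCategory.hom_ext _ _ fun x => ?_)
    refine Subtype.ext (funext fun i => funext fun j => ?_)
    exact snA_last p r _ _
  · refine NatTrans.ext (funext fun n => ConcreteCategory.hom_ext _ _ fun x => ?_)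
    refine Subtype.ext (funext fun i => funext fun j => ?_)
    refine Fin.lastCases ?_ (fun j => ?_) j
    · exact snA_last p r _ _
    · exact snA_cast p r _ _ j

/-! ### homogeneous elements -/

section hg

variable {I : Type} [LinearOrder I]

private theorem hg_zero (n : ℕ) : HgE n (0 : Tw p I) := fun E S h => absurd (co_zero E S) h

private theorem hg_add {n : ℕ} {x y : Tw p I} (hx : HgE n x) (hy : HgE n y) :
    HgE n (x + y) := by
  intro E S h
  by_cases h1 : co x E S = 0
  · refine hy E S fun h2 => h ?_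
    rw [co_add, h1, h2, add_zero]
  · exact hx E S h1

private theorem hg_smul {n : ℕ} (c : ZMod p) {x : Tw p I} (hx : HgE n x) : HgE n (c • x) :=
  fun E S h => hx E S fun h1 => h (by rw [co_smul, h1, mul_zero])

private theorem hg_mon (E : Finset I) (S : I →₀ ℕ) : HgE (hdI E S) (mon p E S) := by
  classical
  intro F T h
  rw [co_mon] at h
  split_ifs at h with h1
  · rw [h1.1, h1.2]
  · exact absurd rfl h

private theorem rep (x : Tw p I) :
    x = ∑ z ∈ (co_finite x).toFinset, co x z.1 z.2 • mon p z.1 z.2 := by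
  refine ext_co fun E S => ?_
  rw [co_sum, Finset.sum_eq_single (E, S)]
  · rw [co_smul, co_mon, if_pos ⟨rfl, rfl⟩, mul_one]
  · intro z _ hz
    rw [co_smul, co_mon, if_neg, mul_zero]
    rintro ⟨h1, h2⟩
    exact hz (Prod.ext h1 h2)
  · intro hz
    have h1 : co x E S = 0 := by
      by_contra hne
      exact hz ((co_finite x).mem_toFinset.2 hne)
    rw [co_smul, h1, zero_mul]

/-- induction for homogeneous elements -/
private theorem hg_ind {n : ℕ} {P : Tw p I → Prop} (h0 : P 0)
    (ha : ∀ x y, P x → P y → P (x + y))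
    (hm : ∀ (c : ZMod p) E S, hdI E S = n → P (c • mon p E S)) (x : Tw p I) (hx : HgE n x) :
    P x := by
  classical
  rw [rep x]
  have key : ∀ s : Finset (Finset I × (I →₀ ℕ)), s ⊆ (co_finite x).toFinset →
      P (∑ z ∈ s, co x z.1 z.2 • mon p z.1 z.2) := by
    intro s
    induction s using Finset.induction_on with
    | empty => intro _; rw [Finset.sum_empty]; exact h0
    | insert z s hz ih =>
      intro hs
      rw [Finset.sum_insert hz]
      refine ha _ _ (hm _ _ _ (hx _ _ ?_)) (ih fun w hw => hs (Finset.mem_insert_of_mem hw))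
      exact (co_finite x).mem_toFinset.1 (hs (Finset.mem_insert_self _ _))
  exact key _ Finset.Subset.rfl

end hg

/-! ### the last variable -/

omit [Fact p.Prime] in
private theorem t_mul_ps (r b : ℕ) (E : Finset (Fin r)) (S : Fin r →₀ ℕ) :
    map p Fin.castSucc (mon p E S) * ps p (Fin.last r) b =
      mon p (if b % 2 = 1 then insert (Fin.last r) (E.image Fin.castSucc) else
        E.image Fin.castSucc) (S.mapDomain Fin.castSucc + Finsupp.single (Fin.last r) (b / 2)) := by
  rw [map_mon_mono _ Fin.strictMono_castSucc]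
  unfold ps
  rw [v_pow, ← mul_assoc, mon_mul_mon_empty]
  rcases Nat.mod_two_eq_zero_or_one b with h | h
  · rw [h, pow_zero, mul_one, if_neg (by norm_num)]
  · rw [h, pow_one, if_pos rfl, mon_mul_t]
    intro e he
    obtain ⟨i, -, rfl⟩ := Finset.mem_image.1 he
    exact Fin.castSucc_lt_last i

private theorem hdI_last (r b : ℕ) (E : Finset (Fin r)) (S : Fin r →₀ ℕ) :
    hdI (if b % 2 = 1 then insert (Fin.last r) (E.image Fin.castSucc) else
        E.image Fin.castSucc) (S.mapDomain Fin.castSucc + Finsupp.single (Fin.last r) (b / 2)) =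
      hdI E S + b := by
  unfold hdI
  have h1 : (S.mapDomain Fin.castSucc + Finsupp.single (Fin.last r) (b / 2)).sum (fun _ n => n) =
      S.sum (fun _ n => n) + b / 2 := by
    rw [Finsupp.sum_add_index' (fun _ => rfl) (fun _ _ _ => rfl), Finsupp.sum_mapDomain_index
      (fun _ => rfl) (fun _ _ _ => rfl), Finsupp.sum_single_index rfl]
  have h2 : (E.image Fin.castSucc).card = E.card :=
    Finset.card_image_of_injective _ (Fin.castSucc_injective r)
  have h3 : Fin.last r ∉ E.image Fin.castSucc := by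
    intro h
    obtain ⟨i, -, hi⟩ := Finset.mem_image.1 h
    exact absurd hi (Fin.castSucc_lt_last i).ne
  rw [h1]
  rcases Nat.mod_two_eq_zero_or_one b with h | h
  · rw [if_neg (by omega), h2]
    omega
  · rw [if_pos h, Finset.card_insert_of_notMem h3, h2]
    omega

/-- every monomial is of the form of the previous lemma -/
private theorem exists_last (r : ℕ) (E : Finset (Fin (r + 1))) (S : Fin (r + 1) →₀ ℕ) :
    ∃ (b : ℕ) (E' : Finset (Fin r)) (S' : Fin r →₀ ℕ),
      E = (if b % 2 = 1 then insert (Fin.last r) (E'.image Fin.castSucc) else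
        E'.image Fin.castSucc) ∧
      S = S'.mapDomain Fin.castSucc + Finsupp.single (Fin.last r) (b / 2) := by
  classical
  refine ⟨2 * S (Fin.last r) + (if Fin.last r ∈ E then 1 else 0),
    Finset.univ.filter fun i => i.castSucc ∈ E,
    Finsupp.equivFunOnFinite.symm fun i => S i.castSucc, ?_, ?_⟩
  · by_cases h : Fin.last r ∈ E
    · rw [if_pos h, if_pos (by omega)]
      ext j
      refine Fin.lastCases ?_ (fun j => ?_) j
      · simp [h]
      · simp only [Finset.mem_insert, Finset.mem_image, Finset.mem_filter, Finset.mem_univ,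
          true_and]
        constructor
        · intro hj
          exact Or.inr ⟨j, hj, rfl⟩
        · rintro (h1 | ⟨i, hi, h1⟩)
          · exact absurd h1 (Fin.castSucc_lt_last j).ne
          · rwa [Fin.castSucc_injective r h1] at hi
    · rw [if_neg h, if_neg (by omega)]
      ext j
      refine Fin.lastCases ?_ (fun j => ?_) j
      · simp only [Finset.mem_image, Finset.mem_filter, Finset.mem_univ, true_and]
        constructor
        · intro h1
          exact absurd h1 h
        · rintro ⟨i, hi, h1⟩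
          exact absurd h1 (Fin.castSucc_lt_last i).ne
      · simp only [Finset.mem_image, Finset.mem_filter, Finset.mem_univ, true_and]
        constructor
        · intro hj
          exact ⟨j, hj, rfl⟩
        · rintro ⟨i, hi, h1⟩
          rwa [Fin.castSucc_injective r h1] at hi
  · ext j
    rw [Finsupp.add_apply]
    refine Fin.lastCases ?_ (fun j => ?_) j
    · rw [Finsupp.mapDomain_of_notMem_range, Finsupp.single_eq_same, zero_add]
      · split_ifs <;> omega
      · rintro ⟨i, hi⟩
        exact absurd hi (Fin.castSucc_lt_last i).ne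
    · rw [Finsupp.mapDomain_apply (Fin.castSucc_injective r), Finsupp.single_eq_of_ne
        (Fin.castSucc_lt_last j).ne, add_zero]
      rfl

theorem tw_last_exists (r n : ℕ) (u : Tw p (Fin (r + 1))) (hu : HgE n u) :
    ∃ w : ℕ → Tw p (Fin r), (∀ b, b ≤ n → HgE (n - b) (w b)) ∧
      u = ∑ b ∈ Finset.range (n + 1), map p Fin.castSucc (w b) * ps p (Fin.last r) b := by
  classical
  refine hg_ind (n := n) (P := fun u => ∃ w : ℕ → Tw p (Fin r), (∀ b, b ≤ n → HgE (n - b) (w b)) ∧
      u = ∑ b ∈ Finset.range (n + 1), map p Fin.castSucc (w b) * ps p (Fin.last r) b)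
    ?_ ?_ ?_ u hu
  · refine ⟨fun _ => 0, fun b _ => hg_zero _, ?_⟩
    symm
    refine Finset.sum_eq_zero fun b _ => ?_
    rw [map_zero, zero_mul]
  · rintro x y ⟨w, hw, rfl⟩ ⟨w', hw', rfl⟩
    refine ⟨fun b => w b + w' b, fun b hb => hg_add (hw b hb) (hw' b hb), ?_⟩
    rw [← Finset.sum_add_distrib]
    refine Finset.sum_congr rfl fun b _ => ?_
    rw [map_add, add_mul]
  · intro c E S hn
    obtain ⟨b, E', S', hE, hS⟩ := exists_last r E S
    have h1 : hdI E' S' + b = n := by
      rw [← hn, hE, hS, hdI_last]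
    refine ⟨fun b' => if b' = b then c • mon p E' S' else 0, fun b' _ => ?_, ?_⟩
    · show HgE (n - b') (if b' = b then c • mon p E' S' else 0)
      by_cases h : b' = b
      · rw [if_pos h]
        have h2 : n - b' = hdI E' S' := by omega
        rw [h2]
        exact hg_smul c (hg_mon _ _)
      · rw [if_neg h]
        exact hg_zero _
    · rw [Finset.sum_eq_single b]
      · beta_reduce
        rw [if_pos rfl, hom_smul, smul_mul, t_mul_ps, ← hE, ← hS]
      · intro b' _ h
        beta_reduce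
        rw [if_neg h, map_zero, zero_mul]
      · intro h
        exact absurd (Finset.mem_range.2 (by omega)) h

theorem tw_last_hg (r n : ℕ) (w : ℕ → Tw p (Fin r)) (hw : ∀ b, b ≤ n → HgE (n - b) (w b)) :
    HgE n (∑ b ∈ Finset.range (n + 1), map p Fin.castSucc (w b) * ps p (Fin.last r) b) := by
  classical
  refine Finset.sum_induction _ (HgE n) (fun _ _ => hg_add) (hg_zero n) fun b hb => ?_
  have hbn : b ≤ n := Nat.lt_succ_iff.1 (Finset.mem_range.1 hb)
  refine hg_ind (n := n - b) (P := fun x => HgE n (map p Fin.castSucc x * ps p (Fin.last r) b))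
    ?_ ?_ ?_ _ (hw b hbn)
  · rw [map_zero, zero_mul]
    exact hg_zero n
  · intro x y hx hy
    rw [map_add, add_mul]
    exact hg_add hx hy
  · intro c E S h
    rw [hom_smul, smul_mul, t_mul_ps]
    refine hg_smul c ?_
    have h1 : n = hdI E S + b := by omega
    rw [h1, ← hdI_last]
    exact hg_mon _ _

/-! ### no variables -/

private instance sub0 (n : ℕ) : Subsingleton ((BV p (Fin 0)).obj (op ⦋n⦌)) :=
  ⟨fun _ _ => Subtype.ext (funext fun _ => funext fun j => j.elim0)⟩

private theorem surj0 (n : ℕ) (c : CoZ (BV p (Fin 0)) (ZMod p) n) :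
    ∃ u : Tw p (Fin 0), HgE n u ∧ ev p (Fin 0) u = HR.cl n c := by
  cases n with
  | zero =>
    have e0 : (BV p (Fin 0)).obj (op ⦋0⦌) := ⟨fun _ _ => 0, rfl⟩
    have hv : c = (c.1 e0).val • oneZ p (BV p (Fin 0)) := by
      refine Subtype.ext (funext fun σ => ?_)
      rw [Subsingleton.elim σ e0]
      show c.1 e0 = ((c.1 e0).val • oneZ p (BV p (Fin 0))).1 e0
      rw [AddSubgroup.coe_nsmul]
      show c.1 e0 = (c.1 e0).val • (1 : ZMod p)
      rw [nsmul_one, ZMod.natCast_val, ZMod.cast_id]
    refine ⟨(c.1 e0).val • 1, ?_, ?_⟩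
    · intro E S _
      have h1 : E = ∅ := Finset.eq_empty_of_isEmpty E
      have h2 : S = 0 := Finsupp.ext fun i => i.elim0
      rw [h1, h2]
      rfl
    · rw [map_nsmul, map_one, ← cl_one, ← map_nsmul, ← hv]
  | succ n =>
    have h1 : c = 0 := by
      refine Subtype.ext (funext fun σ => ?_)
      have h2 := c.2.1 0 n rfl (Nat.zero_le n) (⟨fun _ _ => 0, rfl⟩ : (BV p (Fin 0)).obj (op ⦋n⦌))
      rw [Subsingleton.elim σ (dg (BV p (Fin 0)) 0 rfl (Nat.zero_le n) ⟨fun _ _ => 0, rfl⟩)]
      exact h2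
    refine ⟨0, hg_zero _, ?_⟩
    rw [h1, map_zero, map_zero]

private theorem inj0 (u : Tw p (Fin 0)) (h : ev p (Fin 0) u = 0) : u = 0 := by
  have h1 : u = co u ∅ 0 • 1 := by
    refine ext_co fun E S => ?_
    have h1 : E = ∅ := Finset.eq_empty_of_isEmpty E
    have h2 : S = 0 := Finsupp.ext fun i => i.elim0
    rw [h1, h2, co_smul, ← mon_zero, co_mon, if_pos ⟨rfl, rfl⟩, mul_one]
  obtain ⟨a, ha⟩ : ∃ a, a = co u ∅ 0 := ⟨_, rfl⟩
  rw [← ha] at h1
  by_contra hu
  have h2 : a ≠ 0 := fun h2 => hu (by rw [h1, h2, zero_smul])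
  have h3 : (1 : Tw p (Fin 0)) = (a⁻¹).val • u := by
    have h4 : (a⁻¹).val • u = ((a⁻¹).val : ZMod p) • u :=
      (Nat.cast_smul_eq_nsmul (ZMod p) _ _).symm
    rw [h4, ZMod.natCast_val, ZMod.cast_id]
    conv_rhs => rw [h1]
    rw [smul_smul, inv_mul_cancel₀ h2, one_smul]
  have h4 : (1 : HR p (BV p (Fin 0))) = 0 := by
    have h5 := congrArg (ev p (Fin 0)) h3
    rwa [map_one, map_nsmul, h, smul_zero] at h5
  rw [← cl_one, HR.cl_eq_zero] at h4
  rcases h4 with h5 | ⟨m, hm, -⟩
  · have h6 := congrFun h5 (⟨fun _ _ => 0, rfl⟩ : (BV p (Fin 0)).obj (op ⦋0⦌))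
    exact one_ne_zero (α := ZMod p) h6
  · omega

/-! ### pullbacks -/

private theorem pull_pi (r : ℕ) (u : Tw p (Fin r)) :
    HR.pull (piS p r) (ev p (Fin r) u) = ev p (Fin (r + 1)) (map p Fin.castSucc u) :=
  ev_map Fin.castSucc u

private theorem pull_la (r b : ℕ) : HR.pull (laS p r) (HR.cl b (psi p () b)) =
    ev p (Fin (r + 1)) (ps p (Fin.last r) b) := by
  rw [ev_ps, HR.pull_cl]
  congr 1
  exact pb_psi (fun _ : Unit => Fin.last r) () b

theorem ev_surj_fin (r n : ℕ) (c : CoZ (BV p (Fin r)) (ZMod p) n) :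
    ∃ u : Tw p (Fin r), HgE n u ∧ ev p (Fin r) u = HR.cl n c := by
  induction r generalizing n with
  | zero => exact surj0 n c
  | succ r ih =>
    obtain ⟨ρ, h1, h2, h3⟩ := exists_roS p r
    obtain ⟨φ, hφ⟩ := KSurj n (pbZ ρ n c)
    choose u hu hu' using fun b => ih (n - b) (φ b)
    refine ⟨∑ b ∈ Finset.range (n + 1), map p Fin.castSucc (u b) * ps p (Fin.last r) b,
      tw_last_hg r n u fun b _ => hu b, ?_⟩
    have h4 : HR.cl n c = HR.pull (pairS (piS p r) (laS p r)) (HR.cl n (pbZ ρ n c)) := by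
      rw [← HR.pull_cl, ← HR.pull_comp, h3, HR.pull_id]
    rw [h4, hφ, map_sum, map_sum]
    refine Finset.sum_congr rfl fun b _ => ?_
    rw [map_mul, map_mul, ← HR.pull_comp, ← HR.pull_comp, pairS_pr1, pairS_pr2, ← hu', pull_pi,
      pull_la]

/-- the homogeneous components of a class which vanishes -/
private theorem ev_cmp {r : ℕ} (u : Tw p (Fin r)) (h : ev p (Fin r) u = 0) (n : ℕ) :
    ev p (Fin r) (cmp n u) = 0 := by
  classical
  obtain ⟨N, hN, hs⟩ := cmp_sum u
  by_cases hn : n < N
  · choose c hc using fun m => ev_hg (cmp_hg m u)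
    have h1 : ∑ m ∈ Finset.range N, HR.cl m (c m) = 0 := by
      rw [← h]
      conv_rhs => rw [hs]
      rw [map_sum]
      exact Finset.sum_congr rfl fun m _ => (hc m).symm
    rw [HR.sum_cl, HR.tot_eq_zero] at h1
    have h2 := h1 n
    rw [if_pos (Finset.mem_range.2 hn)] at h2
    rw [hc n, HR.cl_eq_zero]
    exact h2
  · rw [hN n (not_lt.1 hn), map_zero]

private instance finU (n : ℕ) : Finite ((BV p Unit).obj (op ⦋n⦌)) := by
  have : Finite (Fin (n + 1) → Unit → ZMod p) := inferInstance
  exact Subtype.finite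

theorem ev_inj_fin (r : ℕ) (u : Tw p (Fin r)) (h : ev p (Fin r) u = 0) : u = 0 := by
  induction r with
  | zero => exact inj0 u h
  | succ r ih =>
    obtain ⟨ρ, h1, h2, h3⟩ := exists_roS p r
    have key : ∀ n, cmp n u = 0 := by
      intro n
      have h4 := ev_cmp u h n
      obtain ⟨w, hw, hs⟩ := tw_last_exists r n (cmp n u) (cmp_hg n u)
      have hc : ∀ b, ∃ φ : CoZ (BV p (Fin r)) (ZMod p) (n - b),
          b ≤ n → ev p (Fin r) (w b) = HR.cl (n - b) φ := by
        intro b
        by_cases hb : b ≤ n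
        · obtain ⟨φ, hφ⟩ := ev_hg (hw b hb)
          exact ⟨φ, fun _ => hφ⟩
        · exact ⟨0, fun h => absurd h hb⟩
      choose φ hφ using hc
      have h5 : ∑ b ∈ Finset.range (n + 1), HR.pull (pr1 (BV p (Fin r)) (BV p Unit))
          (HR.cl (n - b) (φ b)) * HR.pull (pr2 (BV p (Fin r)) (BV p Unit))
          (HR.cl b (psi p () b)) = 0 := by
        have h6 := congrArg (HR.pull ρ) h4
        rw [hs, map_zero, map_sum, map_sum] at h6
        rw [← h6]
        refine Finset.sum_congr rfl fun b hb => ?_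
        have hbn : b ≤ n := Nat.lt_succ_iff.1 (Finset.mem_range.1 hb)
        rw [map_mul, map_mul, ← pull_pi, ← pull_la, ← HR.pull_comp, ← HR.pull_comp, h1, h2,
          hφ b hbn]
      have h6 := KInj (fun n => finU n) le_rfl (fun b => psi p () b) (fun b _ => psi_ne b) φ h5
      rw [hs]
      refine Finset.sum_eq_zero fun b hb => ?_
      have hbn : b ≤ n := Nat.lt_succ_iff.1 (Finset.mem_range.1 hb)
      rw [ih (w b) ((hφ b hbn).trans (h6 b hbn)), map_zero, zero_mul]
    obtain ⟨N, -, hs⟩ := cmp_sum u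
    rw [hs]
    exact Finset.sum_eq_zero fun n _ => key n

/-- Every element of `Tw p ℕ` comes from finitely many variables. -/
theorem tw_nat_fin (u : Tw p ℕ) : ∃ r₀ : ℕ, ∀ r, r₀ ≤ r → ∃ w : Tw p (Fin r),
    u = map p (fun i : Fin r => (i : ℕ)) w := by
  classical
  refine induct (P := fun u => ∃ r₀ : ℕ, ∀ r, r₀ ≤ r → ∃ w : Tw p (Fin r),
    u = map p (fun i : Fin r => (i : ℕ)) w) ?_ ?_ ?_ u
  · exact ⟨0, fun r _ => ⟨0, (map_zero _).symm⟩⟩
  · rintro x y ⟨r1, h1⟩ ⟨r2, h2⟩
    refine ⟨max r1 r2, fun r hr => ?_⟩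
    obtain ⟨w, hw⟩ := h1 r ((le_max_left _ _).trans hr)
    obtain ⟨w', hw'⟩ := h2 r ((le_max_right _ _).trans hr)
    exact ⟨w + w', by rw [map_add, ← hw, ← hw']⟩
  · intro c E S
    obtain ⟨r₀, hr₀⟩ : ∃ r₀ : ℕ, ∀ i ∈ E ∪ S.support, i < r₀ :=
      ⟨(E ∪ S.support).sup id + 1, fun i hi => Nat.lt_succ_of_le
        (Finset.le_sup (f := id) hi)⟩
    refine ⟨r₀, fun r hr => ?_⟩
    refine ⟨c • mon p (Finset.univ.filter fun i : Fin r => (i : ℕ) ∈ E)
      (Finsupp.equivFunOnFinite.symm fun i : Fin r => S i), ?_⟩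
    rw [hom_smul, map_mon_mono _ Fin.val_strictMono]
    congr 2
    · ext i
      simp only [Finset.mem_image, Finset.mem_filter, Finset.mem_univ, true_and]
      constructor
      · intro hi
        have := hr₀ i (Finset.mem_union_left _ hi)
        exact ⟨⟨i, by omega⟩, hi, rfl⟩
      · rintro ⟨j, hj, rfl⟩
        exact hj
    · ext i
      by_cases hi : i < r
      · have h1 := Finsupp.mapDomain_apply (f := fun i : Fin r => (i : ℕ)) Fin.val_injective
          (Finsupp.equivFunOnFinite.symm fun i : Fin r => S i) ⟨i, hi⟩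
        rw [h1]
        rfl
      · rw [Finsupp.mapDomain_of_notMem_range]
        · by_contra h1
          have := hr₀ i (Finset.mem_union_right _ (Finsupp.mem_support_iff.2 h1))
          omega
        · rintro ⟨j, hj⟩
          have h2 : (j : ℕ) = i := hj
          have := j.2
          omega

theorem ev_inj_nat (u : Tw p ℕ) (h : ev p ℕ u = 0) : u = 0 := by
  obtain ⟨r₀, hr₀⟩ := tw_nat_fin u
  obtain ⟨w, hw⟩ := hr₀ (r₀ + 1) (Nat.le_succ _)
  have h1 : w = map p (fun i : ℕ => (⟨min i r₀, by omega⟩ : Fin (r₀ + 1))) u := by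
    rw [hw, map_map]
    have h2 : ((fun i : ℕ => (⟨min i r₀, by omega⟩ : Fin (r₀ + 1))) ∘
        fun i : Fin (r₀ + 1) => (i : ℕ)) = id := by
      funext i
      refine Fin.ext ?_
      show min (i : ℕ) r₀ = i
      have := i.2
      omega
    rw [h2, map_id]
  have h2 : ev p (Fin (r₀ + 1)) w = 0 := by
    rw [h1, ← ev_map, h, map_zero]
  rw [hw, ev_inj_fin _ w h2, map_zero]

end BPN.E
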