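import Pool.Agent.BPN.E.KDefs

/-!
# Part (E), module Filt: the degree filtration of the group ring (project BPN, architect helper30)

`ZV p`: nonzero finitely supported functions `v : Sj →₀ ZMod p` (nonzero simplices of the Eilenberg-MacLane
spectrum in the surjection model); faces `fV`: push forward along `fa 0 i`, undefined if the result is
`0`.  `GV e`: finitely supported functions on the `v` all of whose support points have excess `e`.

THEOREM `HB_V`: if `S_p^d` has homology of dimension at most `t d` in degree `n` and `t d = 0` for large `d`,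
with all partial sums `≤ C`, then `HB (bd fV) GV n C`.

PROOF.  `|v| = ∑_{s} (v s).val` (sum over the support).  LEMMA: `w = push (fa 0 i) v` has `|w| ≤ |v|`, and
if `|w| = |v|` then `fa 0 i s` is defined for all `s` in the support of `v` and
`mult w = (ms (fa 0 i)) (mult v)`, where `mult v` is the multiset with multiplicity `(v s).val` at `s`
(all `< p`); if `|w| < |v|` then either some `fa 0 i s` is undefined or the multiset
`ms (fa 0 i) (mult v)` has an element of multiplicity `≥ p` (`w s' = ∑_{fa 0 i s = s'} v s`, and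
`(∑ a_j).val ≤ ∑ (a_j).val` with equality iff the sum of the `val` is `< p`).
`F D e = GV e ⊓ {supported on |v| ≤ D}` are subcomplexes (`bd_bd` etc. with `P = univ`, `LFz fV`: finitely
many `s` in the support, `LFz_fa`).  The map
`g = push (fun v => if |v| = D + 1 then some (mult v) else none) : F (D+1) → Tr (ZMod p) p (D+1) ⊤` commutes
with the differentials (lemma) and is surjective with kernel `F D`
(inverse on basis elements: `X ↦ v`, `v s = (X.count s : ZMod p)`, bijection between
`{v : |v| = D+1}` and multisets of cardinality `D + 1` with all multiplicities `< p`).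
So `SES (F D) (F (D+1)) (Tr (D+1))` with `f = id`, and `HB_mid` gives by induction
`HB (F D) n (∑_{d ∈ range (D+1)} t d)` (`F 0 = ⊥`, because `|v| > 0` for `v ≠ 0`).  For a finite dimensional `W` and
`ζ : W → GV n` the image lies in `F D n` for some `D` (a basis of `W` has finitely many support points in
total), and `Bdr` for `F D` is contained in `Bdr` for `GV`.
-/

namespace BPN.E

/-- Nonzero simplices of the Eilenberg-MacLane spectrum, surjection model. -/
abbrev ZV (p : ℕ) : Type := {v : Sj →₀ ZMod p // v ≠ 0}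

open Classical in
/-- Push forward of functions with values in an arbitrary `ZMod p`-module; here `ZMod p`. -/
noncomputable def pv (p : ℕ) (g : Sj → Option Sj) (v : Sj →₀ ZMod p) : Sj →₀ ZMod p :=
  v.sum fun s c => (g s).elim 0 fun t => Finsupp.single t c

open Classical in
/-- The faces on `ZV p`. -/
noncomputable def fV (p : ℕ) (i : ℕ) (v : ZV p) : Option (ZV p) :=
  if h : pv p (fa 0 i) v.1 ≠ 0 then some ⟨pv p (fa 0 i) v.1, h⟩ else none

/-- Chains on the simplices of excess `e`. -/
noncomputable def GV (p : ℕ) [Fact p.Prime] (e : ℤ) : Submodule (ZMod p) (ZV p →₀ ZMod p) :=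
  Finsupp.supported (ZMod p) (ZMod p) {v | ∀ s ∈ v.1.support, exc s = e}

/-! ### multisets and functions -/

/-- The multiset with multiplicities `(v s).val`. -/
noncomputable def fMult (p : ℕ) (v : Sj →₀ ZMod p) : Multiset Sj :=
  Finsupp.toMultiset (v.mapRange ZMod.val ZMod.val_zero)

/-- The multiplicities modulo `p`. -/
noncomputable def fRed (p : ℕ) (X : Multiset Sj) : Sj →₀ ZMod p :=
  (X.map fun s => Finsupp.single s (1 : ZMod p)).sum

private theorem fRed_zero (p : ℕ) : fRed p 0 = 0 := by
  unfold fRed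
  simp

private theorem fRed_cons (p : ℕ) (a : Sj) (X : Multiset Sj) :
    fRed p (a ::ₘ X) = Finsupp.single a 1 + fRed p X := by
  unfold fRed
  rw [Multiset.map_cons, Multiset.sum_cons]

private theorem fRed_apply [DecidableEq Sj] (p : ℕ) (X : Multiset Sj) (s : Sj) :
    fRed p X s = (X.count s : ZMod p) := by
  induction X using Multiset.induction_on with
  | empty =>
    rw [fRed_zero]
    simp
  | cons a X ih =>
    rw [fRed_cons, Finsupp.add_apply, ih, Multiset.count_cons]
    by_cases h : s = a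
    · subst h
      rw [Finsupp.single_eq_same, if_pos rfl]
      push_cast
      ring
    · rw [Finsupp.single_eq_of_ne h, if_neg h, zero_add, add_zero]

private theorem count_fMult [DecidableEq Sj] (p : ℕ) (v : Sj →₀ ZMod p) (s : Sj) :
    (fMult p v).count s = (v s).val := by
  unfold fMult
  rw [Finsupp.count_toMultiset, Finsupp.mapRange_apply]

private theorem mem_fMult {p : ℕ} [Fact p.Prime] {v : Sj →₀ ZMod p} {s : Sj} :
    s ∈ fMult p v ↔ s ∈ v.support := by
  classical
  rw [← Multiset.count_pos, count_fMult, Finsupp.mem_support_iff, Nat.pos_iff_ne_zero, Ne,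
    ZMod.val_eq_zero]

private theorem fRed_fMult (p : ℕ) [Fact p.Prime] (v : Sj →₀ ZMod p) : fRed p (fMult p v) = v := by
  classical
  have : NeZero p := ⟨(Fact.out : p.Prime).ne_zero⟩
  ext s
  rw [fRed_apply, count_fMult, ZMod.natCast_val, ZMod.cast_id', id]

private theorem fMult_fRed_le (p : ℕ) [Fact p.Prime] (X : Multiset Sj) :
    fMult p (fRed p X) ≤ X := by
  classical
  rw [Multiset.le_iff_count]
  intro s
  rw [count_fMult, fRed_apply, ZMod.val_natCast]
  exact Nat.mod_le _ _

private theorem fMult_fRed (p : ℕ) [Fact p.Prime] [DecidableEq Sj] {X : Multiset Sj}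
    (h : ∀ s, X.count s < p) : fMult p (fRed p X) = X := by
  refine Multiset.ext.2 fun s => ?_
  rw [count_fMult, fRed_apply, ZMod.val_natCast, Nat.mod_eq_of_lt (h s)]

private theorem push_fRed (p : ℕ) [Fact p.Prime] (g : Sj → Option Sj) (X : Multiset Sj) :
    push (ZMod p) g (fRed p X) = fRed p (X.filterMap g) := by
  induction X using Multiset.induction_on with
  | empty =>
    rw [fRed_zero, map_zero, Multiset.filterMap_zero, fRed_zero]
  | cons a X ih =>
    rw [fRed_cons, map_add, ih, push_single]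
    cases h : g a with
    | none =>
      rw [Multiset.filterMap_cons_none a X h, Option.elim_none, zero_add]
    | some b =>
      rw [Multiset.filterMap_cons_some g a X h, fRed_cons, Option.elim_some]

private theorem push_eq_fRed {p : ℕ} [Fact p.Prime] (g : Sj → Option Sj) (v : Sj →₀ ZMod p) :
    push (ZMod p) g v = fRed p ((fMult p v).filterMap g) := by
  rw [← push_fRed, fRed_fMult]

/-- The size. -/
noncomputable def fSz (p : ℕ) (v : Sj →₀ ZMod p) : ℕ := Multiset.card (fMult p v)

private theorem fSz_pos {p : ℕ} [Fact p.Prime] {v : Sj →₀ ZMod p} (h : v ≠ 0) : 0 < fSz p v := by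
  rw [Nat.pos_iff_ne_zero]
  intro h1
  have h2 : fMult p v = 0 := Multiset.card_eq_zero.1 h1
  apply h
  rw [← fRed_fMult p v, h2, fRed_zero]

private theorem card_fm {g : Sj → Option Sj} (X : Multiset Sj) :
    Multiset.card (X.filterMap g) ≤ Multiset.card X := by
  induction X using Multiset.induction_on with
  | empty => simp
  | cons a X ih =>
    cases h : g a with
    | none =>
      rw [Multiset.filterMap_cons_none a X h, Multiset.card_cons]
      omega
    | some b =>
      rw [Multiset.filterMap_cons_some g a X h, Multiset.card_cons, Multiset.card_cons]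
      omega

private theorem card_fm_lt {g : Sj → Option Sj} {X : Multiset Sj} {a : Sj} (ha : a ∈ X)
    (h : g a = none) : Multiset.card (X.filterMap g) < Multiset.card X := by
  obtain ⟨Y, rfl⟩ := Multiset.exists_cons_of_mem ha
  rw [Multiset.filterMap_cons_none a Y h, Multiset.card_cons]
  have := card_fm (g := g) Y
  omega

private theorem fSz_fRed_le (p : ℕ) [Fact p.Prime] (X : Multiset Sj) :
    fSz p (fRed p X) ≤ Multiset.card X := Multiset.card_le_card (fMult_fRed_le p X)

private theorem fSz_push_le {p : ℕ} [Fact p.Prime] (g : Sj → Option Sj) (v : Sj →₀ ZMod p) :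
    fSz p (push (ZMod p) g v) ≤ fSz p v := by
  rw [push_eq_fRed]
  exact (fSz_fRed_le p _).trans (card_fm _)

/-! ### faces -/

private theorem pv_eq {p : ℕ} [Fact p.Prime] (g : Sj → Option Sj) (v : Sj →₀ ZMod p) :
    pv p g v = push (ZMod p) g v := by
  unfold pv push
  rw [Finsupp.lsum_apply]
  refine Finsupp.sum_congr fun s _ => ?_
  cases g s <;> rfl

private theorem fV_eq_some {p : ℕ} [Fact p.Prime] {i : ℕ} {v v' : ZV p} :
    fV p i v = some v' ↔ v'.1 = push (ZMod p) (fa 0 i) v.1 := by
  unfold fV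
  constructor
  · intro h
    split_ifs at h with h1
    rw [← Option.some.inj h, ← pv_eq]
  · intro h
    have h1 : pv p (fa 0 i) v.1 ≠ 0 := by
      rw [pv_eq, ← h]
      exact v'.2
    rw [dif_pos h1]
    congr 1
    apply Subtype.ext
    rw [h, ← pv_eq]

private theorem fV_eq_none {p : ℕ} [Fact p.Prime] {i : ℕ} {v : ZV p} :
    fV p i v = none ↔ push (ZMod p) (fa 0 i) v.1 = 0 := by
  unfold fV
  rw [pv_eq]
  constructor
  · intro h
    by_contra h1
    rw [dif_pos h1] at h
    exact absurd h (by simp)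
  · intro h
    rw [dif_neg (not_not.2 h)]

theorem LFz_fV (p : ℕ) [Fact p.Prime] : LFz (fV p) := by
  classical
  intro v
  choose N hN using LFz_fa 0
  refine ⟨v.1.support.sup N, fun i hi => ?_⟩
  rw [fV_eq_none]
  exact push_eq_zero fun s hs => hN s i ((Finset.le_sup hs).trans hi)

private theorem fV_comm (p : ℕ) [Fact p.Prime] {i j : ℕ} (h : i ≤ j) (v : ZV p) :
    (fV p (j + 1) v).bind (fV p i) = (fV p i v).bind (fV p j) := by
  have key : ∀ a b : ℕ, ∀ w : ZV p, (fV p a v).bind (fV p b) = some w ↔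
      w.1 = push (ZMod p) (fun s => (fa 0 a s).bind (fa 0 b)) v.1 := by
    intro a b w
    rw [Option.bind_eq_some_iff, ← push_push]
    constructor
    · rintro ⟨u, h1, h2⟩
      rw [fV_eq_some] at h1 h2
      rw [h2, h1]
    · intro h1
      have h2 : push (ZMod p) (fa 0 a) v.1 ≠ 0 := by
        intro h3
        rw [h3, map_zero] at h1
        exact w.2 h1
      exact ⟨⟨_, h2⟩, fV_eq_some.2 rfl, fV_eq_some.2 h1⟩
  refine Option.ext fun w => ?_
  rw [key, key]
  simp only [fa_fa 0 h]

private theorem exc_fV {p : ℕ} [Fact p.Prime] {i : ℕ} {e : ℤ} {v v' : ZV p}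
    (hv : ∀ s ∈ v.1.support, exc s = e) (h : fV p i v = some v') :
    ∀ s ∈ v'.1.support, exc s = e - 1 := by
  classical
  intro s hs
  rw [fV_eq_some] at h
  rw [h, Finsupp.mem_support_iff, push_apply] at hs
  obtain ⟨t, ht, -⟩ := Finset.exists_ne_zero_of_sum_ne_zero hs
  rw [Finset.mem_filter] at ht
  rw [exc_fa ht.2, hv t ht.1]

/-- The filtration. -/
private noncomputable def FV (p : ℕ) [Fact p.Prime] (D : ℕ) (e : ℤ) :
    Submodule (ZMod p) (ZV p →₀ ZMod p) :=
  Finsupp.supported (ZMod p) (ZMod p)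
    {v | (∀ s ∈ v.1.support, exc s = e) ∧ fSz p v.1 ≤ D}

private theorem LFP_V (p : ℕ) [Fact p.Prime] (D : ℕ) :
    LFP (fV p) {v | fSz p v.1 ≤ D} {v | fSz p v.1 ≤ D} := by
  refine ⟨fun v _ => LFz_fV p v, fun v hv i v' h => ?_⟩
  rw [fV_eq_some] at h
  change fSz p v'.1 ≤ D
  rw [h]
  exact (fSz_push_le _ _).trans hv

theorem isCx_GV (p : ℕ) [Fact p.Prime] : IsCx (bd (ZMod p) (fV p)) (GV p) := by
  constructor
  · intro e x hx
    exact bd_supported (P := {v : ZV p | ∀ s ∈ v.1.support, exc s = e})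
      (P' := {v : ZV p | ∀ s ∈ v.1.support, exc s = e - 1})
      ⟨fun v _ => LFz_fV p v, fun v hv i v' h => exc_fV hv h⟩ hx
  · intro e x hx
    refine bd_bd (P := Set.univ) ⟨fun z _ => LFz_fV p z, fun _ _ _ _ _ => trivial⟩
      (fun i j hij z _ => fV_comm p hij z) ?_
    rw [Finsupp.mem_supported]
    exact Set.subset_univ _

private theorem FV_le (p : ℕ) [Fact p.Prime] (D : ℕ) (e : ℤ) : FV p D e ≤ GV p e :=
  Finsupp.supported_mono fun _ hv => hv.1

private theorem isCx_FV (p : ℕ) [Fact p.Prime] (D : ℕ) :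
    IsCx (bd (ZMod p) (fV p)) (FV p D) := by
  constructor
  · intro e x hx
    exact bd_supported (P := {v : ZV p | (∀ s ∈ v.1.support, exc s = e) ∧ fSz p v.1 ≤ D})
      (P' := {v : ZV p | (∀ s ∈ v.1.support, exc s = e - 1) ∧ fSz p v.1 ≤ D})
      ⟨fun v _ => LFz_fV p v, fun v hv i v' h => ⟨exc_fV hv.1 h, (LFP_V p D).2 v hv.2 i v' h⟩⟩ hx
  · intro e x hx
    exact (isCx_GV p).dd e x (FV_le p D e hx)

open Classical in
/-- The projection to the graded part. -/
private noncomputable def rV (p D : ℕ) (v : ZV p) : Option (Multiset Sj) :=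
  if fSz p v.1 = D then some (fMult p v.1) else none

open Classical in
private theorem rV_eq_some {p D : ℕ} {v : ZV p} {X : Multiset Sj} :
    rV p D v = some X ↔ fSz p v.1 = D ∧ fMult p v.1 = X := by
  unfold rV
  constructor
  · intro h
    split_ifs at h with h1
    exact ⟨h1, Option.some.inj h⟩
  · rintro ⟨h1, h2⟩
    rw [if_pos h1, h2]

open Classical in
private theorem FR_eq_some {p i : ℕ} {x y : Multiset Sj} :
    FR p i x = some y ↔ ms (fa 0 i) x = some y ∧ ∀ s, y.count s < p := by
  unfold FR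
  rw [Option.bind_eq_some_iff]
  constructor
  · rintro ⟨z, hz, h1⟩
    split_ifs at h1 with h2
    rw [← Option.some.inj h1]
    exact ⟨hz, h2⟩
  · rintro ⟨h1, h2⟩
    exact ⟨y, h1, if_pos h2⟩

private theorem rV_comm (p : ℕ) [Fact p.Prime] (D i : ℕ) (hD : 0 < D) (v : ZV p)
    (hv : fSz p v.1 ≤ D) : (fV p i v).bind (rV p D) = (rV p D v).bind (FR p i) := by
  classical
  refine Option.ext fun Z => ?_
  rw [Option.bind_eq_some_iff, Option.bind_eq_some_iff]
  constructor
  · rintro ⟨w, h1, h2⟩
    rw [fV_eq_some] at h1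
    rw [rV_eq_some] at h2
    obtain ⟨h2, h3⟩ := h2
    have h4 := fSz_push_le (fa 0 i) v.1
    rw [← h1, h2] at h4
    have h5 : fSz p v.1 = D := le_antisymm hv h4
    refine ⟨fMult p v.1, rV_eq_some.2 ⟨h5, rfl⟩, ?_⟩
    rw [push_eq_fRed] at h1
    set Y := (fMult p v.1).filterMap (fa 0 i) with hY
    have h6 : Multiset.card Y ≤ D := (card_fm _).trans (le_of_eq h5)
    have h7 : D ≤ Multiset.card Y := by
      rw [← h2, h1]
      exact fSz_fRed_le p Y
    have h8 : fMult p w.1 = Y := by
      rw [h1]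
      refine Multiset.eq_of_le_of_card_le (fMult_fRed_le p Y) ?_
      have h9 : fSz p (fRed p Y) = D := by rw [← h1, h2]
      change Multiset.card Y ≤ fSz p (fRed p Y)
      rw [h9]
      exact h6
    rw [FR_eq_some]
    constructor
    · rw [ms_eq_some, ← h3, h8]
      refine ⟨fun a ha => ?_, rfl⟩
      by_contra hc
      have h10 := card_fm_lt ha (Option.not_isSome_iff_eq_none.1 hc)
      rw [← hY] at h10
      have h11 : Multiset.card (fMult p v.1) = D := h5
      omega
    · intro s
      rw [← h3, count_fMult]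
      have : NeZero p := ⟨(Fact.out : p.Prime).ne_zero⟩
      exact ZMod.val_lt _
  · rintro ⟨X, h1, h2⟩
    obtain ⟨h3, rfl⟩ := rV_eq_some.1 h1
    obtain ⟨h4, h5⟩ := FR_eq_some.1 h2
    obtain ⟨-, h6⟩ := ms_eq_some.1 h4
    have h7 : push (ZMod p) (fa 0 i) v.1 = fRed p Z := by rw [push_eq_fRed, h6]
    have h8 : fMult p (fRed p Z) = Z := fMult_fRed p h5
    have h9 : fSz p (fRed p Z) = D := by
      unfold fSz
      rw [h8, ms_card h4]
      exact h3
    have h10 : fRed p Z ≠ 0 := by
      intro h11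
      rw [h11] at h8
      rw [h11] at h9
      have h12 : fMult p (0 : Sj →₀ ZMod p) = 0 := by
        unfold fMult
        rw [Finsupp.mapRange_zero, map_zero]
      have h13 : fSz p (0 : Sj →₀ ZMod p) = 0 := by
        unfold fSz
        rw [h12, Multiset.card_zero]
      omega
    exact ⟨⟨fRed p Z, h10⟩, fV_eq_some.2 h7.symm, rV_eq_some.2 ⟨h9, h8⟩⟩

private theorem mem_flt {α : Type} {q : α → Prop} {inst : DecidablePred q} {s : Finset α} {a : α} :
    a ∈ @Finset.filter α q inst s ↔ a ∈ s ∧ q a := Finset.mem_filter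

private theorem ses_V (p : ℕ) [Fact p.Prime] (D : ℕ) :
    SES (bd (ZMod p) (fV p)) (FV p D) (bd (ZMod p) (fV p)) (FV p (D + 1))
      (bd (ZMod p) (FR p)) (Tr (ZMod p) p (D + 1) ⊤) LinearMap.id
      (push (ZMod p) (rV p (D + 1))) := by
  classical
  have : NeZero p := ⟨(Fact.out : p.Prime).ne_zero⟩
  constructor
  · exact isCx_FV p D
  · exact isCx_FV p (D + 1)
  · exact isCx_Tr (ZMod p) (Nat.succ_pos D) ⊤
  · intro e x hx
    exact Finsupp.supported_mono (M := ZMod p) (R := ZMod p) (fun (v : ZV p)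
      (hv : (∀ s ∈ v.1.support, exc s = e) ∧ fSz p v.1 ≤ D) =>
      (⟨hv.1, hv.2.trans (Nat.le_succ D)⟩ :
        (∀ s ∈ v.1.support, exc s = e) ∧ fSz p v.1 ≤ D + 1)) hx
  · intro e y hy
    refine push_supported (P' := {x : Multiset Sj | Multiset.card x = D + 1 ∧
      (∀ s, x.count s < p) ∧ ∀ s ∈ x, exc s = e ∧ Lv ⊤ s}) ?_ hy
    rintro v hv X h1
    obtain ⟨h2, rfl⟩ := rV_eq_some.1 h1
    refine ⟨h2, fun s => ?_, fun s hs => ⟨hv.1 s (mem_fMult.1 hs), Lv_top s⟩⟩
    rw [count_fMult]
    exact ZMod.val_lt _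
  · intro e x hx
    rfl
  · intro e y hy
    refine (push_bd (P := {v : ZV p | fSz p v.1 ≤ D + 1}) (P' := {x | Multiset.card x = D + 1})
      (LFP_V p (D + 1)) (LFP_FR (Nat.succ_pos D)) ?_ ?_ ?_).symm
    · intro v hv X h1
      obtain ⟨h2, rfl⟩ := rV_eq_some.1 h1
      exact h2
    · intro i v hv
      exact rV_comm p (D + 1) i (Nat.succ_pos D) v hv
    · exact Finsupp.supported_mono (fun v hv => hv.2) hy
  · intro e x hx h
    exact h
  · intro e x hx
    refine push_eq_zero fun v hv => ?_
    have h1 : fSz p v.1 ≤ D := ((Finsupp.mem_supported _ x).1 hx hv).2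
    unfold rV
    rw [if_neg (by omega)]
  · intro e y hy h
    refine ⟨y, ?_, rfl⟩
    refine (Finsupp.mem_supported _ y).2 fun v hv => ?_
    have h1 := (Finsupp.mem_supported _ y).1 hy hv
    refine ⟨h1.1, ?_⟩
    by_contra hc
    have h2 : fSz p v.1 = D + 1 := by
      have := h1.2
      omega
    have h3 : push (ZMod p) (rV p (D + 1)) y (fMult p v.1) = y v := by
      rw [push_apply, Finset.sum_eq_single v]
      · intro u hu huv
        exfalso
        apply huv
        obtain ⟨-, h4⟩ := rV_eq_some.1 (mem_flt.1 hu).2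
        apply Subtype.ext
        rw [← fRed_fMult p u.1, h4, fRed_fMult]
      · intro h4
        exfalso
        exact h4 (mem_flt.2 ⟨hv, rV_eq_some.2 ⟨h2, rfl⟩⟩)
    rw [h] at h3
    exact (Finsupp.mem_support_iff.1 hv) h3.symm
  · intro e z hz
    let u : Multiset Sj → Option (ZV p) := fun X =>
      if h : fRed p X ≠ 0 then some ⟨fRed p X, h⟩ else none
    have hu : ∀ X : Multiset Sj, Multiset.card X = D + 1 → (∀ s, X.count s < p) →
        ∃ h : fRed p X ≠ 0, u X = some ⟨fRed p X, h⟩ ∧ fSz p (fRed p X) = D + 1 ∧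
          fMult p (fRed p X) = X := by
      intro X h1 h2
      have h3 := fMult_fRed p h2
      have h4 : fRed p X ≠ 0 := by
        intro h5
        have h6 : fMult p (0 : Sj →₀ ZMod p) = 0 := by
          unfold fMult
          rw [Finsupp.mapRange_zero, map_zero]
        rw [h5, h6] at h3
        rw [← h3, Multiset.card_zero] at h1
        omega
      refine ⟨h4, dif_pos h4, ?_, h3⟩
      unfold fSz
      rw [h3, h1]
    have hz' : ∀ X ∈ z.support, Multiset.card X = D + 1 ∧ (∀ s, X.count s < p) ∧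
        ∀ s ∈ X, exc s = e := by
      intro X hX
      have h1 := (Finsupp.mem_supported _ z).1 hz hX
      refine ⟨h1.1, fun s => ?_, fun s hs => (h1.2.2 s hs).1⟩
      have h2 := h1.2.1 s
      convert h2
    refine ⟨push (ZMod p) u z, ?_, ?_⟩
    · refine push_supported (P := {X | Multiset.card X = D + 1 ∧ (∀ s, X.count s < p) ∧
        ∀ s ∈ X, exc s = e}) ?_ ((Finsupp.mem_supported _ z).2 hz')
      rintro X ⟨h1, h2, h3⟩ v h4
      obtain ⟨h5, h6, h7, h8⟩ := hu X h1 h2
      rw [h6] at h4
      rw [← Option.some.inj h4]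
      refine ⟨fun s hs => h3 s ?_, le_of_eq h7⟩
      rw [← h8]
      exact mem_fMult.2 hs
    · rw [push_push]
      refine (push_congr (g' := fun X => some X) fun X hX => ?_).trans (push_some z)
      obtain ⟨h1, h2, h3⟩ := hz' X hX
      obtain ⟨h5, h6, h7, h8⟩ := hu X h1 h2
      rw [h6]
      exact rV_eq_some.2 ⟨h7, h8⟩

private theorem HB_FV (p : ℕ) [Fact p.Prime] (n : ℤ) (t : ℕ → ℕ)
    (ht : ∀ d, 0 < d → HB (bd (ZMod p) (FR p)) (Tr (ZMod p) p d ⊤) n (t d)) (D : ℕ) :
    HB (bd (ZMod p) (fV p)) (FV p D) n (∑ d ∈ Finset.range (D + 1), t d) := by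
  induction D with
  | zero =>
    refine HB_mono (HB_of_acy fun z hz _ => ?_) (Nat.zero_le _)
    have h1 : z = 0 := by
      rw [← Finsupp.support_eq_empty, Finset.eq_empty_iff_forall_notMem]
      intro v hv
      have h2 := ((Finsupp.mem_supported _ z).1 hz hv).2
      have h3 := fSz_pos v.2
      omega
    exact ⟨0, zero_mem _, by rw [map_zero, h1]⟩
  | succ D ih =>
    rw [Finset.sum_range_succ]
    exact HB_mid (ses_V p D) ih (ht (D + 1) (Nat.succ_pos D))

theorem HB_V (p : ℕ) [Fact p.Prime] (n : ℤ) (t : ℕ → ℕ) (C : ℕ)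
    (ht : ∀ d, 0 < d → HB (bd (ZMod p) (FR p)) (Tr (ZMod p) p d ⊤) n (t d))
    (hC : ∀ D, ∑ d ∈ Finset.range D, t d ≤ C) :
    HB (bd (ZMod p) (fV p)) (GV p) n C := by
  intro W _ _ _ ζ hζ hd
  obtain ⟨D, hD⟩ : ∃ D, ∀ w, ζ w ∈ FV p D n := by
    let b := Module.finBasis (ZMod p) W
    refine ⟨Finset.univ.sup fun i => (ζ (b i)).support.sup fun v => fSz p v.1, fun w => ?_⟩
    set D := Finset.univ.sup fun i => (ζ (b i)).support.sup fun v => fSz p v.1 with hDd
    have h1 : ∀ i, ζ (b i) ∈ FV p D n := by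
      intro i
      refine (Finsupp.mem_supported _ _).2 fun v hv => ?_
      refine ⟨(Finsupp.mem_supported _ _).1 (hζ (b i)) hv, ?_⟩
      refine le_trans ?_ (Finset.le_sup (f := fun i => (ζ (b i)).support.sup fun v => fSz p v.1)
        (Finset.mem_univ i))
      exact Finset.le_sup (f := fun v : ZV p => fSz p v.1) hv
    rw [← b.sum_repr w, map_sum]
    refine Submodule.sum_mem _ fun i _ => ?_
    rw [map_smul]
    exact Submodule.smul_mem _ _ (h1 i)
  have h1 := HB_FV p n t ht D W ζ hD hd
  have h2 : Module.finrank (ZMod p) ((Bdr (bd (ZMod p) (fV p)) (FV p D) n).comap ζ) ≤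
      Module.finrank (ZMod p) ((Bdr (bd (ZMod p) (fV p)) (GV p) n).comap ζ) :=
    Submodule.finrank_mono (Submodule.comap_mono (Submodule.map_mono (FV_le p D (n + 1))))
  have h3 := hC (D + 1)
  omega

end BPN.E
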