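import Pool.Agent.BPN.E.KDefs
import Pool.Agent.BPN.E.LqLem

/-!
# Part (E), module K1: the decalage sequences `S^d(Q) ← S^d(W) ← S^(d-1)(W) ⊗ Λ^1(U) ← ..` (helper30)

`C1 a b M = S^a(W) ⊗ Λ^b(U)`: finitely supported functions on `(x, y)`, `x` a multiset of cardinality
`a`, `y ∈ Sj^b` (same excess, level `M`), alternating in `y`, `y_i ∈ InB`; differential `bd (FM 1 b)`; the
operators `Lq 1` map `C1 a (b+1)` to `C1 (a+1) b`.

PROOFS.
* `K1_ses`: `c_i`: `isCx_GM`, `isCx_ker`.  `Lq` commutes with `bd`: `lin_bd` (sets `{card z.1 = a}`, `LFP_FM`)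
  and `Lq_push`; `q1` commutes with the differentials `bd (FM 1 0)`, `bd (FM 0 0)` by `push_bd`, `d0_fa`.
  `gG`: `Lq_mem`, `Lq_support` (`x = x' + z`, `z ∈ InB`), kernel: `b ≥ 1`: `Lq_comp`; `b = 0`: every multiset in
  the support of `Lq φ` contains an element of `InB`, so `ms (fa 0 0) x = none` (`ms_eq_none`).
  `gsur`: `Lq_exact_succ` (`b ≥ 1`) resp. `Lq_exact_zero` (`b = 0`) with `O = InB`, `q = 1`; for `b = 0` `hc`:
  `φ (x, y) = 0` if `x` has no element in `InB`, from `q1 φ = 0` and the injectivity of `ms (fa 0 0)` on such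
  multisets (`d0_sec`: `(ms (fa 0 0) x).bind (ms (act (sg 0))) = some x`).  The support conditions give
  cardinality, excess, level and `InB`.
* `K1_bot`: for `φ ∈ Z1 0 (b+1)` `Lq_exact_succ` gives `ψ` with `Lq ψ = φ`; a point `(x, y)` of the support of
  `ψ` would give a point `(x', y')` of the support of `φ` with `card x' = card x + 1 > 0`, but
  `card x' = 0`; so `ψ = 0`, `φ = 0`.
* `K1_last`: `gsur`: `ψ = push (pr (ms (act (sg 0))) (tup 0 ..)) φ` (`s0_spec`, `Lv_d0`).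
* `K1_first`: `u = push (fun z => some (0, jm ∘ z.2))`: `fa_jm`, `exc_jm`, `Lv_jm`, `jm_inj`, `InB_iff`, `ms_zero`.
-/

namespace BPN.E

variable (k : Type) [Field k]

/-! ### Auxiliary lemmas -/

private theorem k1_LFP {c a b : ℕ} (h : 0 < a + b) :
    LFP (FM c b) {z : MT b | Multiset.card z.1 = a} {z : MT b | Multiset.card z.1 = a} :=
  LFP_FM h

private theorem k1_cx {a b : ℕ} (h : 0 < a + b) (M : ℕ∞) :
    IsCx (bd k (FM 1 b)) (C1 k a b M) :=
  isCx_GM k h (fun _ _ _ h1 h2 => Lv_fa h1 h2) fun _ _ _ h1 h2 => ⟨Lv_fa h1.1 h2, InB_fa h1.2 h2⟩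

private theorem k1_sup {a b : ℕ} {P P' : Sj → Prop} {e : ℤ} {x : MT b →₀ k}
    (hx : x ∈ GM k a b P P' e) :
    x ∈ Finsupp.supported k k {z : MT b | Multiset.card z.1 = a} :=
  Finsupp.supported_mono (fun _ hz => hz.1) hx.2

private theorem k1_Lbd {a b : ℕ} {x : MT (b + 1) →₀ k}
    (hx : x ∈ Finsupp.supported k k {z : MT (b + 1) | Multiset.card z.1 = a}) :
    Lq k 1 b (bd k (FM 1 (b + 1)) x) = bd k (FM 1 b) (Lq k 1 b x) := by
  refine lin_bd (P := {z : MT (b + 1) | Multiset.card z.1 = a})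
    (P' := {z : MT b | Multiset.card z.1 = a + 1}) (k1_LFP (by omega)) (k1_LFP (by omega))
    (Lq k 1 b) hx ?_ fun i => ?_
  · rw [Finsupp.mem_supported]
    rintro ⟨X, y⟩ hz
    obtain ⟨x', z, h1, h2⟩ := Lq_support (Finsupp.mem_support_iff.1 hz)
    have h3 : Multiset.card x' = a :=
      (Finsupp.mem_supported k x).1 hx (Finsupp.mem_support_iff.2 h1)
    show Multiset.card X = a + 1
    rw [h2, Multiset.card_add, h3, Multiset.card_replicate]
  · exact Lq_push one_pos b (fa 1 i) x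

private theorem k1_qbd {a : ℕ} (ha : 0 < a) {x : MT 0 →₀ k}
    (hx : x ∈ Finsupp.supported k k {z : MT 0 | Multiset.card z.1 = a}) :
    q1 k (bd k (FM 1 0) x) = bd k (FM 0 0) (q1 k x) := by
  refine push_bd (P := {z : MT 0 | Multiset.card z.1 = a})
    (P' := {z : MT 0 | Multiset.card z.1 = a}) (k1_LFP (by omega)) (k1_LFP (by omega))
    (fun z hz z' hz' => ?_) (fun i z _ => ?_) hx
  · exact (ms_card (pr_eq_some.1 hz').1).trans hz
  · unfold FM
    rw [pr_bind, pr_bind]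
    simp only [tup_bind, ms_bind, d0_fa]

private theorem k1_supp {a b : ℕ} {M : ℕ∞} {e : ℤ} {φ : MT b →₀ k} (hφ : φ ∈ C1 k a b M e)
    {x : Multiset Sj} {y : Fin b → Sj} (h : φ (x, y) ≠ 0) :
    Multiset.card x = a ∧ (∀ s ∈ x, exc s = e ∧ Lv M s) ∧
      ∀ j, exc (y j) = e ∧ Lv M (y j) ∧ InB (y j) :=
  hφ.2 (Finsupp.mem_support_iff.2 h)

private theorem k1_mem {a b b' : ℕ} {M : ℕ∞} {e : ℤ} {ψ : MT b →₀ k} {φ : MT b' →₀ k}
    (hψ : ψ ∈ AL k Sj b) (hφ : φ ∈ C1 k (a + 1) b' M e)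
    (h : ∀ x y, ψ (x, y) ≠ 0 → (∀ i, InB (y i)) ∧ ∃ x' y', φ (x', y') ≠ 0 ∧
      Multiset.card x' = Multiset.card x + 1 ∧
      ∀ z, (z ∈ x ∨ ∃ i, y i = z) ↔ (z ∈ x' ∨ ∃ i, y' i = z)) :
    ψ ∈ C1 k a b M e := by
  refine ⟨hψ, ?_⟩
  rintro ⟨x, y⟩ hz
  obtain ⟨h1, x', y', h2, h3, h4⟩ := h x y (Finsupp.mem_support_iff.1 hz)
  obtain ⟨h5, h6, h7⟩ := k1_supp k hφ h2
  have h8 : ∀ s, (s ∈ x ∨ ∃ j, y j = s) → exc s = e ∧ Lv M s := by
    intro s hs
    rcases (h4 s).1 hs with hs' | ⟨j, rfl⟩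
    · exact h6 s hs'
    · exact ⟨(h7 j).1, (h7 j).2.1⟩
  refine ⟨?_, fun s hs => h8 s (Or.inl hs),
    fun j => ⟨(h8 _ (Or.inr ⟨j, rfl⟩)).1, (h8 _ (Or.inr ⟨j, rfl⟩)).2, h1 j⟩⟩
  show Multiset.card x = a
  omega

private theorem k1_Lmem {a b : ℕ} {M : ℕ∞} {e : ℤ} {y : MT (b + 1) →₀ k}
    (hy : y ∈ C1 k a (b + 1) M e) : Lq k 1 b y ∈ C1 k (a + 1) b M e ∧
      ∀ z, Lq k 1 b y z ≠ 0 → ∃ s ∈ z.1, InB s := by
  have key : ∀ z, Lq k 1 b y z ≠ 0 → (Multiset.card z.1 = a + 1 ∧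
      (∀ s ∈ z.1, exc s = e ∧ Lv M s) ∧ ∀ j, exc (z.2 j) = e ∧ Lv M (z.2 j) ∧ InB (z.2 j)) ∧
      ∃ s ∈ z.1, InB s := by
    rintro ⟨X, v⟩ hz
    obtain ⟨x', s, h1, h2⟩ := Lq_support hz
    obtain ⟨h3, h4, h5⟩ := k1_supp k hy h1
    have h6 := h5 0
    rw [Fin.cons_zero] at h6
    rw [Multiset.replicate_one] at h2
    refine ⟨⟨?_, fun t ht => ?_, fun j => ?_⟩, s, ?_, h6.2.2⟩
    · show Multiset.card X = a + 1
      rw [h2, Multiset.card_add, h3, Multiset.card_singleton]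
    · have h7 : t ∈ x' + {s} := h2 ▸ ht
      rw [Multiset.mem_add, Multiset.mem_singleton] at h7
      rcases h7 with h7 | rfl
      · exact h4 t h7
      · exact ⟨h6.1, h6.2.1⟩
    · have h7 := h5 (Fin.succ j)
      rw [Fin.cons_succ] at h7
      exact h7
    · show s ∈ X
      rw [h2, Multiset.mem_add, Multiset.mem_singleton]
      exact Or.inr rfl
  refine ⟨⟨Lq_mem hy.1, ?_⟩, fun z hz => (key z hz).2⟩
  intro z hz
  exact (key z (Finsupp.mem_support_iff.1 hz)).1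

private theorem k1_ms_id {A : Type} {g : A → Option A} {x : Multiset A}
    (h : ∀ a ∈ x, g a = some a) : ms g x = some x := by
  induction x using Multiset.induction_on with
  | empty => exact ms_zero g
  | cons a x ih =>
    rw [ms_cons, h a (Multiset.mem_cons_self a x), ih fun b hb => h b (Multiset.mem_cons_of_mem hb)]
    rfl

private theorem k1_qinj {φ : MT 0 →₀ k} (hq : q1 k φ = 0) (x : Multiset Sj)
    (y : Fin 0 → Sj) (hx : ∀ s ∈ x, ¬ InB s) : φ (x, y) = 0 := by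
  classical
  by_contra hne
  have h0 : ∀ {w : Multiset Sj} {W : Multiset Sj}, ms (fa 0 0) w = some W →
      ms (act (sg 0)) W = some w := by
    intro w W hW
    have h1 : (ms (fa 0 0) w).bind (ms (act (sg 0))) = some w := by
      rw [ms_bind]
      refine k1_ms_id fun a ha => d0_sec fun hB => ?_
      have h2 := (ms_eq_none (g := fa 0 0)).2 ⟨a, ha, (d0_none_iff _).2 hB⟩
      rw [hW] at h2
      simp at h2
    rw [hW] at h1
    exact h1
  obtain ⟨X, hX⟩ : ∃ X, ms (fa 0 0) x = some X := by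
    refine Option.ne_none_iff_exists'.1 fun h => ?_
    obtain ⟨a, ha, h1⟩ := ms_eq_none.1 h
    exact hx a ha ((d0_none_iff _).1 h1)
  have h2 := congrArg (fun ψ : MT 0 →₀ k => ψ (X, Fin.elim0)) hq
  simp only [q1, push_apply, Finsupp.zero_apply] at h2
  have h3 : (φ.support.filter fun z => pr (ms (fa 0 0)) (tup 0 (fa 0 0)) z =
      some (X, Fin.elim0)) = {(x, y)} := by
    ext z
    rw [Finset.mem_filter, Finset.mem_singleton, Finsupp.mem_support_iff, pr_eq_some,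
      tup_eq_some]
    constructor
    · rintro ⟨h4, h5, h6⟩
      refine Prod.ext ?_ (Subsingleton.elim _ _)
      exact Option.some.inj ((h0 h5).symm.trans (h0 hX))
    · rintro rfl
      exact ⟨hne, hX, fun i => i.elim0⟩
  have h4 := (Finset.sum_congr h3 fun _ _ => rfl).symm.trans ((Finset.sum_congr (by
    ext z; simp only [Finset.mem_filter]) fun _ _ => rfl).trans h2)
  rw [Finset.sum_singleton] at h4
  exact hne h4

private theorem k1_sur (a b : ℕ) (M : ℕ∞) (e : ℤ) (φ : MT b →₀ k)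
    (hφ : φ ∈ Z1 k (a + 1) b M e) : ∃ ψ ∈ C1 k a (b + 1) M e, Lq k 1 b ψ = φ := by
  classical
  cases b with
  | zero =>
    obtain ⟨h1, h2⟩ := hφ
    obtain ⟨ψ, hψ, h3, h4⟩ := Lq_exact_zero (q := 1) one_pos InB (φ := φ)
      (fun x y hx => k1_qinj k h2 x y fun s hs hB => by
        have h5 := hx s hB
        have h6 := Multiset.count_pos.2 hs
        have h7 : Multiset.count s x < 1 := by convert h5
        have h8 : 0 < Multiset.count s x := by convert h6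
        omega)
    exact ⟨ψ, k1_mem k hψ h1 h4, h3⟩
  | succ b =>
    obtain ⟨h1, h2⟩ := hφ
    obtain ⟨ψ, hψ, h3, h4⟩ := Lq_exact_succ (q := 1) one_pos InB (b := b) h1.1
      (fun x y h i => ((k1_supp k h1 h).2.2 i).2.2) h2
    exact ⟨ψ, k1_mem k hψ h1 h4, h3⟩

/-! ### The sequences -/

theorem K1_ses (a b : ℕ) (M : ℕ∞) : SES (bd k (FM 1 (b + 1))) (Z1 k a (b + 1) M)
    (bd k (FM 1 (b + 1))) (C1 k a (b + 1) M) (bd k (FM 1 b)) (Z1 k (a + 1) b M)
    LinearMap.id (Lq k 1 b) := by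
  have hc : IsCx (bd k (FM 1 (b + 1))) (C1 k a (b + 1) M) := k1_cx k (by omega) M
  have hc' : IsCx (bd k (FM 1 b)) (C1 k (a + 1) b M) := k1_cx k (by omega) M
  refine
    { c₁ := isCx_ker (d' := bd k (FM 1 b)) hc (Lq k 1 b) fun e x hx => k1_Lbd k (k1_sup k hx)
      c₂ := hc
      c₃ := ?_
      fG := fun e x hx => hx.1
      gG := fun e y hy => ?_
      fd := fun e x _ => rfl
      gd := fun e y hy => (k1_Lbd k (k1_sup k hy)).symm
      finj := fun e x _ h => h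
      gf := fun e x hx => hx.2
      ex := fun e y hy h => ⟨y, ⟨hy, h⟩, rfl⟩
      gsur := fun e z hz => k1_sur k a b M e z hz }
  · cases b with
    | zero =>
      exact isCx_ker (d' := bd k (FM 0 0)) hc' (q1 k) fun e x hx =>
        k1_qbd k (Nat.succ_pos a) (k1_sup k hx)
    | succ b =>
      exact isCx_ker (d' := bd k (FM 1 b)) hc' (Lq k 1 b) fun e x hx =>
        k1_Lbd k (k1_sup k hx)
  · obtain ⟨h1, h2⟩ := k1_Lmem k hy
    cases b with
    | zero =>
      refine ⟨h1, ?_⟩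
      refine push_eq_zero fun z hz => ?_
      obtain ⟨s, hs, hi⟩ := h2 z (Finsupp.mem_support_iff.1 hz)
      exact pr_eq_none.2 (Or.inl (ms_eq_none.2 ⟨s, hs, (d0_none_iff _).2 hi⟩))
    | succ b => exact ⟨h1, Lq_comp hy.1⟩

theorem K1_bot (b : ℕ) (M : ℕ∞) (e : ℤ) : Z1 k 0 (b + 1) M e = ⊥ := by
  classical
  rw [eq_bot_iff]
  rintro x ⟨h1, h2⟩
  rw [Submodule.mem_bot]
  obtain ⟨ψ, hψ, h3, h4⟩ := Lq_exact_succ (q := 1) one_pos InB (b := b) h1.1
    (fun x y h i => ((k1_supp k h1 h).2.2 i).2.2) h2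
  have h5 : ψ = 0 := by
    ext ⟨X, y⟩
    by_contra hne
    rw [Finsupp.zero_apply] at hne
    obtain ⟨-, x', y', h6, h7, -⟩ := h4 X y hne
    have h8 := (k1_supp k h1 h6).1
    omega
  rw [← h3, h5, map_zero]

theorem K1_last {d : ℕ} (hd : 0 < d) (M : ℕ∞) : SES (bd k (FM 1 0)) (Z1 k d 0 M)
    (bd k (FM 1 0)) (C1 k d 0 M) (bd k (FM 0 0)) (fun e => Sy k d M (e - 1))
    LinearMap.id (q1 k) := by
  have hc : IsCx (bd k (FM 1 0)) (C1 k d 0 M) := k1_cx k (by omega) M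
  have hL : IsCx (bd k (FM 0 0)) (Sy k d M) :=
    isCx_GM k (by omega) (fun _ _ _ h1 h2 => Lv_fa h1 h2) fun _ _ _ h1 h2 => Lv_fa h1 h2
  refine
    { c₁ := isCx_ker (d' := bd k (FM 0 0)) hc (q1 k) fun e x hx => k1_qbd k hd (k1_sup k hx)
      c₂ := hc
      c₃ := ⟨fun e x hx => hL.dG (e - 1) x hx, fun e x hx => hL.dd (e - 1) x hx⟩
      fG := fun e x hx => hx.1
      gG := fun e y hy => ?_
      fd := fun e x _ => rfl
      gd := fun e y hy => (k1_qbd k hd (k1_sup k hy)).symm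
      finj := fun e x _ h => h
      gf := fun e x hx => hx.2
      ex := fun e y hy h => ⟨y, ⟨hy, h⟩, rfl⟩
      gsur := fun e z hz => ?_ }
  · refine ⟨push_AL _ _ hy.1, ?_⟩
    refine push_supported (P := {z : MT 0 | Multiset.card z.1 = d ∧
      (∀ s ∈ z.1, exc s = e ∧ Lv M s) ∧
      ∀ j, exc (z.2 j) = e ∧ (Lv M (z.2 j) ∧ InB (z.2 j))}) (fun z hz z' hz' => ?_) hy.2
    rw [pr_eq_some] at hz'
    refine ⟨(ms_card hz'.1).trans hz.1, fun t ht => ?_, fun j => j.elim0⟩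
    obtain ⟨s, hs, hst⟩ := (mem_ms hz'.1 t).1 ht
    exact ⟨by rw [exc_fa hst, (hz.2.1 s hs).1], Lv_fa (hz.2.1 s hs).2 hst⟩
  · refine ⟨push k (pr (ms (act (sg 0))) (tup 0 (act (sg 0)))) z,
      ⟨push_AL _ _ hz.1, ?_⟩, ?_⟩
    · refine push_supported (P := {z : MT 0 | Multiset.card z.1 = d ∧
        (∀ s ∈ z.1, exc s = e - 1 ∧ Lv M s) ∧
        ∀ j, exc (z.2 j) = e - 1 ∧ Lv M (z.2 j)}) (fun z hz z' hz' => ?_) hz.2
      rw [pr_eq_some] at hz'
      refine ⟨(ms_card hz'.1).trans hz.1, fun t ht => ?_, fun j => j.elim0⟩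
      obtain ⟨r, hr, hrt⟩ := (mem_ms hz'.1 t).1 ht
      obtain ⟨s, hs, -, hs'⟩ := s0_spec r
      have h1 : t = s := Option.some.inj (hrt.symm.trans hs)
      rw [h1]
      refine ⟨?_, (Lv_d0 hs').2 (hz.2.1 r hr).2⟩
      rw [exc_sg hs, (hz.2.1 r hr).1]
      ring
    · have h1 : ∀ s : Sj, (act (sg 0) s).bind (fa 0 0) = some s := by
        intro s
        obtain ⟨t, ht, -, ht'⟩ := s0_spec s
        rw [ht]
        exact ht'
      unfold q1
      rw [push_push]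
      have h2 : ∀ w : MT 0, (pr (ms (act (sg 0))) (tup 0 (act (sg 0))) w).bind
          (pr (ms (fa 0 0)) (tup 0 (fa 0 0))) = some w := by
        intro w
        rw [pr_bind, pr_eq_some]
        simp only [tup_bind, ms_bind, h1, tup_eq_some]
        exact ⟨k1_ms_id fun a _ => rfl, fun i => i.elim0⟩
      simp only [h2]
      exact push_some z

/-- The identification of `Λ^d` of the sphere at level `m` with `Λ^d(U)` at level `m + 1`. -/
noncomputable def u1 (d : ℕ) : (TT 0 d →₀ k) →ₗ[k] (MT d →₀ k) :=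
  push k fun z => some ((0 : Multiset Sj), jm ∘ z.2)

theorem K1_first {d : ℕ} (hd : 0 < d) (m : ℕ∞) :
    (∀ e x, x ∈ La k d m e → u1 k d x ∈ C1 k 0 d (m + 1) e) ∧
    (∀ e x, x ∈ La k d m e → bd k (FM 1 d) (u1 k d x) = u1 k d (bd k (FT 0 0 d) x)) ∧
    (∀ e x, x ∈ La k d m e → u1 k d x = 0 → x = 0) ∧
    (∀ e y, y ∈ C1 k 0 d (m + 1) e → ∃ x ∈ La k d m e, u1 k d x = y) := by
  have hinj : Function.Injective fun z : TT 0 d => (((0 : Multiset Sj), jm ∘ z.2) : MT d) := by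
    rintro ⟨x, y⟩ ⟨x', y'⟩ h
    have h1 : jm ∘ y = jm ∘ y' := congrArg Prod.snd h
    exact Prod.ext (Subsingleton.elim _ _) (funext fun i => jm_inj (congrFun h1 i))
  have hu : ∀ x : TT 0 d →₀ k, u1 k d x = Finsupp.mapDomain
      (fun z : TT 0 d => (((0 : Multiset Sj), jm ∘ z.2) : MT d)) x := by
    intro x
    unfold u1
    exact push_total (fun z : TT 0 d => (((0 : Multiset Sj), jm ∘ z.2) : MT d)) x
  have happ : ∀ (x : TT 0 d →₀ k) (t : Fin d → Sj), u1 k d x ((0 : Multiset Sj), jm ∘ t) =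
      x (Fin.elim0, t) := by
    intro x t
    rw [hu]
    exact Finsupp.mapDomain_apply hinj x (Fin.elim0, t)
  have hzero : ∀ (x : TT 0 d →₀ k) (X : Multiset Sj) (y : Fin d → Sj),
      (∀ t : Fin d → Sj, ¬ (X = 0 ∧ y = jm ∘ t)) → u1 k d x (X, y) = 0 := by
    intro x X y h
    rw [hu]
    refine Finsupp.mapDomain_of_notMem_range x (X, y) ?_
    rintro ⟨z, hz⟩
    exact h z.2 ⟨(congrArg Prod.fst hz).symm, (congrArg Prod.snd hz).symm⟩
  refine ⟨fun e x hx => ?_, fun e x _ => ?_, fun e x _ h => ?_, fun e y hy => ?_⟩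
  · refine ⟨⟨fun σ X y => ?_, fun X y i j hij hy => ?_⟩, ?_⟩
    · by_cases h : ∃ t : Fin d → Sj, X = 0 ∧ y = jm ∘ t
      · obtain ⟨t, rfl, rfl⟩ := h
        have h1 : (jm ∘ t) ∘ σ = jm ∘ (t ∘ σ) := rfl
        rw [h1, happ, happ]
        exact hx.1.2.1 σ Fin.elim0 t
      · rw [hzero x X y fun t ht => h ⟨t, ht⟩, smul_zero]
        refine hzero x X (y ∘ σ) fun t ht => h ⟨t ∘ σ.symm, ht.1, ?_⟩
        funext i
        have h1 := congrFun ht.2 (σ.symm i)
        simp only [Function.comp_apply, Equiv.apply_symm_apply] at h1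
        exact h1
    · by_cases h : ∃ t : Fin d → Sj, X = 0 ∧ y = jm ∘ t
      · obtain ⟨t, rfl, rfl⟩ := h
        rw [happ]
        exact hx.1.2.2 Fin.elim0 t i j hij (jm_inj hy)
      · exact hzero x X y fun t ht => h ⟨t, ht⟩
    · refine push_supported (P := {z : TT 0 d | (∀ i, exc (z.1 i) = e ∧ Lv m (z.1 i)) ∧
        ∀ j, exc (z.2 j) = e ∧ Lv m (z.2 j)}) (fun z hz z' hz' => ?_) hx.2
      have h1 : z' = ((0 : Multiset Sj), jm ∘ z.2) := (Option.some.inj hz').symm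
      rw [h1]
      refine ⟨Multiset.card_zero, fun s hs => absurd hs (Multiset.notMem_zero s), fun j => ?_⟩
      exact ⟨(exc_jm _).trans (hz.2 j).1, (Lv_jm _).2 (hz.2 j).2, (InB_iff _).2 ⟨_, rfl⟩⟩
  · unfold u1
    symm
    refine push_bd (P := (Set.univ : Set (TT 0 d))) (P' := {z : MT d | Multiset.card z.1 = 0})
      ⟨fun z _ => LFz_FT (by omega) z, fun _ _ _ _ _ => trivial⟩ (k1_LFP (by omega))
      (fun z _ z' hz' => ?_) (fun i z _ => ?_) ?_
    · rw [← Option.some.inj hz']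
      exact Multiset.card_zero
    · refine Option.ext fun w => ?_
      unfold FT FM
      rw [Option.bind_eq_some_iff, Option.bind_some, pr_eq_some, ms_zero, tup_eq_some]
      constructor
      · rintro ⟨v, hv, hw⟩
        rw [pr_eq_some, tup_eq_some, tup_eq_some] at hv
        rw [← Option.some.inj hw]
        refine ⟨rfl, fun j => ?_⟩
        show fa 1 i (jm (z.2 j)) = some (jm (v.2 j))
        rw [fa_jm, hv.2 j]
        rfl
      · rintro ⟨h1, h2⟩
        have h3 : ∀ j, ∃ t, fa 0 i (z.2 j) = some t ∧ jm t = w.2 j := by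
          intro j
          have h4 : fa 1 i (jm (z.2 j)) = some (w.2 j) := h2 j
          rw [fa_jm, Option.map_eq_some_iff] at h4
          exact h4
        choose t ht ht' using h3
        refine ⟨(z.1, t), ?_, ?_⟩
        · rw [pr_eq_some, tup_eq_some, tup_eq_some]
          exact ⟨fun i => i.elim0, ht⟩
        · refine congrArg some (Prod.ext (Option.some.inj h1) (funext ht'))
    · rw [Finsupp.supported_univ]
      trivial
  · rw [hu] at h
    refine Finsupp.mapDomain_injective hinj ?_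
    rw [h, Finsupp.mapDomain_zero]
  · refine ⟨Finsupp.comapDomain (fun z : TT 0 d => (((0 : Multiset Sj), jm ∘ z.2) : MT d)) y
      hinj.injOn, ⟨⟨fun σ X Y => ?_, fun σ X Y => ?_, fun X Y i j hij hY => ?_⟩, ?_⟩, ?_⟩
    · rw [Subsingleton.elim (X ∘ σ) X]
    · exact hy.1.1 σ 0 (jm ∘ Y)
    · exact hy.1.2 0 (jm ∘ Y) i j hij (congrArg jm hY)
    · rintro ⟨X, Y⟩ hz
      have h0 := Finsupp.mem_support_iff.1 hz
      rw [Finsupp.comapDomain_apply] at h0
      have h1 : y ((0 : Multiset Sj), jm ∘ Y) ≠ 0 := h0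
      obtain ⟨-, -, h2⟩ := k1_supp k hy h1
      refine ⟨fun i => i.elim0, fun j => ⟨?_, ?_⟩⟩
      · exact (exc_jm _).symm.trans (h2 j).1
      · exact (Lv_jm _).1 (h2 j).2.1
    · rw [hu]
      refine Finsupp.mapDomain_comapDomain _ hinj y ?_
      rintro ⟨X, Y⟩ hz
      obtain ⟨h1, -, h2⟩ := k1_supp k hy (Finsupp.mem_support_iff.1 hz)
      have h3 : ∀ j, ∃ t, Y j = jm t := fun j => (InB_iff _).1 (h2 j).2.2
      choose t ht using h3
      refine ⟨(Fin.elim0, t), Prod.ext (Multiset.card_eq_zero.1 h1).symm (funext fun j => ?_)⟩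
      exact (ht j).symm

end BPN.E
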