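import Pool.Agent.BPN.E.K1
import Pool.Agent.BPN.E.Ctr
import Pool.Agent.BPN.E.Inj

/-!
# Part (E), module K1H: decalage `S^d` at level `m+1` from `Λ^d` at level `m` (project BPN, helper30)

PROOF of `K1_HB`.  `e0 = n - (d - 1)`, `d = b + 1`.  `HB (La k d m) e0 N` gives `HB (C1 k 0 d (m+1)) e0 N`
(`K1_first`, `HB_iso`).  `K1_ses k 0 b (m+1)` and `Z1 k 0 (b+1) = ⊥` (`K1_bot`) give `HB (Z1 k 1 b (m+1)) e0 N`
(`HB_quot`).  By induction on `a ≥ 1` (with `a + b = d`): `HB (Z1 k a b (m+1)) (e0 + a - 1) N`, from `K1_ses` with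
`C1 k a (b+1)` acyclic (`C1_acy`, `0 < a`, `1 ≤ m + 1`) and `HB_quot`.  So `HB (Z1 k d 0 (m+1)) n N`; `K1_last` and
`HB_quot` (`C1 k d 0` acyclic) give `HB (fun e => Sy k d (m+1) (e-1)) (n+1) N`, i.e. `HB (Sy k d (m+1)) n N` after
reindexing.
PROOF of `K1_Inj`: the same with `Inj_iso`, `Inj_quot` (two levels `m ≤ m'`; `GM_mono`, `GT_mono`, `Lv_mono`).
-/

namespace BPN.E

variable (k : Type) [Field k]

private lemma HB_shift1 {M : Type} [AddCommGroup M] [Module k M] {D : M →ₗ[k] M}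
    {G : ℤ → Submodule k M} {n : ℤ} {N : ℕ} (h : HB D (fun e => G (e - 1)) (n + 1) N) :
    HB D G n N := by
  intro W _ _ _ ζ h1 h2
  have h3 := h W ζ (fun w => by
    show ζ w ∈ G (n + 1 - 1)
    rw [add_sub_cancel_right]
    exact h1 w) h2
  have h4 : Bdr D (fun e => G (e - 1)) (n + 1) = Bdr D G n := by
    unfold Bdr
    show Submodule.map D (G (n + 1 + 1 - 1)) = _
    rw [add_sub_cancel_right]
  rw [h4] at h3
  exact h3

private lemma Inj_shift1 {M : Type} [AddCommGroup M] [Module k M] {D : M →ₗ[k] M}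
    {G' G : ℤ → Submodule k M} {n : ℤ}
    (h : InjP D (fun e => G' (e - 1)) (fun e => G (e - 1)) (n + 1)) : InjP D G' G n := by
  rintro z hz hdz ⟨w, hw, hdw⟩
  obtain ⟨w', hw', hdw'⟩ := h z (by
    show z ∈ G' (n + 1 - 1)
    rw [add_sub_cancel_right]
    exact hz) hdz ⟨w, by
      show w ∈ G (n + 1 + 1 - 1)
      rw [add_sub_cancel_right]
      exact hw, hdw⟩
  refine ⟨w', ?_, hdw'⟩
  have h1 : w' ∈ G' (n + 1 + 1 - 1) := hw'
  rw [add_sub_cancel_right] at h1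
  exact h1

private lemma one_le1 (m : ℕ∞) : 1 ≤ m + 1 := le_add_self

private lemma La_cx {d : ℕ} (hd : 0 < d) (m : ℕ∞) : IsCx (bd k (FT 0 0 d)) (La k d m) :=
  isCx_GT k (by omega) (fun _ _ _ h h' => Lv_fa h h') (fun _ _ _ h h' => Lv_fa h h')

theorem K1_HB {d : ℕ} (hd : 0 < d) (m : ℕ∞) (n : ℤ) (N : ℕ)
    (h : HB (bd k (FT 0 0 d)) (La k d m) (n - ((d : ℤ) - 1)) N) :
    HB (bd k (FM 0 0)) (Sy k d (m + 1)) n N := by
  have hM := one_le1 m
  obtain ⟨f1, f2, f3, f4⟩ := K1_first k hd m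
  have h0 : HB (bd k (FM 1 d)) (C1 k 0 d (m + 1)) (n - ((d : ℤ) - 1)) N :=
    (HB_iso (f := u1 k d) f1 f2 f3 f4 (La_cx k hd m).dG).1 h
  have key : ∀ a b : ℕ, a + 1 + b = d →
      HB (bd k (FM 1 b)) (Z1 k (a + 1) b (m + 1)) (n - ((d : ℤ) - 1) + a) N := by
    intro a
    induction a with
    | zero =>
      intro b hb
      have hb' : d = b + 1 := by omega
      subst hb'
      have h1 : HB (bd k (FM 1 (b + 1))) (Z1 k 0 (b + 1) (m + 1))
          (n - (((b + 1 : ℕ) : ℤ) - 1) - 1) 0 := by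
        apply HB_of_acy
        intro z hz _
        rw [K1_bot, Submodule.mem_bot] at hz
        exact ⟨0, zero_mem _, by rw [hz, map_zero]⟩
      have h2 := HB_quot (K1_ses k 0 b (m + 1)) h0 h1
      simpa using h2
    | succ a ih =>
      intro b hb
      have h1 := ih (b + 1) (by omega)
      have h2 : HB (bd k (FM 1 (b + 1))) (C1 k (a + 1) (b + 1) (m + 1))
          (n - ((d : ℤ) - 1) + ((a + 1 : ℕ) : ℤ)) 0 :=
        HB_of_acy (C1_acy k (Nat.succ_pos a) hM _)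
      have h3 : n - ((d : ℤ) - 1) + a = n - ((d : ℤ) - 1) + ((a + 1 : ℕ) : ℤ) - 1 := by
        push_cast
        ring
      rw [h3] at h1
      have h4 := HB_quot (K1_ses k (a + 1) b (m + 1)) h2 h1
      rwa [zero_add] at h4
  obtain ⟨a, rfl⟩ : ∃ a, d = a + 1 := ⟨d - 1, by omega⟩
  have h1 := key a 0 (by omega)
  have h2 : n - (((a + 1 : ℕ) : ℤ) - 1) + a = n + 1 - 1 := by
    push_cast
    ring
  rw [h2] at h1
  have h3 : HB (bd k (FM 1 0)) (C1 k (a + 1) 0 (m + 1)) (n + 1) 0 :=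
    HB_of_acy (C1_acy k (Nat.succ_pos a) hM _)
  have h4 := HB_quot (K1_last k hd (m + 1)) h3 h1
  rw [zero_add] at h4
  exact HB_shift1 k h4

theorem K1_Inj {d : ℕ} (hd : 0 < d) {m m' : ℕ∞} (hm : m ≤ m') (n : ℤ)
    (h : InjP (bd k (FT 0 0 d)) (La k d m) (La k d m') (n - ((d : ℤ) - 1))) :
    InjP (bd k (FM 0 0)) (Sy k d (m + 1)) (Sy k d (m' + 1)) n := by
  have hM := one_le1 m
  have hmm : m + 1 ≤ m' + 1 := add_le_add_left hm 1
  have hC : ∀ a b e, C1 k a b (m + 1) e ≤ C1 k a b (m' + 1) e := fun a b e =>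
    GM_mono (fun s hs => Lv_mono hmm hs) (fun s hs => ⟨Lv_mono hmm hs.1, hs.2⟩) e
  have hZ : ∀ a b e, Z1 k a b (m + 1) e ≤ Z1 k a b (m' + 1) e := by
    intro a b e
    cases b with
    | zero => exact inf_le_inf_right _ (hC _ _ _)
    | succ b => exact inf_le_inf_right _ (hC _ _ _)
  have hG : ∀ e, La k d m e ≤ La k d m' e := fun e =>
    GT_mono (fun s hs => Lv_mono hm hs) (fun s hs => Lv_mono hm hs) e
  obtain ⟨f1, f2, f3, f4⟩ := K1_first k hd m
  obtain ⟨g1, g2, g3, g4⟩ := K1_first k hd m'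
  have h0 : InjP (bd k (FM 1 d)) (C1 k 0 d (m + 1)) (C1 k 0 d (m' + 1)) (n - ((d : ℤ) - 1)) :=
    Inj_iso (f := u1 k d) f1 g1 g2 hG (La_cx k hd m').dG g3 f4 g4 h
  have key : ∀ a b : ℕ, a + 1 + b = d →
      InjP (bd k (FM 1 b)) (Z1 k (a + 1) b (m + 1)) (Z1 k (a + 1) b (m' + 1))
        (n - ((d : ℤ) - 1) + a) := by
    intro a
    induction a with
    | zero =>
      intro b hb
      have hb' : d = b + 1 := by omega
      subst hb'
      have h2 := Inj_mid_sub (K1_ses k 0 b (m + 1)) (K1_ses k 0 b (m' + 1)) (hC _ _)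
        (fun z hz _ => by
          rw [K1_bot, Submodule.mem_bot] at hz
          exact ⟨0, zero_mem _, by rw [hz, map_zero]⟩)
        (fun z hz _ => by
          rw [K1_bot, Submodule.mem_bot] at hz
          exact ⟨0, zero_mem _, by rw [hz, map_zero]⟩) h0
      simpa using h2
    | succ a ih =>
      intro b hb
      have h1 := ih (b + 1) (by omega)
      have h3 : n - ((d : ℤ) - 1) + a = n - ((d : ℤ) - 1) + ((a + 1 : ℕ) : ℤ) - 1 := by
        push_cast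
        ring
      rw [h3] at h1
      exact Inj_quot (K1_ses k (a + 1) b (m + 1)) (K1_ses k (a + 1) b (m' + 1)) (hZ _ _) (hC _ _)
        (C1_acy k (Nat.succ_pos a) hM _) h1
  obtain ⟨a, rfl⟩ : ∃ a, d = a + 1 := ⟨d - 1, by omega⟩
  have h1 := key a 0 (by omega)
  have h2 : n - (((a + 1 : ℕ) : ℤ) - 1) + a = n + 1 - 1 := by
    push_cast
    ring
  rw [h2] at h1
  exact Inj_shift1 k (Inj_quot (K1_last k hd (m + 1)) (K1_last k hd (m' + 1)) (hZ _ _) (hC _ _)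
    (C1_acy k (Nat.succ_pos a) hM _) h1)

end BPN.E
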