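import Pool.Agent.BPN.E.KDefs
import Pool.Agent.BPN.E.DqLem
import Pool.Agent.BPN.E.DqNat

/-!
# Part (E), module K2: the decalage sequences `Λ^d(Q) ← Λ^d(W) ← Γ^1(U) ⊗ Λ^(d-1)(W) ← ..` (helper30)

`C2 b a M = Γ^b(U) ⊗ Λ^a(W)`: finitely supported functions on `(x, y) ∈ Sj^b × Sj^a` (same excess, level
`M`), symmetric in `x`, alternating in `y`, `x_i ∈ InB`; differential `bd (FT 1 b a)`; the operators
`Dq 1` map `C2 (b+1) a` to `C2 b (a+1)`.

PROOFS.
* `K2_ses`: `c₁, c₃`: `isCx_GT` (closure: `Lv_fa`, `InB_fa`), `isCx_ker`.  `Dq` commutes with `bd`: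
  `lin_bd` (sets `univ`, `LFz_FT`) and `Dq_push_one`; for the last kernel (`b = 0`) `q2` commutes with the
  differentials `bd (FT 1 0 a)`, `bd (FT 0 0 a)` by `push_bd` and `d0_fa`.
  `gG`: `Dq_mem`, `Dq_support` (entries of points of the support of `Dq φ` are entries of points of the
  support of `φ`; `b + 1` first entries of `iot` are `InB`, so `x` and `y_i` are `InB`), and it lies in the
  kernel: for `b ≥ 1` `Dq_comp`, for `b = 0`: every point `y` of the support of `Dq φ` has an entry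
  `y_i ∈ InB`, so `tup (fa 0 0) y = none` (`d0_none_iff`, `tup_eq_none`, `push_eq_zero`).
  `gsur`: `Dq_exact` (`b ≥ 1`, write `b = b' + 1`, `q = 1`) resp. `Dq_exact_small` (`b = 0`) with `O = InB`.  The
  hypothesis `hc` is void for `b ≥ 1` (a tuple of positive length has an entry of multiplicity `≥ 1`);
  for `b = 0` it says `φ (x, y) = 0` if no `y_j` is `InB`: from `q2 φ = 0`, because `tup (fa 0 0)` is
  injective on the tuples without entries in `InB` (`d0_sec`), so `(q2 φ)(d_0 y) = φ y`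
  (`push_apply`; points with an entry in `InB` are not mapped).  The support condition given by
  `Dq_exact` yields the conditions on excess, level and `InB`.
* `K2_bot`: `Dq_inj0` (`hc` void).
* `K2_last`: `gsur`: for `φ ∈ La (e-1)` take `ψ = push (pr (tup 0 ..) (tup d (act (sg 0)))) φ`, then
  `q2 ψ = φ` (`s0_spec`), excess `e`, level: `Lv_d0`.
* `K2_first`: `u = push (fun z => some (jm ∘ z.1, z.2))`: `fa_jm`, `exc_jm`, `Lv_jm`, `jm_inj`, `InB_iff`.
-/

namespace BPN.E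

variable (k : Type) [Field k]

/-! ### Auxiliary lemmas -/

private theorem k2_univ {Z : Type} (φ : Z →₀ k) : φ ∈ Finsupp.supported k k (Set.univ : Set Z) := by
  rw [Finsupp.supported_univ]
  trivial

private theorem k2_LFP {c b a : ℕ} (h : 0 < b + a) : LFP (FT c b a) Set.univ Set.univ :=
  ⟨fun z _ => LFz_FT h z, fun _ _ _ _ _ => trivial⟩

private theorem k2_cx {b a : ℕ} (h : 0 < b + a) (M : ℕ∞) :
    IsCx (bd k (FT 1 b a)) (C2 k b a M) :=
  isCx_GT k h (fun _ _ _ h1 h2 => ⟨Lv_fa h1.1 h2, InB_fa h1.2 h2⟩) fun _ _ _ h1 h2 => Lv_fa h1 h2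

private theorem k2_Dbd (b a : ℕ) (x : TT (b + 1) a →₀ k) :
    Dq k 1 b a (bd k (FT 1 (b + 1) a) x) = bd k (FT 1 b (a + 1)) (Dq k 1 b a x) := by
  refine lin_bd (P := Set.univ) (P' := Set.univ) (k2_LFP (by omega)) (k2_LFP (by omega))
    (Dq k 1 b a) (k2_univ k x) (k2_univ k _) fun i => ?_
  exact Dq_push_one (fa 1 i) x

private theorem k2_qbd {a : ℕ} (ha : 0 < a) (x : TT 0 a →₀ k) :
    q2 k a (bd k (FT 1 0 a) x) = bd k (FT 0 0 a) (q2 k a x) := by
  refine push_bd (P := Set.univ) (P' := Set.univ) (k2_LFP (by omega)) (k2_LFP (by omega))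
    (fun _ _ _ _ => trivial) (fun i z _ => ?_) (k2_univ k x)
  unfold FT
  rw [pr_bind, pr_bind]
  simp only [tup_bind, d0_fa]

private theorem k2_mem {b a b' a' : ℕ} {M : ℕ∞} {e : ℤ} {ψ : TT b a →₀ k} {φ : TT b' a' →₀ k}
    (hψ : ψ ∈ SA k Sj b a) (hφ : φ ∈ C2 k b' a' M e)
    (h : ∀ x y, ψ (x, y) ≠ 0 → (∀ i, InB (x i)) ∧ ∃ x' y', φ (x', y') ≠ 0 ∧
      ∀ s, ((∃ i, x i = s) ∨ ∃ j, y j = s) ↔ ((∃ i, x' i = s) ∨ ∃ j, y' j = s)) :
    ψ ∈ C2 k b a M e := by
  refine ⟨hψ, ?_⟩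
  rintro ⟨x, y⟩ hz
  obtain ⟨h1, x', y', h2, h3⟩ := h x y (Finsupp.mem_support_iff.1 hz)
  have h4 := hφ.2 (Finsupp.mem_support_iff.2 h2)
  obtain ⟨h5, h6⟩ := h4
  have h7 : ∀ s, ((∃ i, x i = s) ∨ ∃ j, y j = s) → exc s = e ∧ Lv M s := by
    intro s hs
    rcases (h3 s).1 hs with ⟨i, rfl⟩ | ⟨j, rfl⟩
    · exact ⟨(h5 i).1, (h5 i).2.1⟩
    · exact h6 j
  exact ⟨fun i => ⟨(h7 _ (Or.inl ⟨i, rfl⟩)).1, (h7 _ (Or.inl ⟨i, rfl⟩)).2, h1 i⟩,
    fun j => h7 _ (Or.inr ⟨j, rfl⟩)⟩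

private theorem k2_supp {b a : ℕ} {M : ℕ∞} {e : ℤ} {φ : TT b a →₀ k} (hφ : φ ∈ C2 k b a M e)
    {x : Fin b → Sj} {y : Fin a → Sj} (h : φ (x, y) ≠ 0) :
    (∀ i, exc (x i) = e ∧ Lv M (x i) ∧ InB (x i)) ∧ ∀ j, exc (y j) = e ∧ Lv M (y j) :=
  hφ.2 (Finsupp.mem_support_iff.2 h)

open Classical in
private theorem k2_card {b : ℕ} (x : Fin (b + 1) → Sj)
    (h : ∀ s, (Finset.univ.filter fun i => x i = s).card < 1) : False := by
  have h1 := h (x 0)
  rw [Nat.lt_one_iff, Finset.card_eq_zero] at h1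
  have h2 : (0 : Fin (b + 1)) ∈ Finset.univ.filter fun i => x i = x 0 :=
    Finset.mem_filter.2 ⟨Finset.mem_univ _, rfl⟩
  rw [h1] at h2
  simp at h2

private theorem k2_Dmem {b a : ℕ} {M : ℕ∞} {e : ℤ} {y : TT (b + 1) a →₀ k}
    (hy : y ∈ C2 k (b + 1) a M e) : Dq k 1 b a y ∈ C2 k b (a + 1) M e ∧
      ∀ z, Dq k 1 b a y z ≠ 0 → ∃ i, InB (z.2 i) := by
  have key : ∀ z, Dq k 1 b a y z ≠ 0 → ((∀ i, exc (z.1 i) = e ∧ Lv M (z.1 i) ∧ InB (z.1 i)) ∧
      ∀ j, exc (z.2 j) = e ∧ Lv M (z.2 j)) ∧ ∃ i, InB (z.2 i) := by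
    rintro ⟨x, v⟩ hz
    obtain ⟨i, hi⟩ := Dq_support one_pos hz
    obtain ⟨h1, h2⟩ := k2_supp k hy hi
    have h3 := h1 (Fin.natAdd b 0)
    simp only [Fin.append_right] at h3
    refine ⟨⟨fun t => ?_, fun t => ?_⟩, i, h3.2.2⟩
    · have h4 := h1 (Fin.castAdd 1 t)
      simp only [Fin.append_left] at h4
      exact h4
    · rcases Fin.eq_self_or_eq_succAbove i t with rfl | ⟨t', rfl⟩
      · exact ⟨h3.1, h3.2.1⟩
      · exact h2 t'
  refine ⟨⟨Dq_mem one_pos hy.1, ?_⟩, fun z hz => (key z hz).2⟩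
  intro z hz
  exact (key z (Finsupp.mem_support_iff.1 hz)).1

private theorem k2_qinj {a : ℕ} {φ : TT 0 a →₀ k} (hq : q2 k a φ = 0) (x : Fin 0 → Sj)
    (y : Fin a → Sj) (hy : ∀ j, ¬ InB (y j)) : φ (x, y) = 0 := by
  classical
  by_contra hne
  have h1 : ∀ j, ∃ t, fa 0 0 (y j) = some t := fun j =>
    Option.ne_none_iff_exists'.1 fun h => hy j ((d0_none_iff _).1 h)
  choose t ht using h1
  have h2 := congrArg (fun ψ : TT 0 a →₀ k => ψ (Fin.elim0, t)) hq
  simp only [q2, push_apply, Finsupp.zero_apply] at h2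
  have h3 : (φ.support.filter fun z => pr (tup 0 (fa 0 0)) (tup a (fa 0 0)) z =
      some (Fin.elim0, t)) = {(x, y)} := by
    ext z
    rw [Finset.mem_filter, Finset.mem_singleton, Finsupp.mem_support_iff, pr_eq_some, tup_eq_some,
      tup_eq_some]
    constructor
    · rintro ⟨h4, h5, h6⟩
      refine Prod.ext (Subsingleton.elim _ _) (funext fun j => ?_)
      have h7 : ¬ InB (z.2 j) := fun h => by
        have h8 := h6 j
        rw [(d0_none_iff _).2 h] at h8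
        simp at h8
      have h8 := d0_sec h7
      have h9 := d0_sec (hy j)
      rw [h6 j] at h8
      rw [ht j] at h9
      exact Option.some.inj (h8.symm.trans h9)
    · rintro rfl
      exact ⟨hne, fun i => i.elim0, ht⟩
  have h4 := (Finset.sum_congr h3 fun _ _ => rfl).symm.trans ((Finset.sum_congr (by
    ext z; simp only [Finset.mem_filter]) fun _ _ => rfl).trans h2)
  rw [Finset.sum_singleton] at h4
  exact hne h4

private theorem k2_sur (b a : ℕ) (M : ℕ∞) (e : ℤ) (φ : TT b (a + 1) →₀ k)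
    (hφ : φ ∈ Z2 k b (a + 1) M e) : ∃ ψ ∈ C2 k (b + 1) a M e, Dq k 1 b a ψ = φ := by
  classical
  cases b with
  | zero =>
    obtain ⟨h1, h2⟩ := hφ
    obtain ⟨ψ, hψ, h3, h4⟩ := Dq_exact_small (q := 1) InB (b := 0) (a := a) one_pos h1.1
      (fun x y h i => i.elim0) (fun x y hy => k2_qinj k h2 x y hy)
    exact ⟨ψ, k2_mem k hψ h1 h4, h3⟩
  | succ b =>
    obtain ⟨h1, h2⟩ := hφ
    obtain ⟨ψ, hψ, h3, h4⟩ := Dq_exact (q := 1) one_pos InB (b := b) (a := a) h1.1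
      (fun x y h i => ((k2_supp k h1 h).1 i).2.2)
      (fun x y _ hx => (k2_card x (fun s => by convert hx s)).elim) h2
    exact ⟨ψ, k2_mem k hψ h1 h4, h3⟩

/-! ### The sequences -/

theorem K2_ses (b a : ℕ) (M : ℕ∞) : SES (bd k (FT 1 (b + 1) a)) (Z2 k (b + 1) a M)
    (bd k (FT 1 (b + 1) a)) (C2 k (b + 1) a M) (bd k (FT 1 b (a + 1))) (Z2 k b (a + 1) M)
    LinearMap.id (Dq k 1 b a) := by
  have hc : IsCx (bd k (FT 1 (b + 1) a)) (C2 k (b + 1) a M) := k2_cx k (by omega) M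
  have hc' : IsCx (bd k (FT 1 b (a + 1))) (C2 k b (a + 1) M) := k2_cx k (by omega) M
  refine
    { c₁ := isCx_ker (d' := bd k (FT 1 b (a + 1))) hc (Dq k 1 b a) fun e x _ => k2_Dbd k b a x
      c₂ := hc
      c₃ := ?_
      fG := fun e x hx => hx.1
      gG := fun e y hy => ?_
      fd := fun e x _ => rfl
      gd := fun e y _ => (k2_Dbd k b a y).symm
      finj := fun e x _ h => h
      gf := fun e x hx => hx.2
      ex := fun e y hy h => ⟨y, ⟨hy, h⟩, rfl⟩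
      gsur := fun e z hz => k2_sur k b a M e z hz }
  · cases b with
    | zero =>
      exact isCx_ker (d' := bd k (FT 0 0 (a + 1))) hc' (q2 k (a + 1)) fun e x _ =>
        k2_qbd k (Nat.succ_pos a) x
    | succ b =>
      exact isCx_ker (d' := bd k (FT 1 b (a + 1 + 1))) hc' (Dq k 1 b (a + 1)) fun e x _ =>
        k2_Dbd k b (a + 1) x
  · obtain ⟨h1, h2⟩ := k2_Dmem k hy
    cases b with
    | zero =>
      refine ⟨h1, ?_⟩
      refine push_eq_zero fun z hz => ?_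
      obtain ⟨i, hi⟩ := h2 z (Finsupp.mem_support_iff.1 hz)
      exact pr_eq_none.2 (Or.inr (tup_eq_none.2 ⟨i, (d0_none_iff _).2 hi⟩))
    | succ b => exact ⟨h1, Dq_comp one_pos hy.1⟩

theorem K2_bot (b : ℕ) (M : ℕ∞) (e : ℤ) : Z2 k (b + 1) 0 M e = ⊥ := by
  classical
  rw [eq_bot_iff]
  rintro x ⟨h1, h2⟩
  rw [Submodule.mem_bot]
  exact Dq_inj0 one_pos h1.1 (fun x y hx => (k2_card x (fun s => by convert hx s)).elim) h2

theorem K2_last {d : ℕ} (hd : 0 < d) (M : ℕ∞) : SES (bd k (FT 1 0 d)) (Z2 k 0 d M)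
    (bd k (FT 1 0 d)) (C2 k 0 d M) (bd k (FT 0 0 d)) (fun e => La k d M (e - 1))
    LinearMap.id (q2 k d) := by
  have hc : IsCx (bd k (FT 1 0 d)) (C2 k 0 d M) := k2_cx k (by omega) M
  have hL : IsCx (bd k (FT 0 0 d)) (La k d M) :=
    isCx_GT k (by omega) (fun _ _ _ h1 h2 => Lv_fa h1 h2) fun _ _ _ h1 h2 => Lv_fa h1 h2
  refine
    { c₁ := isCx_ker (d' := bd k (FT 0 0 d)) hc (q2 k d) fun e x _ => k2_qbd k hd x
      c₂ := hc
      c₃ := ⟨fun e x hx => hL.dG (e - 1) x hx, fun e x hx => hL.dd (e - 1) x hx⟩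
      fG := fun e x hx => hx.1
      gG := fun e y hy => ?_
      fd := fun e x _ => rfl
      gd := fun e y _ => (k2_qbd k hd y).symm
      finj := fun e x _ h => h
      gf := fun e x hx => hx.2
      ex := fun e y hy h => ⟨y, ⟨hy, h⟩, rfl⟩
      gsur := fun e z hz => ?_ }
  · refine ⟨push_SA _ _ hy.1, ?_⟩
    refine push_supported (P := {z | (∀ i, exc (z.1 i) = e ∧ (Lv M (z.1 i) ∧ InB (z.1 i))) ∧
      ∀ j, exc (z.2 j) = e ∧ Lv M (z.2 j)}) (fun z hz z' hz' => ?_) hy.2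
    rw [pr_eq_some, tup_eq_some, tup_eq_some] at hz'
    refine ⟨fun i => i.elim0, fun j => ⟨?_, Lv_fa (hz.2 j).2 (hz'.2 j)⟩⟩
    rw [exc_fa (hz'.2 j), (hz.2 j).1]
  · refine ⟨push k (pr (tup 0 (act (sg 0))) (tup d (act (sg 0)))) z,
      ⟨push_SA _ _ hz.1, ?_⟩, ?_⟩
    · refine push_supported (P := {z | (∀ i, exc (z.1 i) = e - 1 ∧ Lv M (z.1 i)) ∧
        ∀ j, exc (z.2 j) = e - 1 ∧ Lv M (z.2 j)}) (fun z hz z' hz' => ?_) hz.2
      rw [pr_eq_some, tup_eq_some, tup_eq_some] at hz'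
      refine ⟨fun i => i.elim0, fun j => ?_⟩
      obtain ⟨s, hs, -, hs'⟩ := s0_spec (z.2 j)
      have h1 : z'.2 j = s := Option.some.inj ((hz'.2 j).symm.trans hs)
      rw [h1]
      refine ⟨?_, (Lv_d0 hs').2 (hz.2 j).2⟩
      rw [exc_sg hs, (hz.2 j).1]
      ring
    · have h1 : ∀ s : Sj, (act (sg 0) s).bind (fa 0 0) = some s := by
        intro s
        obtain ⟨t, ht, -, ht'⟩ := s0_spec s
        rw [ht]
        exact ht'
      unfold q2
      rw [push_push]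
      have h2 : ∀ w : TT 0 d, (pr (tup 0 (act (sg 0))) (tup d (act (sg 0))) w).bind
          (pr (tup 0 (fa 0 0)) (tup d (fa 0 0))) = some w := by
        intro w
        rw [pr_bind, pr_eq_some]
        simp only [tup_bind, h1, tup_eq_some, implies_true, and_self]
      simp only [h2]
      exact push_some z

/-- The identification of `Γ^d` of the sphere at level `m` with `Γ^d(U)` at level `m + 1`. -/
noncomputable def u2 (d : ℕ) : (TT d 0 →₀ k) →ₗ[k] (TT d 0 →₀ k) :=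
  push k fun z => some (jm ∘ z.1, z.2)

theorem K2_first {d : ℕ} (hd : 0 < d) (m : ℕ∞) :
    (∀ e x, x ∈ Ga k d m e → u2 k d x ∈ C2 k d 0 (m + 1) e) ∧
    (∀ e x, x ∈ Ga k d m e → bd k (FT 1 d 0) (u2 k d x) = u2 k d (bd k (FT 0 d 0) x)) ∧
    (∀ e x, x ∈ Ga k d m e → u2 k d x = 0 → x = 0) ∧
    (∀ e y, y ∈ C2 k d 0 (m + 1) e → ∃ x ∈ Ga k d m e, u2 k d x = y) := by
  have hu : (fun z : TT d 0 => some ((jm ∘ z.1, z.2) : TT d 0)) =
      pr (tup d fun s => some (jm s)) (tup 0 fun s => some (jm s)) := by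
    funext z
    refine (pr_eq_some.2 ⟨tup_eq_some.2 fun i => rfl, tup_eq_some.2 fun i => i.elim0⟩).symm
  have hinj : Function.Injective fun z : TT d 0 => ((jm ∘ z.1, z.2) : TT d 0) := by
    rintro ⟨x, y⟩ ⟨x', y'⟩ h
    have h1 : jm ∘ x = jm ∘ x' := congrArg Prod.fst h
    refine Prod.ext (funext fun i => jm_inj (congrFun h1 i)) (Subsingleton.elim _ _)
  refine ⟨fun e x hx => ?_, fun e x _ => ?_, fun e x _ h => ?_, fun e y hy => ?_⟩
  · refine ⟨?_, ?_⟩
    · unfold u2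
      rw [hu]
      exact push_SA _ _ hx.1
    · refine push_supported (P := {z | (∀ i, exc (z.1 i) = e ∧ Lv m (z.1 i)) ∧
        ∀ j, exc (z.2 j) = e ∧ Lv m (z.2 j)}) (fun z hz z' hz' => ?_) hx.2
      have h1 : z' = (jm ∘ z.1, z.2) := (Option.some.inj hz').symm
      rw [h1]
      refine ⟨fun i => ?_, fun j => j.elim0⟩
      exact ⟨(exc_jm _).trans (hz.1 i).1, (Lv_jm _).2 (hz.1 i).2, (InB_iff _).2 ⟨_, rfl⟩⟩
  · unfold u2
    symm
    refine push_bd (P := Set.univ) (P' := Set.univ) (k2_LFP (by omega)) (k2_LFP (by omega))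
      (fun _ _ _ _ => trivial) (fun i z _ => ?_) (k2_univ k x)
    rw [hu, show some ((jm ∘ z.1, z.2) : TT d 0) =
      pr (tup d fun s => some (jm s)) (tup 0 fun s => some (jm s)) z from congrFun hu z]
    unfold FT
    rw [pr_bind, pr_bind]
    have h1 : ∀ s : Sj, ((fa 0 i s).bind fun s => some (jm s)) =
        (some (jm s)).bind (fa 1 i) := by
      intro s
      rw [Option.bind_some, fa_jm]
      cases fa 0 i s <;> rfl
    simp only [tup_bind, h1]
  · unfold u2 at h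
    rw [push_total] at h
    refine Finsupp.mapDomain_injective hinj ?_
    rw [h, Finsupp.mapDomain_zero]
  · classical
    obtain ⟨v, hv⟩ : ∃ v : Sj → Sj, ∀ s, InB s → jm (v s) = s := by
      refine ⟨fun s => if h : ∃ t, s = jm t then h.choose else s, fun s hs => ?_⟩
      have h1 := (InB_iff s).1 hs
      show jm (if h : ∃ t, s = jm t then h.choose else s) = s
      rw [dif_pos h1]
      exact h1.choose_spec.symm
    refine ⟨push k (pr (tup d fun s => some (v s)) (tup 0 fun s => some (v s))) y,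
      ⟨push_SA _ _ hy.1, ?_⟩, ?_⟩
    · refine push_supported (P := {z | (∀ i, exc (z.1 i) = e ∧
        (Lv (m + 1) (z.1 i) ∧ InB (z.1 i))) ∧ ∀ j, exc (z.2 j) = e ∧ Lv (m + 1) (z.2 j)})
        (fun z hz z' hz' => ?_) hy.2
      rw [pr_eq_some, tup_eq_some, tup_eq_some] at hz'
      refine ⟨fun i => ?_, fun j => j.elim0⟩
      obtain ⟨h1, h2, h3⟩ := hz.1 i
      have h4 : z'.1 i = v (z.1 i) := (Option.some.inj (hz'.1 i)).symm
      have h5 := hv _ h3
      rw [h4]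
      refine ⟨?_, ?_⟩
      · rw [← exc_jm, h5, h1]
      · rw [← Lv_jm, h5]
        exact h2
    · unfold u2
      rw [push_push]
      refine (push_congr (g' := fun z => some z) fun z hz => ?_).trans (push_some y)
      have h1 := hy.2 hz
      have h2 : pr (tup d fun s => some (v s)) (tup 0 fun s => some (v s)) z =
          some (v ∘ z.1, v ∘ z.2) :=
        pr_eq_some.2 ⟨tup_eq_some.2 fun i => rfl, tup_eq_some.2 fun i => rfl⟩
      rw [h2]
      refine congrArg some (Prod.ext (funext fun i => hv _ (h1.1 i).2.2) (Subsingleton.elim _ _))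

end BPN.E
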