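import Pool.Agent.BPN.E.KDefs

/-!
# Part (E), module Stb: stable acyclicity of tensor products (project BPN, architect helper30)

PROOF of `C4_acy` (`0 < b`, `0 < a`, level `⊤`).  Let `φ ∈ C4 e` be a cycle of `bd (FT 0 b a)`.  Choose `N ≥ 1`
such that `fa 0 i s = none` for all `i ≥ N` and all entries `s` of all points of the support of `φ`
(`LFz_fa`, finitely many entries).  Apply `bd_stable` with
`h N = pr (tup b (act (sg N))) (tup a (act (sg (N+1))))`.  For `z` in the support: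
* `i < N`: first group `(act (sg N) s).bind (fa 0 i) = (fa 0 i s).bind (act (sg (N-1)))` is `sg_lt 0` with
  `j = N - 1`; second group `sg_lt 0` with `j = N` (`i ≤ N`), target `act (sg N) = act (sg ((N-1)+1))`.
* `i = N`: in the second group `(act (sg (N+1)) s).bind (fa 0 N) = (fa 0 N s).bind (act (sg N)) = none`
  (`sg_lt 0`, `i = j = N`), and `a > 0`.
* `i = N + 1`: first group `sg_succ 0 N`, second group `sg_eq 0 (N+1)`: the result is `some z`.
* `i ≥ N + 2`, `i = i' + 1`: first group (`b > 0`) `sg_gt 0` with `j = N < i'`: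
  `(fa 0 i' s).bind .. = none`.
So `φ = bd f ((-1)^(N+1) push (h N) φ)` and `push (h N) φ ∈ C4 (e+1)` (`push_SA`, `push_supported`, `exc_sg`,
`Lv_top`).
`C3_acy`: the same with `pr (ms (act (sg N))) (tup b (act (sg (N+1))))`.
-/

namespace BPN.E

variable (k : Type) [Field k]

private theorem stb_bd {Z : Type} (S : Finset Z) (Q : Z → ℕ → Prop)
    (h : ∀ z, ∃ N, ∀ i, N ≤ i → Q z i) : ∃ M : ℕ, ∀ z ∈ S, ∀ i, M + 1 ≤ i → Q z i := by
  choose n hn using h
  refine ⟨S.sup n, fun z hz i hi => hn z i ?_⟩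
  have := Finset.le_sup (f := n) hz
  omega

private theorem stb_tup {n : ℕ} (x : Fin n → Sj) :
    ∃ N, ∀ i, N ≤ i → ∀ t, fa 0 i (x t) = none := by
  have h : ∀ t, ∃ N, ∀ i, N ≤ i → fa 0 i (x t) = none := fun t => LFz_fa 0 (x t)
  choose m hm using h
  exact ⟨Finset.univ.sup m, fun i hi t => hm t i ((Finset.le_sup (Finset.mem_univ t)).trans hi)⟩

private theorem stb_ms (x : Multiset Sj) : ∃ N, ∀ i, N ≤ i → ∀ s ∈ x, fa 0 i s = none := by
  classical
  have h : ∀ s, ∃ N, ∀ i, N ≤ i → fa 0 i s = none := fun s => LFz_fa 0 s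
  choose m hm using h
  exact ⟨x.toFinset.sup m, fun i hi s hs => hm s i
    ((Finset.le_sup (Multiset.mem_toFinset.2 hs)).trans hi)⟩

private theorem stb_lt {i j : ℕ} (h : i ≤ j) (s : Sj) :
    (act (sg (j + 1)) s).bind (fa 0 i) = (fa 0 i s).bind (act (sg j)) := sg_lt 0 h s

private theorem stb_gt {i j : ℕ} (h : j < i) (s : Sj) :
    (act (sg j) s).bind (fa 0 (i + 1)) = (fa 0 i s).bind (act (sg j)) := sg_gt 0 h s

private theorem stb_eq (j : ℕ) (s : Sj) : (act (sg j) s).bind (fa 0 j) = some s := sg_eq 0 j s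

private theorem stb_succ (j : ℕ) (s : Sj) : (act (sg j) s).bind (fa 0 (j + 1)) = some s :=
  sg_succ 0 j s

theorem C4_acy {b a : ℕ} (hb : 0 < b) (ha : 0 < a) : Acy (bd k (FT 0 b a)) (C4 k b a ⊤) := by
  intro e φ hφ hcyc
  obtain ⟨M, hM⟩ := stb_bd φ.support (fun (z : TT b a) i => (∀ t, fa 0 i (z.1 t) = none) ∧
    ∀ t, fa 0 i (z.2 t) = none) (fun z => by
      obtain ⟨N, hN⟩ := stb_tup z.1
      obtain ⟨N', hN'⟩ := stb_tup z.2
      exact ⟨max N N', fun i hi => ⟨hN i ((le_max_left _ _).trans hi),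
        hN' i ((le_max_right _ _).trans hi)⟩⟩)
  obtain ⟨hh, hhd⟩ : ∃ hh : ℕ → TT b a → Option (TT b a), hh = fun n =>
      pr (tup b (act (sg n))) (tup a (act (sg (n + 1)))) := ⟨_, rfl⟩
  have hb2 : ∀ n i z, (hh n z).bind (FT 0 b a i) =
      pr (tup b fun s => (act (sg n) s).bind (fa 0 i))
        (tup a fun s => (act (sg (n + 1)) s).bind (fa 0 i)) z := by
    intro n i z
    rw [hhd]
    unfold FT
    rw [pr_bind]
    simp only [tup_bind]
  have hst := bd_stable (k := k) (f := FT 0 b a) (h := hh) (φ := φ) (N := M + 1) (by omega)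
    (fun z hz i hi => by
      unfold FT
      exact pr_eq_none.2 (Or.inl (tup_eq_none.2 ⟨⟨0, hb⟩, (hM z hz i hi).1 _⟩)))
    (fun z hz i hi => by
      rw [hb2]
      have h1 : (FT 0 b a i z).bind (hh (M + 1 - 1)) =
          pr (tup b fun s => (fa 0 i s).bind (act (sg M)))
            (tup a fun s => (fa 0 i s).bind (act (sg (M + 1)))) z := by
        rw [hhd, Nat.add_sub_cancel]
        unfold FT
        dsimp only
        rw [pr_bind]
        simp only [tup_bind]
      rw [h1]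
      have h2 : (fun s => (act (sg (M + 1)) s).bind (fa 0 i)) =
          fun s => (fa 0 i s).bind (act (sg M)) := funext fun s => stb_lt (by omega) s
      have h3 : (fun s => (act (sg (M + 1 + 1)) s).bind (fa 0 i)) =
          fun s => (fa 0 i s).bind (act (sg (M + 1))) := funext fun s => stb_lt (by omega) s
      rw [h2, h3])
    (fun z hz => by
      rw [hb2]
      refine pr_eq_none.2 (Or.inr (tup_eq_none.2 ⟨⟨0, ha⟩, ?_⟩))
      rw [stb_lt le_rfl, (hM z hz (M + 1) le_rfl).2]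
      rfl)
    (fun z hz => by
      rw [hb2]
      rw [pr_eq_some, tup_eq_some, tup_eq_some]
      exact ⟨fun t => stb_succ _ _, fun t => stb_eq _ _⟩)
    (fun z hz i hi => by
      obtain ⟨i', rfl⟩ : ∃ i', i = i' + 1 := ⟨i - 1, by omega⟩
      rw [hb2]
      refine pr_eq_none.2 (Or.inl (tup_eq_none.2 ⟨⟨0, hb⟩, ?_⟩))
      rw [stb_gt (by omega), (hM z hz i' (by omega)).1]
      rfl)
    hcyc
  refine ⟨_, ?_, hst⟩
  suffices hmem : push k (hh (M + 1)) φ ∈ C4 k b a ⊤ (e + 1) by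
    exact zsmul_mem hmem _
  refine ⟨?_, ?_⟩
  · rw [hhd]
    exact push_SA _ _ hφ.1
  · refine push_supported (P := {z : TT b a | (∀ i, exc (z.1 i) = e ∧ Lv ⊤ (z.1 i)) ∧
      ∀ j, exc (z.2 j) = e ∧ Lv ⊤ (z.2 j)}) ?_ hφ.2
    intro z hz z' h1
    rw [hhd, pr_eq_some, tup_eq_some, tup_eq_some] at h1
    exact ⟨fun t => ⟨by rw [exc_sg (h1.1 t), (hz.1 t).1], Lv_top _⟩,
      fun t => ⟨by rw [exc_sg (h1.2 t), (hz.2 t).1], Lv_top _⟩⟩

theorem C3_acy {a b : ℕ} (ha : 0 < a) (hb : 0 < b) : Acy (bd k (FM 0 b)) (C3 k a b ⊤) := by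
  intro e φ hφ hcyc
  have hcard : ∀ z ∈ φ.support, ∃ s, s ∈ z.1 := by
    intro z hz
    have h1 := (Finsupp.mem_supported k φ).1 hφ.2 hz
    have h2 : Multiset.card z.1 = a := h1.1
    exact Multiset.card_pos_iff_exists_mem.1 (by omega)
  obtain ⟨M, hM⟩ := stb_bd φ.support (fun (z : MT b) i => (∀ s ∈ z.1, fa 0 i s = none) ∧
    ∀ t, fa 0 i (z.2 t) = none) (fun z => by
      obtain ⟨N, hN⟩ := stb_ms z.1
      obtain ⟨N', hN'⟩ := stb_tup z.2
      exact ⟨max N N', fun i hi => ⟨hN i ((le_max_left _ _).trans hi),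
        hN' i ((le_max_right _ _).trans hi)⟩⟩)
  obtain ⟨hh, hhd⟩ : ∃ hh : ℕ → MT b → Option (MT b), hh = fun n =>
      pr (ms (act (sg n))) (tup b (act (sg (n + 1)))) := ⟨_, rfl⟩
  have hb2 : ∀ n i z, (hh n z).bind (FM 0 b i) =
      pr (ms fun s => (act (sg n) s).bind (fa 0 i))
        (tup b fun s => (act (sg (n + 1)) s).bind (fa 0 i)) z := by
    intro n i z
    rw [hhd]
    unfold FM
    rw [pr_bind]
    simp only [tup_bind, ms_bind]
  have hst := bd_stable (k := k) (f := FM 0 b) (h := hh) (φ := φ) (N := M + 1) (by omega)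
    (fun z hz i hi => by
      unfold FM
      obtain ⟨s, hs⟩ := hcard z hz
      exact pr_eq_none.2 (Or.inl (ms_eq_none.2 ⟨s, hs, (hM z hz i hi).1 s hs⟩)))
    (fun z hz i hi => by
      rw [hb2]
      have h1 : (FM 0 b i z).bind (hh (M + 1 - 1)) =
          pr (ms fun s => (fa 0 i s).bind (act (sg M)))
            (tup b fun s => (fa 0 i s).bind (act (sg (M + 1)))) z := by
        rw [hhd, Nat.add_sub_cancel]
        unfold FM
        dsimp only
        rw [pr_bind]
        simp only [tup_bind, ms_bind]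
      rw [h1]
      have h2 : (fun s => (act (sg (M + 1)) s).bind (fa 0 i)) =
          fun s => (fa 0 i s).bind (act (sg M)) := funext fun s => stb_lt (by omega) s
      have h3 : (fun s => (act (sg (M + 1 + 1)) s).bind (fa 0 i)) =
          fun s => (fa 0 i s).bind (act (sg (M + 1))) := funext fun s => stb_lt (by omega) s
      rw [h2, h3])
    (fun z hz => by
      rw [hb2]
      refine pr_eq_none.2 (Or.inr (tup_eq_none.2 ⟨⟨0, hb⟩, ?_⟩))
      rw [stb_lt le_rfl, (hM z hz (M + 1) le_rfl).2]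
      rfl)
    (fun z hz => by
      rw [hb2]
      rw [pr_eq_some, tup_eq_some]
      refine ⟨?_, fun t => stb_eq _ _⟩
      have h2 : (fun s => (act (sg (M + 1)) s).bind (fa 0 (M + 1 + 1))) = fun s => some (id s) :=
        funext fun s => stb_succ _ _
      rw [h2, ms_some, Multiset.map_id])
    (fun z hz i hi => by
      obtain ⟨i', rfl⟩ : ∃ i', i = i' + 1 := ⟨i - 1, by omega⟩
      rw [hb2]
      obtain ⟨s, hs⟩ := hcard z hz
      refine pr_eq_none.2 (Or.inl (ms_eq_none.2 ⟨s, hs, ?_⟩))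
      rw [stb_gt (by omega), (hM z hz i' (by omega)).1 s hs]
      rfl)
    hcyc
  refine ⟨_, ?_, hst⟩
  suffices hmem : push k (hh (M + 1)) φ ∈ C3 k a b ⊤ (e + 1) by
    exact zsmul_mem hmem _
  refine ⟨?_, ?_⟩
  · rw [hhd]
    exact push_AL _ _ hφ.1
  · refine push_supported (P := {z : MT b | Multiset.card z.1 = a ∧
      (∀ s ∈ z.1, exc s = e ∧ Lv ⊤ s) ∧ ∀ j, exc (z.2 j) = e ∧ Lv ⊤ (z.2 j)}) ?_ hφ.2
    intro z hz z' h1
    rw [hhd, pr_eq_some, tup_eq_some] at h1
    refine ⟨(ms_card h1.1).trans hz.1, fun t ht => ?_,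
      fun t => ⟨by rw [exc_sg (h1.2 t), (hz.2.2 t).1], Lv_top _⟩⟩
    obtain ⟨s, hs, hst⟩ := (mem_ms h1.1 t).1 ht
    exact ⟨by rw [exc_sg hst, (hz.2.1 s hs).1], Lv_top _⟩

end BPN.E
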