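import Pool.Agent.BPN.E.K3
import Pool.Agent.BPN.E.Stb

/-!
# Part (E), module K3H: bounds for the truncated symmetric powers (project BPN, helper30)

PROOF of `K3_HB1` (`p ∤ d`): CLAIM: for all `a, b` with `p ∤ a`, `0 < a`: `HB (Z3 k p a b ⊤) e 0` for all `e`.
Induction on `a`.  `a < p`: `Z3 k p a b = ⊥` (`K3_bot`, `K3_bot0`).  `a = a' + p`: `K3_ses k a' b` and `HB_quot` with
`C3 k a' (b+1)` acyclic (`C3_acy`, `0 < a'` because `p ∤ a`) and the claim for `Z3 k p a' (b+1)`.
Then `K3_last` and `HB_quot`: `HB (Tr k p d) n (N + 0)`.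
PROOF of `K3_HB2` (`d = p m'`): `HB (La k m' ⊤) e0 N'` gives `HB (C3 k 0 m' ⊤) e0 N'` (isomorphism
`push (fun z => some ((0 : Multiset Sj), z.2))`, `HB_iso`); with `K3_ses k 0 (m'-1)` and `K3_bot` (`0 < p`):
`HB (Z3 k p p (m'-1) ⊤) e0 N'` (note `0 + p = p`).  Then for `j = 1, .., m'`:
`HB (Z3 k p (p*j) (m'-j) ⊤) (e0 + j - 1) N'` by `K3_ses k (p*j) (m'-j-1)`, `C3 k (p*j) (m'-j)` acyclic, `HB_quot`.
With `j = m'` and `e0 = n - m'`: `HB (Z3 k p (p*m') 0 ⊤) (n-1) N'`; `K3_last` and `HB_quot`.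
-/

namespace BPN.E

variable (k : Type) [Field k]

/-- the embedding of `Λ^m` as `S^0 ⊗ Λ^m` -/
private def k3u (m : ℕ) (z : TT 0 m) : MT m := ((0 : Multiset Sj), z.2)

private theorem k3u_inj (m : ℕ) : Function.Injective (k3u m) := by
  rintro ⟨x, y⟩ ⟨x', y'⟩ h
  have h2 : y = y' := congrArg Prod.snd h
  exact Prod.ext (Subsingleton.elim _ _) h2

private theorem k3u_zero {m : ℕ} (φ : TT 0 m →₀ k) (y : Fin m → Sj) :
    Finsupp.mapDomain (k3u m) φ ((0 : Multiset Sj), y) = φ (Fin.elim0, y) :=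
  Finsupp.mapDomain_apply (k3u_inj m) φ (Fin.elim0, y)

private theorem k3u_ne {m : ℕ} (φ : TT 0 m →₀ k) {X : Multiset Sj} (hX : X ≠ 0)
    (y : Fin m → Sj) : Finsupp.mapDomain (k3u m) φ (X, y) = 0 := by
  refine Finsupp.mapDomain_of_notMem_range φ _ ?_
  rintro ⟨z, hz⟩
  exact hX (congrArg Prod.fst hz).symm

private theorem k3_first {m : ℕ} (hm : 0 < m) {e : ℤ} {N : ℕ}
    (h : HB (bd k (FT 0 0 m)) (La k m ⊤) e N) : HB (bd k (FM 0 m)) (C3 k 0 m ⊤) e N := by
  have hcx := isCx_GT k (c := 0) (b := 0) (a := m) (by omega) (P := Lv ⊤) (P' := Lv ⊤)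
    (fun _ _ _ h1 h2 => Lv_fa h1 h2) (fun _ _ _ h1 h2 => Lv_fa h1 h2)
  refine (HB_iso (f := push k fun z : TT 0 m => some (k3u m z)) ?_ ?_ ?_ ?_ hcx.dG).1 h
  · intro e x hx
    rw [push_total]
    refine ⟨⟨fun σ X y => ?_, fun X y i j hij hy => ?_⟩, ?_⟩
    · by_cases hX : X = 0
      · rw [hX, k3u_zero, k3u_zero]
        exact hx.1.2.1 σ Fin.elim0 y
      · rw [k3u_ne k x hX, k3u_ne k x hX, smul_zero]
    · by_cases hX : X = 0
      · rw [hX, k3u_zero]
        exact hx.1.2.2 Fin.elim0 y i j hij hy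
      · rw [k3u_ne k x hX]
    · rw [← push_total]
      refine push_supported ?_ hx.2
      intro z hz z' hz'
      rw [← Option.some.inj hz']
      exact ⟨Multiset.card_zero, fun s hs => absurd hs (Multiset.notMem_zero s), hz.2⟩
  · intro e x hx
    refine (push_bd (P := Set.univ) (P' := {z : MT m | Multiset.card z.1 = 0})
      ⟨fun z _ => LFz_FT (by omega) z, fun _ _ _ _ _ => trivial⟩ (LFP_FM (by omega)) ?_ ?_ ?_).symm
    · intro z _ z' hz'
      rw [← Option.some.inj hz']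
      exact Multiset.card_zero
    · intro i z _
      refine Option.ext fun w => ?_
      rw [Option.bind_eq_some_iff, Option.bind_eq_some_iff]
      constructor
      · rintro ⟨z', hz', hw⟩
        obtain ⟨-, h2⟩ := pr_eq_some.1 hz'
        refine ⟨_, rfl, pr_eq_some.2 ⟨?_, ?_⟩⟩
        · rw [← Option.some.inj hw]
          exact ms_zero _
        · rw [← Option.some.inj hw]
          exact h2
      · rintro ⟨z', hz', hw⟩
        obtain ⟨h1, h2⟩ := pr_eq_some.1 hw
        rw [← Option.some.inj hz'] at h1 h2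
        refine ⟨(z.1, w.2), pr_eq_some.2 ⟨tup_eq_some.2 fun i => i.elim0, h2⟩, ?_⟩
        have h3 : w.1 = 0 := by
          have h4 : ms (fa 0 i) (0 : Multiset Sj) = some w.1 := h1
          rw [ms_zero] at h4
          exact (Option.some.inj h4).symm
        exact congrArg some (Prod.ext h3.symm rfl)
    · rw [Finsupp.mem_supported]
      exact Set.subset_univ _
  · intro e x _ h0
    rw [push_total] at h0
    refine Finsupp.mapDomain_injective (k3u_inj m) ?_
    rw [h0, Finsupp.mapDomain_zero]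
  · intro e y hy
    have hdef : ∀ z : TT 0 m, Finsupp.comapDomain (k3u m) y (k3u_inj m).injOn z = y (k3u m z) :=
      fun z => Finsupp.comapDomain_apply _ _ _ _
    refine ⟨Finsupp.comapDomain (k3u m) y (k3u_inj m).injOn, ⟨⟨fun σ X z => ?_, fun σ X z => ?_,
      fun X z i j hij hz => ?_⟩, ?_⟩, ?_⟩
    · rw [Subsingleton.elim (X ∘ σ) X]
    · rw [hdef, hdef]
      exact hy.1.1 σ 0 z
    · rw [hdef]
      exact hy.1.2 0 z i j hij hz
    · refine (Finsupp.mem_supported k _).2 ?_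
      intro z hz
      have h1 : y (k3u m z) ≠ 0 := by
        rw [← hdef]
        exact Finsupp.mem_support_iff.1 hz
      have h2 := (Finsupp.mem_supported k y).1 hy.2 (Finsupp.mem_support_iff.2 h1)
      exact ⟨fun i => i.elim0, h2.2.2⟩
    · rw [push_total]
      refine Finsupp.mapDomain_comapDomain (k3u m) (k3u_inj m) y ?_
      intro w hw
      have h2 := (Finsupp.mem_supported k y).1 hy.2 hw
      have h3 : w.1 = 0 := Multiset.card_eq_zero.1 h2.1
      exact ⟨(Fin.elim0, w.2), Prod.ext h3.symm rfl⟩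

private theorem k3_botHB {M : Type} [AddCommGroup M] [Module k M] {d : M →ₗ[k] M}
    {G : ℤ → Submodule k M} (h : ∀ e, G e = ⊥) (e : ℤ) : HB d G e 0 := by
  refine HB_of_acy fun z hz _ => ⟨0, zero_mem _, ?_⟩
  rw [h, Submodule.mem_bot] at hz
  rw [hz, map_zero]

private theorem k3_claim {p : ℕ} (hp : 0 < p) (a : ℕ) : ¬ p ∣ a → ∀ (b : ℕ) (e : ℤ),
    HB (bd k (FM 0 b)) (Z3 k p a b ⊤) e 0 := by
  induction a using Nat.strong_induction_on with
  | _ a ih =>
    intro ha b e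
    by_cases hap : a < p
    · refine k3_botHB k (fun e => ?_) e
      cases b with
      | zero => exact K3_bot0 k hap ⊤ e
      | succ b => exact K3_bot k hap b ⊤ e
    · obtain ⟨c, rfl⟩ : ∃ c, a = c + p := ⟨a - p, by omega⟩
      have hc : ¬ p ∣ c := fun h => ha (dvd_add h dvd_rfl)
      have hc0 : 0 < c := by
        rcases Nat.eq_zero_or_pos c with h | h
        · exact absurd (h ▸ dvd_zero p) hc
        · exact h
      have h1 := HB_quot (K3_ses k hp c b ⊤) (e := e)
        (HB_of_acy (C3_acy k hc0 (Nat.succ_pos b) e)) (ih c (by omega) hc (b + 1) (e - 1))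
      simpa using h1

theorem K3_HB1 {p : ℕ} (hp : 0 < p) {d : ℕ} (hd : ¬ p ∣ d) (n : ℤ) (N : ℕ)
    (h : HB (bd k (FM 0 0)) (Sy k d ⊤) n N) : HB (bd k (FR p)) (Tr k p d ⊤) n N := by
  have hd0 : 0 < d := by
    rcases Nat.eq_zero_or_pos d with h | h
    · exact absurd (h ▸ dvd_zero p) hd
    · exact h
  have h1 := HB_quot (K3_last k hp hd0 ⊤) (e := n) h (k3_claim k hp d hd 0 (n - 1))
  simpa using h1

theorem K3_HB2 {p : ℕ} (hp : 0 < p) {m : ℕ} (hm : 0 < m) (n : ℤ) (N N' : ℕ)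
    (h : HB (bd k (FM 0 0)) (Sy k (p * m) ⊤) n N)
    (h' : HB (bd k (FT 0 0 m)) (La k m ⊤) (n - m) N') :
    HB (bd k (FR p)) (Tr k p (p * m) ⊤) n (N + N') := by
  have h0 := k3_first k hm h'
  have key : ∀ j b : ℕ, j + 1 + b = m →
      HB (bd k (FM 0 b)) (Z3 k p (p * (j + 1)) b ⊤) (n - m + j) N' := by
    intro j
    induction j with
    | zero =>
      intro b hb
      have hb' : m = b + 1 := by omega
      subst hb'
      have h1 := HB_quot (K3_ses k hp 0 b ⊤) (e := n - ((b + 1 : ℕ) : ℤ)) h0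
        (k3_botHB k (fun e => K3_bot k hp b ⊤ e) _)
      rw [zero_add, add_zero] at h1
      rw [zero_add, mul_one]
      simpa using h1
    | succ j ih =>
      intro b hb
      have h1 := ih (b + 1) (by omega)
      have h2 := HB_quot (K3_ses k hp (p * (j + 1)) b ⊤) (e := n - m + ((j + 1 : ℕ) : ℤ))
        (HB_of_acy (C3_acy k (Nat.mul_pos hp (Nat.succ_pos j)) (Nat.succ_pos b) _)) (by
          have e1 : n - (m : ℤ) + ((j + 1 : ℕ) : ℤ) - 1 = n - m + j := by
            push_cast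
            ring
          rw [e1]
          exact h1)
      rw [zero_add] at h2
      exact h2
  obtain ⟨q, rfl⟩ : ∃ q, m = q + 1 := ⟨m - 1, by omega⟩
  have h1 := key q 0 (by omega)
  have e1 : n - ((q + 1 : ℕ) : ℤ) + q = n - 1 := by
    push_cast
    ring
  rw [e1] at h1
  exact HB_quot (K3_last k hp (Nat.mul_pos hp hm) ⊤) (e := n) h h1

end BPN.E
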