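import Pool.Agent.BPN.E.K4
import Pool.Agent.BPN.E.Nu
import Pool.Agent.BPN.E.Stb

/-!
# Part (E), module K4H: bounds for the divided powers (project BPN, helper30)

PROOF.  CLAIM 1: for `p ∤ b` (so `0 < b`): `HB (bd k (FT 0 b (a+1))) (R4 k p b a ⊤) e 0` for all `a`, `e`.  Induction on
`b`: `b < p`: `R4 = C4 k b (a+1) ⊤` (`K4_R0`) is acyclic (`C4_acy`).  `b = b' + p`: `R4 k p (b'+p) a = Z4 k p b' (a+1)`
(`K4_R`), and `K4_ses k p b' (a+1)` with `C4 k (b'+p) (a+1)` acyclic and `HB_sub`: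
`HB (Z4 k p b' (a+1)) e 0` from `HB (R4 k p b' (a+1)) (e+1) 0`.
CLAIM 2: `HB (bd k (FT 0 (p*c) (a+1))) (R4 k p (p*c) a ⊤) e N'` if `HB (La k (c+a+1) ⊤) (e+c) N'`.  Induction on `c`:
`c = 0`: `R4 k p 0 a = C4 k 0 (a+1) = La k (a+1)`.  `c + 1`: as in claim 1.  (`p * (c+1) = p*c + p` by
`Nat.mul_succ`; the dependent types: generalise `b` with `b = p * c` and `subst`.)
`K4_HB1`: `d < p`: `nu k d` is an isomorphism `Tr → Ga` (`nu_mem`, `nu_bd`, `nu_inj`, `nu_sur`, `HB_iso`;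
`0 < d` since `p ∤ d`).  `d = b + p`: `Z4 k p b 0 ≅ Tr k p (b+p)` by `nu` (`nu_ker`), so `HB (Z4 k p b 0) n N`;
`K4_ses k p b 0`, `HB_mid` with `HB (R4 k p b 0) n 0` (claim 1, `p ∤ b`).
`K4_HB2`: `d = p * m = b + p`, `b = p * (m-1)`: the same with claim 2 (`a = 0`, `c = m - 1`):
`HB (R4 k p b 0 ⊤) n N'` from `HB (La k m ⊤) (n + (m - 1)) N'`.
-/

namespace BPN.E

variable (k : Type) [Field k] (p : ℕ) [Fact p.Prime] [CharP k p]

private theorem k4h_acy {b a : ℕ} (hb : 0 < b) (e : ℤ) :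
    HB (bd k (FT 0 b (a + 1))) (C4 k b (a + 1) ⊤) e 0 :=
  HB_of_acy (C4_acy k hb (Nat.succ_pos a) e)

private theorem k4h_one : ∀ (n b : ℕ), b ≤ n → ¬ p ∣ b → ∀ (a : ℕ) (e : ℤ),
    HB (bd k (FT 0 b (a + 1))) (R4 k p b a ⊤) e 0 := by
  have hp : 0 < p := (Fact.out : p.Prime).pos
  intro n
  induction n with
  | zero =>
    intro b hb hd
    exact absurd (by rw [Nat.le_zero.1 hb]; exact dvd_zero p) hd
  | succ n ih =>
    intro b hb hd a e
    rcases Nat.lt_or_ge b p with hbp | hbp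
    · have hb0 : 0 < b := Nat.pos_of_ne_zero (fun h => hd (by rw [h]; exact dvd_zero p))
      have h1 : R4 k p b a ⊤ = C4 k b (a + 1) ⊤ := funext fun e => K4_R0 k p hbp a ⊤ e
      rw [h1]
      exact k4h_acy k hb0 e
    · obtain ⟨b', rfl⟩ : ∃ b', b = b' + p := ⟨b - p, by omega⟩
      have h1 : R4 k p (b' + p) a ⊤ = Z4 k p b' (a + 1) ⊤ := funext fun e => K4_R k p b' a ⊤ e
      rw [h1]
      have hd' : ¬ p ∣ b' := fun h => hd (dvd_add h dvd_rfl)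
      have h2 := ih b' (by omega) hd' (a + 1) (e + 1)
      exact HB_sub (K4_ses k p b' (a + 1) ⊤) (k4h_acy k (by omega) e) h2

private theorem k4h_two (N' : ℕ) : ∀ (c a : ℕ) (e : ℤ) (b : ℕ), b = p * c → ∀ D : ℕ,
    D = c + a + 1 → ∀ E : ℤ, E = e + c → HB (bd k (FT 0 0 D)) (La k D ⊤) E N' →
    HB (bd k (FT 0 b (a + 1))) (R4 k p b a ⊤) e N' := by
  have hp : 0 < p := (Fact.out : p.Prime).pos
  intro c
  induction c with
  | zero =>
    intro a e b hb D hD E hE h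
    obtain rfl : b = 0 := by rw [hb, Nat.mul_zero]
    obtain rfl : D = a + 1 := by omega
    obtain rfl : E = e := by rw [hE, Nat.cast_zero, add_zero]
    have h1 : R4 k p 0 a ⊤ = C4 k 0 (a + 1) ⊤ := funext fun e => K4_R0 k p hp a ⊤ e
    rw [h1]
    exact h
  | succ c ih =>
    intro a e b hb D hD E hE h
    obtain rfl : b = p * c + p := by rw [hb, Nat.mul_succ]
    have h1 : R4 k p (p * c + p) a ⊤ = Z4 k p (p * c) (a + 1) ⊤ :=
      funext fun e => K4_R k p (p * c) a ⊤ e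
    rw [h1]
    have h2 := ih (a + 1) (e + 1) (p * c) rfl D (by omega) E (by rw [hE]; push_cast; ring) h
    have h3 := HB_sub (K4_ses k p (p * c) (a + 1) ⊤) (k4h_acy k (by omega) e) h2
    rwa [zero_add] at h3

/-- The kernel of the first differential is the truncated symmetric power. -/
private theorem k4h_iso (b : ℕ) (n : ℤ) (N : ℕ)
    (h : HB (bd k (FR p)) (Tr k p (b + p) ⊤) n N) :
    HB (bd k (FT 0 (b + p) 0)) (Z4 k p b 0 ⊤) n N := by
  have hp : 0 < p := (Fact.out : p.Prime).pos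
  refine (HB_iso (f := nu k (b + p)) (G₂ := Z4 k p b 0 ⊤) ?_ ?_ ?_ ?_ ?_).1 h
  · intro e x hx
    exact ⟨nu_mem k p hx, (nu_ker k p (nu_mem k p hx)).1 ⟨x, hx, rfl⟩⟩
  · intro e x hx
    exact nu_bd k p (by omega) hx
  · intro e x hx h0
    exact nu_inj k p hx h0
  · rintro e y ⟨hy1, hy2⟩
    exact (nu_ker k p hy1).2 hy2
  · exact (isCx_Tr k (by omega) ⊤).dG

theorem K4_HB1 {d : ℕ} (hd : ¬ p ∣ d) (n : ℤ) (N : ℕ)
    (h : HB (bd k (FR p)) (Tr k p d ⊤) n N) : HB (bd k (FT 0 d 0)) (Ga k d ⊤) n N := by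
  have hd0 : 0 < d := Nat.pos_of_ne_zero (fun h => hd (by rw [h]; exact dvd_zero p))
  rcases Nat.lt_or_ge d p with hdp | hdp
  · refine (HB_iso (f := nu k d) (G₂ := Ga k d ⊤) ?_ ?_ ?_ ?_ ?_).1 h
    · intro e x hx
      exact nu_mem k p hx
    · intro e x hx
      exact nu_bd k p hd0 hx
    · intro e x hx h0
      exact nu_inj k p hx h0
    · intro e y hy
      exact nu_sur k p hdp hy
    · exact (isCx_Tr k hd0 ⊤).dG
  · obtain ⟨b, rfl⟩ : ∃ b, d = b + p := ⟨d - p, by omega⟩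
    have hd' : ¬ p ∣ b := fun h => hd (dvd_add h dvd_rfl)
    exact HB_mid (K4_ses k p b 0 ⊤) (k4h_iso k p b n N h) (k4h_one k p b b le_rfl hd' 0 n)

theorem K4_HB2 {m : ℕ} (hm : 0 < m) (n : ℤ) (N N' : ℕ)
    (h : HB (bd k (FR p)) (Tr k p (p * m) ⊤) n N)
    (h' : HB (bd k (FT 0 0 m)) (La k m ⊤) (n + m - 1) N') :
    HB (bd k (FT 0 (p * m) 0)) (Ga k (p * m) ⊤) n (N + N') := by
  obtain ⟨c, rfl⟩ : ∃ c, m = c + 1 := ⟨m - 1, by omega⟩
  have h2 := k4h_two k p N' c 0 n (p * c) rfl (c + 1) (by omega) (n + (c + 1 : ℕ) - 1)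
    (by push_cast; ring) h'
  exact HB_mid (K4_ses k p (p * c) 0 ⊤) (k4h_iso k p (p * c) n N h) h2

end BPN.E
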