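import Pool.Agent.BPN.E.Cx

/-!
# Part (E): definitions for the decalage and Koszul sequences (project BPN, architect helper30)

K1 (`S → Λ` decalage, faces `c = 1`), K2 (`Λ → Γ` decalage, faces `c = 1`), K3 (`Λ(V) ⊗ S(V) → S_p`,
faces `c = 0`), K4 (`S_p → Γ → Γ ⊗ Λ`, faces `c = 0`).
-/

namespace BPN.E

variable (k : Type) [Field k]

/-! ### K1 -/

/-- `S^a(W) ⊗ Λ^b(U)` for the path object `W` and the subobject `U` (`InB`), faces `FM 1 b`. -/
noncomputable abbrev C1 (a b : ℕ) (M : ℕ∞) : ℤ → Submodule k (MT b →₀ k) :=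
  GM k a b (Lv M) (fun s => Lv M s ∧ InB s)

/-- The projection `S^a(W) → S^a(Q)`. -/
noncomputable def q1 : (MT 0 →₀ k) →ₗ[k] (MT 0 →₀ k) := push k (pr (ms (fa 0 0)) (tup 0 (fa 0 0)))

/-- The kernels in K1. -/
noncomputable def Z1 (a : ℕ) : (b : ℕ) → (M : ℕ∞) → ℤ → Submodule k (MT b →₀ k)
  | 0, M => fun e => C1 k a 0 M e ⊓ LinearMap.ker (q1 k)
  | b + 1, M => fun e => C1 k a (b + 1) M e ⊓ LinearMap.ker (Lq k 1 b)

/-! ### K2 -/

/-- `Γ^b(U) ⊗ Λ^a(W)`, faces `FT 1 b a`. -/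
noncomputable abbrev C2 (b a : ℕ) (M : ℕ∞) : ℤ → Submodule k (TT b a →₀ k) :=
  GT k b a (fun s => Lv M s ∧ InB s) (Lv M)

/-- The projection `Λ^a(W) → Λ^a(Q)`. -/
noncomputable def q2 (a : ℕ) : (TT 0 a →₀ k) →ₗ[k] (TT 0 a →₀ k) :=
  push k (pr (tup 0 (fa 0 0)) (tup a (fa 0 0)))

/-- The kernels in K2. -/
noncomputable def Z2 : (b a : ℕ) → (M : ℕ∞) → ℤ → Submodule k (TT b a →₀ k)
  | 0, a, M => fun e => C2 k 0 a M e ⊓ LinearMap.ker (q2 k a)
  | b + 1, a, M => fun e => C2 k (b + 1) a M e ⊓ LinearMap.ker (Dq k 1 b a)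

/-! ### K3 -/

/-- `S^a(V) ⊗ Λ^b(V)`, faces `FM 0 b`. -/
noncomputable abbrev C3 (a b : ℕ) (M : ℕ∞) : ℤ → Submodule k (MT b →₀ k) :=
  GM k a b (Lv M) (Lv M)

open Classical in
/-- The projection from the symmetric to the truncated symmetric power. -/
noncomputable def trp (p : ℕ) : (MT 0 →₀ k) →ₗ[k] (Multiset Sj →₀ k) :=
  push k fun z => if ∀ s, z.1.count s < p then some z.1 else none

/-- The kernels in K3. -/
noncomputable def Z3 (p a : ℕ) : (b : ℕ) → (M : ℕ∞) → ℤ → Submodule k (MT b →₀ k)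
  | 0, M => fun e => C3 k a 0 M e ⊓ LinearMap.ker (trp k p)
  | b + 1, M => fun e => C3 k a (b + 1) M e ⊓ LinearMap.ker (Lq k p b)

/-! ### K4 -/

/-- `Γ^b(V) ⊗ Λ^a(V)`, faces `FT 0 b a`. -/
noncomputable abbrev C4 (b a : ℕ) (M : ℕ∞) : ℤ → Submodule k (TT b a →₀ k) :=
  GT k b a (Lv M) (Lv M)

/-- The kernel of `Dq : Γ^(b+p) ⊗ Λ^a → Γ^b ⊗ Λ^(a+1)`. -/
noncomputable def Z4 (p b a : ℕ) (M : ℕ∞) (e : ℤ) : Submodule k (TT (b + p) a →₀ k) :=
  C4 k (b + p) a M e ⊓ LinearMap.ker (Dq k p b a)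

/-- The image of `Dq : Γ^(b+p) ⊗ Λ^a → Γ^b ⊗ Λ^(a+1)`. -/
noncomputable def R4 (p b a : ℕ) (M : ℕ∞) (e : ℤ) : Submodule k (TT b (a + 1) →₀ k) :=
  (C4 k (b + p) a M e).map (Dq k p b a)

open Classical in
/-- The product of the factorials of the multiplicities. -/
noncomputable def fac {A : Type} (X : Multiset A) : ℕ :=
  ∏ s ∈ X.toFinset, (X.count s).factorial

/-- The tuples with a given multiset of entries. -/
noncomputable def tuplesOf {A : Type} (d : ℕ) (X : Multiset A) : Set (Fin d → A) :=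
  {x | Multiset.map x Finset.univ.val = X}

open Classical in
/-- The norm map from truncated symmetric powers to divided powers:
`δ_X ↦ fac X • ∑_{x with multiset X} δ_x`. -/
noncomputable def nu (d : ℕ) : (Multiset Sj →₀ k) →ₗ[k] (TT d 0 →₀ k) :=
  Finsupp.lsum ℕ fun X => if h : (tuplesOf d X).Finite then
    ∑ x ∈ h.toFinset, (fac X : k) • Finsupp.lsingle (x, Fin.elim0) else 0

end BPN.E
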