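import Pool.Agent.BPN.E.Defs

/-!
# Part (E), module KSV: simplicial vector spaces for the Kuenneth theorem (project BPN, helper30)

`SS` : simplicial sets with total operators (`op a b f` is only meaningful if `Ok a b f`: `f` monotone and
`f i ≤ b` for `i ≤ a`); `SV k` : simplicial vector spaces; `SV.P` : path object (shift, forget the vertex `0`);
`SV.Om` : kernel of `d_0 : P V → V`; `CC V Z n` : cochains of the pair, `CC.d`; `dV`, `dS` : coboundary of
functionals on `V` and of functions on `Z`; `crv` : cross product; `KSum`; `KB` : basis of the cohomology of `Z`.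
Everything is unnormalised.
-/

namespace BPN.E

open Module

/-- Valid operators. -/
def Ok (a b : ℕ) (f : ℕ → ℕ) : Prop := Monotone f ∧ ∀ i, i ≤ a → f i ≤ b

theorem Ok.comp {a b c : ℕ} {f g : ℕ → ℕ} (hg : Ok a b g) (hf : Ok b c f) : Ok a c (f ∘ g) :=
  ⟨hf.1.comp hg.1, fun i hi => hf.2 _ (hg.2 i hi)⟩

theorem ok_id (a : ℕ) : Ok a a id := ⟨monotone_id, fun _ hi => hi⟩

theorem Ok.jm {a b : ℕ} {f : ℕ → ℕ} (h : Ok a b f) : Ok (a + 1) (b + 1) (jmf f) := by
  refine ⟨?_, ?_⟩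
  · intro i j hij
    cases i with
    | zero => exact Nat.zero_le _
    | succ i =>
      cases j with
      | zero => omega
      | succ j => exact Nat.succ_le_succ (h.1 (by omega))
  · intro i hi
    cases i with
    | zero => exact Nat.zero_le _
    | succ i => exact Nat.succ_le_succ (h.2 i (by omega))

theorem jmf_comp (f g : ℕ → ℕ) : jmf (f ∘ g) = jmf f ∘ jmf g := by
  funext i
  cases i <;> rfl

theorem jmf_id : jmf id = id := by
  funext i
  cases i <;> rfl

theorem dl_zero_comp (f : ℕ → ℕ) : jmf f ∘ dl 0 = dl 0 ∘ f := by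
  funext i
  simp [dl, jmf]

theorem ok_dl (i n : ℕ) : Ok n (n + 1) (dl i) :=
  ⟨(dl_strictMono i).monotone, fun j hj => by unfold dl; split_ifs <;> omega⟩

/-- Simplicial sets with total operators. -/
structure SS where
  X : ℕ → Type
  op : ∀ (a b : ℕ) (_ : ℕ → ℕ), X b → X a
  op_op : ∀ {a b c : ℕ} {f g : ℕ → ℕ}, Ok a b g → Ok b c f → ∀ x,
    op a b g (op b c f x) = op a c (f ∘ g) x
  op_congr : ∀ {a b : ℕ} {f g : ℕ → ℕ}, Ok a b f → Ok a b g → (∀ i, i ≤ a → f i = g i) →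
    ∀ x, op a b f x = op a b g x
  op_id : ∀ (a : ℕ) x, op a a id x = x

/-- Simplicial vector spaces with total operators. -/
structure SV (k : Type) [Field k] where
  V : ℕ → Type
  [acg : ∀ n, AddCommGroup (V n)]
  [mod : ∀ n, Module k (V n)]
  op : ∀ (a b : ℕ) (_ : ℕ → ℕ), V b →ₗ[k] V a
  op_op : ∀ {a b c : ℕ} {f g : ℕ → ℕ}, Ok a b g → Ok b c f → ∀ x,
    op a b g (op b c f x) = op a c (f ∘ g) x
  op_congr : ∀ {a b : ℕ} {f g : ℕ → ℕ}, Ok a b f → Ok a b g → (∀ i, i ≤ a → f i = g i) →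
    ∀ x, op a b f x = op a b g x
  op_id : ∀ (a : ℕ) x, op a a id x = x

attribute [instance] SV.acg SV.mod

variable {k : Type} [Field k]

namespace SV

/-- Path object. -/
def P (V : SV k) : SV k where
  V := fun n => V.V (n + 1)
  op := fun a b f => V.op (a + 1) (b + 1) (jmf f)
  op_op := fun hg hf x => by rw [V.op_op hg.jm hf.jm, jmf_comp]
  op_congr := fun hf hg h x => V.op_congr hf.jm hg.jm (fun i hi => by
    cases i with
    | zero => rfl
    | succ i => exact congrArg Nat.succ (h i (by omega))) x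
  op_id := fun a x => by rw [jmf_id]; exact V.op_id _ x

/-- The map `d_0 : P V → V`. -/
def d0 (V : SV k) (n : ℕ) : V.P.V n →ₗ[k] V.V n := V.op n (n + 1) (dl 0)

theorem d0_op (V : SV k) {a b : ℕ} {f : ℕ → ℕ} (h : Ok a b f) (x : V.P.V b) :
    V.d0 a (V.P.op a b f x) = V.op a b f (V.d0 b x) := by
  change V.op a (a + 1) (dl 0) (V.op (a + 1) (b + 1) (jmf f) x) =
    V.op a b f (V.op b (b + 1) (dl 0) x)
  rw [V.op_op (ok_dl 0 a) h.jm, V.op_op h (ok_dl 0 b), dl_zero_comp]

open Classical in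
/-- The kernel of `d_0 : P V → V` (the operators which are not valid are replaced by `0`). -/
noncomputable def Om (V : SV k) : SV k where
  V := fun n => LinearMap.ker (V.d0 n)
  op := fun a b f => if h : Ok a b f then
    ((V.P.op a b f).comp (LinearMap.ker (V.d0 b)).subtype).codRestrict (LinearMap.ker (V.d0 a))
      (fun x => by
        rw [LinearMap.mem_ker, LinearMap.comp_apply, V.d0_op h]
        have := x.2
        rw [LinearMap.mem_ker] at this
        rw [Submodule.subtype_apply, this, map_zero]) else 0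
  op_op := fun {a b c f g} hg hf x => by
    rw [dif_pos hg, dif_pos hf, dif_pos (hg.comp hf)]
    exact Subtype.ext (V.P.op_op hg hf x.1)
  op_congr := fun hf hg h x => by
    rw [dif_pos hf, dif_pos hg]
    exact Subtype.ext (V.P.op_congr hf hg h x.1)
  op_id := fun a x => by
    rw [dif_pos (ok_id a)]
    exact Subtype.ext (V.P.op_id a x.1)

open Classical in
theorem Om_op (V : SV k) {a b : ℕ} {f : ℕ → ℕ} (h : Ok a b f) (x : V.Om.V b) :
    (V.Om.op a b f x).1 = V.P.op a b f x.1 := by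
  change ((if h : Ok a b f then _ else 0 : LinearMap.ker (V.d0 b) →ₗ[k] LinearMap.ker (V.d0 a)) x).1 = _
  rw [dif_pos h]
  rfl

end SV

/-- Cochains of a pair. -/
abbrev CC (V : SV k) (Z : SS) (n : ℕ) : Type := Z.X n → Dual k (V.V n)

/-- Coboundary of functionals. -/
def dV (V : SV k) (n : ℕ) (φ : Dual k (V.V n)) : Dual k (V.V (n + 1)) :=
  ∑ i ∈ Finset.range (n + 2), (-1 : ℤ) ^ i • φ.comp (V.op n (n + 1) (dl i))

/-- Coboundary of functions. -/
def dS (k : Type) [Field k] (Z : SS) (n : ℕ) (f : Z.X n → k) : Z.X (n + 1) → k :=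
  fun z => ∑ i ∈ Finset.range (n + 2), (-1 : ℤ) ^ i • f (Z.op n (n + 1) (dl i) z)

/-- Coboundary of cochains of a pair. -/
def dC (V : SV k) (Z : SS) (n : ℕ) (θ : CC V Z n) : CC V Z (n + 1) :=
  fun z => ∑ i ∈ Finset.range (n + 2), (-1 : ℤ) ^ i •
    (θ (Z.op n (n + 1) (dl i) z)).comp (V.op n (n + 1) (dl i))

/-- Coboundaries. -/
def BdV (V : SV k) : (n : ℕ) → Dual k (V.V n) → Prop
  | 0 => fun φ => φ = 0
  | n + 1 => fun φ => ∃ e, φ = dV V n e

/-- Coboundaries. -/
def BdS (Z : SS) : (n : ℕ) → (Z.X n → k) → Prop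
  | 0 => fun φ => φ = 0
  | n + 1 => fun φ => ∃ e, φ = dS k Z n e

/-- Coboundaries. -/
def BdC (V : SV k) (Z : SS) : (n : ℕ) → CC V Z n → Prop
  | 0 => fun φ => φ = 0
  | n + 1 => fun φ => ∃ e, φ = dC V Z n e

/-- Cross product. -/
def crv (V : SV k) (Z : SS) (n a b : ℕ) (φ : Dual k (V.V a)) (ψ : Z.X b → k) : CC V Z n :=
  fun z => ψ (Z.op b n (fun i => i + a) z) • φ.comp (V.op a n id)

/-- `∑_{a + b = n} ∑_i φ_{a,b,i} × ψ_{b,i}`. -/
def KSum (V : SV k) (Z : SS) {I : ℕ → Type} [∀ b, Fintype (I b)] (ψ : ∀ b, I b → Z.X b → k) (n : ℕ)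
    (φ : ∀ a b : ℕ, I b → Dual k (V.V a)) : CC V Z n :=
  ∑ ab ∈ Finset.HasAntidiagonal.antidiagonal n, ∑ i : I ab.2, crv V Z n ab.1 ab.2 (φ ab.1 ab.2 i) (ψ ab.2 i)

/-- `ψ` is a basis of the cohomology of `Z`. -/
structure KB (Z : SS) {I : ℕ → Type} [∀ b, Fintype (I b)] (ψ : ∀ b, I b → Z.X b → k) : Prop where
  coc : ∀ b i, dS k Z b (ψ b i) = 0
  span : ∀ b (f : Z.X b → k), dS k Z b f = 0 → ∃ c : I b → k, BdS Z b (f - ∑ i, c i • ψ b i)
  indep : ∀ b (c : I b → k), BdS Z b (∑ i, c i • ψ b i) → c = 0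

end BPN.E
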