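import Pool.Agent.BPN.E.KSV

/-!
# Part (E), module KSVb: basic lemmas for the Kuenneth theorem (project BPN, helper30)

PROOFS.
* `dC_dC`, `dV_dV`, `dS_dS`: the simplicial identity `dl (j+1) ∘ dl i = dl i ∘ dl j` for `i ≤ j` (`dl_dl`), `op_op`.
* `dC_crv`: for `i ≤ a`: `dl i` restricted to `[0, a]` is `dl i : [a] → [a+1]`, and `(dl i) (t + a) = t + (a + 1)`;
  for `i ≥ a + 1`: `dl i` is the identity on `[0, a]` and `dl i (t + a) = a + dl (i - a) t`.  The two extra terms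
  (last face of the front, first face of the back) cancel.
* `d0_surj`: `V.op (n+1) n (sg 0)` is a section of `d0`.
* `exists_ext_Om`: extend linear functionals from the subspace (`LinearMap.exists_extend`), for cochains of
  pairs choose for every `z`.  `desc`: a functional vanishing on `ker d0` factors through the surjection `d0`.
-/

namespace BPN.E

open Module

variable {k : Type} [Field k]

/-- Morphisms of simplicial vector spaces. -/
structure SV.Hom (V W : SV k) where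
  f : ∀ n, V.V n →ₗ[k] W.V n
  comm : ∀ {a b : ℕ} {g : ℕ → ℕ}, Ok a b g → ∀ x, f a (V.op a b g x) = W.op a b g (f b x)

/-- `d_0 : P V → V`. -/
def SV.dP (V : SV k) : SV.Hom V.P V := ⟨V.d0, fun h x => V.d0_op h x⟩

/-- The inclusion `Ω V → P V`. -/
noncomputable def SV.iO (V : SV k) : SV.Hom V.Om V.P :=
  ⟨fun n => (LinearMap.ker (V.d0 n)).subtype, fun h x => V.Om_op h x⟩

/-! ### Auxiliary lemmas -/

private theorem sum_dl_dl {M : Type} [AddCommGroup M] (n : ℕ) (F : (ℕ → ℕ) → M) :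
    ∑ i ∈ Finset.range (n + 1 + 2), (-1 : ℤ) ^ i •
      ∑ j ∈ Finset.range (n + 2), (-1 : ℤ) ^ j • F (dl i ∘ dl j) = 0 := by
  have h1 : ∀ i ∈ Finset.range (n + 1 + 2), (-1 : ℤ) ^ i •
      ∑ j ∈ Finset.range (n + 2), (-1 : ℤ) ^ j • F (dl i ∘ dl j) =
      ∑ j ∈ Finset.range (n + 2), (-1 : ℤ) ^ (i + j) • F (dl i ∘ dl j) := by
    intro i _
    rw [Finset.smul_sum]
    refine Finset.sum_congr rfl fun j _ => ?_
    rw [smul_smul, ← pow_add]
  rw [Finset.sum_congr rfl h1, ← Finset.sum_product']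
  refine Finset.sum_involution (fun q _ => if q.2 < q.1 then (q.2, q.1 - 1) else (q.2 + 1, q.1))
    ?_ ?_ ?_ ?_
  · rintro ⟨i, j⟩ hq
    simp only
    by_cases hj : j < i
    · rw [if_pos hj]
      simp only
      have e1 : dl i ∘ dl j = dl j ∘ dl (i - 1) := by
        funext x
        simp only [Function.comp_apply]
        unfold dl
        split_ifs <;> omega
      rw [e1, ← add_smul]
      have e2 : i + j = j + (i - 1) + 1 := by omega
      rw [e2, pow_succ]
      simp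
    · rw [if_neg hj]
      simp only
      have e1 : dl (j + 1) ∘ dl i = dl i ∘ dl j := by
        funext x
        simp only [Function.comp_apply]
        unfold dl
        split_ifs <;> omega
      rw [e1, ← add_smul]
      have e2 : j + 1 + i = i + j + 1 := by omega
      rw [e2, pow_succ]
      simp
  · rintro ⟨i, j⟩ hq hne heq
    simp only at heq
    by_cases hj : j < i
    · rw [if_pos hj, Prod.mk.injEq] at heq
      omega
    · rw [if_neg hj, Prod.mk.injEq] at heq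
      omega
  · rintro ⟨i, j⟩ hq
    rw [Finset.mem_product, Finset.mem_range, Finset.mem_range] at hq
    simp only at hq ⊢
    by_cases hj : j < i
    · rw [if_pos hj, Finset.mem_product, Finset.mem_range, Finset.mem_range]
      simp only
      omega
    · rw [if_neg hj, Finset.mem_product, Finset.mem_range, Finset.mem_range]
      simp only
      omega
  · rintro ⟨i, j⟩ hq
    simp only
    by_cases hj : j < i
    · rw [if_pos hj]
      simp only
      rw [if_neg (by omega), Prod.mk.injEq]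
      omega
    · rw [if_neg hj]
      simp only
      rw [if_pos (by omega), Prod.mk.injEq]
      omega

private theorem opV_comp (V : SV k) {a b c : ℕ} {f g : ℕ → ℕ} (hg : Ok a b g) (hf : Ok b c f) :
    (V.op a b g).comp (V.op b c f) = V.op a c (f ∘ g) :=
  LinearMap.ext fun x => V.op_op hg hf x

private theorem opV_congr (V : SV k) {a b : ℕ} {f g : ℕ → ℕ} (hf : Ok a b f) (hg : Ok a b g)
    (h : ∀ i, i ≤ a → f i = g i) : V.op a b f = V.op a b g :=
  LinearMap.ext fun x => V.op_congr hf hg h x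

private theorem ok_le {a b : ℕ} (h : a ≤ b) : Ok a b id :=
  ⟨monotone_id, fun _ hi => le_trans hi h⟩

private theorem ok_add {b n a : ℕ} (h : a + b ≤ n) : Ok b n (fun i => i + a) := by
  refine ⟨fun i j hij => Nat.add_le_add_right hij a, fun i hi => ?_⟩
  show i + a ≤ n
  omega

variable (V W : SV k) (Z : SS)

private theorem comp_zsmul (V : SV k) {a b : ℕ} (m : ℤ) (φ : Dual k (V.V b))
    (g : V.V a →ₗ[k] V.V b) : (m • φ).comp g = m • φ.comp g := by
  refine LinearMap.ext fun x => ?_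
  rfl

private theorem sum_comp' {ι M N : Type} [AddCommGroup M] [Module k M] [AddCommGroup N]
    [Module k N] (s : Finset ι) (F : ι → Dual k N) (g : M →ₗ[k] N) :
    (∑ i ∈ s, F i).comp g = ∑ i ∈ s, (F i).comp g := by
  refine LinearMap.ext fun x => ?_
  rw [LinearMap.comp_apply, LinearMap.sum_apply, LinearMap.sum_apply]
  rfl

/-- Pullback of cochains. -/
def pbC {V W : SV k} (F : SV.Hom V W) (Z : SS) (n : ℕ) (θ : CC W Z n) : CC V Z n :=
  fun z => (θ z).comp (F.f n)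

theorem dC_add (n : ℕ) (θ η : CC V Z n) : dC V Z n (θ + η) = dC V Z n θ + dC V Z n η := by
  funext z
  show ∑ i ∈ Finset.range (n + 2), (-1 : ℤ) ^ i •
    (θ (Z.op n (n + 1) (dl i) z) + η (Z.op n (n + 1) (dl i) z)).comp (V.op n (n + 1) (dl i)) =
    (∑ i ∈ Finset.range (n + 2), (-1 : ℤ) ^ i •
      (θ (Z.op n (n + 1) (dl i) z)).comp (V.op n (n + 1) (dl i))) +
    ∑ i ∈ Finset.range (n + 2), (-1 : ℤ) ^ i •
      (η (Z.op n (n + 1) (dl i) z)).comp (V.op n (n + 1) (dl i))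
  rw [← Finset.sum_add_distrib]
  refine Finset.sum_congr rfl fun i _ => ?_
  rw [LinearMap.add_comp, smul_add]
theorem dC_neg (n : ℕ) (θ : CC V Z n) : dC V Z n (-θ) = -dC V Z n θ := by
  exact map_neg (AddMonoidHom.mk' (dC V Z n) (dC_add V Z n)) θ
theorem dC_sub (n : ℕ) (θ η : CC V Z n) : dC V Z n (θ - η) = dC V Z n θ - dC V Z n η := by
  exact map_sub (AddMonoidHom.mk' (dC V Z n) (dC_add V Z n)) θ η
theorem dC_sum {ι : Type} (s : Finset ι) (n : ℕ) (θ : ι → CC V Z n) :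
    dC V Z n (∑ i ∈ s, θ i) = ∑ i ∈ s, dC V Z n (θ i) := by
  exact map_sum (AddMonoidHom.mk' (dC V Z n) (dC_add V Z n)) θ s
theorem dV_add (n : ℕ) (θ η : Dual k (V.V n)) : dV V n (θ + η) = dV V n θ + dV V n η := by
  unfold dV
  rw [← Finset.sum_add_distrib]
  refine Finset.sum_congr rfl fun i _ => ?_
  rw [LinearMap.add_comp, smul_add]
theorem dV_neg (n : ℕ) (θ : Dual k (V.V n)) : dV V n (-θ) = -dV V n θ := by
  exact map_neg (AddMonoidHom.mk' (dV V n) (dV_add V n)) θ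
theorem dV_sub (n : ℕ) (θ η : Dual k (V.V n)) : dV V n (θ - η) = dV V n θ - dV V n η := by
  exact map_sub (AddMonoidHom.mk' (dV V n) (dV_add V n)) θ η
theorem dV_smul (n : ℕ) (c : k) (θ : Dual k (V.V n)) : dV V n (c • θ) = c • dV V n θ := by
  unfold dV
  rw [Finset.smul_sum]
  refine Finset.sum_congr rfl fun i _ => ?_
  rw [LinearMap.smul_comp, smul_comm]
theorem dV_zero (n : ℕ) : dV V n 0 = 0 := by
  exact map_zero (AddMonoidHom.mk' (dV V n) (dV_add V n))
theorem dC_zero (n : ℕ) : dC V Z n 0 = 0 := by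
  exact map_zero (AddMonoidHom.mk' (dC V Z n) (dC_add V Z n))

theorem dC_dC (n : ℕ) (θ : CC V Z n) : dC V Z (n + 1) (dC V Z n θ) = 0 := by
  funext z
  have h := sum_dl_dl n (fun g => (θ (Z.op n (n + 1 + 1) g z)).comp (V.op n (n + 1 + 1) g))
  show ∑ i ∈ Finset.range (n + 1 + 2), (-1 : ℤ) ^ i •
    (∑ j ∈ Finset.range (n + 2), (-1 : ℤ) ^ j •
      (θ (Z.op n (n + 1) (dl j) (Z.op (n + 1) (n + 1 + 1) (dl i) z))).comp
        (V.op n (n + 1) (dl j))).comp (V.op (n + 1) (n + 1 + 1) (dl i)) = 0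
  rw [← h]
  refine Finset.sum_congr rfl fun i _ => ?_
  congr 1
  rw [sum_comp']
  refine Finset.sum_congr rfl fun j _ => ?_
  rw [comp_zsmul, LinearMap.comp_assoc, opV_comp V (ok_dl j n) (ok_dl i (n + 1)),
    Z.op_op (ok_dl j n) (ok_dl i (n + 1))]
theorem dV_dV (n : ℕ) (φ : Dual k (V.V n)) : dV V (n + 1) (dV V n φ) = 0 := by
  have h := sum_dl_dl n (fun g => φ.comp (V.op n (n + 1 + 1) g))
  show ∑ i ∈ Finset.range (n + 1 + 2), (-1 : ℤ) ^ i •
    (∑ j ∈ Finset.range (n + 2), (-1 : ℤ) ^ j •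
      φ.comp (V.op n (n + 1) (dl j))).comp (V.op (n + 1) (n + 1 + 1) (dl i)) = 0
  rw [← h]
  refine Finset.sum_congr rfl fun i _ => ?_
  congr 1
  rw [sum_comp']
  refine Finset.sum_congr rfl fun j _ => ?_
  rw [comp_zsmul, LinearMap.comp_assoc, opV_comp V (ok_dl j n) (ok_dl i (n + 1))]
theorem dS_dS (n : ℕ) (f : Z.X n → k) : dS k Z (n + 1) (dS k Z n f) = 0 := by
  funext z
  have h := sum_dl_dl n (fun g => f (Z.op n (n + 1 + 1) g z))
  show ∑ i ∈ Finset.range (n + 1 + 2), (-1 : ℤ) ^ i •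
    ∑ j ∈ Finset.range (n + 2), (-1 : ℤ) ^ j •
      f (Z.op n (n + 1) (dl j) (Z.op (n + 1) (n + 1 + 1) (dl i) z)) = 0
  rw [← h]
  refine Finset.sum_congr rfl fun i _ => ?_
  congr 1
  refine Finset.sum_congr rfl fun j _ => ?_
  rw [Z.op_op (ok_dl j n) (ok_dl i (n + 1))]

theorem dC_crv {n a b : ℕ} (h : a + b = n) (φ : Dual k (V.V a)) (ψ : Z.X b → k) :
    dC V Z n (crv V Z n a b φ ψ) = crv V Z (n + 1) (a + 1) b (dV V a φ) ψ +
      (-1 : ℤ) ^ a • crv V Z (n + 1) a (b + 1) φ (dS k Z b ψ) := by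
  subst h
  funext z
  obtain ⟨A, hA⟩ : ∃ A : (ℕ → ℕ) → k, A = fun g => ψ (Z.op b (a + b + 1) g z) := ⟨_, rfl⟩
  obtain ⟨B, hB⟩ : ∃ B : (ℕ → ℕ) → Dual k (V.V (a + b + 1)),
    B = fun g => φ.comp (V.op a (a + b + 1) g) := ⟨_, rfl⟩
  have hL : dC V Z (a + b) (crv V Z (a + b) a b φ ψ) z =
      ∑ i ∈ Finset.range (a + b + 2), (-1 : ℤ) ^ i •
        A (dl i ∘ fun t => t + a) • B (dl i ∘ id) := by
    show ∑ i ∈ Finset.range (a + b + 2), (-1 : ℤ) ^ i •
      (ψ (Z.op b (a + b) (fun t => t + a) (Z.op (a + b) (a + b + 1) (dl i) z)) •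
        φ.comp (V.op a (a + b) id)).comp (V.op (a + b) (a + b + 1) (dl i)) = _
    refine Finset.sum_congr rfl fun i _ => ?_
    rw [LinearMap.smul_comp, LinearMap.comp_assoc,
      opV_comp V (ok_le (Nat.le_add_right a b)) (ok_dl i (a + b)),
      Z.op_op (ok_add le_rfl) (ok_dl i (a + b)), hA, hB]
  have hR1 : crv V Z (a + b + 1) (a + 1) b (dV V a φ) ψ z =
      ∑ i ∈ Finset.range (a + 2), (-1 : ℤ) ^ i • A (fun t => t + (a + 1)) • B (dl i) := by
    show ψ (Z.op b (a + b + 1) (fun t => t + (a + 1)) z) •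
      (∑ i ∈ Finset.range (a + 2), (-1 : ℤ) ^ i • φ.comp (V.op a (a + 1) (dl i))).comp
        (V.op (a + 1) (a + b + 1) id) = _
    rw [sum_comp', Finset.smul_sum]
    refine Finset.sum_congr rfl fun i _ => ?_
    rw [comp_zsmul, LinearMap.comp_assoc, opV_comp V (ok_dl i a) (ok_le (by omega)), hA, hB,
      smul_comm]
    rfl
  have hR2 : ((-1 : ℤ) ^ a • crv V Z (a + b + 1) a (b + 1) φ (dS k Z b ψ)) z =
      ∑ j ∈ Finset.range (b + 2), (-1 : ℤ) ^ (a + j) •
        A ((fun t => t + a) ∘ dl j) • B id := by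
    show (-1 : ℤ) ^ a • (∑ j ∈ Finset.range (b + 2), (-1 : ℤ) ^ j •
      ψ (Z.op b (b + 1) (dl j) (Z.op (b + 1) (a + b + 1) (fun t => t + a) z))) •
        φ.comp (V.op a (a + b + 1) id) = _
    rw [Finset.sum_smul, Finset.smul_sum]
    refine Finset.sum_congr rfl fun j _ => ?_
    rw [Z.op_op (ok_dl j b) (ok_add (by omega)), hA, hB, smul_assoc, smul_smul, ← pow_add]
  have hT1 : ∀ i, i ≤ a → A (dl i ∘ fun t => t + a) • B (dl i ∘ id) =
      A (fun t => t + (a + 1)) • B (dl i) := by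
    intro i hi
    have e1 : (dl i ∘ fun t => t + a) = fun t => t + (a + 1) := by
      funext t
      show dl i (t + a) = t + (a + 1)
      unfold dl
      rw [if_neg (by omega)]
      rfl
    rw [e1]
    rfl
  have hBid : ∀ i, a < i → i ≤ a + b + 1 → B (dl i) = B id := by
    intro i hi hi'
    have e1 : V.op a (a + b + 1) (dl i) = V.op a (a + b + 1) id := by
      refine opV_congr V ⟨(dl_strictMono i).monotone, fun t ht => ?_⟩ (ok_le (by omega))
        fun t ht => ?_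
      · unfold dl
        rw [if_pos (by omega)]
        omega
      · unfold dl
        rw [if_pos (by omega)]
        rfl
    rw [hB]
    show φ.comp (V.op a (a + b + 1) (dl i)) = φ.comp (V.op a (a + b + 1) id)
    rw [e1]
  have hT2 : ∀ j, j < b + 1 → A (dl (a + 1 + j) ∘ fun t => t + a) • B (dl (a + 1 + j) ∘ id) =
      A ((fun t => t + a) ∘ dl (j + 1)) • B id := by
    intro j hj
    have e1 : (dl (a + 1 + j) ∘ fun t => t + a) = (fun t => t + a) ∘ dl (j + 1) := by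
      funext t
      show dl (a + 1 + j) (t + a) = dl (j + 1) t + a
      unfold dl
      split_ifs <;> omega
    rw [e1]
    show A ((fun t => t + a) ∘ dl (j + 1)) • B (dl (a + 1 + j)) = _
    rw [hBid _ (by omega) (by omega)]
  have hx : (-1 : ℤ) ^ (a + 1) • A (fun t => t + (a + 1)) • B (dl (a + 1)) +
      (-1 : ℤ) ^ (a + 0) • A ((fun t => t + a) ∘ dl 0) • B id = 0 := by
    have e1 : ((fun t => t + a) ∘ dl 0) = fun t => t + (a + 1) := by
      funext t
      show dl 0 t + a = t + (a + 1)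
      unfold dl
      rw [if_neg (by omega)]
      omega
    rw [e1, hBid (a + 1) (by omega) (by omega), pow_succ, add_zero, mul_neg_one, neg_smul,
      neg_add_cancel]
  show dC V Z (a + b) (crv V Z (a + b) a b φ ψ) z = crv V Z (a + b + 1) (a + 1) b (dV V a φ) ψ z +
    ((-1 : ℤ) ^ a • crv V Z (a + b + 1) a (b + 1) φ (dS k Z b ψ)) z
  rw [hL, hR1, hR2, show a + b + 2 = (a + 1) + (b + 1) by omega, Finset.sum_range_add,
    Finset.sum_range_succ (n := a + 1), Finset.sum_range_succ' (n := b + 1)]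
  have s1 : ∑ i ∈ Finset.range (a + 1), (-1 : ℤ) ^ i •
      A (dl i ∘ fun t => t + a) • B (dl i ∘ id) =
      ∑ i ∈ Finset.range (a + 1), (-1 : ℤ) ^ i • A (fun t => t + (a + 1)) • B (dl i) := by
    refine Finset.sum_congr rfl fun i hi => ?_
    rw [hT1 i (by have := Finset.mem_range.1 hi; omega)]
  have s2 : ∑ j ∈ Finset.range (b + 1), (-1 : ℤ) ^ (a + 1 + j) •
      A (dl (a + 1 + j) ∘ fun t => t + a) • B (dl (a + 1 + j) ∘ id) =
      ∑ j ∈ Finset.range (b + 1), (-1 : ℤ) ^ (a + (j + 1)) •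
        A ((fun t => t + a) ∘ dl (j + 1)) • B id := by
    refine Finset.sum_congr rfl fun j hj => ?_
    rw [hT2 j (Finset.mem_range.1 hj), show a + 1 + j = a + (j + 1) by omega]
  rw [s1, s2]
  have h3 : ∀ x y u v : Dual k (V.V (a + b + 1)), u + v = 0 → x + y = x + u + (y + v) := by
    intro x y u v huv
    have : x + u + (y + v) = x + y + (u + v) := by abel
    rw [this, huv, add_zero]
  exact h3 _ _ _ _ hx

theorem dC_crv_coc {n a b : ℕ} (h : a + b = n) (φ : Dual k (V.V a)) (ψ : Z.X b → k)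
    (hψ : dS k Z b ψ = 0) :
    dC V Z n (crv V Z n a b φ ψ) = crv V Z (n + 1) (a + 1) b (dV V a φ) ψ := by
  rw [dC_crv V Z h, hψ]
  have h1 : crv V Z (n + 1) a (b + 1) φ 0 = 0 := by
    funext z
    show (0 : k) • φ.comp (V.op a (n + 1) id) = 0
    rw [zero_smul]
  rw [h1, smul_zero, add_zero]

theorem crv_add {n a b : ℕ} (φ φ' : Dual k (V.V a)) (ψ : Z.X b → k) :
    crv V Z n a b (φ + φ') ψ = crv V Z n a b φ ψ + crv V Z n a b φ' ψ := by
  funext z
  show ψ (Z.op b n (fun i => i + a) z) • (φ + φ').comp (V.op a n id) =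
    ψ (Z.op b n (fun i => i + a) z) • φ.comp (V.op a n id) +
      ψ (Z.op b n (fun i => i + a) z) • φ'.comp (V.op a n id)
  rw [LinearMap.add_comp, smul_add]
theorem crv_sub {n a b : ℕ} (φ φ' : Dual k (V.V a)) (ψ : Z.X b → k) :
    crv V Z n a b (φ - φ') ψ = crv V Z n a b φ ψ - crv V Z n a b φ' ψ := by
  funext z
  show ψ (Z.op b n (fun i => i + a) z) • (φ - φ').comp (V.op a n id) =
    ψ (Z.op b n (fun i => i + a) z) • φ.comp (V.op a n id) -
      ψ (Z.op b n (fun i => i + a) z) • φ'.comp (V.op a n id)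
  rw [LinearMap.sub_comp, smul_sub]
theorem crv_zero {n a b : ℕ} (ψ : Z.X b → k) : crv V Z n a b 0 ψ = 0 := by
  funext z
  show ψ (Z.op b n (fun i => i + a) z) • (0 : Dual k (V.V a)).comp (V.op a n id) = 0
  rw [LinearMap.zero_comp, smul_zero]
theorem crv_smul {n a b : ℕ} (c : k) (φ : Dual k (V.V a)) (ψ : Z.X b → k) :
    crv V Z n a b (c • φ) ψ = crv V Z n a b φ (c • ψ) := by
  funext z
  show ψ (Z.op b n (fun i => i + a) z) • (c • φ).comp (V.op a n id) =
    (c • ψ (Z.op b n (fun i => i + a) z)) • φ.comp (V.op a n id)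
  rw [LinearMap.smul_comp, smul_smul, smul_eq_mul, mul_comm]

variable {V W}

theorem pbC_dC (F : SV.Hom V W) (n : ℕ) (θ : CC W Z n) :
    pbC F Z (n + 1) (dC W Z n θ) = dC V Z n (pbC F Z n θ) := by
  funext z
  refine LinearMap.ext fun x => ?_
  show (∑ i ∈ Finset.range (n + 2), (-1 : ℤ) ^ i •
    (θ (Z.op n (n + 1) (dl i) z)).comp (W.op n (n + 1) (dl i))) (F.f (n + 1) x) =
    (∑ i ∈ Finset.range (n + 2), (-1 : ℤ) ^ i •
    ((θ (Z.op n (n + 1) (dl i) z)).comp (F.f n)).comp (V.op n (n + 1) (dl i))) x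
  rw [LinearMap.sum_apply, LinearMap.sum_apply]
  refine Finset.sum_congr rfl fun i _ => ?_
  rw [LinearMap.smul_apply, LinearMap.smul_apply, LinearMap.comp_apply, LinearMap.comp_apply,
    LinearMap.comp_apply, F.comm (ok_dl i n)]

theorem comp_dV (F : SV.Hom V W) (n : ℕ) (φ : Dual k (W.V n)) :
    (dV W n φ).comp (F.f (n + 1)) = dV V n (φ.comp (F.f n)) := by
  refine LinearMap.ext fun x => ?_
  show (∑ i ∈ Finset.range (n + 2), (-1 : ℤ) ^ i •
    φ.comp (W.op n (n + 1) (dl i))) (F.f (n + 1) x) =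
    (∑ i ∈ Finset.range (n + 2), (-1 : ℤ) ^ i •
    (φ.comp (F.f n)).comp (V.op n (n + 1) (dl i))) x
  rw [LinearMap.sum_apply, LinearMap.sum_apply]
  refine Finset.sum_congr rfl fun i _ => ?_
  rw [LinearMap.smul_apply, LinearMap.smul_apply, LinearMap.comp_apply, LinearMap.comp_apply,
    LinearMap.comp_apply, F.comm (ok_dl i n)]

theorem pbC_crv (F : SV.Hom V W) {n a b : ℕ} (h : a + b = n) (φ : Dual k (W.V a)) (ψ : Z.X b → k) :
    pbC F Z n (crv W Z n a b φ ψ) = crv V Z n a b (φ.comp (F.f a)) ψ := by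
  funext z
  refine LinearMap.ext fun x => ?_
  show ψ (Z.op b n (fun i => i + a) z) • φ (W.op a n id (F.f n x)) =
    ψ (Z.op b n (fun i => i + a) z) • φ (F.f a (V.op a n id x))
  rw [F.comm (ok_le (by omega))]

theorem pbC_add (F : SV.Hom V W) (n : ℕ) (θ η : CC W Z n) :
    pbC F Z n (θ + η) = pbC F Z n θ + pbC F Z n η := by
  funext z
  exact LinearMap.add_comp _ _ _
theorem pbC_sub (F : SV.Hom V W) (n : ℕ) (θ η : CC W Z n) :
    pbC F Z n (θ - η) = pbC F Z n θ - pbC F Z n η := by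
  funext z
  exact LinearMap.sub_comp _ _ _

theorem pbC_KSum (F : SV.Hom V W) {I : ℕ → Type} [∀ b, Fintype (I b)] (ψ : ∀ b, I b → Z.X b → k)
    (n : ℕ) (φ : ∀ a b : ℕ, I b → Dual k (W.V a)) :
    pbC F Z n (KSum W Z ψ n φ) = KSum V Z ψ n (fun a b i => (φ a b i).comp (F.f a)) := by
  have hs : ∀ {ι : Type} (s : Finset ι) (g : ι → CC W Z n),
      pbC F Z n (∑ i ∈ s, g i) = ∑ i ∈ s, pbC F Z n (g i) := fun s g =>
    map_sum (AddMonoidHom.mk' (pbC F Z n) (pbC_add Z F n)) g s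
  unfold KSum
  rw [hs]
  refine Finset.sum_congr rfl fun ab hab => ?_
  rw [hs]
  refine Finset.sum_congr rfl fun i _ => ?_
  exact pbC_crv Z F (Finset.HasAntidiagonal.mem_antidiagonal.1 hab) _ _

variable (V)

private theorem d0_sec (n : ℕ) (x : V.V n) : V.d0 n (V.op (n + 1) n (sg 0) x) = x := by
  have h1 : Ok (n + 1) n (sg 0) := by
    refine ⟨fun i j hij => ?_, fun i hi => ?_⟩
    · unfold sg
      split_ifs <;> omega
    · unfold sg
      split_ifs <;> omega
  show V.op n (n + 1) (dl 0) (V.op (n + 1) n (sg 0) x) = x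
  rw [V.op_op (ok_dl 0 n) h1]
  have h2 : sg 0 ∘ dl 0 = id := by
    funext i
    show sg 0 (dl 0 i) = i
    unfold sg dl
    split_ifs <;> omega
  rw [h2, V.op_id]

theorem d0_surj (n : ℕ) : Function.Surjective (V.d0 n) := by
  exact fun x => ⟨V.op (n + 1) n (sg 0) x, d0_sec V n x⟩

theorem exists_ext_Om (n : ℕ) (g : Dual k (V.Om.V n)) :
    ∃ G : Dual k (V.P.V n), G.comp (V.iO.f n) = g := by
  exact LinearMap.exists_extend (p := LinearMap.ker (V.d0 n)) g

theorem exists_ext_OmC (n : ℕ) (g : CC V.Om Z n) : ∃ G : CC V.P Z n, pbC V.iO Z n G = g := by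
  choose G hG using fun z => exists_ext_Om V n (g z)
  exact ⟨G, funext hG⟩

theorem desc_Om (n : ℕ) (φ : Dual k (V.P.V n)) (h : φ.comp (V.iO.f n) = 0) :
    ∃ φ' : Dual k (V.V n), φ = φ'.comp (V.dP.f n) := by
  refine ⟨φ.comp (V.op (n + 1) n (sg 0)), LinearMap.ext fun x => ?_⟩
  obtain ⟨y, hy⟩ : ∃ y : V.P.V n, y = V.op (n + 1) n (sg 0) (V.d0 n x) := ⟨_, rfl⟩
  have hy2 : V.d0 n y = V.d0 n x := by rw [hy]; exact d0_sec V n _
  have h1 : x - y ∈ LinearMap.ker (V.d0 n) := by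
    rw [LinearMap.mem_ker, map_sub, hy2, sub_self]
  have h3 : φ (x - y) = 0 := LinearMap.congr_fun h (⟨_, h1⟩ : V.Om.V n)
  rw [map_sub] at h3
  show φ x = φ (V.op (n + 1) n (sg 0) (V.d0 n x))
  rw [← hy]
  exact sub_eq_zero.1 h3

theorem desc_OmC (n : ℕ) (φ : CC V.P Z n) (h : pbC V.iO Z n φ = 0) :
    ∃ φ' : CC V Z n, φ = pbC V.dP Z n φ' := by
  choose G hG using fun z => desc_Om V n (φ z) (congrFun h z)
  exact ⟨G, funext hG⟩

theorem iO_dP (n : ℕ) (φ : Dual k (V.V n)) : (φ.comp (V.dP.f n)).comp (V.iO.f n) = 0 := by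
  refine LinearMap.ext fun x => ?_
  have h1 : V.d0 n x.1 = 0 := x.2
  show φ (V.d0 n x.1) = 0
  rw [h1, map_zero]

theorem iO_dPC (n : ℕ) (φ : CC V Z n) : pbC V.iO Z n (pbC V.dP Z n φ) = 0 := by
  funext z
  exact iO_dP V n (φ z)

theorem dP_inj (n : ℕ) (φ : Dual k (V.V n)) (h : φ.comp (V.dP.f n) = 0) : φ = 0 := by
  refine LinearMap.ext fun x => ?_
  obtain ⟨y, hy⟩ := d0_surj V n x
  have h1 := LinearMap.congr_fun h y
  rw [← hy]
  exact h1

theorem dP_injC (n : ℕ) (φ : CC V Z n) (h : pbC V.dP Z n φ = 0) : φ = 0 := by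
  funext z
  exact dP_inj V n (φ z) (congrFun h z)

end BPN.E
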