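import Pool.Agent.BPN.E.KSVp

/-!
# Part (E), module KSVc: Kuenneth theorem for simplicial vector spaces (project BPN, helper30)

PROOF.  Induction on `n`, for all `V`; `π = V.dP : P V → V`, `ι = V.iO : Ω V → P V`; `S(n)`, `I(n)` denote the two
statements in degree `n`; index `i ∈ I b` suppressed.
`I(0)`: `∑_i φ_i × ψ_{0,i} = 0`; evaluate at `v ∈ V_0`: `∑ φ_i(v) ψ_{0,i} = 0`, `KB.indep`.
`S(0)`: `π^* θ = ∑ φ_i × ψ_{0,i}` (`P_surj`), restrict to `Ω V`: `0 = ∑ ι^*φ_i × ψ_{0,i}`, `I(0)` for `Ω V`: `ι^* φ_i = 0`, so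
`φ_i = π^* φ'_i` (`desc_Om`), `φ'_i` is a cocycle and `θ = ∑ φ'_i × ψ_{0,i}` (`dP_inj`, `dP_injC`).
`I(n)`, `n ≥ 1`: `∑ φ_b × ψ_b = δ η`.  `P_inj`: `π^* φ_b = δ e_b` for `b < n` and `π^* φ_n = 0`, so `φ_n = 0`.
`π^*η - ∑_{b<n} e_b × ψ_b` is a cocycle of degree `n - 1` on `(P V, Z)`, by `P_surj` equal to
`∑ f × ψ_{n-1} + δ ζ` (`δ ζ` absent if `n = 1`), `f` cocycles of degree `0`; replace `e_{n-1}` by `e_{n-1} + f`: now
`π^* η = ∑_{b<n} e_b × ψ_b + δ ζ`, still `δ e_b = π^* φ_b`.  Restrict to `Ω V`: `0 = ∑ ι^*e_b × ψ_b + δ ι^*ζ`, `ι^* e_b`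
cocycles; by `I(n-1)` for `Ω V`: `ι^* e_b` is a coboundary `δ g_b`, or `0` if it has degree `0`.  Extend `g_b` to
`G_b` on `P V`; `e_b - δ G_b = π^* e'_b` (`desc_Om`), and `π^* δ e'_b = δ e_b = π^* φ_b`, so `φ_b = δ e'_b`.
`S(n)`, `n ≥ 1`: `π^* θ = ∑_i φ_i × ψ_{n,i} + δ η`, `φ_i` cocycles of degree `0` (`P_surj`).  Restrict to `Ω V`:
`∑ ι^*φ_i × ψ_{n,i}` is a coboundary, so `ι^* φ_i = 0` by `I(n)` for `Ω V` (prove `I(n)` for all `V` first), so
`φ_i = π^* φ'_i`, `φ'_i` cocycles.  Replace `θ` by `θ - ∑ φ'_i × ψ_{n,i}`: now `π^* θ = δ η`, `ι^* η` is a cocycle of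
degree `n - 1`; `S(n-1)` for `Ω V`: `ι^* η = ∑ g_b × ψ_b + δ ζ`; extend `g_b` to `G_b`, `ζ` to `Z'` on `P V`;
`δ G_b` vanishes on `Ω V`, so `δ G_b = π^* γ_b`, `γ_b` cocycles of degree `n - b`; `η - ∑ G_b × ψ_b - δ Z' = π^* η'`.  Then
`π^* θ = δ η = ∑ π^* γ_b × ψ_b + π^* δ η'`, so `θ = ∑ γ_b × ψ_b + δ η'` (`dC_crv_coc`, `dP_injC`).
-/

namespace BPN.E

open Module

variable {k : Type} [Field k] {Z : SS} {I : ℕ → Type} [∀ b, Fintype (I b)]
  {ψ : ∀ b, I b → Z.X b → k}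

/-- Coboundary of a family, shifted. -/
def dsh (V : SV k) {I : ℕ → Type} (e : ∀ a b : ℕ, I b → Dual k (V.V a)) :
    ∀ a b : ℕ, I b → Dual k (V.V a)
  | 0, _, _ => 0
  | a + 1, b, i => dV V a (e a b i)

/-- A family concentrated in the bidegree `(0, n)`. -/
def sng (V : SV k) {I : ℕ → Type} (n : ℕ) (c : I n → Dual k (V.V 0)) :
    ∀ a b : ℕ, I b → Dual k (V.V a)
  | 0, b, i => if h : b = n then c (h ▸ i) else 0
  | _ + 1, _, _ => 0

theorem sng_self (V : SV k) {I : ℕ → Type} (n : ℕ) (c : I n → Dual k (V.V 0)) (i : I n) :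
    sng V n c 0 n i = c i := by
  simp [sng]

theorem sng_coc (V : SV k) {I : ℕ → Type} (n : ℕ) (c : I n → Dual k (V.V 0))
    (hc : ∀ i, dV V 0 (c i) = 0) (a b : ℕ) (i : I b) : dV V a (sng V n c a b i) = 0 := by
  cases a with
  | zero =>
    by_cases h : b = n
    · subst h
      rw [sng_self]
      exact hc i
    · simp only [sng, h, dif_neg, not_false_eq_true]
      exact dV_zero V 0
  | succ a => exact dV_zero V (a + 1)

theorem sng_comp {V W : SV k} (F : SV.Hom V W) {I : ℕ → Type} (n : ℕ) (c : I n → Dual k (W.V 0))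
    (a b : ℕ) (i : I b) :
    (sng W n c a b i).comp (F.f a) = sng V n (fun i => (c i).comp (F.f 0)) a b i := by
  cases a with
  | zero =>
    by_cases h : b = n
    · subst h
      rw [sng_self, sng_self]
    · simp only [sng, h, dif_neg, not_false_eq_true, LinearMap.zero_comp]
  | succ a => exact LinearMap.zero_comp _

theorem KSum_congr {V : SV k} {n : ℕ} {φ φ' : ∀ a b : ℕ, I b → Dual k (V.V a)}
    (h : ∀ a b i, a + b = n → φ a b i = φ' a b i) :
    KSum V Z ψ n φ = KSum V Z ψ n φ' := by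
  unfold KSum
  refine Finset.sum_congr rfl fun ab hab => Finset.sum_congr rfl fun i _ => ?_
  rw [h _ _ _ (Finset.HasAntidiagonal.mem_antidiagonal.1 hab)]

theorem KSum_add (V : SV k) (n : ℕ) (φ φ' : ∀ a b : ℕ, I b → Dual k (V.V a)) :
    KSum V Z ψ n (fun a b i => φ a b i + φ' a b i) = KSum V Z ψ n φ + KSum V Z ψ n φ' := by
  unfold KSum
  rw [← Finset.sum_add_distrib]
  refine Finset.sum_congr rfl fun ab _ => ?_
  rw [← Finset.sum_add_distrib]
  exact Finset.sum_congr rfl fun i _ => crv_add V Z _ _ _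

theorem KSum_sng (V : SV k) (n : ℕ) (c : I n → Dual k (V.V 0)) :
    KSum V Z ψ n (sng V n c) = ∑ i, crv V Z n 0 n (c i) (ψ n i) := by
  unfold KSum
  rw [Finset.sum_eq_single (0, n)]
  · refine Finset.sum_congr rfl fun i _ => ?_
    rw [show sng V n c (0, n).1 (0, n).2 i = c i from sng_self V n c i]
  · rintro ⟨a, b⟩ hab hne
    refine Finset.sum_eq_zero fun i _ => ?_
    cases a with
    | zero =>
      exfalso
      apply hne
      have := Finset.HasAntidiagonal.mem_antidiagonal.1 hab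
      simp only [zero_add] at this
      rw [this]
    | succ a => exact crv_zero V Z _
  · intro h
    exfalso
    exact h (Finset.HasAntidiagonal.mem_antidiagonal.2 (Nat.zero_add n))

theorem dC_KSum (hψ : KB Z ψ) (V : SV k) (n : ℕ) (e : ∀ a b : ℕ, I b → Dual k (V.V a)) :
    dC V Z n (KSum V Z ψ n e) = KSum V Z ψ (n + 1) (dsh V e) := by
  unfold KSum
  rw [dC_sum, Finset.Nat.sum_antidiagonal_succ]
  have h0 : (∑ i : I (0, n + 1).2, crv V Z (n + 1) (0, n + 1).1 (0, n + 1).2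
      (dsh V e (0, n + 1).1 (0, n + 1).2 i) (ψ (0, n + 1).2 i)) = 0 :=
    Finset.sum_eq_zero fun i _ => crv_zero V Z _
  rw [h0, zero_add]
  refine Finset.sum_congr rfl fun ab hab => ?_
  rw [dC_sum]
  refine Finset.sum_congr rfl fun i _ => ?_
  exact dC_crv_coc V Z (Finset.HasAntidiagonal.mem_antidiagonal.1 hab) _ _ (hψ.coc _ _)

theorem BdC_neg {V : SV k} : ∀ {n : ℕ} {θ : CC V Z n}, BdC V Z n (-θ) → BdC V Z n θ
  | 0, θ, h => by
    have h' : -θ = 0 := h
    exact neg_eq_zero.1 h'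
  | n + 1, θ, ⟨e, he⟩ => ⟨-e, by rw [dC_neg, ← he, neg_neg]⟩

theorem BdC_pb {V W : SV k} (F : SV.Hom V W) : ∀ {n : ℕ} {θ : CC W Z n}, BdC W Z n θ →
    BdC V Z n (pbC F Z n θ)
  | 0, θ, h => by
    have h' : θ = 0 := h
    subst h'
    exact funext fun z => LinearMap.zero_comp _
  | n + 1, θ, ⟨e, he⟩ => ⟨pbC F Z n e, by rw [he, pbC_dC]⟩

/-- Descent of a functional whose restriction to the loop object is a coboundary. -/
theorem descend (V : SV k) : ∀ (a : ℕ) (e : Dual k (V.P.V a)), BdV V.Om a (e.comp (V.iO.f a)) →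
    ∃ e' : Dual k (V.V a), dV V.P a e = (dV V a e').comp (V.dP.f (a + 1))
  | 0, e, h => by
    obtain ⟨e', he'⟩ := desc_Om V 0 e h
    exact ⟨e', by rw [he', comp_dV]⟩
  | a + 1, e, ⟨g, hg⟩ => by
    obtain ⟨G, hG⟩ := exists_ext_Om V a g
    obtain ⟨e', he'⟩ := desc_Om V (a + 1) (e - dV V.P a G) (by
      rw [LinearMap.sub_comp, hg, comp_dV, hG, sub_self])
    refine ⟨e', ?_⟩
    rw [comp_dV, ← he', dV_sub, dV_dV, sub_zero]

/-- Descent of a cochain whose restriction to the loop object is a coboundary. -/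
theorem descendC (V : SV k) : ∀ (n : ℕ) (e : CC V.P Z n), BdC V.Om Z n (pbC V.iO Z n e) →
    ∃ e' : CC V Z n, dC V.P Z n e = pbC V.dP Z (n + 1) (dC V Z n e')
  | 0, e, h => by
    obtain ⟨e', he'⟩ := desc_OmC V Z 0 e h
    exact ⟨e', by rw [he', pbC_dC]⟩
  | a + 1, e, ⟨g, hg⟩ => by
    obtain ⟨G, hG⟩ := exists_ext_OmC V Z a g
    obtain ⟨e', he'⟩ := desc_OmC V Z (a + 1) (e - dC V.P Z a G) (by
      rw [pbC_sub, hg, pbC_dC, hG, sub_self])
    refine ⟨e', ?_⟩
    rw [pbC_dC, ← he', dC_sub, dC_dC, sub_zero]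

theorem dP_eq (V : SV k) {n : ℕ} {φ φ' : Dual k (V.V n)}
    (h : φ.comp (V.dP.f n) = φ'.comp (V.dP.f n)) : φ = φ' := by
  rw [← sub_eq_zero]
  apply dP_inj V n
  rw [LinearMap.sub_comp, h, sub_self]

theorem dP_eqC (V : SV k) {n : ℕ} {φ φ' : CC V Z n}
    (h : pbC V.dP Z n φ = pbC V.dP Z n φ') : φ = φ' := by
  rw [← sub_eq_zero]
  apply dP_injC V Z n
  rw [pbC_sub, h, sub_self]

theorem kun_inj_zero (hψ : KB Z ψ) (V : SV k) (φ : ∀ a b : ℕ, I b → Dual k (V.V a))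
    (h : BdC V Z 0 (KSum V Z ψ 0 φ)) (i : I 0) : φ 0 0 i = 0 := by
  have h' : KSum V Z ψ 0 φ = 0 := h
  apply LinearMap.ext
  intro v
  have key : (fun i => φ 0 0 i v) = (0 : I 0 → k) := by
    apply hψ.indep 0
    change (∑ i, (φ 0 0 i v) • ψ 0 i) = 0
    funext z
    have hz := congrArg (fun θ : CC V Z 0 => θ z v) h'
    have e1 : (KSum V Z ψ 0 φ) z v = ∑ i : I 0, ψ 0 i z * φ 0 0 i v := by
      unfold KSum
      rw [Finset.HasAntidiagonal.antidiagonal_zero, Finset.sum_singleton]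
      rw [Finset.sum_apply, LinearMap.sum_apply]
      refine Finset.sum_congr rfl fun i _ => ?_
      change ψ 0 i (Z.op 0 0 (fun i => i + 0) z) • (φ 0 0 i) (V.op 0 0 id v) = _
      rw [show (fun i : ℕ => i + 0) = id from rfl, Z.op_id, V.op_id, smul_eq_mul]
    change (KSum V Z ψ 0 φ) z v = 0 at hz
    rw [e1] at hz
    rw [Finset.sum_apply, Pi.zero_apply, ← hz]
    exact Finset.sum_congr rfl fun i _ => mul_comm _ _
  exact congrFun key i

theorem kun_inj_step (hψ : KB Z ψ) (n : ℕ)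
    (IH : ∀ (V : SV k) (φ : ∀ a b : ℕ, I b → Dual k (V.V a)),
      (∀ a b i, a + b = n → dV V a (φ a b i) = 0) → BdC V Z n (KSum V Z ψ n φ) →
      ∀ a b i, a + b = n → BdV V a (φ a b i))
    (V : SV k) (φ : ∀ a b : ℕ, I b → Dual k (V.V a))
    (hφ : ∀ a b i, a + b = n + 1 → dV V a (φ a b i) = 0)
    (η : CC V Z n) (hη : KSum V Z ψ (n + 1) φ = dC V Z n η) :
    ∀ a b i, a + b = n + 1 → BdV V a (φ a b i) := by
  have hP : KSum V.P Z ψ (n + 1) (fun a b i => (φ a b i).comp (V.dP.f a)) =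
      dC V.P Z n (pbC V.dP Z n η) := by
    rw [← pbC_KSum, hη, pbC_dC]
  have hB := P_inj V Z hψ (n + 1) (fun a b i => (φ a b i).comp (V.dP.f a))
    (fun a b i hab => by
      rw [← comp_dV, hφ a b i hab, LinearMap.zero_comp]) ⟨_, hP⟩
  have h0 : ∀ i : I (n + 1), φ 0 (n + 1) i = 0 := fun i =>
    dP_inj V 0 _ (hB 0 (n + 1) i (Nat.zero_add _))
  have hex : ∀ a b (i : I b), ∃ e : Dual k (V.P.V a), a + b = n →
      (φ (a + 1) b i).comp (V.dP.f (a + 1)) = dV V.P a e := by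
    intro a b i
    by_cases hab : a + b = n
    · obtain ⟨e, he⟩ := hB (a + 1) b i (by omega)
      exact ⟨e, fun _ => he⟩
    · exact ⟨0, fun h => absurd h hab⟩
  choose e he using hex
  have hcoc : dC V.P Z n (pbC V.dP Z n η - KSum V.P Z ψ n e) = 0 := by
    rw [dC_sub, ← hP, dC_KSum hψ, sub_eq_zero]
    apply KSum_congr
    intro a b i hab
    cases a with
    | zero =>
      obtain rfl : b = n + 1 := by omega
      rw [h0 i, LinearMap.zero_comp]
      rfl
    | succ a => exact he a b i (by omega)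
  obtain ⟨c, hc, hBd⟩ := P_surj V Z hψ n _ hcoc
  rw [← KSum_sng, sub_sub, ← KSum_add] at hBd
  have he' : ∀ a b (i : I b), a + b = n →
      (φ (a + 1) b i).comp (V.dP.f (a + 1)) = dV V.P a (e a b i + sng V.P n c a b i) := by
    intro a b i hab
    rw [dV_add, sng_coc V.P n c hc, add_zero]
    exact he a b i hab
  have hO := BdC_pb V.iO hBd
  rw [pbC_sub, iO_dPC, zero_sub] at hO
  replace hO := BdC_neg hO
  rw [pbC_KSum] at hO
  have hI := IH V.Om _ (fun a b i hab => by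
    rw [← comp_dV, ← he' a b i hab, iO_dP]) hO
  intro a b i hab
  cases a with
  | zero =>
    obtain rfl : b = n + 1 := by omega
    exact h0 i
  | succ a =>
    obtain ⟨e', hee⟩ := descend V a _ (hI a b i (by omega))
    refine ⟨e', dP_eq V ?_⟩
    rw [← hee]
    exact he' a b i (by omega)

theorem kun_inj (hψ : KB Z ψ) (n : ℕ) : ∀ (V : SV k) (φ : ∀ a b : ℕ, I b → Dual k (V.V a)),
    (∀ a b i, a + b = n → dV V a (φ a b i) = 0) → BdC V Z n (KSum V Z ψ n φ) →
    ∀ a b i, a + b = n → BdV V a (φ a b i) := by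
  induction n with
  | zero =>
    intro V φ _ h a b i hab
    obtain rfl : a = 0 := by omega
    obtain rfl : b = 0 := by omega
    exact kun_inj_zero hψ V φ h i
  | succ n IH =>
    intro V φ hφ h
    obtain ⟨η, hη⟩ := h
    exact kun_inj_step hψ n IH V φ hφ η hη

/-- First step of surjectivity: descent of the classes of degree `0`. -/
theorem kun_low (hψ : KB Z ψ) (n : ℕ) (V : SV k) (θ : CC V Z n) (hθ : dC V Z n θ = 0) :
    ∃ c : I n → Dual k (V.V 0), (∀ i, dV V 0 (c i) = 0) ∧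
      BdC V.P Z n (pbC V.dP Z n (θ - KSum V Z ψ n (sng V n c))) := by
  obtain ⟨c, hc, hBd⟩ := P_surj V Z hψ n (pbC V.dP Z n θ) (by
    rw [← pbC_dC, hθ]
    exact funext fun z => LinearMap.zero_comp _)
  rw [← KSum_sng] at hBd
  have hO := BdC_pb V.iO hBd
  rw [pbC_sub, iO_dPC, zero_sub] at hO
  replace hO := BdC_neg hO
  rw [pbC_KSum] at hO
  have hI := kun_inj hψ n V.Om _ (fun a b i _ => by
    rw [← comp_dV, sng_coc V.P n c hc, LinearMap.zero_comp]) hO
  have hd : ∀ i : I n, ∃ c' : Dual k (V.V 0), c i = c'.comp (V.dP.f 0) := by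
    intro i
    apply desc_Om V 0
    have := hI 0 n i (Nat.zero_add n)
    rw [sng_self] at this
    exact this
  choose c' hc' using hd
  refine ⟨c', fun i => ?_, ?_⟩
  · apply dP_inj V 1
    rw [comp_dV, ← hc' i]
    exact hc i
  · rw [pbC_sub, pbC_KSum]
    have : (fun a b (i : I b) => (sng V n c' a b i).comp (V.dP.f a)) = sng V.P n c := by
      funext a b i
      rw [sng_comp]
      congr 1
      funext i
      exact (hc' i).symm
    rw [this]
    exact hBd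

theorem kun_surj (hψ : KB Z ψ) (n : ℕ) : ∀ (V : SV k) (θ : CC V Z n), dC V Z n θ = 0 →
    ∃ φ : ∀ a b : ℕ, I b → Dual k (V.V a), (∀ a b i, dV V a (φ a b i) = 0) ∧
      BdC V Z n (θ - KSum V Z ψ n φ) := by
  induction n with
  | zero =>
    intro V θ hθ
    obtain ⟨c, hc, hBd⟩ := kun_low hψ 0 V θ hθ
    refine ⟨sng V 0 c, fun a b i => sng_coc V 0 c hc a b i, ?_⟩
    exact dP_injC V Z 0 _ hBd
  | succ n IH =>
    intro V θ hθ
    obtain ⟨c, hc, η, hη⟩ := kun_low hψ (n + 1) V θ hθ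
    have hcO : dC V.Om Z n (pbC V.iO Z n η) = 0 := by
      rw [← pbC_dC, ← hη, iO_dPC]
    obtain ⟨g, hg, hgB⟩ := IH V.Om _ hcO
    have hGe : ∀ a b (i : I b), ∃ G : Dual k (V.P.V a), G.comp (V.iO.f a) = g a b i :=
      fun a b i => exists_ext_Om V a _
    choose G hG using hGe
    have hgG : pbC V.iO Z n (KSum V.P Z ψ n G) = KSum V.Om Z ψ n g := by
      rw [pbC_KSum]
      exact KSum_congr fun a b i _ => hG a b i
    rw [← hgG, ← pbC_sub] at hgB
    obtain ⟨η', hη'⟩ := descendC V n _ hgB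
    have hγe : ∀ a b (i : I b), ∃ γ : Dual k (V.V (a + 1)), dV V.P a (G a b i) =
        γ.comp (V.dP.f (a + 1)) := by
      intro a b i
      apply desc_Om V (a + 1)
      rw [comp_dV, hG]
      exact hg a b i
    choose γ hγ using hγe
    have hγc : ∀ a b (i : I b), dV V (a + 1) (γ a b i) = 0 := by
      intro a b i
      apply dP_inj V (a + 2)
      rw [comp_dV, ← hγ, dV_dV]
    let Γ : ∀ a b : ℕ, I b → Dual k (V.V a) := fun a => match a with
      | 0 => fun _ _ => 0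
      | a + 1 => fun b i => γ a b i
    have hΓ : dC V.P Z n (KSum V.P Z ψ n G) = pbC V.dP Z (n + 1) (KSum V Z ψ (n + 1) Γ) := by
      rw [dC_KSum hψ, pbC_KSum]
      apply KSum_congr
      intro a b i _
      cases a with
      | zero => exact (LinearMap.zero_comp _).symm
      | succ a => exact hγ a b i
    refine ⟨fun a b i => sng V (n + 1) c a b i + Γ a b i, fun a b i => ?_, η', ?_⟩
    · rw [dV_add, sng_coc V (n + 1) c hc, zero_add]
      cases a with
      | zero => exact dV_zero V 0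
      | succ a => exact hγc a b i
    · rw [KSum_add, ← sub_sub]
      apply dP_eqC V
      rw [pbC_sub, hη, ← hΓ, ← dC_sub]
      exact hη'

end BPN.E
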