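import Pool.Agent.BPN.E.KSVb

/-!
# Part (E), module KSVp: Kuenneth theorem for path objects (project BPN, helper30)

`W = V.P`, `W_n = V_{n+1}`.

HOMOTOPY.  For `j ≤ n` let `th j : ℕ → ℕ`, `th j i = 0` for `i ≤ j + 1`, `th j i = i - 1` for `i > j + 1` (this is
`BPN.E.th` of `Defs`), so `V.op (n+2) (n+1) (th j) : W_n → W_{n+1}`: the vertex `0` of `V` stays, the first `j + 1` vertices
of `W` become the vertex `0` of `V`, and the remaining vertices are `j, .., n` (shifted).  For a cochain `θ` of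
degree `n + 1` on `(W, Z)` put `(H θ)(z)(v) = ∑_{j=0}^{n} (-1)^j θ (s_j z)(V.op (n+2) (n+1) (th j) v)`,
`s_j z = Z.op (n+1) n (sg j) z`.  Then (for `θ` of degree `n`)
`δ (H θ) + H (δ θ) = θ - c^* θ` up to a global sign, where `c = V.op (n+1) (n+1) (fun _ => 0)` (all vertices become the
vertex `0`; use the function `f 0 = 0, f i = 0`), i.e. `(c^* θ)(z) = θ z ∘ V.op (n+1) (n+1) 0`.  (Usual prism computation:
the face `i < j` of the `j`-th simplex is the `(j-1)`-st simplex of the `i`-th face, `i > j + 1` similarly, the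
faces `j` and `j + 1` telescope; on the side of `W` the face `d_i^W = V.op .. (jmf (dl i))`.)  Check the signs: for
`n = 0`, `θ` of degree `0`: `(H δ θ)(z)(v) = (δ θ)(s_0 z)(th 0 v) = θ(z)(d_0^W th_0 v) - θ(z)(d_1^W th_0 v) = θ(z)(v) - θ(z)(c v)`.

`P_surj`: `θ ~ c^* θ`.  The cochain `c^* θ` is `z ↦ (θ z ∘ u_n) ∘ V.op 0 (n+1) 0` with `u_n = V.op (n+1) 0 0 : V_0 → V_{n+1}`; put
`Θ z = θ z ∘ u_n ∈ Dual V_0`.  For every `v ∈ V_0` the function `z ↦ Θ z v` is a cocycle of `Z`, so there are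
unique `c_i(v)` with `Θ(·) v - ∑ c_i(v) ψ_{n,i}` a coboundary (`KB.span`, `KB.indep`), linear in `v`; choosing the
bounding functions on a basis of `V_0` and extending linearly, `Θ = ∑ c_i ψ_{n,i} + δ E` with `E : Z_{n-1} → Dual V_0`.
Compose with `V.op 0 (n+1) 0` (the vertex `0`), which is natural: the classes `c_i ∘ V.op 0 1 0` are cocycles of degree
`0` on `V.P` (for `V.P`, degree `0` is `V_1`).
`P_acy`: the same homotopy without `Z` (or `Z` = point): every cocycle of degree `a + 1` of `V.P` is a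
coboundary, because `c^* φ` is then constant: `c^*φ = φ ∘ (V.op (a+2) 0 0) ∘ (V.op 0 (a+2) 0)`, and the coboundary of the cochain
`φ ∘ (V.op (a+2) 0 0) ∘ V.op 0 (a+1) 0` is `0` or `c^* φ`; if it is `0` (`a + 1` odd: number `a + 2` of faces is odd...)
use `c^* φ` cocycle instead: the cocycle condition says `∑_{i=0}^{a+2} (-1)^i φ∘const = 0`, so either `c^* φ = 0` or it is
the coboundary of the constant cochain.
`P_inj`: for `a ≥ 1` by `P_acy`.  For `a = 0`, `b = n`: `KSum = δ η`; modulo coboundaries only the terms with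
`a = 0` remain (the others are `δ(e × ψ)`), so `∑_i φ_{0,n,i} × ψ_{n,i}` is a coboundary; evaluate at the
degenerate simplices: apply `u`: for `v ∈ V_0`, `∑_i φ_{0,n,i}(V.op 1 0 0 v) ψ_{n,i}` is a coboundary of `Z`, so
`φ_{0,n,i} (V.op 1 0 0 v) = 0`; and a cocycle `φ` of degree `0` on `V.P` satisfies `φ = φ ∘ V.op 1 0 0 ∘ V.op 0 1 0` (cocycle
condition at `V.op 2 1 (th 0)`), so `φ = 0`.
-/

namespace BPN.E

open Module

variable {k : Type} [Field k] (V : SV k) (Z : SS)

/-! ### Combinatorics -/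

private theorem kp_prism {M : Type} [AddCommGroup M] (A B : ℕ → ℕ → M) (C : ℕ → M)
    (h1 : ∀ i j, i ≤ j → A i (j + 1) = B i j) (h2 : ∀ i j, j < i → A (i + 1) j = B i j)
    (h3 : ∀ j, A j j = C j) (h4 : ∀ j, A (j + 1) j = C (j + 1)) (n : ℕ) :
    ∑ j ∈ Finset.range (n + 1), ∑ i ∈ Finset.range (n + 2), (-1 : ℤ) ^ (i + j) • A i j +
      ∑ i ∈ Finset.range (n + 1), ∑ j ∈ Finset.range n, (-1 : ℤ) ^ (i + j) • B i j =
      C 0 - C (n + 1) := by
  induction n with
  | zero =>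
    rw [Finset.sum_range_one, Finset.sum_range_succ, Finset.sum_range_one, Finset.sum_range_one,
      Finset.sum_range_zero, h3, h4]
    simp only [add_zero, zero_add, pow_zero, pow_one, one_smul, neg_smul]
    rw [sub_eq_add_neg]
  | succ n ih =>
    have e1 : ∑ j ∈ Finset.range (n + 1 + 1), ∑ i ∈ Finset.range (n + 1 + 2),
        (-1 : ℤ) ^ (i + j) • A i j =
        ∑ j ∈ Finset.range (n + 1), ∑ i ∈ Finset.range (n + 2), (-1 : ℤ) ^ (i + j) • A i j +
        ∑ j ∈ Finset.range (n + 1), (-1 : ℤ) ^ (n + 2 + j) • A (n + 2) j +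
        (∑ i ∈ Finset.range (n + 1), (-1 : ℤ) ^ (i + (n + 1)) • A i (n + 1) +
          (-1 : ℤ) ^ (n + 1 + (n + 1)) • A (n + 1) (n + 1) +
          (-1 : ℤ) ^ (n + 2 + (n + 1)) • A (n + 2) (n + 1)) := by
      rw [Finset.sum_range_succ _ (n + 1)]
      congr 1
      · rw [← Finset.sum_add_distrib]
        exact Finset.sum_congr rfl fun j _ => Finset.sum_range_succ _ _
      · rw [Finset.sum_range_succ, Finset.sum_range_succ]
    have e2 : ∑ i ∈ Finset.range (n + 1 + 1), ∑ j ∈ Finset.range (n + 1),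
        (-1 : ℤ) ^ (i + j) • B i j =
        ∑ i ∈ Finset.range (n + 1), ∑ j ∈ Finset.range n, (-1 : ℤ) ^ (i + j) • B i j +
        ∑ i ∈ Finset.range (n + 1), (-1 : ℤ) ^ (i + n) • B i n +
        ∑ j ∈ Finset.range (n + 1), (-1 : ℤ) ^ (n + 1 + j) • B (n + 1) j := by
      rw [Finset.sum_range_succ _ (n + 1)]
      congr 1
      rw [← Finset.sum_add_distrib]
      exact Finset.sum_congr rfl fun j _ => Finset.sum_range_succ _ _
    have e3 : ∑ j ∈ Finset.range (n + 1), (-1 : ℤ) ^ (n + 2 + j) • A (n + 2) j =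
        -∑ j ∈ Finset.range (n + 1), (-1 : ℤ) ^ (n + 1 + j) • B (n + 1) j := by
      rw [← Finset.sum_neg_distrib]
      refine Finset.sum_congr rfl fun j hj => ?_
      rw [h2 (n + 1) j (Finset.mem_range.1 hj), ← neg_smul]
      congr 1
      rw [show n + 2 + j = n + 1 + j + 1 by omega, pow_succ]
      ring
    have e4 : ∑ i ∈ Finset.range (n + 1), (-1 : ℤ) ^ (i + (n + 1)) • A i (n + 1) =
        -∑ i ∈ Finset.range (n + 1), (-1 : ℤ) ^ (i + n) • B i n := by
      rw [← Finset.sum_neg_distrib]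
      refine Finset.sum_congr rfl fun i hi => ?_
      rw [h1 i n (Nat.le_of_lt_succ (Finset.mem_range.1 hi)), ← neg_smul]
      congr 1
      rw [← add_assoc, pow_succ]
      ring
    have e5 : (-1 : ℤ) ^ (n + 1 + (n + 1)) = 1 := Even.neg_one_pow ⟨n + 1, rfl⟩
    have e6 : (-1 : ℤ) ^ (n + 2 + (n + 1)) = -1 := Odd.neg_one_pow ⟨n + 1, by omega⟩
    rw [e1, e2, e3, e4, e5, e6, h3, h4 (n + 1), one_smul, neg_smul, one_smul]
    have ih' := ih
    rw [← sub_eq_zero] at ih' ⊢
    rw [← ih']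
    abel

private theorem kp_jmf (i : ℕ) : jmf (dl i) = dl (i + 1) := by
  funext j
  cases j with
  | zero => rfl
  | succ j =>
    simp only [jmf, dl]
    split_ifs <;> omega

/-- The intermediate operators of the prism. -/
private def cj (j x : ℕ) : ℕ := if x ≤ j then 0 else x

private theorem th_lt {i j : ℕ} (h : i ≤ j) : th (j + 1) ∘ dl (i + 1) = dl (i + 1) ∘ th j := by
  funext x
  simp only [Function.comp_apply, th, dl]
  split_ifs <;> omega

private theorem th_gt {i j : ℕ} (h : j < i) : th j ∘ dl (i + 1 + 1) = dl (i + 1) ∘ th j := by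
  funext x
  simp only [Function.comp_apply, th, dl]
  split_ifs <;> omega

private theorem th_eq (j : ℕ) : th j ∘ dl (j + 1) = cj j := by
  funext x
  simp only [Function.comp_apply, th, dl, cj]
  split_ifs <;> omega

private theorem th_succ (j : ℕ) : th j ∘ dl (j + 1 + 1) = cj (j + 1) := by
  funext x
  simp only [Function.comp_apply, th, dl, cj]
  split_ifs <;> omega

private theorem ok_th (j n : ℕ) : Ok (n + 2) (n + 1) (th j) := by
  refine ⟨fun a b hab => ?_, fun i hi => ?_⟩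
  · simp only [th]
    split_ifs <;> omega
  · simp only [th]
    split_ifs <;> omega

private theorem ok_sg {j n : ℕ} (h : j ≤ n) : Ok (n + 1) n (sg j) :=
  ⟨sg_mono j, fun i hi => by
    simp only [sg]
    split_ifs <;> omega⟩

private theorem ok_zero (a b : ℕ) : Ok a b (fun _ => 0) :=
  ⟨fun _ _ _ => le_rfl, fun _ _ => Nat.zero_le b⟩

private theorem ok_cj (j n : ℕ) : Ok n n (cj j) := by
  refine ⟨fun a b hab => ?_, fun i hi => ?_⟩
  · simp only [cj]
    split_ifs <;> omega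
  · simp only [cj]
    split_ifs <;> omega

/-! ### Operators on the path object -/

private def kpT (V : SV k) (n j : ℕ) : V.P.V n →ₗ[k] V.P.V (n + 1) := V.op (n + 2) (n + 1) (th j)

private def kpR (V : SV k) (n : ℕ) (f : ℕ → ℕ) : V.P.V n →ₗ[k] V.P.V n := V.op (n + 1) (n + 1) f

/-- degenerate simplices -/
private def kpU (V : SV k) (n : ℕ) : V.V 0 →ₗ[k] V.P.V n := V.op (n + 1) 0 (fun _ => 0)

/-- the vertex `0` -/
private def kpV (V : SV k) (n : ℕ) : V.P.V n →ₗ[k] V.V 0 := V.op 0 (n + 1) (fun _ => 0)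

private theorem kp_dT (n i j : ℕ) (v : V.P.V n) :
    V.P.op n (n + 1) (dl i) (kpT V n j v) = kpR V n (th j ∘ dl (i + 1)) v := by
  change V.op (n + 1) (n + 2) (jmf (dl i)) (V.op (n + 2) (n + 1) (th j) v) = _
  rw [kp_jmf, V.op_op (ok_dl (i + 1) (n + 1)) (ok_th j n)]
  rfl

private theorem kp_Td (n i j : ℕ) (v : V.P.V (n + 1)) :
    kpT V n j (V.P.op n (n + 1) (dl i) v) = kpR V (n + 1) (dl (i + 1) ∘ th j) v := by
  change V.op (n + 2) (n + 1) (th j) (V.op (n + 1) (n + 2) (jmf (dl i)) v) = _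
  rw [kp_jmf, V.op_op (ok_th j n) (ok_dl (i + 1) (n + 1))]
  rfl

private theorem kp_dU (n i : ℕ) (v : V.V 0) :
    V.P.op n (n + 1) (dl i) (kpU V (n + 1) v) = kpU V n v := by
  change V.op (n + 1) (n + 2) (jmf (dl i)) (V.op (n + 2) 0 (fun _ => 0) v) = _
  rw [kp_jmf, V.op_op (ok_dl (i + 1) (n + 1)) (ok_zero _ _)]
  rfl

private theorem kp_Vd (n i : ℕ) (v : V.P.V (n + 1)) :
    kpV V n (V.P.op n (n + 1) (dl i) v) = kpV V (n + 1) v := by
  change V.op 0 (n + 1) (fun _ => 0) (V.op (n + 1) (n + 2) (jmf (dl i)) v) = _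
  rw [kp_jmf, V.op_op (ok_zero _ _) (ok_dl (i + 1) (n + 1))]
  rfl

private theorem kp_UV (n : ℕ) (v : V.P.V n) : kpU V n (kpV V n v) = kpR V n (fun _ => 0) v :=
  V.op_op (ok_zero _ _) (ok_zero _ _) v

private theorem kp_R0 (n : ℕ) (v : V.P.V n) : kpR V n (cj 0) v = v := by
  change V.op (n + 1) (n + 1) (cj 0) v = v
  rw [V.op_congr (ok_cj 0 (n + 1)) (ok_id (n + 1)) (fun i _ => by
    simp only [cj, id]
    split_ifs <;> omega)]
  exact V.op_id _ v

private theorem kp_Rn (n : ℕ) (v : V.P.V n) : kpR V n (cj (n + 1)) v = kpR V n (fun _ => 0) v :=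
  V.op_congr (ok_cj (n + 1) (n + 1)) (ok_zero _ _) (fun i hi => by
    simp only [cj]
    rw [if_pos hi]) v

/-! ### The homotopy -/

private noncomputable def kpH (V : SV k) (Z : SS) (n : ℕ) (θ : CC V.P Z (n + 1)) : CC V.P Z n :=
  fun z => ∑ j ∈ Finset.range (n + 1), (-1 : ℤ) ^ j •
    (θ (Z.op (n + 1) n (sg j) z)).comp (kpT V n j)

private theorem kpH_apply (n : ℕ) (θ : CC V.P Z (n + 1)) (z : Z.X n) (v : V.P.V n) :
    kpH V Z n θ z v = ∑ j ∈ Finset.range (n + 1), (-1 : ℤ) ^ j •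
      θ (Z.op (n + 1) n (sg j) z) (kpT V n j v) := by
  unfold kpH
  rw [LinearMap.sum_apply]
  rfl

private theorem kp_dC (n : ℕ) (θ : CC V.P Z n) (z : Z.X (n + 1)) (v : V.P.V (n + 1)) :
    dC V.P Z n θ z v = ∑ i ∈ Finset.range (n + 2), (-1 : ℤ) ^ i •
      θ (Z.op n (n + 1) (dl i) z) (V.P.op n (n + 1) (dl i) v) := by
  unfold dC
  rw [LinearMap.sum_apply]
  rfl

private theorem kp_smul (i j : ℕ) (x : k) :
    (-1 : ℤ) ^ j • ((-1 : ℤ) ^ i • x) = (-1 : ℤ) ^ (i + j) • x := by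
  rw [smul_smul, ← pow_add, add_comm j i]

/-- the terms of the prism -/
private def kpA (V : SV k) (Z : SS) (n : ℕ) (θ : CC V.P Z n) (z : Z.X n) (v : V.P.V n)
    (i j : ℕ) : k := θ (Z.op n n (sg j ∘ dl i) z) (kpR V n (th j ∘ dl (i + 1)) v)

private def kpB (V : SV k) (Z : SS) (n : ℕ) (θ : CC V.P Z n) (z : Z.X n) (v : V.P.V n)
    (i j : ℕ) : k := θ (Z.op n n (dl i ∘ sg j) z) (kpR V n (dl (i + 1) ∘ th j) v)

private theorem kp_Hd (n : ℕ) (θ : CC V.P Z n) (z : Z.X n) (v : V.P.V n) :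
    kpH V Z n (dC V.P Z n θ) z v = ∑ j ∈ Finset.range (n + 1), ∑ i ∈ Finset.range (n + 2),
      (-1 : ℤ) ^ (i + j) • kpA V Z n θ z v i j := by
  rw [kpH_apply]
  refine Finset.sum_congr rfl fun j hj => ?_
  rw [kp_dC, Finset.smul_sum]
  refine Finset.sum_congr rfl fun i hi => ?_
  rw [kp_smul, kp_dT, Z.op_op (ok_dl i n) (ok_sg (Nat.le_of_lt_succ (Finset.mem_range.1 hj)))]
  rfl

private theorem kp_dH (n : ℕ) (θ : CC V.P Z (n + 1)) (z : Z.X (n + 1)) (v : V.P.V (n + 1)) :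
    dC V.P Z n (kpH V Z n θ) z v = ∑ i ∈ Finset.range (n + 2), ∑ j ∈ Finset.range (n + 1),
      (-1 : ℤ) ^ (i + j) • kpB V Z (n + 1) θ z v i j := by
  rw [kp_dC]
  refine Finset.sum_congr rfl fun i hi => ?_
  rw [kpH_apply, Finset.smul_sum]
  refine Finset.sum_congr rfl fun j hj => ?_
  rw [kp_smul, kp_Td, Z.op_op (ok_sg (Nat.le_of_lt_succ (Finset.mem_range.1 hj))) (ok_dl i n),
    add_comm j i]
  rfl

private theorem kp_AB (n : ℕ) (θ : CC V.P Z n) (z : Z.X n) (v : V.P.V n) :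
    ∑ j ∈ Finset.range (n + 1), ∑ i ∈ Finset.range (n + 2),
      (-1 : ℤ) ^ (i + j) • kpA V Z n θ z v i j +
    ∑ i ∈ Finset.range (n + 1), ∑ j ∈ Finset.range n,
      (-1 : ℤ) ^ (i + j) • kpB V Z n θ z v i j = θ z v - θ z (kpR V n (fun _ => 0) v) := by
  have h := kp_prism (kpA V Z n θ z v) (kpB V Z n θ z v)
    (fun j => θ z (kpR V n (cj j) v)) ?_ ?_ ?_ ?_ n
  · rw [h, kp_R0, kp_Rn]
  · intro i j hij
    have h1 : sg (j + 1) ∘ dl i = dl i ∘ sg j := funext fun x => sg_dl_lt hij x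
    unfold kpA kpB
    rw [h1, th_lt hij]
  · intro i j hij
    have h1 : sg j ∘ dl (i + 1) = dl i ∘ sg j := funext fun x => sg_dl_gt hij x
    unfold kpA kpB
    rw [h1, th_gt hij]
  · intro j
    have h1 : sg j ∘ dl j = id := funext fun x => sg_dl_eq j x
    unfold kpA
    rw [h1, th_eq, Z.op_id]
  · intro j
    have h1 : sg j ∘ dl (j + 1) = id := funext fun x => sg_dl_succ j x
    unfold kpA
    rw [h1, th_succ, Z.op_id]

/-- cochains which only depend on the vertex `0` -/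
private noncomputable def kpC (V : SV k) (Z : SS) (n : ℕ) (θ : CC V.P Z n) : CC V.P Z n :=
  fun z => ((θ z).comp (kpU V n)).comp (kpV V n)

private theorem kpC_apply (n : ℕ) (θ : CC V.P Z n) (z : Z.X n) (v : V.P.V n) :
    kpC V Z n θ z v = θ z (kpU V n (kpV V n v)) := rfl

private theorem kpC_zero (θ : CC V.P Z 0) (h : dC V.P Z 0 θ = 0) : θ = kpC V Z 0 θ := by
  funext z
  refine LinearMap.ext fun v => ?_
  have h1 := kp_AB V Z 0 θ z v
  rw [← kp_Hd, h, Finset.sum_range_one, Finset.sum_range_zero, add_zero, kpH_apply] at h1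
  rw [kpC_apply, kp_UV]
  have h2 : ∑ j ∈ Finset.range (0 + 1), (-1 : ℤ) ^ j •
      (0 : CC V.P Z (0 + 1)) (Z.op (0 + 1) 0 (sg j) z) (kpT V 0 j v) = 0 :=
    Finset.sum_eq_zero fun j _ => smul_zero _
  rw [h2] at h1
  exact (sub_eq_zero.1 h1.symm)

private theorem kpC_succ (n : ℕ) (θ : CC V.P Z (n + 1)) (h : dC V.P Z (n + 1) θ = 0) :
    θ - kpC V Z (n + 1) θ = dC V.P Z n (kpH V Z n θ) := by
  funext z
  refine LinearMap.ext fun v => ?_
  have h1 := kp_AB V Z (n + 1) θ z v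
  rw [← kp_Hd, h, ← kp_dH, kpH_apply] at h1
  have h2 : ∑ j ∈ Finset.range (n + 1 + 1), (-1 : ℤ) ^ j •
      (0 : CC V.P Z (n + 1 + 1)) (Z.op (n + 1 + 1) (n + 1) (sg j) z) (kpT V (n + 1) j v) = 0 :=
    Finset.sum_eq_zero fun j _ => smul_zero _
  rw [h2, zero_add] at h1
  rw [h1, ← kp_UV]
  rfl

private theorem kp_BdC_add {n : ℕ} {x y : CC V.P Z n} (hx : BdC V.P Z n x)
    (hy : BdC V.P Z n y) : BdC V.P Z n (x + y) := by
  cases n with
  | zero =>
    have hx' : x = 0 := hx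
    have hy' : y = 0 := hy
    change x + y = 0
    rw [hx', hy', add_zero]
  | succ n =>
    obtain ⟨e, he⟩ := hx
    obtain ⟨e', he'⟩ := hy
    exact ⟨e + e', by rw [dC_add, ← he, ← he']⟩

private theorem kp_BdC (n : ℕ) (θ : CC V.P Z n) (h : dC V.P Z n θ = 0) :
    BdC V.P Z n (θ - kpC V Z n θ) := by
  cases n with
  | zero => exact sub_eq_zero.2 (kpC_zero V Z θ h)
  | succ n => exact ⟨_, kpC_succ V Z n θ h⟩

/-! ### The point -/

private def kpPt : SS where
  X := fun _ => Unit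
  op := fun _ _ _ x => x
  op_op := fun _ _ _ => rfl
  op_congr := fun _ _ _ _ => rfl
  op_id := fun _ _ => rfl

private theorem kp_alt (m : ℕ) (x : k) : ∑ i ∈ Finset.range m, (-1 : ℤ) ^ i • x =
    if Even m then 0 else x := by
  induction m with
  | zero => simp
  | succ m ih =>
    rw [Finset.sum_range_succ, ih]
    by_cases h : Even m
    · rw [if_pos h, if_neg (by rw [Nat.even_add_one]; exact not_not.2 h), h.neg_one_pow, one_smul,
        zero_add]
    · rw [if_neg h, if_pos (by rw [Nat.even_add_one]; exact h),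
        (Nat.not_even_iff_odd.1 h).neg_one_pow, neg_smul, one_smul, add_neg_cancel]

private theorem kp_dV (n : ℕ) (φ : Dual k (V.P.V n)) (v : V.P.V (n + 1)) :
    dV V.P n φ v = ∑ i ∈ Finset.range (n + 2), (-1 : ℤ) ^ i •
      φ (V.P.op n (n + 1) (dl i) v) := by
  unfold dV
  rw [LinearMap.sum_apply]
  rfl

theorem P_acy (a : ℕ) (φ : Dual k (V.P.V (a + 1))) (h : dV V.P (a + 1) φ = 0) :
    BdV V.P (a + 1) φ := by
  have h0 : dC V.P kpPt (a + 1) (fun _ => φ) = 0 := funext fun _ => h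
  have h1 := congrFun (kpC_succ V kpPt a (fun _ => φ) h0) ()
  have h2 : dC V.P kpPt a (kpH V kpPt a fun _ => φ) () =
      dV V.P a (kpH V kpPt a (fun _ => φ) ()) := rfl
  have h3 : (φ - ((φ.comp (kpU V (a + 1))).comp (kpV V (a + 1)))) =
      dV V.P a (kpH V kpPt a (fun _ => φ) ()) := h1
  by_cases ha : Even a
  · -- the constant part vanishes
    have h4 : φ.comp (kpU V (a + 1)) = 0 := by
      refine LinearMap.ext fun v => ?_
      have h5 := kp_dV V (a + 1) φ (kpU V (a + 1 + 1) v)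
      rw [h] at h5
      simp only [kp_dU] at h5
      rw [kp_alt, if_neg (by
        rw [Nat.not_even_iff_odd]
        obtain ⟨b, hb⟩ := ha
        exact ⟨b + 1, by omega⟩)] at h5
      exact h5.symm
    rw [h4, LinearMap.zero_comp, sub_zero] at h3
    exact ⟨_, h3⟩
  · refine ⟨kpH V kpPt a (fun _ => φ) () + (φ.comp (kpU V (a + 1))).comp (kpV V a), ?_⟩
    rw [dV_add, ← h3]
    have h4 : dV V.P a ((φ.comp (kpU V (a + 1))).comp (kpV V a)) =
        (φ.comp (kpU V (a + 1))).comp (kpV V (a + 1)) := by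
      refine LinearMap.ext fun v => ?_
      rw [kp_dV]
      simp only [LinearMap.comp_apply, kp_Vd]
      rw [kp_alt, if_neg (by
        rw [Nat.not_even_iff_odd] at ha ⊢
        obtain ⟨b, hb⟩ := ha
        exact ⟨b + 1, by omega⟩)]
    rw [h4, sub_add_cancel]

private theorem kp_crv {n : ℕ} (c : Dual k (V.P.V 0)) (ψ : Z.X n → k) (z : Z.X n)
    (v : V.P.V n) : crv V.P Z n 0 n c ψ z v = ψ z * c (V.P.op 0 n id v) := by
  unfold crv
  have h1 : Z.op n n (fun i => i + 0) z = z := Z.op_id n z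
  rw [h1]
  rfl

private theorem kp_V0 (n : ℕ) (v : V.P.V n) : kpV V 0 (V.P.op 0 n id v) = kpV V n v := by
  change V.op 0 1 (fun _ => 0) (V.op 1 (n + 1) (jmf id) v) = _
  have h1 : Ok 1 (n + 1) (jmf id) := by
    rw [jmf_id]
    exact ⟨monotone_id, fun i hi => by
      simp only [id]
      omega⟩
  rw [V.op_op (ok_zero _ _) h1]
  rfl

private theorem kp_U0 (n : ℕ) (v : V.V 0) : V.P.op 0 n id (kpU V n v) = kpU V 0 v := by
  change V.op 1 (n + 1) (jmf id) (V.op (n + 1) 0 (fun _ => 0) v) = _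
  have h1 : Ok 1 (n + 1) (jmf id) := by
    rw [jmf_id]
    exact ⟨monotone_id, fun i hi => by
      simp only [id]
      omega⟩
  rw [V.op_op h1 (ok_zero _ _)]
  rfl

/-- evaluation at the degenerate simplices is a chain map -/
private theorem kp_ev (n : ℕ) (θ : CC V.P Z n) (v : V.V 0) :
    (fun z => dC V.P Z n θ z (kpU V (n + 1) v)) = dS k Z n (fun z => θ z (kpU V n v)) := by
  funext z
  rw [kp_dC]
  simp only [kp_dU]
  rfl

private theorem kp_BdS {n : ℕ} {θ : CC V.P Z n} (h : BdC V.P Z n θ) (v : V.V 0) :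
    BdS Z n (fun z => θ z (kpU V n v)) := by
  cases n with
  | zero =>
    have h' : θ = 0 := h
    change (fun z => θ z (kpU V 0 v)) = 0
    rw [h']
    rfl
  | succ n =>
    obtain ⟨e, rfl⟩ := h
    exact ⟨_, kp_ev V Z n e v⟩

/-- linear families of coboundaries -/
private theorem kp_family {n : ℕ} (G : Z.X n → Dual k (V.V 0))
    (h : ∀ t, BdS Z n (fun z => G z (Basis.ofVectorSpace k (V.V 0) t))) :
    BdC V.P Z n (fun z => (G z).comp (kpV V n)) := by
  cases n with
  | zero =>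
    have h1 : G = 0 := by
      funext z
      refine (Basis.ofVectorSpace k (V.V 0)).ext fun t => ?_
      exact congrFun (h t) z
    change (fun z => (G z).comp (kpV V 0)) = 0
    rw [h1]
    rfl
  | succ n =>
    choose e he using h
    refine ⟨fun z => ((Basis.ofVectorSpace k (V.V 0)).constr k fun t => e t z).comp (kpV V n), ?_⟩
    have h1 : ∀ z, G z = ∑ i ∈ Finset.range (n + 2), (-1 : ℤ) ^ i •
        ((Basis.ofVectorSpace k (V.V 0)).constr k fun t => e t (Z.op n (n + 1) (dl i) z)) := by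
      intro z
      refine (Basis.ofVectorSpace k (V.V 0)).ext fun t => ?_
      have h2 := congrFun (he t) z
      refine h2.trans ?_
      rw [LinearMap.sum_apply]
      refine Finset.sum_congr rfl fun i _ => ?_
      rw [LinearMap.smul_apply, Basis.constr_basis]
    funext z
    refine LinearMap.ext fun v => ?_
    rw [kp_dC]
    change G z (kpV V (n + 1) v) = _
    rw [h1 z, LinearMap.sum_apply]
    refine Finset.sum_congr rfl fun i _ => ?_
    rw [LinearMap.smul_apply, LinearMap.comp_apply, kp_Vd]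

theorem P_surj {I : ℕ → Type} [∀ b, Fintype (I b)] {ψ : ∀ b, I b → Z.X b → k} (hψ : KB Z ψ) (n : ℕ)
    (θ : CC V.P Z n) (hθ : dC V.P Z n θ = 0) :
    ∃ c : I n → Dual k (V.P.V 0), (∀ i, dV V.P 0 (c i) = 0) ∧
      BdC V.P Z n (θ - ∑ i, crv V.P Z n 0 n (c i) (ψ n i)) := by
  classical
  have hcoc : ∀ v : V.V 0, dS k Z n (fun z => θ z (kpU V n v)) = 0 := by
    intro v
    rw [← kp_ev, hθ]
    rfl
  choose c hc using fun t => hψ.span n _ (hcoc (Basis.ofVectorSpace k (V.V 0) t))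
  let C : I n → Dual k (V.V 0) := fun i =>
    (Basis.ofVectorSpace k (V.V 0)).constr k fun t => c t i
  have hC : ∀ i t, C i (Basis.ofVectorSpace k (V.V 0) t) = c t i := fun i t =>
    Basis.constr_basis _ _ _ _
  refine ⟨fun i => (C i).comp (kpV V 0), fun i => ?_, ?_⟩
  · refine LinearMap.ext fun v => ?_
    rw [kp_dV]
    simp only [LinearMap.comp_apply, kp_Vd]
    rw [kp_alt, if_pos (by decide)]
    rfl
  · have h1 : θ - ∑ i, crv V.P Z n 0 n ((C i).comp (kpV V 0)) (ψ n i) =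
        (θ - kpC V Z n θ) + (fun z => ((θ z).comp (kpU V n) - ∑ i, ψ n i z • C i).comp
          (kpV V n)) := by
      funext z
      refine LinearMap.ext fun v => ?_
      have e1 : (∑ i, crv V.P Z n 0 n ((C i).comp (kpV V 0)) (ψ n i)) z v =
          ∑ i, ψ n i z * C i (kpV V n v) := by
        rw [Finset.sum_apply, LinearMap.sum_apply]
        refine Finset.sum_congr rfl fun i _ => ?_
        rw [kp_crv, LinearMap.comp_apply, kp_V0]
      have e2 : (∑ i, ψ n i z • C i) (kpV V n v) = ∑ i, ψ n i z * C i (kpV V n v) := by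
        rw [LinearMap.sum_apply]
        rfl
      change θ z v - (∑ i, crv V.P Z n 0 n ((C i).comp (kpV V 0)) (ψ n i)) z v =
        (θ z v - θ z (kpU V n (kpV V n v))) +
          (θ z (kpU V n (kpV V n v)) - (∑ i, ψ n i z • C i) (kpV V n v))
      rw [e1, e2, sub_add_sub_cancel]
    rw [h1]
    refine kp_BdC_add V Z (kp_BdC V Z n θ hθ) (kp_family V Z _ fun t => ?_)
    have h2 := hc t
    have h3 : (fun z => θ z (kpU V n (Basis.ofVectorSpace k (V.V 0) t))) - ∑ i, c t i • ψ n i =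
        fun z => ((θ z).comp (kpU V n) - ∑ i, ψ n i z • C i)
          (Basis.ofVectorSpace k (V.V 0) t) := by
      funext z
      rw [LinearMap.sub_apply, LinearMap.sum_apply, Pi.sub_apply, Finset.sum_apply]
      congr 1
      refine Finset.sum_congr rfl fun i _ => ?_
      rw [LinearMap.smul_apply, hC, Pi.smul_apply, smul_eq_mul, smul_eq_mul, mul_comm]
    rw [h3] at h2
    exact h2

private theorem kp_coc0 (φ : Dual k (V.P.V 0)) (h : dV V.P 0 φ = 0)
    (h0 : ∀ v, φ (kpU V 0 v) = 0) : φ = 0 := by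
  have h1 : dC V.P kpPt 0 (fun _ => φ) = 0 := funext fun _ => h
  have h2 := congrFun (kpC_zero V kpPt (fun _ => φ) h1) ()
  have h3 : φ = (φ.comp (kpU V 0)).comp (kpV V 0) := h2
  rw [h3]
  exact LinearMap.ext fun v => h0 _

theorem P_inj {I : ℕ → Type} [∀ b, Fintype (I b)] {ψ : ∀ b, I b → Z.X b → k} (hψ : KB Z ψ) (n : ℕ)
    (φ : ∀ a b : ℕ, I b → Dual k (V.P.V a)) (hφ : ∀ a b i, a + b = n → dV V.P a (φ a b i) = 0)
    (h : BdC V.P Z n (KSum V.P Z ψ n φ)) :
    ∀ a b i, a + b = n → BdV V.P a (φ a b i) := by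
  classical
  have hpos : ∀ a b i, a + 1 + b = n → BdV V.P (a + 1) (φ (a + 1) b i) := fun a b i hab =>
    P_acy V a _ (hφ (a + 1) b i hab)
  -- the part of degree zero
  have hz : BdC V.P Z n (∑ i, crv V.P Z n 0 n (φ 0 n i) (ψ n i)) := by
    cases n with
    | zero =>
      have e1 : KSum V.P Z ψ 0 φ = ∑ i, crv V.P Z 0 0 0 (φ 0 0 i) (ψ 0 i) := by
        unfold KSum
        rw [Finset.Nat.antidiagonal_zero, Finset.sum_singleton]
      rw [← e1]
      exact h
    | succ m =>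
      have hex : ∀ (ab : ℕ × ℕ) (i : I ab.2), ∃ e : Dual k (V.P.V ab.1),
          ab.1 + ab.2 = m → φ (ab.1 + 1) ab.2 i = dV V.P ab.1 e := by
        intro ab i
        by_cases hab : ab.1 + ab.2 = m
        · obtain ⟨e, he⟩ := hpos ab.1 ab.2 i (by omega)
          exact ⟨e, fun _ => he⟩
        · exact ⟨0, fun h => absurd h hab⟩
      choose e he using hex
      have e1 : KSum V.P Z ψ (m + 1) φ =
          ∑ i, crv V.P Z (m + 1) 0 (m + 1) (φ 0 (m + 1) i) (ψ (m + 1) i) +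
          dC V.P Z m (∑ ab ∈ Finset.HasAntidiagonal.antidiagonal m, ∑ i : I ab.2,
            crv V.P Z m ab.1 ab.2 (e ab i) (ψ ab.2 i)) := by
        unfold KSum
        rw [Finset.Nat.sum_antidiagonal_succ (f := fun ab : ℕ × ℕ => ∑ i : I ab.2,
          crv V.P Z (m + 1) ab.1 ab.2 (φ ab.1 ab.2 i) (ψ ab.2 i)), dC_sum]
        congr 1
        refine Finset.sum_congr rfl fun ab hab => ?_
        rw [dC_sum]
        refine Finset.sum_congr rfl fun i _ => ?_
        have hab' := Finset.HasAntidiagonal.mem_antidiagonal.1 hab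
        rw [dC_crv_coc V.P Z hab' (e ab i) (ψ ab.2 i) (hψ.coc ab.2 i), he ab i hab']
      obtain ⟨f, hf⟩ := h
      refine ⟨f - ∑ ab ∈ Finset.HasAntidiagonal.antidiagonal m, ∑ i : I ab.2,
            crv V.P Z m ab.1 ab.2 (e ab i) (ψ ab.2 i), ?_⟩
      rw [dC_sub, ← hf, e1, add_sub_cancel_right]
  have hzero : ∀ i, φ 0 n i = 0 := by
    intro i
    refine kp_coc0 V _ (hφ 0 n i (Nat.zero_add n)) fun v => ?_
    have h1 := kp_BdS V Z hz v
    have h2 : (fun z => (∑ i, crv V.P Z n 0 n (φ 0 n i) (ψ n i)) z (kpU V n v)) =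
        ∑ i, φ 0 n i (kpU V 0 v) • ψ n i := by
      funext z
      rw [Finset.sum_apply, LinearMap.sum_apply, Finset.sum_apply]
      refine Finset.sum_congr rfl fun i _ => ?_
      rw [kp_crv, kp_U0, Pi.smul_apply, smul_eq_mul, mul_comm]
    rw [h2] at h1
    exact congrFun (hψ.indep n _ h1) i
  intro a b i hab
  cases a with
  | zero =>
    obtain rfl : b = n := by omega
    exact hzero i
  | succ a => exact hpos a b i hab

end BPN.E
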