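import Pool.Agent.BPN.E.U
import Pool.Agent.BPN.EOut

/-!
# Part (E), module Lam: the coaction and the classification of natural operations (project BPN, helper30)

The Milnor algebra is `M = Tw p ℕ` with `t k = τ_k`, `v k = ξ_{k+1}`.  `lam K : H → M ⊗ H = Tw p (ℕ ⊕ₗ ℕ)`:
`x_i ↦ x_i + ∑_{k < K} τ_k y_i^(p^k)`, `y_i ↦ y_i + ∑_{k < K} ξ_{k+1} y_i^(p^(k+1))`.
`Sml K J₀` : the functional `J₀` vanishes on monomials containing a generator with index `≥ K`.
`Hg k J₀` : `J₀` vanishes on monomials of degree `≠ k` (`Mil.deg`).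
`HgOp k β` : `β` raises the degree of monomials by `k` (`hd` = degree in `H`).
`Jf β` : the functional with values `Jc β E R`.

PROOFS.
* `lam`: relations: cross terms cancel by parity, `τ_k^2 = q ξ_{k+1}`, for `p = 2`: `2 * 2^k = 2^(k+1)`.
* `lam_nat`, `lam_add`: both sides are ring homomorphisms, equal on generators (`(y + y')^(p^k) = y^(p^k) + y'^(p^k)`:
  commuting elements in characteristic `p`).
* `natOp_JH`: `β = JH J₀ ∘ lam K`.  `nat`, `add`: `JH J₀ (map (1 ⊕ κ) w) = map κ (JH J₀ w)` (on products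
  `ιl x * ιr y`, `lex_ext`), and the same for `addm (inr i) (inr j)`.  `delx`: `lam (u x_r) = lam u * (ιr x_r + ∑ τ_k ιr y_r^(p^k))`,
  `JH (lam u * ιr x_r) = JH (lam u) * x_r` (`JH_mul_r`), the other terms are `JH (lam u * τ_k) * y_r^(p^k)`, all monomials
  contain `y_r`.  `dely`: the other terms contain `y_r^(p^(k+1))`, exponent `≥ 2`.
* `Jc_JH`: coefficient of the target monomial in `lam K (u_{E,R}) = ∏ (x_{2e} + ∑ τ_k y^(p^k)) ∏ (y + ∑ ξ_{k+1} y^(p^(k+1)))`: all
  variables are different, so one has to choose `τ_e y_{2e}^(p^e)` and `ξ_{j+1} y^(p^(j+1))` in every factor: coefficient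
  `mon E R` (if all indices are `< K`; the `τ_e` appear in increasing order and the `y` are central).  If some index is
  `≥ K` the coefficient is `0` and `J₀ (mon E R) = 0` by smallness.
-/

namespace BPN.E

namespace Tw

section par

variable {p : ℕ} {J : Type} [LinearOrder J]

private theorem mon_mem_Par (E : Finset J) (S : J →₀ ℕ) : mon p E S ∈ Par p J E.card := by
  intro F T h
  rw [co_mon] at h
  by_cases h2 : E = F ∧ S = T
  · rw [h2.1]
  · rw [if_neg h2] at h
    exact absurd rfl h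

private theorem smul_mem_Par {n : ℕ} (c : ZMod p) {x : Tw p J} (hx : x ∈ Par p J n) :
    c • x ∈ Par p J n := by
  intro F T h
  rw [co_smul] at h
  exact hx F T (right_ne_zero_of_mul h)

private theorem v_pow_mem_Par (i : J) (n : ℕ) : v p i ^ n ∈ Par p J 0 := by
  rw [v_pow]
  exact mon_mem_Par ∅ _

private theorem v_pow_comm (i : J) (n : ℕ) (x : Tw p J) : v p i ^ n * x = x * v p i ^ n :=
  ((show Commute (v p i) x from v_comm i x).pow_left n).eq

private theorem sq_add {x y : Tw p J} (hx : x ∈ Par p J 1) (hy : y ∈ Par p J 1) :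
    (x + y) * (x + y) = x * x + y * y := by
  have h := Par_comm hx hy
  rw [mul_one, pow_one, neg_smul, one_smul] at h
  rw [add_mul, mul_add, mul_add, h]
  abel

private theorem sq_sum (s : Finset ℕ) (z : ℕ → Tw p J) (hz : ∀ k, z k ∈ Par p J 1) :
    (∑ k ∈ s, z k) * (∑ k ∈ s, z k) = ∑ k ∈ s, z k * z k := by
  induction s using Finset.induction_on with
  | empty => rw [Finset.sum_empty, Finset.sum_empty, mul_zero]
  | insert a s ha ih =>
    rw [Finset.sum_insert ha, Finset.sum_insert ha, sq_add (hz a) (sum_mem fun k _ => hz k), ih]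

private theorem lam_aux₁ (K : ℕ) (i : J) (τ ξ : ℕ → J) :
    t p i + ∑ k ∈ Finset.range K, t p (τ k) * v p i ^ p ^ k ∈ Par p J 1 :=
  add_mem (t_mem_Par _) (sum_mem fun _ _ => Par_mul (t_mem_Par _) (v_pow_mem_Par _ _))

private theorem lam_aux₂ (K : ℕ) (i : J) (ξ : ℕ → J) :
    v p i + ∑ k ∈ Finset.range K, v p (ξ k) * v p i ^ p ^ (k + 1) ∈ Par p J 0 :=
  add_mem (v_mem_Par _) (sum_mem fun _ _ => Par_mul (v_mem_Par _) (v_pow_mem_Par _ _))

private theorem lam_aux₃ (K : ℕ) (i : J) (ξ : ℕ → J) :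
    (t p i + ∑ k ∈ Finset.range K, t p (ξ k) * v p i ^ p ^ k) *
      (t p i + ∑ k ∈ Finset.range K, t p (ξ k) * v p i ^ p ^ k) =
    qq p • (v p i + ∑ k ∈ Finset.range K, v p (ξ k) * v p i ^ p ^ (k + 1)) := by
  rw [sq_add (t_mem_Par _) (sum_mem fun _ _ => Par_mul (t_mem_Par _) (v_pow_mem_Par _ _)), t_sq,
    sq_sum _ _ fun _ => Par_mul (t_mem_Par _) (v_pow_mem_Par _ _), smul_add, Finset.smul_sum]
  congr 1
  refine Finset.sum_congr rfl fun k _ => ?_
  have h1 : t p (ξ k) * v p i ^ p ^ k * (t p (ξ k) * v p i ^ p ^ k) =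
      (t p (ξ k) * t p (ξ k)) * (v p i ^ p ^ k * v p i ^ p ^ k) := by
    rw [mul_assoc, ← mul_assoc (v p i ^ p ^ k), v_pow_comm, mul_assoc, mul_assoc]
  rw [h1, t_sq, smul_mul]
  by_cases hp : p = 2
  · rw [← pow_add]
    congr 3
    subst hp
    rw [pow_succ]
    ring
  · rw [qq, if_neg hp, zero_smul, zero_smul]

end par

variable {p : ℕ} {I : Type} [LinearOrder I]

/-- The coaction, truncated. -/
noncomputable def lam (p : ℕ) [Fact p.Prime] (I : Type) [LinearOrder I] (K : ℕ) :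
    Tw p I →+* Tw p (ℕ ⊕ₗ I) :=
  lft (fun i => t p (toLex (Sum.inr i)) + ∑ k ∈ Finset.range K,
      t p (toLex (Sum.inl k)) * v p (toLex (Sum.inr i)) ^ p ^ k)
    (fun i => v p (toLex (Sum.inr i)) + ∑ k ∈ Finset.range K,
      v p (toLex (Sum.inl k)) * v p (toLex (Sum.inr i)) ^ p ^ (k + 1))
    (fun i => lam_aux₁ K (toLex (Sum.inr i)) (fun k => toLex (Sum.inl k))
      (fun k => toLex (Sum.inl k)))
    (fun i => lam_aux₂ K (toLex (Sum.inr i)) (fun k => toLex (Sum.inl k)))
    (fun i => lam_aux₃ K (toLex (Sum.inr i)) (fun k => toLex (Sum.inl k)))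

variable [Fact p.Prime]

theorem lam_t (K : ℕ) (i : I) : lam p I K (t p i) = t p (toLex (Sum.inr i)) +
    ∑ k ∈ Finset.range K, t p (toLex (Sum.inl k)) * v p (toLex (Sum.inr i)) ^ p ^ k := lft_t i

theorem lam_v (K : ℕ) (i : I) : lam p I K (v p i) = v p (toLex (Sum.inr i)) +
    ∑ k ∈ Finset.range K, v p (toLex (Sum.inl k)) * v p (toLex (Sum.inr i)) ^ p ^ (k + 1) := lft_v i

/-- The functional vanishes on monomials with an index `≥ K`. -/
def Sml (K : ℕ) (J₀ : Tw p ℕ →+ ZMod p) : Prop :=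
  ∀ (c : ZMod p) (E : Finset ℕ) (R : ℕ →₀ ℕ), ((∃ e ∈ E, K ≤ e) ∨ ∃ j ∈ R.support, K ≤ j) →
    J₀ (c • mon p E R) = 0

/-- Homogeneous functionals. -/
def Hg (k : ℕ) (J₀ : Tw p ℕ →+ ZMod p) : Prop :=
  ∀ (c : ZMod p) (E : Finset ℕ) (R : ℕ →₀ ℕ), Mil.deg p R E ≠ k → J₀ (c • mon p E R) = 0

/-- The degree of a monomial of `H`. -/
def hd (E : Finset ℕ) (S : ℕ →₀ ℕ) : ℕ := E.card + 2 * S.sum fun _ n => n

/-- Operations of degree `k`. -/
def HgOp (k : ℕ) (β : Tw p ℕ →+ Tw p ℕ) : Prop :=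
  ∀ (E : Finset ℕ) (S : ℕ →₀ ℕ) (F : Finset ℕ) (T : ℕ →₀ ℕ), co (β (mon p E S)) F T ≠ 0 →
    hd F T = hd E S + k

theorem exists_Jf (c : Finset ℕ → (ℕ →₀ ℕ) → ZMod p) :
    ∃ J₀ : Tw p ℕ →+ ZMod p, ∀ (a : ZMod p) E R, J₀ (a • mon p E R) = a * c E R := by
  let φ : Finset ℕ → MvPolynomial ℕ (ZMod p) →+ ZMod p := fun E =>
    ((MvPolynomial.basisMonomials ℕ (ZMod p)).constr (ZMod p) (c E)).toAddMonoidHom
  refine ⟨(Finsupp.liftAddHom φ : (Finset ℕ →₀ MvPolynomial ℕ (ZMod p)) →+ ZMod p),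
    fun a E R => ?_⟩
  have h1 : a • mon p E R = sg E (a • MvPolynomial.monomial R 1) := by
    rw [mon, sg_smul]
  rw [h1]
  change (Finsupp.liftAddHom φ : (Finset ℕ →₀ MvPolynomial ℕ (ZMod p)) →+ ZMod p)
    (Finsupp.single E (a • MvPolynomial.monomial R 1)) = a * c E R
  rw [Finsupp.liftAddHom_apply_single]
  change ((MvPolynomial.basisMonomials ℕ (ZMod p)).constr (ZMod p) (c E))
    (a • MvPolynomial.monomial R 1) = a * c E R
  rw [map_smul, smul_eq_mul]
  congr 1
  have h2 := (MvPolynomial.basisMonomials ℕ (ZMod p)).constr_basis (ZMod p) (c E) R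
  rwa [MvPolynomial.coe_basisMonomials] at h2

/-- The functional of a natural operation. -/
noncomputable def Jf (β : Tw p ℕ →+ Tw p ℕ) : Tw p ℕ →+ ZMod p :=
  Classical.choose (exists_Jf (Jc p β))

theorem Jf_mon (β : Tw p ℕ →+ Tw p ℕ) (a : ZMod p) (E : Finset ℕ) (R : ℕ →₀ ℕ) :
    Jf β (a • mon p E R) = a * Jc p β E R := Classical.choose_spec (exists_Jf (Jc p β)) a E R

private theorem map_par {J : Type} [LinearOrder J] (κ : I → J) {n : ℕ} {x : Tw p I}
    (hx : x ∈ Par p I n) : map p κ x ∈ Par p J n :=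
  lft_par (hs := fun _ => t_mem_Par _) (hw := fun _ => v_mem_Par _) (hq := fun _ => t_sq _) hx

private theorem add_pow_pp {x y : Tw p I} (h : Commute x y) (n : ℕ) :
    (x + y) ^ p ^ n = x ^ p ^ n + y ^ p ^ n := by
  obtain ⟨r, hr⟩ := h.exists_add_pow_prime_pow_eq (Fact.out : p.Prime) n
  rw [hr, natCast_p, zero_mul, zero_mul, zero_mul, add_zero]

private theorem co_mul_vpow (x : Tw p ℕ) (r n : ℕ) (F : Finset ℕ) (T : ℕ →₀ ℕ) :
    co (x * v p r ^ n) F T = if n ≤ T r then co x F (T - Finsupp.single r n) else 0 := by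
  let f : Tw p ℕ →+ ZMod p :=
    { toFun := fun w => co (w * v p r ^ n) F T
      map_zero' := by rw [zero_mul, co_zero]
      map_add' := fun x y => by rw [add_mul, co_add] }
  let g : Tw p ℕ →+ ZMod p :=
    { toFun := fun w => if n ≤ T r then co w F (T - Finsupp.single r n) else 0
      map_zero' := by rw [co_zero, ite_self]
      map_add' := fun x y => by
        split_ifs
        · rw [co_add]
        · rw [add_zero] }
  have h1 : f = g := addHom_ext fun c E S => by
    change co (c • mon p E S * v p r ^ n) F T =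
      if n ≤ T r then co (c • mon p E S) F (T - Finsupp.single r n) else 0
    rw [smul_mul, v_pow, mon_mul_mon_empty, co_smul, co_smul, co_mon, co_mon]
    by_cases h2 : n ≤ T r
    · rw [if_pos h2]
      congr 2
      rw [eq_iff_iff]
      have h3 : Finsupp.single r n ≤ T := by
        rw [Finsupp.single_le_iff]
        exact h2
      constructor
      · rintro ⟨h4, h5⟩
        exact ⟨h4, by rw [← h5, add_tsub_cancel_right]⟩
      · rintro ⟨h4, h5⟩
        exact ⟨h4, by rw [h5, tsub_add_cancel_of_le h3]⟩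
    · rw [if_neg h2, if_neg, mul_zero]
      rintro ⟨-, h4⟩
      apply h2
      rw [← h4, Finsupp.add_apply, Finsupp.single_eq_same]
      exact Nat.le_add_left _ _
  exact DFunLike.congr_fun h1 x

private theorem inl_ne_inr (k i : ℕ) : (toLex (Sum.inl k) : ℕ ⊕ₗ ℕ) ≠ toLex (Sum.inr i) := by
  intro h
  exact Sum.inl_ne_inr (toLex_inj.1 h)

private theorem ιl_t (k : ℕ) : ιl p ℕ ℕ (t p k) = t p (toLex (Sum.inl k)) := map_t _ _

private theorem ιl_v (k : ℕ) : ιl p ℕ ℕ (v p k) = v p (toLex (Sum.inl k)) := map_v _ _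

private theorem ιr_t (k : ℕ) : ιr p ℕ ℕ (t p k) = t p (toLex (Sum.inr k)) := map_t _ _

private theorem ιr_v (k : ℕ) : ιr p ℕ ℕ (v p k) = v p (toLex (Sum.inr k)) := map_v _ _

private theorem lam_mul_t (K : ℕ) (J₀ : Tw p ℕ →+ ZMod p) (u : Tw p ℕ) (r : ℕ) :
    JH J₀ (lam p ℕ K (u * t p r)) = JH J₀ (lam p ℕ K u) * t p r +
      ∑ k ∈ Finset.range K, JH J₀ (lam p ℕ K u * ιl p ℕ ℕ (t p k)) * v p r ^ p ^ k := by
  rw [map_mul, lam_t, mul_add, map_add, ← ιr_t, JH_mul_r, Finset.mul_sum, map_sum]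
  congr 1
  refine Finset.sum_congr rfl fun k _ => ?_
  rw [← ιl_t, ← ιr_v, ← map_pow, ← mul_assoc, JH_mul_r]

private theorem lam_mul_v (K : ℕ) (J₀ : Tw p ℕ →+ ZMod p) (u : Tw p ℕ) (r : ℕ) :
    JH J₀ (lam p ℕ K (u * v p r)) = JH J₀ (lam p ℕ K u) * v p r +
      ∑ k ∈ Finset.range K, JH J₀ (lam p ℕ K u * ιl p ℕ ℕ (v p k)) * v p r ^ p ^ (k + 1) := by
  rw [map_mul, lam_v, mul_add, map_add, ← ιr_v, JH_mul_r, Finset.mul_sum, map_sum]
  congr 1
  refine Finset.sum_congr rfl fun k _ => ?_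
  rw [← ιl_v, ← map_pow, ← mul_assoc, JH_mul_r]

theorem natOp_JH (K : ℕ) (J₀ : Tw p ℕ →+ ZMod p) :
    NatOp p ((JH J₀).comp (lam p ℕ K).toAddMonoidHom) := by
  have hp : p.Prime := Fact.out
  refine ⟨fun κ u => ?_, fun i j hij u => ?_, ?_, ?_⟩
  · let ρ : ℕ ⊕ₗ ℕ → ℕ ⊕ₗ ℕ := fun z => toLex (Sum.map id κ (ofLex z))
    have hρl : ∀ k : ℕ, ρ (toLex (Sum.inl k)) = toLex (Sum.inl k) := fun k => rfl
    have hρr : ∀ k : ℕ, ρ (toLex (Sum.inr k)) = toLex (Sum.inr (κ k)) := fun k => rfl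
    have h1 : (lam p ℕ K).comp (map p κ) = (map p ρ).comp (lam p ℕ K) := by
      refine hom_ext (fun i => ?_) (fun i => ?_)
      · rw [RingHom.comp_apply, RingHom.comp_apply, map_t, lam_t, lam_t, map_add, map_sum, map_t,
          hρr]
        congr 1
        refine Finset.sum_congr rfl fun k _ => ?_
        rw [map_mul, map_pow, map_t, map_v, hρl, hρr]
      · rw [RingHom.comp_apply, RingHom.comp_apply, map_v, lam_v, lam_v, map_add, map_sum, map_v,
          hρr]
        congr 1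
        refine Finset.sum_congr rfl fun k _ => ?_
        rw [map_mul, map_pow, map_v, map_v, hρl, hρr]
    have hl : ∀ x, map p ρ (ιl p ℕ ℕ x) = ιl p ℕ ℕ x := fun x => by
      rw [ιl, map_map]
      rfl
    have hr : ∀ y, map p ρ (ιr p ℕ ℕ y) = ιr p ℕ ℕ (map p κ y) := fun y => by
      rw [ιr, map_map, map_map]
      rfl
    have h2 : ∀ w, JH J₀ (map p ρ w) = map p κ (JH J₀ w) := fun w => by
      refine DFunLike.congr_fun (f := (JH J₀).comp (map p ρ).toAddMonoidHom)
        (g := (map p κ).toAddMonoidHom.comp (JH J₀)) (lex_ext fun x y => ?_) w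
      change JH J₀ (map p ρ (ιl p ℕ ℕ x * ιr p ℕ ℕ y)) =
        map p κ (JH J₀ (ιl p ℕ ℕ x * ιr p ℕ ℕ y))
      rw [map_mul, hl, hr, JH_mul, JH_mul, hom_smul]
    have h3 := DFunLike.congr_fun h1 u
    rw [RingHom.comp_apply, RingHom.comp_apply] at h3
    change JH J₀ (lam p ℕ K (map p κ u)) = map p κ (JH J₀ (lam p ℕ K u))
    rw [h3, h2]
  · have h1 : (lam p ℕ K).comp (addm p i j) =
        (addm p (toLex (Sum.inr i)) (toLex (Sum.inr j))).comp (lam p ℕ K) := by
      have hcomm : ∀ (a b : ℕ ⊕ₗ ℕ), Commute (v p a) (v p b) := fun a b => v_comm a (v p b)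
      refine hom_ext (fun l => ?_) (fun l => ?_)
      · rw [RingHom.comp_apply, RingHom.comp_apply, addm_t, lam_t, map_add, map_sum]
        by_cases hl : l = i
        · rw [if_pos hl, map_add, lam_t, lam_t, hl, addm_t, if_pos rfl]
          have h2 : ∀ k, addm p (toLex (Sum.inr i)) (toLex (Sum.inr j))
              (t p (toLex (Sum.inl k)) * v p (toLex (Sum.inr i)) ^ p ^ k) =
              t p (toLex (Sum.inl k)) * v p (toLex (Sum.inr i)) ^ p ^ k +
              t p (toLex (Sum.inl k)) * v p (toLex (Sum.inr j)) ^ p ^ k := fun k => by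
            rw [map_mul, map_pow, addm_t, addm_v, if_neg (inl_ne_inr k i), if_pos rfl,
              add_pow_pp (hcomm _ _), mul_add]
          rw [Finset.sum_congr rfl fun k _ => h2 k, Finset.sum_add_distrib]
          abel
        · have hl' : (toLex (Sum.inr l) : ℕ ⊕ₗ ℕ) ≠ toLex (Sum.inr i) := fun h =>
            hl (Sum.inr_injective (toLex_inj.1 h))
          rw [if_neg hl, lam_t, addm_t, if_neg hl']
          congr 1
          refine Finset.sum_congr rfl fun k _ => ?_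
          rw [map_mul, map_pow, addm_t, addm_v, if_neg (inl_ne_inr k i), if_neg hl']
      · rw [RingHom.comp_apply, RingHom.comp_apply, addm_v, lam_v, map_add, map_sum]
        by_cases hl : l = i
        · rw [if_pos hl, map_add, lam_v, lam_v, hl, addm_v, if_pos rfl]
          have h2 : ∀ k, addm p (toLex (Sum.inr i)) (toLex (Sum.inr j))
              (v p (toLex (Sum.inl k)) * v p (toLex (Sum.inr i)) ^ p ^ (k + 1)) =
              v p (toLex (Sum.inl k)) * v p (toLex (Sum.inr i)) ^ p ^ (k + 1) +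
              v p (toLex (Sum.inl k)) * v p (toLex (Sum.inr j)) ^ p ^ (k + 1) := fun k => by
            rw [map_mul, map_pow, addm_v, addm_v, if_neg (inl_ne_inr k i), if_pos rfl,
              add_pow_pp (hcomm _ _), mul_add]
          rw [Finset.sum_congr rfl fun k _ => h2 k, Finset.sum_add_distrib]
          abel
        · have hl' : (toLex (Sum.inr l) : ℕ ⊕ₗ ℕ) ≠ toLex (Sum.inr i) := fun h =>
            hl (Sum.inr_injective (toLex_inj.1 h))
          rw [if_neg hl, lam_v, addm_v, if_neg hl']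
          congr 1
          refine Finset.sum_congr rfl fun k _ => ?_
          rw [map_mul, map_pow, addm_v, addm_v, if_neg (inl_ne_inr k i), if_neg hl']
    have hl : ∀ x, addm p (toLex (Sum.inr i)) (toLex (Sum.inr j)) (ιl p ℕ ℕ x) =
        ιl p ℕ ℕ x := fun x => by
      refine DFunLike.congr_fun (f := (addm p (toLex (Sum.inr i)) (toLex (Sum.inr j))).comp
        (ιl p ℕ ℕ)) (g := ιl p ℕ ℕ) (hom_ext (fun l => ?_) (fun l => ?_)) x
      · rw [RingHom.comp_apply, ιl_t, addm_t, if_neg (inl_ne_inr l i)]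
      · rw [RingHom.comp_apply, ιl_v, addm_v, if_neg (inl_ne_inr l i)]
    have hr : ∀ y, addm p (toLex (Sum.inr i)) (toLex (Sum.inr j)) (ιr p ℕ ℕ y) =
        ιr p ℕ ℕ (addm p i j y) := fun y => by
      refine DFunLike.congr_fun (f := (addm p (toLex (Sum.inr i)) (toLex (Sum.inr j))).comp
        (ιr p ℕ ℕ)) (g := (ιr p ℕ ℕ).comp (addm p i j)) (hom_ext (fun l => ?_) (fun l => ?_)) y
      · rw [RingHom.comp_apply, RingHom.comp_apply, ιr_t, addm_t, addm_t]
        by_cases hl : l = i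
        · rw [if_pos hl, if_pos (by rw [hl]), map_add, ιr_t, ιr_t]
        · rw [if_neg hl, if_neg (fun h => hl (Sum.inr_injective (toLex_inj.1 h))), ιr_t]
      · rw [RingHom.comp_apply, RingHom.comp_apply, ιr_v, addm_v, addm_v]
        by_cases hl : l = i
        · rw [if_pos hl, if_pos (by rw [hl]), map_add, ιr_v, ιr_v]
        · rw [if_neg hl, if_neg (fun h => hl (Sum.inr_injective (toLex_inj.1 h))), ιr_v]
    have h2 : ∀ w, JH J₀ (addm p (toLex (Sum.inr i)) (toLex (Sum.inr j)) w) =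
        addm p i j (JH J₀ w) := fun w => by
      refine DFunLike.congr_fun
        (f := (JH J₀).comp (addm p (toLex (Sum.inr i)) (toLex (Sum.inr j))).toAddMonoidHom)
        (g := (addm p i j).toAddMonoidHom.comp (JH J₀)) (lex_ext fun x y => ?_) w
      change JH J₀ (addm p (toLex (Sum.inr i)) (toLex (Sum.inr j)) (ιl p ℕ ℕ x * ιr p ℕ ℕ y)) =
        addm p i j (JH J₀ (ιl p ℕ ℕ x * ιr p ℕ ℕ y))
      rw [map_mul, hl, hr, JH_mul, JH_mul, hom_smul]
    have h3 := DFunLike.congr_fun h1 u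
    rw [RingHom.comp_apply, RingHom.comp_apply] at h3
    change JH J₀ (lam p ℕ K (addm p i j u)) = addm p i j (JH J₀ (lam p ℕ K u))
    rw [h3, h2]
  · intro r E S _ _ F T hT
    change co (JH J₀ (lam p ℕ K (mon p E S * t p r)) - JH J₀ (lam p ℕ K (mon p E S)) * t p r)
      F T = 0
    rw [lam_mul_t, add_sub_cancel_left, co_sum]
    refine Finset.sum_eq_zero fun k _ => ?_
    rw [co_mul_vpow, if_neg]
    rw [hT]
    have := pow_pos hp.pos k
    omega
  · intro r E S _ _ F T hT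
    change co (JH J₀ (lam p ℕ K (mon p E S * v p r)) - JH J₀ (lam p ℕ K (mon p E S)) * v p r)
      F T = 0
    rw [lam_mul_v, add_sub_cancel_left, co_sum]
    refine Finset.sum_eq_zero fun k _ => ?_
    rw [co_mul_vpow, if_neg]
    have h1 : 2 ≤ p ^ (k + 1) := le_trans hp.two_le (Nat.le_self_pow (Nat.succ_ne_zero k) p)
    rcases hT with hT | hT
    · omega
    · omega

/-- Factors of the left side can be moved to the functional, as long as only coefficients without
odd generators are considered. -/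
private theorem co_JH_mul_l (J₀ : Tw p ℕ →+ ZMod p) (w : Tw p (ℕ ⊕ₗ ℕ)) {m : ℕ} {x : Tw p ℕ}
    (hx : x ∈ Par p ℕ m) (T : ℕ →₀ ℕ) :
    co (JH J₀ (w * ιl p ℕ ℕ x)) ∅ T = co (JH (J₀.comp (AddMonoidHom.mulRight x)) w) ∅ T := by
  let f : Tw p (ℕ ⊕ₗ ℕ) →+ ZMod p :=
    { toFun := fun w => co (JH J₀ (w * ιl p ℕ ℕ x)) ∅ T
      map_zero' := by rw [zero_mul, map_zero, co_zero]
      map_add' := fun a b => by rw [add_mul, map_add, co_add] }
  let g : Tw p (ℕ ⊕ₗ ℕ) →+ ZMod p :=
    { toFun := fun w => co (JH (J₀.comp (AddMonoidHom.mulRight x)) w) ∅ T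
      map_zero' := by rw [map_zero, co_zero]
      map_add' := fun a b => by rw [map_add, co_add] }
  have h1 : f = g := lex_ext fun a b => by
    induction b using induct with
    | h0 => rw [map_zero, mul_zero, map_zero, map_zero]
    | ha b b' hb hb' => rw [map_add, mul_add, map_add, map_add, hb, hb']
    | hm c F S =>
      change co (JH J₀ (ιl p ℕ ℕ a * ιr p ℕ ℕ (c • mon p F S) * ιl p ℕ ℕ x)) ∅ T =
        co (JH (J₀.comp (AddMonoidHom.mulRight x)) (ιl p ℕ ℕ a * ιr p ℕ ℕ (c • mon p F S))) ∅ T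
      have h2 : ιl p ℕ ℕ x ∈ Par p (ℕ ⊕ₗ ℕ) m := map_par _ hx
      have h3 : ιr p ℕ ℕ (c • mon p F S) ∈ Par p (ℕ ⊕ₗ ℕ) F.card :=
        map_par _ (smul_mem_Par c (mon_mem_Par F S))
      have h4 := Par_comm h3 h2
      rw [mul_assoc, h4, mul_smul_comm, ← mul_assoc, ← map_mul, map_zsmul, JH_mul, JH_mul,
        co_zsmul]
      change _ = co (J₀ (a * x) • c • mon p F S) ∅ T
      rw [co_smul, co_smul, co_mon]
      by_cases hF : F = ∅
      · rw [hF, Finset.card_empty, zero_mul, pow_zero, Int.cast_one, one_mul]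
      · rw [if_neg (fun h => hF h.1), mul_zero, mul_zero, mul_zero]
  exact DFunLike.congr_fun h1 w

/-- One step of the extraction of coefficients. -/
private theorem co_step (K : ℕ) (J₀ : Tw p ℕ →+ ZMod p) (A B : Finset ℕ) (hAB : Disjoint A B) (r : ℕ)
    (hr : r ∉ A ∪ B) {m : ℕ} {x : Tw p ℕ} (hx : x ∈ Par p ℕ m) (n : ℕ) (T : ℕ →₀ ℕ) :
    co (JH J₀ (lam p ℕ K (mon p A (ind B)) * ιl p ℕ ℕ x) * v p r ^ n) ∅ T =
      if T r = n then co (JH (J₀.comp (AddMonoidHom.mulRight x))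
        (lam p ℕ K (mon p A (ind B)))) ∅ (T.erase r) else 0 := by
  rw [co_mul_vpow, co_JH_mul_l J₀ _ hx]
  have hsup := nat_sup (natOp_JH K (J₀.comp (AddMonoidHom.mulRight x))) A B hAB
  by_cases h1 : T r = n
  · rw [if_pos h1, if_pos h1.ge]
    congr 1
    ext y
    rw [Finsupp.tsub_apply]
    by_cases hy : y = r
    · rw [hy, Finsupp.erase_same, Finsupp.single_eq_same, h1, Nat.sub_self]
    · rw [Finsupp.erase_ne hy, Finsupp.single_eq_of_ne hy, Nat.sub_zero]
  · rw [if_neg h1]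
    split_ifs with h2
    · by_contra h3
      refine hr ((hsup ∅ (T - Finsupp.single r n) h3).2 r ?_)
      rw [Finsupp.mem_support_iff, Finsupp.tsub_apply, Finsupp.single_eq_same]
      omega
    · rfl

/-- Coefficients of `x * t r` without odd generators vanish if `x` does not involve `r`. -/
private theorem co_mul_t_empty {D : Set ℕ} {x : Tw p ℕ} (hx : SupIn x D) (r : ℕ) (hr : r ∉ D)
    (T : ℕ →₀ ℕ) : co (x * t p r) ∅ T = 0 := by
  let f : Tw p ℕ →+ ZMod p :=
    { toFun := fun w => co (w * t p r) ∅ T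
      map_zero' := by rw [zero_mul, co_zero]
      map_add' := fun x y => by rw [add_mul, co_add] }
  refine ext_sup D hx f 0 fun c E S hE hS => ?_
  change co (c • mon p E S * t p r) ∅ T = 0
  have hrE : r ∉ E := fun h => hr (hE r h)
  have h1 := Par_comm (mon_mem_Par (p := p) E S) (t_mem_Par (p := p) r)
  obtain ⟨ε, hε, h2⟩ := t_mul_mon' (p := p) E S r hrE
  rw [smul_mul, co_smul, h1, h2, co_zsmul, co_zsmul, co_mon, if_neg, mul_zero, mul_zero, mul_zero]
  rintro ⟨h3, -⟩
  exact Finset.notMem_empty r (h3 ▸ Finset.mem_insert_self r E)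

private theorem sum_pow_ite (K l : ℕ) (hK : ℕ → ℕ) (hinj : Function.Injective hK) (c : ℕ → ZMod p) :
    (∑ k ∈ Finset.range K, if hK l = hK k then c k else 0) = if l < K then c l else 0 := by
  rw [Finset.sum_congr rfl fun k _ => by
    rw [show (if hK l = hK k then c k else 0) = if l = k then c k else 0 from by
      by_cases h : l = k
      · rw [if_pos h, if_pos (by rw [h])]
      · rw [if_neg h, if_neg (fun h2 => h (hinj h2))]]]
  rw [Finset.sum_ite_eq]
  simp only [Finset.mem_range]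

private theorem ind_empty : ind ∅ = 0 := Finset.sum_empty

private theorem ind_insert {B : Finset ℕ} {b : ℕ} (h : b ∉ B) :
    ind (insert b B) = ind B + Finsupp.single b 1 := by
  rw [← ind_erase (Finset.mem_insert_self b B), Finset.erase_insert h]

/-- Extraction of the odd generators. -/
private theorem co_JH_A (K : ℕ) (E : Finset ℕ) : ∀ J₀ : Tw p ℕ →+ ZMod p,
    co (JH J₀ (lam p ℕ K (mon p (uA E) (ind ∅)))) ∅ (∑ e ∈ E, Finsupp.single (2 * e) (p ^ e)) =
      if ∀ e ∈ E, e < K then J₀ (mon p E 0) else 0 := by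
  have hp : p.Prime := Fact.out
  induction E using Finset.induction_on_max with
  | empty =>
    intro J₀
    rw [if_pos (fun e he => absurd he (Finset.notMem_empty e)), uA, Finset.image_empty,
      ind_empty, Finset.sum_empty, mon_zero, map_one]
    have h1 := JH_mul (J := ℕ) J₀ 1 1
    rw [map_one, map_one, mul_one] at h1
    have h2 : co (1 : Tw p ℕ) ∅ 0 = 1 := by
      rw [← mon_zero, co_mon, if_pos ⟨rfl, rfl⟩]
    rw [h1, co_smul, h2, mul_one]
  | insert e E hE ih =>
    intro J₀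
    have heE : e ∉ E := fun h => lt_irrefl _ (hE e h)
    have huA : uA (insert e E) = insert (2 * e) (uA E) := by
      rw [uA, uA, Finset.image_insert]
    have hr : 2 * e ∉ uA E ∪ ∅ := by
      rw [Finset.union_empty, uA, Finset.mem_image]
      rintro ⟨e', he', h⟩
      have h2 : e' = e := by omega
      exact heE (h2 ▸ he')
    have h1 : mon p (uA (insert e E)) (ind ∅) = mon p (uA E) (ind ∅) * t p (2 * e) := by
      rw [mon_mul_t _ _ _ fun x hx => ?_, huA]
      obtain ⟨e', he', rfl⟩ := Finset.mem_image.1 hx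
      have := hE e' he'
      omega
    have hTr : (∑ e' ∈ insert e E, Finsupp.single (2 * e') (p ^ e')) (2 * e) = p ^ e := by
      rw [Finset.sum_insert heE, Finsupp.add_apply, Finsupp.single_eq_same,
        Finsupp.finsetSum_apply, Finset.sum_eq_zero, add_zero]
      intro e' he'
      rw [Finsupp.single_eq_of_ne]
      have := hE e' he'
      omega
    have hTe : (∑ e' ∈ insert e E, Finsupp.single (2 * e') (p ^ e')).erase (2 * e) =
        ∑ e' ∈ E, Finsupp.single (2 * e') (p ^ e') := by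
      rw [Finset.sum_insert heE, Finsupp.erase_add, Finsupp.erase_single, zero_add]
      ext y
      by_cases hy : y = 2 * e
      · rw [hy, Finsupp.erase_same, Finsupp.finsetSum_apply, Finset.sum_eq_zero]
        intro e' he'
        rw [Finsupp.single_eq_of_ne]
        have := hE e' he'
        omega
      · rw [Finsupp.erase_ne hy]
    have hsup : SupIn (JH J₀ (lam p ℕ K (mon p (uA E) (ind ∅)))) (uA E ∪ ∅ : Finset ℕ) :=
      nat_sup (natOp_JH K J₀) (uA E) ∅ (Finset.disjoint_empty_right _)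
    rw [h1, lam_mul_t, co_add, co_sum, co_mul_t_empty hsup (2 * e) hr, zero_add,
      Finset.sum_congr rfl fun k _ => co_step K J₀ (uA E) ∅ (Finset.disjoint_empty_right _)
        (2 * e) hr (t_mem_Par k) (p ^ k) _, hTr, hTe,
      sum_pow_ite K e (fun k => p ^ k) (Nat.pow_right_injective hp.two_le), ih]
    change (if e < K then (if ∀ e ∈ E, e < K then J₀ (mon p E 0 * t p e) else 0) else 0) = _
    rw [mon_mul_t E 0 e hE]
    by_cases h2 : e < K
    · by_cases h3 : ∀ e ∈ E, e < K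
      · rw [if_pos h2, if_pos h3, if_pos]
        intro x hx
        rcases Finset.mem_insert.1 hx with rfl | hx
        · exact h2
        · exact h3 x hx
      · rw [if_pos h2, if_neg h3, if_neg]
        exact fun h4 => h3 fun x hx => h4 x (Finset.mem_insert_of_mem hx)
    · rw [if_neg h2, if_neg]
      exact fun h4 => h2 (h4 e (Finset.mem_insert_self _ _))

/-- Extraction of the even generators. -/
private theorem co_JH_B (K : ℕ) (E : Finset ℕ) (κ : ℕ → ℕ) (B : Finset ℕ) (hB : Disjoint (uA E) B) :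
    ∀ J₀ : Tw p ℕ →+ ZMod p,
    co (JH J₀ (lam p ℕ K (mon p (uA E) (ind B)))) ∅ (∑ e ∈ E, Finsupp.single (2 * e) (p ^ e) +
      ∑ b ∈ B, Finsupp.single b (p ^ (κ b + 1))) =
      if (∀ e ∈ E, e < K) ∧ ∀ b ∈ B, κ b < K then
        J₀ (mon p E (∑ b ∈ B, Finsupp.single (κ b) 1)) else 0 := by
  have hp : p.Prime := Fact.out
  induction B using Finset.induction_on with
  | empty =>
    intro J₀
    rw [Finset.sum_empty, Finset.sum_empty, add_zero, co_JH_A]
    by_cases h1 : ∀ e ∈ E, e < K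
    · rw [if_pos h1, if_pos ⟨h1, fun b hb => absurd hb (Finset.notMem_empty b)⟩]
    · rw [if_neg h1, if_neg (fun h => h1 h.1)]
  | insert b B hb ih =>
    intro J₀
    rw [Finset.disjoint_insert_right] at hB
    obtain ⟨hbE, hB⟩ := hB
    have hr : b ∉ uA E ∪ B := by
      rw [Finset.mem_union, not_or]
      exact ⟨hbE, hb⟩
    have h1 : mon p (uA E) (ind (insert b B)) = mon p (uA E) (ind B) * v p b := by
      rw [v, mon_mul_mon_empty, ind_insert hb]
    obtain ⟨T, hT⟩ : ∃ T : ℕ →₀ ℕ, T = ∑ e ∈ E, Finsupp.single (2 * e) (p ^ e) +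
      ∑ b ∈ B, Finsupp.single b (p ^ (κ b + 1)) := ⟨_, rfl⟩
    have hT0 : T b = 0 := by
      have h3 : ∑ e ∈ E, (Finsupp.single (2 * e) (p ^ e) : ℕ →₀ ℕ) b = 0 :=
        Finset.sum_eq_zero fun x hx => Finsupp.single_eq_of_ne fun h =>
          hbE (h ▸ Finset.mem_image_of_mem _ hx)
      have h4 : ∑ x ∈ B, (Finsupp.single x (p ^ (κ x + 1)) : ℕ →₀ ℕ) b = 0 :=
        Finset.sum_eq_zero fun x hx => Finsupp.single_eq_of_ne fun h => hb (h ▸ hx)
      rw [hT, Finsupp.add_apply, Finsupp.finsetSum_apply, Finsupp.finsetSum_apply, h3, h4]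
    have hT' : ∑ e ∈ E, Finsupp.single (2 * e) (p ^ e) +
        ∑ b ∈ insert b B, Finsupp.single b (p ^ (κ b + 1)) =
        T + Finsupp.single b (p ^ (κ b + 1)) := by
      rw [Finset.sum_insert hb, hT, add_assoc, add_comm (Finsupp.single b (p ^ (κ b + 1)))]
    have hTr : (T + Finsupp.single b (p ^ (κ b + 1))) b = p ^ (κ b + 1) := by
      rw [Finsupp.add_apply, hT0, Finsupp.single_eq_same, zero_add]
    have hTe : (T + Finsupp.single b (p ^ (κ b + 1))).erase b = T := by
      rw [Finsupp.erase_add, Finsupp.erase_single, add_zero]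
      ext y
      by_cases hy : y = b
      · rw [hy, Finsupp.erase_same, hT0]
      · rw [Finsupp.erase_ne hy]
    have hsup := nat_sup (natOp_JH K J₀) (uA E) B hB
    have h2 : co (JH J₀ (lam p ℕ K (mon p (uA E) (ind B))) * v p b) ∅
        (T + Finsupp.single b (p ^ (κ b + 1))) = 0 := by
      have h3 := co_mul_vpow (JH J₀ (lam p ℕ K (mon p (uA E) (ind B)))) b 1 ∅
        (T + Finsupp.single b (p ^ (κ b + 1)))
      rw [pow_one] at h3
      rw [h3]
      split_ifs with h4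
      · by_contra h5
        refine hr ((hsup ∅ _ h5).2 b ?_)
        rw [Finsupp.mem_support_iff, Finsupp.tsub_apply, Finsupp.single_eq_same, hTr]
        have : 2 ≤ p ^ (κ b + 1) := le_trans hp.two_le (Nat.le_self_pow (Nat.succ_ne_zero _) p)
        omega
      · rfl
    rw [hT', h1, lam_mul_v, co_add, co_sum, h2, zero_add,
      Finset.sum_congr rfl fun k _ => co_step K J₀ (uA E) B hB
        b hr (v_mem_Par k) (p ^ (k + 1)) _, hTr, hTe,
      sum_pow_ite K (κ b) (fun k => p ^ (k + 1)) (fun x y hxy => by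
        have := Nat.pow_right_injective hp.two_le hxy
        omega), hT, ih hB]
    change (if κ b < K then (if (∀ e ∈ E, e < K) ∧ ∀ b ∈ B, κ b < K then
      J₀ (mon p E (∑ b ∈ B, Finsupp.single (κ b) 1) * v p (κ b)) else 0) else 0) = _
    rw [v, mon_mul_mon_empty, Finset.sum_insert hb, add_comm (Finsupp.single (κ b) 1)]
    by_cases h2 : κ b < K
    · by_cases h3 : (∀ e ∈ E, e < K) ∧ ∀ b ∈ B, κ b < K
      · rw [if_pos h2, if_pos h3, if_pos]
        refine ⟨h3.1, fun x hx => ?_⟩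
        rcases Finset.mem_insert.1 hx with rfl | hx
        · exact h2
        · exact h3.2 x hx
      · rw [if_pos h2, if_neg h3, if_neg]
        exact fun h4 => h3 ⟨h4.1, fun x hx => h4.2 x (Finset.mem_insert_of_mem hx)⟩
    · rw [if_neg h2, if_neg]
      exact fun h4 => h2 (h4.2 b (Finset.mem_insert_self _ _))

/-- The general formula. -/
theorem Jc_JH_gen (K : ℕ) (J₀ : Tw p ℕ →+ ZMod p) (E : Finset ℕ) (R : ℕ →₀ ℕ) :
    Jc p ((JH J₀).comp (lam p ℕ K).toAddMonoidHom) E R =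
      if (∀ e ∈ E, e < K) ∧ ∀ j ∈ R.support, j < K then J₀ (mon p E R) else 0 := by
  let B : Finset ℕ := (R.support.sigma fun i => Finset.range (R i)).image
    fun z => 2 * Nat.pair z.1 z.2 + 1
  let κ : ℕ → ℕ := fun n => (Nat.unpair (n / 2)).1
  have hκ1 : ∀ i c, κ (2 * Nat.pair i c + 1) = i := fun i c => by
    change (Nat.unpair ((2 * Nat.pair i c + 1) / 2)).1 = i
    rw [show (2 * Nat.pair i c + 1) / 2 = Nat.pair i c by omega, Nat.unpair_pair]
  have hBsum : ∀ g : ℕ → (ℕ →₀ ℕ), ∑ b ∈ B, g b =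
      ∑ i ∈ R.support, ∑ c ∈ Finset.range (R i), g (2 * Nat.pair i c + 1) := by
    intro g
    rw [Finset.sum_image, Finset.sum_sigma]
    rintro ⟨i, c⟩ - ⟨i', c'⟩ - h1
    have h2 : Nat.pair i c = Nat.pair i' c' := by
      change 2 * Nat.pair i c + 1 = 2 * Nat.pair i' c' + 1 at h1
      omega
    rw [Nat.pair_eq_pair] at h2
    obtain ⟨rfl, rfl⟩ := h2
    rfl
  have hdis : Disjoint (uA E) B := by
    rw [Finset.disjoint_left]
    intro x hx hx'
    obtain ⟨e, -, rfl⟩ := Finset.mem_image.1 hx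
    obtain ⟨z, -, hz⟩ := Finset.mem_image.1 hx'
    omega
  have h1 : uB R = ind B := by
    rw [ind, hBsum fun b => Finsupp.single b 1, uB]
  have h2 : uT p E R = ∑ e ∈ E, Finsupp.single (2 * e) (p ^ e) +
      ∑ b ∈ B, Finsupp.single b (p ^ (κ b + 1)) := by
    rw [hBsum fun b => Finsupp.single b (p ^ (κ b + 1)), uT]
    congr 1
    refine Finset.sum_congr rfl fun i _ => Finset.sum_congr rfl fun c _ => ?_
    rw [hκ1]
  have h3 : ∑ b ∈ B, Finsupp.single (κ b) 1 = R := by
    rw [hBsum fun b => Finsupp.single (κ b) 1]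
    conv_rhs => rw [← Finsupp.sum_single R]
    refine Finset.sum_congr rfl fun i _ => ?_
    have h4 : ∀ c ∈ Finset.range (R i), Finsupp.single (κ (2 * Nat.pair i c + 1)) 1 =
        (Finsupp.single i 1 : ℕ →₀ ℕ) := fun c _ => by rw [hκ1]
    rw [Finset.sum_congr rfl h4, Finset.sum_const, Finset.card_range, Finsupp.smul_single,
      smul_eq_mul, mul_one]
  have h4 := co_JH_B (p := p) K E κ B hdis J₀
  rw [h3, ← h1, ← h2] at h4
  rw [Jc]
  change co (JH J₀ (lam p ℕ K (mon p (uA E) (uB R)))) ∅ (uT p E R) = _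
  rw [h4]
  have h5 : (∀ b ∈ B, κ b < K) ↔ ∀ j ∈ R.support, j < K := by
    constructor
    · intro h j hj
      have h6 := h (2 * Nat.pair j 0 + 1) (Finset.mem_image.2 ⟨⟨j, 0⟩, by
        rw [Finset.mem_sigma]
        refine ⟨hj, Finset.mem_range.2 ?_⟩
        exact Nat.pos_of_ne_zero (Finsupp.mem_support_iff.1 hj), rfl⟩)
      rwa [hκ1] at h6
    · intro h b hb
      obtain ⟨z, hz, rfl⟩ := Finset.mem_image.1 hb
      rw [hκ1]
      exact h _ (Finset.mem_sigma.1 hz).1
  by_cases h6 : (∀ e ∈ E, e < K) ∧ ∀ b ∈ B, κ b < K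
  · rw [if_pos h6, if_pos ⟨h6.1, h5.1 h6.2⟩]
  · rw [if_neg h6, if_neg (fun h => h6 ⟨h.1, h5.2 h.2⟩)]

theorem Jc_JH {K : ℕ} {J₀ : Tw p ℕ →+ ZMod p} (hJ : Sml K J₀) (E : Finset ℕ) (R : ℕ →₀ ℕ) :
    Jc p ((JH J₀).comp (lam p ℕ K).toAddMonoidHom) E R = J₀ (mon p E R) := by
  rw [Jc_JH_gen]
  by_cases h : (∀ e ∈ E, e < K) ∧ ∀ j ∈ R.support, j < K
  · rw [if_pos h]
  · rw [if_neg h]
    have h1 := hJ 1 E R (by
      by_contra h2
      rw [not_or] at h2
      refine h ⟨fun e he => ?_, fun j hj => ?_⟩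
      · by_contra h3
        exact h2.1 ⟨e, he, not_lt.1 h3⟩
      · by_contra h3
        exact h2.2 ⟨j, hj, not_lt.1 h3⟩)
    rw [one_smul] at h1
    exact h1.symm

theorem Jc_JH' {K : ℕ} {J₀ : Tw p ℕ →+ ZMod p} (E : Finset ℕ) (R : ℕ →₀ ℕ) (hE : ∀ e ∈ E, e < K)
    (hR : ∀ j ∈ R.support, j < K) :
    Jc p ((JH J₀).comp (lam p ℕ K).toAddMonoidHom) E R = J₀ (mon p E R) := by
  rw [Jc_JH_gen, if_pos ⟨hE, hR⟩]

end Tw

end BPN.E
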