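import Pool.Agent.BPN.E.Sj

/-!
# Part (E), module Lev: levels and the decomposition of the path object (project BPN, helper30)

`Lv m s` : the blocks of the values `> m` are singletons.  `InB s` : `s 1 ≠ 0`, i.e. the block of `0` is
`{0}`.  `jm` shifts a surjection: `(jm s) 0 = 0`, `(jm s) (i+1) = s i + 1`.

PROOFS.
* `Lv_fa`, `Lv_th`: if `t = s ∘ α` with `α` monotone and `t i = t j > m` then `s (α i) = s (α j) > m`, so
  `α i = α j`; `dl` is injective; for `th k`: `α i = α j` with `i ≠ j` forces `α i = 0`, so `t i = s 0 = 0`,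
  contradiction to `t i > m ≥ 0`.
* `Lv_sg`: `t = s ∘ sg j`; `t a = t b > m` gives `sg j a = sg j b`, so `a = b` or `{a, b} = {j, j+1}` and
  then the value is `s j ≤ m`, contradiction.
* `key_le`: `s (k+1) ≤ 1` (`act_th_le`), so `k + 1 - e ≤ 1` (`Sj.ge`), `e = exc s = exc x`.  If
  `x (k+1) > M` then `x` is strictly increasing by one from `k+1` on (all blocks of values `> M` are
  singletons, `Sj.succ_le`), so `x (k+1) = k + 1 - e ≤ 1 ≤ M` (compare with `exc_spec`), contradiction.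
* `InB_iff`: given `s` with `s 1 ≠ 0`, so `s 1 = 1` and `s (i+1) ≥ 1`, put `t i = s (i+1) - 1`.
* `fa_jm`: `jmf s ∘ dl (i+1) = jmf (s ∘ dl i)`, and `jmf f` is good iff `f` is good
  (`Good.jm` and the converse).
* `d0_none_iff`: `s ∘ dl 0` is `i ↦ s (i+1)`, surjective iff `s 1 = 0`.
* `d0_sec`: `s ∘ dl 0 ∘ sg 0 = s` if `s 1 = 0 (= s 0)`.
* `Lv_d0`: for `s` with `s 1 = 0` the blocks of the values `> 0` of `s` and `s ∘ dl 0` agree up to shift.
-/

namespace BPN.E

theorem Lv_top (s : Sj) : Lv ⊤ s := by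
  intro i j h; exact absurd h (by simp)

theorem Lv_mono {m m' : ℕ∞} (h : m ≤ m') {s : Sj} (hs : Lv m s) : Lv m' s :=
  fun i j h1 h2 => hs i j (lt_of_le_of_lt h h1) h2

private theorem lev_dl_zero (j : ℕ) : dl 0 j = j + 1 := by
  unfold dl; simp

private theorem lev_act_none {α : ℕ → ℕ} {s : Sj} : act α s = none ↔ ¬ Good (s.1 ∘ α) := by
  unfold act
  split_ifs with h
  · simp [h]
  · simp [h]

/-- Every surjection has a finite level. -/
theorem exists_Lv (s : Sj) : ∃ m : ℕ, Lv m s := by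
  obtain ⟨N, hN⟩ := exc_spec s
  refine ⟨N, fun i j h1 h2 => ?_⟩
  have h3 : N < s.1 i := by exact_mod_cast h1
  have h4 := s.le i
  have h5 := s.le j
  have h6 := hN i (by omega)
  have h7 := hN j (by omega)
  omega

theorem Lv_fa {m : ℕ∞} {c i : ℕ} {s t : Sj} (hs : Lv m s) (h : fa c i s = some t) : Lv m t := by
  have ht : t.1 = s.1 ∘ dl (i + c) := act_eq_some.1 h
  intro a b h1 h2
  rw [ht] at h1 h2
  exact (dl_strictMono (i + c)).injective (hs _ _ h1 h2)

theorem Lv_th {m : ℕ∞} {i : ℕ} {s t : Sj} (hs : Lv m s) (h : act (th i) s = some t) : Lv m t := by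
  have ht : t.1 = s.1 ∘ th i := act_eq_some.1 h
  intro a b h1 h2
  rw [ht] at h1 h2
  have h3 : th i a = th i b := hs _ _ h1 h2
  by_contra hab
  have h4 : th i a = 0 := by
    unfold th at h3 ⊢
    split_ifs at h3 ⊢ <;> omega
  rw [Function.comp_apply, h4, s.zero] at h1
  simp at h1

theorem Lv_sg {m : ℕ∞} {j : ℕ} {s t : Sj} (hs : Lv m s) (hj : (s.1 j : ℕ∞) ≤ m)
    (h : act (sg j) s = some t) : Lv m t := by
  have ht : t.1 = s.1 ∘ sg j := act_eq_some.1 h
  intro a b h1 h2
  rw [ht] at h1 h2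
  have h3 : sg j a = sg j b := hs _ _ h1 h2
  by_contra hab
  have h4 : sg j a = j := by
    unfold sg at h3 ⊢
    split_ifs at h3 ⊢ <;> omega
  rw [Function.comp_apply, h4] at h1
  exact absurd h1 (not_lt.2 hj)

theorem key_le {M : ℕ∞} (hM : 1 ≤ M) {s t x : Sj} {j : ℕ} (hx : Lv M x) (he : exc x = exc s)
    (h : act (th j) s = some t) : (x.1 (j + 1) : ℕ∞) ≤ M := by
  by_contra hcon
  push Not at hcon
  have h1 := act_th_le h
  have h2 := s.ge (j + 1)
  have h3 : ∀ n, x.1 (j + 1 + n) = x.1 (j + 1) + n := by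
    intro n
    induction n with
    | zero => rfl
    | succ n ih =>
      have a1 := x.succ_le (j + 1 + n)
      have a2 : x.1 (j + 1 + n) ≤ x.1 (j + 1 + n + 1) := x.2.1 (Nat.le_succ _)
      have a3 : x.1 (j + 1 + n) ≠ x.1 (j + 1 + n + 1) := by
        intro a4
        have a5 : M < (x.1 (j + 1 + n) : ℕ∞) := by
          refine lt_of_lt_of_le hcon ?_
          rw [ih]
          exact_mod_cast Nat.le_add_right _ _
        have a6 := hx _ _ a5 a4
        omega
      rw [← add_assoc]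
      omega
  obtain ⟨N, hN⟩ := exc_spec x
  have h4 := hN (j + 1 + N) (by omega)
  have h5 := h3 N
  have h6 : x.1 (j + 1) ≤ 1 := by
    rw [he] at h4
    push_cast at h2 h4
    omega
  have h7 : (x.1 (j + 1) : ℕ∞) ≤ 1 := by exact_mod_cast h6
  exact absurd hcon (not_lt.2 (h7.trans hM))

/-- The blocks of the values `> m` are singletons: then large faces vanish. -/
theorem fa_none_of_Lv {m : ℕ} {s : Sj} (hs : Lv m s) {i : ℕ} (hi : (m : ℤ) + exc s < i) :
    fa 0 i s = none := by
  cases h : fa 0 i s with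
  | none => rfl
  | some t =>
    exfalso
    have ht : t.1 = s.1 ∘ dl (i + 0) := act_eq_some.1 h
    obtain ⟨j, hj⟩ := t.2.2.1 (s.1 i)
    rw [ht, Function.comp_apply] at hj
    have h1 := s.ge i
    have h2 : m < s.1 i := by omega
    have h3 : (m : ℕ∞) < (s.1 i : ℕ∞) := by exact_mod_cast h2
    have h4 := hs _ _ h3 hj.symm
    unfold dl at h4
    split_ifs at h4 <;> omega

theorem InB_fa {i : ℕ} {s t : Sj} (hs : InB s) (h : fa 1 i s = some t) : InB t := by
  have ht : t.1 = s.1 ∘ dl (i + 1) := act_eq_some.1 h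
  unfold InB at hs ⊢
  rw [ht, Function.comp_apply]
  have h1 : 1 ≤ dl (i + 1) 1 := by
    unfold dl; split_ifs <;> omega
  have h2 : s.1 1 ≤ s.1 (dl (i + 1) 1) := s.2.1 h1
  omega

theorem InB_sg {i : ℕ} {s t : Sj} (hs : InB s) (h : act (sg (i + 1)) s = some t) : InB t := by
  have ht : t.1 = s.1 ∘ sg (i + 1) := act_eq_some.1 h
  unfold InB at hs ⊢
  rw [ht, Function.comp_apply]
  have h1 : sg (i + 1) 1 = 1 := by
    unfold sg; split_ifs <;> omega
  rw [h1]
  exact hs

theorem InB_iff (s : Sj) : InB s ↔ ∃ t, s = jm t := by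
  constructor
  · intro hs
    have h1 : ∀ i, 1 ≤ s.1 (i + 1) := by
      intro i
      have a1 : s.1 1 ≤ s.1 (i + 1) := s.2.1 (by omega)
      unfold InB at hs
      omega
    refine ⟨⟨fun i => s.1 (i + 1) - 1, ?_, ?_, exc s, ?_⟩, ?_⟩
    · intro a b hab
      have a1 : s.1 (a + 1) ≤ s.1 (b + 1) := s.2.1 (by omega)
      exact Nat.sub_le_sub_right a1 1
    · intro v
      obtain ⟨i, hi⟩ := s.2.2.1 (v + 1)
      cases i with
      | zero => rw [s.zero] at hi; omega
      | succ i =>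
        refine ⟨i, ?_⟩
        show s.1 (i + 1) - 1 = v
        omega
    · obtain ⟨N, hN⟩ := exc_spec s
      refine ⟨N, fun i hi => ?_⟩
      have a1 := hN (i + 1) (by omega)
      have a2 := h1 i
      push_cast at a1 ⊢
      omega
    · refine Subtype.ext (funext fun i => ?_)
      cases i with
      | zero => exact s.zero
      | succ i =>
        have a2 := h1 i
        show s.1 (i + 1) = s.1 (i + 1) - 1 + 1
        omega
  · rintro ⟨t, rfl⟩
    show t.1 0 + 1 ≠ 0
    omega

theorem jm_inj : Function.Injective jm := by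
  intro s t h
  refine Subtype.ext (funext fun i => ?_)
  have h1 : jmf s.1 (i + 1) = jmf t.1 (i + 1) := congrFun (congrArg Subtype.val h) (i + 1)
  have h2 : s.1 i + 1 = t.1 i + 1 := h1
  omega

theorem exc_jm (t : Sj) : exc (jm t) = exc t := by
  refine exc_unique ?_
  obtain ⟨N, hN⟩ := exc_spec t
  refine ⟨N + 1, fun i hi => ?_⟩
  obtain ⟨j, rfl⟩ : ∃ j, i = j + 1 := ⟨i - 1, by omega⟩
  have h1 := hN j (by omega)
  show ((t.1 j + 1 : ℕ) : ℤ) = _
  push_cast
  omega

private theorem lev_lt_iff {m : ℕ∞} {a : ℕ} : m + 1 < ((a + 1 : ℕ) : ℕ∞) ↔ m < (a : ℕ∞) := by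
  induction m using ENat.recTopCoe with
  | top => simp
  | coe m =>
    norm_cast
    omega

theorem Lv_jm {m : ℕ∞} (t : Sj) : Lv (m + 1) (jm t) ↔ Lv m t := by
  constructor
  · intro h i j h1 h2
    have h3 := h (i + 1) (j + 1) (by
      show m + 1 < ((t.1 i + 1 : ℕ) : ℕ∞)
      exact lev_lt_iff.2 h1) (by
      show t.1 i + 1 = t.1 j + 1
      rw [h2])
    omega
  · intro h i j h1 h2
    cases i with
    | zero =>
      have h3 : m + 1 < ((0 : ℕ) : ℕ∞) := h1
      simp at h3
    | succ i =>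
      have h3 : m + 1 < ((t.1 i + 1 : ℕ) : ℕ∞) := h1
      cases j with
      | zero =>
        have h4 : t.1 i + 1 = 0 := h2
        omega
      | succ j =>
        have h4 : t.1 i + 1 = t.1 j + 1 := h2
        have h5 := h i j (lev_lt_iff.1 h3) (by omega)
        omega

private theorem lev_jmf_comp (f : ℕ → ℕ) (i : ℕ) : jmf f ∘ dl (i + 1) = jmf (f ∘ dl i) := by
  funext j
  cases j with
  | zero =>
    have h : dl (i + 1) 0 = 0 := by unfold dl; simp
    rw [Function.comp_apply, h]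
    rfl
  | succ j =>
    have h : dl (i + 1) (j + 1) = dl i j + 1 := by
      unfold dl; split_ifs <;> omega
    rw [Function.comp_apply, h]
    rfl

private theorem lev_good {f : ℕ → ℕ} (h : Good (jmf f)) : Good f := by
  obtain ⟨h1, h2, e, N, h3⟩ := h
  refine ⟨fun a b hab => ?_, fun v => ?_, e, N, fun i hi => ?_⟩
  · have a1 : f a + 1 ≤ f b + 1 := h1 (show a + 1 ≤ b + 1 by omega)
    omega
  · obtain ⟨i, hi⟩ := h2 (v + 1)
    cases i with
    | zero =>
      have a1 : (0 : ℕ) = v + 1 := hi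
      omega
    | succ i =>
      have a1 : f i + 1 = v + 1 := hi
      exact ⟨i, by omega⟩
  · have a1 := h3 (i + 1) (by omega)
    have a2 : jmf f (i + 1) = f i + 1 := rfl
    rw [a2] at a1
    push_cast at a1
    omega

theorem fa_jm (i : ℕ) (t : Sj) : fa 1 i (jm t) = (fa 0 i t).map jm := by
  cases h : fa 0 i t with
  | none =>
    have h1 : ¬ Good (t.1 ∘ dl (i + 0)) := lev_act_none.1 h
    refine lev_act_none.2 fun h2 => h1 ?_
    have h3 : (jm t).1 ∘ dl (i + 1) = jmf (t.1 ∘ dl i) := lev_jmf_comp t.1 i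
    rw [h3] at h2
    exact lev_good h2
  | some u =>
    have hu : u.1 = t.1 ∘ dl (i + 0) := act_eq_some.1 h
    show act (dl (i + 1)) (jm t) = some (jm u)
    rw [act_eq_some]
    show jmf u.1 = jmf t.1 ∘ dl (i + 1)
    rw [lev_jmf_comp, hu]
    rfl

theorem d0_none_iff (s : Sj) : fa 0 0 s = none ↔ InB s := by
  refine lev_act_none.trans ?_
  constructor
  · intro h h1
    apply h
    refine ⟨s.2.1.comp (dl_strictMono _).monotone, fun v => ?_, exc s - 1, ?_⟩
    · obtain ⟨i, hi⟩ := s.2.2.1 v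
      cases i with
      | zero =>
        refine ⟨0, ?_⟩
        rw [s.zero] at hi
        show s.1 (dl (0 + 0) 0) = v
        rw [Nat.add_zero, lev_dl_zero, ← hi]
        exact h1
      | succ i =>
        refine ⟨i, ?_⟩
        show s.1 (dl (0 + 0) i) = v
        rw [Nat.add_zero, lev_dl_zero, hi]
    · obtain ⟨N, hN⟩ := exc_spec s
      refine ⟨N, fun i hi => ?_⟩
      have a1 := hN (i + 1) (by omega)
      show ((s.1 (dl (0 + 0) i) : ℕ) : ℤ) = _
      rw [Nat.add_zero, lev_dl_zero]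
      push_cast at a1 ⊢
      omega
  · intro h h1
    obtain ⟨i, hi⟩ := h1.2.1 0
    have a1 : s.1 (dl (0 + 0) i) = 0 := hi
    rw [Nat.add_zero, lev_dl_zero] at a1
    have a2 : s.1 1 ≤ s.1 (i + 1) := s.2.1 (by omega)
    unfold InB at h
    omega

theorem d0_fa (i : ℕ) (s : Sj) : (fa 1 i s).bind (fa 0 0) = (fa 0 0 s).bind (fa 0 i) :=
  fa_fa 0 (Nat.zero_le i) s

private theorem lev_shift_dl (i : ℕ) : Shift (dl i) 1 :=
  ⟨i, fun j hj => by unfold dl; split_ifs <;> push_cast <;> omega⟩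

theorem d0_sec {s : Sj} (hs : ¬ InB s) : (fa 0 0 s).bind (act (sg 0)) = some s := by
  have h1 : (fa 0 0 s).bind (act (sg 0)) = act (dl 0 ∘ sg 0) s :=
    act_bind (dl_strictMono 0).monotone (lev_shift_dl 0) (sg 0) s
  rw [h1, act_eq_some]
  funext j
  rw [Function.comp_apply, Function.comp_apply, lev_dl_zero]
  unfold InB at hs
  push Not at hs
  cases j with
  | zero =>
    have a1 : sg 0 0 = 0 := rfl
    rw [a1, s.zero, Nat.zero_add, hs]
  | succ j =>
    have a1 : sg 0 (j + 1) = j := by unfold sg; simp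
    rw [a1]

/-- `s_0` is a section of `d_0` with values outside of `InB`. -/
theorem s0_spec (t : Sj) : ∃ s, act (sg 0) t = some s ∧ ¬ InB s ∧ fa 0 0 s = some t := by
  obtain ⟨s, hs⟩ := act_sg_isSome 0 t
  have h1 : s.1 = t.1 ∘ sg 0 := act_eq_some.1 hs
  refine ⟨s, hs, ?_, ?_⟩
  · unfold InB
    rw [h1, Function.comp_apply]
    have a1 : sg 0 1 = 0 := rfl
    rw [a1, t.zero]
    simp
  · show act (dl (0 + 0)) s = some t
    rw [act_eq_some, h1]
    funext j
    rw [Function.comp_apply, Function.comp_apply, Nat.add_zero, sg_dl_eq]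

theorem Lv_d0 {m : ℕ∞} {s t : Sj} (h : fa 0 0 s = some t) : Lv m s ↔ Lv m t := by
  have ht : t.1 = s.1 ∘ dl (0 + 0) := act_eq_some.1 h
  have ht2 : ∀ i, t.1 i = s.1 (i + 1) := by
    intro i
    rw [ht, Function.comp_apply, Nat.add_zero, lev_dl_zero]
  constructor
  · intro hs i j h1 h2
    rw [ht2] at h1 h2
    rw [ht2] at h2
    have := hs _ _ h1 h2
    omega
  · intro hs i j h1 h2
    cases i with
    | zero =>
      rw [s.zero] at h1
      simp at h1
    | succ i =>
      cases j with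
      | zero =>
        rw [h2, s.zero] at h1
        simp at h1
      | succ j =>
        rw [← ht2] at h1 h2
        rw [← ht2] at h2
        rw [hs i j h1 h2]

end BPN.E
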