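import Mathlib

/-!
# Part (E): tools for the modules Mult and MultL (project BPN)

Alternating functions of tuples: moving an entry to the front, alternation of
`∑ i, (-1)^i F (y i) (y without y_i)`; the set `nc` and the choice of one of its elements.
-/

namespace BPN.E

open Equiv

variable {k A : Type} [Field k]

/-- Alternating function of a tuple. -/
def AltG {n : ℕ} (f : (Fin n → A) → k) : Prop :=
  (∀ y (σ : Perm (Fin n)), f (y ∘ σ) = (Perm.sign σ : ℤ) • f y) ∧
    ∀ y i j, i ≠ j → y i = y j → f y = 0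

theorem sign_smul_self (e : ℤˣ) (a : k) : ((e : ℤ) • ((e : ℤ) • a)) = a := by
  rw [smul_smul, Int.units_coe_mul_self, one_smul]

theorem pow_smul_self (n : ℕ) (a : k) : ((-1 : ℤ) ^ n • ((-1 : ℤ) ^ n • a)) = a := by
  rw [smul_smul, ← pow_add, ← two_mul, pow_mul]; simp

/-- moving an entry to the front -/
theorem AltG.front {n : ℕ} {f : (Fin (n + 1) → A) → k} (hf : AltG f) (y : Fin (n + 1) → A)
    (i : Fin (n + 1)) :
    f (Fin.cons (y i) (y ∘ i.succAbove)) = (-1 : ℤ) ^ (i : ℕ) • f y := by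
  have h1 : (Fin.cons (y i) (y ∘ i.succAbove) : Fin (n + 1) → A) = y ∘ i.cycleRange.symm := by
    funext t
    refine Fin.cases ?_ (fun t => ?_) t
    · simp
    · simp
  rw [h1, hf.1, Perm.sign_symm, Fin.sign_cycleRange]
  simp

/-- `∑ i, (-1)^i F (y i) (y without y_i)` -/
def altS {n : ℕ} (F : A → (Fin n → A) → k) (y : Fin (n + 1) → A) : k :=
  ∑ i : Fin (n + 1), (-1 : ℤ) ^ (i : ℕ) • F (y i) (y ∘ i.succAbove)

theorem altS_perm {n : ℕ} (F : A → (Fin n → A) → k) (hF : ∀ a, AltG (F a))
    (y : Fin (n + 1) → A) (σ : Perm (Fin (n + 1))) :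
    altS F (y ∘ σ) = (Perm.sign σ : ℤ) • altS F y := by
  unfold altS
  rw [Finset.smul_sum]
  refine Eq.trans ?_ (Equiv.sum_comp σ (fun i : Fin (n + 1) =>
    (Perm.sign σ : ℤ) • (-1 : ℤ) ^ (i : ℕ) • F (y i) (y ∘ i.succAbove)))
  refine Finset.sum_congr rfl fun i _ => ?_
  set ρ : Perm (Fin (n + 1)) := i.cycleRange.symm.trans (σ.trans (σ i).cycleRange) with hρ
  have hρ0 : ρ 0 = 0 := by simp [hρ]
  obtain ⟨⟨p, τ⟩, hpt⟩ : ∃ pt : Fin (n + 1) × Perm (Fin n), Perm.decomposeFin.symm pt = ρ :=
    ⟨Perm.decomposeFin ρ, by simp⟩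
  have hp : p = 0 := by
    have h1 := congrArg (fun e : Perm (Fin (n + 1)) => e 0) hpt
    simp only [Perm.decomposeFin_symm_apply_zero, hρ0] at h1
    exact h1
  subst hp
  have hτ : ∀ t, ρ (Fin.succ t) = (τ t).succ := by
    intro t
    rw [← hpt, Perm.decomposeFin_symm_apply_succ, Equiv.swap_self, Equiv.refl_apply]
  have hs : (Perm.sign τ : ℤ) = (-1) ^ (i : ℕ) * ((Perm.sign σ : ℤ) * (-1) ^ ((σ i : Fin (n + 1)) : ℕ)) := by
    have h1 : Perm.sign ρ = Perm.sign τ := by
      rw [← hpt, Perm.decomposeFin.symm_sign]; simp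
    rw [← h1, hρ, Perm.sign_trans, Perm.sign_trans, Perm.sign_symm, Fin.sign_cycleRange,
      Fin.sign_cycleRange]
    push_cast
    ring
  have hy : (y ∘ σ) ∘ i.succAbove = (y ∘ (σ i).succAbove) ∘ τ := by
    funext t
    simp only [Function.comp_apply]
    congr 1
    have h1 : i.succAbove t = i.cycleRange.symm t.succ := by simp
    have h2 : σ (i.cycleRange.symm t.succ) = (σ i).cycleRange.symm (ρ t.succ) := by
      simp [hρ]
    rw [h1, h2, hτ]
    simp
  rw [hy, (hF _).1, hs, smul_smul, smul_smul]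
  congr 1
  have : ((-1 : ℤ) ^ (i : ℕ)) * (-1) ^ (i : ℕ) = 1 := by
    rw [← pow_add, ← two_mul, pow_mul]; simp
  linear_combination ((Perm.sign σ : ℤ) * (-1) ^ ((σ i : Fin (n + 1)) : ℕ)) * this

theorem altS_eq_zero {n : ℕ} (F : A → (Fin n → A) → k) (hF : ∀ a, AltG (F a))
    (y : Fin (n + 1) → A) (i j : Fin (n + 1)) (hij : i ≠ j) (hy : y i = y j) :
    altS F y = 0 := by
  obtain ⟨l, rfl⟩ := Fin.exists_succAbove_eq hij.symm
  cases n with
  | zero => exact l.elim0
  | succ n =>
    unfold altS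
    have h0 : ∀ t : Fin (n + 2), t ≠ i → t ≠ i.succAbove l →
        F (y t) (y ∘ t.succAbove) = 0 := by
      intro t h1 h2
      obtain ⟨u, hu⟩ := Fin.exists_succAbove_eq h1.symm
      obtain ⟨v, hv⟩ := Fin.exists_succAbove_eq h2.symm
      refine (hF _).2 _ u v ?_ ?_
      · rintro rfl
        rw [hu] at hv
        exact hij hv
      · simp only [Function.comp_apply, hu, hv, hy]
    rw [← Finset.sum_subset (Finset.subset_univ {i, i.succAbove l})]
    · rw [Finset.sum_pair hij]
      have h1 := (hF (y i)).front (y ∘ i.succAbove) l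
      have h2 := (hF (y i)).front (y ∘ (i.succAbove l).succAbove) (l.predAbove i)
      have h3 : (y ∘ (i.succAbove l).succAbove) ∘ (l.predAbove i).succAbove =
          (y ∘ i.succAbove) ∘ l.succAbove := by
        funext t
        simp only [Function.comp_apply, Fin.succAbove_succAbove_succAbove_predAbove]
      have h4 : (y ∘ (i.succAbove l).succAbove) (l.predAbove i) = (y ∘ i.succAbove) l := by
        simp only [Function.comp_apply, Fin.succAbove_succAbove_predAbove, hy]
      rw [h3, h4, h1] at h2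
      have h5 : F (y i) (y ∘ i.succAbove) = (-1 : ℤ) ^ (l : ℕ) •
          (-1 : ℤ) ^ ((l.predAbove i : Fin (n + 1)) : ℕ) •
            F (y i) (y ∘ (i.succAbove l).succAbove) := by
        rw [← h2, pow_smul_self]
      rw [← hy, h5, smul_smul, smul_smul, ← add_smul]
      have h6 := Fin.neg_one_pow_succAbove_add_predAbove (R := ℤ) i l
      have h7 : (-1 : ℤ) ^ (i : ℕ) * (-1) ^ (l : ℕ) * (-1) ^ ((l.predAbove i : Fin (n + 1)) : ℕ) +
          (-1) ^ ((i.succAbove l : Fin (n + 2)) : ℕ) = 0 := by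
        rw [pow_add, pow_add] at h6
        have h8 : ((-1 : ℤ) ^ ((l.predAbove i : Fin (n + 1)) : ℕ)) *
            (-1) ^ ((l.predAbove i : Fin (n + 1)) : ℕ) = 1 := by
          rw [← pow_add, ← two_mul, pow_mul]; simp
        linear_combination ((-1 : ℤ) ^ ((l.predAbove i : Fin (n + 1)) : ℕ)) * h6 -
          ((-1) ^ ((i.succAbove l : Fin (n + 2)) : ℕ)) * h8
      rw [h7, zero_smul]
    · intro t _ ht
      simp only [Finset.mem_insert, Finset.mem_singleton, not_or] at ht
      rw [h0 t ht.1 ht.2, smul_zero]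

theorem altS_alt {n : ℕ} (F : A → (Fin n → A) → k) (hF : ∀ a, AltG (F a)) : AltG (altS F) :=
  ⟨altS_perm F hF, altS_eq_zero F hF⟩

theorem AltG.cons {n : ℕ} {f : (Fin (n + 1) → A) → k} (hf : AltG f) (a : A) :
    AltG fun y : Fin n → A => f (Fin.cons a y) := by
  constructor
  · intro y σ
    have h1 : (Fin.cons a (y ∘ σ) : Fin (n + 1) → A) =
        (Fin.cons a y : Fin (n + 1) → A) ∘ (Perm.decomposeFin.symm (0, σ)) := by
      funext t
      refine Fin.cases ?_ (fun t => ?_) t
      · simp [Perm.decomposeFin_symm_apply_zero]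
      · simp [Perm.decomposeFin_symm_apply_succ]
    have h2 : Perm.sign (Perm.decomposeFin.symm (0, σ)) = Perm.sign σ := by
      rw [Perm.decomposeFin.symm_sign]; simp
    show f _ = _ • f _
    rw [h1, hf.1, h2]
  · intro y i j hij hy
    exact hf.2 _ i.succ j.succ (fun h => hij (Fin.succ_injective _ h)) (by simpa using hy)

/-! ### The set `nc` -/

open Classical in
/-- the elements of `O` with multiplicity at least `q` in the multiset or in the tuple -/
def nc (q : ℕ) (O : A → Prop) {a : ℕ} (x : Multiset A) (y : Fin a → A) : Set A :=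
  {o | O o ∧ (q ≤ x.count o ∨ ∃ i, y i = o)}

open Classical in
/-- an element of a set -/
noncomputable def mm (s : Set A) : Option A := if h : s.Nonempty then some h.choose else none

theorem mm_mem {s : Set A} {a : A} (h : mm s = some a) : a ∈ s := by
  unfold mm at h
  split_ifs at h with h1
  rw [← Option.some.inj h]
  exact h1.choose_spec

theorem mm_none {s : Set A} (h : mm s = none) (a : A) : a ∉ s := by
  unfold mm at h
  split_ifs at h with h1
  exact fun ha => h1 ⟨a, ha⟩

theorem nc_perm (q : ℕ) (O : A → Prop) {a : ℕ} (x : Multiset A) (y : Fin a → A)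
    (σ : Perm (Fin a)) : nc q O x (y ∘ σ) = nc q O x y := by
  ext o
  simp only [nc, Set.mem_ofPred_eq, Function.comp_apply]
  refine and_congr_right fun _ => or_congr_right ⟨?_, ?_⟩
  · rintro ⟨i, hi⟩
    exact ⟨σ i, hi⟩
  · rintro ⟨i, hi⟩
    exact ⟨σ.symm i, by simpa using hi⟩

/-- an entry of the tuple goes to the multiset -/
theorem nc_up (q : ℕ) (O : A → Prop) {a : ℕ} (x : Multiset A) (y : Fin (a + 1) → A)
    (i : Fin (a + 1)) :
    nc q O (x + Multiset.replicate q (y i)) (y ∘ i.succAbove) = nc q O x y := by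
  classical
  ext o
  simp only [nc, Set.mem_ofPred_eq, Function.comp_apply, Multiset.count_add,
    Multiset.count_replicate]
  refine and_congr_right fun _ => ?_
  by_cases ho : y i = o
  · subst ho
    simp only [if_true]
    exact ⟨fun _ => Or.inr ⟨i, rfl⟩, fun _ => Or.inl (Nat.le_add_left _ _)⟩
  · simp only [if_neg ho, add_zero]
    refine or_congr_right ⟨?_, ?_⟩
    · rintro ⟨j, hj⟩
      exact ⟨_, hj⟩
    · rintro ⟨j, hj⟩
      have hji : j ≠ i := by
        rintro rfl
        exact ho hj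
      obtain ⟨l, hl⟩ := Fin.exists_succAbove_eq hji
      exact ⟨l, by rw [hl]; exact hj⟩

open Classical in
theorem nc_down (q : ℕ) (O : A → Prop) {a : ℕ} (x : Multiset A) (y : Fin a → A) (z : A)
    (hz : Multiset.replicate q z ≤ x) :
    nc q O (x - Multiset.replicate q z) (Fin.cons z y : Fin (a + 1) → A) = nc q O x y := by
  have h1 := nc_up q O (x - Multiset.replicate q z) (Fin.cons z y : Fin (a + 1) → A) 0
  rw [Fin.cons_zero, tsub_add_cancel_of_le hz] at h1
  rw [← h1]
  congr 1

end BPN.E
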