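import Pool.Agent.BPN.E.U2
import Pool.Agent.BPN.E.Lam

/-!
# Part (E), module TTh: classification of natural operations (project BPN, architect helper30)

PROOFS.
* `Sml_of_Hg`: `2 p^K - 1 > k` and `2 (p^(K+1) - 1) > k` for `K > k`.
* `Jf_Hg`: for `HgOp k β` the coefficient vanishes unless `deg target - deg u_{E,R} = Mil.deg E R` is `k`.
* `T_thm`: `β - JH (Jf β) ∘ lam K` is a `NatOp` (differences of `NatOp`s are) with all `Jc = 0`.
-/

namespace BPN.E

namespace Tw

variable {p : ℕ} [Fact p.Prime]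

private theorem tth_ext {f g : Tw p ℕ →+ ZMod p}
    (h : ∀ (c : ZMod p) E S, f (c • mon p E S) = g (c • mon p E S)) : f = g := by
  ext w
  exact ext_prop (fun _ _ => True) (fun _ _ _ => trivial) f g fun c E S _ => h c E S

private theorem tth_sub {β γ : Tw p ℕ →+ Tw p ℕ} (hβ : NatOp p β) (hγ : NatOp p γ) :
    NatOp p (β - γ) := by
  refine ⟨fun κ u => ?_, fun i j hij u => ?_, fun r E S h1 h2 F T hT => ?_,
    fun r E S h1 h2 F T hT => ?_⟩
  · rw [AddMonoidHom.sub_apply, AddMonoidHom.sub_apply, map_sub, hβ.nat, hγ.nat]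
  · rw [AddMonoidHom.sub_apply, AddMonoidHom.sub_apply, map_sub, hβ.add i j hij, hγ.add i j hij]
  · have e : (β - γ) (mon p E S * t p r) - (β - γ) (mon p E S) * t p r =
        (β (mon p E S * t p r) - β (mon p E S) * t p r) -
          (γ (mon p E S * t p r) - γ (mon p E S) * t p r) := by
      rw [AddMonoidHom.sub_apply, AddMonoidHom.sub_apply, sub_mul]
      abel
    rw [e, co_sub, hβ.delx r E S h1 h2 F T hT, hγ.delx r E S h1 h2 F T hT, sub_zero]
  · have e : (β - γ) (mon p E S * v p r) - (β - γ) (mon p E S) * v p r =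
        (β (mon p E S * v p r) - β (mon p E S) * v p r) -
          (γ (mon p E S * v p r) - γ (mon p E S) * v p r) := by
      rw [AddMonoidHom.sub_apply, AddMonoidHom.sub_apply, sub_mul]
      abel
    rw [e, co_sub, hβ.dely r E S h1 h2 F T hT, hγ.dely r E S h1 h2 F T hT, sub_zero]

/-- total degree of an exponent -/
private noncomputable def tdg : (ℕ →₀ ℕ) →+ ℕ := Finsupp.liftAddHom fun _ => AddMonoidHom.id ℕ

private theorem tdg_eq (S : ℕ →₀ ℕ) : (S.sum fun _ n => n) = tdg S := rfl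

private theorem tdg_single (i n : ℕ) : tdg (Finsupp.single i n) = n := by
  unfold tdg
  rw [Finsupp.liftAddHom_apply_single, AddMonoidHom.id_apply]

private theorem tth_hd (E : Finset ℕ) (R : ℕ →₀ ℕ) :
    hd (∅ : Finset ℕ) (uT p E R) = hd (uA E) (uB R) + Mil.deg p R E := by
  have hp : 0 < p := (Fact.out : p.Prime).pos
  unfold hd Mil.deg
  rw [tdg_eq, tdg_eq]
  unfold uT uB uA
  rw [map_add, map_sum, map_sum, map_sum]
  simp only [map_sum, tdg_single]
  rw [Finset.card_image_of_injective _ (fun a b h => by simpa using h)]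
  simp only [Finset.sum_const, Finset.card_range, smul_eq_mul, Finset.card_empty, Finsupp.sum]
  have h1 : ∑ e ∈ E, (2 * p ^ e - 1) + E.card = 2 * ∑ e ∈ E, p ^ e := by
    rw [Finset.mul_sum, Finset.card_eq_sum_ones, ← Finset.sum_add_distrib]
    refine Finset.sum_congr rfl fun e _ => ?_
    have : 0 < p ^ e := pow_pos hp e
    omega
  have h2 : ∑ j ∈ R.support, R j * (2 * (p ^ (j + 1) - 1)) + 2 * ∑ j ∈ R.support, R j * 1 =
      2 * ∑ j ∈ R.support, R j * p ^ (j + 1) := by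
    rw [Finset.mul_sum, Finset.mul_sum, ← Finset.sum_add_distrib]
    refine Finset.sum_congr rfl fun j _ => ?_
    obtain ⟨q, hq⟩ : ∃ q, p ^ (j + 1) = q + 1 :=
      ⟨p ^ (j + 1) - 1, by have : 0 < p ^ (j + 1) := pow_pos hp _; omega⟩
    rw [hq, Nat.add_sub_cancel]
    ring
  rw [mul_add, ← h1, ← h2]
  ring

theorem Sml_of_Hg {k K : ℕ} (h : k < K) {J₀ : Tw p ℕ →+ ZMod p} (hJ : Hg k J₀) : Sml K J₀ := by
  have hp : 2 ≤ p := (Fact.out : p.Prime).two_le
  intro c E R hER
  refine hJ c E R ?_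
  have key : k < Mil.deg p R E := by
    unfold Mil.deg
    rcases hER with ⟨e, he, hK⟩ | ⟨j, hj, hK⟩
    · have h1 : 2 * p ^ e - 1 ≤ ∑ e ∈ E, (2 * p ^ e - 1) :=
        Finset.single_le_sum (f := fun e => 2 * p ^ e - 1) (fun _ _ => Nat.zero_le _) he
      have h2 : e < p ^ e := e.lt_pow_self (by omega)
      omega
    · have h1 : R j * (2 * (p ^ (j + 1) - 1)) ≤
          R.sum fun j r => r * (2 * (p ^ (j + 1) - 1)) := by
        rw [Finsupp.sum]
        exact Finset.single_le_sum (f := fun j => R j * (2 * (p ^ (j + 1) - 1)))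
          (fun _ _ => Nat.zero_le _) hj
      have h2 : j + 1 < p ^ (j + 1) := (j + 1).lt_pow_self (by omega)
      have h3 : 1 ≤ R j := Nat.one_le_iff_ne_zero.2 (Finsupp.mem_support_iff.1 hj)
      have h4 : 1 * (2 * (p ^ (j + 1) - 1)) ≤ R j * (2 * (p ^ (j + 1) - 1)) :=
        Nat.mul_le_mul_right _ h3
      omega
  exact key.ne'

theorem Jf_Hg {k : ℕ} {β : Tw p ℕ →+ Tw p ℕ} (h : HgOp k β) : Hg k (Jf β) := by
  intro c E R hk
  rw [Jf_mon]
  have h0 : Jc p β E R = 0 := by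
    by_contra hne
    have h1 := h _ _ _ _ hne
    rw [tth_hd] at h1
    exact hk (by omega)
  rw [h0, mul_zero]

/-- **Classification of natural operations.** -/
theorem T_thm {k K : ℕ} (hK : k < K) {β : Tw p ℕ →+ Tw p ℕ} (hβ : NatOp p β) (h : HgOp k β)
    (u : Tw p ℕ) : β u = JH (Jf β) (lam p ℕ K u) := by
  have hS : Sml K (Jf β) := Sml_of_Hg hK (Jf_Hg h)
  have hN := tth_sub hβ (natOp_JH K (Jf β))
  have hz := natOp_zero hN fun E R => by
    have e1 : Jc p (β - (JH (Jf β)).comp (lam p ℕ K).toAddMonoidHom) E R =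
        Jc p β E R - Jc p ((JH (Jf β)).comp (lam p ℕ K).toAddMonoidHom) E R := by
      unfold Jc
      rw [AddMonoidHom.sub_apply, co_sub]
    rw [e1, Jc_JH hS]
    have e2 := Jf_mon β 1 E R
    rw [one_smul, one_mul] at e2
    rw [e2, sub_self]
  have h1 := DFunLike.congr_fun hz u
  rw [AddMonoidHom.sub_apply, AddMonoidHom.zero_apply, sub_eq_zero] at h1
  exact h1

/-- A functional is determined by its operation. -/
theorem JH_lam_inj {K : ℕ} {J₀ J₁ : Tw p ℕ →+ ZMod p} (h₀ : Sml K J₀) (h₁ : Sml K J₁)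
    (h : ∀ u : Tw p ℕ, JH J₀ (lam p ℕ K u) = JH J₁ (lam p ℕ K u)) : J₀ = J₁ := by
  have e : (JH J₀).comp (lam p ℕ K).toAddMonoidHom =
      (JH J₁).comp (lam p ℕ K).toAddMonoidHom := by
    ext u
    exact h u
  refine tth_ext fun c E S => ?_
  have h2 : J₀ (mon p E S) = J₁ (mon p E S) := by
    rw [← Jc_JH h₀, ← Jc_JH h₁, e]
  rw [ZMod.map_smul, ZMod.map_smul, h2]

theorem Jf_add (β γ : Tw p ℕ →+ Tw p ℕ) : Jf (β + γ) = Jf β + Jf γ := by
  refine tth_ext fun c E S => ?_
  have e1 : Jc p (β + γ) E S = Jc p β E S + Jc p γ E S := by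
    unfold Jc
    rw [AddMonoidHom.add_apply, co_add]
  rw [AddMonoidHom.add_apply, Jf_mon, Jf_mon, Jf_mon, e1, mul_add]

end Tw

end BPN.E
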