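import Pool.Agent.BPN.E.EvB
import Pool.Agent.BPN.E.Del
import Pool.Agent.BPN.E.TTh

/-!
# Part (E), module NatA: operations as natural operations on `Tw p ℕ` (project BPN, architect helper30)

`alp a : Tw p ℕ →+ Tw p ℕ` : the unique map with `ev (alp a u) = actH a (ev u)`.

PROOFS.
* `alp_exists_elt`: let `u = map κ w`, `κ : Fin r → ℕ` the inclusion (`tw_nat_fin`), `w = ∑ cmp n w` (`cmp_sum`),
  `ev (cmp n w) = cl n c_n` (`ev_hg`), `actH a (cl n c_n) = cl (n + k) (act a c_n) = ev w'_n` (`actH_cl`, `ev_surj_fin`); so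
  `actH a (ev u) = pull (BVm (Lk κ)) (actH a (ev w)) = pull .. (ev (∑ w'_n)) = ev (map κ (∑ w'_n))` (`actH_pull`, `ev_map`).
  Unique by `ev_inj_nat`.
* `alp_hgOp`: `mon E S` is homogeneous, so `actH a (ev (mon E S))` is a class of degree `hd E S + k`; the components of
  `alp a (mon E S)` in other degrees have zero class (`HR.sum_cl`, `HR.tot_eq_zero`, `ev_inj_nat`); note `hd = hdI`.
* `alp_natOp`: `nat`, `add`: `actH_pull`, `ev_map`, `ev_addm`, `ev_inj_nat`.
  `delx`, `dely`: let `u = mon E S` with variables `< r`, `u = map κ w`, `w = mon E' S' : Tw p (Fin r)`, and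
  `κ' : Fin (r+1) → ℕ` the inclusion.  `ev (u * ps r s) = pull (BVm (Lk κ')) (pull piS (ev w) * pull laS (cl (psi s)))` for
  `s = 1, 2` (`ps r 1 = t r`, `ps r 2 = v r`).  With `ρ` from `exists_roS` and `pairS piS laS ≫ ρ = 𝟙`, `ρ ≫ piS = pr1`,
  `ρ ≫ laS = pr2`: pull `del a s` (for `X = BV p (Fin r)`) back along `pairS piS laS`:
  `actH a (pull piS (ev w) * pull laS (cl psi_s)) = pull piS (actH a (ev w)) * pull laS (cl psi_s) +
  ∑_{b > s} pull piS (cl φ_b) * pull laS (cl psi_b)`, `cl φ_b = ev (w_b)` (`ev_surj_fin`), so by `ev_inj_nat`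
  `alp a (u * ps r s) = alp a u * ps r s + ∑_{b > s} (map κ w_b) * ps r b`, where `map κ w_b` has variables `< r`.
  For `s = 1`: `ps r b`, `b ≥ 2`, contains `v r`; for `s = 2`: `b ≥ 3`: `v r * t r` or `v r ^ 2`.
* `alp_mul`, `alp_add`, `alp_null`, `alp_id`: from `actH_mul`, `actH_add`, `actH_null`, `actH_idOp`.
* `alp_deriv`: for monomials `x`, `y` from `actH_deriv` (`ev_mon`; the parity of the degree of `x` is `m`), then
  additivity.
-/

namespace BPN.E

open Tw CategoryTheory SSet Simplicial Opposite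

variable {p : ℕ} [Fact p.Prime] {k l n : ℕ}

/-! ### auxiliary lemmas -/

private theorem na_inj {x y : Tw p ℕ} (h : ev p ℕ x = ev p ℕ y) : x = y := by
  have h1 : ev p ℕ (x - y) = 0 := by rw [map_sub, h, sub_self]
  exact sub_eq_zero.1 (ev_inj_nat _ h1)

private theorem na_repr {I : Type} [LinearOrder I] (x : Tw p I) :
    x = ∑ z ∈ (co_finite x).toFinset, co x z.1 z.2 • mon p z.1 z.2 := by
  refine ext_co fun E S => ?_
  rw [co_sum, Finset.sum_eq_single (E, S)]
  · rw [co_smul, co_mon, if_pos ⟨rfl, rfl⟩, mul_one]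
  · intro z _ hz
    rw [co_smul, co_mon, if_neg, mul_zero]
    rintro ⟨h1, h2⟩
    exact hz (Prod.ext h1 h2)
  · intro hz
    have h1 : co x E S = 0 := by
      by_contra hne
      exact hz ((co_finite x).mem_toFinset.2 hne)
    rw [co_smul, h1, zero_mul]

private theorem na_hg_mon {I : Type} [LinearOrder I] (E : Finset I) (S : I →₀ ℕ) :
    HgE (hdI E S) (mon p E S) := by
  intro F T h
  rw [co_mon] at h
  split_ifs at h with h1
  · rw [h1.1, h1.2]
  · exact absurd rfl h

private theorem na_cl_tot {X : SSet.{0}} (m : ℕ) (c : CoZ X (ZMod p) m) :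
    HR.cl m c = HR.tot (Pi.single m c) := rfl

/-- An element whose class is homogeneous is homogeneous. -/
private theorem na_hg {m : ℕ} (x : Tw p ℕ) (c : CoZ (BV p ℕ) (ZMod p) m)
    (h : ev p ℕ x = HR.cl m c) : HgE m x := by
  intro F T hne
  by_contra hd
  obtain ⟨N, hN, hx⟩ := cmp_sum x
  choose cc hcc using fun j : ℕ => ev_hg (cmp_hg j x)
  have h1 : ev p ℕ x = HR.tot (fun j => if j ∈ Finset.range N then cc j else 0) := by
    conv_lhs => rw [hx]
    rw [map_sum, ← HR.sum_cl]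
    exact Finset.sum_congr rfl fun j _ => hcc j
  rw [h1, na_cl_tot, HR.tot_eq] at h
  have h2 : cmp (hdI F T) x = 0 := by
    by_cases hj : hdI F T < N
    · have h3 := h (hdI F T)
      rw [if_pos (Finset.mem_range.2 hj), Pi.single_eq_of_ne hd] at h3
      have h4 : HR.cl (hdI F T) (cc (hdI F T)) = HR.cl (hdI F T) 0 := HR.cl_eq.2 h3
      rw [map_zero] at h4
      exact ev_inj_nat _ ((hcc _).trans h4)
    · exact hN _ (not_lt.1 hj)
  have h3 := cmp_co (hdI F T) x F T
  rw [h2, co_zero, if_pos rfl] at h3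
  exact hne h3.symm

private theorem na_act_hg (a : Op p k) {r m : ℕ} (w : Tw p (Fin r)) (hw : HgE m w) :
    ∃ w' : Tw p (Fin r), ev p (Fin r) w' = actH a (ev p (Fin r) w) := by
  obtain ⟨c, hc⟩ := ev_hg hw
  obtain ⟨u, -, hu⟩ := ev_surj_fin r (m + k) (Op.act a rfl c)
  refine ⟨u, ?_⟩
  rw [hu, hc, actH_cl a rfl c]

private theorem na_act (a : Op p k) {r : ℕ} (w : Tw p (Fin r)) :
    ∃ w' : Tw p (Fin r), ev p (Fin r) w' = actH a (ev p (Fin r) w) := by
  obtain ⟨N, hN, hx⟩ := cmp_sum w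
  choose g hg using fun j : ℕ => na_act_hg a (cmp j w) (cmp_hg j w)
  refine ⟨∑ j ∈ Finset.range N, g j, ?_⟩
  conv_rhs => rw [hx]
  rw [map_sum, map_sum, map_sum]
  exact Finset.sum_congr rfl fun j _ => hg j

theorem alp_exists_elt (a : Op p k) (u : Tw p ℕ) : ∃ w : Tw p ℕ, ev p ℕ w = actH a (ev p ℕ u) := by
  obtain ⟨r₀, hr⟩ := tw_nat_fin u
  obtain ⟨w, hw⟩ := hr r₀ le_rfl
  obtain ⟨w', hw'⟩ := na_act a w
  refine ⟨map p (fun i : Fin r₀ => (i : ℕ)) w', ?_⟩
  rw [← ev_map, hw', ← actH_pull, ev_map, ← hw]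

/-- The action of an operation on `Tw p ℕ`. -/
noncomputable def alp (a : Op p k) : Tw p ℕ →+ Tw p ℕ where
  toFun := fun u => Classical.choose (alp_exists_elt a u)
  map_zero' := by
    refine na_inj ?_
    rw [Classical.choose_spec (alp_exists_elt a 0), map_zero, map_zero]
  map_add' := by
    intro x y
    refine na_inj ?_
    rw [Classical.choose_spec (alp_exists_elt a (x + y)), map_add, map_add, map_add,
      Classical.choose_spec (alp_exists_elt a x), Classical.choose_spec (alp_exists_elt a y)]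

theorem ev_alp (a : Op p k) (u : Tw p ℕ) : ev p ℕ (alp a u) = actH a (ev p ℕ u) :=
  Classical.choose_spec (alp_exists_elt a u)

theorem alp_hgOp (a : Op p k) : HgOp k (alp a) := by
  intro E S F T hne
  obtain ⟨c, hc⟩ := ev_mon (p := p) E S
  have h1 : ev p ℕ (alp a (mon p E S)) = HR.cl (hdI E S + k) (Op.act a rfl c) := by
    rw [ev_alp, hc, actH_cl a rfl c]
  exact na_hg _ _ h1 F T hne

/-! ### the deletion property -/

omit [Fact p.Prime] in
private theorem na_ps_one (r : ℕ) : ps p r 1 = t p r := by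
  unfold ps
  rw [show 1 / 2 = 0 from rfl, show 1 % 2 = 1 from rfl, pow_zero, pow_one, one_mul]

omit [Fact p.Prime] in
private theorem na_ps_two (r : ℕ) : ps p r 2 = v p r := by
  unfold ps
  rw [show 2 / 2 = 1 from rfl, show 2 % 2 = 0 from rfl, pow_zero, pow_one, mul_one]

private theorem na_inc (r : ℕ) : StrictMono (fun i : Fin r => (i : ℕ)) := fun _ _ h => h

omit [Fact p.Prime] in
private theorem na_co_ps {r b : ℕ} (E : Finset (Fin r)) (S : Fin r →₀ ℕ) :
    map p (fun i : Fin r => (i : ℕ)) (mon p E S) * ps p r b =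
      mon p (if b % 2 = 1 then insert r (E.image fun i : Fin r => (i : ℕ)) else
        E.image fun i : Fin r => (i : ℕ))
        (S.mapDomain (fun i : Fin r => (i : ℕ)) + Finsupp.single r (b / 2)) := by
  rw [map_mon_mono _ (na_inc r)]
  unfold ps
  rw [← mul_assoc, v_pow, mon_mul_mon_empty]
  rcases Nat.mod_two_eq_zero_or_one b with h | h
  · rw [h, pow_zero, mul_one, if_neg (by omega)]
  · rw [h, pow_one, if_pos rfl, mon_mul_t]
    intro e he
    obtain ⟨i, -, rfl⟩ := Finset.mem_image.1 he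
    exact i.2

private theorem na_not_sup {r : ℕ} (S : Fin r →₀ ℕ) :
    (S.mapDomain (fun i : Fin r => (i : ℕ))) r = 0 := by
  refine Finsupp.mapDomain_of_notMem_range S r ?_
  rintro ⟨i, hi⟩
  have h1 : (i : ℕ) = r := hi
  have h2 := i.2
  omega

private theorem na_co {r b : ℕ} (x : Tw p (Fin r)) (F : Finset ℕ) (T : ℕ →₀ ℕ)
    (h : co (map p (fun i : Fin r => (i : ℕ)) x * ps p r b) F T ≠ 0) :
    T r = b / 2 ∧ (r ∈ F ↔ b % 2 = 1) := by
  by_contra hcon
  refine h ?_
  rw [na_repr x, map_sum, Finset.sum_mul, co_sum]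
  refine Finset.sum_eq_zero fun z _ => ?_
  rw [hom_smul, smul_mul, co_smul, na_co_ps, co_mon, if_neg, mul_zero]
  rintro ⟨h1, h2⟩
  refine hcon ⟨?_, ?_⟩
  · rw [← h2, Finsupp.add_apply, na_not_sup, Finsupp.single_eq_same, zero_add]
  · rw [← h1]
    have h3 : r ∉ z.1.image (fun i : Fin r => (i : ℕ)) := by
      intro h4
      obtain ⟨i, -, hi⟩ := Finset.mem_image.1 h4
      have h5 := i.2
      omega
    split_ifs with h4
    · simp [h4]
    · simp [h3, h4]

omit [Fact p.Prime] in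
private theorem na_fin {r : ℕ} (E : Finset ℕ) (S : ℕ →₀ ℕ) (hE : ∀ e ∈ E, e < r)
    (hS : ∀ e ∈ S.support, e < r) : ∃ (E' : Finset (Fin r)) (S' : Fin r →₀ ℕ),
    mon p E S = map p (fun i : Fin r => (i : ℕ)) (mon p E' S') := by
  classical
  refine ⟨Finset.univ.filter fun i : Fin r => (i : ℕ) ∈ E,
    S.comapDomain (fun i : Fin r => (i : ℕ)) ((na_inc r).injective.injOn), ?_⟩
  rw [map_mon_mono _ (na_inc r), Finsupp.mapDomain_comapDomain _ (na_inc r).injective]
  · congr 1
    ext e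
    constructor
    · intro he
      exact Finset.mem_image.2 ⟨⟨e, hE e he⟩, Finset.mem_filter.2 ⟨Finset.mem_univ _, he⟩, rfl⟩
    · intro he
      obtain ⟨i, hi, rfl⟩ := Finset.mem_image.1 he
      exact (Finset.mem_filter.1 hi).2
  · intro e he
    exact ⟨⟨e, hS e (Finset.mem_coe.1 he)⟩, rfl⟩

private theorem na_la (r s : ℕ) : HR.pull (laS p r) (HR.cl s (psi p () s)) =
    ev p (Fin (r + 1)) (ps p (Fin.last r) s) := by
  rw [ev_ps, HR.pull_cl]
  unfold laS
  rw [pb_psi]

private theorem na_del (a : Op p k) (s : ℕ) (hs : s = 1 ∨ s = 2) {r m : ℕ} (w : Tw p (Fin r))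
    (hw : HgE m w) : ∃ (N : ℕ) (w' : ℕ → Tw p (Fin r)),
    alp a (map p (fun i : Fin r => (i : ℕ)) w * ps p r s) =
      alp a (map p (fun i : Fin r => (i : ℕ)) w) * ps p r s +
        ∑ b ∈ (Finset.range N).filter (fun b => s < b),
          map p (fun i : Fin r => (i : ℕ)) (w' b) * ps p r b := by
  obtain ⟨c, hc⟩ := ev_hg hw
  obtain ⟨φ, hφ⟩ := del a s hs c
  choose w' _ hw' using fun b : ℕ => ev_surj_fin r (m + s + k - b) (φ b)
  refine ⟨m + s + k + 1, w', na_inj ?_⟩
  -- pull the deletion property back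
  have h1 := congrArg (HR.pull (pairS (piS p r) (laS p r))) hφ
  rw [← actH_pull, map_mul (HR.pull (pairS (piS p r) (laS p r))),
    map_add (HR.pull (pairS (piS p r) (laS p r))), map_mul (HR.pull (pairS (piS p r) (laS p r))),
    ← HR.pull_comp, ← HR.pull_comp, ← HR.pull_comp, pairS_pr1, pairS_pr2,
    map_sum (HR.pull (pairS (piS p r) (laS p r)))] at h1
  have h2 : ∀ b ∈ (Finset.range (m + s + k + 1)).filter (fun b => s < b),
      HR.pull (pairS (piS p r) (laS p r)) (HR.pull (pr1 (BV p (Fin r)) (BV p Unit))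
          (HR.cl (m + s + k - b) (φ b)) *
            HR.pull (pr2 (BV p (Fin r)) (BV p Unit)) (HR.cl b (psi p () b))) =
      ev p (Fin (r + 1)) (map p Fin.castSucc (w' b) * ps p (Fin.last r) b) := by
    intro b _
    rw [map_mul (HR.pull _), ← HR.pull_comp, ← HR.pull_comp, pairS_pr1, pairS_pr2, na_la, ← hw' b,
      map_mul (ev p _)]
    unfold piS
    rw [ev_map]
  rw [Finset.sum_congr rfl h2, na_la, ← hc, ← map_sum (ev p (Fin (r + 1)))] at h1
  have h3 := congrArg (HR.pull (BVm (Lk p (fun i : Fin (r + 1) => (i : ℕ))))) h1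
  have hcomp : ∀ x : Tw p (Fin r), map p (fun i : Fin (r + 1) => (i : ℕ)) (map p Fin.castSucc x) =
      map p (fun i : Fin r => (i : ℕ)) x := by
    intro x
    rw [map_map]
    rfl
  have hps : ∀ b : ℕ, map p (fun i : Fin (r + 1) => (i : ℕ)) (ps p (Fin.last r) b) = ps p r b := by
    intro b
    unfold ps
    rw [map_mul, map_pow, map_pow, map_v, map_t]
    rfl
  have h4 : HR.pull (BVm (Lk p (fun i : Fin (r + 1) => (i : ℕ))))
      (HR.pull (piS p r) (ev p (Fin r) w)) = ev p ℕ (map p (fun i : Fin r => (i : ℕ)) w) := by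
    unfold piS
    rw [ev_map, ev_map, hcomp]
  have h5 : HR.pull (BVm (Lk p (fun i : Fin (r + 1) => (i : ℕ))))
      (HR.pull (piS p r) (actH a (ev p (Fin r) w))) =
      ev p ℕ (alp a (map p (fun i : Fin r => (i : ℕ)) w)) := by
    rw [ev_alp, ← h4, actH_pull, actH_pull]
  rw [← actH_pull, map_mul (HR.pull _), map_add (HR.pull _), map_mul (HR.pull _), h4, h5, ev_map,
    hps, ev_map, ← map_mul (ev p ℕ), ← map_mul (ev p ℕ), ← ev_alp, ← map_add (ev p ℕ)] at h3
  rw [h3]
  congr 2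
  rw [map_sum (Tw.map p _)]
  refine Finset.sum_congr rfl fun b _ => ?_
  rw [map_mul (Tw.map p _), hcomp, hps]

theorem alp_natOp (a : Op p k) : NatOp p (alp a) := by
  refine ⟨?_, ?_, ?_, ?_⟩
  · intro κ u
    refine na_inj ?_
    rw [ev_alp, ← ev_map, ← ev_map, actH_pull, ev_alp]
  · intro i j hij u
    refine na_inj ?_
    rw [ev_alp, ← ev_addm i j hij, ← ev_addm i j hij, actH_pull, ev_alp]
  · intro r E S hE hS F T hT
    obtain ⟨E', S', h1⟩ := na_fin (p := p) E S hE hS
    obtain ⟨N, w', h2⟩ := na_del a 1 (Or.inl rfl) (mon p E' S') (na_hg_mon E' S')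
    rw [na_ps_one] at h2
    rw [h1, h2, add_sub_cancel_left, co_sum]
    refine Finset.sum_eq_zero fun b hb => ?_
    by_contra hne
    have h3 := (na_co _ _ _ hne).1
    have h4 := (Finset.mem_filter.1 hb).2
    omega
  · intro r E S hE hS F T hT
    obtain ⟨E', S', h1⟩ := na_fin (p := p) E S hE hS
    obtain ⟨N, w', h2⟩ := na_del a 2 (Or.inr rfl) (mon p E' S') (na_hg_mon E' S')
    rw [na_ps_two] at h2
    rw [h1, h2, add_sub_cancel_left, co_sum]
    refine Finset.sum_eq_zero fun b hb => ?_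
    by_contra hne
    obtain ⟨h3, h5⟩ := na_co _ _ _ hne
    have h4 := (Finset.mem_filter.1 hb).2
    rcases hT with hT | ⟨hT, hF⟩
    · omega
    · exact hF (h5.2 (by omega))

theorem alp_mul (h : k + l = n) (a : Op p k) (b : Op p l) :
    alp (Op.mul h a b) = (alp a).comp (alp b) := by
  refine AddMonoidHom.ext fun u => na_inj ?_
  rw [AddMonoidHom.comp_apply, ev_alp, ev_alp, ev_alp, actH_mul]

theorem alp_add (a b : Op p k) : alp (a + b) = alp a + alp b := by
  refine AddMonoidHom.ext fun u => na_inj ?_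
  rw [AddMonoidHom.add_apply, map_add, ev_alp, ev_alp, ev_alp, actH_add]

theorem alp_null (a : Op p k) (ha : a.Null) : alp a = 0 := by
  refine AddMonoidHom.ext fun u => na_inj ?_
  rw [AddMonoidHom.zero_apply, map_zero, ev_alp, actH_null a ha]

theorem alp_id (u : Tw p ℕ) : alp (idOp p) u = u := by
  refine na_inj ?_
  rw [ev_alp, actH_idOp]

private theorem na_sgn {a b : ℕ} (h : a % 2 = b % 2) (k : ℕ) : (-1 : ℤ) ^ (a * k) = (-1) ^ (b * k) := by
  rw [pow_mul, pow_mul, neg_one_pow_eq_pow_mod_two (n := a), h, ← neg_one_pow_eq_pow_mod_two]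

theorem alp_deriv {Q : Op p k} (hQ : IsDeriv Q) (m : ℕ) (x y : Tw p ℕ) (hx : x ∈ Par p ℕ m) :
    alp Q (x * y) = alp Q x * y + (-1 : ℤ) ^ (m * k) • (x * alp Q y) := by
  have hmon : ∀ (E : Finset ℕ) (S : ℕ →₀ ℕ), E.card % 2 = m % 2 → ∀ (F : Finset ℕ) (T : ℕ →₀ ℕ),
      alp Q (mon p E S * mon p F T) = alp Q (mon p E S) * mon p F T +
        (-1 : ℤ) ^ (m * k) • (mon p E S * alp Q (mon p F T)) := by
    intro E S hE F T
    obtain ⟨c, hc⟩ := ev_mon (p := p) E S
    obtain ⟨c', hc'⟩ := ev_mon (p := p) F T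
    refine na_inj ?_
    rw [ev_alp, map_mul (ev p ℕ), map_add (ev p ℕ), map_mul (ev p ℕ), map_zsmul (ev p ℕ),
      map_mul (ev p ℕ), ev_alp, ev_alp, hc, hc', actH_deriv hQ c c',
      na_sgn (a := hdI E S) (b := m)]
    unfold hdI
    omega
  have hy : ∀ (E : Finset ℕ) (S : ℕ →₀ ℕ), E.card % 2 = m % 2 →
      alp Q (mon p E S * y) = alp Q (mon p E S) * y +
        (-1 : ℤ) ^ (m * k) • (mon p E S * alp Q y) := by
    intro E S hE
    rw [na_repr y, Finset.mul_sum, map_sum, Finset.mul_sum, map_sum, Finset.mul_sum,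
      Finset.smul_sum, ← Finset.sum_add_distrib]
    refine Finset.sum_congr rfl fun z _ => ?_
    rw [mul_smul', addHom_smul, hmon E S hE, mul_smul', addHom_smul, mul_smul', smul_add,
      smul_comm]
  have hpar : ∀ z ∈ (co_finite x).toFinset, z.1.card % 2 = m % 2 := fun z hz =>
    hx z.1 z.2 ((co_finite x).mem_toFinset.1 hz)
  rw [na_repr x, Finset.sum_mul, map_sum, map_sum, Finset.sum_mul, Finset.sum_mul,
    Finset.smul_sum, ← Finset.sum_add_distrib]
  refine Finset.sum_congr rfl fun z hz => ?_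
  rw [smul_mul, addHom_smul, hy z.1 z.2 (hpar z hz), addHom_smul, smul_mul, smul_mul, smul_add,
    smul_comm]

end BPN.E
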