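import Pool.Agent.BPN.E.Flat
import Pool.Agent.BPN.E.NormS

/-!
# Part (E), module PKE: tensor powers and the cup power functional (project BPN, architect helper30)

`fj ν q j` : the function `i ↦ ν j + i` for `i ≤ ν`, `i ↦ i + q` for `i > ν` (`j`-th block).
`Efun` : the functional `z ↦ [all (z.1 j) ∘ fj j = id]` on tuples; `tens v = v^{⊗ p}`.

PROOFS (helper31).  `N = ν p = ν + q`, `q = ν (p - 1)`.
* `Efun_bd`: let `x_0, .., x_{p-1}` be surjections of excess `q + 1` and level `ν`, so `x_j u = u - q - 1` if `x_j u > ν`, and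
  `x_j u ≤ ν` for `u ≤ N + 1`.  Let `P_i` mean `x_j ∘ dl i ∘ fj j = id` for all `j`.  If `P_i` holds then `i ≤ N + 1` and
  `x_j (dl i u) = min (u - ν j) ν` for `u ≤ N`, so the function `Z u = ∑_j x_j u` (`u ≤ N + 1`), `Z u = u - 1` (`u > N + 1`)
  satisfies `Z ∘ dl i = id`; hence `Z = sg a`, `i ∈ {a, a + 1}`, `x_j a = x_j (a + 1)` for all `j`, and `P_a`, `P_{a+1}` both hold.
  So the alternating sum of the `[P_i]` is zero.
* `Efun_tens`, `tens_bd`: expand the product of the sums (`sum_tens`).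
* `ph_level`: `w = pull c σ`: `w f ≠ 0` implies `f i = i + q` for `i > ν`.  For `s ∈ Sj` let `f_s` be the minimal section;
  `Lv ν s` iff `f_s i = i + exc s` for all `i > ν`.  If some `s ∈ supp v` (`v = ph w`) violates it choose such a `t` with
  `f_t` minimal (finite set, pointwise order).  `0 = w (f_t) = ∑_{s ∘ f_t = id} v s`; such an `s ≠ t` has `f_s ≤ f_t`,
  so it satisfies `Lv ν s`, and `f_t i < f_s (i+1) = i + 1 + q`, `f_t i ≥ f_s i = i + q` for `i > ν`: contradiction; so
  `v t = 0`, contradiction.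
-/

namespace BPN.E

open CategoryTheory SSet Simplicial Opposite Module

variable {p : ℕ} [Fact p.Prime]

/-- The `j`-th block. -/
def fj (ν q j i : ℕ) : ℕ := if i ≤ ν then ν * j + i else i + q

open Classical in
/-- The cup power functional. -/
noncomputable def Efun (p ν q : ℕ) [Fact p.Prime] : (TT p 0 →₀ ZMod p) →ₗ[ZMod p] ZMod p :=
  Finsupp.lsum ℕ fun z : TT p 0 =>
    (if ∀ j : Fin p, (z.1 j).1 ∘ fj ν q j = id then (1 : ZMod p) else 0) • LinearMap.id

/-! ### the functional -/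

open Classical in
private theorem Efun_single (ν q : ℕ) (z : TT p 0) (c : ZMod p) :
    Efun p ν q (Finsupp.single z c) =
      if ∀ j : Fin p, (z.1 j).1 ∘ fj ν q j = id then c else 0 := by
  unfold Efun
  rw [Finsupp.lsum_single]
  split_ifs <;> simp

open Classical in
private theorem Efun_apply (ν q : ℕ) (φ : TT p 0 →₀ ZMod p) :
    Efun p ν q φ =
      ∑ z ∈ φ.support.filter (fun z : TT p 0 => ∀ j : Fin p, (z.1 j).1 ∘ fj ν q j = id), φ z := by
  have h : Efun p ν q φ = ∑ z ∈ φ.support, Efun p ν q (Finsupp.single z (φ z)) := by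
    rw [← map_sum]
    exact congrArg _ φ.sum_single.symm
  rw [h, Finset.sum_filter]
  exact Finset.sum_congr rfl fun z _ => Efun_single ν q z (φ z)

private theorem fa_of_sur {s : Sj} {i : ℕ} (h : Function.Surjective (s.1 ∘ dl i)) :
    ∃ t, fa 0 i s = some t := by
  have hg : BPN.E.Good (s.1 ∘ dl i) := by
    refine ⟨s.2.1.comp (dl_strictMono i).monotone, h, exc s - 1, ?_⟩
    obtain ⟨N, hN⟩ := exc_spec s
    refine ⟨N + i, fun j hj => ?_⟩
    have h1 := hN (dl i j) (by unfold dl; split_ifs <;> omega)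
    have h2 : dl i j = j + 1 := by unfold dl; rw [if_neg (by omega)]
    rw [h2] at h1
    rw [Function.comp_apply, h2]
    push_cast at h1
    omega
  exact ⟨⟨_, hg⟩, act_eq_some.2 rfl⟩

private theorem FT_some {i : ℕ} {z z' : TT p 0} :
    FT 0 p 0 i z = some z' ↔ ∀ j, fa 0 i (z.1 j) = some (z'.1 j) := by
  unfold FT
  rw [pr_eq_some, tup_eq_some, tup_eq_some]
  exact ⟨fun h => h.1, fun h => ⟨h, fun j => j.elim0⟩⟩

open Classical in
private theorem Efun_push (ν q i : ℕ) (z : TT p 0) (c : ZMod p) :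
    Efun p ν q (push (ZMod p) (FT 0 p 0 i) (Finsupp.single z c)) =
      if ∀ j : Fin p, (z.1 j).1 ∘ dl i ∘ fj ν q j = id then c else 0 := by
  rw [push_single]
  cases h : FT 0 p 0 i z with
  | none =>
    rw [Option.elim_none, map_zero, if_neg]
    intro h1
    have h2 : ∀ j, ∃ t, fa 0 i (z.1 j) = some t := by
      intro j
      apply fa_of_sur
      refine Function.Surjective.of_comp (g := fj ν q j) ?_
      have h3 : ((z.1 j).1 ∘ dl i) ∘ fj ν q j = id := h1 j
      rw [h3]
      exact Function.surjective_id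
    choose t ht using h2
    rw [(FT_some (z' := ((t, z.2) : TT p 0))).2 ht] at h
    cases h
  | some z' =>
    rw [Option.elim_some, Efun_single]
    have h1 := FT_some.1 h
    have h2 : ∀ j : Fin p, (z'.1 j).1 ∘ fj ν q j = (z.1 j).1 ∘ dl i ∘ fj ν q j := by
      intro j
      rw [act_eq_some.1 (h1 j)]
      rfl
    simp only [h2]

private theorem lv_step {m : ℕ} {s : Sj} (h : Lv (m : ℕ∞) s) {u : ℕ} (hu : m < s.1 u) (n : ℕ) :
    s.1 (u + n) = s.1 u + n := by
  induction n with
  | zero => rfl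
  | succ n ih =>
    have h1 := s.succ_le (u + n)
    have h2 := s.2.1 (Nat.le_succ (u + n))
    have h3 : s.1 (u + n) ≠ s.1 (u + n + 1) := by
      intro h4
      have h5 := h (u + n) (u + n + 1) (by rw [ih]; exact_mod_cast (by omega : m < s.1 u + n)) h4
      omega
    have e : u + (n + 1) = u + n + 1 := by omega
    rw [e]
    have h6 : s.1 (u + n) ≤ s.1 (u + n + 1) := h2
    omega

/-- Above the level the value is determined by the excess. -/
private theorem lv_val {m : ℕ} {s : Sj} (h : Lv (m : ℕ∞) s) {u : ℕ} (hu : m < s.1 u) :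
    (s.1 u : ℤ) = u - exc s := by
  obtain ⟨N, hN⟩ := exc_spec s
  have h1 := lv_step h hu N
  have h2 := hN (u + N) (by omega)
  push_cast at h2
  omega

private theorem sum_min (ν u m : ℕ) :
    ∑ j ∈ Finset.range m, min (u - ν * j) ν = min u (ν * m) := by
  induction m with
  | zero => simp
  | succ m ih =>
    rw [Finset.sum_range_succ, ih, Nat.mul_succ]
    omega

private theorem pair_zero {A : Type} [AddCommGroup A] (c : A) (P : ℕ → Prop)
    [DecidablePred P] {a K : ℕ} (haK : a + 1 < K) (h : ∀ i, P i ↔ i = a ∨ i = a + 1) :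
    ∑ i ∈ Finset.range K, (-1 : ℤ) ^ i • (if P i then c else 0) = 0 := by
  have h3 : ∀ i ∈ Finset.range K, ((-1 : ℤ) ^ i • (if P i then c else 0)) =
      (if i = a then (-1 : ℤ) ^ i • c else 0) + (if i = a + 1 then (-1 : ℤ) ^ i • c else 0) := by
    intro i _
    by_cases h1 : i = a
    · rw [if_pos ((h i).2 (Or.inl h1)), if_pos h1, if_neg (by omega), add_zero]
    · by_cases h2 : i = a + 1
      · rw [if_pos ((h i).2 (Or.inr h2)), if_pos h2, if_neg h1, zero_add]
      · rw [if_neg (fun h4 => ((h i).1 h4).elim h1 h2), if_neg h1, if_neg h2, smul_zero, add_zero]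
  rw [Finset.sum_congr rfl h3, Finset.sum_add_distrib, Finset.sum_ite_eq', Finset.sum_ite_eq',
    if_pos (Finset.mem_range.mpr (by omega)), if_pos (Finset.mem_range.mpr haK), pow_succ]
  simp

open Classical in
private theorem key (ν : ℕ) (x : Fin p → Sj)
    (hx : ∀ j, exc (x j) = (ν * (p - 1) : ℕ) + 1 ∧ Lv (ν : ℕ∞) (x j)) (c : ZMod p) {K : ℕ}
    (hK : ν * p + 2 ≤ K) :
    ∑ i ∈ Finset.range K, (-1 : ℤ) ^ i •
      (if ∀ j : Fin p, (x j).1 ∘ dl i ∘ fj ν (ν * (p - 1)) j = id then c else 0) = 0 := by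
  by_cases hex : ∃ i, ∀ j : Fin p, (x j).1 ∘ dl i ∘ fj ν (ν * (p - 1)) j = id
  swap
  · refine Finset.sum_eq_zero fun i _ => ?_
    rw [if_neg (fun h => hex ⟨i, h⟩), smul_zero]
  have hp : 0 < p := (Fact.out : p.Prime).pos
  obtain ⟨q, hq⟩ : ∃ q, q = ν * (p - 1) := ⟨_, rfl⟩
  rw [← hq] at hx hex ⊢
  obtain ⟨N, hN⟩ : ∃ N, N = ν * p := ⟨_, rfl⟩
  rw [← hN] at hK
  have hNq : N = ν + q := by
    obtain ⟨r, rfl⟩ : ∃ r, p = r + 1 := ⟨p - 1, by omega⟩
    rw [hN, hq, Nat.mul_succ, Nat.add_sub_cancel]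
    omega
  have hj : ∀ j : Fin p, ν * (j : ℕ) + ν ≤ N := by
    intro j
    have h1 : (j : ℕ) + 1 ≤ p := j.2
    have h2 := Nat.mul_le_mul_left ν h1
    rw [Nat.mul_succ] at h2
    omega
  have hval : ∀ j u, ν < (x j).1 u → ((x j).1 u : ℤ) = u - (q + 1) := by
    intro j u hu
    have h1 := lv_val (hx j).2 hu
    rw [(hx j).1] at h1
    exact h1
  have hle : ∀ j u, u ≤ N + 1 → (x j).1 u ≤ ν := by
    intro j u hu
    refine ((x j).2.1 hu).trans ?_
    by_contra hc
    have h1 := hval j (N + 1) (by omega)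
    push_cast at h1
    omega
  -- consequences of `P i`
  have hP : ∀ i, (∀ j : Fin p, (x j).1 ∘ dl i ∘ fj ν q j = id) → i ≤ N + 1 ∧
      ∀ (j : Fin p) u, u ≤ N → (x j).1 (dl i u) = min (u - ν * j) ν := by
    intro i h
    have hiN : i ≤ N + 1 := by
      by_contra hc
      have h1 := congrFun (h ⟨0, hp⟩) (ν + 1)
      have e1 : fj ν q 0 (ν + 1) = N + 1 := by
        unfold fj
        rw [if_neg (by omega)]
        omega
      have e2 : dl i (N + 1) = N + 1 := by
        unfold dl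
        rw [if_pos (by omega)]
      have h2 : (x ⟨0, hp⟩).1 (dl i (fj ν q 0 (ν + 1))) = ν + 1 := h1
      rw [e1, e2] at h2
      have h3 := hle ⟨0, hp⟩ (N + 1) le_rfl
      omega
    refine ⟨hiN, fun j u hu => ?_⟩
    have hd : ∀ u, u ≤ N → dl i u ≤ N + 1 := by
      intro u hu
      unfold dl
      split_ifs <;> omega
    have hb : ∀ v, v ≤ ν → (x j).1 (dl i (ν * j + v)) = v := by
      intro v hv
      have h1 : (x j).1 (dl i (fj ν q j v)) = v := congrFun (h j) v
      unfold fj at h1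
      rwa [if_pos hv] at h1
    have hm : Monotone ((x j).1 ∘ dl i) := (x j).2.1.comp (dl_strictMono i).monotone
    rcases le_total u (ν * j) with h1 | h1
    · have h2 : (x j).1 (dl i u) ≤ (x j).1 (dl i (ν * j)) := hm h1
      have h3 := hb 0 (Nat.zero_le _)
      rw [Nat.add_zero] at h3
      omega
    · rcases le_total u (ν * j + ν) with h2 | h2
      · have h3 := hb (u - ν * j) (by omega)
        rw [Nat.add_sub_cancel' h1] at h3
        omega
      · have h3 : (x j).1 (dl i (ν * j + ν)) ≤ (x j).1 (dl i u) := hm h2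
        have h4 := hb ν le_rfl
        have h5 := hle j (dl i u) (hd u hu)
        omega
  obtain ⟨Z, hZ⟩ : ∃ Z : ℕ → ℕ, ∀ u, Z u = if u ≤ N + 1 then ∑ j, (x j).1 u else u - 1 :=
    ⟨_, fun _ => rfl⟩
  have hZN : ∀ u, u ≤ N + 1 → Z u ≤ N := by
    intro u hu
    rw [hZ, if_pos hu]
    calc ∑ j, (x j).1 u ≤ ∑ _j : Fin p, ν := Finset.sum_le_sum fun j _ => hle j u hu
      _ = N := by
        rw [Finset.sum_const, Finset.card_univ, Fintype.card_fin, smul_eq_mul, hN, mul_comm]
  have hZm : Monotone Z := by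
    intro u v huv
    by_cases hv : v ≤ N + 1
    · rw [hZ, hZ, if_pos hv, if_pos (huv.trans hv)]
      exact Finset.sum_le_sum fun j _ => (x j).2.1 huv
    · by_cases hu : u ≤ N + 1
      · refine (hZN u hu).trans ?_
        rw [hZ, if_neg hv]
        omega
      · rw [hZ, hZ, if_neg hv, if_neg hu]
        omega
  have hPZ : ∀ i, (∀ j : Fin p, (x j).1 ∘ dl i ∘ fj ν q j = id) → Z ∘ dl i = id := by
    intro i h
    obtain ⟨h1, h2⟩ := hP i h
    funext u
    simp only [Function.comp_apply, id_eq]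
    by_cases hu : u ≤ N
    · have h3 : dl i u ≤ N + 1 := by unfold dl; split_ifs <;> omega
      rw [hZ, if_pos h3, Finset.sum_congr rfl fun j _ => h2 j u hu,
        Finset.sum_range (fun j => min (u - ν * j) ν) |>.symm, sum_min]
      omega
    · have h3 : dl i u = u + 1 := by unfold dl; rw [if_neg (by omega)]
      rw [hZ, h3, if_neg (by omega)]
      omega
  obtain ⟨i, hi⟩ := hex
  obtain ⟨a, ha⟩ := eq_sg_of_comp_dl_eq_id hZm (hPZ i hi)
  have haN : a ≤ N := by
    by_contra hc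
    have h1 := hZN (N + 1) le_rfl
    rw [ha] at h1
    unfold sg at h1
    rw [if_pos (by omega)] at h1
    omega
  have hxa : ∀ j, (x j).1 a = (x j).1 (a + 1) := by
    have h1 : Z a = a := by
      rw [ha]
      unfold sg
      rw [if_pos le_rfl]
    have h2 : Z (a + 1) = a := by
      rw [ha]
      unfold sg
      rw [if_neg (by omega)]
      omega
    rw [hZ, if_pos (by omega)] at h1 h2
    have h3 : ∑ j, (x j).1 a = ∑ j, (x j).1 (a + 1) := h1.trans h2.symm
    have h4 := (Finset.sum_eq_sum_iff_of_le (s := Finset.univ)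
      (fun j _ => (x j).2.1 (Nat.le_succ a))).1 h3
    exact fun j => h4 j (Finset.mem_univ j)
  have hda : ∀ j, (x j).1 ∘ dl a = (x j).1 ∘ dl (a + 1) := by
    intro j
    funext u
    simp only [Function.comp_apply]
    rcases lt_trichotomy u a with h | h | h
    · have e1 : dl a u = u := by unfold dl; rw [if_pos h]
      have e2 : dl (a + 1) u = u := by unfold dl; rw [if_pos (by omega)]
      rw [e1, e2]
    · have e1 : dl a u = a + 1 := by unfold dl; rw [if_neg (by omega)]; omega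
      have e2 : dl (a + 1) u = a := by unfold dl; rw [if_pos (by omega)]; exact h
      rw [e1, e2, hxa j]
    · have e1 : dl a u = u + 1 := by unfold dl; rw [if_neg (by omega)]
      have e2 : dl (a + 1) u = u + 1 := by unfold dl; rw [if_neg (by omega)]
      rw [e1, e2]
  have hiff : (∀ j : Fin p, (x j).1 ∘ dl a ∘ fj ν q j = id) ↔
      (∀ j : Fin p, (x j).1 ∘ dl (a + 1) ∘ fj ν q j = id) := by
    have h1 : ∀ j : Fin p, (x j).1 ∘ dl a ∘ fj ν q j = (x j).1 ∘ dl (a + 1) ∘ fj ν q j := by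
      intro j
      have h2 := hda j
      calc (x j).1 ∘ dl a ∘ fj ν q j = ((x j).1 ∘ dl a) ∘ fj ν q j := rfl
        _ = ((x j).1 ∘ dl (a + 1)) ∘ fj ν q j := by rw [h2]
        _ = _ := rfl
    simp only [h1]
  have hia : i = a ∨ i = a + 1 := sg_comp_dl_eq_id.1 (by rw [← ha]; exact hPZ i hi)
  have haK : a + 1 < K := by omega
  refine pair_zero c _ haK fun l => ⟨fun hl => ?_, ?_⟩
  · exact sg_comp_dl_eq_id.1 (by rw [← ha]; exact hPZ l hl)
  · rcases hia with rfl | rfl
    · rintro (rfl | rfl)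
      · exact hi
      · exact hiff.1 hi
    · rintro (rfl | rfl)
      · exact hiff.2 hi
      · exact hi

private theorem FT_bound (v : Finset (TT p 0)) :
    ∃ M, ∀ z ∈ v, ∀ i, M ≤ i → FT 0 p 0 i z = none := by
  have h1 : LFz (FT 0 p 0) :=
    LFz_pr_left (LFz_tup (Fact.out : p.Prime).pos (LFz_fa 0)) (fun i => tup 0 (fa 0 i))
  choose N hN using h1
  exact ⟨v.sup N, fun z hz i hi => hN z i ((Finset.le_sup hz).trans hi)⟩

theorem Efun_bd (ν : ℕ) (w : TT p 0 →₀ ZMod p)
    (hw : ∀ z ∈ w.support, ∀ j, exc (z.1 j) = (ν * (p - 1) : ℕ) + 1 ∧ Lv (ν : ℕ∞) (z.1 j)) :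
    Efun p ν (ν * (p - 1)) (bd (ZMod p) (FT 0 p 0) w) = 0 := by
  classical
  obtain ⟨M, hM⟩ := FT_bound w.support
  have hM' : ∀ z ∈ w.support, ∀ i, M + (ν * p + 2) ≤ i → FT 0 p 0 i z = none :=
    fun z hz i hi => hM z hz i (by omega)
  rw [bd_eq_sum hM', map_sum]
  have h1 : ∀ i ∈ Finset.range (M + (ν * p + 2)),
      Efun p ν (ν * (p - 1)) ((-1 : ℤ) ^ i • push (ZMod p) (FT 0 p 0 i) w) =
      ∑ z ∈ w.support, (-1 : ℤ) ^ i •
        (if ∀ j : Fin p, (z.1 j).1 ∘ dl i ∘ fj ν (ν * (p - 1)) j = id then w z else 0) := by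
    intro i _
    rw [map_zsmul, ← Finset.smul_sum]
    congr 1
    have h2 : w = ∑ z ∈ w.support, Finsupp.single z (w z) := w.sum_single.symm
    conv_lhs => rw [h2]
    rw [map_sum, map_sum]
    exact Finset.sum_congr rfl fun z _ => Efun_push _ _ _ _ _
  rw [Finset.sum_congr rfl h1, Finset.sum_comm]
  exact Finset.sum_eq_zero fun z hz => key ν z.1 (hw z hz) (w z) (by omega)

/-! ### tensor powers -/

private theorem tens_fin (v : Sj →₀ ZMod p) :
    (Function.support fun z : TT p 0 => ∏ j, v (z.1 j)).Finite := by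
  classical
  refine (((Fintype.piFinset fun _ : Fin p => v.support).image
    fun x => ((x, Fin.elim0) : TT p 0)).finite_toSet).subset ?_
  intro z hz
  rw [Function.mem_support, Finset.prod_ne_zero_iff] at hz
  rw [Finset.mem_coe, Finset.mem_image]
  refine ⟨z.1, ?_, Prod.ext rfl (Subsingleton.elim _ _)⟩
  rw [Fintype.mem_piFinset]
  exact fun j => Finsupp.mem_support_iff.2 (hz j (Finset.mem_univ j))

/-- Tensor power. -/
noncomputable def tens (v : Sj →₀ ZMod p) : TT p 0 →₀ ZMod p :=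
  Finsupp.ofSupportFinite (fun z => ∏ j, v (z.1 j)) (tens_fin v)

theorem tens_apply (v : Sj →₀ ZMod p) (z : TT p 0) : tens v z = ∏ j, v (z.1 j) := rfl

theorem tens_zero : tens (0 : Sj →₀ ZMod p) = 0 := by
  refine Finsupp.ext fun z => ?_
  rw [tens_apply]
  exact Finset.prod_eq_zero (Finset.mem_univ (⟨0, (Fact.out : p.Prime).pos⟩ : Fin p)) rfl

theorem tens_mem (v : Sj →₀ ZMod p) {q : ℤ} {M : ℕ∞} (h : ∀ s ∈ v.support, exc s = q ∧ Lv M s) :
    tens v ∈ Ga (ZMod p) p M q := by
  refine ⟨⟨fun σ x y => ?_, fun σ x y => ?_, fun x y i => i.elim0⟩, ?_⟩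
  · rw [tens_apply, tens_apply]
    exact Equiv.prod_comp σ fun j => v (x j)
  · have e : y ∘ σ = y := Subsingleton.elim _ _
    have e' : σ = 1 := Subsingleton.elim _ _
    rw [e, e', Equiv.Perm.sign_one]
    simp
  · refine (Finsupp.mem_supported _ _).2 fun z hz => ?_
    have hz' : tens v z ≠ 0 := Finsupp.mem_support_iff.1 hz
    rw [tens_apply, Finset.prod_ne_zero_iff] at hz'
    exact ⟨fun i => h _ (Finsupp.mem_support_iff.2 (hz' i (Finset.mem_univ i))),
      fun j => j.elim0⟩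

open Classical in
private theorem sum_tens (v : Sj →₀ ZMod p) (R : Fin p → Sj → Prop) :
    ∑ z ∈ (tens v).support.filter (fun z : TT p 0 => ∀ j, R j (z.1 j)), tens v z =
      ∏ j, ∑ s ∈ v.support.filter (R j), v s := by
  rw [Finset.prod_univ_sum]
  refine Finset.sum_nbij' (fun z => z.1) (fun x => ((x, Fin.elim0) : TT p 0)) ?_ ?_ ?_ ?_ ?_
  · intro z hz
    rw [Finset.mem_filter, Finsupp.mem_support_iff, tens_apply, Finset.prod_ne_zero_iff] at hz
    rw [Fintype.mem_piFinset]
    intro j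
    exact Finset.mem_filter.2
      ⟨Finsupp.mem_support_iff.2 (hz.1 j (Finset.mem_univ j)), hz.2 j⟩
  · intro x hx
    rw [Fintype.mem_piFinset] at hx
    rw [Finset.mem_filter, Finsupp.mem_support_iff, tens_apply, Finset.prod_ne_zero_iff]
    exact ⟨fun j _ => Finsupp.mem_support_iff.1 (Finset.mem_filter.1 (hx j)).1,
      fun j => (Finset.mem_filter.1 (hx j)).2⟩
  · intro z _
    exact Prod.ext rfl (Subsingleton.elim _ _)
  · intro x _
    rfl
  · intro z _
    rfl

private theorem pv_apply (g : Sj → Option Sj) (v : Sj →₀ ZMod p) :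
    pv p g v = push (ZMod p) g v := by
  unfold pv push
  rw [Finsupp.lsum_apply]
  refine Finsupp.sum_congr fun s _ => ?_
  cases g s <;> rfl

private theorem push_tens (v : Sj →₀ ZMod p) (i : ℕ) :
    push (ZMod p) (FT 0 p 0 i) (tens v) = tens (pv p (fa 0 i) v) := by
  classical
  refine Finsupp.ext fun z' => ?_
  rw [push_apply, tens_apply]
  have h1 := sum_tens v fun j s => fa 0 i s = some (z'.1 j)
  rw [Finset.sum_filter] at h1 ⊢
  refine Eq.trans (Finset.sum_congr rfl fun z _ => ?_) (h1.trans ?_)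
  · by_cases h : FT 0 p 0 i z = some z'
    · rw [if_pos h, if_pos (FT_some.1 h)]
    · rw [if_neg h, if_neg (fun h' => h (FT_some.2 h'))]
  · refine Finset.prod_congr rfl fun j _ => ?_
    rw [pv_apply, push_apply, Finset.sum_filter, Finset.sum_filter]
    refine Finset.sum_congr rfl fun s _ => ?_
    by_cases h : fa 0 i s = some (z'.1 j)
    · rw [if_pos h, if_pos h]
    · rw [if_neg h, if_neg h]

theorem tens_bd (v : Sj →₀ ZMod p) : ∃ N₀ : ℕ, ∀ N, N₀ ≤ N →
    bd (ZMod p) (FT 0 p 0) (tens v) =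
      ∑ i ∈ Finset.range N, (-1 : ℤ) ^ i • tens (pv p (fa 0 i) v) := by
  obtain ⟨M, hM⟩ := FT_bound (tens v).support
  refine ⟨M, fun N hN => ?_⟩
  rw [bd_eq_sum (N := N) fun z hz i hi => hM z hz i (hN.trans hi)]
  exact Finset.sum_congr rfl fun i _ => by rw [push_tens]

theorem Efun_tens (ν q : ℕ) (v : Sj →₀ ZMod p) :
    Efun p ν q (tens v) = ∏ j : Fin p, phi p v (fj ν q j) := by
  classical
  rw [Efun_apply, sum_tens v fun j s => s.1 ∘ fj ν q j = id]
  rfl

/-! ### the level of a pull back -/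

/-- The minimal section. -/
private noncomputable def sec (s : Sj) (v : ℕ) : ℕ := sInf {i | s.1 i = v}

private theorem sec_spec (s : Sj) (v : ℕ) : s.1 (sec s v) = v := Nat.sInf_mem (s.2.2.1 v)

private theorem sec_le {s : Sj} {v i : ℕ} : sec s v ≤ i ↔ v ≤ s.1 i := by
  constructor
  · intro h
    have h1 := s.2.1 h
    rwa [sec_spec] at h1
  · intro h
    by_contra hn
    have h1 := s.2.1 (not_le.1 hn).le
    rw [sec_spec] at h1
    have h2 : s.1 i = v := le_antisymm h1 h
    exact hn (Nat.sInf_le h2)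

private theorem comp_eq_id {s : Sj} {f : ℕ → ℕ} (h : s.1 ∘ f = id) (v : ℕ) :
    sec s v ≤ f v ∧ f v < sec s (v + 1) := by
  have h1 := congrFun h v
  simp only [Function.comp_apply, id_eq] at h1
  refine ⟨sec_le.2 h1.ge, ?_⟩
  by_contra hn
  have h2 := sec_le.1 (not_lt.1 hn)
  omega

private theorem comp_sec (s : Sj) : s.1 ∘ sec s = id := funext fun v => sec_spec s v

private theorem sec_inj {s t : Sj} (h : sec s = sec t) : s = t := by
  apply Subtype.ext
  funext i
  apply le_antisymm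
  · rw [← sec_le (s := t), ← h, sec_le]
  · rw [← sec_le (s := s), h, sec_le]

private theorem sec_lv {m : ℕ} {s : Sj} (h : Lv (m : ℕ∞) s) {i : ℕ} (hi : m < i) :
    (sec s i : ℤ) = i + exc s := by
  have h1 := lv_val h (u := sec s i) (by rw [sec_spec]; exact hi)
  rw [sec_spec] at h1
  omega

private theorem lv_sec {m : ℕ} {s : Sj} {q : ℤ} (h : ∀ i, m < i → (sec s i : ℤ) = i + q) :
    Lv (m : ℕ∞) s := by
  have key : ∀ a b, (m : ℕ∞) < (s.1 a : ℕ∞) → s.1 a = s.1 b → a ≤ b → a = b := by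
    intro a b h1 h2 h3
    have hm : m < s.1 a := by exact_mod_cast h1
    have h4 := h (s.1 a) hm
    have h5 := h (s.1 a + 1) (by omega)
    have h6 : sec s (s.1 a) ≤ a := sec_le.2 le_rfl
    have h7 : b < sec s (s.1 a + 1) := by
      by_contra hc
      have h8 := sec_le.1 (not_lt.1 hc)
      omega
    push_cast at h5
    omega
  intro a b h1 h2
  rcases le_total a b with h3 | h3
  · exact key a b h1 h2 h3
  · exact (key b a (by rw [← h2]; exact h1) h2.symm h3).symm

theorem ph_level {X : SSet.{0}} {ν n : ℕ} (c : CoZ X (ZMod p) ν) (σ : X.obj (op ⦋n⦌)) {q : ℤ}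
    (hq : q - 0 = (n : ℤ) - ν) : ∀ s ∈ (ph (pull c σ hq)).support, Lv (ν : ℕ∞) s := by
  classical
  obtain ⟨v, hv⟩ : ∃ v, v = ph (pull c σ hq) := ⟨_, rfl⟩
  rw [← hv]
  have hexc : ∀ s ∈ v.support, exc s = q := by
    rw [hv]
    exact ph_exc _
  have hphi : ∀ f, phi p v f ≠ 0 → ∀ i : ℕ, ν < i → (f i : ℤ) = i + q := by
    intro f hf i hi
    rw [hv, phi_ph] at hf
    by_contra hc
    apply hf
    show pullFun c.1 σ hq f = 0
    unfold pullFun
    rw [dif_neg]
    rintro ⟨-, h2⟩
    have h3 := h2 i hi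
    rw [sub_zero] at h3
    exact hc h3
  by_contra hbad
  push Not at hbad
  obtain ⟨s₀, hs₀, hs₀'⟩ := hbad
  have hne : ((v.support.filter fun s => ¬ Lv (ν : ℕ∞) s).image sec).Nonempty :=
    ⟨_, Finset.mem_image_of_mem _ (Finset.mem_filter.2 ⟨hs₀, hs₀'⟩)⟩
  obtain ⟨m, hm⟩ := Finset.exists_minimal hne
  obtain ⟨t, ht, rfl⟩ := Finset.mem_image.1 hm.1
  obtain ⟨htv, htL⟩ := Finset.mem_filter.1 ht
  have h0 : phi p v (sec t) = 0 := by
    by_contra hc
    exact htL (lv_sec (hphi _ hc))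
  have h2 : phi p v (sec t) = v t := by
    unfold phi
    refine Finset.sum_eq_single_of_mem t (Finset.mem_filter.2 ⟨htv, comp_sec t⟩) ?_
    intro s hs hst
    exfalso
    obtain ⟨h3, h4⟩ := Finset.mem_filter.1 hs
    have h5 : sec s ≤ sec t := fun i => (comp_eq_id h4 i).1
    by_cases hL : Lv (ν : ℕ∞) s
    · apply htL
      refine lv_sec (q := q) fun i hi => ?_
      have h6 := comp_eq_id h4 i
      have h7 := sec_lv hL hi
      have h8 := sec_lv hL (show ν < i + 1 by omega)
      rw [hexc s h3] at h7 h8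
      push_cast at h8
      omega
    · have h6 : sec t ≤ sec s := hm.2 (Finset.mem_image_of_mem _
        (Finset.mem_filter.2 ⟨h3, hL⟩)) h5
      exact hst (sec_inj (le_antisymm h5 h6))
  rw [h2] at h0
  exact (Finsupp.mem_support_iff.1 htv) h0

end BPN.E
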