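import Pool.Agent.BPN.EOut

/-!
# Part (E), module Rec: the numerical recursion (project BPN, architect helper30)

`G d n N`, `L d n N`, `S d n N`, `T d n N`: the homology of `Γ^d`, `Λ^d`, `S^d`, `S_p^d` in degree `n` has
dimension at most `N`.  `Mil.deg p R E` is the degree of `ξ^R τ^E` (variable `j` of `R` is `ξ_(j+1)`, of
degree `2(p^(j+1) - 1)`, `τ_e` has degree `2 p^e - 1`).

PROOF.  Let `M k n` (`n : ℤ`) be the number of pairs `(R, E)` with `R` supported in `{0, .., k-1}`, `E ⊆ {0, .., k-1}`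
and degree `n` (`0` for `n < 0`); all these sets are finite (`deg_finite`: every `ξ` and every `τ` has
positive degree, `R j * 2 (p^(j+1) - 1) ≤ n` bounds `j` and `R j`, `2 p^e - 1 ≤ n` bounds `e`).
(1) `M 0 n = if n = 0 then 1 else 0`.
(2) `M (k+1) n = M k n + M (k+1) (n - 2(p^(k+1) - 1)) + M k (n - (2 p^k - 1))`: a pair counted by `M (k+1) n`
    with `R k > 0` corresponds to one with `R k` lowered by one; a pair with `R k = 0` either has
    `k ∉ E` (counted by `M k n`), or `k ∈ E` (remove it).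
(3) `G d n 0` for every `d ≥ 2` which is not a power of `p`: strong induction on `d`, and for fixed `d`
    strong induction on `n` (`G d n 0` for `n < 0`).  If `p ∤ d`: `G d (n - 2(d-1)) 0` implies by `r1`
    `L d (n - (d-1)) 0`, by `r2` `S d n 0`, by `r3a` `T d n 0`, by `r4a` `G d n 0`.  If `d = p m`: `m ≥ 2` is not a
    power of `p`, so `G m n' 0` for all `n'`, hence `L m n' 0` for all `n'`; now `S d n 0` as before, `r3b` and
    `r4b` with `N' = 0`.
(4) `G (p^k) n (M k n)` and `T (p^(k+1)) n (M (k+1) n - M k n)`.  Induction on `k`; `k = 0`: `base`.  For `p^(k+1)` strong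
    induction on `n`: `G (p^(k+1)) (n - 2(p^(k+1)-1)) (M (k+1) (n - 2(p^(k+1)-1)))` gives
    `S (p^(k+1)) n (same)`; `G (p^k) (n - 2 p^k + 1) (M k (..))` gives `L (p^k) (n - p^k) (..)` (`r1`, `d = p^k`:
    `(n - p^k) - (p^k - 1) = n - 2 p^k + 1`); `r3b` with `m = p^k`: `T (p^(k+1)) n (M (k+1) n - M k n)` by (2).
    `G (p^k) n (M k n)` gives `L (p^k) (n + p^k - 1) (M k n)` and `r4b` gives `G (p^(k+1)) n (M (k+1) n)`.
    `T 1 n (M 0 n)`: from `base` by `r1, r2, r3a` with `d = 1` (`p ∤ 1`).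
(5) `t d = 0` for `d` not a power of `p`, `t 1 = M 0 n`, `t (p^(k+1)) = M (k+1) n - M k n`.  `t (p^(k+1)) = 0` for large `k`
    (`2 p^k - 1 > n` and `2(p^(k+1)-1) > n`: then `M (k+1) n = M k n`).  Partial sums of `t` are at most
    `M K n ≤ card` (telescoping).
-/

namespace BPN.E

open Finset

theorem deg_add_single (p : ℕ) (R : ℕ →₀ ℕ) (E : Finset ℕ) (k : ℕ) :
    Mil.deg p (R + Finsupp.single k 1) E = Mil.deg p R E + 2 * (p ^ (k + 1) - 1) := by
  unfold Mil.deg
  rw [Finsupp.sum_add_index' (fun j => by simp) (fun j a b => by ring), Finsupp.sum_single_index (by simp)]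
  ring

theorem deg_insert (p : ℕ) (R : ℕ →₀ ℕ) (E : Finset ℕ) (k : ℕ) (hk : k ∉ E) :
    Mil.deg p R (insert k E) = Mil.deg p R E + (2 * p ^ k - 1) := by
  unfold Mil.deg
  rw [Finset.sum_insert hk]
  ring

theorem le_deg_left (p : ℕ) (R : ℕ →₀ ℕ) (E : Finset ℕ) (j : ℕ) :
    R j * (2 * (p ^ (j + 1) - 1)) ≤ Mil.deg p R E := by
  unfold Mil.deg
  by_cases hj : j ∈ R.support
  · have h := Finset.single_le_sum (f := fun j => R j * (2 * (p ^ (j + 1) - 1)))
      (fun i _ => Nat.zero_le _) hj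
    simp only [Finsupp.sum] at *
    omega
  · rw [Finsupp.notMem_support_iff.1 hj]
    simp

theorem le_deg_right (p : ℕ) (R : ℕ →₀ ℕ) (E : Finset ℕ) {e : ℕ} (he : e ∈ E) :
    2 * p ^ e - 1 ≤ Mil.deg p R E := by
  unfold Mil.deg
  have h := Finset.single_le_sum (f := fun e => 2 * p ^ e - 1)
      (fun i _ => Nat.zero_le _) he
  omega

theorem supp_of_deg (p : ℕ) (hp : 1 < p) {R : ℕ →₀ ℕ} {E : Finset ℕ} {n : ℕ}
    (h : Mil.deg p R E = n) : R.support ⊆ range n ∧ E ⊆ range n ∧ ∀ j, R j ≤ n := by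
  have h1 : ∀ j, 1 ≤ p ^ (j + 1) - 1 ∧ j + 1 ≤ p ^ (j + 1) - 1 := fun j => by
    have := Nat.lt_pow_self hp (n := j + 1)
    omega
  refine ⟨fun j hj => ?_, fun e he => ?_, fun j => ?_⟩
  · have h2 := le_deg_left p R E j
    have h3 := (h1 j).2
    have h4 : 1 ≤ R j := Nat.one_le_iff_ne_zero.2 (Finsupp.mem_support_iff.1 hj)
    have h5 : 1 * (2 * (j + 1)) ≤ R j * (2 * (p ^ (j + 1) - 1)) :=
      Nat.mul_le_mul h4 (Nat.mul_le_mul_left 2 h3)
    rw [mem_range]
    omega
  · have h2 := le_deg_right p R E he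
    have h3 := Nat.lt_pow_self hp (n := e)
    rw [mem_range]
    omega
  · have h2 := le_deg_left p R E j
    have h3 := (h1 j).1
    have h5 : R j * 1 ≤ R j * (2 * (p ^ (j + 1) - 1)) :=
      Nat.mul_le_mul_left _ (by omega)
    omega

theorem deg_finite (p : ℕ) [Fact p.Prime] (n : ℕ) :
    {q : (ℕ →₀ ℕ) × Finset ℕ | Mil.deg p q.1 q.2 = n}.Finite := by
  have hp : 1 < p := (Fact.out : p.Prime).one_lt
  have h1 : (Set.Iic (Finsupp.indicator (range n) (fun _ _ => n) : ℕ →₀ ℕ)).Finite :=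
    Set.finite_Iic _
  have h2 : {E : Finset ℕ | E ⊆ range n}.Finite :=
    ((range n).powerset.finite_toSet).subset fun E hE =>
      Finset.mem_coe.2 (mem_powerset.2 hE)
  refine (h1.prod h2).subset ?_
  rintro ⟨R, E⟩ hq
  obtain ⟨h3, h4, h5⟩ := supp_of_deg p hp hq
  refine ⟨?_, h4⟩
  simp only [Set.mem_Iic]
  intro j
  rw [Finsupp.indicator_apply]
  split_ifs with hj
  · exact h5 j
  · have : R j = 0 := by
      by_contra hne
      exact hj (h3 (Finsupp.mem_support_iff.2 hne))
    simp [this]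

/-- pairs with exponents in `range k` and degree `n` -/
def MS (p k : ℕ) (n : ℤ) : Set ((ℕ →₀ ℕ) × Finset ℕ) :=
  {q | q.1.support ⊆ range k ∧ q.2 ⊆ range k ∧ (Mil.deg p q.1 q.2 : ℤ) = n}

theorem MS_finite (p : ℕ) [Fact p.Prime] (k : ℕ) (n : ℤ) : (MS p k n).Finite := by
  rcases lt_or_ge n 0 with hn | hn
  · convert Set.finite_empty
    ext q
    simp only [MS, Set.mem_ofPred_eq, Set.mem_empty_iff_false, iff_false]
    rintro ⟨-, -, h⟩
    omega
  · obtain ⟨m, rfl⟩ := Int.eq_ofNat_of_zero_le hn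
    refine (deg_finite p m).subset fun q hq => ?_
    have := hq.2.2
    simp only [Set.mem_ofPred_eq]
    exact_mod_cast this

theorem MS_mono (p k : ℕ) (n : ℤ) : MS p k n ⊆ MS p (k + 1) n := fun _ hq =>
  ⟨hq.1.trans (range_subset_range.2 (Nat.le_succ k)),
    hq.2.1.trans (range_subset_range.2 (Nat.le_succ k)), hq.2.2⟩

/-- number of pairs -/
noncomputable def MN (p k : ℕ) (n : ℤ) : ℕ := (MS p k n).ncard

theorem MN_mono (p : ℕ) [Fact p.Prime] (k : ℕ) (n : ℤ) : MN p k n ≤ MN p (k + 1) n :=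
  Set.ncard_le_ncard (MS_mono p k n) (MS_finite p _ _)

theorem MN_rec (p : ℕ) [Fact p.Prime] (k : ℕ) (n : ℤ) :
    MN p (k + 1) (n - 2 * ((p : ℤ) ^ (k + 1) - 1)) + MN p k (n - (2 * (p : ℤ) ^ k - 1)) +
      MN p k n ≤ MN p (k + 1) n := by
  have hp : 1 < p := (Fact.out : p.Prime).one_lt
  have e1 : ((2 * (p ^ (k + 1) - 1) : ℕ) : ℤ) = 2 * ((p : ℤ) ^ (k + 1) - 1) := by
    have := Nat.one_le_pow (k + 1) p (by omega)
    push_cast [Nat.cast_sub this]
    ring
  have e2 : ((2 * p ^ k - 1 : ℕ) : ℤ) = 2 * (p : ℤ) ^ k - 1 := by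
    have := Nat.one_le_pow k p (by omega)
    have h2 : 1 ≤ 2 * p ^ k := by omega
    push_cast [Nat.cast_sub h2]
    ring
  set A := MS p (k + 1) (n - 2 * ((p : ℤ) ^ (k + 1) - 1)) with hA
  set B := MS p k (n - (2 * (p : ℤ) ^ k - 1)) with hB
  set C := MS p k n with hC
  let fA : (ℕ →₀ ℕ) × Finset ℕ → (ℕ →₀ ℕ) × Finset ℕ := fun q => (q.1 + Finsupp.single k 1, q.2)
  let fB : (ℕ →₀ ℕ) × Finset ℕ → (ℕ →₀ ℕ) × Finset ℕ := fun q => (q.1, insert k q.2)
  have iA : Set.InjOn fA A := fun q _ q' _ h => by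
    simp only [fA, Prod.mk.injEq, add_left_inj] at h
    exact Prod.ext h.1 h.2
  have nk : ∀ {E : Finset ℕ}, E ⊆ range k → k ∉ E := fun h hk => by
    have := h hk
    simp at this
  have iB : Set.InjOn fB B := fun q hq q' hq' h => by
    simp only [fB, Prod.mk.injEq] at h
    refine Prod.ext h.1 ?_
    have h2 := congrArg (fun E => E.erase k) h.2
    simpa [Finset.erase_insert (nk hq.2.1), Finset.erase_insert (nk hq'.2.1)] using h2
  have hR0 : ∀ {R : ℕ →₀ ℕ}, R.support ⊆ range k → R k = 0 := fun {R} h => by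
    by_contra hne
    have := h (Finsupp.mem_support_iff.2 hne)
    simp at this
  have sA : fA '' A ⊆ MS p (k + 1) n := by
    rintro _ ⟨q, hq, rfl⟩
    refine ⟨?_, hq.2.1, ?_⟩
    · intro j hj
      have := Finsupp.support_add hj
      rw [mem_union] at this
      rcases this with h | h
      · exact hq.1 h
      · have := Finsupp.support_single_subset h
        rw [mem_singleton] at this
        simp [this]
    · have := hq.2.2
      simp only [fA]
      rw [deg_add_single]
      rw [Nat.cast_add, e1, this]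
      ring
  have sB : fB '' B ⊆ MS p (k + 1) n := by
    rintro _ ⟨q, hq, rfl⟩
    refine ⟨hq.1.trans (range_subset_range.2 (Nat.le_succ k)), ?_, ?_⟩
    · intro j hj
      simp only [fB, mem_insert] at hj
      rcases hj with h | h
      · simp [h]
      · exact (range_subset_range.2 (Nat.le_succ k)) (hq.2.1 h)
    · have := hq.2.2
      simp only [fB]
      rw [deg_insert _ _ _ _ (nk hq.2.1), Nat.cast_add, e2, this]
      ring
  have dAB : Disjoint (fA '' A) (fB '' B) := by
    rw [Set.disjoint_left]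
    rintro _ ⟨q, hq, rfl⟩ ⟨q', hq', h⟩
    simp only [fA, fB, Prod.mk.injEq] at h
    have h1 := hR0 hq'.1
    rw [h.1] at h1
    simp at h1
  have dC : Disjoint (fA '' A ∪ fB '' B) C := by
    rw [Set.disjoint_left]
    rintro _ (⟨q, hq, rfl⟩ | ⟨q, hq, rfl⟩) hC'
    · have h1 := hR0 hC'.1
      simp [fA] at h1
    · have h1 := nk hC'.2.1
      simp [fB] at h1
  have fAf : (fA '' A).Finite := (MS_finite p _ _).subset sA
  have fBf : (fB '' B).Finite := (MS_finite p _ _).subset sB
  have fCf : C.Finite := MS_finite p _ _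
  calc MN p (k + 1) (n - 2 * ((p : ℤ) ^ (k + 1) - 1)) + MN p k (n - (2 * (p : ℤ) ^ k - 1)) +
        MN p k n = (fA '' A).ncard + (fB '' B).ncard + C.ncard := by
        rw [iA.ncard_image, iB.ncard_image]
        rfl
    _ = (fA '' A ∪ fB '' B ∪ C).ncard := by
        rw [Set.ncard_union_eq dC (fAf.union fBf) fCf, Set.ncard_union_eq dAB fAf fBf]
    _ ≤ MN p (k + 1) n :=
        Set.ncard_le_ncard (Set.union_subset (Set.union_subset sA sB) (MS_mono p k n))
          (MS_finite p _ _)

theorem MN_zero (p : ℕ) [Fact p.Prime] (n : ℤ) : (if n = 0 then 1 else 0) ≤ MN p 0 n := by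
  split_ifs with h
  · have h1 : ((0 : ℕ →₀ ℕ), (∅ : Finset ℕ)) ∈ MS p 0 n := by
      refine ⟨by simp, by simp, ?_⟩
      simp [Mil.deg, h]
    have h2 := (Set.ncard_pos (MS_finite p 0 n)).2 ⟨_, h1⟩
    exact h2
  · exact Nat.zero_le _

theorem MS_eq (p : ℕ) [Fact p.Prime] {k n : ℕ} (h : n ≤ k) :
    MS p k (n : ℤ) = {q : (ℕ →₀ ℕ) × Finset ℕ | Mil.deg p q.1 q.2 = n} := by
  have hp : 1 < p := (Fact.out : p.Prime).one_lt
  ext q
  constructor
  · intro hq
    have := hq.2.2
    simp only [Set.mem_ofPred_eq]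
    exact_mod_cast this
  · intro hq
    obtain ⟨h3, h4, -⟩ := supp_of_deg p hp (show Mil.deg p q.1 q.2 = n from hq)
    exact ⟨h3.trans (range_subset_range.2 h), h4.trans (range_subset_range.2 h), by
      have : Mil.deg p q.1 q.2 = n := hq
      exact_mod_cast this⟩

theorem MN_le (p : ℕ) [Fact p.Prime] (k n : ℕ) :
    MN p k (n : ℤ) ≤ {q : (ℕ →₀ ℕ) × Finset ℕ | Mil.deg p q.1 q.2 = n}.ncard := by
  refine Set.ncard_le_ncard (fun q hq => ?_) (deg_finite p n)
  have := hq.2.2
  simp only [Set.mem_ofPred_eq]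
  exact_mod_cast this

/-- increments of `MN` -/
noncomputable def mi (p : ℕ) (n : ℤ) : ℕ → ℕ
  | 0 => MN p 0 n
  | k + 1 => MN p (k + 1) n - MN p k n

theorem sum_mi (p : ℕ) [Fact p.Prime] (n : ℤ) (K : ℕ) :
    ∑ k ∈ range (K + 1), mi p n k = MN p K n := by
  induction K with
  | zero => simp [mi]
  | succ K ih =>
    rw [sum_range_succ, ih]
    have := MN_mono p K n
    simp only [mi]
    omega

theorem rec_bound (p : ℕ) [Fact p.Prime] (G L S T : ℕ → ℤ → ℕ → Prop)
    (mG : ∀ d n N N', N ≤ N' → G d n N → G d n N') (mL : ∀ d n N N', N ≤ N' → L d n N → L d n N')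
    (mS : ∀ d n N N', N ≤ N' → S d n N → S d n N') (mT : ∀ d n N N', N ≤ N' → T d n N → T d n N')
    (neg : ∀ d n, n < 0 → G d n 0)
    (r1 : ∀ (d : ℕ) n N, 0 < d → G d (n - ((d : ℤ) - 1)) N → L d n N)
    (r2 : ∀ (d : ℕ) n N, 0 < d → L d (n - ((d : ℤ) - 1)) N → S d n N)
    (r3a : ∀ (d : ℕ) n N, ¬ p ∣ d → S d n N → T d n N)
    (r3b : ∀ (m : ℕ) n N N', 0 < m → S (p * m) n N → L m (n - m) N' → T (p * m) n (N + N'))
    (r4a : ∀ (d : ℕ) n N, ¬ p ∣ d → T d n N → G d n N)
    (r4b : ∀ (m : ℕ) n N N', 0 < m → T (p * m) n N → L m (n + m - 1) N' → G (p * m) n (N + N'))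
    (base : ∀ n, G 1 n (if n = 0 then 1 else 0)) (n : ℕ) :
    ∃ t : ℕ → ℕ, (∀ d, 0 < d → T d n (t d)) ∧ (∃ D, ∀ d, D ≤ d → t d = 0) ∧
      ∀ D, ∑ d ∈ Finset.range D, t d ≤
        {q : (ℕ →₀ ℕ) × Finset ℕ | Mil.deg p q.1 q.2 = n}.ncard := by
  have hpp : p.Prime := Fact.out
  have hp : 1 < p := hpp.one_lt
  -- S from G
  have hS : ∀ (d : ℕ) (n : ℤ) N, 0 < d → G d (n - 2 * ((d : ℤ) - 1)) N → S d n N := by
    intro d n N hd h
    refine r2 d n N hd (r1 d _ N hd ?_)
    convert h using 1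
    ring
  -- not a power of p
  have hnp : ∀ d : ℕ, 2 ≤ d → (∀ k, d ≠ p ^ k) → (∀ n : ℤ, G d n 0) ∧ ∀ n : ℤ, T d n 0 := by
    intro d
    induction d using Nat.strong_induction_on with
    | _ d ih =>
      intro hd hk
      have hstep : ∀ n : ℤ, G d (n - 2 * ((d : ℤ) - 1)) 0 → G d n 0 ∧ T d n 0 := by
        intro n hG
        have h1 := hS d n 0 (by omega) hG
        by_cases hpd : p ∣ d
        · obtain ⟨m, rfl⟩ := hpd
          have hm : 2 ≤ m := by
            rcases Nat.lt_or_ge m 2 with h | h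
            · exfalso
              interval_cases m
              · simp at hd
              · exact hk 1 (by simp)
            · exact h
          have hmlt : m < p * m := by nlinarith
          obtain ⟨hGm, -⟩ := ih m hmlt hm fun k hk' => hk (k + 1) (by rw [hk', pow_succ]; ring)
          have hLm : ∀ n' : ℤ, L m n' 0 := fun n' => r1 m n' 0 (by omega) (hGm _)
          have h2 : T (p * m) n (0 + 0) := r3b m n 0 0 (by omega) h1 (hLm _)
          exact ⟨r4b m n 0 0 (by omega) h2 (hLm _), h2⟩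
        · have h2 := r3a d n 0 hpd h1
          exact ⟨r4a d n 0 hpd h2, h2⟩
      have hall : ∀ N : ℕ, ∀ n : ℤ, n < N → G d n 0 := by
        intro N
        induction N with
        | zero => exact fun n hn => neg d n (by simpa using hn)
        | succ N ihN =>
          intro n hn
          refine (hstep n (ihN _ ?_)).1
          push_cast at hn
          have : (2 : ℤ) ≤ d := by exact_mod_cast hd
          omega
      have hG : ∀ n : ℤ, G d n 0 := fun n => hall (n.toNat + 1) n (by
        have := Int.self_le_toNat n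
        push_cast
        omega)
      exact ⟨hG, fun n => (hstep n (hG _)).2⟩
  -- powers of p
  have hpw : ∀ k : ℕ, (∀ n : ℤ, G (p ^ k) n (MN p k n)) ∧ ∀ n : ℤ, T (p ^ k) n (mi p n k) := by
    intro k
    induction k with
    | zero =>
      have h1 : ∀ n : ℤ, G 1 n (MN p 0 n) := fun n => mG _ _ _ _ (MN_zero p n) (base n)
      refine ⟨by simpa using h1, fun n => ?_⟩
      rw [pow_zero]
      have h2 := hS 1 n (MN p 0 n) one_pos (by simpa using h1 n)
      exact r3a 1 n _ (by
        intro h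
        have := Nat.le_of_dvd one_pos h
        omega) h2
    | succ k ih =>
      obtain ⟨ihG, -⟩ := ih
      have hpk : 0 < p ^ k := Nat.pow_pos (by omega)
      have hpk1 : 0 < p ^ (k + 1) := Nat.pow_pos (by omega)
      have hstep : ∀ n : ℤ, G (p ^ (k + 1)) (n - 2 * (((p ^ (k + 1) : ℕ) : ℤ) - 1))
          (MN p (k + 1) (n - 2 * ((p : ℤ) ^ (k + 1) - 1))) →
          G (p ^ (k + 1)) n (MN p (k + 1) n) ∧ T (p ^ (k + 1)) n (mi p n (k + 1)) := by
        intro n hG
        have h1 := hS (p ^ (k + 1)) n _ hpk1 hG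
        have h2 : L (p ^ k) (n - ((p ^ k : ℕ) : ℤ)) (MN p k (n - (2 * (p : ℤ) ^ k - 1))) := by
          refine r1 _ _ _ hpk ?_
          convert ihG (n - (2 * (p : ℤ) ^ k - 1)) using 1
          push_cast
          ring
        have e : p ^ (k + 1) = p * p ^ k := by ring
        have h3 : T (p ^ (k + 1)) n (MN p (k + 1) (n - 2 * ((p : ℤ) ^ (k + 1) - 1)) +
            MN p k (n - (2 * (p : ℤ) ^ k - 1))) := by
          rw [e] at h1 ⊢
          exact r3b _ _ _ _ hpk h1 h2
        have hr := MN_rec p k n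
        have h4 : T (p ^ (k + 1)) n (mi p n (k + 1)) := by
          refine mT _ _ _ _ ?_ h3
          simp only [mi]
          omega
        refine ⟨?_, h4⟩
        have h5 : L (p ^ k) (n + ((p ^ k : ℕ) : ℤ) - 1) (MN p k n) := by
          refine r1 _ _ _ hpk ?_
          convert ihG n using 1
          ring
        have h6 : G (p ^ (k + 1)) n (mi p n (k + 1) + MN p k n) := by
          rw [e] at h4 ⊢
          exact r4b _ _ _ _ hpk h4 h5
        refine mG _ _ _ _ ?_ h6
        have := MN_mono p k n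
        simp only [mi]
        omega
      have hall : ∀ N : ℕ, ∀ n : ℤ, n < N → G (p ^ (k + 1)) n (MN p (k + 1) n) := by
        intro N
        induction N with
        | zero => exact fun n hn => mG _ _ _ _ (Nat.zero_le _) (neg _ n (by simpa using hn))
        | succ N ihN =>
          intro n hn
          refine (hstep n ?_).1
          have h2 : (2 : ℤ) ≤ ((p ^ (k + 1) : ℕ) : ℤ) := by
            have : p ^ 1 ≤ p ^ (k + 1) := Nat.pow_le_pow_right (by omega) (by omega)
            have : 2 ≤ p ^ (k + 1) := by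
              rw [pow_one] at this
              omega
            exact_mod_cast this
          have h3 := ihN (n - 2 * (((p ^ (k + 1) : ℕ) : ℤ) - 1)) (by push_cast at hn ⊢; push_cast at h2; omega)
          convert h3 using 2
          push_cast
          ring
      have hG : ∀ n : ℤ, G (p ^ (k + 1)) n (MN p (k + 1) n) := fun n => hall (n.toNat + 1) n (by
        have := Int.self_le_toNat n
        push_cast
        omega)
      refine ⟨hG, fun n => (hstep n ?_).2⟩
      convert hG (n - 2 * (((p ^ (k + 1) : ℕ) : ℤ) - 1)) using 2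
      push_cast
      ring
  refine ⟨fun d => if d = p ^ Nat.log p d then mi p n (Nat.log p d) else 0, ?_, ?_, ?_⟩
  · intro d hd
    dsimp only
    split_ifs with h
    · have := (hpw (Nat.log p d)).2 n
      rw [← h] at this
      exact this
    · refine (hnp d ?_ ?_).2 n
      · by_contra h2
        have : d = 1 := by omega
        subst this
        simp at h
      · intro k hk
        apply h
        rw [hk, Nat.log_pow hp]
  · refine ⟨p ^ (n + 1), fun d hd => ?_⟩
    dsimp only
    split_ifs with h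
    · have hl : n + 1 ≤ Nat.log p d := by
        have h1 : Nat.log p (p ^ (n + 1)) ≤ Nat.log p d := Nat.log_mono_right hd
        rwa [Nat.log_pow hp] at h1
      obtain ⟨k, hk⟩ : ∃ k, Nat.log p d = k + 1 := ⟨Nat.log p d - 1, by omega⟩
      rw [hk]
      simp only [mi, MN]
      rw [MS_eq p (show n ≤ k + 1 by omega), MS_eq p (show n ≤ k by omega)]
      exact Nat.sub_self _
    · rfl
  · intro D
    rw [← Finset.sum_filter]
    have hinj : Set.InjOn (Nat.log p) ↑((range D).filter fun d => d = p ^ Nat.log p d) := by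
      intro a ha b hb hab
      have h1 := (mem_filter.1 ha).2
      have h2 := (mem_filter.1 hb).2
      rw [h1, h2, hab]
    rw [← Finset.sum_image (f := fun k => mi p n k) hinj]
    refine (Finset.sum_le_sum_of_subset (t := range (D + 1)) ?_).trans ?_
    · intro k hk
      obtain ⟨d, hd, rfl⟩ := mem_image.1 hk
      have h1 := mem_range.1 (mem_filter.1 hd).1
      have h2 := Nat.log_le_self p d
      rw [mem_range]
      omega
    · rw [sum_mi]
      exact MN_le p D n

end BPN.E
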