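import Pool.Agent.BPN.E.Tup

/-!
# Part (E), module Sj: the surjections and their operators (project BPN, architect helper30)

Definitions `Good`, `Sj`, `exc`, `act`, `th`, `fa` in `Pool/Agent/BPN/E/Defs.lean`, `dl`, `sg`, `Shift` in
`Pool/Agent/BPN/EM.lean`.

PROOFS.
* `exc_spec`, `exc_unique`: two shifts which agree for large `i` have the same constant.
* `Sj.le`: a monotone surjection `s` of `ℕ` has `s 0 = 0` and `s (i+1) ≤ s i + 1`, hence `s i ≤ i`; so
  `0 ≤ exc s`.  `Sj.ge`: `s i ≥ i - exc s` (use `s j = j - exc s` for large `j` and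
  `s j ≤ s i + (j - i)`).
* `act_eq_some`: unfold.  `act_bind`: if `s ∘ α` is good this is clear; if not then `s ∘ α` is monotone
  and eventually a shift, so it is not surjective, and `s ∘ α ∘ β` is not surjective either.
* All identities between operators follow from `act_bind` (twice) and an equality of functions
  `ℕ → ℕ`, proved by `funext` and case distinctions with `omega`:
  `dl (j+1) ∘ dl i = dl i ∘ dl j` (`i ≤ j`), etc.  Shifts: `dl i` by `1`, `sg i` and `th i` by `-1`.
  `(act (th 0) s).bind (fa 1 0)`: `th 0 ∘ dl 1 = id`, and `act id s = some s`.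
* `LFz_fa`: if `s j = j - e` for `j ≥ N` then for `i ≥ N + 1` the value `s i` is attained only at `i`, so
  `s ∘ dl i` is not surjective.
* `LFz_th`: `s (th k j)` is `0` for `j ≤ k + 1` and `s (k + 1)` for `j = k + 2`; if it is surjective then
  `s (k+1) ≤ 1`, and `s (k+1) = k + 1 - e` for large `k`.
* `act_th_le`: the same argument.
-/

namespace BPN.E

theorem exc_spec (s : Sj) : Shift s.1 (-(exc s)) := s.2.2.2.choose_spec

theorem exc_unique {s : Sj} {e : ℤ} (h : Shift s.1 (-e)) : exc s = e := by
  obtain ⟨N, hN⟩ := h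
  obtain ⟨M, hM⟩ := exc_spec s
  have h1 := hN (max N M) (le_max_left _ _)
  have h2 := hM (max N M) (le_max_right _ _)
  omega

theorem Sj.zero (s : Sj) : s.1 0 = 0 := by
  obtain ⟨i, hi⟩ := s.2.2.1 0
  have := s.2.1 (Nat.zero_le i)
  omega

theorem Sj.succ_le (s : Sj) (i : ℕ) : s.1 (i + 1) ≤ s.1 i + 1 := by
  obtain ⟨j, hj⟩ := s.2.2.1 (s.1 i + 1)
  rcases Nat.lt_or_ge i j with h | h
  · have := s.2.1 (show i + 1 ≤ j from h)
    omega
  · have := s.2.1 h
    omega

theorem Sj.le (s : Sj) (i : ℕ) : s.1 i ≤ i := by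
  induction i with
  | zero => exact le_of_eq s.zero
  | succ i ih =>
    have := s.succ_le i
    omega

private theorem Sj.add_le (s : Sj) (i n : ℕ) : s.1 (i + n) ≤ s.1 i + n := by
  induction n with
  | zero => exact le_rfl
  | succ n ih =>
    have := s.succ_le (i + n)
    have e : i + (n + 1) = i + n + 1 := by omega
    rw [e]
    omega

theorem Sj.ge (s : Sj) (i : ℕ) : (i : ℤ) - exc s ≤ s.1 i := by
  obtain ⟨N, hN⟩ := exc_spec s
  have h1 := hN (i + N) (Nat.le_add_left _ _)
  have h2 := s.add_le i N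
  omega

theorem exc_nonneg (s : Sj) : 0 ≤ exc s := by
  obtain ⟨N, hN⟩ := exc_spec s
  have h1 := hN N le_rfl
  have h2 := s.le N
  omega

/-- Excess `0` means the identity. -/
theorem exc_eq_zero_iff (s : Sj) : exc s = 0 ↔ s.1 = id := by
  constructor
  · intro h
    funext i
    have h1 := s.ge i
    have h2 := s.le i
    rw [h] at h1
    simp only [id_eq]
    omega
  · intro h
    apply exc_unique
    refine ⟨0, fun i _ => ?_⟩
    rw [h]
    simp

theorem act_eq_some {α : ℕ → ℕ} {s t : Sj} :
    act α s = some t ↔ t.1 = s.1 ∘ α := by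
  unfold act
  constructor
  · intro h
    split_ifs at h with hg
    rw [← Option.some.inj h]
  · intro h
    have hg : Good (s.1 ∘ α) := h ▸ t.2
    rw [dif_pos hg]
    exact congrArg some (Subtype.ext h.symm)

private theorem act_eq_none {α : ℕ → ℕ} {s : Sj} (h : ¬ Function.Surjective (s.1 ∘ α)) :
    act α s = none := by
  unfold act
  rw [dif_neg]
  exact fun hg => h hg.2.1

private theorem act_none {α : ℕ → ℕ} {c : ℤ} (hα : Monotone α) (hs : Shift α c) {s : Sj}
    (h : act α s = none) : ¬ Function.Surjective (s.1 ∘ α) := by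
  intro hsur
  have hg : Good (s.1 ∘ α) := by
    refine ⟨s.2.1.comp hα, hsur, exc s - c, ?_⟩
    obtain ⟨N, hN⟩ := exc_spec s
    obtain ⟨M, hM⟩ := hs
    refine ⟨M + N + c.natAbs, fun i hi => ?_⟩
    have h1 := hM i (by omega)
    have h2 := hN (α i) (by omega)
    simp only [Function.comp_apply]
    omega
  unfold act at h
  rw [dif_pos hg] at h
  exact absurd h (by simp)

theorem act_id (s : Sj) : act id s = some s := act_eq_some.2 rfl

theorem act_bind {α : ℕ → ℕ} {c : ℤ} (hα : Monotone α) (hs : Shift α c) (β : ℕ → ℕ) (s : Sj) :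
    (act α s).bind (act β) = act (α ∘ β) s := by
  rcases h : act α s with _ | t
  · symm
    apply act_eq_none
    intro hsur
    apply act_none hα hs h
    exact Function.Surjective.of_comp (g := β) hsur
  · have ht := act_eq_some.1 h
    have : act β t = act (α ∘ β) s := by
      apply Option.ext
      intro u
      have e : t.1 ∘ β = s.1 ∘ (α ∘ β) := by rw [ht]; rfl
      constructor
      · intro hu
        exact act_eq_some.2 ((act_eq_some.1 hu).trans e)
      · intro hu
        exact act_eq_some.2 ((act_eq_some.1 hu).trans e.symm)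
    exact this

theorem exc_act {α : ℕ → ℕ} {c : ℤ} (hs : Shift α c) {s t : Sj} (h : act α s = some t) :
    exc t = exc s - c := by
  apply exc_unique
  rw [act_eq_some.1 h]
  obtain ⟨N, hN⟩ := exc_spec s
  obtain ⟨M, hM⟩ := hs
  refine ⟨M + N + c.natAbs, fun i hi => ?_⟩
  have h1 := hM i (by omega)
  have h2 := hN (α i) (by omega)
  simp only [Function.comp_apply]
  omega

private theorem dl_mono (i : ℕ) : Monotone (dl i) := by
  intro a b hab
  unfold dl
  split_ifs <;> omega

private theorem sg_mono (i : ℕ) : Monotone (sg i) := by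
  intro a b hab
  unfold sg
  split_ifs <;> omega

private theorem th_mono (i : ℕ) : Monotone (th i) := by
  intro a b hab
  unfold th
  split_ifs <;> omega

private theorem dl_shift (i : ℕ) : Shift (dl i) 1 := by
  refine ⟨i, fun j hj => ?_⟩
  unfold dl
  rw [if_neg (by omega)]
  push_cast
  rfl

private theorem sg_shift (i : ℕ) : Shift (sg i) (-1) := by
  refine ⟨i + 1, fun j hj => ?_⟩
  unfold sg
  rw [if_neg (by omega)]
  omega

private theorem th_shift (i : ℕ) : Shift (th i) (-1) := by
  refine ⟨i + 2, fun j hj => ?_⟩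
  unfold th
  rw [if_neg (by omega)]
  omega

private theorem act_bind2 {α β α' β' : ℕ → ℕ} {c c' : ℤ} (hα : Monotone α) (hs : Shift α c)
    (hα' : Monotone α') (hs' : Shift α' c') (s : Sj) (h : ∀ x, α (β x) = α' (β' x)) :
    (act α s).bind (act β) = (act α' s).bind (act β') := by
  rw [act_bind hα hs, act_bind hα' hs']
  congr 1
  funext x
  exact h x

theorem exc_fa {c i : ℕ} {s t : Sj} (h : fa c i s = some t) : exc t = exc s - 1 :=
  exc_act (dl_shift _) h

theorem exc_sg {i : ℕ} {s t : Sj} (h : act (sg i) s = some t) : exc t = exc s + 1 := by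
  rw [exc_act (sg_shift _) h]
  ring

theorem exc_th {i : ℕ} {s t : Sj} (h : act (th i) s = some t) : exc t = exc s + 1 := by
  rw [exc_act (th_shift _) h]
  ring

theorem act_sg_isSome (i : ℕ) (s : Sj) : ∃ t, act (sg i) s = some t := by
  rcases h : act (sg i) s with _ | t
  · exfalso
    apply act_none (sg_mono i) (sg_shift i) h
    intro v
    obtain ⟨j, hj⟩ := s.2.2.1 v
    refine ⟨dl i j, ?_⟩
    have e : sg i (dl i j) = j := by
      unfold sg dl
      split_ifs <;> omega
    simp only [Function.comp_apply]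
    rw [e, hj]
  · exact ⟨t, rfl⟩

theorem LFz_fa (c : ℕ) : LFz (fa c) := by
  intro s
  obtain ⟨N, hN⟩ := exc_spec s
  refine ⟨N + 1, fun i hi => ?_⟩
  apply act_eq_none
  intro hsur
  obtain ⟨j, hj⟩ := hsur (s.1 (i + c))
  simp only [Function.comp_apply] at hj
  have h0 := hN (i + c) (by omega)
  unfold dl at hj
  split_ifs at hj with hlt
  · have h1 := hN (i + c - 1) (by omega)
    have h2 := s.2.1 (show j ≤ i + c - 1 by omega)
    omega
  · have h1 := hN (j + 1) (by omega)
    omega

private theorem th_le {i : ℕ} {s : Sj} (h : Function.Surjective (s.1 ∘ th i)) :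
    s.1 (i + 1) ≤ 1 := by
  obtain ⟨j, hj⟩ := h 1
  simp only [Function.comp_apply] at hj
  unfold th at hj
  split_ifs at hj with hlt
  · rw [s.zero] at hj
    omega
  · have := s.2.1 (show i + 1 ≤ j - 1 by omega)
    omega

theorem LFz_th : LFz fun i => act (th i) := by
  intro s
  obtain ⟨N, hN⟩ := exc_spec s
  refine ⟨N + (exc s).natAbs + 2, fun i hi => ?_⟩
  apply act_eq_none
  intro hsur
  have h1 := th_le hsur
  have h2 := hN (i + 1) (by omega)
  omega

theorem act_th_le {i : ℕ} {s t : Sj} (h : act (th i) s = some t) : s.1 (i + 1) ≤ 1 := by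
  apply th_le
  rw [← act_eq_some.1 h]
  exact t.2.2.1

theorem fa_fa (c : ℕ) {i j : ℕ} (h : i ≤ j) (s : Sj) :
    (fa c (j + 1) s).bind (fa c i) = (fa c i s).bind (fa c j) := by
  refine act_bind2 (dl_mono _) (dl_shift _) (dl_mono _) (dl_shift _) s fun x => ?_
  unfold dl
  split_ifs <;> omega

/-! Contraction of the path object. -/

theorem th_h0 (s : Sj) : (act (th 0) s).bind (fa 1 0) = some s := by
  rw [fa, act_bind (th_mono _) (th_shift _)]
  rw [act_eq_some]
  have e : th 0 ∘ dl (0 + 1) = id := by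
    funext x
    simp only [Function.comp_apply, id_eq]
    unfold th dl
    split_ifs <;> omega
  rw [e]
  rfl

theorem th_h1 {i j : ℕ} (h : i ≤ j) (s : Sj) :
    (act (th (j + 1)) s).bind (fa 1 i) = (fa 1 i s).bind (act (th j)) := by
  refine act_bind2 (th_mono _) (th_shift _) (dl_mono _) (dl_shift _) s fun x => ?_
  unfold th dl
  split_ifs <;> omega

theorem th_h2 (j : ℕ) (s : Sj) :
    (act (th (j + 1)) s).bind (fa 1 (j + 1)) = (act (th j) s).bind (fa 1 (j + 1)) := by
  refine act_bind2 (th_mono _) (th_shift _) (th_mono _) (th_shift _) s fun x => ?_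
  unfold th dl
  split_ifs <;> omega

theorem th_h3 {i j : ℕ} (h : j < i) (s : Sj) :
    (act (th j) s).bind (fa 1 (i + 1)) = (fa 1 i s).bind (act (th j)) := by
  refine act_bind2 (th_mono _) (th_shift _) (dl_mono _) (dl_shift _) s fun x => ?_
  unfold th dl
  split_ifs <;> omega

/-! Degeneracies (for the faces `fa c`). -/

private theorem sg_id {α β : ℕ → ℕ} {c : ℤ} (hα : Monotone α) (hs : Shift α c) (s : Sj)
    (h : ∀ x, α (β x) = x) : (act α s).bind (act β) = some s := by
  rw [act_bind hα hs, act_eq_some]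
  have e : α ∘ β = id := by
    funext x
    exact h x
  rw [e]
  rfl

theorem sg_eq (c j : ℕ) (s : Sj) : (act (sg (j + c)) s).bind (fa c j) = some s := by
  refine sg_id (sg_mono _) (sg_shift _) s fun x => ?_
  unfold sg dl
  split_ifs <;> omega

theorem sg_succ (c j : ℕ) (s : Sj) : (act (sg (j + c)) s).bind (fa c (j + 1)) = some s := by
  refine sg_id (sg_mono _) (sg_shift _) s fun x => ?_
  unfold sg dl
  split_ifs <;> omega

theorem sg_lt (c : ℕ) {i j : ℕ} (h : i ≤ j) (s : Sj) :
    (act (sg (j + 1 + c)) s).bind (fa c i) = (fa c i s).bind (act (sg (j + c))) := by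
  refine act_bind2 (sg_mono _) (sg_shift _) (dl_mono _) (dl_shift _) s fun x => ?_
  unfold sg dl
  split_ifs <;> omega

theorem sg_gt (c : ℕ) {i j : ℕ} (h : j < i) (s : Sj) :
    (act (sg (j + c)) s).bind (fa c (i + 1)) = (fa c i s).bind (act (sg (j + c))) := by
  refine act_bind2 (sg_mono _) (sg_shift _) (dl_mono _) (dl_shift _) s fun x => ?_
  unfold sg dl
  split_ifs <;> omega

end BPN.E
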