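import Pool.Agent.BPN.EOut

/-!
# Part (E), module Tot: the cohomology ring of a simplicial set (project BPN, architect helper30)

`TC p X` : total normalised cochains with values in `ZMod p` (one cochain in every degree), a ring under the
cup product; `TC.d` : the coboundary; `ZR` : the subring of cocycles; `HR p X` : the cohomology ring (product
over all degrees); `tot`, `cl` : classes of cocycles; `TC.pull`, `HR.pull` : functoriality.

PROOFS.
* `mul` is normalised: for a degenerate simplex `dg i σ` and every `a`, either the front face (if `i < a`) or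
  the back face (if `a ≤ i`) is degenerate.
* Ring axioms: for `σ ∈ X_n` let `M_x(σ)` be the matrix over `Fin (n+1)` with entry
  `x.c (j - i) (σ restricted to the interval [i, j])` for `i ≤ j` and `0` otherwise.  Then `M_{x*y} = M_x M_y`,
  `M_1 = 1` and `x.c n σ = M_x(σ)_{0,n}`; so associativity etc. follow from the matrix ring
  (`Function.Injective.ring` or directly).
* `TC.d_mul`: `δ(xy) = δx · y + ε(x) δy` with `(ε x).c n = (-1)^n x.c n`: the usual computation.
-/

namespace BPN.E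

open CategoryTheory SSet Simplicial Opposite

/-- Front face of dimension `a`. -/
def fr (X : SSet.{0}) {a n : ℕ} (h : a ≤ n) (σ : X.obj (op ⦋n⦌)) : X.obj (op ⦋a⦌) :=
  opr X id monotone_id (fun _ hi => le_trans hi h) σ

/-- The face `a, a+1, .., a+b`. -/
def bk (X : SSet.{0}) (a : ℕ) {b n : ℕ} (h : a + b ≤ n) (σ : X.obj (op ⦋n⦌)) : X.obj (op ⦋b⦌) :=
  opr X (fun i => i + a) (fun _ _ hij => Nat.add_le_add_right hij a) (fun i hi => by omega) σ

private theorem fr_opr (X : SSet.{0}) {a m n : ℕ} (h : a ≤ m) {f : ℕ → ℕ} (hf : Monotone f)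
    (hb : ∀ i, i ≤ m → f i ≤ n) (σ : X.obj (op ⦋n⦌)) :
    fr X h (opr X f hf hb σ) = opr X f hf (fun i hi => hb i (hi.trans h)) σ := by
  unfold fr
  rw [opr_opr]
  rfl

private theorem addR_mono {f : ℕ → ℕ} (hf : Monotone f) (a : ℕ) : Monotone fun i => f (i + a) :=
  fun _ _ h => hf (Nat.add_le_add_right h a)

private theorem bk_opr (X : SSet.{0}) (a : ℕ) {b m n : ℕ} (h : a + b ≤ m) {f : ℕ → ℕ}
    (hf : Monotone f) (hb : ∀ i, i ≤ m → f i ≤ n) (σ : X.obj (op ⦋n⦌)) :
    bk X a h (opr X f hf hb σ) =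
      opr X (fun i => f (i + a)) (addR_mono hf a) (fun i hi => hb _ (by omega)) σ := by
  unfold bk
  rw [opr_opr]
  rfl

/-- Total normalised cochains. -/
@[ext] structure TC (p : ℕ) (X : SSet.{0}) where
  c : ∀ n : ℕ, X.obj (op ⦋n⦌) → ZMod p
  nrm : ∀ n, c n ∈ CoC X (ZMod p) n

namespace TC

variable {p : ℕ} {X Y W : SSet.{0}}

instance : Zero (TC p X) := ⟨⟨fun _ => 0, fun n => (CoC X (ZMod p) n).zero_mem⟩⟩

instance : Add (TC p X) := ⟨fun x y => ⟨fun n => x.c n + y.c n, fun n =>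
  (CoC X (ZMod p) n).add_mem (x.nrm n) (y.nrm n)⟩⟩

instance : Neg (TC p X) := ⟨fun x => ⟨fun n => -x.c n, fun n =>
  (CoC X (ZMod p) n).neg_mem (x.nrm n)⟩⟩

instance : Sub (TC p X) := ⟨fun x y => ⟨fun n => x.c n - y.c n, fun n =>
  (CoC X (ZMod p) n).sub_mem (x.nrm n) (y.nrm n)⟩⟩

instance : One (TC p X) := ⟨⟨fun n _ => if n = 0 then 1 else 0, by
  intro n i a h hi τ
  exact if_neg (by omega)⟩⟩

instance : Mul (TC p X) := ⟨fun x y => ⟨fun n σ => ∑ a : Fin (n + 1),
  x.c a (fr X (Nat.le_of_lt_succ a.2) σ) *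
    y.c (n - a) (bk X a (show (a : ℕ) + (n - a) ≤ n by omega) σ), by
  intro n i t h hi τ
  refine Finset.sum_eq_zero fun a _ => ?_
  unfold dg
  rw [fr_opr, bk_opr]
  rcases lt_or_ge i (a : ℕ) with h1 | h1
  · rw [CoC.opr_eq_zero (x.nrm a) _ _ _ (a := i) h1 (by unfold sg; split_ifs <;> omega), zero_mul]
  · rw [CoC.opr_eq_zero (y.nrm (n - a)) _ _ _ (a := i - a) (by omega)
      (by simp only [sg]; split_ifs <;> omega), mul_zero]⟩⟩

private theorem mul_c' (x y : TC p X) (n : ℕ) (σ : X.obj (op ⦋n⦌)) : (x * y).c n σ =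
  ∑ a : Fin (n + 1), x.c a (fr X (Nat.le_of_lt_succ a.2) σ) *
    y.c (n - a) (bk X a (show (a : ℕ) + (n - a) ≤ n by omega) σ) := rfl

open Classical in
/-- The value on the face given by a monotone function. -/
private noncomputable def ev (x : TC p X) {n : ℕ} (σ : X.obj (op ⦋n⦌)) (f : ℕ → ℕ) (a : ℕ) :
    ZMod p := if h : Monotone f ∧ ∀ i, i ≤ a → f i ≤ n then x.c a (opr X f h.1 h.2 σ) else 0

private theorem ev_pos (x : TC p X) {n : ℕ} (σ : X.obj (op ⦋n⦌)) {f : ℕ → ℕ} {a : ℕ}
    (hf : Monotone f) (hb : ∀ i, i ≤ a → f i ≤ n) : ev x σ f a = x.c a (opr X f hf hb σ) :=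
  dif_pos ⟨hf, hb⟩

private theorem ev_congr (x : TC p X) {n : ℕ} (σ : X.obj (op ⦋n⦌)) {f g : ℕ → ℕ} {a : ℕ}
    (hf : Monotone f) (hg : Monotone g) (h : ∀ i, i ≤ a → f i = g i) :
    ev x σ f a = ev x σ g a := by
  by_cases hb : ∀ i, i ≤ a → f i ≤ n
  · have hb' : ∀ i, i ≤ a → g i ≤ n := fun i hi => by
      rw [← h i hi]
      exact hb i hi
    rw [ev_pos x σ hf hb, ev_pos x σ hg hb', opr_congr X hf hg hb hb' h]
  · have hb' : ¬ ∀ i, i ≤ a → g i ≤ n := fun h1 => hb fun i hi => by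
      rw [h i hi]
      exact h1 i hi
    unfold ev
    rw [dif_neg (fun h1 => hb h1.2), dif_neg (fun h1 => hb' h1.2)]

private theorem ev_id (x : TC p X) {n : ℕ} (σ : X.obj (op ⦋n⦌)) : ev x σ id n = x.c n σ := by
  rw [ev_pos x σ monotone_id (fun _ h => h), opr_id]

private theorem ev_ext {x y : TC p X}
    (h : ∀ (n : ℕ) (σ : X.obj (op ⦋n⦌)), ev x σ id n = ev y σ id n) : x = y :=
  TC.ext (funext fun n => funext fun σ => by rw [← ev_id, ← ev_id, h n σ])

private theorem ev_mul (x y : TC p X) {n : ℕ} (σ : X.obj (op ⦋n⦌)) {f : ℕ → ℕ} {m : ℕ}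
    (hf : Monotone f) (hb : ∀ i, i ≤ m → f i ≤ n) : ev (x * y) σ f m =
      ∑ a ∈ Finset.range (m + 1), ev x σ f a * ev y σ (fun i => f (i + a)) (m - a) := by
  rw [ev_pos _ σ hf hb, mul_c', Finset.sum_range]
  refine Finset.sum_congr rfl fun a _ => ?_
  rw [fr_opr, bk_opr, ev_pos x σ hf (fun i hi => hb i (by omega)),
    ev_pos y σ (addR_mono hf a) (fun i hi => hb _ (by omega))]

private theorem ev_add (x y : TC p X) {n : ℕ} (σ : X.obj (op ⦋n⦌)) (f : ℕ → ℕ) (m : ℕ) :
    ev (x + y) σ f m = ev x σ f m + ev y σ f m := by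
  unfold ev
  split_ifs
  · rfl
  · rw [add_zero]

private theorem ev_one {n : ℕ} (σ : X.obj (op ⦋n⦌)) {f : ℕ → ℕ} {m : ℕ}
    (hf : Monotone f) (hb : ∀ i, i ≤ m → f i ≤ n) :
    ev (1 : TC p X) σ f m = if m = 0 then 1 else 0 := by
  rw [ev_pos _ σ hf hb]
  rfl

private theorem tc_mul_assoc (x y z : TC p X) : x * y * z = x * (y * z) := by
  refine ev_ext fun n σ => ?_
  have hid : ∀ i, i ≤ n → id i ≤ n := fun _ h => h
  rw [ev_mul _ _ σ monotone_id hid, ev_mul _ _ σ monotone_id hid]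
  obtain ⟨F, hF⟩ : ∃ F : ℕ → ℕ → ZMod p, F = fun a c => ev x σ id a *
    (ev y σ (fun i => i + a) c * ev z σ (fun i => i + (a + c)) (n - (a + c))) := ⟨_, rfl⟩
  have hF' : ∀ a c, F a c = ev x σ id a *
    (ev y σ (fun i => i + a) c * ev z σ (fun i => i + (a + c)) (n - (a + c))) := fun a c => by
      rw [hF]
  have h1 : ∀ b ∈ Finset.range (n + 1), ev (x * y) σ id b * ev z σ (fun i => id (i + b)) (n - b) =
      ∑ a ∈ Finset.range (b + 1), F a (b - a) := by
    intro b hb
    rw [Finset.mem_range] at hb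
    rw [ev_mul _ _ σ monotone_id (fun i hi => by simp only [id]; omega), Finset.sum_mul]
    refine Finset.sum_congr rfl fun a ha => ?_
    rw [Finset.mem_range] at ha
    rw [hF', show a + (b - a) = b by omega, mul_assoc]
    rfl
  have h2 : ∀ a ∈ Finset.range (n + 1), ev x σ id a * ev (y * z) σ (fun i => id (i + a)) (n - a) =
      ∑ c ∈ Finset.range (n + 1 - a), F a c := by
    intro a ha
    rw [Finset.mem_range] at ha
    rw [ev_mul _ _ σ (addR_mono monotone_id a) (fun i hi => by simp only [id]; omega),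
      Finset.mul_sum, show n - a + 1 = n + 1 - a by omega]
    refine Finset.sum_congr rfl fun c hc => ?_
    rw [hF', show n - a - c = n - (a + c) by omega]
    have h3 : (fun i => id (i + c + a)) = fun i => i + (a + c) := by
      funext i
      simp only [id]
      omega
    simp only [h3]
    rfl
  rw [Finset.sum_congr rfl h1, Finset.sum_congr rfl h2]
  exact Finset.sum_range_diag_flip (n + 1) F

private theorem tc_one_mul (x : TC p X) : 1 * x = x := by
  refine ev_ext fun n σ => ?_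
  rw [ev_mul _ _ σ monotone_id (fun _ h => h), Finset.sum_range_succ']
  rw [ev_one σ monotone_id (fun i hi => by simp only [id]; omega), if_pos rfl, one_mul]
  rw [Finset.sum_eq_zero, zero_add]
  · rfl
  · intro a ha
    rw [Finset.mem_range] at ha
    rw [ev_one σ monotone_id (fun i hi => by simp only [id]; omega), if_neg (by omega), zero_mul]

private theorem tc_mul_one (x : TC p X) : x * 1 = x := by
  refine ev_ext fun n σ => ?_
  rw [ev_mul _ _ σ monotone_id (fun _ h => h), Finset.sum_range_succ]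
  rw [ev_one σ (addR_mono monotone_id n) (fun i hi => by simp only [id]; omega),
    if_pos (by omega), mul_one]
  rw [Finset.sum_eq_zero, zero_add]
  intro a ha
  rw [Finset.mem_range] at ha
  rw [ev_one σ (addR_mono monotone_id a) (fun i hi => by simp only [id]; omega),
    if_neg (by omega), mul_zero]

private theorem tc_left_distrib (x y z : TC p X) : x * (y + z) = x * y + x * z := by
  refine TC.ext (funext fun n => funext fun σ => ?_)
  change (x * (y + z)).c n σ = (x * y).c n σ + (x * z).c n σ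
  rw [mul_c', mul_c', mul_c', ← Finset.sum_add_distrib]
  exact Finset.sum_congr rfl fun a _ => mul_add _ _ _

private theorem tc_right_distrib (x y z : TC p X) : (x + y) * z = x * z + y * z := by
  refine TC.ext (funext fun n => funext fun σ => ?_)
  change ((x + y) * z).c n σ = (x * z).c n σ + (y * z).c n σ
  rw [mul_c', mul_c', mul_c', ← Finset.sum_add_distrib]
  exact Finset.sum_congr rfl fun a _ => add_mul _ _ _

private theorem tc_zero_mul (x : TC p X) : 0 * x = 0 := by
  refine TC.ext (funext fun n => funext fun σ => ?_)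
  change (0 * x).c n σ = 0
  rw [mul_c']
  exact Finset.sum_eq_zero fun a _ => zero_mul _

private theorem tc_mul_zero (x : TC p X) : x * 0 = 0 := by
  refine TC.ext (funext fun n => funext fun σ => ?_)
  change (x * 0).c n σ = 0
  rw [mul_c']
  exact Finset.sum_eq_zero fun a _ => mul_zero _

instance : Ring (TC p X) where
  add_assoc := fun a b c => TC.ext (funext fun n => add_assoc (a.c n) (b.c n) (c.c n))
  zero_add := fun a => TC.ext (funext fun n => zero_add (a.c n))
  add_zero := fun a => TC.ext (funext fun n => add_zero (a.c n))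
  nsmul := nsmulRec
  add_comm := fun a b => TC.ext (funext fun n => add_comm (a.c n) (b.c n))
  left_distrib := tc_left_distrib
  right_distrib := tc_right_distrib
  zero_mul := tc_zero_mul
  mul_zero := tc_mul_zero
  mul_assoc := tc_mul_assoc
  one_mul := tc_one_mul
  mul_one := tc_mul_one
  zsmul := zsmulRec
  neg_add_cancel := fun a => TC.ext (funext fun n => neg_add_cancel (a.c n))
  sub_eq_add_neg := fun a b => TC.ext (funext fun n => sub_eq_add_neg (a.c n) (b.c n))

@[simp] theorem zero_c (n : ℕ) : (0 : TC p X).c n = 0 := rfl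
@[simp] theorem add_c (x y : TC p X) (n : ℕ) : (x + y).c n = x.c n + y.c n := rfl
@[simp] theorem neg_c (x : TC p X) (n : ℕ) : (-x).c n = -x.c n := rfl
@[simp] theorem sub_c (x y : TC p X) (n : ℕ) : (x - y).c n = x.c n - y.c n := rfl
theorem one_c (n : ℕ) (σ : X.obj (op ⦋n⦌)) : (1 : TC p X).c n σ = if n = 0 then 1 else 0 := rfl
theorem mul_c (x y : TC p X) (n : ℕ) (σ : X.obj (op ⦋n⦌)) : (x * y).c n σ =
  ∑ a : Fin (n + 1), x.c a (fr X (Nat.le_of_lt_succ a.2) σ) *
    y.c (n - a) (bk X a (show (a : ℕ) + (n - a) ≤ n by omega) σ) := rfl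

private theorem cobd_nrm {n : ℕ} {c : X.obj (op ⦋n⦌) → ZMod p} (hc : c ∈ CoC X (ZMod p) n) :
    cobd (rfl : n + 1 = n + 1) c ∈ CoC X (ZMod p) (n + 1) := by
  intro i a h hi τ
  obtain rfl : a = n := by omega
  unfold cobd
  have h1 : ∀ j, j ≠ i → j ≠ i + 1 → j ≤ a + 1 → c (fc X j (rfl : a + 1 = a + 1) (dg X i h hi τ)) = 0 := by
    intro j hj1 hj2 hj3
    unfold fc dg
    rw [opr_opr]
    rcases lt_or_ge j i with h2 | h2
    · refine CoC.opr_eq_zero hc _ _ _ (a := i - 1) (by omega) ?_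
      simp only [Function.comp_apply, sg, dl]
      split_ifs <;> omega
    · refine CoC.opr_eq_zero hc _ _ _ (a := i) (by omega) ?_
      simp only [Function.comp_apply, sg, dl]
      split_ifs <;> omega
  have h2 : ∀ j, j = i ∨ j = i + 1 → c (fc X j (rfl : a + 1 = a + 1) (dg X i h hi τ)) = c τ := by
    intro j hj
    unfold fc dg
    rw [opr_opr]
    conv_rhs => rw [← opr_id X (fun _ h => h) τ]
    congr 1
    refine opr_congr X _ _ _ _ (fun t _ => ?_) τ
    simp only [Function.comp_apply, id]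
    rcases hj with rfl | rfl
    · exact sg_dl_eq _ _
    · exact sg_dl_succ _ _
  have h3 : ∀ j ∈ Finset.range (a + 1 + 1), (-1 : ℤ) ^ j •
      c (fc X j (rfl : a + 1 = a + 1) (dg X i h hi τ)) =
      (if j = i then (-1 : ℤ) ^ i • c τ else 0) + (if j = i + 1 then (-1 : ℤ) ^ (i + 1) • c τ
        else 0) := by
    intro j hj
    rw [Finset.mem_range] at hj
    by_cases h4 : j = i
    · rw [h2 j (Or.inl h4), if_pos h4, if_neg (by omega), add_zero, h4]
    · by_cases h5 : j = i + 1
      · rw [h2 j (Or.inr h5), if_neg h4, if_pos h5, zero_add, h5]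
      · rw [h1 j h4 h5 (by omega), if_neg h4, if_neg h5, smul_zero, add_zero]
  rw [Finset.sum_congr rfl h3, Finset.sum_add_distrib, Finset.sum_ite_eq', Finset.sum_ite_eq',
    if_pos (Finset.mem_range.2 (by omega)), if_pos (Finset.mem_range.2 (by omega)), pow_succ]
  simp

/-- The coboundary. -/
def d (x : TC p X) : TC p X where
  c := fun n => match n with
    | 0 => 0
    | n + 1 => cobd (rfl : n + 1 = n + 1) (x.c n)
  nrm := by
    intro n
    cases n with
    | zero => exact (CoC X (ZMod p) 0).zero_mem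
    | succ n => exact cobd_nrm (x.nrm n)

@[simp] theorem d_zero_c (x : TC p X) : x.d.c 0 = 0 := rfl
@[simp] theorem d_succ_c (x : TC p X) (n : ℕ) : x.d.c (n + 1) = cobd rfl (x.c n) := rfl

/-- The grading involution. -/
def eps (x : TC p X) : TC p X where
  c := fun n => (-1 : ℤ) ^ n • x.c n
  nrm := fun n => (CoC X (ZMod p) n).zsmul_mem (x.nrm n) _

theorem d_add (x y : TC p X) : (x + y).d = x.d + y.d := by
  refine TC.ext (funext fun n => funext fun σ => ?_)
  cases n with
  | zero => exact (add_zero 0).symm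
  | succ n =>
    change cobd rfl (x.c n + y.c n) σ = cobd rfl (x.c n) σ + cobd rfl (y.c n) σ
    unfold cobd
    rw [← Finset.sum_add_distrib]
    exact Finset.sum_congr rfl fun i _ => smul_add _ _ _

theorem d_neg (x : TC p X) : (-x).d = -x.d := by
  refine TC.ext (funext fun n => funext fun σ => ?_)
  cases n with
  | zero => exact neg_zero.symm
  | succ n =>
    change cobd rfl (-x.c n) σ = -cobd rfl (x.c n) σ
    unfold cobd
    rw [← Finset.sum_neg_distrib]
    exact Finset.sum_congr rfl fun i _ => smul_neg _ _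

theorem d_sub (x y : TC p X) : (x - y).d = x.d - y.d := by
  rw [sub_eq_add_neg, d_add, d_neg, ← sub_eq_add_neg]

theorem d_zero : (0 : TC p X).d = 0 := by
  have h := d_sub (0 : TC p X) 0
  rwa [sub_self, sub_self] at h

theorem d_one : (1 : TC p X).d = 0 := by
  refine TC.ext (funext fun n => funext fun σ => ?_)
  cases n with
  | zero => rfl
  | succ n =>
    change ∑ i ∈ Finset.range (n + 1 + 1), (-1 : ℤ) ^ i • (if n = 0 then (1 : ZMod p) else 0) = 0
    by_cases hn : n = 0
    · subst hn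
      rw [if_pos rfl, Finset.sum_range_succ, Finset.sum_range_succ, Finset.sum_range_zero]
      simp
    · rw [if_neg hn]
      exact Finset.sum_eq_zero fun i _ => smul_zero _

private theorem ev_d (x : TC p X) {n : ℕ} (σ : X.obj (op ⦋n⦌)) {f : ℕ → ℕ} {m : ℕ}
    (hf : Monotone f) (hb : ∀ i, i ≤ m + 1 → f i ≤ n) : ev x.d σ f (m + 1) =
      ∑ i ∈ Finset.range (m + 1 + 1), (-1) ^ i * ev x σ (fun t => f (dl i t)) m := by
  rw [ev_pos _ σ hf hb, d_succ_c]
  unfold cobd
  refine Finset.sum_congr rfl fun i _ => ?_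
  rw [ev_pos x σ (f := fun t => f (dl i t)) (hf.comp (dl_strictMono i).monotone)
    (fun t ht => hb _ (dl_bd i rfl t ht))]
  unfold fc
  rw [opr_opr, zsmul_eq_mul]
  push_cast
  rfl

private theorem ev_d_zero (x : TC p X) {n : ℕ} (σ : X.obj (op ⦋n⦌)) (f : ℕ → ℕ) :
    ev x.d σ f 0 = 0 := by
  unfold ev
  split_ifs
  · rfl
  · rfl

private theorem dd_sum (F : ℕ → ℕ → ZMod p) (hF : ∀ i j, i ≤ j → F (j + 1) i = F i j) (N : ℕ) :
    ∑ i ∈ Finset.range (N + 1), (-1) ^ i * ∑ j ∈ Finset.range N, (-1) ^ j * F i j = 0 := by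
  induction N with
  | zero => simp
  | succ N ih =>
    have h1 : ∀ i ∈ Finset.range (N + 1), (-1 : ZMod p) ^ i *
        ∑ j ∈ Finset.range (N + 1), (-1) ^ j * F i j =
        (-1) ^ i * ∑ j ∈ Finset.range N, (-1) ^ j * F i j + (-1) ^ i * ((-1) ^ N * F i N) := by
      intro i _
      rw [Finset.sum_range_succ, mul_add]
    rw [Finset.sum_range_succ, Finset.sum_congr rfl h1, Finset.sum_add_distrib, ih, zero_add,
      Finset.mul_sum, ← Finset.sum_add_distrib]
    refine Finset.sum_eq_zero fun i hi => ?_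
    rw [Finset.mem_range] at hi
    rw [hF i N (by omega), pow_succ]
    ring

theorem d_d (x : TC p X) : x.d.d = 0 := by
  refine ev_ext fun n σ => ?_
  have h0 : ev (0 : TC p X) σ id n = 0 := by
    rw [ev_id]
    rfl
  rw [h0]
  rcases n with _ | _ | n
  · exact ev_d_zero _ _ _
  · rw [ev_d _ σ monotone_id (fun _ h => h)]
    refine Finset.sum_eq_zero fun i _ => ?_
    rw [ev_d_zero, mul_zero]
  · rw [ev_d _ σ monotone_id (fun _ h => h)]
    have h1 : ∀ i ∈ Finset.range (n + 1 + 1 + 1), (-1 : ZMod p) ^ i *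
        ev x.d σ (fun t => id (dl i t)) (n + 1) = (-1) ^ i * ∑ j ∈ Finset.range (n + 1 + 1),
          (-1) ^ j * ev x σ (fun t => dl i (dl j t)) n := by
      intro i hi
      rw [Finset.mem_range] at hi
      rw [ev_d x σ (f := fun t => id (dl i t)) (dl_strictMono i).monotone
        (fun t ht => dl_bd i rfl t ht)]
      rfl
    rw [Finset.sum_congr rfl h1]
    refine dd_sum (fun i j => ev x σ (fun t => dl i (dl j t)) n) (fun i j hij => ?_) (n + 1 + 1)
    have h2 : (fun t => dl (j + 1) (dl i t)) = fun t => dl i (dl j t) :=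
      funext fun t => dl_dl hij t
    simp only [h2]

private theorem ev_eps (x : TC p X) {n : ℕ} (σ : X.obj (op ⦋n⦌)) (f : ℕ → ℕ) (m : ℕ) :
    ev x.eps σ f m = (-1) ^ m * ev x σ f m := by
  unfold ev
  split_ifs with h
  · change (-1 : ℤ) ^ m • x.c m _ = _
    rw [zsmul_eq_mul]
    push_cast
    rfl
  · rw [mul_zero]

theorem d_mul (x y : TC p X) : (x * y).d = x.d * y + x.eps * y.d := by
  refine ev_ext fun n σ => ?_
  rw [ev_add]
  rcases n with _ | n
  · rw [ev_d_zero, ev_mul _ _ σ monotone_id (fun _ h => h), ev_mul _ _ σ monotone_id (fun _ h => h),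
      Finset.sum_range_one, Finset.sum_range_one, ev_d_zero, zero_mul, Nat.sub_zero, ev_d_zero,
      mul_zero, add_zero]
  rw [ev_d _ σ monotone_id (fun _ h => h), ev_mul _ _ σ monotone_id (fun _ h => h),
    ev_mul _ _ σ monotone_id (fun _ h => h)]
  -- the first term on the right
  rw [Finset.sum_range_succ' (fun a => ev x.d σ id a * ev y σ (fun i => id (i + a)) (n + 1 - a)),
    ev_d_zero, zero_mul, add_zero]
  -- the second term on the right
  rw [Finset.sum_range_succ
    (fun a => ev x.eps σ id a * ev y.d σ (fun i => id (i + a)) (n + 1 - a)), Nat.sub_self,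
    ev_d_zero, mul_zero, add_zero, ← Finset.sum_add_distrib]
  -- the left side
  have hL : ∀ i ∈ Finset.range (n + 1 + 1), (-1 : ZMod p) ^ i *
      ev (x * y) σ (fun t => id (dl i t)) n = ∑ a ∈ Finset.range (n + 1),
        (-1) ^ i * (ev x σ (dl i) a * ev y σ (fun t => dl i (t + a)) (n - a)) := by
    intro i hi
    rw [ev_mul x y σ (f := fun t => id (dl i t)) (dl_strictMono i).monotone
      (fun t ht => dl_bd i rfl t ht), Finset.mul_sum]
    rfl
  rw [Finset.sum_congr rfl hL, Finset.sum_comm]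
  refine Finset.sum_congr rfl fun a ha => ?_
  rw [Finset.mem_range] at ha
  rw [ev_eps, show n + 1 - a = (n - a) + 1 by omega,
    ev_d y σ (f := fun i => id (i + a)) (addR_mono monotone_id a)
      (fun i hi => by simp only [id]; omega),
    ev_d x σ monotone_id (fun i hi => by simp only [id]; omega)]
  obtain ⟨P, hP⟩ : ∃ P, P = ev x σ id a := ⟨_, rfl⟩
  obtain ⟨Q, hQ⟩ : ∃ Q, Q = ev y σ (fun i => i + (a + 1)) (n - a) := ⟨_, rfl⟩
  obtain ⟨D, hD⟩ : ∃ D : ℕ → ZMod p, D = fun j => ev y σ (fun t => dl j t + a) (n - a) :=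
    ⟨_, rfl⟩
  have e1 : n + 1 - (a + 1) = n - a := by omega
  have e2 : ev y σ (fun i => id (i + (a + 1))) (n + 1 - (a + 1)) = Q := by
    rw [e1, hQ]
    rfl
  have e3 : ∀ i, i ≤ a → ev y σ (fun t => dl i (t + a)) (n - a) = Q := by
    intro i hi
    rw [hQ]
    refine ev_congr y σ (addR_mono (dl_strictMono i).monotone a)
      (fun _ _ h => Nat.add_le_add_right h _) fun t _ => ?_
    simp only [dl]
    rw [if_neg (by omega)]
    omega
  have e4 : ∀ i, a < i → ev x σ (dl i) a = P := by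
    intro i hi
    rw [hP]
    refine ev_congr x σ (dl_strictMono i).monotone monotone_id fun t ht => ?_
    simp only [dl, id]
    rw [if_pos (by omega)]
  have e5 : ∀ i, a < i → ev y σ (fun t => dl i (t + a)) (n - a) = D (i - a) := by
    intro i hi
    rw [hD]
    refine ev_congr y σ (addR_mono (dl_strictMono i).monotone a)
      (fun _ _ h => Nat.add_le_add_right ((dl_strictMono _).monotone h) _) fun t _ => ?_
    simp only [dl]
    split_ifs <;> omega
  have e6 : D 0 = Q := by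
    rw [hD, hQ]
    refine ev_congr y σ (fun _ _ h => Nat.add_le_add_right ((dl_strictMono _).monotone h) _)
      (fun _ _ h => Nat.add_le_add_right h _) fun t _ => ?_
    simp only [dl]
    rw [if_neg (by omega)]
    omega
  have e7 : ∑ i ∈ Finset.range (n - a + 1 + 1), (-1 : ZMod p) ^ i *
      ev y σ (fun t => id (dl i t + a)) (n - a) =
      ∑ i ∈ Finset.range (n - a + 1), (-1) ^ (i + 1) * D (i + 1) + Q := by
    rw [Finset.sum_range_succ', ← e6, hD]
    simp only [pow_zero, one_mul]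
    rfl
  have e8 : ∑ i ∈ Finset.range (a + 1 + 1), (-1 : ZMod p) ^ i * ev x σ (fun t => id (dl i t)) a =
      ∑ i ∈ Finset.range (a + 1), (-1) ^ i * ev x σ (dl i) a + (-1) ^ (a + 1) * P := by
    rw [Finset.sum_range_succ, ← e4 (a + 1) (by omega)]
    rfl
  rw [e2, e7, e8, show n + 1 + 1 = (a + 1) + (n - a + 1) by omega, Finset.sum_range_add]
  have e9 : ∑ i ∈ Finset.range (a + 1), (-1 : ZMod p) ^ i *
      (ev x σ (dl i) a * ev y σ (fun t => dl i (t + a)) (n - a)) =
      (∑ i ∈ Finset.range (a + 1), (-1) ^ i * ev x σ (dl i) a) * Q := by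
    rw [Finset.sum_mul]
    refine Finset.sum_congr rfl fun i hi => ?_
    rw [Finset.mem_range] at hi
    rw [e3 i (by omega), mul_assoc]
  have e10 : ∑ i ∈ Finset.range (n - a + 1), (-1 : ZMod p) ^ (a + 1 + i) *
      (ev x σ (dl (a + 1 + i)) a * ev y σ (fun t => dl (a + 1 + i) (t + a)) (n - a)) =
      (-1) ^ a * P * ∑ i ∈ Finset.range (n - a + 1), (-1) ^ (i + 1) * D (i + 1) := by
    rw [Finset.mul_sum]
    refine Finset.sum_congr rfl fun i _ => ?_
    rw [e4 _ (by omega), e5 _ (by omega), show a + 1 + i - a = i + 1 by omega,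
      show a + 1 + i = a + (i + 1) by omega, pow_add]
    ring
  rw [e9, e10, ← hP, pow_succ]
  ring

theorem d_eps (x : TC p X) : x.eps.d = -x.d.eps := by
  refine TC.ext (funext fun n => funext fun σ => ?_)
  cases n with
  | zero =>
    change (0 : ZMod p) = -((-1 : ℤ) ^ 0 • (0 : ZMod p))
    rw [smul_zero, neg_zero]
  | succ n =>
    change cobd rfl ((-1 : ℤ) ^ n • x.c n) σ = -((-1 : ℤ) ^ (n + 1) • cobd rfl (x.c n) σ)
    unfold cobd
    rw [Finset.smul_sum, ← Finset.sum_neg_distrib]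
    refine Finset.sum_congr rfl fun i _ => ?_
    change (-1 : ℤ) ^ i • ((-1 : ℤ) ^ n • x.c n _) = _
    rw [pow_succ, mul_neg_one, neg_smul, neg_neg, smul_comm]

theorem eps_eps (x : TC p X) : x.eps.eps = x := by
  refine TC.ext (funext fun n => funext fun σ => ?_)
  change (-1 : ℤ) ^ n • ((-1 : ℤ) ^ n • x.c n σ) = x.c n σ
  rw [smul_smul, ← mul_pow]
  simp

theorem eps_add (x y : TC p X) : (x + y).eps = x.eps + y.eps := by
  refine TC.ext (funext fun n => funext fun σ => ?_)
  exact smul_add ((-1 : ℤ) ^ n) (x.c n σ) (y.c n σ)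

theorem eps_mul (x y : TC p X) : (x * y).eps = x.eps * y.eps := by
  refine ev_ext fun n σ => ?_
  rw [ev_eps, ev_mul _ _ σ monotone_id (fun _ h => h), ev_mul _ _ σ monotone_id (fun _ h => h),
    Finset.mul_sum]
  refine Finset.sum_congr rfl fun a ha => ?_
  rw [Finset.mem_range] at ha
  rw [ev_eps, ev_eps]
  have h1 : (-1 : ZMod p) ^ n = (-1) ^ a * (-1) ^ (n - a) := by
    rw [← pow_add]
    congr 1
    omega
  rw [h1]
  ring

private theorem app_opr (f : X ⟶ Y) {g : ℕ → ℕ} (hg : Monotone g) {a b : ℕ}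
    (hb : ∀ i, i ≤ a → g i ≤ b) (σ : X.obj (op ⦋b⦌)) :
    f.app (op ⦋a⦌) (opr X g hg hb σ) = opr Y g hg hb (f.app (op ⦋b⦌) σ) := by
  unfold opr
  exact NatTrans.naturality_apply f _ σ

/-- Pullback along a simplicial map. -/
def pull (f : X ⟶ Y) : TC p Y →+* TC p X where
  toFun := fun x => ⟨fun n σ => x.c n (f.app (op ⦋n⦌) σ), by
    intro n i a h hi τ
    change x.c n (f.app (op ⦋n⦌) (dg X i h hi τ)) = 0
    unfold dg
    rw [app_opr]
    exact x.nrm n i a h hi _⟩
  map_one' := rfl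
  map_mul' := by
    intro x y
    refine TC.ext (funext fun n => funext fun σ => ?_)
    change (x * y).c n (f.app (op ⦋n⦌) σ) = (_ * _ : TC p X).c n σ
    rw [mul_c, mul_c]
    refine Finset.sum_congr rfl fun a _ => ?_
    change _ = x.c a (f.app (op ⦋(a : ℕ)⦌) (fr X _ σ)) * y.c (n - a) (f.app (op ⦋n - a⦌) (bk X a _ σ))
    unfold fr bk
    rw [app_opr, app_opr]
  map_zero' := rfl
  map_add' := fun _ _ => rfl

theorem pull_c (f : X ⟶ Y) (x : TC p Y) (n : ℕ) (σ : X.obj (op ⦋n⦌)) :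
    (pull f x).c n σ = x.c n (f.app (op ⦋n⦌) σ) := rfl

theorem pull_d (f : X ⟶ Y) (x : TC p Y) : (pull f x).d = pull f x.d := by
  refine TC.ext (funext fun n => funext fun σ => ?_)
  cases n with
  | zero => rfl
  | succ n =>
    change ∑ i ∈ Finset.range (n + 1 + 1), (-1 : ℤ) ^ i • x.c n (f.app (op ⦋n⦌) (fc X i rfl σ)) =
      ∑ i ∈ Finset.range (n + 1 + 1), (-1 : ℤ) ^ i • x.c n (fc Y i rfl (f.app (op ⦋n + 1⦌) σ))
    refine Finset.sum_congr rfl fun i _ => ?_
    unfold fc
    rw [app_opr]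

end TC

variable (p : ℕ) (X : SSet.{0})

/-- The subring of cocycles. -/
def ZR : Subring (TC p X) where
  carrier := {x | x.d = 0}
  mul_mem' := fun {a b} ha hb => by
    change (a * b).d = 0
    have ha' : a.d = 0 := ha
    have hb' : b.d = 0 := hb
    rw [TC.d_mul, ha', hb', zero_mul, mul_zero, add_zero]
  one_mem' := TC.d_one
  add_mem' := fun {a b} ha hb => by
    change (a + b).d = 0
    have ha' : a.d = 0 := ha
    have hb' : b.d = 0 := hb
    rw [TC.d_add, ha', hb', add_zero]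
  zero_mem' := TC.d_zero
  neg_mem' := fun {a} ha => by
    change (-a).d = 0
    have ha' : a.d = 0 := ha
    rw [TC.d_neg, ha', neg_zero]

/-- Congruence modulo coboundaries. -/
def bcon : RingCon (ZR p X) where
  r := fun x y => ∃ e : TC p X, x.1 - y.1 = e.d
  iseqv := by
    refine ⟨fun x => ⟨0, ?_⟩, ?_, ?_⟩
    · rw [sub_self, TC.d_zero]
    · rintro x y ⟨e, he⟩
      refine ⟨-e, ?_⟩
      rw [TC.d_neg, ← he, neg_sub]
    · rintro x y z ⟨e, he⟩ ⟨e', he'⟩
      refine ⟨e + e', ?_⟩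
      rw [TC.d_add, ← he, ← he', sub_add_sub_cancel]
  add' := by
    rintro w x y z ⟨e, he⟩ ⟨e', he'⟩
    refine ⟨e + e', ?_⟩
    rw [TC.d_add, ← he, ← he']
    change (w.1 + y.1) - (x.1 + z.1) = _
    abel
  mul' := by
    rintro w x y z ⟨e, he⟩ ⟨e', he'⟩
    refine ⟨e * y.1 + x.1.eps * e', ?_⟩
    have hy : y.1.d = 0 := y.2
    have hx : x.1.d = 0 := x.2
    have h0 : (0 : TC p X).eps = 0 := by
      refine TC.ext (funext fun n => funext fun σ => ?_)
      exact smul_zero ((-1 : ℤ) ^ n)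
    rw [TC.d_add, TC.d_mul, TC.d_mul, hy, mul_zero, add_zero, TC.d_eps, hx, h0, neg_zero, zero_mul,
      zero_add, TC.eps_eps, ← he, ← he', sub_mul, mul_sub]
    change w.1 * y.1 - x.1 * z.1 = _
    abel

/-- The (total) cohomology ring. -/
def HR : Type := (bcon p X).Quotient

instance : Ring (HR p X) := inferInstanceAs (Ring (bcon p X).Quotient)

namespace HR

variable {p X}

/-- The class of a total cocycle. -/
def mk : ZR p X →+* HR p X := (bcon p X).mk'

theorem mk_surj : Function.Surjective (mk (p := p) (X := X)) := (bcon p X).mk'_surjective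

theorem mk_eq {x y : ZR p X} : mk x = mk y ↔ ∃ e : TC p X, x.1 - y.1 = e.d :=
  (bcon p X).eq

theorem mk_eq_zero {x : ZR p X} : mk x = 0 ↔ ∃ e : TC p X, x.1 = e.d := by
  rw [← map_zero mk, mk_eq]
  have h : x.1 - (0 : ZR p X).1 = x.1 := sub_zero _
  rw [h]

/-- The total cocycle with given components. -/
def totZ (c : ∀ m : ℕ, CoZ X (ZMod p) m) : ZR p X :=
  ⟨⟨fun n => (c n).1, fun n => (c n).2.1⟩, by
    refine TC.ext (funext fun n => funext fun σ => ?_)
    cases n with
    | zero => rfl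
    | succ n => exact (c n).2.2 σ⟩

/-- The class with given components. -/
def tot : (∀ m : ℕ, CoZ X (ZMod p) m) →+ HR p X where
  toFun := fun c => mk (totZ c)
  map_zero' := by
    rw [← map_zero mk]
    rfl
  map_add' := fun c c' => by
    rw [← map_add]
    rfl

private theorem tot_apply (c : ∀ m : ℕ, CoZ X (ZMod p) m) : tot c = mk (totZ c) := rfl

theorem tot_surj : Function.Surjective (tot (p := p) (X := X)) := by
  intro h
  obtain ⟨x, rfl⟩ := mk_surj h
  have hx : x.1.d = 0 := x.2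
  refine ⟨fun m => ⟨x.1.c m, x.1.nrm m, fun σ => ?_⟩, ?_⟩
  · have h1 := congrFun (congrFun (congrArg TC.c hx) (m + 1)) σ
    exact h1
  · rw [tot_apply]
    congr 1

theorem tot_eq_zero {c : ∀ m : ℕ, CoZ X (ZMod p) m} : tot c = 0 ↔ ∀ m, IsBd (c m).1 := by
  rw [tot_apply, mk_eq_zero]
  constructor
  · rintro ⟨e, he⟩ m
    have h1 := congrFun (congrArg TC.c he) m
    cases m with
    | zero => exact Or.inl h1
    | succ m => exact Or.inr ⟨m, rfl, e.c m, e.nrm m, h1⟩
  · intro h
    have h1 : ∀ m, ∃ e : X.obj (op ⦋m⦌) → ZMod p, e ∈ CoC X (ZMod p) m ∧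
        (c (m + 1)).1 = cobd rfl e := by
      intro m
      rcases h (m + 1) with h2 | ⟨l, hl, e, he, h2⟩
      · refine ⟨0, (CoC X (ZMod p) m).zero_mem, ?_⟩
        rw [h2]
        funext σ
        exact (Finset.sum_eq_zero fun i _ => smul_zero _).symm
      · obtain rfl : l = m := by omega
        exact ⟨e, he, h2⟩
    choose e he1 he2 using h1
    refine ⟨⟨e, he1⟩, TC.ext (funext fun n => ?_)⟩
    cases n with
    | zero =>
      rcases h 0 with h2 | ⟨l, hl, _⟩
      · exact h2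
      · omega
    | succ n => exact he2 n

theorem tot_eq {c c' : ∀ m : ℕ, CoZ X (ZMod p) m} :
    tot c = tot c' ↔ ∀ m, IsBd ((c m).1 - (c' m).1) := by
  rw [← sub_eq_zero, ← map_sub, tot_eq_zero]
  rfl

/-- The class of a cocycle of degree `m`. -/
def cl (m : ℕ) : CoZ X (ZMod p) m →+ HR p X :=
  tot.comp (AddMonoidHom.single (fun m => CoZ X (ZMod p) m) m)

private theorem cl_apply (m : ℕ) (c : CoZ X (ZMod p) m) : cl m c = tot (Pi.single m c) := rfl

theorem cl_eq_zero {m : ℕ} {c : CoZ X (ZMod p) m} : cl m c = 0 ↔ IsBd c.1 := by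
  rw [cl_apply, tot_eq_zero]
  constructor
  · intro h
    have h1 := h m
    rwa [Pi.single_eq_same] at h1
  · intro h n
    by_cases hn : n = m
    · subst hn
      rwa [Pi.single_eq_same]
    · rw [Pi.single_eq_of_ne hn]
      exact Or.inl rfl

theorem cl_eq {m : ℕ} {c c' : CoZ X (ZMod p) m} : cl m c = cl m c' ↔ IsBd (c.1 - c'.1) := by
  rw [← sub_eq_zero, ← map_sub, cl_eq_zero]
  rfl

/-- Finite sums of homogeneous classes are determined by their components. -/
theorem sum_cl (s : Finset ℕ) (c : ∀ m : ℕ, CoZ X (ZMod p) m) :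
    ∑ m ∈ s, cl m (c m) = tot (fun m => if m ∈ s then c m else 0) := by
  simp only [cl_apply]
  rw [← map_sum]
  congr 1
  funext m
  rw [Finset.sum_apply, Finset.sum_pi_single]

end HR

variable {p X}

theorem isBd_zero {l : ℕ} : IsBd (0 : X.obj (op ⦋l⦌) → ZMod p) := Or.inl rfl

theorem isBd_add {l : ℕ} {x y : X.obj (op ⦋l⦌) → ZMod p} (hx : IsBd x) (hy : IsBd y) :
    IsBd (x + y) := by
  rcases hx with rfl | ⟨m, hm, e, he, rfl⟩
  · rwa [zero_add]
  · rcases hy with rfl | ⟨m', hm', e', he', rfl⟩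
    · rw [add_zero]
      exact Or.inr ⟨m, hm, e, he, rfl⟩
    · obtain rfl : m = m' := by omega
      refine Or.inr ⟨m, hm, e + e', (CoC X (ZMod p) m).add_mem he he', ?_⟩
      funext σ
      change cobd hm e σ + cobd hm e' σ = cobd hm (e + e') σ
      unfold cobd
      rw [← Finset.sum_add_distrib]
      exact Finset.sum_congr rfl fun i _ => (smul_add _ _ _).symm

theorem isBd_neg {l : ℕ} {x : X.obj (op ⦋l⦌) → ZMod p} (hx : IsBd x) : IsBd (-x) := by
  rcases hx with rfl | ⟨m, hm, e, he, rfl⟩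
  · exact Or.inl neg_zero
  · refine Or.inr ⟨m, hm, -e, (CoC X (ZMod p) m).neg_mem he, ?_⟩
    funext σ
    change -cobd hm e σ = cobd hm (-e) σ
    unfold cobd
    rw [← Finset.sum_neg_distrib]
    exact Finset.sum_congr rfl fun i _ => (smul_neg _ _).symm

theorem isBd_sub {l : ℕ} {x y : X.obj (op ⦋l⦌) → ZMod p} (hx : IsBd x) (hy : IsBd y) :
    IsBd (x - y) := by
  rw [sub_eq_add_neg]
  exact isBd_add hx (isBd_neg hy)

private theorem single_c {a : ℕ} (x : CoZ X (ZMod p) a) (n : ℕ) :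
    (HR.totZ (Pi.single a x)).1.c n = ((Pi.single a x : ∀ m : ℕ, CoZ X (ZMod p) m) n).1 := rfl

private theorem single_mul {a b : ℕ} (x : CoZ X (ZMod p) a) (y : CoZ X (ZMod p) b) (n : ℕ)
    (σ : X.obj (op ⦋n⦌)) : ((HR.totZ (Pi.single a x)).1 * (HR.totZ (Pi.single b y)).1).c n σ =
      if h : a + b = n then cup h x.1 y.1 σ else 0 := by
  rw [TC.mul_c]
  by_cases h : a + b = n
  · rw [dif_pos h]
    subst h
    have ha : a < a + b + 1 := by omega
    rw [Finset.sum_eq_single (⟨a, ha⟩ : Fin (a + b + 1))]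
    · have h1 : (HR.totZ (Pi.single a x)).1.c a = x.1 := by
        rw [single_c, Pi.single_eq_same]
      change (HR.totZ (Pi.single a x)).1.c a (fr X _ σ) * _ = _
      rw [h1]
      have h2 : ∀ (k : ℕ) (hk : k = b) (hk' : a + k ≤ a + b), (HR.totZ (Pi.single b y)).1.c k
          (bk X a hk' σ) = y.1 (bk X a (le_refl (a + b)) σ) := by
        intro k hk hk'
        subst hk
        rw [single_c, Pi.single_eq_same]
      change x.1 _ * (HR.totZ (Pi.single b y)).1.c (a + b - a) (bk X a _ σ) = _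
      rw [h2 (a + b - a) (by omega) (by omega)]
      rfl
    · intro t _ ht
      have h1 : (t : ℕ) ≠ a := fun h2 => ht (Fin.ext h2)
      rw [single_c, Pi.single_eq_of_ne h1]
      exact zero_mul _
    · intro h1
      exact absurd (Finset.mem_univ _) h1
  · rw [dif_neg h]
    refine Finset.sum_eq_zero fun t _ => ?_
    by_cases h1 : (t : ℕ) = a
    · have h2 : n - (t : ℕ) ≠ b := by omega
      rw [single_c, single_c, Pi.single_eq_of_ne h2]
      exact mul_zero _
    · rw [single_c, Pi.single_eq_of_ne h1]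
      exact zero_mul _

/-- Cup product of cocycles. -/
def cupZ {a b c : ℕ} (h : a + b = c) (x : CoZ X (ZMod p) a) (y : CoZ X (ZMod p) b) :
    CoZ X (ZMod p) c := ⟨cup h x.1 y.1, by
      have h1 := (HR.totZ (Pi.single a x) * HR.totZ (Pi.single b y)).2
      have h2 : ((HR.totZ (Pi.single a x)).1 * (HR.totZ (Pi.single b y)).1).c c =
          cup h x.1 y.1 := by
        funext σ
        rw [single_mul, dif_pos h]
      rw [← h2]
      refine ⟨TC.nrm _ c, fun σ => ?_⟩
      exact congrFun (congrFun (congrArg TC.c h1) (c + 1)) σ⟩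

theorem cl_mul {a b c : ℕ} (h : a + b = c) (x : CoZ X (ZMod p) a) (y : CoZ X (ZMod p) b) :
    HR.cl c (cupZ h x y) = HR.cl a x * HR.cl b y := by
  change HR.mk (HR.totZ (Pi.single c (cupZ h x y))) =
    HR.mk (HR.totZ (Pi.single a x)) * HR.mk (HR.totZ (Pi.single b y))
  rw [← map_mul]
  congr 1
  refine Subtype.ext (TC.ext (funext fun n => funext fun σ => ?_))
  change _ = ((HR.totZ (Pi.single a x)).1 * (HR.totZ (Pi.single b y)).1).c n σ
  rw [single_mul, single_c]
  by_cases hn : c = n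
  · subst hn
    rw [Pi.single_eq_same, dif_pos h]
    rfl
  · rw [Pi.single_eq_of_ne (Ne.symm hn), dif_neg (by omega)]
    rfl

/-- The unit cocycle. -/
def oneZ (p : ℕ) (X : SSet.{0}) : CoZ X (ZMod p) 0 := ⟨fun _ => 1, by
  refine ⟨fun i a h hi τ => by omega, fun σ => ?_⟩
  have h1 := congrFun (congrFun (congrArg TC.c (TC.d_one (p := p) (X := X))) 1) σ
  exact h1⟩

theorem cl_one : HR.cl 0 (oneZ p X) = 1 := by
  change HR.mk (HR.totZ (Pi.single 0 (oneZ p X))) = 1
  rw [← map_one HR.mk]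
  congr 1
  refine Subtype.ext (TC.ext (funext fun n => funext fun σ => ?_))
  rw [single_c]
  change _ = if n = 0 then (1 : ZMod p) else 0
  by_cases hn : n = 0
  · subst hn
    rw [Pi.single_eq_same, if_pos rfl]
    rfl
  · rw [Pi.single_eq_of_ne hn, if_neg hn]
    rfl

private theorem pb_mem {X Y : SSet.{0}} (f : X ⟶ Y) {m : ℕ} (c : CoZ Y (ZMod p) m) :
    (fun σ : X.obj (op ⦋m⦌) => c.1 (f.app (op ⦋m⦌) σ)) ∈ CoZ X (ZMod p) m := by
  have h1 : (TC.pull f (HR.totZ (Pi.single m c)).1).d = 0 := by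
    rw [TC.pull_d]
    have h2 : (HR.totZ (Pi.single m c)).1.d = 0 := (HR.totZ (Pi.single m c)).2
    rw [h2, map_zero]
  have h2 : (TC.pull f (HR.totZ (Pi.single m c)).1).c m =
      fun σ : X.obj (op ⦋m⦌) => c.1 (f.app (op ⦋m⦌) σ) := by
    funext σ
    rw [TC.pull_c, single_c, Pi.single_eq_same]
  rw [← h2]
  refine ⟨TC.nrm _ m, fun σ => ?_⟩
  exact congrFun (congrFun (congrArg TC.c h1) (m + 1)) σ

/-- Pullback of cocycles. -/
def pbZ {X Y : SSet.{0}} (f : X ⟶ Y) (m : ℕ) : CoZ Y (ZMod p) m →+ CoZ X (ZMod p) m where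
  toFun := fun c => ⟨fun σ => c.1 (f.app (op ⦋m⦌) σ), pb_mem f c⟩
  map_zero' := rfl
  map_add' := fun _ _ => rfl

namespace HR

variable {X Y W : SSet.{0}}

/-- Functoriality of the cohomology ring. -/
def pull (f : X ⟶ Y) : HR p Y →+* HR p X :=
  (bcon p Y).lift (mk.comp ((TC.pull f).restrict (ZR p Y) (ZR p X) (by
    intro x hx
    have hx' : x.d = 0 := hx
    change (TC.pull f x).d = 0
    rw [TC.pull_d, hx', map_zero]))) (by
    rintro x y ⟨e, he⟩
    refine mk_eq.2 ⟨TC.pull f e, ?_⟩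
    rw [TC.pull_d, ← he, map_sub]
    rfl)

theorem pull_mk (f : X ⟶ Y) (x : ZR p Y) (y : ZR p X) (h : y.1 = TC.pull f x.1) :
    pull f (mk x) = mk y := by
  refine mk_eq.2 ⟨0, ?_⟩
  rw [h, TC.d_zero]
  exact sub_self _

theorem pull_tot (f : X ⟶ Y) (c : ∀ m : ℕ, CoZ Y (ZMod p) m) :
    pull f (tot c) = tot (fun m => pbZ f m (c m)) :=
  pull_mk f (totZ c) (totZ fun m => pbZ f m (c m)) rfl

theorem pull_cl (f : X ⟶ Y) (m : ℕ) (c : CoZ Y (ZMod p) m) :
    pull f (cl m c) = cl m (pbZ f m c) := by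
  rw [cl_apply, cl_apply, pull_tot]
  congr 1
  funext n
  by_cases hn : n = m
  · subst hn
    rw [Pi.single_eq_same, Pi.single_eq_same]
  · rw [Pi.single_eq_of_ne hn, Pi.single_eq_of_ne hn, map_zero]

theorem pull_id (x : HR p X) : pull (𝟙 X) x = x := by
  obtain ⟨z, rfl⟩ := mk_surj x
  exact pull_mk (𝟙 X) z z rfl

theorem pull_comp (f : X ⟶ Y) (g : Y ⟶ W) (x : HR p W) :
    pull (f ≫ g) x = pull f (pull g x) := by
  obtain ⟨z, rfl⟩ := mk_surj x
  have h1 : ∀ {A B : SSet.{0}} (h : A ⟶ B) (w : ZR p B), TC.pull h w.1 ∈ ZR p A := by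
    intro A B h w
    have hw : w.1.d = 0 := w.2
    change (TC.pull h w.1).d = 0
    rw [TC.pull_d, hw, map_zero]
  rw [pull_mk (f ≫ g) z ⟨_, h1 (f ≫ g) z⟩ rfl, pull_mk g z ⟨_, h1 g z⟩ rfl,
    pull_mk f ⟨_, h1 g z⟩ ⟨_, h1 f ⟨_, h1 g z⟩⟩ rfl]
  congr 1

end HR

end BPN.E
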