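import Pool.Agent.BPN.E.Bd

/-!
# Part (E), module Tup: products, tuples and multisets of partial maps (project BPN, helper30)

Definitions `pr`, `tup`, `ms` in `Pool/Agent/BPN/E/Defs.lean`.  Everything elementary.

PROOFS.
* `tup_eq_some`: `tup n g x = some y ↔ ∀ i, g (x i) = some (y i)` (the chosen `y` is unique).
* `tup_bind`, `ms_bind`, `pr_bind`: `Option` extensionality (`Option.ext`, `tup_eq_some` ..); for `ms` use
  `ms_eq_some`: `ms g x = some y ↔ (∀ a ∈ x, (g a).isSome) ∧ y = x.filterMap g`, or induction on the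
  multiset with `ms_cons`.
* `LFz_..`: for a tuple of length `> 0` the entry `0` bounds the indices; for a multiset of positive
  cardinality any element; for a product one of the factors is enough.
* `push_SA`: for `φ ∈ SA` the value of `push k (pr (tup b g) (tup a h)) φ` at `(x', y')` is the sum of
  the `φ (x, y)` over the pairs with `g (x i) = some (x' i)`, `h (y j) = some (y' j)`; permuting
  `x'` (or `y'`) corresponds to permuting `x` (or `y`), bijection of the index sets.  If
  `y' i = y' j`, `i ≠ j`, then the sum is zero: the involution `y ↦ y ∘ swap i j` of the index set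
  changes the sign of `φ (x, y)`, its fixed points have `y i = y j`, so `φ = 0` there; this gives
  zero in every characteristic (`Finset.sum_involution`).
* `push_AL`: the same with a multiset in the first variable.
-/

namespace BPN.E

variable {A A' A'' B B' B'' : Type}

theorem tup_eq_some {n : ℕ} {g : A → Option A'} {x : Fin n → A} {y : Fin n → A'} :
    tup n g x = some y ↔ ∀ i, g (x i) = some (y i) := by
  unfold tup
  constructor
  · intro h
    split_ifs at h with h1
    have h2 := h1.choose_spec
    rw [Option.some.injEq] at h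
    intro i
    rw [← h]
    exact h2 i
  · intro h
    have h1 : ∃ y : Fin n → A', ∀ i, g (x i) = some (y i) := ⟨y, h⟩
    rw [dif_pos h1]
    congr 1
    funext i
    have h2 := h1.choose_spec i
    rw [h i] at h2
    exact (Option.some.inj h2).symm

theorem tup_eq_none {n : ℕ} {g : A → Option A'} {x : Fin n → A} :
    tup n g x = none ↔ ∃ i, g (x i) = none := by
  constructor
  · intro h
    by_contra hc
    push Not at hc
    have h1 : ∀ i, ∃ y, g (x i) = some y := fun i => Option.ne_none_iff_exists'.1 (hc i)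
    choose y hy using h1
    rw [tup_eq_some.2 hy] at h
    cases h
  · rintro ⟨i, hi⟩
    by_contra hc
    obtain ⟨y, hy⟩ := Option.ne_none_iff_exists'.1 hc
    rw [tup_eq_some] at hy
    rw [hy i] at hi
    cases hi

theorem tup_bind (n : ℕ) (g : A → Option A') (h : A' → Option A'') (x : Fin n → A) :
    (tup n g x).bind (tup n h) = tup n (fun a => (g a).bind h) x := by
  ext y
  simp only [Option.bind_eq_some_iff, tup_eq_some]
  constructor
  · rintro ⟨z, h1, h2⟩ i
    exact ⟨z i, h1 i, h2 i⟩
  · intro h'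
    choose z h1 h2 using h'
    exact ⟨z, h1, h2⟩

theorem tup_some (n : ℕ) (u : A → A') (x : Fin n → A) :
    tup n (fun a => some (u a)) x = some (u ∘ x) := by
  exact tup_eq_some.2 fun _ => rfl

theorem ms_eq_some {g : A → Option A'} {x : Multiset A} {y : Multiset A'} :
    ms g x = some y ↔ (∀ a ∈ x, (g a).isSome) ∧ y = x.filterMap g := by
  unfold ms
  constructor
  · intro h
    split_ifs at h with h1
    exact ⟨h1, (Option.some.inj h).symm⟩
  · rintro ⟨h1, rfl⟩
    rw [if_pos h1]

theorem ms_eq_none {g : A → Option A'} {x : Multiset A} : ms g x = none ↔ ∃ a ∈ x, g a = none := by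
  unfold ms
  constructor
  · intro h
    split_ifs at h with h1
    push Not at h1
    obtain ⟨a, ha, h2⟩ := h1
    refine ⟨a, ha, ?_⟩
    cases h3 : g a with
    | none => rfl
    | some b =>
      rw [h3] at h2
      simp at h2
  · rintro ⟨a, ha, h2⟩
    rw [if_neg]
    intro h
    have h3 := h a ha
    rw [h2] at h3
    simp at h3

theorem ms_zero (g : A → Option A') : ms g 0 = some 0 := by
  exact ms_eq_some.2 ⟨by simp, by simp⟩

theorem ms_cons (g : A → Option A') (a : A) (x : Multiset A) :
    ms g (a ::ₘ x) = (g a).bind fun b => (ms g x).map fun y => b ::ₘ y := by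
  cases h1 : g a with
  | none =>
    rw [ms_eq_none.2 ⟨a, Multiset.mem_cons_self a x, h1⟩]
    rfl
  | some b =>
    cases h2 : ms g x with
    | none =>
      obtain ⟨a', ha', h3⟩ := ms_eq_none.1 h2
      rw [ms_eq_none.2 ⟨a', Multiset.mem_cons_of_mem ha', h3⟩]
      rfl
    | some y =>
      obtain ⟨h3, rfl⟩ := ms_eq_some.1 h2
      rw [ms_eq_some.2 ⟨?_, rfl⟩, Multiset.filterMap_cons_some g a x h1]
      · rfl
      · intro a' ha'
        rcases Multiset.mem_cons.1 ha' with rfl | h4
        · rw [h1]
          rfl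
        · exact h3 a' h4

theorem ms_add (g : A → Option A') (x x' : Multiset A) :
    ms g (x + x') = (ms g x).bind fun y => (ms g x').map fun y' => y + y' := by
  induction x using Multiset.induction_on with
  | empty =>
    rw [zero_add, ms_zero]
    cases ms g x' <;> simp
  | cons a x ih =>
    rw [Multiset.cons_add, ms_cons, ms_cons, ih]
    cases g a <;> cases ms g x <;> cases ms g x' <;> simp

theorem ms_replicate (g : A → Option A') {q : ℕ} (hq : 0 < q) (a : A) :
    ms g (Multiset.replicate q a) = (g a).map fun b => Multiset.replicate q b := by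
  cases h1 : g a with
  | none =>
    rw [ms_eq_none.2 ⟨a, Multiset.mem_replicate.2 ⟨hq.ne', rfl⟩, h1⟩]
    rfl
  | some b =>
    have h2 : ∀ q : ℕ, ms g (Multiset.replicate q a) = some (Multiset.replicate q b) := by
      intro q
      induction q with
      | zero => exact ms_zero g
      | succ q ih =>
        rw [Multiset.replicate_succ, ms_cons, ih, h1, Multiset.replicate_succ]
        rfl
    rw [h2]
    rfl

theorem ms_bind (g : A → Option A') (h : A' → Option A'') (x : Multiset A) :
    (ms g x).bind (ms h) = ms (fun a => (g a).bind h) x := by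
  induction x using Multiset.induction_on with
  | empty =>
    rw [ms_zero, ms_zero]
    exact ms_zero h
  | cons a x ih =>
    rw [ms_cons, ms_cons, ← ih]
    cases g a with
    | none => rfl
    | some b =>
      cases ms g x with
      | none =>
        simp only [Option.bind_some, Option.map_none, Option.bind_none]
        cases h b <;> rfl
      | some y =>
        simp only [Option.bind_some, Option.map_some]
        rw [ms_cons]

theorem ms_some (u : A → A') (x : Multiset A) : ms (fun a => some (u a)) x = some (x.map u) := by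
  induction x using Multiset.induction_on with
  | empty => exact ms_zero _
  | cons a x ih =>
    rw [ms_cons, ih, Multiset.map_cons]
    rfl

theorem ms_card {g : A → Option A'} {x : Multiset A} {y : Multiset A'} (h : ms g x = some y) :
    Multiset.card y = Multiset.card x := by
  induction x using Multiset.induction_on generalizing y with
  | empty =>
    rw [ms_zero] at h
    rw [← Option.some.inj h]
    rfl
  | cons a x ih =>
    rw [ms_cons] at h
    obtain ⟨b, hb, h1⟩ := Option.bind_eq_some_iff.1 h
    obtain ⟨y', hy', rfl⟩ := Option.map_eq_some_iff.1 h1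
    rw [Multiset.card_cons, Multiset.card_cons, ih hy']

theorem mem_ms {g : A → Option A'} {x : Multiset A} {y : Multiset A'} (h : ms g x = some y)
    (b : A') : b ∈ y ↔ ∃ a ∈ x, g a = some b := by
  obtain ⟨h1, rfl⟩ := ms_eq_some.1 h
  exact Multiset.mem_filterMap g x

theorem pr_eq_some {g : A → Option A'} {h : B → Option B'} {z : A × B} {z' : A' × B'} :
    pr g h z = some z' ↔ g z.1 = some z'.1 ∧ h z.2 = some z'.2 := by
  unfold pr
  rw [Option.bind_eq_some_iff]
  constructor
  · rintro ⟨a, ha, h1⟩
    obtain ⟨b, hb, rfl⟩ := Option.map_eq_some_iff.1 h1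
    exact ⟨ha, hb⟩
  · rintro ⟨h1, h2⟩
    exact ⟨z'.1, h1, by rw [h2]; rfl⟩

theorem pr_eq_none {g : A → Option A'} {h : B → Option B'} {z : A × B} :
    pr g h z = none ↔ g z.1 = none ∨ h z.2 = none := by
  unfold pr
  cases g z.1 <;> cases h z.2 <;> simp

theorem pr_bind (g : A → Option A') (h : B → Option B') (g' : A' → Option A'')
    (h' : B' → Option B'') (z : A × B) :
    (pr g h z).bind (pr g' h') = pr (fun a => (g a).bind g') (fun b => (h b).bind h') z := by
  unfold pr
  dsimp only
  cases g z.1 with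
  | none => rfl
  | some a =>
    cases h z.2 with
    | none =>
      simp only [Option.bind_some, Option.map_none, Option.bind_none]
      cases g' a <;> rfl
    | some b => rfl

theorem LFz_tup {n : ℕ} (hn : 0 < n) {f : ℕ → A → Option A'} (hf : LFz f) :
    LFz fun i => tup n (f i) := by
  intro x
  obtain ⟨N, hN⟩ := hf (x ⟨0, hn⟩)
  exact ⟨N, fun i hi => tup_eq_none.2 ⟨⟨0, hn⟩, hN i hi⟩⟩

theorem LFz_pr_left {f : ℕ → A → Option A'} (hf : LFz f) (g : ℕ → B → Option B') :
    LFz fun i => pr (f i) (g i) := by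
  intro z
  obtain ⟨N, hN⟩ := hf z.1
  exact ⟨N, fun i hi => pr_eq_none.2 (Or.inl (hN i hi))⟩

theorem LFz_pr_right (f : ℕ → A → Option A') {g : ℕ → B → Option B'} (hg : LFz g) :
    LFz fun i => pr (f i) (g i) := by
  intro z
  obtain ⟨N, hN⟩ := hg z.2
  exact ⟨N, fun i hi => pr_eq_none.2 (Or.inr (hN i hi))⟩

variable {k : Type} [Field k]

private lemma push_sym {Z Z' : Type} (G : Z → Option Z') (φ : Z →₀ k) (c : ℤ) (hc : IsUnit c)
    (e f : Z → Z) (hef : ∀ z, e (f z) = z) (hfe : ∀ z, f (e z) = z)
    (hφ : ∀ z, φ (e z) = c • φ z) (z' w' : Z') (hG : ∀ z, G (e z) = some w' ↔ G z = some z') :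
    push k G φ w' = c • push k G φ z' := by
  classical
  rw [push_apply, push_apply, Finset.smul_sum]
  have hne : ∀ z, φ (e z) ≠ 0 ↔ φ z ≠ 0 := by
    intro z
    rw [hφ z]
    rcases Int.isUnit_iff.1 hc with rfl | rfl
    · rw [one_smul]
    · rw [neg_smul, one_smul, neg_ne_zero]
  refine Finset.sum_nbij' f e ?_ ?_ ?_ ?_ ?_
  · intro z hz
    rw [Finset.mem_filter, Finsupp.mem_support_iff] at hz ⊢
    rw [← hne, ← hG, hef]
    exact hz
  · intro z hz
    rw [Finset.mem_filter, Finsupp.mem_support_iff] at hz ⊢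
    rw [hne, hG]
    exact hz
  · intro z _
    exact hef z
  · intro z _
    exact hfe z
  · intro z _
    rw [← hφ, hef]

private lemma push_alt {Z Z' : Type} (G : Z → Option Z') (φ : Z →₀ k) (e : Z → Z)
    (hee : ∀ z, e (e z) = z) (hφ : ∀ z, φ (e z) = (-1 : ℤ) • φ z) (hfix : ∀ z, e z = z → φ z = 0)
    (z' : Z') (hG : ∀ z, G z = some z' → G (e z) = some z') :
    push k G φ z' = 0 := by
  classical
  rw [push_apply]
  refine Finset.sum_involution (fun z _ => e z) ?_ ?_ ?_ ?_
  · intro z _
    rw [hφ, neg_smul, one_smul, add_neg_cancel]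
  · intro z _ h1 h2
    exact h1 (hfix z h2)
  · intro z hz
    rw [Finset.mem_filter, Finsupp.mem_support_iff] at hz ⊢
    refine ⟨?_, hG z hz.2⟩
    rw [hφ, neg_smul, one_smul, neg_ne_zero]
    exact hz.1
  · intro z _
    exact hee z

private lemma tup_comp {n : ℕ} (g : A → Option A') (σ : Equiv.Perm (Fin n)) (x : Fin n → A)
    (x' : Fin n → A') : tup n g (x ∘ σ) = some (x' ∘ σ) ↔ tup n g x = some x' := by
  rw [tup_eq_some, tup_eq_some]
  constructor
  · intro h i
    have h1 := h (σ.symm i)
    simpa using h1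
  · intro h i
    exact h (σ i)

private lemma comp_inv {n : ℕ} {X : Type} (σ : Equiv.Perm (Fin n)) (x : Fin n → X) :
    (x ∘ σ.symm) ∘ σ = x := by
  funext i
  simp

private lemma comp_inv' {n : ℕ} {X : Type} (σ : Equiv.Perm (Fin n)) (x : Fin n → X) :
    (x ∘ σ) ∘ σ.symm = x := by
  funext i
  simp

private lemma sum_alt {a : ℕ} {X X' : Type} (G : X → Option X') (h : A → Option A')
    (φ : (X × (Fin a → A)) →₀ k)
    (h2 : ∀ (σ : Equiv.Perm (Fin a)) x y, φ (x, y ∘ σ) = (Equiv.Perm.sign σ : ℤ) • φ (x, y))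
    (h3 : ∀ x y i j, i ≠ j → y i = y j → φ (x, y) = 0) :
    (∀ (σ : Equiv.Perm (Fin a)) x y, push k (pr G (tup a h)) φ (x, y ∘ σ) =
      (Equiv.Perm.sign σ : ℤ) • push k (pr G (tup a h)) φ (x, y)) ∧
    ∀ x y i j, i ≠ j → y i = y j → push k (pr G (tup a h)) φ (x, y) = 0 := by
  constructor
  · intro σ x' y'
    refine push_sym _ φ _ (Units.isUnit _) (fun z => (z.1, z.2 ∘ σ))
      (fun z => (z.1, z.2 ∘ σ.symm)) ?_ ?_ ?_ _ _ ?_
    · intro z
      rw [comp_inv]
    · intro z
      rw [comp_inv']
    · intro z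
      exact h2 σ z.1 z.2
    · intro z
      rw [pr_eq_some, pr_eq_some]
      exact and_congr_right fun _ => tup_comp h σ z.2 y'
  · intro x' y' i j hij hy
    refine push_alt _ φ (fun z => (z.1, z.2 ∘ Equiv.swap i j)) ?_ ?_ ?_ _ ?_
    · intro z
      refine Prod.ext rfl (funext fun t => ?_)
      simp
    · intro z
      have h4 := h2 (Equiv.swap i j) z.1 z.2
      rw [Equiv.Perm.sign_swap hij] at h4
      simpa using h4
    · intro z hz
      refine h3 z.1 z.2 i j hij ?_
      have h5 := congrFun (congrArg Prod.snd hz) j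
      simpa using h5
    · intro z hz
      rw [pr_eq_some] at hz ⊢
      refine ⟨hz.1, ?_⟩
      have h6 := (tup_comp h (Equiv.swap i j) z.2 y').2 hz.2
      rw [h6]
      congr 1
      funext t
      change (y' ∘ Equiv.swap i j) t = y' t
      rw [Function.comp_apply]
      rcases eq_or_ne t i with rfl | h7
      · rw [Equiv.swap_apply_left, hy]
      · rcases eq_or_ne t j with rfl | h8
        · rw [Equiv.swap_apply_right, hy]
        · rw [Equiv.swap_apply_of_ne_of_ne h7 h8]

theorem push_SA {b a : ℕ} (g h : A → Option A') {φ : ((Fin b → A) × (Fin a → A)) →₀ k}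
    (hφ : φ ∈ SA k A b a) : push k (pr (tup b g) (tup a h)) φ ∈ SA k A' b a := by
  obtain ⟨h1, h2, h3⟩ := hφ
  obtain ⟨h4, h5⟩ := sum_alt (tup b g) h φ h2 h3
  refine ⟨fun σ x' y' => ?_, h4, h5⟩
  have h6 := push_sym (pr (tup b g) (tup a h)) φ 1 isUnit_one (fun z => (z.1 ∘ σ, z.2))
    (fun z => (z.1 ∘ σ.symm, z.2)) (fun z => by rw [comp_inv]) (fun z => by rw [comp_inv'])
    (fun z => by rw [one_smul]; exact h1 σ z.1 z.2) (x', y') (x' ∘ σ, y') (fun z => by
      rw [pr_eq_some, pr_eq_some]
      exact and_congr_left fun _ => tup_comp g σ z.1 x')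
  rw [one_smul] at h6
  exact h6

theorem push_AL {b : ℕ} (g h : A → Option A') {φ : (Multiset A × (Fin b → A)) →₀ k}
    (hφ : φ ∈ AL k A b) : push k (pr (ms g) (tup b h)) φ ∈ AL k A' b := by
  exact sum_alt (ms g) h φ hφ.1 hφ.2

theorem bd_SA {b a : ℕ} {g h : ℕ → A → Option A} {φ : ((Fin b → A) × (Fin a → A)) →₀ k}
    (hφ : φ ∈ SA k A b a) (hf : ∀ z ∈ φ.support, ∃ N, ∀ i, N ≤ i →
      pr (tup b (g i)) (tup a (h i)) z = none) :
    bd k (fun i => pr (tup b (g i)) (tup a (h i))) φ ∈ SA k A b a := by
  classical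
  choose! N hN using hf
  rw [bd_eq_sum (N := φ.support.sup N) fun z hz i hi => hN z hz i ((Finset.le_sup hz).trans hi)]
  exact Submodule.sum_mem _ fun i _ => zsmul_mem (push_SA _ _ hφ) _

theorem bd_AL {b : ℕ} {g h : ℕ → A → Option A} {φ : (Multiset A × (Fin b → A)) →₀ k}
    (hφ : φ ∈ AL k A b) (hf : ∀ z ∈ φ.support, ∃ N, ∀ i, N ≤ i →
      pr (ms (g i)) (tup b (h i)) z = none) :
    bd k (fun i => pr (ms (g i)) (tup b (h i))) φ ∈ AL k A b := by
  classical
  choose! N hN using hf
  rw [bd_eq_sum (N := φ.support.sup N) fun z hz i hi => hN z hz i ((Finset.le_sup hz).trans hi)]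
  exact Submodule.sum_mem _ fun i _ => zsmul_mem (push_AL _ _ hφ) _

end BPN.E
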