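import Mathlib

/-!
# Part (E), module Tw: twisted polynomial rings (project BPN, architect helper30)

`Tw p I` (`I` a linear order): the ring with generators `t i` (odd) and `v i` (even), `i ∈ I`, over `ZMod p`, with
relations: the `v i` are central, `t i t j = - t j t i`, `t i ^ 2 = q v i` with `q = 1` if `p = 2` and `q = 0` otherwise.
As a set `Tw p I = Finset I →₀ MvPolynomial I (ZMod p)`, with basis `mon E S = t^E v^S` (`t^E` is the product of the
`t i`, `i ∈ E`, in increasing order).  Multiplication: `t^E t^F = sgn E F ∏_{i ∈ E ∩ F} (q v i) t^(E Δ F)`, where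
`sgn E F = (-1)^(inv E F)`, `inv E F = #{(e, f) ∈ E × F, f < e}`.

PROOFS.
* Associativity: `inv` is additive modulo 2 in both variables with respect to symmetric differences, and
  `∏_{E ∩ F} ∏_{(E Δ F) ∩ G} = ∏_{F ∩ G} ∏_{E ∩ (F Δ G)}` (check for every element `i` the 8 cases).
* `odd_mul_odd`: for `p ≠ 2`: if `E ∩ F ≠ ∅` both products vanish (`q = 0`), otherwise
  `inv E F + inv F E = |E| |F|`.  For `p = 2` the ring is commutative (`-1 = 1`).
* `lift_exists`: define `φ (single E a) = (∏_{i ∈ E, increasing} s i) * f a`, `f` the ring homomorphism from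
  `MvPolynomial` to the (commutative) subring generated by the `w i`; multiplicativity on basis elements: move the
  factors of `∏_F s` through `∏_E s` one by one.  (Simplest: induction on `F` by its smallest element, with
  the formula for `t^E t_j`.)
-/

namespace BPN.E

open MvPolynomial

/-- Twisted polynomial ring. -/
def Tw (p : ℕ) (I : Type) : Type := Finset I →₀ MvPolynomial I (ZMod p)

namespace Tw

variable {p : ℕ} {I J K : Type} [LinearOrder I] [LinearOrder J] [LinearOrder K]

noncomputable instance : AddCommGroup (Tw p I) :=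
  inferInstanceAs (AddCommGroup (Finset I →₀ MvPolynomial I (ZMod p)))

noncomputable instance : Module (ZMod p) (Tw p I) :=
  inferInstanceAs (Module (ZMod p) (Finset I →₀ MvPolynomial I (ZMod p)))

/-- `q = 1` if `p = 2`, else `0`. -/
def qq (p : ℕ) : ZMod p := if p = 2 then 1 else 0

/-- Number of inversions. -/
def inv (E F : Finset I) : ℕ := ((E ×ˢ F).filter fun z => z.2 < z.1).card

/-- Structure factor. -/
noncomputable def sf (p : ℕ) (E F : Finset I) : MvPolynomial I (ZMod p) :=
  (-1) ^ inv E F * ∏ i ∈ E ∩ F, (C (qq p) * X i)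

/-- Basis element with polynomial coefficient. -/
noncomputable def sg (E : Finset I) (a : MvPolynomial I (ZMod p)) : Tw p I := Finsupp.single E a

noncomputable instance : Mul (Tw p I) :=
  ⟨fun x y => Finsupp.sum x fun E a => Finsupp.sum y fun F b =>
    sg (symmDiff E F) (sf p E F * (a * b))⟩

noncomputable instance : One (Tw p I) := ⟨sg ∅ 1⟩

/-! ### the untyped product -/

private abbrev FF (p : ℕ) (I : Type) : Type := Finset I →₀ MvPolynomial I (ZMod p)

private noncomputable def mF (x y : FF p I) : FF p I :=
  x.sum fun E a => y.sum fun F b => Finsupp.single (symmDiff E F) (sf p E F * (a * b))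

private theorem mF_add (x y z : FF p I) : mF x (y + z) = mF x y + mF x z := by
  unfold mF
  rw [← Finsupp.sum_add]
  congr 1
  funext E a
  refine Finsupp.sum_add_index' (fun F => ?_) (fun F b c => ?_)
  · rw [mul_zero, mul_zero, Finsupp.single_zero]
  · rw [mul_add, mul_add, Finsupp.single_add]

private theorem add_mF (x y z : FF p I) : mF (x + y) z = mF x z + mF y z := by
  unfold mF
  refine Finsupp.sum_add_index' (fun E => ?_) (fun E a b => ?_)
  · simp only [zero_mul, mul_zero, Finsupp.single_zero]
    exact Finsupp.sum_fun_zero _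
  · rw [← Finsupp.sum_add]
    congr 1
    funext F c
    rw [add_mul, mul_add, Finsupp.single_add]

private theorem zero_mF (x : FF p I) : mF 0 x = 0 := Finsupp.sum_zero_index

private theorem mF_zero (x : FF p I) : mF x 0 = 0 := by
  unfold mF
  simp only [Finsupp.sum_zero_index]
  exact Finsupp.sum_fun_zero _

private theorem mF_single (E F : Finset I) (a b : MvPolynomial I (ZMod p)) :
    mF (Finsupp.single E a) (Finsupp.single F b) =
      Finsupp.single (symmDiff E F) (sf p E F * (a * b)) := by
  unfold mF
  rw [Finsupp.sum_single_index, Finsupp.sum_single_index]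
  · rw [mul_zero, mul_zero, Finsupp.single_zero]
  · simp

private theorem mul_eq (x y : Tw p I) : x * y = (mF x y : FF p I) := rfl

/-! ### signs -/

private theorem inv_eq (E F : Finset I) {R : Type*} [CommRing R] : (-1 : R) ^ inv E F =
    ∏ e ∈ E, ∏ f ∈ F, (if f < e then (-1 : R) else 1) := by
  rw [← Finset.prod_product', inv, Finset.card_filter, ← Finset.prod_pow_eq_pow_sum]
  refine Finset.prod_congr rfl fun z _ => ?_
  split_ifs <;> simp

private theorem prod_symm {R : Type*} [CommRing R] (h : I → R) (hh : ∀ i, h i * h i = 1)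
    (E F : Finset I) : ∏ i ∈ symmDiff E F, h i = (∏ i ∈ E, h i) * ∏ i ∈ F, h i := by
  have e1 : ∏ i ∈ E, h i = (∏ i ∈ E \ F, h i) * ∏ i ∈ E ∩ F, h i := by
    rw [← Finset.prod_union (Finset.disjoint_sdiff_inter E F), Finset.sdiff_union_inter]
  have e2 : ∏ i ∈ F, h i = (∏ i ∈ F \ E, h i) * ∏ i ∈ E ∩ F, h i := by
    rw [Finset.inter_comm, ← Finset.prod_union (Finset.disjoint_sdiff_inter F E),
      Finset.sdiff_union_inter]
  have e3 : ∏ i ∈ symmDiff E F, h i = (∏ i ∈ E \ F, h i) * ∏ i ∈ F \ E, h i := by
    rw [← Finset.prod_union disjoint_sdiff_sdiff]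
    rfl
  have e4 : (∏ i ∈ E ∩ F, h i) * ∏ i ∈ E ∩ F, h i = 1 := by
    rw [← Finset.prod_mul_distrib]
    exact Finset.prod_eq_one fun i _ => hh i
  rw [e1, e2, e3]
  calc (∏ i ∈ E \ F, h i) * ∏ i ∈ F \ E, h i =
      ((∏ i ∈ E \ F, h i) * ∏ i ∈ F \ E, h i) * ((∏ i ∈ E ∩ F, h i) * ∏ i ∈ E ∩ F, h i) := by
        rw [e4, mul_one]
    _ = _ := by ring

private theorem sgn_left {R : Type*} [CommRing R] (E F G : Finset I) :
    (-1 : R) ^ inv (symmDiff E F) G = (-1) ^ inv E G * (-1) ^ inv F G := by
  rw [inv_eq, inv_eq, inv_eq]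
  refine prod_symm _ (fun e => ?_) E F
  rw [← Finset.prod_mul_distrib]
  refine Finset.prod_eq_one fun f _ => ?_
  split_ifs <;> norm_num

private theorem sgn_right {R : Type*} [CommRing R] (E F G : Finset I) :
    (-1 : R) ^ inv E (symmDiff F G) = (-1) ^ inv E F * (-1) ^ inv E G := by
  rw [inv_eq, inv_eq, inv_eq, ← Finset.prod_mul_distrib]
  refine Finset.prod_congr rfl fun e _ => ?_
  refine prod_symm _ (fun f => ?_) F G
  split_ifs <;> norm_num

private theorem prod_maj {R : Type*} [CommRing R] (y : I → R) (E F G : Finset I) :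
    (∏ i ∈ E ∩ F, y i) * ∏ i ∈ symmDiff E F ∩ G, y i =
      (∏ i ∈ F ∩ G, y i) * ∏ i ∈ E ∩ symmDiff F G, y i := by
  rw [← Finset.prod_union, ← Finset.prod_union]
  · congr 1
    ext i
    simp only [Finset.mem_union, Finset.mem_inter, Finset.mem_symmDiff]
    tauto
  · rw [Finset.disjoint_left]
    intro i
    simp only [Finset.mem_inter, Finset.mem_symmDiff]
    tauto
  · rw [Finset.disjoint_left]
    intro i
    simp only [Finset.mem_inter, Finset.mem_symmDiff]
    tauto

/-- cocycle identity -/
private theorem sf_coc (E F G : Finset I) :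
    sf p E F * sf p (symmDiff E F) G = sf p F G * sf p E (symmDiff F G) := by
  unfold sf
  rw [sgn_left, sgn_right]
  have := prod_maj (fun i => (C (qq p) * X i : MvPolynomial I (ZMod p))) E F G
  calc (-1) ^ inv E F * (∏ i ∈ E ∩ F, (C (qq p) * X i)) *
        ((-1) ^ inv E G * (-1) ^ inv F G * ∏ i ∈ symmDiff E F ∩ G, (C (qq p) * X i))
      = (-1) ^ inv E F * (-1) ^ inv E G * (-1) ^ inv F G *
        ((∏ i ∈ E ∩ F, (C (qq p) * X i)) * ∏ i ∈ symmDiff E F ∩ G, (C (qq p) * X i)) := by ring
    _ = (-1) ^ inv E F * (-1) ^ inv E G * (-1) ^ inv F G *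
        ((∏ i ∈ F ∩ G, (C (qq p) * X i)) * ∏ i ∈ E ∩ symmDiff F G, (C (qq p) * X i)) := by
        rw [this]
    _ = _ := by ring

private theorem inv_empty_left (F : Finset I) : inv ∅ F = 0 := by
  unfold inv
  simp

private theorem inv_empty_right (E : Finset I) : inv E ∅ = 0 := by
  unfold inv
  simp

private theorem sf_empty_left (F : Finset I) : sf p ∅ F = 1 := by
  unfold sf
  rw [inv_empty_left]
  simp

private theorem sf_empty_right (E : Finset I) : sf p E ∅ = 1 := by
  unfold sf
  rw [inv_empty_right]
  simp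

private theorem mF_assoc (x y z : FF p I) : mF (mF x y) z = mF x (mF y z) := by
  refine Finsupp.induction_linear x ?_ ?_ ?_
  · rw [zero_mF, zero_mF, zero_mF]
  · intro a b ha hb
    rw [add_mF, add_mF, add_mF, ha, hb]
  intro E a
  refine Finsupp.induction_linear y ?_ ?_ ?_
  · rw [mF_zero, zero_mF, mF_zero]
  · intro b c hb hc
    rw [mF_add, add_mF, add_mF, mF_add, hb, hc]
  intro F b
  refine Finsupp.induction_linear z ?_ ?_ ?_
  · rw [mF_zero, mF_zero, mF_zero]
  · intro c d hc hd
    rw [mF_add, mF_add, mF_add, hc, hd]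
  intro G c
  rw [mF_single, mF_single, mF_single, mF_single, symmDiff_assoc]
  congr 1
  calc sf p (symmDiff E F) G * (sf p E F * (a * b) * c) =
      (sf p E F * sf p (symmDiff E F) G) * (a * b * c) := by ring
    _ = (sf p F G * sf p E (symmDiff F G)) * (a * b * c) := by rw [sf_coc]
    _ = _ := by ring

private theorem one_mF (x : FF p I) : mF (Finsupp.single ∅ 1) x = x := by
  refine Finsupp.induction_linear x (mF_zero _) ?_ ?_
  · intro a b ha hb
    rw [mF_add, ha, hb]
  · intro E a
    rw [mF_single, sf_empty_left, one_mul, one_mul]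
    congr 1
    exact bot_symmDiff E

private theorem mF_one (x : FF p I) : mF x (Finsupp.single ∅ 1) = x := by
  refine Finsupp.induction_linear x (zero_mF _) ?_ ?_
  · intro a b ha hb
    rw [add_mF, ha, hb]
  · intro E a
    rw [mF_single, sf_empty_right, mul_one, one_mul]
    congr 1
    exact symmDiff_bot E

noncomputable instance : Ring (Tw p I) :=
  { (inferInstance : AddCommGroup (Tw p I)) with
    mul := fun x y => x * y
    one := 1
    left_distrib := mF_add
    right_distrib := add_mF
    zero_mul := zero_mF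
    mul_zero := mF_zero
    mul_assoc := mF_assoc
    one_mul := one_mF
    mul_one := mF_one }

theorem sg_mul_sg (E F : Finset I) (a b : MvPolynomial I (ZMod p)) :
    sg E a * sg F b = sg (symmDiff E F) (sf p E F * (a * b)) := mF_single E F a b

theorem sg_add (E : Finset I) (a b : MvPolynomial I (ZMod p)) :
    sg E (a + b) = sg E a + sg E b := Finsupp.single_add E a b

theorem sg_smul (c : ZMod p) (E : Finset I) (a : MvPolynomial I (ZMod p)) :
    sg E (c • a) = c • sg E a := (Finsupp.smul_single c E a).symm

omit [LinearOrder I] in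
theorem one_def : (1 : Tw p I) = sg ∅ 1 := rfl

private theorem mF_smul (c : ZMod p) (x y : FF p I) : mF x (c • y) = c • mF x y := by
  refine Finsupp.induction_linear x ?_ ?_ ?_
  · rw [zero_mF, zero_mF, smul_zero]
  · intro a b ha hb
    rw [add_mF, add_mF, smul_add, ha, hb]
  intro E a
  refine Finsupp.induction_linear y ?_ ?_ ?_
  · rw [smul_zero, mF_zero, smul_zero]
  · intro b e hb he
    rw [smul_add, mF_add, mF_add, smul_add, hb, he]
  intro F b
  rw [Finsupp.smul_single, mF_single, mF_single, Finsupp.smul_single]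
  congr 1
  rw [mul_smul_comm, mul_smul_comm]

private theorem smul_mF (c : ZMod p) (x y : FF p I) : mF (c • x) y = c • mF x y := by
  refine Finsupp.induction_linear x ?_ ?_ ?_
  · rw [smul_zero, zero_mF, smul_zero]
  · intro a b ha hb
    rw [smul_add, add_mF, add_mF, smul_add, ha, hb]
  intro E a
  refine Finsupp.induction_linear y ?_ ?_ ?_
  · rw [mF_zero, mF_zero, smul_zero]
  · intro b e hb he
    rw [mF_add, mF_add, smul_add, hb, he]
  intro F b
  rw [Finsupp.smul_single, mF_single, mF_single, Finsupp.smul_single]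
  congr 1
  rw [smul_mul_assoc, mul_smul_comm]

theorem smul_mul (c : ZMod p) (x y : Tw p I) : (c • x) * y = c • (x * y) := smul_mF c x y

theorem mul_smul' (c : ZMod p) (x y : Tw p I) : x * (c • y) = c • (x * y) := mF_smul c x y

/-- The basis element `t^E v^S`. -/
noncomputable def mon (p : ℕ) (E : Finset I) (S : I →₀ ℕ) : Tw p I := sg E (monomial S 1)

/-- The coefficient of `t^E v^S`. -/
noncomputable def co (w : Tw p I) (E : Finset I) (S : I →₀ ℕ) : ZMod p :=
  (show Finset I →₀ MvPolynomial I (ZMod p) from w) E |>.coeff S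

/-- The odd generator. -/
noncomputable def t (p : ℕ) (i : I) : Tw p I := mon p {i} 0

/-- The even generator. -/
noncomputable def v (p : ℕ) (i : I) : Tw p I := mon p ∅ (Finsupp.single i 1)

theorem co_add (x y : Tw p I) (E : Finset I) (S : I →₀ ℕ) : co (x + y) E S = co x E S + co y E S := by
  show coeff S ((show FF p I from x) E + (show FF p I from y) E) = _
  rw [coeff_add]
  rfl

theorem co_neg (x : Tw p I) (E : Finset I) (S : I →₀ ℕ) : co (-x) E S = -co x E S := by
  show coeff S (-(show FF p I from x) E) = _
  rw [coeff_neg]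
  rfl

theorem co_sub (x y : Tw p I) (E : Finset I) (S : I →₀ ℕ) : co (x - y) E S = co x E S - co y E S := by
  rw [sub_eq_add_neg, co_add, co_neg, sub_eq_add_neg]

theorem co_zero (E : Finset I) (S : I →₀ ℕ) : co (0 : Tw p I) E S = 0 := by
  show coeff S (0 : MvPolynomial I (ZMod p)) = 0
  rw [coeff_zero]

theorem co_smul (c : ZMod p) (x : Tw p I) (E : Finset I) (S : I →₀ ℕ) :
    co (c • x) E S = c * co x E S := by
  show coeff S (c • (show FF p I from x) E) = _
  rw [coeff_smul, smul_eq_mul]
  rfl

theorem co_sum {ι : Type} (s : Finset ι) (x : ι → Tw p I) (E : Finset I) (S : I →₀ ℕ) :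
    co (∑ i ∈ s, x i) E S = ∑ i ∈ s, co (x i) E S := by
  classical
  induction s using Finset.induction_on with
  | empty => rw [Finset.sum_empty, Finset.sum_empty, co_zero]
  | insert i s hi ih => rw [Finset.sum_insert hi, Finset.sum_insert hi, co_add, ih]

private theorem co_sg (E F : Finset I) (a : MvPolynomial I (ZMod p)) (T : I →₀ ℕ) :
    co (sg E a) F T = if E = F then coeff T a else 0 := by
  classical
  show coeff T ((Finsupp.single E a : FF p I) F) = _
  rw [Finsupp.single_apply]
  split_ifs
  · rfl
  · rw [coeff_zero]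

open Classical in
theorem co_mon (E F : Finset I) (S T : I →₀ ℕ) :
    co (mon p E S) F T = if E = F ∧ S = T then 1 else 0 := by
  unfold mon
  rw [co_sg, coeff_monomial]
  by_cases h1 : E = F <;> by_cases h2 : S = T <;> simp [h1, h2]

theorem ext_co {x y : Tw p I} (h : ∀ E S, co x E S = co y E S) : x = y := by
  have : (show FF p I from x) = (show FF p I from y) := by
    ext E S
    exact h E S
  exact this

/-- Finite support of the coefficients. -/
theorem co_finite (x : Tw p I) : {z : Finset I × (I →₀ ℕ) | co x z.1 z.2 ≠ 0}.Finite := by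
  classical
  refine Set.Finite.subset ((show FF p I from x).support.finite_toSet.biUnion
    (t := fun E => Prod.mk E '' ((show FF p I from x) E).support)
    fun E _ => (Finset.finite_toSet _).image _) ?_
  rintro ⟨E, S⟩ hz
  rw [Set.mem_ofPred_eq] at hz
  rw [Set.mem_iUnion₂]
  refine ⟨E, ?_, S, ?_, rfl⟩
  · rw [Finset.mem_coe, Finsupp.mem_support_iff]
    intro h0
    apply hz
    show coeff S ((show FF p I from x) E) = 0
    rw [h0, coeff_zero]
  · rw [Finset.mem_coe, mem_support_iff]
    exact hz

/-- Induction over sums of multiples of basis elements. -/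
theorem induct {P : Tw p I → Prop} (h0 : P 0) (ha : ∀ x y, P x → P y → P (x + y))
    (hm : ∀ (c : ZMod p) E S, P (c • mon p E S)) (x : Tw p I) : P x := by
  refine Finsupp.induction_linear (show FF p I from x) h0 ha ?_
  intro E a
  show P (sg E a)
  refine MvPolynomial.induction_on' (P := fun a => P (sg E a)) a ?_ ?_
  · intro S c
    have h1 : (sg E (monomial S c) : Tw p I) = c • mon p E S := by
      unfold mon
      rw [← sg_smul, smul_monomial, smul_eq_mul, mul_one]
    show P (sg E (monomial S c))
    rw [h1]
    exact hm c E S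
  · intro a b h1 h2
    show P (sg E (a + b))
    rw [sg_add]
    exact ha _ _ h1 h2

/-- Additive maps are determined on multiples of basis elements. -/
theorem addHom_ext {A : Type} [AddCommGroup A] {f g : Tw p I →+ A}
    (h : ∀ (c : ZMod p) E S, f (c • mon p E S) = g (c • mon p E S)) : f = g := by
  ext x
  refine induct (P := fun x => f x = g x) ?_ ?_ h x
  · rw [map_zero, map_zero]
  · intro x y hx hy
    rw [map_add, map_add, hx, hy]

theorem mon_zero : mon p (∅ : Finset I) 0 = 1 := rfl

theorem mon_mul_mon_empty (E : Finset I) (S T : I →₀ ℕ) :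
    mon p E S * mon p ∅ T = mon p E (S + T) := by
  unfold mon
  rw [sg_mul_sg, sf_empty_right, one_mul, monomial_mul, one_mul]
  congr 1
  exact symmDiff_bot E

theorem mon_empty_mul_mon (E : Finset I) (S T : I →₀ ℕ) :
    mon p ∅ T * mon p E S = mon p E (S + T) := by
  unfold mon
  rw [sg_mul_sg, sf_empty_left, one_mul, monomial_mul, one_mul, add_comm]
  congr 1
  exact bot_symmDiff E

private theorem inv_single (E : Finset I) (i : I) : inv E {i} = (E.filter fun e => i < e).card := by
  unfold inv
  refine Finset.card_nbij' (fun z => z.1) (fun e => (e, i)) ?_ ?_ ?_ ?_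
  · rintro ⟨a, b⟩ h
    simp only [Finset.coe_filter, Finset.mem_product, Finset.mem_singleton,
      Set.mem_ofPred_eq] at h ⊢
    exact ⟨h.1.1, h.1.2 ▸ h.2⟩
  · intro e h
    simp only [Finset.coe_filter, Finset.mem_product, Finset.mem_singleton,
      Set.mem_ofPred_eq] at h ⊢
    exact ⟨⟨h.1, trivial⟩, h.2⟩
  · rintro ⟨a, b⟩ h
    simp only [Finset.coe_filter, Finset.mem_product, Finset.mem_singleton,
      Set.mem_ofPred_eq] at h ⊢
    rw [h.1.2]
  · intro e _
    rfl

private theorem inv_single' (E : Finset I) (i : I) : inv {i} E = (E.filter fun e => e < i).card := by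
  unfold inv
  refine Finset.card_nbij' (fun z => z.2) (fun e => (i, e)) ?_ ?_ ?_ ?_
  · rintro ⟨a, b⟩ h
    simp only [Finset.coe_filter, Finset.mem_product, Finset.mem_singleton,
      Set.mem_ofPred_eq] at h ⊢
    exact ⟨h.1.2, h.1.1 ▸ h.2⟩
  · intro e h
    simp only [Finset.coe_filter, Finset.mem_product, Finset.mem_singleton,
      Set.mem_ofPred_eq] at h ⊢
    exact ⟨⟨trivial, h.1⟩, h.2⟩
  · rintro ⟨a, b⟩ h
    simp only [Finset.coe_filter, Finset.mem_product, Finset.mem_singleton,
      Set.mem_ofPred_eq] at h ⊢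
    rw [h.1.1]
  · intro e _
    rfl

private theorem sf_last (E : Finset I) (i : I) (h : ∀ e ∈ E, e < i) : sf p E {i} = 1 := by
  unfold sf
  rw [inv_single]
  have h1 : (E.filter fun e => i < e) = ∅ := by
    ext e
    simp only [Finset.mem_filter, Finset.notMem_empty, iff_false, not_and]
    intro he
    exact not_lt.2 (h e he).le
  have h2 : E ∩ {i} = ∅ := by
    ext e
    simp only [Finset.mem_inter, Finset.mem_singleton, Finset.notMem_empty, iff_false, not_and]
    intro he h3
    exact absurd (h e he) (by rw [h3]; exact lt_irrefl i)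
  rw [h1, h2]
  simp

private theorem symm_insert (E : Finset I) (i : I) (h : i ∉ E) :
    symmDiff E {i} = insert i E := by
  ext e
  simp only [Finset.mem_symmDiff, Finset.mem_singleton, Finset.mem_insert]
  constructor
  · rintro (⟨h1, -⟩ | ⟨h1, -⟩)
    · exact Or.inr h1
    · exact Or.inl h1
  · rintro (h1 | h1)
    · exact Or.inr ⟨h1, by rw [h1]; exact h⟩
    · exact Or.inl ⟨h1, fun h2 => h (h2 ▸ h1)⟩

/-- `t_i^2 = q v_i`. -/
theorem t_sq (i : I) : t p i * t p i = qq p • v p i := by
  unfold t v mon
  rw [sg_mul_sg, ← sg_smul]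
  have h1 : symmDiff ({i} : Finset I) {i} = ∅ := symmDiff_self _
  rw [h1]
  congr 1
  unfold sf
  rw [inv_single, Finset.inter_self, Finset.prod_singleton]
  have h2 : (({i} : Finset I).filter fun e => i < e) = ∅ := by
    ext e
    simp only [Finset.mem_filter, Finset.mem_singleton, Finset.notMem_empty, iff_false, not_and]
    intro h3
    rw [h3]
    exact lt_irrefl i
  rw [h2, Finset.card_empty, pow_zero, one_mul, monomial_mul, one_mul, add_zero]
  rw [show (monomial (0 : I →₀ ℕ) (1 : ZMod p)) = 1 from rfl, mul_one, C_mul']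
  rfl

private theorem neg_one_smul_qq : (-1 : ZMod p) * qq p = qq p := by
  unfold qq
  split_ifs with h
  · subst h
    decide
  · rw [mul_zero]

private theorem sg_neg (E : Finset I) (a : MvPolynomial I (ZMod p)) :
    (sg E (-a) : Tw p I) = -sg E a := Finsupp.single_neg E a

theorem t_anti (i j : I) : t p i * t p j = -(t p j * t p i) := by
  rcases eq_or_ne i j with h | h
  · subst h
    rw [t_sq, ← neg_one_smul (ZMod p), smul_smul, neg_one_smul_qq]
  · unfold t mon
    rw [sg_mul_sg, sg_mul_sg, ← sg_neg, symmDiff_comm]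
    congr 1
    unfold sf
    have h1 : ({i} : Finset I) ∩ {j} = ∅ := by
      ext e
      simp only [Finset.mem_inter, Finset.mem_singleton, Finset.notMem_empty, iff_false, not_and]
      intro h1 h2
      exact h (h1.symm.trans h2)
    rw [Finset.inter_comm {j}, h1, inv_single, inv_single]
    simp only [Finset.prod_empty, mul_one]
    rcases lt_or_gt_of_ne h with h2 | h2
    · rw [Finset.filter_singleton, Finset.filter_singleton, if_neg (not_lt.2 h2.le), if_pos h2]
      simp
    · rw [Finset.filter_singleton, Finset.filter_singleton, if_pos h2, if_neg (not_lt.2 h2.le)]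
      simp

private theorem mon_empty_comm (S : I →₀ ℕ) (x : Tw p I) : mon p ∅ S * x = x * mon p ∅ S := by
  refine induct (P := fun x => mon p ∅ S * x = x * mon p ∅ S) ?_ ?_ ?_ x
  · rw [mul_zero, zero_mul]
  · intro x y hx hy
    rw [mul_add, add_mul, hx, hy]
  · intro c E T
    rw [mul_smul', smul_mul, mon_mul_mon_empty, mon_empty_mul_mon]

theorem v_comm (i : I) (x : Tw p I) : v p i * x = x * v p i := mon_empty_comm _ x

theorem v_pow (i : I) (n : ℕ) : v p i ^ n = mon p ∅ (Finsupp.single i n) := by
  induction n with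
  | zero => rw [pow_zero, Finsupp.single_zero, mon_zero]
  | succ n ih =>
    rw [pow_succ, ih]
    unfold v
    rw [mon_mul_mon_empty, ← Finsupp.single_add]

/-- Multiplication of `t^E` by a larger generator. -/
theorem mon_mul_t (E : Finset I) (S : I →₀ ℕ) (i : I) (h : ∀ e ∈ E, e < i) :
    mon p E S * t p i = mon p (insert i E) S := by
  have h0 : i ∉ E := fun h1 => lt_irrefl i (h i h1)
  unfold t mon
  rw [sg_mul_sg, sf_last E i h, one_mul, monomial_mul, one_mul, add_zero, symm_insert E i h0]

private theorem sf_first (E : Finset I) (i : I) (h : ∀ e ∈ E, i < e) : sf p {i} E = 1 := by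
  unfold sf
  rw [inv_single']
  have h1 : (E.filter fun e => e < i) = ∅ := by
    ext e
    simp only [Finset.mem_filter, Finset.notMem_empty, iff_false, not_and]
    intro he
    exact not_lt.2 (h e he).le
  have h2 : {i} ∩ E = ∅ := by
    ext e
    simp only [Finset.mem_inter, Finset.mem_singleton, Finset.notMem_empty, iff_false, not_and]
    intro h3 he
    exact absurd (h e he) (by rw [h3]; exact lt_irrefl i)
  rw [h1, h2]
  simp

theorem t_mul_mon (E : Finset I) (S : I →₀ ℕ) (i : I) (h : ∀ e ∈ E, i < e) :
    t p i * mon p E S = mon p (insert i E) S := by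
  have h0 : i ∉ E := fun h1 => lt_irrefl i (h i h1)
  unfold t mon
  rw [sg_mul_sg, sf_first E i h, one_mul, monomial_mul, one_mul, zero_add, symmDiff_comm,
    symm_insert E i h0]

private theorem sg_pm (E : Finset I) (a : MvPolynomial I (ZMod p)) (n : ℕ) :
    (sg E ((-1) ^ n * a) : Tw p I) = ((-1 : ℤ) ^ n) • sg E a := by
  rcases Nat.even_or_odd n with h | h
  · rw [h.neg_one_pow, h.neg_one_pow, one_mul, one_smul]
  · rw [h.neg_one_pow, h.neg_one_pow, neg_one_mul, neg_one_smul, sg_neg]

/-- Multiplication by a generator, general position. -/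
theorem t_mul_mon' (E : Finset I) (S : I →₀ ℕ) (i : I) (h : i ∉ E) :
    ∃ ε : ℤ, (ε = 1 ∨ ε = -1) ∧ t p i * mon p E S = ε • mon p (insert i E) S := by
  refine ⟨(-1) ^ inv {i} E, neg_one_pow_eq_or ℤ _, ?_⟩
  have h2 : {i} ∩ E = ∅ := by
    ext e
    simp only [Finset.mem_inter, Finset.mem_singleton, Finset.notMem_empty, iff_false, not_and]
    intro h3 he
    exact h (h3 ▸ he)
  unfold t mon
  rw [sg_mul_sg, symmDiff_comm, symm_insert E i h, ← sg_pm]
  congr 1
  unfold sf
  rw [h2, Finset.prod_empty, mul_one, monomial_mul, one_mul, zero_add]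

/-- Parity. -/
def Par (p : ℕ) (I : Type) [LinearOrder I] (n : ℕ) : AddSubgroup (Tw p I) where
  carrier := {x | ∀ E S, co x E S ≠ 0 → E.card % 2 = n % 2}
  zero_mem' := by
    intro E S h
    exact absurd (co_zero E S) h
  add_mem' := by
    intro x y hx hy E S h
    by_cases h1 : co x E S = 0
    · refine hy E S fun h2 => h ?_
      rw [co_add, h1, h2, add_zero]
    · exact hx E S h1
  neg_mem' := by
    intro x hx E S h
    refine hx E S fun h2 => h ?_
    rw [co_neg, h2, neg_zero]

private theorem par_sum {n : ℕ} {x : Tw p I} (hx : x ∈ Par p I n) {P : Tw p I → Prop} (h0 : P 0)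
    (ha : ∀ x y, P x → P y → P (x + y))
    (hm : ∀ E a, E.card % 2 = n % 2 → P (sg E a)) : P x := by
  have h1 : (show FF p I from x) = ∑ E ∈ (show FF p I from x).support,
      Finsupp.single E ((show FF p I from x) E) := (Finsupp.sum_single _).symm
  have h2 : ∀ s : Finset (Finset I), (∀ E ∈ s, E.card % 2 = n % 2) →
      P (∑ E ∈ s, sg E ((show FF p I from x) E)) := by
    classical
    intro s
    induction s using Finset.induction_on with
    | empty =>
      intro _
      rw [Finset.sum_empty]
      exact h0
    | insert E s hE ih =>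
      intro h
      rw [Finset.sum_insert hE]
      exact ha _ _ (hm _ _ (h E (Finset.mem_insert_self E s)))
        (ih fun F hF => h F (Finset.mem_insert_of_mem hF))
  have h3 := h2 (show FF p I from x).support ?_
  · have h4 : x = ∑ E ∈ (show FF p I from x).support, sg E ((show FF p I from x) E) := h1
    rw [h4]
    exact h3
  · intro E hE
    rw [Finsupp.mem_support_iff] at hE
    obtain ⟨S, hS⟩ := MvPolynomial.ne_zero_iff.1 hE
    exact hx E S hS

private theorem sg_mem_Par {E : Finset I} {a : MvPolynomial I (ZMod p)} {n : ℕ}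
    (h : E.card % 2 = n % 2) : sg E a ∈ Par p I n := by
  intro F S hF
  rw [co_sg] at hF
  split_ifs at hF with h1
  · rw [← h1]
    exact h
  · exact absurd rfl hF

private theorem card_symm (E F : Finset I) :
    (symmDiff E F).card % 2 = (E.card + F.card) % 2 := by
  have h1 : (symmDiff E F).card = (E \ F).card + (F \ E).card := by
    rw [← Finset.card_union_of_disjoint disjoint_sdiff_sdiff]
    rfl
  have h2 := Finset.card_sdiff_add_card_inter E F
  have h3 := Finset.card_sdiff_add_card_inter F E
  rw [Finset.inter_comm F E] at h3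
  omega

theorem Par_mul {m n : ℕ} {x y : Tw p I} (hx : x ∈ Par p I m) (hy : y ∈ Par p I n) :
    x * y ∈ Par p I (m + n) := by
  refine par_sum hx (P := fun x => x * y ∈ Par p I (m + n)) ?_ ?_ ?_
  · rw [zero_mul]
    exact zero_mem _
  · intro a b ha hb
    rw [add_mul]
    exact add_mem ha hb
  intro E a hE
  refine par_sum hy (P := fun y => sg E a * y ∈ Par p I (m + n)) ?_ ?_ ?_
  · rw [mul_zero]
    exact zero_mem _
  · intro a b ha hb
    rw [mul_add]
    exact add_mem ha hb
  intro F b hF
  rw [sg_mul_sg]
  refine sg_mem_Par ?_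
  rw [card_symm]
  omega

private theorem sgn_swap {R : Type*} [CommRing R] (E F : Finset I) (h : Disjoint E F) :
    (-1 : R) ^ inv E F = (-1) ^ (E.card * F.card) * (-1) ^ inv F E := by
  have h1 : (-1 : R) ^ inv E F * (-1) ^ inv F E = (-1) ^ (E.card * F.card) := by
    rw [inv_eq, inv_eq, Finset.prod_comm (s := F), ← Finset.prod_mul_distrib]
    have h2 : ∀ e ∈ E, (∏ f ∈ F, (if f < e then (-1 : R) else 1)) *
        (∏ f ∈ F, (if e < f then (-1 : R) else 1)) = (-1) ^ F.card := by
      intro e he
      rw [← Finset.prod_mul_distrib, ← Finset.prod_const]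
      refine Finset.prod_congr rfl fun f hf => ?_
      have hne : e ≠ f := fun h3 => Finset.disjoint_left.1 h he (h3 ▸ hf)
      rcases lt_or_gt_of_ne hne with h3 | h3
      · rw [if_neg (not_lt.2 h3.le), if_pos h3, one_mul]
      · rw [if_pos h3, if_neg (not_lt.2 h3.le), mul_one]
    rw [Finset.prod_congr rfl h2, Finset.prod_const, ← pow_mul, mul_comm]
  have h3 : ((-1 : R) ^ inv F E) * (-1) ^ inv F E = 1 := by
    rw [← pow_add, ← two_mul, pow_mul]
    norm_num
  calc (-1 : R) ^ inv E F = ((-1) ^ inv E F * (-1) ^ inv F E) * (-1) ^ inv F E := by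
        rw [mul_assoc, h3, mul_one]
    _ = _ := by rw [h1]

private theorem sf_swap (E F : Finset I) :
    sf p E F = (-1) ^ (E.card * F.card) * sf p F E := by
  by_cases hp : p = 2
  · subst hp
    have h1 : (-1 : MvPolynomial I (ZMod 2)) = 1 := by
      rw [← C_1, ← C_neg]
      congr 1
    unfold sf
    rw [h1, one_pow, one_pow, one_pow, one_mul, one_mul, one_mul, Finset.inter_comm]
  · by_cases h : Disjoint E F
    · unfold sf
      rw [sgn_swap E F h, Finset.inter_comm F E, mul_assoc]
    · have h0 : ∏ i ∈ E ∩ F, (C (qq p) * X i : MvPolynomial I (ZMod p)) = 0 := by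
        rw [Finset.disjoint_iff_inter_eq_empty] at h
        obtain ⟨i, hi⟩ := Finset.nonempty_iff_ne_empty.2 h
        refine Finset.prod_eq_zero hi ?_
        rw [qq, if_neg hp, C_0, zero_mul]
      unfold sf
      rw [Finset.inter_comm F E, h0, mul_zero, mul_zero, mul_zero]

theorem Par_comm {m n : ℕ} {x y : Tw p I} (hx : x ∈ Par p I m) (hy : y ∈ Par p I n) :
    x * y = (-1 : ℤ) ^ (m * n) • (y * x) := by
  refine par_sum hx (P := fun x => x * y = (-1 : ℤ) ^ (m * n) • (y * x)) ?_ ?_ ?_
  · rw [zero_mul, mul_zero, smul_zero]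
  · intro a b ha hb
    rw [add_mul, mul_add, smul_add, ha, hb]
  intro E a hE
  refine par_sum hy (P := fun y => sg E a * y = (-1 : ℤ) ^ (m * n) • (y * sg E a)) ?_ ?_ ?_
  · rw [zero_mul, mul_zero, smul_zero]
  · intro b c hb hc
    rw [add_mul, mul_add, smul_add, hb, hc]
  intro F b hF
  have h1 : (-1 : ℤ) ^ (m * n) = (-1) ^ (E.card * F.card) := by
    rw [neg_one_pow_eq_pow_mod_two, Nat.mul_mod, ← hE, ← hF, ← Nat.mul_mod,
      ← neg_one_pow_eq_pow_mod_two]
  rw [sg_mul_sg, sg_mul_sg, h1, ← sg_pm, sf_swap, symmDiff_comm, mul_comm a b, mul_assoc]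

theorem t_mem_Par (i : I) : t p i ∈ Par p I 1 := sg_mem_Par (by rw [Finset.card_singleton])

theorem v_mem_Par (i : I) : v p i ∈ Par p I 0 := sg_mem_Par (by rw [Finset.card_empty])

private theorem smul_int (c : ZMod p) (x : Tw p I) : c • x = (c.cast : ℤ) • x := by
  conv_lhs => rw [← ZMod.intCast_zmod_cast c]
  exact Int.cast_smul_eq_zsmul (ZMod p) _ x

/-- induction on the generators -/
private theorem mon_gen {P : Tw p I → Prop} (h1 : P 1) (hm : ∀ x y, P x → P y → P (x * y))
    (ht : ∀ i, P (t p i)) (hv : ∀ i, P (v p i)) (E : Finset I) (S : I →₀ ℕ) :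
    P (mon p E S) := by
  have hS : P (mon p ∅ S) := by
    induction S using Finsupp.induction_linear with
    | zero => exact h1
    | add a b ha hb =>
      rw [← mon_mul_mon_empty]
      exact hm _ _ ha hb
    | single i n =>
      rw [← v_pow]
      induction n with
      | zero => rw [pow_zero]; exact h1
      | succ n ih => rw [pow_succ]; exact hm _ _ ih (hv i)
  have hE : P (mon p E 0) := by
    induction E using Finset.induction_on_max with
    | empty => exact h1
    | insert i E hi ih =>
      rw [← mon_mul_t E 0 i hi]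
      exact hm _ _ ih (ht i)
  have := hm _ _ hE hS
  rwa [mon_mul_mon_empty, zero_add] at this

/-- Ring homomorphisms are determined by the generators. -/
theorem hom_ext {S : Type} [Ring S] {f g : Tw p I →+* S} (ht : ∀ i, f (t p i) = g (t p i))
    (hv : ∀ i, f (v p i) = g (v p i)) : f = g := by
  have h1 : (f : Tw p I →+ S) = g := by
    refine addHom_ext fun c E T => ?_
    show f (c • mon p E T) = g (c • mon p E T)
    rw [smul_int, map_zsmul, map_zsmul]
    congr 1
    refine mon_gen (P := fun x => f x = g x) ?_ ?_ ht hv E T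
    · rw [map_one, map_one]
    · intro x y hx hy
      rw [map_mul, map_mul, hx, hy]
  ext x
  exact DFunLike.congr_fun h1 x

/-! ### the universal property -/

section lift

variable {S : Type} [Ring S]

/-- sorted product -/
private noncomputable def sp (s : I → S) (E : Finset I) : S :=
  ((E.sort (· ≥ ·)).map s).reverse.prod

private theorem sp_empty (s : I → S) : sp s ∅ = 1 := by
  unfold sp
  rw [Finset.sort_empty]
  rfl

private theorem sp_last (s : I → S) (E : Finset I) (i : I) (h : ∀ e ∈ E, e < i) :
    sp s (insert i E) = sp s E * s i := by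
  unfold sp
  have h0 : i ∉ E := fun h1 => lt_irrefl i (h i h1)
  rw [Finset.sort_insert _ (fun b hb => (h b hb).le) h0, List.map_cons, List.reverse_cons,
    List.prod_append, List.prod_singleton]

/-- coefficients -/
private theorem coeff_exists (hp : ((p : ℕ) : S) = 0) (w : I → S)
    (hww : ∀ i j, w i * w j = w j * w i) :
    ∃ f : MvPolynomial I (ZMod p) →+* S, (∀ i, f (X i) = w i) ∧
      ∀ (z : S), (∀ i, z * w i = w i * z) → ∀ a, f a * z = z * f a := by
  let C0 : Subring S := Subring.closure (Set.range w)
  let _ : CommRing C0 := Subring.closureCommRingOfComm (by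
    rintro _ ⟨i, rfl⟩ _ ⟨j, rfl⟩
    exact hww i j)
  have hp' : ((p : ℕ) : C0) = 0 := by
    apply Subtype.ext
    show ((p : ℕ) : S) = 0
    exact hp
  have := ringChar.charP C0
  let c : ZMod p →+* C0 := ZMod.castHom (ringChar.dvd hp') C0
  let f0 : MvPolynomial I (ZMod p) →+* C0 :=
    eval₂Hom c fun i => ⟨w i, Subring.subset_closure ⟨i, rfl⟩⟩
  refine ⟨C0.subtype.comp f0, fun i => ?_, fun z hz a => ?_⟩
  · show ((f0 (X i) : C0) : S) = w i
    rw [eval₂Hom_X']
  · have h1 : C0 ≤ Subring.centralizer {z} := by
      rw [Subring.closure_le]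
      rintro _ ⟨i, rfl⟩
      rw [SetLike.mem_coe, Subring.mem_centralizer_iff]
      rintro g hg
      rw [Set.mem_singleton_iff.1 hg]
      exact hz i
    have h2 := Subring.mem_centralizer_iff.1 (h1 (f0 a).2) z rfl
    exact h2.symm

variable {s w : I → S} {f : MvPolynomial I (ZMod p) →+* S}

private theorem comm_sp (hf : ∀ i a, f a * s i = s i * f a) (E : Finset I)
    (a : MvPolynomial I (ZMod p)) : f a * sp s E = sp s E * f a := by
  induction E using Finset.induction_on_max with
  | empty => rw [sp_empty, mul_one, one_mul]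
  | insert i E hi ih =>
    rw [sp_last s E i hi, ← mul_assoc, ih, mul_assoc, hf, mul_assoc]

private theorem sp_one (hf : ∀ i a, f a * s i = s i * f a) (hX : ∀ i, f (X i) = w i)
    (hss : ∀ i j, i ≠ j → s i * s j = -(s j * s i))
    (hq : ∀ i, s i * s i = if p = 2 then w i else 0) (E : Finset I) (j : I) :
    sp s E * s j = f (sf p E {j}) * sp s (symmDiff E {j}) := by
  induction E using Finset.induction_on_max with
  | empty =>
    have h1 : symmDiff (∅ : Finset I) {j} = insert j ∅ := by
      rw [symm_insert ∅ j (Finset.notMem_empty j)]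
    rw [h1, sf_empty_left, map_one, one_mul, sp_last s ∅ j (fun e he => absurd he
      (Finset.notMem_empty e))]
  | insert i E hi ih =>
    have hiE : i ∉ E := fun h => lt_irrefl i (hi i h)
    rcases lt_trichotomy i j with h | h | h
    · have h1 : ∀ e ∈ insert i E, e < j := by
        intro e he
        rcases Finset.mem_insert.1 he with h2 | h2
        · rw [h2]
          exact h
        · exact (hi e h2).trans h
      have h0 : j ∉ insert i E := fun h2 => lt_irrefl j (h1 j h2)
      rw [sf_last _ _ h1, map_one, one_mul, symm_insert _ _ h0, sp_last s _ j h1]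
    · subst h
      have h1 : symmDiff (insert i E) {i} = E := by
        rw [← symm_insert E i hiE, symmDiff_assoc, symmDiff_self]
        exact symmDiff_bot E
      have h2 : f (sf p (insert i E) {i}) = if p = 2 then w i else 0 := by
        unfold sf
        have h3 : inv (insert i E) {i} = 0 := by
          rw [inv_single, Finset.card_eq_zero]
          ext e
          simp only [Finset.mem_filter, Finset.mem_insert, Finset.notMem_empty, iff_false,
            not_and, not_lt]
          rintro (h4 | h4)
          · exact h4.le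
          · exact (hi e h4).le
        have h4 : insert i E ∩ {i} = {i} := by
          ext e
          simp only [Finset.mem_inter, Finset.mem_insert, Finset.mem_singleton]
          exact ⟨fun h5 => h5.2, fun h5 => ⟨Or.inl h5, h5⟩⟩
        rw [h3, h4, pow_zero, one_mul, Finset.prod_singleton, map_mul, hX, qq]
        split_ifs
        · rw [C_1, map_one, one_mul]
        · rw [C_0, map_zero, zero_mul]
      rw [sp_last s E i hi, h1, mul_assoc, hq, ← h2, comm_sp hf]
    · have h0 : i ≠ j := fun h1 => absurd h (by rw [h1]; exact lt_irrefl j)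
      have h1 : symmDiff (insert i E) {j} = insert i (symmDiff E {j}) := by
        ext e
        simp only [Finset.mem_symmDiff, Finset.mem_insert, Finset.mem_singleton]
        constructor
        · rintro (⟨h2 | h2, h3⟩ | ⟨h2, h3⟩)
          · exact Or.inl h2
          · exact Or.inr (Or.inl ⟨h2, h3⟩)
          · rw [not_or] at h3
            exact Or.inr (Or.inr ⟨h2, h3.2⟩)
        · rintro (h2 | ⟨h2, h3⟩ | ⟨h2, h3⟩)
          · exact Or.inl ⟨Or.inl h2, by rw [h2]; exact h0⟩
          · exact Or.inl ⟨Or.inr h2, h3⟩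
          · refine Or.inr ⟨h2, ?_⟩
            rw [not_or]
            exact ⟨by rw [h2]; exact h0.symm, h3⟩
      have h2 : ∀ e ∈ symmDiff E {j}, e < i := by
        intro e he
        rw [Finset.mem_symmDiff, Finset.mem_singleton] at he
        rcases he with ⟨h3, -⟩ | ⟨h3, -⟩
        · exact hi e h3
        · rw [h3]
          exact h
      have h3 : sf p (insert i E) {j} = -sf p E {j} := by
        unfold sf
        have h4 : inv (insert i E) {j} = inv E {j} + 1 := by
          rw [inv_single, inv_single, Finset.filter_insert, if_pos h,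
            Finset.card_insert_of_notMem]
          rw [Finset.mem_filter]
          exact fun h5 => hiE h5.1
        have h5 : insert i E ∩ {j} = E ∩ {j} := by
          ext e
          simp only [Finset.mem_inter, Finset.mem_insert, Finset.mem_singleton]
          constructor
          · rintro ⟨h6 | h6, h7⟩
            · exact absurd (h6.symm.trans h7) h0
            · exact ⟨h6, h7⟩
          · rintro ⟨h6, h7⟩
            exact ⟨Or.inr h6, h7⟩
        rw [h4, h5, pow_succ]
        ring
      rw [sp_last s E i hi, mul_assoc, hss i j h0, mul_neg, ← mul_assoc, ih, h3, map_neg, h1,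
        sp_last s _ i h2, neg_mul, mul_assoc]

private theorem sp_mul (hf : ∀ i a, f a * s i = s i * f a) (hX : ∀ i, f (X i) = w i)
    (hss : ∀ i j, i ≠ j → s i * s j = -(s j * s i))
    (hq : ∀ i, s i * s i = if p = 2 then w i else 0) (E F : Finset I) :
    sp s E * sp s F = f (sf p E F) * sp s (symmDiff E F) := by
  induction F using Finset.induction_on_max with
  | empty =>
    rw [sp_empty, mul_one, sf_empty_right, map_one, one_mul]
    congr 1
    exact (symmDiff_bot E).symm
  | insert j F hj ih =>
    have hjF : j ∉ F := fun h => lt_irrefl j (hj j h)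
    have h1 : symmDiff E (insert j F) = symmDiff (symmDiff E F) {j} := by
      rw [← symm_insert F j hjF, symmDiff_assoc]
    have h2 : sf p E (insert j F) = sf p E F * sf p (symmDiff E F) {j} := by
      rw [sf_coc, sf_last F j hj, one_mul, symm_insert F j hjF]
    rw [sp_last s F j hj, ← mul_assoc, ih, mul_assoc, sp_one hf hX hss hq, h1, h2, map_mul,
      mul_assoc]

end lift

/-- **Universal property.** -/
theorem lift_exists {S : Type} [Ring S] (hp : ((p : ℕ) : S) = 0) (s w : I → S)
    (hww : ∀ i j, w i * w j = w j * w i) (hsw : ∀ i j, s i * w j = w j * s i)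
    (hss : ∀ i j, i ≠ j → s i * s j = -(s j * s i))
    (hq : ∀ i, s i * s i = if p = 2 then w i else 0) :
    ∃ φ : Tw p I →+* S, (∀ i, φ (t p i) = s i) ∧ ∀ i, φ (v p i) = w i := by
  obtain ⟨f, hX, hfz⟩ := coeff_exists hp w hww
  have hf : ∀ i a, f a * s i = s i * f a := fun i a => hfz (s i) (hsw i) a
  let φ0 : FF p I →+ S := Finsupp.liftAddHom fun E =>
    (AddMonoidHom.mulLeft (sp s E)).comp f.toAddMonoidHom
  have h0 : ∀ E a, φ0 (Finsupp.single E a) = sp s E * f a := by
    intro E a
    show Finsupp.liftAddHom _ (Finsupp.single E a) = _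
    rw [Finsupp.liftAddHom_apply_single]
    rfl
  have hmul : ∀ x y : FF p I, φ0 (mF x y) = φ0 x * φ0 y := by
    intro x y
    refine Finsupp.induction_linear x ?_ ?_ ?_
    · rw [zero_mF, map_zero, zero_mul]
    · intro a b ha hb
      rw [add_mF, map_add, map_add, add_mul, ha, hb]
    intro E a
    refine Finsupp.induction_linear y ?_ ?_ ?_
    · rw [mF_zero, map_zero, mul_zero]
    · intro a b ha hb
      rw [mF_add, map_add, map_add, mul_add, ha, hb]
    intro F b
    rw [mF_single, h0, h0, h0, map_mul, map_mul]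
    calc sp s (symmDiff E F) * (f (sf p E F) * (f a * f b))
        = (f (sf p E F) * sp s (symmDiff E F)) * (f a * f b) := by
          rw [comm_sp hf, mul_assoc]
      _ = sp s E * sp s F * (f a * f b) := by rw [sp_mul hf hX hss hq]
      _ = sp s E * (sp s F * f a) * f b := by simp only [mul_assoc]
      _ = sp s E * (f a * sp s F) * f b := by rw [comm_sp hf]
      _ = _ := by simp only [mul_assoc]
  let φ : Tw p I →+* S :=
    { toFun := φ0
      map_one' := by
        show φ0 (Finsupp.single ∅ 1) = 1
        rw [h0, sp_empty, map_one, one_mul]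
      map_mul' := hmul
      map_zero' := φ0.map_zero
      map_add' := φ0.map_add }
  refine ⟨φ, fun i => ?_, fun i => ?_⟩
  · show φ0 (Finsupp.single {i} (monomial 0 1)) = s i
    rw [h0, show (monomial (0 : I →₀ ℕ) (1 : ZMod p)) = 1 from rfl, map_one, mul_one]
    have h1 : ({i} : Finset I) = insert i ∅ := rfl
    rw [h1, sp_last s ∅ i (fun e he => absurd he (Finset.notMem_empty e)), sp_empty, one_mul]
  · show φ0 (Finsupp.single ∅ (monomial (Finsupp.single i 1) 1)) = w i
    rw [h0, sp_empty, one_mul]
    exact hX i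

theorem natCast_p : ((p : ℕ) : Tw p I) = 0 := by
  have h1 : ((p : ℕ) : Tw p I) = p • (1 : Tw p I) := by rw [nsmul_eq_mul, mul_one]
  have h2 : (p : ℕ) • (1 : Tw p I) = ((p : ℕ) : ZMod p) • (1 : Tw p I) :=
    (Nat.cast_smul_eq_nsmul (ZMod p) p _).symm
  rw [h1, h2, ZMod.natCast_self, zero_smul]

/-- Ring homomorphisms are `ZMod p`-linear. -/
theorem hom_smul (f : Tw p I →+* Tw p J) (c : ZMod p) (x : Tw p I) : f (c • x) = c • f x := by
  rw [smul_int, map_zsmul, ← smul_int]

theorem addHom_smul (f : Tw p I →+ Tw p J) (c : ZMod p) (x : Tw p I) : f (c • x) = c • f x := by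
  rw [smul_int, map_zsmul, ← smul_int]

end Tw

end BPN.E
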