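import Pool.Agent.BPN.E.Tw

/-!
# Part (E), module TwM: homomorphisms of twisted polynomial rings (project BPN, architect helper30)

`lft` : homomorphisms `Tw p I → Tw p J` from odd and even elements; `map κ` : renaming of the generators;
`addm i j` : `t_i ↦ t_i + t_j`, `v_i ↦ v_i + v_j`; `kil D` : kills the generators with index in `D`;
`ιl`, `ιr` : the inclusions in `Tw p (I ⊕ₗ J)`; `JH J₀` : contraction of the left factor with a functional.

PROOFS.
* `lft`: `lift_exists`, parity gives the commutation relations (`Par_comm`).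
* `map_mon`: `t^E` is the product of the `t_i`; after renaming reorder, every transposition gives a sign.  Use
  induction on `E` by the largest element (`mon_mul_t`, `t_mul_mon'`).
* `co_map`: sum over the basis, `map_mon`; different monomials with indices in `D` have different images.
* `ιl_mul_ιr`: `map_mon_mono` for `inl`, `inr` and repeated `mon_mul_t` (elements `inl` are smaller than `inr`).
* `JH`: define it on the basis by `mon (E ⊎ F) (S ⊎ T) ↦ J₀ (mon E S) • mon F T`; every finite subset and every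
  exponent of `I ⊕ₗ J` is uniquely of this form.
-/

namespace BPN.E

open MvPolynomial

namespace Tw

variable {p : ℕ} {I J K : Type} [LinearOrder I] [LinearOrder J] [LinearOrder K]

/-! ### auxiliary lemmas -/

private noncomputable def coHom (E : Finset I) (S : I →₀ ℕ) : Tw p I →+ ZMod p where
  toFun := fun x => co x E S
  map_zero' := co_zero E S
  map_add' := fun x y => co_add x y E S

private theorem co_zsmul (n : ℤ) (x : Tw p I) (E : Finset I) (S : I →₀ ℕ) :
    co (n • x) E S = n • co x E S := map_zsmul (coHom E S) n x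

private theorem repr_co (x : Tw p I) :
    x = ∑ z ∈ (co_finite x).toFinset, co x z.1 z.2 • mon p z.1 z.2 := by
  refine ext_co fun E S => ?_
  rw [co_sum, Finset.sum_eq_single (E, S)]
  · rw [co_smul, co_mon, if_pos ⟨rfl, rfl⟩, mul_one]
  · intro z _ hz
    rw [co_smul, co_mon, if_neg, mul_zero]
    rintro ⟨h1, h2⟩
    exact hz (Prod.ext h1 h2)
  · intro hz
    have h1 : co x E S = 0 := by
      by_contra hne
      exact hz ((co_finite x).mem_toFinset.2 hne)
    rw [co_smul, h1, zero_mul]

private theorem v_ind {P : (I →₀ ℕ) → Prop} (h0 : P 0)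
    (hv : ∀ i S, P S → P (S + Finsupp.single i 1)) (S : I →₀ ℕ) : P S := by
  induction S using Finsupp.induction with
  | zero => exact h0
  | single_add a b f _ _ ih =>
    have h3 : ∀ b : ℕ, P (Finsupp.single a b + f) := by
      intro b
      induction b with
      | zero => simpa using ih
      | succ b ihb =>
        have h1 := hv a _ ihb
        have h2 : Finsupp.single a b + f + Finsupp.single a 1 = Finsupp.single a (b + 1) + f := by
          rw [Finsupp.single_add]
          abel
        rwa [h2] at h1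
    exact h3 b

private theorem mon_ind {P : Finset I → (I →₀ ℕ) → Prop} (h0 : P ∅ 0)
    (hv : ∀ i S, P ∅ S → P ∅ (S + Finsupp.single i 1))
    (ht : ∀ i E S, (∀ e ∈ E, e < i) → P E S → P (insert i E) S) (E : Finset I) (S : I →₀ ℕ) :
    P E S := by
  have hS : P ∅ S := v_ind (P := P ∅) h0 hv S
  induction E using Finset.induction_on_max with
  | empty => exact hS
  | insert a s hs ih => exact ht a s S hs ih

private theorem mon_succ (S : I →₀ ℕ) (i : I) :
    mon p ∅ (S + Finsupp.single i 1) = mon p ∅ S * v p i :=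
  (mon_mul_mon_empty ∅ S (Finsupp.single i 1)).symm

private theorem mon_ins (E : Finset I) (S : I →₀ ℕ) (i : I) (h : ∀ e ∈ E, e < i) :
    mon p (insert i E) S = mon p E S * t p i := (mon_mul_t E S i h).symm

private theorem mon_split (E : Finset I) (S : I →₀ ℕ) : mon p E S = mon p ∅ S * mon p E 0 := by
  rw [mon_empty_mul_mon, zero_add]

private theorem mon_split' (E : Finset I) (S : I →₀ ℕ) : mon p E S = mon p E 0 * mon p ∅ S := by
  rw [mon_mul_mon_empty, zero_add]

private theorem mon_par (E : Finset I) (S : I →₀ ℕ) : mon p E S ∈ Par p I E.card := by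
  intro F T h
  rw [co_mon] at h
  split_ifs at h with h1
  · rw [h1.1]
  · exact absurd rfl h

private theorem par_congr {m n : ℕ} (h : m % 2 = n % 2) {x : Tw p I} (hx : x ∈ Par p I m) :
    x ∈ Par p I n := fun E S hne => (hx E S hne).trans h

private theorem par_smul (c : ZMod p) {n : ℕ} {x : Tw p I} (hx : x ∈ Par p I n) :
    c • x ∈ Par p I n := fun E S hne => hx E S fun h => hne (by rw [co_smul, h, mul_zero])

private theorem one_par : (1 : Tw p I) ∈ Par p I 0 := by
  have := mon_par (p := p) (∅ : Finset I) 0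
  rwa [mon_zero] at this

private theorem mon_mul_mon (E F : Finset I) (S T : I →₀ ℕ) : ∃ c : ZMod p,
    mon p E S * mon p F T =
      c • mon p (symmDiff E F) (S + T + ∑ i ∈ E ∩ F, Finsupp.single i 1) := by
  refine ⟨(-1) ^ inv E F * qq p ^ (E ∩ F).card, ?_⟩
  unfold mon
  rw [sg_mul_sg, ← sg_smul]
  congr 1
  have h1 : (∏ i ∈ E ∩ F, (X i : MvPolynomial I (ZMod p))) =
      monomial (∑ i ∈ E ∩ F, Finsupp.single i 1) 1 := by
    rw [monomial_sum_one]
    rfl
  have h2 : (monomial (S + T + ∑ i ∈ E ∩ F, Finsupp.single i 1) (1 : ZMod p)) =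
      monomial S 1 * monomial T 1 * monomial (∑ i ∈ E ∩ F, Finsupp.single i 1) 1 := by
    rw [monomial_mul, monomial_mul, mul_one, mul_one]
  unfold sf
  rw [Finset.prod_mul_distrib, Finset.prod_const, h1, h2, smul_eq_C_mul, C_mul, C_pow, C_pow,
    C_neg, C_1]
  ring

private theorem t_mul_mon_all (E : Finset I) (i : I) (h : i ∉ E) :
    ∃ ε : ℤ, (ε = 1 ∨ ε = -1) ∧ ∀ S : I →₀ ℕ, t p i * mon p E S = ε • mon p (insert i E) S := by
  obtain ⟨ε, he, h1⟩ := t_mul_mon' (p := p) E 0 i h
  refine ⟨ε, he, fun S => ?_⟩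
  rw [mon_split' E S, ← mul_assoc, h1, smul_mul_assoc, ← mon_split']

private theorem pm_mul {a b : ℤ} (ha : a = 1 ∨ a = -1) (hb : b = 1 ∨ b = -1) :
    a * b = 1 ∨ a * b = -1 := by
  rcases ha with rfl | rfl <;> rcases hb with rfl | rfl <;> simp

private theorem mon_mul_t_all (E : Finset I) (i : I) (h : i ∉ E) :
    ∃ ε : ℤ, (ε = 1 ∨ ε = -1) ∧ ∀ S : I →₀ ℕ, mon p E S * t p i = ε • mon p (insert i E) S := by
  obtain ⟨ε, he, h1⟩ := t_mul_mon_all (p := p) E i h
  refine ⟨(-1) ^ (E.card * 1) * ε, pm_mul (neg_one_pow_eq_or ℤ _) he, fun S => ?_⟩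
  rw [Par_comm (mon_par E S) (t_mem_Par i), h1, smul_smul]

theorem lft_exists (s w : I → Tw p J) (hs : ∀ i, s i ∈ Par p J 1) (hw : ∀ i, w i ∈ Par p J 0)
    (hq : ∀ i, s i * s i = qq p • w i) :
    ∃ φ : Tw p I →+* Tw p J, (∀ i, φ (t p i) = s i) ∧ ∀ i, φ (v p i) = w i := by
  refine lift_exists natCast_p s w (fun i j => ?_) (fun i j => ?_) (fun i j _ => ?_) (fun i => ?_)
  · have h := Par_comm (hw i) (hw j)
    simpa using h
  · have h := Par_comm (hs i) (hw j)
    simpa using h
  · have h := Par_comm (hs i) (hs j)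
    simpa using h
  · rw [hq i, qq]
    split_ifs
    · exact one_smul _ _
    · exact zero_smul _ _

/-- Homomorphism with given values on the generators. -/
noncomputable def lft (s w : I → Tw p J) (hs : ∀ i, s i ∈ Par p J 1) (hw : ∀ i, w i ∈ Par p J 0)
    (hq : ∀ i, s i * s i = qq p • w i) : Tw p I →+* Tw p J :=
  Classical.choose (lft_exists s w hs hw hq)

theorem lft_t {s w : I → Tw p J} {hs : ∀ i, s i ∈ Par p J 1} {hw : ∀ i, w i ∈ Par p J 0}
    {hq : ∀ i, s i * s i = qq p • w i} (i : I) : lft s w hs hw hq (t p i) = s i :=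
  (Classical.choose_spec (lft_exists s w hs hw hq)).1 i

theorem lft_v {s w : I → Tw p J} {hs : ∀ i, s i ∈ Par p J 1} {hw : ∀ i, w i ∈ Par p J 0}
    {hq : ∀ i, s i * s i = qq p • w i} (i : I) : lft s w hs hw hq (v p i) = w i :=
  (Classical.choose_spec (lft_exists s w hs hw hq)).2 i

theorem lft_par {s w : I → Tw p J} {hs : ∀ i, s i ∈ Par p J 1} {hw : ∀ i, w i ∈ Par p J 0}
    {hq : ∀ i, s i * s i = qq p • w i} {n : ℕ} {x : Tw p I} (hx : x ∈ Par p I n) :
    lft s w hs hw hq x ∈ Par p J n := by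
  have key : ∀ (E : Finset I) (S : I →₀ ℕ), lft s w hs hw hq (mon p E S) ∈ Par p J E.card := by
    intro E S
    refine mon_ind (P := fun E S => lft s w hs hw hq (mon p E S) ∈ Par p J E.card) ?_ ?_ ?_ E S
    · rw [mon_zero, map_one]
      exact one_par
    · intro i S h
      rw [mon_succ, map_mul, lft_v]
      exact Par_mul h (hw i)
    · intro i E S hi h
      have hn : i ∉ E := fun hE => lt_irrefl _ (hi i hE)
      rw [mon_ins E S i hi, map_mul, lft_t, Finset.card_insert_of_notMem hn]
      exact Par_mul h (hs i)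
  rw [repr_co x, map_sum]
  refine sum_mem fun z hz => ?_
  rw [hom_smul]
  exact par_smul _ (par_congr (hx z.1 z.2 ((co_finite x).mem_toFinset.1 hz)) (key z.1 z.2))

/-- Renaming of generators. -/
noncomputable def map (p : ℕ) (κ : I → J) : Tw p I →+* Tw p J :=
  lft (fun i => t p (κ i)) (fun i => v p (κ i)) (fun i => t_mem_Par _) (fun i => v_mem_Par _)
    (fun i => t_sq _)

theorem map_t (κ : I → J) (i : I) : map p κ (t p i) = t p (κ i) := lft_t i

theorem map_v (κ : I → J) (i : I) : map p κ (v p i) = v p (κ i) := lft_v i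

theorem map_id (x : Tw p I) : map p (id : I → I) x = x := by
  have h : map p (id : I → I) = RingHom.id (Tw p I) :=
    hom_ext (fun i => by rw [map_t]; rfl) (fun i => by rw [map_v]; rfl)
  rw [h]
  rfl

theorem map_map (κ : I → J) (ρ : J → K) (x : Tw p I) : map p ρ (map p κ x) = map p (ρ ∘ κ) x := by
  have h : (map p ρ).comp (map p κ) = map p (ρ ∘ κ) :=
    hom_ext (fun i => by rw [RingHom.comp_apply, map_t, map_t, map_t]; rfl)
      (fun i => by rw [RingHom.comp_apply, map_v, map_v, map_v]; rfl)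
  rw [← h]
  rfl

private theorem map_mon_empty (κ : I → J) (S : I →₀ ℕ) :
    map p κ (mon p ∅ S) = mon p ∅ (S.mapDomain κ) := by
  refine v_ind (P := fun S => map p κ (mon p ∅ S) = mon p ∅ (S.mapDomain κ)) ?_ ?_ S
  · rw [mon_zero, map_one, Finsupp.mapDomain_zero, mon_zero]
  · intro i S h
    rw [mon_succ, map_mul, h, map_v, Finsupp.mapDomain_add, Finsupp.mapDomain_single, mon_succ]

theorem map_mon (κ : I → J) (E : Finset I) (hE : Set.InjOn κ E) :
    ∃ ε : ℤ, (ε = 1 ∨ ε = -1) ∧ ∀ S : I →₀ ℕ,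
      map p κ (mon p E S) = ε • mon p (E.image κ) (S.mapDomain κ) := by
  induction E using Finset.induction_on_max with
  | empty =>
    refine ⟨1, Or.inl rfl, fun S => ?_⟩
    rw [one_smul, Finset.image_empty]
    exact map_mon_empty κ S
  | insert a s hs ih =>
    obtain ⟨ε, he, h⟩ := ih (hE.mono (by
      intro x hx
      exact Finset.mem_coe.2 (Finset.mem_insert_of_mem (Finset.mem_coe.1 hx))))
    have hn : κ a ∉ s.image κ := by
      intro hm
      obtain ⟨b, hb, hab⟩ := Finset.mem_image.1 hm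
      have h1 : b = a := hE (Finset.mem_coe.2 (Finset.mem_insert_of_mem hb))
        (Finset.mem_coe.2 (Finset.mem_insert_self a s)) hab
      rw [h1] at hb
      exact lt_irrefl _ (hs a hb)
    obtain ⟨δ, hd, h2⟩ := mon_mul_t_all (p := p) (s.image κ) (κ a) hn
    refine ⟨ε * δ, pm_mul he hd, fun S => ?_⟩
    rw [mon_ins s S a hs, map_mul, h, map_t, smul_mul_assoc, h2, smul_smul, Finset.image_insert]

private theorem map_mon_monoOn' (κ : I → J) (E : Finset I) (hκ : StrictMonoOn κ E)
    (S : I →₀ ℕ) : map p κ (mon p E S) = mon p (E.image κ) (S.mapDomain κ) := by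
  induction E using Finset.induction_on_max with
  | empty =>
    rw [Finset.image_empty]
    exact map_mon_empty κ S
  | insert a s hs ih =>
    have hsub : (s : Set I) ⊆ ((insert a s : Finset I) : Set I) := by
      intro x hx
      exact Finset.mem_coe.2 (Finset.mem_insert_of_mem (Finset.mem_coe.1 hx))
    rw [mon_ins s S a hs, map_mul, ih (hκ.mono hsub), map_t, Finset.image_insert, mon_ins]
    intro e he
    obtain ⟨b, hb, rfl⟩ := Finset.mem_image.1 he
    exact hκ (hsub (Finset.mem_coe.2 hb)) (Finset.mem_coe.2 (Finset.mem_insert_self a s)) (hs b hb)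

theorem map_mon_mono (κ : I → J) (hκ : StrictMono κ) (E : Finset I) (S : I →₀ ℕ) :
    map p κ (mon p E S) = mon p (E.image κ) (S.mapDomain κ) :=
  map_mon_monoOn' κ E (hκ.strictMonoOn _) S

theorem map_mon_monoOn (κ : I → J) (E : Finset I) (hκ : StrictMonoOn κ E) (S : I →₀ ℕ) :
    map p κ (mon p E S) = mon p (E.image κ) (S.mapDomain κ) := map_mon_monoOn' κ E hκ S

/-- All monomials of `w` have indices in `D`. -/
def SupIn (w : Tw p I) (D : Set I) : Prop :=
  ∀ E S, co w E S ≠ 0 → (∀ i ∈ E, i ∈ D) ∧ ∀ i ∈ S.support, i ∈ D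

private theorem sup_zero (D : Set I) : SupIn (0 : Tw p I) D := fun E S h =>
  absurd (co_zero E S) h

private theorem sup_add {x y : Tw p I} {D : Set I} (hx : SupIn x D) (hy : SupIn y D) :
    SupIn (x + y) D := by
  intro E S h
  by_cases h1 : co x E S = 0
  · refine hy E S fun h2 => h ?_
    rw [co_add, h1, h2, add_zero]
  · exact hx E S h1

private theorem sup_smul (c : ZMod p) {x : Tw p I} {D : Set I} (hx : SupIn x D) :
    SupIn (c • x) D := fun E S h => hx E S fun h2 => h (by rw [co_smul, h2, mul_zero])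

private theorem sup_sum {ι : Type} (s : Finset ι) (x : ι → Tw p I) {D : Set I}
    (hx : ∀ i ∈ s, SupIn (x i) D) : SupIn (∑ i ∈ s, x i) D := by
  classical
  induction s using Finset.induction_on with
  | empty =>
    rw [Finset.sum_empty]
    exact sup_zero D
  | insert a s ha ih =>
    rw [Finset.sum_insert ha]
    exact sup_add (hx a (Finset.mem_insert_self a s))
      (ih fun i hi => hx i (Finset.mem_insert_of_mem hi))

private theorem sup_mon {E : Finset I} {S : I →₀ ℕ} {D : Set I} (hE : ∀ i ∈ E, i ∈ D)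
    (hS : ∀ i ∈ S.support, i ∈ D) : SupIn (mon p E S) D := by
  intro F T h
  rw [co_mon] at h
  split_ifs at h with h1
  · rw [← h1.1, ← h1.2]
    exact ⟨hE, hS⟩
  · exact absurd rfl h

private theorem sup_mul {x y : Tw p I} {D : Set I} (hx : SupIn x D) (hy : SupIn y D) :
    SupIn (x * y) D := by
  rw [repr_co x, repr_co y, Finset.sum_mul]
  refine sup_sum _ _ fun z hz => ?_
  rw [Finset.mul_sum]
  refine sup_sum _ _ fun u hu => ?_
  rw [smul_mul, mul_smul']
  obtain ⟨z1, z2⟩ := hx z.1 z.2 ((co_finite x).mem_toFinset.1 hz)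
  obtain ⟨u1, u2⟩ := hy u.1 u.2 ((co_finite y).mem_toFinset.1 hu)
  obtain ⟨c, hc⟩ := mon_mul_mon (p := p) z.1 u.1 z.2 u.2
  rw [hc]
  refine sup_smul _ (sup_smul _ (sup_smul _ (sup_mon ?_ ?_)))
  · intro i hi
    rcases Finset.mem_symmDiff.1 hi with h | h
    · exact z1 i h.1
    · exact u1 i h.1
  · intro i hi
    rcases Finset.mem_union.1 (Finsupp.support_add hi) with h | h
    · rcases Finset.mem_union.1 (Finsupp.support_add h) with h | h
      · exact z2 i h
      · exact u2 i h
    · have h1 := Finsupp.support_finsetSum h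
      obtain ⟨j, hj, hji⟩ := Finset.mem_biUnion.1 h1
      have h2 := Finset.mem_singleton.1 (Finsupp.support_single_subset hji)
      rw [h2]
      exact z1 j (Finset.mem_inter.1 hj).1

theorem co_map (κ : I → J) (D : Set I) (hκ : Set.InjOn κ D) (E : Finset I) (hE : ∀ i ∈ E, i ∈ D) :
    ∃ ε : ℤ, (ε = 1 ∨ ε = -1) ∧ ∀ (w : Tw p I) (_ : SupIn w D) (S : I →₀ ℕ)
      (_ : ∀ i ∈ S.support, i ∈ D),
      co (map p κ w) (E.image κ) (S.mapDomain κ) = ε • co w E S := by
  obtain ⟨ε, he, h⟩ := map_mon (p := p) κ E (hκ.mono fun i hi => hE i (Finset.mem_coe.1 hi))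
  refine ⟨ε, he, fun w hw S hS => ?_⟩
  have h1 : map p κ w = ∑ z ∈ (co_finite w).toFinset, co w z.1 z.2 • map p κ (mon p z.1 z.2) := by
    conv_lhs => rw [repr_co w]
    rw [map_sum]
    exact Finset.sum_congr rfl fun z _ => hom_smul _ _ _
  rw [h1, co_sum, Finset.sum_eq_single (E, S)]
  · rw [co_smul, h, co_zsmul, co_mon, if_pos ⟨rfl, rfl⟩, mul_smul_comm, mul_one]
  · intro z hz hne
    obtain ⟨z1, z2⟩ := hw z.1 z.2 ((co_finite w).mem_toFinset.1 hz)
    obtain ⟨δ, -, hd⟩ := map_mon (p := p) κ z.1 (hκ.mono fun i hi => z1 i (Finset.mem_coe.1 hi))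
    rw [co_smul, hd, co_zsmul, co_mon, if_neg, smul_zero, mul_zero]
    rintro ⟨e1, e2⟩
    refine hne (Prod.ext ?_ ?_)
    · ext a
      constructor
      · intro ha
        have h2 : κ a ∈ E.image κ := by
          rw [← e1]
          exact Finset.mem_image_of_mem κ ha
        obtain ⟨b, hb, hab⟩ := Finset.mem_image.1 h2
        rw [← hκ (hE b hb) (z1 a ha) hab]
        exact hb
      · intro ha
        have h2 : κ a ∈ z.1.image κ := by
          rw [e1]
          exact Finset.mem_image_of_mem κ ha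
        obtain ⟨b, hb, hab⟩ := Finset.mem_image.1 h2
        rw [← hκ (z1 b hb) (hE a ha) hab]
        exact hb
    · exact Finsupp.mapDomain_injOn D hκ (fun i hi => z2 i (Finset.mem_coe.1 hi))
        (fun i hi => hS i (Finset.mem_coe.1 hi)) e2
  · intro hz
    have h2 : co w E S = 0 := by
      by_contra hne
      exact hz ((co_finite w).mem_toFinset.2 hne)
    rw [co_smul, h2, zero_mul]

private theorem sup_map_mon (κ : I → J) (D : Set I) (E : Finset I) (S : I →₀ ℕ) :
    (∀ i ∈ E, i ∈ D) → (∀ i ∈ S.support, i ∈ D) →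
      SupIn (map p κ (mon p E S)) (κ '' D) := by
  refine mon_ind (P := fun E S => (∀ i ∈ E, i ∈ D) → (∀ i ∈ S.support, i ∈ D) →
      SupIn (map p κ (mon p E S)) (κ '' D)) ?_ ?_ ?_ E S
  · intro _ _
    rw [mon_zero, map_one, ← mon_zero]
    exact sup_mon (fun i hi => absurd hi (Finset.notMem_empty i))
      (fun i hi => absurd hi (by simp))
  · intro i S h hE hS
    rw [mon_succ, map_mul, map_v]
    refine sup_mul (h hE fun j hj => hS j ?_) (sup_mon (fun i hi => absurd hi (Finset.notMem_empty i))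
      fun j hj => ?_)
    · rw [Finsupp.mem_support_iff] at hj ⊢
      rw [Finsupp.add_apply]
      omega
    · rw [Finset.mem_singleton.1 (Finsupp.support_single_subset hj)]
      refine ⟨i, hS i ?_, rfl⟩
      rw [Finsupp.mem_support_iff, Finsupp.add_apply, Finsupp.single_eq_same]
      omega
  · intro i E S hi h hE hS
    rw [mon_ins E S i hi, map_mul, map_t]
    refine sup_mul (h (fun j hj => hE j (Finset.mem_insert_of_mem hj)) hS)
      (sup_mon (fun j hj => ?_) (fun j hj => absurd hj (by simp)))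
    rw [Finset.mem_singleton.1 hj]
    exact ⟨i, hE i (Finset.mem_insert_self i E), rfl⟩

private theorem sup_map' (κ : I → J) (w : Tw p I) (D : Set I) (hD : SupIn w D) :
    SupIn (map p κ w) (κ '' D) := by
  rw [repr_co w, map_sum]
  refine sup_sum _ _ fun z hz => ?_
  rw [hom_smul]
  obtain ⟨z1, z2⟩ := hD z.1 z.2 ((co_finite w).mem_toFinset.1 hz)
  exact sup_smul _ (sup_map_mon κ D z.1 z.2 z1 z2)

theorem co_map_notMem (κ : I → J) (w : Tw p I) (E : Finset J) (S : J →₀ ℕ) (j : J)
    (hj : j ∈ E ∨ j ∈ S.support) (hκ : ∀ i, κ i ≠ j) : co (map p κ w) E S = 0 := by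
  by_contra hne
  obtain ⟨h1, h2⟩ := sup_map' κ w Set.univ
    (fun _ _ _ => ⟨fun _ _ => Set.mem_univ _, fun _ _ => Set.mem_univ _⟩) E S hne
  rcases hj with h | h
  · obtain ⟨i, -, hi⟩ := h1 j h
    exact hκ i hi
  · obtain ⟨i, -, hi⟩ := h2 j h
    exact hκ i hi

theorem SupIn_map (κ : I → J) (w : Tw p I) (D : Set I) (hD : SupIn w D) :
    SupIn (map p κ w) (κ '' D) := sup_map' κ w D hD

/-- A swap of two odd generators changes the sign of `t^E`. -/
theorem map_swap_mon (i j : I) (hij : i ≠ j) (E : Finset I) (hi : i ∈ E) (hj : j ∈ E) (S : I →₀ ℕ) :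
    map p (Equiv.swap i j) (mon p E S) = -mon p E (S.mapDomain (Equiv.swap i j)) := by
  obtain ⟨F, hF⟩ : ∃ F, F = (E.erase i).erase j := ⟨_, rfl⟩
  have hjF : j ∉ F := by
    rw [hF]
    exact Finset.notMem_erase j _
  have hiF : i ∉ insert j F := by
    rw [hF]
    intro h
    rcases Finset.mem_insert.1 h with h | h
    · exact hij h
    · exact Finset.notMem_erase i E (Finset.mem_of_mem_erase h)
  have hEF : insert i (insert j F) = E := by
    rw [hF, Finset.insert_erase (Finset.mem_erase.2 ⟨hij.symm, hj⟩), Finset.insert_erase hi]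
  obtain ⟨a, ha, h1⟩ := t_mul_mon_all (p := p) F j hjF
  obtain ⟨b, hb, h2⟩ := t_mul_mon_all (p := p) (insert j F) i hiF
  have hab : ∀ S : I →₀ ℕ, mon p E S = (a * b) • (t p i * (t p j * mon p F S)) := by
    intro S
    rw [h1, mul_smul_comm, h2, hEF, smul_smul, smul_smul]
    have h3 : a * b * (a * b) = 1 := by
      rcases pm_mul ha hb with h | h <;> rw [h] <;> norm_num
    rw [show a * b * a * b = a * b * (a * b) by ring, h3, one_smul]
  have hmem : ∀ x ∈ F, Equiv.swap i j x = x := by
    intro x hx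
    refine Equiv.swap_apply_of_ne_of_ne ?_ ?_
    · rintro rfl
      exact hiF (Finset.mem_insert_of_mem hx)
    · rintro rfl
      exact hjF hx
  have himg : F.image (Equiv.swap i j) = F := by
    ext x
    rw [Finset.mem_image]
    constructor
    · rintro ⟨y, hy, rfl⟩
      rw [hmem y hy]
      exact hy
    · intro hx
      exact ⟨x, hx, hmem x hx⟩
  have hF2 : map p (Equiv.swap i j) (mon p F S) = mon p F (S.mapDomain (Equiv.swap i j)) := by
    have h := map_mon_monoOn (p := p) (Equiv.swap i j) F (by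
      intro x hx y hy hxy
      rw [hmem x hx, hmem y hy]
      exact hxy) S
    rw [himg] at h
    exact h
  rw [hab S, map_zsmul, map_mul, map_mul, map_t, map_t, hF2, Equiv.swap_apply_left,
    Equiv.swap_apply_right, ← mul_assoc, t_anti j i, neg_mul, smul_neg, mul_assoc,
    ← hab (S.mapDomain (Equiv.swap i j))]

/-- `t_i ↦ t_i + t_j`, `v_i ↦ v_i + v_j`. -/
noncomputable def addm (p : ℕ) (i j : I) : Tw p I →+* Tw p I :=
  lft (fun l => if l = i then t p i + t p j else t p l)
    (fun l => if l = i then v p i + v p j else v p l)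
    (fun l => by
      split_ifs
      · exact add_mem (t_mem_Par i) (t_mem_Par j)
      · exact t_mem_Par l)
    (fun l => by
      split_ifs
      · exact add_mem (v_mem_Par i) (v_mem_Par j)
      · exact v_mem_Par l)
    (fun l => by
      split_ifs
      · rw [add_mul, mul_add, mul_add, t_sq, t_sq, t_anti i j, smul_add]
        abel
      · exact t_sq l)

theorem addm_t (i j l : I) : addm p i j (t p l) = if l = i then t p i + t p j else t p l := lft_t l

theorem addm_v (i j l : I) : addm p i j (v p l) = if l = i then v p i + v p j else v p l := lft_v l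

open Classical in
/-- Kills the generators with index in `D`. -/
noncomputable def kil (p : ℕ) (D : Set I) : Tw p I →+* Tw p I :=
  lft (fun l => if l ∈ D then 0 else t p l) (fun l => if l ∈ D then 0 else v p l)
    (fun l => by
      split_ifs
      · exact zero_mem _
      · exact t_mem_Par l)
    (fun l => by
      split_ifs
      · exact zero_mem _
      · exact v_mem_Par l)
    (fun l => by
      split_ifs
      · rw [mul_zero, smul_zero]
      · exact t_sq l)

open Classical in
theorem kil_t (D : Set I) (l : I) : kil p D (t p l) = if l ∈ D then 0 else t p l := lft_t l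

open Classical in
theorem kil_v (D : Set I) (l : I) : kil p D (v p l) = if l ∈ D then 0 else v p l := lft_v l

open Classical in
theorem kil_mon (D : Set I) (E : Finset I) (S : I →₀ ℕ) : kil p D (mon p E S) =
    if (∃ i ∈ E, i ∈ D) ∨ ∃ i ∈ S.support, i ∈ D then 0 else mon p E S := by
  have key : ∀ (E : Finset I) (S : I →₀ ℕ),
      (((∃ i ∈ E, i ∈ D) ∨ ∃ i ∈ S.support, i ∈ D) → kil p D (mon p E S) = 0) ∧
      (¬((∃ i ∈ E, i ∈ D) ∨ ∃ i ∈ S.support, i ∈ D) → kil p D (mon p E S) = mon p E S) := by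
    intro E S
    refine mon_ind (P := fun E S =>
      (((∃ i ∈ E, i ∈ D) ∨ ∃ i ∈ S.support, i ∈ D) → kil p D (mon p E S) = 0) ∧
      (¬((∃ i ∈ E, i ∈ D) ∨ ∃ i ∈ S.support, i ∈ D) → kil p D (mon p E S) = mon p E S))
      ?_ ?_ ?_ E S
    · refine ⟨?_, fun _ => ?_⟩
      · rintro (⟨i, hi, -⟩ | ⟨i, hi, -⟩)
        · exact absurd hi (Finset.notMem_empty i)
        · exact absurd hi (by simp)
      · rw [mon_zero, map_one]
    · intro i S ih
      have hsup : ∀ j, j ∈ (S + Finsupp.single i 1).support ↔ j ∈ S.support ∨ j = i := by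
        intro j
        rw [Finsupp.mem_support_iff, Finsupp.mem_support_iff, Finsupp.add_apply,
          Finsupp.single_apply]
        split_ifs with h
        · simp [h]
        · simp [Ne.symm h]
      rw [mon_succ, map_mul, kil_v]
      constructor
      · rintro (⟨j, hj, -⟩ | ⟨j, hj, hD⟩)
        · exact absurd hj (Finset.notMem_empty j)
        · rcases (hsup j).1 hj with h | h
          · rw [ih.1 (Or.inr ⟨j, h, hD⟩), zero_mul]
          · rw [h] at hD
            rw [if_pos hD, mul_zero]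
      · intro hn
        rw [ih.2 ?_, if_neg ?_]
        · intro hD
          exact hn (Or.inr ⟨i, (hsup i).2 (Or.inr rfl), hD⟩)
        · rintro (⟨j, hj, -⟩ | ⟨j, hj, hD⟩)
          · exact absurd hj (Finset.notMem_empty j)
          · exact hn (Or.inr ⟨j, (hsup j).2 (Or.inl hj), hD⟩)
    · intro i E S hi ih
      rw [mon_ins E S i hi, map_mul, kil_t]
      constructor
      · rintro (⟨j, hj, hD⟩ | hS)
        · rcases Finset.mem_insert.1 hj with h | h
          · rw [h] at hD
            rw [if_pos hD, mul_zero]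
          · rw [ih.1 (Or.inl ⟨j, h, hD⟩), zero_mul]
        · rw [ih.1 (Or.inr hS), zero_mul]
      · intro hn
        rw [ih.2 ?_, if_neg ?_]
        · intro hD
          exact hn (Or.inl ⟨i, Finset.mem_insert_self i E, hD⟩)
        · rintro (⟨j, hj, hD⟩ | hS)
          · exact hn (Or.inl ⟨j, Finset.mem_insert_of_mem hj, hD⟩)
          · exact hn (Or.inr hS)
  split_ifs with h
  · exact (key E S).1 h
  · exact (key E S).2 h

/-- Left inclusion. -/
noncomputable def ιl (p : ℕ) (I J : Type) [LinearOrder I] [LinearOrder J] :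
    Tw p I →+* Tw p (I ⊕ₗ J) := map p fun i => toLex (Sum.inl i)

/-- Right inclusion. -/
noncomputable def ιr (p : ℕ) (I J : Type) [LinearOrder I] [LinearOrder J] :
    Tw p J →+* Tw p (I ⊕ₗ J) := map p fun i => toLex (Sum.inr i)

private theorem mon_mul_lt (E F : Finset I) (S T : I →₀ ℕ) :
    (∀ e ∈ E, ∀ f ∈ F, e < f) → mon p E S * mon p F T = mon p (E ∪ F) (S + T) := by
  refine mon_ind (P := fun F T => (∀ e ∈ E, ∀ f ∈ F, e < f) →
    mon p E S * mon p F T = mon p (E ∪ F) (S + T)) ?_ ?_ ?_ F T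
  · intro _
    rw [mon_mul_mon_empty, Finset.union_empty]
  · intro i T _ _
    rw [mon_mul_mon_empty, Finset.union_empty]
  · intro i F T hi ih h
    rw [mon_ins F T i hi, ← mul_assoc, ih fun e he f hf => h e he f (Finset.mem_insert_of_mem hf),
      Finset.union_insert, mon_ins]
    intro e he
    rcases Finset.mem_union.1 he with h1 | h1
    · exact h e h1 i (Finset.mem_insert_self i F)
    · exact hi e h1

private theorem inl_sm : StrictMono (fun i : I => (toLex (Sum.inl i) : I ⊕ₗ J)) :=
  Sum.Lex.inl_strictMono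

private theorem inr_sm : StrictMono (fun j : J => (toLex (Sum.inr j) : I ⊕ₗ J)) :=
  Sum.Lex.inr_strictMono

theorem ιl_mul_ιr (E : Finset I) (S : I →₀ ℕ) (F : Finset J) (T : J →₀ ℕ) :
    ιl p I J (mon p E S) * ιr p I J (mon p F T) =
      mon p ((E.image fun i => toLex (Sum.inl i)) ∪ F.image fun i => toLex (Sum.inr i))
        ((S.mapDomain fun i => toLex (Sum.inl i)) + T.mapDomain fun i => toLex (Sum.inr i)) := by
  have h := mon_mul_lt (p := p) (E.image fun i => (toLex (Sum.inl i) : I ⊕ₗ J))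
    (F.image fun j => (toLex (Sum.inr j) : I ⊕ₗ J)) (S.mapDomain fun i => toLex (Sum.inl i))
    (T.mapDomain fun j => toLex (Sum.inr j)) (by
      intro e he f hf
      obtain ⟨i, -, rfl⟩ := Finset.mem_image.1 he
      obtain ⟨j, -, rfl⟩ := Finset.mem_image.1 hf
      exact Sum.Lex.inl_lt_inr i j)
  unfold ιl ιr
  rw [map_mon_mono _ inl_sm, map_mon_mono _ inr_sm]
  have hd : (instDecidableEqLex (Sum I J) : DecidableEq (I ⊕ₗ J)) =
    @LinearOrder.toDecidableEq (I ⊕ₗ J) _ := Subsingleton.elim _ _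
  rw [hd] at h ⊢
  exact h

private noncomputable def lE (E : Finset (I ⊕ₗ J)) : Finset I :=
  E.preimage (fun i => toLex (Sum.inl i)) (inl_sm.injective.injOn)

private noncomputable def rE (E : Finset (I ⊕ₗ J)) : Finset J :=
  E.preimage (fun j => toLex (Sum.inr j)) (inr_sm.injective.injOn)

private noncomputable def lS (S : (I ⊕ₗ J) →₀ ℕ) : I →₀ ℕ :=
  S.comapDomain (fun i => toLex (Sum.inl i)) (inl_sm.injective.injOn)

private noncomputable def rS (S : (I ⊕ₗ J) →₀ ℕ) : J →₀ ℕ :=
  S.comapDomain (fun j => toLex (Sum.inr j)) (inr_sm.injective.injOn)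

private theorem mem_lE {E : Finset (I ⊕ₗ J)} {i : I} : i ∈ lE E ↔ toLex (Sum.inl i) ∈ E :=
  Finset.mem_preimage

private theorem mem_rE {E : Finset (I ⊕ₗ J)} {j : J} : j ∈ rE E ↔ toLex (Sum.inr j) ∈ E :=
  Finset.mem_preimage

private theorem lS_apply (S : (I ⊕ₗ J) →₀ ℕ) (i : I) : lS S i = S (toLex (Sum.inl i)) := rfl

private theorem rS_apply (S : (I ⊕ₗ J) →₀ ℕ) (j : J) : rS S j = S (toLex (Sum.inr j)) := rfl

private theorem inl_ne_inr (i : I) (j : J) :
    (toLex (Sum.inl i) : I ⊕ₗ J) ≠ toLex (Sum.inr j) := fun h => by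
  have := toLex.injective h
  cases this

private theorem E_dec (E : Finset (I ⊕ₗ J)) :
    ((lE E).image fun i => toLex (Sum.inl i)) ∪ ((rE E).image fun j => toLex (Sum.inr j)) = E := by
  ext z
  obtain ⟨z, rfl⟩ := toLex.surjective z
  rw [Finset.mem_union, Finset.mem_image, Finset.mem_image]
  rcases z with i | j
  · constructor
    · rintro (⟨a, ha, h⟩ | ⟨a, ha, h⟩)
      · rw [← h]
        exact mem_lE.1 ha
      · exact absurd h.symm (inl_ne_inr _ _)
    · intro h
      exact Or.inl ⟨i, mem_lE.2 h, rfl⟩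
  · constructor
    · rintro (⟨a, ha, h⟩ | ⟨a, ha, h⟩)
      · exact absurd h (inl_ne_inr _ _)
      · rw [← h]
        exact mem_rE.1 ha
    · intro h
      exact Or.inr ⟨j, mem_rE.2 h, rfl⟩

private theorem inl_nr (i : I) :
    (toLex (Sum.inl i) : I ⊕ₗ J) ∉ Set.range fun j : J => (toLex (Sum.inr j) : I ⊕ₗ J) := by
  rintro ⟨j, h⟩
  exact inl_ne_inr _ _ h.symm

private theorem inr_nr (j : J) :
    (toLex (Sum.inr j) : I ⊕ₗ J) ∉ Set.range fun i : I => (toLex (Sum.inl i) : I ⊕ₗ J) := by
  rintro ⟨i, h⟩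
  exact inl_ne_inr _ _ h

private theorem md_l (S : I →₀ ℕ) (T : J →₀ ℕ) (i : I) :
    ((S.mapDomain fun i => toLex (Sum.inl i)) +
      T.mapDomain fun j => toLex (Sum.inr j) : (I ⊕ₗ J) →₀ ℕ) (toLex (Sum.inl i)) = S i := by
  rw [Finsupp.add_apply, Finsupp.mapDomain_of_notMem_range _ _ (inl_nr i), add_zero]
  exact Finsupp.mapDomain_apply inl_sm.injective S i

private theorem md_r (S : I →₀ ℕ) (T : J →₀ ℕ) (j : J) :
    ((S.mapDomain fun i => toLex (Sum.inl i)) +
      T.mapDomain fun j => toLex (Sum.inr j) : (I ⊕ₗ J) →₀ ℕ) (toLex (Sum.inr j)) = T j := by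
  rw [Finsupp.add_apply, Finsupp.mapDomain_of_notMem_range _ _ (inr_nr j), zero_add]
  exact Finsupp.mapDomain_apply inr_sm.injective T j

private theorem S_dec (S : (I ⊕ₗ J) →₀ ℕ) :
    ((lS S).mapDomain fun i => toLex (Sum.inl i)) +
      ((rS S).mapDomain fun j => toLex (Sum.inr j)) = S := by
  ext z
  obtain ⟨z, rfl⟩ := toLex.surjective z
  rcases z with i | j
  · rw [md_l, lS_apply]
  · rw [md_r, rS_apply]

private theorem mon_dec (E : Finset (I ⊕ₗ J)) (S : (I ⊕ₗ J) →₀ ℕ) :
    mon p E S = ιl p I J (mon p (lE E) (lS S)) * ιr p I J (mon p (rE E) (rS S)) := by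
  rw [ιl_mul_ιr, E_dec, S_dec]

theorem lex_ext {A : Type} [AddCommGroup A] {f g : Tw p (I ⊕ₗ J) →+ A}
    (h : ∀ x y, f (ιl p I J x * ιr p I J y) = g (ιl p I J x * ιr p I J y)) : f = g := by
  refine addHom_ext fun c E S => ?_
  have h1 : c • mon p E S =
      ιl p I J (c • mon p (lE E) (lS S)) * ιr p I J (mon p (rE E) (rS S)) := by
    rw [hom_smul, smul_mul, ← mon_dec]
  rw [h1]
  exact h _ _

theorem JH_exists (J₀ : Tw p I →+ ZMod p) : ∃ φ : Tw p (I ⊕ₗ J) →+ Tw p J,
    ∀ x y, φ (ιl p I J x * ιr p I J y) = J₀ x • y := by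
  let L : Finset (I ⊕ₗ J) → (MvPolynomial (I ⊕ₗ J) (ZMod p) →ₗ[ZMod p] Tw p J) := fun E =>
    (basisMonomials (I ⊕ₗ J) (ZMod p)).constr (ZMod p)
      fun S => J₀ (mon p (lE E) (lS S)) • mon p (rE E) (rS S)
  have hL : ∀ E S, L E (monomial S 1) = J₀ (mon p (lE E) (lS S)) • mon p (rE E) (rS S) := by
    intro E S
    have h := (basisMonomials (I ⊕ₗ J) (ZMod p)).constr_basis (ZMod p)
      (fun S => J₀ (mon p (lE E) (lS S)) • mon p (rE E) (rS S)) S
    rw [coe_basisMonomials] at h
    exact h
  let φ : Tw p (I ⊕ₗ J) →+ Tw p J :=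
    Finsupp.liftAddHom (N := Tw p J) fun E => (L E).toAddMonoidHom
  have hφ : ∀ (c : ZMod p) E S, φ (c • mon p E S) =
      c • (J₀ (mon p (lE E) (lS S)) • mon p (rE E) (rS S)) := by
    intro c E S
    have h1 : c • mon p E S = sg E (c • monomial S 1) := (sg_smul c E _).symm
    rw [h1]
    have h2 : φ (sg E (c • monomial S 1)) = L E (c • monomial S 1) :=
      Finsupp.liftAddHom_apply_single _ _ _
    rw [h2, map_smul, hL]
  have hmul : ∀ (c d : ZMod p) (E : Finset I) (S : I →₀ ℕ) (F : Finset J) (T : J →₀ ℕ),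
      φ (ιl p I J (c • mon p E S) * ιr p I J (d • mon p F T)) =
        J₀ (c • mon p E S) • (d • mon p F T) := by
    intro c d E S F T
    rw [hom_smul, hom_smul, smul_mul, mul_smul', ιl_mul_ιr, smul_smul, hφ]
    have e1 : lE ((E.image fun i => toLex (Sum.inl i)) ∪ F.image fun i => toLex (Sum.inr i)) = E := by
      ext i
      rw [mem_lE, Finset.mem_union, Finset.mem_image, Finset.mem_image]
      constructor
      · rintro (⟨a, ha, h⟩ | ⟨a, ha, h⟩)
        · have : a = i := inl_sm.injective h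
          rwa [← this]
        · exact absurd h.symm (inl_ne_inr _ _)
      · intro h
        exact Or.inl ⟨i, h, rfl⟩
    have e2 : rE ((E.image fun i => toLex (Sum.inl i)) ∪ F.image fun i => toLex (Sum.inr i)) = F := by
      ext i
      rw [mem_rE, Finset.mem_union, Finset.mem_image, Finset.mem_image]
      constructor
      · rintro (⟨a, ha, h⟩ | ⟨a, ha, h⟩)
        · exact absurd h (inl_ne_inr _ _)
        · have : a = i := inr_sm.injective h
          rwa [← this]
      · intro h
        exact Or.inr ⟨i, h, rfl⟩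
    have e3 : lS ((S.mapDomain fun i => toLex (Sum.inl i)) +
        T.mapDomain fun i => toLex (Sum.inr i)) = S := by
      ext i
      rw [lS_apply, md_l]
    have e4 : rS ((S.mapDomain fun i => toLex (Sum.inl i)) +
        T.mapDomain fun i => toLex (Sum.inr i)) = T := by
      ext i
      rw [rS_apply, md_r]
    rw [e1, e2, e3, e4, ZMod.map_smul J₀ c, smul_smul, smul_smul, smul_eq_mul]
    congr 1
    ring
  refine ⟨φ, fun x y => ?_⟩
  refine induct (P := fun x => φ (ιl p I J x * ιr p I J y) = J₀ x • y) ?_ ?_ ?_ x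
  · rw [map_zero, zero_mul, map_zero, map_zero, zero_smul]
  · intro a b ha hb
    rw [map_add, add_mul, map_add, ha, hb, map_add, add_smul]
  · intro c E S
    refine induct (P := fun y => φ (ιl p I J (c • mon p E S) * ιr p I J y) =
      J₀ (c • mon p E S) • y) ?_ ?_ ?_ y
    · rw [map_zero, mul_zero, map_zero, smul_zero]
    · intro a b ha hb
      rw [map_add, mul_add, map_add, ha, hb, smul_add]
    · intro d F T
      exact hmul c d E S F T

/-- Contraction of the left factor with a functional. -/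
noncomputable def JH (J₀ : Tw p I →+ ZMod p) : Tw p (I ⊕ₗ J) →+ Tw p J :=
  Classical.choose (JH_exists J₀)

theorem JH_mul (J₀ : Tw p I →+ ZMod p) (x : Tw p I) (y : Tw p J) :
    JH J₀ (ιl p I J x * ιr p I J y) = J₀ x • y := Classical.choose_spec (JH_exists J₀) x y

theorem JH_mul_r (J₀ : Tw p I →+ ZMod p) (w : Tw p (I ⊕ₗ J)) (y : Tw p J) :
    JH J₀ (w * ιr p I J y) = JH J₀ w * y := by
  have h : (JH J₀).comp (AddMonoidHom.mulRight (ιr p I J y)) =
      (AddMonoidHom.mulRight y).comp (JH (J := J) J₀) := by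
    refine lex_ext fun a b => ?_
    change JH J₀ (ιl p I J a * ιr p I J b * ιr p I J y) = JH J₀ (ιl p I J a * ιr p I J b) * y
    rw [mul_assoc, ← map_mul, JH_mul, JH_mul, smul_mul]
  exact DFunLike.congr_fun h w

theorem JH_co (J₀ : Tw p I →+ ZMod p) (w : Tw p (I ⊕ₗ J)) (D : Set J)
    (h : SupIn w {z | ∀ j, ofLex z = Sum.inr j → j ∈ D}) : SupIn (JH J₀ w) D := by
  rw [repr_co w, map_sum]
  refine sup_sum _ _ fun z hz => ?_
  obtain ⟨z1, z2⟩ := h z.1 z.2 ((co_finite w).mem_toFinset.1 hz)
  rw [addHom_smul, mon_dec, JH_mul]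
  refine sup_smul _ (sup_smul _ (sup_mon (fun j hj => ?_) (fun j hj => ?_)))
  · exact z1 _ (mem_rE.1 hj) j rfl
  · refine z2 (toLex (Sum.inr j)) ?_ j rfl
    rw [Finsupp.mem_support_iff] at hj ⊢
    rwa [rS_apply] at hj

end Tw

end BPN.E
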