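import Pool.Agent.BPN.E.TwM

/-!
# Part (E), module U: natural operations on `H = Tw p ℕ` (project BPN, architect helper30)

`H = Tw p ℕ` models the cohomology of `B(F_p^ℕ)`: `t i = x_i` of degree 1, `v i = y_i` of degree 2.
`NatOp β` : `β : H → H` additive, compatible with all renamings `map κ`, with `addm i j`, and with the deletion
property: for `u` a monomial in variables `< r`: `β(u x_r) - β(u) x_r` has only monomials with `y_r`, and
`β(u y_r) - β(u) y_r` has only monomials with `y_r^2` or `x_r y_r`.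
`Jc β E R` : the coefficient belonging to `(E, R)`: `u_{E,R} = ∏_{e ∈ E} x_{2e} ∏_{j, c < R j} y_{2 pair(j,c) + 1}`, and one takes
the coefficient of `∏ y_{2e}^{p^e} ∏ y_{2 pair(j,c)+1}^{p^(j+1)}` in `β(u_{E,R})`.

PROOF OF nat_sup, nat_prim.  `ind B = ∑_{b ∈ B} single b 1`.  Multilinear monomials: `mon A (ind B)`, `A`, `B` disjoint.
(1) `nat_sup`: if `i ∉ A ∪ B` choose `i' ≠ i` not in `A ∪ B` and `κ = update id i i'`; `map κ u = u`, so
    `map κ (β u) = β u`, and no monomial of `map κ _` contains the index `i` (`co_map_notMem`).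
(2) `nat_prim`: `w = β(u)`, `i ∈ A ∪ B`, `i'` a fresh index (`i' ∉ A ∪ B`, so `w` does not involve `i'` by (1)),
    `κ = update id i i'`: `addm i i' u = u + map κ u`, so `addm i i' w = w + map κ w`.  Write the monomials of `w` as
    `(F, S)`.  The right side has no monomial containing both `i` and `i'`.
    If `i ∈ F`, `S i = n > 0`: on the left the monomial `(F \ i ∪ i', S)` has coefficient `± co w F S` (only the
    monomial `(F, S)` of `w` contributes: `x_i y_i^n ↦ (x_i + x_i')(y_i + y_i')^n`), so `co w F S = 0`.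
    If `i ∉ F` and `n = S i > 0` is not a power of `p` there is `0 < a < n` with `p ∤ binom(n, a)`; the
    monomial with `y_i^a y_i'^(n-a)` has coefficient `binom(n, a) co w F S`, so `co w F S = 0`.
    If `i ∉ F` and `S i = 0` the coefficient of `(F, S)` is `c` on the left and `2 c` on the right, so `c = 0`.
(3), (4) see module U2.
-/

namespace BPN.E

namespace Tw

/-- Natural operations. -/
structure NatOp (p : ℕ) (β : Tw p ℕ →+ Tw p ℕ) : Prop where
  nat : ∀ (κ : ℕ → ℕ) (u : Tw p ℕ), β (map p κ u) = map p κ (β u)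
  add : ∀ i j : ℕ, i ≠ j → ∀ u : Tw p ℕ, β (addm p i j u) = addm p i j (β u)
  delx : ∀ (r : ℕ) (E : Finset ℕ) (S : ℕ →₀ ℕ), (∀ e ∈ E, e < r) → (∀ e ∈ S.support, e < r) →
    ∀ (F : Finset ℕ) (T : ℕ →₀ ℕ), T r = 0 →
      co (β (mon p E S * t p r) - β (mon p E S) * t p r) F T = 0
  dely : ∀ (r : ℕ) (E : Finset ℕ) (S : ℕ →₀ ℕ), (∀ e ∈ E, e < r) → (∀ e ∈ S.support, e < r) →
    ∀ (F : Finset ℕ) (T : ℕ →₀ ℕ), (T r = 0 ∨ (T r = 1 ∧ r ∉ F)) →
      co (β (mon p E S * v p r) - β (mon p E S) * v p r) F T = 0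

/-- Indicator exponent. -/
noncomputable def ind (B : Finset ℕ) : ℕ →₀ ℕ := ∑ b ∈ B, Finsupp.single b 1

/-- The names of the odd variables. -/
def uA (E : Finset ℕ) : Finset ℕ := E.image fun e => 2 * e

/-- The exponent of the even variables. -/
noncomputable def uB (R : ℕ →₀ ℕ) : ℕ →₀ ℕ :=
  ∑ j ∈ R.support, ∑ c ∈ Finset.range (R j), Finsupp.single (2 * Nat.pair j c + 1) 1

/-- The target exponent. -/
noncomputable def uT (p : ℕ) (E : Finset ℕ) (R : ℕ →₀ ℕ) : ℕ →₀ ℕ :=
  ∑ e ∈ E, Finsupp.single (2 * e) (p ^ e) +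
    ∑ j ∈ R.support, ∑ c ∈ Finset.range (R j), Finsupp.single (2 * Nat.pair j c + 1) (p ^ (j + 1))

/-- The coefficient belonging to `(E, R)`. -/
noncomputable def Jc (p : ℕ) (β : Tw p ℕ →+ Tw p ℕ) (E : Finset ℕ) (R : ℕ →₀ ℕ) : ZMod p :=
  co (β (mon p (uA E) (uB R))) ∅ (uT p E R)

/-! ### general lemmas -/

section gen

variable {p : ℕ} {I : Type} [LinearOrder I]

/-- Multiplication by an odd generator, the sign does not depend on the exponent. -/
theorem t_mul_uni (E : Finset I) (i : I) (h : i ∉ E) : ∃ ε : ℤ, (ε = 1 ∨ ε = -1) ∧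
    ∀ S : I →₀ ℕ, t p i * mon p E S = ε • mon p (insert i E) S := by
  obtain ⟨ε, hε, h1⟩ := t_mul_mon' (p := p) E 0 i h
  refine ⟨ε, hε, fun S => ?_⟩
  have h2 : ∀ F : Finset I, mon p F S = mon p F 0 * mon p ∅ S := fun F => by
    rw [mon_mul_mon_empty, zero_add]
  rw [h2 E, h2 (insert i E), ← mul_assoc, h1, smul_mul_assoc]

variable [Fact p.Prime]

theorem co_kil (D : Set I) (w : Tw p I) (E : Finset I) (S : I →₀ ℕ) (hE : ∀ i ∈ E, i ∈ D)
    (hS : ∀ i ∈ S.support, i ∈ D) : co (kil p Dᶜ w) E S = co w E S := by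
  let f : Tw p I →+ ZMod p :=
    { toFun := fun w => co (kil p Dᶜ w) E S
      map_zero' := by rw [map_zero, co_zero]
      map_add' := fun x y => by rw [map_add, co_add] }
  let g : Tw p I →+ ZMod p :=
    { toFun := fun w => co w E S
      map_zero' := by rw [co_zero]
      map_add' := fun x y => by rw [co_add] }
  have h1 : f = g := addHom_ext fun c F T => by
    change co (kil p Dᶜ (c • mon p F T)) E S = co (c • mon p F T) E S
    rw [hom_smul, kil_mon, co_smul, co_smul]
    split_ifs with h
    · rw [co_zero, co_mon, if_neg]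
      rintro ⟨rfl, rfl⟩
      rcases h with ⟨i, hi, hD⟩ | ⟨i, hi, hD⟩
      · exact hD (hE i hi)
      · exact hD (hS i hi)
    · rfl
  exact DFunLike.congr_fun h1 w

theorem co_kil' (D : Set I) (w : Tw p I) (E : Finset I) (S : I →₀ ℕ)
    (h : (∃ i ∈ E, i ∉ D) ∨ ∃ i ∈ S.support, i ∉ D) : co (kil p Dᶜ w) E S = 0 := by
  let f : Tw p I →+ ZMod p :=
    { toFun := fun w => co (kil p Dᶜ w) E S
      map_zero' := by rw [map_zero, co_zero]
      map_add' := fun x y => by rw [map_add, co_add] }
  have h1 : f = 0 := addHom_ext fun c F T => by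
    change co (kil p Dᶜ (c • mon p F T)) E S = 0
    rw [hom_smul, kil_mon, co_smul]
    split_ifs with h2
    · rw [co_zero, mul_zero]
    · rw [co_mon, if_neg, mul_zero]
      rintro ⟨rfl, rfl⟩
      exact h2 h
  exact DFunLike.congr_fun h1 w

theorem kil_of_sup (D : Set I) (w : Tw p I) (h : SupIn w D) : kil p Dᶜ w = w := by
  refine ext_co fun E S => ?_
  by_cases h1 : (∃ i ∈ E, i ∉ D) ∨ ∃ i ∈ S.support, i ∉ D
  · rw [co_kil' D w E S h1]
    by_contra h2
    obtain ⟨h3, h4⟩ := h E S (Ne.symm h2)
    rcases h1 with ⟨i, hi, hD⟩ | ⟨i, hi, hD⟩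
    · exact hD (h3 i hi)
    · exact hD (h4 i hi)
  · have h2 : ∀ i ∈ E, i ∈ D := fun i hi => by
      by_contra h3
      exact h1 (Or.inl ⟨i, hi, h3⟩)
    have h3 : ∀ i ∈ S.support, i ∈ D := fun i hi => by
      by_contra h3
      exact h1 (Or.inr ⟨i, hi, h3⟩)
    exact co_kil D w E S h2 h3

/-- Additive maps agree on `w` if they agree on the monomials with indices in `D`. -/
theorem ext_sup {A : Type} [AddCommGroup A] (D : Set I) {w : Tw p I} (hw : SupIn w D)
    (f g : Tw p I →+ A)
    (h : ∀ (c : ZMod p) E S, (∀ i ∈ E, i ∈ D) → (∀ i ∈ S.support, i ∈ D) →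
      f (c • mon p E S) = g (c • mon p E S)) : f w = g w := by
  have h1 : f.comp (kil p Dᶜ).toAddMonoidHom = g.comp (kil p Dᶜ).toAddMonoidHom :=
    addHom_ext fun c E S => by
      change f (kil p Dᶜ (c • mon p E S)) = g (kil p Dᶜ (c • mon p E S))
      rw [hom_smul, kil_mon]
      split_ifs with h2
      · rw [smul_zero, map_zero, map_zero]
      · refine h c E S (fun i hi => ?_) (fun i hi => ?_)
        · by_contra h3
          exact h2 (Or.inl ⟨i, hi, h3⟩)
        · by_contra h3
          exact h2 (Or.inr ⟨i, hi, h3⟩)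
  have h2 := DFunLike.congr_fun h1 w
  change f (kil p Dᶜ w) = g (kil p Dᶜ w) at h2
  rwa [kil_of_sup D w hw] at h2

omit [Fact p.Prime] in
theorem kil_fix (i : I) (E : Finset I) (S : I →₀ ℕ) (hE : i ∉ E) (hS : i ∉ S.support) :
    kil p {i} (mon p E S) = mon p E S := by
  rw [kil_mon, if_neg]
  rintro (⟨l, hl, h⟩ | ⟨l, hl, h⟩)
  · rw [Set.mem_singleton_iff] at h
    exact hE (h ▸ hl)
  · rw [Set.mem_singleton_iff] at h
    exact hS (h ▸ hl)

omit [Fact p.Prime] in
theorem addm_fix (i j : I) (E : Finset I) (S : I →₀ ℕ) (hE : i ∉ E) (hS : i ∉ S.support) :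
    addm p i j (mon p E S) = mon p E S := by
  have h1 : (addm p i j).comp (kil p {i}) = kil p {i} := by
    refine hom_ext (fun l => ?_) (fun l => ?_)
    · rw [RingHom.comp_apply, kil_t]
      split_ifs with h
      · rw [map_zero]
      · rw [addm_t, if_neg (fun h2 => h (Set.mem_singleton_iff.2 h2))]
    · rw [RingHom.comp_apply, kil_v]
      split_ifs with h
      · rw [map_zero]
      · rw [addm_v, if_neg (fun h2 => h (Set.mem_singleton_iff.2 h2))]
  have h2 := DFunLike.congr_fun h1 (mon p E S)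
  rwa [RingHom.comp_apply, kil_fix i E S hE hS] at h2

omit [Fact p.Prime] in
theorem map_upd_fix (i j : I) (E : Finset I) (S : I →₀ ℕ) (hE : i ∉ E) (hS : i ∉ S.support) :
    map p (Function.update id i j) (mon p E S) = mon p E S := by
  have h1 : (map p (Function.update id i j)).comp (kil p {i}) = kil p {i} := by
    refine hom_ext (fun l => ?_) (fun l => ?_)
    · rw [RingHom.comp_apply, kil_t]
      split_ifs with h
      · rw [map_zero]
      · rw [map_t, Function.update_of_ne (fun h2 => h (Set.mem_singleton_iff.2 h2)), id]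
    · rw [RingHom.comp_apply, kil_v]
      split_ifs with h
      · rw [map_zero]
      · rw [map_v, Function.update_of_ne (fun h2 => h (Set.mem_singleton_iff.2 h2)), id]
  have h2 := DFunLike.congr_fun h1 (mon p E S)
  rwa [RingHom.comp_apply, kil_fix i E S hE hS] at h2

/-- The exponent `S` with `S i` distributed over `i` and `j`. -/
noncomputable def spl (S : I →₀ ℕ) (i j : I) (a b : ℕ) : I →₀ ℕ :=
  S.erase i + Finsupp.single i a + Finsupp.single j b

omit [Fact p.Prime] in
theorem mon_split (E : Finset I) (S : I →₀ ℕ) (i : I) :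
    mon p E S = mon p E (S.erase i) * v p i ^ S i := by
  rw [v_pow, mon_mul_mon_empty, Finsupp.erase_add_single]

omit [Fact p.Prime] in
theorem addm_mon₀ (i j : I) (E : Finset I) (S : I →₀ ℕ) (hE : i ∉ E) :
    addm p i j (mon p E S) = ∑ a ∈ Finset.range (S i + 1),
      ((S i).choose a : ℤ) • mon p E (spl S i j a (S i - a)) := by
  rw [mon_split E S i, map_mul, map_pow, addm_v, if_pos rfl, addm_fix i j E _ hE
    (by rw [Finsupp.support_erase]; exact Finset.notMem_erase _ _),
    (show Commute (v p i) (v p j) from v_comm i (v p j)).add_pow, Finset.mul_sum]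
  refine Finset.sum_congr rfl fun a _ => ?_
  rw [v_pow, v_pow, ← mul_assoc, ← mul_assoc, mon_mul_mon_empty, mon_mul_mon_empty, spl,
    natCast_zsmul, nsmul_eq_mul, Nat.cast_comm]

omit [Fact p.Prime] in
/-- `addm` on a monomial with `i ∈ E`. -/
theorem addm_mon₁ (i j : I) (E : Finset I) (hE : i ∈ E) (hj : j ∉ E) :
    ∃ ε : ℤ, (ε = 1 ∨ ε = -1) ∧ ∀ S : I →₀ ℕ,
      addm p i j (mon p E S) = ∑ a ∈ Finset.range (S i + 1),
      ((S i).choose a : ℤ) • (mon p E (spl S i j a (S i - a)) +
        ε • mon p (insert j (E.erase i)) (spl S i j a (S i - a))) := by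
  obtain ⟨ε, hε, h1⟩ := t_mul_uni (p := p) (E.erase i) i (Finset.notMem_erase _ _)
  obtain ⟨δ, hδ, h2⟩ := t_mul_uni (p := p) (E.erase i) j
    (fun h => hj (Finset.mem_of_mem_erase h))
  rw [Finset.insert_erase hE] at h1
  have hεε : ε * ε = 1 := by rcases hε with rfl | rfl <;> rfl
  refine ⟨ε * δ, by rcases hε with rfl | rfl <;> rcases hδ with rfl | rfl <;> decide,
    fun S => ?_⟩
  have h3 : ∀ T, mon p E T = ε • (t p i * mon p (E.erase i) T) := fun T => by
    rw [h1, smul_smul, hεε, one_smul]
  have h4 : ∀ T, (ε * δ) • mon p (insert j (E.erase i)) T = ε • (t p j * mon p (E.erase i) T) :=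
    fun T => by rw [h2, smul_smul]
  rw [h3 S, map_zsmul, map_mul, addm_t, if_pos rfl,
    addm_mon₀ i j _ S (Finset.notMem_erase _ _), Finset.mul_sum, Finset.smul_sum]
  refine Finset.sum_congr rfl fun a _ => ?_
  rw [h3, h4, ← smul_add, ← add_mul, mul_smul_comm, smul_comm]

omit [LinearOrder I] in
theorem spl_i [DecidableEq I] (S : I →₀ ℕ) (i j : I) (a b : ℕ) (hij : i ≠ j) :
    spl S i j a b i = a := by
  rw [spl, Finsupp.add_apply, Finsupp.add_apply, Finsupp.erase_same, Finsupp.single_eq_same,
    Finsupp.single_eq_of_ne hij, zero_add, add_zero]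

omit [LinearOrder I] in
theorem spl_j [DecidableEq I] (S : I →₀ ℕ) (i j : I) (a b : ℕ) (hij : i ≠ j) (hS : S j = 0) :
    spl S i j a b j = b := by
  rw [spl, Finsupp.add_apply, Finsupp.add_apply, Finsupp.erase_ne hij.symm, hS,
    Finsupp.single_eq_same, Finsupp.single_eq_of_ne hij.symm, zero_add, zero_add]

omit [LinearOrder I] in
theorem spl_l [DecidableEq I] (S : I →₀ ℕ) (i j : I) (a b : ℕ) (l : I) (hi : l ≠ i)
    (hj : l ≠ j) : spl S i j a b l = S l := by
  rw [spl, Finsupp.add_apply, Finsupp.add_apply, Finsupp.erase_ne hi,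
    Finsupp.single_eq_of_ne hi, Finsupp.single_eq_of_ne hj, add_zero, add_zero]

omit [LinearOrder I] in
theorem spl_eq [DecidableEq I] {S T : I →₀ ℕ} {i j : I} {a b c d : ℕ} (hij : i ≠ j)
    (hS : S j = 0) (hT : T j = 0) (h : spl S i j a b = spl T i j c d) :
    a = c ∧ b = d ∧ ∀ l, l ≠ i → S l = T l := by
  refine ⟨?_, ?_, fun l hl => ?_⟩
  · have h1 := DFunLike.congr_fun h i
    rwa [spl_i S i j a b hij, spl_i T i j c d hij] at h1
  · have h1 := DFunLike.congr_fun h j
    rwa [spl_j S i j a b hij hS, spl_j T i j c d hij hT] at h1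
  · by_cases hj : l = j
    · rw [hj, hS, hT]
    · have h1 := DFunLike.congr_fun h l
      rwa [spl_l S i j a b l hl hj, spl_l T i j c d l hl hj] at h1

omit [LinearOrder I] in
theorem spl_self [DecidableEq I] (S : I →₀ ℕ) (i j : I) : spl S i j (S i) 0 = S := by
  rw [spl, Finsupp.single_zero, add_zero, Finsupp.erase_add_single]

theorem co_zsmul (n : ℤ) (x : Tw p I) (E : Finset I) (S : I →₀ ℕ) :
    co (n • x) E S = n * co x E S := by
  rw [← Int.cast_smul_eq_zsmul (ZMod p) n x, co_smul]

/-- Coefficients of `addm i j (mon E T)` at monomials `(F, spl S i j a b)` without `t_i`, `t_j`. -/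
theorem co_addm₀ {i j : I} (hij : i ≠ j) (F : Finset I) (S : I →₀ ℕ) (hiF : i ∉ F) (hjF : j ∉ F)
    (hjS : S j = 0) {a : ℕ} (ha : a ≤ S i) (E : Finset I) (T : I →₀ ℕ) (hjE : j ∉ E)
    (hjT : T j = 0) :
    co (addm p i j (mon p E T)) F (spl S i j a (S i - a)) =
      ((S i).choose a : ZMod p) * co (mon p E T) F S := by
  by_cases hiE : i ∈ E
  · have hne : E ≠ F := fun h => hiF (h ▸ hiE)
    obtain ⟨ε, -, h⟩ := addm_mon₁ (p := p) i j E hiE hjE
    have hne' : insert j (E.erase i) ≠ F := fun h => hjF (h ▸ Finset.mem_insert_self _ _)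
    rw [h, co_sum, co_mon, if_neg (fun h => hne h.1), mul_zero]
    refine Finset.sum_eq_zero fun b _ => ?_
    rw [co_zsmul, co_add, co_zsmul, co_mon, co_mon, if_neg (fun h => hne h.1),
      if_neg (fun h => hne' h.1), mul_zero, add_zero, mul_zero]
  · rw [addm_mon₀ i j E T hiE, co_sum]
    by_cases hEF : E = F ∧ T = S
    · obtain ⟨rfl, rfl⟩ := hEF
      rw [Finset.sum_eq_single a]
      · rw [co_zsmul, co_mon, co_mon, if_pos ⟨rfl, rfl⟩, if_pos ⟨rfl, rfl⟩, Int.cast_natCast]
      · intro b _ hb
        rw [co_zsmul, co_mon, if_neg, mul_zero]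
        rintro ⟨-, h⟩
        exact hb (spl_eq hij hjT hjT h).1
      · intro h
        exact absurd (Finset.mem_range.2 (by omega)) h
    · rw [co_mon, if_neg hEF, mul_zero]
      refine Finset.sum_eq_zero fun b hb => ?_
      rw [co_zsmul, co_mon, if_neg, mul_zero]
      rintro ⟨h1, h2⟩
      obtain ⟨h3, h4, h5⟩ := spl_eq hij hjT hjS h2
      refine hEF ⟨h1, ?_⟩
      ext l
      by_cases hl : l = i
      · have h6 := Finset.mem_range.1 hb
        rw [hl]
        omega
      · exact h5 l hl

/-- Coefficients of `addm i j (mon E T)` at `(F \ i ∪ j, S)`. -/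
theorem co_addm₁ {i j : I} (hij : i ≠ j) (F : Finset I) (hiF : i ∈ F) (hjF : j ∉ F) :
    ∃ ε : ℤ, (ε = 1 ∨ ε = -1) ∧ ∀ (S : I →₀ ℕ) (_ : S j = 0) (E : Finset I) (T : I →₀ ℕ)
      (_ : j ∉ E) (_ : T j = 0),
      co (addm p i j (mon p E T)) (insert j (F.erase i)) S = ε * co (mon p E T) F S := by
  obtain ⟨ε, hε, hF⟩ := addm_mon₁ (p := p) i j F hiF hjF
  refine ⟨ε, hε, fun S hjS E T hjE hjT => ?_⟩
  have hne : E ≠ insert j (F.erase i) := fun h => hjE (h ▸ Finset.mem_insert_self _ _)
  by_cases hEF : E = F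
  · subst hEF
    rw [hF, co_sum]
    by_cases hTS : T = S
    · subst hTS
      rw [Finset.sum_eq_single (T i)]
      · rw [Nat.sub_self, spl_self, Nat.choose_self, co_zsmul, co_add, co_zsmul, co_mon, co_mon,
          co_mon, if_neg (fun h => hne h.1), if_pos ⟨rfl, rfl⟩, if_pos ⟨rfl, rfl⟩]
        simp
      · intro b _ hb
        rw [co_zsmul, co_add, co_zsmul, co_mon, co_mon, if_neg (fun h => hne h.1), if_neg,
          mul_zero, add_zero, mul_zero]
        rintro ⟨-, h⟩
        have h2 := DFunLike.congr_fun h i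
        rw [spl_i _ i j _ _ hij] at h2
        exact hb h2
      · intro h
        exact absurd (Finset.mem_range.2 (by omega)) h
    · rw [co_mon, if_neg (fun h => hTS h.2), mul_zero]
      refine Finset.sum_eq_zero fun b hb => ?_
      rw [co_zsmul, co_add, co_zsmul, co_mon, co_mon, if_neg (fun h => hne h.1), if_neg,
        mul_zero, add_zero, mul_zero]
      rintro ⟨-, h⟩
      rw [← spl_self S i j] at h
      obtain ⟨h3, h4, h5⟩ := spl_eq hij hjT hjS h
      refine hTS ?_
      ext l
      by_cases hl : l = i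
      · have h6 := Finset.mem_range.1 hb
        rw [hl]
        omega
      · exact h5 l hl
  · rw [co_mon, if_neg (fun h => hEF h.1), mul_zero]
    by_cases hiE : i ∈ E
    · obtain ⟨δ, -, h⟩ := addm_mon₁ (p := p) i j E hiE hjE
      rw [h, co_sum]
      refine Finset.sum_eq_zero fun b _ => ?_
      rw [co_zsmul, co_add, co_zsmul, co_mon, co_mon, if_neg (fun h => hne h.1), if_neg,
        mul_zero, add_zero, mul_zero]
      rintro ⟨h1, -⟩
      refine hEF ?_
      have h2 : E.erase i = F.erase i := by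
        rw [← Finset.erase_insert (s := E.erase i) (a := j)
          (fun h => hjE (Finset.mem_of_mem_erase h)), h1, Finset.erase_insert
          (fun h => hjF (Finset.mem_of_mem_erase h))]
      rw [← Finset.insert_erase hiE, h2, Finset.insert_erase hiF]
    · rw [addm_mon₀ i j E T hiE, co_sum]
      refine Finset.sum_eq_zero fun b _ => ?_
      rw [co_zsmul, co_mon, if_neg (fun h => hne h.1), mul_zero]

end gen

/-! ### natural operations -/

theorem ind_apply (B : Finset ℕ) (i : ℕ) : ind B i = if i ∈ B then 1 else 0 := by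
  rw [ind, Finsupp.finsetSum_apply]
  simp [Finsupp.single_apply]

theorem ind_support (B : Finset ℕ) : (ind B).support = B := by
  ext i
  rw [Finsupp.mem_support_iff, ind_apply]
  simp

theorem ind_erase {B : Finset ℕ} {i : ℕ} (h : i ∈ B) :
    ind (B.erase i) + Finsupp.single i 1 = ind B := by
  rw [ind, ind, add_comm, Finset.add_sum_erase B (fun b => Finsupp.single b 1) h]

/-- A natural number `n > 0` which is not a power of `p` has a binomial coefficient prime to `p`. -/
theorem exists_choose (p : ℕ) [Fact p.Prime] (n : ℕ) (hn : 0 < n) (h : ∀ k, n ≠ p ^ k) :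
    ∃ a, 0 < a ∧ a < n ∧ ((n.choose a : ℕ) : ZMod p) ≠ 0 := by
  have hp : p.Prime := Fact.out
  have h1 : ∀ m a : ℕ, (((p * m).choose (p * a) : ℕ) : ZMod p) = (m.choose a : ℕ) := by
    intro m a
    have h2 := Choose.choose_modEq_choose_mod_mul_choose_div_nat (p := p) (n := p * m)
      (k := p * a)
    rw [Nat.mul_mod_right, Nat.mul_mod_right, Nat.choose_self, one_mul,
      Nat.mul_div_cancel_left _ hp.pos, Nat.mul_div_cancel_left _ hp.pos] at h2
    exact (ZMod.natCast_eq_natCast_iff _ _ _).2 h2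
  have h2 : ∀ k m a : ℕ, (((p ^ k * m).choose (p ^ k * a) : ℕ) : ZMod p) = (m.choose a : ℕ) := by
    intro k
    induction k with
    | zero => intro m a; rw [pow_zero, one_mul, one_mul]
    | succ k ih =>
      intro m a
      rw [pow_succ', mul_assoc, mul_assoc, h1, ih]
  obtain ⟨k, m, hm, rfl⟩ : ∃ k m : ℕ, ¬ p ∣ m ∧ n = p ^ k * m :=
    Nat.exists_eq_pow_mul_and_not_dvd hn.ne' p hp.ne_one
  have hpk : 0 < p ^ k := pow_pos hp.pos k
  have hm1 : 1 < m := by
    rcases Nat.lt_or_ge 1 m with h3 | h3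
    · exact h3
    · exfalso
      have h4 : m ≠ 0 := fun h => hm (h ▸ dvd_zero p)
      have h5 : m = 1 := by omega
      exact h k (by rw [h5, mul_one])
  refine ⟨p ^ k, hpk, ?_, ?_⟩
  · nlinarith
  · have h3 := h2 k m 1
    rw [mul_one, Nat.choose_one_right] at h3
    rw [h3]
    intro h4
    exact hm ((ZMod.natCast_eq_zero_iff _ _).1 h4)

variable {p : ℕ} [Fact p.Prime] {β : Tw p ℕ →+ Tw p ℕ}

theorem nat_sup (hβ : NatOp p β) (A B : Finset ℕ) (h : Disjoint A B) :
    SupIn (β (mon p A (ind B))) (A ∪ B : Finset ℕ) := by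
  have key : ∀ i, i ∉ A ∪ B → ∀ E S, (i ∈ E ∨ i ∈ S.support) →
      co (β (mon p A (ind B))) E S = 0 := by
    intro i hi E S hES
    rw [Finset.mem_union, not_or] at hi
    have h1 : map p (Function.update id i (i + 1)) (mon p A (ind B)) = mon p A (ind B) :=
      map_upd_fix i (i + 1) A (ind B) hi.1 (by rw [ind_support]; exact hi.2)
    have h2 := hβ.nat (Function.update id i (i + 1)) (mon p A (ind B))
    rw [h1] at h2
    rw [h2]
    refine co_map_notMem _ _ E S i hES fun l => ?_
    by_cases hl : l = i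
    · rw [hl, Function.update_self]
      omega
    · rw [Function.update_of_ne hl]
      exact hl
  intro E S hc
  refine ⟨fun i hi => ?_, fun i hi => ?_⟩
  · by_contra h3
    exact hc (key i h3 E S (Or.inl hi))
  · by_contra h3
    exact hc (key i h3 E S (Or.inr hi))

/-- `addm i j u = u + map κ u` for multilinear monomials `u` containing `i`, not containing `j`. -/
theorem addm_lin (A B : Finset ℕ) (h : Disjoint A B) (i j : ℕ) (hi : i ∈ A ∪ B) :
    addm p i j (mon p A (ind B)) =
      mon p A (ind B) + map p (Function.update id i j) (mon p A (ind B)) := by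
  rcases Finset.mem_union.1 hi with hA | hB
  · have hB : i ∉ B := Finset.disjoint_left.1 h hA
    obtain ⟨ε, hε, h1⟩ := t_mul_uni (p := p) (A.erase i) i (Finset.notMem_erase _ _)
    rw [Finset.insert_erase hA] at h1
    have h2 := h1 (ind B)
    have h3 : addm p i j (t p i * mon p (A.erase i) (ind B)) = t p i * mon p (A.erase i) (ind B) +
        map p (Function.update id i j) (t p i * mon p (A.erase i) (ind B)) := by
      rw [map_mul, map_mul, addm_t, if_pos rfl, map_t, Function.update_self,
        addm_fix i j _ _ (Finset.notMem_erase _ _) (by rw [ind_support]; exact hB),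
        map_upd_fix i j _ _ (Finset.notMem_erase _ _) (by rw [ind_support]; exact hB), add_mul]
    rw [h2] at h3
    rcases hε with rfl | rfl
    · rwa [one_smul] at h3
    · rw [neg_smul, one_smul, map_neg, map_neg, ← neg_add] at h3
      exact neg_injective h3
  · have hA : i ∉ A := Finset.disjoint_right.1 h hB
    have h2 : mon p A (ind B) = mon p A (ind (B.erase i)) * v p i := by
      rw [v, mon_mul_mon_empty, ind_erase hB]
    rw [h2, map_mul, map_mul, addm_v, if_pos rfl, map_v, Function.update_self,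
      addm_fix i j _ _ hA (by rw [ind_support]; exact Finset.notMem_erase _ _),
      map_upd_fix i j _ _ hA (by rw [ind_support]; exact Finset.notMem_erase _ _), mul_add]

theorem nat_prim (hβ : NatOp p β) (A B : Finset ℕ) (h : Disjoint A B) (F : Finset ℕ) (S : ℕ →₀ ℕ)
    (hc : co (β (mon p A (ind B))) F S ≠ 0) (i : ℕ) (hi : i ∈ A ∪ B) :
    (i ∈ F ∧ S i = 0) ∨ (i ∉ F ∧ ∃ k : ℕ, S i = p ^ k) := by
  obtain ⟨w, hw⟩ : ∃ w, w = β (mon p A (ind B)) := ⟨_, rfl⟩
  have hsup : SupIn w (A ∪ B : Finset ℕ) := hw ▸ nat_sup hβ A B h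
  rw [← hw] at hc
  -- a fresh index
  obtain ⟨j, hj⟩ : ∃ j, j ∉ A ∪ B := Infinite.exists_notMem_finset _
  have hij : i ≠ j := fun h => hj (h ▸ hi)
  have hFD : ∀ l ∈ F, l ∈ A ∪ B := (hsup F S hc).1
  have hSD : ∀ l ∈ S.support, l ∈ A ∪ B := (hsup F S hc).2
  have hjF : j ∉ F := fun h => hj (hFD j h)
  have hjS : S j = 0 := by
    by_contra h1
    exact hj (hSD j (Finsupp.mem_support_iff.2 h1))
  have heq : addm p i j w = w + map p (Function.update id i j) w := by
    rw [hw, ← hβ.add i j hij, addm_lin A B h i j hi, map_add, hβ.nat]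
  have hnj : ∀ E T, (j ∈ E ∨ j ∈ T.support) → co w E T = 0 := by
    intro E T hET
    by_contra h1
    rcases hET with h2 | h2
    · exact hj ((hsup E T h1).1 j h2)
    · exact hj ((hsup E T h1).2 j h2)
  have hni : ∀ E T, (i ∈ E ∨ i ∈ T.support) →
      co (map p (Function.update id i j) w) E T = 0 := by
    intro E T hET
    refine co_map_notMem _ _ E T i hET fun l => ?_
    by_cases hl : l = i
    · rw [hl, Function.update_self]
      exact hij.symm
    · rw [Function.update_of_ne hl]
      exact hl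
  let cof : Finset ℕ → (ℕ →₀ ℕ) → Tw p ℕ →+ ZMod p := fun E T =>
    { toFun := fun w => co w E T
      map_zero' := by rw [co_zero]
      map_add' := fun x y => by rw [co_add] }
  have hT : ∀ T : ℕ →₀ ℕ, (∀ l ∈ T.support, l ∈ ((A ∪ B : Finset ℕ) : Set ℕ)) → T j = 0 := by
    intro T hT
    by_contra h1
    exact hj (hT j (Finsupp.mem_support_iff.2 h1))
  by_cases hiF : i ∈ F
  · left
    refine ⟨hiF, ?_⟩
    by_contra hSi
    apply hc
    obtain ⟨ε, hε, h1⟩ := co_addm₁ (p := p) hij F hiF hjF
    have h2 : co (addm p i j w) (insert j (F.erase i)) S = ε * co w F S := by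
      refine ext_sup ((A ∪ B : Finset ℕ) : Set ℕ) hsup
        ((cof (insert j (F.erase i)) S).comp (addm p i j).toAddMonoidHom)
        ((AddMonoidHom.mulLeft (ε : ZMod p)).comp (cof F S)) fun c E T hE hT' => ?_
      change co (addm p i j (c • mon p E T)) (insert j (F.erase i)) S =
        ε * co (c • mon p E T) F S
      rw [hom_smul, co_smul, co_smul, h1 S hjS E T (fun h => hj (hE j h)) (hT T hT'),
        mul_left_comm]
    rw [heq, co_add, hnj _ _ (Or.inl (Finset.mem_insert_self _ _)),
      hni _ _ (Or.inr (Finsupp.mem_support_iff.2 hSi)), add_zero] at h2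
    rcases hε with rfl | rfl
    · rw [Int.cast_one, one_mul] at h2
      exact h2.symm
    · rw [Int.cast_neg, Int.cast_one, neg_mul, one_mul, zero_eq_neg] at h2
      exact h2
  · right
    refine ⟨hiF, ?_⟩
    have h1 : ∀ a, a ≤ S i → co (addm p i j w) F (spl S i j a (S i - a)) =
        ((S i).choose a : ZMod p) * co w F S := by
      intro a ha
      refine ext_sup ((A ∪ B : Finset ℕ) : Set ℕ) hsup
        ((cof F (spl S i j a (S i - a))).comp (addm p i j).toAddMonoidHom)
        ((AddMonoidHom.mulLeft ((S i).choose a : ZMod p)).comp (cof F S)) fun c E T hE hT' => ?_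
      change co (addm p i j (c • mon p E T)) F (spl S i j a (S i - a)) =
        ((S i).choose a : ZMod p) * co (c • mon p E T) F S
      rw [hom_smul, co_smul, co_smul, co_addm₀ hij F S hiF hjF hjS ha E T
        (fun h => hj (hE j h)) (hT T hT'), mul_left_comm]
    by_cases hSi : S i = 0
    · exfalso
      have h2 := h1 0 (Nat.zero_le _)
      have hs : spl S i j 0 (S i - 0) = S := by
        rw [Nat.sub_zero, hSi]
        have h3 := spl_self S i j
        rwa [hSi] at h3
      rw [hs, Nat.choose_zero_right, Nat.cast_one, one_mul, heq, co_add] at h2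
      have h3 : co (map p (Function.update id i j) w) F S = 0 := by
        linear_combination h2
      obtain ⟨ε, hε, h4⟩ := co_map (p := p) (Function.update id i j)
        ((A ∪ B : Finset ℕ) : Set ℕ) (fun x hx y hy hxy => by
          have hx' : x ≠ j := fun h => hj (h ▸ hx)
          have hy' : y ≠ j := fun h => hj (h ▸ hy)
          by_cases hxi : x = i
          · by_cases hyi : y = i
            · rw [hxi, hyi]
            · rw [hxi, Function.update_self, Function.update_of_ne hyi] at hxy
              exact absurd hxy.symm hy'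
          · by_cases hyi : y = i
            · rw [hyi, Function.update_self, Function.update_of_ne hxi] at hxy
              exact absurd hxy hx'
            · rwa [Function.update_of_ne hxi, Function.update_of_ne hyi] at hxy) F hFD
      have h5 := h4 w hsup S hSD
      have h6 : F.image (Function.update id i j) = F := by
        conv_rhs => rw [← Finset.image_id (s := F)]
        refine Finset.image_congr fun x hx => ?_
        exact Function.update_of_ne (fun h : x = i => hiF (h ▸ hx)) _ _
      have h7 : S.mapDomain (Function.update id i j) = S := by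
        conv_rhs => rw [← Finsupp.mapDomain_id (v := S)]
        refine Finsupp.mapDomain_congr fun x hx => ?_
        exact Function.update_of_ne (fun h : x = i => Finsupp.mem_support_iff.1 hx (h ▸ hSi)) _ _
      rw [h6, h7, h3] at h5
      apply hc
      rcases hε with rfl | rfl
      · rw [one_smul] at h5
        exact h5.symm
      · rw [neg_smul, one_smul, zero_eq_neg] at h5
        exact h5
    · by_contra hpow
      push Not at hpow
      obtain ⟨a, ha0, han, ha⟩ := exists_choose p (S i) (Nat.pos_of_ne_zero hSi) hpow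
      have h2 := h1 a han.le
      rw [heq, co_add, hnj _ _ (Or.inr (Finsupp.mem_support_iff.2 (by
          rw [spl_j _ _ _ _ _ hij hjS]; omega))),
        hni _ _ (Or.inr (Finsupp.mem_support_iff.2 (by
          rw [spl_i _ _ _ _ _ hij]; omega))), add_zero] at h2
      rcases mul_eq_zero.1 h2.symm with h3 | h3
      · exact ha h3
      · exact hc h3

end Tw

end BPN.E
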