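import Pool.Agent.BPN.E.U

/-!
# Part (E), module U2: uniqueness of natural operations (project BPN, architect helper30)

THEOREM `natOp_zero`: a `NatOp` with `Jc β E R = 0` for all `E`, `R` is zero.

PROOF.  `w = β(u)`, `u = mon A (ind B)`; (1) = `nat_sup`, (2) = `nat_prim`.
(3) `β(mon A (ind B)) = 0` by strong induction on `|A| + |B|`.  Let `co w F S ≠ 0`; by (1), (2) `F ⊆ A ∪ B`, and for
    every `i ∈ A ∪ B` either (`i ∈ F`, `S i = 0`) or (`i ∉ F`, `S i` a power of `p`).
    (3a) `i ∈ A`, `S i = 0` is impossible: let `r` be larger than all elements of `A ∪ B ∪ {i}`, `κ = swap i r`,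
      `u' = mon (A \ i) (ind B)`, `map κ (u' * x_r) = ± u` (`map_mon`, `mon_mul_t`); `β(u') = 0` by induction, so by
      `delx` all monomials `(F', S')` of `β(u' x_r)` have `S' r ≠ 0`; `w = ± map κ (β(u' x_r))`, `co_map`.
    (3b) `i ∈ B`, and (`S i = 0`, or `S i = 1` and `i ∉ F`) is impossible: the same with `dely`.
    So `F = ∅`, `S i = p^(l i)` for `i ∈ A`, `S i = p^(m i)` with `m i ≥ 1` for `i ∈ B`.
    (3c) `l` is injective on `A`: let `i ≠ i' ∈ A`, `l i = l i'`.  `p ≠ 2`: `κ = swap i i'`, `map κ u = -u`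
      (`map_swap_mon`), so `map κ w = -w`, and the coefficient of `(∅, S)` gives `c = -c`, `c = 0`.
      `p = 2`: `κ = update id i' i`: `map κ u = mon (A \ {i, i'}) (ind (B ∪ {i}))` (`x_i^2 = y_i`), so
      `map κ w = β(..) = 0` by induction; since all monomials of `w` have `F = ∅` and powers of 2 as exponents
      the coefficient of `(∅, κ_* S)` in `map κ w` is `co w ∅ S` (`2^a + 2^b = 2^(l+1)` implies `a = b = l`), so it is `0`.
    (3d) `E = l(A)`, `R j = #{b ∈ B, m b = j + 1}`, `κ` injective on `A ∪ B` with `κ i = 2 l(i)` on `A` and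
      `κ b = 2 pair (m b - 1) c + 1` with `c` the number of `b' < b` in `B` with `m b' = m b`.  `map κ u = ± u_{E,R}`,
      and `co_map` shows that `co w ∅ S = ± Jc β E R = 0`.
(4) Every monomial `mon F S` is `± map κ (mon A (ind B))` for some `κ` (with `A`, `B` disjoint, injective on `A`):
    one variable for every element of `F` and one for every factor `y_i` of `y^S` (then `v^S` is the product);
    so `β` vanishes on all monomials, `addHom_smul`, `addHom_ext`.
-/

namespace BPN.E

namespace Tw

/-- Additive maps agree on `w` if they agree on the monomials of `w`. -/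
theorem ext_prop {p : ℕ} {I : Type} [LinearOrder I] {A : Type} [AddCommGroup A]
    (P : Finset I → (I →₀ ℕ) → Prop) {w : Tw p I} (hw : ∀ E S, co w E S ≠ 0 → P E S)
    (f g : Tw p I →+ A)
    (h : ∀ (c : ZMod p) E S, P E S → f (c • mon p E S) = g (c • mon p E S)) : f w = g w := by
  classical
  obtain ⟨s, hs⟩ : ∃ s : Finset (Finset I × (I →₀ ℕ)), ∀ z, z ∈ s ↔ co w z.1 z.2 ≠ 0 :=
    ⟨(co_finite w).toFinset, fun z => Set.Finite.mem_toFinset _⟩
  have h1 : w = ∑ z ∈ s, co w z.1 z.2 • mon p z.1 z.2 := by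
    refine ext_co fun E S => ?_
    rw [co_sum, Finset.sum_eq_single (E, S)]
    · rw [co_smul, co_mon, if_pos ⟨rfl, rfl⟩, mul_one]
    · intro z _ hz
      rw [co_smul, co_mon, if_neg, mul_zero]
      rintro ⟨h2, h3⟩
      exact hz (Prod.ext h2 h3)
    · intro h2
      rw [hs, not_not] at h2
      rw [co_smul, h2, zero_mul]
  rw [h1, map_sum, map_sum]
  exact Finset.sum_congr rfl fun z hz => h _ _ _ (hw _ _ ((hs z).1 hz))

theorem mapDomain_ind (κ : ℕ → ℕ) (B : Finset ℕ) :
    (ind B).mapDomain κ = ∑ b ∈ B, Finsupp.single (κ b) 1 := by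
  rw [ind, Finsupp.mapDomain_finsetSum]
  exact Finset.sum_congr rfl fun b _ => Finsupp.mapDomain_single

theorem mapDomain_ind_id (κ : ℕ → ℕ) (B : Finset ℕ) (h : ∀ b ∈ B, κ b = b) :
    (ind B).mapDomain κ = ind B := by
  rw [mapDomain_ind, ind]
  exact Finset.sum_congr rfl fun b hb => by rw [h b hb]

section steps

variable {p : ℕ} [Fact p.Prime] {β : Tw p ℕ →+ Tw p ℕ}

theorem co_map_swap0 (i r : ℕ) (x : Tw p ℕ) (F : Finset ℕ) (S : ℕ →₀ ℕ)
    (h : co x (F.image (Equiv.swap i r)) (S.mapDomain (Equiv.swap i r)) = 0) :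
    co (map p (Equiv.swap i r) x) F S = 0 := by
  obtain ⟨ε, -, h1⟩ := co_map (p := p) (Equiv.swap i r) Set.univ
    ((Equiv.swap i r).injective.injOn) (F.image (Equiv.swap i r)) (fun _ _ => Set.mem_univ _)
  have h2 := h1 x (fun _ _ _ => ⟨fun _ _ => Set.mem_univ _, fun _ _ => Set.mem_univ _⟩)
    (S.mapDomain (Equiv.swap i r)) (fun _ _ => Set.mem_univ _)
  rw [h, smul_zero, Finset.image_image, ← Finsupp.mapDomain_comp] at h2
  have h3 : (⇑(Equiv.swap i r) ∘ ⇑(Equiv.swap i r)) = id := by
    funext x
    rw [Function.comp_apply, Equiv.swap_apply_self, id]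
  rwa [h3, Finset.image_id, Finsupp.mapDomain_id] at h2

/-- The sign is `1` on monomials without odd generators. -/
theorem co_map_empty {I J : Type} [LinearOrder I] [LinearOrder J] (κ : I → J) (D : Set I)
    (hκ : Set.InjOn κ D) (w : Tw p I) (hw : SupIn w D) (S : I →₀ ℕ)
    (hS : ∀ i ∈ S.support, i ∈ D) :
    co (map p κ w) ∅ (S.mapDomain κ) = co w ∅ S := by
  obtain ⟨ε, -, h1⟩ := co_map (p := p) κ D hκ ∅ (fun i hi => absurd hi (Finset.notMem_empty _))
  have h2 := h1 1 (fun E T hc => by
    rw [← mon_zero, co_mon] at hc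
    by_cases h3 : (∅ : Finset I) = E ∧ (0 : I →₀ ℕ) = T
    · obtain ⟨rfl, rfl⟩ := h3
      exact ⟨fun i hi => absurd hi (Finset.notMem_empty _), fun i hi => absurd hi (by simp)⟩
    · rw [if_neg h3] at hc
      exact absurd rfl hc) 0 (fun i hi => absurd hi (by simp))
  rw [map_one, Finsupp.mapDomain_zero, Finset.image_empty, ← mon_zero, ← mon_zero, co_mon, co_mon,
    if_pos ⟨rfl, rfl⟩, if_pos ⟨rfl, rfl⟩] at h2
  have h3 := h1 w hw S hS
  rw [Finset.image_empty] at h3
  rw [h3, ← Int.cast_smul_eq_zsmul (ZMod p) ε (co w ∅ S), smul_eq_mul]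
  rw [← Int.cast_smul_eq_zsmul (ZMod p) ε (1 : ZMod p), smul_eq_mul, mul_one] at h2
  rw [← h2, one_mul]

theorem step_A (hβ : NatOp p β) (A B : Finset ℕ) (hAB : Disjoint A B) (i : ℕ) (hi : i ∈ A)
    (ih : β (mon p (A.erase i) (ind B)) = 0) (F : Finset ℕ) (S : ℕ →₀ ℕ) (hS : S i = 0) :
    co (β (mon p A (ind B))) F S = 0 := by
  obtain ⟨r, hr⟩ : ∃ r, ∀ x ∈ A ∪ B, x < r :=
    ⟨(A ∪ B).sup id + 1, fun x hx => Nat.lt_succ_of_le (Finset.le_sup (f := id) hx)⟩
  have hrA : ∀ x ∈ A, x ≠ r := fun x hx => (hr x (Finset.mem_union_left _ hx)).ne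
  have hrB : ∀ x ∈ B, x ≠ r := fun x hx => (hr x (Finset.mem_union_right _ hx)).ne
  have hiB : i ∉ B := Finset.disjoint_left.1 hAB hi
  have h1 : mon p (A.erase i) (ind B) * t p r = mon p (insert r (A.erase i)) (ind B) :=
    mon_mul_t _ _ _ fun e he => hr e (Finset.mem_union_left _ (Finset.mem_of_mem_erase he))
  obtain ⟨ε, hε, h2⟩ := map_mon (p := p) (Equiv.swap i r) (insert r (A.erase i))
    ((Equiv.swap i r).injective.injOn)
  have h3 : (insert r (A.erase i)).image (Equiv.swap i r) = A := by
    rw [Finset.image_insert, Equiv.swap_apply_right]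
    have h4 : (A.erase i).image (Equiv.swap i r) = A.erase i := by
      conv_rhs => rw [← Finset.image_id (s := A.erase i)]
      refine Finset.image_congr fun x hx => ?_
      have hx' : x ∈ A.erase i := hx
      exact Equiv.swap_apply_of_ne_of_ne (Finset.ne_of_mem_erase hx')
        (hrA x (Finset.mem_of_mem_erase hx'))
    rw [h4, Finset.insert_erase hi]
  have h4 : (ind B).mapDomain (Equiv.swap i r) = ind B := mapDomain_ind_id _ B fun b hb =>
    Equiv.swap_apply_of_ne_of_ne (fun h => hiB (h ▸ hb)) (hrB b hb)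
  have h5 := h2 (ind B)
  rw [h3, h4] at h5
  have h6 : ∀ T, T r = 0 → ∀ F, co (β (mon p (insert r (A.erase i)) (ind B))) F T = 0 := by
    intro T hT F
    have h7 := hβ.delx r (A.erase i) (ind B)
      (fun e he => hr e (Finset.mem_union_left _ (Finset.mem_of_mem_erase he)))
      (fun e he => hr e (Finset.mem_union_right _ (by rwa [ind_support] at he))) F T hT
    rwa [h1, ih, zero_mul, sub_zero] at h7
  have h7 : co (β (map p (Equiv.swap i r) (mon p (insert r (A.erase i)) (ind B)))) F S = 0 := by
    rw [hβ.nat]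
    apply co_map_swap0
    apply h6
    have h8 := Finsupp.mapDomain_apply (Equiv.swap i r).injective S i
    rw [Equiv.swap_apply_left] at h8
    rw [h8, hS]
  rw [h5, map_zsmul, co_zsmul] at h7
  rcases hε with rfl | rfl
  · rwa [Int.cast_one, one_mul] at h7
  · rwa [Int.cast_neg, Int.cast_one, neg_mul, one_mul, neg_eq_zero] at h7

theorem step_B (hβ : NatOp p β) (A B : Finset ℕ) (hAB : Disjoint A B) (i : ℕ) (hi : i ∈ B)
    (ih : β (mon p A (ind (B.erase i))) = 0) (F : Finset ℕ) (S : ℕ →₀ ℕ)
    (hS : S i = 0 ∨ (S i = 1 ∧ i ∉ F)) :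
    co (β (mon p A (ind B))) F S = 0 := by
  obtain ⟨r, hr⟩ : ∃ r, ∀ x ∈ A ∪ B, x < r :=
    ⟨(A ∪ B).sup id + 1, fun x hx => Nat.lt_succ_of_le (Finset.le_sup (f := id) hx)⟩
  have hrA : ∀ x ∈ A, x ≠ r := fun x hx => (hr x (Finset.mem_union_left _ hx)).ne
  have hrB : ∀ x ∈ B, x ≠ r := fun x hx => (hr x (Finset.mem_union_right _ hx)).ne
  have hiA : i ∉ A := Finset.disjoint_right.1 hAB hi
  have h1 : mon p A (ind (B.erase i)) * v p r =
      mon p A (ind (B.erase i) + Finsupp.single r 1) := by
    rw [v, mon_mul_mon_empty]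
  obtain ⟨ε, hε, h2⟩ := map_mon (p := p) (Equiv.swap i r) A ((Equiv.swap i r).injective.injOn)
  have h3 : A.image (Equiv.swap i r) = A := by
    conv_rhs => rw [← Finset.image_id (s := A)]
    refine Finset.image_congr fun x hx => ?_
    have hx' : x ∈ A := hx
    exact Equiv.swap_apply_of_ne_of_ne (fun h => hiA (h ▸ hx')) (hrA x hx')
  have h4 : (ind (B.erase i) + Finsupp.single r 1).mapDomain (Equiv.swap i r) = ind B := by
    rw [Finsupp.mapDomain_add, Finsupp.mapDomain_single, Equiv.swap_apply_right,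
      mapDomain_ind_id _ _ fun b hb => Equiv.swap_apply_of_ne_of_ne (Finset.ne_of_mem_erase hb)
        (hrB b (Finset.mem_of_mem_erase hb)), ind_erase hi]
  have h5 := h2 (ind (B.erase i) + Finsupp.single r 1)
  rw [h3, h4] at h5
  have h6 : ∀ T F, (T r = 0 ∨ (T r = 1 ∧ r ∉ F)) →
      co (β (mon p A (ind (B.erase i) + Finsupp.single r 1))) F T = 0 := by
    intro T F hT
    have h7 := hβ.dely r A (ind (B.erase i))
      (fun e he => hr e (Finset.mem_union_left _ he))
      (fun e he => hr e (Finset.mem_union_right _ (Finset.mem_of_mem_erase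
        (by rwa [ind_support] at he)))) F T hT
    rwa [h1, ih, zero_mul, sub_zero] at h7
  have h7 : co (β (map p (Equiv.swap i r)
      (mon p A (ind (B.erase i) + Finsupp.single r 1)))) F S = 0 := by
    rw [hβ.nat]
    apply co_map_swap0
    apply h6
    have h8 := Finsupp.mapDomain_apply (Equiv.swap i r).injective S i
    rw [Equiv.swap_apply_left] at h8
    rw [h8]
    rcases hS with hS | ⟨hS, hF⟩
    · exact Or.inl hS
    · refine Or.inr ⟨hS, fun h9 => hF ?_⟩
      obtain ⟨x, hx, hxr⟩ := Finset.mem_image.1 h9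
      have h10 : x = i := (Equiv.swap i r).injective (hxr.trans (Equiv.swap_apply_left i r).symm)
      rwa [h10] at hx
  rw [h5, map_zsmul, co_zsmul] at h7
  rcases hε with rfl | rfl
  · rwa [Int.cast_one, one_mul] at h7
  · rwa [Int.cast_neg, Int.cast_one, neg_mul, one_mul, neg_eq_zero] at h7

/-! ### ranks -/

theorem rank_inj (s : Finset ℕ) :
    Set.InjOn (fun b => (s.filter fun b' => b' < b).card) s := by
  have h1 : ∀ b ∈ s, ∀ b', b < b' → (s.filter fun x => x < b).card <
      (s.filter fun x => x < b').card := by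
    intro b hb b' hbb
    apply Finset.card_lt_card
    rw [Finset.ssubset_iff_of_subset (fun x hx => by
      rw [Finset.mem_filter] at hx ⊢
      exact ⟨hx.1, hx.2.trans hbb⟩)]
    exact ⟨b, Finset.mem_filter.2 ⟨hb, hbb⟩, fun h => lt_irrefl _ (Finset.mem_filter.1 h).2⟩
  intro b hb b' hb' h
  rcases lt_trichotomy b b' with h2 | h2 | h2
  · exact absurd h (h1 b hb b' h2).ne
  · exact h2
  · exact absurd h (h1 b' hb' b h2).ne'

theorem rank_sum {M : Type} [AddCommMonoid M] (s : Finset ℕ) (g : ℕ → M) :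
    ∑ b ∈ s, g (s.filter fun b' => b' < b).card = ∑ c ∈ Finset.range s.card, g c := by
  have h1 : s.image (fun b => (s.filter fun b' => b' < b).card) = Finset.range s.card := by
    refine Finset.eq_of_subset_of_card_le (fun x hx => ?_) ?_
    · obtain ⟨b, hb, rfl⟩ := Finset.mem_image.1 hx
      rw [Finset.mem_range]
      apply Finset.card_lt_card
      rw [Finset.ssubset_iff_of_subset (Finset.filter_subset _ _)]
      exact ⟨b, hb, fun h => lt_irrefl _ (Finset.mem_filter.1 h).2⟩
    · rw [Finset.card_image_of_injOn (rank_inj s), Finset.card_range]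
  rw [← h1, Finset.sum_image (rank_inj s)]

/-- The rank of `b` in its fibre. -/
def rk (B : Finset ℕ) (k : ℕ → ℕ) (b : ℕ) : ℕ :=
  ((B.filter fun b' => k b' = k b).filter fun b' => b' < b).card

/-- Sizes of the fibres. -/
noncomputable def fib (B : Finset ℕ) (k : ℕ → ℕ) : ℕ →₀ ℕ := ∑ b ∈ B, Finsupp.single (k b) 1

theorem fib_apply (B : Finset ℕ) (k : ℕ → ℕ) (j : ℕ) :
    fib B k j = (B.filter fun b => k b = j).card := by
  rw [fib, Finsupp.finsetSum_apply, Finset.card_filter]
  exact Finset.sum_congr rfl fun b _ => by rw [Finsupp.single_apply]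

theorem fib_support (B : Finset ℕ) (k : ℕ → ℕ) : (fib B k).support = B.image k := by
  ext j
  rw [Finsupp.mem_support_iff, fib_apply, Finset.card_ne_zero, Finset.mem_image]
  constructor
  · rintro ⟨b, hb⟩
    exact ⟨b, (Finset.mem_filter.1 hb).1, (Finset.mem_filter.1 hb).2⟩
  · rintro ⟨b, hb, h⟩
    exact ⟨b, Finset.mem_filter.2 ⟨hb, h⟩⟩

theorem rk_sum {M : Type} [AddCommMonoid M] (B : Finset ℕ) (k : ℕ → ℕ) (g : ℕ → ℕ → M) :
    ∑ b ∈ B, g (k b) (rk B k b) =
      ∑ j ∈ (fib B k).support, ∑ c ∈ Finset.range (fib B k j), g j c := by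
  rw [fib_support, ← Finset.sum_fiberwise_of_maps_to (s := B) (t := B.image k) (g := k)
    (fun b hb => Finset.mem_image_of_mem k hb)]
  refine Finset.sum_congr rfl fun j _ => ?_
  rw [fib_apply, ← rank_sum]
  refine Finset.sum_congr rfl fun b hb => ?_
  have h1 := (Finset.mem_filter.1 hb).2
  rw [rk, h1]

theorem rk_inj (B : Finset ℕ) (k : ℕ → ℕ) (b b' : ℕ) (hb : b ∈ B) (hb' : b' ∈ B)
    (h1 : k b = k b') (h2 : rk B k b = rk B k b') : b = b' := by
  rw [rk, rk, ← h1] at h2
  exact rank_inj (B.filter fun x => k x = k b) (Finset.mem_coe.2 (Finset.mem_filter.2 ⟨hb, rfl⟩))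
    (Finset.mem_coe.2 (Finset.mem_filter.2 ⟨hb', h1.symm⟩)) h2

theorem pow_add_pow_two {a b l : ℕ} (h : 2 ^ a + 2 ^ b = 2 ^ (l + 1)) : a = l ∧ b = l := by
  have hlt : ∀ a b : ℕ, a < b → 2 ^ a + 2 ^ b ≠ 2 ^ (l + 1) := by
    intro a b hab h
    have h1 : (2 : ℕ) ^ b < 2 ^ (l + 1) := by
      have : 0 < 2 ^ a := by positivity
      omega
    have h2 : b < l + 1 := (Nat.pow_lt_pow_iff_right (by norm_num)).1 h1
    have h3 : (2 : ℕ) ^ (a + 1) ∣ 2 ^ b := pow_dvd_pow 2 hab
    have h4 : (2 : ℕ) ^ (a + 1) ∣ 2 ^ (l + 1) := pow_dvd_pow 2 (by omega)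
    rw [← h] at h4
    have h5 : (2 : ℕ) ^ (a + 1) ∣ 2 ^ a := (Nat.dvd_add_left h3).1 h4
    have h6 := Nat.le_of_dvd (by positivity) h5
    rw [pow_succ] at h6
    have : 0 < 2 ^ a := by positivity
    omega
  rcases lt_trichotomy a b with h1 | h1 | h1
  · exact absurd h (hlt a b h1)
  · subst h1
    rw [← two_mul, ← pow_succ'] at h
    have h2 := Nat.pow_right_injective (le_refl 2) h
    omega
  · exact absurd (by rw [add_comm]; exact h) (hlt b a h1)

end steps

variable {p : ℕ} [Fact p.Prime] {β : Tw p ℕ →+ Tw p ℕ}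

theorem natOp_multilinear (hβ : NatOp p β) (h : ∀ E R, Jc p β E R = 0) (A B : Finset ℕ)
    (hAB : Disjoint A B) : β (mon p A (ind B)) = 0 := by
  have hp : p.Prime := Fact.out
  obtain ⟨N, hN⟩ : ∃ N, A.card + B.card ≤ N := ⟨_, le_rfl⟩
  induction N using Nat.strong_induction_on generalizing A B with
  | _ N ih =>
  replace ih : ∀ A' B' : Finset ℕ, Disjoint A' B' → A'.card + B'.card < A.card + B.card →
      β (mon p A' (ind B')) = 0 := by
    intro A' B' h1 h2
    exact ih (A'.card + B'.card) (by omega) A' B' h1 le_rfl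
  obtain ⟨w, hw⟩ : ∃ w, w = β (mon p A (ind B)) := ⟨_, rfl⟩
  rw [← hw]
  have hsup : SupIn w (A ∪ B : Finset ℕ) := hw ▸ nat_sup hβ A B hAB
  -- the form of the monomials of `w`
  have hA : ∀ F S, co w F S ≠ 0 → ∀ i ∈ A, i ∉ F ∧ ∃ k : ℕ, S i = p ^ k := by
    intro F S hc i hi
    have h1 : S i ≠ 0 := fun h1 => hc (by
      rw [hw]
      exact step_A hβ A B hAB i hi (ih _ _ (Finset.disjoint_of_subset_left
        (Finset.erase_subset _ _) hAB) (by
          have := Finset.card_erase_lt_of_mem hi
          omega)) F S h1)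
    rcases nat_prim hβ A B hAB F S (hw ▸ hc) i (Finset.mem_union_left _ hi) with h2 | h2
    · exact absurd h2.2 h1
    · exact h2
  have hB : ∀ F S, co w F S ≠ 0 → ∀ i ∈ B, i ∉ F ∧ ∃ k : ℕ, S i = p ^ (k + 1) := by
    intro F S hc i hi
    have h1 : ¬ (S i = 0 ∨ (S i = 1 ∧ i ∉ F)) := fun h1 => hc (by
      rw [hw]
      exact step_B hβ A B hAB i hi (ih _ _ (Finset.disjoint_of_subset_right
        (Finset.erase_subset _ _) hAB) (by
          have := Finset.card_erase_lt_of_mem hi
          omega)) F S h1)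
    rcases nat_prim hβ A B hAB F S (hw ▸ hc) i (Finset.mem_union_right _ hi) with h2 | h2
    · exact absurd (Or.inl h2.2) h1
    · obtain ⟨h3, k, hk⟩ := h2
      refine ⟨h3, ?_⟩
      rcases k with _ | k
      · exact absurd (Or.inr ⟨by rw [hk, pow_zero], h3⟩) h1
      · exact ⟨k, hk⟩
  have hF : ∀ F S, co w F S ≠ 0 → F = ∅ := by
    intro F S hc
    rw [Finset.eq_empty_iff_forall_notMem]
    intro i hi
    rcases Finset.mem_union.1 ((hsup F S hc).1 i hi) with h1 | h1
    · exact (hA F S hc i h1).1 hi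
    · exact (hB F S hc i h1).1 hi
  refine ext_co fun F S => ?_
  rw [co_zero]
  by_contra hc
  obtain rfl := hF F S hc
  have hSD : ∀ l ∈ S.support, l ∈ ((A ∪ B : Finset ℕ) : Set ℕ) := (hsup ∅ S hc).2
  -- exponents
  have hlx : ∀ i, ∃ k : ℕ, i ∈ A → S i = p ^ k := fun i => by
    by_cases hi : i ∈ A
    · obtain ⟨k, hk⟩ := (hA ∅ S hc i hi).2
      exact ⟨k, fun _ => hk⟩
    · exact ⟨0, fun h => absurd h hi⟩
  have hmx : ∀ i, ∃ k : ℕ, i ∈ B → S i = p ^ (k + 1) := fun i => by
    by_cases hi : i ∈ B
    · obtain ⟨k, hk⟩ := (hB ∅ S hc i hi).2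
      exact ⟨k, fun _ => hk⟩
    · exact ⟨0, fun h => absurd h hi⟩
  choose l hl using hlx
  choose k hk using hmx
  -- `l` is injective on `A`
  have hlinj : Set.InjOn l A := by
    intro i hi i' hi' hll
    by_contra hii
    have hi2 : i ∈ A := hi
    have hi2' : i' ∈ A := hi'
    have hSS : S i = S i' := by rw [hl i hi2, hl i' hi2', hll]
    have hiB : i ∉ B := Finset.disjoint_left.1 hAB hi2
    have hiB' : i' ∉ B := Finset.disjoint_left.1 hAB hi2'
    by_cases hp2 : p = 2
    · -- `p = 2`
      apply hc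
      obtain ⟨C, hC⟩ : ∃ C, C = (A.erase i).erase i' := ⟨_, rfl⟩
      have hiC : i ∉ C := by
        rw [hC]
        exact fun h => Finset.notMem_erase i A (Finset.mem_of_mem_erase h)
      have hiC' : i' ∉ C := by
        rw [hC]
        exact Finset.notMem_erase _ _
      have hi'A : i' ∈ A.erase i := Finset.mem_erase.2 ⟨fun h => hii h.symm, hi2'⟩
      have hCA : insert i (insert i' C) = A := by
        rw [hC, Finset.insert_erase hi'A, Finset.insert_erase hi2]
      obtain ⟨ε, hε, h1⟩ := t_mul_uni (p := p) C i' hiC'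
      obtain ⟨δ, hδ, h2⟩ := t_mul_uni (p := p) (insert i' C) i (by
        rw [Finset.mem_insert, not_or]
        exact ⟨hii, hiC⟩)
      have h3 : t p i * (t p i' * mon p C (ind B)) = (ε * δ) • mon p A (ind B) := by
        rw [h1, mul_smul_comm, h2, smul_smul, hCA]
      have h4 : map p (Function.update id i' i) (t p i * (t p i' * mon p C (ind B))) =
          mon p C (ind (insert i B)) := by
        have h5 : ind (insert i B) = ind B + Finsupp.single i 1 := by
          rw [← ind_erase (Finset.mem_insert_self i B), Finset.erase_insert hiB]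
        rw [map_mul, map_mul, map_t, map_t, Function.update_of_ne hii, id, Function.update_self,
          map_upd_fix i' i C (ind B) hiC' (by rw [ind_support]; exact hiB'), ← mul_assoc, t_sq,
          smul_mul, v, mon_empty_mul_mon, h5, qq, if_pos hp2, one_smul]
      have h5 : map p (Function.update id i' i) w = 0 := by
        have h6 : β (mon p C (ind (insert i B))) = 0 := by
          refine ih C (insert i B) ?_ ?_
          · rw [Finset.disjoint_insert_right]
            refine ⟨hiC, Finset.disjoint_of_subset_left (fun x hx => ?_) hAB⟩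
            rw [hC] at hx
            exact Finset.mem_of_mem_erase (Finset.mem_of_mem_erase hx)
          · rw [hC, Finset.card_erase_of_mem hi'A, Finset.card_erase_of_mem hi2,
              Finset.card_insert_of_notMem hiB]
            have h7 : 1 < A.card := Finset.one_lt_card.2 ⟨i, hi2, i', hi2', hii⟩
            omega
        rw [← h4, hβ.nat, h3, map_zsmul, map_zsmul, ← hw] at h6
        rcases hε with rfl | rfl <;> rcases hδ with rfl | rfl <;> simpa using h6
      have h6 : co (map p (Function.update id i' i) w) ∅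
          (S.mapDomain (Function.update id i' i)) = co w ∅ S := by
        have hmd : ∀ T : ℕ →₀ ℕ, T.mapDomain (Function.update id i' i) =
            T.erase i' + Finsupp.single i (T i') := by
          intro T
          conv_lhs => rw [← Finsupp.erase_add_single i' T]
          rw [Finsupp.mapDomain_add, Finsupp.mapDomain_single, Function.update_self]
          congr 1
          conv_rhs => rw [← Finsupp.mapDomain_id (v := T.erase i')]
          refine Finsupp.mapDomain_congr fun x hx => ?_
          refine Function.update_of_ne (fun h : x = i' => ?_) _ _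
          rw [Finsupp.support_erase, h] at hx
          exact Finset.notMem_erase _ _ hx
        let f : Tw p ℕ →+ ZMod p :=
          { toFun := fun w => co (map p (Function.update id i' i) w) ∅
              (S.mapDomain (Function.update id i' i))
            map_zero' := by rw [map_zero, co_zero]
            map_add' := fun x y => by rw [map_add, co_add] }
        let g : Tw p ℕ →+ ZMod p :=
          { toFun := fun w => co w ∅ S
            map_zero' := by rw [co_zero]
            map_add' := fun x y => by rw [co_add] }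
        refine ext_prop (fun E T => co w E T ≠ 0) (w := w) (fun _ _ h => h) f g
          fun c E T hET => ?_
        change co (map p (Function.update id i' i) (c • mon p E T)) ∅
          (S.mapDomain (Function.update id i' i)) = co (c • mon p E T) ∅ S
        obtain rfl := hF E T hET
        obtain ⟨ε', -, h7⟩ := map_mon (p := p) (Function.update id i' i) (∅ : Finset ℕ)
          (by rw [Finset.coe_empty]; exact Set.injOn_empty _)
        have h8 : map p (Function.update id i' i) (mon p ∅ T) =
            mon p ∅ (T.mapDomain (Function.update id i' i)) := by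
          have h9 := map_mon_monoOn (p := p) (Function.update id i' i) (∅ : Finset ℕ)
            (fun x hx => absurd hx (Finset.notMem_empty x)) T
          rwa [Finset.image_empty] at h9
        rw [hom_smul, co_smul, co_smul, h8, co_mon, co_mon]
        congr 1
        by_cases hTS : T = S
        · rw [if_pos ⟨rfl, by rw [hTS]⟩, if_pos ⟨rfl, hTS⟩]
        · rw [if_neg (fun h => hTS ?_), if_neg (fun h => hTS h.2)]
          have h9 := h.2
          rw [hmd, hmd] at h9
          have hval : ∀ x, x ≠ i' → x ≠ i → T x = S x := fun x hx hx' => by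
            have h10 := DFunLike.congr_fun h9 x
            rwa [Finsupp.add_apply, Finsupp.add_apply, Finsupp.erase_ne hx, Finsupp.erase_ne hx,
              Finsupp.single_eq_of_ne hx', Finsupp.single_eq_of_ne hx', add_zero,
              add_zero] at h10
          have hvi : T i + T i' = S i + S i' := by
            have h10 := DFunLike.congr_fun h9 i
            rwa [Finsupp.add_apply, Finsupp.add_apply, Finsupp.erase_ne hii,
              Finsupp.erase_ne hii, Finsupp.single_eq_same, Finsupp.single_eq_same] at h10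
          obtain ⟨a, ha⟩ := (hA ∅ T hET i hi2).2
          obtain ⟨b, hb⟩ := (hA ∅ T hET i' hi2').2
          have h11 : 2 ^ a + 2 ^ b = 2 ^ (l i + 1) := by
            rw [ha, hb, ← hSS, hl i hi2, hp2] at hvi
            rw [hvi, pow_succ]
            ring
          obtain ⟨h12, h13⟩ := pow_add_pow_two h11
          ext x
          by_cases hx : x = i
          · rw [hx, ha, hl i hi2, h12]
          · by_cases hx' : x = i'
            · rw [hx', hb, hl i' hi2', ← hll, h13]
            · exact hval x hx' hx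
      rw [← h6, h5, co_zero]
    · -- `p ≠ 2`
      have h1 : map p (Equiv.swap i i') (mon p A (ind B)) = -mon p A (ind B) := by
        rw [map_swap_mon i i' hii A hi2 hi2', mapDomain_ind_id _ B fun b hb =>
          Equiv.swap_apply_of_ne_of_ne (fun h : b = i => hiB (h ▸ hb))
            (fun h : b = i' => hiB' (h ▸ hb))]
      have h2 : map p (Equiv.swap i i') w = -w := by
        rw [hw, ← hβ.nat, h1, map_neg]
      have h3 := co_map_empty (p := p) (Equiv.swap i i') Set.univ
        ((Equiv.swap i i').injective.injOn) w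
        (fun _ _ _ => ⟨fun _ _ => Set.mem_univ _, fun _ _ => Set.mem_univ _⟩) S
        (fun _ _ => Set.mem_univ _)
      have h4 : S.mapDomain (Equiv.swap i i') = S := by
        ext x
        have h5 := Finsupp.mapDomain_apply (Equiv.swap i i').injective S (Equiv.swap i i' x)
        rw [Equiv.swap_apply_self] at h5
        rw [h5]
        by_cases hx : x = i
        · rw [hx, Equiv.swap_apply_left, hSS]
        · by_cases hx' : x = i'
          · rw [hx', Equiv.swap_apply_right, hSS]
          · rw [Equiv.swap_apply_of_ne_of_ne hx hx']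
      rw [h4, h2, co_neg] at h3
      have h5 : (2 : ZMod p) * co w ∅ S = 0 := by linear_combination -h3
      rcases mul_eq_zero.1 h5 with h6 | h6
      · have h7 : ((2 : ℕ) : ZMod p) = 0 := h6
        rw [ZMod.natCast_eq_zero_iff] at h7
        exact hp2 ((Nat.prime_dvd_prime_iff_eq hp Nat.prime_two).1 h7)
      · exact hc h6
  -- renaming
  obtain ⟨κ, hκA, hκB⟩ : ∃ κ : ℕ → ℕ, (∀ i ∈ A, κ i = 2 * l i) ∧
      ∀ i ∈ B, κ i = 2 * Nat.pair (k i) (rk B k i) + 1 := by
    refine ⟨fun i => if i ∈ A then 2 * l i else 2 * Nat.pair (k i) (rk B k i) + 1,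
      fun i hi => if_pos hi, fun i hi => if_neg (Finset.disjoint_right.1 hAB hi)⟩
  have hκ : Set.InjOn κ ((A ∪ B : Finset ℕ) : Set ℕ) := by
    intro x hx y hy hxy
    rcases Finset.mem_union.1 (Finset.mem_coe.1 hx) with hx | hx <;>
      rcases Finset.mem_union.1 (Finset.mem_coe.1 hy) with hy | hy
    · rw [hκA x hx, hκA y hy] at hxy
      exact hlinj (Finset.mem_coe.2 hx) (Finset.mem_coe.2 hy) (by omega)
    · rw [hκA x hx, hκB y hy] at hxy
      omega
    · rw [hκB x hx, hκA y hy] at hxy
      omega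
    · rw [hκB x hx, hκB y hy] at hxy
      have h1 : Nat.pair (k x) (rk B k x) = Nat.pair (k y) (rk B k y) := by omega
      rw [Nat.pair_eq_pair] at h1
      exact rk_inj B k x y hx hy h1.1 h1.2
  obtain ⟨ε, hε, h1⟩ := map_mon (p := p) κ A
    (hκ.mono (Finset.coe_subset.2 Finset.subset_union_left))
  have h2 : A.image κ = uA (A.image l) := by
    rw [uA, Finset.image_image]
    exact Finset.image_congr fun x hx => hκA x hx
  have h3 : (ind B).mapDomain κ = uB (fib B k) := by
    rw [mapDomain_ind, uB, ← rk_sum B k fun j c => Finsupp.single (2 * Nat.pair j c + 1) 1]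
    exact Finset.sum_congr rfl fun b hb => by rw [hκB b hb]
  have h4 : S.mapDomain κ = uT p (A.image l) (fib B k) := by
    have h5 : S = ∑ i ∈ A ∪ B, Finsupp.single i (S i) := by
      conv_lhs => rw [← Finsupp.sum_single S]
      exact Finset.sum_subset (fun x hx => Finset.mem_coe.1 (hSD x hx)) fun x _ hx => by
        rw [Finsupp.notMem_support_iff.1 hx, Finsupp.single_zero]
    rw [h5, Finset.sum_union hAB, Finsupp.mapDomain_add, Finsupp.mapDomain_finsetSum,
      Finsupp.mapDomain_finsetSum, uT, Finset.sum_image hlinj,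
      ← rk_sum B k fun j c => Finsupp.single (2 * Nat.pair j c + 1) (p ^ (j + 1))]
    congr 1
    · exact Finset.sum_congr rfl fun x hx => by
        rw [Finsupp.mapDomain_single, hκA x hx, hl x hx]
    · exact Finset.sum_congr rfl fun x hx => by
        rw [Finsupp.mapDomain_single, hκB x hx, hk x hx]
  have h5 := co_map_empty (p := p) κ ((A ∪ B : Finset ℕ) : Set ℕ) hκ w hsup S hSD
  rw [hw, ← hβ.nat, h1, h2, h3, h4, map_zsmul, co_zsmul, ← hw] at h5
  have h6 := h (A.image l) (fib B k)
  rw [Jc] at h6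
  rw [h6, mul_zero] at h5
  exact hc h5.symm

/-- **Uniqueness of natural operations.** -/
theorem natOp_zero (hβ : NatOp p β) (h : ∀ E R, Jc p β E R = 0) : β = 0 := by
  refine addHom_ext fun c F S => ?_
  rw [addHom_smul, AddMonoidHom.zero_apply]
  have key : β (mon p F S) = 0 := by
    let κ : ℕ → ℕ := fun n => if n % 2 = 0 then n / 2 else (Nat.unpair (n / 2)).1
    have hκ0 : ∀ e, κ (2 * e) = e := fun e => by
      change (if 2 * e % 2 = 0 then 2 * e / 2 else _) = e
      rw [if_pos (by omega)]
      omega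
    have hκ1 : ∀ i c, κ (2 * Nat.pair i c + 1) = i := fun i c => by
      change (if (2 * Nat.pair i c + 1) % 2 = 0 then _ else
        (Nat.unpair ((2 * Nat.pair i c + 1) / 2)).1) = i
      rw [if_neg (by omega), show (2 * Nat.pair i c + 1) / 2 = Nat.pair i c by omega,
        Nat.unpair_pair]
    let B : Finset ℕ := (S.support.sigma fun i => Finset.range (S i)).image
      fun z => 2 * Nat.pair z.1 z.2 + 1
    have hBsum : ∀ g : ℕ → (ℕ →₀ ℕ), ∑ b ∈ B, g b =
        ∑ i ∈ S.support, ∑ c ∈ Finset.range (S i), g (2 * Nat.pair i c + 1) := by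
      intro g
      rw [Finset.sum_image, Finset.sum_sigma]
      rintro ⟨i, c⟩ - ⟨i', c'⟩ - h1
      have h2 : Nat.pair i c = Nat.pair i' c' := by
        change 2 * Nat.pair i c + 1 = 2 * Nat.pair i' c' + 1 at h1
        omega
      rw [Nat.pair_eq_pair] at h2
      obtain ⟨rfl, rfl⟩ := h2
      rfl
    have hdis : Disjoint (uA F) B := by
      rw [Finset.disjoint_left]
      intro x hx hx'
      obtain ⟨e, -, rfl⟩ := Finset.mem_image.1 hx
      obtain ⟨z, -, hz⟩ := Finset.mem_image.1 hx'
      omega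
    obtain ⟨ε, hε, h1⟩ := map_mon (p := p) κ (uA F) (by
      intro x hx y hy hxy
      obtain ⟨e, -, rfl⟩ := Finset.mem_image.1 (Finset.mem_coe.1 hx)
      obtain ⟨e', -, rfl⟩ := Finset.mem_image.1 (Finset.mem_coe.1 hy)
      rw [hκ0, hκ0] at hxy
      rw [hxy])
    have h2 : (uA F).image κ = F := by
      rw [uA, Finset.image_image]
      conv_rhs => rw [← Finset.image_id (s := F)]
      exact Finset.image_congr fun x _ => hκ0 x
    have h3 : (ind B).mapDomain κ = S := by
      rw [mapDomain_ind, hBsum fun b => Finsupp.single (κ b) 1]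
      conv_rhs => rw [← Finsupp.sum_single S]
      refine Finset.sum_congr rfl fun i _ => ?_
      have h4 : ∀ c ∈ Finset.range (S i), Finsupp.single (κ (2 * Nat.pair i c + 1)) 1 =
          (Finsupp.single i 1 : ℕ →₀ ℕ) := fun c _ => by rw [hκ1]
      rw [Finset.sum_congr rfl h4, Finset.sum_const, Finset.card_range, Finsupp.smul_single,
        smul_eq_mul, mul_one]
    have h4 := hβ.nat κ (mon p (uA F) (ind B))
    rw [natOp_multilinear hβ h (uA F) B hdis, map_zero, h1, h2, h3, map_zsmul] at h4
    rcases hε with rfl | rfl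
    · rwa [one_smul] at h4
    · rwa [neg_smul, one_smul, neg_eq_zero] at h4
  rw [key, smul_zero]

end Tw

end BPN.E
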