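import Pool.Agent.BPN.E.K1H
import Pool.Agent.BPN.E.K2H
import Pool.Agent.BPN.E.K3H
import Pool.Agent.BPN.E.K4H
import Pool.Agent.BPN.E.Base
import Pool.Agent.BPN.E.Rec
import Pool.Agent.BPN.E.Filt

/-!
# Part (E), module UB: the upper bound (project BPN, architect helper30)

PROOF.  `rec_bound` with `G d n N = HB (bd k (FT 0 d 0)) (Ga k d ⊤) n N`, `L` = `La`, `S` = `Sy`, `T` = `Tr`,
`k = ZMod p` : `HB_mono`; `neg`: `Ga k d ⊤ n = ⊥`-like for `n < 0` if `d > 0` (`exc_nonneg`; for `d = 0` note that the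
condition on the excess is empty: the rules are only used for `d > 0`; if the case `d = 0` of `neg` is a
problem use `G d n N := 0 < d → HB ..`); `r1` = `K2_HB` with `m = ⊤` (`⊤ + 1 = ⊤`), `r2` = `K1_HB`, `r3a/b` = `K3_HB1/2`,
`r4a/b` = `K4_HB1/2`, `base` = `Ga_one`.  Then `HB_V`.
-/

namespace BPN.E

theorem HB_upper (p : ℕ) [Fact p.Prime] (n : ℕ) :
    HB (bd (ZMod p) (fV p)) (GV p) n
      {q : (ℕ →₀ ℕ) × Finset ℕ | Mil.deg p q.1 q.2 = n}.ncard := by
  have hp : 0 < p := (Fact.out : p.Prime).pos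
  obtain ⟨t, h1, -, h3⟩ := rec_bound p
    (fun d n N => 0 < d → HB (bd (ZMod p) (FT 0 d 0)) (Ga (ZMod p) d ⊤) n N)
    (fun d n N => HB (bd (ZMod p) (FT 0 0 d)) (La (ZMod p) d ⊤) n N)
    (fun d n N => HB (bd (ZMod p) (FM 0 0)) (Sy (ZMod p) d ⊤) n N)
    (fun d n N => HB (bd (ZMod p) (FR p)) (Tr (ZMod p) p d ⊤) n N)
    (fun d n N N' hN h hd => HB_mono (h hd) hN)
    (fun d n N N' hN h => HB_mono h hN)
    (fun d n N N' hN h => HB_mono h hN)
    (fun d n N N' hN h => HB_mono h hN)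
    (fun d n hn hd => HB_of_acy fun z hz _ => by
      have h1 : z = 0 := by
        rw [← Finsupp.support_eq_empty, Finset.eq_empty_iff_forall_notMem]
        intro v hv
        have h2 := ((Finsupp.mem_supported _ z).1 hz.2 hv).1 ⟨0, hd⟩
        have h3 := exc_nonneg (v.1 ⟨0, hd⟩)
        rw [h2.1] at h3
        omega
      exact ⟨0, zero_mem _, by rw [map_zero, h1]⟩)
    (fun d n N hd h => by
      have h2 := K2_HB (ZMod p) hd ⊤ n N (h hd)
      rwa [top_add] at h2)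
    (fun d n N hd h => by
      have h2 := K1_HB (ZMod p) hd ⊤ n N h
      rwa [top_add] at h2)
    (fun d n N hd h => K3_HB1 (ZMod p) hp hd n N h)
    (fun m n N N' hm h h' => K3_HB2 (ZMod p) hp hm n N N' h h')
    (fun d n N hd h _ => K4_HB1 (ZMod p) p hd n N h)
    (fun m n N N' hm h h' _ => K4_HB2 (ZMod p) p hm n N N' h h')
    (fun n _ => Ga_one (ZMod p) ⊤ n) n
  exact HB_V p n t _ h1 h3

end BPN.E
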