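import Pool.Agent.BPN.E.Filt
import Pool.Agent.BPN.EOut

/-!
# Part (E), module VEM: surjection model of the Eilenberg-MacLane spectrum (project BPN, helper30)

`phi p v f = ∑_{s ∈ supp v, s ∘ f = id} v s`: the cocycle belonging to a finitely supported function on the
surjections.

PROOFS.
* `phi_mem`: for `v = δ_s`, `exc s = q`: `s ∘ f = id` implies `f` strictly monotone if ... use `f` MONOTONE only:
  careful, `phi v f ≠ 0` must imply `StrictMono f`.  `s ∘ f = id` with `s` monotone implies `f` strictly
  monotone: for `a < b`, `f b ≤ f a` would give `b = s (f b) ≤ s (f a) = a`.  `Shift f q`: for large `i`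
  `s j = j - q` for `j ≥ N`; `f i ≥ i ≥ N` (`StrictMono.le_apply`), so `i = s (f i) = f i - q`.  `f` hits all large
  `v`: for `v` with block `{v + q}` of the value `v`, `f v = v + q`, so all numbers `≥ D` are attained.
  Cocycle condition for monotone `g` with `Shift g (q-1)`: `s ∘ g ∘ dl i = id` for some `i` implies
  `s ∘ g = sg a` for some `a` (`eq_sg_of_comp_dl_eq_id`), and `sg a ∘ dl i = id` iff `i = a` or `i = a + 1`
  (`sg_comp_dl_eq_id`); the two signs cancel.
* `phi_d`: `s ∘ (dl i ∘ f) = id` iff `s ∘ dl i` is surjective (then it is good, `act (dl i) s = some t`) and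
  `t ∘ f = id`; `phi_s`: the same with `sg i` (`act (sg i) s` is always defined).  For `v` a sum use
  `phi_add`, `pv` additive.
* The minimal section of `s`: `f_s v = min s⁻¹{v}`; `s ↦ f_s` is a bijection from the surjections of excess
  `q` to the strictly monotone `f` with `f 0 = 0` and `Shift f q` (inverse: `s i = max {v : f v ≤ i}`).
  `phi δ_s (f_t) = 1` iff `s ∘ f_t = id` iff `f_s v ≤ f_t v < f_s (v+1)` for all `v`; in particular
  `f_s ≤ f_t` pointwise, and it is `1` for `s = t`.
* `phi_inj`: let `v ≠ 0`, decompose by excess (if `s ∘ f = id` then `Shift f (exc s)`, so different excesses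
  do not interact); among the finitely many `s` in the support choose `t` with `f_t` minimal
  (pointwise order, finite set, a minimal element exists); then `phi v (f_t) = v t ≠ 0`.
* `phi_sur`: let `c ∈ EMG (ZMod p) 0 q`.  There is `m` with: `c f ≠ 0` implies `f i = i + q` for `i ≥ m` (`f` strictly
  monotone, hits all `v ≥ D`); finitely many such `f`.  Let `F` be the finite set of the strictly
  monotone `f` with `f 0 = 0`, `f i = i + q` for `i ≥ m`.  For `f_t ∈ F` and `f ∈` (strictly monotone,
  `f 0 = 0`) with `phi δ_t f ≠ 0`: `f_t ≤ f` and for `i ≥ m`: `i + q = f_t i ≤ f i`, and `f i < f_t (i+1) = i + 1 + q`, so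
  `f ∈ F`.  Choose `v` supported on `{t : f_t ∈ F}` such that `c - phi v` vanishes on `F`: process the
  elements of `F` in the order of increasing weight `∑_{i<m} f i` (subtracting `c (f_t) phi δ_t` changes
  only values at `f_t` and at `f` with `f_t ≤ f`, `f ≠ f_t`, of larger weight); well founded induction.
  Then `c' = c - phi v` vanishes on all strictly monotone `f` with `f 0 = 0` (outside `F` both are zero), and
  the cocycle condition for `g 0 = 0`, `g (i+1) = f i` (`f 0 > 0`, `Shift g (q-1)`): the terms `i ≥ 1` have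
  `(g ∘ dl i) 0 = 0`, so `c' f = c' (g ∘ dl 0) = 0`.
-/

namespace BPN.E

open Classical in
/-- The cocycle of a finitely supported function on surjections. -/
noncomputable def phi (p : ℕ) (v : Sj →₀ ZMod p) : (ℕ → ℕ) → ZMod p := fun f =>
  ∑ s ∈ v.support.filter (fun s => s.1 ∘ f = id), v s

variable {p : ℕ} [Fact p.Prime]

open Classical in
private theorem phi_eq (v : Sj →₀ ZMod p) (f : ℕ → ℕ) :
    phi p v f = v.sum fun s c => if s.1 ∘ f = id then c else 0 := by
  unfold phi
  rw [Finset.sum_filter]
  rfl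

theorem phi_zero : phi p 0 = 0 := by
  funext f
  rw [phi_eq, Finsupp.sum_zero_index]
  rfl

theorem phi_add (v w : Sj →₀ ZMod p) : phi p (v + w) = phi p v + phi p w := by
  classical
  funext f
  rw [Pi.add_apply, phi_eq, phi_eq, phi_eq, Finsupp.sum_add_index']
  · intro s
    split_ifs <;> rfl
  · intro s a b
    split_ifs
    · rfl
    · rw [add_zero]

/-- `phi` as a homomorphism. -/
private noncomputable def phiH (p : ℕ) [Fact p.Prime] :
    (Sj →₀ ZMod p) →+ ((ℕ → ℕ) → ZMod p) where
  toFun := phi p
  map_zero' := phi_zero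
  map_add' := phi_add

open Classical in
private theorem phi_single (s : Sj) (c : ZMod p) (f : ℕ → ℕ) :
    phi p (Finsupp.single s c) f = if s.1 ∘ f = id then c else 0 := by
  rw [phi_eq, Finsupp.sum_single_index]
  split_ifs <;> rfl

private theorem single_mem (s : Sj) (c : ZMod p) {q : ℤ} (hq : exc s = q) :
    phi p (Finsupp.single s c) ∈ EMG (ZMod p) 0 q := by
  classical
  subst hq
  obtain ⟨N, hN⟩ := exc_spec s
  have h0 := exc_nonneg s
  have hf : ∀ f, phi p (Finsupp.single s c) f ≠ 0 → s.1 ∘ f = id := by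
    intro f hf
    rw [phi_single] at hf
    by_contra h
    exact hf (if_neg h)
  have hst : ∀ f, s.1 ∘ f = id → StrictMono f := by
    intro f h a b hab
    by_contra hn
    have h1 := s.2.1 (not_lt.1 hn)
    have h2 := congrFun h a
    have h3 := congrFun h b
    simp only [Function.comp_apply, id_eq] at h2 h3
    omega
  have hsh : ∀ f, s.1 ∘ f = id → ∀ i, N ≤ i → (f i : ℤ) = i + exc s := by
    intro f h i hi
    have h1 : i ≤ f i := (hst f h).le_apply
    have h2 := hN (f i) (by omega)
    have h3 := congrFun h i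
    simp only [Function.comp_apply, id_eq] at h3
    omega
  refine ⟨fun f h => ⟨hst f (hf f h), N, fun i hi => ?_⟩,
    ⟨N + (exc s).toNat, fun f h v hv => ?_⟩, fun g hg hs => ?_⟩
  · rw [hsh f (hf f h) i hi]
    ring
  · refine ⟨v - (exc s).toNat, ?_⟩
    have h1 := hsh f (hf f h) (v - (exc s).toNat) (by omega)
    omega
  · have hm : Monotone (s.1 ∘ g) := s.2.1.comp hg
    have hsh' : Shift (s.1 ∘ g) (0 - 0 - 1) := by
      obtain ⟨M, hM⟩ := hs
      refine ⟨M + N + (exc s).natAbs + 1, fun i hi => ?_⟩
      have h1 := hM i (by omega)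
      have h2 := hN (g i) (by omega)
      simp only [Function.comp_apply]
      omega
    obtain ⟨K₀, hK⟩ := (EM.bot (ZMod p) 0 c).2.2.2 (s.1 ∘ g) hm hsh'
    refine ⟨K₀, fun K hK' => ?_⟩
    rw [← hK K hK']
    refine Finset.sum_congr rfl fun i _ => ?_
    rw [phi_single]
    rfl

theorem phi_mem {v : Sj →₀ ZMod p} {q : ℤ} (hv : ∀ s ∈ v.support, exc s = q) :
    phi p v ∈ EMG (ZMod p) 0 q := by
  classical
  have h1 : phi p v = ∑ s ∈ v.support, phi p (Finsupp.single s (v s)) := by
    conv_lhs => rw [← Finsupp.sum_single v]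
    exact map_sum (phiH p) _ _
  rw [h1]
  exact AddSubgroup.sum_mem _ fun s hs => single_mem s (v s) (hv s hs)

private theorem pvp (g : Sj → Option Sj) (v : Sj →₀ ZMod p) :
    pv p g v = push (ZMod p) g v := by
  unfold pv push
  rw [Finsupp.lsum_apply]
  refine Finsupp.sum_congr fun s _ => ?_
  cases g s <;> rfl

private theorem phi_act {α : ℕ → ℕ} {c : ℤ} (hα : Monotone α) (hs : Shift α c)
    (v : Sj →₀ ZMod p) : (fun f => phi p v (α ∘ f)) = phi p (pv p (act α) v) := by
  classical
  induction v using Finsupp.induction_linear with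
  | zero =>
    rw [pvp, map_zero, phi_zero]
    rfl
  | add v w h1 h2 =>
    have h3 : pv p (act α) (v + w) = pv p (act α) v + pv p (act α) w := by
      rw [pvp, pvp, pvp, map_add]
    rw [h3, phi_add, phi_add, ← h1, ← h2]
    rfl
  | single s a =>
    funext f
    rw [phi_single, pvp, push_single]
    cases h : act α s with
    | none =>
      rw [Option.elim_none, phi_zero, if_neg]
      · rfl
      · intro h1
        have hsur : Function.Surjective (s.1 ∘ α) := by
          refine Function.Surjective.of_comp (g := f) ?_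
          have h2 : (s.1 ∘ α) ∘ f = id := h1
          rw [h2]
          exact Function.surjective_id
        have hg : Good (s.1 ∘ α) := by
          refine ⟨s.2.1.comp hα, hsur, exc s - c, ?_⟩
          obtain ⟨N, hN⟩ := exc_spec s
          obtain ⟨M, hM⟩ := hs
          refine ⟨M + N + c.natAbs, fun i hi => ?_⟩
          have h1 := hM i (by omega)
          have h2 := hN (α i) (by omega)
          simp only [Function.comp_apply]
          omega
        have h3 : act α s = some ⟨s.1 ∘ α, hg⟩ := act_eq_some.2 rfl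
        rw [h] at h3
        exact absurd h3 (by simp)
    | some t =>
      rw [Option.elim_some, phi_single, act_eq_some.1 h]
      rfl

theorem phi_d (v : Sj →₀ ZMod p) (i : ℕ) :
    (fun f => phi p v (dl i ∘ f)) = phi p (pv p (fa 0 i) v) := by
  refine phi_act (c := 1) (dl_strictMono i).monotone ⟨i, fun j hj => ?_⟩ v
  unfold dl
  rw [if_neg (by omega)]
  push_cast
  rfl

theorem phi_s (v : Sj →₀ ZMod p) (i : ℕ) :
    (fun f => phi p v (sg i ∘ f)) = phi p (pv p (act (sg i)) v) := by
  refine phi_act (c := -1) (sg_mono i) ⟨i + 1, fun j hj => ?_⟩ v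
  unfold sg
  rw [if_neg (by omega)]
  omega

/-! ### minimal sections -/

/-- The minimal section. -/
private noncomputable def sec (s : Sj) (v : ℕ) : ℕ := sInf {i | s.1 i = v}

private theorem sec_spec (s : Sj) (v : ℕ) : s.1 (sec s v) = v := Nat.sInf_mem (s.2.2.1 v)

private theorem sec_le {s : Sj} {v i : ℕ} : sec s v ≤ i ↔ v ≤ s.1 i := by
  constructor
  · intro h
    have h1 := s.2.1 h
    rwa [sec_spec] at h1
  · intro h
    by_contra hn
    have h1 := s.2.1 (not_le.1 hn).le
    rw [sec_spec] at h1
    have h2 : s.1 i = v := le_antisymm h1 h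
    exact hn (Nat.sInf_le h2)

private theorem comp_eq_id {s : Sj} {f : ℕ → ℕ} :
    s.1 ∘ f = id ↔ ∀ v, sec s v ≤ f v ∧ f v < sec s (v + 1) := by
  constructor
  · intro h v
    have h1 := congrFun h v
    simp only [Function.comp_apply, id_eq] at h1
    refine ⟨sec_le.2 h1.ge, ?_⟩
    by_contra hn
    have h2 := sec_le.1 (not_lt.1 hn)
    omega
  · intro h
    funext v
    obtain ⟨h1, h2⟩ := h v
    have h3 := sec_le.1 h1
    have h4 : ¬ v + 1 ≤ s.1 (f v) := fun h5 => absurd (sec_le.2 h5) (not_le.2 h2)
    simp only [Function.comp_apply, id_eq]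
    omega

private theorem comp_sec (s : Sj) : s.1 ∘ sec s = id := funext fun v => sec_spec s v

private theorem sec_inj {s t : Sj} (h : sec s = sec t) : s = t := by
  apply Subtype.ext
  funext i
  apply le_antisymm
  · rw [← sec_le (s := t), ← h, sec_le]
  · rw [← sec_le (s := s), h, sec_le]

theorem phi_inj {v : Sj →₀ ZMod p} (h : phi p v = 0) : v = 0 := by
  classical
  by_contra hv
  have hne : (v.support.image sec).Nonempty := (Finsupp.support_nonempty_iff.2 hv).image _
  obtain ⟨m, hm⟩ := (v.support.image sec).exists_minimal hne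
  obtain ⟨t, ht, rfl⟩ := Finset.mem_image.1 hm.1
  have h1 := congrFun h (sec t)
  have h2 : phi p v (sec t) = v t := by
    unfold phi
    refine Finset.sum_eq_single_of_mem t (Finset.mem_filter.2 ⟨ht, comp_sec t⟩) ?_
    intro s hs hst
    exfalso
    obtain ⟨h3, h4⟩ := Finset.mem_filter.1 hs
    have h5 : sec s ≤ sec t := fun i => (comp_eq_id.1 h4 i).1
    have h6 : sec t ≤ sec s := hm.2 (Finset.mem_image_of_mem _ h3) h5
    exact hst (sec_inj (le_antisymm h5 h6))
  rw [h2] at h1
  exact (Finsupp.mem_support_iff.1 ht) h1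

/-! ### surjectivity -/

private theorem exists_sj {f : ℕ → ℕ} (hf : StrictMono f) (h0 : f 0 = 0) {q : ℤ}
    (hs : Shift f q) : ∃ t : Sj, sec t = f ∧ exc t = q := by
  classical
  let T : ℕ → ℕ := fun i => Nat.findGreatest (fun v => f v ≤ i) i
  have hT : ∀ v i, v ≤ T i ↔ f v ≤ i := by
    intro v i
    constructor
    · intro h
      have h1 : f (T i) ≤ i :=
        Nat.findGreatest_spec (P := fun v => f v ≤ i) (Nat.zero_le i) (by rw [h0]; exact Nat.zero_le i)
      exact (hf.monotone h).trans h1
    · intro h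
      exact Nat.le_findGreatest (hf.le_apply.trans h) h
  have hsh : Shift T (-q) := by
    obtain ⟨N, hN⟩ := hs
    refine ⟨N + q.natAbs, fun i hi => ?_⟩
    obtain ⟨j, hj⟩ : ∃ j : ℕ, (j : ℤ) = i - q := ⟨(i - q).toNat, by omega⟩
    have h1 := hN j (by omega)
    have h2 := hN (j + 1) (by omega)
    have h3 : j ≤ T i := (hT j i).2 (by omega)
    have h4 : ¬ j + 1 ≤ T i := fun h => by
      have h5 := (hT (j + 1) i).1 h
      push_cast at h2
      omega
    omega
  have hg : Good T := by
    refine ⟨fun i j hij => ?_, fun v => ⟨f v, ?_⟩, q, hsh⟩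
    · exact (hT _ _).2 (((hT _ _).1 le_rfl).trans hij)
    · apply le_antisymm
      · by_contra hn
        have h1 := (hT (v + 1) (f v)).1 (by omega)
        have h2 := hf (Nat.lt_succ_self v)
        simp only [Nat.succ_eq_add_one] at h2
        omega
      · exact (hT _ _).2 le_rfl
  refine ⟨⟨T, hg⟩, ?_, exc_unique hsh⟩
  funext v
  apply le_antisymm
  · exact sec_le.2 ((hT _ _).2 le_rfl)
  · exact (hT _ _).1 (sec_le.1 (le_refl (sec ⟨T, hg⟩ v)))

/-- The strictly monotone functions with `f 0 = 0` which are a shift from `m` on. -/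
private def FF (m : ℕ) (q : ℤ) : Set (ℕ → ℕ) :=
  {f | StrictMono f ∧ f 0 = 0 ∧ ∀ i, m ≤ i → (f i : ℤ) = i + q}

private theorem FF_fin (m : ℕ) (q : ℤ) : (FF m q).Finite := by
  refine Set.Finite.of_finite_image (f := fun f => fun i : Fin m => f i) ?_ ?_
  · refine (Set.finite_Iic (fun _ : Fin m => m + q.natAbs)).subset ?_
    rintro _ ⟨f, ⟨h1, h2, h3⟩, rfl⟩
    refine Set.mem_Iic.2 fun i => ?_
    have h4 := h1 i.2
    have h5 := h3 m le_rfl
    change f i ≤ m + q.natAbs
    omega
  · intro f hf g hg h
    funext i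
    by_cases hi : i < m
    · exact congrFun h ⟨i, hi⟩
    · have h1 := hf.2.2 i (not_lt.1 hi)
      have h2 := hg.2.2 i (not_lt.1 hi)
      omega

private theorem elim_FF (m : ℕ) (q : ℤ) (S : Finset (ℕ → ℕ)) : (∀ f ∈ S, f ∈ FF m q) →
    (∀ f ∈ S, ∀ g ∈ FF m q, f ≤ g → g ∈ S) → ∀ c : (ℕ → ℕ) → ZMod p,
    (∀ f ∈ FF m q, c f ≠ 0 → f ∈ S) →
    ∃ v : Sj →₀ ZMod p, (∀ s ∈ v.support, exc s = q ∧ sec s ∈ FF m q) ∧
      ∀ f ∈ FF m q, c f = phi p v f := by
  classical
  induction S using Finset.strongInduction with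
  | H S ih =>
  intro hS hup c hc
  rcases S.eq_empty_or_nonempty with rfl | hne
  · refine ⟨0, by simp, fun f hf => ?_⟩
    rw [phi_zero]
    by_contra h
    exact absurd (hc f hf h) (by simp)
  · obtain ⟨f₀, hf₀⟩ := S.exists_minimal hne
    have hF := hS f₀ hf₀.1
    obtain ⟨t, ht, hq⟩ := exists_sj hF.1 hF.2.1 (q := q) ⟨m, hF.2.2⟩
    have ht0 : t.1 ∘ f₀ = id := by
      rw [← ht]
      exact comp_sec t
    obtain ⟨v, hv1, hv2⟩ := ih (S.erase f₀) (Finset.erase_ssubset hf₀.1)
      (fun f hf => hS f (Finset.mem_of_mem_erase hf))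
      (fun f hf g hg hfg => by
        obtain ⟨h1, h2⟩ := Finset.mem_erase.1 hf
        refine Finset.mem_erase.2 ⟨fun h3 => ?_, hup f h2 g hg hfg⟩
        rw [h3] at hfg
        exact h1 (le_antisymm hfg (hf₀.2 h2 hfg)))
      (fun f => c f - phi p (Finsupp.single t (c f₀)) f)
      (fun f hf h => by
        refine Finset.mem_erase.2 ⟨fun h1 => h ?_, ?_⟩
        · rw [h1, phi_single, if_pos ht0, sub_self]
        · by_contra hfS
          have h1 : c f = 0 := by
            by_contra h2
            exact hfS (hc f hf h2)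
          have h2 : t.1 ∘ f = id := by
            by_contra h3
            apply h
            rw [h1, phi_single, if_neg h3, sub_zero]
          apply hfS
          refine hup f₀ hf₀.1 f hf fun i => ?_
          rw [← ht]
          exact (comp_eq_id.1 h2 i).1)
    refine ⟨v + Finsupp.single t (c f₀), fun s hs => ?_, fun f hf => ?_⟩
    · rcases Finset.mem_union.1 (Finsupp.support_add hs) with h | h
      · exact hv1 s h
      · have h1 := Finset.mem_singleton.1 (Finsupp.support_single_subset h)
        rw [h1, ht]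
        exact ⟨hq, hF⟩
    · rw [phi_add, Pi.add_apply, ← hv2 f hf, sub_add_cancel]

theorem phi_sur {q : ℤ} {c : (ℕ → ℕ) → ZMod p} (hc : c ∈ EMG (ZMod p) 0 q) :
    ∃ v : Sj →₀ ZMod p, (∀ s ∈ v.support, exc s = q) ∧ phi p v = c := by
  classical
  obtain ⟨h1, ⟨D, h2⟩, -⟩ := id hc
  have key : ∀ f, c f ≠ 0 → ∀ i, D ≤ i → (f i : ℤ) = i + q := by
    intro f hf
    obtain ⟨hmono, N, hN⟩ := h1 f hf
    have hstep : ∀ i, D ≤ i → f (i + 1) = f i + 1 := by
      intro i hi
      have h3 : i ≤ f i := hmono.le_apply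
      obtain ⟨j, hj⟩ := h2 f hf (f i + 1) (by omega)
      have h4 := hmono (Nat.lt_succ_self i)
      have h5 : i < j := by
        rw [← hmono.lt_iff_lt, hj]
        exact Nat.lt_succ_self _
      have h6 := hmono.monotone (show i + 1 ≤ j from h5)
      simp only [Nat.succ_eq_add_one] at h4
      omega
    have hn : ∀ n, f (D + n) = f D + n := by
      intro n
      induction n with
      | zero => rfl
      | succ n ih =>
        rw [← Nat.add_assoc, hstep _ (by omega), ih]
        rfl
    intro i hi
    have h7 := hn (i - D)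
    have h8 := hn N
    have h9 := hN (D + N) (by omega)
    have h10 : D + (i - D) = i := by omega
    rw [h10] at h7
    rw [h8] at h9
    push_cast at h9
    omega
  obtain ⟨v, hv1, hv2⟩ := elim_FF (p := p) D q (FF_fin D q).toFinset
    (fun f hf => (Set.Finite.mem_toFinset _).1 hf)
    (fun f _ g hg _ => (Set.Finite.mem_toFinset _).2 hg) c
    (fun f hf _ => (Set.Finite.mem_toFinset _).2 hf)
  refine ⟨v, fun s hs => (hv1 s hs).1, ?_⟩
  have hmem : c - phi p v ∈ EMG (ZMod p) 0 q :=
    AddSubgroup.sub_mem _ hc (phi_mem fun s hs => (hv1 s hs).1)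
  obtain ⟨g1, -, g3⟩ := hmem
  have hA : ∀ f : ℕ → ℕ, f 0 = 0 → (c - phi p v) f = 0 := by
    intro f hf
    by_contra hne
    obtain ⟨hmono, -⟩ := g1 f hne
    have h5 : f ∈ FF D q := by
      refine ⟨hmono, hf, ?_⟩
      by_cases hcf : c f = 0
      · have h6 : phi p v f ≠ 0 := by
          intro h7
          apply hne
          rw [Pi.sub_apply, hcf, h7, sub_zero]
        unfold phi at h6
        obtain ⟨s, hs, -⟩ := Finset.exists_ne_zero_of_sum_ne_zero h6
        obtain ⟨hs1, hs2⟩ := Finset.mem_filter.1 hs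
        intro i hi
        obtain ⟨h7, h8⟩ := comp_eq_id.1 hs2 i
        have h9 := (hv1 s hs1).2.2.2 i hi
        have h10 := (hv1 s hs1).2.2.2 (i + 1) (by omega)
        push_cast at h10
        omega
      · exact key f hcf
    apply hne
    rw [Pi.sub_apply, hv2 f h5, sub_self]
  have hB : ∀ f : ℕ → ℕ, (c - phi p v) f = 0 := by
    intro f
    by_cases hf0 : f 0 = 0
    · exact hA f hf0
    by_contra hne
    obtain ⟨hmono, N, hN⟩ := g1 f hne
    let g : ℕ → ℕ := fun i => if i = 0 then 0 else f (i - 1)
    have hg0 : g 0 = 0 := rfl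
    have hgs : ∀ i, g (i + 1) = f i := fun i => rfl
    have hg : Monotone g := by
      refine monotone_nat_of_le_succ fun i => ?_
      cases i with
      | zero =>
        rw [hg0]
        exact Nat.zero_le _
      | succ i =>
        rw [hgs, hgs]
        exact hmono.monotone (Nat.le_succ i)
    have hsh : Shift g (q - 0 - 1) := by
      refine ⟨N + 1, fun i hi => ?_⟩
      obtain ⟨j, rfl⟩ : ∃ j, i = j + 1 := ⟨i - 1, by omega⟩
      rw [hgs]
      have h3 := hN j (by omega)
      push_cast
      omega
    obtain ⟨K₀, hK⟩ := g3 g hg hsh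
    have h4 := hK (K₀ + 1) (Nat.le_succ _)
    rw [Finset.sum_eq_single_of_mem 0 (Finset.mem_range.2 (Nat.succ_pos _))] at h4
    · apply hne
      have h5 : g ∘ dl 0 = f := by
        funext x
        change g (dl 0 x) = f x
        have h6 : dl 0 x = x + 1 := by
          unfold dl
          rw [if_neg (by omega)]
        rw [h6, hgs]
      rw [h5, pow_zero, one_smul] at h4
      exact h4
    · intro i _ hi
      have h5 : (g ∘ dl i) 0 = 0 := by
        change g (dl i 0) = 0
        have h6 : dl i 0 = 0 := by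
          unfold dl
          rw [if_pos (by omega)]
        rw [h6, hg0]
      rw [hA _ h5, smul_zero]
  funext f
  have h5 := hB f
  rw [Pi.sub_apply, sub_eq_zero] at h5
  exact h5.symm

end BPN.E
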